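import Pool.Agent.Helper6.TOP.Br2

set_option autoImplicit false
set_option linter.all false
set_option maxRecDepth 100000

namespace Pool.Agent.TOPR.R6104

open Helper10.PC hiding V3
open Helper80.CW.DL Pool.Agent.Helper6.TOP

/-- `p` scaled by `2 ^ mu`, degree in `p` at most `dp`, degree in `u` at most `Kd` -/
def mu : ℕ := 12
def dp : ℕ := 6
def Kd : ℕ := 10

/-- exponents of `u` -/
def AL : List Al := [(0, 0, 0), (0, 0, 2), (0, 0, 4), (0, 0, 5), (0, 0, 6), (0, 0, 7), (0, 0, 8), (0, 0, 9), (0, 0, 10), (0, 1, 1), (0, 1, 3), (0, 1, 4), (0, 1, 5), (0, 1, 6), (0, 1, 7), (0, 1, 8), (0, 1, 9), (0, 2, 0), (0, 2, 2), (0, 2, 3), (0, 2, 4), (0, 2, 5), (0, 2, 6), (0, 2, 7), (0, 2, 8), (0, 3, 1), (0, 3, 2), (0, 3, 3), (0, 3, 4), (0, 3, 5), (0, 3, 6), (0, 3, 7), (0, 4, 0), (0, 4, 1), (0, 4, 2), (0, 4, 3), (0, 4, 4), (0, 4, 5), (0, 4, 6), (0, 5, 0), (0, 5, 1), (0, 5, 2), (0, 5, 3), (0, 5, 4), (0, 5, 5), (0, 6, 0), (0, 6, 1), (0, 6, 2), (0, 6, 3), (0, 6,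 4), (0, 7, 0), (0, 7, 1), (0, 7, 2), (0, 7, 3), (0, 8, 0), (0, 8, 1), (0, 8, 2), (0, 9, 0), (0, 9, 1), (0, 10, 0), (1, 0, 3), (1, 0, 4), (1, 0, 5), (1, 0, 6), (1, 0, 7), (1, 0, 8), (1, 0, 9), (1, 1, 2), (1, 1, 3), (1, 1, 4), (1, 1, 5), (1, 1, 6), (1, 1, 7), (1, 1, 8), (1, 2, 1), (1, 2, 2), (1, 2, 3), (1, 2, 4), (1, 2, 5), (1, 2, 6), (1, 2, 7), (1, 3, 0), (1, 3, 1), (1, 3, 2), (1, 3, 3), (1, 3, 4), (1, 3, 5), (1, 3, 6), (1, 4, 0), (1, 4, 1), (1, 4, 2), (1, 4, 3), (1, 4, 4), (1, 4, 5), (1, 5, 0), (1, 5, 1), (1, 5, 2), (1, 5, 3), (1, 5, 4), (1, 6, 0), (1, 6, 1), (1, 6, 2), (1, 6, 3), (1, 7, 0), (1, 7, 1), (1, 7, 2), (1, 8, 0), (1, 8, 1), (1, 9, 0), (2, 0, 0), (2, 0, 2), (2, 0, 3), (2, 0, 4), (2, 0, 5), (2, 0, 6), (2, 0, 7), (2, 0, 8), (2, 1, 1), (2, 1, 2), (2, 1, 3), (2, 1, 4), (2, 1, 5), (2, 1, 6), (2, 1, 7), (2, 2, 0), (2, 2, 1), (2, 2, 2), (2, 2, 3), (2, 2, 4), (2, 2, 5), (2, 2, 6), (2, 3, 0), (2, 3, 1), (2, 3, 2), (2, 3, 3), (2, 3, 4), (2,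 3, 5), (2, 4, 0), (2, 4, 1), (2, 4, 2), (2, 4, 3), (2, 4, 4), (2, 5, 0), (2, 5, 1), (2, 5, 2), (2, 5, 3), (2, 6, 0), (2, 6, 1), (2, 6, 2), (2, 7, 0), (2, 7, 1), (2, 8, 0), (3, 0, 1), (3, 0, 2), (3, 0, 3), (3, 0, 4), (3, 0, 5), (3, 0, 6), (3, 0, 7), (3, 1, 0), (3, 1, 1), (3, 1, 2), (3, 1, 3), (3, 1, 4), (3, 1, 5), (3, 1, 6), (3, 2, 0), (3, 2, 1), (3, 2, 2), (3, 2, 3), (3, 2, 4), (3, 2, 5), (3, 3, 0), (3, 3, 1), (3, 3, 2), (3, 3, 3), (3, 3, 4), (3, 4, 0), (3, 4, 1), (3, 4, 2), (3, 4, 3), (3, 5, 0), (3, 5, 1), (3, 5, 2), (3, 6, 0), (3, 6, 1), (3, 7, 0), (4, 0, 0), (4, 0, 1), (4, 0, 2), (4, 0, 3), (4, 0, 4), (4, 0, 5), (4, 0, 6), (4, 1, 0), (4, 1, 1), (4, 1, 2), (4, 1, 3), (4, 1, 4), (4, 1, 5), (4, 2, 0), (4, 2, 1), (4, 2, 2), (4, 2, 3), (4, 2, 4), (4, 3, 0), (4, 3, 1), (4, 3, 2), (4, 3, 3), (4, 4, 0), (4, 4, 1), (4, 4, 2), (4, 5, 0), (4, 5, 1), (4, 6, 0), (5, 0, 0), (5, 0, 1), (5, 0, 2), (5, 0, 3), (5, 0, 4), (5, 0, 5), (5, 1, 0), (5, 1, 1), (5,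 1, 2), (5, 1, 3), (5, 1, 4), (5, 2, 0), (5, 2, 1), (5, 2, 2), (5, 2, 3), (5, 3, 0), (5, 3, 1), (5, 3, 2), (5, 4, 0), (5, 4, 1), (5, 5, 0), (6, 0, 0), (6, 0, 1), (6, 0, 2), (6, 0, 3), (6, 0, 4), (6, 1, 0), (6, 1, 1), (6, 1, 2), (6, 1, 3), (6, 2, 0), (6, 2, 1), (6, 2, 2), (6, 3, 0), (6, 3, 1), (6, 4, 0), (7, 0, 0), (7, 0, 1), (7, 0, 2), (7, 0, 3), (7, 1, 0), (7, 1, 1), (7, 1, 2), (7, 2, 0), (7, 2, 1), (7, 3, 0), (8, 0, 0), (8, 0, 1), (8, 0, 2), (8, 1, 0), (8, 1, 1), (8, 2, 0), (9, 0, 0), (9, 0, 1), (9, 1, 0), (10, 0, 0)]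


def lQp_0 : List (T ℤ) := [(P (nat_lit 5034231565398356583608483840000)), (P (nat_lit 0)), (T.h (T.h (T.h (M (nat_lit 128120900552666237134832664575)) (T.h (P (nat_lit 0)) (T.h (P (nat_lit 244345310791578333216768)) (T.h (P (nat_lit 0)) (T.h (P (nat_lit 622944617486090240)) (T.h (P (nat_lit 0)) (M (nat_lit 2463187883231)))))))) (T.h (P (nat_lit 0)) (T.h (T.h (M (nat_lit 374856245789455152054271)) (T.h (P (nat_lit 0)) (T.h (M (nat_lit 1937253098095378431)) (T.h (P (nat_lit 0)) (P (nat_lit 3986189105440)))))) (T.h (P (nat_lit 0)) (T.h (T.h (M (nat_lit 3158064110562705407)) (T.h (P (nat_lit 0)) (P (nat_lit 2707914055472)))) (T.h (P (nat_lit 0)) (P (nat_lit 1380574505568)))))))) (T.h (T.h (P (nat_lit 0)) (T.h (T.h (P (nat_lit 0)) (T.h (M (nat_lit 1980045858969294471167)) (T.h (P (nat_lit 0)) (P (nat_lit 3795046400131072))))) (T.h (P (nat_lit 0)) (T.h (T.h (P (nat_lit 0)) (P (nat_lit 2866966031630336))) (P (nat_lit 0)))))) (T.h (T.h (T.h (M (nat_lit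 374856245789455152054271)) (T.h (P (nat_lit 0)) (T.h (M (nat_lit 1937253098095378431)) (T.h (P (nat_lit 0)) (P (nat_lit 3986189105440)))))) (T.h (P (nat_lit 0)) (T.h (T.h (M (nat_lit 1706496107061706751)) (T.h (P (nat_lit 0)) (P (nat_lit 4438957717760)))) (T.h (P (nat_lit 0)) (P (nat_lit 1184705075472)))))) (T.h (T.h (P (nat_lit 0)) (T.h (T.h (P (nat_lit 0)) (P (nat_lit 2866966031630336))) (P (nat_lit 0)))) (T.h (T.h (T.h (M (nat_lit 3158064110562705407)) (T.h (P (nat_lit 0)) (P (nat_lit 2707914055472)))) (T.h (P (nat_lit 0)) (P (nat_lit 1184705075472)))) (T.h (P (nat_lit 0)) (P (nat_lit 1380574505568)))))))), (T.h (T.h (T.h (P (nat_lit 0)) (T.h (M (nat_lit 8133314121465567337798172671)) (T.h (P (nat_lit 0)) (T.h (M (nat_lit 7502146680677998788607)) (T.h (P (nat_lit 0)) (M (nat_lit 7751997443014655))))))) (T.h (P (nat_lit 0)) (T.h (T.h (P (nat_lit 0)) (T.h (M (nat_lit 14007424148448410075135)) (T.h (P (nat_lit 0)) (M (nat_lit 5759402920116223)))))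 (T.h (P (nat_lit 0)) (T.h (T.h (P (nat_lit 0)) (M (nat_lit 13595747359195135))) (P (nat_lit 0))))))) (T.h (T.h (P (nat_lit 0)) (T.h (T.h (P (nat_lit 103747474557095464927232)) (T.h (P (nat_lit 0)) (T.h (P (nat_lit 626996230592921600)) (T.h (P (nat_lit 0)) (M (nat_lit 9410262603583)))))) (T.h (P (nat_lit 0)) (T.h (T.h (M (nat_lit 18511214958193147903)) (T.h (P (nat_lit 0)) (P (nat_lit 7212977179400)))) (T.h (P (nat_lit 0)) (P (nat_lit 2421611621872))))))) (T.h (T.h (T.h (P (nat_lit 0)) (T.h (M (nat_lit 14007424148448410075135)) (T.h (P (nat_lit 0)) (M (nat_lit 5759402920116223))))) (T.h (P (nat_lit 0)) (T.h (T.h (P (nat_lit 0)) (M (nat_lit 5371517203120127))) (P (nat_lit 0))))) (T.h (T.h (P (nat_lit 0)) (T.h (T.h (M (nat_lit 18511214958193147903)) (T.h (P (nat_lit 0)) (P (nat_lit 7212977179400)))) (T.h (P (nat_lit 0)) (P (nat_lit 2964950137424))))) (T.h (T.h (T.h (P (nat_lit 0)) (M (nat_lit 13595747359195135))) (P (nat_lit 0))) (T.h (T.h (P (nat_lit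 0)) (P (nat_lit 2421611621872))) (P (nat_lit 0)))))))), (T.h (T.h (T.h (M (nat_lit 7077145893122241677976934547455)) (T.h (P (nat_lit 0)) (T.h (M (nat_lit 7290160342092228652433407)) (T.h (P (nat_lit 0)) (T.h (P (nat_lit 3847333175462199296)) (T.h (P (nat_lit 0)) (P (nat_lit 5745344476032)))))))) (T.h (P (nat_lit 0)) (T.h (T.h (M (nat_lit 2655676528142138807943167)) (T.h (P (nat_lit 0)) (T.h (M (nat_lit 8677772569119555583)) (T.h (P (nat_lit 0)) (M (nat_lit 6986606627727)))))) (T.h (P (nat_lit 0)) (T.h (T.h (P (nat_lit 1164662279015235584)) (T.h (P (nat_lit 0)) (M (nat_lit 4692097755967)))) (T.h (P (nat_lit 0)) (M (nat_lit 1109493383599)))))))) (T.h (T.h (P (nat_lit 0)) (T.h (T.h (P (nat_lit 0)) (T.h (M (nat_lit 109547411112764375039)) (T.h (P (nat_lit 0)) (M (nat_lit 29576939647533055))))) (T.h (P (nat_lit 0)) (T.h (T.h (P (nat_lit 0)) (P (nat_lit 311553983348736))) (P (nat_lit 0)))))) (T.h (T.h (T.h (M (nat_lit 2655676528142138807943167))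 (T.h (P (nat_lit 0)) (T.h (M (nat_lit 8677772569119555583)) (T.h (P (nat_lit 0)) (M (nat_lit 6986606627727)))))) (T.h (P (nat_lit 0)) (T.h (T.h (M (nat_lit 4091938453573337087)) (T.h (P (nat_lit 0)) (M (nat_lit 10354312704511)))) (T.h (P (nat_lit 0)) (M (nat_lit 1741740014223)))))) (T.h (T.h (P (nat_lit 0)) (T.h (T.h (P (nat_lit 0)) (P (nat_lit 311553983348736))) (P (nat_lit 0)))) (T.h (T.h (T.h (P (nat_lit 1164662279015235584)) (T.h (P (nat_lit 0)) (M (nat_lit 4692097755967)))) (T.h (P (nat_lit 0)) (M (nat_lit 1741740014223)))) (T.h (P (nat_lit 0)) (M (nat_lit 1109493383599)))))))), (T.h (T.h (T.h (P (nat_lit 0)) (T.h (P (nat_lit 8143272965188640913429102592)) (T.h (P (nat_lit 0)) (T.h (P (nat_lit 7541260049816548802560)) (T.h (P (nat_lit 0)) (P (nat_lit 7426438338183168))))))) (T.h (P (nat_lit 0)) (T.h (T.h (P (nat_lit 0)) (T.h (P (nat_lit 14199792496674017902592)) (T.h (P (nat_lit 0)) (P (nat_lit 7349451755749376))))) (T.h (P (nat_lit 0))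 (T.h (T.h (P (nat_lit 0)) (P (nat_lit 9476508357492736))) (P (nat_lit 0))))))) (T.h (T.h (P (nat_lit 0)) (T.h (T.h (P (nat_lit 2475538643173014241280)) (T.h (P (nat_lit 0)) (T.h (P (nat_lit 4175727890098290688)) (T.h (P (nat_lit 0)) (P (nat_lit 18815787712000)))))) (T.h (P (nat_lit 0)) (T.h (T.h (P (nat_lit 20644546159329673216)) (T.h (P (nat_lit 0)) (M (nat_lit 11791955260671)))) (T.h (P (nat_lit 0)) (M (nat_lit 1880274670463))))))) (T.h (T.h (T.h (P (nat_lit 0)) (T.h (P (nat_lit 14199792496674017902592)) (T.h (P (nat_lit 0)) (P (nat_lit 7349451755749376))))) (T.h (P (nat_lit 0)) (T.h (T.h (P (nat_lit 0)) (P (nat_lit 15198055877836800))) (P (nat_lit 0))))) (T.h (T.h (P (nat_lit 0)) (T.h (T.h (P (nat_lit 20644546159329673216)) (T.h (P (nat_lit 0)) (M (nat_lit 11791955260671)))) (T.h (P (nat_lit 0)) (M (nat_lit 5936581743359))))) (T.h (T.h (T.h (P (nat_lit 0)) (P (nat_lit 9476508357492736))) (P (nat_lit 0))) (T.h (T.h (P (nat_lit 0)) (M (nat_lit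 1880274670463))) (P (nat_lit 0)))))))), (T.h (T.h (T.h (P (nat_lit 2172631954831739215942938263552)) (T.h (P (nat_lit 0)) (T.h (P (nat_lit 7101092557652367280963584)) (T.h (P (nat_lit 0)) (M (nat_lit 3403652489910681599)))))) (T.h (P (nat_lit 0)) (T.h (T.h (P (nat_lit 3113098526908072926904320)) (T.h (P (nat_lit 0)) (P (nat_lit 11923797260938248192)))) (T.h (P (nat_lit 0)) (P (nat_lit 3128846296169840640)))))) (T.h (T.h (P (nat_lit 0)) (T.h (T.h (P (nat_lit 0)) (T.h (P (nat_lit 6096585033635921395712)) (T.h (P (nat_lit 0)) (P (nat_lit 19267366617088000))))) (T.h (P (nat_lit 0)) (T.h (T.h (P (nat_lit 0)) (M (nat_lit 6037481093464063))) (P (nat_lit 0)))))) (T.h (T.h (T.h (P (nat_lit 3113098526908072926904320)) (T.h (P (nat_lit 0)) (P (nat_lit 11923797260938248192)))) (T.h (P (nat_lit 0)) (P (nat_lit 5441742847361417216)))) (T.h (T.h (P (nat_lit 0)) (T.h (T.h (P (nat_lit 0)) (M (nat_lit 6037481093464063))) (P (nat_lit 0)))) (P (nat_lit 3128846296169840640)))))),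 (P (nat_lit 0))]
def lQp_1 : List (T ℤ) := [(P (nat_lit 0)), (P (nat_lit 0)), (T.h (T.h (P (nat_lit 0)) (T.h (T.h (P (nat_lit 0)) (T.h (P (nat_lit 8967851728135020949274624)) (T.h (P (nat_lit 0)) (T.h (P (nat_lit 5808715515924840448)) (T.h (P (nat_lit 0)) (M (nat_lit 6298334266991))))))) (T.h (P (nat_lit 0)) (T.h (T.h (P (nat_lit 0)) (T.h (M (nat_lit 1632295132411723775)) (T.h (P (nat_lit 0)) (M (nat_lit 1954457784095))))) (T.h (P (nat_lit 0)) (T.h (T.h (P (nat_lit 0)) (M (nat_lit 1262651453183))) (P (nat_lit 0)))))))) (T.h (T.h (T.h (P (nat_lit 382278186225956246805020672)) (T.h (P (nat_lit 0)) (T.h (M (nat_lit 6393028105238678077439)) (T.h (P (nat_lit 0)) (P (nat_lit 10182874572193792)))))) (T.h (P (nat_lit 0)) (T.h (T.h (P (nat_lit 4917025952193526628352)) (T.h (P (nat_lit 0)) (P (nat_lit 17704818290655232)))) (T.h (P (nat_lit 0)) (P (nat_lit 566836548272128)))))) (T.h (T.h (P (nat_lit 0)) (T.h (T.h (P (nat_lit 0)) (T.h (P (nat_lit 21437333873006477312))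 (T.h (P (nat_lit 0)) (M (nat_lit 14649144822207))))) (T.h (P (nat_lit 0)) (T.h (T.h (P (nat_lit 0)) (P (nat_lit 7808644584816))) (P (nat_lit 0)))))) (T.h (T.h (T.h (M (nat_lit 2314989451720488124415)) (T.h (P (nat_lit 0)) (M (nat_lit 20917731012706303)))) (T.h (P (nat_lit 0)) (P (nat_lit 13535529003122688)))) (T.h (T.h (P (nat_lit 0)) (T.h (T.h (P (nat_lit 0)) (P (nat_lit 9389964963200))) (P (nat_lit 0)))) (M (nat_lit 1940894262886399))))))), (T.h (T.h (P (nat_lit 0)) (T.h (T.h (P (nat_lit 241110326684477318414467072)) (T.h (P (nat_lit 0)) (T.h (M (nat_lit 34978613366834824478719)) (T.h (P (nat_lit 0)) (M (nat_lit 3911014313983999)))))) (T.h (P (nat_lit 0)) (T.h (T.h (M (nat_lit 13210000646600378023935)) (T.h (P (nat_lit 0)) (M (nat_lit 9004722249564159)))) (T.h (P (nat_lit 0)) (M (nat_lit 6511199756582911))))))) (T.h (T.h (T.h (P (nat_lit 0)) (T.h (P (nat_lit 3093988085105477971607552)) (T.h (P (nat_lit 0)) (T.h (P (nat_lit 59942037166122598400))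 (T.h (P (nat_lit 0)) (P (nat_lit 1726339860488))))))) (T.h (P (nat_lit 0)) (T.h (T.h (P (nat_lit 0)) (T.h (M (nat_lit 40575241349622661119)) (T.h (P (nat_lit 0)) (M (nat_lit 9606426461535))))) (T.h (P (nat_lit 0)) (T.h (T.h (P (nat_lit 0)) (P (nat_lit 534616161528))) (P (nat_lit 0))))))) (T.h (T.h (P (nat_lit 0)) (T.h (T.h (P (nat_lit 42574672381838136180736)) (T.h (P (nat_lit 0)) (M (nat_lit 67973831304970239)))) (T.h (P (nat_lit 0)) (P (nat_lit 4128130433777664))))) (T.h (T.h (T.h (P (nat_lit 0)) (T.h (P (nat_lit 31376630254227423232)) (T.h (P (nat_lit 0)) (P (nat_lit 9577825270920))))) (T.h (P (nat_lit 0)) (T.h (T.h (P (nat_lit 0)) (P (nat_lit 9896250995256))) (P (nat_lit 0))))) (T.h (T.h (P (nat_lit 0)) (P (nat_lit 19885691812839424))) (T.h (T.h (T.h (P (nat_lit 0)) (P (nat_lit 617502241472))) (P (nat_lit 0))) (P (nat_lit 0)))))))), (T.h (T.h (P (nat_lit 0)) (T.h (T.h (P (nat_lit 0)) (T.h (M (nat_lit 34245653991761483615174655)) (T.h (P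 (nat_lit 0)) (T.h (P (nat_lit 10955938041285312512)) (T.h (P (nat_lit 0)) (P (nat_lit 11861041236576))))))) (T.h (P (nat_lit 0)) (T.h (T.h (P (nat_lit 0)) (T.h (M (nat_lit 18414233202529927167)) (T.h (P (nat_lit 0)) (P (nat_lit 4308734371088))))) (T.h (P (nat_lit 0)) (T.h (T.h (P (nat_lit 0)) (P (nat_lit 3040955945440))) (P (nat_lit 0)))))))) (T.h (T.h (T.h (P (nat_lit 2070197147691113558778576896)) (T.h (P (nat_lit 0)) (T.h (P (nat_lit 50195457411964089663488)) (T.h (P (nat_lit 0)) (M (nat_lit 1263562713645055)))))) (T.h (P (nat_lit 0)) (T.h (T.h (M (nat_lit 16778713653034530897919)) (T.h (P (nat_lit 0)) (M (nat_lit 41484131990011903)))) (T.h (P (nat_lit 0)) (M (nat_lit 5071474906873855)))))) (T.h (T.h (P (nat_lit 0)) (T.h (T.h (P (nat_lit 0)) (T.h (M (nat_lit 77947200328693710847)) (T.h (P (nat_lit 0)) (P (nat_lit 19135086581520))))) (T.h (P (nat_lit 0)) (T.h (T.h (P (nat_lit 0)) (M (nat_lit 4081026789279))) (P (nat_lit 0)))))) (T.h (T.h (T.h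 (M (nat_lit 1755541345251985719295)) (T.h (P (nat_lit 0)) (P (nat_lit 34533612525666304)))) (T.h (P (nat_lit 0)) (M (nat_lit 8110386514264063)))) (T.h (T.h (P (nat_lit 0)) (T.h (T.h (P (nat_lit 0)) (M (nat_lit 6622509720623))) (P (nat_lit 0)))) (P (nat_lit 2055657166962688))))))), (T.h (T.h (P (nat_lit 0)) (T.h (T.h (M (nat_lit 340004622159091421151231999)) (T.h (P (nat_lit 0)) (T.h (P (nat_lit 24853642217965949550592)) (T.h (P (nat_lit 0)) (M (nat_lit 1447515509358591)))))) (T.h (P (nat_lit 0)) (T.h (T.h (P (nat_lit 8105186808818221187072)) (T.h (P (nat_lit 0)) (P (nat_lit 19166517158117376)))) (T.h (P (nat_lit 0)) (P (nat_lit 8938710452797440))))))) (T.h (T.h (T.h (P (nat_lit 0)) (T.h (M (nat_lit 1960600475507989275475967)) (T.h (P (nat_lit 0)) (T.h (M (nat_lit 48691605605848186879)) (T.h (P (nat_lit 0)) (M (nat_lit 1711617739199))))))) (T.h (P (nat_lit 0)) (T.h (T.h (P (nat_lit 0)) (T.h (M (nat_lit 5346218877418209279)) (T.h (P (nat_lit 0))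 (P (nat_lit 18214856339968))))) (T.h (P (nat_lit 0)) (T.h (T.h (P (nat_lit 0)) (M (nat_lit 5447580911871))) (P (nat_lit 0))))))) (T.h (T.h (P (nat_lit 0)) (T.h (T.h (M (nat_lit 43982686652293688852479)) (T.h (P (nat_lit 0)) (P (nat_lit 60989868666159104)))) (T.h (P (nat_lit 0)) (P (nat_lit 578246134136832))))) (T.h (T.h (T.h (P (nat_lit 0)) (T.h (M (nat_lit 8906692828529164287)) (T.h (P (nat_lit 0)) (P (nat_lit 3170128275712))))) (T.h (P (nat_lit 0)) (T.h (T.h (P (nat_lit 0)) (P (nat_lit 4520161715200))) (P (nat_lit 0))))) (T.h (T.h (P (nat_lit 0)) (M (nat_lit 13389946303381503))) (T.h (T.h (T.h (P (nat_lit 0)) (P (nat_lit 5650489332224))) (P (nat_lit 0))) (P (nat_lit 0)))))))), (T.h (T.h (P (nat_lit 0)) (T.h (T.h (P (nat_lit 0)) (T.h (P (nat_lit 18381355421258832978903040)) (T.h (P (nat_lit 0)) (M (nat_lit 7114211940729094143))))) (T.h (P (nat_lit 0)) (T.h (T.h (P (nat_lit 0)) (P (nat_lit 23203781688285986816))) (P (nat_lit 0)))))) (T.h (T.h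 (T.h (M (nat_lit 2547540643335990035118817279)) (T.h (P (nat_lit 0)) (T.h (M (nat_lit 34455666698401404157951)) (T.h (P (nat_lit 0)) (P (nat_lit 2625970948096000)))))) (T.h (P (nat_lit 0)) (T.h (T.h (P (nat_lit 19946718446392155570176)) (T.h (P (nat_lit 0)) (P (nat_lit 4932788028899328)))) (T.h (P (nat_lit 0)) (M (nat_lit 3801332291633151)))))) (T.h (T.h (P (nat_lit 0)) (T.h (T.h (P (nat_lit 0)) (P (nat_lit 36613268445365010432))) (P (nat_lit 0)))) (T.h (T.h (T.h (M (nat_lit 392783585823669878783)) (T.h (P (nat_lit 0)) (M (nat_lit 584082030985215)))) (T.h (P (nat_lit 0)) (M (nat_lit 3402133379809279)))) (T.h (P (nat_lit 0)) (P (nat_lit 965174953410560))))))), (P (nat_lit 0))]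
def lQp_2 : List (T ℤ) := [(P (nat_lit 0)), (P (nat_lit 0)), (T.h (T.h (T.h (P (nat_lit 2362981971938681723231315951616)) (T.h (P (nat_lit 0)) (T.h (P (nat_lit 2807452377464748726288384)) (T.h (P (nat_lit 0)) (T.h (P (nat_lit 1473600440821088256)) (T.h (P (nat_lit 0)) (P (nat_lit 1881683625120)))))))) (T.h (P (nat_lit 0)) (T.h (T.h (P (nat_lit 2807452377464748726288384)) (T.h (P (nat_lit 0)) (T.h (P (nat_lit 47444693086864670720)) (T.h (P (nat_lit 0)) (M (nat_lit 18230505796079)))))) (T.h (P (nat_lit 0)) (T.h (T.h (P (nat_lit 1473600440821088256)) (T.h (P (nat_lit 0)) (M (nat_lit 18230505796079)))) (T.h (P (nat_lit 0)) (P (nat_lit 1881683625120)))))))) (T.h (T.h (P (nat_lit 0)) (T.h (T.h (P (nat_lit 0)) (T.h (M (nat_lit 50356209117790411423743)) (T.h (P (nat_lit 0)) (P (nat_lit 40788069370691584))))) (T.h (P (nat_lit 0)) (T.h (T.h (P (nat_lit 0)) (P (nat_lit 40788069370691584))) (P (nat_lit 0)))))) (T.h (T.h (T.h (M (nat_lit 7333312270972622047543295))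 (T.h (P (nat_lit 0)) (T.h (M (nat_lit 5859465466359054335)) (T.h (P (nat_lit 0)) (P (nat_lit 1042106905216)))))) (T.h (P (nat_lit 0)) (T.h (T.h (M (nat_lit 5859465466359054335)) (T.h (P (nat_lit 0)) (M (nat_lit 2800608362303)))) (T.h (P (nat_lit 0)) (P (nat_lit 1042106905216)))))) (T.h (T.h (P (nat_lit 0)) (T.h (T.h (P (nat_lit 0)) (M (nat_lit 124448709464817663))) (P (nat_lit 0)))) (T.h (T.h (T.h (P (nat_lit 2883080607284330496)) (T.h (P (nat_lit 0)) (P (nat_lit 5661848525520)))) (T.h (P (nat_lit 0)) (P (nat_lit 5661848525520)))) (T.h (P (nat_lit 0)) (M (nat_lit 938032279007)))))))), (T.h (T.h (T.h (P (nat_lit 0)) (T.h (P (nat_lit 11005145223650182096316530688)) (T.h (P (nat_lit 0)) (T.h (P (nat_lit 5741794418175510577152)) (T.h (P (nat_lit 0)) (P (nat_lit 4029155842719744))))))) (T.h (P (nat_lit 0)) (T.h (T.h (P (nat_lit 0)) (T.h (P (nat_lit 39490502087022798176256)) (T.h (P (nat_lit 0)) (M (nat_lit 31548207555444735))))) (T.h (P (nat_lit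 0)) (T.h (T.h (P (nat_lit 0)) (M (nat_lit 56707233229471743))) (P (nat_lit 0))))))) (T.h (T.h (P (nat_lit 0)) (T.h (T.h (M (nat_lit 17541619870994263948918783)) (T.h (P (nat_lit 0)) (T.h (P (nat_lit 205831188913407918080)) (T.h (P (nat_lit 0)) (P (nat_lit 6301638309736)))))) (T.h (P (nat_lit 0)) (T.h (T.h (M (nat_lit 843162690380627967)) (T.h (P (nat_lit 0)) (M (nat_lit 8975987171199)))) (T.h (P (nat_lit 0)) (P (nat_lit 4719196154696))))))) (T.h (T.h (T.h (P (nat_lit 0)) (T.h (M (nat_lit 20325239418068966309887)) (T.h (P (nat_lit 0)) (P (nat_lit 5139061906145280))))) (T.h (P (nat_lit 0)) (T.h (T.h (P (nat_lit 0)) (P (nat_lit 6667066154123264))) (P (nat_lit 0))))) (T.h (T.h (P (nat_lit 0)) (T.h (T.h (M (nat_lit 49482143641827803135)) (T.h (P (nat_lit 0)) (P (nat_lit 9172057143024)))) (T.h (P (nat_lit 0)) (M (nat_lit 4388847908527))))) (T.h (T.h (T.h (P (nat_lit 0)) (P (nat_lit 280878511489024))) (P (nat_lit 0))) (T.h (T.h (P (nat_lit 0)) (P (nat_lit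 536236352936))) (P (nat_lit 0)))))))), (T.h (T.h (T.h (M (nat_lit 15835445583881214503361032749055)) (T.h (P (nat_lit 0)) (T.h (P (nat_lit 5078850608105316436410368)) (T.h (P (nat_lit 0)) (T.h (M (nat_lit 9751005981399056383)) (T.h (P (nat_lit 0)) (M (nat_lit 8507132336751)))))))) (T.h (P (nat_lit 0)) (T.h (T.h (M (nat_lit 15954732730147194716291071)) (T.h (P (nat_lit 0)) (T.h (M (nat_lit 14048468776677015551)) (T.h (P (nat_lit 0)) (P (nat_lit 37577714858544)))))) (T.h (P (nat_lit 0)) (T.h (T.h (M (nat_lit 19887400155925708799)) (T.h (P (nat_lit 0)) (P (nat_lit 29692863900784)))) (T.h (P (nat_lit 0)) (M (nat_lit 4773610931599)))))))) (T.h (T.h (P (nat_lit 0)) (T.h (T.h (P (nat_lit 0)) (T.h (P (nat_lit 137274296418244684152832)) (T.h (P (nat_lit 0)) (M (nat_lit 89082000361291775))))) (T.h (P (nat_lit 0)) (T.h (T.h (P (nat_lit 0)) (M (nat_lit 38572466754813951))) (P (nat_lit 0)))))) (T.h (T.h (T.h (P (nat_lit 27829060430611715415080960)) (T.h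 (P (nat_lit 0)) (T.h (M (nat_lit 62468435583149539327)) (T.h (P (nat_lit 0)) (M (nat_lit 16452623026111)))))) (T.h (P (nat_lit 0)) (T.h (T.h (M (nat_lit 25355989848697077759)) (T.h (P (nat_lit 0)) (P (nat_lit 14277571269584)))) (T.h (P (nat_lit 0)) (P (nat_lit 15366368407824)))))) (T.h (T.h (P (nat_lit 0)) (T.h (T.h (P (nat_lit 0)) (P (nat_lit 164907919411740672))) (P (nat_lit 0)))) (T.h (T.h (T.h (P (nat_lit 8856044916250247168)) (T.h (P (nat_lit 0)) (M (nat_lit 8671366263727)))) (T.h (P (nat_lit 0)) (M (nat_lit 6732252487071)))) (T.h (P (nat_lit 0)) (M (nat_lit 1807611555343)))))))), (T.h (T.h (T.h (P (nat_lit 0)) (T.h (M (nat_lit 4304148551281740831751405567)) (T.h (P (nat_lit 0)) (T.h (M (nat_lit 16707090653062109331455)) (T.h (P (nat_lit 0)) (M (nat_lit 5776898915696639))))))) (T.h (P (nat_lit 0)) (T.h (T.h (P (nat_lit 0)) (T.h (M (nat_lit 1015608543622518013951)) (T.h (P (nat_lit 0)) (P (nat_lit 52808192605061120))))) (T.h (P (nat_lit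 0)) (T.h (T.h (P (nat_lit 0)) (P (nat_lit 92647970569584640))) (P (nat_lit 0))))))) (T.h (T.h (P (nat_lit 0)) (T.h (T.h (P (nat_lit 10494658871746831442771968)) (T.h (P (nat_lit 0)) (T.h (M (nat_lit 166341497935569616895)) (T.h (P (nat_lit 0)) (M (nat_lit 4401048221823)))))) (T.h (P (nat_lit 0)) (T.h (T.h (M (nat_lit 13063050751532597247)) (T.h (P (nat_lit 0)) (P (nat_lit 337539405120)))) (T.h (P (nat_lit 0)) (M (nat_lit 6448005040191))))))) (T.h (T.h (T.h (P (nat_lit 0)) (T.h (M (nat_lit 25313360426532698324991)) (T.h (P (nat_lit 0)) (M (nat_lit 26109669090557951))))) (T.h (P (nat_lit 0)) (T.h (T.h (P (nat_lit 0)) (M (nat_lit 22080326634962943))) (P (nat_lit 0))))) (T.h (T.h (P (nat_lit 0)) (T.h (T.h (P (nat_lit 34139594727559790592)) (T.h (P (nat_lit 0)) (P (nat_lit 12743561461376)))) (T.h (P (nat_lit 0)) (P (nat_lit 19930650988864))))) (T.h (T.h (T.h (P (nat_lit 0)) (M (nat_lit 39992299983962111))) (P (nat_lit 0))) (T.h (T.h (P (nat_lit 0))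 (M (nat_lit 14192755560127))) (P (nat_lit 0)))))))), (T.h (T.h (T.h (P (nat_lit 848019981192476839092825358336)) (T.h (P (nat_lit 0)) (T.h (M (nat_lit 3438041479358372487626751)) (T.h (P (nat_lit 0)) (P (nat_lit 3512947433225060352)))))) (T.h (P (nat_lit 0)) (T.h (T.h (P (nat_lit 6614624667399100999663616)) (T.h (P (nat_lit 0)) (P (nat_lit 19910758226580209664)))) (T.h (P (nat_lit 0)) (P (nat_lit 30926891337990012928)))))) (T.h (T.h (P (nat_lit 0)) (T.h (T.h (P (nat_lit 0)) (T.h (M (nat_lit 41729021910207325798399)) (T.h (P (nat_lit 0)) (P (nat_lit 4819333066915840))))) (T.h (P (nat_lit 0)) (T.h (T.h (P (nat_lit 0)) (M (nat_lit 5405502678335487))) (P (nat_lit 0)))))) (T.h (T.h (T.h (M (nat_lit 10653213847725133906575359)) (T.h (P (nat_lit 0)) (P (nat_lit 3300389089831813120)))) (T.h (P (nat_lit 0)) (M (nat_lit 3947790254513061887)))) (T.h (T.h (P (nat_lit 0)) (T.h (T.h (P (nat_lit 0)) (P (nat_lit 8839026266406912))) (P (nat_lit 0)))) (M (nat_lit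 11113978180799561727)))))), (P (nat_lit 0))]
def lQp_3 : List (T ℤ) := [(P (nat_lit 0)), (T.h (T.h (P (nat_lit 0)) (T.h (T.h (P (nat_lit 0)) (T.h (P (nat_lit 8967851728135020949274624)) (T.h (P (nat_lit 0)) (T.h (M (nat_lit 1632295132411723775)) (T.h (P (nat_lit 0)) (M (nat_lit 1262651453183))))))) (T.h (P (nat_lit 0)) (T.h (T.h (P (nat_lit 0)) (T.h (P (nat_lit 5808715515924840448)) (T.h (P (nat_lit 0)) (M (nat_lit 1954457784095))))) (T.h (P (nat_lit 0)) (T.h (T.h (P (nat_lit 0)) (M (nat_lit 6298334266991))) (P (nat_lit 0)))))))) (T.h (T.h (T.h (P (nat_lit 382278186225956246805020672)) (T.h (P (nat_lit 0)) (T.h (P (nat_lit 4917025952193526628352)) (T.h (P (nat_lit 0)) (P (nat_lit 566836548272128)))))) (T.h (P (nat_lit 0)) (T.h (T.h (M (nat_lit 6393028105238678077439)) (T.h (P (nat_lit 0)) (P (nat_lit 17704818290655232)))) (T.h (P (nat_lit 0)) (P (nat_lit 10182874572193792)))))) (T.h (T.h (P (nat_lit 0)) (T.h (T.h (P (nat_lit 0)) (T.h (P (nat_lit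 21437333873006477312)) (T.h (P (nat_lit 0)) (P (nat_lit 7808644584816))))) (T.h (P (nat_lit 0)) (T.h (T.h (P (nat_lit 0)) (M (nat_lit 14649144822207))) (P (nat_lit 0)))))) (T.h (T.h (T.h (M (nat_lit 2314989451720488124415)) (T.h (P (nat_lit 0)) (P (nat_lit 13535529003122688)))) (T.h (P (nat_lit 0)) (M (nat_lit 20917731012706303)))) (T.h (T.h (P (nat_lit 0)) (T.h (T.h (P (nat_lit 0)) (P (nat_lit 9389964963200))) (P (nat_lit 0)))) (M (nat_lit 1940894262886399))))))), (T.h (T.h (P (nat_lit 0)) (T.h (T.h (P (nat_lit 11005145223650182096316530688)) (T.h (P (nat_lit 0)) (T.h (P (nat_lit 39490502087022798176256)) (T.h (P (nat_lit 0)) (M (nat_lit 56707233229471743)))))) (T.h (P (nat_lit 0)) (T.h (T.h (P (nat_lit 5741794418175510577152)) (T.h (P (nat_lit 0)) (M (nat_lit 31548207555444735)))) (T.h (P (nat_lit 0)) (P (nat_lit 4029155842719744))))))) (T.h (T.h (T.h (P (nat_lit 0)) (T.h (M (nat_lit 17541619870994263948918783)) (T.h (P (nat_lit 0)) (T.h (M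 (nat_lit 843162690380627967)) (T.h (P (nat_lit 0)) (P (nat_lit 4719196154696))))))) (T.h (P (nat_lit 0)) (T.h (T.h (P (nat_lit 0)) (T.h (P (nat_lit 205831188913407918080)) (T.h (P (nat_lit 0)) (M (nat_lit 8975987171199))))) (T.h (P (nat_lit 0)) (T.h (T.h (P (nat_lit 0)) (P (nat_lit 6301638309736))) (P (nat_lit 0))))))) (T.h (T.h (P (nat_lit 0)) (T.h (T.h (M (nat_lit 20325239418068966309887)) (T.h (P (nat_lit 0)) (P (nat_lit 6667066154123264)))) (T.h (P (nat_lit 0)) (P (nat_lit 5139061906145280))))) (T.h (T.h (T.h (P (nat_lit 0)) (T.h (M (nat_lit 49482143641827803135)) (T.h (P (nat_lit 0)) (M (nat_lit 4388847908527))))) (T.h (P (nat_lit 0)) (T.h (T.h (P (nat_lit 0)) (P (nat_lit 9172057143024))) (P (nat_lit 0))))) (T.h (T.h (P (nat_lit 0)) (P (nat_lit 280878511489024))) (T.h (T.h (T.h (P (nat_lit 0)) (P (nat_lit 536236352936))) (P (nat_lit 0))) (P (nat_lit 0)))))))), (T.h (T.h (P (nat_lit 0)) (T.h (T.h (P (nat_lit 0)) (T.h (P (nat_lit 8447821923587479908122624))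 (T.h (P (nat_lit 0)) (T.h (P (nat_lit 18426835693675216896)) (T.h (P (nat_lit 0)) (P (nat_lit 14337066975168))))))) (T.h (P (nat_lit 0)) (T.h (T.h (P (nat_lit 0)) (T.h (P (nat_lit 18426835693675216896)) (T.h (P (nat_lit 0)) (P (nat_lit 43766994916064))))) (T.h (P (nat_lit 0)) (T.h (T.h (P (nat_lit 0)) (P (nat_lit 14337066975168))) (P (nat_lit 0)))))))) (T.h (T.h (T.h (M (nat_lit 16412601912802300674357329919)) (T.h (P (nat_lit 0)) (T.h (P (nat_lit 66547056180224958922752)) (T.h (P (nat_lit 0)) (P (nat_lit 26772851980058624)))))) (T.h (P (nat_lit 0)) (T.h (T.h (P (nat_lit 66547056180224958922752)) (T.h (P (nat_lit 0)) (M (nat_lit 128055293209313279)))) (T.h (P (nat_lit 0)) (P (nat_lit 26772851980058624)))))) (T.h (T.h (P (nat_lit 0)) (T.h (T.h (P (nat_lit 0)) (T.h (M (nat_lit 138309133156342562815)) (T.h (P (nat_lit 0)) (M (nat_lit 15616341643055))))) (T.h (P (nat_lit 0)) (T.h (T.h (P (nat_lit 0)) (M (nat_lit 15616341643055))) (P (nat_lit 0))))))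 (T.h (T.h (T.h (M (nat_lit 24913952668255625674751)) (T.h (P (nat_lit 0)) (P (nat_lit 36138227289112576)))) (T.h (P (nat_lit 0)) (P (nat_lit 36138227289112576)))) (T.h (T.h (P (nat_lit 0)) (T.h (T.h (P (nat_lit 0)) (M (nat_lit 28206262997471))) (P (nat_lit 0)))) (P (nat_lit 6836981340864512))))))), (T.h (T.h (P (nat_lit 0)) (T.h (T.h (M (nat_lit 7180220735172970116427022335)) (T.h (P (nat_lit 0)) (T.h (M (nat_lit 81238814070020872601599)) (T.h (P (nat_lit 0)) (P (nat_lit 75530142658265088)))))) (T.h (P (nat_lit 0)) (T.h (T.h (P (nat_lit 44230263680022452633600)) (T.h (P (nat_lit 0)) (P (nat_lit 80256168116682752)))) (T.h (P (nat_lit 0)) (P (nat_lit 1462772452884480))))))) (T.h (T.h (T.h (P (nat_lit 0)) (T.h (P (nat_lit 57987338973388860091793408)) (T.h (P (nat_lit 0)) (T.h (M (nat_lit 57443828061226139647)) (T.h (P (nat_lit 0)) (M (nat_lit 26887879288831))))))) (T.h (P (nat_lit 0)) (T.h (T.h (P (nat_lit 0)) (T.h (M (nat_lit 82087647970215329791))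 (T.h (P (nat_lit 0)) (P (nat_lit 9298428385344))))) (T.h (P (nat_lit 0)) (T.h (T.h (P (nat_lit 0)) (M (nat_lit 67063572229183))) (P (nat_lit 0))))))) (T.h (T.h (P (nat_lit 0)) (T.h (T.h (M (nat_lit 15475025479053248299007)) (T.h (P (nat_lit 0)) (P (nat_lit 15995042885500928)))) (T.h (P (nat_lit 0)) (M (nat_lit 21552170617831423))))) (T.h (T.h (T.h (P (nat_lit 0)) (T.h (P (nat_lit 117840652395666735104)) (T.h (P (nat_lit 0)) (P (nat_lit 1913329872704))))) (T.h (P (nat_lit 0)) (T.h (T.h (P (nat_lit 0)) (M (nat_lit 19829994406847))) (P (nat_lit 0))))) (T.h (T.h (P (nat_lit 0)) (M (nat_lit 20715710340333567))) (T.h (T.h (T.h (P (nat_lit 0)) (P (nat_lit 10910827925824))) (P (nat_lit 0))) (P (nat_lit 0)))))))), (T.h (T.h (P (nat_lit 0)) (T.h (T.h (P (nat_lit 0)) (T.h (M (nat_lit 18571853267465370509246463)) (T.h (P (nat_lit 0)) (P (nat_lit 35935822232235802624))))) (T.h (P (nat_lit 0)) (T.h (T.h (P (nat_lit 0)) (P (nat_lit 76155881187738386432)))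 (P (nat_lit 0)))))) (T.h (T.h (T.h (P (nat_lit 6099708548673304496447684608)) (T.h (P (nat_lit 0)) (T.h (M (nat_lit 39385658327280031629311)) (T.h (P (nat_lit 0)) (M (nat_lit 35543153834491903)))))) (T.h (P (nat_lit 0)) (T.h (T.h (P (nat_lit 914033056629670281216)) (T.h (P (nat_lit 0)) (P (nat_lit 7400423263076352)))) (T.h (P (nat_lit 0)) (M (nat_lit 25421720942116863)))))) (T.h (T.h (P (nat_lit 0)) (T.h (T.h (P (nat_lit 0)) (M (nat_lit 2818795405779664895))) (P (nat_lit 0)))) (T.h (T.h (T.h (P (nat_lit 17907237936627615531008)) (T.h (P (nat_lit 0)) (P (nat_lit 4731789076348928)))) (T.h (P (nat_lit 0)) (P (nat_lit 10230261391294464)))) (T.h (P (nat_lit 0)) (M (nat_lit 840173474381823))))))), (P (nat_lit 0)), (P (nat_lit 0))]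
def lQp_4 : List (T ℤ) := [(T.h (T.h (T.h (M (nat_lit 128120900552666237134832664575)) (T.h (P (nat_lit 0)) (T.h (M (nat_lit 374856245789455152054271)) (T.h (P (nat_lit 0)) (T.h (M (nat_lit 3158064110562705407)) (T.h (P (nat_lit 0)) (P (nat_lit 1380574505568)))))))) (T.h (P (nat_lit 0)) (T.h (T.h (P (nat_lit 244345310791578333216768)) (T.h (P (nat_lit 0)) (T.h (M (nat_lit 1937253098095378431)) (T.h (P (nat_lit 0)) (P (nat_lit 2707914055472)))))) (T.h (P (nat_lit 0)) (T.h (T.h (P (nat_lit 622944617486090240)) (T.h (P (nat_lit 0)) (P (nat_lit 3986189105440)))) (T.h (P (nat_lit 0)) (M (nat_lit 2463187883231)))))))) (T.h (T.h (P (nat_lit 0)) (T.h (T.h (P (nat_lit 0)) (T.h (M (nat_lit 1980045858969294471167)) (T.h (P (nat_lit 0)) (P (nat_lit 2866966031630336))))) (T.h (P (nat_lit 0)) (T.h (T.h (P (nat_lit 0)) (P (nat_lit 3795046400131072))) (P (nat_lit 0)))))) (T.h (T.h (T.h (M (nat_lit 374856245789455152054271)) (T.h (P (nat_lit 0)) (T.h (M (nat_lit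 1706496107061706751)) (T.h (P (nat_lit 0)) (P (nat_lit 1184705075472)))))) (T.h (P (nat_lit 0)) (T.h (T.h (M (nat_lit 1937253098095378431)) (T.h (P (nat_lit 0)) (P (nat_lit 4438957717760)))) (T.h (P (nat_lit 0)) (P (nat_lit 3986189105440)))))) (T.h (T.h (P (nat_lit 0)) (T.h (T.h (P (nat_lit 0)) (P (nat_lit 2866966031630336))) (P (nat_lit 0)))) (T.h (T.h (T.h (M (nat_lit 3158064110562705407)) (T.h (P (nat_lit 0)) (P (nat_lit 1184705075472)))) (T.h (P (nat_lit 0)) (P (nat_lit 2707914055472)))) (T.h (P (nat_lit 0)) (P (nat_lit 1380574505568)))))))), (T.h (T.h (T.h (P (nat_lit 0)) (T.h (P (nat_lit 241110326684477318414467072)) (T.h (P (nat_lit 0)) (T.h (M (nat_lit 13210000646600378023935)) (T.h (P (nat_lit 0)) (M (nat_lit 6511199756582911))))))) (T.h (P (nat_lit 0)) (T.h (T.h (P (nat_lit 0)) (T.h (M (nat_lit 34978613366834824478719)) (T.h (P (nat_lit 0)) (M (nat_lit 9004722249564159))))) (T.h (P (nat_lit 0)) (T.h (T.h (P (nat_lit 0)) (M (nat_lit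 3911014313983999))) (P (nat_lit 0))))))) (T.h (T.h (P (nat_lit 0)) (T.h (T.h (P (nat_lit 3093988085105477971607552)) (T.h (P (nat_lit 0)) (T.h (M (nat_lit 40575241349622661119)) (T.h (P (nat_lit 0)) (P (nat_lit 534616161528)))))) (T.h (P (nat_lit 0)) (T.h (T.h (P (nat_lit 59942037166122598400)) (T.h (P (nat_lit 0)) (M (nat_lit 9606426461535)))) (T.h (P (nat_lit 0)) (P (nat_lit 1726339860488))))))) (T.h (T.h (T.h (P (nat_lit 0)) (T.h (P (nat_lit 42574672381838136180736)) (T.h (P (nat_lit 0)) (P (nat_lit 4128130433777664))))) (T.h (P (nat_lit 0)) (T.h (T.h (P (nat_lit 0)) (M (nat_lit 67973831304970239))) (P (nat_lit 0))))) (T.h (T.h (P (nat_lit 0)) (T.h (T.h (P (nat_lit 31376630254227423232)) (T.h (P (nat_lit 0)) (P (nat_lit 9896250995256)))) (T.h (P (nat_lit 0)) (P (nat_lit 9577825270920))))) (T.h (T.h (T.h (P (nat_lit 0)) (P (nat_lit 19885691812839424))) (P (nat_lit 0))) (T.h (T.h (P (nat_lit 0)) (P (nat_lit 617502241472))) (P (nat_lit 0)))))))),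 (T.h (T.h (T.h (M (nat_lit 15835445583881214503361032749055)) (T.h (P (nat_lit 0)) (T.h (M (nat_lit 15954732730147194716291071)) (T.h (P (nat_lit 0)) (T.h (M (nat_lit 19887400155925708799)) (T.h (P (nat_lit 0)) (M (nat_lit 4773610931599)))))))) (T.h (P (nat_lit 0)) (T.h (T.h (P (nat_lit 5078850608105316436410368)) (T.h (P (nat_lit 0)) (T.h (M (nat_lit 14048468776677015551)) (T.h (P (nat_lit 0)) (P (nat_lit 29692863900784)))))) (T.h (P (nat_lit 0)) (T.h (T.h (M (nat_lit 9751005981399056383)) (T.h (P (nat_lit 0)) (P (nat_lit 37577714858544)))) (T.h (P (nat_lit 0)) (M (nat_lit 8507132336751)))))))) (T.h (T.h (P (nat_lit 0)) (T.h (T.h (P (nat_lit 0)) (T.h (P (nat_lit 137274296418244684152832)) (T.h (P (nat_lit 0)) (M (nat_lit 38572466754813951))))) (T.h (P (nat_lit 0)) (T.h (T.h (P (nat_lit 0)) (M (nat_lit 89082000361291775))) (P (nat_lit 0)))))) (T.h (T.h (T.h (P (nat_lit 27829060430611715415080960)) (T.h (P (nat_lit 0)) (T.h (M (nat_lit 25355989848697077759))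 (T.h (P (nat_lit 0)) (P (nat_lit 15366368407824)))))) (T.h (P (nat_lit 0)) (T.h (T.h (M (nat_lit 62468435583149539327)) (T.h (P (nat_lit 0)) (P (nat_lit 14277571269584)))) (T.h (P (nat_lit 0)) (M (nat_lit 16452623026111)))))) (T.h (T.h (P (nat_lit 0)) (T.h (T.h (P (nat_lit 0)) (P (nat_lit 164907919411740672))) (P (nat_lit 0)))) (T.h (T.h (T.h (P (nat_lit 8856044916250247168)) (T.h (P (nat_lit 0)) (M (nat_lit 6732252487071)))) (T.h (P (nat_lit 0)) (M (nat_lit 8671366263727)))) (T.h (P (nat_lit 0)) (M (nat_lit 1807611555343)))))))), (T.h (T.h (T.h (P (nat_lit 0)) (T.h (M (nat_lit 7180220735172970116427022335)) (T.h (P (nat_lit 0)) (T.h (P (nat_lit 44230263680022452633600)) (T.h (P (nat_lit 0)) (P (nat_lit 1462772452884480))))))) (T.h (P (nat_lit 0)) (T.h (T.h (P (nat_lit 0)) (T.h (M (nat_lit 81238814070020872601599)) (T.h (P (nat_lit 0)) (P (nat_lit 80256168116682752))))) (T.h (P (nat_lit 0)) (T.h (T.h (P (nat_lit 0)) (P (nat_lit 75530142658265088)))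 (P (nat_lit 0))))))) (T.h (T.h (P (nat_lit 0)) (T.h (T.h (P (nat_lit 57987338973388860091793408)) (T.h (P (nat_lit 0)) (T.h (M (nat_lit 82087647970215329791)) (T.h (P (nat_lit 0)) (M (nat_lit 67063572229183)))))) (T.h (P (nat_lit 0)) (T.h (T.h (M (nat_lit 57443828061226139647)) (T.h (P (nat_lit 0)) (P (nat_lit 9298428385344)))) (T.h (P (nat_lit 0)) (M (nat_lit 26887879288831))))))) (T.h (T.h (T.h (P (nat_lit 0)) (T.h (M (nat_lit 15475025479053248299007)) (T.h (P (nat_lit 0)) (M (nat_lit 21552170617831423))))) (T.h (P (nat_lit 0)) (T.h (T.h (P (nat_lit 0)) (P (nat_lit 15995042885500928))) (P (nat_lit 0))))) (T.h (T.h (P (nat_lit 0)) (T.h (T.h (P (nat_lit 117840652395666735104)) (T.h (P (nat_lit 0)) (M (nat_lit 19829994406847)))) (T.h (P (nat_lit 0)) (P (nat_lit 1913329872704))))) (T.h (T.h (T.h (P (nat_lit 0)) (M (nat_lit 20715710340333567))) (P (nat_lit 0))) (T.h (T.h (P (nat_lit 0)) (P (nat_lit 10910827925824))) (P (nat_lit 0)))))))), (T.h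 (T.h (T.h (M (nat_lit 984195350018325543104137920511)) (T.h (P (nat_lit 0)) (T.h (P (nat_lit 15230894307888454317375488)) (T.h (P (nat_lit 0)) (P (nat_lit 15566893289482223616)))))) (T.h (P (nat_lit 0)) (T.h (T.h (P (nat_lit 15230894307888454317375488)) (T.h (P (nat_lit 0)) (P (nat_lit 10893491707010088960)))) (T.h (P (nat_lit 0)) (P (nat_lit 15566893289482223616)))))) (T.h (T.h (P (nat_lit 0)) (T.h (T.h (P (nat_lit 0)) (T.h (P (nat_lit 5141982376459845500928)) (T.h (P (nat_lit 0)) (M (nat_lit 63912302629388287))))) (T.h (P (nat_lit 0)) (T.h (T.h (P (nat_lit 0)) (M (nat_lit 63912302629388287))) (P (nat_lit 0)))))) (T.h (T.h (T.h (P (nat_lit 353537135146806275997696)) (T.h (P (nat_lit 0)) (M (nat_lit 21389219787958124543)))) (T.h (P (nat_lit 0)) (M (nat_lit 21389219787958124543)))) (T.h (T.h (P (nat_lit 0)) (T.h (T.h (P (nat_lit 0)) (M (nat_lit 20305914272612351))) (P (nat_lit 0)))) (M (nat_lit 4364305523307184127)))))), (P (nat_lit 0)), (P (nat_lit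 0)), (T.h (T.h (P (nat_lit 0)) (T.h (T.h (M (nat_lit 8133314121465567337798172671)) (T.h (P (nat_lit 0)) (T.h (M (nat_lit 14007424148448410075135)) (T.h (P (nat_lit 0)) (M (nat_lit 13595747359195135)))))) (T.h (P (nat_lit 0)) (T.h (T.h (M (nat_lit 7502146680677998788607)) (T.h (P (nat_lit 0)) (M (nat_lit 5759402920116223)))) (T.h (P (nat_lit 0)) (M (nat_lit 7751997443014655))))))) (T.h (T.h (T.h (P (nat_lit 0)) (T.h (P (nat_lit 103747474557095464927232)) (T.h (P (nat_lit 0)) (T.h (M (nat_lit 18511214958193147903)) (T.h (P (nat_lit 0)) (P (nat_lit 2421611621872))))))) (T.h (P (nat_lit 0)) (T.h (T.h (P (nat_lit 0)) (T.h (P (nat_lit 626996230592921600)) (T.h (P (nat_lit 0)) (P (nat_lit 7212977179400))))) (T.h (P (nat_lit 0)) (T.h (T.h (P (nat_lit 0)) (M (nat_lit 9410262603583))) (P (nat_lit 0))))))) (T.h (T.h (P (nat_lit 0)) (T.h (T.h (M (nat_lit 14007424148448410075135)) (T.h (P (nat_lit 0)) (M (nat_lit 5371517203120127)))) (T.h (P (nat_lit 0))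 (M (nat_lit 5759402920116223))))) (T.h (T.h (T.h (P (nat_lit 0)) (T.h (M (nat_lit 18511214958193147903)) (T.h (P (nat_lit 0)) (P (nat_lit 2964950137424))))) (T.h (P (nat_lit 0)) (T.h (T.h (P (nat_lit 0)) (P (nat_lit 7212977179400))) (P (nat_lit 0))))) (T.h (T.h (P (nat_lit 0)) (M (nat_lit 13595747359195135))) (T.h (T.h (T.h (P (nat_lit 0)) (P (nat_lit 2421611621872))) (P (nat_lit 0))) (P (nat_lit 0))))))))]
def lQp_5 : List (T ℤ) := [(T.h (T.h (P (nat_lit 0)) (T.h (T.h (P (nat_lit 0)) (T.h (M (nat_lit 34245653991761483615174655)) (T.h (P (nat_lit 0)) (T.h (M (nat_lit 18414233202529927167)) (T.h (P (nat_lit 0)) (P (nat_lit 3040955945440))))))) (T.h (P (nat_lit 0)) (T.h (T.h (P (nat_lit 0)) (T.h (P (nat_lit 10955938041285312512)) (T.h (P (nat_lit 0)) (P (nat_lit 4308734371088))))) (T.h (P (nat_lit 0)) (T.h (T.h (P (nat_lit 0)) (P (nat_lit 11861041236576))) (P (nat_lit 0)))))))) (T.h (T.h (T.h (P (nat_lit 2070197147691113558778576896)) (T.h (P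 (nat_lit 0)) (T.h (M (nat_lit 16778713653034530897919)) (T.h (P (nat_lit 0)) (M (nat_lit 5071474906873855)))))) (T.h (P (nat_lit 0)) (T.h (T.h (P (nat_lit 50195457411964089663488)) (T.h (P (nat_lit 0)) (M (nat_lit 41484131990011903)))) (T.h (P (nat_lit 0)) (M (nat_lit 1263562713645055)))))) (T.h (T.h (P (nat_lit 0)) (T.h (T.h (P (nat_lit 0)) (T.h (M (nat_lit 77947200328693710847)) (T.h (P (nat_lit 0)) (M (nat_lit 4081026789279))))) (T.h (P (nat_lit 0)) (T.h (T.h (P (nat_lit 0)) (P (nat_lit 19135086581520))) (P (nat_lit 0)))))) (T.h (T.h (T.h (M (nat_lit 1755541345251985719295)) (T.h (P (nat_lit 0)) (M (nat_lit 8110386514264063)))) (T.h (P (nat_lit 0)) (P (nat_lit 34533612525666304)))) (T.h (T.h (P (nat_lit 0)) (T.h (T.h (P (nat_lit 0)) (M (nat_lit 6622509720623))) (P (nat_lit 0)))) (P (nat_lit 2055657166962688))))))), (T.h (T.h (P (nat_lit 0)) (T.h (T.h (M (nat_lit 4304148551281740831751405567)) (T.h (P (nat_lit 0)) (T.h (M (nat_lit 1015608543622518013951))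 (T.h (P (nat_lit 0)) (P (nat_lit 92647970569584640)))))) (T.h (P (nat_lit 0)) (T.h (T.h (M (nat_lit 16707090653062109331455)) (T.h (P (nat_lit 0)) (P (nat_lit 52808192605061120)))) (T.h (P (nat_lit 0)) (M (nat_lit 5776898915696639))))))) (T.h (T.h (T.h (P (nat_lit 0)) (T.h (P (nat_lit 10494658871746831442771968)) (T.h (P (nat_lit 0)) (T.h (M (nat_lit 13063050751532597247)) (T.h (P (nat_lit 0)) (M (nat_lit 6448005040191))))))) (T.h (P (nat_lit 0)) (T.h (T.h (P (nat_lit 0)) (T.h (M (nat_lit 166341497935569616895)) (T.h (P (nat_lit 0)) (P (nat_lit 337539405120))))) (T.h (P (nat_lit 0)) (T.h (T.h (P (nat_lit 0)) (M (nat_lit 4401048221823))) (P (nat_lit 0))))))) (T.h (T.h (P (nat_lit 0)) (T.h (T.h (M (nat_lit 25313360426532698324991)) (T.h (P (nat_lit 0)) (M (nat_lit 22080326634962943)))) (T.h (P (nat_lit 0)) (M (nat_lit 26109669090557951))))) (T.h (T.h (T.h (P (nat_lit 0)) (T.h (P (nat_lit 34139594727559790592)) (T.h (P (nat_lit 0)) (P (nat_lit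 19930650988864))))) (T.h (P (nat_lit 0)) (T.h (T.h (P (nat_lit 0)) (P (nat_lit 12743561461376))) (P (nat_lit 0))))) (T.h (T.h (P (nat_lit 0)) (M (nat_lit 39992299983962111))) (T.h (T.h (T.h (P (nat_lit 0)) (M (nat_lit 14192755560127))) (P (nat_lit 0))) (P (nat_lit 0)))))))), (T.h (T.h (P (nat_lit 0)) (T.h (T.h (P (nat_lit 0)) (T.h (M (nat_lit 18571853267465370509246463)) (T.h (P (nat_lit 0)) (P (nat_lit 76155881187738386432))))) (T.h (P (nat_lit 0)) (T.h (T.h (P (nat_lit 0)) (P (nat_lit 35935822232235802624))) (P (nat_lit 0)))))) (T.h (T.h (T.h (P (nat_lit 6099708548673304496447684608)) (T.h (P (nat_lit 0)) (T.h (P (nat_lit 914033056629670281216)) (T.h (P (nat_lit 0)) (M (nat_lit 25421720942116863)))))) (T.h (P (nat_lit 0)) (T.h (T.h (M (nat_lit 39385658327280031629311)) (T.h (P (nat_lit 0)) (P (nat_lit 7400423263076352)))) (T.h (P (nat_lit 0)) (M (nat_lit 35543153834491903)))))) (T.h (T.h (P (nat_lit 0)) (T.h (T.h (P (nat_lit 0)) (M (nat_lit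 2818795405779664895))) (P (nat_lit 0)))) (T.h (T.h (T.h (P (nat_lit 17907237936627615531008)) (T.h (P (nat_lit 0)) (P (nat_lit 10230261391294464)))) (T.h (P (nat_lit 0)) (P (nat_lit 4731789076348928)))) (T.h (P (nat_lit 0)) (M (nat_lit 840173474381823))))))), (P (nat_lit 0)), (P (nat_lit 0)), (T.h (T.h (T.h (M (nat_lit 7077145893122241677976934547455)) (T.h (P (nat_lit 0)) (T.h (M (nat_lit 2655676528142138807943167)) (T.h (P (nat_lit 0)) (T.h (P (nat_lit 1164662279015235584)) (T.h (P (nat_lit 0)) (M (nat_lit 1109493383599)))))))) (T.h (P (nat_lit 0)) (T.h (T.h (M (nat_lit 7290160342092228652433407)) (T.h (P (nat_lit 0)) (T.h (M (nat_lit 8677772569119555583)) (T.h (P (nat_lit 0)) (M (nat_lit 4692097755967)))))) (T.h (P (nat_lit 0)) (T.h (T.h (P (nat_lit 3847333175462199296)) (T.h (P (nat_lit 0)) (M (nat_lit 6986606627727)))) (T.h (P (nat_lit 0)) (P (nat_lit 5745344476032)))))))) (T.h (T.h (P (nat_lit 0)) (T.h (T.h (P (nat_lit 0)) (T.h (M (nat_lit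 109547411112764375039)) (T.h (P (nat_lit 0)) (P (nat_lit 311553983348736))))) (T.h (P (nat_lit 0)) (T.h (T.h (P (nat_lit 0)) (M (nat_lit 29576939647533055))) (P (nat_lit 0)))))) (T.h (T.h (T.h (M (nat_lit 2655676528142138807943167)) (T.h (P (nat_lit 0)) (T.h (M (nat_lit 4091938453573337087)) (T.h (P (nat_lit 0)) (M (nat_lit 1741740014223)))))) (T.h (P (nat_lit 0)) (T.h (T.h (M (nat_lit 8677772569119555583)) (T.h (P (nat_lit 0)) (M (nat_lit 10354312704511)))) (T.h (P (nat_lit 0)) (M (nat_lit 6986606627727)))))) (T.h (T.h (P (nat_lit 0)) (T.h (T.h (P (nat_lit 0)) (P (nat_lit 311553983348736))) (P (nat_lit 0)))) (T.h (T.h (T.h (P (nat_lit 1164662279015235584)) (T.h (P (nat_lit 0)) (M (nat_lit 1741740014223)))) (T.h (P (nat_lit 0)) (M (nat_lit 4692097755967)))) (T.h (P (nat_lit 0)) (M (nat_lit 1109493383599)))))))), (T.h (T.h (T.h (P (nat_lit 0)) (T.h (M (nat_lit 340004622159091421151231999)) (T.h (P (nat_lit 0)) (T.h (P (nat_lit 8105186808818221187072))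 (T.h (P (nat_lit 0)) (P (nat_lit 8938710452797440))))))) (T.h (P (nat_lit 0)) (T.h (T.h (P (nat_lit 0)) (T.h (P (nat_lit 24853642217965949550592)) (T.h (P (nat_lit 0)) (P (nat_lit 19166517158117376))))) (T.h (P (nat_lit 0)) (T.h (T.h (P (nat_lit 0)) (M (nat_lit 1447515509358591))) (P (nat_lit 0))))))) (T.h (T.h (P (nat_lit 0)) (T.h (T.h (M (nat_lit 1960600475507989275475967)) (T.h (P (nat_lit 0)) (T.h (M (nat_lit 5346218877418209279)) (T.h (P (nat_lit 0)) (M (nat_lit 5447580911871)))))) (T.h (P (nat_lit 0)) (T.h (T.h (M (nat_lit 48691605605848186879)) (T.h (P (nat_lit 0)) (P (nat_lit 18214856339968)))) (T.h (P (nat_lit 0)) (M (nat_lit 1711617739199))))))) (T.h (T.h (T.h (P (nat_lit 0)) (T.h (M (nat_lit 43982686652293688852479)) (T.h (P (nat_lit 0)) (P (nat_lit 578246134136832))))) (T.h (P (nat_lit 0)) (T.h (T.h (P (nat_lit 0)) (P (nat_lit 60989868666159104))) (P (nat_lit 0))))) (T.h (T.h (P (nat_lit 0)) (T.h (T.h (M (nat_lit 8906692828529164287))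 (T.h (P (nat_lit 0)) (P (nat_lit 4520161715200)))) (T.h (P (nat_lit 0)) (P (nat_lit 3170128275712))))) (T.h (T.h (T.h (P (nat_lit 0)) (M (nat_lit 13389946303381503))) (P (nat_lit 0))) (T.h (T.h (P (nat_lit 0)) (P (nat_lit 5650489332224))) (P (nat_lit 0)))))))), (T.h (T.h (T.h (P (nat_lit 848019981192476839092825358336)) (T.h (P (nat_lit 0)) (T.h (P (nat_lit 6614624667399100999663616)) (T.h (P (nat_lit 0)) (P (nat_lit 30926891337990012928)))))) (T.h (P (nat_lit 0)) (T.h (T.h (M (nat_lit 3438041479358372487626751)) (T.h (P (nat_lit 0)) (P (nat_lit 19910758226580209664)))) (T.h (P (nat_lit 0)) (P (nat_lit 3512947433225060352)))))) (T.h (T.h (P (nat_lit 0)) (T.h (T.h (P (nat_lit 0)) (T.h (M (nat_lit 41729021910207325798399)) (T.h (P (nat_lit 0)) (M (nat_lit 5405502678335487))))) (T.h (P (nat_lit 0)) (T.h (T.h (P (nat_lit 0)) (P (nat_lit 4819333066915840))) (P (nat_lit 0)))))) (T.h (T.h (T.h (M (nat_lit 10653213847725133906575359)) (T.h (P (nat_lit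 0)) (M (nat_lit 3947790254513061887)))) (T.h (P (nat_lit 0)) (P (nat_lit 3300389089831813120)))) (T.h (T.h (P (nat_lit 0)) (T.h (T.h (P (nat_lit 0)) (P (nat_lit 8839026266406912))) (P (nat_lit 0)))) (M (nat_lit 11113978180799561727))))))]
def lQp_6 : List (T ℤ) := [(P (nat_lit 0)), (P (nat_lit 0)), (T.h (T.h (P (nat_lit 0)) (T.h (T.h (P (nat_lit 8143272965188640913429102592)) (T.h (P (nat_lit 0)) (T.h (P (nat_lit 14199792496674017902592)) (T.h (P (nat_lit 0)) (P (nat_lit 9476508357492736)))))) (T.h (P (nat_lit 0)) (T.h (T.h (P (nat_lit 7541260049816548802560)) (T.h (P (nat_lit 0)) (P (nat_lit 7349451755749376)))) (T.h (P (nat_lit 0)) (P (nat_lit 7426438338183168))))))) (T.h (T.h (T.h (P (nat_lit 0)) (T.h (P (nat_lit 2475538643173014241280)) (T.h (P (nat_lit 0)) (T.h (P (nat_lit 20644546159329673216)) (T.h (P (nat_lit 0)) (M (nat_lit 1880274670463))))))) (T.h (P (nat_lit 0)) (T.h (T.h (P (nat_lit 0)) (T.h (P (nat_lit 4175727890098290688)) (T.h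 (P (nat_lit 0)) (M (nat_lit 11791955260671))))) (T.h (P (nat_lit 0)) (T.h (T.h (P (nat_lit 0)) (P (nat_lit 18815787712000))) (P (nat_lit 0))))))) (T.h (T.h (P (nat_lit 0)) (T.h (T.h (P (nat_lit 14199792496674017902592)) (T.h (P (nat_lit 0)) (P (nat_lit 15198055877836800)))) (T.h (P (nat_lit 0)) (P (nat_lit 7349451755749376))))) (T.h (T.h (T.h (P (nat_lit 0)) (T.h (P (nat_lit 20644546159329673216)) (T.h (P (nat_lit 0)) (M (nat_lit 5936581743359))))) (T.h (P (nat_lit 0)) (T.h (T.h (P (nat_lit 0)) (M (nat_lit 11791955260671))) (P (nat_lit 0))))) (T.h (T.h (P (nat_lit 0)) (P (nat_lit 9476508357492736))) (T.h (T.h (T.h (P (nat_lit 0)) (M (nat_lit 1880274670463))) (P (nat_lit 0))) (P (nat_lit 0)))))))), (T.h (T.h (P (nat_lit 0)) (T.h (T.h (P (nat_lit 0)) (T.h (P (nat_lit 18381355421258832978903040)) (T.h (P (nat_lit 0)) (P (nat_lit 23203781688285986816))))) (T.h (P (nat_lit 0)) (T.h (T.h (P (nat_lit 0)) (M (nat_lit 7114211940729094143))) (P (nat_lit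 0)))))) (T.h (T.h (T.h (M (nat_lit 2547540643335990035118817279)) (T.h (P (nat_lit 0)) (T.h (P (nat_lit 19946718446392155570176)) (T.h (P (nat_lit 0)) (M (nat_lit 3801332291633151)))))) (T.h (P (nat_lit 0)) (T.h (T.h (M (nat_lit 34455666698401404157951)) (T.h (P (nat_lit 0)) (P (nat_lit 4932788028899328)))) (T.h (P (nat_lit 0)) (P (nat_lit 2625970948096000)))))) (T.h (T.h (P (nat_lit 0)) (T.h (T.h (P (nat_lit 0)) (P (nat_lit 36613268445365010432))) (P (nat_lit 0)))) (T.h (T.h (T.h (M (nat_lit 392783585823669878783)) (T.h (P (nat_lit 0)) (M (nat_lit 3402133379809279)))) (T.h (P (nat_lit 0)) (M (nat_lit 584082030985215)))) (T.h (P (nat_lit 0)) (P (nat_lit 965174953410560))))))), (P (nat_lit 0)), (P (nat_lit 0)), (T.h (T.h (T.h (P (nat_lit 2172631954831739215942938263552)) (T.h (P (nat_lit 0)) (T.h (P (nat_lit 3113098526908072926904320)) (T.h (P (nat_lit 0)) (P (nat_lit 3128846296169840640)))))) (T.h (P (nat_lit 0)) (T.h (T.h (P (nat_lit 7101092557652367280963584))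 (T.h (P (nat_lit 0)) (P (nat_lit 11923797260938248192)))) (T.h (P (nat_lit 0)) (M (nat_lit 3403652489910681599)))))) (T.h (T.h (P (nat_lit 0)) (T.h (T.h (P (nat_lit 0)) (T.h (P (nat_lit 6096585033635921395712)) (T.h (P (nat_lit 0)) (M (nat_lit 6037481093464063))))) (T.h (P (nat_lit 0)) (T.h (T.h (P (nat_lit 0)) (P (nat_lit 19267366617088000))) (P (nat_lit 0)))))) (T.h (T.h (T.h (P (nat_lit 3113098526908072926904320)) (T.h (P (nat_lit 0)) (P (nat_lit 5441742847361417216)))) (T.h (P (nat_lit 0)) (P (nat_lit 11923797260938248192)))) (T.h (T.h (P (nat_lit 0)) (T.h (T.h (P (nat_lit 0)) (M (nat_lit 6037481093464063))) (P (nat_lit 0)))) (P (nat_lit 3128846296169840640)))))), (P (nat_lit 0))]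
def lQp_7 : List (T ℤ) := [(P (nat_lit 0)), (P (nat_lit 0)), (P (nat_lit 0)), (P (nat_lit 0)), (T.h (T.h (P (nat_lit 0)) (T.h (T.h (P (nat_lit 382278186225956246805020672)) (T.h (P (nat_lit 0)) (T.h (M (nat_lit 6393028105238678077439)) (T.h (P (nat_lit 0)) (P (nat_lit 10182874572193792)))))) (T.h (P (nat_lit 0)) (T.h (T.h (M (nat_lit 2314989451720488124415)) (T.h (P (nat_lit 0)) (M (nat_lit 20917731012706303)))) (T.h (P (nat_lit 0)) (M (nat_lit 1940894262886399))))))) (T.h (T.h (T.h (P (nat_lit 0)) (T.h (P (nat_lit 8967851728135020949274624)) (T.h (P (nat_lit 0)) (T.h (P (nat_lit 5808715515924840448)) (T.h (P (nat_lit 0)) (M (nat_lit 6298334266991))))))) (T.h (P (nat_lit 0)) (T.h (T.h (P (nat_lit 0)) (T.h (P (nat_lit 21437333873006477312)) (T.h (P (nat_lit 0)) (M (nat_lit 14649144822207))))) (T.h (P (nat_lit 0)) (T.h (T.h (P (nat_lit 0)) (P (nat_lit 9389964963200))) (P (nat_lit 0))))))) (T.h (T.h (P (nat_lit 0)) (T.h (T.h (P (nat_lit 4917025952193526628352))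 (T.h (P (nat_lit 0)) (P (nat_lit 17704818290655232)))) (T.h (P (nat_lit 0)) (P (nat_lit 13535529003122688))))) (T.h (T.h (T.h (P (nat_lit 0)) (T.h (M (nat_lit 1632295132411723775)) (T.h (P (nat_lit 0)) (M (nat_lit 1954457784095))))) (T.h (P (nat_lit 0)) (T.h (T.h (P (nat_lit 0)) (P (nat_lit 7808644584816))) (P (nat_lit 0))))) (T.h (T.h (P (nat_lit 0)) (P (nat_lit 566836548272128))) (T.h (T.h (T.h (P (nat_lit 0)) (M (nat_lit 1262651453183))) (P (nat_lit 0))) (P (nat_lit 0)))))))), (T.h (T.h (P (nat_lit 0)) (T.h (T.h (P (nat_lit 0)) (T.h (P (nat_lit 3093988085105477971607552)) (T.h (P (nat_lit 0)) (T.h (P (nat_lit 59942037166122598400)) (T.h (P (nat_lit 0)) (P (nat_lit 1726339860488))))))) (T.h (P (nat_lit 0)) (T.h (T.h (P (nat_lit 0)) (T.h (P (nat_lit 31376630254227423232)) (T.h (P (nat_lit 0)) (P (nat_lit 9577825270920))))) (T.h (P (nat_lit 0)) (T.h (T.h (P (nat_lit 0)) (P (nat_lit 617502241472))) (P (nat_lit 0)))))))) (T.h (T.h (T.h (P (nat_lit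 241110326684477318414467072)) (T.h (P (nat_lit 0)) (T.h (M (nat_lit 34978613366834824478719)) (T.h (P (nat_lit 0)) (M (nat_lit 3911014313983999)))))) (T.h (P (nat_lit 0)) (T.h (T.h (P (nat_lit 42574672381838136180736)) (T.h (P (nat_lit 0)) (M (nat_lit 67973831304970239)))) (T.h (P (nat_lit 0)) (P (nat_lit 19885691812839424)))))) (T.h (T.h (P (nat_lit 0)) (T.h (T.h (P (nat_lit 0)) (T.h (M (nat_lit 40575241349622661119)) (T.h (P (nat_lit 0)) (M (nat_lit 9606426461535))))) (T.h (P (nat_lit 0)) (T.h (T.h (P (nat_lit 0)) (P (nat_lit 9896250995256))) (P (nat_lit 0)))))) (T.h (T.h (T.h (M (nat_lit 13210000646600378023935)) (T.h (P (nat_lit 0)) (M (nat_lit 9004722249564159)))) (T.h (P (nat_lit 0)) (P (nat_lit 4128130433777664)))) (T.h (T.h (P (nat_lit 0)) (T.h (T.h (P (nat_lit 0)) (P (nat_lit 534616161528))) (P (nat_lit 0)))) (M (nat_lit 6511199756582911))))))), (T.h (T.h (P (nat_lit 0)) (T.h (T.h (P (nat_lit 2070197147691113558778576896)) (T.h (P (nat_lit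 0)) (T.h (P (nat_lit 50195457411964089663488)) (T.h (P (nat_lit 0)) (M (nat_lit 1263562713645055)))))) (T.h (P (nat_lit 0)) (T.h (T.h (M (nat_lit 1755541345251985719295)) (T.h (P (nat_lit 0)) (P (nat_lit 34533612525666304)))) (T.h (P (nat_lit 0)) (P (nat_lit 2055657166962688))))))) (T.h (T.h (T.h (P (nat_lit 0)) (T.h (M (nat_lit 34245653991761483615174655)) (T.h (P (nat_lit 0)) (T.h (P (nat_lit 10955938041285312512)) (T.h (P (nat_lit 0)) (P (nat_lit 11861041236576))))))) (T.h (P (nat_lit 0)) (T.h (T.h (P (nat_lit 0)) (T.h (M (nat_lit 77947200328693710847)) (T.h (P (nat_lit 0)) (P (nat_lit 19135086581520))))) (T.h (P (nat_lit 0)) (T.h (T.h (P (nat_lit 0)) (M (nat_lit 6622509720623))) (P (nat_lit 0))))))) (T.h (T.h (P (nat_lit 0)) (T.h (T.h (M (nat_lit 16778713653034530897919)) (T.h (P (nat_lit 0)) (M (nat_lit 41484131990011903)))) (T.h (P (nat_lit 0)) (M (nat_lit 8110386514264063))))) (T.h (T.h (T.h (P (nat_lit 0)) (T.h (M (nat_lit 18414233202529927167))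 (T.h (P (nat_lit 0)) (P (nat_lit 4308734371088))))) (T.h (P (nat_lit 0)) (T.h (T.h (P (nat_lit 0)) (M (nat_lit 4081026789279))) (P (nat_lit 0))))) (T.h (T.h (P (nat_lit 0)) (M (nat_lit 5071474906873855))) (T.h (T.h (T.h (P (nat_lit 0)) (P (nat_lit 3040955945440))) (P (nat_lit 0))) (P (nat_lit 0)))))))), (T.h (T.h (P (nat_lit 0)) (T.h (T.h (P (nat_lit 0)) (T.h (M (nat_lit 1960600475507989275475967)) (T.h (P (nat_lit 0)) (T.h (M (nat_lit 48691605605848186879)) (T.h (P (nat_lit 0)) (M (nat_lit 1711617739199))))))) (T.h (P (nat_lit 0)) (T.h (T.h (P (nat_lit 0)) (T.h (M (nat_lit 8906692828529164287)) (T.h (P (nat_lit 0)) (P (nat_lit 3170128275712))))) (T.h (P (nat_lit 0)) (T.h (T.h (P (nat_lit 0)) (P (nat_lit 5650489332224))) (P (nat_lit 0)))))))) (T.h (T.h (T.h (M (nat_lit 340004622159091421151231999)) (T.h (P (nat_lit 0)) (T.h (P (nat_lit 24853642217965949550592)) (T.h (P (nat_lit 0)) (M (nat_lit 1447515509358591)))))) (T.h (P (nat_lit 0)) (T.h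 (T.h (M (nat_lit 43982686652293688852479)) (T.h (P (nat_lit 0)) (P (nat_lit 60989868666159104)))) (T.h (P (nat_lit 0)) (M (nat_lit 13389946303381503)))))) (T.h (T.h (P (nat_lit 0)) (T.h (T.h (P (nat_lit 0)) (T.h (M (nat_lit 5346218877418209279)) (T.h (P (nat_lit 0)) (P (nat_lit 18214856339968))))) (T.h (P (nat_lit 0)) (T.h (T.h (P (nat_lit 0)) (P (nat_lit 4520161715200))) (P (nat_lit 0)))))) (T.h (T.h (T.h (P (nat_lit 8105186808818221187072)) (T.h (P (nat_lit 0)) (P (nat_lit 19166517158117376)))) (T.h (P (nat_lit 0)) (P (nat_lit 578246134136832)))) (T.h (T.h (P (nat_lit 0)) (T.h (T.h (P (nat_lit 0)) (M (nat_lit 5447580911871))) (P (nat_lit 0)))) (P (nat_lit 8938710452797440)))))))]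
def lQp_8 : List (T ℤ) := [(T.h (T.h (P (nat_lit 0)) (T.h (T.h (M (nat_lit 2547540643335990035118817279)) (T.h (P (nat_lit 0)) (T.h (M (nat_lit 34455666698401404157951)) (T.h (P (nat_lit 0)) (P (nat_lit 2625970948096000)))))) (T.h (P (nat_lit 0)) (T.h (T.h (M (nat_lit 392783585823669878783)) (T.h (P (nat_lit 0)) (M (nat_lit 584082030985215)))) (T.h (P (nat_lit 0)) (P (nat_lit 965174953410560))))))) (T.h (T.h (T.h (P (nat_lit 0)) (T.h (P (nat_lit 18381355421258832978903040)) (T.h (P (nat_lit 0)) (M (nat_lit 7114211940729094143))))) (T.h (P (nat_lit 0)) (T.h (T.h (P (nat_lit 0)) (P (nat_lit 36613268445365010432))) (P (nat_lit 0))))) (T.h (T.h (P (nat_lit 0)) (T.h (T.h (P (nat_lit 19946718446392155570176)) (T.h (P (nat_lit 0)) (P (nat_lit 4932788028899328)))) (T.h (P (nat_lit 0)) (M (nat_lit 3402133379809279))))) (T.h (T.h (T.h (P (nat_lit 0)) (P (nat_lit 23203781688285986816))) (P (nat_lit 0))) (T.h (T.h (P (nat_lit 0)) (M (nat_lit 3801332291633151)))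 (P (nat_lit 0))))))), (P (nat_lit 0)), (P (nat_lit 0)), (T.h (T.h (T.h (P (nat_lit 0)) (T.h (P (nat_lit 292744442000501060956848128)) (T.h (P (nat_lit 0)) (T.h (P (nat_lit 578675089556927152128)) (T.h (P (nat_lit 0)) (M (nat_lit 1348496507797503))))))) (T.h (P (nat_lit 0)) (T.h (T.h (P (nat_lit 0)) (T.h (M (nat_lit 71490041528832753663)) (T.h (P (nat_lit 0)) (M (nat_lit 208462894661631))))) (T.h (P (nat_lit 0)) (T.h (T.h (P (nat_lit 0)) (M (nat_lit 7565409483816959))) (P (nat_lit 0))))))) (T.h (T.h (P (nat_lit 0)) (T.h (T.h (M (nat_lit 1783583222540862459215871)) (T.h (P (nat_lit 0)) (T.h (M (nat_lit 9687899242886070271)) (T.h (P (nat_lit 0)) (P (nat_lit 18277536452736)))))) (T.h (P (nat_lit 0)) (T.h (T.h (M (nat_lit 968861825208680447)) (T.h (P (nat_lit 0)) (P (nat_lit 6132761592576)))) (T.h (P (nat_lit 0)) (M (nat_lit 723600243695))))))) (T.h (T.h (T.h (P (nat_lit 0)) (T.h (M (nat_lit 71490041528832753663)) (T.h (P (nat_lit 0)) (M (nat_lit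 208462894661631))))) (T.h (P (nat_lit 0)) (T.h (T.h (P (nat_lit 0)) (M (nat_lit 7318168459542527))) (P (nat_lit 0))))) (T.h (T.h (P (nat_lit 0)) (T.h (T.h (M (nat_lit 968861825208680447)) (T.h (P (nat_lit 0)) (P (nat_lit 6132761592576)))) (T.h (P (nat_lit 0)) (P (nat_lit 1106006924448))))) (T.h (T.h (T.h (P (nat_lit 0)) (M (nat_lit 7565409483816959))) (P (nat_lit 0))) (T.h (T.h (P (nat_lit 0)) (M (nat_lit 723600243695))) (P (nat_lit 0)))))))), (T.h (T.h (T.h (M (nat_lit 951227716243843427766930243583)) (T.h (P (nat_lit 0)) (T.h (P (nat_lit 15785240029512983648403456)) (T.h (P (nat_lit 0)) (T.h (M (nat_lit 14210726495290130431)) (T.h (P (nat_lit 0)) (M (nat_lit 5687995967)))))))) (T.h (P (nat_lit 0)) (T.h (T.h (P (nat_lit 3725888736541583637217280)) (T.h (P (nat_lit 0)) (T.h (P (nat_lit 48954083825573429248)) (T.h (P (nat_lit 0)) (P (nat_lit 4758505378848)))))) (T.h (P (nat_lit 0)) (T.h (T.h (M (nat_lit 4881796311956848639)) (T.h (P (nat_lit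 0)) (P (nat_lit 7038243891216)))) (T.h (P (nat_lit 0)) (P (nat_lit 927284701968)))))))) (T.h (T.h (P (nat_lit 0)) (T.h (T.h (P (nat_lit 0)) (T.h (M (nat_lit 42271297672274530795519)) (T.h (P (nat_lit 0)) (M (nat_lit 90241872173727743))))) (T.h (P (nat_lit 0)) (T.h (T.h (P (nat_lit 0)) (M (nat_lit 47909007178399743))) (P (nat_lit 0)))))) (T.h (T.h (T.h (P (nat_lit 3725888736541583637217280)) (T.h (P (nat_lit 0)) (T.h (P (nat_lit 48954083825573429248)) (T.h (P (nat_lit 0)) (P (nat_lit 4758505378848)))))) (T.h (P (nat_lit 0)) (T.h (T.h (M (nat_lit 74387678753093320703)) (T.h (P (nat_lit 0)) (P (nat_lit 4923797792)))) (T.h (P (nat_lit 0)) (P (nat_lit 4533752988592)))))) (T.h (T.h (P (nat_lit 0)) (T.h (T.h (P (nat_lit 0)) (M (nat_lit 47909007178399743))) (P (nat_lit 0)))) (T.h (T.h (T.h (M (nat_lit 4881796311956848639)) (T.h (P (nat_lit 0)) (P (nat_lit 7038243891216)))) (T.h (P (nat_lit 0)) (P (nat_lit 4533752988592)))) (T.h (P (nat_lit 0)) (P (nat_lit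 927284701968)))))))), (T.h (T.h (T.h (P (nat_lit 0)) (T.h (M (nat_lit 982269466919223086024753151)) (T.h (P (nat_lit 0)) (T.h (M (nat_lit 35916013231108972871679)) (T.h (P (nat_lit 0)) (P (nat_lit 22810743852630016))))))) (T.h (P (nat_lit 0)) (T.h (T.h (P (nat_lit 0)) (T.h (P (nat_lit 42560299076557173948416)) (T.h (P (nat_lit 0)) (P (nat_lit 31111013493948416))))) (T.h (P (nat_lit 0)) (T.h (T.h (P (nat_lit 0)) (P (nat_lit 7031999440027648))) (P (nat_lit 0))))))) (T.h (T.h (P (nat_lit 0)) (T.h (T.h (M (nat_lit 28670927364569032967585791)) (T.h (P (nat_lit 0)) (T.h (P (nat_lit 88000864249788235776)) (T.h (P (nat_lit 0)) (M (nat_lit 12132135300319)))))) (T.h (P (nat_lit 0)) (T.h (T.h (M (nat_lit 18802396480193691647)) (T.h (P (nat_lit 0)) (M (nat_lit 7612428796111)))) (T.h (P (nat_lit 0)) (P (nat_lit 4076389384816))))))) (T.h (T.h (T.h (P (nat_lit 0)) (T.h (P (nat_lit 42560299076557173948416)) (T.h (P (nat_lit 0)) (P (nat_lit 31111013493948416)))))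 (T.h (P (nat_lit 0)) (T.h (T.h (P (nat_lit 0)) (M (nat_lit 79416610441396223))) (P (nat_lit 0))))) (T.h (T.h (P (nat_lit 0)) (T.h (T.h (M (nat_lit 18802396480193691647)) (T.h (P (nat_lit 0)) (M (nat_lit 7612428796111)))) (T.h (P (nat_lit 0)) (M (nat_lit 675544214015))))) (T.h (T.h (T.h (P (nat_lit 0)) (P (nat_lit 7031999440027648))) (P (nat_lit 0))) (T.h (T.h (P (nat_lit 0)) (P (nat_lit 4076389384816))) (P (nat_lit 0)))))))), (T.h (T.h (T.h (P (nat_lit 1489864615173141456557266960384)) (T.h (P (nat_lit 0)) (T.h (P (nat_lit 19155564673305472233635840)) (T.h (P (nat_lit 0)) (T.h (P (nat_lit 60418906907182366720)) (T.h (P (nat_lit 0)) (P (nat_lit 18032440444800)))))))) (T.h (P (nat_lit 0)) (T.h (T.h (M (nat_lit 474886768969692552888319)) (T.h (P (nat_lit 0)) (T.h (M (nat_lit 76103848389897093119)) (T.h (P (nat_lit 0)) (P (nat_lit 25057116010112)))))) (T.h (P (nat_lit 0)) (T.h (T.h (P (nat_lit 23472225573696176128)) (T.h (P (nat_lit 0)) (P (nat_lit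 4629881581312)))) (T.h (P (nat_lit 0)) (M (nat_lit 7400973879743)))))))) (T.h (T.h (P (nat_lit 0)) (T.h (T.h (P (nat_lit 0)) (T.h (P (nat_lit 138524736694348612108288)) (T.h (P (nat_lit 0)) (M (nat_lit 85942659986620415))))) (T.h (P (nat_lit 0)) (T.h (T.h (P (nat_lit 0)) (P (nat_lit 126631892948680704))) (P (nat_lit 0)))))) (T.h (T.h (T.h (M (nat_lit 474886768969692552888319)) (T.h (P (nat_lit 0)) (T.h (M (nat_lit 76103848389897093119)) (T.h (P (nat_lit 0)) (P (nat_lit 25057116010112)))))) (T.h (P (nat_lit 0)) (T.h (T.h (P (nat_lit 49589126739001344000)) (T.h (P (nat_lit 0)) (P (nat_lit 86031824607232)))) (T.h (P (nat_lit 0)) (M (nat_lit 16542069378623)))))) (T.h (T.h (P (nat_lit 0)) (T.h (T.h (P (nat_lit 0)) (P (nat_lit 126631892948680704))) (P (nat_lit 0)))) (T.h (T.h (T.h (P (nat_lit 23472225573696176128)) (T.h (P (nat_lit 0)) (P (nat_lit 4629881581312)))) (T.h (P (nat_lit 0)) (M (nat_lit 16542069378623)))) (T.h (P (nat_lit 0)) (M (nat_lit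 7400973879743)))))))), (T.h (T.h (T.h (P (nat_lit 0)) (T.h (P (nat_lit 14143915709784305992583872512)) (T.h (P (nat_lit 0)) (T.h (P (nat_lit 5554121537654855041024)) (T.h (P (nat_lit 0)) (P (nat_lit 26821480240742400))))))) (T.h (P (nat_lit 0)) (T.h (T.h (P (nat_lit 0)) (T.h (M (nat_lit 71315698274066231197695)) (T.h (P (nat_lit 0)) (P (nat_lit 32756148533133312))))) (T.h (P (nat_lit 0)) (T.h (T.h (P (nat_lit 0)) (P (nat_lit 8208545001439232))) (P (nat_lit 0))))))) (T.h (T.h (P (nat_lit 0)) (T.h (T.h (M (nat_lit 1786891951884896965754879)) (T.h (P (nat_lit 0)) (M (nat_lit 20838505919270617087)))) (T.h (P (nat_lit 0)) (P (nat_lit 27420855437877051392))))) (T.h (T.h (T.h (P (nat_lit 0)) (T.h (M (nat_lit 71315698274066231197695)) (T.h (P (nat_lit 0)) (P (nat_lit 32756148533133312))))) (T.h (P (nat_lit 0)) (T.h (T.h (P (nat_lit 0)) (P (nat_lit 50991262593449984))) (P (nat_lit 0))))) (T.h (T.h (P (nat_lit 0)) (P (nat_lit 27420855437877051392))) (T.h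 (T.h (T.h (P (nat_lit 0)) (P (nat_lit 8208545001439232))) (P (nat_lit 0))) (P (nat_lit 0)))))))]
def lQp_9 : List (T ℤ) := [(P (nat_lit 0)), (P (nat_lit 0)), (T.h (T.h (P (nat_lit 0)) (T.h (T.h (P (nat_lit 292744442000501060956848128)) (T.h (P (nat_lit 0)) (T.h (M (nat_lit 71490041528832753663)) (T.h (P (nat_lit 0)) (M (nat_lit 7565409483816959)))))) (T.h (P (nat_lit 0)) (T.h (T.h (P (nat_lit 578675089556927152128)) (T.h (P (nat_lit 0)) (M (nat_lit 208462894661631)))) (T.h (P (nat_lit 0)) (M (nat_lit 1348496507797503))))))) (T.h (T.h (T.h (P (nat_lit 0)) (T.h (M (nat_lit 1783583222540862459215871)) (T.h (P (nat_lit 0)) (T.h (M (nat_lit 968861825208680447)) (T.h (P (nat_lit 0)) (M (nat_lit 723600243695))))))) (T.h (P (nat_lit 0)) (T.h (T.h (P (nat_lit 0)) (T.h (M (nat_lit 9687899242886070271)) (T.h (P (nat_lit 0)) (P (nat_lit 6132761592576))))) (T.h (P (nat_lit 0)) (T.h (T.h (P (nat_lit 0)) (P (nat_lit 18277536452736))) (P (nat_lit 0))))))) (T.h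 (T.h (P (nat_lit 0)) (T.h (T.h (M (nat_lit 71490041528832753663)) (T.h (P (nat_lit 0)) (M (nat_lit 7318168459542527)))) (T.h (P (nat_lit 0)) (M (nat_lit 208462894661631))))) (T.h (T.h (T.h (P (nat_lit 0)) (T.h (M (nat_lit 968861825208680447)) (T.h (P (nat_lit 0)) (P (nat_lit 1106006924448))))) (T.h (P (nat_lit 0)) (T.h (T.h (P (nat_lit 0)) (P (nat_lit 6132761592576))) (P (nat_lit 0))))) (T.h (T.h (P (nat_lit 0)) (M (nat_lit 7565409483816959))) (T.h (T.h (T.h (P (nat_lit 0)) (M (nat_lit 723600243695))) (P (nat_lit 0))) (P (nat_lit 0)))))))), (T.h (T.h (P (nat_lit 0)) (T.h (T.h (P (nat_lit 0)) (T.h (P (nat_lit 9944284666342197386280960)) (T.h (P (nat_lit 0)) (T.h (P (nat_lit 23358221682462425088)) (T.h (P (nat_lit 0)) (M (nat_lit 2310447738543))))))) (T.h (P (nat_lit 0)) (T.h (T.h (P (nat_lit 0)) (T.h (P (nat_lit 23358221682462425088)) (T.h (P (nat_lit 0)) (P (nat_lit 5934710937968))))) (T.h (P (nat_lit 0)) (T.h (T.h (P (nat_lit 0)) (M (nat_lit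 2310447738543))) (P (nat_lit 0)))))))) (T.h (T.h (T.h (P (nat_lit 9188822945411684451682877440)) (T.h (P (nat_lit 0)) (T.h (M (nat_lit 4503885725793601454079)) (T.h (P (nat_lit 0)) (P (nat_lit 157814033907712)))))) (T.h (P (nat_lit 0)) (T.h (T.h (M (nat_lit 4503885725793601454079)) (T.h (P (nat_lit 0)) (M (nat_lit 213022691705815039)))) (T.h (P (nat_lit 0)) (P (nat_lit 157814033907712)))))) (T.h (T.h (P (nat_lit 0)) (T.h (T.h (P (nat_lit 0)) (T.h (P (nat_lit 143476815896919408640)) (T.h (P (nat_lit 0)) (P (nat_lit 5889195034888))))) (T.h (P (nat_lit 0)) (T.h (T.h (P (nat_lit 0)) (P (nat_lit 5889195034888))) (P (nat_lit 0)))))) (T.h (T.h (T.h (P (nat_lit 18496271202248279719936)) (T.h (P (nat_lit 0)) (P (nat_lit 4368105829269504)))) (T.h (P (nat_lit 0)) (P (nat_lit 4368105829269504)))) (T.h (T.h (P (nat_lit 0)) (T.h (T.h (P (nat_lit 0)) (P (nat_lit 2948687322800))) (P (nat_lit 0)))) (P (nat_lit 16740837449203712))))))), (T.h (T.h (P (nat_lit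 0)) (T.h (T.h (P (nat_lit 4038671708212743718947520512)) (T.h (P (nat_lit 0)) (T.h (M (nat_lit 212304625856367424438271)) (T.h (P (nat_lit 0)) (M (nat_lit 77564689659232255)))))) (T.h (P (nat_lit 0)) (T.h (T.h (P (nat_lit 30872122181433209913344)) (T.h (P (nat_lit 0)) (P (nat_lit 75833794379677696)))) (T.h (P (nat_lit 0)) (M (nat_lit 5026790275268607))))))) (T.h (T.h (T.h (P (nat_lit 0)) (T.h (P (nat_lit 44694462760537169588125696)) (T.h (P (nat_lit 0)) (T.h (M (nat_lit 5659509649276141567)) (T.h (P (nat_lit 0)) (M (nat_lit 1102750372303))))))) (T.h (P (nat_lit 0)) (T.h (T.h (P (nat_lit 0)) (T.h (P (nat_lit 193396473526025715712)) (T.h (P (nat_lit 0)) (M (nat_lit 18575295500271))))) (T.h (P (nat_lit 0)) (T.h (T.h (P (nat_lit 0)) (M (nat_lit 94064231272143))) (P (nat_lit 0))))))) (T.h (T.h (P (nat_lit 0)) (T.h (T.h (P (nat_lit 77247011222601508847616)) (T.h (P (nat_lit 0)) (M (nat_lit 22636712412643327)))) (T.h (P (nat_lit 0)) (M (nat_lit 51668033374715903)))))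 (T.h (T.h (T.h (P (nat_lit 0)) (T.h (M (nat_lit 11452942416558948351)) (T.h (P (nat_lit 0)) (M (nat_lit 12260400160623))))) (T.h (P (nat_lit 0)) (T.h (T.h (P (nat_lit 0)) (M (nat_lit 27622295623215))) (P (nat_lit 0))))) (T.h (T.h (P (nat_lit 0)) (P (nat_lit 24253183682134016))) (T.h (T.h (T.h (P (nat_lit 0)) (M (nat_lit 10914695388015))) (P (nat_lit 0))) (P (nat_lit 0)))))))), (T.h (T.h (P (nat_lit 0)) (T.h (T.h (P (nat_lit 0)) (T.h (M (nat_lit 60254104789067815534460927)) (T.h (P (nat_lit 0)) (T.h (P (nat_lit 83831265369020956672)) (T.h (P (nat_lit 0)) (P (nat_lit 74682600418176))))))) (T.h (P (nat_lit 0)) (T.h (T.h (P (nat_lit 0)) (T.h (M (nat_lit 52593641093391712255)) (T.h (P (nat_lit 0)) (M (nat_lit 38518769153535))))) (T.h (P (nat_lit 0)) (T.h (T.h (P (nat_lit 0)) (P (nat_lit 36218528417216))) (P (nat_lit 0)))))))) (T.h (T.h (T.h (M (nat_lit 5002433316995141053611769855)) (T.h (P (nat_lit 0)) (T.h (P (nat_lit 8700266256169554673664)) (T.h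 (P (nat_lit 0)) (M (nat_lit 112770799911600127)))))) (T.h (P (nat_lit 0)) (T.h (T.h (P (nat_lit 64074607215303530119168)) (T.h (P (nat_lit 0)) (M (nat_lit 73061724823420927)))) (T.h (P (nat_lit 0)) (P (nat_lit 61092735884722176)))))) (T.h (T.h (P (nat_lit 0)) (T.h (T.h (P (nat_lit 0)) (T.h (M (nat_lit 122238363249976279039)) (T.h (P (nat_lit 0)) (M (nat_lit 7268007345151))))) (T.h (P (nat_lit 0)) (T.h (T.h (P (nat_lit 0)) (P (nat_lit 20210294340288))) (P (nat_lit 0)))))) (T.h (T.h (T.h (M (nat_lit 64860617282329165955071)) (T.h (P (nat_lit 0)) (P (nat_lit 8675185806737408)))) (T.h (P (nat_lit 0)) (P (nat_lit 37485078654844928)))) (T.h (T.h (P (nat_lit 0)) (T.h (T.h (P (nat_lit 0)) (P (nat_lit 4830483669120))) (P (nat_lit 0)))) (M (nat_lit 37256538694156287))))))), (T.h (T.h (P (nat_lit 0)) (T.h (T.h (M (nat_lit 3133521640352018543595749375)) (T.h (P (nat_lit 0)) (T.h (P (nat_lit 3848273589639705526272)) (T.h (P (nat_lit 0)) (P (nat_lit 107296303587655680))))))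 (T.h (P (nat_lit 0)) (T.h (T.h (M (nat_lit 6131544820029419683839)) (T.h (P (nat_lit 0)) (M (nat_lit 24755005882941439)))) (T.h (P (nat_lit 0)) (M (nat_lit 3746641894768639))))))) (T.h (T.h (T.h (P (nat_lit 0)) (T.h (P (nat_lit 34949159902444343565221888)) (T.h (P (nat_lit 0)) (M (nat_lit 130808218232064835583))))) (T.h (P (nat_lit 0)) (T.h (T.h (P (nat_lit 0)) (P (nat_lit 64795198108966322176))) (P (nat_lit 0))))) (T.h (T.h (P (nat_lit 0)) (T.h (T.h (M (nat_lit 10530773426254924218367)) (T.h (P (nat_lit 0)) (P (nat_lit 48253519760162816)))) (T.h (P (nat_lit 0)) (P (nat_lit 3541496266850304))))) (T.h (T.h (T.h (P (nat_lit 0)) (P (nat_lit 18668642047161794560))) (P (nat_lit 0))) (T.h (T.h (P (nat_lit 0)) (M (nat_lit 25399662819524607))) (P (nat_lit 0))))))), (P (nat_lit 0))]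
def lQp_10 : List (T ℤ) := [(P (nat_lit 0)), (T.h (T.h (T.h (P (nat_lit 0)) (T.h (P (nat_lit 382278186225956246805020672)) (T.h (P (nat_lit 0)) (T.h (M (nat_lit 2314989451720488124415)) (T.h (P (nat_lit 0)) (M (nat_lit 1940894262886399))))))) (T.h (P (nat_lit 0)) (T.h (T.h (P (nat_lit 0)) (T.h (M (nat_lit 6393028105238678077439)) (T.h (P (nat_lit 0)) (M (nat_lit 20917731012706303))))) (T.h (P (nat_lit 0)) (T.h (T.h (P (nat_lit 0)) (P (nat_lit 10182874572193792))) (P (nat_lit 0))))))) (T.h (T.h (P (nat_lit 0)) (T.h (T.h (P (nat_lit 8967851728135020949274624)) (T.h (P (nat_lit 0)) (T.h (P (nat_lit 21437333873006477312)) (T.h (P (nat_lit 0)) (P (nat_lit 9389964963200)))))) (T.h (P (nat_lit 0)) (T.h (T.h (P (nat_lit 5808715515924840448)) (T.h (P (nat_lit 0)) (M (nat_lit 14649144822207)))) (T.h (P (nat_lit 0)) (M (nat_lit 6298334266991))))))) (T.h (T.h (T.h (P (nat_lit 0)) (T.h (P (nat_lit 4917025952193526628352)) (T.h (P (nat_lit 0)) (P (nat_lit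 13535529003122688))))) (T.h (P (nat_lit 0)) (T.h (T.h (P (nat_lit 0)) (P (nat_lit 17704818290655232))) (P (nat_lit 0))))) (T.h (T.h (P (nat_lit 0)) (T.h (T.h (M (nat_lit 1632295132411723775)) (T.h (P (nat_lit 0)) (P (nat_lit 7808644584816)))) (T.h (P (nat_lit 0)) (M (nat_lit 1954457784095))))) (T.h (T.h (T.h (P (nat_lit 0)) (P (nat_lit 566836548272128))) (P (nat_lit 0))) (T.h (T.h (P (nat_lit 0)) (M (nat_lit 1262651453183))) (P (nat_lit 0)))))))), (T.h (T.h (T.h (M (nat_lit 951227716243843427766930243583)) (T.h (P (nat_lit 0)) (T.h (P (nat_lit 3725888736541583637217280)) (T.h (P (nat_lit 0)) (T.h (M (nat_lit 4881796311956848639)) (T.h (P (nat_lit 0)) (P (nat_lit 927284701968)))))))) (T.h (P (nat_lit 0)) (T.h (T.h (P (nat_lit 15785240029512983648403456)) (T.h (P (nat_lit 0)) (T.h (P (nat_lit 48954083825573429248)) (T.h (P (nat_lit 0)) (P (nat_lit 7038243891216)))))) (T.h (P (nat_lit 0)) (T.h (T.h (M (nat_lit 14210726495290130431)) (T.h (P (nat_lit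 0)) (P (nat_lit 4758505378848)))) (T.h (P (nat_lit 0)) (M (nat_lit 5687995967)))))))) (T.h (T.h (P (nat_lit 0)) (T.h (T.h (P (nat_lit 0)) (T.h (M (nat_lit 42271297672274530795519)) (T.h (P (nat_lit 0)) (M (nat_lit 47909007178399743))))) (T.h (P (nat_lit 0)) (T.h (T.h (P (nat_lit 0)) (M (nat_lit 90241872173727743))) (P (nat_lit 0)))))) (T.h (T.h (T.h (P (nat_lit 3725888736541583637217280)) (T.h (P (nat_lit 0)) (T.h (M (nat_lit 74387678753093320703)) (T.h (P (nat_lit 0)) (P (nat_lit 4533752988592)))))) (T.h (P (nat_lit 0)) (T.h (T.h (P (nat_lit 48954083825573429248)) (T.h (P (nat_lit 0)) (P (nat_lit 4923797792)))) (T.h (P (nat_lit 0)) (P (nat_lit 4758505378848)))))) (T.h (T.h (P (nat_lit 0)) (T.h (T.h (P (nat_lit 0)) (M (nat_lit 47909007178399743))) (P (nat_lit 0)))) (T.h (T.h (T.h (M (nat_lit 4881796311956848639)) (T.h (P (nat_lit 0)) (P (nat_lit 4533752988592)))) (T.h (P (nat_lit 0)) (P (nat_lit 7038243891216)))) (T.h (P (nat_lit 0)) (P (nat_lit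 927284701968)))))))), (T.h (T.h (T.h (P (nat_lit 0)) (T.h (P (nat_lit 4038671708212743718947520512)) (T.h (P (nat_lit 0)) (T.h (P (nat_lit 30872122181433209913344)) (T.h (P (nat_lit 0)) (M (nat_lit 5026790275268607))))))) (T.h (P (nat_lit 0)) (T.h (T.h (P (nat_lit 0)) (T.h (M (nat_lit 212304625856367424438271)) (T.h (P (nat_lit 0)) (P (nat_lit 75833794379677696))))) (T.h (P (nat_lit 0)) (T.h (T.h (P (nat_lit 0)) (M (nat_lit 77564689659232255))) (P (nat_lit 0))))))) (T.h (T.h (P (nat_lit 0)) (T.h (T.h (P (nat_lit 44694462760537169588125696)) (T.h (P (nat_lit 0)) (T.h (P (nat_lit 193396473526025715712)) (T.h (P (nat_lit 0)) (M (nat_lit 94064231272143)))))) (T.h (P (nat_lit 0)) (T.h (T.h (M (nat_lit 5659509649276141567)) (T.h (P (nat_lit 0)) (M (nat_lit 18575295500271)))) (T.h (P (nat_lit 0)) (M (nat_lit 1102750372303))))))) (T.h (T.h (T.h (P (nat_lit 0)) (T.h (P (nat_lit 77247011222601508847616)) (T.h (P (nat_lit 0)) (M (nat_lit 51668033374715903)))))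 (T.h (P (nat_lit 0)) (T.h (T.h (P (nat_lit 0)) (M (nat_lit 22636712412643327))) (P (nat_lit 0))))) (T.h (T.h (P (nat_lit 0)) (T.h (T.h (M (nat_lit 11452942416558948351)) (T.h (P (nat_lit 0)) (M (nat_lit 27622295623215)))) (T.h (P (nat_lit 0)) (M (nat_lit 12260400160623))))) (T.h (T.h (T.h (P (nat_lit 0)) (P (nat_lit 24253183682134016))) (P (nat_lit 0))) (T.h (T.h (P (nat_lit 0)) (M (nat_lit 10914695388015))) (P (nat_lit 0)))))))), (T.h (T.h (T.h (M (nat_lit 3336858308950095421271779049471)) (T.h (P (nat_lit 0)) (T.h (M (nat_lit 80157411707928216959188991)) (T.h (P (nat_lit 0)) (T.h (M (nat_lit 36150116761263407103)) (T.h (P (nat_lit 0)) (M (nat_lit 5948322328959)))))))) (T.h (P (nat_lit 0)) (T.h (T.h (M (nat_lit 80157411707928216959188991)) (T.h (P (nat_lit 0)) (T.h (P (nat_lit 198424172909475921920)) (T.h (P (nat_lit 0)) (P (nat_lit 17656885201216)))))) (T.h (P (nat_lit 0)) (T.h (T.h (M (nat_lit 36150116761263407103)) (T.h (P (nat_lit 0)) (P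 (nat_lit 17656885201216)))) (T.h (P (nat_lit 0)) (M (nat_lit 5948322328959)))))))) (T.h (T.h (P (nat_lit 0)) (T.h (T.h (P (nat_lit 0)) (T.h (P (nat_lit 9156392675808196427776)) (T.h (P (nat_lit 0)) (M (nat_lit 199937798428426239))))) (T.h (P (nat_lit 0)) (T.h (T.h (P (nat_lit 0)) (M (nat_lit 199937798428426239))) (P (nat_lit 0)))))) (T.h (T.h (T.h (P (nat_lit 70027064311019118929117184)) (T.h (P (nat_lit 0)) (T.h (M (nat_lit 95037533799225229311)) (T.h (P (nat_lit 0)) (M (nat_lit 9725018242367)))))) (T.h (P (nat_lit 0)) (T.h (T.h (M (nat_lit 95037533799225229311)) (T.h (P (nat_lit 0)) (P (nat_lit 52572885336704)))) (T.h (P (nat_lit 0)) (M (nat_lit 9725018242367)))))) (T.h (T.h (P (nat_lit 0)) (T.h (T.h (P (nat_lit 0)) (P (nat_lit 27818317734084608))) (P (nat_lit 0)))) (T.h (T.h (T.h (P (nat_lit 88241934139394097152)) (T.h (P (nat_lit 0)) (P (nat_lit 3652843258368)))) (T.h (P (nat_lit 0)) (P (nat_lit 3652843258368)))) (T.h (P (nat_lit 0)) (P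 (nat_lit 19449370183424)))))))), (T.h (T.h (T.h (P (nat_lit 0)) (T.h (M (nat_lit 21382294463452524082142117887)) (T.h (P (nat_lit 0)) (T.h (P (nat_lit 8429021893482116022272)) (T.h (P (nat_lit 0)) (P (nat_lit 3098825511829504))))))) (T.h (P (nat_lit 0)) (T.h (T.h (P (nat_lit 0)) (T.h (P (nat_lit 5119974003336856731648)) (T.h (P (nat_lit 0)) (M (nat_lit 9121366597222399))))) (T.h (P (nat_lit 0)) (T.h (T.h (P (nat_lit 0)) (P (nat_lit 38231767106387968))) (P (nat_lit 0))))))) (T.h (T.h (P (nat_lit 0)) (T.h (T.h (M (nat_lit 11364634751436504396988415)) (T.h (P (nat_lit 0)) (M (nat_lit 72630611916194054143)))) (T.h (P (nat_lit 0)) (P (nat_lit 39642309639526154240))))) (T.h (T.h (T.h (P (nat_lit 0)) (T.h (M (nat_lit 55308368152604113371135)) (T.h (P (nat_lit 0)) (M (nat_lit 10349591218307071))))) (T.h (P (nat_lit 0)) (T.h (T.h (P (nat_lit 0)) (P (nat_lit 27209387641274368))) (P (nat_lit 0))))) (T.h (T.h (P (nat_lit 0)) (P (nat_lit 42786273065835692032)))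 (T.h (T.h (T.h (P (nat_lit 0)) (P (nat_lit 17072719312633856))) (P (nat_lit 0))) (P (nat_lit 0))))))), (P (nat_lit 0)), (P (nat_lit 0))]
def lQp_11 : List (T ℤ) := [(T.h (T.h (P (nat_lit 0)) (T.h (T.h (P (nat_lit 0)) (T.h (P (nat_lit 3093988085105477971607552)) (T.h (P (nat_lit 0)) (T.h (P (nat_lit 31376630254227423232)) (T.h (P (nat_lit 0)) (P (nat_lit 617502241472))))))) (T.h (P (nat_lit 0)) (T.h (T.h (P (nat_lit 0)) (T.h (P (nat_lit 59942037166122598400)) (T.h (P (nat_lit 0)) (P (nat_lit 9577825270920))))) (T.h (P (nat_lit 0)) (T.h (T.h (P (nat_lit 0)) (P (nat_lit 1726339860488))) (P (nat_lit 0)))))))) (T.h (T.h (T.h (P (nat_lit 241110326684477318414467072)) (T.h (P (nat_lit 0)) (T.h (P (nat_lit 42574672381838136180736)) (T.h (P (nat_lit 0)) (P (nat_lit 19885691812839424)))))) (T.h (P (nat_lit 0)) (T.h (T.h (M (nat_lit 34978613366834824478719)) (T.h (P (nat_lit 0)) (M (nat_lit 67973831304970239)))) (T.h (P (nat_lit 0)) (M (nat_lit 3911014313983999))))))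 (T.h (T.h (P (nat_lit 0)) (T.h (T.h (P (nat_lit 0)) (T.h (M (nat_lit 40575241349622661119)) (T.h (P (nat_lit 0)) (P (nat_lit 9896250995256))))) (T.h (P (nat_lit 0)) (T.h (T.h (P (nat_lit 0)) (M (nat_lit 9606426461535))) (P (nat_lit 0)))))) (T.h (T.h (T.h (M (nat_lit 13210000646600378023935)) (T.h (P (nat_lit 0)) (P (nat_lit 4128130433777664)))) (T.h (P (nat_lit 0)) (M (nat_lit 9004722249564159)))) (T.h (T.h (P (nat_lit 0)) (T.h (T.h (P (nat_lit 0)) (P (nat_lit 534616161528))) (P (nat_lit 0)))) (M (nat_lit 6511199756582911))))))), (T.h (T.h (P (nat_lit 0)) (T.h (T.h (M (nat_lit 982269466919223086024753151)) (T.h (P (nat_lit 0)) (T.h (P (nat_lit 42560299076557173948416)) (T.h (P (nat_lit 0)) (P (nat_lit 7031999440027648)))))) (T.h (P (nat_lit 0)) (T.h (T.h (M (nat_lit 35916013231108972871679)) (T.h (P (nat_lit 0)) (P (nat_lit 31111013493948416)))) (T.h (P (nat_lit 0)) (P (nat_lit 22810743852630016))))))) (T.h (T.h (T.h (P (nat_lit 0)) (T.h (M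 (nat_lit 28670927364569032967585791)) (T.h (P (nat_lit 0)) (T.h (M (nat_lit 18802396480193691647)) (T.h (P (nat_lit 0)) (P (nat_lit 4076389384816))))))) (T.h (P (nat_lit 0)) (T.h (T.h (P (nat_lit 0)) (T.h (P (nat_lit 88000864249788235776)) (T.h (P (nat_lit 0)) (M (nat_lit 7612428796111))))) (T.h (P (nat_lit 0)) (T.h (T.h (P (nat_lit 0)) (M (nat_lit 12132135300319))) (P (nat_lit 0))))))) (T.h (T.h (P (nat_lit 0)) (T.h (T.h (P (nat_lit 42560299076557173948416)) (T.h (P (nat_lit 0)) (M (nat_lit 79416610441396223)))) (T.h (P (nat_lit 0)) (P (nat_lit 31111013493948416))))) (T.h (T.h (T.h (P (nat_lit 0)) (T.h (M (nat_lit 18802396480193691647)) (T.h (P (nat_lit 0)) (M (nat_lit 675544214015))))) (T.h (P (nat_lit 0)) (T.h (T.h (P (nat_lit 0)) (M (nat_lit 7612428796111))) (P (nat_lit 0))))) (T.h (T.h (P (nat_lit 0)) (P (nat_lit 7031999440027648))) (T.h (T.h (T.h (P (nat_lit 0)) (P (nat_lit 4076389384816))) (P (nat_lit 0))) (P (nat_lit 0)))))))), (T.h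 (T.h (P (nat_lit 0)) (T.h (T.h (P (nat_lit 0)) (T.h (M (nat_lit 60254104789067815534460927)) (T.h (P (nat_lit 0)) (T.h (M (nat_lit 52593641093391712255)) (T.h (P (nat_lit 0)) (P (nat_lit 36218528417216))))))) (T.h (P (nat_lit 0)) (T.h (T.h (P (nat_lit 0)) (T.h (P (nat_lit 83831265369020956672)) (T.h (P (nat_lit 0)) (M (nat_lit 38518769153535))))) (T.h (P (nat_lit 0)) (T.h (T.h (P (nat_lit 0)) (P (nat_lit 74682600418176))) (P (nat_lit 0)))))))) (T.h (T.h (T.h (M (nat_lit 5002433316995141053611769855)) (T.h (P (nat_lit 0)) (T.h (P (nat_lit 64074607215303530119168)) (T.h (P (nat_lit 0)) (P (nat_lit 61092735884722176)))))) (T.h (P (nat_lit 0)) (T.h (T.h (P (nat_lit 8700266256169554673664)) (T.h (P (nat_lit 0)) (M (nat_lit 73061724823420927)))) (T.h (P (nat_lit 0)) (M (nat_lit 112770799911600127)))))) (T.h (T.h (P (nat_lit 0)) (T.h (T.h (P (nat_lit 0)) (T.h (M (nat_lit 122238363249976279039)) (T.h (P (nat_lit 0)) (P (nat_lit 20210294340288))))) (T.h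 (P (nat_lit 0)) (T.h (T.h (P (nat_lit 0)) (M (nat_lit 7268007345151))) (P (nat_lit 0)))))) (T.h (T.h (T.h (M (nat_lit 64860617282329165955071)) (T.h (P (nat_lit 0)) (P (nat_lit 37485078654844928)))) (T.h (P (nat_lit 0)) (P (nat_lit 8675185806737408)))) (T.h (T.h (P (nat_lit 0)) (T.h (T.h (P (nat_lit 0)) (P (nat_lit 4830483669120))) (P (nat_lit 0)))) (M (nat_lit 37256538694156287))))))), (T.h (T.h (P (nat_lit 0)) (T.h (T.h (M (nat_lit 21382294463452524082142117887)) (T.h (P (nat_lit 0)) (T.h (P (nat_lit 5119974003336856731648)) (T.h (P (nat_lit 0)) (P (nat_lit 38231767106387968)))))) (T.h (P (nat_lit 0)) (T.h (T.h (P (nat_lit 8429021893482116022272)) (T.h (P (nat_lit 0)) (M (nat_lit 9121366597222399)))) (T.h (P (nat_lit 0)) (P (nat_lit 3098825511829504))))))) (T.h (T.h (T.h (P (nat_lit 0)) (T.h (M (nat_lit 11364634751436504396988415)) (T.h (P (nat_lit 0)) (P (nat_lit 39642309639526154240))))) (T.h (P (nat_lit 0)) (T.h (T.h (P (nat_lit 0)) (M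 (nat_lit 72630611916194054143))) (P (nat_lit 0))))) (T.h (T.h (P (nat_lit 0)) (T.h (T.h (M (nat_lit 55308368152604113371135)) (T.h (P (nat_lit 0)) (P (nat_lit 27209387641274368)))) (T.h (P (nat_lit 0)) (M (nat_lit 10349591218307071))))) (T.h (T.h (T.h (P (nat_lit 0)) (P (nat_lit 42786273065835692032))) (P (nat_lit 0))) (T.h (T.h (P (nat_lit 0)) (P (nat_lit 17072719312633856))) (P (nat_lit 0))))))), (P (nat_lit 0)), (P (nat_lit 0)), (T.h (T.h (T.h (P (nat_lit 0)) (T.h (P (nat_lit 2070197147691113558778576896)) (T.h (P (nat_lit 0)) (T.h (M (nat_lit 1755541345251985719295)) (T.h (P (nat_lit 0)) (P (nat_lit 2055657166962688))))))) (T.h (P (nat_lit 0)) (T.h (T.h (P (nat_lit 0)) (T.h (P (nat_lit 50195457411964089663488)) (T.h (P (nat_lit 0)) (P (nat_lit 34533612525666304))))) (T.h (P (nat_lit 0)) (T.h (T.h (P (nat_lit 0)) (M (nat_lit 1263562713645055))) (P (nat_lit 0))))))) (T.h (T.h (P (nat_lit 0)) (T.h (T.h (M (nat_lit 34245653991761483615174655))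 (T.h (P (nat_lit 0)) (T.h (M (nat_lit 77947200328693710847)) (T.h (P (nat_lit 0)) (M (nat_lit 6622509720623)))))) (T.h (P (nat_lit 0)) (T.h (T.h (P (nat_lit 10955938041285312512)) (T.h (P (nat_lit 0)) (P (nat_lit 19135086581520)))) (T.h (P (nat_lit 0)) (P (nat_lit 11861041236576))))))) (T.h (T.h (T.h (P (nat_lit 0)) (T.h (M (nat_lit 16778713653034530897919)) (T.h (P (nat_lit 0)) (M (nat_lit 8110386514264063))))) (T.h (P (nat_lit 0)) (T.h (T.h (P (nat_lit 0)) (M (nat_lit 41484131990011903))) (P (nat_lit 0))))) (T.h (T.h (P (nat_lit 0)) (T.h (T.h (M (nat_lit 18414233202529927167)) (T.h (P (nat_lit 0)) (M (nat_lit 4081026789279)))) (T.h (P (nat_lit 0)) (P (nat_lit 4308734371088))))) (T.h (T.h (T.h (P (nat_lit 0)) (M (nat_lit 5071474906873855))) (P (nat_lit 0))) (T.h (T.h (P (nat_lit 0)) (P (nat_lit 3040955945440))) (P (nat_lit 0)))))))), (T.h (T.h (T.h (P (nat_lit 1489864615173141456557266960384)) (T.h (P (nat_lit 0)) (T.h (M (nat_lit 474886768969692552888319))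 (T.h (P (nat_lit 0)) (T.h (P (nat_lit 23472225573696176128)) (T.h (P (nat_lit 0)) (M (nat_lit 7400973879743)))))))) (T.h (P (nat_lit 0)) (T.h (T.h (P (nat_lit 19155564673305472233635840)) (T.h (P (nat_lit 0)) (T.h (M (nat_lit 76103848389897093119)) (T.h (P (nat_lit 0)) (P (nat_lit 4629881581312)))))) (T.h (P (nat_lit 0)) (T.h (T.h (P (nat_lit 60418906907182366720)) (T.h (P (nat_lit 0)) (P (nat_lit 25057116010112)))) (T.h (P (nat_lit 0)) (P (nat_lit 18032440444800)))))))) (T.h (T.h (P (nat_lit 0)) (T.h (T.h (P (nat_lit 0)) (T.h (P (nat_lit 138524736694348612108288)) (T.h (P (nat_lit 0)) (P (nat_lit 126631892948680704))))) (T.h (P (nat_lit 0)) (T.h (T.h (P (nat_lit 0)) (M (nat_lit 85942659986620415))) (P (nat_lit 0)))))) (T.h (T.h (T.h (M (nat_lit 474886768969692552888319)) (T.h (P (nat_lit 0)) (T.h (P (nat_lit 49589126739001344000)) (T.h (P (nat_lit 0)) (M (nat_lit 16542069378623)))))) (T.h (P (nat_lit 0)) (T.h (T.h (M (nat_lit 76103848389897093119))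 (T.h (P (nat_lit 0)) (P (nat_lit 86031824607232)))) (T.h (P (nat_lit 0)) (P (nat_lit 25057116010112)))))) (T.h (T.h (P (nat_lit 0)) (T.h (T.h (P (nat_lit 0)) (P (nat_lit 126631892948680704))) (P (nat_lit 0)))) (T.h (T.h (T.h (P (nat_lit 23472225573696176128)) (T.h (P (nat_lit 0)) (M (nat_lit 16542069378623)))) (T.h (P (nat_lit 0)) (P (nat_lit 4629881581312)))) (T.h (P (nat_lit 0)) (M (nat_lit 7400973879743))))))))]
def lQp_12 : List (T ℤ) := [(T.h (T.h (T.h (P (nat_lit 0)) (T.h (M (nat_lit 3133521640352018543595749375)) (T.h (P (nat_lit 0)) (T.h (M (nat_lit 6131544820029419683839)) (T.h (P (nat_lit 0)) (M (nat_lit 3746641894768639))))))) (T.h (P (nat_lit 0)) (T.h (T.h (P (nat_lit 0)) (T.h (P (nat_lit 3848273589639705526272)) (T.h (P (nat_lit 0)) (M (nat_lit 24755005882941439))))) (T.h (P (nat_lit 0)) (T.h (T.h (P (nat_lit 0)) (P (nat_lit 107296303587655680))) (P (nat_lit 0))))))) (T.h (T.h (P (nat_lit 0)) (T.h (T.h (P (nat_lit 34949159902444343565221888))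 (T.h (P (nat_lit 0)) (P (nat_lit 64795198108966322176)))) (T.h (P (nat_lit 0)) (M (nat_lit 130808218232064835583))))) (T.h (T.h (T.h (P (nat_lit 0)) (T.h (M (nat_lit 10530773426254924218367)) (T.h (P (nat_lit 0)) (P (nat_lit 3541496266850304))))) (T.h (P (nat_lit 0)) (T.h (T.h (P (nat_lit 0)) (P (nat_lit 48253519760162816))) (P (nat_lit 0))))) (T.h (T.h (P (nat_lit 0)) (P (nat_lit 18668642047161794560))) (T.h (T.h (T.h (P (nat_lit 0)) (M (nat_lit 25399662819524607))) (P (nat_lit 0))) (P (nat_lit 0))))))), (P (nat_lit 0)), (P (nat_lit 0)), (T.h (T.h (P (nat_lit 0)) (T.h (T.h (P (nat_lit 0)) (T.h (M (nat_lit 1960600475507989275475967)) (T.h (P (nat_lit 0)) (T.h (M (nat_lit 8906692828529164287)) (T.h (P (nat_lit 0)) (P (nat_lit 5650489332224))))))) (T.h (P (nat_lit 0)) (T.h (T.h (P (nat_lit 0)) (T.h (M (nat_lit 48691605605848186879)) (T.h (P (nat_lit 0)) (P (nat_lit 3170128275712))))) (T.h (P (nat_lit 0)) (T.h (T.h (P (nat_lit 0)) (M (nat_lit 1711617739199)))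 (P (nat_lit 0)))))))) (T.h (T.h (T.h (M (nat_lit 340004622159091421151231999)) (T.h (P (nat_lit 0)) (T.h (M (nat_lit 43982686652293688852479)) (T.h (P (nat_lit 0)) (M (nat_lit 13389946303381503)))))) (T.h (P (nat_lit 0)) (T.h (T.h (P (nat_lit 24853642217965949550592)) (T.h (P (nat_lit 0)) (P (nat_lit 60989868666159104)))) (T.h (P (nat_lit 0)) (M (nat_lit 1447515509358591)))))) (T.h (T.h (P (nat_lit 0)) (T.h (T.h (P (nat_lit 0)) (T.h (M (nat_lit 5346218877418209279)) (T.h (P (nat_lit 0)) (P (nat_lit 4520161715200))))) (T.h (P (nat_lit 0)) (T.h (T.h (P (nat_lit 0)) (P (nat_lit 18214856339968))) (P (nat_lit 0)))))) (T.h (T.h (T.h (P (nat_lit 8105186808818221187072)) (T.h (P (nat_lit 0)) (P (nat_lit 578246134136832)))) (T.h (P (nat_lit 0)) (P (nat_lit 19166517158117376)))) (T.h (T.h (P (nat_lit 0)) (T.h (T.h (P (nat_lit 0)) (M (nat_lit 5447580911871))) (P (nat_lit 0)))) (P (nat_lit 8938710452797440))))))), (T.h (T.h (P (nat_lit 0)) (T.h (T.h (P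 (nat_lit 14143915709784305992583872512)) (T.h (P (nat_lit 0)) (T.h (M (nat_lit 71315698274066231197695)) (T.h (P (nat_lit 0)) (P (nat_lit 8208545001439232)))))) (T.h (P (nat_lit 0)) (T.h (T.h (P (nat_lit 5554121537654855041024)) (T.h (P (nat_lit 0)) (P (nat_lit 32756148533133312)))) (T.h (P (nat_lit 0)) (P (nat_lit 26821480240742400))))))) (T.h (T.h (T.h (P (nat_lit 0)) (T.h (M (nat_lit 1786891951884896965754879)) (T.h (P (nat_lit 0)) (P (nat_lit 27420855437877051392))))) (T.h (P (nat_lit 0)) (T.h (T.h (P (nat_lit 0)) (M (nat_lit 20838505919270617087))) (P (nat_lit 0))))) (T.h (T.h (P (nat_lit 0)) (T.h (T.h (M (nat_lit 71315698274066231197695)) (T.h (P (nat_lit 0)) (P (nat_lit 50991262593449984)))) (T.h (P (nat_lit 0)) (P (nat_lit 32756148533133312))))) (T.h (T.h (T.h (P (nat_lit 0)) (P (nat_lit 27420855437877051392))) (P (nat_lit 0))) (T.h (T.h (P (nat_lit 0)) (P (nat_lit 8208545001439232))) (P (nat_lit 0))))))), (P (nat_lit 0)), (P (nat_lit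 0)), (T.h (T.h (T.h (P (nat_lit 0)) (T.h (M (nat_lit 2547540643335990035118817279)) (T.h (P (nat_lit 0)) (T.h (M (nat_lit 392783585823669878783)) (T.h (P (nat_lit 0)) (P (nat_lit 965174953410560))))))) (T.h (P (nat_lit 0)) (T.h (T.h (P (nat_lit 0)) (T.h (M (nat_lit 34455666698401404157951)) (T.h (P (nat_lit 0)) (M (nat_lit 584082030985215))))) (T.h (P (nat_lit 0)) (T.h (T.h (P (nat_lit 0)) (P (nat_lit 2625970948096000))) (P (nat_lit 0))))))) (T.h (T.h (P (nat_lit 0)) (T.h (T.h (P (nat_lit 18381355421258832978903040)) (T.h (P (nat_lit 0)) (P (nat_lit 36613268445365010432)))) (T.h (P (nat_lit 0)) (M (nat_lit 7114211940729094143))))) (T.h (T.h (T.h (P (nat_lit 0)) (T.h (P (nat_lit 19946718446392155570176)) (T.h (P (nat_lit 0)) (M (nat_lit 3402133379809279))))) (T.h (P (nat_lit 0)) (T.h (T.h (P (nat_lit 0)) (P (nat_lit 4932788028899328))) (P (nat_lit 0))))) (T.h (T.h (P (nat_lit 0)) (P (nat_lit 23203781688285986816))) (T.h (T.h (T.h (P (nat_lit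 0)) (M (nat_lit 3801332291633151))) (P (nat_lit 0))) (P (nat_lit 0)))))))]
def lQp_13 : List (T ℤ) := [(P (nat_lit 0)), (P (nat_lit 0)), (P (nat_lit 0)), (P (nat_lit 0)), (P (nat_lit 0)), (P (nat_lit 0)), (T.h (T.h (T.h (P (nat_lit 2362981971938681723231315951616)) (T.h (P (nat_lit 0)) (T.h (P (nat_lit 2807452377464748726288384)) (T.h (P (nat_lit 0)) (T.h (P (nat_lit 1473600440821088256)) (T.h (P (nat_lit 0)) (P (nat_lit 1881683625120)))))))) (T.h (P (nat_lit 0)) (T.h (T.h (M (nat_lit 7333312270972622047543295)) (T.h (P (nat_lit 0)) (T.h (M (nat_lit 5859465466359054335)) (T.h (P (nat_lit 0)) (P (nat_lit 1042106905216)))))) (T.h (P (nat_lit 0)) (T.h (T.h (P (nat_lit 2883080607284330496)) (T.h (P (nat_lit 0)) (P (nat_lit 5661848525520)))) (T.h (P (nat_lit 0)) (M (nat_lit 938032279007)))))))) (T.h (T.h (P (nat_lit 0)) (T.h (T.h (P (nat_lit 0)) (T.h (M (nat_lit 50356209117790411423743)) (T.h (P (nat_lit 0)) (P (nat_lit 40788069370691584))))) (T.h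 (P (nat_lit 0)) (T.h (T.h (P (nat_lit 0)) (M (nat_lit 124448709464817663))) (P (nat_lit 0)))))) (T.h (T.h (T.h (P (nat_lit 2807452377464748726288384)) (T.h (P (nat_lit 0)) (T.h (P (nat_lit 47444693086864670720)) (T.h (P (nat_lit 0)) (M (nat_lit 18230505796079)))))) (T.h (P (nat_lit 0)) (T.h (T.h (M (nat_lit 5859465466359054335)) (T.h (P (nat_lit 0)) (M (nat_lit 2800608362303)))) (T.h (P (nat_lit 0)) (P (nat_lit 5661848525520)))))) (T.h (T.h (P (nat_lit 0)) (T.h (T.h (P (nat_lit 0)) (P (nat_lit 40788069370691584))) (P (nat_lit 0)))) (T.h (T.h (T.h (P (nat_lit 1473600440821088256)) (T.h (P (nat_lit 0)) (M (nat_lit 18230505796079)))) (T.h (P (nat_lit 0)) (P (nat_lit 1042106905216)))) (T.h (P (nat_lit 0)) (P (nat_lit 1881683625120)))))))), (T.h (T.h (T.h (P (nat_lit 0)) (T.h (P (nat_lit 11005145223650182096316530688)) (T.h (P (nat_lit 0)) (T.h (P (nat_lit 5741794418175510577152)) (T.h (P (nat_lit 0)) (P (nat_lit 4029155842719744))))))) (T.h (P (nat_lit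 0)) (T.h (T.h (P (nat_lit 0)) (T.h (M (nat_lit 20325239418068966309887)) (T.h (P (nat_lit 0)) (P (nat_lit 5139061906145280))))) (T.h (P (nat_lit 0)) (T.h (T.h (P (nat_lit 0)) (P (nat_lit 280878511489024))) (P (nat_lit 0))))))) (T.h (T.h (P (nat_lit 0)) (T.h (T.h (M (nat_lit 17541619870994263948918783)) (T.h (P (nat_lit 0)) (T.h (P (nat_lit 205831188913407918080)) (T.h (P (nat_lit 0)) (P (nat_lit 6301638309736)))))) (T.h (P (nat_lit 0)) (T.h (T.h (M (nat_lit 49482143641827803135)) (T.h (P (nat_lit 0)) (P (nat_lit 9172057143024)))) (T.h (P (nat_lit 0)) (P (nat_lit 536236352936))))))) (T.h (T.h (T.h (P (nat_lit 0)) (T.h (P (nat_lit 39490502087022798176256)) (T.h (P (nat_lit 0)) (M (nat_lit 31548207555444735))))) (T.h (P (nat_lit 0)) (T.h (T.h (P (nat_lit 0)) (P (nat_lit 6667066154123264))) (P (nat_lit 0))))) (T.h (T.h (P (nat_lit 0)) (T.h (T.h (M (nat_lit 843162690380627967)) (T.h (P (nat_lit 0)) (M (nat_lit 8975987171199)))) (T.h (P (nat_lit 0))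 (M (nat_lit 4388847908527))))) (T.h (T.h (T.h (P (nat_lit 0)) (M (nat_lit 56707233229471743))) (P (nat_lit 0))) (T.h (T.h (P (nat_lit 0)) (P (nat_lit 4719196154696))) (P (nat_lit 0))))))))]
def lQp_14 : List (T ℤ) := [(T.h (T.h (T.h (M (nat_lit 15835445583881214503361032749055)) (T.h (P (nat_lit 0)) (T.h (P (nat_lit 5078850608105316436410368)) (T.h (P (nat_lit 0)) (T.h (M (nat_lit 9751005981399056383)) (T.h (P (nat_lit 0)) (M (nat_lit 8507132336751)))))))) (T.h (P (nat_lit 0)) (T.h (T.h (P (nat_lit 27829060430611715415080960)) (T.h (P (nat_lit 0)) (T.h (M (nat_lit 62468435583149539327)) (T.h (P (nat_lit 0)) (M (nat_lit 16452623026111)))))) (T.h (P (nat_lit 0)) (T.h (T.h (P (nat_lit 8856044916250247168)) (T.h (P (nat_lit 0)) (M (nat_lit 8671366263727)))) (T.h (P (nat_lit 0)) (M (nat_lit 1807611555343)))))))) (T.h (T.h (P (nat_lit 0)) (T.h (T.h (P (nat_lit 0)) (T.h (P (nat_lit 137274296418244684152832)) (T.h (P (nat_lit 0)) (M (nat_lit 89082000361291775)))))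 (T.h (P (nat_lit 0)) (T.h (T.h (P (nat_lit 0)) (P (nat_lit 164907919411740672))) (P (nat_lit 0)))))) (T.h (T.h (T.h (M (nat_lit 15954732730147194716291071)) (T.h (P (nat_lit 0)) (T.h (M (nat_lit 14048468776677015551)) (T.h (P (nat_lit 0)) (P (nat_lit 37577714858544)))))) (T.h (P (nat_lit 0)) (T.h (T.h (M (nat_lit 25355989848697077759)) (T.h (P (nat_lit 0)) (P (nat_lit 14277571269584)))) (T.h (P (nat_lit 0)) (M (nat_lit 6732252487071)))))) (T.h (T.h (P (nat_lit 0)) (T.h (T.h (P (nat_lit 0)) (M (nat_lit 38572466754813951))) (P (nat_lit 0)))) (T.h (T.h (T.h (M (nat_lit 19887400155925708799)) (T.h (P (nat_lit 0)) (P (nat_lit 29692863900784)))) (T.h (P (nat_lit 0)) (P (nat_lit 15366368407824)))) (T.h (P (nat_lit 0)) (M (nat_lit 4773610931599)))))))), (T.h (T.h (T.h (P (nat_lit 0)) (T.h (M (nat_lit 4304148551281740831751405567)) (T.h (P (nat_lit 0)) (T.h (M (nat_lit 16707090653062109331455)) (T.h (P (nat_lit 0)) (M (nat_lit 5776898915696639)))))))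 (T.h (P (nat_lit 0)) (T.h (T.h (P (nat_lit 0)) (T.h (M (nat_lit 25313360426532698324991)) (T.h (P (nat_lit 0)) (M (nat_lit 26109669090557951))))) (T.h (P (nat_lit 0)) (T.h (T.h (P (nat_lit 0)) (M (nat_lit 39992299983962111))) (P (nat_lit 0))))))) (T.h (T.h (P (nat_lit 0)) (T.h (T.h (P (nat_lit 10494658871746831442771968)) (T.h (P (nat_lit 0)) (T.h (M (nat_lit 166341497935569616895)) (T.h (P (nat_lit 0)) (M (nat_lit 4401048221823)))))) (T.h (P (nat_lit 0)) (T.h (T.h (P (nat_lit 34139594727559790592)) (T.h (P (nat_lit 0)) (P (nat_lit 12743561461376)))) (T.h (P (nat_lit 0)) (M (nat_lit 14192755560127))))))) (T.h (T.h (T.h (P (nat_lit 0)) (T.h (M (nat_lit 1015608543622518013951)) (T.h (P (nat_lit 0)) (P (nat_lit 52808192605061120))))) (T.h (P (nat_lit 0)) (T.h (T.h (P (nat_lit 0)) (M (nat_lit 22080326634962943))) (P (nat_lit 0))))) (T.h (T.h (P (nat_lit 0)) (T.h (T.h (M (nat_lit 13063050751532597247)) (T.h (P (nat_lit 0)) (P (nat_lit 337539405120))))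 (T.h (P (nat_lit 0)) (P (nat_lit 19930650988864))))) (T.h (T.h (T.h (P (nat_lit 0)) (P (nat_lit 92647970569584640))) (P (nat_lit 0))) (T.h (T.h (P (nat_lit 0)) (M (nat_lit 6448005040191))) (P (nat_lit 0)))))))), (T.h (T.h (T.h (P (nat_lit 848019981192476839092825358336)) (T.h (P (nat_lit 0)) (T.h (M (nat_lit 3438041479358372487626751)) (T.h (P (nat_lit 0)) (P (nat_lit 3512947433225060352)))))) (T.h (P (nat_lit 0)) (T.h (T.h (M (nat_lit 10653213847725133906575359)) (T.h (P (nat_lit 0)) (P (nat_lit 3300389089831813120)))) (T.h (P (nat_lit 0)) (M (nat_lit 11113978180799561727)))))) (T.h (T.h (P (nat_lit 0)) (T.h (T.h (P (nat_lit 0)) (T.h (M (nat_lit 41729021910207325798399)) (T.h (P (nat_lit 0)) (P (nat_lit 4819333066915840))))) (T.h (P (nat_lit 0)) (T.h (T.h (P (nat_lit 0)) (P (nat_lit 8839026266406912))) (P (nat_lit 0)))))) (T.h (T.h (T.h (P (nat_lit 6614624667399100999663616)) (T.h (P (nat_lit 0)) (P (nat_lit 19910758226580209664)))) (T.h (P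 (nat_lit 0)) (M (nat_lit 3947790254513061887)))) (T.h (T.h (P (nat_lit 0)) (T.h (T.h (P (nat_lit 0)) (M (nat_lit 5405502678335487))) (P (nat_lit 0)))) (P (nat_lit 30926891337990012928)))))), (P (nat_lit 0)), (P (nat_lit 0)), (T.h (T.h (P (nat_lit 0)) (T.h (T.h (P (nat_lit 0)) (T.h (M (nat_lit 1783583222540862459215871)) (T.h (P (nat_lit 0)) (T.h (M (nat_lit 968861825208680447)) (T.h (P (nat_lit 0)) (M (nat_lit 723600243695))))))) (T.h (P (nat_lit 0)) (T.h (T.h (P (nat_lit 0)) (T.h (M (nat_lit 968861825208680447)) (T.h (P (nat_lit 0)) (P (nat_lit 1106006924448))))) (T.h (P (nat_lit 0)) (T.h (T.h (P (nat_lit 0)) (M (nat_lit 723600243695))) (P (nat_lit 0)))))))) (T.h (T.h (T.h (P (nat_lit 292744442000501060956848128)) (T.h (P (nat_lit 0)) (T.h (M (nat_lit 71490041528832753663)) (T.h (P (nat_lit 0)) (M (nat_lit 7565409483816959)))))) (T.h (P (nat_lit 0)) (T.h (T.h (M (nat_lit 71490041528832753663)) (T.h (P (nat_lit 0)) (M (nat_lit 7318168459542527))))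 (T.h (P (nat_lit 0)) (M (nat_lit 7565409483816959)))))) (T.h (T.h (P (nat_lit 0)) (T.h (T.h (P (nat_lit 0)) (T.h (M (nat_lit 9687899242886070271)) (T.h (P (nat_lit 0)) (P (nat_lit 6132761592576))))) (T.h (P (nat_lit 0)) (T.h (T.h (P (nat_lit 0)) (P (nat_lit 6132761592576))) (P (nat_lit 0)))))) (T.h (T.h (T.h (P (nat_lit 578675089556927152128)) (T.h (P (nat_lit 0)) (M (nat_lit 208462894661631)))) (T.h (P (nat_lit 0)) (M (nat_lit 208462894661631)))) (T.h (T.h (P (nat_lit 0)) (T.h (T.h (P (nat_lit 0)) (P (nat_lit 18277536452736))) (P (nat_lit 0)))) (M (nat_lit 1348496507797503))))))), (T.h (T.h (P (nat_lit 0)) (T.h (T.h (P (nat_lit 9188822945411684451682877440)) (T.h (P (nat_lit 0)) (T.h (M (nat_lit 4503885725793601454079)) (T.h (P (nat_lit 0)) (P (nat_lit 157814033907712)))))) (T.h (P (nat_lit 0)) (T.h (T.h (P (nat_lit 18496271202248279719936)) (T.h (P (nat_lit 0)) (P (nat_lit 4368105829269504)))) (T.h (P (nat_lit 0)) (P (nat_lit 16740837449203712)))))))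 (T.h (T.h (T.h (P (nat_lit 0)) (T.h (P (nat_lit 9944284666342197386280960)) (T.h (P (nat_lit 0)) (T.h (P (nat_lit 23358221682462425088)) (T.h (P (nat_lit 0)) (M (nat_lit 2310447738543))))))) (T.h (P (nat_lit 0)) (T.h (T.h (P (nat_lit 0)) (T.h (P (nat_lit 143476815896919408640)) (T.h (P (nat_lit 0)) (P (nat_lit 5889195034888))))) (T.h (P (nat_lit 0)) (T.h (T.h (P (nat_lit 0)) (P (nat_lit 2948687322800))) (P (nat_lit 0))))))) (T.h (T.h (P (nat_lit 0)) (T.h (T.h (M (nat_lit 4503885725793601454079)) (T.h (P (nat_lit 0)) (M (nat_lit 213022691705815039)))) (T.h (P (nat_lit 0)) (P (nat_lit 4368105829269504))))) (T.h (T.h (T.h (P (nat_lit 0)) (T.h (P (nat_lit 23358221682462425088)) (T.h (P (nat_lit 0)) (P (nat_lit 5934710937968))))) (T.h (P (nat_lit 0)) (T.h (T.h (P (nat_lit 0)) (P (nat_lit 5889195034888))) (P (nat_lit 0))))) (T.h (T.h (P (nat_lit 0)) (P (nat_lit 157814033907712))) (T.h (T.h (T.h (P (nat_lit 0)) (M (nat_lit 2310447738543))) (P (nat_lit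 0))) (P (nat_lit 0)))))))), (T.h (T.h (P (nat_lit 0)) (T.h (T.h (P (nat_lit 0)) (T.h (P (nat_lit 44694462760537169588125696)) (T.h (P (nat_lit 0)) (T.h (M (nat_lit 5659509649276141567)) (T.h (P (nat_lit 0)) (M (nat_lit 1102750372303))))))) (T.h (P (nat_lit 0)) (T.h (T.h (P (nat_lit 0)) (T.h (M (nat_lit 11452942416558948351)) (T.h (P (nat_lit 0)) (M (nat_lit 12260400160623))))) (T.h (P (nat_lit 0)) (T.h (T.h (P (nat_lit 0)) (M (nat_lit 10914695388015))) (P (nat_lit 0)))))))) (T.h (T.h (T.h (P (nat_lit 4038671708212743718947520512)) (T.h (P (nat_lit 0)) (T.h (M (nat_lit 212304625856367424438271)) (T.h (P (nat_lit 0)) (M (nat_lit 77564689659232255)))))) (T.h (P (nat_lit 0)) (T.h (T.h (P (nat_lit 77247011222601508847616)) (T.h (P (nat_lit 0)) (M (nat_lit 22636712412643327)))) (T.h (P (nat_lit 0)) (P (nat_lit 24253183682134016)))))) (T.h (T.h (P (nat_lit 0)) (T.h (T.h (P (nat_lit 0)) (T.h (P (nat_lit 193396473526025715712)) (T.h (P (nat_lit 0)) (M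 (nat_lit 18575295500271))))) (T.h (P (nat_lit 0)) (T.h (T.h (P (nat_lit 0)) (M (nat_lit 27622295623215))) (P (nat_lit 0)))))) (T.h (T.h (T.h (P (nat_lit 30872122181433209913344)) (T.h (P (nat_lit 0)) (P (nat_lit 75833794379677696)))) (T.h (P (nat_lit 0)) (M (nat_lit 51668033374715903)))) (T.h (T.h (P (nat_lit 0)) (T.h (T.h (P (nat_lit 0)) (M (nat_lit 94064231272143))) (P (nat_lit 0)))) (M (nat_lit 5026790275268607)))))))]
def lQp_15 : List (T ℤ) := [(T.h (T.h (P (nat_lit 0)) (T.h (T.h (M (nat_lit 5002433316995141053611769855)) (T.h (P (nat_lit 0)) (T.h (P (nat_lit 8700266256169554673664)) (T.h (P (nat_lit 0)) (M (nat_lit 112770799911600127)))))) (T.h (P (nat_lit 0)) (T.h (T.h (M (nat_lit 64860617282329165955071)) (T.h (P (nat_lit 0)) (P (nat_lit 8675185806737408)))) (T.h (P (nat_lit 0)) (M (nat_lit 37256538694156287))))))) (T.h (T.h (T.h (P (nat_lit 0)) (T.h (M (nat_lit 60254104789067815534460927)) (T.h (P (nat_lit 0)) (T.h (P (nat_lit 83831265369020956672))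 (T.h (P (nat_lit 0)) (P (nat_lit 74682600418176))))))) (T.h (P (nat_lit 0)) (T.h (T.h (P (nat_lit 0)) (T.h (M (nat_lit 122238363249976279039)) (T.h (P (nat_lit 0)) (M (nat_lit 7268007345151))))) (T.h (P (nat_lit 0)) (T.h (T.h (P (nat_lit 0)) (P (nat_lit 4830483669120))) (P (nat_lit 0))))))) (T.h (T.h (P (nat_lit 0)) (T.h (T.h (P (nat_lit 64074607215303530119168)) (T.h (P (nat_lit 0)) (M (nat_lit 73061724823420927)))) (T.h (P (nat_lit 0)) (P (nat_lit 37485078654844928))))) (T.h (T.h (T.h (P (nat_lit 0)) (T.h (M (nat_lit 52593641093391712255)) (T.h (P (nat_lit 0)) (M (nat_lit 38518769153535))))) (T.h (P (nat_lit 0)) (T.h (T.h (P (nat_lit 0)) (P (nat_lit 20210294340288))) (P (nat_lit 0))))) (T.h (T.h (P (nat_lit 0)) (P (nat_lit 61092735884722176))) (T.h (T.h (T.h (P (nat_lit 0)) (P (nat_lit 36218528417216))) (P (nat_lit 0))) (P (nat_lit 0)))))))), (T.h (T.h (P (nat_lit 0)) (T.h (T.h (P (nat_lit 0)) (T.h (P (nat_lit 34949159902444343565221888))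 (T.h (P (nat_lit 0)) (M (nat_lit 130808218232064835583))))) (T.h (P (nat_lit 0)) (T.h (T.h (P (nat_lit 0)) (P (nat_lit 18668642047161794560))) (P (nat_lit 0)))))) (T.h (T.h (T.h (M (nat_lit 3133521640352018543595749375)) (T.h (P (nat_lit 0)) (T.h (P (nat_lit 3848273589639705526272)) (T.h (P (nat_lit 0)) (P (nat_lit 107296303587655680)))))) (T.h (P (nat_lit 0)) (T.h (T.h (M (nat_lit 10530773426254924218367)) (T.h (P (nat_lit 0)) (P (nat_lit 48253519760162816)))) (T.h (P (nat_lit 0)) (M (nat_lit 25399662819524607)))))) (T.h (T.h (P (nat_lit 0)) (T.h (T.h (P (nat_lit 0)) (P (nat_lit 64795198108966322176))) (P (nat_lit 0)))) (T.h (T.h (T.h (M (nat_lit 6131544820029419683839)) (T.h (P (nat_lit 0)) (M (nat_lit 24755005882941439)))) (T.h (P (nat_lit 0)) (P (nat_lit 3541496266850304)))) (T.h (P (nat_lit 0)) (M (nat_lit 3746641894768639))))))), (P (nat_lit 0)), (P (nat_lit 0)), (T.h (T.h (T.h (P (nat_lit 2362981971938681723231315951616)) (T.h (P (nat_lit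 0)) (T.h (M (nat_lit 7333312270972622047543295)) (T.h (P (nat_lit 0)) (T.h (P (nat_lit 2883080607284330496)) (T.h (P (nat_lit 0)) (M (nat_lit 938032279007)))))))) (T.h (P (nat_lit 0)) (T.h (T.h (P (nat_lit 2807452377464748726288384)) (T.h (P (nat_lit 0)) (T.h (M (nat_lit 5859465466359054335)) (T.h (P (nat_lit 0)) (P (nat_lit 5661848525520)))))) (T.h (P (nat_lit 0)) (T.h (T.h (P (nat_lit 1473600440821088256)) (T.h (P (nat_lit 0)) (P (nat_lit 1042106905216)))) (T.h (P (nat_lit 0)) (P (nat_lit 1881683625120)))))))) (T.h (T.h (P (nat_lit 0)) (T.h (T.h (P (nat_lit 0)) (T.h (M (nat_lit 50356209117790411423743)) (T.h (P (nat_lit 0)) (M (nat_lit 124448709464817663))))) (T.h (P (nat_lit 0)) (T.h (T.h (P (nat_lit 0)) (P (nat_lit 40788069370691584))) (P (nat_lit 0)))))) (T.h (T.h (T.h (P (nat_lit 2807452377464748726288384)) (T.h (P (nat_lit 0)) (T.h (M (nat_lit 5859465466359054335)) (T.h (P (nat_lit 0)) (P (nat_lit 5661848525520)))))) (T.h (P (nat_lit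 0)) (T.h (T.h (P (nat_lit 47444693086864670720)) (T.h (P (nat_lit 0)) (M (nat_lit 2800608362303)))) (T.h (P (nat_lit 0)) (M (nat_lit 18230505796079)))))) (T.h (T.h (P (nat_lit 0)) (T.h (T.h (P (nat_lit 0)) (P (nat_lit 40788069370691584))) (P (nat_lit 0)))) (T.h (T.h (T.h (P (nat_lit 1473600440821088256)) (T.h (P (nat_lit 0)) (P (nat_lit 1042106905216)))) (T.h (P (nat_lit 0)) (M (nat_lit 18230505796079)))) (T.h (P (nat_lit 0)) (P (nat_lit 1881683625120)))))))), (T.h (T.h (T.h (P (nat_lit 0)) (T.h (P (nat_lit 9188822945411684451682877440)) (T.h (P (nat_lit 0)) (T.h (P (nat_lit 18496271202248279719936)) (T.h (P (nat_lit 0)) (P (nat_lit 16740837449203712))))))) (T.h (P (nat_lit 0)) (T.h (T.h (P (nat_lit 0)) (T.h (M (nat_lit 4503885725793601454079)) (T.h (P (nat_lit 0)) (P (nat_lit 4368105829269504))))) (T.h (P (nat_lit 0)) (T.h (T.h (P (nat_lit 0)) (P (nat_lit 157814033907712))) (P (nat_lit 0))))))) (T.h (T.h (P (nat_lit 0)) (T.h (T.h (P (nat_lit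 9944284666342197386280960)) (T.h (P (nat_lit 0)) (T.h (P (nat_lit 143476815896919408640)) (T.h (P (nat_lit 0)) (P (nat_lit 2948687322800)))))) (T.h (P (nat_lit 0)) (T.h (T.h (P (nat_lit 23358221682462425088)) (T.h (P (nat_lit 0)) (P (nat_lit 5889195034888)))) (T.h (P (nat_lit 0)) (M (nat_lit 2310447738543))))))) (T.h (T.h (T.h (P (nat_lit 0)) (T.h (M (nat_lit 4503885725793601454079)) (T.h (P (nat_lit 0)) (P (nat_lit 4368105829269504))))) (T.h (P (nat_lit 0)) (T.h (T.h (P (nat_lit 0)) (M (nat_lit 213022691705815039))) (P (nat_lit 0))))) (T.h (T.h (P (nat_lit 0)) (T.h (T.h (P (nat_lit 23358221682462425088)) (T.h (P (nat_lit 0)) (P (nat_lit 5889195034888)))) (T.h (P (nat_lit 0)) (P (nat_lit 5934710937968))))) (T.h (T.h (T.h (P (nat_lit 0)) (P (nat_lit 157814033907712))) (P (nat_lit 0))) (T.h (T.h (P (nat_lit 0)) (M (nat_lit 2310447738543))) (P (nat_lit 0)))))))), (T.h (T.h (T.h (M (nat_lit 6194606961876194113615621521407)) (T.h (P (nat_lit 0))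 (T.h (M (nat_lit 9289036847782844990226431)) (T.h (P (nat_lit 0)) (T.h (P (nat_lit 21786340869195956224)) (T.h (P (nat_lit 0)) (P (nat_lit 11600234825088)))))))) (T.h (P (nat_lit 0)) (T.h (T.h (M (nat_lit 9289036847782844990226431)) (T.h (P (nat_lit 0)) (T.h (P (nat_lit 55315100712977825792)) (T.h (P (nat_lit 0)) (M (nat_lit 35804570608575)))))) (T.h (P (nat_lit 0)) (T.h (T.h (P (nat_lit 21786340869195956224)) (T.h (P (nat_lit 0)) (M (nat_lit 35804570608575)))) (T.h (P (nat_lit 0)) (P (nat_lit 11600234825088)))))))) (T.h (T.h (P (nat_lit 0)) (T.h (T.h (P (nat_lit 0)) (T.h (M (nat_lit 366330729739845548113919)) (T.h (P (nat_lit 0)) (P (nat_lit 57754847386075136))))) (T.h (P (nat_lit 0)) (T.h (T.h (P (nat_lit 0)) (P (nat_lit 57754847386075136))) (P (nat_lit 0)))))) (T.h (T.h (T.h (M (nat_lit 9289036847782844990226431)) (T.h (P (nat_lit 0)) (T.h (P (nat_lit 55315100712977825792)) (T.h (P (nat_lit 0)) (M (nat_lit 35804570608575)))))) (T.h (P (nat_lit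 0)) (T.h (T.h (P (nat_lit 55315100712977825792)) (T.h (P (nat_lit 0)) (M (nat_lit 11893771759967)))) (T.h (P (nat_lit 0)) (M (nat_lit 35804570608575)))))) (T.h (T.h (P (nat_lit 0)) (T.h (T.h (P (nat_lit 0)) (P (nat_lit 57754847386075136))) (P (nat_lit 0)))) (T.h (T.h (T.h (P (nat_lit 21786340869195956224)) (T.h (P (nat_lit 0)) (M (nat_lit 35804570608575)))) (T.h (P (nat_lit 0)) (M (nat_lit 35804570608575)))) (T.h (P (nat_lit 0)) (P (nat_lit 11600234825088)))))))), (T.h (T.h (T.h (P (nat_lit 0)) (T.h (P (nat_lit 68616482929058726596929650688)) (T.h (P (nat_lit 0)) (T.h (P (nat_lit 4403951820931017474048)) (T.h (P (nat_lit 0)) (P (nat_lit 14664786472402944))))))) (T.h (P (nat_lit 0)) (T.h (T.h (P (nat_lit 0)) (T.h (P (nat_lit 56845807564042388111360)) (T.h (P (nat_lit 0)) (M (nat_lit 74136206499512319))))) (T.h (P (nat_lit 0)) (T.h (T.h (P (nat_lit 0)) (M (nat_lit 148044154368163839))) (P (nat_lit 0))))))) (T.h (T.h (P (nat_lit 0)) (T.h (T.h (M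 (nat_lit 68666041866443020931432447)) (T.h (P (nat_lit 0)) (T.h (P (nat_lit 437683900156504702976)) (T.h (P (nat_lit 0)) (P (nat_lit 71288209895040)))))) (T.h (P (nat_lit 0)) (T.h (T.h (P (nat_lit 11016878522982465536)) (T.h (P (nat_lit 0)) (P (nat_lit 47079710856640)))) (T.h (P (nat_lit 0)) (P (nat_lit 3304377496704))))))) (T.h (T.h (T.h (P (nat_lit 0)) (T.h (P (nat_lit 56845807564042388111360)) (T.h (P (nat_lit 0)) (M (nat_lit 74136206499512319))))) (T.h (P (nat_lit 0)) (T.h (T.h (P (nat_lit 0)) (M (nat_lit 99912942197735423))) (P (nat_lit 0))))) (T.h (T.h (P (nat_lit 0)) (T.h (T.h (P (nat_lit 11016878522982465536)) (T.h (P (nat_lit 0)) (P (nat_lit 47079710856640)))) (T.h (P (nat_lit 0)) (P (nat_lit 1170294273792))))) (T.h (T.h (T.h (P (nat_lit 0)) (M (nat_lit 148044154368163839))) (P (nat_lit 0))) (T.h (T.h (P (nat_lit 0)) (P (nat_lit 3304377496704))) (P (nat_lit 0))))))))]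
def lQp_16 : List (T ℤ) := [(T.h (T.h (T.h (P (nat_lit 3142910377488252325730828943360)) (T.h (P (nat_lit 0)) (T.h (M (nat_lit 18536861392735411206356991)) (T.h (P (nat_lit 0)) (M (nat_lit 56634526376671576063)))))) (T.h (P (nat_lit 0)) (T.h (T.h (M (nat_lit 33691155774875871798624255)) (T.h (P (nat_lit 0)) (M (nat_lit 2844952429110231039)))) (T.h (P (nat_lit 0)) (M (nat_lit 43612476535541334015)))))) (T.h (T.h (P (nat_lit 0)) (T.h (T.h (P (nat_lit 0)) (T.h (M (nat_lit 77133057163773054287871)) (T.h (P (nat_lit 0)) (P (nat_lit 65556687411085312))))) (T.h (P (nat_lit 0)) (T.h (T.h (P (nat_lit 0)) (P (nat_lit 39398897938006016))) (P (nat_lit 0)))))) (T.h (T.h (T.h (M (nat_lit 33691155774875871798624255)) (T.h (P (nat_lit 0)) (M (nat_lit 2844952429110231039)))) (T.h (P (nat_lit 0)) (P (nat_lit 71619732868914216960)))) (T.h (T.h (P (nat_lit 0)) (T.h (T.h (P (nat_lit 0)) (P (nat_lit 39398897938006016))) (P (nat_lit 0)))) (M (nat_lit 43612476535541334015)))))),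 (P (nat_lit 0)), (P (nat_lit 0)), (T.h (T.h (P (nat_lit 0)) (T.h (T.h (P (nat_lit 11005145223650182096316530688)) (T.h (P (nat_lit 0)) (T.h (M (nat_lit 20325239418068966309887)) (T.h (P (nat_lit 0)) (P (nat_lit 280878511489024)))))) (T.h (P (nat_lit 0)) (T.h (T.h (P (nat_lit 5741794418175510577152)) (T.h (P (nat_lit 0)) (P (nat_lit 5139061906145280)))) (T.h (P (nat_lit 0)) (P (nat_lit 4029155842719744))))))) (T.h (T.h (T.h (P (nat_lit 0)) (T.h (M (nat_lit 17541619870994263948918783)) (T.h (P (nat_lit 0)) (T.h (M (nat_lit 49482143641827803135)) (T.h (P (nat_lit 0)) (P (nat_lit 536236352936))))))) (T.h (P (nat_lit 0)) (T.h (T.h (P (nat_lit 0)) (T.h (P (nat_lit 205831188913407918080)) (T.h (P (nat_lit 0)) (P (nat_lit 9172057143024))))) (T.h (P (nat_lit 0)) (T.h (T.h (P (nat_lit 0)) (P (nat_lit 6301638309736))) (P (nat_lit 0))))))) (T.h (T.h (P (nat_lit 0)) (T.h (T.h (P (nat_lit 39490502087022798176256)) (T.h (P (nat_lit 0)) (P (nat_lit 6667066154123264))))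 (T.h (P (nat_lit 0)) (M (nat_lit 31548207555444735))))) (T.h (T.h (T.h (P (nat_lit 0)) (T.h (M (nat_lit 843162690380627967)) (T.h (P (nat_lit 0)) (M (nat_lit 4388847908527))))) (T.h (P (nat_lit 0)) (T.h (T.h (P (nat_lit 0)) (M (nat_lit 8975987171199))) (P (nat_lit 0))))) (T.h (T.h (P (nat_lit 0)) (M (nat_lit 56707233229471743))) (T.h (T.h (T.h (P (nat_lit 0)) (P (nat_lit 4719196154696))) (P (nat_lit 0))) (P (nat_lit 0)))))))), (T.h (T.h (P (nat_lit 0)) (T.h (T.h (P (nat_lit 0)) (T.h (P (nat_lit 44694462760537169588125696)) (T.h (P (nat_lit 0)) (T.h (M (nat_lit 11452942416558948351)) (T.h (P (nat_lit 0)) (M (nat_lit 10914695388015))))))) (T.h (P (nat_lit 0)) (T.h (T.h (P (nat_lit 0)) (T.h (M (nat_lit 5659509649276141567)) (T.h (P (nat_lit 0)) (M (nat_lit 12260400160623))))) (T.h (P (nat_lit 0)) (T.h (T.h (P (nat_lit 0)) (M (nat_lit 1102750372303))) (P (nat_lit 0)))))))) (T.h (T.h (T.h (P (nat_lit 4038671708212743718947520512)) (T.h (P (nat_lit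 0)) (T.h (P (nat_lit 77247011222601508847616)) (T.h (P (nat_lit 0)) (P (nat_lit 24253183682134016)))))) (T.h (P (nat_lit 0)) (T.h (T.h (M (nat_lit 212304625856367424438271)) (T.h (P (nat_lit 0)) (M (nat_lit 22636712412643327)))) (T.h (P (nat_lit 0)) (M (nat_lit 77564689659232255)))))) (T.h (T.h (P (nat_lit 0)) (T.h (T.h (P (nat_lit 0)) (T.h (P (nat_lit 193396473526025715712)) (T.h (P (nat_lit 0)) (M (nat_lit 27622295623215))))) (T.h (P (nat_lit 0)) (T.h (T.h (P (nat_lit 0)) (M (nat_lit 18575295500271))) (P (nat_lit 0)))))) (T.h (T.h (T.h (P (nat_lit 30872122181433209913344)) (T.h (P (nat_lit 0)) (M (nat_lit 51668033374715903)))) (T.h (P (nat_lit 0)) (P (nat_lit 75833794379677696)))) (T.h (T.h (P (nat_lit 0)) (T.h (T.h (P (nat_lit 0)) (M (nat_lit 94064231272143))) (P (nat_lit 0)))) (M (nat_lit 5026790275268607))))))), (T.h (T.h (P (nat_lit 0)) (T.h (T.h (P (nat_lit 68616482929058726596929650688)) (T.h (P (nat_lit 0)) (T.h (P (nat_lit 56845807564042388111360))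 (T.h (P (nat_lit 0)) (M (nat_lit 148044154368163839)))))) (T.h (P (nat_lit 0)) (T.h (T.h (P (nat_lit 4403951820931017474048)) (T.h (P (nat_lit 0)) (M (nat_lit 74136206499512319)))) (T.h (P (nat_lit 0)) (P (nat_lit 14664786472402944))))))) (T.h (T.h (T.h (P (nat_lit 0)) (T.h (M (nat_lit 68666041866443020931432447)) (T.h (P (nat_lit 0)) (T.h (P (nat_lit 11016878522982465536)) (T.h (P (nat_lit 0)) (P (nat_lit 3304377496704))))))) (T.h (P (nat_lit 0)) (T.h (T.h (P (nat_lit 0)) (T.h (P (nat_lit 437683900156504702976)) (T.h (P (nat_lit 0)) (P (nat_lit 47079710856640))))) (T.h (P (nat_lit 0)) (T.h (T.h (P (nat_lit 0)) (P (nat_lit 71288209895040))) (P (nat_lit 0))))))) (T.h (T.h (P (nat_lit 0)) (T.h (T.h (P (nat_lit 56845807564042388111360)) (T.h (P (nat_lit 0)) (M (nat_lit 99912942197735423)))) (T.h (P (nat_lit 0)) (M (nat_lit 74136206499512319))))) (T.h (T.h (T.h (P (nat_lit 0)) (T.h (P (nat_lit 11016878522982465536)) (T.h (P (nat_lit 0)) (P (nat_lit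 1170294273792))))) (T.h (P (nat_lit 0)) (T.h (T.h (P (nat_lit 0)) (P (nat_lit 47079710856640))) (P (nat_lit 0))))) (T.h (T.h (P (nat_lit 0)) (M (nat_lit 148044154368163839))) (T.h (T.h (T.h (P (nat_lit 0)) (P (nat_lit 3304377496704))) (P (nat_lit 0))) (P (nat_lit 0)))))))), (T.h (T.h (P (nat_lit 0)) (T.h (T.h (P (nat_lit 0)) (T.h (M (nat_lit 8003037340627921316872191)) (T.h (P (nat_lit 0)) (M (nat_lit 111705972701661233151))))) (T.h (P (nat_lit 0)) (T.h (T.h (P (nat_lit 0)) (M (nat_lit 111705972701661233151))) (P (nat_lit 0)))))) (T.h (T.h (T.h (P (nat_lit 10143313764801585540136697856)) (T.h (P (nat_lit 0)) (T.h (P (nat_lit 11717009930323488669696)) (T.h (P (nat_lit 0)) (P (nat_lit 17500175588818944)))))) (T.h (P (nat_lit 0)) (T.h (T.h (P (nat_lit 11717009930323488669696)) (T.h (P (nat_lit 0)) (P (nat_lit 99231753168191488)))) (T.h (P (nat_lit 0)) (P (nat_lit 17500175588818944)))))) (T.h (T.h (P (nat_lit 0)) (T.h (T.h (P (nat_lit 0)) (P (nat_lit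 26010462300483354624))) (P (nat_lit 0)))) (T.h (T.h (T.h (P (nat_lit 45359257570254440628224)) (T.h (P (nat_lit 0)) (P (nat_lit 16691703478140928)))) (T.h (P (nat_lit 0)) (P (nat_lit 16691703478140928)))) (T.h (P (nat_lit 0)) (P (nat_lit 31566073880051712))))))), (P (nat_lit 0))]
def lQp_17 : List (T ℤ) := [(P (nat_lit 0)), (T.h (T.h (T.h (M (nat_lit 15835445583881214503361032749055)) (T.h (P (nat_lit 0)) (T.h (P (nat_lit 27829060430611715415080960)) (T.h (P (nat_lit 0)) (T.h (P (nat_lit 8856044916250247168)) (T.h (P (nat_lit 0)) (M (nat_lit 1807611555343)))))))) (T.h (P (nat_lit 0)) (T.h (T.h (P (nat_lit 5078850608105316436410368)) (T.h (P (nat_lit 0)) (T.h (M (nat_lit 62468435583149539327)) (T.h (P (nat_lit 0)) (M (nat_lit 8671366263727)))))) (T.h (P (nat_lit 0)) (T.h (T.h (M (nat_lit 9751005981399056383)) (T.h (P (nat_lit 0)) (M (nat_lit 16452623026111)))) (T.h (P (nat_lit 0)) (M (nat_lit 8507132336751)))))))) (T.h (T.h (P (nat_lit 0)) (T.h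 (T.h (P (nat_lit 0)) (T.h (P (nat_lit 137274296418244684152832)) (T.h (P (nat_lit 0)) (P (nat_lit 164907919411740672))))) (T.h (P (nat_lit 0)) (T.h (T.h (P (nat_lit 0)) (M (nat_lit 89082000361291775))) (P (nat_lit 0)))))) (T.h (T.h (T.h (M (nat_lit 15954732730147194716291071)) (T.h (P (nat_lit 0)) (T.h (M (nat_lit 25355989848697077759)) (T.h (P (nat_lit 0)) (M (nat_lit 6732252487071)))))) (T.h (P (nat_lit 0)) (T.h (T.h (M (nat_lit 14048468776677015551)) (T.h (P (nat_lit 0)) (P (nat_lit 14277571269584)))) (T.h (P (nat_lit 0)) (P (nat_lit 37577714858544)))))) (T.h (T.h (P (nat_lit 0)) (T.h (T.h (P (nat_lit 0)) (M (nat_lit 38572466754813951))) (P (nat_lit 0)))) (T.h (T.h (T.h (M (nat_lit 19887400155925708799)) (T.h (P (nat_lit 0)) (P (nat_lit 15366368407824)))) (T.h (P (nat_lit 0)) (P (nat_lit 29692863900784)))) (T.h (P (nat_lit 0)) (M (nat_lit 4773610931599)))))))), (T.h (T.h (T.h (P (nat_lit 0)) (T.h (M (nat_lit 5002433316995141053611769855))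 (T.h (P (nat_lit 0)) (T.h (M (nat_lit 64860617282329165955071)) (T.h (P (nat_lit 0)) (M (nat_lit 37256538694156287))))))) (T.h (P (nat_lit 0)) (T.h (T.h (P (nat_lit 0)) (T.h (P (nat_lit 8700266256169554673664)) (T.h (P (nat_lit 0)) (P (nat_lit 8675185806737408))))) (T.h (P (nat_lit 0)) (T.h (T.h (P (nat_lit 0)) (M (nat_lit 112770799911600127))) (P (nat_lit 0))))))) (T.h (T.h (P (nat_lit 0)) (T.h (T.h (M (nat_lit 60254104789067815534460927)) (T.h (P (nat_lit 0)) (T.h (M (nat_lit 122238363249976279039)) (T.h (P (nat_lit 0)) (P (nat_lit 4830483669120)))))) (T.h (P (nat_lit 0)) (T.h (T.h (P (nat_lit 83831265369020956672)) (T.h (P (nat_lit 0)) (M (nat_lit 7268007345151)))) (T.h (P (nat_lit 0)) (P (nat_lit 74682600418176))))))) (T.h (T.h (T.h (P (nat_lit 0)) (T.h (P (nat_lit 64074607215303530119168)) (T.h (P (nat_lit 0)) (P (nat_lit 37485078654844928))))) (T.h (P (nat_lit 0)) (T.h (T.h (P (nat_lit 0)) (M (nat_lit 73061724823420927))) (P (nat_lit 0)))))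 (T.h (T.h (P (nat_lit 0)) (T.h (T.h (M (nat_lit 52593641093391712255)) (T.h (P (nat_lit 0)) (P (nat_lit 20210294340288)))) (T.h (P (nat_lit 0)) (M (nat_lit 38518769153535))))) (T.h (T.h (T.h (P (nat_lit 0)) (P (nat_lit 61092735884722176))) (P (nat_lit 0))) (T.h (T.h (P (nat_lit 0)) (P (nat_lit 36218528417216))) (P (nat_lit 0)))))))), (T.h (T.h (T.h (P (nat_lit 3142910377488252325730828943360)) (T.h (P (nat_lit 0)) (T.h (M (nat_lit 33691155774875871798624255)) (T.h (P (nat_lit 0)) (M (nat_lit 43612476535541334015)))))) (T.h (P (nat_lit 0)) (T.h (T.h (M (nat_lit 18536861392735411206356991)) (T.h (P (nat_lit 0)) (M (nat_lit 2844952429110231039)))) (T.h (P (nat_lit 0)) (M (nat_lit 56634526376671576063)))))) (T.h (T.h (P (nat_lit 0)) (T.h (T.h (P (nat_lit 0)) (T.h (M (nat_lit 77133057163773054287871)) (T.h (P (nat_lit 0)) (P (nat_lit 39398897938006016))))) (T.h (P (nat_lit 0)) (T.h (T.h (P (nat_lit 0)) (P (nat_lit 65556687411085312))) (P (nat_lit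 0)))))) (T.h (T.h (T.h (M (nat_lit 33691155774875871798624255)) (T.h (P (nat_lit 0)) (P (nat_lit 71619732868914216960)))) (T.h (P (nat_lit 0)) (M (nat_lit 2844952429110231039)))) (T.h (T.h (P (nat_lit 0)) (T.h (T.h (P (nat_lit 0)) (P (nat_lit 39398897938006016))) (P (nat_lit 0)))) (M (nat_lit 43612476535541334015)))))), (P (nat_lit 0)), (P (nat_lit 0)), (T.h (T.h (P (nat_lit 0)) (T.h (T.h (M (nat_lit 4304148551281740831751405567)) (T.h (P (nat_lit 0)) (T.h (M (nat_lit 25313360426532698324991)) (T.h (P (nat_lit 0)) (M (nat_lit 39992299983962111)))))) (T.h (P (nat_lit 0)) (T.h (T.h (M (nat_lit 16707090653062109331455)) (T.h (P (nat_lit 0)) (M (nat_lit 26109669090557951)))) (T.h (P (nat_lit 0)) (M (nat_lit 5776898915696639))))))) (T.h (T.h (T.h (P (nat_lit 0)) (T.h (P (nat_lit 10494658871746831442771968)) (T.h (P (nat_lit 0)) (T.h (P (nat_lit 34139594727559790592)) (T.h (P (nat_lit 0)) (M (nat_lit 14192755560127))))))) (T.h (P (nat_lit 0)) (T.h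 (T.h (P (nat_lit 0)) (T.h (M (nat_lit 166341497935569616895)) (T.h (P (nat_lit 0)) (P (nat_lit 12743561461376))))) (T.h (P (nat_lit 0)) (T.h (T.h (P (nat_lit 0)) (M (nat_lit 4401048221823))) (P (nat_lit 0))))))) (T.h (T.h (P (nat_lit 0)) (T.h (T.h (M (nat_lit 1015608543622518013951)) (T.h (P (nat_lit 0)) (M (nat_lit 22080326634962943)))) (T.h (P (nat_lit 0)) (P (nat_lit 52808192605061120))))) (T.h (T.h (T.h (P (nat_lit 0)) (T.h (M (nat_lit 13063050751532597247)) (T.h (P (nat_lit 0)) (P (nat_lit 19930650988864))))) (T.h (P (nat_lit 0)) (T.h (T.h (P (nat_lit 0)) (P (nat_lit 337539405120))) (P (nat_lit 0))))) (T.h (T.h (P (nat_lit 0)) (P (nat_lit 92647970569584640))) (T.h (T.h (T.h (P (nat_lit 0)) (M (nat_lit 6448005040191))) (P (nat_lit 0))) (P (nat_lit 0)))))))), (T.h (T.h (P (nat_lit 0)) (T.h (T.h (P (nat_lit 0)) (T.h (P (nat_lit 34949159902444343565221888)) (T.h (P (nat_lit 0)) (P (nat_lit 18668642047161794560))))) (T.h (P (nat_lit 0)) (T.h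 (T.h (P (nat_lit 0)) (M (nat_lit 130808218232064835583))) (P (nat_lit 0)))))) (T.h (T.h (T.h (M (nat_lit 3133521640352018543595749375)) (T.h (P (nat_lit 0)) (T.h (M (nat_lit 10530773426254924218367)) (T.h (P (nat_lit 0)) (M (nat_lit 25399662819524607)))))) (T.h (P (nat_lit 0)) (T.h (T.h (P (nat_lit 3848273589639705526272)) (T.h (P (nat_lit 0)) (P (nat_lit 48253519760162816)))) (T.h (P (nat_lit 0)) (P (nat_lit 107296303587655680)))))) (T.h (T.h (P (nat_lit 0)) (T.h (T.h (P (nat_lit 0)) (P (nat_lit 64795198108966322176))) (P (nat_lit 0)))) (T.h (T.h (T.h (M (nat_lit 6131544820029419683839)) (T.h (P (nat_lit 0)) (P (nat_lit 3541496266850304)))) (T.h (P (nat_lit 0)) (M (nat_lit 24755005882941439)))) (T.h (P (nat_lit 0)) (M (nat_lit 3746641894768639)))))))]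
def lQp_18 : List (T ℤ) := [(P (nat_lit 0)), (P (nat_lit 0)), (T.h (T.h (T.h (P (nat_lit 848019981192476839092825358336)) (T.h (P (nat_lit 0)) (T.h (M (nat_lit 10653213847725133906575359)) (T.h (P (nat_lit 0)) (M (nat_lit 11113978180799561727)))))) (T.h (P (nat_lit 0)) (T.h (T.h (M (nat_lit 3438041479358372487626751)) (T.h (P (nat_lit 0)) (P (nat_lit 3300389089831813120)))) (T.h (P (nat_lit 0)) (P (nat_lit 3512947433225060352)))))) (T.h (T.h (P (nat_lit 0)) (T.h (T.h (P (nat_lit 0)) (T.h (M (nat_lit 41729021910207325798399)) (T.h (P (nat_lit 0)) (P (nat_lit 8839026266406912))))) (T.h (P (nat_lit 0)) (T.h (T.h (P (nat_lit 0)) (P (nat_lit 4819333066915840))) (P (nat_lit 0)))))) (T.h (T.h (T.h (P (nat_lit 6614624667399100999663616)) (T.h (P (nat_lit 0)) (M (nat_lit 3947790254513061887)))) (T.h (P (nat_lit 0)) (P (nat_lit 19910758226580209664)))) (T.h (T.h (P (nat_lit 0)) (T.h (T.h (P (nat_lit 0)) (M (nat_lit 5405502678335487))) (P (nat_lit 0))))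 (P (nat_lit 30926891337990012928)))))), (P (nat_lit 0)), (P (nat_lit 0)), (P (nat_lit 0)), (P (nat_lit 0)), (P (nat_lit 0))]
def lQp_19 : List (T ℤ) := [(T.h (T.h (P (nat_lit 0)) (T.h (T.h (P (nat_lit 382278186225956246805020672)) (T.h (P (nat_lit 0)) (T.h (P (nat_lit 4917025952193526628352)) (T.h (P (nat_lit 0)) (P (nat_lit 566836548272128)))))) (T.h (P (nat_lit 0)) (T.h (T.h (M (nat_lit 2314989451720488124415)) (T.h (P (nat_lit 0)) (P (nat_lit 13535529003122688)))) (T.h (P (nat_lit 0)) (M (nat_lit 1940894262886399))))))) (T.h (T.h (T.h (P (nat_lit 0)) (T.h (P (nat_lit 8967851728135020949274624)) (T.h (P (nat_lit 0)) (T.h (M (nat_lit 1632295132411723775)) (T.h (P (nat_lit 0)) (M (nat_lit 1262651453183))))))) (T.h (P (nat_lit 0)) (T.h (T.h (P (nat_lit 0)) (T.h (P (nat_lit 21437333873006477312)) (T.h (P (nat_lit 0)) (P (nat_lit 7808644584816))))) (T.h (P (nat_lit 0)) (T.h (T.h (P (nat_lit 0)) (P (nat_lit 9389964963200))) (P (nat_lit 0)))))))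 (T.h (T.h (P (nat_lit 0)) (T.h (T.h (M (nat_lit 6393028105238678077439)) (T.h (P (nat_lit 0)) (P (nat_lit 17704818290655232)))) (T.h (P (nat_lit 0)) (M (nat_lit 20917731012706303))))) (T.h (T.h (T.h (P (nat_lit 0)) (T.h (P (nat_lit 5808715515924840448)) (T.h (P (nat_lit 0)) (M (nat_lit 1954457784095))))) (T.h (P (nat_lit 0)) (T.h (T.h (P (nat_lit 0)) (M (nat_lit 14649144822207))) (P (nat_lit 0))))) (T.h (T.h (P (nat_lit 0)) (P (nat_lit 10182874572193792))) (T.h (T.h (T.h (P (nat_lit 0)) (M (nat_lit 6298334266991))) (P (nat_lit 0))) (P (nat_lit 0)))))))), (T.h (T.h (P (nat_lit 0)) (T.h (T.h (P (nat_lit 0)) (T.h (M (nat_lit 17541619870994263948918783)) (T.h (P (nat_lit 0)) (T.h (M (nat_lit 843162690380627967)) (T.h (P (nat_lit 0)) (P (nat_lit 4719196154696))))))) (T.h (P (nat_lit 0)) (T.h (T.h (P (nat_lit 0)) (T.h (M (nat_lit 49482143641827803135)) (T.h (P (nat_lit 0)) (M (nat_lit 4388847908527))))) (T.h (P (nat_lit 0)) (T.h (T.h (P (nat_lit 0))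 (P (nat_lit 536236352936))) (P (nat_lit 0)))))))) (T.h (T.h (T.h (P (nat_lit 11005145223650182096316530688)) (T.h (P (nat_lit 0)) (T.h (P (nat_lit 39490502087022798176256)) (T.h (P (nat_lit 0)) (M (nat_lit 56707233229471743)))))) (T.h (P (nat_lit 0)) (T.h (T.h (M (nat_lit 20325239418068966309887)) (T.h (P (nat_lit 0)) (P (nat_lit 6667066154123264)))) (T.h (P (nat_lit 0)) (P (nat_lit 280878511489024)))))) (T.h (T.h (P (nat_lit 0)) (T.h (T.h (P (nat_lit 0)) (T.h (P (nat_lit 205831188913407918080)) (T.h (P (nat_lit 0)) (M (nat_lit 8975987171199))))) (T.h (P (nat_lit 0)) (T.h (T.h (P (nat_lit 0)) (P (nat_lit 9172057143024))) (P (nat_lit 0)))))) (T.h (T.h (T.h (P (nat_lit 5741794418175510577152)) (T.h (P (nat_lit 0)) (M (nat_lit 31548207555444735)))) (T.h (P (nat_lit 0)) (P (nat_lit 5139061906145280)))) (T.h (T.h (P (nat_lit 0)) (T.h (T.h (P (nat_lit 0)) (P (nat_lit 6301638309736))) (P (nat_lit 0)))) (P (nat_lit 4029155842719744))))))), (T.h (T.h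 (P (nat_lit 0)) (T.h (T.h (M (nat_lit 16412601912802300674357329919)) (T.h (P (nat_lit 0)) (T.h (P (nat_lit 66547056180224958922752)) (T.h (P (nat_lit 0)) (P (nat_lit 26772851980058624)))))) (T.h (P (nat_lit 0)) (T.h (T.h (M (nat_lit 24913952668255625674751)) (T.h (P (nat_lit 0)) (P (nat_lit 36138227289112576)))) (T.h (P (nat_lit 0)) (P (nat_lit 6836981340864512))))))) (T.h (T.h (T.h (P (nat_lit 0)) (T.h (P (nat_lit 8447821923587479908122624)) (T.h (P (nat_lit 0)) (T.h (P (nat_lit 18426835693675216896)) (T.h (P (nat_lit 0)) (P (nat_lit 14337066975168))))))) (T.h (P (nat_lit 0)) (T.h (T.h (P (nat_lit 0)) (T.h (M (nat_lit 138309133156342562815)) (T.h (P (nat_lit 0)) (M (nat_lit 15616341643055))))) (T.h (P (nat_lit 0)) (T.h (T.h (P (nat_lit 0)) (M (nat_lit 28206262997471))) (P (nat_lit 0))))))) (T.h (T.h (P (nat_lit 0)) (T.h (T.h (P (nat_lit 66547056180224958922752)) (T.h (P (nat_lit 0)) (M (nat_lit 128055293209313279)))) (T.h (P (nat_lit 0)) (P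 (nat_lit 36138227289112576))))) (T.h (T.h (T.h (P (nat_lit 0)) (T.h (P (nat_lit 18426835693675216896)) (T.h (P (nat_lit 0)) (P (nat_lit 43766994916064))))) (T.h (P (nat_lit 0)) (T.h (T.h (P (nat_lit 0)) (M (nat_lit 15616341643055))) (P (nat_lit 0))))) (T.h (T.h (P (nat_lit 0)) (P (nat_lit 26772851980058624))) (T.h (T.h (T.h (P (nat_lit 0)) (P (nat_lit 14337066975168))) (P (nat_lit 0))) (P (nat_lit 0)))))))), (T.h (T.h (P (nat_lit 0)) (T.h (T.h (P (nat_lit 0)) (T.h (P (nat_lit 57987338973388860091793408)) (T.h (P (nat_lit 0)) (T.h (M (nat_lit 57443828061226139647)) (T.h (P (nat_lit 0)) (M (nat_lit 26887879288831))))))) (T.h (P (nat_lit 0)) (T.h (T.h (P (nat_lit 0)) (T.h (P (nat_lit 117840652395666735104)) (T.h (P (nat_lit 0)) (P (nat_lit 1913329872704))))) (T.h (P (nat_lit 0)) (T.h (T.h (P (nat_lit 0)) (P (nat_lit 10910827925824))) (P (nat_lit 0)))))))) (T.h (T.h (T.h (M (nat_lit 7180220735172970116427022335)) (T.h (P (nat_lit 0)) (T.h (M (nat_lit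 81238814070020872601599)) (T.h (P (nat_lit 0)) (P (nat_lit 75530142658265088)))))) (T.h (P (nat_lit 0)) (T.h (T.h (M (nat_lit 15475025479053248299007)) (T.h (P (nat_lit 0)) (P (nat_lit 15995042885500928)))) (T.h (P (nat_lit 0)) (M (nat_lit 20715710340333567)))))) (T.h (T.h (P (nat_lit 0)) (T.h (T.h (P (nat_lit 0)) (T.h (M (nat_lit 82087647970215329791)) (T.h (P (nat_lit 0)) (P (nat_lit 9298428385344))))) (T.h (P (nat_lit 0)) (T.h (T.h (P (nat_lit 0)) (M (nat_lit 19829994406847))) (P (nat_lit 0)))))) (T.h (T.h (T.h (P (nat_lit 44230263680022452633600)) (T.h (P (nat_lit 0)) (P (nat_lit 80256168116682752)))) (T.h (P (nat_lit 0)) (M (nat_lit 21552170617831423)))) (T.h (T.h (P (nat_lit 0)) (T.h (T.h (P (nat_lit 0)) (M (nat_lit 67063572229183))) (P (nat_lit 0)))) (P (nat_lit 1462772452884480))))))), (T.h (T.h (P (nat_lit 0)) (T.h (T.h (P (nat_lit 6099708548673304496447684608)) (T.h (P (nat_lit 0)) (T.h (M (nat_lit 39385658327280031629311)) (T.h (P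 (nat_lit 0)) (M (nat_lit 35543153834491903)))))) (T.h (P (nat_lit 0)) (T.h (T.h (P (nat_lit 17907237936627615531008)) (T.h (P (nat_lit 0)) (P (nat_lit 4731789076348928)))) (T.h (P (nat_lit 0)) (M (nat_lit 840173474381823))))))) (T.h (T.h (T.h (P (nat_lit 0)) (T.h (M (nat_lit 18571853267465370509246463)) (T.h (P (nat_lit 0)) (P (nat_lit 35935822232235802624))))) (T.h (P (nat_lit 0)) (T.h (T.h (P (nat_lit 0)) (M (nat_lit 2818795405779664895))) (P (nat_lit 0))))) (T.h (T.h (P (nat_lit 0)) (T.h (T.h (P (nat_lit 914033056629670281216)) (T.h (P (nat_lit 0)) (P (nat_lit 7400423263076352)))) (T.h (P (nat_lit 0)) (P (nat_lit 10230261391294464))))) (T.h (T.h (T.h (P (nat_lit 0)) (P (nat_lit 76155881187738386432))) (P (nat_lit 0))) (T.h (T.h (P (nat_lit 0)) (M (nat_lit 25421720942116863))) (P (nat_lit 0))))))), (P (nat_lit 0)), (P (nat_lit 0)), (T.h (T.h (T.h (P (nat_lit 0)) (T.h (P (nat_lit 382278186225956246805020672)) (T.h (P (nat_lit 0)) (T.h (M (nat_lit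 2314989451720488124415)) (T.h (P (nat_lit 0)) (M (nat_lit 1940894262886399))))))) (T.h (P (nat_lit 0)) (T.h (T.h (P (nat_lit 0)) (T.h (P (nat_lit 4917025952193526628352)) (T.h (P (nat_lit 0)) (P (nat_lit 13535529003122688))))) (T.h (P (nat_lit 0)) (T.h (T.h (P (nat_lit 0)) (P (nat_lit 566836548272128))) (P (nat_lit 0))))))) (T.h (T.h (P (nat_lit 0)) (T.h (T.h (P (nat_lit 8967851728135020949274624)) (T.h (P (nat_lit 0)) (T.h (P (nat_lit 21437333873006477312)) (T.h (P (nat_lit 0)) (P (nat_lit 9389964963200)))))) (T.h (P (nat_lit 0)) (T.h (T.h (M (nat_lit 1632295132411723775)) (T.h (P (nat_lit 0)) (P (nat_lit 7808644584816)))) (T.h (P (nat_lit 0)) (M (nat_lit 1262651453183))))))) (T.h (T.h (T.h (P (nat_lit 0)) (T.h (M (nat_lit 6393028105238678077439)) (T.h (P (nat_lit 0)) (M (nat_lit 20917731012706303))))) (T.h (P (nat_lit 0)) (T.h (T.h (P (nat_lit 0)) (P (nat_lit 17704818290655232))) (P (nat_lit 0))))) (T.h (T.h (P (nat_lit 0)) (T.h (T.h (P (nat_lit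 5808715515924840448)) (T.h (P (nat_lit 0)) (M (nat_lit 14649144822207)))) (T.h (P (nat_lit 0)) (M (nat_lit 1954457784095))))) (T.h (T.h (T.h (P (nat_lit 0)) (P (nat_lit 10182874572193792))) (P (nat_lit 0))) (T.h (T.h (P (nat_lit 0)) (M (nat_lit 6298334266991))) (P (nat_lit 0))))))))]
def lQp_20 : List (T ℤ) := [(T.h (T.h (T.h (M (nat_lit 951227716243843427766930243583)) (T.h (P (nat_lit 0)) (T.h (P (nat_lit 3725888736541583637217280)) (T.h (P (nat_lit 0)) (T.h (M (nat_lit 4881796311956848639)) (T.h (P (nat_lit 0)) (P (nat_lit 927284701968)))))))) (T.h (P (nat_lit 0)) (T.h (T.h (P (nat_lit 3725888736541583637217280)) (T.h (P (nat_lit 0)) (T.h (M (nat_lit 74387678753093320703)) (T.h (P (nat_lit 0)) (P (nat_lit 4533752988592)))))) (T.h (P (nat_lit 0)) (T.h (T.h (M (nat_lit 4881796311956848639)) (T.h (P (nat_lit 0)) (P (nat_lit 4533752988592)))) (T.h (P (nat_lit 0)) (P (nat_lit 927284701968)))))))) (T.h (T.h (P (nat_lit 0)) (T.h (T.h (P (nat_lit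 0)) (T.h (M (nat_lit 42271297672274530795519)) (T.h (P (nat_lit 0)) (M (nat_lit 47909007178399743))))) (T.h (P (nat_lit 0)) (T.h (T.h (P (nat_lit 0)) (M (nat_lit 47909007178399743))) (P (nat_lit 0)))))) (T.h (T.h (T.h (P (nat_lit 15785240029512983648403456)) (T.h (P (nat_lit 0)) (T.h (P (nat_lit 48954083825573429248)) (T.h (P (nat_lit 0)) (P (nat_lit 7038243891216)))))) (T.h (P (nat_lit 0)) (T.h (T.h (P (nat_lit 48954083825573429248)) (T.h (P (nat_lit 0)) (P (nat_lit 4923797792)))) (T.h (P (nat_lit 0)) (P (nat_lit 7038243891216)))))) (T.h (T.h (P (nat_lit 0)) (T.h (T.h (P (nat_lit 0)) (M (nat_lit 90241872173727743))) (P (nat_lit 0)))) (T.h (T.h (T.h (M (nat_lit 14210726495290130431)) (T.h (P (nat_lit 0)) (P (nat_lit 4758505378848)))) (T.h (P (nat_lit 0)) (P (nat_lit 4758505378848)))) (T.h (P (nat_lit 0)) (M (nat_lit 5687995967)))))))), (T.h (T.h (T.h (P (nat_lit 0)) (T.h (P (nat_lit 4038671708212743718947520512)) (T.h (P (nat_lit 0)) (T.h (P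 (nat_lit 30872122181433209913344)) (T.h (P (nat_lit 0)) (M (nat_lit 5026790275268607))))))) (T.h (P (nat_lit 0)) (T.h (T.h (P (nat_lit 0)) (T.h (P (nat_lit 77247011222601508847616)) (T.h (P (nat_lit 0)) (M (nat_lit 51668033374715903))))) (T.h (P (nat_lit 0)) (T.h (T.h (P (nat_lit 0)) (P (nat_lit 24253183682134016))) (P (nat_lit 0))))))) (T.h (T.h (P (nat_lit 0)) (T.h (T.h (P (nat_lit 44694462760537169588125696)) (T.h (P (nat_lit 0)) (T.h (P (nat_lit 193396473526025715712)) (T.h (P (nat_lit 0)) (M (nat_lit 94064231272143)))))) (T.h (P (nat_lit 0)) (T.h (T.h (M (nat_lit 11452942416558948351)) (T.h (P (nat_lit 0)) (M (nat_lit 27622295623215)))) (T.h (P (nat_lit 0)) (M (nat_lit 10914695388015))))))) (T.h (T.h (T.h (P (nat_lit 0)) (T.h (M (nat_lit 212304625856367424438271)) (T.h (P (nat_lit 0)) (P (nat_lit 75833794379677696))))) (T.h (P (nat_lit 0)) (T.h (T.h (P (nat_lit 0)) (M (nat_lit 22636712412643327))) (P (nat_lit 0))))) (T.h (T.h (P (nat_lit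 0)) (T.h (T.h (M (nat_lit 5659509649276141567)) (T.h (P (nat_lit 0)) (M (nat_lit 18575295500271)))) (T.h (P (nat_lit 0)) (M (nat_lit 12260400160623))))) (T.h (T.h (T.h (P (nat_lit 0)) (M (nat_lit 77564689659232255))) (P (nat_lit 0))) (T.h (T.h (P (nat_lit 0)) (M (nat_lit 1102750372303))) (P (nat_lit 0)))))))), (T.h (T.h (T.h (M (nat_lit 3336858308950095421271779049471)) (T.h (P (nat_lit 0)) (T.h (M (nat_lit 80157411707928216959188991)) (T.h (P (nat_lit 0)) (T.h (M (nat_lit 36150116761263407103)) (T.h (P (nat_lit 0)) (M (nat_lit 5948322328959)))))))) (T.h (P (nat_lit 0)) (T.h (T.h (P (nat_lit 70027064311019118929117184)) (T.h (P (nat_lit 0)) (T.h (M (nat_lit 95037533799225229311)) (T.h (P (nat_lit 0)) (M (nat_lit 9725018242367)))))) (T.h (P (nat_lit 0)) (T.h (T.h (P (nat_lit 88241934139394097152)) (T.h (P (nat_lit 0)) (P (nat_lit 3652843258368)))) (T.h (P (nat_lit 0)) (P (nat_lit 19449370183424)))))))) (T.h (T.h (P (nat_lit 0)) (T.h (T.h (P (nat_lit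 0)) (T.h (P (nat_lit 9156392675808196427776)) (T.h (P (nat_lit 0)) (M (nat_lit 199937798428426239))))) (T.h (P (nat_lit 0)) (T.h (T.h (P (nat_lit 0)) (P (nat_lit 27818317734084608))) (P (nat_lit 0)))))) (T.h (T.h (T.h (M (nat_lit 80157411707928216959188991)) (T.h (P (nat_lit 0)) (T.h (P (nat_lit 198424172909475921920)) (T.h (P (nat_lit 0)) (P (nat_lit 17656885201216)))))) (T.h (P (nat_lit 0)) (T.h (T.h (M (nat_lit 95037533799225229311)) (T.h (P (nat_lit 0)) (P (nat_lit 52572885336704)))) (T.h (P (nat_lit 0)) (P (nat_lit 3652843258368)))))) (T.h (T.h (P (nat_lit 0)) (T.h (T.h (P (nat_lit 0)) (M (nat_lit 199937798428426239))) (P (nat_lit 0)))) (T.h (T.h (T.h (M (nat_lit 36150116761263407103)) (T.h (P (nat_lit 0)) (P (nat_lit 17656885201216)))) (T.h (P (nat_lit 0)) (M (nat_lit 9725018242367)))) (T.h (P (nat_lit 0)) (M (nat_lit 5948322328959)))))))), (T.h (T.h (T.h (P (nat_lit 0)) (T.h (M (nat_lit 21382294463452524082142117887)) (T.h (P (nat_lit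 0)) (T.h (P (nat_lit 8429021893482116022272)) (T.h (P (nat_lit 0)) (P (nat_lit 3098825511829504))))))) (T.h (P (nat_lit 0)) (T.h (T.h (P (nat_lit 0)) (T.h (M (nat_lit 55308368152604113371135)) (T.h (P (nat_lit 0)) (M (nat_lit 10349591218307071))))) (T.h (P (nat_lit 0)) (T.h (T.h (P (nat_lit 0)) (P (nat_lit 17072719312633856))) (P (nat_lit 0))))))) (T.h (T.h (P (nat_lit 0)) (T.h (T.h (M (nat_lit 11364634751436504396988415)) (T.h (P (nat_lit 0)) (M (nat_lit 72630611916194054143)))) (T.h (P (nat_lit 0)) (P (nat_lit 42786273065835692032))))) (T.h (T.h (T.h (P (nat_lit 0)) (T.h (P (nat_lit 5119974003336856731648)) (T.h (P (nat_lit 0)) (M (nat_lit 9121366597222399))))) (T.h (P (nat_lit 0)) (T.h (T.h (P (nat_lit 0)) (P (nat_lit 27209387641274368))) (P (nat_lit 0))))) (T.h (T.h (P (nat_lit 0)) (P (nat_lit 39642309639526154240))) (T.h (T.h (T.h (P (nat_lit 0)) (P (nat_lit 38231767106387968))) (P (nat_lit 0))) (P (nat_lit 0))))))), (P (nat_lit 0)), (P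 (nat_lit 0)), (T.h (T.h (P (nat_lit 0)) (T.h (T.h (P (nat_lit 0)) (T.h (M (nat_lit 17541619870994263948918783)) (T.h (P (nat_lit 0)) (T.h (M (nat_lit 49482143641827803135)) (T.h (P (nat_lit 0)) (P (nat_lit 536236352936))))))) (T.h (P (nat_lit 0)) (T.h (T.h (P (nat_lit 0)) (T.h (M (nat_lit 843162690380627967)) (T.h (P (nat_lit 0)) (M (nat_lit 4388847908527))))) (T.h (P (nat_lit 0)) (T.h (T.h (P (nat_lit 0)) (P (nat_lit 4719196154696))) (P (nat_lit 0)))))))) (T.h (T.h (T.h (P (nat_lit 11005145223650182096316530688)) (T.h (P (nat_lit 0)) (T.h (M (nat_lit 20325239418068966309887)) (T.h (P (nat_lit 0)) (P (nat_lit 280878511489024)))))) (T.h (P (nat_lit 0)) (T.h (T.h (P (nat_lit 39490502087022798176256)) (T.h (P (nat_lit 0)) (P (nat_lit 6667066154123264)))) (T.h (P (nat_lit 0)) (M (nat_lit 56707233229471743)))))) (T.h (T.h (P (nat_lit 0)) (T.h (T.h (P (nat_lit 0)) (T.h (P (nat_lit 205831188913407918080)) (T.h (P (nat_lit 0)) (P (nat_lit 9172057143024)))))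 (T.h (P (nat_lit 0)) (T.h (T.h (P (nat_lit 0)) (M (nat_lit 8975987171199))) (P (nat_lit 0)))))) (T.h (T.h (T.h (P (nat_lit 5741794418175510577152)) (T.h (P (nat_lit 0)) (P (nat_lit 5139061906145280)))) (T.h (P (nat_lit 0)) (M (nat_lit 31548207555444735)))) (T.h (T.h (P (nat_lit 0)) (T.h (T.h (P (nat_lit 0)) (P (nat_lit 6301638309736))) (P (nat_lit 0)))) (P (nat_lit 4029155842719744))))))), (T.h (T.h (P (nat_lit 0)) (T.h (T.h (P (nat_lit 4038671708212743718947520512)) (T.h (P (nat_lit 0)) (T.h (P (nat_lit 77247011222601508847616)) (T.h (P (nat_lit 0)) (P (nat_lit 24253183682134016)))))) (T.h (P (nat_lit 0)) (T.h (T.h (P (nat_lit 30872122181433209913344)) (T.h (P (nat_lit 0)) (M (nat_lit 51668033374715903)))) (T.h (P (nat_lit 0)) (M (nat_lit 5026790275268607))))))) (T.h (T.h (T.h (P (nat_lit 0)) (T.h (P (nat_lit 44694462760537169588125696)) (T.h (P (nat_lit 0)) (T.h (M (nat_lit 11452942416558948351)) (T.h (P (nat_lit 0)) (M (nat_lit 10914695388015)))))))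 (T.h (P (nat_lit 0)) (T.h (T.h (P (nat_lit 0)) (T.h (P (nat_lit 193396473526025715712)) (T.h (P (nat_lit 0)) (M (nat_lit 27622295623215))))) (T.h (P (nat_lit 0)) (T.h (T.h (P (nat_lit 0)) (M (nat_lit 94064231272143))) (P (nat_lit 0))))))) (T.h (T.h (P (nat_lit 0)) (T.h (T.h (M (nat_lit 212304625856367424438271)) (T.h (P (nat_lit 0)) (M (nat_lit 22636712412643327)))) (T.h (P (nat_lit 0)) (P (nat_lit 75833794379677696))))) (T.h (T.h (T.h (P (nat_lit 0)) (T.h (M (nat_lit 5659509649276141567)) (T.h (P (nat_lit 0)) (M (nat_lit 12260400160623))))) (T.h (P (nat_lit 0)) (T.h (T.h (P (nat_lit 0)) (M (nat_lit 18575295500271))) (P (nat_lit 0))))) (T.h (T.h (P (nat_lit 0)) (M (nat_lit 77564689659232255))) (T.h (T.h (T.h (P (nat_lit 0)) (M (nat_lit 1102750372303))) (P (nat_lit 0))) (P (nat_lit 0))))))))]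
def lQp_21 : List (T ℤ) := [(T.h (T.h (P (nat_lit 0)) (T.h (T.h (P (nat_lit 0)) (T.h (M (nat_lit 68666041866443020931432447)) (T.h (P (nat_lit 0)) (T.h (P (nat_lit 11016878522982465536)) (T.h (P (nat_lit 0)) (P (nat_lit 3304377496704))))))) (T.h (P (nat_lit 0)) (T.h (T.h (P (nat_lit 0)) (T.h (P (nat_lit 11016878522982465536)) (T.h (P (nat_lit 0)) (P (nat_lit 1170294273792))))) (T.h (P (nat_lit 0)) (T.h (T.h (P (nat_lit 0)) (P (nat_lit 3304377496704))) (P (nat_lit 0)))))))) (T.h (T.h (T.h (P (nat_lit 68616482929058726596929650688)) (T.h (P (nat_lit 0)) (T.h (P (nat_lit 56845807564042388111360)) (T.h (P (nat_lit 0)) (M (nat_lit 148044154368163839)))))) (T.h (P (nat_lit 0)) (T.h (T.h (P (nat_lit 56845807564042388111360)) (T.h (P (nat_lit 0)) (M (nat_lit 99912942197735423)))) (T.h (P (nat_lit 0)) (M (nat_lit 148044154368163839)))))) (T.h (T.h (P (nat_lit 0)) (T.h (T.h (P (nat_lit 0)) (T.h (P (nat_lit 437683900156504702976)) (T.h (P (nat_lit 0))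 (P (nat_lit 47079710856640))))) (T.h (P (nat_lit 0)) (T.h (T.h (P (nat_lit 0)) (P (nat_lit 47079710856640))) (P (nat_lit 0)))))) (T.h (T.h (T.h (P (nat_lit 4403951820931017474048)) (T.h (P (nat_lit 0)) (M (nat_lit 74136206499512319)))) (T.h (P (nat_lit 0)) (M (nat_lit 74136206499512319)))) (T.h (T.h (P (nat_lit 0)) (T.h (T.h (P (nat_lit 0)) (P (nat_lit 71288209895040))) (P (nat_lit 0)))) (P (nat_lit 14664786472402944))))))), (T.h (T.h (P (nat_lit 0)) (T.h (T.h (P (nat_lit 10143313764801585540136697856)) (T.h (P (nat_lit 0)) (T.h (P (nat_lit 11717009930323488669696)) (T.h (P (nat_lit 0)) (P (nat_lit 17500175588818944)))))) (T.h (P (nat_lit 0)) (T.h (T.h (P (nat_lit 45359257570254440628224)) (T.h (P (nat_lit 0)) (P (nat_lit 16691703478140928)))) (T.h (P (nat_lit 0)) (P (nat_lit 31566073880051712))))))) (T.h (T.h (T.h (P (nat_lit 0)) (T.h (M (nat_lit 8003037340627921316872191)) (T.h (P (nat_lit 0)) (M (nat_lit 111705972701661233151))))) (T.h (P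 (nat_lit 0)) (T.h (T.h (P (nat_lit 0)) (P (nat_lit 26010462300483354624))) (P (nat_lit 0))))) (T.h (T.h (P (nat_lit 0)) (T.h (T.h (P (nat_lit 11717009930323488669696)) (T.h (P (nat_lit 0)) (P (nat_lit 99231753168191488)))) (T.h (P (nat_lit 0)) (P (nat_lit 16691703478140928))))) (T.h (T.h (T.h (P (nat_lit 0)) (M (nat_lit 111705972701661233151))) (P (nat_lit 0))) (T.h (T.h (P (nat_lit 0)) (P (nat_lit 17500175588818944))) (P (nat_lit 0))))))), (P (nat_lit 0)), (P (nat_lit 0)), (T.h (T.h (T.h (P (nat_lit 0)) (T.h (M (nat_lit 16412601912802300674357329919)) (T.h (P (nat_lit 0)) (T.h (M (nat_lit 24913952668255625674751)) (T.h (P (nat_lit 0)) (P (nat_lit 6836981340864512))))))) (T.h (P (nat_lit 0)) (T.h (T.h (P (nat_lit 0)) (T.h (P (nat_lit 66547056180224958922752)) (T.h (P (nat_lit 0)) (P (nat_lit 36138227289112576))))) (T.h (P (nat_lit 0)) (T.h (T.h (P (nat_lit 0)) (P (nat_lit 26772851980058624))) (P (nat_lit 0))))))) (T.h (T.h (P (nat_lit 0)) (T.h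 (T.h (P (nat_lit 8447821923587479908122624)) (T.h (P (nat_lit 0)) (T.h (M (nat_lit 138309133156342562815)) (T.h (P (nat_lit 0)) (M (nat_lit 28206262997471)))))) (T.h (P (nat_lit 0)) (T.h (T.h (P (nat_lit 18426835693675216896)) (T.h (P (nat_lit 0)) (M (nat_lit 15616341643055)))) (T.h (P (nat_lit 0)) (P (nat_lit 14337066975168))))))) (T.h (T.h (T.h (P (nat_lit 0)) (T.h (P (nat_lit 66547056180224958922752)) (T.h (P (nat_lit 0)) (P (nat_lit 36138227289112576))))) (T.h (P (nat_lit 0)) (T.h (T.h (P (nat_lit 0)) (M (nat_lit 128055293209313279))) (P (nat_lit 0))))) (T.h (T.h (P (nat_lit 0)) (T.h (T.h (P (nat_lit 18426835693675216896)) (T.h (P (nat_lit 0)) (M (nat_lit 15616341643055)))) (T.h (P (nat_lit 0)) (P (nat_lit 43766994916064))))) (T.h (T.h (T.h (P (nat_lit 0)) (P (nat_lit 26772851980058624))) (P (nat_lit 0))) (T.h (T.h (P (nat_lit 0)) (P (nat_lit 14337066975168))) (P (nat_lit 0)))))))), (T.h (T.h (T.h (M (nat_lit 3336858308950095421271779049471))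 (T.h (P (nat_lit 0)) (T.h (P (nat_lit 70027064311019118929117184)) (T.h (P (nat_lit 0)) (T.h (P (nat_lit 88241934139394097152)) (T.h (P (nat_lit 0)) (P (nat_lit 19449370183424)))))))) (T.h (P (nat_lit 0)) (T.h (T.h (M (nat_lit 80157411707928216959188991)) (T.h (P (nat_lit 0)) (T.h (M (nat_lit 95037533799225229311)) (T.h (P (nat_lit 0)) (P (nat_lit 3652843258368)))))) (T.h (P (nat_lit 0)) (T.h (T.h (M (nat_lit 36150116761263407103)) (T.h (P (nat_lit 0)) (M (nat_lit 9725018242367)))) (T.h (P (nat_lit 0)) (M (nat_lit 5948322328959)))))))) (T.h (T.h (P (nat_lit 0)) (T.h (T.h (P (nat_lit 0)) (T.h (P (nat_lit 9156392675808196427776)) (T.h (P (nat_lit 0)) (P (nat_lit 27818317734084608))))) (T.h (P (nat_lit 0)) (T.h (T.h (P (nat_lit 0)) (M (nat_lit 199937798428426239))) (P (nat_lit 0)))))) (T.h (T.h (T.h (M (nat_lit 80157411707928216959188991)) (T.h (P (nat_lit 0)) (T.h (M (nat_lit 95037533799225229311)) (T.h (P (nat_lit 0)) (P (nat_lit 3652843258368))))))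 (T.h (P (nat_lit 0)) (T.h (T.h (P (nat_lit 198424172909475921920)) (T.h (P (nat_lit 0)) (P (nat_lit 52572885336704)))) (T.h (P (nat_lit 0)) (P (nat_lit 17656885201216)))))) (T.h (T.h (P (nat_lit 0)) (T.h (T.h (P (nat_lit 0)) (M (nat_lit 199937798428426239))) (P (nat_lit 0)))) (T.h (T.h (T.h (M (nat_lit 36150116761263407103)) (T.h (P (nat_lit 0)) (M (nat_lit 9725018242367)))) (T.h (P (nat_lit 0)) (P (nat_lit 17656885201216)))) (T.h (P (nat_lit 0)) (M (nat_lit 5948322328959)))))))), (T.h (T.h (T.h (P (nat_lit 0)) (T.h (P (nat_lit 10143313764801585540136697856)) (T.h (P (nat_lit 0)) (T.h (P (nat_lit 45359257570254440628224)) (T.h (P (nat_lit 0)) (P (nat_lit 31566073880051712))))))) (T.h (P (nat_lit 0)) (T.h (T.h (P (nat_lit 0)) (T.h (P (nat_lit 11717009930323488669696)) (T.h (P (nat_lit 0)) (P (nat_lit 16691703478140928))))) (T.h (P (nat_lit 0)) (T.h (T.h (P (nat_lit 0)) (P (nat_lit 17500175588818944))) (P (nat_lit 0))))))) (T.h (T.h (P (nat_lit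 0)) (T.h (T.h (M (nat_lit 8003037340627921316872191)) (T.h (P (nat_lit 0)) (P (nat_lit 26010462300483354624)))) (T.h (P (nat_lit 0)) (M (nat_lit 111705972701661233151))))) (T.h (T.h (T.h (P (nat_lit 0)) (T.h (P (nat_lit 11717009930323488669696)) (T.h (P (nat_lit 0)) (P (nat_lit 16691703478140928))))) (T.h (P (nat_lit 0)) (T.h (T.h (P (nat_lit 0)) (P (nat_lit 99231753168191488))) (P (nat_lit 0))))) (T.h (T.h (P (nat_lit 0)) (M (nat_lit 111705972701661233151))) (T.h (T.h (T.h (P (nat_lit 0)) (P (nat_lit 17500175588818944))) (P (nat_lit 0))) (P (nat_lit 0))))))), (P (nat_lit 0))]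
def lQp_22 : List (T ℤ) := [(P (nat_lit 0)), (T.h (T.h (P (nat_lit 0)) (T.h (T.h (P (nat_lit 0)) (T.h (P (nat_lit 57987338973388860091793408)) (T.h (P (nat_lit 0)) (T.h (P (nat_lit 117840652395666735104)) (T.h (P (nat_lit 0)) (P (nat_lit 10910827925824))))))) (T.h (P (nat_lit 0)) (T.h (T.h (P (nat_lit 0)) (T.h (M (nat_lit 57443828061226139647)) (T.h (P (nat_lit 0)) (P (nat_lit 1913329872704))))) (T.h (P (nat_lit 0)) (T.h (T.h (P (nat_lit 0)) (M (nat_lit 26887879288831))) (P (nat_lit 0)))))))) (T.h (T.h (T.h (M (nat_lit 7180220735172970116427022335)) (T.h (P (nat_lit 0)) (T.h (M (nat_lit 15475025479053248299007)) (T.h (P (nat_lit 0)) (M (nat_lit 20715710340333567)))))) (T.h (P (nat_lit 0)) (T.h (T.h (M (nat_lit 81238814070020872601599)) (T.h (P (nat_lit 0)) (P (nat_lit 15995042885500928)))) (T.h (P (nat_lit 0)) (P (nat_lit 75530142658265088)))))) (T.h (T.h (P (nat_lit 0)) (T.h (T.h (P (nat_lit 0)) (T.h (M (nat_lit 82087647970215329791)) (T.h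 (P (nat_lit 0)) (M (nat_lit 19829994406847))))) (T.h (P (nat_lit 0)) (T.h (T.h (P (nat_lit 0)) (P (nat_lit 9298428385344))) (P (nat_lit 0)))))) (T.h (T.h (T.h (P (nat_lit 44230263680022452633600)) (T.h (P (nat_lit 0)) (M (nat_lit 21552170617831423)))) (T.h (P (nat_lit 0)) (P (nat_lit 80256168116682752)))) (T.h (T.h (P (nat_lit 0)) (T.h (T.h (P (nat_lit 0)) (M (nat_lit 67063572229183))) (P (nat_lit 0)))) (P (nat_lit 1462772452884480))))))), (T.h (T.h (P (nat_lit 0)) (T.h (T.h (M (nat_lit 21382294463452524082142117887)) (T.h (P (nat_lit 0)) (T.h (M (nat_lit 55308368152604113371135)) (T.h (P (nat_lit 0)) (P (nat_lit 17072719312633856)))))) (T.h (P (nat_lit 0)) (T.h (T.h (P (nat_lit 8429021893482116022272)) (T.h (P (nat_lit 0)) (M (nat_lit 10349591218307071)))) (T.h (P (nat_lit 0)) (P (nat_lit 3098825511829504))))))) (T.h (T.h (T.h (P (nat_lit 0)) (T.h (M (nat_lit 11364634751436504396988415)) (T.h (P (nat_lit 0)) (P (nat_lit 42786273065835692032)))))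 (T.h (P (nat_lit 0)) (T.h (T.h (P (nat_lit 0)) (M (nat_lit 72630611916194054143))) (P (nat_lit 0))))) (T.h (T.h (P (nat_lit 0)) (T.h (T.h (P (nat_lit 5119974003336856731648)) (T.h (P (nat_lit 0)) (P (nat_lit 27209387641274368)))) (T.h (P (nat_lit 0)) (M (nat_lit 9121366597222399))))) (T.h (T.h (T.h (P (nat_lit 0)) (P (nat_lit 39642309639526154240))) (P (nat_lit 0))) (T.h (T.h (P (nat_lit 0)) (P (nat_lit 38231767106387968))) (P (nat_lit 0))))))), (P (nat_lit 0)), (P (nat_lit 0)), (T.h (T.h (T.h (P (nat_lit 0)) (T.h (P (nat_lit 6099708548673304496447684608)) (T.h (P (nat_lit 0)) (T.h (P (nat_lit 17907237936627615531008)) (T.h (P (nat_lit 0)) (M (nat_lit 840173474381823))))))) (T.h (P (nat_lit 0)) (T.h (T.h (P (nat_lit 0)) (T.h (M (nat_lit 39385658327280031629311)) (T.h (P (nat_lit 0)) (P (nat_lit 4731789076348928))))) (T.h (P (nat_lit 0)) (T.h (T.h (P (nat_lit 0)) (M (nat_lit 35543153834491903))) (P (nat_lit 0))))))) (T.h (T.h (P (nat_lit 0))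 (T.h (T.h (M (nat_lit 18571853267465370509246463)) (T.h (P (nat_lit 0)) (M (nat_lit 2818795405779664895)))) (T.h (P (nat_lit 0)) (P (nat_lit 35935822232235802624))))) (T.h (T.h (T.h (P (nat_lit 0)) (T.h (P (nat_lit 914033056629670281216)) (T.h (P (nat_lit 0)) (P (nat_lit 10230261391294464))))) (T.h (P (nat_lit 0)) (T.h (T.h (P (nat_lit 0)) (P (nat_lit 7400423263076352))) (P (nat_lit 0))))) (T.h (T.h (P (nat_lit 0)) (P (nat_lit 76155881187738386432))) (T.h (T.h (T.h (P (nat_lit 0)) (M (nat_lit 25421720942116863))) (P (nat_lit 0))) (P (nat_lit 0))))))), (P (nat_lit 0)), (P (nat_lit 0))]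
def lQp_23 : List (T ℤ) := [(P (nat_lit 0)), (P (nat_lit 0)), (P (nat_lit 0)), (T.h (T.h (T.h (M (nat_lit 128120900552666237134832664575)) (T.h (P (nat_lit 0)) (T.h (M (nat_lit 374856245789455152054271)) (T.h (P (nat_lit 0)) (T.h (M (nat_lit 3158064110562705407)) (T.h (P (nat_lit 0)) (P (nat_lit 1380574505568)))))))) (T.h (P (nat_lit 0)) (T.h (T.h (M (nat_lit 374856245789455152054271)) (T.h (P (nat_lit 0)) (T.h (M (nat_lit 1706496107061706751)) (T.h (P (nat_lit 0)) (P (nat_lit 1184705075472)))))) (T.h (P (nat_lit 0)) (T.h (T.h (M (nat_lit 3158064110562705407)) (T.h (P (nat_lit 0)) (P (nat_lit 1184705075472)))) (T.h (P (nat_lit 0)) (P (nat_lit 1380574505568)))))))) (T.h (T.h (P (nat_lit 0)) (T.h (T.h (P (nat_lit 0)) (T.h (M (nat_lit 1980045858969294471167)) (T.h (P (nat_lit 0)) (P (nat_lit 2866966031630336))))) (T.h (P (nat_lit 0)) (T.h (T.h (P (nat_lit 0)) (P (nat_lit 2866966031630336))) (P (nat_lit 0)))))) (T.h (T.h (T.h (P (nat_lit 244345310791578333216768))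 (T.h (P (nat_lit 0)) (T.h (M (nat_lit 1937253098095378431)) (T.h (P (nat_lit 0)) (P (nat_lit 2707914055472)))))) (T.h (P (nat_lit 0)) (T.h (T.h (M (nat_lit 1937253098095378431)) (T.h (P (nat_lit 0)) (P (nat_lit 4438957717760)))) (T.h (P (nat_lit 0)) (P (nat_lit 2707914055472)))))) (T.h (T.h (P (nat_lit 0)) (T.h (T.h (P (nat_lit 0)) (P (nat_lit 3795046400131072))) (P (nat_lit 0)))) (T.h (T.h (T.h (P (nat_lit 622944617486090240)) (T.h (P (nat_lit 0)) (P (nat_lit 3986189105440)))) (T.h (P (nat_lit 0)) (P (nat_lit 3986189105440)))) (T.h (P (nat_lit 0)) (M (nat_lit 2463187883231)))))))), (T.h (T.h (T.h (P (nat_lit 0)) (T.h (P (nat_lit 241110326684477318414467072)) (T.h (P (nat_lit 0)) (T.h (M (nat_lit 13210000646600378023935)) (T.h (P (nat_lit 0)) (M (nat_lit 6511199756582911))))))) (T.h (P (nat_lit 0)) (T.h (T.h (P (nat_lit 0)) (T.h (P (nat_lit 42574672381838136180736)) (T.h (P (nat_lit 0)) (P (nat_lit 4128130433777664))))) (T.h (P (nat_lit 0))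 (T.h (T.h (P (nat_lit 0)) (P (nat_lit 19885691812839424))) (P (nat_lit 0))))))) (T.h (T.h (P (nat_lit 0)) (T.h (T.h (P (nat_lit 3093988085105477971607552)) (T.h (P (nat_lit 0)) (T.h (M (nat_lit 40575241349622661119)) (T.h (P (nat_lit 0)) (P (nat_lit 534616161528)))))) (T.h (P (nat_lit 0)) (T.h (T.h (P (nat_lit 31376630254227423232)) (T.h (P (nat_lit 0)) (P (nat_lit 9896250995256)))) (T.h (P (nat_lit 0)) (P (nat_lit 617502241472))))))) (T.h (T.h (T.h (P (nat_lit 0)) (T.h (M (nat_lit 34978613366834824478719)) (T.h (P (nat_lit 0)) (M (nat_lit 9004722249564159))))) (T.h (P (nat_lit 0)) (T.h (T.h (P (nat_lit 0)) (M (nat_lit 67973831304970239))) (P (nat_lit 0))))) (T.h (T.h (P (nat_lit 0)) (T.h (T.h (P (nat_lit 59942037166122598400)) (T.h (P (nat_lit 0)) (M (nat_lit 9606426461535)))) (T.h (P (nat_lit 0)) (P (nat_lit 9577825270920))))) (T.h (T.h (T.h (P (nat_lit 0)) (M (nat_lit 3911014313983999))) (P (nat_lit 0))) (T.h (T.h (P (nat_lit 0)) (P (nat_lit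 1726339860488))) (P (nat_lit 0)))))))), (T.h (T.h (T.h (M (nat_lit 15835445583881214503361032749055)) (T.h (P (nat_lit 0)) (T.h (M (nat_lit 15954732730147194716291071)) (T.h (P (nat_lit 0)) (T.h (M (nat_lit 19887400155925708799)) (T.h (P (nat_lit 0)) (M (nat_lit 4773610931599)))))))) (T.h (P (nat_lit 0)) (T.h (T.h (P (nat_lit 27829060430611715415080960)) (T.h (P (nat_lit 0)) (T.h (M (nat_lit 25355989848697077759)) (T.h (P (nat_lit 0)) (P (nat_lit 15366368407824)))))) (T.h (P (nat_lit 0)) (T.h (T.h (P (nat_lit 8856044916250247168)) (T.h (P (nat_lit 0)) (M (nat_lit 6732252487071)))) (T.h (P (nat_lit 0)) (M (nat_lit 1807611555343)))))))) (T.h (T.h (P (nat_lit 0)) (T.h (T.h (P (nat_lit 0)) (T.h (P (nat_lit 137274296418244684152832)) (T.h (P (nat_lit 0)) (M (nat_lit 38572466754813951))))) (T.h (P (nat_lit 0)) (T.h (T.h (P (nat_lit 0)) (P (nat_lit 164907919411740672))) (P (nat_lit 0)))))) (T.h (T.h (T.h (P (nat_lit 5078850608105316436410368)) (T.h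 (P (nat_lit 0)) (T.h (M (nat_lit 14048468776677015551)) (T.h (P (nat_lit 0)) (P (nat_lit 29692863900784)))))) (T.h (P (nat_lit 0)) (T.h (T.h (M (nat_lit 62468435583149539327)) (T.h (P (nat_lit 0)) (P (nat_lit 14277571269584)))) (T.h (P (nat_lit 0)) (M (nat_lit 8671366263727)))))) (T.h (T.h (P (nat_lit 0)) (T.h (T.h (P (nat_lit 0)) (M (nat_lit 89082000361291775))) (P (nat_lit 0)))) (T.h (T.h (T.h (M (nat_lit 9751005981399056383)) (T.h (P (nat_lit 0)) (P (nat_lit 37577714858544)))) (T.h (P (nat_lit 0)) (M (nat_lit 16452623026111)))) (T.h (P (nat_lit 0)) (M (nat_lit 8507132336751)))))))), (T.h (T.h (T.h (P (nat_lit 0)) (T.h (M (nat_lit 7180220735172970116427022335)) (T.h (P (nat_lit 0)) (T.h (P (nat_lit 44230263680022452633600)) (T.h (P (nat_lit 0)) (P (nat_lit 1462772452884480))))))) (T.h (P (nat_lit 0)) (T.h (T.h (P (nat_lit 0)) (T.h (M (nat_lit 15475025479053248299007)) (T.h (P (nat_lit 0)) (M (nat_lit 21552170617831423))))) (T.h (P (nat_lit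 0)) (T.h (T.h (P (nat_lit 0)) (M (nat_lit 20715710340333567))) (P (nat_lit 0))))))) (T.h (T.h (P (nat_lit 0)) (T.h (T.h (P (nat_lit 57987338973388860091793408)) (T.h (P (nat_lit 0)) (T.h (M (nat_lit 82087647970215329791)) (T.h (P (nat_lit 0)) (M (nat_lit 67063572229183)))))) (T.h (P (nat_lit 0)) (T.h (T.h (P (nat_lit 117840652395666735104)) (T.h (P (nat_lit 0)) (M (nat_lit 19829994406847)))) (T.h (P (nat_lit 0)) (P (nat_lit 10910827925824))))))) (T.h (T.h (T.h (P (nat_lit 0)) (T.h (M (nat_lit 81238814070020872601599)) (T.h (P (nat_lit 0)) (P (nat_lit 80256168116682752))))) (T.h (P (nat_lit 0)) (T.h (T.h (P (nat_lit 0)) (P (nat_lit 15995042885500928))) (P (nat_lit 0))))) (T.h (T.h (P (nat_lit 0)) (T.h (T.h (M (nat_lit 57443828061226139647)) (T.h (P (nat_lit 0)) (P (nat_lit 9298428385344)))) (T.h (P (nat_lit 0)) (P (nat_lit 1913329872704))))) (T.h (T.h (T.h (P (nat_lit 0)) (P (nat_lit 75530142658265088))) (P (nat_lit 0))) (T.h (T.h (P (nat_lit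 0)) (M (nat_lit 26887879288831))) (P (nat_lit 0)))))))), (T.h (T.h (T.h (M (nat_lit 984195350018325543104137920511)) (T.h (P (nat_lit 0)) (T.h (P (nat_lit 15230894307888454317375488)) (T.h (P (nat_lit 0)) (P (nat_lit 15566893289482223616)))))) (T.h (P (nat_lit 0)) (T.h (T.h (P (nat_lit 353537135146806275997696)) (T.h (P (nat_lit 0)) (M (nat_lit 21389219787958124543)))) (T.h (P (nat_lit 0)) (M (nat_lit 4364305523307184127)))))) (T.h (T.h (P (nat_lit 0)) (T.h (T.h (P (nat_lit 0)) (T.h (P (nat_lit 5141982376459845500928)) (T.h (P (nat_lit 0)) (M (nat_lit 63912302629388287))))) (T.h (P (nat_lit 0)) (T.h (T.h (P (nat_lit 0)) (M (nat_lit 20305914272612351))) (P (nat_lit 0)))))) (T.h (T.h (T.h (P (nat_lit 15230894307888454317375488)) (T.h (P (nat_lit 0)) (P (nat_lit 10893491707010088960)))) (T.h (P (nat_lit 0)) (M (nat_lit 21389219787958124543)))) (T.h (T.h (P (nat_lit 0)) (T.h (T.h (P (nat_lit 0)) (M (nat_lit 63912302629388287))) (P (nat_lit 0))))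 (P (nat_lit 15566893289482223616))))))]
def lQp_24 : List (T ℤ) := [(P (nat_lit 0)), (P (nat_lit 0)), (T.h (T.h (P (nat_lit 0)) (T.h (T.h (P (nat_lit 241110326684477318414467072)) (T.h (P (nat_lit 0)) (T.h (P (nat_lit 42574672381838136180736)) (T.h (P (nat_lit 0)) (P (nat_lit 19885691812839424)))))) (T.h (P (nat_lit 0)) (T.h (T.h (M (nat_lit 13210000646600378023935)) (T.h (P (nat_lit 0)) (P (nat_lit 4128130433777664)))) (T.h (P (nat_lit 0)) (M (nat_lit 6511199756582911))))))) (T.h (T.h (T.h (P (nat_lit 0)) (T.h (P (nat_lit 3093988085105477971607552)) (T.h (P (nat_lit 0)) (T.h (P (nat_lit 31376630254227423232)) (T.h (P (nat_lit 0)) (P (nat_lit 617502241472))))))) (T.h (P (nat_lit 0)) (T.h (T.h (P (nat_lit 0)) (T.h (M (nat_lit 40575241349622661119)) (T.h (P (nat_lit 0)) (P (nat_lit 9896250995256))))) (T.h (P (nat_lit 0)) (T.h (T.h (P (nat_lit 0)) (P (nat_lit 534616161528))) (P (nat_lit 0))))))) (T.h (T.h (P (nat_lit 0)) (T.h (T.h (M (nat_lit 34978613366834824478719))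 (T.h (P (nat_lit 0)) (M (nat_lit 67973831304970239)))) (T.h (P (nat_lit 0)) (M (nat_lit 9004722249564159))))) (T.h (T.h (T.h (P (nat_lit 0)) (T.h (P (nat_lit 59942037166122598400)) (T.h (P (nat_lit 0)) (P (nat_lit 9577825270920))))) (T.h (P (nat_lit 0)) (T.h (T.h (P (nat_lit 0)) (M (nat_lit 9606426461535))) (P (nat_lit 0))))) (T.h (T.h (P (nat_lit 0)) (M (nat_lit 3911014313983999))) (T.h (T.h (T.h (P (nat_lit 0)) (P (nat_lit 1726339860488))) (P (nat_lit 0))) (P (nat_lit 0)))))))), (T.h (T.h (P (nat_lit 0)) (T.h (T.h (P (nat_lit 0)) (T.h (M (nat_lit 28670927364569032967585791)) (T.h (P (nat_lit 0)) (T.h (M (nat_lit 18802396480193691647)) (T.h (P (nat_lit 0)) (P (nat_lit 4076389384816))))))) (T.h (P (nat_lit 0)) (T.h (T.h (P (nat_lit 0)) (T.h (M (nat_lit 18802396480193691647)) (T.h (P (nat_lit 0)) (M (nat_lit 675544214015))))) (T.h (P (nat_lit 0)) (T.h (T.h (P (nat_lit 0)) (P (nat_lit 4076389384816))) (P (nat_lit 0)))))))) (T.h (T.h (T.h (M (nat_lit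 982269466919223086024753151)) (T.h (P (nat_lit 0)) (T.h (P (nat_lit 42560299076557173948416)) (T.h (P (nat_lit 0)) (P (nat_lit 7031999440027648)))))) (T.h (P (nat_lit 0)) (T.h (T.h (P (nat_lit 42560299076557173948416)) (T.h (P (nat_lit 0)) (M (nat_lit 79416610441396223)))) (T.h (P (nat_lit 0)) (P (nat_lit 7031999440027648)))))) (T.h (T.h (P (nat_lit 0)) (T.h (T.h (P (nat_lit 0)) (T.h (P (nat_lit 88000864249788235776)) (T.h (P (nat_lit 0)) (M (nat_lit 7612428796111))))) (T.h (P (nat_lit 0)) (T.h (T.h (P (nat_lit 0)) (M (nat_lit 7612428796111))) (P (nat_lit 0)))))) (T.h (T.h (T.h (M (nat_lit 35916013231108972871679)) (T.h (P (nat_lit 0)) (P (nat_lit 31111013493948416)))) (T.h (P (nat_lit 0)) (P (nat_lit 31111013493948416)))) (T.h (T.h (P (nat_lit 0)) (T.h (T.h (P (nat_lit 0)) (M (nat_lit 12132135300319))) (P (nat_lit 0)))) (P (nat_lit 22810743852630016))))))), (T.h (T.h (P (nat_lit 0)) (T.h (T.h (M (nat_lit 5002433316995141053611769855)) (T.h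 (P (nat_lit 0)) (T.h (P (nat_lit 64074607215303530119168)) (T.h (P (nat_lit 0)) (P (nat_lit 61092735884722176)))))) (T.h (P (nat_lit 0)) (T.h (T.h (M (nat_lit 64860617282329165955071)) (T.h (P (nat_lit 0)) (P (nat_lit 37485078654844928)))) (T.h (P (nat_lit 0)) (M (nat_lit 37256538694156287))))))) (T.h (T.h (T.h (P (nat_lit 0)) (T.h (M (nat_lit 60254104789067815534460927)) (T.h (P (nat_lit 0)) (T.h (M (nat_lit 52593641093391712255)) (T.h (P (nat_lit 0)) (P (nat_lit 36218528417216))))))) (T.h (P (nat_lit 0)) (T.h (T.h (P (nat_lit 0)) (T.h (M (nat_lit 122238363249976279039)) (T.h (P (nat_lit 0)) (P (nat_lit 20210294340288))))) (T.h (P (nat_lit 0)) (T.h (T.h (P (nat_lit 0)) (P (nat_lit 4830483669120))) (P (nat_lit 0))))))) (T.h (T.h (P (nat_lit 0)) (T.h (T.h (P (nat_lit 8700266256169554673664)) (T.h (P (nat_lit 0)) (M (nat_lit 73061724823420927)))) (T.h (P (nat_lit 0)) (P (nat_lit 8675185806737408))))) (T.h (T.h (T.h (P (nat_lit 0)) (T.h (P (nat_lit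 83831265369020956672)) (T.h (P (nat_lit 0)) (M (nat_lit 38518769153535))))) (T.h (P (nat_lit 0)) (T.h (T.h (P (nat_lit 0)) (M (nat_lit 7268007345151))) (P (nat_lit 0))))) (T.h (T.h (P (nat_lit 0)) (M (nat_lit 112770799911600127))) (T.h (T.h (T.h (P (nat_lit 0)) (P (nat_lit 74682600418176))) (P (nat_lit 0))) (P (nat_lit 0)))))))), (T.h (T.h (P (nat_lit 0)) (T.h (T.h (P (nat_lit 0)) (T.h (M (nat_lit 11364634751436504396988415)) (T.h (P (nat_lit 0)) (P (nat_lit 39642309639526154240))))) (T.h (P (nat_lit 0)) (T.h (T.h (P (nat_lit 0)) (P (nat_lit 42786273065835692032))) (P (nat_lit 0)))))) (T.h (T.h (T.h (M (nat_lit 21382294463452524082142117887)) (T.h (P (nat_lit 0)) (T.h (P (nat_lit 5119974003336856731648)) (T.h (P (nat_lit 0)) (P (nat_lit 38231767106387968)))))) (T.h (P (nat_lit 0)) (T.h (T.h (M (nat_lit 55308368152604113371135)) (T.h (P (nat_lit 0)) (P (nat_lit 27209387641274368)))) (T.h (P (nat_lit 0)) (P (nat_lit 17072719312633856)))))) (T.h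 (T.h (P (nat_lit 0)) (T.h (T.h (P (nat_lit 0)) (M (nat_lit 72630611916194054143))) (P (nat_lit 0)))) (T.h (T.h (T.h (P (nat_lit 8429021893482116022272)) (T.h (P (nat_lit 0)) (M (nat_lit 9121366597222399)))) (T.h (P (nat_lit 0)) (M (nat_lit 10349591218307071)))) (T.h (P (nat_lit 0)) (P (nat_lit 3098825511829504))))))), (P (nat_lit 0)), (P (nat_lit 0))]
def lQp_25 : List (T ℤ) := [(T.h (T.h (T.h (M (nat_lit 15835445583881214503361032749055)) (T.h (P (nat_lit 0)) (T.h (P (nat_lit 27829060430611715415080960)) (T.h (P (nat_lit 0)) (T.h (P (nat_lit 8856044916250247168)) (T.h (P (nat_lit 0)) (M (nat_lit 1807611555343)))))))) (T.h (P (nat_lit 0)) (T.h (T.h (M (nat_lit 15954732730147194716291071)) (T.h (P (nat_lit 0)) (T.h (M (nat_lit 25355989848697077759)) (T.h (P (nat_lit 0)) (M (nat_lit 6732252487071)))))) (T.h (P (nat_lit 0)) (T.h (T.h (M (nat_lit 19887400155925708799)) (T.h (P (nat_lit 0)) (P (nat_lit 15366368407824)))) (T.h (P (nat_lit 0)) (M (nat_lit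 4773610931599)))))))) (T.h (T.h (P (nat_lit 0)) (T.h (T.h (P (nat_lit 0)) (T.h (P (nat_lit 137274296418244684152832)) (T.h (P (nat_lit 0)) (P (nat_lit 164907919411740672))))) (T.h (P (nat_lit 0)) (T.h (T.h (P (nat_lit 0)) (M (nat_lit 38572466754813951))) (P (nat_lit 0)))))) (T.h (T.h (T.h (P (nat_lit 5078850608105316436410368)) (T.h (P (nat_lit 0)) (T.h (M (nat_lit 62468435583149539327)) (T.h (P (nat_lit 0)) (M (nat_lit 8671366263727)))))) (T.h (P (nat_lit 0)) (T.h (T.h (M (nat_lit 14048468776677015551)) (T.h (P (nat_lit 0)) (P (nat_lit 14277571269584)))) (T.h (P (nat_lit 0)) (P (nat_lit 29692863900784)))))) (T.h (T.h (P (nat_lit 0)) (T.h (T.h (P (nat_lit 0)) (M (nat_lit 89082000361291775))) (P (nat_lit 0)))) (T.h (T.h (T.h (M (nat_lit 9751005981399056383)) (T.h (P (nat_lit 0)) (M (nat_lit 16452623026111)))) (T.h (P (nat_lit 0)) (P (nat_lit 37577714858544)))) (T.h (P (nat_lit 0)) (M (nat_lit 8507132336751)))))))), (T.h (T.h (T.h (P (nat_lit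 0)) (T.h (M (nat_lit 5002433316995141053611769855)) (T.h (P (nat_lit 0)) (T.h (M (nat_lit 64860617282329165955071)) (T.h (P (nat_lit 0)) (M (nat_lit 37256538694156287))))))) (T.h (P (nat_lit 0)) (T.h (T.h (P (nat_lit 0)) (T.h (P (nat_lit 64074607215303530119168)) (T.h (P (nat_lit 0)) (P (nat_lit 37485078654844928))))) (T.h (P (nat_lit 0)) (T.h (T.h (P (nat_lit 0)) (P (nat_lit 61092735884722176))) (P (nat_lit 0))))))) (T.h (T.h (P (nat_lit 0)) (T.h (T.h (M (nat_lit 60254104789067815534460927)) (T.h (P (nat_lit 0)) (T.h (M (nat_lit 122238363249976279039)) (T.h (P (nat_lit 0)) (P (nat_lit 4830483669120)))))) (T.h (P (nat_lit 0)) (T.h (T.h (M (nat_lit 52593641093391712255)) (T.h (P (nat_lit 0)) (P (nat_lit 20210294340288)))) (T.h (P (nat_lit 0)) (P (nat_lit 36218528417216))))))) (T.h (T.h (T.h (P (nat_lit 0)) (T.h (P (nat_lit 8700266256169554673664)) (T.h (P (nat_lit 0)) (P (nat_lit 8675185806737408))))) (T.h (P (nat_lit 0)) (T.h (T.h (P (nat_lit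 0)) (M (nat_lit 73061724823420927))) (P (nat_lit 0))))) (T.h (T.h (P (nat_lit 0)) (T.h (T.h (P (nat_lit 83831265369020956672)) (T.h (P (nat_lit 0)) (M (nat_lit 7268007345151)))) (T.h (P (nat_lit 0)) (M (nat_lit 38518769153535))))) (T.h (T.h (T.h (P (nat_lit 0)) (M (nat_lit 112770799911600127))) (P (nat_lit 0))) (T.h (T.h (P (nat_lit 0)) (P (nat_lit 74682600418176))) (P (nat_lit 0)))))))), (T.h (T.h (T.h (P (nat_lit 3142910377488252325730828943360)) (T.h (P (nat_lit 0)) (T.h (M (nat_lit 33691155774875871798624255)) (T.h (P (nat_lit 0)) (M (nat_lit 43612476535541334015)))))) (T.h (P (nat_lit 0)) (T.h (T.h (M (nat_lit 33691155774875871798624255)) (T.h (P (nat_lit 0)) (P (nat_lit 71619732868914216960)))) (T.h (P (nat_lit 0)) (M (nat_lit 43612476535541334015)))))) (T.h (T.h (P (nat_lit 0)) (T.h (T.h (P (nat_lit 0)) (T.h (M (nat_lit 77133057163773054287871)) (T.h (P (nat_lit 0)) (P (nat_lit 39398897938006016))))) (T.h (P (nat_lit 0)) (T.h (T.h (P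 (nat_lit 0)) (P (nat_lit 39398897938006016))) (P (nat_lit 0)))))) (T.h (T.h (T.h (M (nat_lit 18536861392735411206356991)) (T.h (P (nat_lit 0)) (M (nat_lit 2844952429110231039)))) (T.h (P (nat_lit 0)) (M (nat_lit 2844952429110231039)))) (T.h (T.h (P (nat_lit 0)) (T.h (T.h (P (nat_lit 0)) (P (nat_lit 65556687411085312))) (P (nat_lit 0)))) (M (nat_lit 56634526376671576063)))))), (P (nat_lit 0)), (P (nat_lit 0)), (T.h (T.h (P (nat_lit 0)) (T.h (T.h (M (nat_lit 7180220735172970116427022335)) (T.h (P (nat_lit 0)) (T.h (M (nat_lit 15475025479053248299007)) (T.h (P (nat_lit 0)) (M (nat_lit 20715710340333567)))))) (T.h (P (nat_lit 0)) (T.h (T.h (P (nat_lit 44230263680022452633600)) (T.h (P (nat_lit 0)) (M (nat_lit 21552170617831423)))) (T.h (P (nat_lit 0)) (P (nat_lit 1462772452884480))))))) (T.h (T.h (T.h (P (nat_lit 0)) (T.h (P (nat_lit 57987338973388860091793408)) (T.h (P (nat_lit 0)) (T.h (P (nat_lit 117840652395666735104)) (T.h (P (nat_lit 0)) (P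 (nat_lit 10910827925824))))))) (T.h (P (nat_lit 0)) (T.h (T.h (P (nat_lit 0)) (T.h (M (nat_lit 82087647970215329791)) (T.h (P (nat_lit 0)) (M (nat_lit 19829994406847))))) (T.h (P (nat_lit 0)) (T.h (T.h (P (nat_lit 0)) (M (nat_lit 67063572229183))) (P (nat_lit 0))))))) (T.h (T.h (P (nat_lit 0)) (T.h (T.h (M (nat_lit 81238814070020872601599)) (T.h (P (nat_lit 0)) (P (nat_lit 15995042885500928)))) (T.h (P (nat_lit 0)) (P (nat_lit 80256168116682752))))) (T.h (T.h (T.h (P (nat_lit 0)) (T.h (M (nat_lit 57443828061226139647)) (T.h (P (nat_lit 0)) (P (nat_lit 1913329872704))))) (T.h (P (nat_lit 0)) (T.h (T.h (P (nat_lit 0)) (P (nat_lit 9298428385344))) (P (nat_lit 0))))) (T.h (T.h (P (nat_lit 0)) (P (nat_lit 75530142658265088))) (T.h (T.h (T.h (P (nat_lit 0)) (M (nat_lit 26887879288831))) (P (nat_lit 0))) (P (nat_lit 0)))))))), (T.h (T.h (P (nat_lit 0)) (T.h (T.h (P (nat_lit 0)) (T.h (M (nat_lit 11364634751436504396988415)) (T.h (P (nat_lit 0)) (P (nat_lit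 42786273065835692032))))) (T.h (P (nat_lit 0)) (T.h (T.h (P (nat_lit 0)) (P (nat_lit 39642309639526154240))) (P (nat_lit 0)))))) (T.h (T.h (T.h (M (nat_lit 21382294463452524082142117887)) (T.h (P (nat_lit 0)) (T.h (M (nat_lit 55308368152604113371135)) (T.h (P (nat_lit 0)) (P (nat_lit 17072719312633856)))))) (T.h (P (nat_lit 0)) (T.h (T.h (P (nat_lit 5119974003336856731648)) (T.h (P (nat_lit 0)) (P (nat_lit 27209387641274368)))) (T.h (P (nat_lit 0)) (P (nat_lit 38231767106387968)))))) (T.h (T.h (P (nat_lit 0)) (T.h (T.h (P (nat_lit 0)) (M (nat_lit 72630611916194054143))) (P (nat_lit 0)))) (T.h (T.h (T.h (P (nat_lit 8429021893482116022272)) (T.h (P (nat_lit 0)) (M (nat_lit 10349591218307071)))) (T.h (P (nat_lit 0)) (M (nat_lit 9121366597222399)))) (T.h (P (nat_lit 0)) (P (nat_lit 3098825511829504))))))), (P (nat_lit 0))]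
def lQp_26 : List (T ℤ) := [(P (nat_lit 0)), (T.h (T.h (T.h (M (nat_lit 984195350018325543104137920511)) (T.h (P (nat_lit 0)) (T.h (P (nat_lit 353537135146806275997696)) (T.h (P (nat_lit 0)) (M (nat_lit 4364305523307184127)))))) (T.h (P (nat_lit 0)) (T.h (T.h (P (nat_lit 15230894307888454317375488)) (T.h (P (nat_lit 0)) (M (nat_lit 21389219787958124543)))) (T.h (P (nat_lit 0)) (P (nat_lit 15566893289482223616)))))) (T.h (T.h (P (nat_lit 0)) (T.h (T.h (P (nat_lit 0)) (T.h (P (nat_lit 5141982376459845500928)) (T.h (P (nat_lit 0)) (M (nat_lit 20305914272612351))))) (T.h (P (nat_lit 0)) (T.h (T.h (P (nat_lit 0)) (M (nat_lit 63912302629388287))) (P (nat_lit 0)))))) (T.h (T.h (T.h (P (nat_lit 15230894307888454317375488)) (T.h (P (nat_lit 0)) (M (nat_lit 21389219787958124543)))) (T.h (P (nat_lit 0)) (P (nat_lit 10893491707010088960)))) (T.h (T.h (P (nat_lit 0)) (T.h (T.h (P (nat_lit 0)) (M (nat_lit 63912302629388287))) (P (nat_lit 0)))) (P (nat_lit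 15566893289482223616)))))), (P (nat_lit 0)), (P (nat_lit 0)), (P (nat_lit 0)), (P (nat_lit 0)), (P (nat_lit 0)), (T.h (T.h (P (nat_lit 0)) (T.h (T.h (P (nat_lit 0)) (T.h (P (nat_lit 103747474557095464927232)) (T.h (P (nat_lit 0)) (T.h (M (nat_lit 18511214958193147903)) (T.h (P (nat_lit 0)) (P (nat_lit 2421611621872))))))) (T.h (P (nat_lit 0)) (T.h (T.h (P (nat_lit 0)) (T.h (M (nat_lit 18511214958193147903)) (T.h (P (nat_lit 0)) (P (nat_lit 2964950137424))))) (T.h (P (nat_lit 0)) (T.h (T.h (P (nat_lit 0)) (P (nat_lit 2421611621872))) (P (nat_lit 0)))))))) (T.h (T.h (T.h (M (nat_lit 8133314121465567337798172671)) (T.h (P (nat_lit 0)) (T.h (M (nat_lit 14007424148448410075135)) (T.h (P (nat_lit 0)) (M (nat_lit 13595747359195135)))))) (T.h (P (nat_lit 0)) (T.h (T.h (M (nat_lit 14007424148448410075135)) (T.h (P (nat_lit 0)) (M (nat_lit 5371517203120127)))) (T.h (P (nat_lit 0)) (M (nat_lit 13595747359195135)))))) (T.h (T.h (P (nat_lit 0)) (T.h (T.h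 (P (nat_lit 0)) (T.h (P (nat_lit 626996230592921600)) (T.h (P (nat_lit 0)) (P (nat_lit 7212977179400))))) (T.h (P (nat_lit 0)) (T.h (T.h (P (nat_lit 0)) (P (nat_lit 7212977179400))) (P (nat_lit 0)))))) (T.h (T.h (T.h (M (nat_lit 7502146680677998788607)) (T.h (P (nat_lit 0)) (M (nat_lit 5759402920116223)))) (T.h (P (nat_lit 0)) (M (nat_lit 5759402920116223)))) (T.h (T.h (P (nat_lit 0)) (T.h (T.h (P (nat_lit 0)) (M (nat_lit 9410262603583))) (P (nat_lit 0)))) (M (nat_lit 7751997443014655)))))))]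
def lQp_27 : List (T ℤ) := [(T.h (T.h (P (nat_lit 0)) (T.h (T.h (P (nat_lit 2070197147691113558778576896)) (T.h (P (nat_lit 0)) (T.h (M (nat_lit 16778713653034530897919)) (T.h (P (nat_lit 0)) (M (nat_lit 5071474906873855)))))) (T.h (P (nat_lit 0)) (T.h (T.h (M (nat_lit 1755541345251985719295)) (T.h (P (nat_lit 0)) (M (nat_lit 8110386514264063)))) (T.h (P (nat_lit 0)) (P (nat_lit 2055657166962688))))))) (T.h (T.h (T.h (P (nat_lit 0)) (T.h (M (nat_lit 34245653991761483615174655)) (T.h (P (nat_lit 0)) (T.h (M (nat_lit 18414233202529927167)) (T.h (P (nat_lit 0)) (P (nat_lit 3040955945440))))))) (T.h (P (nat_lit 0)) (T.h (T.h (P (nat_lit 0)) (T.h (M (nat_lit 77947200328693710847)) (T.h (P (nat_lit 0)) (M (nat_lit 4081026789279))))) (T.h (P (nat_lit 0)) (T.h (T.h (P (nat_lit 0)) (M (nat_lit 6622509720623))) (P (nat_lit 0))))))) (T.h (T.h (P (nat_lit 0)) (T.h (T.h (P (nat_lit 50195457411964089663488)) (T.h (P (nat_lit 0)) (M (nat_lit 41484131990011903))))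 (T.h (P (nat_lit 0)) (P (nat_lit 34533612525666304))))) (T.h (T.h (T.h (P (nat_lit 0)) (T.h (P (nat_lit 10955938041285312512)) (T.h (P (nat_lit 0)) (P (nat_lit 4308734371088))))) (T.h (P (nat_lit 0)) (T.h (T.h (P (nat_lit 0)) (P (nat_lit 19135086581520))) (P (nat_lit 0))))) (T.h (T.h (P (nat_lit 0)) (M (nat_lit 1263562713645055))) (T.h (T.h (T.h (P (nat_lit 0)) (P (nat_lit 11861041236576))) (P (nat_lit 0))) (P (nat_lit 0)))))))), (T.h (T.h (P (nat_lit 0)) (T.h (T.h (P (nat_lit 0)) (T.h (P (nat_lit 10494658871746831442771968)) (T.h (P (nat_lit 0)) (T.h (M (nat_lit 13063050751532597247)) (T.h (P (nat_lit 0)) (M (nat_lit 6448005040191))))))) (T.h (P (nat_lit 0)) (T.h (T.h (P (nat_lit 0)) (T.h (P (nat_lit 34139594727559790592)) (T.h (P (nat_lit 0)) (P (nat_lit 19930650988864))))) (T.h (P (nat_lit 0)) (T.h (T.h (P (nat_lit 0)) (M (nat_lit 14192755560127))) (P (nat_lit 0)))))))) (T.h (T.h (T.h (M (nat_lit 4304148551281740831751405567)) (T.h (P (nat_lit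 0)) (T.h (M (nat_lit 1015608543622518013951)) (T.h (P (nat_lit 0)) (P (nat_lit 92647970569584640)))))) (T.h (P (nat_lit 0)) (T.h (T.h (M (nat_lit 25313360426532698324991)) (T.h (P (nat_lit 0)) (M (nat_lit 22080326634962943)))) (T.h (P (nat_lit 0)) (M (nat_lit 39992299983962111)))))) (T.h (T.h (P (nat_lit 0)) (T.h (T.h (P (nat_lit 0)) (T.h (M (nat_lit 166341497935569616895)) (T.h (P (nat_lit 0)) (P (nat_lit 337539405120))))) (T.h (P (nat_lit 0)) (T.h (T.h (P (nat_lit 0)) (P (nat_lit 12743561461376))) (P (nat_lit 0)))))) (T.h (T.h (T.h (M (nat_lit 16707090653062109331455)) (T.h (P (nat_lit 0)) (P (nat_lit 52808192605061120)))) (T.h (P (nat_lit 0)) (M (nat_lit 26109669090557951)))) (T.h (T.h (P (nat_lit 0)) (T.h (T.h (P (nat_lit 0)) (M (nat_lit 4401048221823))) (P (nat_lit 0)))) (M (nat_lit 5776898915696639))))))), (T.h (T.h (P (nat_lit 0)) (T.h (T.h (P (nat_lit 6099708548673304496447684608)) (T.h (P (nat_lit 0)) (T.h (P (nat_lit 914033056629670281216))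 (T.h (P (nat_lit 0)) (M (nat_lit 25421720942116863)))))) (T.h (P (nat_lit 0)) (T.h (T.h (P (nat_lit 17907237936627615531008)) (T.h (P (nat_lit 0)) (P (nat_lit 10230261391294464)))) (T.h (P (nat_lit 0)) (M (nat_lit 840173474381823))))))) (T.h (T.h (T.h (P (nat_lit 0)) (T.h (M (nat_lit 18571853267465370509246463)) (T.h (P (nat_lit 0)) (P (nat_lit 76155881187738386432))))) (T.h (P (nat_lit 0)) (T.h (T.h (P (nat_lit 0)) (M (nat_lit 2818795405779664895))) (P (nat_lit 0))))) (T.h (T.h (P (nat_lit 0)) (T.h (T.h (M (nat_lit 39385658327280031629311)) (T.h (P (nat_lit 0)) (P (nat_lit 7400423263076352)))) (T.h (P (nat_lit 0)) (P (nat_lit 4731789076348928))))) (T.h (T.h (T.h (P (nat_lit 0)) (P (nat_lit 35935822232235802624))) (P (nat_lit 0))) (T.h (T.h (P (nat_lit 0)) (M (nat_lit 35543153834491903))) (P (nat_lit 0))))))), (P (nat_lit 0)), (P (nat_lit 0)), (T.h (T.h (T.h (P (nat_lit 0)) (T.h (P (nat_lit 2070197147691113558778576896)) (T.h (P (nat_lit 0))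 (T.h (M (nat_lit 1755541345251985719295)) (T.h (P (nat_lit 0)) (P (nat_lit 2055657166962688))))))) (T.h (P (nat_lit 0)) (T.h (T.h (P (nat_lit 0)) (T.h (M (nat_lit 16778713653034530897919)) (T.h (P (nat_lit 0)) (M (nat_lit 8110386514264063))))) (T.h (P (nat_lit 0)) (T.h (T.h (P (nat_lit 0)) (M (nat_lit 5071474906873855))) (P (nat_lit 0))))))) (T.h (T.h (P (nat_lit 0)) (T.h (T.h (M (nat_lit 34245653991761483615174655)) (T.h (P (nat_lit 0)) (T.h (M (nat_lit 77947200328693710847)) (T.h (P (nat_lit 0)) (M (nat_lit 6622509720623)))))) (T.h (P (nat_lit 0)) (T.h (T.h (M (nat_lit 18414233202529927167)) (T.h (P (nat_lit 0)) (M (nat_lit 4081026789279)))) (T.h (P (nat_lit 0)) (P (nat_lit 3040955945440))))))) (T.h (T.h (T.h (P (nat_lit 0)) (T.h (P (nat_lit 50195457411964089663488)) (T.h (P (nat_lit 0)) (P (nat_lit 34533612525666304))))) (T.h (P (nat_lit 0)) (T.h (T.h (P (nat_lit 0)) (M (nat_lit 41484131990011903))) (P (nat_lit 0))))) (T.h (T.h (P (nat_lit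 0)) (T.h (T.h (P (nat_lit 10955938041285312512)) (T.h (P (nat_lit 0)) (P (nat_lit 19135086581520)))) (T.h (P (nat_lit 0)) (P (nat_lit 4308734371088))))) (T.h (T.h (T.h (P (nat_lit 0)) (M (nat_lit 1263562713645055))) (P (nat_lit 0))) (T.h (T.h (P (nat_lit 0)) (P (nat_lit 11861041236576))) (P (nat_lit 0)))))))), (T.h (T.h (T.h (P (nat_lit 1489864615173141456557266960384)) (T.h (P (nat_lit 0)) (T.h (M (nat_lit 474886768969692552888319)) (T.h (P (nat_lit 0)) (T.h (P (nat_lit 23472225573696176128)) (T.h (P (nat_lit 0)) (M (nat_lit 7400973879743)))))))) (T.h (P (nat_lit 0)) (T.h (T.h (M (nat_lit 474886768969692552888319)) (T.h (P (nat_lit 0)) (T.h (P (nat_lit 49589126739001344000)) (T.h (P (nat_lit 0)) (M (nat_lit 16542069378623)))))) (T.h (P (nat_lit 0)) (T.h (T.h (P (nat_lit 23472225573696176128)) (T.h (P (nat_lit 0)) (M (nat_lit 16542069378623)))) (T.h (P (nat_lit 0)) (M (nat_lit 7400973879743)))))))) (T.h (T.h (P (nat_lit 0)) (T.h (T.h (P (nat_lit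 0)) (T.h (P (nat_lit 138524736694348612108288)) (T.h (P (nat_lit 0)) (P (nat_lit 126631892948680704))))) (T.h (P (nat_lit 0)) (T.h (T.h (P (nat_lit 0)) (P (nat_lit 126631892948680704))) (P (nat_lit 0)))))) (T.h (T.h (T.h (P (nat_lit 19155564673305472233635840)) (T.h (P (nat_lit 0)) (T.h (M (nat_lit 76103848389897093119)) (T.h (P (nat_lit 0)) (P (nat_lit 4629881581312)))))) (T.h (P (nat_lit 0)) (T.h (T.h (M (nat_lit 76103848389897093119)) (T.h (P (nat_lit 0)) (P (nat_lit 86031824607232)))) (T.h (P (nat_lit 0)) (P (nat_lit 4629881581312)))))) (T.h (T.h (P (nat_lit 0)) (T.h (T.h (P (nat_lit 0)) (M (nat_lit 85942659986620415))) (P (nat_lit 0)))) (T.h (T.h (T.h (P (nat_lit 60418906907182366720)) (T.h (P (nat_lit 0)) (P (nat_lit 25057116010112)))) (T.h (P (nat_lit 0)) (P (nat_lit 25057116010112)))) (T.h (P (nat_lit 0)) (P (nat_lit 18032440444800)))))))), (T.h (T.h (T.h (P (nat_lit 0)) (T.h (M (nat_lit 3133521640352018543595749375)) (T.h (P (nat_lit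 0)) (T.h (M (nat_lit 6131544820029419683839)) (T.h (P (nat_lit 0)) (M (nat_lit 3746641894768639))))))) (T.h (P (nat_lit 0)) (T.h (T.h (P (nat_lit 0)) (T.h (M (nat_lit 10530773426254924218367)) (T.h (P (nat_lit 0)) (P (nat_lit 3541496266850304))))) (T.h (P (nat_lit 0)) (T.h (T.h (P (nat_lit 0)) (M (nat_lit 25399662819524607))) (P (nat_lit 0))))))) (T.h (T.h (P (nat_lit 0)) (T.h (T.h (P (nat_lit 34949159902444343565221888)) (T.h (P (nat_lit 0)) (P (nat_lit 64795198108966322176)))) (T.h (P (nat_lit 0)) (P (nat_lit 18668642047161794560))))) (T.h (T.h (T.h (P (nat_lit 0)) (T.h (P (nat_lit 3848273589639705526272)) (T.h (P (nat_lit 0)) (M (nat_lit 24755005882941439))))) (T.h (P (nat_lit 0)) (T.h (T.h (P (nat_lit 0)) (P (nat_lit 48253519760162816))) (P (nat_lit 0))))) (T.h (T.h (P (nat_lit 0)) (M (nat_lit 130808218232064835583))) (T.h (T.h (T.h (P (nat_lit 0)) (P (nat_lit 107296303587655680))) (P (nat_lit 0))) (P (nat_lit 0)))))))]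
def lQp_28 : List (T ℤ) := [(P (nat_lit 0)), (P (nat_lit 0)), (T.h (T.h (P (nat_lit 0)) (T.h (T.h (P (nat_lit 0)) (T.h (P (nat_lit 10494658871746831442771968)) (T.h (P (nat_lit 0)) (T.h (P (nat_lit 34139594727559790592)) (T.h (P (nat_lit 0)) (M (nat_lit 14192755560127))))))) (T.h (P (nat_lit 0)) (T.h (T.h (P (nat_lit 0)) (T.h (M (nat_lit 13063050751532597247)) (T.h (P (nat_lit 0)) (P (nat_lit 19930650988864))))) (T.h (P (nat_lit 0)) (T.h (T.h (P (nat_lit 0)) (M (nat_lit 6448005040191))) (P (nat_lit 0)))))))) (T.h (T.h (T.h (M (nat_lit 4304148551281740831751405567)) (T.h (P (nat_lit 0)) (T.h (M (nat_lit 25313360426532698324991)) (T.h (P (nat_lit 0)) (M (nat_lit 39992299983962111)))))) (T.h (P (nat_lit 0)) (T.h (T.h (M (nat_lit 1015608543622518013951)) (T.h (P (nat_lit 0)) (M (nat_lit 22080326634962943)))) (T.h (P (nat_lit 0)) (P (nat_lit 92647970569584640)))))) (T.h (T.h (P (nat_lit 0)) (T.h (T.h (P (nat_lit 0)) (T.h (M (nat_lit 166341497935569616895))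 (T.h (P (nat_lit 0)) (P (nat_lit 12743561461376))))) (T.h (P (nat_lit 0)) (T.h (T.h (P (nat_lit 0)) (P (nat_lit 337539405120))) (P (nat_lit 0)))))) (T.h (T.h (T.h (M (nat_lit 16707090653062109331455)) (T.h (P (nat_lit 0)) (M (nat_lit 26109669090557951)))) (T.h (P (nat_lit 0)) (P (nat_lit 52808192605061120)))) (T.h (T.h (P (nat_lit 0)) (T.h (T.h (P (nat_lit 0)) (M (nat_lit 4401048221823))) (P (nat_lit 0)))) (M (nat_lit 5776898915696639))))))), (T.h (T.h (P (nat_lit 0)) (T.h (T.h (M (nat_lit 3133521640352018543595749375)) (T.h (P (nat_lit 0)) (T.h (M (nat_lit 10530773426254924218367)) (T.h (P (nat_lit 0)) (M (nat_lit 25399662819524607)))))) (T.h (P (nat_lit 0)) (T.h (T.h (M (nat_lit 6131544820029419683839)) (T.h (P (nat_lit 0)) (P (nat_lit 3541496266850304)))) (T.h (P (nat_lit 0)) (M (nat_lit 3746641894768639))))))) (T.h (T.h (T.h (P (nat_lit 0)) (T.h (P (nat_lit 34949159902444343565221888)) (T.h (P (nat_lit 0)) (P (nat_lit 18668642047161794560)))))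 (T.h (P (nat_lit 0)) (T.h (T.h (P (nat_lit 0)) (P (nat_lit 64795198108966322176))) (P (nat_lit 0))))) (T.h (T.h (P (nat_lit 0)) (T.h (T.h (P (nat_lit 3848273589639705526272)) (T.h (P (nat_lit 0)) (P (nat_lit 48253519760162816)))) (T.h (P (nat_lit 0)) (M (nat_lit 24755005882941439))))) (T.h (T.h (T.h (P (nat_lit 0)) (M (nat_lit 130808218232064835583))) (P (nat_lit 0))) (T.h (T.h (P (nat_lit 0)) (P (nat_lit 107296303587655680))) (P (nat_lit 0))))))), (P (nat_lit 0)), (P (nat_lit 0)), (T.h (T.h (T.h (P (nat_lit 0)) (T.h (P (nat_lit 6099708548673304496447684608)) (T.h (P (nat_lit 0)) (T.h (P (nat_lit 17907237936627615531008)) (T.h (P (nat_lit 0)) (M (nat_lit 840173474381823))))))) (T.h (P (nat_lit 0)) (T.h (T.h (P (nat_lit 0)) (T.h (P (nat_lit 914033056629670281216)) (T.h (P (nat_lit 0)) (P (nat_lit 10230261391294464))))) (T.h (P (nat_lit 0)) (T.h (T.h (P (nat_lit 0)) (M (nat_lit 25421720942116863))) (P (nat_lit 0))))))) (T.h (T.h (P (nat_lit 0))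 (T.h (T.h (M (nat_lit 18571853267465370509246463)) (T.h (P (nat_lit 0)) (M (nat_lit 2818795405779664895)))) (T.h (P (nat_lit 0)) (P (nat_lit 76155881187738386432))))) (T.h (T.h (T.h (P (nat_lit 0)) (T.h (M (nat_lit 39385658327280031629311)) (T.h (P (nat_lit 0)) (P (nat_lit 4731789076348928))))) (T.h (P (nat_lit 0)) (T.h (T.h (P (nat_lit 0)) (P (nat_lit 7400423263076352))) (P (nat_lit 0))))) (T.h (T.h (P (nat_lit 0)) (P (nat_lit 35935822232235802624))) (T.h (T.h (T.h (P (nat_lit 0)) (M (nat_lit 35543153834491903))) (P (nat_lit 0))) (P (nat_lit 0))))))), (P (nat_lit 0))]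
def lQp_29 : List (T ℤ) := [(P (nat_lit 0)), (P (nat_lit 0)), (P (nat_lit 0)), (P (nat_lit 0)), (T.h (T.h (T.h (M (nat_lit 7077145893122241677976934547455)) (T.h (P (nat_lit 0)) (T.h (M (nat_lit 2655676528142138807943167)) (T.h (P (nat_lit 0)) (T.h (P (nat_lit 1164662279015235584)) (T.h (P (nat_lit 0)) (M (nat_lit 1109493383599)))))))) (T.h (P (nat_lit 0)) (T.h (T.h (M (nat_lit 2655676528142138807943167)) (T.h (P (nat_lit 0)) (T.h (M (nat_lit 4091938453573337087)) (T.h (P (nat_lit 0)) (M (nat_lit 1741740014223)))))) (T.h (P (nat_lit 0)) (T.h (T.h (P (nat_lit 1164662279015235584)) (T.h (P (nat_lit 0)) (M (nat_lit 1741740014223)))) (T.h (P (nat_lit 0)) (M (nat_lit 1109493383599)))))))) (T.h (T.h (P (nat_lit 0)) (T.h (T.h (P (nat_lit 0)) (T.h (M (nat_lit 109547411112764375039)) (T.h (P (nat_lit 0)) (P (nat_lit 311553983348736))))) (T.h (P (nat_lit 0)) (T.h (T.h (P (nat_lit 0)) (P (nat_lit 311553983348736))) (P (nat_lit 0)))))) (T.h (T.h (T.h (M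 (nat_lit 7290160342092228652433407)) (T.h (P (nat_lit 0)) (T.h (M (nat_lit 8677772569119555583)) (T.h (P (nat_lit 0)) (M (nat_lit 4692097755967)))))) (T.h (P (nat_lit 0)) (T.h (T.h (M (nat_lit 8677772569119555583)) (T.h (P (nat_lit 0)) (M (nat_lit 10354312704511)))) (T.h (P (nat_lit 0)) (M (nat_lit 4692097755967)))))) (T.h (T.h (P (nat_lit 0)) (T.h (T.h (P (nat_lit 0)) (M (nat_lit 29576939647533055))) (P (nat_lit 0)))) (T.h (T.h (T.h (P (nat_lit 3847333175462199296)) (T.h (P (nat_lit 0)) (M (nat_lit 6986606627727)))) (T.h (P (nat_lit 0)) (M (nat_lit 6986606627727)))) (T.h (P (nat_lit 0)) (P (nat_lit 5745344476032)))))))), (T.h (T.h (T.h (P (nat_lit 0)) (T.h (M (nat_lit 340004622159091421151231999)) (T.h (P (nat_lit 0)) (T.h (P (nat_lit 8105186808818221187072)) (T.h (P (nat_lit 0)) (P (nat_lit 8938710452797440))))))) (T.h (P (nat_lit 0)) (T.h (T.h (P (nat_lit 0)) (T.h (M (nat_lit 43982686652293688852479)) (T.h (P (nat_lit 0)) (P (nat_lit 578246134136832)))))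 (T.h (P (nat_lit 0)) (T.h (T.h (P (nat_lit 0)) (M (nat_lit 13389946303381503))) (P (nat_lit 0))))))) (T.h (T.h (P (nat_lit 0)) (T.h (T.h (M (nat_lit 1960600475507989275475967)) (T.h (P (nat_lit 0)) (T.h (M (nat_lit 5346218877418209279)) (T.h (P (nat_lit 0)) (M (nat_lit 5447580911871)))))) (T.h (P (nat_lit 0)) (T.h (T.h (M (nat_lit 8906692828529164287)) (T.h (P (nat_lit 0)) (P (nat_lit 4520161715200)))) (T.h (P (nat_lit 0)) (P (nat_lit 5650489332224))))))) (T.h (T.h (T.h (P (nat_lit 0)) (T.h (P (nat_lit 24853642217965949550592)) (T.h (P (nat_lit 0)) (P (nat_lit 19166517158117376))))) (T.h (P (nat_lit 0)) (T.h (T.h (P (nat_lit 0)) (P (nat_lit 60989868666159104))) (P (nat_lit 0))))) (T.h (T.h (P (nat_lit 0)) (T.h (T.h (M (nat_lit 48691605605848186879)) (T.h (P (nat_lit 0)) (P (nat_lit 18214856339968)))) (T.h (P (nat_lit 0)) (P (nat_lit 3170128275712))))) (T.h (T.h (T.h (P (nat_lit 0)) (M (nat_lit 1447515509358591))) (P (nat_lit 0))) (T.h (T.h (P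 (nat_lit 0)) (M (nat_lit 1711617739199))) (P (nat_lit 0)))))))), (T.h (T.h (T.h (P (nat_lit 848019981192476839092825358336)) (T.h (P (nat_lit 0)) (T.h (P (nat_lit 6614624667399100999663616)) (T.h (P (nat_lit 0)) (P (nat_lit 30926891337990012928)))))) (T.h (P (nat_lit 0)) (T.h (T.h (M (nat_lit 10653213847725133906575359)) (T.h (P (nat_lit 0)) (M (nat_lit 3947790254513061887)))) (T.h (P (nat_lit 0)) (M (nat_lit 11113978180799561727)))))) (T.h (T.h (P (nat_lit 0)) (T.h (T.h (P (nat_lit 0)) (T.h (M (nat_lit 41729021910207325798399)) (T.h (P (nat_lit 0)) (M (nat_lit 5405502678335487))))) (T.h (P (nat_lit 0)) (T.h (T.h (P (nat_lit 0)) (P (nat_lit 8839026266406912))) (P (nat_lit 0)))))) (T.h (T.h (T.h (M (nat_lit 3438041479358372487626751)) (T.h (P (nat_lit 0)) (P (nat_lit 19910758226580209664)))) (T.h (P (nat_lit 0)) (P (nat_lit 3300389089831813120)))) (T.h (T.h (P (nat_lit 0)) (T.h (T.h (P (nat_lit 0)) (P (nat_lit 4819333066915840))) (P (nat_lit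 0)))) (P (nat_lit 3512947433225060352)))))), (P (nat_lit 0))]
def lQp_30 : List (T ℤ) := [(P (nat_lit 0)), (T.h (T.h (P (nat_lit 0)) (T.h (T.h (M (nat_lit 340004622159091421151231999)) (T.h (P (nat_lit 0)) (T.h (M (nat_lit 43982686652293688852479)) (T.h (P (nat_lit 0)) (M (nat_lit 13389946303381503)))))) (T.h (P (nat_lit 0)) (T.h (T.h (P (nat_lit 8105186808818221187072)) (T.h (P (nat_lit 0)) (P (nat_lit 578246134136832)))) (T.h (P (nat_lit 0)) (P (nat_lit 8938710452797440))))))) (T.h (T.h (T.h (P (nat_lit 0)) (T.h (M (nat_lit 1960600475507989275475967)) (T.h (P (nat_lit 0)) (T.h (M (nat_lit 8906692828529164287)) (T.h (P (nat_lit 0)) (P (nat_lit 5650489332224))))))) (T.h (P (nat_lit 0)) (T.h (T.h (P (nat_lit 0)) (T.h (M (nat_lit 5346218877418209279)) (T.h (P (nat_lit 0)) (P (nat_lit 4520161715200))))) (T.h (P (nat_lit 0)) (T.h (T.h (P (nat_lit 0)) (M (nat_lit 5447580911871))) (P (nat_lit 0))))))) (T.h (T.h (P (nat_lit 0)) (T.h (T.h (P (nat_lit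 24853642217965949550592)) (T.h (P (nat_lit 0)) (P (nat_lit 60989868666159104)))) (T.h (P (nat_lit 0)) (P (nat_lit 19166517158117376))))) (T.h (T.h (T.h (P (nat_lit 0)) (T.h (M (nat_lit 48691605605848186879)) (T.h (P (nat_lit 0)) (P (nat_lit 3170128275712))))) (T.h (P (nat_lit 0)) (T.h (T.h (P (nat_lit 0)) (P (nat_lit 18214856339968))) (P (nat_lit 0))))) (T.h (T.h (P (nat_lit 0)) (M (nat_lit 1447515509358591))) (T.h (T.h (T.h (P (nat_lit 0)) (M (nat_lit 1711617739199))) (P (nat_lit 0))) (P (nat_lit 0)))))))), (T.h (T.h (P (nat_lit 0)) (T.h (T.h (P (nat_lit 0)) (T.h (M (nat_lit 1786891951884896965754879)) (T.h (P (nat_lit 0)) (P (nat_lit 27420855437877051392))))) (T.h (P (nat_lit 0)) (T.h (T.h (P (nat_lit 0)) (P (nat_lit 27420855437877051392))) (P (nat_lit 0)))))) (T.h (T.h (T.h (P (nat_lit 14143915709784305992583872512)) (T.h (P (nat_lit 0)) (T.h (M (nat_lit 71315698274066231197695)) (T.h (P (nat_lit 0)) (P (nat_lit 8208545001439232)))))) (T.h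 (P (nat_lit 0)) (T.h (T.h (M (nat_lit 71315698274066231197695)) (T.h (P (nat_lit 0)) (P (nat_lit 50991262593449984)))) (T.h (P (nat_lit 0)) (P (nat_lit 8208545001439232)))))) (T.h (T.h (P (nat_lit 0)) (T.h (T.h (P (nat_lit 0)) (M (nat_lit 20838505919270617087))) (P (nat_lit 0)))) (T.h (T.h (T.h (P (nat_lit 5554121537654855041024)) (T.h (P (nat_lit 0)) (P (nat_lit 32756148533133312)))) (T.h (P (nat_lit 0)) (P (nat_lit 32756148533133312)))) (T.h (P (nat_lit 0)) (P (nat_lit 26821480240742400))))))), (P (nat_lit 0)), (P (nat_lit 0)), (T.h (T.h (T.h (P (nat_lit 848019981192476839092825358336)) (T.h (P (nat_lit 0)) (T.h (M (nat_lit 10653213847725133906575359)) (T.h (P (nat_lit 0)) (M (nat_lit 11113978180799561727)))))) (T.h (P (nat_lit 0)) (T.h (T.h (P (nat_lit 6614624667399100999663616)) (T.h (P (nat_lit 0)) (M (nat_lit 3947790254513061887)))) (T.h (P (nat_lit 0)) (P (nat_lit 30926891337990012928)))))) (T.h (T.h (P (nat_lit 0)) (T.h (T.h (P (nat_lit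 0)) (T.h (M (nat_lit 41729021910207325798399)) (T.h (P (nat_lit 0)) (P (nat_lit 8839026266406912))))) (T.h (P (nat_lit 0)) (T.h (T.h (P (nat_lit 0)) (M (nat_lit 5405502678335487))) (P (nat_lit 0)))))) (T.h (T.h (T.h (M (nat_lit 3438041479358372487626751)) (T.h (P (nat_lit 0)) (P (nat_lit 3300389089831813120)))) (T.h (P (nat_lit 0)) (P (nat_lit 19910758226580209664)))) (T.h (T.h (P (nat_lit 0)) (T.h (T.h (P (nat_lit 0)) (P (nat_lit 4819333066915840))) (P (nat_lit 0)))) (P (nat_lit 3512947433225060352)))))), (P (nat_lit 0)), (P (nat_lit 0))]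
def lQp_31 : List (T ℤ) := [(P (nat_lit 0)), (P (nat_lit 0)), (P (nat_lit 0)), (T.h (T.h (P (nat_lit 0)) (T.h (T.h (P (nat_lit 0)) (T.h (P (nat_lit 2475538643173014241280)) (T.h (P (nat_lit 0)) (T.h (P (nat_lit 20644546159329673216)) (T.h (P (nat_lit 0)) (M (nat_lit 1880274670463))))))) (T.h (P (nat_lit 0)) (T.h (T.h (P (nat_lit 0)) (T.h (P (nat_lit 20644546159329673216)) (T.h (P (nat_lit 0)) (M (nat_lit 5936581743359))))) (T.h (P (nat_lit 0)) (T.h (T.h (P (nat_lit 0)) (M (nat_lit 1880274670463))) (P (nat_lit 0)))))))) (T.h (T.h (T.h (P (nat_lit 8143272965188640913429102592)) (T.h (P (nat_lit 0)) (T.h (P (nat_lit 14199792496674017902592)) (T.h (P (nat_lit 0)) (P (nat_lit 9476508357492736)))))) (T.h (P (nat_lit 0)) (T.h (T.h (P (nat_lit 14199792496674017902592)) (T.h (P (nat_lit 0)) (P (nat_lit 15198055877836800)))) (T.h (P (nat_lit 0)) (P (nat_lit 9476508357492736)))))) (T.h (T.h (P (nat_lit 0)) (T.h (T.h (P (nat_lit 0)) (T.h (P (nat_lit 4175727890098290688))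 (T.h (P (nat_lit 0)) (M (nat_lit 11791955260671))))) (T.h (P (nat_lit 0)) (T.h (T.h (P (nat_lit 0)) (M (nat_lit 11791955260671))) (P (nat_lit 0)))))) (T.h (T.h (T.h (P (nat_lit 7541260049816548802560)) (T.h (P (nat_lit 0)) (P (nat_lit 7349451755749376)))) (T.h (P (nat_lit 0)) (P (nat_lit 7349451755749376)))) (T.h (T.h (P (nat_lit 0)) (T.h (T.h (P (nat_lit 0)) (P (nat_lit 18815787712000))) (P (nat_lit 0)))) (P (nat_lit 7426438338183168))))))), (T.h (T.h (P (nat_lit 0)) (T.h (T.h (M (nat_lit 2547540643335990035118817279)) (T.h (P (nat_lit 0)) (T.h (P (nat_lit 19946718446392155570176)) (T.h (P (nat_lit 0)) (M (nat_lit 3801332291633151)))))) (T.h (P (nat_lit 0)) (T.h (T.h (M (nat_lit 392783585823669878783)) (T.h (P (nat_lit 0)) (M (nat_lit 3402133379809279)))) (T.h (P (nat_lit 0)) (P (nat_lit 965174953410560))))))) (T.h (T.h (T.h (P (nat_lit 0)) (T.h (P (nat_lit 18381355421258832978903040)) (T.h (P (nat_lit 0)) (P (nat_lit 23203781688285986816)))))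 (T.h (P (nat_lit 0)) (T.h (T.h (P (nat_lit 0)) (P (nat_lit 36613268445365010432))) (P (nat_lit 0))))) (T.h (T.h (P (nat_lit 0)) (T.h (T.h (M (nat_lit 34455666698401404157951)) (T.h (P (nat_lit 0)) (P (nat_lit 4932788028899328)))) (T.h (P (nat_lit 0)) (M (nat_lit 584082030985215))))) (T.h (T.h (T.h (P (nat_lit 0)) (M (nat_lit 7114211940729094143))) (P (nat_lit 0))) (T.h (T.h (P (nat_lit 0)) (P (nat_lit 2625970948096000))) (P (nat_lit 0))))))), (P (nat_lit 0)), (P (nat_lit 0)), (T.h (T.h (T.h (P (nat_lit 0)) (T.h (M (nat_lit 2547540643335990035118817279)) (T.h (P (nat_lit 0)) (T.h (M (nat_lit 392783585823669878783)) (T.h (P (nat_lit 0)) (P (nat_lit 965174953410560))))))) (T.h (P (nat_lit 0)) (T.h (T.h (P (nat_lit 0)) (T.h (P (nat_lit 19946718446392155570176)) (T.h (P (nat_lit 0)) (M (nat_lit 3402133379809279))))) (T.h (P (nat_lit 0)) (T.h (T.h (P (nat_lit 0)) (M (nat_lit 3801332291633151))) (P (nat_lit 0))))))) (T.h (T.h (P (nat_lit 0)) (T.h (T.h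 (P (nat_lit 18381355421258832978903040)) (T.h (P (nat_lit 0)) (P (nat_lit 36613268445365010432)))) (T.h (P (nat_lit 0)) (P (nat_lit 23203781688285986816))))) (T.h (T.h (T.h (P (nat_lit 0)) (T.h (M (nat_lit 34455666698401404157951)) (T.h (P (nat_lit 0)) (M (nat_lit 584082030985215))))) (T.h (P (nat_lit 0)) (T.h (T.h (P (nat_lit 0)) (P (nat_lit 4932788028899328))) (P (nat_lit 0))))) (T.h (T.h (P (nat_lit 0)) (M (nat_lit 7114211940729094143))) (T.h (T.h (T.h (P (nat_lit 0)) (P (nat_lit 2625970948096000))) (P (nat_lit 0))) (P (nat_lit 0)))))))]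
def lQp_32 : List (T ℤ) := [(P (nat_lit 0)), (P (nat_lit 0)), (P (nat_lit 0)), (P (nat_lit 0)), (P (nat_lit 0)), (T.h (T.h (T.h (P (nat_lit 2172631954831739215942938263552)) (T.h (P (nat_lit 0)) (T.h (P (nat_lit 3113098526908072926904320)) (T.h (P (nat_lit 0)) (P (nat_lit 3128846296169840640)))))) (T.h (P (nat_lit 0)) (T.h (T.h (P (nat_lit 3113098526908072926904320)) (T.h (P (nat_lit 0)) (P (nat_lit 5441742847361417216)))) (T.h (P (nat_lit 0)) (P (nat_lit 3128846296169840640)))))) (T.h (T.h (P (nat_lit 0)) (T.h (T.h (P (nat_lit 0)) (T.h (P (nat_lit 6096585033635921395712)) (T.h (P (nat_lit 0)) (M (nat_lit 6037481093464063))))) (T.h (P (nat_lit 0)) (T.h (T.h (P (nat_lit 0)) (M (nat_lit 6037481093464063))) (P (nat_lit 0)))))) (T.h (T.h (T.h (P (nat_lit 7101092557652367280963584)) (T.h (P (nat_lit 0)) (P (nat_lit 11923797260938248192)))) (T.h (P (nat_lit 0)) (P (nat_lit 11923797260938248192)))) (T.h (T.h (P (nat_lit 0)) (T.h (T.h (P (nat_lit 0))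 (P (nat_lit 19267366617088000))) (P (nat_lit 0)))) (M (nat_lit 3403652489910681599)))))), (P (nat_lit 0)), (P (nat_lit 0))]
def lQp_33 : List (T ℤ) := [(P (nat_lit 0)), (P (nat_lit 0)), (P (nat_lit 0)), (P (nat_lit 0)), (P (nat_lit 0)), (P (nat_lit 0)), (P (nat_lit 0))]

def CQp : List (T ℤ) := lQp_0 ++ (lQp_1 ++ (lQp_2 ++ (lQp_3 ++ (lQp_4 ++ (lQp_5 ++ (lQp_6 ++ (lQp_7 ++ (lQp_8 ++ (lQp_9 ++ (lQp_10 ++ (lQp_11 ++ (lQp_12 ++ (lQp_13 ++ (lQp_14 ++ (lQp_15 ++ (lQp_16 ++ (lQp_17 ++ (lQp_18 ++ (lQp_19 ++ (lQp_20 ++ (lQp_21 ++ (lQp_22 ++ (lQp_23 ++ (lQp_24 ++ (lQp_25 ++ (lQp_26 ++ (lQp_27 ++ (lQp_28 ++ (lQp_29 ++ (lQp_30 ++ (lQp_31 ++ (lQp_32 ++ (lQp_33)))))))))))))))))))))))))))))))))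

/-- norms at radius 1536 -/
def NQp : List ℕ := [(nat_lit 5034231565398356583608483840000), (nat_lit 0), (nat_lit 494649966725257697485269749465088), (nat_lit 1209752703925621907158110094491648), (nat_lit 1042230318488282999046545805934592), (nat_lit 1561142633686734884374514572984320), (nat_lit 540489967827937282607649061339136), (nat_lit 0), (nat_lit 0), (nat_lit 0), (nat_lit 1329510867508963843657844045905920), (nat_lit 2443016901142474456452372489043968), (nat_lit 2365560037786762914955393587216384), (nat_lit 2036310411393265744401247286329344), (nat_lit 757869054131283449247902466048000), (nat_lit 0), (nat_lit 0), (nat_lit 0), (nat_lit 3092065859416344805118412356321280), (nat_lit 3061795933525594193328489118040064), (nat_lit 5800485816561614987856707063906304), (nat_lit 4185316810326793350917961918971904), (nat_lit 768651863051437294372472271929344), (nat_lit 0), (nat_lit 0), (nat_lit 1329510867508963843657844045905920), (nat_lit 3061795933525594193328489118040064),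 (nat_lit 5553719038780126522787153999560704), (nat_lit 5718551467573431181424780170493952), (nat_lit 1623359920587802913536900035772416), (nat_lit 0), (nat_lit 0), (nat_lit 494649966725257697485269749465088), (nat_lit 2443016901142474456452372489043968), (nat_lit 5800485816561614987856707063906304), (nat_lit 5718551467573431181424780170493952), (nat_lit 1855152369477198666651802007502848), (nat_lit 0), (nat_lit 0), (nat_lit 1209752703925621907158110094491648), (nat_lit 2365560037786762914955393587216384), (nat_lit 4185316810326793350917961918971904), (nat_lit 1623359920587802913536900035772416), (nat_lit 0), (nat_lit 0), (nat_lit 1042230318488282999046545805934592), (nat_lit 2036310411393265744401247286329344), (nat_lit 768651863051437294372472271929344), (nat_lit 0), (nat_lit 0), (nat_lit 1561142633686734884374514572984320), (nat_lit 757869054131283449247902466048000), (nat_lit 0), (nat_lit 0), (nat_lit 540489967827937282607649061339136), (nat_lit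 0), (nat_lit 0), (nat_lit 0), (nat_lit 0), (nat_lit 0), (nat_lit 1329510867508963843657844045905920), (nat_lit 2443016901142474456452372489043968), (nat_lit 2365560037786762914955393587216384), (nat_lit 2036310411393265744401247286329344), (nat_lit 757869054131283449247902466048000), (nat_lit 0), (nat_lit 0), (nat_lit 713649321919874451129109963603968), (nat_lit 3345644793722702363331622445514752), (nat_lit 3208387584723476025836895530385408), (nat_lit 7947156881596334411541962920296448), (nat_lit 2349967942813161412841034095788032), (nat_lit 0), (nat_lit 0), (nat_lit 713649321919874451129109963603968), (nat_lit 3569764313049650402427736443322368), (nat_lit 6802551046899441351763203452829696), (nat_lit 7299317567313634708196043459133440), (nat_lit 3175339065348844877886902891446272), (nat_lit 0), (nat_lit 0), (nat_lit 1329510867508963843657844045905920), (nat_lit 3345644793722702363331622445514752), (nat_lit 6802551046899441351763203452829696),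 (nat_lit 9209970643651487644712750788116480), (nat_lit 2070733505592697315115643294449664), (nat_lit 0), (nat_lit 0), (nat_lit 2443016901142474456452372489043968), (nat_lit 3208387584723476025836895530385408), (nat_lit 7299317567313634708196043459133440), (nat_lit 2070733505592697315115643294449664), (nat_lit 0), (nat_lit 0), (nat_lit 2365560037786762914955393587216384), (nat_lit 7947156881596334411541962920296448), (nat_lit 3175339065348844877886902891446272), (nat_lit 0), (nat_lit 0), (nat_lit 2036310411393265744401247286329344), (nat_lit 2349967942813161412841034095788032), (nat_lit 0), (nat_lit 0), (nat_lit 757869054131283449247902466048000), (nat_lit 0), (nat_lit 0), (nat_lit 0), (nat_lit 0), (nat_lit 0), (nat_lit 0), (nat_lit 3092065859416344805118412356321280), (nat_lit 3061795933525594193328489118040064), (nat_lit 5800485816561614987856707063906304), (nat_lit 4185316810326793350917961918971904), (nat_lit 768651863051437294372472271929344),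 (nat_lit 0), (nat_lit 0), (nat_lit 713649321919874451129109963603968), (nat_lit 3569764313049650402427736443322368), (nat_lit 6802551046899441351763203452829696), (nat_lit 7299317567313634708196043459133440), (nat_lit 3175339065348844877886902891446272), (nat_lit 0), (nat_lit 0), (nat_lit 3092065859416344805118412356321280), (nat_lit 3569764313049650402427736443322368), (nat_lit 7602796607040488304265290829529088), (nat_lit 10307990642101157714294412473794560), (nat_lit 2950663527345396033950888698576896), (nat_lit 0), (nat_lit 0), (nat_lit 3061795933525594193328489118040064), (nat_lit 6802551046899441351763203452829696), (nat_lit 10307990642101157714294412473794560), (nat_lit 3375077717050305174312384290881536), (nat_lit 0), (nat_lit 0), (nat_lit 5800485816561614987856707063906304), (nat_lit 7299317567313634708196043459133440), (nat_lit 2950663527345396033950888698576896), (nat_lit 0), (nat_lit 0), (nat_lit 4185316810326793350917961918971904),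 (nat_lit 3175339065348844877886902891446272), (nat_lit 0), (nat_lit 0), (nat_lit 768651863051437294372472271929344), (nat_lit 0), (nat_lit 0), (nat_lit 0), (nat_lit 0), (nat_lit 0), (nat_lit 1329510867508963843657844045905920), (nat_lit 3061795933525594193328489118040064), (nat_lit 5553719038780126522787153999560704), (nat_lit 5718551467573431181424780170493952), (nat_lit 1623359920587802913536900035772416), (nat_lit 0), (nat_lit 0), (nat_lit 1329510867508963843657844045905920), (nat_lit 3345644793722702363331622445514752), (nat_lit 6802551046899441351763203452829696), (nat_lit 9209970643651487644712750788116480), (nat_lit 2070733505592697315115643294449664), (nat_lit 0), (nat_lit 0), (nat_lit 3061795933525594193328489118040064), (nat_lit 6802551046899441351763203452829696), (nat_lit 10307990642101157714294412473794560), (nat_lit 3375077717050305174312384290881536), (nat_lit 0), (nat_lit 0), (nat_lit 5553719038780126522787153999560704), (nat_lit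 9209970643651487644712750788116480), (nat_lit 3375077717050305174312384290881536), (nat_lit 0), (nat_lit 0), (nat_lit 5718551467573431181424780170493952), (nat_lit 2070733505592697315115643294449664), (nat_lit 0), (nat_lit 0), (nat_lit 1623359920587802913536900035772416), (nat_lit 0), (nat_lit 0), (nat_lit 0), (nat_lit 0), (nat_lit 0), (nat_lit 494649966725257697485269749465088), (nat_lit 2443016901142474456452372489043968), (nat_lit 5800485816561614987856707063906304), (nat_lit 5718551467573431181424780170493952), (nat_lit 1855152369477198666651802007502848), (nat_lit 0), (nat_lit 0), (nat_lit 2443016901142474456452372489043968), (nat_lit 3208387584723476025836895530385408), (nat_lit 7299317567313634708196043459133440), (nat_lit 2070733505592697315115643294449664), (nat_lit 0), (nat_lit 0), (nat_lit 5800485816561614987856707063906304), (nat_lit 7299317567313634708196043459133440), (nat_lit 2950663527345396033950888698576896), (nat_lit 0), (nat_lit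 0), (nat_lit 5718551467573431181424780170493952), (nat_lit 2070733505592697315115643294449664), (nat_lit 0), (nat_lit 0), (nat_lit 1855152369477198666651802007502848), (nat_lit 0), (nat_lit 0), (nat_lit 0), (nat_lit 0), (nat_lit 0), (nat_lit 1209752703925621907158110094491648), (nat_lit 2365560037786762914955393587216384), (nat_lit 4185316810326793350917961918971904), (nat_lit 1623359920587802913536900035772416), (nat_lit 0), (nat_lit 0), (nat_lit 2365560037786762914955393587216384), (nat_lit 7947156881596334411541962920296448), (nat_lit 3175339065348844877886902891446272), (nat_lit 0), (nat_lit 0), (nat_lit 4185316810326793350917961918971904), (nat_lit 3175339065348844877886902891446272), (nat_lit 0), (nat_lit 0), (nat_lit 1623359920587802913536900035772416), (nat_lit 0), (nat_lit 0), (nat_lit 0), (nat_lit 0), (nat_lit 0), (nat_lit 1042230318488282999046545805934592), (nat_lit 2036310411393265744401247286329344), (nat_lit 768651863051437294372472271929344),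 (nat_lit 0), (nat_lit 0), (nat_lit 2036310411393265744401247286329344), (nat_lit 2349967942813161412841034095788032), (nat_lit 0), (nat_lit 0), (nat_lit 768651863051437294372472271929344), (nat_lit 0), (nat_lit 0), (nat_lit 0), (nat_lit 0), (nat_lit 0), (nat_lit 1561142633686734884374514572984320), (nat_lit 757869054131283449247902466048000), (nat_lit 0), (nat_lit 0), (nat_lit 757869054131283449247902466048000), (nat_lit 0), (nat_lit 0), (nat_lit 0), (nat_lit 0), (nat_lit 0), (nat_lit 540489967827937282607649061339136), (nat_lit 0), (nat_lit 0), (nat_lit 0), (nat_lit 0), (nat_lit 0), (nat_lit 0), (nat_lit 0), (nat_lit 0), (nat_lit 0)]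


def lQm_0 : List (T ℤ) := [(P (nat_lit 5034231565398356583608483840000)), (P (nat_lit 0)), (T.h (T.h (T.h (M (nat_lit 128120900552666237134832664575)) (T.h (P (nat_lit 0)) (T.h (P (nat_lit 244345310791578333216768)) (T.h (P (nat_lit 0)) (T.h (P (nat_lit 622944617486090240)) (T.h (P (nat_lit 0)) (M (nat_lit 2463187883231)))))))) (T.h (P (nat_lit 0)) (T.h (T.h (M (nat_lit 374856245789455152054271)) (T.h (P (nat_lit 0)) (T.h (M (nat_lit 1937253098095378431)) (T.h (P (nat_lit 0)) (P (nat_lit 3986189105440)))))) (T.h (P (nat_lit 0)) (T.h (T.h (M (nat_lit 3158064110562705407)) (T.h (P (nat_lit 0)) (P (nat_lit 2707914055472)))) (T.h (P (nat_lit 0)) (P (nat_lit 1380574505568)))))))) (T.h (T.h (P (nat_lit 0)) (T.h (T.h (P (nat_lit 0)) (T.h (M (nat_lit 1980045858969294471167)) (T.h (P (nat_lit 0)) (P (nat_lit 3795046400131072))))) (T.h (P (nat_lit 0)) (T.h (T.h (P (nat_lit 0)) (P (nat_lit 2866966031630336))) (P (nat_lit 0)))))) (T.h (T.h (T.h (M (nat_lit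 374856245789455152054271)) (T.h (P (nat_lit 0)) (T.h (M (nat_lit 1937253098095378431)) (T.h (P (nat_lit 0)) (P (nat_lit 3986189105440)))))) (T.h (P (nat_lit 0)) (T.h (T.h (M (nat_lit 1706496107061706751)) (T.h (P (nat_lit 0)) (P (nat_lit 4438957717760)))) (T.h (P (nat_lit 0)) (P (nat_lit 1184705075472)))))) (T.h (T.h (P (nat_lit 0)) (T.h (T.h (P (nat_lit 0)) (P (nat_lit 2866966031630336))) (P (nat_lit 0)))) (T.h (T.h (T.h (M (nat_lit 3158064110562705407)) (T.h (P (nat_lit 0)) (P (nat_lit 2707914055472)))) (T.h (P (nat_lit 0)) (P (nat_lit 1184705075472)))) (T.h (P (nat_lit 0)) (P (nat_lit 1380574505568)))))))), (T.h (T.h (T.h (P (nat_lit 0)) (T.h (P (nat_lit 8133314121465567337798172672)) (T.h (P (nat_lit 0)) (T.h (P (nat_lit 7502146680677998788608)) (T.h (P (nat_lit 0)) (P (nat_lit 7751997443014656))))))) (T.h (P (nat_lit 0)) (T.h (T.h (P (nat_lit 0)) (T.h (P (nat_lit 14007424148448410075136)) (T.h (P (nat_lit 0)) (P (nat_lit 5759402920116224)))))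 (T.h (P (nat_lit 0)) (T.h (T.h (P (nat_lit 0)) (P (nat_lit 13595747359195136))) (P (nat_lit 0))))))) (T.h (T.h (P (nat_lit 0)) (T.h (T.h (M (nat_lit 103747474557095464927231)) (T.h (P (nat_lit 0)) (T.h (M (nat_lit 626996230592921599)) (T.h (P (nat_lit 0)) (P (nat_lit 9410262603584)))))) (T.h (P (nat_lit 0)) (T.h (T.h (P (nat_lit 18511214958193147904)) (T.h (P (nat_lit 0)) (M (nat_lit 7212977179399)))) (T.h (P (nat_lit 0)) (M (nat_lit 2421611621871))))))) (T.h (T.h (T.h (P (nat_lit 0)) (T.h (P (nat_lit 14007424148448410075136)) (T.h (P (nat_lit 0)) (P (nat_lit 5759402920116224))))) (T.h (P (nat_lit 0)) (T.h (T.h (P (nat_lit 0)) (P (nat_lit 5371517203120128))) (P (nat_lit 0))))) (T.h (T.h (P (nat_lit 0)) (T.h (T.h (P (nat_lit 18511214958193147904)) (T.h (P (nat_lit 0)) (M (nat_lit 7212977179399)))) (T.h (P (nat_lit 0)) (M (nat_lit 2964950137423))))) (T.h (T.h (T.h (P (nat_lit 0)) (P (nat_lit 13595747359195136))) (P (nat_lit 0))) (T.h (T.h (P (nat_lit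 0)) (M (nat_lit 2421611621871))) (P (nat_lit 0)))))))), (T.h (T.h (T.h (M (nat_lit 7077145893122241677976934547455)) (T.h (P (nat_lit 0)) (T.h (M (nat_lit 7290160342092228652433407)) (T.h (P (nat_lit 0)) (T.h (P (nat_lit 3847333175462199296)) (T.h (P (nat_lit 0)) (P (nat_lit 5745344476032)))))))) (T.h (P (nat_lit 0)) (T.h (T.h (M (nat_lit 2655676528142138807943167)) (T.h (P (nat_lit 0)) (T.h (M (nat_lit 8677772569119555583)) (T.h (P (nat_lit 0)) (M (nat_lit 6986606627727)))))) (T.h (P (nat_lit 0)) (T.h (T.h (P (nat_lit 1164662279015235584)) (T.h (P (nat_lit 0)) (M (nat_lit 4692097755967)))) (T.h (P (nat_lit 0)) (M (nat_lit 1109493383599)))))))) (T.h (T.h (P (nat_lit 0)) (T.h (T.h (P (nat_lit 0)) (T.h (M (nat_lit 109547411112764375039)) (T.h (P (nat_lit 0)) (M (nat_lit 29576939647533055))))) (T.h (P (nat_lit 0)) (T.h (T.h (P (nat_lit 0)) (P (nat_lit 311553983348736))) (P (nat_lit 0)))))) (T.h (T.h (T.h (M (nat_lit 2655676528142138807943167))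 (T.h (P (nat_lit 0)) (T.h (M (nat_lit 8677772569119555583)) (T.h (P (nat_lit 0)) (M (nat_lit 6986606627727)))))) (T.h (P (nat_lit 0)) (T.h (T.h (M (nat_lit 4091938453573337087)) (T.h (P (nat_lit 0)) (M (nat_lit 10354312704511)))) (T.h (P (nat_lit 0)) (M (nat_lit 1741740014223)))))) (T.h (T.h (P (nat_lit 0)) (T.h (T.h (P (nat_lit 0)) (P (nat_lit 311553983348736))) (P (nat_lit 0)))) (T.h (T.h (T.h (P (nat_lit 1164662279015235584)) (T.h (P (nat_lit 0)) (M (nat_lit 4692097755967)))) (T.h (P (nat_lit 0)) (M (nat_lit 1741740014223)))) (T.h (P (nat_lit 0)) (M (nat_lit 1109493383599)))))))), (T.h (T.h (T.h (P (nat_lit 0)) (T.h (M (nat_lit 8143272965188640913429102591)) (T.h (P (nat_lit 0)) (T.h (M (nat_lit 7541260049816548802559)) (T.h (P (nat_lit 0)) (M (nat_lit 7426438338183167))))))) (T.h (P (nat_lit 0)) (T.h (T.h (P (nat_lit 0)) (T.h (M (nat_lit 14199792496674017902591)) (T.h (P (nat_lit 0)) (M (nat_lit 7349451755749375))))) (T.h (P (nat_lit 0))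 (T.h (T.h (P (nat_lit 0)) (M (nat_lit 9476508357492735))) (P (nat_lit 0))))))) (T.h (T.h (P (nat_lit 0)) (T.h (T.h (M (nat_lit 2475538643173014241279)) (T.h (P (nat_lit 0)) (T.h (M (nat_lit 4175727890098290687)) (T.h (P (nat_lit 0)) (M (nat_lit 18815787711999)))))) (T.h (P (nat_lit 0)) (T.h (T.h (M (nat_lit 20644546159329673215)) (T.h (P (nat_lit 0)) (P (nat_lit 11791955260672)))) (T.h (P (nat_lit 0)) (P (nat_lit 1880274670464))))))) (T.h (T.h (T.h (P (nat_lit 0)) (T.h (M (nat_lit 14199792496674017902591)) (T.h (P (nat_lit 0)) (M (nat_lit 7349451755749375))))) (T.h (P (nat_lit 0)) (T.h (T.h (P (nat_lit 0)) (M (nat_lit 15198055877836799))) (P (nat_lit 0))))) (T.h (T.h (P (nat_lit 0)) (T.h (T.h (M (nat_lit 20644546159329673215)) (T.h (P (nat_lit 0)) (P (nat_lit 11791955260672)))) (T.h (P (nat_lit 0)) (P (nat_lit 5936581743360))))) (T.h (T.h (T.h (P (nat_lit 0)) (M (nat_lit 9476508357492735))) (P (nat_lit 0))) (T.h (T.h (P (nat_lit 0)) (P (nat_lit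 1880274670464))) (P (nat_lit 0)))))))), (T.h (T.h (T.h (P (nat_lit 2172631954831739215942938263552)) (T.h (P (nat_lit 0)) (T.h (P (nat_lit 7101092557652367280963584)) (T.h (P (nat_lit 0)) (M (nat_lit 3403652489910681599)))))) (T.h (P (nat_lit 0)) (T.h (T.h (P (nat_lit 3113098526908072926904320)) (T.h (P (nat_lit 0)) (P (nat_lit 11923797260938248192)))) (T.h (P (nat_lit 0)) (P (nat_lit 3128846296169840640)))))) (T.h (T.h (P (nat_lit 0)) (T.h (T.h (P (nat_lit 0)) (T.h (P (nat_lit 6096585033635921395712)) (T.h (P (nat_lit 0)) (P (nat_lit 19267366617088000))))) (T.h (P (nat_lit 0)) (T.h (T.h (P (nat_lit 0)) (M (nat_lit 6037481093464063))) (P (nat_lit 0)))))) (T.h (T.h (T.h (P (nat_lit 3113098526908072926904320)) (T.h (P (nat_lit 0)) (P (nat_lit 11923797260938248192)))) (T.h (P (nat_lit 0)) (P (nat_lit 5441742847361417216)))) (T.h (T.h (P (nat_lit 0)) (T.h (T.h (P (nat_lit 0)) (M (nat_lit 6037481093464063))) (P (nat_lit 0)))) (P (nat_lit 3128846296169840640)))))),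 (P (nat_lit 0))]
def lQm_1 : List (T ℤ) := [(P (nat_lit 0)), (P (nat_lit 0)), (T.h (T.h (P (nat_lit 0)) (T.h (T.h (P (nat_lit 0)) (T.h (P (nat_lit 8967851728135020949274624)) (T.h (P (nat_lit 0)) (T.h (P (nat_lit 5808715515924840448)) (T.h (P (nat_lit 0)) (M (nat_lit 6298334266991))))))) (T.h (P (nat_lit 0)) (T.h (T.h (P (nat_lit 0)) (T.h (M (nat_lit 1632295132411723775)) (T.h (P (nat_lit 0)) (M (nat_lit 1954457784095))))) (T.h (P (nat_lit 0)) (T.h (T.h (P (nat_lit 0)) (M (nat_lit 1262651453183))) (P (nat_lit 0)))))))) (T.h (T.h (T.h (P (nat_lit 382278186225956246805020672)) (T.h (P (nat_lit 0)) (T.h (M (nat_lit 6393028105238678077439)) (T.h (P (nat_lit 0)) (P (nat_lit 10182874572193792)))))) (T.h (P (nat_lit 0)) (T.h (T.h (P (nat_lit 4917025952193526628352)) (T.h (P (nat_lit 0)) (P (nat_lit 17704818290655232)))) (T.h (P (nat_lit 0)) (P (nat_lit 566836548272128)))))) (T.h (T.h (P (nat_lit 0)) (T.h (T.h (P (nat_lit 0)) (T.h (P (nat_lit 21437333873006477312))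 (T.h (P (nat_lit 0)) (M (nat_lit 14649144822207))))) (T.h (P (nat_lit 0)) (T.h (T.h (P (nat_lit 0)) (P (nat_lit 7808644584816))) (P (nat_lit 0)))))) (T.h (T.h (T.h (M (nat_lit 2314989451720488124415)) (T.h (P (nat_lit 0)) (M (nat_lit 20917731012706303)))) (T.h (P (nat_lit 0)) (P (nat_lit 13535529003122688)))) (T.h (T.h (P (nat_lit 0)) (T.h (T.h (P (nat_lit 0)) (P (nat_lit 9389964963200))) (P (nat_lit 0)))) (M (nat_lit 1940894262886399))))))), (T.h (T.h (P (nat_lit 0)) (T.h (T.h (M (nat_lit 241110326684477318414467071)) (T.h (P (nat_lit 0)) (T.h (P (nat_lit 34978613366834824478720)) (T.h (P (nat_lit 0)) (P (nat_lit 3911014313984000)))))) (T.h (P (nat_lit 0)) (T.h (T.h (P (nat_lit 13210000646600378023936)) (T.h (P (nat_lit 0)) (P (nat_lit 9004722249564160)))) (T.h (P (nat_lit 0)) (P (nat_lit 6511199756582912))))))) (T.h (T.h (T.h (P (nat_lit 0)) (T.h (M (nat_lit 3093988085105477971607551)) (T.h (P (nat_lit 0)) (T.h (M (nat_lit 59942037166122598399))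 (T.h (P (nat_lit 0)) (M (nat_lit 1726339860487))))))) (T.h (P (nat_lit 0)) (T.h (T.h (P (nat_lit 0)) (T.h (P (nat_lit 40575241349622661120)) (T.h (P (nat_lit 0)) (P (nat_lit 9606426461536))))) (T.h (P (nat_lit 0)) (T.h (T.h (P (nat_lit 0)) (M (nat_lit 534616161527))) (P (nat_lit 0))))))) (T.h (T.h (P (nat_lit 0)) (T.h (T.h (M (nat_lit 42574672381838136180735)) (T.h (P (nat_lit 0)) (P (nat_lit 67973831304970240)))) (T.h (P (nat_lit 0)) (M (nat_lit 4128130433777663))))) (T.h (T.h (T.h (P (nat_lit 0)) (T.h (M (nat_lit 31376630254227423231)) (T.h (P (nat_lit 0)) (M (nat_lit 9577825270919))))) (T.h (P (nat_lit 0)) (T.h (T.h (P (nat_lit 0)) (M (nat_lit 9896250995255))) (P (nat_lit 0))))) (T.h (T.h (P (nat_lit 0)) (M (nat_lit 19885691812839423))) (T.h (T.h (T.h (P (nat_lit 0)) (M (nat_lit 617502241471))) (P (nat_lit 0))) (P (nat_lit 0)))))))), (T.h (T.h (P (nat_lit 0)) (T.h (T.h (P (nat_lit 0)) (T.h (M (nat_lit 34245653991761483615174655)) (T.h (P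 (nat_lit 0)) (T.h (P (nat_lit 10955938041285312512)) (T.h (P (nat_lit 0)) (P (nat_lit 11861041236576))))))) (T.h (P (nat_lit 0)) (T.h (T.h (P (nat_lit 0)) (T.h (M (nat_lit 18414233202529927167)) (T.h (P (nat_lit 0)) (P (nat_lit 4308734371088))))) (T.h (P (nat_lit 0)) (T.h (T.h (P (nat_lit 0)) (P (nat_lit 3040955945440))) (P (nat_lit 0)))))))) (T.h (T.h (T.h (P (nat_lit 2070197147691113558778576896)) (T.h (P (nat_lit 0)) (T.h (P (nat_lit 50195457411964089663488)) (T.h (P (nat_lit 0)) (M (nat_lit 1263562713645055)))))) (T.h (P (nat_lit 0)) (T.h (T.h (M (nat_lit 16778713653034530897919)) (T.h (P (nat_lit 0)) (M (nat_lit 41484131990011903)))) (T.h (P (nat_lit 0)) (M (nat_lit 5071474906873855)))))) (T.h (T.h (P (nat_lit 0)) (T.h (T.h (P (nat_lit 0)) (T.h (M (nat_lit 77947200328693710847)) (T.h (P (nat_lit 0)) (P (nat_lit 19135086581520))))) (T.h (P (nat_lit 0)) (T.h (T.h (P (nat_lit 0)) (M (nat_lit 4081026789279))) (P (nat_lit 0)))))) (T.h (T.h (T.h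 (M (nat_lit 1755541345251985719295)) (T.h (P (nat_lit 0)) (P (nat_lit 34533612525666304)))) (T.h (P (nat_lit 0)) (M (nat_lit 8110386514264063)))) (T.h (T.h (P (nat_lit 0)) (T.h (T.h (P (nat_lit 0)) (M (nat_lit 6622509720623))) (P (nat_lit 0)))) (P (nat_lit 2055657166962688))))))), (T.h (T.h (P (nat_lit 0)) (T.h (T.h (P (nat_lit 340004622159091421151232000)) (T.h (P (nat_lit 0)) (T.h (M (nat_lit 24853642217965949550591)) (T.h (P (nat_lit 0)) (P (nat_lit 1447515509358592)))))) (T.h (P (nat_lit 0)) (T.h (T.h (M (nat_lit 8105186808818221187071)) (T.h (P (nat_lit 0)) (M (nat_lit 19166517158117375)))) (T.h (P (nat_lit 0)) (M (nat_lit 8938710452797439))))))) (T.h (T.h (T.h (P (nat_lit 0)) (T.h (P (nat_lit 1960600475507989275475968)) (T.h (P (nat_lit 0)) (T.h (P (nat_lit 48691605605848186880)) (T.h (P (nat_lit 0)) (P (nat_lit 1711617739200))))))) (T.h (P (nat_lit 0)) (T.h (T.h (P (nat_lit 0)) (T.h (P (nat_lit 5346218877418209280)) (T.h (P (nat_lit 0))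 (M (nat_lit 18214856339967))))) (T.h (P (nat_lit 0)) (T.h (T.h (P (nat_lit 0)) (P (nat_lit 5447580911872))) (P (nat_lit 0))))))) (T.h (T.h (P (nat_lit 0)) (T.h (T.h (P (nat_lit 43982686652293688852480)) (T.h (P (nat_lit 0)) (M (nat_lit 60989868666159103)))) (T.h (P (nat_lit 0)) (M (nat_lit 578246134136831))))) (T.h (T.h (T.h (P (nat_lit 0)) (T.h (P (nat_lit 8906692828529164288)) (T.h (P (nat_lit 0)) (M (nat_lit 3170128275711))))) (T.h (P (nat_lit 0)) (T.h (T.h (P (nat_lit 0)) (M (nat_lit 4520161715199))) (P (nat_lit 0))))) (T.h (T.h (P (nat_lit 0)) (P (nat_lit 13389946303381504))) (T.h (T.h (T.h (P (nat_lit 0)) (M (nat_lit 5650489332223))) (P (nat_lit 0))) (P (nat_lit 0)))))))), (T.h (T.h (P (nat_lit 0)) (T.h (T.h (P (nat_lit 0)) (T.h (P (nat_lit 18381355421258832978903040)) (T.h (P (nat_lit 0)) (M (nat_lit 7114211940729094143))))) (T.h (P (nat_lit 0)) (T.h (T.h (P (nat_lit 0)) (P (nat_lit 23203781688285986816))) (P (nat_lit 0)))))) (T.h (T.h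 (T.h (M (nat_lit 2547540643335990035118817279)) (T.h (P (nat_lit 0)) (T.h (M (nat_lit 34455666698401404157951)) (T.h (P (nat_lit 0)) (P (nat_lit 2625970948096000)))))) (T.h (P (nat_lit 0)) (T.h (T.h (P (nat_lit 19946718446392155570176)) (T.h (P (nat_lit 0)) (P (nat_lit 4932788028899328)))) (T.h (P (nat_lit 0)) (M (nat_lit 3801332291633151)))))) (T.h (T.h (P (nat_lit 0)) (T.h (T.h (P (nat_lit 0)) (P (nat_lit 36613268445365010432))) (P (nat_lit 0)))) (T.h (T.h (T.h (M (nat_lit 392783585823669878783)) (T.h (P (nat_lit 0)) (M (nat_lit 584082030985215)))) (T.h (P (nat_lit 0)) (M (nat_lit 3402133379809279)))) (T.h (P (nat_lit 0)) (P (nat_lit 965174953410560))))))), (P (nat_lit 0))]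
def lQm_2 : List (T ℤ) := [(P (nat_lit 0)), (P (nat_lit 0)), (T.h (T.h (T.h (P (nat_lit 2362981971938681723231315951616)) (T.h (P (nat_lit 0)) (T.h (P (nat_lit 2807452377464748726288384)) (T.h (P (nat_lit 0)) (T.h (P (nat_lit 1473600440821088256)) (T.h (P (nat_lit 0)) (P (nat_lit 1881683625120)))))))) (T.h (P (nat_lit 0)) (T.h (T.h (P (nat_lit 2807452377464748726288384)) (T.h (P (nat_lit 0)) (T.h (P (nat_lit 47444693086864670720)) (T.h (P (nat_lit 0)) (M (nat_lit 18230505796079)))))) (T.h (P (nat_lit 0)) (T.h (T.h (P (nat_lit 1473600440821088256)) (T.h (P (nat_lit 0)) (M (nat_lit 18230505796079)))) (T.h (P (nat_lit 0)) (P (nat_lit 1881683625120)))))))) (T.h (T.h (P (nat_lit 0)) (T.h (T.h (P (nat_lit 0)) (T.h (M (nat_lit 50356209117790411423743)) (T.h (P (nat_lit 0)) (P (nat_lit 40788069370691584))))) (T.h (P (nat_lit 0)) (T.h (T.h (P (nat_lit 0)) (P (nat_lit 40788069370691584))) (P (nat_lit 0)))))) (T.h (T.h (T.h (M (nat_lit 7333312270972622047543295))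 (T.h (P (nat_lit 0)) (T.h (M (nat_lit 5859465466359054335)) (T.h (P (nat_lit 0)) (P (nat_lit 1042106905216)))))) (T.h (P (nat_lit 0)) (T.h (T.h (M (nat_lit 5859465466359054335)) (T.h (P (nat_lit 0)) (M (nat_lit 2800608362303)))) (T.h (P (nat_lit 0)) (P (nat_lit 1042106905216)))))) (T.h (T.h (P (nat_lit 0)) (T.h (T.h (P (nat_lit 0)) (M (nat_lit 124448709464817663))) (P (nat_lit 0)))) (T.h (T.h (T.h (P (nat_lit 2883080607284330496)) (T.h (P (nat_lit 0)) (P (nat_lit 5661848525520)))) (T.h (P (nat_lit 0)) (P (nat_lit 5661848525520)))) (T.h (P (nat_lit 0)) (M (nat_lit 938032279007)))))))), (T.h (T.h (T.h (P (nat_lit 0)) (T.h (M (nat_lit 11005145223650182096316530687)) (T.h (P (nat_lit 0)) (T.h (M (nat_lit 5741794418175510577151)) (T.h (P (nat_lit 0)) (M (nat_lit 4029155842719743))))))) (T.h (P (nat_lit 0)) (T.h (T.h (P (nat_lit 0)) (T.h (M (nat_lit 39490502087022798176255)) (T.h (P (nat_lit 0)) (P (nat_lit 31548207555444736))))) (T.h (P (nat_lit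 0)) (T.h (T.h (P (nat_lit 0)) (P (nat_lit 56707233229471744))) (P (nat_lit 0))))))) (T.h (T.h (P (nat_lit 0)) (T.h (T.h (P (nat_lit 17541619870994263948918784)) (T.h (P (nat_lit 0)) (T.h (M (nat_lit 205831188913407918079)) (T.h (P (nat_lit 0)) (M (nat_lit 6301638309735)))))) (T.h (P (nat_lit 0)) (T.h (T.h (P (nat_lit 843162690380627968)) (T.h (P (nat_lit 0)) (P (nat_lit 8975987171200)))) (T.h (P (nat_lit 0)) (M (nat_lit 4719196154695))))))) (T.h (T.h (T.h (P (nat_lit 0)) (T.h (P (nat_lit 20325239418068966309888)) (T.h (P (nat_lit 0)) (M (nat_lit 5139061906145279))))) (T.h (P (nat_lit 0)) (T.h (T.h (P (nat_lit 0)) (M (nat_lit 6667066154123263))) (P (nat_lit 0))))) (T.h (T.h (P (nat_lit 0)) (T.h (T.h (P (nat_lit 49482143641827803136)) (T.h (P (nat_lit 0)) (M (nat_lit 9172057143023)))) (T.h (P (nat_lit 0)) (P (nat_lit 4388847908528))))) (T.h (T.h (T.h (P (nat_lit 0)) (M (nat_lit 280878511489023))) (P (nat_lit 0))) (T.h (T.h (P (nat_lit 0)) (M (nat_lit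 536236352935))) (P (nat_lit 0)))))))), (T.h (T.h (T.h (M (nat_lit 15835445583881214503361032749055)) (T.h (P (nat_lit 0)) (T.h (P (nat_lit 5078850608105316436410368)) (T.h (P (nat_lit 0)) (T.h (M (nat_lit 9751005981399056383)) (T.h (P (nat_lit 0)) (M (nat_lit 8507132336751)))))))) (T.h (P (nat_lit 0)) (T.h (T.h (M (nat_lit 15954732730147194716291071)) (T.h (P (nat_lit 0)) (T.h (M (nat_lit 14048468776677015551)) (T.h (P (nat_lit 0)) (P (nat_lit 37577714858544)))))) (T.h (P (nat_lit 0)) (T.h (T.h (M (nat_lit 19887400155925708799)) (T.h (P (nat_lit 0)) (P (nat_lit 29692863900784)))) (T.h (P (nat_lit 0)) (M (nat_lit 4773610931599)))))))) (T.h (T.h (P (nat_lit 0)) (T.h (T.h (P (nat_lit 0)) (T.h (P (nat_lit 137274296418244684152832)) (T.h (P (nat_lit 0)) (M (nat_lit 89082000361291775))))) (T.h (P (nat_lit 0)) (T.h (T.h (P (nat_lit 0)) (M (nat_lit 38572466754813951))) (P (nat_lit 0)))))) (T.h (T.h (T.h (P (nat_lit 27829060430611715415080960)) (T.h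 (P (nat_lit 0)) (T.h (M (nat_lit 62468435583149539327)) (T.h (P (nat_lit 0)) (M (nat_lit 16452623026111)))))) (T.h (P (nat_lit 0)) (T.h (T.h (M (nat_lit 25355989848697077759)) (T.h (P (nat_lit 0)) (P (nat_lit 14277571269584)))) (T.h (P (nat_lit 0)) (P (nat_lit 15366368407824)))))) (T.h (T.h (P (nat_lit 0)) (T.h (T.h (P (nat_lit 0)) (P (nat_lit 164907919411740672))) (P (nat_lit 0)))) (T.h (T.h (T.h (P (nat_lit 8856044916250247168)) (T.h (P (nat_lit 0)) (M (nat_lit 8671366263727)))) (T.h (P (nat_lit 0)) (M (nat_lit 6732252487071)))) (T.h (P (nat_lit 0)) (M (nat_lit 1807611555343)))))))), (T.h (T.h (T.h (P (nat_lit 0)) (T.h (P (nat_lit 4304148551281740831751405568)) (T.h (P (nat_lit 0)) (T.h (P (nat_lit 16707090653062109331456)) (T.h (P (nat_lit 0)) (P (nat_lit 5776898915696640))))))) (T.h (P (nat_lit 0)) (T.h (T.h (P (nat_lit 0)) (T.h (P (nat_lit 1015608543622518013952)) (T.h (P (nat_lit 0)) (M (nat_lit 52808192605061119))))) (T.h (P (nat_lit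 0)) (T.h (T.h (P (nat_lit 0)) (M (nat_lit 92647970569584639))) (P (nat_lit 0))))))) (T.h (T.h (P (nat_lit 0)) (T.h (T.h (M (nat_lit 10494658871746831442771967)) (T.h (P (nat_lit 0)) (T.h (P (nat_lit 166341497935569616896)) (T.h (P (nat_lit 0)) (P (nat_lit 4401048221824)))))) (T.h (P (nat_lit 0)) (T.h (T.h (P (nat_lit 13063050751532597248)) (T.h (P (nat_lit 0)) (M (nat_lit 337539405119)))) (T.h (P (nat_lit 0)) (P (nat_lit 6448005040192))))))) (T.h (T.h (T.h (P (nat_lit 0)) (T.h (P (nat_lit 25313360426532698324992)) (T.h (P (nat_lit 0)) (P (nat_lit 26109669090557952))))) (T.h (P (nat_lit 0)) (T.h (T.h (P (nat_lit 0)) (P (nat_lit 22080326634962944))) (P (nat_lit 0))))) (T.h (T.h (P (nat_lit 0)) (T.h (T.h (M (nat_lit 34139594727559790591)) (T.h (P (nat_lit 0)) (M (nat_lit 12743561461375)))) (T.h (P (nat_lit 0)) (M (nat_lit 19930650988863))))) (T.h (T.h (T.h (P (nat_lit 0)) (P (nat_lit 39992299983962112))) (P (nat_lit 0))) (T.h (T.h (P (nat_lit 0))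 (P (nat_lit 14192755560128))) (P (nat_lit 0)))))))), (T.h (T.h (T.h (P (nat_lit 848019981192476839092825358336)) (T.h (P (nat_lit 0)) (T.h (M (nat_lit 3438041479358372487626751)) (T.h (P (nat_lit 0)) (P (nat_lit 3512947433225060352)))))) (T.h (P (nat_lit 0)) (T.h (T.h (P (nat_lit 6614624667399100999663616)) (T.h (P (nat_lit 0)) (P (nat_lit 19910758226580209664)))) (T.h (P (nat_lit 0)) (P (nat_lit 30926891337990012928)))))) (T.h (T.h (P (nat_lit 0)) (T.h (T.h (P (nat_lit 0)) (T.h (M (nat_lit 41729021910207325798399)) (T.h (P (nat_lit 0)) (P (nat_lit 4819333066915840))))) (T.h (P (nat_lit 0)) (T.h (T.h (P (nat_lit 0)) (M (nat_lit 5405502678335487))) (P (nat_lit 0)))))) (T.h (T.h (T.h (M (nat_lit 10653213847725133906575359)) (T.h (P (nat_lit 0)) (P (nat_lit 3300389089831813120)))) (T.h (P (nat_lit 0)) (M (nat_lit 3947790254513061887)))) (T.h (T.h (P (nat_lit 0)) (T.h (T.h (P (nat_lit 0)) (P (nat_lit 8839026266406912))) (P (nat_lit 0)))) (M (nat_lit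 11113978180799561727)))))), (P (nat_lit 0))]
def lQm_3 : List (T ℤ) := [(P (nat_lit 0)), (T.h (T.h (P (nat_lit 0)) (T.h (T.h (P (nat_lit 0)) (T.h (P (nat_lit 8967851728135020949274624)) (T.h (P (nat_lit 0)) (T.h (M (nat_lit 1632295132411723775)) (T.h (P (nat_lit 0)) (M (nat_lit 1262651453183))))))) (T.h (P (nat_lit 0)) (T.h (T.h (P (nat_lit 0)) (T.h (P (nat_lit 5808715515924840448)) (T.h (P (nat_lit 0)) (M (nat_lit 1954457784095))))) (T.h (P (nat_lit 0)) (T.h (T.h (P (nat_lit 0)) (M (nat_lit 6298334266991))) (P (nat_lit 0)))))))) (T.h (T.h (T.h (P (nat_lit 382278186225956246805020672)) (T.h (P (nat_lit 0)) (T.h (P (nat_lit 4917025952193526628352)) (T.h (P (nat_lit 0)) (P (nat_lit 566836548272128)))))) (T.h (P (nat_lit 0)) (T.h (T.h (M (nat_lit 6393028105238678077439)) (T.h (P (nat_lit 0)) (P (nat_lit 17704818290655232)))) (T.h (P (nat_lit 0)) (P (nat_lit 10182874572193792)))))) (T.h (T.h (P (nat_lit 0)) (T.h (T.h (P (nat_lit 0)) (T.h (P (nat_lit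 21437333873006477312)) (T.h (P (nat_lit 0)) (P (nat_lit 7808644584816))))) (T.h (P (nat_lit 0)) (T.h (T.h (P (nat_lit 0)) (M (nat_lit 14649144822207))) (P (nat_lit 0)))))) (T.h (T.h (T.h (M (nat_lit 2314989451720488124415)) (T.h (P (nat_lit 0)) (P (nat_lit 13535529003122688)))) (T.h (P (nat_lit 0)) (M (nat_lit 20917731012706303)))) (T.h (T.h (P (nat_lit 0)) (T.h (T.h (P (nat_lit 0)) (P (nat_lit 9389964963200))) (P (nat_lit 0)))) (M (nat_lit 1940894262886399))))))), (T.h (T.h (P (nat_lit 0)) (T.h (T.h (M (nat_lit 11005145223650182096316530687)) (T.h (P (nat_lit 0)) (T.h (M (nat_lit 39490502087022798176255)) (T.h (P (nat_lit 0)) (P (nat_lit 56707233229471744)))))) (T.h (P (nat_lit 0)) (T.h (T.h (M (nat_lit 5741794418175510577151)) (T.h (P (nat_lit 0)) (P (nat_lit 31548207555444736)))) (T.h (P (nat_lit 0)) (M (nat_lit 4029155842719743))))))) (T.h (T.h (T.h (P (nat_lit 0)) (T.h (P (nat_lit 17541619870994263948918784)) (T.h (P (nat_lit 0)) (T.h (P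 (nat_lit 843162690380627968)) (T.h (P (nat_lit 0)) (M (nat_lit 4719196154695))))))) (T.h (P (nat_lit 0)) (T.h (T.h (P (nat_lit 0)) (T.h (M (nat_lit 205831188913407918079)) (T.h (P (nat_lit 0)) (P (nat_lit 8975987171200))))) (T.h (P (nat_lit 0)) (T.h (T.h (P (nat_lit 0)) (M (nat_lit 6301638309735))) (P (nat_lit 0))))))) (T.h (T.h (P (nat_lit 0)) (T.h (T.h (P (nat_lit 20325239418068966309888)) (T.h (P (nat_lit 0)) (M (nat_lit 6667066154123263)))) (T.h (P (nat_lit 0)) (M (nat_lit 5139061906145279))))) (T.h (T.h (T.h (P (nat_lit 0)) (T.h (P (nat_lit 49482143641827803136)) (T.h (P (nat_lit 0)) (P (nat_lit 4388847908528))))) (T.h (P (nat_lit 0)) (T.h (T.h (P (nat_lit 0)) (M (nat_lit 9172057143023))) (P (nat_lit 0))))) (T.h (T.h (P (nat_lit 0)) (M (nat_lit 280878511489023))) (T.h (T.h (T.h (P (nat_lit 0)) (M (nat_lit 536236352935))) (P (nat_lit 0))) (P (nat_lit 0)))))))), (T.h (T.h (P (nat_lit 0)) (T.h (T.h (P (nat_lit 0)) (T.h (P (nat_lit 8447821923587479908122624))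 (T.h (P (nat_lit 0)) (T.h (P (nat_lit 18426835693675216896)) (T.h (P (nat_lit 0)) (P (nat_lit 14337066975168))))))) (T.h (P (nat_lit 0)) (T.h (T.h (P (nat_lit 0)) (T.h (P (nat_lit 18426835693675216896)) (T.h (P (nat_lit 0)) (P (nat_lit 43766994916064))))) (T.h (P (nat_lit 0)) (T.h (T.h (P (nat_lit 0)) (P (nat_lit 14337066975168))) (P (nat_lit 0)))))))) (T.h (T.h (T.h (M (nat_lit 16412601912802300674357329919)) (T.h (P (nat_lit 0)) (T.h (P (nat_lit 66547056180224958922752)) (T.h (P (nat_lit 0)) (P (nat_lit 26772851980058624)))))) (T.h (P (nat_lit 0)) (T.h (T.h (P (nat_lit 66547056180224958922752)) (T.h (P (nat_lit 0)) (M (nat_lit 128055293209313279)))) (T.h (P (nat_lit 0)) (P (nat_lit 26772851980058624)))))) (T.h (T.h (P (nat_lit 0)) (T.h (T.h (P (nat_lit 0)) (T.h (M (nat_lit 138309133156342562815)) (T.h (P (nat_lit 0)) (M (nat_lit 15616341643055))))) (T.h (P (nat_lit 0)) (T.h (T.h (P (nat_lit 0)) (M (nat_lit 15616341643055))) (P (nat_lit 0))))))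 (T.h (T.h (T.h (M (nat_lit 24913952668255625674751)) (T.h (P (nat_lit 0)) (P (nat_lit 36138227289112576)))) (T.h (P (nat_lit 0)) (P (nat_lit 36138227289112576)))) (T.h (T.h (P (nat_lit 0)) (T.h (T.h (P (nat_lit 0)) (M (nat_lit 28206262997471))) (P (nat_lit 0)))) (P (nat_lit 6836981340864512))))))), (T.h (T.h (P (nat_lit 0)) (T.h (T.h (P (nat_lit 7180220735172970116427022336)) (T.h (P (nat_lit 0)) (T.h (P (nat_lit 81238814070020872601600)) (T.h (P (nat_lit 0)) (M (nat_lit 75530142658265087)))))) (T.h (P (nat_lit 0)) (T.h (T.h (M (nat_lit 44230263680022452633599)) (T.h (P (nat_lit 0)) (M (nat_lit 80256168116682751)))) (T.h (P (nat_lit 0)) (M (nat_lit 1462772452884479))))))) (T.h (T.h (T.h (P (nat_lit 0)) (T.h (M (nat_lit 57987338973388860091793407)) (T.h (P (nat_lit 0)) (T.h (P (nat_lit 57443828061226139648)) (T.h (P (nat_lit 0)) (P (nat_lit 26887879288832))))))) (T.h (P (nat_lit 0)) (T.h (T.h (P (nat_lit 0)) (T.h (P (nat_lit 82087647970215329792))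 (T.h (P (nat_lit 0)) (M (nat_lit 9298428385343))))) (T.h (P (nat_lit 0)) (T.h (T.h (P (nat_lit 0)) (P (nat_lit 67063572229184))) (P (nat_lit 0))))))) (T.h (T.h (P (nat_lit 0)) (T.h (T.h (P (nat_lit 15475025479053248299008)) (T.h (P (nat_lit 0)) (M (nat_lit 15995042885500927)))) (T.h (P (nat_lit 0)) (P (nat_lit 21552170617831424))))) (T.h (T.h (T.h (P (nat_lit 0)) (T.h (M (nat_lit 117840652395666735103)) (T.h (P (nat_lit 0)) (M (nat_lit 1913329872703))))) (T.h (P (nat_lit 0)) (T.h (T.h (P (nat_lit 0)) (P (nat_lit 19829994406848))) (P (nat_lit 0))))) (T.h (T.h (P (nat_lit 0)) (P (nat_lit 20715710340333568))) (T.h (T.h (T.h (P (nat_lit 0)) (M (nat_lit 10910827925823))) (P (nat_lit 0))) (P (nat_lit 0)))))))), (T.h (T.h (P (nat_lit 0)) (T.h (T.h (P (nat_lit 0)) (T.h (M (nat_lit 18571853267465370509246463)) (T.h (P (nat_lit 0)) (P (nat_lit 35935822232235802624))))) (T.h (P (nat_lit 0)) (T.h (T.h (P (nat_lit 0)) (P (nat_lit 76155881187738386432)))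 (P (nat_lit 0)))))) (T.h (T.h (T.h (P (nat_lit 6099708548673304496447684608)) (T.h (P (nat_lit 0)) (T.h (M (nat_lit 39385658327280031629311)) (T.h (P (nat_lit 0)) (M (nat_lit 35543153834491903)))))) (T.h (P (nat_lit 0)) (T.h (T.h (P (nat_lit 914033056629670281216)) (T.h (P (nat_lit 0)) (P (nat_lit 7400423263076352)))) (T.h (P (nat_lit 0)) (M (nat_lit 25421720942116863)))))) (T.h (T.h (P (nat_lit 0)) (T.h (T.h (P (nat_lit 0)) (M (nat_lit 2818795405779664895))) (P (nat_lit 0)))) (T.h (T.h (T.h (P (nat_lit 17907237936627615531008)) (T.h (P (nat_lit 0)) (P (nat_lit 4731789076348928)))) (T.h (P (nat_lit 0)) (P (nat_lit 10230261391294464)))) (T.h (P (nat_lit 0)) (M (nat_lit 840173474381823))))))), (P (nat_lit 0)), (P (nat_lit 0))]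
def lQm_4 : List (T ℤ) := [(T.h (T.h (T.h (M (nat_lit 128120900552666237134832664575)) (T.h (P (nat_lit 0)) (T.h (M (nat_lit 374856245789455152054271)) (T.h (P (nat_lit 0)) (T.h (M (nat_lit 3158064110562705407)) (T.h (P (nat_lit 0)) (P (nat_lit 1380574505568)))))))) (T.h (P (nat_lit 0)) (T.h (T.h (P (nat_lit 244345310791578333216768)) (T.h (P (nat_lit 0)) (T.h (M (nat_lit 1937253098095378431)) (T.h (P (nat_lit 0)) (P (nat_lit 2707914055472)))))) (T.h (P (nat_lit 0)) (T.h (T.h (P (nat_lit 622944617486090240)) (T.h (P (nat_lit 0)) (P (nat_lit 3986189105440)))) (T.h (P (nat_lit 0)) (M (nat_lit 2463187883231)))))))) (T.h (T.h (P (nat_lit 0)) (T.h (T.h (P (nat_lit 0)) (T.h (M (nat_lit 1980045858969294471167)) (T.h (P (nat_lit 0)) (P (nat_lit 2866966031630336))))) (T.h (P (nat_lit 0)) (T.h (T.h (P (nat_lit 0)) (P (nat_lit 3795046400131072))) (P (nat_lit 0)))))) (T.h (T.h (T.h (M (nat_lit 374856245789455152054271)) (T.h (P (nat_lit 0)) (T.h (M (nat_lit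 1706496107061706751)) (T.h (P (nat_lit 0)) (P (nat_lit 1184705075472)))))) (T.h (P (nat_lit 0)) (T.h (T.h (M (nat_lit 1937253098095378431)) (T.h (P (nat_lit 0)) (P (nat_lit 4438957717760)))) (T.h (P (nat_lit 0)) (P (nat_lit 3986189105440)))))) (T.h (T.h (P (nat_lit 0)) (T.h (T.h (P (nat_lit 0)) (P (nat_lit 2866966031630336))) (P (nat_lit 0)))) (T.h (T.h (T.h (M (nat_lit 3158064110562705407)) (T.h (P (nat_lit 0)) (P (nat_lit 1184705075472)))) (T.h (P (nat_lit 0)) (P (nat_lit 2707914055472)))) (T.h (P (nat_lit 0)) (P (nat_lit 1380574505568)))))))), (T.h (T.h (T.h (P (nat_lit 0)) (T.h (M (nat_lit 241110326684477318414467071)) (T.h (P (nat_lit 0)) (T.h (P (nat_lit 13210000646600378023936)) (T.h (P (nat_lit 0)) (P (nat_lit 6511199756582912))))))) (T.h (P (nat_lit 0)) (T.h (T.h (P (nat_lit 0)) (T.h (P (nat_lit 34978613366834824478720)) (T.h (P (nat_lit 0)) (P (nat_lit 9004722249564160))))) (T.h (P (nat_lit 0)) (T.h (T.h (P (nat_lit 0)) (P (nat_lit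 3911014313984000))) (P (nat_lit 0))))))) (T.h (T.h (P (nat_lit 0)) (T.h (T.h (M (nat_lit 3093988085105477971607551)) (T.h (P (nat_lit 0)) (T.h (P (nat_lit 40575241349622661120)) (T.h (P (nat_lit 0)) (M (nat_lit 534616161527)))))) (T.h (P (nat_lit 0)) (T.h (T.h (M (nat_lit 59942037166122598399)) (T.h (P (nat_lit 0)) (P (nat_lit 9606426461536)))) (T.h (P (nat_lit 0)) (M (nat_lit 1726339860487))))))) (T.h (T.h (T.h (P (nat_lit 0)) (T.h (M (nat_lit 42574672381838136180735)) (T.h (P (nat_lit 0)) (M (nat_lit 4128130433777663))))) (T.h (P (nat_lit 0)) (T.h (T.h (P (nat_lit 0)) (P (nat_lit 67973831304970240))) (P (nat_lit 0))))) (T.h (T.h (P (nat_lit 0)) (T.h (T.h (M (nat_lit 31376630254227423231)) (T.h (P (nat_lit 0)) (M (nat_lit 9896250995255)))) (T.h (P (nat_lit 0)) (M (nat_lit 9577825270919))))) (T.h (T.h (T.h (P (nat_lit 0)) (M (nat_lit 19885691812839423))) (P (nat_lit 0))) (T.h (T.h (P (nat_lit 0)) (M (nat_lit 617502241471))) (P (nat_lit 0)))))))),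 (T.h (T.h (T.h (M (nat_lit 15835445583881214503361032749055)) (T.h (P (nat_lit 0)) (T.h (M (nat_lit 15954732730147194716291071)) (T.h (P (nat_lit 0)) (T.h (M (nat_lit 19887400155925708799)) (T.h (P (nat_lit 0)) (M (nat_lit 4773610931599)))))))) (T.h (P (nat_lit 0)) (T.h (T.h (P (nat_lit 5078850608105316436410368)) (T.h (P (nat_lit 0)) (T.h (M (nat_lit 14048468776677015551)) (T.h (P (nat_lit 0)) (P (nat_lit 29692863900784)))))) (T.h (P (nat_lit 0)) (T.h (T.h (M (nat_lit 9751005981399056383)) (T.h (P (nat_lit 0)) (P (nat_lit 37577714858544)))) (T.h (P (nat_lit 0)) (M (nat_lit 8507132336751)))))))) (T.h (T.h (P (nat_lit 0)) (T.h (T.h (P (nat_lit 0)) (T.h (P (nat_lit 137274296418244684152832)) (T.h (P (nat_lit 0)) (M (nat_lit 38572466754813951))))) (T.h (P (nat_lit 0)) (T.h (T.h (P (nat_lit 0)) (M (nat_lit 89082000361291775))) (P (nat_lit 0)))))) (T.h (T.h (T.h (P (nat_lit 27829060430611715415080960)) (T.h (P (nat_lit 0)) (T.h (M (nat_lit 25355989848697077759))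 (T.h (P (nat_lit 0)) (P (nat_lit 15366368407824)))))) (T.h (P (nat_lit 0)) (T.h (T.h (M (nat_lit 62468435583149539327)) (T.h (P (nat_lit 0)) (P (nat_lit 14277571269584)))) (T.h (P (nat_lit 0)) (M (nat_lit 16452623026111)))))) (T.h (T.h (P (nat_lit 0)) (T.h (T.h (P (nat_lit 0)) (P (nat_lit 164907919411740672))) (P (nat_lit 0)))) (T.h (T.h (T.h (P (nat_lit 8856044916250247168)) (T.h (P (nat_lit 0)) (M (nat_lit 6732252487071)))) (T.h (P (nat_lit 0)) (M (nat_lit 8671366263727)))) (T.h (P (nat_lit 0)) (M (nat_lit 1807611555343)))))))), (T.h (T.h (T.h (P (nat_lit 0)) (T.h (P (nat_lit 7180220735172970116427022336)) (T.h (P (nat_lit 0)) (T.h (M (nat_lit 44230263680022452633599)) (T.h (P (nat_lit 0)) (M (nat_lit 1462772452884479))))))) (T.h (P (nat_lit 0)) (T.h (T.h (P (nat_lit 0)) (T.h (P (nat_lit 81238814070020872601600)) (T.h (P (nat_lit 0)) (M (nat_lit 80256168116682751))))) (T.h (P (nat_lit 0)) (T.h (T.h (P (nat_lit 0)) (M (nat_lit 75530142658265087)))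 (P (nat_lit 0))))))) (T.h (T.h (P (nat_lit 0)) (T.h (T.h (M (nat_lit 57987338973388860091793407)) (T.h (P (nat_lit 0)) (T.h (P (nat_lit 82087647970215329792)) (T.h (P (nat_lit 0)) (P (nat_lit 67063572229184)))))) (T.h (P (nat_lit 0)) (T.h (T.h (P (nat_lit 57443828061226139648)) (T.h (P (nat_lit 0)) (M (nat_lit 9298428385343)))) (T.h (P (nat_lit 0)) (P (nat_lit 26887879288832))))))) (T.h (T.h (T.h (P (nat_lit 0)) (T.h (P (nat_lit 15475025479053248299008)) (T.h (P (nat_lit 0)) (P (nat_lit 21552170617831424))))) (T.h (P (nat_lit 0)) (T.h (T.h (P (nat_lit 0)) (M (nat_lit 15995042885500927))) (P (nat_lit 0))))) (T.h (T.h (P (nat_lit 0)) (T.h (T.h (M (nat_lit 117840652395666735103)) (T.h (P (nat_lit 0)) (P (nat_lit 19829994406848)))) (T.h (P (nat_lit 0)) (M (nat_lit 1913329872703))))) (T.h (T.h (T.h (P (nat_lit 0)) (P (nat_lit 20715710340333568))) (P (nat_lit 0))) (T.h (T.h (P (nat_lit 0)) (M (nat_lit 10910827925823))) (P (nat_lit 0)))))))), (T.h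 (T.h (T.h (M (nat_lit 984195350018325543104137920511)) (T.h (P (nat_lit 0)) (T.h (P (nat_lit 15230894307888454317375488)) (T.h (P (nat_lit 0)) (P (nat_lit 15566893289482223616)))))) (T.h (P (nat_lit 0)) (T.h (T.h (P (nat_lit 15230894307888454317375488)) (T.h (P (nat_lit 0)) (P (nat_lit 10893491707010088960)))) (T.h (P (nat_lit 0)) (P (nat_lit 15566893289482223616)))))) (T.h (T.h (P (nat_lit 0)) (T.h (T.h (P (nat_lit 0)) (T.h (P (nat_lit 5141982376459845500928)) (T.h (P (nat_lit 0)) (M (nat_lit 63912302629388287))))) (T.h (P (nat_lit 0)) (T.h (T.h (P (nat_lit 0)) (M (nat_lit 63912302629388287))) (P (nat_lit 0)))))) (T.h (T.h (T.h (P (nat_lit 353537135146806275997696)) (T.h (P (nat_lit 0)) (M (nat_lit 21389219787958124543)))) (T.h (P (nat_lit 0)) (M (nat_lit 21389219787958124543)))) (T.h (T.h (P (nat_lit 0)) (T.h (T.h (P (nat_lit 0)) (M (nat_lit 20305914272612351))) (P (nat_lit 0)))) (M (nat_lit 4364305523307184127)))))), (P (nat_lit 0)), (P (nat_lit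 0)), (T.h (T.h (P (nat_lit 0)) (T.h (T.h (P (nat_lit 8133314121465567337798172672)) (T.h (P (nat_lit 0)) (T.h (P (nat_lit 14007424148448410075136)) (T.h (P (nat_lit 0)) (P (nat_lit 13595747359195136)))))) (T.h (P (nat_lit 0)) (T.h (T.h (P (nat_lit 7502146680677998788608)) (T.h (P (nat_lit 0)) (P (nat_lit 5759402920116224)))) (T.h (P (nat_lit 0)) (P (nat_lit 7751997443014656))))))) (T.h (T.h (T.h (P (nat_lit 0)) (T.h (M (nat_lit 103747474557095464927231)) (T.h (P (nat_lit 0)) (T.h (P (nat_lit 18511214958193147904)) (T.h (P (nat_lit 0)) (M (nat_lit 2421611621871))))))) (T.h (P (nat_lit 0)) (T.h (T.h (P (nat_lit 0)) (T.h (M (nat_lit 626996230592921599)) (T.h (P (nat_lit 0)) (M (nat_lit 7212977179399))))) (T.h (P (nat_lit 0)) (T.h (T.h (P (nat_lit 0)) (P (nat_lit 9410262603584))) (P (nat_lit 0))))))) (T.h (T.h (P (nat_lit 0)) (T.h (T.h (P (nat_lit 14007424148448410075136)) (T.h (P (nat_lit 0)) (P (nat_lit 5371517203120128)))) (T.h (P (nat_lit 0))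 (P (nat_lit 5759402920116224))))) (T.h (T.h (T.h (P (nat_lit 0)) (T.h (P (nat_lit 18511214958193147904)) (T.h (P (nat_lit 0)) (M (nat_lit 2964950137423))))) (T.h (P (nat_lit 0)) (T.h (T.h (P (nat_lit 0)) (M (nat_lit 7212977179399))) (P (nat_lit 0))))) (T.h (T.h (P (nat_lit 0)) (P (nat_lit 13595747359195136))) (T.h (T.h (T.h (P (nat_lit 0)) (M (nat_lit 2421611621871))) (P (nat_lit 0))) (P (nat_lit 0))))))))]
def lQm_5 : List (T ℤ) := [(T.h (T.h (P (nat_lit 0)) (T.h (T.h (P (nat_lit 0)) (T.h (M (nat_lit 34245653991761483615174655)) (T.h (P (nat_lit 0)) (T.h (M (nat_lit 18414233202529927167)) (T.h (P (nat_lit 0)) (P (nat_lit 3040955945440))))))) (T.h (P (nat_lit 0)) (T.h (T.h (P (nat_lit 0)) (T.h (P (nat_lit 10955938041285312512)) (T.h (P (nat_lit 0)) (P (nat_lit 4308734371088))))) (T.h (P (nat_lit 0)) (T.h (T.h (P (nat_lit 0)) (P (nat_lit 11861041236576))) (P (nat_lit 0)))))))) (T.h (T.h (T.h (P (nat_lit 2070197147691113558778576896)) (T.h (P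 (nat_lit 0)) (T.h (M (nat_lit 16778713653034530897919)) (T.h (P (nat_lit 0)) (M (nat_lit 5071474906873855)))))) (T.h (P (nat_lit 0)) (T.h (T.h (P (nat_lit 50195457411964089663488)) (T.h (P (nat_lit 0)) (M (nat_lit 41484131990011903)))) (T.h (P (nat_lit 0)) (M (nat_lit 1263562713645055)))))) (T.h (T.h (P (nat_lit 0)) (T.h (T.h (P (nat_lit 0)) (T.h (M (nat_lit 77947200328693710847)) (T.h (P (nat_lit 0)) (M (nat_lit 4081026789279))))) (T.h (P (nat_lit 0)) (T.h (T.h (P (nat_lit 0)) (P (nat_lit 19135086581520))) (P (nat_lit 0)))))) (T.h (T.h (T.h (M (nat_lit 1755541345251985719295)) (T.h (P (nat_lit 0)) (M (nat_lit 8110386514264063)))) (T.h (P (nat_lit 0)) (P (nat_lit 34533612525666304)))) (T.h (T.h (P (nat_lit 0)) (T.h (T.h (P (nat_lit 0)) (M (nat_lit 6622509720623))) (P (nat_lit 0)))) (P (nat_lit 2055657166962688))))))), (T.h (T.h (P (nat_lit 0)) (T.h (T.h (P (nat_lit 4304148551281740831751405568)) (T.h (P (nat_lit 0)) (T.h (P (nat_lit 1015608543622518013952))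 (T.h (P (nat_lit 0)) (M (nat_lit 92647970569584639)))))) (T.h (P (nat_lit 0)) (T.h (T.h (P (nat_lit 16707090653062109331456)) (T.h (P (nat_lit 0)) (M (nat_lit 52808192605061119)))) (T.h (P (nat_lit 0)) (P (nat_lit 5776898915696640))))))) (T.h (T.h (T.h (P (nat_lit 0)) (T.h (M (nat_lit 10494658871746831442771967)) (T.h (P (nat_lit 0)) (T.h (P (nat_lit 13063050751532597248)) (T.h (P (nat_lit 0)) (P (nat_lit 6448005040192))))))) (T.h (P (nat_lit 0)) (T.h (T.h (P (nat_lit 0)) (T.h (P (nat_lit 166341497935569616896)) (T.h (P (nat_lit 0)) (M (nat_lit 337539405119))))) (T.h (P (nat_lit 0)) (T.h (T.h (P (nat_lit 0)) (P (nat_lit 4401048221824))) (P (nat_lit 0))))))) (T.h (T.h (P (nat_lit 0)) (T.h (T.h (P (nat_lit 25313360426532698324992)) (T.h (P (nat_lit 0)) (P (nat_lit 22080326634962944)))) (T.h (P (nat_lit 0)) (P (nat_lit 26109669090557952))))) (T.h (T.h (T.h (P (nat_lit 0)) (T.h (M (nat_lit 34139594727559790591)) (T.h (P (nat_lit 0)) (M (nat_lit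 19930650988863))))) (T.h (P (nat_lit 0)) (T.h (T.h (P (nat_lit 0)) (M (nat_lit 12743561461375))) (P (nat_lit 0))))) (T.h (T.h (P (nat_lit 0)) (P (nat_lit 39992299983962112))) (T.h (T.h (T.h (P (nat_lit 0)) (P (nat_lit 14192755560128))) (P (nat_lit 0))) (P (nat_lit 0)))))))), (T.h (T.h (P (nat_lit 0)) (T.h (T.h (P (nat_lit 0)) (T.h (M (nat_lit 18571853267465370509246463)) (T.h (P (nat_lit 0)) (P (nat_lit 76155881187738386432))))) (T.h (P (nat_lit 0)) (T.h (T.h (P (nat_lit 0)) (P (nat_lit 35935822232235802624))) (P (nat_lit 0)))))) (T.h (T.h (T.h (P (nat_lit 6099708548673304496447684608)) (T.h (P (nat_lit 0)) (T.h (P (nat_lit 914033056629670281216)) (T.h (P (nat_lit 0)) (M (nat_lit 25421720942116863)))))) (T.h (P (nat_lit 0)) (T.h (T.h (M (nat_lit 39385658327280031629311)) (T.h (P (nat_lit 0)) (P (nat_lit 7400423263076352)))) (T.h (P (nat_lit 0)) (M (nat_lit 35543153834491903)))))) (T.h (T.h (P (nat_lit 0)) (T.h (T.h (P (nat_lit 0)) (M (nat_lit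 2818795405779664895))) (P (nat_lit 0)))) (T.h (T.h (T.h (P (nat_lit 17907237936627615531008)) (T.h (P (nat_lit 0)) (P (nat_lit 10230261391294464)))) (T.h (P (nat_lit 0)) (P (nat_lit 4731789076348928)))) (T.h (P (nat_lit 0)) (M (nat_lit 840173474381823))))))), (P (nat_lit 0)), (P (nat_lit 0)), (T.h (T.h (T.h (M (nat_lit 7077145893122241677976934547455)) (T.h (P (nat_lit 0)) (T.h (M (nat_lit 2655676528142138807943167)) (T.h (P (nat_lit 0)) (T.h (P (nat_lit 1164662279015235584)) (T.h (P (nat_lit 0)) (M (nat_lit 1109493383599)))))))) (T.h (P (nat_lit 0)) (T.h (T.h (M (nat_lit 7290160342092228652433407)) (T.h (P (nat_lit 0)) (T.h (M (nat_lit 8677772569119555583)) (T.h (P (nat_lit 0)) (M (nat_lit 4692097755967)))))) (T.h (P (nat_lit 0)) (T.h (T.h (P (nat_lit 3847333175462199296)) (T.h (P (nat_lit 0)) (M (nat_lit 6986606627727)))) (T.h (P (nat_lit 0)) (P (nat_lit 5745344476032)))))))) (T.h (T.h (P (nat_lit 0)) (T.h (T.h (P (nat_lit 0)) (T.h (M (nat_lit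 109547411112764375039)) (T.h (P (nat_lit 0)) (P (nat_lit 311553983348736))))) (T.h (P (nat_lit 0)) (T.h (T.h (P (nat_lit 0)) (M (nat_lit 29576939647533055))) (P (nat_lit 0)))))) (T.h (T.h (T.h (M (nat_lit 2655676528142138807943167)) (T.h (P (nat_lit 0)) (T.h (M (nat_lit 4091938453573337087)) (T.h (P (nat_lit 0)) (M (nat_lit 1741740014223)))))) (T.h (P (nat_lit 0)) (T.h (T.h (M (nat_lit 8677772569119555583)) (T.h (P (nat_lit 0)) (M (nat_lit 10354312704511)))) (T.h (P (nat_lit 0)) (M (nat_lit 6986606627727)))))) (T.h (T.h (P (nat_lit 0)) (T.h (T.h (P (nat_lit 0)) (P (nat_lit 311553983348736))) (P (nat_lit 0)))) (T.h (T.h (T.h (P (nat_lit 1164662279015235584)) (T.h (P (nat_lit 0)) (M (nat_lit 1741740014223)))) (T.h (P (nat_lit 0)) (M (nat_lit 4692097755967)))) (T.h (P (nat_lit 0)) (M (nat_lit 1109493383599)))))))), (T.h (T.h (T.h (P (nat_lit 0)) (T.h (P (nat_lit 340004622159091421151232000)) (T.h (P (nat_lit 0)) (T.h (M (nat_lit 8105186808818221187071))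 (T.h (P (nat_lit 0)) (M (nat_lit 8938710452797439))))))) (T.h (P (nat_lit 0)) (T.h (T.h (P (nat_lit 0)) (T.h (M (nat_lit 24853642217965949550591)) (T.h (P (nat_lit 0)) (M (nat_lit 19166517158117375))))) (T.h (P (nat_lit 0)) (T.h (T.h (P (nat_lit 0)) (P (nat_lit 1447515509358592))) (P (nat_lit 0))))))) (T.h (T.h (P (nat_lit 0)) (T.h (T.h (P (nat_lit 1960600475507989275475968)) (T.h (P (nat_lit 0)) (T.h (P (nat_lit 5346218877418209280)) (T.h (P (nat_lit 0)) (P (nat_lit 5447580911872)))))) (T.h (P (nat_lit 0)) (T.h (T.h (P (nat_lit 48691605605848186880)) (T.h (P (nat_lit 0)) (M (nat_lit 18214856339967)))) (T.h (P (nat_lit 0)) (P (nat_lit 1711617739200))))))) (T.h (T.h (T.h (P (nat_lit 0)) (T.h (P (nat_lit 43982686652293688852480)) (T.h (P (nat_lit 0)) (M (nat_lit 578246134136831))))) (T.h (P (nat_lit 0)) (T.h (T.h (P (nat_lit 0)) (M (nat_lit 60989868666159103))) (P (nat_lit 0))))) (T.h (T.h (P (nat_lit 0)) (T.h (T.h (P (nat_lit 8906692828529164288))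 (T.h (P (nat_lit 0)) (M (nat_lit 4520161715199)))) (T.h (P (nat_lit 0)) (M (nat_lit 3170128275711))))) (T.h (T.h (T.h (P (nat_lit 0)) (P (nat_lit 13389946303381504))) (P (nat_lit 0))) (T.h (T.h (P (nat_lit 0)) (M (nat_lit 5650489332223))) (P (nat_lit 0)))))))), (T.h (T.h (T.h (P (nat_lit 848019981192476839092825358336)) (T.h (P (nat_lit 0)) (T.h (P (nat_lit 6614624667399100999663616)) (T.h (P (nat_lit 0)) (P (nat_lit 30926891337990012928)))))) (T.h (P (nat_lit 0)) (T.h (T.h (M (nat_lit 3438041479358372487626751)) (T.h (P (nat_lit 0)) (P (nat_lit 19910758226580209664)))) (T.h (P (nat_lit 0)) (P (nat_lit 3512947433225060352)))))) (T.h (T.h (P (nat_lit 0)) (T.h (T.h (P (nat_lit 0)) (T.h (M (nat_lit 41729021910207325798399)) (T.h (P (nat_lit 0)) (M (nat_lit 5405502678335487))))) (T.h (P (nat_lit 0)) (T.h (T.h (P (nat_lit 0)) (P (nat_lit 4819333066915840))) (P (nat_lit 0)))))) (T.h (T.h (T.h (M (nat_lit 10653213847725133906575359)) (T.h (P (nat_lit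 0)) (M (nat_lit 3947790254513061887)))) (T.h (P (nat_lit 0)) (P (nat_lit 3300389089831813120)))) (T.h (T.h (P (nat_lit 0)) (T.h (T.h (P (nat_lit 0)) (P (nat_lit 8839026266406912))) (P (nat_lit 0)))) (M (nat_lit 11113978180799561727))))))]
def lQm_6 : List (T ℤ) := [(P (nat_lit 0)), (P (nat_lit 0)), (T.h (T.h (P (nat_lit 0)) (T.h (T.h (M (nat_lit 8143272965188640913429102591)) (T.h (P (nat_lit 0)) (T.h (M (nat_lit 14199792496674017902591)) (T.h (P (nat_lit 0)) (M (nat_lit 9476508357492735)))))) (T.h (P (nat_lit 0)) (T.h (T.h (M (nat_lit 7541260049816548802559)) (T.h (P (nat_lit 0)) (M (nat_lit 7349451755749375)))) (T.h (P (nat_lit 0)) (M (nat_lit 7426438338183167))))))) (T.h (T.h (T.h (P (nat_lit 0)) (T.h (M (nat_lit 2475538643173014241279)) (T.h (P (nat_lit 0)) (T.h (M (nat_lit 20644546159329673215)) (T.h (P (nat_lit 0)) (P (nat_lit 1880274670464))))))) (T.h (P (nat_lit 0)) (T.h (T.h (P (nat_lit 0)) (T.h (M (nat_lit 4175727890098290687)) (T.h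 (P (nat_lit 0)) (P (nat_lit 11791955260672))))) (T.h (P (nat_lit 0)) (T.h (T.h (P (nat_lit 0)) (M (nat_lit 18815787711999))) (P (nat_lit 0))))))) (T.h (T.h (P (nat_lit 0)) (T.h (T.h (M (nat_lit 14199792496674017902591)) (T.h (P (nat_lit 0)) (M (nat_lit 15198055877836799)))) (T.h (P (nat_lit 0)) (M (nat_lit 7349451755749375))))) (T.h (T.h (T.h (P (nat_lit 0)) (T.h (M (nat_lit 20644546159329673215)) (T.h (P (nat_lit 0)) (P (nat_lit 5936581743360))))) (T.h (P (nat_lit 0)) (T.h (T.h (P (nat_lit 0)) (P (nat_lit 11791955260672))) (P (nat_lit 0))))) (T.h (T.h (P (nat_lit 0)) (M (nat_lit 9476508357492735))) (T.h (T.h (T.h (P (nat_lit 0)) (P (nat_lit 1880274670464))) (P (nat_lit 0))) (P (nat_lit 0)))))))), (T.h (T.h (P (nat_lit 0)) (T.h (T.h (P (nat_lit 0)) (T.h (P (nat_lit 18381355421258832978903040)) (T.h (P (nat_lit 0)) (P (nat_lit 23203781688285986816))))) (T.h (P (nat_lit 0)) (T.h (T.h (P (nat_lit 0)) (M (nat_lit 7114211940729094143))) (P (nat_lit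 0)))))) (T.h (T.h (T.h (M (nat_lit 2547540643335990035118817279)) (T.h (P (nat_lit 0)) (T.h (P (nat_lit 19946718446392155570176)) (T.h (P (nat_lit 0)) (M (nat_lit 3801332291633151)))))) (T.h (P (nat_lit 0)) (T.h (T.h (M (nat_lit 34455666698401404157951)) (T.h (P (nat_lit 0)) (P (nat_lit 4932788028899328)))) (T.h (P (nat_lit 0)) (P (nat_lit 2625970948096000)))))) (T.h (T.h (P (nat_lit 0)) (T.h (T.h (P (nat_lit 0)) (P (nat_lit 36613268445365010432))) (P (nat_lit 0)))) (T.h (T.h (T.h (M (nat_lit 392783585823669878783)) (T.h (P (nat_lit 0)) (M (nat_lit 3402133379809279)))) (T.h (P (nat_lit 0)) (M (nat_lit 584082030985215)))) (T.h (P (nat_lit 0)) (P (nat_lit 965174953410560))))))), (P (nat_lit 0)), (P (nat_lit 0)), (T.h (T.h (T.h (P (nat_lit 2172631954831739215942938263552)) (T.h (P (nat_lit 0)) (T.h (P (nat_lit 3113098526908072926904320)) (T.h (P (nat_lit 0)) (P (nat_lit 3128846296169840640)))))) (T.h (P (nat_lit 0)) (T.h (T.h (P (nat_lit 7101092557652367280963584))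 (T.h (P (nat_lit 0)) (P (nat_lit 11923797260938248192)))) (T.h (P (nat_lit 0)) (M (nat_lit 3403652489910681599)))))) (T.h (T.h (P (nat_lit 0)) (T.h (T.h (P (nat_lit 0)) (T.h (P (nat_lit 6096585033635921395712)) (T.h (P (nat_lit 0)) (M (nat_lit 6037481093464063))))) (T.h (P (nat_lit 0)) (T.h (T.h (P (nat_lit 0)) (P (nat_lit 19267366617088000))) (P (nat_lit 0)))))) (T.h (T.h (T.h (P (nat_lit 3113098526908072926904320)) (T.h (P (nat_lit 0)) (P (nat_lit 5441742847361417216)))) (T.h (P (nat_lit 0)) (P (nat_lit 11923797260938248192)))) (T.h (T.h (P (nat_lit 0)) (T.h (T.h (P (nat_lit 0)) (M (nat_lit 6037481093464063))) (P (nat_lit 0)))) (P (nat_lit 3128846296169840640)))))), (P (nat_lit 0))]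
def lQm_7 : List (T ℤ) := [(P (nat_lit 0)), (P (nat_lit 0)), (P (nat_lit 0)), (P (nat_lit 0)), (T.h (T.h (P (nat_lit 0)) (T.h (T.h (P (nat_lit 382278186225956246805020672)) (T.h (P (nat_lit 0)) (T.h (M (nat_lit 6393028105238678077439)) (T.h (P (nat_lit 0)) (P (nat_lit 10182874572193792)))))) (T.h (P (nat_lit 0)) (T.h (T.h (M (nat_lit 2314989451720488124415)) (T.h (P (nat_lit 0)) (M (nat_lit 20917731012706303)))) (T.h (P (nat_lit 0)) (M (nat_lit 1940894262886399))))))) (T.h (T.h (T.h (P (nat_lit 0)) (T.h (P (nat_lit 8967851728135020949274624)) (T.h (P (nat_lit 0)) (T.h (P (nat_lit 5808715515924840448)) (T.h (P (nat_lit 0)) (M (nat_lit 6298334266991))))))) (T.h (P (nat_lit 0)) (T.h (T.h (P (nat_lit 0)) (T.h (P (nat_lit 21437333873006477312)) (T.h (P (nat_lit 0)) (M (nat_lit 14649144822207))))) (T.h (P (nat_lit 0)) (T.h (T.h (P (nat_lit 0)) (P (nat_lit 9389964963200))) (P (nat_lit 0))))))) (T.h (T.h (P (nat_lit 0)) (T.h (T.h (P (nat_lit 4917025952193526628352))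 (T.h (P (nat_lit 0)) (P (nat_lit 17704818290655232)))) (T.h (P (nat_lit 0)) (P (nat_lit 13535529003122688))))) (T.h (T.h (T.h (P (nat_lit 0)) (T.h (M (nat_lit 1632295132411723775)) (T.h (P (nat_lit 0)) (M (nat_lit 1954457784095))))) (T.h (P (nat_lit 0)) (T.h (T.h (P (nat_lit 0)) (P (nat_lit 7808644584816))) (P (nat_lit 0))))) (T.h (T.h (P (nat_lit 0)) (P (nat_lit 566836548272128))) (T.h (T.h (T.h (P (nat_lit 0)) (M (nat_lit 1262651453183))) (P (nat_lit 0))) (P (nat_lit 0)))))))), (T.h (T.h (P (nat_lit 0)) (T.h (T.h (P (nat_lit 0)) (T.h (M (nat_lit 3093988085105477971607551)) (T.h (P (nat_lit 0)) (T.h (M (nat_lit 59942037166122598399)) (T.h (P (nat_lit 0)) (M (nat_lit 1726339860487))))))) (T.h (P (nat_lit 0)) (T.h (T.h (P (nat_lit 0)) (T.h (M (nat_lit 31376630254227423231)) (T.h (P (nat_lit 0)) (M (nat_lit 9577825270919))))) (T.h (P (nat_lit 0)) (T.h (T.h (P (nat_lit 0)) (M (nat_lit 617502241471))) (P (nat_lit 0)))))))) (T.h (T.h (T.h (M (nat_lit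 241110326684477318414467071)) (T.h (P (nat_lit 0)) (T.h (P (nat_lit 34978613366834824478720)) (T.h (P (nat_lit 0)) (P (nat_lit 3911014313984000)))))) (T.h (P (nat_lit 0)) (T.h (T.h (M (nat_lit 42574672381838136180735)) (T.h (P (nat_lit 0)) (P (nat_lit 67973831304970240)))) (T.h (P (nat_lit 0)) (M (nat_lit 19885691812839423)))))) (T.h (T.h (P (nat_lit 0)) (T.h (T.h (P (nat_lit 0)) (T.h (P (nat_lit 40575241349622661120)) (T.h (P (nat_lit 0)) (P (nat_lit 9606426461536))))) (T.h (P (nat_lit 0)) (T.h (T.h (P (nat_lit 0)) (M (nat_lit 9896250995255))) (P (nat_lit 0)))))) (T.h (T.h (T.h (P (nat_lit 13210000646600378023936)) (T.h (P (nat_lit 0)) (P (nat_lit 9004722249564160)))) (T.h (P (nat_lit 0)) (M (nat_lit 4128130433777663)))) (T.h (T.h (P (nat_lit 0)) (T.h (T.h (P (nat_lit 0)) (M (nat_lit 534616161527))) (P (nat_lit 0)))) (P (nat_lit 6511199756582912))))))), (T.h (T.h (P (nat_lit 0)) (T.h (T.h (P (nat_lit 2070197147691113558778576896)) (T.h (P (nat_lit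 0)) (T.h (P (nat_lit 50195457411964089663488)) (T.h (P (nat_lit 0)) (M (nat_lit 1263562713645055)))))) (T.h (P (nat_lit 0)) (T.h (T.h (M (nat_lit 1755541345251985719295)) (T.h (P (nat_lit 0)) (P (nat_lit 34533612525666304)))) (T.h (P (nat_lit 0)) (P (nat_lit 2055657166962688))))))) (T.h (T.h (T.h (P (nat_lit 0)) (T.h (M (nat_lit 34245653991761483615174655)) (T.h (P (nat_lit 0)) (T.h (P (nat_lit 10955938041285312512)) (T.h (P (nat_lit 0)) (P (nat_lit 11861041236576))))))) (T.h (P (nat_lit 0)) (T.h (T.h (P (nat_lit 0)) (T.h (M (nat_lit 77947200328693710847)) (T.h (P (nat_lit 0)) (P (nat_lit 19135086581520))))) (T.h (P (nat_lit 0)) (T.h (T.h (P (nat_lit 0)) (M (nat_lit 6622509720623))) (P (nat_lit 0))))))) (T.h (T.h (P (nat_lit 0)) (T.h (T.h (M (nat_lit 16778713653034530897919)) (T.h (P (nat_lit 0)) (M (nat_lit 41484131990011903)))) (T.h (P (nat_lit 0)) (M (nat_lit 8110386514264063))))) (T.h (T.h (T.h (P (nat_lit 0)) (T.h (M (nat_lit 18414233202529927167))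 (T.h (P (nat_lit 0)) (P (nat_lit 4308734371088))))) (T.h (P (nat_lit 0)) (T.h (T.h (P (nat_lit 0)) (M (nat_lit 4081026789279))) (P (nat_lit 0))))) (T.h (T.h (P (nat_lit 0)) (M (nat_lit 5071474906873855))) (T.h (T.h (T.h (P (nat_lit 0)) (P (nat_lit 3040955945440))) (P (nat_lit 0))) (P (nat_lit 0)))))))), (T.h (T.h (P (nat_lit 0)) (T.h (T.h (P (nat_lit 0)) (T.h (P (nat_lit 1960600475507989275475968)) (T.h (P (nat_lit 0)) (T.h (P (nat_lit 48691605605848186880)) (T.h (P (nat_lit 0)) (P (nat_lit 1711617739200))))))) (T.h (P (nat_lit 0)) (T.h (T.h (P (nat_lit 0)) (T.h (P (nat_lit 8906692828529164288)) (T.h (P (nat_lit 0)) (M (nat_lit 3170128275711))))) (T.h (P (nat_lit 0)) (T.h (T.h (P (nat_lit 0)) (M (nat_lit 5650489332223))) (P (nat_lit 0)))))))) (T.h (T.h (T.h (P (nat_lit 340004622159091421151232000)) (T.h (P (nat_lit 0)) (T.h (M (nat_lit 24853642217965949550591)) (T.h (P (nat_lit 0)) (P (nat_lit 1447515509358592)))))) (T.h (P (nat_lit 0)) (T.h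 (T.h (P (nat_lit 43982686652293688852480)) (T.h (P (nat_lit 0)) (M (nat_lit 60989868666159103)))) (T.h (P (nat_lit 0)) (P (nat_lit 13389946303381504)))))) (T.h (T.h (P (nat_lit 0)) (T.h (T.h (P (nat_lit 0)) (T.h (P (nat_lit 5346218877418209280)) (T.h (P (nat_lit 0)) (M (nat_lit 18214856339967))))) (T.h (P (nat_lit 0)) (T.h (T.h (P (nat_lit 0)) (M (nat_lit 4520161715199))) (P (nat_lit 0)))))) (T.h (T.h (T.h (M (nat_lit 8105186808818221187071)) (T.h (P (nat_lit 0)) (M (nat_lit 19166517158117375)))) (T.h (P (nat_lit 0)) (M (nat_lit 578246134136831)))) (T.h (T.h (P (nat_lit 0)) (T.h (T.h (P (nat_lit 0)) (P (nat_lit 5447580911872))) (P (nat_lit 0)))) (M (nat_lit 8938710452797439)))))))]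
def lQm_8 : List (T ℤ) := [(T.h (T.h (P (nat_lit 0)) (T.h (T.h (M (nat_lit 2547540643335990035118817279)) (T.h (P (nat_lit 0)) (T.h (M (nat_lit 34455666698401404157951)) (T.h (P (nat_lit 0)) (P (nat_lit 2625970948096000)))))) (T.h (P (nat_lit 0)) (T.h (T.h (M (nat_lit 392783585823669878783)) (T.h (P (nat_lit 0)) (M (nat_lit 584082030985215)))) (T.h (P (nat_lit 0)) (P (nat_lit 965174953410560))))))) (T.h (T.h (T.h (P (nat_lit 0)) (T.h (P (nat_lit 18381355421258832978903040)) (T.h (P (nat_lit 0)) (M (nat_lit 7114211940729094143))))) (T.h (P (nat_lit 0)) (T.h (T.h (P (nat_lit 0)) (P (nat_lit 36613268445365010432))) (P (nat_lit 0))))) (T.h (T.h (P (nat_lit 0)) (T.h (T.h (P (nat_lit 19946718446392155570176)) (T.h (P (nat_lit 0)) (P (nat_lit 4932788028899328)))) (T.h (P (nat_lit 0)) (M (nat_lit 3402133379809279))))) (T.h (T.h (T.h (P (nat_lit 0)) (P (nat_lit 23203781688285986816))) (P (nat_lit 0))) (T.h (T.h (P (nat_lit 0)) (M (nat_lit 3801332291633151)))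 (P (nat_lit 0))))))), (P (nat_lit 0)), (P (nat_lit 0)), (T.h (T.h (T.h (P (nat_lit 0)) (T.h (P (nat_lit 292744442000501060956848128)) (T.h (P (nat_lit 0)) (T.h (P (nat_lit 578675089556927152128)) (T.h (P (nat_lit 0)) (M (nat_lit 1348496507797503))))))) (T.h (P (nat_lit 0)) (T.h (T.h (P (nat_lit 0)) (T.h (M (nat_lit 71490041528832753663)) (T.h (P (nat_lit 0)) (M (nat_lit 208462894661631))))) (T.h (P (nat_lit 0)) (T.h (T.h (P (nat_lit 0)) (M (nat_lit 7565409483816959))) (P (nat_lit 0))))))) (T.h (T.h (P (nat_lit 0)) (T.h (T.h (M (nat_lit 1783583222540862459215871)) (T.h (P (nat_lit 0)) (T.h (M (nat_lit 9687899242886070271)) (T.h (P (nat_lit 0)) (P (nat_lit 18277536452736)))))) (T.h (P (nat_lit 0)) (T.h (T.h (M (nat_lit 968861825208680447)) (T.h (P (nat_lit 0)) (P (nat_lit 6132761592576)))) (T.h (P (nat_lit 0)) (M (nat_lit 723600243695))))))) (T.h (T.h (T.h (P (nat_lit 0)) (T.h (M (nat_lit 71490041528832753663)) (T.h (P (nat_lit 0)) (M (nat_lit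 208462894661631))))) (T.h (P (nat_lit 0)) (T.h (T.h (P (nat_lit 0)) (M (nat_lit 7318168459542527))) (P (nat_lit 0))))) (T.h (T.h (P (nat_lit 0)) (T.h (T.h (M (nat_lit 968861825208680447)) (T.h (P (nat_lit 0)) (P (nat_lit 6132761592576)))) (T.h (P (nat_lit 0)) (P (nat_lit 1106006924448))))) (T.h (T.h (T.h (P (nat_lit 0)) (M (nat_lit 7565409483816959))) (P (nat_lit 0))) (T.h (T.h (P (nat_lit 0)) (M (nat_lit 723600243695))) (P (nat_lit 0)))))))), (T.h (T.h (T.h (P (nat_lit 951227716243843427766930243584)) (T.h (P (nat_lit 0)) (T.h (M (nat_lit 15785240029512983648403455)) (T.h (P (nat_lit 0)) (T.h (P (nat_lit 14210726495290130432)) (T.h (P (nat_lit 0)) (P (nat_lit 5687995968)))))))) (T.h (P (nat_lit 0)) (T.h (T.h (M (nat_lit 3725888736541583637217279)) (T.h (P (nat_lit 0)) (T.h (M (nat_lit 48954083825573429247)) (T.h (P (nat_lit 0)) (M (nat_lit 4758505378847)))))) (T.h (P (nat_lit 0)) (T.h (T.h (P (nat_lit 4881796311956848640)) (T.h (P (nat_lit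 0)) (M (nat_lit 7038243891215)))) (T.h (P (nat_lit 0)) (M (nat_lit 927284701967)))))))) (T.h (T.h (P (nat_lit 0)) (T.h (T.h (P (nat_lit 0)) (T.h (P (nat_lit 42271297672274530795520)) (T.h (P (nat_lit 0)) (P (nat_lit 90241872173727744))))) (T.h (P (nat_lit 0)) (T.h (T.h (P (nat_lit 0)) (P (nat_lit 47909007178399744))) (P (nat_lit 0)))))) (T.h (T.h (T.h (M (nat_lit 3725888736541583637217279)) (T.h (P (nat_lit 0)) (T.h (M (nat_lit 48954083825573429247)) (T.h (P (nat_lit 0)) (M (nat_lit 4758505378847)))))) (T.h (P (nat_lit 0)) (T.h (T.h (P (nat_lit 74387678753093320704)) (T.h (P (nat_lit 0)) (M (nat_lit 4923797791)))) (T.h (P (nat_lit 0)) (M (nat_lit 4533752988591)))))) (T.h (T.h (P (nat_lit 0)) (T.h (T.h (P (nat_lit 0)) (P (nat_lit 47909007178399744))) (P (nat_lit 0)))) (T.h (T.h (T.h (P (nat_lit 4881796311956848640)) (T.h (P (nat_lit 0)) (M (nat_lit 7038243891215)))) (T.h (P (nat_lit 0)) (M (nat_lit 4533752988591)))) (T.h (P (nat_lit 0)) (M (nat_lit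 927284701967)))))))), (T.h (T.h (T.h (P (nat_lit 0)) (T.h (M (nat_lit 982269466919223086024753151)) (T.h (P (nat_lit 0)) (T.h (M (nat_lit 35916013231108972871679)) (T.h (P (nat_lit 0)) (P (nat_lit 22810743852630016))))))) (T.h (P (nat_lit 0)) (T.h (T.h (P (nat_lit 0)) (T.h (P (nat_lit 42560299076557173948416)) (T.h (P (nat_lit 0)) (P (nat_lit 31111013493948416))))) (T.h (P (nat_lit 0)) (T.h (T.h (P (nat_lit 0)) (P (nat_lit 7031999440027648))) (P (nat_lit 0))))))) (T.h (T.h (P (nat_lit 0)) (T.h (T.h (M (nat_lit 28670927364569032967585791)) (T.h (P (nat_lit 0)) (T.h (P (nat_lit 88000864249788235776)) (T.h (P (nat_lit 0)) (M (nat_lit 12132135300319)))))) (T.h (P (nat_lit 0)) (T.h (T.h (M (nat_lit 18802396480193691647)) (T.h (P (nat_lit 0)) (M (nat_lit 7612428796111)))) (T.h (P (nat_lit 0)) (P (nat_lit 4076389384816))))))) (T.h (T.h (T.h (P (nat_lit 0)) (T.h (P (nat_lit 42560299076557173948416)) (T.h (P (nat_lit 0)) (P (nat_lit 31111013493948416)))))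 (T.h (P (nat_lit 0)) (T.h (T.h (P (nat_lit 0)) (M (nat_lit 79416610441396223))) (P (nat_lit 0))))) (T.h (T.h (P (nat_lit 0)) (T.h (T.h (M (nat_lit 18802396480193691647)) (T.h (P (nat_lit 0)) (M (nat_lit 7612428796111)))) (T.h (P (nat_lit 0)) (M (nat_lit 675544214015))))) (T.h (T.h (T.h (P (nat_lit 0)) (P (nat_lit 7031999440027648))) (P (nat_lit 0))) (T.h (T.h (P (nat_lit 0)) (P (nat_lit 4076389384816))) (P (nat_lit 0)))))))), (T.h (T.h (T.h (M (nat_lit 1489864615173141456557266960383)) (T.h (P (nat_lit 0)) (T.h (M (nat_lit 19155564673305472233635839)) (T.h (P (nat_lit 0)) (T.h (M (nat_lit 60418906907182366719)) (T.h (P (nat_lit 0)) (M (nat_lit 18032440444799)))))))) (T.h (P (nat_lit 0)) (T.h (T.h (P (nat_lit 474886768969692552888320)) (T.h (P (nat_lit 0)) (T.h (P (nat_lit 76103848389897093120)) (T.h (P (nat_lit 0)) (M (nat_lit 25057116010111)))))) (T.h (P (nat_lit 0)) (T.h (T.h (M (nat_lit 23472225573696176127)) (T.h (P (nat_lit 0)) (M (nat_lit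 4629881581311)))) (T.h (P (nat_lit 0)) (P (nat_lit 7400973879744)))))))) (T.h (T.h (P (nat_lit 0)) (T.h (T.h (P (nat_lit 0)) (T.h (M (nat_lit 138524736694348612108287)) (T.h (P (nat_lit 0)) (P (nat_lit 85942659986620416))))) (T.h (P (nat_lit 0)) (T.h (T.h (P (nat_lit 0)) (M (nat_lit 126631892948680703))) (P (nat_lit 0)))))) (T.h (T.h (T.h (P (nat_lit 474886768969692552888320)) (T.h (P (nat_lit 0)) (T.h (P (nat_lit 76103848389897093120)) (T.h (P (nat_lit 0)) (M (nat_lit 25057116010111)))))) (T.h (P (nat_lit 0)) (T.h (T.h (M (nat_lit 49589126739001343999)) (T.h (P (nat_lit 0)) (M (nat_lit 86031824607231)))) (T.h (P (nat_lit 0)) (P (nat_lit 16542069378624)))))) (T.h (T.h (P (nat_lit 0)) (T.h (T.h (P (nat_lit 0)) (M (nat_lit 126631892948680703))) (P (nat_lit 0)))) (T.h (T.h (T.h (M (nat_lit 23472225573696176127)) (T.h (P (nat_lit 0)) (M (nat_lit 4629881581311)))) (T.h (P (nat_lit 0)) (P (nat_lit 16542069378624)))) (T.h (P (nat_lit 0)) (P (nat_lit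 7400973879744)))))))), (T.h (T.h (T.h (P (nat_lit 0)) (T.h (P (nat_lit 14143915709784305992583872512)) (T.h (P (nat_lit 0)) (T.h (P (nat_lit 5554121537654855041024)) (T.h (P (nat_lit 0)) (P (nat_lit 26821480240742400))))))) (T.h (P (nat_lit 0)) (T.h (T.h (P (nat_lit 0)) (T.h (M (nat_lit 71315698274066231197695)) (T.h (P (nat_lit 0)) (P (nat_lit 32756148533133312))))) (T.h (P (nat_lit 0)) (T.h (T.h (P (nat_lit 0)) (P (nat_lit 8208545001439232))) (P (nat_lit 0))))))) (T.h (T.h (P (nat_lit 0)) (T.h (T.h (M (nat_lit 1786891951884896965754879)) (T.h (P (nat_lit 0)) (M (nat_lit 20838505919270617087)))) (T.h (P (nat_lit 0)) (P (nat_lit 27420855437877051392))))) (T.h (T.h (T.h (P (nat_lit 0)) (T.h (M (nat_lit 71315698274066231197695)) (T.h (P (nat_lit 0)) (P (nat_lit 32756148533133312))))) (T.h (P (nat_lit 0)) (T.h (T.h (P (nat_lit 0)) (P (nat_lit 50991262593449984))) (P (nat_lit 0))))) (T.h (T.h (P (nat_lit 0)) (P (nat_lit 27420855437877051392))) (T.h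 (T.h (T.h (P (nat_lit 0)) (P (nat_lit 8208545001439232))) (P (nat_lit 0))) (P (nat_lit 0)))))))]
def lQm_9 : List (T ℤ) := [(P (nat_lit 0)), (P (nat_lit 0)), (T.h (T.h (P (nat_lit 0)) (T.h (T.h (P (nat_lit 292744442000501060956848128)) (T.h (P (nat_lit 0)) (T.h (M (nat_lit 71490041528832753663)) (T.h (P (nat_lit 0)) (M (nat_lit 7565409483816959)))))) (T.h (P (nat_lit 0)) (T.h (T.h (P (nat_lit 578675089556927152128)) (T.h (P (nat_lit 0)) (M (nat_lit 208462894661631)))) (T.h (P (nat_lit 0)) (M (nat_lit 1348496507797503))))))) (T.h (T.h (T.h (P (nat_lit 0)) (T.h (M (nat_lit 1783583222540862459215871)) (T.h (P (nat_lit 0)) (T.h (M (nat_lit 968861825208680447)) (T.h (P (nat_lit 0)) (M (nat_lit 723600243695))))))) (T.h (P (nat_lit 0)) (T.h (T.h (P (nat_lit 0)) (T.h (M (nat_lit 9687899242886070271)) (T.h (P (nat_lit 0)) (P (nat_lit 6132761592576))))) (T.h (P (nat_lit 0)) (T.h (T.h (P (nat_lit 0)) (P (nat_lit 18277536452736))) (P (nat_lit 0))))))) (T.h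 (T.h (P (nat_lit 0)) (T.h (T.h (M (nat_lit 71490041528832753663)) (T.h (P (nat_lit 0)) (M (nat_lit 7318168459542527)))) (T.h (P (nat_lit 0)) (M (nat_lit 208462894661631))))) (T.h (T.h (T.h (P (nat_lit 0)) (T.h (M (nat_lit 968861825208680447)) (T.h (P (nat_lit 0)) (P (nat_lit 1106006924448))))) (T.h (P (nat_lit 0)) (T.h (T.h (P (nat_lit 0)) (P (nat_lit 6132761592576))) (P (nat_lit 0))))) (T.h (T.h (P (nat_lit 0)) (M (nat_lit 7565409483816959))) (T.h (T.h (T.h (P (nat_lit 0)) (M (nat_lit 723600243695))) (P (nat_lit 0))) (P (nat_lit 0)))))))), (T.h (T.h (P (nat_lit 0)) (T.h (T.h (P (nat_lit 0)) (T.h (M (nat_lit 9944284666342197386280959)) (T.h (P (nat_lit 0)) (T.h (M (nat_lit 23358221682462425087)) (T.h (P (nat_lit 0)) (P (nat_lit 2310447738544))))))) (T.h (P (nat_lit 0)) (T.h (T.h (P (nat_lit 0)) (T.h (M (nat_lit 23358221682462425087)) (T.h (P (nat_lit 0)) (M (nat_lit 5934710937967))))) (T.h (P (nat_lit 0)) (T.h (T.h (P (nat_lit 0)) (P (nat_lit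 2310447738544))) (P (nat_lit 0)))))))) (T.h (T.h (T.h (M (nat_lit 9188822945411684451682877439)) (T.h (P (nat_lit 0)) (T.h (P (nat_lit 4503885725793601454080)) (T.h (P (nat_lit 0)) (M (nat_lit 157814033907711)))))) (T.h (P (nat_lit 0)) (T.h (T.h (P (nat_lit 4503885725793601454080)) (T.h (P (nat_lit 0)) (P (nat_lit 213022691705815040)))) (T.h (P (nat_lit 0)) (M (nat_lit 157814033907711)))))) (T.h (T.h (P (nat_lit 0)) (T.h (T.h (P (nat_lit 0)) (T.h (M (nat_lit 143476815896919408639)) (T.h (P (nat_lit 0)) (M (nat_lit 5889195034887))))) (T.h (P (nat_lit 0)) (T.h (T.h (P (nat_lit 0)) (M (nat_lit 5889195034887))) (P (nat_lit 0)))))) (T.h (T.h (T.h (M (nat_lit 18496271202248279719935)) (T.h (P (nat_lit 0)) (M (nat_lit 4368105829269503)))) (T.h (P (nat_lit 0)) (M (nat_lit 4368105829269503)))) (T.h (T.h (P (nat_lit 0)) (T.h (T.h (P (nat_lit 0)) (M (nat_lit 2948687322799))) (P (nat_lit 0)))) (M (nat_lit 16740837449203711))))))), (T.h (T.h (P (nat_lit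 0)) (T.h (T.h (P (nat_lit 4038671708212743718947520512)) (T.h (P (nat_lit 0)) (T.h (M (nat_lit 212304625856367424438271)) (T.h (P (nat_lit 0)) (M (nat_lit 77564689659232255)))))) (T.h (P (nat_lit 0)) (T.h (T.h (P (nat_lit 30872122181433209913344)) (T.h (P (nat_lit 0)) (P (nat_lit 75833794379677696)))) (T.h (P (nat_lit 0)) (M (nat_lit 5026790275268607))))))) (T.h (T.h (T.h (P (nat_lit 0)) (T.h (P (nat_lit 44694462760537169588125696)) (T.h (P (nat_lit 0)) (T.h (M (nat_lit 5659509649276141567)) (T.h (P (nat_lit 0)) (M (nat_lit 1102750372303))))))) (T.h (P (nat_lit 0)) (T.h (T.h (P (nat_lit 0)) (T.h (P (nat_lit 193396473526025715712)) (T.h (P (nat_lit 0)) (M (nat_lit 18575295500271))))) (T.h (P (nat_lit 0)) (T.h (T.h (P (nat_lit 0)) (M (nat_lit 94064231272143))) (P (nat_lit 0))))))) (T.h (T.h (P (nat_lit 0)) (T.h (T.h (P (nat_lit 77247011222601508847616)) (T.h (P (nat_lit 0)) (M (nat_lit 22636712412643327)))) (T.h (P (nat_lit 0)) (M (nat_lit 51668033374715903)))))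 (T.h (T.h (T.h (P (nat_lit 0)) (T.h (M (nat_lit 11452942416558948351)) (T.h (P (nat_lit 0)) (M (nat_lit 12260400160623))))) (T.h (P (nat_lit 0)) (T.h (T.h (P (nat_lit 0)) (M (nat_lit 27622295623215))) (P (nat_lit 0))))) (T.h (T.h (P (nat_lit 0)) (P (nat_lit 24253183682134016))) (T.h (T.h (T.h (P (nat_lit 0)) (M (nat_lit 10914695388015))) (P (nat_lit 0))) (P (nat_lit 0)))))))), (T.h (T.h (P (nat_lit 0)) (T.h (T.h (P (nat_lit 0)) (T.h (P (nat_lit 60254104789067815534460928)) (T.h (P (nat_lit 0)) (T.h (M (nat_lit 83831265369020956671)) (T.h (P (nat_lit 0)) (M (nat_lit 74682600418175))))))) (T.h (P (nat_lit 0)) (T.h (T.h (P (nat_lit 0)) (T.h (P (nat_lit 52593641093391712256)) (T.h (P (nat_lit 0)) (P (nat_lit 38518769153536))))) (T.h (P (nat_lit 0)) (T.h (T.h (P (nat_lit 0)) (M (nat_lit 36218528417215))) (P (nat_lit 0)))))))) (T.h (T.h (T.h (P (nat_lit 5002433316995141053611769856)) (T.h (P (nat_lit 0)) (T.h (M (nat_lit 8700266256169554673663)) (T.h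 (P (nat_lit 0)) (P (nat_lit 112770799911600128)))))) (T.h (P (nat_lit 0)) (T.h (T.h (M (nat_lit 64074607215303530119167)) (T.h (P (nat_lit 0)) (P (nat_lit 73061724823420928)))) (T.h (P (nat_lit 0)) (M (nat_lit 61092735884722175)))))) (T.h (T.h (P (nat_lit 0)) (T.h (T.h (P (nat_lit 0)) (T.h (P (nat_lit 122238363249976279040)) (T.h (P (nat_lit 0)) (P (nat_lit 7268007345152))))) (T.h (P (nat_lit 0)) (T.h (T.h (P (nat_lit 0)) (M (nat_lit 20210294340287))) (P (nat_lit 0)))))) (T.h (T.h (T.h (P (nat_lit 64860617282329165955072)) (T.h (P (nat_lit 0)) (M (nat_lit 8675185806737407)))) (T.h (P (nat_lit 0)) (M (nat_lit 37485078654844927)))) (T.h (T.h (P (nat_lit 0)) (T.h (T.h (P (nat_lit 0)) (M (nat_lit 4830483669119))) (P (nat_lit 0)))) (P (nat_lit 37256538694156288))))))), (T.h (T.h (P (nat_lit 0)) (T.h (T.h (M (nat_lit 3133521640352018543595749375)) (T.h (P (nat_lit 0)) (T.h (P (nat_lit 3848273589639705526272)) (T.h (P (nat_lit 0)) (P (nat_lit 107296303587655680))))))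 (T.h (P (nat_lit 0)) (T.h (T.h (M (nat_lit 6131544820029419683839)) (T.h (P (nat_lit 0)) (M (nat_lit 24755005882941439)))) (T.h (P (nat_lit 0)) (M (nat_lit 3746641894768639))))))) (T.h (T.h (T.h (P (nat_lit 0)) (T.h (P (nat_lit 34949159902444343565221888)) (T.h (P (nat_lit 0)) (M (nat_lit 130808218232064835583))))) (T.h (P (nat_lit 0)) (T.h (T.h (P (nat_lit 0)) (P (nat_lit 64795198108966322176))) (P (nat_lit 0))))) (T.h (T.h (P (nat_lit 0)) (T.h (T.h (M (nat_lit 10530773426254924218367)) (T.h (P (nat_lit 0)) (P (nat_lit 48253519760162816)))) (T.h (P (nat_lit 0)) (P (nat_lit 3541496266850304))))) (T.h (T.h (T.h (P (nat_lit 0)) (P (nat_lit 18668642047161794560))) (P (nat_lit 0))) (T.h (T.h (P (nat_lit 0)) (M (nat_lit 25399662819524607))) (P (nat_lit 0))))))), (P (nat_lit 0))]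
def lQm_10 : List (T ℤ) := [(P (nat_lit 0)), (T.h (T.h (T.h (P (nat_lit 0)) (T.h (P (nat_lit 382278186225956246805020672)) (T.h (P (nat_lit 0)) (T.h (M (nat_lit 2314989451720488124415)) (T.h (P (nat_lit 0)) (M (nat_lit 1940894262886399))))))) (T.h (P (nat_lit 0)) (T.h (T.h (P (nat_lit 0)) (T.h (M (nat_lit 6393028105238678077439)) (T.h (P (nat_lit 0)) (M (nat_lit 20917731012706303))))) (T.h (P (nat_lit 0)) (T.h (T.h (P (nat_lit 0)) (P (nat_lit 10182874572193792))) (P (nat_lit 0))))))) (T.h (T.h (P (nat_lit 0)) (T.h (T.h (P (nat_lit 8967851728135020949274624)) (T.h (P (nat_lit 0)) (T.h (P (nat_lit 21437333873006477312)) (T.h (P (nat_lit 0)) (P (nat_lit 9389964963200)))))) (T.h (P (nat_lit 0)) (T.h (T.h (P (nat_lit 5808715515924840448)) (T.h (P (nat_lit 0)) (M (nat_lit 14649144822207)))) (T.h (P (nat_lit 0)) (M (nat_lit 6298334266991))))))) (T.h (T.h (T.h (P (nat_lit 0)) (T.h (P (nat_lit 4917025952193526628352)) (T.h (P (nat_lit 0)) (P (nat_lit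 13535529003122688))))) (T.h (P (nat_lit 0)) (T.h (T.h (P (nat_lit 0)) (P (nat_lit 17704818290655232))) (P (nat_lit 0))))) (T.h (T.h (P (nat_lit 0)) (T.h (T.h (M (nat_lit 1632295132411723775)) (T.h (P (nat_lit 0)) (P (nat_lit 7808644584816)))) (T.h (P (nat_lit 0)) (M (nat_lit 1954457784095))))) (T.h (T.h (T.h (P (nat_lit 0)) (P (nat_lit 566836548272128))) (P (nat_lit 0))) (T.h (T.h (P (nat_lit 0)) (M (nat_lit 1262651453183))) (P (nat_lit 0)))))))), (T.h (T.h (T.h (P (nat_lit 951227716243843427766930243584)) (T.h (P (nat_lit 0)) (T.h (M (nat_lit 3725888736541583637217279)) (T.h (P (nat_lit 0)) (T.h (P (nat_lit 4881796311956848640)) (T.h (P (nat_lit 0)) (M (nat_lit 927284701967)))))))) (T.h (P (nat_lit 0)) (T.h (T.h (M (nat_lit 15785240029512983648403455)) (T.h (P (nat_lit 0)) (T.h (M (nat_lit 48954083825573429247)) (T.h (P (nat_lit 0)) (M (nat_lit 7038243891215)))))) (T.h (P (nat_lit 0)) (T.h (T.h (P (nat_lit 14210726495290130432)) (T.h (P (nat_lit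 0)) (M (nat_lit 4758505378847)))) (T.h (P (nat_lit 0)) (P (nat_lit 5687995968)))))))) (T.h (T.h (P (nat_lit 0)) (T.h (T.h (P (nat_lit 0)) (T.h (P (nat_lit 42271297672274530795520)) (T.h (P (nat_lit 0)) (P (nat_lit 47909007178399744))))) (T.h (P (nat_lit 0)) (T.h (T.h (P (nat_lit 0)) (P (nat_lit 90241872173727744))) (P (nat_lit 0)))))) (T.h (T.h (T.h (M (nat_lit 3725888736541583637217279)) (T.h (P (nat_lit 0)) (T.h (P (nat_lit 74387678753093320704)) (T.h (P (nat_lit 0)) (M (nat_lit 4533752988591)))))) (T.h (P (nat_lit 0)) (T.h (T.h (M (nat_lit 48954083825573429247)) (T.h (P (nat_lit 0)) (M (nat_lit 4923797791)))) (T.h (P (nat_lit 0)) (M (nat_lit 4758505378847)))))) (T.h (T.h (P (nat_lit 0)) (T.h (T.h (P (nat_lit 0)) (P (nat_lit 47909007178399744))) (P (nat_lit 0)))) (T.h (T.h (T.h (P (nat_lit 4881796311956848640)) (T.h (P (nat_lit 0)) (M (nat_lit 4533752988591)))) (T.h (P (nat_lit 0)) (M (nat_lit 7038243891215)))) (T.h (P (nat_lit 0)) (M (nat_lit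 927284701967)))))))), (T.h (T.h (T.h (P (nat_lit 0)) (T.h (P (nat_lit 4038671708212743718947520512)) (T.h (P (nat_lit 0)) (T.h (P (nat_lit 30872122181433209913344)) (T.h (P (nat_lit 0)) (M (nat_lit 5026790275268607))))))) (T.h (P (nat_lit 0)) (T.h (T.h (P (nat_lit 0)) (T.h (M (nat_lit 212304625856367424438271)) (T.h (P (nat_lit 0)) (P (nat_lit 75833794379677696))))) (T.h (P (nat_lit 0)) (T.h (T.h (P (nat_lit 0)) (M (nat_lit 77564689659232255))) (P (nat_lit 0))))))) (T.h (T.h (P (nat_lit 0)) (T.h (T.h (P (nat_lit 44694462760537169588125696)) (T.h (P (nat_lit 0)) (T.h (P (nat_lit 193396473526025715712)) (T.h (P (nat_lit 0)) (M (nat_lit 94064231272143)))))) (T.h (P (nat_lit 0)) (T.h (T.h (M (nat_lit 5659509649276141567)) (T.h (P (nat_lit 0)) (M (nat_lit 18575295500271)))) (T.h (P (nat_lit 0)) (M (nat_lit 1102750372303))))))) (T.h (T.h (T.h (P (nat_lit 0)) (T.h (P (nat_lit 77247011222601508847616)) (T.h (P (nat_lit 0)) (M (nat_lit 51668033374715903)))))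 (T.h (P (nat_lit 0)) (T.h (T.h (P (nat_lit 0)) (M (nat_lit 22636712412643327))) (P (nat_lit 0))))) (T.h (T.h (P (nat_lit 0)) (T.h (T.h (M (nat_lit 11452942416558948351)) (T.h (P (nat_lit 0)) (M (nat_lit 27622295623215)))) (T.h (P (nat_lit 0)) (M (nat_lit 12260400160623))))) (T.h (T.h (T.h (P (nat_lit 0)) (P (nat_lit 24253183682134016))) (P (nat_lit 0))) (T.h (T.h (P (nat_lit 0)) (M (nat_lit 10914695388015))) (P (nat_lit 0)))))))), (T.h (T.h (T.h (P (nat_lit 3336858308950095421271779049472)) (T.h (P (nat_lit 0)) (T.h (P (nat_lit 80157411707928216959188992)) (T.h (P (nat_lit 0)) (T.h (P (nat_lit 36150116761263407104)) (T.h (P (nat_lit 0)) (P (nat_lit 5948322328960)))))))) (T.h (P (nat_lit 0)) (T.h (T.h (P (nat_lit 80157411707928216959188992)) (T.h (P (nat_lit 0)) (T.h (M (nat_lit 198424172909475921919)) (T.h (P (nat_lit 0)) (M (nat_lit 17656885201215)))))) (T.h (P (nat_lit 0)) (T.h (T.h (P (nat_lit 36150116761263407104)) (T.h (P (nat_lit 0)) (M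 (nat_lit 17656885201215)))) (T.h (P (nat_lit 0)) (P (nat_lit 5948322328960)))))))) (T.h (T.h (P (nat_lit 0)) (T.h (T.h (P (nat_lit 0)) (T.h (M (nat_lit 9156392675808196427775)) (T.h (P (nat_lit 0)) (P (nat_lit 199937798428426240))))) (T.h (P (nat_lit 0)) (T.h (T.h (P (nat_lit 0)) (P (nat_lit 199937798428426240))) (P (nat_lit 0)))))) (T.h (T.h (T.h (M (nat_lit 70027064311019118929117183)) (T.h (P (nat_lit 0)) (T.h (P (nat_lit 95037533799225229312)) (T.h (P (nat_lit 0)) (P (nat_lit 9725018242368)))))) (T.h (P (nat_lit 0)) (T.h (T.h (P (nat_lit 95037533799225229312)) (T.h (P (nat_lit 0)) (M (nat_lit 52572885336703)))) (T.h (P (nat_lit 0)) (P (nat_lit 9725018242368)))))) (T.h (T.h (P (nat_lit 0)) (T.h (T.h (P (nat_lit 0)) (M (nat_lit 27818317734084607))) (P (nat_lit 0)))) (T.h (T.h (T.h (M (nat_lit 88241934139394097151)) (T.h (P (nat_lit 0)) (M (nat_lit 3652843258367)))) (T.h (P (nat_lit 0)) (M (nat_lit 3652843258367)))) (T.h (P (nat_lit 0)) (M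 (nat_lit 19449370183423)))))))), (T.h (T.h (T.h (P (nat_lit 0)) (T.h (M (nat_lit 21382294463452524082142117887)) (T.h (P (nat_lit 0)) (T.h (P (nat_lit 8429021893482116022272)) (T.h (P (nat_lit 0)) (P (nat_lit 3098825511829504))))))) (T.h (P (nat_lit 0)) (T.h (T.h (P (nat_lit 0)) (T.h (P (nat_lit 5119974003336856731648)) (T.h (P (nat_lit 0)) (M (nat_lit 9121366597222399))))) (T.h (P (nat_lit 0)) (T.h (T.h (P (nat_lit 0)) (P (nat_lit 38231767106387968))) (P (nat_lit 0))))))) (T.h (T.h (P (nat_lit 0)) (T.h (T.h (M (nat_lit 11364634751436504396988415)) (T.h (P (nat_lit 0)) (M (nat_lit 72630611916194054143)))) (T.h (P (nat_lit 0)) (P (nat_lit 39642309639526154240))))) (T.h (T.h (T.h (P (nat_lit 0)) (T.h (M (nat_lit 55308368152604113371135)) (T.h (P (nat_lit 0)) (M (nat_lit 10349591218307071))))) (T.h (P (nat_lit 0)) (T.h (T.h (P (nat_lit 0)) (P (nat_lit 27209387641274368))) (P (nat_lit 0))))) (T.h (T.h (P (nat_lit 0)) (P (nat_lit 42786273065835692032)))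 (T.h (T.h (T.h (P (nat_lit 0)) (P (nat_lit 17072719312633856))) (P (nat_lit 0))) (P (nat_lit 0))))))), (P (nat_lit 0)), (P (nat_lit 0))]
def lQm_11 : List (T ℤ) := [(T.h (T.h (P (nat_lit 0)) (T.h (T.h (P (nat_lit 0)) (T.h (M (nat_lit 3093988085105477971607551)) (T.h (P (nat_lit 0)) (T.h (M (nat_lit 31376630254227423231)) (T.h (P (nat_lit 0)) (M (nat_lit 617502241471))))))) (T.h (P (nat_lit 0)) (T.h (T.h (P (nat_lit 0)) (T.h (M (nat_lit 59942037166122598399)) (T.h (P (nat_lit 0)) (M (nat_lit 9577825270919))))) (T.h (P (nat_lit 0)) (T.h (T.h (P (nat_lit 0)) (M (nat_lit 1726339860487))) (P (nat_lit 0)))))))) (T.h (T.h (T.h (M (nat_lit 241110326684477318414467071)) (T.h (P (nat_lit 0)) (T.h (M (nat_lit 42574672381838136180735)) (T.h (P (nat_lit 0)) (M (nat_lit 19885691812839423)))))) (T.h (P (nat_lit 0)) (T.h (T.h (P (nat_lit 34978613366834824478720)) (T.h (P (nat_lit 0)) (P (nat_lit 67973831304970240)))) (T.h (P (nat_lit 0)) (P (nat_lit 3911014313984000))))))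 (T.h (T.h (P (nat_lit 0)) (T.h (T.h (P (nat_lit 0)) (T.h (P (nat_lit 40575241349622661120)) (T.h (P (nat_lit 0)) (M (nat_lit 9896250995255))))) (T.h (P (nat_lit 0)) (T.h (T.h (P (nat_lit 0)) (P (nat_lit 9606426461536))) (P (nat_lit 0)))))) (T.h (T.h (T.h (P (nat_lit 13210000646600378023936)) (T.h (P (nat_lit 0)) (M (nat_lit 4128130433777663)))) (T.h (P (nat_lit 0)) (P (nat_lit 9004722249564160)))) (T.h (T.h (P (nat_lit 0)) (T.h (T.h (P (nat_lit 0)) (M (nat_lit 534616161527))) (P (nat_lit 0)))) (P (nat_lit 6511199756582912))))))), (T.h (T.h (P (nat_lit 0)) (T.h (T.h (M (nat_lit 982269466919223086024753151)) (T.h (P (nat_lit 0)) (T.h (P (nat_lit 42560299076557173948416)) (T.h (P (nat_lit 0)) (P (nat_lit 7031999440027648)))))) (T.h (P (nat_lit 0)) (T.h (T.h (M (nat_lit 35916013231108972871679)) (T.h (P (nat_lit 0)) (P (nat_lit 31111013493948416)))) (T.h (P (nat_lit 0)) (P (nat_lit 22810743852630016))))))) (T.h (T.h (T.h (P (nat_lit 0)) (T.h (M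 (nat_lit 28670927364569032967585791)) (T.h (P (nat_lit 0)) (T.h (M (nat_lit 18802396480193691647)) (T.h (P (nat_lit 0)) (P (nat_lit 4076389384816))))))) (T.h (P (nat_lit 0)) (T.h (T.h (P (nat_lit 0)) (T.h (P (nat_lit 88000864249788235776)) (T.h (P (nat_lit 0)) (M (nat_lit 7612428796111))))) (T.h (P (nat_lit 0)) (T.h (T.h (P (nat_lit 0)) (M (nat_lit 12132135300319))) (P (nat_lit 0))))))) (T.h (T.h (P (nat_lit 0)) (T.h (T.h (P (nat_lit 42560299076557173948416)) (T.h (P (nat_lit 0)) (M (nat_lit 79416610441396223)))) (T.h (P (nat_lit 0)) (P (nat_lit 31111013493948416))))) (T.h (T.h (T.h (P (nat_lit 0)) (T.h (M (nat_lit 18802396480193691647)) (T.h (P (nat_lit 0)) (M (nat_lit 675544214015))))) (T.h (P (nat_lit 0)) (T.h (T.h (P (nat_lit 0)) (M (nat_lit 7612428796111))) (P (nat_lit 0))))) (T.h (T.h (P (nat_lit 0)) (P (nat_lit 7031999440027648))) (T.h (T.h (T.h (P (nat_lit 0)) (P (nat_lit 4076389384816))) (P (nat_lit 0))) (P (nat_lit 0)))))))), (T.h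 (T.h (P (nat_lit 0)) (T.h (T.h (P (nat_lit 0)) (T.h (P (nat_lit 60254104789067815534460928)) (T.h (P (nat_lit 0)) (T.h (P (nat_lit 52593641093391712256)) (T.h (P (nat_lit 0)) (M (nat_lit 36218528417215))))))) (T.h (P (nat_lit 0)) (T.h (T.h (P (nat_lit 0)) (T.h (M (nat_lit 83831265369020956671)) (T.h (P (nat_lit 0)) (P (nat_lit 38518769153536))))) (T.h (P (nat_lit 0)) (T.h (T.h (P (nat_lit 0)) (M (nat_lit 74682600418175))) (P (nat_lit 0)))))))) (T.h (T.h (T.h (P (nat_lit 5002433316995141053611769856)) (T.h (P (nat_lit 0)) (T.h (M (nat_lit 64074607215303530119167)) (T.h (P (nat_lit 0)) (M (nat_lit 61092735884722175)))))) (T.h (P (nat_lit 0)) (T.h (T.h (M (nat_lit 8700266256169554673663)) (T.h (P (nat_lit 0)) (P (nat_lit 73061724823420928)))) (T.h (P (nat_lit 0)) (P (nat_lit 112770799911600128)))))) (T.h (T.h (P (nat_lit 0)) (T.h (T.h (P (nat_lit 0)) (T.h (P (nat_lit 122238363249976279040)) (T.h (P (nat_lit 0)) (M (nat_lit 20210294340287))))) (T.h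 (P (nat_lit 0)) (T.h (T.h (P (nat_lit 0)) (P (nat_lit 7268007345152))) (P (nat_lit 0)))))) (T.h (T.h (T.h (P (nat_lit 64860617282329165955072)) (T.h (P (nat_lit 0)) (M (nat_lit 37485078654844927)))) (T.h (P (nat_lit 0)) (M (nat_lit 8675185806737407)))) (T.h (T.h (P (nat_lit 0)) (T.h (T.h (P (nat_lit 0)) (M (nat_lit 4830483669119))) (P (nat_lit 0)))) (P (nat_lit 37256538694156288))))))), (T.h (T.h (P (nat_lit 0)) (T.h (T.h (M (nat_lit 21382294463452524082142117887)) (T.h (P (nat_lit 0)) (T.h (P (nat_lit 5119974003336856731648)) (T.h (P (nat_lit 0)) (P (nat_lit 38231767106387968)))))) (T.h (P (nat_lit 0)) (T.h (T.h (P (nat_lit 8429021893482116022272)) (T.h (P (nat_lit 0)) (M (nat_lit 9121366597222399)))) (T.h (P (nat_lit 0)) (P (nat_lit 3098825511829504))))))) (T.h (T.h (T.h (P (nat_lit 0)) (T.h (M (nat_lit 11364634751436504396988415)) (T.h (P (nat_lit 0)) (P (nat_lit 39642309639526154240))))) (T.h (P (nat_lit 0)) (T.h (T.h (P (nat_lit 0)) (M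 (nat_lit 72630611916194054143))) (P (nat_lit 0))))) (T.h (T.h (P (nat_lit 0)) (T.h (T.h (M (nat_lit 55308368152604113371135)) (T.h (P (nat_lit 0)) (P (nat_lit 27209387641274368)))) (T.h (P (nat_lit 0)) (M (nat_lit 10349591218307071))))) (T.h (T.h (T.h (P (nat_lit 0)) (P (nat_lit 42786273065835692032))) (P (nat_lit 0))) (T.h (T.h (P (nat_lit 0)) (P (nat_lit 17072719312633856))) (P (nat_lit 0))))))), (P (nat_lit 0)), (P (nat_lit 0)), (T.h (T.h (T.h (P (nat_lit 0)) (T.h (P (nat_lit 2070197147691113558778576896)) (T.h (P (nat_lit 0)) (T.h (M (nat_lit 1755541345251985719295)) (T.h (P (nat_lit 0)) (P (nat_lit 2055657166962688))))))) (T.h (P (nat_lit 0)) (T.h (T.h (P (nat_lit 0)) (T.h (P (nat_lit 50195457411964089663488)) (T.h (P (nat_lit 0)) (P (nat_lit 34533612525666304))))) (T.h (P (nat_lit 0)) (T.h (T.h (P (nat_lit 0)) (M (nat_lit 1263562713645055))) (P (nat_lit 0))))))) (T.h (T.h (P (nat_lit 0)) (T.h (T.h (M (nat_lit 34245653991761483615174655))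 (T.h (P (nat_lit 0)) (T.h (M (nat_lit 77947200328693710847)) (T.h (P (nat_lit 0)) (M (nat_lit 6622509720623)))))) (T.h (P (nat_lit 0)) (T.h (T.h (P (nat_lit 10955938041285312512)) (T.h (P (nat_lit 0)) (P (nat_lit 19135086581520)))) (T.h (P (nat_lit 0)) (P (nat_lit 11861041236576))))))) (T.h (T.h (T.h (P (nat_lit 0)) (T.h (M (nat_lit 16778713653034530897919)) (T.h (P (nat_lit 0)) (M (nat_lit 8110386514264063))))) (T.h (P (nat_lit 0)) (T.h (T.h (P (nat_lit 0)) (M (nat_lit 41484131990011903))) (P (nat_lit 0))))) (T.h (T.h (P (nat_lit 0)) (T.h (T.h (M (nat_lit 18414233202529927167)) (T.h (P (nat_lit 0)) (M (nat_lit 4081026789279)))) (T.h (P (nat_lit 0)) (P (nat_lit 4308734371088))))) (T.h (T.h (T.h (P (nat_lit 0)) (M (nat_lit 5071474906873855))) (P (nat_lit 0))) (T.h (T.h (P (nat_lit 0)) (P (nat_lit 3040955945440))) (P (nat_lit 0)))))))), (T.h (T.h (T.h (M (nat_lit 1489864615173141456557266960383)) (T.h (P (nat_lit 0)) (T.h (P (nat_lit 474886768969692552888320))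 (T.h (P (nat_lit 0)) (T.h (M (nat_lit 23472225573696176127)) (T.h (P (nat_lit 0)) (P (nat_lit 7400973879744)))))))) (T.h (P (nat_lit 0)) (T.h (T.h (M (nat_lit 19155564673305472233635839)) (T.h (P (nat_lit 0)) (T.h (P (nat_lit 76103848389897093120)) (T.h (P (nat_lit 0)) (M (nat_lit 4629881581311)))))) (T.h (P (nat_lit 0)) (T.h (T.h (M (nat_lit 60418906907182366719)) (T.h (P (nat_lit 0)) (M (nat_lit 25057116010111)))) (T.h (P (nat_lit 0)) (M (nat_lit 18032440444799)))))))) (T.h (T.h (P (nat_lit 0)) (T.h (T.h (P (nat_lit 0)) (T.h (M (nat_lit 138524736694348612108287)) (T.h (P (nat_lit 0)) (M (nat_lit 126631892948680703))))) (T.h (P (nat_lit 0)) (T.h (T.h (P (nat_lit 0)) (P (nat_lit 85942659986620416))) (P (nat_lit 0)))))) (T.h (T.h (T.h (P (nat_lit 474886768969692552888320)) (T.h (P (nat_lit 0)) (T.h (M (nat_lit 49589126739001343999)) (T.h (P (nat_lit 0)) (P (nat_lit 16542069378624)))))) (T.h (P (nat_lit 0)) (T.h (T.h (P (nat_lit 76103848389897093120))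 (T.h (P (nat_lit 0)) (M (nat_lit 86031824607231)))) (T.h (P (nat_lit 0)) (M (nat_lit 25057116010111)))))) (T.h (T.h (P (nat_lit 0)) (T.h (T.h (P (nat_lit 0)) (M (nat_lit 126631892948680703))) (P (nat_lit 0)))) (T.h (T.h (T.h (M (nat_lit 23472225573696176127)) (T.h (P (nat_lit 0)) (P (nat_lit 16542069378624)))) (T.h (P (nat_lit 0)) (M (nat_lit 4629881581311)))) (T.h (P (nat_lit 0)) (P (nat_lit 7400973879744))))))))]
def lQm_12 : List (T ℤ) := [(T.h (T.h (T.h (P (nat_lit 0)) (T.h (M (nat_lit 3133521640352018543595749375)) (T.h (P (nat_lit 0)) (T.h (M (nat_lit 6131544820029419683839)) (T.h (P (nat_lit 0)) (M (nat_lit 3746641894768639))))))) (T.h (P (nat_lit 0)) (T.h (T.h (P (nat_lit 0)) (T.h (P (nat_lit 3848273589639705526272)) (T.h (P (nat_lit 0)) (M (nat_lit 24755005882941439))))) (T.h (P (nat_lit 0)) (T.h (T.h (P (nat_lit 0)) (P (nat_lit 107296303587655680))) (P (nat_lit 0))))))) (T.h (T.h (P (nat_lit 0)) (T.h (T.h (P (nat_lit 34949159902444343565221888))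 (T.h (P (nat_lit 0)) (P (nat_lit 64795198108966322176)))) (T.h (P (nat_lit 0)) (M (nat_lit 130808218232064835583))))) (T.h (T.h (T.h (P (nat_lit 0)) (T.h (M (nat_lit 10530773426254924218367)) (T.h (P (nat_lit 0)) (P (nat_lit 3541496266850304))))) (T.h (P (nat_lit 0)) (T.h (T.h (P (nat_lit 0)) (P (nat_lit 48253519760162816))) (P (nat_lit 0))))) (T.h (T.h (P (nat_lit 0)) (P (nat_lit 18668642047161794560))) (T.h (T.h (T.h (P (nat_lit 0)) (M (nat_lit 25399662819524607))) (P (nat_lit 0))) (P (nat_lit 0))))))), (P (nat_lit 0)), (P (nat_lit 0)), (T.h (T.h (P (nat_lit 0)) (T.h (T.h (P (nat_lit 0)) (T.h (P (nat_lit 1960600475507989275475968)) (T.h (P (nat_lit 0)) (T.h (P (nat_lit 8906692828529164288)) (T.h (P (nat_lit 0)) (M (nat_lit 5650489332223))))))) (T.h (P (nat_lit 0)) (T.h (T.h (P (nat_lit 0)) (T.h (P (nat_lit 48691605605848186880)) (T.h (P (nat_lit 0)) (M (nat_lit 3170128275711))))) (T.h (P (nat_lit 0)) (T.h (T.h (P (nat_lit 0)) (P (nat_lit 1711617739200)))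 (P (nat_lit 0)))))))) (T.h (T.h (T.h (P (nat_lit 340004622159091421151232000)) (T.h (P (nat_lit 0)) (T.h (P (nat_lit 43982686652293688852480)) (T.h (P (nat_lit 0)) (P (nat_lit 13389946303381504)))))) (T.h (P (nat_lit 0)) (T.h (T.h (M (nat_lit 24853642217965949550591)) (T.h (P (nat_lit 0)) (M (nat_lit 60989868666159103)))) (T.h (P (nat_lit 0)) (P (nat_lit 1447515509358592)))))) (T.h (T.h (P (nat_lit 0)) (T.h (T.h (P (nat_lit 0)) (T.h (P (nat_lit 5346218877418209280)) (T.h (P (nat_lit 0)) (M (nat_lit 4520161715199))))) (T.h (P (nat_lit 0)) (T.h (T.h (P (nat_lit 0)) (M (nat_lit 18214856339967))) (P (nat_lit 0)))))) (T.h (T.h (T.h (M (nat_lit 8105186808818221187071)) (T.h (P (nat_lit 0)) (M (nat_lit 578246134136831)))) (T.h (P (nat_lit 0)) (M (nat_lit 19166517158117375)))) (T.h (T.h (P (nat_lit 0)) (T.h (T.h (P (nat_lit 0)) (P (nat_lit 5447580911872))) (P (nat_lit 0)))) (M (nat_lit 8938710452797439))))))), (T.h (T.h (P (nat_lit 0)) (T.h (T.h (P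 (nat_lit 14143915709784305992583872512)) (T.h (P (nat_lit 0)) (T.h (M (nat_lit 71315698274066231197695)) (T.h (P (nat_lit 0)) (P (nat_lit 8208545001439232)))))) (T.h (P (nat_lit 0)) (T.h (T.h (P (nat_lit 5554121537654855041024)) (T.h (P (nat_lit 0)) (P (nat_lit 32756148533133312)))) (T.h (P (nat_lit 0)) (P (nat_lit 26821480240742400))))))) (T.h (T.h (T.h (P (nat_lit 0)) (T.h (M (nat_lit 1786891951884896965754879)) (T.h (P (nat_lit 0)) (P (nat_lit 27420855437877051392))))) (T.h (P (nat_lit 0)) (T.h (T.h (P (nat_lit 0)) (M (nat_lit 20838505919270617087))) (P (nat_lit 0))))) (T.h (T.h (P (nat_lit 0)) (T.h (T.h (M (nat_lit 71315698274066231197695)) (T.h (P (nat_lit 0)) (P (nat_lit 50991262593449984)))) (T.h (P (nat_lit 0)) (P (nat_lit 32756148533133312))))) (T.h (T.h (T.h (P (nat_lit 0)) (P (nat_lit 27420855437877051392))) (P (nat_lit 0))) (T.h (T.h (P (nat_lit 0)) (P (nat_lit 8208545001439232))) (P (nat_lit 0))))))), (P (nat_lit 0)), (P (nat_lit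 0)), (T.h (T.h (T.h (P (nat_lit 0)) (T.h (M (nat_lit 2547540643335990035118817279)) (T.h (P (nat_lit 0)) (T.h (M (nat_lit 392783585823669878783)) (T.h (P (nat_lit 0)) (P (nat_lit 965174953410560))))))) (T.h (P (nat_lit 0)) (T.h (T.h (P (nat_lit 0)) (T.h (M (nat_lit 34455666698401404157951)) (T.h (P (nat_lit 0)) (M (nat_lit 584082030985215))))) (T.h (P (nat_lit 0)) (T.h (T.h (P (nat_lit 0)) (P (nat_lit 2625970948096000))) (P (nat_lit 0))))))) (T.h (T.h (P (nat_lit 0)) (T.h (T.h (P (nat_lit 18381355421258832978903040)) (T.h (P (nat_lit 0)) (P (nat_lit 36613268445365010432)))) (T.h (P (nat_lit 0)) (M (nat_lit 7114211940729094143))))) (T.h (T.h (T.h (P (nat_lit 0)) (T.h (P (nat_lit 19946718446392155570176)) (T.h (P (nat_lit 0)) (M (nat_lit 3402133379809279))))) (T.h (P (nat_lit 0)) (T.h (T.h (P (nat_lit 0)) (P (nat_lit 4932788028899328))) (P (nat_lit 0))))) (T.h (T.h (P (nat_lit 0)) (P (nat_lit 23203781688285986816))) (T.h (T.h (T.h (P (nat_lit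 0)) (M (nat_lit 3801332291633151))) (P (nat_lit 0))) (P (nat_lit 0)))))))]
def lQm_13 : List (T ℤ) := [(P (nat_lit 0)), (P (nat_lit 0)), (P (nat_lit 0)), (P (nat_lit 0)), (P (nat_lit 0)), (P (nat_lit 0)), (T.h (T.h (T.h (P (nat_lit 2362981971938681723231315951616)) (T.h (P (nat_lit 0)) (T.h (P (nat_lit 2807452377464748726288384)) (T.h (P (nat_lit 0)) (T.h (P (nat_lit 1473600440821088256)) (T.h (P (nat_lit 0)) (P (nat_lit 1881683625120)))))))) (T.h (P (nat_lit 0)) (T.h (T.h (M (nat_lit 7333312270972622047543295)) (T.h (P (nat_lit 0)) (T.h (M (nat_lit 5859465466359054335)) (T.h (P (nat_lit 0)) (P (nat_lit 1042106905216)))))) (T.h (P (nat_lit 0)) (T.h (T.h (P (nat_lit 2883080607284330496)) (T.h (P (nat_lit 0)) (P (nat_lit 5661848525520)))) (T.h (P (nat_lit 0)) (M (nat_lit 938032279007)))))))) (T.h (T.h (P (nat_lit 0)) (T.h (T.h (P (nat_lit 0)) (T.h (M (nat_lit 50356209117790411423743)) (T.h (P (nat_lit 0)) (P (nat_lit 40788069370691584))))) (T.h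 (P (nat_lit 0)) (T.h (T.h (P (nat_lit 0)) (M (nat_lit 124448709464817663))) (P (nat_lit 0)))))) (T.h (T.h (T.h (P (nat_lit 2807452377464748726288384)) (T.h (P (nat_lit 0)) (T.h (P (nat_lit 47444693086864670720)) (T.h (P (nat_lit 0)) (M (nat_lit 18230505796079)))))) (T.h (P (nat_lit 0)) (T.h (T.h (M (nat_lit 5859465466359054335)) (T.h (P (nat_lit 0)) (M (nat_lit 2800608362303)))) (T.h (P (nat_lit 0)) (P (nat_lit 5661848525520)))))) (T.h (T.h (P (nat_lit 0)) (T.h (T.h (P (nat_lit 0)) (P (nat_lit 40788069370691584))) (P (nat_lit 0)))) (T.h (T.h (T.h (P (nat_lit 1473600440821088256)) (T.h (P (nat_lit 0)) (M (nat_lit 18230505796079)))) (T.h (P (nat_lit 0)) (P (nat_lit 1042106905216)))) (T.h (P (nat_lit 0)) (P (nat_lit 1881683625120)))))))), (T.h (T.h (T.h (P (nat_lit 0)) (T.h (M (nat_lit 11005145223650182096316530687)) (T.h (P (nat_lit 0)) (T.h (M (nat_lit 5741794418175510577151)) (T.h (P (nat_lit 0)) (M (nat_lit 4029155842719743))))))) (T.h (P (nat_lit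 0)) (T.h (T.h (P (nat_lit 0)) (T.h (P (nat_lit 20325239418068966309888)) (T.h (P (nat_lit 0)) (M (nat_lit 5139061906145279))))) (T.h (P (nat_lit 0)) (T.h (T.h (P (nat_lit 0)) (M (nat_lit 280878511489023))) (P (nat_lit 0))))))) (T.h (T.h (P (nat_lit 0)) (T.h (T.h (P (nat_lit 17541619870994263948918784)) (T.h (P (nat_lit 0)) (T.h (M (nat_lit 205831188913407918079)) (T.h (P (nat_lit 0)) (M (nat_lit 6301638309735)))))) (T.h (P (nat_lit 0)) (T.h (T.h (P (nat_lit 49482143641827803136)) (T.h (P (nat_lit 0)) (M (nat_lit 9172057143023)))) (T.h (P (nat_lit 0)) (M (nat_lit 536236352935))))))) (T.h (T.h (T.h (P (nat_lit 0)) (T.h (M (nat_lit 39490502087022798176255)) (T.h (P (nat_lit 0)) (P (nat_lit 31548207555444736))))) (T.h (P (nat_lit 0)) (T.h (T.h (P (nat_lit 0)) (M (nat_lit 6667066154123263))) (P (nat_lit 0))))) (T.h (T.h (P (nat_lit 0)) (T.h (T.h (P (nat_lit 843162690380627968)) (T.h (P (nat_lit 0)) (P (nat_lit 8975987171200)))) (T.h (P (nat_lit 0))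 (P (nat_lit 4388847908528))))) (T.h (T.h (T.h (P (nat_lit 0)) (P (nat_lit 56707233229471744))) (P (nat_lit 0))) (T.h (T.h (P (nat_lit 0)) (M (nat_lit 4719196154695))) (P (nat_lit 0))))))))]
def lQm_14 : List (T ℤ) := [(T.h (T.h (T.h (M (nat_lit 15835445583881214503361032749055)) (T.h (P (nat_lit 0)) (T.h (P (nat_lit 5078850608105316436410368)) (T.h (P (nat_lit 0)) (T.h (M (nat_lit 9751005981399056383)) (T.h (P (nat_lit 0)) (M (nat_lit 8507132336751)))))))) (T.h (P (nat_lit 0)) (T.h (T.h (P (nat_lit 27829060430611715415080960)) (T.h (P (nat_lit 0)) (T.h (M (nat_lit 62468435583149539327)) (T.h (P (nat_lit 0)) (M (nat_lit 16452623026111)))))) (T.h (P (nat_lit 0)) (T.h (T.h (P (nat_lit 8856044916250247168)) (T.h (P (nat_lit 0)) (M (nat_lit 8671366263727)))) (T.h (P (nat_lit 0)) (M (nat_lit 1807611555343)))))))) (T.h (T.h (P (nat_lit 0)) (T.h (T.h (P (nat_lit 0)) (T.h (P (nat_lit 137274296418244684152832)) (T.h (P (nat_lit 0)) (M (nat_lit 89082000361291775)))))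 (T.h (P (nat_lit 0)) (T.h (T.h (P (nat_lit 0)) (P (nat_lit 164907919411740672))) (P (nat_lit 0)))))) (T.h (T.h (T.h (M (nat_lit 15954732730147194716291071)) (T.h (P (nat_lit 0)) (T.h (M (nat_lit 14048468776677015551)) (T.h (P (nat_lit 0)) (P (nat_lit 37577714858544)))))) (T.h (P (nat_lit 0)) (T.h (T.h (M (nat_lit 25355989848697077759)) (T.h (P (nat_lit 0)) (P (nat_lit 14277571269584)))) (T.h (P (nat_lit 0)) (M (nat_lit 6732252487071)))))) (T.h (T.h (P (nat_lit 0)) (T.h (T.h (P (nat_lit 0)) (M (nat_lit 38572466754813951))) (P (nat_lit 0)))) (T.h (T.h (T.h (M (nat_lit 19887400155925708799)) (T.h (P (nat_lit 0)) (P (nat_lit 29692863900784)))) (T.h (P (nat_lit 0)) (P (nat_lit 15366368407824)))) (T.h (P (nat_lit 0)) (M (nat_lit 4773610931599)))))))), (T.h (T.h (T.h (P (nat_lit 0)) (T.h (P (nat_lit 4304148551281740831751405568)) (T.h (P (nat_lit 0)) (T.h (P (nat_lit 16707090653062109331456)) (T.h (P (nat_lit 0)) (P (nat_lit 5776898915696640)))))))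 (T.h (P (nat_lit 0)) (T.h (T.h (P (nat_lit 0)) (T.h (P (nat_lit 25313360426532698324992)) (T.h (P (nat_lit 0)) (P (nat_lit 26109669090557952))))) (T.h (P (nat_lit 0)) (T.h (T.h (P (nat_lit 0)) (P (nat_lit 39992299983962112))) (P (nat_lit 0))))))) (T.h (T.h (P (nat_lit 0)) (T.h (T.h (M (nat_lit 10494658871746831442771967)) (T.h (P (nat_lit 0)) (T.h (P (nat_lit 166341497935569616896)) (T.h (P (nat_lit 0)) (P (nat_lit 4401048221824)))))) (T.h (P (nat_lit 0)) (T.h (T.h (M (nat_lit 34139594727559790591)) (T.h (P (nat_lit 0)) (M (nat_lit 12743561461375)))) (T.h (P (nat_lit 0)) (P (nat_lit 14192755560128))))))) (T.h (T.h (T.h (P (nat_lit 0)) (T.h (P (nat_lit 1015608543622518013952)) (T.h (P (nat_lit 0)) (M (nat_lit 52808192605061119))))) (T.h (P (nat_lit 0)) (T.h (T.h (P (nat_lit 0)) (P (nat_lit 22080326634962944))) (P (nat_lit 0))))) (T.h (T.h (P (nat_lit 0)) (T.h (T.h (P (nat_lit 13063050751532597248)) (T.h (P (nat_lit 0)) (M (nat_lit 337539405119))))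 (T.h (P (nat_lit 0)) (M (nat_lit 19930650988863))))) (T.h (T.h (T.h (P (nat_lit 0)) (M (nat_lit 92647970569584639))) (P (nat_lit 0))) (T.h (T.h (P (nat_lit 0)) (P (nat_lit 6448005040192))) (P (nat_lit 0)))))))), (T.h (T.h (T.h (P (nat_lit 848019981192476839092825358336)) (T.h (P (nat_lit 0)) (T.h (M (nat_lit 3438041479358372487626751)) (T.h (P (nat_lit 0)) (P (nat_lit 3512947433225060352)))))) (T.h (P (nat_lit 0)) (T.h (T.h (M (nat_lit 10653213847725133906575359)) (T.h (P (nat_lit 0)) (P (nat_lit 3300389089831813120)))) (T.h (P (nat_lit 0)) (M (nat_lit 11113978180799561727)))))) (T.h (T.h (P (nat_lit 0)) (T.h (T.h (P (nat_lit 0)) (T.h (M (nat_lit 41729021910207325798399)) (T.h (P (nat_lit 0)) (P (nat_lit 4819333066915840))))) (T.h (P (nat_lit 0)) (T.h (T.h (P (nat_lit 0)) (P (nat_lit 8839026266406912))) (P (nat_lit 0)))))) (T.h (T.h (T.h (P (nat_lit 6614624667399100999663616)) (T.h (P (nat_lit 0)) (P (nat_lit 19910758226580209664)))) (T.h (P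 (nat_lit 0)) (M (nat_lit 3947790254513061887)))) (T.h (T.h (P (nat_lit 0)) (T.h (T.h (P (nat_lit 0)) (M (nat_lit 5405502678335487))) (P (nat_lit 0)))) (P (nat_lit 30926891337990012928)))))), (P (nat_lit 0)), (P (nat_lit 0)), (T.h (T.h (P (nat_lit 0)) (T.h (T.h (P (nat_lit 0)) (T.h (M (nat_lit 1783583222540862459215871)) (T.h (P (nat_lit 0)) (T.h (M (nat_lit 968861825208680447)) (T.h (P (nat_lit 0)) (M (nat_lit 723600243695))))))) (T.h (P (nat_lit 0)) (T.h (T.h (P (nat_lit 0)) (T.h (M (nat_lit 968861825208680447)) (T.h (P (nat_lit 0)) (P (nat_lit 1106006924448))))) (T.h (P (nat_lit 0)) (T.h (T.h (P (nat_lit 0)) (M (nat_lit 723600243695))) (P (nat_lit 0)))))))) (T.h (T.h (T.h (P (nat_lit 292744442000501060956848128)) (T.h (P (nat_lit 0)) (T.h (M (nat_lit 71490041528832753663)) (T.h (P (nat_lit 0)) (M (nat_lit 7565409483816959)))))) (T.h (P (nat_lit 0)) (T.h (T.h (M (nat_lit 71490041528832753663)) (T.h (P (nat_lit 0)) (M (nat_lit 7318168459542527))))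 (T.h (P (nat_lit 0)) (M (nat_lit 7565409483816959)))))) (T.h (T.h (P (nat_lit 0)) (T.h (T.h (P (nat_lit 0)) (T.h (M (nat_lit 9687899242886070271)) (T.h (P (nat_lit 0)) (P (nat_lit 6132761592576))))) (T.h (P (nat_lit 0)) (T.h (T.h (P (nat_lit 0)) (P (nat_lit 6132761592576))) (P (nat_lit 0)))))) (T.h (T.h (T.h (P (nat_lit 578675089556927152128)) (T.h (P (nat_lit 0)) (M (nat_lit 208462894661631)))) (T.h (P (nat_lit 0)) (M (nat_lit 208462894661631)))) (T.h (T.h (P (nat_lit 0)) (T.h (T.h (P (nat_lit 0)) (P (nat_lit 18277536452736))) (P (nat_lit 0)))) (M (nat_lit 1348496507797503))))))), (T.h (T.h (P (nat_lit 0)) (T.h (T.h (M (nat_lit 9188822945411684451682877439)) (T.h (P (nat_lit 0)) (T.h (P (nat_lit 4503885725793601454080)) (T.h (P (nat_lit 0)) (M (nat_lit 157814033907711)))))) (T.h (P (nat_lit 0)) (T.h (T.h (M (nat_lit 18496271202248279719935)) (T.h (P (nat_lit 0)) (M (nat_lit 4368105829269503)))) (T.h (P (nat_lit 0)) (M (nat_lit 16740837449203711)))))))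 (T.h (T.h (T.h (P (nat_lit 0)) (T.h (M (nat_lit 9944284666342197386280959)) (T.h (P (nat_lit 0)) (T.h (M (nat_lit 23358221682462425087)) (T.h (P (nat_lit 0)) (P (nat_lit 2310447738544))))))) (T.h (P (nat_lit 0)) (T.h (T.h (P (nat_lit 0)) (T.h (M (nat_lit 143476815896919408639)) (T.h (P (nat_lit 0)) (M (nat_lit 5889195034887))))) (T.h (P (nat_lit 0)) (T.h (T.h (P (nat_lit 0)) (M (nat_lit 2948687322799))) (P (nat_lit 0))))))) (T.h (T.h (P (nat_lit 0)) (T.h (T.h (P (nat_lit 4503885725793601454080)) (T.h (P (nat_lit 0)) (P (nat_lit 213022691705815040)))) (T.h (P (nat_lit 0)) (M (nat_lit 4368105829269503))))) (T.h (T.h (T.h (P (nat_lit 0)) (T.h (M (nat_lit 23358221682462425087)) (T.h (P (nat_lit 0)) (M (nat_lit 5934710937967))))) (T.h (P (nat_lit 0)) (T.h (T.h (P (nat_lit 0)) (M (nat_lit 5889195034887))) (P (nat_lit 0))))) (T.h (T.h (P (nat_lit 0)) (M (nat_lit 157814033907711))) (T.h (T.h (T.h (P (nat_lit 0)) (P (nat_lit 2310447738544))) (P (nat_lit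 0))) (P (nat_lit 0)))))))), (T.h (T.h (P (nat_lit 0)) (T.h (T.h (P (nat_lit 0)) (T.h (P (nat_lit 44694462760537169588125696)) (T.h (P (nat_lit 0)) (T.h (M (nat_lit 5659509649276141567)) (T.h (P (nat_lit 0)) (M (nat_lit 1102750372303))))))) (T.h (P (nat_lit 0)) (T.h (T.h (P (nat_lit 0)) (T.h (M (nat_lit 11452942416558948351)) (T.h (P (nat_lit 0)) (M (nat_lit 12260400160623))))) (T.h (P (nat_lit 0)) (T.h (T.h (P (nat_lit 0)) (M (nat_lit 10914695388015))) (P (nat_lit 0)))))))) (T.h (T.h (T.h (P (nat_lit 4038671708212743718947520512)) (T.h (P (nat_lit 0)) (T.h (M (nat_lit 212304625856367424438271)) (T.h (P (nat_lit 0)) (M (nat_lit 77564689659232255)))))) (T.h (P (nat_lit 0)) (T.h (T.h (P (nat_lit 77247011222601508847616)) (T.h (P (nat_lit 0)) (M (nat_lit 22636712412643327)))) (T.h (P (nat_lit 0)) (P (nat_lit 24253183682134016)))))) (T.h (T.h (P (nat_lit 0)) (T.h (T.h (P (nat_lit 0)) (T.h (P (nat_lit 193396473526025715712)) (T.h (P (nat_lit 0)) (M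 (nat_lit 18575295500271))))) (T.h (P (nat_lit 0)) (T.h (T.h (P (nat_lit 0)) (M (nat_lit 27622295623215))) (P (nat_lit 0)))))) (T.h (T.h (T.h (P (nat_lit 30872122181433209913344)) (T.h (P (nat_lit 0)) (P (nat_lit 75833794379677696)))) (T.h (P (nat_lit 0)) (M (nat_lit 51668033374715903)))) (T.h (T.h (P (nat_lit 0)) (T.h (T.h (P (nat_lit 0)) (M (nat_lit 94064231272143))) (P (nat_lit 0)))) (M (nat_lit 5026790275268607)))))))]
def lQm_15 : List (T ℤ) := [(T.h (T.h (P (nat_lit 0)) (T.h (T.h (P (nat_lit 5002433316995141053611769856)) (T.h (P (nat_lit 0)) (T.h (M (nat_lit 8700266256169554673663)) (T.h (P (nat_lit 0)) (P (nat_lit 112770799911600128)))))) (T.h (P (nat_lit 0)) (T.h (T.h (P (nat_lit 64860617282329165955072)) (T.h (P (nat_lit 0)) (M (nat_lit 8675185806737407)))) (T.h (P (nat_lit 0)) (P (nat_lit 37256538694156288))))))) (T.h (T.h (T.h (P (nat_lit 0)) (T.h (P (nat_lit 60254104789067815534460928)) (T.h (P (nat_lit 0)) (T.h (M (nat_lit 83831265369020956671))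 (T.h (P (nat_lit 0)) (M (nat_lit 74682600418175))))))) (T.h (P (nat_lit 0)) (T.h (T.h (P (nat_lit 0)) (T.h (P (nat_lit 122238363249976279040)) (T.h (P (nat_lit 0)) (P (nat_lit 7268007345152))))) (T.h (P (nat_lit 0)) (T.h (T.h (P (nat_lit 0)) (M (nat_lit 4830483669119))) (P (nat_lit 0))))))) (T.h (T.h (P (nat_lit 0)) (T.h (T.h (M (nat_lit 64074607215303530119167)) (T.h (P (nat_lit 0)) (P (nat_lit 73061724823420928)))) (T.h (P (nat_lit 0)) (M (nat_lit 37485078654844927))))) (T.h (T.h (T.h (P (nat_lit 0)) (T.h (P (nat_lit 52593641093391712256)) (T.h (P (nat_lit 0)) (P (nat_lit 38518769153536))))) (T.h (P (nat_lit 0)) (T.h (T.h (P (nat_lit 0)) (M (nat_lit 20210294340287))) (P (nat_lit 0))))) (T.h (T.h (P (nat_lit 0)) (M (nat_lit 61092735884722175))) (T.h (T.h (T.h (P (nat_lit 0)) (M (nat_lit 36218528417215))) (P (nat_lit 0))) (P (nat_lit 0)))))))), (T.h (T.h (P (nat_lit 0)) (T.h (T.h (P (nat_lit 0)) (T.h (P (nat_lit 34949159902444343565221888))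 (T.h (P (nat_lit 0)) (M (nat_lit 130808218232064835583))))) (T.h (P (nat_lit 0)) (T.h (T.h (P (nat_lit 0)) (P (nat_lit 18668642047161794560))) (P (nat_lit 0)))))) (T.h (T.h (T.h (M (nat_lit 3133521640352018543595749375)) (T.h (P (nat_lit 0)) (T.h (P (nat_lit 3848273589639705526272)) (T.h (P (nat_lit 0)) (P (nat_lit 107296303587655680)))))) (T.h (P (nat_lit 0)) (T.h (T.h (M (nat_lit 10530773426254924218367)) (T.h (P (nat_lit 0)) (P (nat_lit 48253519760162816)))) (T.h (P (nat_lit 0)) (M (nat_lit 25399662819524607)))))) (T.h (T.h (P (nat_lit 0)) (T.h (T.h (P (nat_lit 0)) (P (nat_lit 64795198108966322176))) (P (nat_lit 0)))) (T.h (T.h (T.h (M (nat_lit 6131544820029419683839)) (T.h (P (nat_lit 0)) (M (nat_lit 24755005882941439)))) (T.h (P (nat_lit 0)) (P (nat_lit 3541496266850304)))) (T.h (P (nat_lit 0)) (M (nat_lit 3746641894768639))))))), (P (nat_lit 0)), (P (nat_lit 0)), (T.h (T.h (T.h (P (nat_lit 2362981971938681723231315951616)) (T.h (P (nat_lit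 0)) (T.h (M (nat_lit 7333312270972622047543295)) (T.h (P (nat_lit 0)) (T.h (P (nat_lit 2883080607284330496)) (T.h (P (nat_lit 0)) (M (nat_lit 938032279007)))))))) (T.h (P (nat_lit 0)) (T.h (T.h (P (nat_lit 2807452377464748726288384)) (T.h (P (nat_lit 0)) (T.h (M (nat_lit 5859465466359054335)) (T.h (P (nat_lit 0)) (P (nat_lit 5661848525520)))))) (T.h (P (nat_lit 0)) (T.h (T.h (P (nat_lit 1473600440821088256)) (T.h (P (nat_lit 0)) (P (nat_lit 1042106905216)))) (T.h (P (nat_lit 0)) (P (nat_lit 1881683625120)))))))) (T.h (T.h (P (nat_lit 0)) (T.h (T.h (P (nat_lit 0)) (T.h (M (nat_lit 50356209117790411423743)) (T.h (P (nat_lit 0)) (M (nat_lit 124448709464817663))))) (T.h (P (nat_lit 0)) (T.h (T.h (P (nat_lit 0)) (P (nat_lit 40788069370691584))) (P (nat_lit 0)))))) (T.h (T.h (T.h (P (nat_lit 2807452377464748726288384)) (T.h (P (nat_lit 0)) (T.h (M (nat_lit 5859465466359054335)) (T.h (P (nat_lit 0)) (P (nat_lit 5661848525520)))))) (T.h (P (nat_lit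 0)) (T.h (T.h (P (nat_lit 47444693086864670720)) (T.h (P (nat_lit 0)) (M (nat_lit 2800608362303)))) (T.h (P (nat_lit 0)) (M (nat_lit 18230505796079)))))) (T.h (T.h (P (nat_lit 0)) (T.h (T.h (P (nat_lit 0)) (P (nat_lit 40788069370691584))) (P (nat_lit 0)))) (T.h (T.h (T.h (P (nat_lit 1473600440821088256)) (T.h (P (nat_lit 0)) (P (nat_lit 1042106905216)))) (T.h (P (nat_lit 0)) (M (nat_lit 18230505796079)))) (T.h (P (nat_lit 0)) (P (nat_lit 1881683625120)))))))), (T.h (T.h (T.h (P (nat_lit 0)) (T.h (M (nat_lit 9188822945411684451682877439)) (T.h (P (nat_lit 0)) (T.h (M (nat_lit 18496271202248279719935)) (T.h (P (nat_lit 0)) (M (nat_lit 16740837449203711))))))) (T.h (P (nat_lit 0)) (T.h (T.h (P (nat_lit 0)) (T.h (P (nat_lit 4503885725793601454080)) (T.h (P (nat_lit 0)) (M (nat_lit 4368105829269503))))) (T.h (P (nat_lit 0)) (T.h (T.h (P (nat_lit 0)) (M (nat_lit 157814033907711))) (P (nat_lit 0))))))) (T.h (T.h (P (nat_lit 0)) (T.h (T.h (M (nat_lit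 9944284666342197386280959)) (T.h (P (nat_lit 0)) (T.h (M (nat_lit 143476815896919408639)) (T.h (P (nat_lit 0)) (M (nat_lit 2948687322799)))))) (T.h (P (nat_lit 0)) (T.h (T.h (M (nat_lit 23358221682462425087)) (T.h (P (nat_lit 0)) (M (nat_lit 5889195034887)))) (T.h (P (nat_lit 0)) (P (nat_lit 2310447738544))))))) (T.h (T.h (T.h (P (nat_lit 0)) (T.h (P (nat_lit 4503885725793601454080)) (T.h (P (nat_lit 0)) (M (nat_lit 4368105829269503))))) (T.h (P (nat_lit 0)) (T.h (T.h (P (nat_lit 0)) (P (nat_lit 213022691705815040))) (P (nat_lit 0))))) (T.h (T.h (P (nat_lit 0)) (T.h (T.h (M (nat_lit 23358221682462425087)) (T.h (P (nat_lit 0)) (M (nat_lit 5889195034887)))) (T.h (P (nat_lit 0)) (M (nat_lit 5934710937967))))) (T.h (T.h (T.h (P (nat_lit 0)) (M (nat_lit 157814033907711))) (P (nat_lit 0))) (T.h (T.h (P (nat_lit 0)) (P (nat_lit 2310447738544))) (P (nat_lit 0)))))))), (T.h (T.h (T.h (M (nat_lit 6194606961876194113615621521407)) (T.h (P (nat_lit 0))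 (T.h (M (nat_lit 9289036847782844990226431)) (T.h (P (nat_lit 0)) (T.h (P (nat_lit 21786340869195956224)) (T.h (P (nat_lit 0)) (P (nat_lit 11600234825088)))))))) (T.h (P (nat_lit 0)) (T.h (T.h (M (nat_lit 9289036847782844990226431)) (T.h (P (nat_lit 0)) (T.h (P (nat_lit 55315100712977825792)) (T.h (P (nat_lit 0)) (M (nat_lit 35804570608575)))))) (T.h (P (nat_lit 0)) (T.h (T.h (P (nat_lit 21786340869195956224)) (T.h (P (nat_lit 0)) (M (nat_lit 35804570608575)))) (T.h (P (nat_lit 0)) (P (nat_lit 11600234825088)))))))) (T.h (T.h (P (nat_lit 0)) (T.h (T.h (P (nat_lit 0)) (T.h (M (nat_lit 366330729739845548113919)) (T.h (P (nat_lit 0)) (P (nat_lit 57754847386075136))))) (T.h (P (nat_lit 0)) (T.h (T.h (P (nat_lit 0)) (P (nat_lit 57754847386075136))) (P (nat_lit 0)))))) (T.h (T.h (T.h (M (nat_lit 9289036847782844990226431)) (T.h (P (nat_lit 0)) (T.h (P (nat_lit 55315100712977825792)) (T.h (P (nat_lit 0)) (M (nat_lit 35804570608575)))))) (T.h (P (nat_lit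 0)) (T.h (T.h (P (nat_lit 55315100712977825792)) (T.h (P (nat_lit 0)) (M (nat_lit 11893771759967)))) (T.h (P (nat_lit 0)) (M (nat_lit 35804570608575)))))) (T.h (T.h (P (nat_lit 0)) (T.h (T.h (P (nat_lit 0)) (P (nat_lit 57754847386075136))) (P (nat_lit 0)))) (T.h (T.h (T.h (P (nat_lit 21786340869195956224)) (T.h (P (nat_lit 0)) (M (nat_lit 35804570608575)))) (T.h (P (nat_lit 0)) (M (nat_lit 35804570608575)))) (T.h (P (nat_lit 0)) (P (nat_lit 11600234825088)))))))), (T.h (T.h (T.h (P (nat_lit 0)) (T.h (M (nat_lit 68616482929058726596929650687)) (T.h (P (nat_lit 0)) (T.h (M (nat_lit 4403951820931017474047)) (T.h (P (nat_lit 0)) (M (nat_lit 14664786472402943))))))) (T.h (P (nat_lit 0)) (T.h (T.h (P (nat_lit 0)) (T.h (M (nat_lit 56845807564042388111359)) (T.h (P (nat_lit 0)) (P (nat_lit 74136206499512320))))) (T.h (P (nat_lit 0)) (T.h (T.h (P (nat_lit 0)) (P (nat_lit 148044154368163840))) (P (nat_lit 0))))))) (T.h (T.h (P (nat_lit 0)) (T.h (T.h (P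 (nat_lit 68666041866443020931432448)) (T.h (P (nat_lit 0)) (T.h (M (nat_lit 437683900156504702975)) (T.h (P (nat_lit 0)) (M (nat_lit 71288209895039)))))) (T.h (P (nat_lit 0)) (T.h (T.h (M (nat_lit 11016878522982465535)) (T.h (P (nat_lit 0)) (M (nat_lit 47079710856639)))) (T.h (P (nat_lit 0)) (M (nat_lit 3304377496703))))))) (T.h (T.h (T.h (P (nat_lit 0)) (T.h (M (nat_lit 56845807564042388111359)) (T.h (P (nat_lit 0)) (P (nat_lit 74136206499512320))))) (T.h (P (nat_lit 0)) (T.h (T.h (P (nat_lit 0)) (P (nat_lit 99912942197735424))) (P (nat_lit 0))))) (T.h (T.h (P (nat_lit 0)) (T.h (T.h (M (nat_lit 11016878522982465535)) (T.h (P (nat_lit 0)) (M (nat_lit 47079710856639)))) (T.h (P (nat_lit 0)) (M (nat_lit 1170294273791))))) (T.h (T.h (T.h (P (nat_lit 0)) (P (nat_lit 148044154368163840))) (P (nat_lit 0))) (T.h (T.h (P (nat_lit 0)) (M (nat_lit 3304377496703))) (P (nat_lit 0))))))))]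
def lQm_16 : List (T ℤ) := [(T.h (T.h (T.h (P (nat_lit 3142910377488252325730828943360)) (T.h (P (nat_lit 0)) (T.h (M (nat_lit 18536861392735411206356991)) (T.h (P (nat_lit 0)) (M (nat_lit 56634526376671576063)))))) (T.h (P (nat_lit 0)) (T.h (T.h (M (nat_lit 33691155774875871798624255)) (T.h (P (nat_lit 0)) (M (nat_lit 2844952429110231039)))) (T.h (P (nat_lit 0)) (M (nat_lit 43612476535541334015)))))) (T.h (T.h (P (nat_lit 0)) (T.h (T.h (P (nat_lit 0)) (T.h (M (nat_lit 77133057163773054287871)) (T.h (P (nat_lit 0)) (P (nat_lit 65556687411085312))))) (T.h (P (nat_lit 0)) (T.h (T.h (P (nat_lit 0)) (P (nat_lit 39398897938006016))) (P (nat_lit 0)))))) (T.h (T.h (T.h (M (nat_lit 33691155774875871798624255)) (T.h (P (nat_lit 0)) (M (nat_lit 2844952429110231039)))) (T.h (P (nat_lit 0)) (P (nat_lit 71619732868914216960)))) (T.h (T.h (P (nat_lit 0)) (T.h (T.h (P (nat_lit 0)) (P (nat_lit 39398897938006016))) (P (nat_lit 0)))) (M (nat_lit 43612476535541334015)))))),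 (P (nat_lit 0)), (P (nat_lit 0)), (T.h (T.h (P (nat_lit 0)) (T.h (T.h (M (nat_lit 11005145223650182096316530687)) (T.h (P (nat_lit 0)) (T.h (P (nat_lit 20325239418068966309888)) (T.h (P (nat_lit 0)) (M (nat_lit 280878511489023)))))) (T.h (P (nat_lit 0)) (T.h (T.h (M (nat_lit 5741794418175510577151)) (T.h (P (nat_lit 0)) (M (nat_lit 5139061906145279)))) (T.h (P (nat_lit 0)) (M (nat_lit 4029155842719743))))))) (T.h (T.h (T.h (P (nat_lit 0)) (T.h (P (nat_lit 17541619870994263948918784)) (T.h (P (nat_lit 0)) (T.h (P (nat_lit 49482143641827803136)) (T.h (P (nat_lit 0)) (M (nat_lit 536236352935))))))) (T.h (P (nat_lit 0)) (T.h (T.h (P (nat_lit 0)) (T.h (M (nat_lit 205831188913407918079)) (T.h (P (nat_lit 0)) (M (nat_lit 9172057143023))))) (T.h (P (nat_lit 0)) (T.h (T.h (P (nat_lit 0)) (M (nat_lit 6301638309735))) (P (nat_lit 0))))))) (T.h (T.h (P (nat_lit 0)) (T.h (T.h (M (nat_lit 39490502087022798176255)) (T.h (P (nat_lit 0)) (M (nat_lit 6667066154123263))))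 (T.h (P (nat_lit 0)) (P (nat_lit 31548207555444736))))) (T.h (T.h (T.h (P (nat_lit 0)) (T.h (P (nat_lit 843162690380627968)) (T.h (P (nat_lit 0)) (P (nat_lit 4388847908528))))) (T.h (P (nat_lit 0)) (T.h (T.h (P (nat_lit 0)) (P (nat_lit 8975987171200))) (P (nat_lit 0))))) (T.h (T.h (P (nat_lit 0)) (P (nat_lit 56707233229471744))) (T.h (T.h (T.h (P (nat_lit 0)) (M (nat_lit 4719196154695))) (P (nat_lit 0))) (P (nat_lit 0)))))))), (T.h (T.h (P (nat_lit 0)) (T.h (T.h (P (nat_lit 0)) (T.h (P (nat_lit 44694462760537169588125696)) (T.h (P (nat_lit 0)) (T.h (M (nat_lit 11452942416558948351)) (T.h (P (nat_lit 0)) (M (nat_lit 10914695388015))))))) (T.h (P (nat_lit 0)) (T.h (T.h (P (nat_lit 0)) (T.h (M (nat_lit 5659509649276141567)) (T.h (P (nat_lit 0)) (M (nat_lit 12260400160623))))) (T.h (P (nat_lit 0)) (T.h (T.h (P (nat_lit 0)) (M (nat_lit 1102750372303))) (P (nat_lit 0)))))))) (T.h (T.h (T.h (P (nat_lit 4038671708212743718947520512)) (T.h (P (nat_lit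 0)) (T.h (P (nat_lit 77247011222601508847616)) (T.h (P (nat_lit 0)) (P (nat_lit 24253183682134016)))))) (T.h (P (nat_lit 0)) (T.h (T.h (M (nat_lit 212304625856367424438271)) (T.h (P (nat_lit 0)) (M (nat_lit 22636712412643327)))) (T.h (P (nat_lit 0)) (M (nat_lit 77564689659232255)))))) (T.h (T.h (P (nat_lit 0)) (T.h (T.h (P (nat_lit 0)) (T.h (P (nat_lit 193396473526025715712)) (T.h (P (nat_lit 0)) (M (nat_lit 27622295623215))))) (T.h (P (nat_lit 0)) (T.h (T.h (P (nat_lit 0)) (M (nat_lit 18575295500271))) (P (nat_lit 0)))))) (T.h (T.h (T.h (P (nat_lit 30872122181433209913344)) (T.h (P (nat_lit 0)) (M (nat_lit 51668033374715903)))) (T.h (P (nat_lit 0)) (P (nat_lit 75833794379677696)))) (T.h (T.h (P (nat_lit 0)) (T.h (T.h (P (nat_lit 0)) (M (nat_lit 94064231272143))) (P (nat_lit 0)))) (M (nat_lit 5026790275268607))))))), (T.h (T.h (P (nat_lit 0)) (T.h (T.h (M (nat_lit 68616482929058726596929650687)) (T.h (P (nat_lit 0)) (T.h (M (nat_lit 56845807564042388111359))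 (T.h (P (nat_lit 0)) (P (nat_lit 148044154368163840)))))) (T.h (P (nat_lit 0)) (T.h (T.h (M (nat_lit 4403951820931017474047)) (T.h (P (nat_lit 0)) (P (nat_lit 74136206499512320)))) (T.h (P (nat_lit 0)) (M (nat_lit 14664786472402943))))))) (T.h (T.h (T.h (P (nat_lit 0)) (T.h (P (nat_lit 68666041866443020931432448)) (T.h (P (nat_lit 0)) (T.h (M (nat_lit 11016878522982465535)) (T.h (P (nat_lit 0)) (M (nat_lit 3304377496703))))))) (T.h (P (nat_lit 0)) (T.h (T.h (P (nat_lit 0)) (T.h (M (nat_lit 437683900156504702975)) (T.h (P (nat_lit 0)) (M (nat_lit 47079710856639))))) (T.h (P (nat_lit 0)) (T.h (T.h (P (nat_lit 0)) (M (nat_lit 71288209895039))) (P (nat_lit 0))))))) (T.h (T.h (P (nat_lit 0)) (T.h (T.h (M (nat_lit 56845807564042388111359)) (T.h (P (nat_lit 0)) (P (nat_lit 99912942197735424)))) (T.h (P (nat_lit 0)) (P (nat_lit 74136206499512320))))) (T.h (T.h (T.h (P (nat_lit 0)) (T.h (M (nat_lit 11016878522982465535)) (T.h (P (nat_lit 0)) (M (nat_lit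 1170294273791))))) (T.h (P (nat_lit 0)) (T.h (T.h (P (nat_lit 0)) (M (nat_lit 47079710856639))) (P (nat_lit 0))))) (T.h (T.h (P (nat_lit 0)) (P (nat_lit 148044154368163840))) (T.h (T.h (T.h (P (nat_lit 0)) (M (nat_lit 3304377496703))) (P (nat_lit 0))) (P (nat_lit 0)))))))), (T.h (T.h (P (nat_lit 0)) (T.h (T.h (P (nat_lit 0)) (T.h (M (nat_lit 8003037340627921316872191)) (T.h (P (nat_lit 0)) (M (nat_lit 111705972701661233151))))) (T.h (P (nat_lit 0)) (T.h (T.h (P (nat_lit 0)) (M (nat_lit 111705972701661233151))) (P (nat_lit 0)))))) (T.h (T.h (T.h (P (nat_lit 10143313764801585540136697856)) (T.h (P (nat_lit 0)) (T.h (P (nat_lit 11717009930323488669696)) (T.h (P (nat_lit 0)) (P (nat_lit 17500175588818944)))))) (T.h (P (nat_lit 0)) (T.h (T.h (P (nat_lit 11717009930323488669696)) (T.h (P (nat_lit 0)) (P (nat_lit 99231753168191488)))) (T.h (P (nat_lit 0)) (P (nat_lit 17500175588818944)))))) (T.h (T.h (P (nat_lit 0)) (T.h (T.h (P (nat_lit 0)) (P (nat_lit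 26010462300483354624))) (P (nat_lit 0)))) (T.h (T.h (T.h (P (nat_lit 45359257570254440628224)) (T.h (P (nat_lit 0)) (P (nat_lit 16691703478140928)))) (T.h (P (nat_lit 0)) (P (nat_lit 16691703478140928)))) (T.h (P (nat_lit 0)) (P (nat_lit 31566073880051712))))))), (P (nat_lit 0))]
def lQm_17 : List (T ℤ) := [(P (nat_lit 0)), (T.h (T.h (T.h (M (nat_lit 15835445583881214503361032749055)) (T.h (P (nat_lit 0)) (T.h (P (nat_lit 27829060430611715415080960)) (T.h (P (nat_lit 0)) (T.h (P (nat_lit 8856044916250247168)) (T.h (P (nat_lit 0)) (M (nat_lit 1807611555343)))))))) (T.h (P (nat_lit 0)) (T.h (T.h (P (nat_lit 5078850608105316436410368)) (T.h (P (nat_lit 0)) (T.h (M (nat_lit 62468435583149539327)) (T.h (P (nat_lit 0)) (M (nat_lit 8671366263727)))))) (T.h (P (nat_lit 0)) (T.h (T.h (M (nat_lit 9751005981399056383)) (T.h (P (nat_lit 0)) (M (nat_lit 16452623026111)))) (T.h (P (nat_lit 0)) (M (nat_lit 8507132336751)))))))) (T.h (T.h (P (nat_lit 0)) (T.h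 (T.h (P (nat_lit 0)) (T.h (P (nat_lit 137274296418244684152832)) (T.h (P (nat_lit 0)) (P (nat_lit 164907919411740672))))) (T.h (P (nat_lit 0)) (T.h (T.h (P (nat_lit 0)) (M (nat_lit 89082000361291775))) (P (nat_lit 0)))))) (T.h (T.h (T.h (M (nat_lit 15954732730147194716291071)) (T.h (P (nat_lit 0)) (T.h (M (nat_lit 25355989848697077759)) (T.h (P (nat_lit 0)) (M (nat_lit 6732252487071)))))) (T.h (P (nat_lit 0)) (T.h (T.h (M (nat_lit 14048468776677015551)) (T.h (P (nat_lit 0)) (P (nat_lit 14277571269584)))) (T.h (P (nat_lit 0)) (P (nat_lit 37577714858544)))))) (T.h (T.h (P (nat_lit 0)) (T.h (T.h (P (nat_lit 0)) (M (nat_lit 38572466754813951))) (P (nat_lit 0)))) (T.h (T.h (T.h (M (nat_lit 19887400155925708799)) (T.h (P (nat_lit 0)) (P (nat_lit 15366368407824)))) (T.h (P (nat_lit 0)) (P (nat_lit 29692863900784)))) (T.h (P (nat_lit 0)) (M (nat_lit 4773610931599)))))))), (T.h (T.h (T.h (P (nat_lit 0)) (T.h (P (nat_lit 5002433316995141053611769856))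 (T.h (P (nat_lit 0)) (T.h (P (nat_lit 64860617282329165955072)) (T.h (P (nat_lit 0)) (P (nat_lit 37256538694156288))))))) (T.h (P (nat_lit 0)) (T.h (T.h (P (nat_lit 0)) (T.h (M (nat_lit 8700266256169554673663)) (T.h (P (nat_lit 0)) (M (nat_lit 8675185806737407))))) (T.h (P (nat_lit 0)) (T.h (T.h (P (nat_lit 0)) (P (nat_lit 112770799911600128))) (P (nat_lit 0))))))) (T.h (T.h (P (nat_lit 0)) (T.h (T.h (P (nat_lit 60254104789067815534460928)) (T.h (P (nat_lit 0)) (T.h (P (nat_lit 122238363249976279040)) (T.h (P (nat_lit 0)) (M (nat_lit 4830483669119)))))) (T.h (P (nat_lit 0)) (T.h (T.h (M (nat_lit 83831265369020956671)) (T.h (P (nat_lit 0)) (P (nat_lit 7268007345152)))) (T.h (P (nat_lit 0)) (M (nat_lit 74682600418175))))))) (T.h (T.h (T.h (P (nat_lit 0)) (T.h (M (nat_lit 64074607215303530119167)) (T.h (P (nat_lit 0)) (M (nat_lit 37485078654844927))))) (T.h (P (nat_lit 0)) (T.h (T.h (P (nat_lit 0)) (P (nat_lit 73061724823420928))) (P (nat_lit 0)))))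 (T.h (T.h (P (nat_lit 0)) (T.h (T.h (P (nat_lit 52593641093391712256)) (T.h (P (nat_lit 0)) (M (nat_lit 20210294340287)))) (T.h (P (nat_lit 0)) (P (nat_lit 38518769153536))))) (T.h (T.h (T.h (P (nat_lit 0)) (M (nat_lit 61092735884722175))) (P (nat_lit 0))) (T.h (T.h (P (nat_lit 0)) (M (nat_lit 36218528417215))) (P (nat_lit 0)))))))), (T.h (T.h (T.h (P (nat_lit 3142910377488252325730828943360)) (T.h (P (nat_lit 0)) (T.h (M (nat_lit 33691155774875871798624255)) (T.h (P (nat_lit 0)) (M (nat_lit 43612476535541334015)))))) (T.h (P (nat_lit 0)) (T.h (T.h (M (nat_lit 18536861392735411206356991)) (T.h (P (nat_lit 0)) (M (nat_lit 2844952429110231039)))) (T.h (P (nat_lit 0)) (M (nat_lit 56634526376671576063)))))) (T.h (T.h (P (nat_lit 0)) (T.h (T.h (P (nat_lit 0)) (T.h (M (nat_lit 77133057163773054287871)) (T.h (P (nat_lit 0)) (P (nat_lit 39398897938006016))))) (T.h (P (nat_lit 0)) (T.h (T.h (P (nat_lit 0)) (P (nat_lit 65556687411085312))) (P (nat_lit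 0)))))) (T.h (T.h (T.h (M (nat_lit 33691155774875871798624255)) (T.h (P (nat_lit 0)) (P (nat_lit 71619732868914216960)))) (T.h (P (nat_lit 0)) (M (nat_lit 2844952429110231039)))) (T.h (T.h (P (nat_lit 0)) (T.h (T.h (P (nat_lit 0)) (P (nat_lit 39398897938006016))) (P (nat_lit 0)))) (M (nat_lit 43612476535541334015)))))), (P (nat_lit 0)), (P (nat_lit 0)), (T.h (T.h (P (nat_lit 0)) (T.h (T.h (P (nat_lit 4304148551281740831751405568)) (T.h (P (nat_lit 0)) (T.h (P (nat_lit 25313360426532698324992)) (T.h (P (nat_lit 0)) (P (nat_lit 39992299983962112)))))) (T.h (P (nat_lit 0)) (T.h (T.h (P (nat_lit 16707090653062109331456)) (T.h (P (nat_lit 0)) (P (nat_lit 26109669090557952)))) (T.h (P (nat_lit 0)) (P (nat_lit 5776898915696640))))))) (T.h (T.h (T.h (P (nat_lit 0)) (T.h (M (nat_lit 10494658871746831442771967)) (T.h (P (nat_lit 0)) (T.h (M (nat_lit 34139594727559790591)) (T.h (P (nat_lit 0)) (P (nat_lit 14192755560128))))))) (T.h (P (nat_lit 0)) (T.h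 (T.h (P (nat_lit 0)) (T.h (P (nat_lit 166341497935569616896)) (T.h (P (nat_lit 0)) (M (nat_lit 12743561461375))))) (T.h (P (nat_lit 0)) (T.h (T.h (P (nat_lit 0)) (P (nat_lit 4401048221824))) (P (nat_lit 0))))))) (T.h (T.h (P (nat_lit 0)) (T.h (T.h (P (nat_lit 1015608543622518013952)) (T.h (P (nat_lit 0)) (P (nat_lit 22080326634962944)))) (T.h (P (nat_lit 0)) (M (nat_lit 52808192605061119))))) (T.h (T.h (T.h (P (nat_lit 0)) (T.h (P (nat_lit 13063050751532597248)) (T.h (P (nat_lit 0)) (M (nat_lit 19930650988863))))) (T.h (P (nat_lit 0)) (T.h (T.h (P (nat_lit 0)) (M (nat_lit 337539405119))) (P (nat_lit 0))))) (T.h (T.h (P (nat_lit 0)) (M (nat_lit 92647970569584639))) (T.h (T.h (T.h (P (nat_lit 0)) (P (nat_lit 6448005040192))) (P (nat_lit 0))) (P (nat_lit 0)))))))), (T.h (T.h (P (nat_lit 0)) (T.h (T.h (P (nat_lit 0)) (T.h (P (nat_lit 34949159902444343565221888)) (T.h (P (nat_lit 0)) (P (nat_lit 18668642047161794560))))) (T.h (P (nat_lit 0)) (T.h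 (T.h (P (nat_lit 0)) (M (nat_lit 130808218232064835583))) (P (nat_lit 0)))))) (T.h (T.h (T.h (M (nat_lit 3133521640352018543595749375)) (T.h (P (nat_lit 0)) (T.h (M (nat_lit 10530773426254924218367)) (T.h (P (nat_lit 0)) (M (nat_lit 25399662819524607)))))) (T.h (P (nat_lit 0)) (T.h (T.h (P (nat_lit 3848273589639705526272)) (T.h (P (nat_lit 0)) (P (nat_lit 48253519760162816)))) (T.h (P (nat_lit 0)) (P (nat_lit 107296303587655680)))))) (T.h (T.h (P (nat_lit 0)) (T.h (T.h (P (nat_lit 0)) (P (nat_lit 64795198108966322176))) (P (nat_lit 0)))) (T.h (T.h (T.h (M (nat_lit 6131544820029419683839)) (T.h (P (nat_lit 0)) (P (nat_lit 3541496266850304)))) (T.h (P (nat_lit 0)) (M (nat_lit 24755005882941439)))) (T.h (P (nat_lit 0)) (M (nat_lit 3746641894768639)))))))]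
def lQm_18 : List (T ℤ) := [(P (nat_lit 0)), (P (nat_lit 0)), (T.h (T.h (T.h (P (nat_lit 848019981192476839092825358336)) (T.h (P (nat_lit 0)) (T.h (M (nat_lit 10653213847725133906575359)) (T.h (P (nat_lit 0)) (M (nat_lit 11113978180799561727)))))) (T.h (P (nat_lit 0)) (T.h (T.h (M (nat_lit 3438041479358372487626751)) (T.h (P (nat_lit 0)) (P (nat_lit 3300389089831813120)))) (T.h (P (nat_lit 0)) (P (nat_lit 3512947433225060352)))))) (T.h (T.h (P (nat_lit 0)) (T.h (T.h (P (nat_lit 0)) (T.h (M (nat_lit 41729021910207325798399)) (T.h (P (nat_lit 0)) (P (nat_lit 8839026266406912))))) (T.h (P (nat_lit 0)) (T.h (T.h (P (nat_lit 0)) (P (nat_lit 4819333066915840))) (P (nat_lit 0)))))) (T.h (T.h (T.h (P (nat_lit 6614624667399100999663616)) (T.h (P (nat_lit 0)) (M (nat_lit 3947790254513061887)))) (T.h (P (nat_lit 0)) (P (nat_lit 19910758226580209664)))) (T.h (T.h (P (nat_lit 0)) (T.h (T.h (P (nat_lit 0)) (M (nat_lit 5405502678335487))) (P (nat_lit 0))))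 (P (nat_lit 30926891337990012928)))))), (P (nat_lit 0)), (P (nat_lit 0)), (P (nat_lit 0)), (P (nat_lit 0)), (P (nat_lit 0))]
def lQm_19 : List (T ℤ) := [(T.h (T.h (P (nat_lit 0)) (T.h (T.h (P (nat_lit 382278186225956246805020672)) (T.h (P (nat_lit 0)) (T.h (P (nat_lit 4917025952193526628352)) (T.h (P (nat_lit 0)) (P (nat_lit 566836548272128)))))) (T.h (P (nat_lit 0)) (T.h (T.h (M (nat_lit 2314989451720488124415)) (T.h (P (nat_lit 0)) (P (nat_lit 13535529003122688)))) (T.h (P (nat_lit 0)) (M (nat_lit 1940894262886399))))))) (T.h (T.h (T.h (P (nat_lit 0)) (T.h (P (nat_lit 8967851728135020949274624)) (T.h (P (nat_lit 0)) (T.h (M (nat_lit 1632295132411723775)) (T.h (P (nat_lit 0)) (M (nat_lit 1262651453183))))))) (T.h (P (nat_lit 0)) (T.h (T.h (P (nat_lit 0)) (T.h (P (nat_lit 21437333873006477312)) (T.h (P (nat_lit 0)) (P (nat_lit 7808644584816))))) (T.h (P (nat_lit 0)) (T.h (T.h (P (nat_lit 0)) (P (nat_lit 9389964963200))) (P (nat_lit 0)))))))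 (T.h (T.h (P (nat_lit 0)) (T.h (T.h (M (nat_lit 6393028105238678077439)) (T.h (P (nat_lit 0)) (P (nat_lit 17704818290655232)))) (T.h (P (nat_lit 0)) (M (nat_lit 20917731012706303))))) (T.h (T.h (T.h (P (nat_lit 0)) (T.h (P (nat_lit 5808715515924840448)) (T.h (P (nat_lit 0)) (M (nat_lit 1954457784095))))) (T.h (P (nat_lit 0)) (T.h (T.h (P (nat_lit 0)) (M (nat_lit 14649144822207))) (P (nat_lit 0))))) (T.h (T.h (P (nat_lit 0)) (P (nat_lit 10182874572193792))) (T.h (T.h (T.h (P (nat_lit 0)) (M (nat_lit 6298334266991))) (P (nat_lit 0))) (P (nat_lit 0)))))))), (T.h (T.h (P (nat_lit 0)) (T.h (T.h (P (nat_lit 0)) (T.h (P (nat_lit 17541619870994263948918784)) (T.h (P (nat_lit 0)) (T.h (P (nat_lit 843162690380627968)) (T.h (P (nat_lit 0)) (M (nat_lit 4719196154695))))))) (T.h (P (nat_lit 0)) (T.h (T.h (P (nat_lit 0)) (T.h (P (nat_lit 49482143641827803136)) (T.h (P (nat_lit 0)) (P (nat_lit 4388847908528))))) (T.h (P (nat_lit 0)) (T.h (T.h (P (nat_lit 0))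 (M (nat_lit 536236352935))) (P (nat_lit 0)))))))) (T.h (T.h (T.h (M (nat_lit 11005145223650182096316530687)) (T.h (P (nat_lit 0)) (T.h (M (nat_lit 39490502087022798176255)) (T.h (P (nat_lit 0)) (P (nat_lit 56707233229471744)))))) (T.h (P (nat_lit 0)) (T.h (T.h (P (nat_lit 20325239418068966309888)) (T.h (P (nat_lit 0)) (M (nat_lit 6667066154123263)))) (T.h (P (nat_lit 0)) (M (nat_lit 280878511489023)))))) (T.h (T.h (P (nat_lit 0)) (T.h (T.h (P (nat_lit 0)) (T.h (M (nat_lit 205831188913407918079)) (T.h (P (nat_lit 0)) (P (nat_lit 8975987171200))))) (T.h (P (nat_lit 0)) (T.h (T.h (P (nat_lit 0)) (M (nat_lit 9172057143023))) (P (nat_lit 0)))))) (T.h (T.h (T.h (M (nat_lit 5741794418175510577151)) (T.h (P (nat_lit 0)) (P (nat_lit 31548207555444736)))) (T.h (P (nat_lit 0)) (M (nat_lit 5139061906145279)))) (T.h (T.h (P (nat_lit 0)) (T.h (T.h (P (nat_lit 0)) (M (nat_lit 6301638309735))) (P (nat_lit 0)))) (M (nat_lit 4029155842719743))))))), (T.h (T.h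 (P (nat_lit 0)) (T.h (T.h (M (nat_lit 16412601912802300674357329919)) (T.h (P (nat_lit 0)) (T.h (P (nat_lit 66547056180224958922752)) (T.h (P (nat_lit 0)) (P (nat_lit 26772851980058624)))))) (T.h (P (nat_lit 0)) (T.h (T.h (M (nat_lit 24913952668255625674751)) (T.h (P (nat_lit 0)) (P (nat_lit 36138227289112576)))) (T.h (P (nat_lit 0)) (P (nat_lit 6836981340864512))))))) (T.h (T.h (T.h (P (nat_lit 0)) (T.h (P (nat_lit 8447821923587479908122624)) (T.h (P (nat_lit 0)) (T.h (P (nat_lit 18426835693675216896)) (T.h (P (nat_lit 0)) (P (nat_lit 14337066975168))))))) (T.h (P (nat_lit 0)) (T.h (T.h (P (nat_lit 0)) (T.h (M (nat_lit 138309133156342562815)) (T.h (P (nat_lit 0)) (M (nat_lit 15616341643055))))) (T.h (P (nat_lit 0)) (T.h (T.h (P (nat_lit 0)) (M (nat_lit 28206262997471))) (P (nat_lit 0))))))) (T.h (T.h (P (nat_lit 0)) (T.h (T.h (P (nat_lit 66547056180224958922752)) (T.h (P (nat_lit 0)) (M (nat_lit 128055293209313279)))) (T.h (P (nat_lit 0)) (P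 (nat_lit 36138227289112576))))) (T.h (T.h (T.h (P (nat_lit 0)) (T.h (P (nat_lit 18426835693675216896)) (T.h (P (nat_lit 0)) (P (nat_lit 43766994916064))))) (T.h (P (nat_lit 0)) (T.h (T.h (P (nat_lit 0)) (M (nat_lit 15616341643055))) (P (nat_lit 0))))) (T.h (T.h (P (nat_lit 0)) (P (nat_lit 26772851980058624))) (T.h (T.h (T.h (P (nat_lit 0)) (P (nat_lit 14337066975168))) (P (nat_lit 0))) (P (nat_lit 0)))))))), (T.h (T.h (P (nat_lit 0)) (T.h (T.h (P (nat_lit 0)) (T.h (M (nat_lit 57987338973388860091793407)) (T.h (P (nat_lit 0)) (T.h (P (nat_lit 57443828061226139648)) (T.h (P (nat_lit 0)) (P (nat_lit 26887879288832))))))) (T.h (P (nat_lit 0)) (T.h (T.h (P (nat_lit 0)) (T.h (M (nat_lit 117840652395666735103)) (T.h (P (nat_lit 0)) (M (nat_lit 1913329872703))))) (T.h (P (nat_lit 0)) (T.h (T.h (P (nat_lit 0)) (M (nat_lit 10910827925823))) (P (nat_lit 0)))))))) (T.h (T.h (T.h (P (nat_lit 7180220735172970116427022336)) (T.h (P (nat_lit 0)) (T.h (P (nat_lit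 81238814070020872601600)) (T.h (P (nat_lit 0)) (M (nat_lit 75530142658265087)))))) (T.h (P (nat_lit 0)) (T.h (T.h (P (nat_lit 15475025479053248299008)) (T.h (P (nat_lit 0)) (M (nat_lit 15995042885500927)))) (T.h (P (nat_lit 0)) (P (nat_lit 20715710340333568)))))) (T.h (T.h (P (nat_lit 0)) (T.h (T.h (P (nat_lit 0)) (T.h (P (nat_lit 82087647970215329792)) (T.h (P (nat_lit 0)) (M (nat_lit 9298428385343))))) (T.h (P (nat_lit 0)) (T.h (T.h (P (nat_lit 0)) (P (nat_lit 19829994406848))) (P (nat_lit 0)))))) (T.h (T.h (T.h (M (nat_lit 44230263680022452633599)) (T.h (P (nat_lit 0)) (M (nat_lit 80256168116682751)))) (T.h (P (nat_lit 0)) (P (nat_lit 21552170617831424)))) (T.h (T.h (P (nat_lit 0)) (T.h (T.h (P (nat_lit 0)) (P (nat_lit 67063572229184))) (P (nat_lit 0)))) (M (nat_lit 1462772452884479))))))), (T.h (T.h (P (nat_lit 0)) (T.h (T.h (P (nat_lit 6099708548673304496447684608)) (T.h (P (nat_lit 0)) (T.h (M (nat_lit 39385658327280031629311)) (T.h (P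 (nat_lit 0)) (M (nat_lit 35543153834491903)))))) (T.h (P (nat_lit 0)) (T.h (T.h (P (nat_lit 17907237936627615531008)) (T.h (P (nat_lit 0)) (P (nat_lit 4731789076348928)))) (T.h (P (nat_lit 0)) (M (nat_lit 840173474381823))))))) (T.h (T.h (T.h (P (nat_lit 0)) (T.h (M (nat_lit 18571853267465370509246463)) (T.h (P (nat_lit 0)) (P (nat_lit 35935822232235802624))))) (T.h (P (nat_lit 0)) (T.h (T.h (P (nat_lit 0)) (M (nat_lit 2818795405779664895))) (P (nat_lit 0))))) (T.h (T.h (P (nat_lit 0)) (T.h (T.h (P (nat_lit 914033056629670281216)) (T.h (P (nat_lit 0)) (P (nat_lit 7400423263076352)))) (T.h (P (nat_lit 0)) (P (nat_lit 10230261391294464))))) (T.h (T.h (T.h (P (nat_lit 0)) (P (nat_lit 76155881187738386432))) (P (nat_lit 0))) (T.h (T.h (P (nat_lit 0)) (M (nat_lit 25421720942116863))) (P (nat_lit 0))))))), (P (nat_lit 0)), (P (nat_lit 0)), (T.h (T.h (T.h (P (nat_lit 0)) (T.h (P (nat_lit 382278186225956246805020672)) (T.h (P (nat_lit 0)) (T.h (M (nat_lit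 2314989451720488124415)) (T.h (P (nat_lit 0)) (M (nat_lit 1940894262886399))))))) (T.h (P (nat_lit 0)) (T.h (T.h (P (nat_lit 0)) (T.h (P (nat_lit 4917025952193526628352)) (T.h (P (nat_lit 0)) (P (nat_lit 13535529003122688))))) (T.h (P (nat_lit 0)) (T.h (T.h (P (nat_lit 0)) (P (nat_lit 566836548272128))) (P (nat_lit 0))))))) (T.h (T.h (P (nat_lit 0)) (T.h (T.h (P (nat_lit 8967851728135020949274624)) (T.h (P (nat_lit 0)) (T.h (P (nat_lit 21437333873006477312)) (T.h (P (nat_lit 0)) (P (nat_lit 9389964963200)))))) (T.h (P (nat_lit 0)) (T.h (T.h (M (nat_lit 1632295132411723775)) (T.h (P (nat_lit 0)) (P (nat_lit 7808644584816)))) (T.h (P (nat_lit 0)) (M (nat_lit 1262651453183))))))) (T.h (T.h (T.h (P (nat_lit 0)) (T.h (M (nat_lit 6393028105238678077439)) (T.h (P (nat_lit 0)) (M (nat_lit 20917731012706303))))) (T.h (P (nat_lit 0)) (T.h (T.h (P (nat_lit 0)) (P (nat_lit 17704818290655232))) (P (nat_lit 0))))) (T.h (T.h (P (nat_lit 0)) (T.h (T.h (P (nat_lit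 5808715515924840448)) (T.h (P (nat_lit 0)) (M (nat_lit 14649144822207)))) (T.h (P (nat_lit 0)) (M (nat_lit 1954457784095))))) (T.h (T.h (T.h (P (nat_lit 0)) (P (nat_lit 10182874572193792))) (P (nat_lit 0))) (T.h (T.h (P (nat_lit 0)) (M (nat_lit 6298334266991))) (P (nat_lit 0))))))))]
def lQm_20 : List (T ℤ) := [(T.h (T.h (T.h (P (nat_lit 951227716243843427766930243584)) (T.h (P (nat_lit 0)) (T.h (M (nat_lit 3725888736541583637217279)) (T.h (P (nat_lit 0)) (T.h (P (nat_lit 4881796311956848640)) (T.h (P (nat_lit 0)) (M (nat_lit 927284701967)))))))) (T.h (P (nat_lit 0)) (T.h (T.h (M (nat_lit 3725888736541583637217279)) (T.h (P (nat_lit 0)) (T.h (P (nat_lit 74387678753093320704)) (T.h (P (nat_lit 0)) (M (nat_lit 4533752988591)))))) (T.h (P (nat_lit 0)) (T.h (T.h (P (nat_lit 4881796311956848640)) (T.h (P (nat_lit 0)) (M (nat_lit 4533752988591)))) (T.h (P (nat_lit 0)) (M (nat_lit 927284701967)))))))) (T.h (T.h (P (nat_lit 0)) (T.h (T.h (P (nat_lit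 0)) (T.h (P (nat_lit 42271297672274530795520)) (T.h (P (nat_lit 0)) (P (nat_lit 47909007178399744))))) (T.h (P (nat_lit 0)) (T.h (T.h (P (nat_lit 0)) (P (nat_lit 47909007178399744))) (P (nat_lit 0)))))) (T.h (T.h (T.h (M (nat_lit 15785240029512983648403455)) (T.h (P (nat_lit 0)) (T.h (M (nat_lit 48954083825573429247)) (T.h (P (nat_lit 0)) (M (nat_lit 7038243891215)))))) (T.h (P (nat_lit 0)) (T.h (T.h (M (nat_lit 48954083825573429247)) (T.h (P (nat_lit 0)) (M (nat_lit 4923797791)))) (T.h (P (nat_lit 0)) (M (nat_lit 7038243891215)))))) (T.h (T.h (P (nat_lit 0)) (T.h (T.h (P (nat_lit 0)) (P (nat_lit 90241872173727744))) (P (nat_lit 0)))) (T.h (T.h (T.h (P (nat_lit 14210726495290130432)) (T.h (P (nat_lit 0)) (M (nat_lit 4758505378847)))) (T.h (P (nat_lit 0)) (M (nat_lit 4758505378847)))) (T.h (P (nat_lit 0)) (P (nat_lit 5687995968)))))))), (T.h (T.h (T.h (P (nat_lit 0)) (T.h (P (nat_lit 4038671708212743718947520512)) (T.h (P (nat_lit 0)) (T.h (P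 (nat_lit 30872122181433209913344)) (T.h (P (nat_lit 0)) (M (nat_lit 5026790275268607))))))) (T.h (P (nat_lit 0)) (T.h (T.h (P (nat_lit 0)) (T.h (P (nat_lit 77247011222601508847616)) (T.h (P (nat_lit 0)) (M (nat_lit 51668033374715903))))) (T.h (P (nat_lit 0)) (T.h (T.h (P (nat_lit 0)) (P (nat_lit 24253183682134016))) (P (nat_lit 0))))))) (T.h (T.h (P (nat_lit 0)) (T.h (T.h (P (nat_lit 44694462760537169588125696)) (T.h (P (nat_lit 0)) (T.h (P (nat_lit 193396473526025715712)) (T.h (P (nat_lit 0)) (M (nat_lit 94064231272143)))))) (T.h (P (nat_lit 0)) (T.h (T.h (M (nat_lit 11452942416558948351)) (T.h (P (nat_lit 0)) (M (nat_lit 27622295623215)))) (T.h (P (nat_lit 0)) (M (nat_lit 10914695388015))))))) (T.h (T.h (T.h (P (nat_lit 0)) (T.h (M (nat_lit 212304625856367424438271)) (T.h (P (nat_lit 0)) (P (nat_lit 75833794379677696))))) (T.h (P (nat_lit 0)) (T.h (T.h (P (nat_lit 0)) (M (nat_lit 22636712412643327))) (P (nat_lit 0))))) (T.h (T.h (P (nat_lit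 0)) (T.h (T.h (M (nat_lit 5659509649276141567)) (T.h (P (nat_lit 0)) (M (nat_lit 18575295500271)))) (T.h (P (nat_lit 0)) (M (nat_lit 12260400160623))))) (T.h (T.h (T.h (P (nat_lit 0)) (M (nat_lit 77564689659232255))) (P (nat_lit 0))) (T.h (T.h (P (nat_lit 0)) (M (nat_lit 1102750372303))) (P (nat_lit 0)))))))), (T.h (T.h (T.h (P (nat_lit 3336858308950095421271779049472)) (T.h (P (nat_lit 0)) (T.h (P (nat_lit 80157411707928216959188992)) (T.h (P (nat_lit 0)) (T.h (P (nat_lit 36150116761263407104)) (T.h (P (nat_lit 0)) (P (nat_lit 5948322328960)))))))) (T.h (P (nat_lit 0)) (T.h (T.h (M (nat_lit 70027064311019118929117183)) (T.h (P (nat_lit 0)) (T.h (P (nat_lit 95037533799225229312)) (T.h (P (nat_lit 0)) (P (nat_lit 9725018242368)))))) (T.h (P (nat_lit 0)) (T.h (T.h (M (nat_lit 88241934139394097151)) (T.h (P (nat_lit 0)) (M (nat_lit 3652843258367)))) (T.h (P (nat_lit 0)) (M (nat_lit 19449370183423)))))))) (T.h (T.h (P (nat_lit 0)) (T.h (T.h (P (nat_lit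 0)) (T.h (M (nat_lit 9156392675808196427775)) (T.h (P (nat_lit 0)) (P (nat_lit 199937798428426240))))) (T.h (P (nat_lit 0)) (T.h (T.h (P (nat_lit 0)) (M (nat_lit 27818317734084607))) (P (nat_lit 0)))))) (T.h (T.h (T.h (P (nat_lit 80157411707928216959188992)) (T.h (P (nat_lit 0)) (T.h (M (nat_lit 198424172909475921919)) (T.h (P (nat_lit 0)) (M (nat_lit 17656885201215)))))) (T.h (P (nat_lit 0)) (T.h (T.h (P (nat_lit 95037533799225229312)) (T.h (P (nat_lit 0)) (M (nat_lit 52572885336703)))) (T.h (P (nat_lit 0)) (M (nat_lit 3652843258367)))))) (T.h (T.h (P (nat_lit 0)) (T.h (T.h (P (nat_lit 0)) (P (nat_lit 199937798428426240))) (P (nat_lit 0)))) (T.h (T.h (T.h (P (nat_lit 36150116761263407104)) (T.h (P (nat_lit 0)) (M (nat_lit 17656885201215)))) (T.h (P (nat_lit 0)) (P (nat_lit 9725018242368)))) (T.h (P (nat_lit 0)) (P (nat_lit 5948322328960)))))))), (T.h (T.h (T.h (P (nat_lit 0)) (T.h (M (nat_lit 21382294463452524082142117887)) (T.h (P (nat_lit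 0)) (T.h (P (nat_lit 8429021893482116022272)) (T.h (P (nat_lit 0)) (P (nat_lit 3098825511829504))))))) (T.h (P (nat_lit 0)) (T.h (T.h (P (nat_lit 0)) (T.h (M (nat_lit 55308368152604113371135)) (T.h (P (nat_lit 0)) (M (nat_lit 10349591218307071))))) (T.h (P (nat_lit 0)) (T.h (T.h (P (nat_lit 0)) (P (nat_lit 17072719312633856))) (P (nat_lit 0))))))) (T.h (T.h (P (nat_lit 0)) (T.h (T.h (M (nat_lit 11364634751436504396988415)) (T.h (P (nat_lit 0)) (M (nat_lit 72630611916194054143)))) (T.h (P (nat_lit 0)) (P (nat_lit 42786273065835692032))))) (T.h (T.h (T.h (P (nat_lit 0)) (T.h (P (nat_lit 5119974003336856731648)) (T.h (P (nat_lit 0)) (M (nat_lit 9121366597222399))))) (T.h (P (nat_lit 0)) (T.h (T.h (P (nat_lit 0)) (P (nat_lit 27209387641274368))) (P (nat_lit 0))))) (T.h (T.h (P (nat_lit 0)) (P (nat_lit 39642309639526154240))) (T.h (T.h (T.h (P (nat_lit 0)) (P (nat_lit 38231767106387968))) (P (nat_lit 0))) (P (nat_lit 0))))))), (P (nat_lit 0)), (P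 (nat_lit 0)), (T.h (T.h (P (nat_lit 0)) (T.h (T.h (P (nat_lit 0)) (T.h (P (nat_lit 17541619870994263948918784)) (T.h (P (nat_lit 0)) (T.h (P (nat_lit 49482143641827803136)) (T.h (P (nat_lit 0)) (M (nat_lit 536236352935))))))) (T.h (P (nat_lit 0)) (T.h (T.h (P (nat_lit 0)) (T.h (P (nat_lit 843162690380627968)) (T.h (P (nat_lit 0)) (P (nat_lit 4388847908528))))) (T.h (P (nat_lit 0)) (T.h (T.h (P (nat_lit 0)) (M (nat_lit 4719196154695))) (P (nat_lit 0)))))))) (T.h (T.h (T.h (M (nat_lit 11005145223650182096316530687)) (T.h (P (nat_lit 0)) (T.h (P (nat_lit 20325239418068966309888)) (T.h (P (nat_lit 0)) (M (nat_lit 280878511489023)))))) (T.h (P (nat_lit 0)) (T.h (T.h (M (nat_lit 39490502087022798176255)) (T.h (P (nat_lit 0)) (M (nat_lit 6667066154123263)))) (T.h (P (nat_lit 0)) (P (nat_lit 56707233229471744)))))) (T.h (T.h (P (nat_lit 0)) (T.h (T.h (P (nat_lit 0)) (T.h (M (nat_lit 205831188913407918079)) (T.h (P (nat_lit 0)) (M (nat_lit 9172057143023)))))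 (T.h (P (nat_lit 0)) (T.h (T.h (P (nat_lit 0)) (P (nat_lit 8975987171200))) (P (nat_lit 0)))))) (T.h (T.h (T.h (M (nat_lit 5741794418175510577151)) (T.h (P (nat_lit 0)) (M (nat_lit 5139061906145279)))) (T.h (P (nat_lit 0)) (P (nat_lit 31548207555444736)))) (T.h (T.h (P (nat_lit 0)) (T.h (T.h (P (nat_lit 0)) (M (nat_lit 6301638309735))) (P (nat_lit 0)))) (M (nat_lit 4029155842719743))))))), (T.h (T.h (P (nat_lit 0)) (T.h (T.h (P (nat_lit 4038671708212743718947520512)) (T.h (P (nat_lit 0)) (T.h (P (nat_lit 77247011222601508847616)) (T.h (P (nat_lit 0)) (P (nat_lit 24253183682134016)))))) (T.h (P (nat_lit 0)) (T.h (T.h (P (nat_lit 30872122181433209913344)) (T.h (P (nat_lit 0)) (M (nat_lit 51668033374715903)))) (T.h (P (nat_lit 0)) (M (nat_lit 5026790275268607))))))) (T.h (T.h (T.h (P (nat_lit 0)) (T.h (P (nat_lit 44694462760537169588125696)) (T.h (P (nat_lit 0)) (T.h (M (nat_lit 11452942416558948351)) (T.h (P (nat_lit 0)) (M (nat_lit 10914695388015)))))))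 (T.h (P (nat_lit 0)) (T.h (T.h (P (nat_lit 0)) (T.h (P (nat_lit 193396473526025715712)) (T.h (P (nat_lit 0)) (M (nat_lit 27622295623215))))) (T.h (P (nat_lit 0)) (T.h (T.h (P (nat_lit 0)) (M (nat_lit 94064231272143))) (P (nat_lit 0))))))) (T.h (T.h (P (nat_lit 0)) (T.h (T.h (M (nat_lit 212304625856367424438271)) (T.h (P (nat_lit 0)) (M (nat_lit 22636712412643327)))) (T.h (P (nat_lit 0)) (P (nat_lit 75833794379677696))))) (T.h (T.h (T.h (P (nat_lit 0)) (T.h (M (nat_lit 5659509649276141567)) (T.h (P (nat_lit 0)) (M (nat_lit 12260400160623))))) (T.h (P (nat_lit 0)) (T.h (T.h (P (nat_lit 0)) (M (nat_lit 18575295500271))) (P (nat_lit 0))))) (T.h (T.h (P (nat_lit 0)) (M (nat_lit 77564689659232255))) (T.h (T.h (T.h (P (nat_lit 0)) (M (nat_lit 1102750372303))) (P (nat_lit 0))) (P (nat_lit 0))))))))]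
def lQm_21 : List (T ℤ) := [(T.h (T.h (P (nat_lit 0)) (T.h (T.h (P (nat_lit 0)) (T.h (P (nat_lit 68666041866443020931432448)) (T.h (P (nat_lit 0)) (T.h (M (nat_lit 11016878522982465535)) (T.h (P (nat_lit 0)) (M (nat_lit 3304377496703))))))) (T.h (P (nat_lit 0)) (T.h (T.h (P (nat_lit 0)) (T.h (M (nat_lit 11016878522982465535)) (T.h (P (nat_lit 0)) (M (nat_lit 1170294273791))))) (T.h (P (nat_lit 0)) (T.h (T.h (P (nat_lit 0)) (M (nat_lit 3304377496703))) (P (nat_lit 0)))))))) (T.h (T.h (T.h (M (nat_lit 68616482929058726596929650687)) (T.h (P (nat_lit 0)) (T.h (M (nat_lit 56845807564042388111359)) (T.h (P (nat_lit 0)) (P (nat_lit 148044154368163840)))))) (T.h (P (nat_lit 0)) (T.h (T.h (M (nat_lit 56845807564042388111359)) (T.h (P (nat_lit 0)) (P (nat_lit 99912942197735424)))) (T.h (P (nat_lit 0)) (P (nat_lit 148044154368163840)))))) (T.h (T.h (P (nat_lit 0)) (T.h (T.h (P (nat_lit 0)) (T.h (M (nat_lit 437683900156504702975)) (T.h (P (nat_lit 0))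 (M (nat_lit 47079710856639))))) (T.h (P (nat_lit 0)) (T.h (T.h (P (nat_lit 0)) (M (nat_lit 47079710856639))) (P (nat_lit 0)))))) (T.h (T.h (T.h (M (nat_lit 4403951820931017474047)) (T.h (P (nat_lit 0)) (P (nat_lit 74136206499512320)))) (T.h (P (nat_lit 0)) (P (nat_lit 74136206499512320)))) (T.h (T.h (P (nat_lit 0)) (T.h (T.h (P (nat_lit 0)) (M (nat_lit 71288209895039))) (P (nat_lit 0)))) (M (nat_lit 14664786472402943))))))), (T.h (T.h (P (nat_lit 0)) (T.h (T.h (P (nat_lit 10143313764801585540136697856)) (T.h (P (nat_lit 0)) (T.h (P (nat_lit 11717009930323488669696)) (T.h (P (nat_lit 0)) (P (nat_lit 17500175588818944)))))) (T.h (P (nat_lit 0)) (T.h (T.h (P (nat_lit 45359257570254440628224)) (T.h (P (nat_lit 0)) (P (nat_lit 16691703478140928)))) (T.h (P (nat_lit 0)) (P (nat_lit 31566073880051712))))))) (T.h (T.h (T.h (P (nat_lit 0)) (T.h (M (nat_lit 8003037340627921316872191)) (T.h (P (nat_lit 0)) (M (nat_lit 111705972701661233151))))) (T.h (P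 (nat_lit 0)) (T.h (T.h (P (nat_lit 0)) (P (nat_lit 26010462300483354624))) (P (nat_lit 0))))) (T.h (T.h (P (nat_lit 0)) (T.h (T.h (P (nat_lit 11717009930323488669696)) (T.h (P (nat_lit 0)) (P (nat_lit 99231753168191488)))) (T.h (P (nat_lit 0)) (P (nat_lit 16691703478140928))))) (T.h (T.h (T.h (P (nat_lit 0)) (M (nat_lit 111705972701661233151))) (P (nat_lit 0))) (T.h (T.h (P (nat_lit 0)) (P (nat_lit 17500175588818944))) (P (nat_lit 0))))))), (P (nat_lit 0)), (P (nat_lit 0)), (T.h (T.h (T.h (P (nat_lit 0)) (T.h (M (nat_lit 16412601912802300674357329919)) (T.h (P (nat_lit 0)) (T.h (M (nat_lit 24913952668255625674751)) (T.h (P (nat_lit 0)) (P (nat_lit 6836981340864512))))))) (T.h (P (nat_lit 0)) (T.h (T.h (P (nat_lit 0)) (T.h (P (nat_lit 66547056180224958922752)) (T.h (P (nat_lit 0)) (P (nat_lit 36138227289112576))))) (T.h (P (nat_lit 0)) (T.h (T.h (P (nat_lit 0)) (P (nat_lit 26772851980058624))) (P (nat_lit 0))))))) (T.h (T.h (P (nat_lit 0)) (T.h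 (T.h (P (nat_lit 8447821923587479908122624)) (T.h (P (nat_lit 0)) (T.h (M (nat_lit 138309133156342562815)) (T.h (P (nat_lit 0)) (M (nat_lit 28206262997471)))))) (T.h (P (nat_lit 0)) (T.h (T.h (P (nat_lit 18426835693675216896)) (T.h (P (nat_lit 0)) (M (nat_lit 15616341643055)))) (T.h (P (nat_lit 0)) (P (nat_lit 14337066975168))))))) (T.h (T.h (T.h (P (nat_lit 0)) (T.h (P (nat_lit 66547056180224958922752)) (T.h (P (nat_lit 0)) (P (nat_lit 36138227289112576))))) (T.h (P (nat_lit 0)) (T.h (T.h (P (nat_lit 0)) (M (nat_lit 128055293209313279))) (P (nat_lit 0))))) (T.h (T.h (P (nat_lit 0)) (T.h (T.h (P (nat_lit 18426835693675216896)) (T.h (P (nat_lit 0)) (M (nat_lit 15616341643055)))) (T.h (P (nat_lit 0)) (P (nat_lit 43766994916064))))) (T.h (T.h (T.h (P (nat_lit 0)) (P (nat_lit 26772851980058624))) (P (nat_lit 0))) (T.h (T.h (P (nat_lit 0)) (P (nat_lit 14337066975168))) (P (nat_lit 0)))))))), (T.h (T.h (T.h (P (nat_lit 3336858308950095421271779049472))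 (T.h (P (nat_lit 0)) (T.h (M (nat_lit 70027064311019118929117183)) (T.h (P (nat_lit 0)) (T.h (M (nat_lit 88241934139394097151)) (T.h (P (nat_lit 0)) (M (nat_lit 19449370183423)))))))) (T.h (P (nat_lit 0)) (T.h (T.h (P (nat_lit 80157411707928216959188992)) (T.h (P (nat_lit 0)) (T.h (P (nat_lit 95037533799225229312)) (T.h (P (nat_lit 0)) (M (nat_lit 3652843258367)))))) (T.h (P (nat_lit 0)) (T.h (T.h (P (nat_lit 36150116761263407104)) (T.h (P (nat_lit 0)) (P (nat_lit 9725018242368)))) (T.h (P (nat_lit 0)) (P (nat_lit 5948322328960)))))))) (T.h (T.h (P (nat_lit 0)) (T.h (T.h (P (nat_lit 0)) (T.h (M (nat_lit 9156392675808196427775)) (T.h (P (nat_lit 0)) (M (nat_lit 27818317734084607))))) (T.h (P (nat_lit 0)) (T.h (T.h (P (nat_lit 0)) (P (nat_lit 199937798428426240))) (P (nat_lit 0)))))) (T.h (T.h (T.h (P (nat_lit 80157411707928216959188992)) (T.h (P (nat_lit 0)) (T.h (P (nat_lit 95037533799225229312)) (T.h (P (nat_lit 0)) (M (nat_lit 3652843258367))))))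 (T.h (P (nat_lit 0)) (T.h (T.h (M (nat_lit 198424172909475921919)) (T.h (P (nat_lit 0)) (M (nat_lit 52572885336703)))) (T.h (P (nat_lit 0)) (M (nat_lit 17656885201215)))))) (T.h (T.h (P (nat_lit 0)) (T.h (T.h (P (nat_lit 0)) (P (nat_lit 199937798428426240))) (P (nat_lit 0)))) (T.h (T.h (T.h (P (nat_lit 36150116761263407104)) (T.h (P (nat_lit 0)) (P (nat_lit 9725018242368)))) (T.h (P (nat_lit 0)) (M (nat_lit 17656885201215)))) (T.h (P (nat_lit 0)) (P (nat_lit 5948322328960)))))))), (T.h (T.h (T.h (P (nat_lit 0)) (T.h (P (nat_lit 10143313764801585540136697856)) (T.h (P (nat_lit 0)) (T.h (P (nat_lit 45359257570254440628224)) (T.h (P (nat_lit 0)) (P (nat_lit 31566073880051712))))))) (T.h (P (nat_lit 0)) (T.h (T.h (P (nat_lit 0)) (T.h (P (nat_lit 11717009930323488669696)) (T.h (P (nat_lit 0)) (P (nat_lit 16691703478140928))))) (T.h (P (nat_lit 0)) (T.h (T.h (P (nat_lit 0)) (P (nat_lit 17500175588818944))) (P (nat_lit 0))))))) (T.h (T.h (P (nat_lit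 0)) (T.h (T.h (M (nat_lit 8003037340627921316872191)) (T.h (P (nat_lit 0)) (P (nat_lit 26010462300483354624)))) (T.h (P (nat_lit 0)) (M (nat_lit 111705972701661233151))))) (T.h (T.h (T.h (P (nat_lit 0)) (T.h (P (nat_lit 11717009930323488669696)) (T.h (P (nat_lit 0)) (P (nat_lit 16691703478140928))))) (T.h (P (nat_lit 0)) (T.h (T.h (P (nat_lit 0)) (P (nat_lit 99231753168191488))) (P (nat_lit 0))))) (T.h (T.h (P (nat_lit 0)) (M (nat_lit 111705972701661233151))) (T.h (T.h (T.h (P (nat_lit 0)) (P (nat_lit 17500175588818944))) (P (nat_lit 0))) (P (nat_lit 0))))))), (P (nat_lit 0))]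
def lQm_22 : List (T ℤ) := [(P (nat_lit 0)), (T.h (T.h (P (nat_lit 0)) (T.h (T.h (P (nat_lit 0)) (T.h (M (nat_lit 57987338973388860091793407)) (T.h (P (nat_lit 0)) (T.h (M (nat_lit 117840652395666735103)) (T.h (P (nat_lit 0)) (M (nat_lit 10910827925823))))))) (T.h (P (nat_lit 0)) (T.h (T.h (P (nat_lit 0)) (T.h (P (nat_lit 57443828061226139648)) (T.h (P (nat_lit 0)) (M (nat_lit 1913329872703))))) (T.h (P (nat_lit 0)) (T.h (T.h (P (nat_lit 0)) (P (nat_lit 26887879288832))) (P (nat_lit 0)))))))) (T.h (T.h (T.h (P (nat_lit 7180220735172970116427022336)) (T.h (P (nat_lit 0)) (T.h (P (nat_lit 15475025479053248299008)) (T.h (P (nat_lit 0)) (P (nat_lit 20715710340333568)))))) (T.h (P (nat_lit 0)) (T.h (T.h (P (nat_lit 81238814070020872601600)) (T.h (P (nat_lit 0)) (M (nat_lit 15995042885500927)))) (T.h (P (nat_lit 0)) (M (nat_lit 75530142658265087)))))) (T.h (T.h (P (nat_lit 0)) (T.h (T.h (P (nat_lit 0)) (T.h (P (nat_lit 82087647970215329792)) (T.h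 (P (nat_lit 0)) (P (nat_lit 19829994406848))))) (T.h (P (nat_lit 0)) (T.h (T.h (P (nat_lit 0)) (M (nat_lit 9298428385343))) (P (nat_lit 0)))))) (T.h (T.h (T.h (M (nat_lit 44230263680022452633599)) (T.h (P (nat_lit 0)) (P (nat_lit 21552170617831424)))) (T.h (P (nat_lit 0)) (M (nat_lit 80256168116682751)))) (T.h (T.h (P (nat_lit 0)) (T.h (T.h (P (nat_lit 0)) (P (nat_lit 67063572229184))) (P (nat_lit 0)))) (M (nat_lit 1462772452884479))))))), (T.h (T.h (P (nat_lit 0)) (T.h (T.h (M (nat_lit 21382294463452524082142117887)) (T.h (P (nat_lit 0)) (T.h (M (nat_lit 55308368152604113371135)) (T.h (P (nat_lit 0)) (P (nat_lit 17072719312633856)))))) (T.h (P (nat_lit 0)) (T.h (T.h (P (nat_lit 8429021893482116022272)) (T.h (P (nat_lit 0)) (M (nat_lit 10349591218307071)))) (T.h (P (nat_lit 0)) (P (nat_lit 3098825511829504))))))) (T.h (T.h (T.h (P (nat_lit 0)) (T.h (M (nat_lit 11364634751436504396988415)) (T.h (P (nat_lit 0)) (P (nat_lit 42786273065835692032)))))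 (T.h (P (nat_lit 0)) (T.h (T.h (P (nat_lit 0)) (M (nat_lit 72630611916194054143))) (P (nat_lit 0))))) (T.h (T.h (P (nat_lit 0)) (T.h (T.h (P (nat_lit 5119974003336856731648)) (T.h (P (nat_lit 0)) (P (nat_lit 27209387641274368)))) (T.h (P (nat_lit 0)) (M (nat_lit 9121366597222399))))) (T.h (T.h (T.h (P (nat_lit 0)) (P (nat_lit 39642309639526154240))) (P (nat_lit 0))) (T.h (T.h (P (nat_lit 0)) (P (nat_lit 38231767106387968))) (P (nat_lit 0))))))), (P (nat_lit 0)), (P (nat_lit 0)), (T.h (T.h (T.h (P (nat_lit 0)) (T.h (P (nat_lit 6099708548673304496447684608)) (T.h (P (nat_lit 0)) (T.h (P (nat_lit 17907237936627615531008)) (T.h (P (nat_lit 0)) (M (nat_lit 840173474381823))))))) (T.h (P (nat_lit 0)) (T.h (T.h (P (nat_lit 0)) (T.h (M (nat_lit 39385658327280031629311)) (T.h (P (nat_lit 0)) (P (nat_lit 4731789076348928))))) (T.h (P (nat_lit 0)) (T.h (T.h (P (nat_lit 0)) (M (nat_lit 35543153834491903))) (P (nat_lit 0))))))) (T.h (T.h (P (nat_lit 0))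 (T.h (T.h (M (nat_lit 18571853267465370509246463)) (T.h (P (nat_lit 0)) (M (nat_lit 2818795405779664895)))) (T.h (P (nat_lit 0)) (P (nat_lit 35935822232235802624))))) (T.h (T.h (T.h (P (nat_lit 0)) (T.h (P (nat_lit 914033056629670281216)) (T.h (P (nat_lit 0)) (P (nat_lit 10230261391294464))))) (T.h (P (nat_lit 0)) (T.h (T.h (P (nat_lit 0)) (P (nat_lit 7400423263076352))) (P (nat_lit 0))))) (T.h (T.h (P (nat_lit 0)) (P (nat_lit 76155881187738386432))) (T.h (T.h (T.h (P (nat_lit 0)) (M (nat_lit 25421720942116863))) (P (nat_lit 0))) (P (nat_lit 0))))))), (P (nat_lit 0)), (P (nat_lit 0))]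
def lQm_23 : List (T ℤ) := [(P (nat_lit 0)), (P (nat_lit 0)), (P (nat_lit 0)), (T.h (T.h (T.h (M (nat_lit 128120900552666237134832664575)) (T.h (P (nat_lit 0)) (T.h (M (nat_lit 374856245789455152054271)) (T.h (P (nat_lit 0)) (T.h (M (nat_lit 3158064110562705407)) (T.h (P (nat_lit 0)) (P (nat_lit 1380574505568)))))))) (T.h (P (nat_lit 0)) (T.h (T.h (M (nat_lit 374856245789455152054271)) (T.h (P (nat_lit 0)) (T.h (M (nat_lit 1706496107061706751)) (T.h (P (nat_lit 0)) (P (nat_lit 1184705075472)))))) (T.h (P (nat_lit 0)) (T.h (T.h (M (nat_lit 3158064110562705407)) (T.h (P (nat_lit 0)) (P (nat_lit 1184705075472)))) (T.h (P (nat_lit 0)) (P (nat_lit 1380574505568)))))))) (T.h (T.h (P (nat_lit 0)) (T.h (T.h (P (nat_lit 0)) (T.h (M (nat_lit 1980045858969294471167)) (T.h (P (nat_lit 0)) (P (nat_lit 2866966031630336))))) (T.h (P (nat_lit 0)) (T.h (T.h (P (nat_lit 0)) (P (nat_lit 2866966031630336))) (P (nat_lit 0)))))) (T.h (T.h (T.h (P (nat_lit 244345310791578333216768))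 (T.h (P (nat_lit 0)) (T.h (M (nat_lit 1937253098095378431)) (T.h (P (nat_lit 0)) (P (nat_lit 2707914055472)))))) (T.h (P (nat_lit 0)) (T.h (T.h (M (nat_lit 1937253098095378431)) (T.h (P (nat_lit 0)) (P (nat_lit 4438957717760)))) (T.h (P (nat_lit 0)) (P (nat_lit 2707914055472)))))) (T.h (T.h (P (nat_lit 0)) (T.h (T.h (P (nat_lit 0)) (P (nat_lit 3795046400131072))) (P (nat_lit 0)))) (T.h (T.h (T.h (P (nat_lit 622944617486090240)) (T.h (P (nat_lit 0)) (P (nat_lit 3986189105440)))) (T.h (P (nat_lit 0)) (P (nat_lit 3986189105440)))) (T.h (P (nat_lit 0)) (M (nat_lit 2463187883231)))))))), (T.h (T.h (T.h (P (nat_lit 0)) (T.h (M (nat_lit 241110326684477318414467071)) (T.h (P (nat_lit 0)) (T.h (P (nat_lit 13210000646600378023936)) (T.h (P (nat_lit 0)) (P (nat_lit 6511199756582912))))))) (T.h (P (nat_lit 0)) (T.h (T.h (P (nat_lit 0)) (T.h (M (nat_lit 42574672381838136180735)) (T.h (P (nat_lit 0)) (M (nat_lit 4128130433777663))))) (T.h (P (nat_lit 0))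 (T.h (T.h (P (nat_lit 0)) (M (nat_lit 19885691812839423))) (P (nat_lit 0))))))) (T.h (T.h (P (nat_lit 0)) (T.h (T.h (M (nat_lit 3093988085105477971607551)) (T.h (P (nat_lit 0)) (T.h (P (nat_lit 40575241349622661120)) (T.h (P (nat_lit 0)) (M (nat_lit 534616161527)))))) (T.h (P (nat_lit 0)) (T.h (T.h (M (nat_lit 31376630254227423231)) (T.h (P (nat_lit 0)) (M (nat_lit 9896250995255)))) (T.h (P (nat_lit 0)) (M (nat_lit 617502241471))))))) (T.h (T.h (T.h (P (nat_lit 0)) (T.h (P (nat_lit 34978613366834824478720)) (T.h (P (nat_lit 0)) (P (nat_lit 9004722249564160))))) (T.h (P (nat_lit 0)) (T.h (T.h (P (nat_lit 0)) (P (nat_lit 67973831304970240))) (P (nat_lit 0))))) (T.h (T.h (P (nat_lit 0)) (T.h (T.h (M (nat_lit 59942037166122598399)) (T.h (P (nat_lit 0)) (P (nat_lit 9606426461536)))) (T.h (P (nat_lit 0)) (M (nat_lit 9577825270919))))) (T.h (T.h (T.h (P (nat_lit 0)) (P (nat_lit 3911014313984000))) (P (nat_lit 0))) (T.h (T.h (P (nat_lit 0)) (M (nat_lit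 1726339860487))) (P (nat_lit 0)))))))), (T.h (T.h (T.h (M (nat_lit 15835445583881214503361032749055)) (T.h (P (nat_lit 0)) (T.h (M (nat_lit 15954732730147194716291071)) (T.h (P (nat_lit 0)) (T.h (M (nat_lit 19887400155925708799)) (T.h (P (nat_lit 0)) (M (nat_lit 4773610931599)))))))) (T.h (P (nat_lit 0)) (T.h (T.h (P (nat_lit 27829060430611715415080960)) (T.h (P (nat_lit 0)) (T.h (M (nat_lit 25355989848697077759)) (T.h (P (nat_lit 0)) (P (nat_lit 15366368407824)))))) (T.h (P (nat_lit 0)) (T.h (T.h (P (nat_lit 8856044916250247168)) (T.h (P (nat_lit 0)) (M (nat_lit 6732252487071)))) (T.h (P (nat_lit 0)) (M (nat_lit 1807611555343)))))))) (T.h (T.h (P (nat_lit 0)) (T.h (T.h (P (nat_lit 0)) (T.h (P (nat_lit 137274296418244684152832)) (T.h (P (nat_lit 0)) (M (nat_lit 38572466754813951))))) (T.h (P (nat_lit 0)) (T.h (T.h (P (nat_lit 0)) (P (nat_lit 164907919411740672))) (P (nat_lit 0)))))) (T.h (T.h (T.h (P (nat_lit 5078850608105316436410368)) (T.h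 (P (nat_lit 0)) (T.h (M (nat_lit 14048468776677015551)) (T.h (P (nat_lit 0)) (P (nat_lit 29692863900784)))))) (T.h (P (nat_lit 0)) (T.h (T.h (M (nat_lit 62468435583149539327)) (T.h (P (nat_lit 0)) (P (nat_lit 14277571269584)))) (T.h (P (nat_lit 0)) (M (nat_lit 8671366263727)))))) (T.h (T.h (P (nat_lit 0)) (T.h (T.h (P (nat_lit 0)) (M (nat_lit 89082000361291775))) (P (nat_lit 0)))) (T.h (T.h (T.h (M (nat_lit 9751005981399056383)) (T.h (P (nat_lit 0)) (P (nat_lit 37577714858544)))) (T.h (P (nat_lit 0)) (M (nat_lit 16452623026111)))) (T.h (P (nat_lit 0)) (M (nat_lit 8507132336751)))))))), (T.h (T.h (T.h (P (nat_lit 0)) (T.h (P (nat_lit 7180220735172970116427022336)) (T.h (P (nat_lit 0)) (T.h (M (nat_lit 44230263680022452633599)) (T.h (P (nat_lit 0)) (M (nat_lit 1462772452884479))))))) (T.h (P (nat_lit 0)) (T.h (T.h (P (nat_lit 0)) (T.h (P (nat_lit 15475025479053248299008)) (T.h (P (nat_lit 0)) (P (nat_lit 21552170617831424))))) (T.h (P (nat_lit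 0)) (T.h (T.h (P (nat_lit 0)) (P (nat_lit 20715710340333568))) (P (nat_lit 0))))))) (T.h (T.h (P (nat_lit 0)) (T.h (T.h (M (nat_lit 57987338973388860091793407)) (T.h (P (nat_lit 0)) (T.h (P (nat_lit 82087647970215329792)) (T.h (P (nat_lit 0)) (P (nat_lit 67063572229184)))))) (T.h (P (nat_lit 0)) (T.h (T.h (M (nat_lit 117840652395666735103)) (T.h (P (nat_lit 0)) (P (nat_lit 19829994406848)))) (T.h (P (nat_lit 0)) (M (nat_lit 10910827925823))))))) (T.h (T.h (T.h (P (nat_lit 0)) (T.h (P (nat_lit 81238814070020872601600)) (T.h (P (nat_lit 0)) (M (nat_lit 80256168116682751))))) (T.h (P (nat_lit 0)) (T.h (T.h (P (nat_lit 0)) (M (nat_lit 15995042885500927))) (P (nat_lit 0))))) (T.h (T.h (P (nat_lit 0)) (T.h (T.h (P (nat_lit 57443828061226139648)) (T.h (P (nat_lit 0)) (M (nat_lit 9298428385343)))) (T.h (P (nat_lit 0)) (M (nat_lit 1913329872703))))) (T.h (T.h (T.h (P (nat_lit 0)) (M (nat_lit 75530142658265087))) (P (nat_lit 0))) (T.h (T.h (P (nat_lit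 0)) (P (nat_lit 26887879288832))) (P (nat_lit 0)))))))), (T.h (T.h (T.h (M (nat_lit 984195350018325543104137920511)) (T.h (P (nat_lit 0)) (T.h (P (nat_lit 15230894307888454317375488)) (T.h (P (nat_lit 0)) (P (nat_lit 15566893289482223616)))))) (T.h (P (nat_lit 0)) (T.h (T.h (P (nat_lit 353537135146806275997696)) (T.h (P (nat_lit 0)) (M (nat_lit 21389219787958124543)))) (T.h (P (nat_lit 0)) (M (nat_lit 4364305523307184127)))))) (T.h (T.h (P (nat_lit 0)) (T.h (T.h (P (nat_lit 0)) (T.h (P (nat_lit 5141982376459845500928)) (T.h (P (nat_lit 0)) (M (nat_lit 63912302629388287))))) (T.h (P (nat_lit 0)) (T.h (T.h (P (nat_lit 0)) (M (nat_lit 20305914272612351))) (P (nat_lit 0)))))) (T.h (T.h (T.h (P (nat_lit 15230894307888454317375488)) (T.h (P (nat_lit 0)) (P (nat_lit 10893491707010088960)))) (T.h (P (nat_lit 0)) (M (nat_lit 21389219787958124543)))) (T.h (T.h (P (nat_lit 0)) (T.h (T.h (P (nat_lit 0)) (M (nat_lit 63912302629388287))) (P (nat_lit 0))))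 (P (nat_lit 15566893289482223616))))))]
def lQm_24 : List (T ℤ) := [(P (nat_lit 0)), (P (nat_lit 0)), (T.h (T.h (P (nat_lit 0)) (T.h (T.h (M (nat_lit 241110326684477318414467071)) (T.h (P (nat_lit 0)) (T.h (M (nat_lit 42574672381838136180735)) (T.h (P (nat_lit 0)) (M (nat_lit 19885691812839423)))))) (T.h (P (nat_lit 0)) (T.h (T.h (P (nat_lit 13210000646600378023936)) (T.h (P (nat_lit 0)) (M (nat_lit 4128130433777663)))) (T.h (P (nat_lit 0)) (P (nat_lit 6511199756582912))))))) (T.h (T.h (T.h (P (nat_lit 0)) (T.h (M (nat_lit 3093988085105477971607551)) (T.h (P (nat_lit 0)) (T.h (M (nat_lit 31376630254227423231)) (T.h (P (nat_lit 0)) (M (nat_lit 617502241471))))))) (T.h (P (nat_lit 0)) (T.h (T.h (P (nat_lit 0)) (T.h (P (nat_lit 40575241349622661120)) (T.h (P (nat_lit 0)) (M (nat_lit 9896250995255))))) (T.h (P (nat_lit 0)) (T.h (T.h (P (nat_lit 0)) (M (nat_lit 534616161527))) (P (nat_lit 0))))))) (T.h (T.h (P (nat_lit 0)) (T.h (T.h (P (nat_lit 34978613366834824478720))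 (T.h (P (nat_lit 0)) (P (nat_lit 67973831304970240)))) (T.h (P (nat_lit 0)) (P (nat_lit 9004722249564160))))) (T.h (T.h (T.h (P (nat_lit 0)) (T.h (M (nat_lit 59942037166122598399)) (T.h (P (nat_lit 0)) (M (nat_lit 9577825270919))))) (T.h (P (nat_lit 0)) (T.h (T.h (P (nat_lit 0)) (P (nat_lit 9606426461536))) (P (nat_lit 0))))) (T.h (T.h (P (nat_lit 0)) (P (nat_lit 3911014313984000))) (T.h (T.h (T.h (P (nat_lit 0)) (M (nat_lit 1726339860487))) (P (nat_lit 0))) (P (nat_lit 0)))))))), (T.h (T.h (P (nat_lit 0)) (T.h (T.h (P (nat_lit 0)) (T.h (M (nat_lit 28670927364569032967585791)) (T.h (P (nat_lit 0)) (T.h (M (nat_lit 18802396480193691647)) (T.h (P (nat_lit 0)) (P (nat_lit 4076389384816))))))) (T.h (P (nat_lit 0)) (T.h (T.h (P (nat_lit 0)) (T.h (M (nat_lit 18802396480193691647)) (T.h (P (nat_lit 0)) (M (nat_lit 675544214015))))) (T.h (P (nat_lit 0)) (T.h (T.h (P (nat_lit 0)) (P (nat_lit 4076389384816))) (P (nat_lit 0)))))))) (T.h (T.h (T.h (M (nat_lit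 982269466919223086024753151)) (T.h (P (nat_lit 0)) (T.h (P (nat_lit 42560299076557173948416)) (T.h (P (nat_lit 0)) (P (nat_lit 7031999440027648)))))) (T.h (P (nat_lit 0)) (T.h (T.h (P (nat_lit 42560299076557173948416)) (T.h (P (nat_lit 0)) (M (nat_lit 79416610441396223)))) (T.h (P (nat_lit 0)) (P (nat_lit 7031999440027648)))))) (T.h (T.h (P (nat_lit 0)) (T.h (T.h (P (nat_lit 0)) (T.h (P (nat_lit 88000864249788235776)) (T.h (P (nat_lit 0)) (M (nat_lit 7612428796111))))) (T.h (P (nat_lit 0)) (T.h (T.h (P (nat_lit 0)) (M (nat_lit 7612428796111))) (P (nat_lit 0)))))) (T.h (T.h (T.h (M (nat_lit 35916013231108972871679)) (T.h (P (nat_lit 0)) (P (nat_lit 31111013493948416)))) (T.h (P (nat_lit 0)) (P (nat_lit 31111013493948416)))) (T.h (T.h (P (nat_lit 0)) (T.h (T.h (P (nat_lit 0)) (M (nat_lit 12132135300319))) (P (nat_lit 0)))) (P (nat_lit 22810743852630016))))))), (T.h (T.h (P (nat_lit 0)) (T.h (T.h (P (nat_lit 5002433316995141053611769856)) (T.h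 (P (nat_lit 0)) (T.h (M (nat_lit 64074607215303530119167)) (T.h (P (nat_lit 0)) (M (nat_lit 61092735884722175)))))) (T.h (P (nat_lit 0)) (T.h (T.h (P (nat_lit 64860617282329165955072)) (T.h (P (nat_lit 0)) (M (nat_lit 37485078654844927)))) (T.h (P (nat_lit 0)) (P (nat_lit 37256538694156288))))))) (T.h (T.h (T.h (P (nat_lit 0)) (T.h (P (nat_lit 60254104789067815534460928)) (T.h (P (nat_lit 0)) (T.h (P (nat_lit 52593641093391712256)) (T.h (P (nat_lit 0)) (M (nat_lit 36218528417215))))))) (T.h (P (nat_lit 0)) (T.h (T.h (P (nat_lit 0)) (T.h (P (nat_lit 122238363249976279040)) (T.h (P (nat_lit 0)) (M (nat_lit 20210294340287))))) (T.h (P (nat_lit 0)) (T.h (T.h (P (nat_lit 0)) (M (nat_lit 4830483669119))) (P (nat_lit 0))))))) (T.h (T.h (P (nat_lit 0)) (T.h (T.h (M (nat_lit 8700266256169554673663)) (T.h (P (nat_lit 0)) (P (nat_lit 73061724823420928)))) (T.h (P (nat_lit 0)) (M (nat_lit 8675185806737407))))) (T.h (T.h (T.h (P (nat_lit 0)) (T.h (M (nat_lit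 83831265369020956671)) (T.h (P (nat_lit 0)) (P (nat_lit 38518769153536))))) (T.h (P (nat_lit 0)) (T.h (T.h (P (nat_lit 0)) (P (nat_lit 7268007345152))) (P (nat_lit 0))))) (T.h (T.h (P (nat_lit 0)) (P (nat_lit 112770799911600128))) (T.h (T.h (T.h (P (nat_lit 0)) (M (nat_lit 74682600418175))) (P (nat_lit 0))) (P (nat_lit 0)))))))), (T.h (T.h (P (nat_lit 0)) (T.h (T.h (P (nat_lit 0)) (T.h (M (nat_lit 11364634751436504396988415)) (T.h (P (nat_lit 0)) (P (nat_lit 39642309639526154240))))) (T.h (P (nat_lit 0)) (T.h (T.h (P (nat_lit 0)) (P (nat_lit 42786273065835692032))) (P (nat_lit 0)))))) (T.h (T.h (T.h (M (nat_lit 21382294463452524082142117887)) (T.h (P (nat_lit 0)) (T.h (P (nat_lit 5119974003336856731648)) (T.h (P (nat_lit 0)) (P (nat_lit 38231767106387968)))))) (T.h (P (nat_lit 0)) (T.h (T.h (M (nat_lit 55308368152604113371135)) (T.h (P (nat_lit 0)) (P (nat_lit 27209387641274368)))) (T.h (P (nat_lit 0)) (P (nat_lit 17072719312633856)))))) (T.h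 (T.h (P (nat_lit 0)) (T.h (T.h (P (nat_lit 0)) (M (nat_lit 72630611916194054143))) (P (nat_lit 0)))) (T.h (T.h (T.h (P (nat_lit 8429021893482116022272)) (T.h (P (nat_lit 0)) (M (nat_lit 9121366597222399)))) (T.h (P (nat_lit 0)) (M (nat_lit 10349591218307071)))) (T.h (P (nat_lit 0)) (P (nat_lit 3098825511829504))))))), (P (nat_lit 0)), (P (nat_lit 0))]
def lQm_25 : List (T ℤ) := [(T.h (T.h (T.h (M (nat_lit 15835445583881214503361032749055)) (T.h (P (nat_lit 0)) (T.h (P (nat_lit 27829060430611715415080960)) (T.h (P (nat_lit 0)) (T.h (P (nat_lit 8856044916250247168)) (T.h (P (nat_lit 0)) (M (nat_lit 1807611555343)))))))) (T.h (P (nat_lit 0)) (T.h (T.h (M (nat_lit 15954732730147194716291071)) (T.h (P (nat_lit 0)) (T.h (M (nat_lit 25355989848697077759)) (T.h (P (nat_lit 0)) (M (nat_lit 6732252487071)))))) (T.h (P (nat_lit 0)) (T.h (T.h (M (nat_lit 19887400155925708799)) (T.h (P (nat_lit 0)) (P (nat_lit 15366368407824)))) (T.h (P (nat_lit 0)) (M (nat_lit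 4773610931599)))))))) (T.h (T.h (P (nat_lit 0)) (T.h (T.h (P (nat_lit 0)) (T.h (P (nat_lit 137274296418244684152832)) (T.h (P (nat_lit 0)) (P (nat_lit 164907919411740672))))) (T.h (P (nat_lit 0)) (T.h (T.h (P (nat_lit 0)) (M (nat_lit 38572466754813951))) (P (nat_lit 0)))))) (T.h (T.h (T.h (P (nat_lit 5078850608105316436410368)) (T.h (P (nat_lit 0)) (T.h (M (nat_lit 62468435583149539327)) (T.h (P (nat_lit 0)) (M (nat_lit 8671366263727)))))) (T.h (P (nat_lit 0)) (T.h (T.h (M (nat_lit 14048468776677015551)) (T.h (P (nat_lit 0)) (P (nat_lit 14277571269584)))) (T.h (P (nat_lit 0)) (P (nat_lit 29692863900784)))))) (T.h (T.h (P (nat_lit 0)) (T.h (T.h (P (nat_lit 0)) (M (nat_lit 89082000361291775))) (P (nat_lit 0)))) (T.h (T.h (T.h (M (nat_lit 9751005981399056383)) (T.h (P (nat_lit 0)) (M (nat_lit 16452623026111)))) (T.h (P (nat_lit 0)) (P (nat_lit 37577714858544)))) (T.h (P (nat_lit 0)) (M (nat_lit 8507132336751)))))))), (T.h (T.h (T.h (P (nat_lit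 0)) (T.h (P (nat_lit 5002433316995141053611769856)) (T.h (P (nat_lit 0)) (T.h (P (nat_lit 64860617282329165955072)) (T.h (P (nat_lit 0)) (P (nat_lit 37256538694156288))))))) (T.h (P (nat_lit 0)) (T.h (T.h (P (nat_lit 0)) (T.h (M (nat_lit 64074607215303530119167)) (T.h (P (nat_lit 0)) (M (nat_lit 37485078654844927))))) (T.h (P (nat_lit 0)) (T.h (T.h (P (nat_lit 0)) (M (nat_lit 61092735884722175))) (P (nat_lit 0))))))) (T.h (T.h (P (nat_lit 0)) (T.h (T.h (P (nat_lit 60254104789067815534460928)) (T.h (P (nat_lit 0)) (T.h (P (nat_lit 122238363249976279040)) (T.h (P (nat_lit 0)) (M (nat_lit 4830483669119)))))) (T.h (P (nat_lit 0)) (T.h (T.h (P (nat_lit 52593641093391712256)) (T.h (P (nat_lit 0)) (M (nat_lit 20210294340287)))) (T.h (P (nat_lit 0)) (M (nat_lit 36218528417215))))))) (T.h (T.h (T.h (P (nat_lit 0)) (T.h (M (nat_lit 8700266256169554673663)) (T.h (P (nat_lit 0)) (M (nat_lit 8675185806737407))))) (T.h (P (nat_lit 0)) (T.h (T.h (P (nat_lit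 0)) (P (nat_lit 73061724823420928))) (P (nat_lit 0))))) (T.h (T.h (P (nat_lit 0)) (T.h (T.h (M (nat_lit 83831265369020956671)) (T.h (P (nat_lit 0)) (P (nat_lit 7268007345152)))) (T.h (P (nat_lit 0)) (P (nat_lit 38518769153536))))) (T.h (T.h (T.h (P (nat_lit 0)) (P (nat_lit 112770799911600128))) (P (nat_lit 0))) (T.h (T.h (P (nat_lit 0)) (M (nat_lit 74682600418175))) (P (nat_lit 0)))))))), (T.h (T.h (T.h (P (nat_lit 3142910377488252325730828943360)) (T.h (P (nat_lit 0)) (T.h (M (nat_lit 33691155774875871798624255)) (T.h (P (nat_lit 0)) (M (nat_lit 43612476535541334015)))))) (T.h (P (nat_lit 0)) (T.h (T.h (M (nat_lit 33691155774875871798624255)) (T.h (P (nat_lit 0)) (P (nat_lit 71619732868914216960)))) (T.h (P (nat_lit 0)) (M (nat_lit 43612476535541334015)))))) (T.h (T.h (P (nat_lit 0)) (T.h (T.h (P (nat_lit 0)) (T.h (M (nat_lit 77133057163773054287871)) (T.h (P (nat_lit 0)) (P (nat_lit 39398897938006016))))) (T.h (P (nat_lit 0)) (T.h (T.h (P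 (nat_lit 0)) (P (nat_lit 39398897938006016))) (P (nat_lit 0)))))) (T.h (T.h (T.h (M (nat_lit 18536861392735411206356991)) (T.h (P (nat_lit 0)) (M (nat_lit 2844952429110231039)))) (T.h (P (nat_lit 0)) (M (nat_lit 2844952429110231039)))) (T.h (T.h (P (nat_lit 0)) (T.h (T.h (P (nat_lit 0)) (P (nat_lit 65556687411085312))) (P (nat_lit 0)))) (M (nat_lit 56634526376671576063)))))), (P (nat_lit 0)), (P (nat_lit 0)), (T.h (T.h (P (nat_lit 0)) (T.h (T.h (P (nat_lit 7180220735172970116427022336)) (T.h (P (nat_lit 0)) (T.h (P (nat_lit 15475025479053248299008)) (T.h (P (nat_lit 0)) (P (nat_lit 20715710340333568)))))) (T.h (P (nat_lit 0)) (T.h (T.h (M (nat_lit 44230263680022452633599)) (T.h (P (nat_lit 0)) (P (nat_lit 21552170617831424)))) (T.h (P (nat_lit 0)) (M (nat_lit 1462772452884479))))))) (T.h (T.h (T.h (P (nat_lit 0)) (T.h (M (nat_lit 57987338973388860091793407)) (T.h (P (nat_lit 0)) (T.h (M (nat_lit 117840652395666735103)) (T.h (P (nat_lit 0)) (M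 (nat_lit 10910827925823))))))) (T.h (P (nat_lit 0)) (T.h (T.h (P (nat_lit 0)) (T.h (P (nat_lit 82087647970215329792)) (T.h (P (nat_lit 0)) (P (nat_lit 19829994406848))))) (T.h (P (nat_lit 0)) (T.h (T.h (P (nat_lit 0)) (P (nat_lit 67063572229184))) (P (nat_lit 0))))))) (T.h (T.h (P (nat_lit 0)) (T.h (T.h (P (nat_lit 81238814070020872601600)) (T.h (P (nat_lit 0)) (M (nat_lit 15995042885500927)))) (T.h (P (nat_lit 0)) (M (nat_lit 80256168116682751))))) (T.h (T.h (T.h (P (nat_lit 0)) (T.h (P (nat_lit 57443828061226139648)) (T.h (P (nat_lit 0)) (M (nat_lit 1913329872703))))) (T.h (P (nat_lit 0)) (T.h (T.h (P (nat_lit 0)) (M (nat_lit 9298428385343))) (P (nat_lit 0))))) (T.h (T.h (P (nat_lit 0)) (M (nat_lit 75530142658265087))) (T.h (T.h (T.h (P (nat_lit 0)) (P (nat_lit 26887879288832))) (P (nat_lit 0))) (P (nat_lit 0)))))))), (T.h (T.h (P (nat_lit 0)) (T.h (T.h (P (nat_lit 0)) (T.h (M (nat_lit 11364634751436504396988415)) (T.h (P (nat_lit 0)) (P (nat_lit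 42786273065835692032))))) (T.h (P (nat_lit 0)) (T.h (T.h (P (nat_lit 0)) (P (nat_lit 39642309639526154240))) (P (nat_lit 0)))))) (T.h (T.h (T.h (M (nat_lit 21382294463452524082142117887)) (T.h (P (nat_lit 0)) (T.h (M (nat_lit 55308368152604113371135)) (T.h (P (nat_lit 0)) (P (nat_lit 17072719312633856)))))) (T.h (P (nat_lit 0)) (T.h (T.h (P (nat_lit 5119974003336856731648)) (T.h (P (nat_lit 0)) (P (nat_lit 27209387641274368)))) (T.h (P (nat_lit 0)) (P (nat_lit 38231767106387968)))))) (T.h (T.h (P (nat_lit 0)) (T.h (T.h (P (nat_lit 0)) (M (nat_lit 72630611916194054143))) (P (nat_lit 0)))) (T.h (T.h (T.h (P (nat_lit 8429021893482116022272)) (T.h (P (nat_lit 0)) (M (nat_lit 10349591218307071)))) (T.h (P (nat_lit 0)) (M (nat_lit 9121366597222399)))) (T.h (P (nat_lit 0)) (P (nat_lit 3098825511829504))))))), (P (nat_lit 0))]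
def lQm_26 : List (T ℤ) := [(P (nat_lit 0)), (T.h (T.h (T.h (M (nat_lit 984195350018325543104137920511)) (T.h (P (nat_lit 0)) (T.h (P (nat_lit 353537135146806275997696)) (T.h (P (nat_lit 0)) (M (nat_lit 4364305523307184127)))))) (T.h (P (nat_lit 0)) (T.h (T.h (P (nat_lit 15230894307888454317375488)) (T.h (P (nat_lit 0)) (M (nat_lit 21389219787958124543)))) (T.h (P (nat_lit 0)) (P (nat_lit 15566893289482223616)))))) (T.h (T.h (P (nat_lit 0)) (T.h (T.h (P (nat_lit 0)) (T.h (P (nat_lit 5141982376459845500928)) (T.h (P (nat_lit 0)) (M (nat_lit 20305914272612351))))) (T.h (P (nat_lit 0)) (T.h (T.h (P (nat_lit 0)) (M (nat_lit 63912302629388287))) (P (nat_lit 0)))))) (T.h (T.h (T.h (P (nat_lit 15230894307888454317375488)) (T.h (P (nat_lit 0)) (M (nat_lit 21389219787958124543)))) (T.h (P (nat_lit 0)) (P (nat_lit 10893491707010088960)))) (T.h (T.h (P (nat_lit 0)) (T.h (T.h (P (nat_lit 0)) (M (nat_lit 63912302629388287))) (P (nat_lit 0)))) (P (nat_lit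 15566893289482223616)))))), (P (nat_lit 0)), (P (nat_lit 0)), (P (nat_lit 0)), (P (nat_lit 0)), (P (nat_lit 0)), (T.h (T.h (P (nat_lit 0)) (T.h (T.h (P (nat_lit 0)) (T.h (M (nat_lit 103747474557095464927231)) (T.h (P (nat_lit 0)) (T.h (P (nat_lit 18511214958193147904)) (T.h (P (nat_lit 0)) (M (nat_lit 2421611621871))))))) (T.h (P (nat_lit 0)) (T.h (T.h (P (nat_lit 0)) (T.h (P (nat_lit 18511214958193147904)) (T.h (P (nat_lit 0)) (M (nat_lit 2964950137423))))) (T.h (P (nat_lit 0)) (T.h (T.h (P (nat_lit 0)) (M (nat_lit 2421611621871))) (P (nat_lit 0)))))))) (T.h (T.h (T.h (P (nat_lit 8133314121465567337798172672)) (T.h (P (nat_lit 0)) (T.h (P (nat_lit 14007424148448410075136)) (T.h (P (nat_lit 0)) (P (nat_lit 13595747359195136)))))) (T.h (P (nat_lit 0)) (T.h (T.h (P (nat_lit 14007424148448410075136)) (T.h (P (nat_lit 0)) (P (nat_lit 5371517203120128)))) (T.h (P (nat_lit 0)) (P (nat_lit 13595747359195136)))))) (T.h (T.h (P (nat_lit 0)) (T.h (T.h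 (P (nat_lit 0)) (T.h (M (nat_lit 626996230592921599)) (T.h (P (nat_lit 0)) (M (nat_lit 7212977179399))))) (T.h (P (nat_lit 0)) (T.h (T.h (P (nat_lit 0)) (M (nat_lit 7212977179399))) (P (nat_lit 0)))))) (T.h (T.h (T.h (P (nat_lit 7502146680677998788608)) (T.h (P (nat_lit 0)) (P (nat_lit 5759402920116224)))) (T.h (P (nat_lit 0)) (P (nat_lit 5759402920116224)))) (T.h (T.h (P (nat_lit 0)) (T.h (T.h (P (nat_lit 0)) (P (nat_lit 9410262603584))) (P (nat_lit 0)))) (P (nat_lit 7751997443014656)))))))]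
def lQm_27 : List (T ℤ) := [(T.h (T.h (P (nat_lit 0)) (T.h (T.h (P (nat_lit 2070197147691113558778576896)) (T.h (P (nat_lit 0)) (T.h (M (nat_lit 16778713653034530897919)) (T.h (P (nat_lit 0)) (M (nat_lit 5071474906873855)))))) (T.h (P (nat_lit 0)) (T.h (T.h (M (nat_lit 1755541345251985719295)) (T.h (P (nat_lit 0)) (M (nat_lit 8110386514264063)))) (T.h (P (nat_lit 0)) (P (nat_lit 2055657166962688))))))) (T.h (T.h (T.h (P (nat_lit 0)) (T.h (M (nat_lit 34245653991761483615174655)) (T.h (P (nat_lit 0)) (T.h (M (nat_lit 18414233202529927167)) (T.h (P (nat_lit 0)) (P (nat_lit 3040955945440))))))) (T.h (P (nat_lit 0)) (T.h (T.h (P (nat_lit 0)) (T.h (M (nat_lit 77947200328693710847)) (T.h (P (nat_lit 0)) (M (nat_lit 4081026789279))))) (T.h (P (nat_lit 0)) (T.h (T.h (P (nat_lit 0)) (M (nat_lit 6622509720623))) (P (nat_lit 0))))))) (T.h (T.h (P (nat_lit 0)) (T.h (T.h (P (nat_lit 50195457411964089663488)) (T.h (P (nat_lit 0)) (M (nat_lit 41484131990011903))))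 (T.h (P (nat_lit 0)) (P (nat_lit 34533612525666304))))) (T.h (T.h (T.h (P (nat_lit 0)) (T.h (P (nat_lit 10955938041285312512)) (T.h (P (nat_lit 0)) (P (nat_lit 4308734371088))))) (T.h (P (nat_lit 0)) (T.h (T.h (P (nat_lit 0)) (P (nat_lit 19135086581520))) (P (nat_lit 0))))) (T.h (T.h (P (nat_lit 0)) (M (nat_lit 1263562713645055))) (T.h (T.h (T.h (P (nat_lit 0)) (P (nat_lit 11861041236576))) (P (nat_lit 0))) (P (nat_lit 0)))))))), (T.h (T.h (P (nat_lit 0)) (T.h (T.h (P (nat_lit 0)) (T.h (M (nat_lit 10494658871746831442771967)) (T.h (P (nat_lit 0)) (T.h (P (nat_lit 13063050751532597248)) (T.h (P (nat_lit 0)) (P (nat_lit 6448005040192))))))) (T.h (P (nat_lit 0)) (T.h (T.h (P (nat_lit 0)) (T.h (M (nat_lit 34139594727559790591)) (T.h (P (nat_lit 0)) (M (nat_lit 19930650988863))))) (T.h (P (nat_lit 0)) (T.h (T.h (P (nat_lit 0)) (P (nat_lit 14192755560128))) (P (nat_lit 0)))))))) (T.h (T.h (T.h (P (nat_lit 4304148551281740831751405568)) (T.h (P (nat_lit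 0)) (T.h (P (nat_lit 1015608543622518013952)) (T.h (P (nat_lit 0)) (M (nat_lit 92647970569584639)))))) (T.h (P (nat_lit 0)) (T.h (T.h (P (nat_lit 25313360426532698324992)) (T.h (P (nat_lit 0)) (P (nat_lit 22080326634962944)))) (T.h (P (nat_lit 0)) (P (nat_lit 39992299983962112)))))) (T.h (T.h (P (nat_lit 0)) (T.h (T.h (P (nat_lit 0)) (T.h (P (nat_lit 166341497935569616896)) (T.h (P (nat_lit 0)) (M (nat_lit 337539405119))))) (T.h (P (nat_lit 0)) (T.h (T.h (P (nat_lit 0)) (M (nat_lit 12743561461375))) (P (nat_lit 0)))))) (T.h (T.h (T.h (P (nat_lit 16707090653062109331456)) (T.h (P (nat_lit 0)) (M (nat_lit 52808192605061119)))) (T.h (P (nat_lit 0)) (P (nat_lit 26109669090557952)))) (T.h (T.h (P (nat_lit 0)) (T.h (T.h (P (nat_lit 0)) (P (nat_lit 4401048221824))) (P (nat_lit 0)))) (P (nat_lit 5776898915696640))))))), (T.h (T.h (P (nat_lit 0)) (T.h (T.h (P (nat_lit 6099708548673304496447684608)) (T.h (P (nat_lit 0)) (T.h (P (nat_lit 914033056629670281216))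 (T.h (P (nat_lit 0)) (M (nat_lit 25421720942116863)))))) (T.h (P (nat_lit 0)) (T.h (T.h (P (nat_lit 17907237936627615531008)) (T.h (P (nat_lit 0)) (P (nat_lit 10230261391294464)))) (T.h (P (nat_lit 0)) (M (nat_lit 840173474381823))))))) (T.h (T.h (T.h (P (nat_lit 0)) (T.h (M (nat_lit 18571853267465370509246463)) (T.h (P (nat_lit 0)) (P (nat_lit 76155881187738386432))))) (T.h (P (nat_lit 0)) (T.h (T.h (P (nat_lit 0)) (M (nat_lit 2818795405779664895))) (P (nat_lit 0))))) (T.h (T.h (P (nat_lit 0)) (T.h (T.h (M (nat_lit 39385658327280031629311)) (T.h (P (nat_lit 0)) (P (nat_lit 7400423263076352)))) (T.h (P (nat_lit 0)) (P (nat_lit 4731789076348928))))) (T.h (T.h (T.h (P (nat_lit 0)) (P (nat_lit 35935822232235802624))) (P (nat_lit 0))) (T.h (T.h (P (nat_lit 0)) (M (nat_lit 35543153834491903))) (P (nat_lit 0))))))), (P (nat_lit 0)), (P (nat_lit 0)), (T.h (T.h (T.h (P (nat_lit 0)) (T.h (P (nat_lit 2070197147691113558778576896)) (T.h (P (nat_lit 0))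 (T.h (M (nat_lit 1755541345251985719295)) (T.h (P (nat_lit 0)) (P (nat_lit 2055657166962688))))))) (T.h (P (nat_lit 0)) (T.h (T.h (P (nat_lit 0)) (T.h (M (nat_lit 16778713653034530897919)) (T.h (P (nat_lit 0)) (M (nat_lit 8110386514264063))))) (T.h (P (nat_lit 0)) (T.h (T.h (P (nat_lit 0)) (M (nat_lit 5071474906873855))) (P (nat_lit 0))))))) (T.h (T.h (P (nat_lit 0)) (T.h (T.h (M (nat_lit 34245653991761483615174655)) (T.h (P (nat_lit 0)) (T.h (M (nat_lit 77947200328693710847)) (T.h (P (nat_lit 0)) (M (nat_lit 6622509720623)))))) (T.h (P (nat_lit 0)) (T.h (T.h (M (nat_lit 18414233202529927167)) (T.h (P (nat_lit 0)) (M (nat_lit 4081026789279)))) (T.h (P (nat_lit 0)) (P (nat_lit 3040955945440))))))) (T.h (T.h (T.h (P (nat_lit 0)) (T.h (P (nat_lit 50195457411964089663488)) (T.h (P (nat_lit 0)) (P (nat_lit 34533612525666304))))) (T.h (P (nat_lit 0)) (T.h (T.h (P (nat_lit 0)) (M (nat_lit 41484131990011903))) (P (nat_lit 0))))) (T.h (T.h (P (nat_lit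 0)) (T.h (T.h (P (nat_lit 10955938041285312512)) (T.h (P (nat_lit 0)) (P (nat_lit 19135086581520)))) (T.h (P (nat_lit 0)) (P (nat_lit 4308734371088))))) (T.h (T.h (T.h (P (nat_lit 0)) (M (nat_lit 1263562713645055))) (P (nat_lit 0))) (T.h (T.h (P (nat_lit 0)) (P (nat_lit 11861041236576))) (P (nat_lit 0)))))))), (T.h (T.h (T.h (M (nat_lit 1489864615173141456557266960383)) (T.h (P (nat_lit 0)) (T.h (P (nat_lit 474886768969692552888320)) (T.h (P (nat_lit 0)) (T.h (M (nat_lit 23472225573696176127)) (T.h (P (nat_lit 0)) (P (nat_lit 7400973879744)))))))) (T.h (P (nat_lit 0)) (T.h (T.h (P (nat_lit 474886768969692552888320)) (T.h (P (nat_lit 0)) (T.h (M (nat_lit 49589126739001343999)) (T.h (P (nat_lit 0)) (P (nat_lit 16542069378624)))))) (T.h (P (nat_lit 0)) (T.h (T.h (M (nat_lit 23472225573696176127)) (T.h (P (nat_lit 0)) (P (nat_lit 16542069378624)))) (T.h (P (nat_lit 0)) (P (nat_lit 7400973879744)))))))) (T.h (T.h (P (nat_lit 0)) (T.h (T.h (P (nat_lit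 0)) (T.h (M (nat_lit 138524736694348612108287)) (T.h (P (nat_lit 0)) (M (nat_lit 126631892948680703))))) (T.h (P (nat_lit 0)) (T.h (T.h (P (nat_lit 0)) (M (nat_lit 126631892948680703))) (P (nat_lit 0)))))) (T.h (T.h (T.h (M (nat_lit 19155564673305472233635839)) (T.h (P (nat_lit 0)) (T.h (P (nat_lit 76103848389897093120)) (T.h (P (nat_lit 0)) (M (nat_lit 4629881581311)))))) (T.h (P (nat_lit 0)) (T.h (T.h (P (nat_lit 76103848389897093120)) (T.h (P (nat_lit 0)) (M (nat_lit 86031824607231)))) (T.h (P (nat_lit 0)) (M (nat_lit 4629881581311)))))) (T.h (T.h (P (nat_lit 0)) (T.h (T.h (P (nat_lit 0)) (P (nat_lit 85942659986620416))) (P (nat_lit 0)))) (T.h (T.h (T.h (M (nat_lit 60418906907182366719)) (T.h (P (nat_lit 0)) (M (nat_lit 25057116010111)))) (T.h (P (nat_lit 0)) (M (nat_lit 25057116010111)))) (T.h (P (nat_lit 0)) (M (nat_lit 18032440444799)))))))), (T.h (T.h (T.h (P (nat_lit 0)) (T.h (M (nat_lit 3133521640352018543595749375)) (T.h (P (nat_lit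 0)) (T.h (M (nat_lit 6131544820029419683839)) (T.h (P (nat_lit 0)) (M (nat_lit 3746641894768639))))))) (T.h (P (nat_lit 0)) (T.h (T.h (P (nat_lit 0)) (T.h (M (nat_lit 10530773426254924218367)) (T.h (P (nat_lit 0)) (P (nat_lit 3541496266850304))))) (T.h (P (nat_lit 0)) (T.h (T.h (P (nat_lit 0)) (M (nat_lit 25399662819524607))) (P (nat_lit 0))))))) (T.h (T.h (P (nat_lit 0)) (T.h (T.h (P (nat_lit 34949159902444343565221888)) (T.h (P (nat_lit 0)) (P (nat_lit 64795198108966322176)))) (T.h (P (nat_lit 0)) (P (nat_lit 18668642047161794560))))) (T.h (T.h (T.h (P (nat_lit 0)) (T.h (P (nat_lit 3848273589639705526272)) (T.h (P (nat_lit 0)) (M (nat_lit 24755005882941439))))) (T.h (P (nat_lit 0)) (T.h (T.h (P (nat_lit 0)) (P (nat_lit 48253519760162816))) (P (nat_lit 0))))) (T.h (T.h (P (nat_lit 0)) (M (nat_lit 130808218232064835583))) (T.h (T.h (T.h (P (nat_lit 0)) (P (nat_lit 107296303587655680))) (P (nat_lit 0))) (P (nat_lit 0)))))))]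
def lQm_28 : List (T ℤ) := [(P (nat_lit 0)), (P (nat_lit 0)), (T.h (T.h (P (nat_lit 0)) (T.h (T.h (P (nat_lit 0)) (T.h (M (nat_lit 10494658871746831442771967)) (T.h (P (nat_lit 0)) (T.h (M (nat_lit 34139594727559790591)) (T.h (P (nat_lit 0)) (P (nat_lit 14192755560128))))))) (T.h (P (nat_lit 0)) (T.h (T.h (P (nat_lit 0)) (T.h (P (nat_lit 13063050751532597248)) (T.h (P (nat_lit 0)) (M (nat_lit 19930650988863))))) (T.h (P (nat_lit 0)) (T.h (T.h (P (nat_lit 0)) (P (nat_lit 6448005040192))) (P (nat_lit 0)))))))) (T.h (T.h (T.h (P (nat_lit 4304148551281740831751405568)) (T.h (P (nat_lit 0)) (T.h (P (nat_lit 25313360426532698324992)) (T.h (P (nat_lit 0)) (P (nat_lit 39992299983962112)))))) (T.h (P (nat_lit 0)) (T.h (T.h (P (nat_lit 1015608543622518013952)) (T.h (P (nat_lit 0)) (P (nat_lit 22080326634962944)))) (T.h (P (nat_lit 0)) (M (nat_lit 92647970569584639)))))) (T.h (T.h (P (nat_lit 0)) (T.h (T.h (P (nat_lit 0)) (T.h (P (nat_lit 166341497935569616896))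 (T.h (P (nat_lit 0)) (M (nat_lit 12743561461375))))) (T.h (P (nat_lit 0)) (T.h (T.h (P (nat_lit 0)) (M (nat_lit 337539405119))) (P (nat_lit 0)))))) (T.h (T.h (T.h (P (nat_lit 16707090653062109331456)) (T.h (P (nat_lit 0)) (P (nat_lit 26109669090557952)))) (T.h (P (nat_lit 0)) (M (nat_lit 52808192605061119)))) (T.h (T.h (P (nat_lit 0)) (T.h (T.h (P (nat_lit 0)) (P (nat_lit 4401048221824))) (P (nat_lit 0)))) (P (nat_lit 5776898915696640))))))), (T.h (T.h (P (nat_lit 0)) (T.h (T.h (M (nat_lit 3133521640352018543595749375)) (T.h (P (nat_lit 0)) (T.h (M (nat_lit 10530773426254924218367)) (T.h (P (nat_lit 0)) (M (nat_lit 25399662819524607)))))) (T.h (P (nat_lit 0)) (T.h (T.h (M (nat_lit 6131544820029419683839)) (T.h (P (nat_lit 0)) (P (nat_lit 3541496266850304)))) (T.h (P (nat_lit 0)) (M (nat_lit 3746641894768639))))))) (T.h (T.h (T.h (P (nat_lit 0)) (T.h (P (nat_lit 34949159902444343565221888)) (T.h (P (nat_lit 0)) (P (nat_lit 18668642047161794560)))))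 (T.h (P (nat_lit 0)) (T.h (T.h (P (nat_lit 0)) (P (nat_lit 64795198108966322176))) (P (nat_lit 0))))) (T.h (T.h (P (nat_lit 0)) (T.h (T.h (P (nat_lit 3848273589639705526272)) (T.h (P (nat_lit 0)) (P (nat_lit 48253519760162816)))) (T.h (P (nat_lit 0)) (M (nat_lit 24755005882941439))))) (T.h (T.h (T.h (P (nat_lit 0)) (M (nat_lit 130808218232064835583))) (P (nat_lit 0))) (T.h (T.h (P (nat_lit 0)) (P (nat_lit 107296303587655680))) (P (nat_lit 0))))))), (P (nat_lit 0)), (P (nat_lit 0)), (T.h (T.h (T.h (P (nat_lit 0)) (T.h (P (nat_lit 6099708548673304496447684608)) (T.h (P (nat_lit 0)) (T.h (P (nat_lit 17907237936627615531008)) (T.h (P (nat_lit 0)) (M (nat_lit 840173474381823))))))) (T.h (P (nat_lit 0)) (T.h (T.h (P (nat_lit 0)) (T.h (P (nat_lit 914033056629670281216)) (T.h (P (nat_lit 0)) (P (nat_lit 10230261391294464))))) (T.h (P (nat_lit 0)) (T.h (T.h (P (nat_lit 0)) (M (nat_lit 25421720942116863))) (P (nat_lit 0))))))) (T.h (T.h (P (nat_lit 0))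 (T.h (T.h (M (nat_lit 18571853267465370509246463)) (T.h (P (nat_lit 0)) (M (nat_lit 2818795405779664895)))) (T.h (P (nat_lit 0)) (P (nat_lit 76155881187738386432))))) (T.h (T.h (T.h (P (nat_lit 0)) (T.h (M (nat_lit 39385658327280031629311)) (T.h (P (nat_lit 0)) (P (nat_lit 4731789076348928))))) (T.h (P (nat_lit 0)) (T.h (T.h (P (nat_lit 0)) (P (nat_lit 7400423263076352))) (P (nat_lit 0))))) (T.h (T.h (P (nat_lit 0)) (P (nat_lit 35935822232235802624))) (T.h (T.h (T.h (P (nat_lit 0)) (M (nat_lit 35543153834491903))) (P (nat_lit 0))) (P (nat_lit 0))))))), (P (nat_lit 0))]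
def lQm_29 : List (T ℤ) := [(P (nat_lit 0)), (P (nat_lit 0)), (P (nat_lit 0)), (P (nat_lit 0)), (T.h (T.h (T.h (M (nat_lit 7077145893122241677976934547455)) (T.h (P (nat_lit 0)) (T.h (M (nat_lit 2655676528142138807943167)) (T.h (P (nat_lit 0)) (T.h (P (nat_lit 1164662279015235584)) (T.h (P (nat_lit 0)) (M (nat_lit 1109493383599)))))))) (T.h (P (nat_lit 0)) (T.h (T.h (M (nat_lit 2655676528142138807943167)) (T.h (P (nat_lit 0)) (T.h (M (nat_lit 4091938453573337087)) (T.h (P (nat_lit 0)) (M (nat_lit 1741740014223)))))) (T.h (P (nat_lit 0)) (T.h (T.h (P (nat_lit 1164662279015235584)) (T.h (P (nat_lit 0)) (M (nat_lit 1741740014223)))) (T.h (P (nat_lit 0)) (M (nat_lit 1109493383599)))))))) (T.h (T.h (P (nat_lit 0)) (T.h (T.h (P (nat_lit 0)) (T.h (M (nat_lit 109547411112764375039)) (T.h (P (nat_lit 0)) (P (nat_lit 311553983348736))))) (T.h (P (nat_lit 0)) (T.h (T.h (P (nat_lit 0)) (P (nat_lit 311553983348736))) (P (nat_lit 0)))))) (T.h (T.h (T.h (M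 (nat_lit 7290160342092228652433407)) (T.h (P (nat_lit 0)) (T.h (M (nat_lit 8677772569119555583)) (T.h (P (nat_lit 0)) (M (nat_lit 4692097755967)))))) (T.h (P (nat_lit 0)) (T.h (T.h (M (nat_lit 8677772569119555583)) (T.h (P (nat_lit 0)) (M (nat_lit 10354312704511)))) (T.h (P (nat_lit 0)) (M (nat_lit 4692097755967)))))) (T.h (T.h (P (nat_lit 0)) (T.h (T.h (P (nat_lit 0)) (M (nat_lit 29576939647533055))) (P (nat_lit 0)))) (T.h (T.h (T.h (P (nat_lit 3847333175462199296)) (T.h (P (nat_lit 0)) (M (nat_lit 6986606627727)))) (T.h (P (nat_lit 0)) (M (nat_lit 6986606627727)))) (T.h (P (nat_lit 0)) (P (nat_lit 5745344476032)))))))), (T.h (T.h (T.h (P (nat_lit 0)) (T.h (P (nat_lit 340004622159091421151232000)) (T.h (P (nat_lit 0)) (T.h (M (nat_lit 8105186808818221187071)) (T.h (P (nat_lit 0)) (M (nat_lit 8938710452797439))))))) (T.h (P (nat_lit 0)) (T.h (T.h (P (nat_lit 0)) (T.h (P (nat_lit 43982686652293688852480)) (T.h (P (nat_lit 0)) (M (nat_lit 578246134136831)))))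 (T.h (P (nat_lit 0)) (T.h (T.h (P (nat_lit 0)) (P (nat_lit 13389946303381504))) (P (nat_lit 0))))))) (T.h (T.h (P (nat_lit 0)) (T.h (T.h (P (nat_lit 1960600475507989275475968)) (T.h (P (nat_lit 0)) (T.h (P (nat_lit 5346218877418209280)) (T.h (P (nat_lit 0)) (P (nat_lit 5447580911872)))))) (T.h (P (nat_lit 0)) (T.h (T.h (P (nat_lit 8906692828529164288)) (T.h (P (nat_lit 0)) (M (nat_lit 4520161715199)))) (T.h (P (nat_lit 0)) (M (nat_lit 5650489332223))))))) (T.h (T.h (T.h (P (nat_lit 0)) (T.h (M (nat_lit 24853642217965949550591)) (T.h (P (nat_lit 0)) (M (nat_lit 19166517158117375))))) (T.h (P (nat_lit 0)) (T.h (T.h (P (nat_lit 0)) (M (nat_lit 60989868666159103))) (P (nat_lit 0))))) (T.h (T.h (P (nat_lit 0)) (T.h (T.h (P (nat_lit 48691605605848186880)) (T.h (P (nat_lit 0)) (M (nat_lit 18214856339967)))) (T.h (P (nat_lit 0)) (M (nat_lit 3170128275711))))) (T.h (T.h (T.h (P (nat_lit 0)) (P (nat_lit 1447515509358592))) (P (nat_lit 0))) (T.h (T.h (P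 (nat_lit 0)) (P (nat_lit 1711617739200))) (P (nat_lit 0)))))))), (T.h (T.h (T.h (P (nat_lit 848019981192476839092825358336)) (T.h (P (nat_lit 0)) (T.h (P (nat_lit 6614624667399100999663616)) (T.h (P (nat_lit 0)) (P (nat_lit 30926891337990012928)))))) (T.h (P (nat_lit 0)) (T.h (T.h (M (nat_lit 10653213847725133906575359)) (T.h (P (nat_lit 0)) (M (nat_lit 3947790254513061887)))) (T.h (P (nat_lit 0)) (M (nat_lit 11113978180799561727)))))) (T.h (T.h (P (nat_lit 0)) (T.h (T.h (P (nat_lit 0)) (T.h (M (nat_lit 41729021910207325798399)) (T.h (P (nat_lit 0)) (M (nat_lit 5405502678335487))))) (T.h (P (nat_lit 0)) (T.h (T.h (P (nat_lit 0)) (P (nat_lit 8839026266406912))) (P (nat_lit 0)))))) (T.h (T.h (T.h (M (nat_lit 3438041479358372487626751)) (T.h (P (nat_lit 0)) (P (nat_lit 19910758226580209664)))) (T.h (P (nat_lit 0)) (P (nat_lit 3300389089831813120)))) (T.h (T.h (P (nat_lit 0)) (T.h (T.h (P (nat_lit 0)) (P (nat_lit 4819333066915840))) (P (nat_lit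 0)))) (P (nat_lit 3512947433225060352)))))), (P (nat_lit 0))]
def lQm_30 : List (T ℤ) := [(P (nat_lit 0)), (T.h (T.h (P (nat_lit 0)) (T.h (T.h (P (nat_lit 340004622159091421151232000)) (T.h (P (nat_lit 0)) (T.h (P (nat_lit 43982686652293688852480)) (T.h (P (nat_lit 0)) (P (nat_lit 13389946303381504)))))) (T.h (P (nat_lit 0)) (T.h (T.h (M (nat_lit 8105186808818221187071)) (T.h (P (nat_lit 0)) (M (nat_lit 578246134136831)))) (T.h (P (nat_lit 0)) (M (nat_lit 8938710452797439))))))) (T.h (T.h (T.h (P (nat_lit 0)) (T.h (P (nat_lit 1960600475507989275475968)) (T.h (P (nat_lit 0)) (T.h (P (nat_lit 8906692828529164288)) (T.h (P (nat_lit 0)) (M (nat_lit 5650489332223))))))) (T.h (P (nat_lit 0)) (T.h (T.h (P (nat_lit 0)) (T.h (P (nat_lit 5346218877418209280)) (T.h (P (nat_lit 0)) (M (nat_lit 4520161715199))))) (T.h (P (nat_lit 0)) (T.h (T.h (P (nat_lit 0)) (P (nat_lit 5447580911872))) (P (nat_lit 0))))))) (T.h (T.h (P (nat_lit 0)) (T.h (T.h (M (nat_lit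 24853642217965949550591)) (T.h (P (nat_lit 0)) (M (nat_lit 60989868666159103)))) (T.h (P (nat_lit 0)) (M (nat_lit 19166517158117375))))) (T.h (T.h (T.h (P (nat_lit 0)) (T.h (P (nat_lit 48691605605848186880)) (T.h (P (nat_lit 0)) (M (nat_lit 3170128275711))))) (T.h (P (nat_lit 0)) (T.h (T.h (P (nat_lit 0)) (M (nat_lit 18214856339967))) (P (nat_lit 0))))) (T.h (T.h (P (nat_lit 0)) (P (nat_lit 1447515509358592))) (T.h (T.h (T.h (P (nat_lit 0)) (P (nat_lit 1711617739200))) (P (nat_lit 0))) (P (nat_lit 0)))))))), (T.h (T.h (P (nat_lit 0)) (T.h (T.h (P (nat_lit 0)) (T.h (M (nat_lit 1786891951884896965754879)) (T.h (P (nat_lit 0)) (P (nat_lit 27420855437877051392))))) (T.h (P (nat_lit 0)) (T.h (T.h (P (nat_lit 0)) (P (nat_lit 27420855437877051392))) (P (nat_lit 0)))))) (T.h (T.h (T.h (P (nat_lit 14143915709784305992583872512)) (T.h (P (nat_lit 0)) (T.h (M (nat_lit 71315698274066231197695)) (T.h (P (nat_lit 0)) (P (nat_lit 8208545001439232)))))) (T.h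 (P (nat_lit 0)) (T.h (T.h (M (nat_lit 71315698274066231197695)) (T.h (P (nat_lit 0)) (P (nat_lit 50991262593449984)))) (T.h (P (nat_lit 0)) (P (nat_lit 8208545001439232)))))) (T.h (T.h (P (nat_lit 0)) (T.h (T.h (P (nat_lit 0)) (M (nat_lit 20838505919270617087))) (P (nat_lit 0)))) (T.h (T.h (T.h (P (nat_lit 5554121537654855041024)) (T.h (P (nat_lit 0)) (P (nat_lit 32756148533133312)))) (T.h (P (nat_lit 0)) (P (nat_lit 32756148533133312)))) (T.h (P (nat_lit 0)) (P (nat_lit 26821480240742400))))))), (P (nat_lit 0)), (P (nat_lit 0)), (T.h (T.h (T.h (P (nat_lit 848019981192476839092825358336)) (T.h (P (nat_lit 0)) (T.h (M (nat_lit 10653213847725133906575359)) (T.h (P (nat_lit 0)) (M (nat_lit 11113978180799561727)))))) (T.h (P (nat_lit 0)) (T.h (T.h (P (nat_lit 6614624667399100999663616)) (T.h (P (nat_lit 0)) (M (nat_lit 3947790254513061887)))) (T.h (P (nat_lit 0)) (P (nat_lit 30926891337990012928)))))) (T.h (T.h (P (nat_lit 0)) (T.h (T.h (P (nat_lit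 0)) (T.h (M (nat_lit 41729021910207325798399)) (T.h (P (nat_lit 0)) (P (nat_lit 8839026266406912))))) (T.h (P (nat_lit 0)) (T.h (T.h (P (nat_lit 0)) (M (nat_lit 5405502678335487))) (P (nat_lit 0)))))) (T.h (T.h (T.h (M (nat_lit 3438041479358372487626751)) (T.h (P (nat_lit 0)) (P (nat_lit 3300389089831813120)))) (T.h (P (nat_lit 0)) (P (nat_lit 19910758226580209664)))) (T.h (T.h (P (nat_lit 0)) (T.h (T.h (P (nat_lit 0)) (P (nat_lit 4819333066915840))) (P (nat_lit 0)))) (P (nat_lit 3512947433225060352)))))), (P (nat_lit 0)), (P (nat_lit 0))]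
def lQm_31 : List (T ℤ) := [(P (nat_lit 0)), (P (nat_lit 0)), (P (nat_lit 0)), (T.h (T.h (P (nat_lit 0)) (T.h (T.h (P (nat_lit 0)) (T.h (M (nat_lit 2475538643173014241279)) (T.h (P (nat_lit 0)) (T.h (M (nat_lit 20644546159329673215)) (T.h (P (nat_lit 0)) (P (nat_lit 1880274670464))))))) (T.h (P (nat_lit 0)) (T.h (T.h (P (nat_lit 0)) (T.h (M (nat_lit 20644546159329673215)) (T.h (P (nat_lit 0)) (P (nat_lit 5936581743360))))) (T.h (P (nat_lit 0)) (T.h (T.h (P (nat_lit 0)) (P (nat_lit 1880274670464))) (P (nat_lit 0)))))))) (T.h (T.h (T.h (M (nat_lit 8143272965188640913429102591)) (T.h (P (nat_lit 0)) (T.h (M (nat_lit 14199792496674017902591)) (T.h (P (nat_lit 0)) (M (nat_lit 9476508357492735)))))) (T.h (P (nat_lit 0)) (T.h (T.h (M (nat_lit 14199792496674017902591)) (T.h (P (nat_lit 0)) (M (nat_lit 15198055877836799)))) (T.h (P (nat_lit 0)) (M (nat_lit 9476508357492735)))))) (T.h (T.h (P (nat_lit 0)) (T.h (T.h (P (nat_lit 0)) (T.h (M (nat_lit 4175727890098290687))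 (T.h (P (nat_lit 0)) (P (nat_lit 11791955260672))))) (T.h (P (nat_lit 0)) (T.h (T.h (P (nat_lit 0)) (P (nat_lit 11791955260672))) (P (nat_lit 0)))))) (T.h (T.h (T.h (M (nat_lit 7541260049816548802559)) (T.h (P (nat_lit 0)) (M (nat_lit 7349451755749375)))) (T.h (P (nat_lit 0)) (M (nat_lit 7349451755749375)))) (T.h (T.h (P (nat_lit 0)) (T.h (T.h (P (nat_lit 0)) (M (nat_lit 18815787711999))) (P (nat_lit 0)))) (M (nat_lit 7426438338183167))))))), (T.h (T.h (P (nat_lit 0)) (T.h (T.h (M (nat_lit 2547540643335990035118817279)) (T.h (P (nat_lit 0)) (T.h (P (nat_lit 19946718446392155570176)) (T.h (P (nat_lit 0)) (M (nat_lit 3801332291633151)))))) (T.h (P (nat_lit 0)) (T.h (T.h (M (nat_lit 392783585823669878783)) (T.h (P (nat_lit 0)) (M (nat_lit 3402133379809279)))) (T.h (P (nat_lit 0)) (P (nat_lit 965174953410560))))))) (T.h (T.h (T.h (P (nat_lit 0)) (T.h (P (nat_lit 18381355421258832978903040)) (T.h (P (nat_lit 0)) (P (nat_lit 23203781688285986816)))))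 (T.h (P (nat_lit 0)) (T.h (T.h (P (nat_lit 0)) (P (nat_lit 36613268445365010432))) (P (nat_lit 0))))) (T.h (T.h (P (nat_lit 0)) (T.h (T.h (M (nat_lit 34455666698401404157951)) (T.h (P (nat_lit 0)) (P (nat_lit 4932788028899328)))) (T.h (P (nat_lit 0)) (M (nat_lit 584082030985215))))) (T.h (T.h (T.h (P (nat_lit 0)) (M (nat_lit 7114211940729094143))) (P (nat_lit 0))) (T.h (T.h (P (nat_lit 0)) (P (nat_lit 2625970948096000))) (P (nat_lit 0))))))), (P (nat_lit 0)), (P (nat_lit 0)), (T.h (T.h (T.h (P (nat_lit 0)) (T.h (M (nat_lit 2547540643335990035118817279)) (T.h (P (nat_lit 0)) (T.h (M (nat_lit 392783585823669878783)) (T.h (P (nat_lit 0)) (P (nat_lit 965174953410560))))))) (T.h (P (nat_lit 0)) (T.h (T.h (P (nat_lit 0)) (T.h (P (nat_lit 19946718446392155570176)) (T.h (P (nat_lit 0)) (M (nat_lit 3402133379809279))))) (T.h (P (nat_lit 0)) (T.h (T.h (P (nat_lit 0)) (M (nat_lit 3801332291633151))) (P (nat_lit 0))))))) (T.h (T.h (P (nat_lit 0)) (T.h (T.h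 (P (nat_lit 18381355421258832978903040)) (T.h (P (nat_lit 0)) (P (nat_lit 36613268445365010432)))) (T.h (P (nat_lit 0)) (P (nat_lit 23203781688285986816))))) (T.h (T.h (T.h (P (nat_lit 0)) (T.h (M (nat_lit 34455666698401404157951)) (T.h (P (nat_lit 0)) (M (nat_lit 584082030985215))))) (T.h (P (nat_lit 0)) (T.h (T.h (P (nat_lit 0)) (P (nat_lit 4932788028899328))) (P (nat_lit 0))))) (T.h (T.h (P (nat_lit 0)) (M (nat_lit 7114211940729094143))) (T.h (T.h (T.h (P (nat_lit 0)) (P (nat_lit 2625970948096000))) (P (nat_lit 0))) (P (nat_lit 0)))))))]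
def lQm_32 : List (T ℤ) := [(P (nat_lit 0)), (P (nat_lit 0)), (P (nat_lit 0)), (P (nat_lit 0)), (P (nat_lit 0)), (T.h (T.h (T.h (P (nat_lit 2172631954831739215942938263552)) (T.h (P (nat_lit 0)) (T.h (P (nat_lit 3113098526908072926904320)) (T.h (P (nat_lit 0)) (P (nat_lit 3128846296169840640)))))) (T.h (P (nat_lit 0)) (T.h (T.h (P (nat_lit 3113098526908072926904320)) (T.h (P (nat_lit 0)) (P (nat_lit 5441742847361417216)))) (T.h (P (nat_lit 0)) (P (nat_lit 3128846296169840640)))))) (T.h (T.h (P (nat_lit 0)) (T.h (T.h (P (nat_lit 0)) (T.h (P (nat_lit 6096585033635921395712)) (T.h (P (nat_lit 0)) (M (nat_lit 6037481093464063))))) (T.h (P (nat_lit 0)) (T.h (T.h (P (nat_lit 0)) (M (nat_lit 6037481093464063))) (P (nat_lit 0)))))) (T.h (T.h (T.h (P (nat_lit 7101092557652367280963584)) (T.h (P (nat_lit 0)) (P (nat_lit 11923797260938248192)))) (T.h (P (nat_lit 0)) (P (nat_lit 11923797260938248192)))) (T.h (T.h (P (nat_lit 0)) (T.h (T.h (P (nat_lit 0))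 (P (nat_lit 19267366617088000))) (P (nat_lit 0)))) (M (nat_lit 3403652489910681599)))))), (P (nat_lit 0)), (P (nat_lit 0))]
def lQm_33 : List (T ℤ) := [(P (nat_lit 0)), (P (nat_lit 0)), (P (nat_lit 0)), (P (nat_lit 0)), (P (nat_lit 0)), (P (nat_lit 0)), (P (nat_lit 0))]

def CQm : List (T ℤ) := lQm_0 ++ (lQm_1 ++ (lQm_2 ++ (lQm_3 ++ (lQm_4 ++ (lQm_5 ++ (lQm_6 ++ (lQm_7 ++ (lQm_8 ++ (lQm_9 ++ (lQm_10 ++ (lQm_11 ++ (lQm_12 ++ (lQm_13 ++ (lQm_14 ++ (lQm_15 ++ (lQm_16 ++ (lQm_17 ++ (lQm_18 ++ (lQm_19 ++ (lQm_20 ++ (lQm_21 ++ (lQm_22 ++ (lQm_23 ++ (lQm_24 ++ (lQm_25 ++ (lQm_26 ++ (lQm_27 ++ (lQm_28 ++ (lQm_29 ++ (lQm_30 ++ (lQm_31 ++ (lQm_32 ++ (lQm_33)))))))))))))))))))))))))))))))))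

/-- norms at radius 1536 -/
def NQm : List ℕ := [(nat_lit 5034231565398356583608483840000), (nat_lit 0), (nat_lit 494649966725257697485269749465088), (nat_lit 1209752703925621907158110094491648), (nat_lit 1042230318488282999046545805934592), (nat_lit 1561142633686734884374514572984320), (nat_lit 540489967827937282607649061339136), (nat_lit 0), (nat_lit 0), (nat_lit 0), (nat_lit 1329510867508963843657844045905920), (nat_lit 2443016901142474456452372489043968), (nat_lit 2365560037786762914955393587216384), (nat_lit 2036310411393265744401247286329344), (nat_lit 757869054131283449247902466048000), (nat_lit 0), (nat_lit 0), (nat_lit 0), (nat_lit 3092065859416344805118412356321280), (nat_lit 3061795933525594193328489118040064), (nat_lit 5800485816561614987856707063906304), (nat_lit 4185316810326793350917961918971904), (nat_lit 768651863051437294372472271929344), (nat_lit 0), (nat_lit 0), (nat_lit 1329510867508963843657844045905920), (nat_lit 3061795933525594193328489118040064),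 (nat_lit 5553719038780126522787153999560704), (nat_lit 5718551467573431181424780170493952), (nat_lit 1623359920587802913536900035772416), (nat_lit 0), (nat_lit 0), (nat_lit 494649966725257697485269749465088), (nat_lit 2443016901142474456452372489043968), (nat_lit 5800485816561614987856707063906304), (nat_lit 5718551467573431181424780170493952), (nat_lit 1855152369477198666651802007502848), (nat_lit 0), (nat_lit 0), (nat_lit 1209752703925621907158110094491648), (nat_lit 2365560037786762914955393587216384), (nat_lit 4185316810326793350917961918971904), (nat_lit 1623359920587802913536900035772416), (nat_lit 0), (nat_lit 0), (nat_lit 1042230318488282999046545805934592), (nat_lit 2036310411393265744401247286329344), (nat_lit 768651863051437294372472271929344), (nat_lit 0), (nat_lit 0), (nat_lit 1561142633686734884374514572984320), (nat_lit 757869054131283449247902466048000), (nat_lit 0), (nat_lit 0), (nat_lit 540489967827937282607649061339136), (nat_lit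 0), (nat_lit 0), (nat_lit 0), (nat_lit 0), (nat_lit 0), (nat_lit 1329510867508963843657844045905920), (nat_lit 2443016901142474456452372489043968), (nat_lit 2365560037786762914955393587216384), (nat_lit 2036310411393265744401247286329344), (nat_lit 757869054131283449247902466048000), (nat_lit 0), (nat_lit 0), (nat_lit 713649321919874451129109963603968), (nat_lit 3345644793722702363331622445514752), (nat_lit 3208387584723476025836895530385408), (nat_lit 7947156881596334411541962920296448), (nat_lit 2349967942813161412841034095788032), (nat_lit 0), (nat_lit 0), (nat_lit 713649321919874451129109963603968), (nat_lit 3569764313049650402427736443322368), (nat_lit 6802551046899441351763203452829696), (nat_lit 7299317567313634708196043459133440), (nat_lit 3175339065348844877886902891446272), (nat_lit 0), (nat_lit 0), (nat_lit 1329510867508963843657844045905920), (nat_lit 3345644793722702363331622445514752), (nat_lit 6802551046899441351763203452829696),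 (nat_lit 9209970643651487644712750788116480), (nat_lit 2070733505592697315115643294449664), (nat_lit 0), (nat_lit 0), (nat_lit 2443016901142474456452372489043968), (nat_lit 3208387584723476025836895530385408), (nat_lit 7299317567313634708196043459133440), (nat_lit 2070733505592697315115643294449664), (nat_lit 0), (nat_lit 0), (nat_lit 2365560037786762914955393587216384), (nat_lit 7947156881596334411541962920296448), (nat_lit 3175339065348844877886902891446272), (nat_lit 0), (nat_lit 0), (nat_lit 2036310411393265744401247286329344), (nat_lit 2349967942813161412841034095788032), (nat_lit 0), (nat_lit 0), (nat_lit 757869054131283449247902466048000), (nat_lit 0), (nat_lit 0), (nat_lit 0), (nat_lit 0), (nat_lit 0), (nat_lit 0), (nat_lit 3092065859416344805118412356321280), (nat_lit 3061795933525594193328489118040064), (nat_lit 5800485816561614987856707063906304), (nat_lit 4185316810326793350917961918971904), (nat_lit 768651863051437294372472271929344),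 (nat_lit 0), (nat_lit 0), (nat_lit 713649321919874451129109963603968), (nat_lit 3569764313049650402427736443322368), (nat_lit 6802551046899441351763203452829696), (nat_lit 7299317567313634708196043459133440), (nat_lit 3175339065348844877886902891446272), (nat_lit 0), (nat_lit 0), (nat_lit 3092065859416344805118412356321280), (nat_lit 3569764313049650402427736443322368), (nat_lit 7602796607040488304265290829529088), (nat_lit 10307990642101157714294412473794560), (nat_lit 2950663527345396033950888698576896), (nat_lit 0), (nat_lit 0), (nat_lit 3061795933525594193328489118040064), (nat_lit 6802551046899441351763203452829696), (nat_lit 10307990642101157714294412473794560), (nat_lit 3375077717050305174312384290881536), (nat_lit 0), (nat_lit 0), (nat_lit 5800485816561614987856707063906304), (nat_lit 7299317567313634708196043459133440), (nat_lit 2950663527345396033950888698576896), (nat_lit 0), (nat_lit 0), (nat_lit 4185316810326793350917961918971904),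 (nat_lit 3175339065348844877886902891446272), (nat_lit 0), (nat_lit 0), (nat_lit 768651863051437294372472271929344), (nat_lit 0), (nat_lit 0), (nat_lit 0), (nat_lit 0), (nat_lit 0), (nat_lit 1329510867508963843657844045905920), (nat_lit 3061795933525594193328489118040064), (nat_lit 5553719038780126522787153999560704), (nat_lit 5718551467573431181424780170493952), (nat_lit 1623359920587802913536900035772416), (nat_lit 0), (nat_lit 0), (nat_lit 1329510867508963843657844045905920), (nat_lit 3345644793722702363331622445514752), (nat_lit 6802551046899441351763203452829696), (nat_lit 9209970643651487644712750788116480), (nat_lit 2070733505592697315115643294449664), (nat_lit 0), (nat_lit 0), (nat_lit 3061795933525594193328489118040064), (nat_lit 6802551046899441351763203452829696), (nat_lit 10307990642101157714294412473794560), (nat_lit 3375077717050305174312384290881536), (nat_lit 0), (nat_lit 0), (nat_lit 5553719038780126522787153999560704), (nat_lit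 9209970643651487644712750788116480), (nat_lit 3375077717050305174312384290881536), (nat_lit 0), (nat_lit 0), (nat_lit 5718551467573431181424780170493952), (nat_lit 2070733505592697315115643294449664), (nat_lit 0), (nat_lit 0), (nat_lit 1623359920587802913536900035772416), (nat_lit 0), (nat_lit 0), (nat_lit 0), (nat_lit 0), (nat_lit 0), (nat_lit 494649966725257697485269749465088), (nat_lit 2443016901142474456452372489043968), (nat_lit 5800485816561614987856707063906304), (nat_lit 5718551467573431181424780170493952), (nat_lit 1855152369477198666651802007502848), (nat_lit 0), (nat_lit 0), (nat_lit 2443016901142474456452372489043968), (nat_lit 3208387584723476025836895530385408), (nat_lit 7299317567313634708196043459133440), (nat_lit 2070733505592697315115643294449664), (nat_lit 0), (nat_lit 0), (nat_lit 5800485816561614987856707063906304), (nat_lit 7299317567313634708196043459133440), (nat_lit 2950663527345396033950888698576896), (nat_lit 0), (nat_lit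 0), (nat_lit 5718551467573431181424780170493952), (nat_lit 2070733505592697315115643294449664), (nat_lit 0), (nat_lit 0), (nat_lit 1855152369477198666651802007502848), (nat_lit 0), (nat_lit 0), (nat_lit 0), (nat_lit 0), (nat_lit 0), (nat_lit 1209752703925621907158110094491648), (nat_lit 2365560037786762914955393587216384), (nat_lit 4185316810326793350917961918971904), (nat_lit 1623359920587802913536900035772416), (nat_lit 0), (nat_lit 0), (nat_lit 2365560037786762914955393587216384), (nat_lit 7947156881596334411541962920296448), (nat_lit 3175339065348844877886902891446272), (nat_lit 0), (nat_lit 0), (nat_lit 4185316810326793350917961918971904), (nat_lit 3175339065348844877886902891446272), (nat_lit 0), (nat_lit 0), (nat_lit 1623359920587802913536900035772416), (nat_lit 0), (nat_lit 0), (nat_lit 0), (nat_lit 0), (nat_lit 0), (nat_lit 1042230318488282999046545805934592), (nat_lit 2036310411393265744401247286329344), (nat_lit 768651863051437294372472271929344),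 (nat_lit 0), (nat_lit 0), (nat_lit 2036310411393265744401247286329344), (nat_lit 2349967942813161412841034095788032), (nat_lit 0), (nat_lit 0), (nat_lit 768651863051437294372472271929344), (nat_lit 0), (nat_lit 0), (nat_lit 0), (nat_lit 0), (nat_lit 0), (nat_lit 1561142633686734884374514572984320), (nat_lit 757869054131283449247902466048000), (nat_lit 0), (nat_lit 0), (nat_lit 757869054131283449247902466048000), (nat_lit 0), (nat_lit 0), (nat_lit 0), (nat_lit 0), (nat_lit 0), (nat_lit 540489967827937282607649061339136), (nat_lit 0), (nat_lit 0), (nat_lit 0), (nat_lit 0), (nat_lit 0), (nat_lit 0), (nat_lit 0), (nat_lit 0), (nat_lit 0)]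


def lP11_0 : List (T ℤ) := [(P (nat_lit 0)), (P (nat_lit 0)), (P (nat_lit 0)), (P (nat_lit 0)), (P (nat_lit 0)), (P (nat_lit 0)), (P (nat_lit 0)), (P (nat_lit 0))]
def lP11_1 : List (T ℤ) := [(P (nat_lit 0)), (P (nat_lit 0)), (P (nat_lit 0)), (P (nat_lit 0)), (P (nat_lit 0)), (P (nat_lit 0)), (P (nat_lit 0)), (P (nat_lit 0))]
def lP11_2 : List (T ℤ) := [(P (nat_lit 0)), (M (nat_lit 4410501400340933843783516159999)), (P (nat_lit 0)), (P (nat_lit 0)), (T.h (T.h (T.h (M (nat_lit 128120900552666237134832664575)) (T.h (P (nat_lit 0)) (T.h (P (nat_lit 244345310791578333216768)) (T.h (P (nat_lit 0)) (T.h (P (nat_lit 622944617486090240)) (T.h (P (nat_lit 0)) (M (nat_lit 2463187883231)))))))) (T.h (P (nat_lit 0)) (T.h (T.h (M (nat_lit 374856245789455152054271)) (T.h (P (nat_lit 0)) (T.h (M (nat_lit 1937253098095378431)) (T.h (P (nat_lit 0)) (P (nat_lit 3986189105440)))))) (T.h (P (nat_lit 0)) (T.h (T.h (M (nat_lit 3158064110562705407)) (T.h (P (nat_lit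 0)) (P (nat_lit 2707914055472)))) (T.h (P (nat_lit 0)) (P (nat_lit 1380574505568)))))))) (T.h (T.h (P (nat_lit 0)) (T.h (T.h (P (nat_lit 0)) (T.h (M (nat_lit 1980045858969294471167)) (T.h (P (nat_lit 0)) (P (nat_lit 3795046400131072))))) (T.h (P (nat_lit 0)) (T.h (T.h (P (nat_lit 0)) (P (nat_lit 2866966031630336))) (P (nat_lit 0)))))) (T.h (T.h (T.h (M (nat_lit 374856245789455152054271)) (T.h (P (nat_lit 0)) (T.h (M (nat_lit 1937253098095378431)) (T.h (P (nat_lit 0)) (P (nat_lit 3986189105440)))))) (T.h (P (nat_lit 0)) (T.h (T.h (M (nat_lit 1706496107061706751)) (T.h (P (nat_lit 0)) (P (nat_lit 4438957717760)))) (T.h (P (nat_lit 0)) (P (nat_lit 1184705075472)))))) (T.h (T.h (P (nat_lit 0)) (T.h (T.h (P (nat_lit 0)) (P (nat_lit 2866966031630336))) (P (nat_lit 0)))) (T.h (T.h (T.h (M (nat_lit 3158064110562705407)) (T.h (P (nat_lit 0)) (P (nat_lit 2707914055472)))) (T.h (P (nat_lit 0)) (P (nat_lit 1184705075472)))) (T.h (P (nat_lit 0)) (P (nat_lit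 1380574505568)))))))), (T.h (T.h (T.h (P (nat_lit 0)) (T.h (M (nat_lit 6708703288543951383055826943)) (T.h (P (nat_lit 0)) (T.h (M (nat_lit 8639614918792361017343)) (T.h (P (nat_lit 0)) (P (nat_lit 12079869476732928))))))) (T.h (P (nat_lit 0)) (T.h (T.h (P (nat_lit 0)) (T.h (M (nat_lit 9336552845164421316607)) (T.h (P (nat_lit 0)) (M (nat_lit 17301337354928127))))) (T.h (P (nat_lit 0)) (T.h (T.h (P (nat_lit 0)) (M (nat_lit 10096859823996927))) (P (nat_lit 0))))))) (T.h (T.h (P (nat_lit 0)) (T.h (T.h (P (nat_lit 2367679197508544791314432)) (T.h (P (nat_lit 0)) (T.h (M (nat_lit 16662209236586987519)) (T.h (P (nat_lit 0)) (M (nat_lit 14111840783999)))))) (T.h (P (nat_lit 0)) (T.h (T.h (M (nat_lit 18959063845215141887)) (T.h (P (nat_lit 0)) (P (nat_lit 16464759474008)))) (T.h (P (nat_lit 0)) (P (nat_lit 1709027307648))))))) (T.h (T.h (T.h (P (nat_lit 0)) (T.h (M (nat_lit 4825756084058852425727)) (T.h (P (nat_lit 0)) (M (nat_lit 22339981025869823)))))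 (T.h (P (nat_lit 0)) (T.h (T.h (P (nat_lit 0)) (M (nat_lit 22001358117797887))) (P (nat_lit 0))))) (T.h (T.h (P (nat_lit 0)) (T.h (T.h (M (nat_lit 17490023526864781311)) (T.h (P (nat_lit 0)) (P (nat_lit 1223173417000)))) (T.h (P (nat_lit 0)) (P (nat_lit 4452436307520))))) (T.h (T.h (T.h (P (nat_lit 0)) (M (nat_lit 13727318916464639))) (P (nat_lit 0))) (T.h (T.h (P (nat_lit 0)) (P (nat_lit 1111384698048))) (P (nat_lit 0)))))))), (T.h (T.h (T.h (P (nat_lit 7707325677427308464448959676416)) (T.h (P (nat_lit 0)) (T.h (P (nat_lit 6115846739255371820433408)) (T.h (P (nat_lit 0)) (T.h (M (nat_lit 6761073294046134271)) (T.h (P (nat_lit 0)) (P (nat_lit 5745344476032)))))))) (T.h (P (nat_lit 0)) (T.h (T.h (P (nat_lit 2901120429012419390472192)) (T.h (P (nat_lit 0)) (T.h (P (nat_lit 15647870045474783232)) (T.h (P (nat_lit 0)) (M (nat_lit 6986606627727)))))) (T.h (P (nat_lit 0)) (T.h (T.h (P (nat_lit 5890513963451416576)) (T.h (P (nat_lit 0)) (M (nat_lit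 4692097755967)))) (T.h (P (nat_lit 0)) (M (nat_lit 1109493383599)))))))) (T.h (T.h (P (nat_lit 0)) (T.h (T.h (P (nat_lit 0)) (T.h (P (nat_lit 9365546830999188406272)) (T.h (P (nat_lit 0)) (P (nat_lit 11959213971734528))))) (T.h (P (nat_lit 0)) (T.h (T.h (P (nat_lit 0)) (M (nat_lit 11019108930781183))) (P (nat_lit 0)))))) (T.h (T.h (T.h (P (nat_lit 2901120429012419390472192)) (T.h (P (nat_lit 0)) (T.h (P (nat_lit 15647870045474783232)) (T.h (P (nat_lit 0)) (M (nat_lit 6986606627727)))))) (T.h (P (nat_lit 0)) (T.h (T.h (P (nat_lit 12105851740364996608)) (T.h (P (nat_lit 0)) (M (nat_lit 10354312704511)))) (T.h (P (nat_lit 0)) (M (nat_lit 1741740014223)))))) (T.h (T.h (P (nat_lit 0)) (T.h (T.h (P (nat_lit 0)) (M (nat_lit 11019108930781183))) (P (nat_lit 0)))) (T.h (T.h (T.h (P (nat_lit 5890513963451416576)) (T.h (P (nat_lit 0)) (M (nat_lit 4692097755967)))) (T.h (P (nat_lit 0)) (M (nat_lit 1741740014223)))) (T.h (P (nat_lit 0)) (M (nat_lit 1109493383599)))))))),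 (T.h (T.h (T.h (P (nat_lit 0)) (T.h (P (nat_lit 6708703288543951383055826944)) (T.h (P (nat_lit 0)) (T.h (P (nat_lit 8639614918792361017344)) (T.h (P (nat_lit 0)) (M (nat_lit 12079869476732927))))))) (T.h (P (nat_lit 0)) (T.h (T.h (P (nat_lit 0)) (T.h (P (nat_lit 7081154464611636871168)) (T.h (P (nat_lit 0)) (P (nat_lit 19820659190398976))))) (T.h (P (nat_lit 0)) (T.h (T.h (P (nat_lit 0)) (P (nat_lit 11912089370230784))) (P (nat_lit 0))))))) (T.h (T.h (P (nat_lit 0)) (T.h (T.h (M (nat_lit 2367679197508544791314431)) (T.h (P (nat_lit 0)) (T.h (P (nat_lit 16662209236586987520)) (T.h (P (nat_lit 0)) (P (nat_lit 14111840784000)))))) (T.h (P (nat_lit 0)) (T.h (T.h (P (nat_lit 18224543686039961600)) (T.h (P (nat_lit 0)) (M (nat_lit 8843966445503)))) (T.h (P (nat_lit 0)) (M (nat_lit 1410206002847))))))) (T.h (T.h (T.h (P (nat_lit 0)) (T.h (P (nat_lit 7081154464611636871168)) (T.h (P (nat_lit 0)) (P (nat_lit 19820659190398976))))) (T.h (P (nat_lit 0))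 (T.h (T.h (P (nat_lit 0)) (P (nat_lit 22001358117797888))) (P (nat_lit 0))))) (T.h (T.h (P (nat_lit 0)) (T.h (T.h (P (nat_lit 18224543686039961600)) (T.h (P (nat_lit 0)) (M (nat_lit 8843966445503)))) (T.h (P (nat_lit 0)) (M (nat_lit 4452436307519))))) (T.h (T.h (T.h (P (nat_lit 0)) (P (nat_lit 11912089370230784))) (P (nat_lit 0))) (T.h (T.h (P (nat_lit 0)) (M (nat_lit 1410206002847))) (P (nat_lit 0))))))))]
def lP11_3 : List (T ℤ) := [(T.h (T.h (T.h (M (nat_lit 2172631954831739215942938263551)) (T.h (P (nat_lit 0)) (T.h (M (nat_lit 7101092557652367280963583)) (T.h (P (nat_lit 0)) (P (nat_lit 3403652489910681600)))))) (T.h (P (nat_lit 0)) (T.h (T.h (M (nat_lit 3113098526908072926904319)) (T.h (P (nat_lit 0)) (M (nat_lit 11923797260938248191)))) (T.h (P (nat_lit 0)) (M (nat_lit 3128846296169840639)))))) (T.h (T.h (P (nat_lit 0)) (T.h (T.h (P (nat_lit 0)) (T.h (M (nat_lit 6096585033635921395711)) (T.h (P (nat_lit 0)) (M (nat_lit 19267366617087999)))))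 (T.h (P (nat_lit 0)) (T.h (T.h (P (nat_lit 0)) (P (nat_lit 6037481093464064))) (P (nat_lit 0)))))) (T.h (T.h (T.h (M (nat_lit 3113098526908072926904319)) (T.h (P (nat_lit 0)) (M (nat_lit 11923797260938248191)))) (T.h (P (nat_lit 0)) (M (nat_lit 5441742847361417215)))) (T.h (T.h (P (nat_lit 0)) (T.h (T.h (P (nat_lit 0)) (P (nat_lit 6037481093464064))) (P (nat_lit 0)))) (M (nat_lit 3128846296169840639)))))), (P (nat_lit 0)), (P (nat_lit 0)), (T.h (T.h (P (nat_lit 0)) (T.h (T.h (P (nat_lit 0)) (T.h (P (nat_lit 8967851728135020949274624)) (T.h (P (nat_lit 0)) (T.h (P (nat_lit 5808715515924840448)) (T.h (P (nat_lit 0)) (M (nat_lit 6298334266991))))))) (T.h (P (nat_lit 0)) (T.h (T.h (P (nat_lit 0)) (T.h (M (nat_lit 1632295132411723775)) (T.h (P (nat_lit 0)) (M (nat_lit 1954457784095))))) (T.h (P (nat_lit 0)) (T.h (T.h (P (nat_lit 0)) (M (nat_lit 1262651453183))) (P (nat_lit 0)))))))) (T.h (T.h (T.h (P (nat_lit 382278186225956246805020672)) (T.h (P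 (nat_lit 0)) (T.h (M (nat_lit 6393028105238678077439)) (T.h (P (nat_lit 0)) (P (nat_lit 10182874572193792)))))) (T.h (P (nat_lit 0)) (T.h (T.h (P (nat_lit 4917025952193526628352)) (T.h (P (nat_lit 0)) (P (nat_lit 17704818290655232)))) (T.h (P (nat_lit 0)) (P (nat_lit 566836548272128)))))) (T.h (T.h (P (nat_lit 0)) (T.h (T.h (P (nat_lit 0)) (T.h (P (nat_lit 21437333873006477312)) (T.h (P (nat_lit 0)) (M (nat_lit 14649144822207))))) (T.h (P (nat_lit 0)) (T.h (T.h (P (nat_lit 0)) (P (nat_lit 7808644584816))) (P (nat_lit 0)))))) (T.h (T.h (T.h (M (nat_lit 2314989451720488124415)) (T.h (P (nat_lit 0)) (M (nat_lit 20917731012706303)))) (T.h (P (nat_lit 0)) (P (nat_lit 13535529003122688)))) (T.h (T.h (P (nat_lit 0)) (T.h (T.h (P (nat_lit 0)) (P (nat_lit 9389964963200))) (P (nat_lit 0)))) (M (nat_lit 1940894262886399))))))), (T.h (T.h (P (nat_lit 0)) (T.h (T.h (M (nat_lit 6924666312730873039744401407)) (T.h (P (nat_lit 0)) (T.h (M (nat_lit 13034215677552899391487))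 (T.h (P (nat_lit 0)) (P (nat_lit 27806606744977408)))))) (T.h (P (nat_lit 0)) (T.h (T.h (P (nat_lit 5224766766905693306880)) (T.h (P (nat_lit 0)) (M (nat_lit 18326436873601023)))) (T.h (P (nat_lit 0)) (M (nat_lit 14235708366225407))))))) (T.h (T.h (T.h (P (nat_lit 0)) (T.h (P (nat_lit 5810283156555816016805888)) (T.h (P (nat_lit 0)) (T.h (P (nat_lit 41172884228734451712)) (T.h (P (nat_lit 0)) (P (nat_lit 4509737917544))))))) (T.h (P (nat_lit 0)) (T.h (T.h (P (nat_lit 0)) (T.h (P (nat_lit 2086100085598322688)) (T.h (P (nat_lit 0)) (M (nat_lit 16296856776735))))) (T.h (P (nat_lit 0)) (T.h (T.h (P (nat_lit 0)) (P (nat_lit 4779188645288))) (P (nat_lit 0))))))) (T.h (T.h (P (nat_lit 0)) (T.h (T.h (P (nat_lit 20966851406420814856192)) (T.h (P (nat_lit 0)) (M (nat_lit 16257695584583679)))) (T.h (P (nat_lit 0)) (P (nat_lit 805034664558592))))) (T.h (T.h (T.h (P (nat_lit 0)) (T.h (P (nat_lit 45427878034464047104)) (T.h (P (nat_lit 0)) (P (nat_lit 13433110305528)))))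 (T.h (P (nat_lit 0)) (T.h (T.h (P (nat_lit 0)) (P (nat_lit 18179075001016))) (P (nat_lit 0))))) (T.h (T.h (P (nat_lit 0)) (P (nat_lit 14704517348524032))) (T.h (T.h (T.h (P (nat_lit 0)) (P (nat_lit 3774720305552))) (P (nat_lit 0))) (P (nat_lit 0)))))))), (T.h (T.h (P (nat_lit 0)) (T.h (T.h (P (nat_lit 0)) (T.h (P (nat_lit 11799924226416691745128448)) (T.h (P (nat_lit 0)) (T.h (M (nat_lit 13066312361172795391)) (T.h (P (nat_lit 0)) (P (nat_lit 11861041236576))))))) (T.h (P (nat_lit 0)) (T.h (T.h (P (nat_lit 0)) (T.h (P (nat_lit 24992502955122884608)) (T.h (P (nat_lit 0)) (P (nat_lit 4308734371088))))) (T.h (P (nat_lit 0)) (T.h (T.h (P (nat_lit 0)) (P (nat_lit 3040955945440))) (P (nat_lit 0)))))))) (T.h (T.h (T.h (M (nat_lit 832454746821739008015466495)) (T.h (P (nat_lit 0)) (T.h (M (nat_lit 32130929532941937672191)) (T.h (P (nat_lit 0)) (P (nat_lit 5910113848442880)))))) (T.h (P (nat_lit 0)) (T.h (T.h (M (nat_lit 4047631849667556278271)) (T.h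 (P (nat_lit 0)) (P (nat_lit 703405565444096)))) (T.h (P (nat_lit 0)) (M (nat_lit 6980540568846335)))))) (T.h (T.h (P (nat_lit 0)) (T.h (T.h (P (nat_lit 0)) (T.h (P (nat_lit 22920260165497257984)) (T.h (P (nat_lit 0)) (P (nat_lit 19135086581520))))) (T.h (P (nat_lit 0)) (T.h (T.h (P (nat_lit 0)) (M (nat_lit 4081026789279))) (P (nat_lit 0)))))) (T.h (T.h (T.h (P (nat_lit 2581207630647769694208)) (T.h (P (nat_lit 0)) (P (nat_lit 21537784946409472)))) (T.h (P (nat_lit 0)) (M (nat_lit 25091771215478783)))) (T.h (T.h (P (nat_lit 0)) (T.h (T.h (P (nat_lit 0)) (M (nat_lit 6622509720623))) (P (nat_lit 0)))) (P (nat_lit 3821690648035328))))))), (T.h (T.h (P (nat_lit 0)) (T.h (T.h (P (nat_lit 5365436076063364494613544960)) (T.h (P (nat_lit 0)) (T.h (P (nat_lit 16692309233254172459008)) (T.h (P (nat_lit 0)) (M (nat_lit 24295617010860031)))))) (T.h (P (nat_lit 0)) (T.h (T.h (M (nat_lit 2829647422335983026175)) (T.h (P (nat_lit 0)) (P (nat_lit 17366088078819328))))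 (T.h (P (nat_lit 0)) (P (nat_lit 8555427069952000))))))) (T.h (T.h (T.h (P (nat_lit 0)) (T.h (M (nat_lit 13089024482181258328145919)) (T.h (P (nat_lit 0)) (T.h (M (nat_lit 36766634793414688767)) (T.h (P (nat_lit 0)) (M (nat_lit 1283713304399))))))) (T.h (P (nat_lit 0)) (T.h (T.h (P (nat_lit 0)) (T.h (P (nat_lit 25093469970943180800)) (T.h (P (nat_lit 0)) (P (nat_lit 13661142254976))))) (T.h (P (nat_lit 0)) (T.h (T.h (P (nat_lit 0)) (M (nat_lit 4085685683903))) (P (nat_lit 0))))))) (T.h (T.h (P (nat_lit 0)) (T.h (T.h (M (nat_lit 23003241910279304380415)) (T.h (P (nat_lit 0)) (P (nat_lit 26953724719824896)))) (T.h (P (nat_lit 0)) (P (nat_lit 6090253865844736))))) (T.h (T.h (T.h (P (nat_lit 0)) (T.h (M (nat_lit 32647441060556963839)) (T.h (P (nat_lit 0)) (P (nat_lit 2377596206784))))) (T.h (P (nat_lit 0)) (T.h (T.h (P (nat_lit 0)) (P (nat_lit 3390121286400))) (P (nat_lit 0))))) (T.h (T.h (P (nat_lit 0)) (M (nat_lit 4868192976011263))) (T.h (T.h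 (T.h (P (nat_lit 0)) (P (nat_lit 4237866999168))) (P (nat_lit 0))) (P (nat_lit 0)))))))), (T.h (T.h (P (nat_lit 0)) (T.h (T.h (P (nat_lit 0)) (T.h (M (nat_lit 18381355421258832978903039)) (T.h (P (nat_lit 0)) (P (nat_lit 7114211940729094144))))) (T.h (P (nat_lit 0)) (T.h (T.h (P (nat_lit 0)) (M (nat_lit 23203781688285986815))) (P (nat_lit 0)))))) (T.h (T.h (T.h (P (nat_lit 2547540643335990035118817280)) (T.h (P (nat_lit 0)) (T.h (P (nat_lit 34455666698401404157952)) (T.h (P (nat_lit 0)) (M (nat_lit 2625970948095999)))))) (T.h (P (nat_lit 0)) (T.h (T.h (M (nat_lit 19946718446392155570175)) (T.h (P (nat_lit 0)) (M (nat_lit 4932788028899327)))) (T.h (P (nat_lit 0)) (P (nat_lit 3801332291633152)))))) (T.h (T.h (P (nat_lit 0)) (T.h (T.h (P (nat_lit 0)) (M (nat_lit 36613268445365010431))) (P (nat_lit 0)))) (T.h (T.h (T.h (P (nat_lit 392783585823669878784)) (T.h (P (nat_lit 0)) (P (nat_lit 584082030985216)))) (T.h (P (nat_lit 0)) (P (nat_lit 3402133379809280))))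 (T.h (P (nat_lit 0)) (M (nat_lit 965174953410559)))))))]
def lP11_4 : List (T ℤ) := [(P (nat_lit 0)), (P (nat_lit 0)), (T.h (T.h (T.h (P (nat_lit 2362981971938681723231315951616)) (T.h (P (nat_lit 0)) (T.h (P (nat_lit 2807452377464748726288384)) (T.h (P (nat_lit 0)) (T.h (P (nat_lit 1473600440821088256)) (T.h (P (nat_lit 0)) (P (nat_lit 1881683625120)))))))) (T.h (P (nat_lit 0)) (T.h (T.h (P (nat_lit 2807452377464748726288384)) (T.h (P (nat_lit 0)) (T.h (P (nat_lit 47444693086864670720)) (T.h (P (nat_lit 0)) (M (nat_lit 18230505796079)))))) (T.h (P (nat_lit 0)) (T.h (T.h (P (nat_lit 1473600440821088256)) (T.h (P (nat_lit 0)) (M (nat_lit 18230505796079)))) (T.h (P (nat_lit 0)) (P (nat_lit 1881683625120)))))))) (T.h (T.h (P (nat_lit 0)) (T.h (T.h (P (nat_lit 0)) (T.h (M (nat_lit 50356209117790411423743)) (T.h (P (nat_lit 0)) (P (nat_lit 40788069370691584))))) (T.h (P (nat_lit 0)) (T.h (T.h (P (nat_lit 0)) (P (nat_lit 40788069370691584))) (P (nat_lit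 0)))))) (T.h (T.h (T.h (M (nat_lit 7333312270972622047543295)) (T.h (P (nat_lit 0)) (T.h (M (nat_lit 5859465466359054335)) (T.h (P (nat_lit 0)) (P (nat_lit 1042106905216)))))) (T.h (P (nat_lit 0)) (T.h (T.h (M (nat_lit 5859465466359054335)) (T.h (P (nat_lit 0)) (M (nat_lit 2800608362303)))) (T.h (P (nat_lit 0)) (P (nat_lit 1042106905216)))))) (T.h (T.h (P (nat_lit 0)) (T.h (T.h (P (nat_lit 0)) (M (nat_lit 124448709464817663))) (P (nat_lit 0)))) (T.h (T.h (T.h (P (nat_lit 2883080607284330496)) (T.h (P (nat_lit 0)) (P (nat_lit 5661848525520)))) (T.h (P (nat_lit 0)) (P (nat_lit 5661848525520)))) (T.h (P (nat_lit 0)) (M (nat_lit 938032279007)))))))), (T.h (T.h (T.h (P (nat_lit 0)) (T.h (P (nat_lit 5868077265898543568226615296)) (T.h (P (nat_lit 0)) (T.h (M (nat_lit 17960240460068412194815)) (T.h (P (nat_lit 0)) (M (nat_lit 6184202340007935))))))) (T.h (P (nat_lit 0)) (T.h (T.h (P (nat_lit 0)) (T.h (M (nat_lit 30977542478894093828095)) (T.h (P (nat_lit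 0)) (P (nat_lit 83312061680222208))))) (T.h (P (nat_lit 0)) (T.h (T.h (P (nat_lit 0)) (P (nat_lit 2865318050037760))) (P (nat_lit 0))))))) (T.h (T.h (P (nat_lit 0)) (T.h (T.h (P (nat_lit 13739223594421542558105600)) (T.h (P (nat_lit 0)) (T.h (P (nat_lit 23470598196360642560)) (T.h (P (nat_lit 0)) (P (nat_lit 14476686885368)))))) (T.h (P (nat_lit 0)) (T.h (T.h (P (nat_lit 7385027208714125312)) (T.h (P (nat_lit 0)) (M (nat_lit 14844636919919)))) (T.h (P (nat_lit 0)) (P (nat_lit 9003225838696))))))) (T.h (T.h (T.h (P (nat_lit 0)) (T.h (M (nat_lit 26700015962339074375679)) (T.h (P (nat_lit 0)) (M (nat_lit 22572802849243135))))) (T.h (P (nat_lit 0)) (T.h (T.h (P (nat_lit 0)) (M (nat_lit 66931479672619007))) (P (nat_lit 0))))) (T.h (T.h (P (nat_lit 0)) (T.h (T.h (P (nat_lit 15287187009160871936)) (T.h (P (nat_lit 0)) (P (nat_lit 15453759794080)))) (T.h (P (nat_lit 0)) (M (nat_lit 5730851703471))))) (T.h (T.h (T.h (P (nat_lit 0)) (M (nat_lit 25377768435810303)))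 (P (nat_lit 0))) (T.h (T.h (P (nat_lit 0)) (P (nat_lit 3021184331912))) (P (nat_lit 0)))))))), (T.h (T.h (T.h (P (nat_lit 8547243003319011634805544583168)) (T.h (P (nat_lit 0)) (T.h (M (nat_lit 10074423422740968400486399)) (T.h (P (nat_lit 0)) (T.h (P (nat_lit 2900983089347952640)) (T.h (P (nat_lit 0)) (M (nat_lit 8507132336751)))))))) (T.h (P (nat_lit 0)) (T.h (T.h (P (nat_lit 14510347300884980999127040)) (T.h (P (nat_lit 0)) (T.h (M (nat_lit 56693657735398424575)) (T.h (P (nat_lit 0)) (P (nat_lit 37577714858544)))))) (T.h (P (nat_lit 0)) (T.h (T.h (P (nat_lit 35610800256633012224)) (T.h (P (nat_lit 0)) (P (nat_lit 29692863900784)))) (T.h (P (nat_lit 0)) (M (nat_lit 4773610931599)))))))) (T.h (T.h (P (nat_lit 0)) (T.h (T.h (P (nat_lit 0)) (T.h (M (nat_lit 5544913477966684487679)) (T.h (P (nat_lit 0)) (M (nat_lit 51337459934527487))))) (T.h (P (nat_lit 0)) (T.h (T.h (P (nat_lit 0)) (P (nat_lit 788703454953472))) (P (nat_lit 0)))))) (T.h (T.h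 (T.h (M (nat_lit 15586726180167793191682047)) (T.h (P (nat_lit 0)) (T.h (P (nat_lit 14865489118221041664)) (T.h (P (nat_lit 0)) (M (nat_lit 16452623026111)))))) (T.h (P (nat_lit 0)) (T.h (T.h (P (nat_lit 35663318068957806592)) (T.h (P (nat_lit 0)) (P (nat_lit 14277571269584)))) (T.h (P (nat_lit 0)) (P (nat_lit 15366368407824)))))) (T.h (T.h (P (nat_lit 0)) (T.h (T.h (P (nat_lit 0)) (P (nat_lit 107443297016119296))) (P (nat_lit 0)))) (T.h (T.h (T.h (M (nat_lit 25082296066384068607)) (T.h (P (nat_lit 0)) (M (nat_lit 8671366263727)))) (T.h (P (nat_lit 0)) (M (nat_lit 6732252487071)))) (T.h (P (nat_lit 0)) (M (nat_lit 1807611555343)))))))), (T.h (T.h (T.h (P (nat_lit 0)) (T.h (P (nat_lit 5075728687560414900525203456)) (T.h (P (nat_lit 0)) (T.h (M (nat_lit 4975638722445056147455)) (T.h (P (nat_lit 0)) (P (nat_lit 15728383238602752))))))) (T.h (P (nat_lit 0)) (T.h (T.h (P (nat_lit 0)) (T.h (P (nat_lit 30406151196474345521152)) (T.h (P (nat_lit 0))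 (M (nat_lit 43971231570493439))))) (T.h (P (nat_lit 0)) (T.h (T.h (P (nat_lit 0)) (P (nat_lit 31295638072459264))) (P (nat_lit 0))))))) (T.h (T.h (P (nat_lit 0)) (T.h (T.h (M (nat_lit 15188638981517575697989631)) (T.h (P (nat_lit 0)) (T.h (P (nat_lit 3965753984890699776)) (T.h (P (nat_lit 0)) (M (nat_lit 3300786166367)))))) (T.h (P (nat_lit 0)) (T.h (T.h (P (nat_lit 12216619188252311552)) (T.h (P (nat_lit 0)) (P (nat_lit 253154553840)))) (T.h (P (nat_lit 0)) (M (nat_lit 4836003780143))))))) (T.h (T.h (T.h (P (nat_lit 0)) (T.h (P (nat_lit 19474584951922158993408)) (T.h (P (nat_lit 0)) (P (nat_lit 4315555809820672))))) (T.h (P (nat_lit 0)) (T.h (T.h (P (nat_lit 0)) (M (nat_lit 24912020807942143))) (P (nat_lit 0))))) (T.h (T.h (P (nat_lit 0)) (T.h (T.h (M (nat_lit 27117710602233970687)) (T.h (P (nat_lit 0)) (P (nat_lit 9557671096032)))) (T.h (P (nat_lit 0)) (P (nat_lit 14947988241648))))) (T.h (T.h (T.h (P (nat_lit 0)) (M (nat_lit 17724020956954623)))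 (P (nat_lit 0))) (T.h (T.h (P (nat_lit 0)) (M (nat_lit 10644566670095))) (P (nat_lit 0)))))))), (T.h (T.h (T.h (M (nat_lit 848019981192476839092825358335)) (T.h (P (nat_lit 0)) (T.h (P (nat_lit 3438041479358372487626752)) (T.h (P (nat_lit 0)) (M (nat_lit 3512947433225060351)))))) (T.h (P (nat_lit 0)) (T.h (T.h (M (nat_lit 6614624667399100999663615)) (T.h (P (nat_lit 0)) (M (nat_lit 19910758226580209663)))) (T.h (P (nat_lit 0)) (M (nat_lit 30926891337990012927)))))) (T.h (T.h (P (nat_lit 0)) (T.h (T.h (P (nat_lit 0)) (T.h (P (nat_lit 41729021910207325798400)) (T.h (P (nat_lit 0)) (M (nat_lit 4819333066915839))))) (T.h (P (nat_lit 0)) (T.h (T.h (P (nat_lit 0)) (P (nat_lit 5405502678335488))) (P (nat_lit 0)))))) (T.h (T.h (T.h (P (nat_lit 10653213847725133906575360)) (T.h (P (nat_lit 0)) (M (nat_lit 3300389089831813119)))) (T.h (P (nat_lit 0)) (P (nat_lit 3947790254513061888)))) (T.h (T.h (P (nat_lit 0)) (T.h (T.h (P (nat_lit 0)) (M (nat_lit 8839026266406911)))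 (P (nat_lit 0)))) (P (nat_lit 11113978180799561728)))))), (P (nat_lit 0))]
def lP11_5 : List (T ℤ) := [(T.h (T.h (P (nat_lit 0)) (T.h (T.h (P (nat_lit 0)) (T.h (P (nat_lit 8967851728135020949274624)) (T.h (P (nat_lit 0)) (T.h (M (nat_lit 1632295132411723775)) (T.h (P (nat_lit 0)) (M (nat_lit 1262651453183))))))) (T.h (P (nat_lit 0)) (T.h (T.h (P (nat_lit 0)) (T.h (P (nat_lit 5808715515924840448)) (T.h (P (nat_lit 0)) (M (nat_lit 1954457784095))))) (T.h (P (nat_lit 0)) (T.h (T.h (P (nat_lit 0)) (M (nat_lit 6298334266991))) (P (nat_lit 0)))))))) (T.h (T.h (T.h (P (nat_lit 382278186225956246805020672)) (T.h (P (nat_lit 0)) (T.h (P (nat_lit 4917025952193526628352)) (T.h (P (nat_lit 0)) (P (nat_lit 566836548272128)))))) (T.h (P (nat_lit 0)) (T.h (T.h (M (nat_lit 6393028105238678077439)) (T.h (P (nat_lit 0)) (P (nat_lit 17704818290655232)))) (T.h (P (nat_lit 0)) (P (nat_lit 10182874572193792)))))) (T.h (T.h (P (nat_lit 0)) (T.h (T.h (P (nat_lit 0))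 (T.h (P (nat_lit 21437333873006477312)) (T.h (P (nat_lit 0)) (P (nat_lit 7808644584816))))) (T.h (P (nat_lit 0)) (T.h (T.h (P (nat_lit 0)) (M (nat_lit 14649144822207))) (P (nat_lit 0)))))) (T.h (T.h (T.h (M (nat_lit 2314989451720488124415)) (T.h (P (nat_lit 0)) (P (nat_lit 13535529003122688)))) (T.h (P (nat_lit 0)) (M (nat_lit 20917731012706303)))) (T.h (T.h (P (nat_lit 0)) (T.h (T.h (P (nat_lit 0)) (P (nat_lit 9389964963200))) (P (nat_lit 0)))) (M (nat_lit 1940894262886399))))))), (T.h (T.h (P (nat_lit 0)) (T.h (T.h (P (nat_lit 5868077265898543568226615296)) (T.h (P (nat_lit 0)) (T.h (M (nat_lit 30977542478894093828095)) (T.h (P (nat_lit 0)) (P (nat_lit 2865318050037760)))))) (T.h (P (nat_lit 0)) (T.h (T.h (M (nat_lit 17960240460068412194815)) (T.h (P (nat_lit 0)) (P (nat_lit 83312061680222208)))) (T.h (P (nat_lit 0)) (M (nat_lit 6184202340007935))))))) (T.h (T.h (T.h (P (nat_lit 0)) (T.h (P (nat_lit 13739223594421542558105600)) (T.h (P (nat_lit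 0)) (T.h (P (nat_lit 7385027208714125312)) (T.h (P (nat_lit 0)) (P (nat_lit 9003225838696))))))) (T.h (P (nat_lit 0)) (T.h (T.h (P (nat_lit 0)) (T.h (P (nat_lit 23470598196360642560)) (T.h (P (nat_lit 0)) (M (nat_lit 14844636919919))))) (T.h (P (nat_lit 0)) (T.h (T.h (P (nat_lit 0)) (P (nat_lit 14476686885368))) (P (nat_lit 0))))))) (T.h (T.h (P (nat_lit 0)) (T.h (T.h (M (nat_lit 26700015962339074375679)) (T.h (P (nat_lit 0)) (M (nat_lit 66931479672619007)))) (T.h (P (nat_lit 0)) (M (nat_lit 22572802849243135))))) (T.h (T.h (T.h (P (nat_lit 0)) (T.h (P (nat_lit 15287187009160871936)) (T.h (P (nat_lit 0)) (M (nat_lit 5730851703471))))) (T.h (P (nat_lit 0)) (T.h (T.h (P (nat_lit 0)) (P (nat_lit 15453759794080))) (P (nat_lit 0))))) (T.h (T.h (P (nat_lit 0)) (M (nat_lit 25377768435810303))) (T.h (T.h (T.h (P (nat_lit 0)) (P (nat_lit 3021184331912))) (P (nat_lit 0))) (P (nat_lit 0)))))))), (T.h (T.h (P (nat_lit 0)) (T.h (T.h (P (nat_lit 0)) (T.h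 (M (nat_lit 41502165659964416028835839)) (T.h (P (nat_lit 0)) (T.h (M (nat_lit 35457303268831526911)) (T.h (P (nat_lit 0)) (P (nat_lit 14337066975168))))))) (T.h (P (nat_lit 0)) (T.h (T.h (P (nat_lit 0)) (T.h (M (nat_lit 35457303268831526911)) (T.h (P (nat_lit 0)) (P (nat_lit 43766994916064))))) (T.h (P (nat_lit 0)) (T.h (T.h (P (nat_lit 0)) (P (nat_lit 14337066975168))) (P (nat_lit 0)))))))) (T.h (T.h (T.h (P (nat_lit 18564503227159049971049693184)) (T.h (P (nat_lit 0)) (T.h (M (nat_lit 24820660371626959831039)) (T.h (P (nat_lit 0)) (M (nat_lit 55052733830086655)))))) (T.h (P (nat_lit 0)) (T.h (T.h (M (nat_lit 24820660371626959831039)) (T.h (P (nat_lit 0)) (M (nat_lit 113005295211544575)))) (T.h (P (nat_lit 0)) (M (nat_lit 55052733830086655)))))) (T.h (T.h (P (nat_lit 0)) (T.h (T.h (P (nat_lit 0)) (T.h (P (nat_lit 7187939730510577664)) (T.h (P (nat_lit 0)) (M (nat_lit 15616341643055))))) (T.h (P (nat_lit 0)) (T.h (T.h (P (nat_lit 0)) (M (nat_lit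 15616341643055))) (P (nat_lit 0)))))) (T.h (T.h (T.h (P (nat_lit 66109599704970709434368)) (T.h (P (nat_lit 0)) (P (nat_lit 5089028726112256)))) (T.h (P (nat_lit 0)) (P (nat_lit 5089028726112256)))) (T.h (T.h (P (nat_lit 0)) (T.h (T.h (P (nat_lit 0)) (M (nat_lit 28206262997471))) (P (nat_lit 0)))) (P (nat_lit 14473944873795584))))))), (T.h (T.h (P (nat_lit 0)) (T.h (T.h (P (nat_lit 3816271784915021482770300928)) (T.h (P (nat_lit 0)) (T.h (M (nat_lit 11629742680612983013375)) (T.h (P (nat_lit 0)) (M (nat_lit 18534864477880319)))))) (T.h (P (nat_lit 0)) (T.h (T.h (P (nat_lit 21431735756132576133120)) (T.h (P (nat_lit 0)) (M (nat_lit 67844963372367871)))) (T.h (P (nat_lit 0)) (P (nat_lit 8421033830252544))))))) (T.h (T.h (T.h (P (nat_lit 0)) (T.h (M (nat_lit 11596132456671698380390399)) (T.h (P (nat_lit 0)) (T.h (P (nat_lit 21823109804238831616)) (T.h (P (nat_lit 0)) (M (nat_lit 20165909466623))))))) (T.h (P (nat_lit 0)) (T.h (T.h (P (nat_lit 0))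 (T.h (P (nat_lit 90875215508110573568)) (T.h (P (nat_lit 0)) (P (nat_lit 6973821289008))))) (T.h (P (nat_lit 0)) (T.h (T.h (P (nat_lit 0)) (M (nat_lit 50297679171887))) (P (nat_lit 0))))))) (T.h (T.h (P (nat_lit 0)) (T.h (T.h (P (nat_lit 16683404358949558812672)) (T.h (P (nat_lit 0)) (P (nat_lit 21362749947805696)))) (T.h (P (nat_lit 0)) (M (nat_lit 39638883541352447))))) (T.h (T.h (T.h (P (nat_lit 0)) (T.h (M (nat_lit 2449777188577214463)) (T.h (P (nat_lit 0)) (P (nat_lit 1434997404528))))) (T.h (P (nat_lit 0)) (T.h (T.h (P (nat_lit 0)) (M (nat_lit 14872495805135))) (P (nat_lit 0))))) (T.h (T.h (P (nat_lit 0)) (P (nat_lit 5798650446217216))) (T.h (T.h (T.h (P (nat_lit 0)) (P (nat_lit 8183120944368))) (P (nat_lit 0))) (P (nat_lit 0)))))))), (T.h (T.h (P (nat_lit 0)) (T.h (T.h (P (nat_lit 0)) (T.h (P (nat_lit 18571853267465370509246464)) (T.h (P (nat_lit 0)) (M (nat_lit 35935822232235802623))))) (T.h (P (nat_lit 0)) (T.h (T.h (P (nat_lit 0))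 (M (nat_lit 76155881187738386431))) (P (nat_lit 0)))))) (T.h (T.h (T.h (M (nat_lit 6099708548673304496447684607)) (T.h (P (nat_lit 0)) (T.h (P (nat_lit 39385658327280031629312)) (T.h (P (nat_lit 0)) (P (nat_lit 35543153834491904)))))) (T.h (P (nat_lit 0)) (T.h (T.h (M (nat_lit 914033056629670281215)) (T.h (P (nat_lit 0)) (M (nat_lit 7400423263076351)))) (T.h (P (nat_lit 0)) (P (nat_lit 25421720942116864)))))) (T.h (T.h (P (nat_lit 0)) (T.h (T.h (P (nat_lit 0)) (P (nat_lit 2818795405779664896))) (P (nat_lit 0)))) (T.h (T.h (T.h (M (nat_lit 17907237936627615531007)) (T.h (P (nat_lit 0)) (M (nat_lit 4731789076348927)))) (T.h (P (nat_lit 0)) (M (nat_lit 10230261391294463)))) (T.h (P (nat_lit 0)) (P (nat_lit 840173474381824))))))), (T.h (T.h (T.h (M (nat_lit 128120900552666237134832664575)) (T.h (P (nat_lit 0)) (T.h (M (nat_lit 374856245789455152054271)) (T.h (P (nat_lit 0)) (T.h (M (nat_lit 3158064110562705407)) (T.h (P (nat_lit 0)) (P (nat_lit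 1380574505568)))))))) (T.h (P (nat_lit 0)) (T.h (T.h (P (nat_lit 244345310791578333216768)) (T.h (P (nat_lit 0)) (T.h (M (nat_lit 1937253098095378431)) (T.h (P (nat_lit 0)) (P (nat_lit 2707914055472)))))) (T.h (P (nat_lit 0)) (T.h (T.h (P (nat_lit 622944617486090240)) (T.h (P (nat_lit 0)) (P (nat_lit 3986189105440)))) (T.h (P (nat_lit 0)) (M (nat_lit 2463187883231)))))))) (T.h (T.h (P (nat_lit 0)) (T.h (T.h (P (nat_lit 0)) (T.h (M (nat_lit 1980045858969294471167)) (T.h (P (nat_lit 0)) (P (nat_lit 2866966031630336))))) (T.h (P (nat_lit 0)) (T.h (T.h (P (nat_lit 0)) (P (nat_lit 3795046400131072))) (P (nat_lit 0)))))) (T.h (T.h (T.h (M (nat_lit 374856245789455152054271)) (T.h (P (nat_lit 0)) (T.h (M (nat_lit 1706496107061706751)) (T.h (P (nat_lit 0)) (P (nat_lit 1184705075472)))))) (T.h (P (nat_lit 0)) (T.h (T.h (M (nat_lit 1937253098095378431)) (T.h (P (nat_lit 0)) (P (nat_lit 4438957717760)))) (T.h (P (nat_lit 0)) (P (nat_lit 3986189105440))))))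 (T.h (T.h (P (nat_lit 0)) (T.h (T.h (P (nat_lit 0)) (P (nat_lit 2866966031630336))) (P (nat_lit 0)))) (T.h (T.h (T.h (M (nat_lit 3158064110562705407)) (T.h (P (nat_lit 0)) (P (nat_lit 1184705075472)))) (T.h (P (nat_lit 0)) (P (nat_lit 2707914055472)))) (T.h (P (nat_lit 0)) (P (nat_lit 1380574505568)))))))), (T.h (T.h (T.h (P (nat_lit 0)) (T.h (M (nat_lit 6924666312730873039744401407)) (T.h (P (nat_lit 0)) (T.h (P (nat_lit 5224766766905693306880)) (T.h (P (nat_lit 0)) (M (nat_lit 14235708366225407))))))) (T.h (P (nat_lit 0)) (T.h (T.h (P (nat_lit 0)) (T.h (M (nat_lit 13034215677552899391487)) (T.h (P (nat_lit 0)) (M (nat_lit 18326436873601023))))) (T.h (P (nat_lit 0)) (T.h (T.h (P (nat_lit 0)) (P (nat_lit 27806606744977408))) (P (nat_lit 0))))))) (T.h (T.h (P (nat_lit 0)) (T.h (T.h (P (nat_lit 5810283156555816016805888)) (T.h (P (nat_lit 0)) (T.h (P (nat_lit 2086100085598322688)) (T.h (P (nat_lit 0)) (P (nat_lit 4779188645288)))))) (T.h (P (nat_lit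 0)) (T.h (T.h (P (nat_lit 41172884228734451712)) (T.h (P (nat_lit 0)) (M (nat_lit 16296856776735)))) (T.h (P (nat_lit 0)) (P (nat_lit 4509737917544))))))) (T.h (T.h (T.h (P (nat_lit 0)) (T.h (P (nat_lit 20966851406420814856192)) (T.h (P (nat_lit 0)) (P (nat_lit 805034664558592))))) (T.h (P (nat_lit 0)) (T.h (T.h (P (nat_lit 0)) (M (nat_lit 16257695584583679))) (P (nat_lit 0))))) (T.h (T.h (P (nat_lit 0)) (T.h (T.h (P (nat_lit 45427878034464047104)) (T.h (P (nat_lit 0)) (P (nat_lit 18179075001016)))) (T.h (P (nat_lit 0)) (P (nat_lit 13433110305528))))) (T.h (T.h (T.h (P (nat_lit 0)) (P (nat_lit 14704517348524032))) (P (nat_lit 0))) (T.h (T.h (P (nat_lit 0)) (P (nat_lit 3774720305552))) (P (nat_lit 0)))))))), (T.h (T.h (T.h (P (nat_lit 8547243003319011634805544583168)) (T.h (P (nat_lit 0)) (T.h (P (nat_lit 14510347300884980999127040)) (T.h (P (nat_lit 0)) (T.h (P (nat_lit 35610800256633012224)) (T.h (P (nat_lit 0)) (M (nat_lit 4773610931599))))))))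 (T.h (P (nat_lit 0)) (T.h (T.h (M (nat_lit 10074423422740968400486399)) (T.h (P (nat_lit 0)) (T.h (M (nat_lit 56693657735398424575)) (T.h (P (nat_lit 0)) (P (nat_lit 29692863900784)))))) (T.h (P (nat_lit 0)) (T.h (T.h (P (nat_lit 2900983089347952640)) (T.h (P (nat_lit 0)) (P (nat_lit 37577714858544)))) (T.h (P (nat_lit 0)) (M (nat_lit 8507132336751)))))))) (T.h (T.h (P (nat_lit 0)) (T.h (T.h (P (nat_lit 0)) (T.h (M (nat_lit 5544913477966684487679)) (T.h (P (nat_lit 0)) (P (nat_lit 788703454953472))))) (T.h (P (nat_lit 0)) (T.h (T.h (P (nat_lit 0)) (M (nat_lit 51337459934527487))) (P (nat_lit 0)))))) (T.h (T.h (T.h (M (nat_lit 15586726180167793191682047)) (T.h (P (nat_lit 0)) (T.h (P (nat_lit 35663318068957806592)) (T.h (P (nat_lit 0)) (P (nat_lit 15366368407824)))))) (T.h (P (nat_lit 0)) (T.h (T.h (P (nat_lit 14865489118221041664)) (T.h (P (nat_lit 0)) (P (nat_lit 14277571269584)))) (T.h (P (nat_lit 0)) (M (nat_lit 16452623026111)))))) (T.h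 (T.h (P (nat_lit 0)) (T.h (T.h (P (nat_lit 0)) (P (nat_lit 107443297016119296))) (P (nat_lit 0)))) (T.h (T.h (T.h (M (nat_lit 25082296066384068607)) (T.h (P (nat_lit 0)) (M (nat_lit 6732252487071)))) (T.h (P (nat_lit 0)) (M (nat_lit 8671366263727)))) (T.h (P (nat_lit 0)) (M (nat_lit 1807611555343))))))))]
def lP11_6 : List (T ℤ) := [(T.h (T.h (T.h (P (nat_lit 0)) (T.h (P (nat_lit 3816271784915021482770300928)) (T.h (P (nat_lit 0)) (T.h (P (nat_lit 21431735756132576133120)) (T.h (P (nat_lit 0)) (P (nat_lit 8421033830252544))))))) (T.h (P (nat_lit 0)) (T.h (T.h (P (nat_lit 0)) (T.h (M (nat_lit 11629742680612983013375)) (T.h (P (nat_lit 0)) (M (nat_lit 67844963372367871))))) (T.h (P (nat_lit 0)) (T.h (T.h (P (nat_lit 0)) (M (nat_lit 18534864477880319))) (P (nat_lit 0))))))) (T.h (T.h (P (nat_lit 0)) (T.h (T.h (M (nat_lit 11596132456671698380390399)) (T.h (P (nat_lit 0)) (T.h (P (nat_lit 90875215508110573568)) (T.h (P (nat_lit 0)) (M (nat_lit 50297679171887))))))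 (T.h (P (nat_lit 0)) (T.h (T.h (P (nat_lit 21823109804238831616)) (T.h (P (nat_lit 0)) (P (nat_lit 6973821289008)))) (T.h (P (nat_lit 0)) (M (nat_lit 20165909466623))))))) (T.h (T.h (T.h (P (nat_lit 0)) (T.h (P (nat_lit 16683404358949558812672)) (T.h (P (nat_lit 0)) (M (nat_lit 39638883541352447))))) (T.h (P (nat_lit 0)) (T.h (T.h (P (nat_lit 0)) (P (nat_lit 21362749947805696))) (P (nat_lit 0))))) (T.h (T.h (P (nat_lit 0)) (T.h (T.h (M (nat_lit 2449777188577214463)) (T.h (P (nat_lit 0)) (M (nat_lit 14872495805135)))) (T.h (P (nat_lit 0)) (P (nat_lit 1434997404528))))) (T.h (T.h (T.h (P (nat_lit 0)) (P (nat_lit 5798650446217216))) (P (nat_lit 0))) (T.h (T.h (P (nat_lit 0)) (P (nat_lit 8183120944368))) (P (nat_lit 0)))))))), (T.h (T.h (T.h (P (nat_lit 984195350018325543104137920512)) (T.h (P (nat_lit 0)) (T.h (M (nat_lit 15230894307888454317375487)) (T.h (P (nat_lit 0)) (M (nat_lit 15566893289482223615)))))) (T.h (P (nat_lit 0)) (T.h (T.h (M (nat_lit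 15230894307888454317375487)) (T.h (P (nat_lit 0)) (M (nat_lit 10893491707010088959)))) (T.h (P (nat_lit 0)) (M (nat_lit 15566893289482223615)))))) (T.h (T.h (P (nat_lit 0)) (T.h (T.h (P (nat_lit 0)) (T.h (M (nat_lit 5141982376459845500927)) (T.h (P (nat_lit 0)) (P (nat_lit 63912302629388288))))) (T.h (P (nat_lit 0)) (T.h (T.h (P (nat_lit 0)) (P (nat_lit 63912302629388288))) (P (nat_lit 0)))))) (T.h (T.h (T.h (M (nat_lit 353537135146806275997695)) (T.h (P (nat_lit 0)) (P (nat_lit 21389219787958124544)))) (T.h (P (nat_lit 0)) (P (nat_lit 21389219787958124544)))) (T.h (T.h (P (nat_lit 0)) (T.h (T.h (P (nat_lit 0)) (P (nat_lit 20305914272612352))) (P (nat_lit 0)))) (P (nat_lit 4364305523307184128)))))), (T.h (T.h (P (nat_lit 0)) (T.h (T.h (M (nat_lit 6708703288543951383055826943)) (T.h (P (nat_lit 0)) (T.h (M (nat_lit 9336552845164421316607)) (T.h (P (nat_lit 0)) (M (nat_lit 10096859823996927)))))) (T.h (P (nat_lit 0)) (T.h (T.h (M (nat_lit 8639614918792361017343))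 (T.h (P (nat_lit 0)) (M (nat_lit 17301337354928127)))) (T.h (P (nat_lit 0)) (P (nat_lit 12079869476732928))))))) (T.h (T.h (T.h (P (nat_lit 0)) (T.h (P (nat_lit 2367679197508544791314432)) (T.h (P (nat_lit 0)) (T.h (M (nat_lit 18959063845215141887)) (T.h (P (nat_lit 0)) (P (nat_lit 1709027307648))))))) (T.h (P (nat_lit 0)) (T.h (T.h (P (nat_lit 0)) (T.h (M (nat_lit 16662209236586987519)) (T.h (P (nat_lit 0)) (P (nat_lit 16464759474008))))) (T.h (P (nat_lit 0)) (T.h (T.h (P (nat_lit 0)) (M (nat_lit 14111840783999))) (P (nat_lit 0))))))) (T.h (T.h (P (nat_lit 0)) (T.h (T.h (M (nat_lit 4825756084058852425727)) (T.h (P (nat_lit 0)) (M (nat_lit 22001358117797887)))) (T.h (P (nat_lit 0)) (M (nat_lit 22339981025869823))))) (T.h (T.h (T.h (P (nat_lit 0)) (T.h (M (nat_lit 17490023526864781311)) (T.h (P (nat_lit 0)) (P (nat_lit 4452436307520))))) (T.h (P (nat_lit 0)) (T.h (T.h (P (nat_lit 0)) (P (nat_lit 1223173417000))) (P (nat_lit 0))))) (T.h (T.h (P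 (nat_lit 0)) (M (nat_lit 13727318916464639))) (T.h (T.h (T.h (P (nat_lit 0)) (P (nat_lit 1111384698048))) (P (nat_lit 0))) (P (nat_lit 0)))))))), (T.h (T.h (P (nat_lit 0)) (T.h (T.h (P (nat_lit 0)) (T.h (P (nat_lit 11799924226416691745128448)) (T.h (P (nat_lit 0)) (T.h (P (nat_lit 24992502955122884608)) (T.h (P (nat_lit 0)) (P (nat_lit 3040955945440))))))) (T.h (P (nat_lit 0)) (T.h (T.h (P (nat_lit 0)) (T.h (M (nat_lit 13066312361172795391)) (T.h (P (nat_lit 0)) (P (nat_lit 4308734371088))))) (T.h (P (nat_lit 0)) (T.h (T.h (P (nat_lit 0)) (P (nat_lit 11861041236576))) (P (nat_lit 0)))))))) (T.h (T.h (T.h (M (nat_lit 832454746821739008015466495)) (T.h (P (nat_lit 0)) (T.h (M (nat_lit 4047631849667556278271)) (T.h (P (nat_lit 0)) (M (nat_lit 6980540568846335)))))) (T.h (P (nat_lit 0)) (T.h (T.h (M (nat_lit 32130929532941937672191)) (T.h (P (nat_lit 0)) (P (nat_lit 703405565444096)))) (T.h (P (nat_lit 0)) (P (nat_lit 5910113848442880)))))) (T.h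 (T.h (P (nat_lit 0)) (T.h (T.h (P (nat_lit 0)) (T.h (P (nat_lit 22920260165497257984)) (T.h (P (nat_lit 0)) (M (nat_lit 4081026789279))))) (T.h (P (nat_lit 0)) (T.h (T.h (P (nat_lit 0)) (P (nat_lit 19135086581520))) (P (nat_lit 0)))))) (T.h (T.h (T.h (P (nat_lit 2581207630647769694208)) (T.h (P (nat_lit 0)) (M (nat_lit 25091771215478783)))) (T.h (P (nat_lit 0)) (P (nat_lit 21537784946409472)))) (T.h (T.h (P (nat_lit 0)) (T.h (T.h (P (nat_lit 0)) (M (nat_lit 6622509720623))) (P (nat_lit 0)))) (P (nat_lit 3821690648035328))))))), (T.h (T.h (P (nat_lit 0)) (T.h (T.h (P (nat_lit 5075728687560414900525203456)) (T.h (P (nat_lit 0)) (T.h (P (nat_lit 30406151196474345521152)) (T.h (P (nat_lit 0)) (P (nat_lit 31295638072459264)))))) (T.h (P (nat_lit 0)) (T.h (T.h (M (nat_lit 4975638722445056147455)) (T.h (P (nat_lit 0)) (M (nat_lit 43971231570493439)))) (T.h (P (nat_lit 0)) (P (nat_lit 15728383238602752))))))) (T.h (T.h (T.h (P (nat_lit 0)) (T.h (M (nat_lit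 15188638981517575697989631)) (T.h (P (nat_lit 0)) (T.h (P (nat_lit 12216619188252311552)) (T.h (P (nat_lit 0)) (M (nat_lit 4836003780143))))))) (T.h (P (nat_lit 0)) (T.h (T.h (P (nat_lit 0)) (T.h (P (nat_lit 3965753984890699776)) (T.h (P (nat_lit 0)) (P (nat_lit 253154553840))))) (T.h (P (nat_lit 0)) (T.h (T.h (P (nat_lit 0)) (M (nat_lit 3300786166367))) (P (nat_lit 0))))))) (T.h (T.h (P (nat_lit 0)) (T.h (T.h (P (nat_lit 19474584951922158993408)) (T.h (P (nat_lit 0)) (M (nat_lit 24912020807942143)))) (T.h (P (nat_lit 0)) (P (nat_lit 4315555809820672))))) (T.h (T.h (T.h (P (nat_lit 0)) (T.h (M (nat_lit 27117710602233970687)) (T.h (P (nat_lit 0)) (P (nat_lit 14947988241648))))) (T.h (P (nat_lit 0)) (T.h (T.h (P (nat_lit 0)) (P (nat_lit 9557671096032))) (P (nat_lit 0))))) (T.h (T.h (P (nat_lit 0)) (M (nat_lit 17724020956954623))) (T.h (T.h (T.h (P (nat_lit 0)) (M (nat_lit 10644566670095))) (P (nat_lit 0))) (P (nat_lit 0)))))))), (T.h (T.h (P (nat_lit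 0)) (T.h (T.h (P (nat_lit 0)) (T.h (P (nat_lit 18571853267465370509246464)) (T.h (P (nat_lit 0)) (M (nat_lit 76155881187738386431))))) (T.h (P (nat_lit 0)) (T.h (T.h (P (nat_lit 0)) (M (nat_lit 35935822232235802623))) (P (nat_lit 0)))))) (T.h (T.h (T.h (M (nat_lit 6099708548673304496447684607)) (T.h (P (nat_lit 0)) (T.h (M (nat_lit 914033056629670281215)) (T.h (P (nat_lit 0)) (P (nat_lit 25421720942116864)))))) (T.h (P (nat_lit 0)) (T.h (T.h (P (nat_lit 39385658327280031629312)) (T.h (P (nat_lit 0)) (M (nat_lit 7400423263076351)))) (T.h (P (nat_lit 0)) (P (nat_lit 35543153834491904)))))) (T.h (T.h (P (nat_lit 0)) (T.h (T.h (P (nat_lit 0)) (P (nat_lit 2818795405779664896))) (P (nat_lit 0)))) (T.h (T.h (T.h (M (nat_lit 17907237936627615531007)) (T.h (P (nat_lit 0)) (M (nat_lit 10230261391294463)))) (T.h (P (nat_lit 0)) (M (nat_lit 4731789076348927)))) (T.h (P (nat_lit 0)) (P (nat_lit 840173474381824))))))), (T.h (T.h (T.h (P (nat_lit 7707325677427308464448959676416))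 (T.h (P (nat_lit 0)) (T.h (P (nat_lit 2901120429012419390472192)) (T.h (P (nat_lit 0)) (T.h (P (nat_lit 5890513963451416576)) (T.h (P (nat_lit 0)) (M (nat_lit 1109493383599)))))))) (T.h (P (nat_lit 0)) (T.h (T.h (P (nat_lit 6115846739255371820433408)) (T.h (P (nat_lit 0)) (T.h (P (nat_lit 15647870045474783232)) (T.h (P (nat_lit 0)) (M (nat_lit 4692097755967)))))) (T.h (P (nat_lit 0)) (T.h (T.h (M (nat_lit 6761073294046134271)) (T.h (P (nat_lit 0)) (M (nat_lit 6986606627727)))) (T.h (P (nat_lit 0)) (P (nat_lit 5745344476032)))))))) (T.h (T.h (P (nat_lit 0)) (T.h (T.h (P (nat_lit 0)) (T.h (P (nat_lit 9365546830999188406272)) (T.h (P (nat_lit 0)) (M (nat_lit 11019108930781183))))) (T.h (P (nat_lit 0)) (T.h (T.h (P (nat_lit 0)) (P (nat_lit 11959213971734528))) (P (nat_lit 0)))))) (T.h (T.h (T.h (P (nat_lit 2901120429012419390472192)) (T.h (P (nat_lit 0)) (T.h (P (nat_lit 12105851740364996608)) (T.h (P (nat_lit 0)) (M (nat_lit 1741740014223))))))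 (T.h (P (nat_lit 0)) (T.h (T.h (P (nat_lit 15647870045474783232)) (T.h (P (nat_lit 0)) (M (nat_lit 10354312704511)))) (T.h (P (nat_lit 0)) (M (nat_lit 6986606627727)))))) (T.h (T.h (P (nat_lit 0)) (T.h (T.h (P (nat_lit 0)) (M (nat_lit 11019108930781183))) (P (nat_lit 0)))) (T.h (T.h (T.h (P (nat_lit 5890513963451416576)) (T.h (P (nat_lit 0)) (M (nat_lit 1741740014223)))) (T.h (P (nat_lit 0)) (M (nat_lit 4692097755967)))) (T.h (P (nat_lit 0)) (M (nat_lit 1109493383599)))))))), (T.h (T.h (T.h (P (nat_lit 0)) (T.h (P (nat_lit 5365436076063364494613544960)) (T.h (P (nat_lit 0)) (T.h (M (nat_lit 2829647422335983026175)) (T.h (P (nat_lit 0)) (P (nat_lit 8555427069952000))))))) (T.h (P (nat_lit 0)) (T.h (T.h (P (nat_lit 0)) (T.h (P (nat_lit 16692309233254172459008)) (T.h (P (nat_lit 0)) (P (nat_lit 17366088078819328))))) (T.h (P (nat_lit 0)) (T.h (T.h (P (nat_lit 0)) (M (nat_lit 24295617010860031))) (P (nat_lit 0))))))) (T.h (T.h (P (nat_lit 0)) (T.h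 (T.h (M (nat_lit 13089024482181258328145919)) (T.h (P (nat_lit 0)) (T.h (P (nat_lit 25093469970943180800)) (T.h (P (nat_lit 0)) (M (nat_lit 4085685683903)))))) (T.h (P (nat_lit 0)) (T.h (T.h (M (nat_lit 36766634793414688767)) (T.h (P (nat_lit 0)) (P (nat_lit 13661142254976)))) (T.h (P (nat_lit 0)) (M (nat_lit 1283713304399))))))) (T.h (T.h (T.h (P (nat_lit 0)) (T.h (M (nat_lit 23003241910279304380415)) (T.h (P (nat_lit 0)) (P (nat_lit 6090253865844736))))) (T.h (P (nat_lit 0)) (T.h (T.h (P (nat_lit 0)) (P (nat_lit 26953724719824896))) (P (nat_lit 0))))) (T.h (T.h (P (nat_lit 0)) (T.h (T.h (M (nat_lit 32647441060556963839)) (T.h (P (nat_lit 0)) (P (nat_lit 3390121286400)))) (T.h (P (nat_lit 0)) (P (nat_lit 2377596206784))))) (T.h (T.h (T.h (P (nat_lit 0)) (M (nat_lit 4868192976011263))) (P (nat_lit 0))) (T.h (T.h (P (nat_lit 0)) (P (nat_lit 4237866999168))) (P (nat_lit 0))))))))]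
def lP11_7 : List (T ℤ) := [(T.h (T.h (T.h (M (nat_lit 848019981192476839092825358335)) (T.h (P (nat_lit 0)) (T.h (M (nat_lit 6614624667399100999663615)) (T.h (P (nat_lit 0)) (M (nat_lit 30926891337990012927)))))) (T.h (P (nat_lit 0)) (T.h (T.h (P (nat_lit 3438041479358372487626752)) (T.h (P (nat_lit 0)) (M (nat_lit 19910758226580209663)))) (T.h (P (nat_lit 0)) (M (nat_lit 3512947433225060351)))))) (T.h (T.h (P (nat_lit 0)) (T.h (T.h (P (nat_lit 0)) (T.h (P (nat_lit 41729021910207325798400)) (T.h (P (nat_lit 0)) (P (nat_lit 5405502678335488))))) (T.h (P (nat_lit 0)) (T.h (T.h (P (nat_lit 0)) (M (nat_lit 4819333066915839))) (P (nat_lit 0)))))) (T.h (T.h (T.h (P (nat_lit 10653213847725133906575360)) (T.h (P (nat_lit 0)) (P (nat_lit 3947790254513061888)))) (T.h (P (nat_lit 0)) (M (nat_lit 3300389089831813119)))) (T.h (T.h (P (nat_lit 0)) (T.h (T.h (P (nat_lit 0)) (M (nat_lit 8839026266406911))) (P (nat_lit 0)))) (P (nat_lit 11113978180799561728)))))),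 (T.h (T.h (P (nat_lit 0)) (T.h (T.h (P (nat_lit 6708703288543951383055826944)) (T.h (P (nat_lit 0)) (T.h (P (nat_lit 7081154464611636871168)) (T.h (P (nat_lit 0)) (P (nat_lit 11912089370230784)))))) (T.h (P (nat_lit 0)) (T.h (T.h (P (nat_lit 8639614918792361017344)) (T.h (P (nat_lit 0)) (P (nat_lit 19820659190398976)))) (T.h (P (nat_lit 0)) (M (nat_lit 12079869476732927))))))) (T.h (T.h (T.h (P (nat_lit 0)) (T.h (M (nat_lit 2367679197508544791314431)) (T.h (P (nat_lit 0)) (T.h (P (nat_lit 18224543686039961600)) (T.h (P (nat_lit 0)) (M (nat_lit 1410206002847))))))) (T.h (P (nat_lit 0)) (T.h (T.h (P (nat_lit 0)) (T.h (P (nat_lit 16662209236586987520)) (T.h (P (nat_lit 0)) (M (nat_lit 8843966445503))))) (T.h (P (nat_lit 0)) (T.h (T.h (P (nat_lit 0)) (P (nat_lit 14111840784000))) (P (nat_lit 0))))))) (T.h (T.h (P (nat_lit 0)) (T.h (T.h (P (nat_lit 7081154464611636871168)) (T.h (P (nat_lit 0)) (P (nat_lit 22001358117797888)))) (T.h (P (nat_lit 0))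 (P (nat_lit 19820659190398976))))) (T.h (T.h (T.h (P (nat_lit 0)) (T.h (P (nat_lit 18224543686039961600)) (T.h (P (nat_lit 0)) (M (nat_lit 4452436307519))))) (T.h (P (nat_lit 0)) (T.h (T.h (P (nat_lit 0)) (M (nat_lit 8843966445503))) (P (nat_lit 0))))) (T.h (T.h (P (nat_lit 0)) (P (nat_lit 11912089370230784))) (T.h (T.h (T.h (P (nat_lit 0)) (M (nat_lit 1410206002847))) (P (nat_lit 0))) (P (nat_lit 0)))))))), (T.h (T.h (P (nat_lit 0)) (T.h (T.h (P (nat_lit 0)) (T.h (M (nat_lit 18381355421258832978903039)) (T.h (P (nat_lit 0)) (M (nat_lit 23203781688285986815))))) (T.h (P (nat_lit 0)) (T.h (T.h (P (nat_lit 0)) (P (nat_lit 7114211940729094144))) (P (nat_lit 0)))))) (T.h (T.h (T.h (P (nat_lit 2547540643335990035118817280)) (T.h (P (nat_lit 0)) (T.h (M (nat_lit 19946718446392155570175)) (T.h (P (nat_lit 0)) (P (nat_lit 3801332291633152)))))) (T.h (P (nat_lit 0)) (T.h (T.h (P (nat_lit 34455666698401404157952)) (T.h (P (nat_lit 0)) (M (nat_lit 4932788028899327))))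 (T.h (P (nat_lit 0)) (M (nat_lit 2625970948095999)))))) (T.h (T.h (P (nat_lit 0)) (T.h (T.h (P (nat_lit 0)) (M (nat_lit 36613268445365010431))) (P (nat_lit 0)))) (T.h (T.h (T.h (P (nat_lit 392783585823669878784)) (T.h (P (nat_lit 0)) (P (nat_lit 3402133379809280)))) (T.h (P (nat_lit 0)) (P (nat_lit 584082030985216)))) (T.h (P (nat_lit 0)) (M (nat_lit 965174953410559))))))), (T.h (T.h (T.h (M (nat_lit 2172631954831739215942938263551)) (T.h (P (nat_lit 0)) (T.h (M (nat_lit 3113098526908072926904319)) (T.h (P (nat_lit 0)) (M (nat_lit 3128846296169840639)))))) (T.h (P (nat_lit 0)) (T.h (T.h (M (nat_lit 7101092557652367280963583)) (T.h (P (nat_lit 0)) (M (nat_lit 11923797260938248191)))) (T.h (P (nat_lit 0)) (P (nat_lit 3403652489910681600)))))) (T.h (T.h (P (nat_lit 0)) (T.h (T.h (P (nat_lit 0)) (T.h (M (nat_lit 6096585033635921395711)) (T.h (P (nat_lit 0)) (P (nat_lit 6037481093464064))))) (T.h (P (nat_lit 0)) (T.h (T.h (P (nat_lit 0)) (M (nat_lit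 19267366617087999))) (P (nat_lit 0)))))) (T.h (T.h (T.h (M (nat_lit 3113098526908072926904319)) (T.h (P (nat_lit 0)) (M (nat_lit 5441742847361417215)))) (T.h (P (nat_lit 0)) (M (nat_lit 11923797260938248191)))) (T.h (T.h (P (nat_lit 0)) (T.h (T.h (P (nat_lit 0)) (P (nat_lit 6037481093464064))) (P (nat_lit 0)))) (M (nat_lit 3128846296169840639)))))), (P (nat_lit 0)), (P (nat_lit 0)), (P (nat_lit 0)), (P (nat_lit 0))]
def lP11_8 : List (T ℤ) := [(P (nat_lit 0)), (P (nat_lit 0)), (P (nat_lit 0)), (P (nat_lit 0)), (P (nat_lit 0)), (P (nat_lit 0)), (T.h (T.h (T.h (P (nat_lit 1989763904064527922702493679616)) (T.h (P (nat_lit 0)) (T.h (M (nat_lit 1555352205547181478772735)) (T.h (P (nat_lit 0)) (T.h (P (nat_lit 9750871734478700544)) (T.h (P (nat_lit 0)) (M (nat_lit 5897645410239)))))))) (T.h (P (nat_lit 0)) (T.h (T.h (M (nat_lit 1214026389387006139432959)) (T.h (P (nat_lit 0)) (T.h (P (nat_lit 8401040907045961728)) (T.h (P (nat_lit 0)) (M (nat_lit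 11026665648687)))))) (T.h (P (nat_lit 0)) (T.h (T.h (P (nat_lit 239542072028168192)) (T.h (P (nat_lit 0)) (M (nat_lit 8205389113567)))) (T.h (P (nat_lit 0)) (P (nat_lit 840835214592)))))))) (T.h (T.h (P (nat_lit 0)) (T.h (T.h (P (nat_lit 0)) (T.h (M (nat_lit 35662430948495982591)) (T.h (P (nat_lit 0)) (P (nat_lit 550827374542848))))) (T.h (P (nat_lit 0)) (T.h (T.h (P (nat_lit 0)) (M (nat_lit 524203152048127))) (P (nat_lit 0)))))) (T.h (T.h (T.h (M (nat_lit 1214026389387006139432959)) (T.h (P (nat_lit 0)) (T.h (P (nat_lit 8401040907045961728)) (T.h (P (nat_lit 0)) (M (nat_lit 11026665648687)))))) (T.h (P (nat_lit 0)) (T.h (T.h (P (nat_lit 9398231935496486912)) (T.h (P (nat_lit 0)) (M (nat_lit 26006805577279)))) (T.h (P (nat_lit 0)) (M (nat_lit 64815190143)))))) (T.h (T.h (P (nat_lit 0)) (T.h (T.h (P (nat_lit 0)) (M (nat_lit 524203152048127))) (P (nat_lit 0)))) (T.h (T.h (T.h (P (nat_lit 239542072028168192)) (T.h (P (nat_lit 0)) (M (nat_lit 8205389113567))))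 (T.h (P (nat_lit 0)) (M (nat_lit 64815190143)))) (T.h (P (nat_lit 0)) (P (nat_lit 840835214592)))))))), (P (nat_lit 0))]
def lP11_9 : List (T ℤ) := [(P (nat_lit 0)), (P (nat_lit 0)), (P (nat_lit 0)), (P (nat_lit 0)), (T.h (T.h (P (nat_lit 0)) (T.h (T.h (P (nat_lit 382278186225956246805020672)) (T.h (P (nat_lit 0)) (T.h (M (nat_lit 6393028105238678077439)) (T.h (P (nat_lit 0)) (P (nat_lit 10182874572193792)))))) (T.h (P (nat_lit 0)) (T.h (T.h (M (nat_lit 2314989451720488124415)) (T.h (P (nat_lit 0)) (M (nat_lit 20917731012706303)))) (T.h (P (nat_lit 0)) (M (nat_lit 1940894262886399))))))) (T.h (T.h (T.h (P (nat_lit 0)) (T.h (P (nat_lit 8967851728135020949274624)) (T.h (P (nat_lit 0)) (T.h (P (nat_lit 5808715515924840448)) (T.h (P (nat_lit 0)) (M (nat_lit 6298334266991))))))) (T.h (P (nat_lit 0)) (T.h (T.h (P (nat_lit 0)) (T.h (P (nat_lit 21437333873006477312)) (T.h (P (nat_lit 0)) (M (nat_lit 14649144822207))))) (T.h (P (nat_lit 0)) (T.h (T.h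 (P (nat_lit 0)) (P (nat_lit 9389964963200))) (P (nat_lit 0))))))) (T.h (T.h (P (nat_lit 0)) (T.h (T.h (P (nat_lit 4917025952193526628352)) (T.h (P (nat_lit 0)) (P (nat_lit 17704818290655232)))) (T.h (P (nat_lit 0)) (P (nat_lit 13535529003122688))))) (T.h (T.h (T.h (P (nat_lit 0)) (T.h (M (nat_lit 1632295132411723775)) (T.h (P (nat_lit 0)) (M (nat_lit 1954457784095))))) (T.h (P (nat_lit 0)) (T.h (T.h (P (nat_lit 0)) (P (nat_lit 7808644584816))) (P (nat_lit 0))))) (T.h (T.h (P (nat_lit 0)) (P (nat_lit 566836548272128))) (T.h (T.h (T.h (P (nat_lit 0)) (M (nat_lit 1262651453183))) (P (nat_lit 0))) (P (nat_lit 0)))))))), (T.h (T.h (P (nat_lit 0)) (T.h (T.h (P (nat_lit 0)) (T.h (P (nat_lit 28103389209149550503133184)) (T.h (P (nat_lit 0)) (T.h (P (nat_lit 22841197399336026112)) (T.h (P (nat_lit 0)) (M (nat_lit 26232607252823))))))) (T.h (P (nat_lit 0)) (T.h (T.h (P (nat_lit 0)) (T.h (P (nat_lit 36020199626832347136)) (T.h (P (nat_lit 0)) (P (nat_lit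 30282302885432))))) (T.h (P (nat_lit 0)) (T.h (T.h (P (nat_lit 0)) (M (nat_lit 14764031900079))) (P (nat_lit 0)))))))) (T.h (T.h (T.h (P (nat_lit 485651212811086475852513280)) (T.h (P (nat_lit 0)) (T.h (M (nat_lit 47841372592584299380735)) (T.h (P (nat_lit 0)) (P (nat_lit 26959970316943360)))))) (T.h (P (nat_lit 0)) (T.h (T.h (M (nat_lit 13720754705523942621183)) (T.h (P (nat_lit 0)) (P (nat_lit 48593063187546112)))) (T.h (P (nat_lit 0)) (P (nat_lit 4266103463411712)))))) (T.h (T.h (P (nat_lit 0)) (T.h (T.h (P (nat_lit 0)) (T.h (M (nat_lit 46755508501555970047)) (T.h (P (nat_lit 0)) (P (nat_lit 2992585843392))))) (T.h (P (nat_lit 0)) (T.h (T.h (P (nat_lit 0)) (M (nat_lit 35283134200615))) (P (nat_lit 0)))))) (T.h (T.h (T.h (M (nat_lit 5714166192908208701439)) (T.h (P (nat_lit 0)) (M (nat_lit 6269596438265855)))) (T.h (P (nat_lit 0)) (M (nat_lit 32749874407112703)))) (T.h (T.h (P (nat_lit 0)) (T.h (T.h (P (nat_lit 0)) (M (nat_lit 10659207937431)))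 (P (nat_lit 0)))) (M (nat_lit 6752635111702527))))))), (T.h (T.h (P (nat_lit 0)) (T.h (T.h (M (nat_lit 832454746821739008015466495)) (T.h (P (nat_lit 0)) (T.h (M (nat_lit 32130929532941937672191)) (T.h (P (nat_lit 0)) (P (nat_lit 5910113848442880)))))) (T.h (P (nat_lit 0)) (T.h (T.h (P (nat_lit 2581207630647769694208)) (T.h (P (nat_lit 0)) (P (nat_lit 21537784946409472)))) (T.h (P (nat_lit 0)) (P (nat_lit 3821690648035328))))))) (T.h (T.h (T.h (P (nat_lit 0)) (T.h (P (nat_lit 11799924226416691745128448)) (T.h (P (nat_lit 0)) (T.h (M (nat_lit 13066312361172795391)) (T.h (P (nat_lit 0)) (P (nat_lit 11861041236576))))))) (T.h (P (nat_lit 0)) (T.h (T.h (P (nat_lit 0)) (T.h (P (nat_lit 22920260165497257984)) (T.h (P (nat_lit 0)) (P (nat_lit 19135086581520))))) (T.h (P (nat_lit 0)) (T.h (T.h (P (nat_lit 0)) (M (nat_lit 6622509720623))) (P (nat_lit 0))))))) (T.h (T.h (P (nat_lit 0)) (T.h (T.h (M (nat_lit 4047631849667556278271)) (T.h (P (nat_lit 0))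 (P (nat_lit 703405565444096)))) (T.h (P (nat_lit 0)) (M (nat_lit 25091771215478783))))) (T.h (T.h (T.h (P (nat_lit 0)) (T.h (P (nat_lit 24992502955122884608)) (T.h (P (nat_lit 0)) (P (nat_lit 4308734371088))))) (T.h (P (nat_lit 0)) (T.h (T.h (P (nat_lit 0)) (M (nat_lit 4081026789279))) (P (nat_lit 0))))) (T.h (T.h (P (nat_lit 0)) (M (nat_lit 6980540568846335))) (T.h (T.h (T.h (P (nat_lit 0)) (P (nat_lit 3040955945440))) (P (nat_lit 0))) (P (nat_lit 0)))))))), (T.h (T.h (P (nat_lit 0)) (T.h (T.h (P (nat_lit 0)) (T.h (M (nat_lit 13089024482181258328145919)) (T.h (P (nat_lit 0)) (T.h (M (nat_lit 36766634793414688767)) (T.h (P (nat_lit 0)) (M (nat_lit 1283713304399))))))) (T.h (P (nat_lit 0)) (T.h (T.h (P (nat_lit 0)) (T.h (M (nat_lit 32647441060556963839)) (T.h (P (nat_lit 0)) (P (nat_lit 2377596206784))))) (T.h (P (nat_lit 0)) (T.h (T.h (P (nat_lit 0)) (P (nat_lit 4237866999168))) (P (nat_lit 0)))))))) (T.h (T.h (T.h (P (nat_lit 5365436076063364494613544960))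 (T.h (P (nat_lit 0)) (T.h (P (nat_lit 16692309233254172459008)) (T.h (P (nat_lit 0)) (M (nat_lit 24295617010860031)))))) (T.h (P (nat_lit 0)) (T.h (T.h (M (nat_lit 23003241910279304380415)) (T.h (P (nat_lit 0)) (P (nat_lit 26953724719824896)))) (T.h (P (nat_lit 0)) (M (nat_lit 4868192976011263)))))) (T.h (T.h (P (nat_lit 0)) (T.h (T.h (P (nat_lit 0)) (T.h (P (nat_lit 25093469970943180800)) (T.h (P (nat_lit 0)) (P (nat_lit 13661142254976))))) (T.h (P (nat_lit 0)) (T.h (T.h (P (nat_lit 0)) (P (nat_lit 3390121286400))) (P (nat_lit 0)))))) (T.h (T.h (T.h (M (nat_lit 2829647422335983026175)) (T.h (P (nat_lit 0)) (P (nat_lit 17366088078819328)))) (T.h (P (nat_lit 0)) (P (nat_lit 6090253865844736)))) (T.h (T.h (P (nat_lit 0)) (T.h (T.h (P (nat_lit 0)) (M (nat_lit 4085685683903))) (P (nat_lit 0)))) (P (nat_lit 8555427069952000)))))))]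
def lP11_10 : List (T ℤ) := [(T.h (T.h (P (nat_lit 0)) (T.h (T.h (P (nat_lit 2547540643335990035118817280)) (T.h (P (nat_lit 0)) (T.h (P (nat_lit 34455666698401404157952)) (T.h (P (nat_lit 0)) (M (nat_lit 2625970948095999)))))) (T.h (P (nat_lit 0)) (T.h (T.h (P (nat_lit 392783585823669878784)) (T.h (P (nat_lit 0)) (P (nat_lit 584082030985216)))) (T.h (P (nat_lit 0)) (M (nat_lit 965174953410559))))))) (T.h (T.h (T.h (P (nat_lit 0)) (T.h (M (nat_lit 18381355421258832978903039)) (T.h (P (nat_lit 0)) (P (nat_lit 7114211940729094144))))) (T.h (P (nat_lit 0)) (T.h (T.h (P (nat_lit 0)) (M (nat_lit 36613268445365010431))) (P (nat_lit 0))))) (T.h (T.h (P (nat_lit 0)) (T.h (T.h (M (nat_lit 19946718446392155570175)) (T.h (P (nat_lit 0)) (M (nat_lit 4932788028899327)))) (T.h (P (nat_lit 0)) (P (nat_lit 3402133379809280))))) (T.h (T.h (T.h (P (nat_lit 0)) (M (nat_lit 23203781688285986815))) (P (nat_lit 0))) (T.h (T.h (P (nat_lit 0)) (P (nat_lit 3801332291633152)))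 (P (nat_lit 0))))))), (P (nat_lit 0)), (P (nat_lit 0)), (T.h (T.h (T.h (P (nat_lit 0)) (T.h (P (nat_lit 292744442000501060956848128)) (T.h (P (nat_lit 0)) (T.h (P (nat_lit 578675089556927152128)) (T.h (P (nat_lit 0)) (M (nat_lit 1348496507797503))))))) (T.h (P (nat_lit 0)) (T.h (T.h (P (nat_lit 0)) (T.h (M (nat_lit 71490041528832753663)) (T.h (P (nat_lit 0)) (M (nat_lit 208462894661631))))) (T.h (P (nat_lit 0)) (T.h (T.h (P (nat_lit 0)) (M (nat_lit 7565409483816959))) (P (nat_lit 0))))))) (T.h (T.h (P (nat_lit 0)) (T.h (T.h (M (nat_lit 1783583222540862459215871)) (T.h (P (nat_lit 0)) (T.h (M (nat_lit 9687899242886070271)) (T.h (P (nat_lit 0)) (P (nat_lit 18277536452736)))))) (T.h (P (nat_lit 0)) (T.h (T.h (M (nat_lit 968861825208680447)) (T.h (P (nat_lit 0)) (P (nat_lit 6132761592576)))) (T.h (P (nat_lit 0)) (M (nat_lit 723600243695))))))) (T.h (T.h (T.h (P (nat_lit 0)) (T.h (M (nat_lit 71490041528832753663)) (T.h (P (nat_lit 0)) (M (nat_lit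 208462894661631))))) (T.h (P (nat_lit 0)) (T.h (T.h (P (nat_lit 0)) (M (nat_lit 7318168459542527))) (P (nat_lit 0))))) (T.h (T.h (P (nat_lit 0)) (T.h (T.h (M (nat_lit 968861825208680447)) (T.h (P (nat_lit 0)) (P (nat_lit 6132761592576)))) (T.h (P (nat_lit 0)) (P (nat_lit 1106006924448))))) (T.h (T.h (T.h (P (nat_lit 0)) (M (nat_lit 7565409483816959))) (P (nat_lit 0))) (T.h (T.h (P (nat_lit 0)) (M (nat_lit 723600243695))) (P (nat_lit 0)))))))), (T.h (T.h (T.h (M (nat_lit 1833686140586091030416640180223)) (T.h (P (nat_lit 0)) (T.h (M (nat_lit 24929743016584213895839743)) (T.h (P (nat_lit 0)) (T.h (M (nat_lit 18997162503609253887)) (T.h (P (nat_lit 0)) (P (nat_lit 5640899468176)))))))) (T.h (P (nat_lit 0)) (T.h (T.h (P (nat_lit 20152093936309671301218304)) (T.h (P (nat_lit 0)) (T.h (M (nat_lit 48338084010217439231)) (T.h (P (nat_lit 0)) (M (nat_lit 6529346305695)))))) (T.h (P (nat_lit 0)) (T.h (T.h (M (nat_lit 9236317343162826751)) (T.h (P (nat_lit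 0)) (P (nat_lit 47679961248304)))) (T.h (P (nat_lit 0)) (P (nat_lit 11748727957200)))))))) (T.h (T.h (P (nat_lit 0)) (T.h (T.h (P (nat_lit 0)) (T.h (M (nat_lit 112471898535082606985215)) (T.h (P (nat_lit 0)) (P (nat_lit 93855003958312960))))) (T.h (P (nat_lit 0)) (T.h (T.h (P (nat_lit 0)) (M (nat_lit 9602603773984767))) (P (nat_lit 0)))))) (T.h (T.h (T.h (P (nat_lit 1504758702031106729836544)) (T.h (P (nat_lit 0)) (T.h (P (nat_lit 193567321257144221696)) (T.h (P (nat_lit 0)) (P (nat_lit 50812174146176)))))) (T.h (P (nat_lit 0)) (T.h (T.h (M (nat_lit 42881065747803537407)) (T.h (P (nat_lit 0)) (M (nat_lit 7950027518703)))) (T.h (P (nat_lit 0)) (M (nat_lit 5909049594671)))))) (T.h (T.h (P (nat_lit 0)) (T.h (T.h (P (nat_lit 0)) (M (nat_lit 122812598466641919))) (P (nat_lit 0)))) (T.h (T.h (T.h (M (nat_lit 313508080828547071)) (T.h (P (nat_lit 0)) (P (nat_lit 787165522384)))) (T.h (P (nat_lit 0)) (P (nat_lit 38278448953200)))) (T.h (P (nat_lit 0))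 (M (nat_lit 3817912421327)))))))), (T.h (T.h (T.h (P (nat_lit 0)) (T.h (P (nat_lit 8691406057965620660182974464)) (T.h (P (nat_lit 0)) (T.h (M (nat_lit 15021339571157746057215)) (T.h (P (nat_lit 0)) (P (nat_lit 17136932539727872))))))) (T.h (P (nat_lit 0)) (T.h (T.h (P (nat_lit 0)) (T.h (M (nat_lit 38064473744062961156095)) (T.h (P (nat_lit 0)) (P (nat_lit 2082412055707648))))) (T.h (P (nat_lit 0)) (T.h (T.h (P (nat_lit 0)) (P (nat_lit 19186521793036288))) (P (nat_lit 0))))))) (T.h (T.h (P (nat_lit 0)) (T.h (T.h (P (nat_lit 39725240604148654384611328)) (T.h (P (nat_lit 0)) (T.h (M (nat_lit 3943748245355757567)) (T.h (P (nat_lit 0)) (M (nat_lit 12132135300319)))))) (T.h (P (nat_lit 0)) (T.h (T.h (P (nat_lit 33915569836709117952)) (T.h (P (nat_lit 0)) (M (nat_lit 7612428796111)))) (T.h (P (nat_lit 0)) (P (nat_lit 4076389384816))))))) (T.h (T.h (T.h (P (nat_lit 0)) (T.h (M (nat_lit 38064473744062961156095)) (T.h (P (nat_lit 0)) (P (nat_lit 2082412055707648)))))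 (T.h (P (nat_lit 0)) (T.h (T.h (P (nat_lit 0)) (P (nat_lit 3935443694649344))) (P (nat_lit 0))))) (T.h (T.h (P (nat_lit 0)) (T.h (T.h (P (nat_lit 33915569836709117952)) (T.h (P (nat_lit 0)) (M (nat_lit 7612428796111)))) (T.h (P (nat_lit 0)) (M (nat_lit 675544214015))))) (T.h (T.h (T.h (P (nat_lit 0)) (P (nat_lit 19186521793036288))) (P (nat_lit 0))) (T.h (T.h (P (nat_lit 0)) (P (nat_lit 4076389384816))) (P (nat_lit 0)))))))), (T.h (T.h (T.h (M (nat_lit 1489864615173141456557266960383)) (T.h (P (nat_lit 0)) (T.h (P (nat_lit 44237522183060602493075456)) (T.h (P (nat_lit 0)) (T.h (M (nat_lit 8197879782847807487)) (T.h (P (nat_lit 0)) (P (nat_lit 13524330333600)))))))) (T.h (P (nat_lit 0)) (T.h (T.h (P (nat_lit 3190336379661984334872576)) (T.h (P (nat_lit 0)) (T.h (M (nat_lit 115193404408423514111)) (T.h (P (nat_lit 0)) (P (nat_lit 18792837007584)))))) (T.h (P (nat_lit 0)) (T.h (T.h (P (nat_lit 6454538503194673152)) (T.h (P (nat_lit 0)) (P (nat_lit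 3472411185984)))) (T.h (P (nat_lit 0)) (M (nat_lit 5550730409807)))))))) (T.h (T.h (P (nat_lit 0)) (T.h (T.h (P (nat_lit 0)) (T.h (P (nat_lit 117203895853605197971456)) (T.h (P (nat_lit 0)) (M (nat_lit 78799039213862911))))) (T.h (P (nat_lit 0)) (T.h (T.h (P (nat_lit 0)) (P (nat_lit 120510918138789888))) (P (nat_lit 0)))))) (T.h (T.h (T.h (P (nat_lit 3190336379661984334872576)) (T.h (P (nat_lit 0)) (T.h (M (nat_lit 115193404408423514111)) (T.h (P (nat_lit 0)) (P (nat_lit 18792837007584)))))) (T.h (P (nat_lit 0)) (T.h (T.h (P (nat_lit 107513538014303223808)) (T.h (P (nat_lit 0)) (P (nat_lit 64523868455424)))) (T.h (P (nat_lit 0)) (M (nat_lit 12406552033967)))))) (T.h (T.h (P (nat_lit 0)) (T.h (T.h (P (nat_lit 0)) (P (nat_lit 120510918138789888))) (P (nat_lit 0)))) (T.h (T.h (T.h (P (nat_lit 6454538503194673152)) (T.h (P (nat_lit 0)) (P (nat_lit 3472411185984)))) (T.h (P (nat_lit 0)) (M (nat_lit 12406552033967)))) (T.h (P (nat_lit 0)) (M (nat_lit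 5550730409807)))))))), (T.h (T.h (T.h (P (nat_lit 0)) (T.h (M (nat_lit 14143915709784305992583872511)) (T.h (P (nat_lit 0)) (T.h (M (nat_lit 5554121537654855041023)) (T.h (P (nat_lit 0)) (M (nat_lit 26821480240742399))))))) (T.h (P (nat_lit 0)) (T.h (T.h (P (nat_lit 0)) (T.h (P (nat_lit 71315698274066231197696)) (T.h (P (nat_lit 0)) (M (nat_lit 32756148533133311))))) (T.h (P (nat_lit 0)) (T.h (T.h (P (nat_lit 0)) (M (nat_lit 8208545001439231))) (P (nat_lit 0))))))) (T.h (T.h (P (nat_lit 0)) (T.h (T.h (P (nat_lit 1786891951884896965754880)) (T.h (P (nat_lit 0)) (P (nat_lit 20838505919270617088)))) (T.h (P (nat_lit 0)) (M (nat_lit 27420855437877051391))))) (T.h (T.h (T.h (P (nat_lit 0)) (T.h (P (nat_lit 71315698274066231197696)) (T.h (P (nat_lit 0)) (M (nat_lit 32756148533133311))))) (T.h (P (nat_lit 0)) (T.h (T.h (P (nat_lit 0)) (M (nat_lit 50991262593449983))) (P (nat_lit 0))))) (T.h (T.h (P (nat_lit 0)) (M (nat_lit 27420855437877051391))) (T.h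 (T.h (T.h (P (nat_lit 0)) (M (nat_lit 8208545001439231))) (P (nat_lit 0))) (P (nat_lit 0)))))))]
def lP11_11 : List (T ℤ) := [(P (nat_lit 0)), (T.h (T.h (P (nat_lit 0)) (T.h (T.h (P (nat_lit 292744442000501060956848128)) (T.h (P (nat_lit 0)) (T.h (M (nat_lit 71490041528832753663)) (T.h (P (nat_lit 0)) (M (nat_lit 7565409483816959)))))) (T.h (P (nat_lit 0)) (T.h (T.h (P (nat_lit 578675089556927152128)) (T.h (P (nat_lit 0)) (M (nat_lit 208462894661631)))) (T.h (P (nat_lit 0)) (M (nat_lit 1348496507797503))))))) (T.h (T.h (T.h (P (nat_lit 0)) (T.h (M (nat_lit 1783583222540862459215871)) (T.h (P (nat_lit 0)) (T.h (M (nat_lit 968861825208680447)) (T.h (P (nat_lit 0)) (M (nat_lit 723600243695))))))) (T.h (P (nat_lit 0)) (T.h (T.h (P (nat_lit 0)) (T.h (M (nat_lit 9687899242886070271)) (T.h (P (nat_lit 0)) (P (nat_lit 6132761592576))))) (T.h (P (nat_lit 0)) (T.h (T.h (P (nat_lit 0)) (P (nat_lit 18277536452736))) (P (nat_lit 0))))))) (T.h (T.h (P (nat_lit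 0)) (T.h (T.h (M (nat_lit 71490041528832753663)) (T.h (P (nat_lit 0)) (M (nat_lit 7318168459542527)))) (T.h (P (nat_lit 0)) (M (nat_lit 208462894661631))))) (T.h (T.h (T.h (P (nat_lit 0)) (T.h (M (nat_lit 968861825208680447)) (T.h (P (nat_lit 0)) (P (nat_lit 1106006924448))))) (T.h (P (nat_lit 0)) (T.h (T.h (P (nat_lit 0)) (P (nat_lit 6132761592576))) (P (nat_lit 0))))) (T.h (T.h (P (nat_lit 0)) (M (nat_lit 7565409483816959))) (T.h (T.h (T.h (P (nat_lit 0)) (M (nat_lit 723600243695))) (P (nat_lit 0))) (P (nat_lit 0)))))))), (T.h (T.h (P (nat_lit 0)) (T.h (T.h (P (nat_lit 0)) (T.h (M (nat_lit 29588896002306567315652607)) (T.h (P (nat_lit 0)) (T.h (M (nat_lit 28145018818879553535)) (T.h (P (nat_lit 0)) (M (nat_lit 38828225798559))))))) (T.h (P (nat_lit 0)) (T.h (T.h (P (nat_lit 0)) (T.h (M (nat_lit 128814671488589234175)) (T.h (P (nat_lit 0)) (P (nat_lit 56916490450304))))) (T.h (P (nat_lit 0)) (T.h (T.h (P (nat_lit 0)) (M (nat_lit 60196205129887)))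 (P (nat_lit 0)))))))) (T.h (T.h (T.h (P (nat_lit 25439072121365587605594308608)) (T.h (P (nat_lit 0)) (T.h (P (nat_lit 39260101701961162686464)) (T.h (P (nat_lit 0)) (M (nat_lit 46279448589402111)))))) (T.h (P (nat_lit 0)) (T.h (T.h (P (nat_lit 38260419747544456757248)) (T.h (P (nat_lit 0)) (P (nat_lit 101597129374236672)))) (T.h (P (nat_lit 0)) (M (nat_lit 23539714618982399)))))) (T.h (T.h (P (nat_lit 0)) (T.h (T.h (P (nat_lit 0)) (T.h (P (nat_lit 603140925707637489664)) (T.h (P (nat_lit 0)) (M (nat_lit 9001400120855))))) (T.h (P (nat_lit 0)) (T.h (T.h (P (nat_lit 0)) (P (nat_lit 25142437511608))) (P (nat_lit 0)))))) (T.h (T.h (T.h (P (nat_lit 32835649226746181451776)) (T.h (P (nat_lit 0)) (M (nat_lit 124121882012975103)))) (T.h (P (nat_lit 0)) (M (nat_lit 120493888905445375)))) (T.h (T.h (P (nat_lit 0)) (T.h (T.h (P (nat_lit 0)) (P (nat_lit 13619761588416))) (P (nat_lit 0)))) (P (nat_lit 27052447050694656))))))), (T.h (T.h (P (nat_lit 0))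 (T.h (T.h (M (nat_lit 16519899788560389826718728191)) (T.h (P (nat_lit 0)) (T.h (M (nat_lit 20726215518357509111807)) (T.h (P (nat_lit 0)) (P (nat_lit 53376662237773824)))))) (T.h (P (nat_lit 0)) (T.h (T.h (M (nat_lit 38815681408239742746623)) (T.h (P (nat_lit 0)) (P (nat_lit 24872236208455680)))) (T.h (P (nat_lit 0)) (M (nat_lit 14922245059133439))))))) (T.h (T.h (T.h (P (nat_lit 0)) (T.h (P (nat_lit 6361063573136040009924608)) (T.h (P (nat_lit 0)) (T.h (P (nat_lit 32547474825401073664)) (T.h (P (nat_lit 0)) (M (nat_lit 1102750372303))))))) (T.h (P (nat_lit 0)) (T.h (T.h (P (nat_lit 0)) (T.h (P (nat_lit 36912781505249411072)) (T.h (P (nat_lit 0)) (M (nat_lit 18575295500271))))) (T.h (P (nat_lit 0)) (T.h (T.h (P (nat_lit 0)) (M (nat_lit 94064231272143))) (P (nat_lit 0))))))) (T.h (T.h (P (nat_lit 0)) (T.h (T.h (M (nat_lit 48331781321057967800319)) (T.h (P (nat_lit 0)) (P (nat_lit 67211279446638592)))) (T.h (P (nat_lit 0)) (M (nat_lit 14595071553503231)))))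 (T.h (T.h (T.h (P (nat_lit 0)) (T.h (M (nat_lit 3114357112931614719)) (T.h (P (nat_lit 0)) (M (nat_lit 12260400160623))))) (T.h (P (nat_lit 0)) (T.h (T.h (P (nat_lit 0)) (M (nat_lit 27622295623215))) (P (nat_lit 0))))) (T.h (T.h (P (nat_lit 0)) (P (nat_lit 22614995997048832))) (T.h (T.h (T.h (P (nat_lit 0)) (M (nat_lit 10914695388015))) (P (nat_lit 0))) (P (nat_lit 0)))))))), (T.h (T.h (P (nat_lit 0)) (T.h (T.h (P (nat_lit 0)) (T.h (P (nat_lit 38096627589110099462848512)) (T.h (P (nat_lit 0)) (T.h (P (nat_lit 106594337060644978688)) (T.h (P (nat_lit 0)) (P (nat_lit 56011950313632))))))) (T.h (P (nat_lit 0)) (T.h (T.h (P (nat_lit 0)) (T.h (M (nat_lit 108181840819061260287)) (T.h (P (nat_lit 0)) (M (nat_lit 28889076865151))))) (T.h (P (nat_lit 0)) (T.h (T.h (P (nat_lit 0)) (P (nat_lit 27163896312912))) (P (nat_lit 0)))))))) (T.h (T.h (T.h (M (nat_lit 25920019054726368708448485375)) (T.h (P (nat_lit 0)) (T.h (M (nat_lit 11270670670228105461759))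 (T.h (P (nat_lit 0)) (M (nat_lit 58695919728099327)))))) (T.h (P (nat_lit 0)) (T.h (T.h (M (nat_lit 27787483063106125430783)) (T.h (P (nat_lit 0)) (M (nat_lit 29192182078373887)))) (T.h (P (nat_lit 0)) (P (nat_lit 67809720250138624)))))) (T.h (T.h (P (nat_lit 0)) (T.h (T.h (P (nat_lit 0)) (T.h (M (nat_lit 285020327601149837311)) (T.h (P (nat_lit 0)) (M (nat_lit 5451005508863))))) (T.h (P (nat_lit 0)) (T.h (T.h (P (nat_lit 0)) (P (nat_lit 15157720755216))) (P (nat_lit 0)))))) (T.h (T.h (T.h (M (nat_lit 32169525483728206299135)) (T.h (P (nat_lit 0)) (P (nat_lit 46994885653495808)))) (T.h (P (nat_lit 0)) (P (nat_lit 57081713356472320)))) (T.h (T.h (P (nat_lit 0)) (T.h (T.h (P (nat_lit 0)) (P (nat_lit 3622862751840))) (P (nat_lit 0)))) (M (nat_lit 18888208648962047))))))), (T.h (T.h (P (nat_lit 0)) (T.h (T.h (P (nat_lit 3133521640352018543595749376)) (T.h (P (nat_lit 0)) (T.h (M (nat_lit 3848273589639705526271)) (T.h (P (nat_lit 0)) (M (nat_lit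 107296303587655679)))))) (T.h (P (nat_lit 0)) (T.h (T.h (P (nat_lit 6131544820029419683840)) (T.h (P (nat_lit 0)) (P (nat_lit 24755005882941440)))) (T.h (P (nat_lit 0)) (P (nat_lit 3746641894768640))))))) (T.h (T.h (T.h (P (nat_lit 0)) (T.h (M (nat_lit 34949159902444343565221887)) (T.h (P (nat_lit 0)) (P (nat_lit 130808218232064835584))))) (T.h (P (nat_lit 0)) (T.h (T.h (P (nat_lit 0)) (M (nat_lit 64795198108966322175))) (P (nat_lit 0))))) (T.h (T.h (P (nat_lit 0)) (T.h (T.h (P (nat_lit 10530773426254924218368)) (T.h (P (nat_lit 0)) (M (nat_lit 48253519760162815)))) (T.h (P (nat_lit 0)) (M (nat_lit 3541496266850303))))) (T.h (T.h (T.h (P (nat_lit 0)) (M (nat_lit 18668642047161794559))) (P (nat_lit 0))) (T.h (T.h (P (nat_lit 0)) (P (nat_lit 25399662819524608))) (P (nat_lit 0))))))), (T.h (T.h (T.h (P (nat_lit 0)) (T.h (P (nat_lit 382278186225956246805020672)) (T.h (P (nat_lit 0)) (T.h (M (nat_lit 2314989451720488124415)) (T.h (P (nat_lit 0))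 (M (nat_lit 1940894262886399))))))) (T.h (P (nat_lit 0)) (T.h (T.h (P (nat_lit 0)) (T.h (M (nat_lit 6393028105238678077439)) (T.h (P (nat_lit 0)) (M (nat_lit 20917731012706303))))) (T.h (P (nat_lit 0)) (T.h (T.h (P (nat_lit 0)) (P (nat_lit 10182874572193792))) (P (nat_lit 0))))))) (T.h (T.h (P (nat_lit 0)) (T.h (T.h (P (nat_lit 8967851728135020949274624)) (T.h (P (nat_lit 0)) (T.h (P (nat_lit 21437333873006477312)) (T.h (P (nat_lit 0)) (P (nat_lit 9389964963200)))))) (T.h (P (nat_lit 0)) (T.h (T.h (P (nat_lit 5808715515924840448)) (T.h (P (nat_lit 0)) (M (nat_lit 14649144822207)))) (T.h (P (nat_lit 0)) (M (nat_lit 6298334266991))))))) (T.h (T.h (T.h (P (nat_lit 0)) (T.h (P (nat_lit 4917025952193526628352)) (T.h (P (nat_lit 0)) (P (nat_lit 13535529003122688))))) (T.h (P (nat_lit 0)) (T.h (T.h (P (nat_lit 0)) (P (nat_lit 17704818290655232))) (P (nat_lit 0))))) (T.h (T.h (P (nat_lit 0)) (T.h (T.h (M (nat_lit 1632295132411723775)) (T.h (P (nat_lit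 0)) (P (nat_lit 7808644584816)))) (T.h (P (nat_lit 0)) (M (nat_lit 1954457784095))))) (T.h (T.h (T.h (P (nat_lit 0)) (P (nat_lit 566836548272128))) (P (nat_lit 0))) (T.h (T.h (P (nat_lit 0)) (M (nat_lit 1262651453183))) (P (nat_lit 0)))))))), (T.h (T.h (T.h (P (nat_lit 494982663140877495206020120576)) (T.h (P (nat_lit 0)) (T.h (M (nat_lit 5927007742180180497530879)) (T.h (P (nat_lit 0)) (T.h (P (nat_lit 488089392322183168)) (T.h (P (nat_lit 0)) (P (nat_lit 13335407769360)))))))) (T.h (P (nat_lit 0)) (T.h (T.h (M (nat_lit 43459846080287011753689087)) (T.h (P (nat_lit 0)) (T.h (P (nat_lit 73088794801821712384)) (T.h (P (nat_lit 0)) (M (nat_lit 7364327931871)))))) (T.h (P (nat_lit 0)) (T.h (T.h (P (nat_lit 3322443915608457216)) (T.h (P (nat_lit 0)) (M (nat_lit 39242601906815)))) (T.h (P (nat_lit 0)) (M (nat_lit 10575507628479)))))))) (T.h (T.h (P (nat_lit 0)) (T.h (T.h (P (nat_lit 0)) (T.h (M (nat_lit 117186064638130949980159)) (T.h (P (nat_lit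 0)) (M (nat_lit 77125257283698687))))) (T.h (P (nat_lit 0)) (T.h (T.h (P (nat_lit 0)) (P (nat_lit 78523625526591488))) (P (nat_lit 0)))))) (T.h (T.h (T.h (P (nat_lit 760361372243217967218688)) (T.h (P (nat_lit 0)) (T.h (M (nat_lit 112212653982051467263)) (T.h (P (nat_lit 0)) (M (nat_lit 14683309859823)))))) (T.h (P (nat_lit 0)) (T.h (T.h (P (nat_lit 148896973107979354112)) (T.h (P (nat_lit 0)) (M (nat_lit 51520465666783)))) (T.h (P (nat_lit 0)) (P (nat_lit 12683593540336)))))) (T.h (T.h (P (nat_lit 0)) (T.h (T.h (P (nat_lit 0)) (M (nat_lit 163372375841832959))) (P (nat_lit 0)))) (T.h (T.h (T.h (M (nat_lit 13636708470739697663)) (T.h (P (nat_lit 0)) (P (nat_lit 39561229117904)))) (T.h (P (nat_lit 0)) (P (nat_lit 8624894673472)))) (T.h (P (nat_lit 0)) (M (nat_lit 3074782164335))))))))]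
def lP11_12 : List (T ℤ) := [(T.h (T.h (T.h (P (nat_lit 0)) (T.h (M (nat_lit 16519899788560389826718728191)) (T.h (P (nat_lit 0)) (T.h (M (nat_lit 38815681408239742746623)) (T.h (P (nat_lit 0)) (M (nat_lit 14922245059133439))))))) (T.h (P (nat_lit 0)) (T.h (T.h (P (nat_lit 0)) (T.h (M (nat_lit 20726215518357509111807)) (T.h (P (nat_lit 0)) (P (nat_lit 24872236208455680))))) (T.h (P (nat_lit 0)) (T.h (T.h (P (nat_lit 0)) (P (nat_lit 53376662237773824))) (P (nat_lit 0))))))) (T.h (T.h (P (nat_lit 0)) (T.h (T.h (P (nat_lit 6361063573136040009924608)) (T.h (P (nat_lit 0)) (T.h (P (nat_lit 36912781505249411072)) (T.h (P (nat_lit 0)) (M (nat_lit 94064231272143)))))) (T.h (P (nat_lit 0)) (T.h (T.h (P (nat_lit 32547474825401073664)) (T.h (P (nat_lit 0)) (M (nat_lit 18575295500271)))) (T.h (P (nat_lit 0)) (M (nat_lit 1102750372303))))))) (T.h (T.h (T.h (P (nat_lit 0)) (T.h (M (nat_lit 48331781321057967800319)) (T.h (P (nat_lit 0)) (M (nat_lit 14595071553503231)))))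 (T.h (P (nat_lit 0)) (T.h (T.h (P (nat_lit 0)) (P (nat_lit 67211279446638592))) (P (nat_lit 0))))) (T.h (T.h (P (nat_lit 0)) (T.h (T.h (M (nat_lit 3114357112931614719)) (T.h (P (nat_lit 0)) (M (nat_lit 27622295623215)))) (T.h (P (nat_lit 0)) (M (nat_lit 12260400160623))))) (T.h (T.h (T.h (P (nat_lit 0)) (P (nat_lit 22614995997048832))) (P (nat_lit 0))) (T.h (T.h (P (nat_lit 0)) (M (nat_lit 10914695388015))) (P (nat_lit 0)))))))), (T.h (T.h (T.h (P (nat_lit 3336858308950095421271779049472)) (T.h (P (nat_lit 0)) (T.h (M (nat_lit 5043467229830250282090495)) (T.h (P (nat_lit 0)) (T.h (P (nat_lit 11853962430587600896)) (T.h (P (nat_lit 0)) (M (nat_lit 4461241746719)))))))) (T.h (P (nat_lit 0)) (T.h (T.h (M (nat_lit 5043467229830250282090495)) (T.h (P (nat_lit 0)) (T.h (P (nat_lit 55845177334473687040)) (T.h (P (nat_lit 0)) (P (nat_lit 13242663900912)))))) (T.h (P (nat_lit 0)) (T.h (T.h (P (nat_lit 11853962430587600896)) (T.h (P (nat_lit 0)) (P (nat_lit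 13242663900912)))) (T.h (P (nat_lit 0)) (M (nat_lit 4461241746719)))))))) (T.h (T.h (P (nat_lit 0)) (T.h (T.h (P (nat_lit 0)) (T.h (M (nat_lit 161835331611143606108159)) (T.h (P (nat_lit 0)) (P (nat_lit 77702433258799104))))) (T.h (P (nat_lit 0)) (T.h (T.h (P (nat_lit 0)) (P (nat_lit 77702433258799104))) (P (nat_lit 0)))))) (T.h (T.h (T.h (P (nat_lit 6077443599476861853237248)) (T.h (P (nat_lit 0)) (T.h (M (nat_lit 63461707544942084095)) (T.h (P (nat_lit 0)) (M (nat_lit 7293763681775)))))) (T.h (P (nat_lit 0)) (T.h (T.h (M (nat_lit 63461707544942084095)) (T.h (P (nat_lit 0)) (P (nat_lit 39429664002528)))) (T.h (P (nat_lit 0)) (M (nat_lit 7293763681775)))))) (T.h (T.h (P (nat_lit 0)) (T.h (T.h (P (nat_lit 0)) (P (nat_lit 135200626355732480))) (P (nat_lit 0)))) (T.h (T.h (T.h (P (nat_lit 14906957054039031808)) (T.h (P (nat_lit 0)) (P (nat_lit 2739632443776)))) (T.h (P (nat_lit 0)) (P (nat_lit 2739632443776)))) (T.h (P (nat_lit 0)) (P (nat_lit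 14587027637568)))))))), (T.h (T.h (T.h (P (nat_lit 0)) (T.h (P (nat_lit 21382294463452524082142117888)) (T.h (P (nat_lit 0)) (T.h (M (nat_lit 8429021893482116022271)) (T.h (P (nat_lit 0)) (M (nat_lit 3098825511829503))))))) (T.h (P (nat_lit 0)) (T.h (T.h (P (nat_lit 0)) (T.h (M (nat_lit 5119974003336856731647)) (T.h (P (nat_lit 0)) (P (nat_lit 9121366597222400))))) (T.h (P (nat_lit 0)) (T.h (T.h (P (nat_lit 0)) (M (nat_lit 38231767106387967))) (P (nat_lit 0))))))) (T.h (T.h (P (nat_lit 0)) (T.h (T.h (P (nat_lit 11364634751436504396988416)) (T.h (P (nat_lit 0)) (P (nat_lit 72630611916194054144)))) (T.h (P (nat_lit 0)) (M (nat_lit 39642309639526154239))))) (T.h (T.h (T.h (P (nat_lit 0)) (T.h (P (nat_lit 55308368152604113371136)) (T.h (P (nat_lit 0)) (P (nat_lit 10349591218307072))))) (T.h (P (nat_lit 0)) (T.h (T.h (P (nat_lit 0)) (M (nat_lit 27209387641274367))) (P (nat_lit 0))))) (T.h (T.h (P (nat_lit 0)) (M (nat_lit 42786273065835692031))) (T.h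 (T.h (T.h (P (nat_lit 0)) (M (nat_lit 17072719312633855))) (P (nat_lit 0))) (P (nat_lit 0))))))), (T.h (T.h (P (nat_lit 0)) (T.h (T.h (P (nat_lit 0)) (T.h (P (nat_lit 20367765807806700639485952)) (T.h (P (nat_lit 0)) (T.h (P (nat_lit 19867004086649880576)) (T.h (P (nat_lit 0)) (M (nat_lit 12250454303887))))))) (T.h (P (nat_lit 0)) (T.h (T.h (P (nat_lit 0)) (T.h (P (nat_lit 32360385358094925824)) (T.h (P (nat_lit 0)) (M (nat_lit 18188302719095))))) (T.h (P (nat_lit 0)) (T.h (T.h (P (nat_lit 0)) (M (nat_lit 1942311308743))) (P (nat_lit 0)))))))) (T.h (T.h (T.h (M (nat_lit 3806205839395855949482688511)) (T.h (P (nat_lit 0)) (T.h (P (nat_lit 25039632414137793904640)) (T.h (P (nat_lit 0)) (M (nat_lit 4968131396501503)))))) (T.h (P (nat_lit 0)) (T.h (T.h (M (nat_lit 20350402788955445526527)) (T.h (P (nat_lit 0)) (M (nat_lit 37649753855066111)))) (T.h (P (nat_lit 0)) (P (nat_lit 20784627276742656)))))) (T.h (T.h (P (nat_lit 0)) (T.h (T.h (P (nat_lit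 0)) (T.h (M (nat_lit 52273040027484684287)) (T.h (P (nat_lit 0)) (M (nat_lit 24959317573815))))) (T.h (P (nat_lit 0)) (T.h (T.h (P (nat_lit 0)) (M (nat_lit 11025427733215))) (P (nat_lit 0)))))) (T.h (T.h (T.h (P (nat_lit 434528077766272745472)) (T.h (P (nat_lit 0)) (M (nat_lit 12985542396248063)))) (T.h (P (nat_lit 0)) (M (nat_lit 16405739284037631)))) (T.h (T.h (P (nat_lit 0)) (T.h (T.h (P (nat_lit 0)) (P (nat_lit 3392182722520))) (P (nat_lit 0)))) (M (nat_lit 2875145773678591))))))), (T.h (T.h (P (nat_lit 0)) (T.h (T.h (P (nat_lit 8691406057965620660182974464)) (T.h (P (nat_lit 0)) (T.h (M (nat_lit 38064473744062961156095)) (T.h (P (nat_lit 0)) (P (nat_lit 19186521793036288)))))) (T.h (P (nat_lit 0)) (T.h (T.h (M (nat_lit 15021339571157746057215)) (T.h (P (nat_lit 0)) (P (nat_lit 2082412055707648)))) (T.h (P (nat_lit 0)) (P (nat_lit 17136932539727872))))))) (T.h (T.h (T.h (P (nat_lit 0)) (T.h (P (nat_lit 39725240604148654384611328)) (T.h (P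 (nat_lit 0)) (T.h (P (nat_lit 33915569836709117952)) (T.h (P (nat_lit 0)) (P (nat_lit 4076389384816))))))) (T.h (P (nat_lit 0)) (T.h (T.h (P (nat_lit 0)) (T.h (M (nat_lit 3943748245355757567)) (T.h (P (nat_lit 0)) (M (nat_lit 7612428796111))))) (T.h (P (nat_lit 0)) (T.h (T.h (P (nat_lit 0)) (M (nat_lit 12132135300319))) (P (nat_lit 0))))))) (T.h (T.h (P (nat_lit 0)) (T.h (T.h (M (nat_lit 38064473744062961156095)) (T.h (P (nat_lit 0)) (P (nat_lit 3935443694649344)))) (T.h (P (nat_lit 0)) (P (nat_lit 2082412055707648))))) (T.h (T.h (T.h (P (nat_lit 0)) (T.h (P (nat_lit 33915569836709117952)) (T.h (P (nat_lit 0)) (M (nat_lit 675544214015))))) (T.h (P (nat_lit 0)) (T.h (T.h (P (nat_lit 0)) (M (nat_lit 7612428796111))) (P (nat_lit 0))))) (T.h (T.h (P (nat_lit 0)) (P (nat_lit 19186521793036288))) (T.h (T.h (T.h (P (nat_lit 0)) (P (nat_lit 4076389384816))) (P (nat_lit 0))) (P (nat_lit 0)))))))), (T.h (T.h (P (nat_lit 0)) (T.h (T.h (P (nat_lit 0)) (T.h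 (P (nat_lit 38096627589110099462848512)) (T.h (P (nat_lit 0)) (T.h (M (nat_lit 108181840819061260287)) (T.h (P (nat_lit 0)) (P (nat_lit 27163896312912))))))) (T.h (P (nat_lit 0)) (T.h (T.h (P (nat_lit 0)) (T.h (P (nat_lit 106594337060644978688)) (T.h (P (nat_lit 0)) (M (nat_lit 28889076865151))))) (T.h (P (nat_lit 0)) (T.h (T.h (P (nat_lit 0)) (P (nat_lit 56011950313632))) (P (nat_lit 0)))))))) (T.h (T.h (T.h (M (nat_lit 25920019054726368708448485375)) (T.h (P (nat_lit 0)) (T.h (M (nat_lit 27787483063106125430783)) (T.h (P (nat_lit 0)) (P (nat_lit 67809720250138624)))))) (T.h (P (nat_lit 0)) (T.h (T.h (M (nat_lit 11270670670228105461759)) (T.h (P (nat_lit 0)) (M (nat_lit 29192182078373887)))) (T.h (P (nat_lit 0)) (M (nat_lit 58695919728099327)))))) (T.h (T.h (P (nat_lit 0)) (T.h (T.h (P (nat_lit 0)) (T.h (M (nat_lit 285020327601149837311)) (T.h (P (nat_lit 0)) (P (nat_lit 15157720755216))))) (T.h (P (nat_lit 0)) (T.h (T.h (P (nat_lit 0)) (M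 (nat_lit 5451005508863))) (P (nat_lit 0)))))) (T.h (T.h (T.h (M (nat_lit 32169525483728206299135)) (T.h (P (nat_lit 0)) (P (nat_lit 57081713356472320)))) (T.h (P (nat_lit 0)) (P (nat_lit 46994885653495808)))) (T.h (T.h (P (nat_lit 0)) (T.h (T.h (P (nat_lit 0)) (P (nat_lit 3622862751840))) (P (nat_lit 0)))) (M (nat_lit 18888208648962047))))))), (T.h (T.h (P (nat_lit 0)) (T.h (T.h (P (nat_lit 21382294463452524082142117888)) (T.h (P (nat_lit 0)) (T.h (M (nat_lit 5119974003336856731647)) (T.h (P (nat_lit 0)) (M (nat_lit 38231767106387967)))))) (T.h (P (nat_lit 0)) (T.h (T.h (M (nat_lit 8429021893482116022271)) (T.h (P (nat_lit 0)) (P (nat_lit 9121366597222400)))) (T.h (P (nat_lit 0)) (M (nat_lit 3098825511829503))))))) (T.h (T.h (T.h (P (nat_lit 0)) (T.h (P (nat_lit 11364634751436504396988416)) (T.h (P (nat_lit 0)) (M (nat_lit 39642309639526154239))))) (T.h (P (nat_lit 0)) (T.h (T.h (P (nat_lit 0)) (P (nat_lit 72630611916194054144))) (P (nat_lit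 0))))) (T.h (T.h (P (nat_lit 0)) (T.h (T.h (P (nat_lit 55308368152604113371136)) (T.h (P (nat_lit 0)) (M (nat_lit 27209387641274367)))) (T.h (P (nat_lit 0)) (P (nat_lit 10349591218307072))))) (T.h (T.h (T.h (P (nat_lit 0)) (M (nat_lit 42786273065835692031))) (P (nat_lit 0))) (T.h (T.h (P (nat_lit 0)) (M (nat_lit 17072719312633855))) (P (nat_lit 0))))))), (T.h (T.h (T.h (P (nat_lit 0)) (T.h (M (nat_lit 832454746821739008015466495)) (T.h (P (nat_lit 0)) (T.h (P (nat_lit 2581207630647769694208)) (T.h (P (nat_lit 0)) (P (nat_lit 3821690648035328))))))) (T.h (P (nat_lit 0)) (T.h (T.h (P (nat_lit 0)) (T.h (M (nat_lit 32130929532941937672191)) (T.h (P (nat_lit 0)) (P (nat_lit 21537784946409472))))) (T.h (P (nat_lit 0)) (T.h (T.h (P (nat_lit 0)) (P (nat_lit 5910113848442880))) (P (nat_lit 0))))))) (T.h (T.h (P (nat_lit 0)) (T.h (T.h (P (nat_lit 11799924226416691745128448)) (T.h (P (nat_lit 0)) (T.h (P (nat_lit 22920260165497257984)) (T.h (P (nat_lit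 0)) (M (nat_lit 6622509720623)))))) (T.h (P (nat_lit 0)) (T.h (T.h (M (nat_lit 13066312361172795391)) (T.h (P (nat_lit 0)) (P (nat_lit 19135086581520)))) (T.h (P (nat_lit 0)) (P (nat_lit 11861041236576))))))) (T.h (T.h (T.h (P (nat_lit 0)) (T.h (M (nat_lit 4047631849667556278271)) (T.h (P (nat_lit 0)) (M (nat_lit 25091771215478783))))) (T.h (P (nat_lit 0)) (T.h (T.h (P (nat_lit 0)) (P (nat_lit 703405565444096))) (P (nat_lit 0))))) (T.h (T.h (P (nat_lit 0)) (T.h (T.h (P (nat_lit 24992502955122884608)) (T.h (P (nat_lit 0)) (M (nat_lit 4081026789279)))) (T.h (P (nat_lit 0)) (P (nat_lit 4308734371088))))) (T.h (T.h (T.h (P (nat_lit 0)) (M (nat_lit 6980540568846335))) (P (nat_lit 0))) (T.h (T.h (P (nat_lit 0)) (P (nat_lit 3040955945440))) (P (nat_lit 0))))))))]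
def lP11_13 : List (T ℤ) := [(T.h (T.h (T.h (M (nat_lit 1489864615173141456557266960383)) (T.h (P (nat_lit 0)) (T.h (P (nat_lit 3190336379661984334872576)) (T.h (P (nat_lit 0)) (T.h (P (nat_lit 6454538503194673152)) (T.h (P (nat_lit 0)) (M (nat_lit 5550730409807)))))))) (T.h (P (nat_lit 0)) (T.h (T.h (P (nat_lit 44237522183060602493075456)) (T.h (P (nat_lit 0)) (T.h (M (nat_lit 115193404408423514111)) (T.h (P (nat_lit 0)) (P (nat_lit 3472411185984)))))) (T.h (P (nat_lit 0)) (T.h (T.h (M (nat_lit 8197879782847807487)) (T.h (P (nat_lit 0)) (P (nat_lit 18792837007584)))) (T.h (P (nat_lit 0)) (P (nat_lit 13524330333600)))))))) (T.h (T.h (P (nat_lit 0)) (T.h (T.h (P (nat_lit 0)) (T.h (P (nat_lit 117203895853605197971456)) (T.h (P (nat_lit 0)) (P (nat_lit 120510918138789888))))) (T.h (P (nat_lit 0)) (T.h (T.h (P (nat_lit 0)) (M (nat_lit 78799039213862911))) (P (nat_lit 0)))))) (T.h (T.h (T.h (P (nat_lit 3190336379661984334872576)) (T.h (P (nat_lit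 0)) (T.h (P (nat_lit 107513538014303223808)) (T.h (P (nat_lit 0)) (M (nat_lit 12406552033967)))))) (T.h (P (nat_lit 0)) (T.h (T.h (M (nat_lit 115193404408423514111)) (T.h (P (nat_lit 0)) (P (nat_lit 64523868455424)))) (T.h (P (nat_lit 0)) (P (nat_lit 18792837007584)))))) (T.h (T.h (P (nat_lit 0)) (T.h (T.h (P (nat_lit 0)) (P (nat_lit 120510918138789888))) (P (nat_lit 0)))) (T.h (T.h (T.h (P (nat_lit 6454538503194673152)) (T.h (P (nat_lit 0)) (M (nat_lit 12406552033967)))) (T.h (P (nat_lit 0)) (P (nat_lit 3472411185984)))) (T.h (P (nat_lit 0)) (M (nat_lit 5550730409807)))))))), (T.h (T.h (T.h (P (nat_lit 0)) (T.h (P (nat_lit 3133521640352018543595749376)) (T.h (P (nat_lit 0)) (T.h (P (nat_lit 6131544820029419683840)) (T.h (P (nat_lit 0)) (P (nat_lit 3746641894768640))))))) (T.h (P (nat_lit 0)) (T.h (T.h (P (nat_lit 0)) (T.h (M (nat_lit 3848273589639705526271)) (T.h (P (nat_lit 0)) (P (nat_lit 24755005882941440))))) (T.h (P (nat_lit 0)) (T.h (T.h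 (P (nat_lit 0)) (M (nat_lit 107296303587655679))) (P (nat_lit 0))))))) (T.h (T.h (P (nat_lit 0)) (T.h (T.h (M (nat_lit 34949159902444343565221887)) (T.h (P (nat_lit 0)) (M (nat_lit 64795198108966322175)))) (T.h (P (nat_lit 0)) (P (nat_lit 130808218232064835584))))) (T.h (T.h (T.h (P (nat_lit 0)) (T.h (P (nat_lit 10530773426254924218368)) (T.h (P (nat_lit 0)) (M (nat_lit 3541496266850303))))) (T.h (P (nat_lit 0)) (T.h (T.h (P (nat_lit 0)) (M (nat_lit 48253519760162815))) (P (nat_lit 0))))) (T.h (T.h (P (nat_lit 0)) (M (nat_lit 18668642047161794559))) (T.h (T.h (T.h (P (nat_lit 0)) (P (nat_lit 25399662819524608))) (P (nat_lit 0))) (P (nat_lit 0))))))), (T.h (T.h (P (nat_lit 0)) (T.h (T.h (P (nat_lit 0)) (T.h (M (nat_lit 13089024482181258328145919)) (T.h (P (nat_lit 0)) (T.h (M (nat_lit 32647441060556963839)) (T.h (P (nat_lit 0)) (P (nat_lit 4237866999168))))))) (T.h (P (nat_lit 0)) (T.h (T.h (P (nat_lit 0)) (T.h (M (nat_lit 36766634793414688767))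 (T.h (P (nat_lit 0)) (P (nat_lit 2377596206784))))) (T.h (P (nat_lit 0)) (T.h (T.h (P (nat_lit 0)) (M (nat_lit 1283713304399))) (P (nat_lit 0)))))))) (T.h (T.h (T.h (P (nat_lit 5365436076063364494613544960)) (T.h (P (nat_lit 0)) (T.h (M (nat_lit 23003241910279304380415)) (T.h (P (nat_lit 0)) (M (nat_lit 4868192976011263)))))) (T.h (P (nat_lit 0)) (T.h (T.h (P (nat_lit 16692309233254172459008)) (T.h (P (nat_lit 0)) (P (nat_lit 26953724719824896)))) (T.h (P (nat_lit 0)) (M (nat_lit 24295617010860031)))))) (T.h (T.h (P (nat_lit 0)) (T.h (T.h (P (nat_lit 0)) (T.h (P (nat_lit 25093469970943180800)) (T.h (P (nat_lit 0)) (P (nat_lit 3390121286400))))) (T.h (P (nat_lit 0)) (T.h (T.h (P (nat_lit 0)) (P (nat_lit 13661142254976))) (P (nat_lit 0)))))) (T.h (T.h (T.h (M (nat_lit 2829647422335983026175)) (T.h (P (nat_lit 0)) (P (nat_lit 6090253865844736)))) (T.h (P (nat_lit 0)) (P (nat_lit 17366088078819328)))) (T.h (T.h (P (nat_lit 0)) (T.h (T.h (P (nat_lit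 0)) (M (nat_lit 4085685683903))) (P (nat_lit 0)))) (P (nat_lit 8555427069952000))))))), (T.h (T.h (P (nat_lit 0)) (T.h (T.h (M (nat_lit 14143915709784305992583872511)) (T.h (P (nat_lit 0)) (T.h (P (nat_lit 71315698274066231197696)) (T.h (P (nat_lit 0)) (M (nat_lit 8208545001439231)))))) (T.h (P (nat_lit 0)) (T.h (T.h (M (nat_lit 5554121537654855041023)) (T.h (P (nat_lit 0)) (M (nat_lit 32756148533133311)))) (T.h (P (nat_lit 0)) (M (nat_lit 26821480240742399))))))) (T.h (T.h (T.h (P (nat_lit 0)) (T.h (P (nat_lit 1786891951884896965754880)) (T.h (P (nat_lit 0)) (M (nat_lit 27420855437877051391))))) (T.h (P (nat_lit 0)) (T.h (T.h (P (nat_lit 0)) (P (nat_lit 20838505919270617088))) (P (nat_lit 0))))) (T.h (T.h (P (nat_lit 0)) (T.h (T.h (P (nat_lit 71315698274066231197696)) (T.h (P (nat_lit 0)) (M (nat_lit 50991262593449983)))) (T.h (P (nat_lit 0)) (M (nat_lit 32756148533133311))))) (T.h (T.h (T.h (P (nat_lit 0)) (M (nat_lit 27420855437877051391)))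 (P (nat_lit 0))) (T.h (T.h (P (nat_lit 0)) (M (nat_lit 8208545001439231))) (P (nat_lit 0))))))), (T.h (T.h (T.h (P (nat_lit 0)) (T.h (P (nat_lit 2547540643335990035118817280)) (T.h (P (nat_lit 0)) (T.h (P (nat_lit 392783585823669878784)) (T.h (P (nat_lit 0)) (M (nat_lit 965174953410559))))))) (T.h (P (nat_lit 0)) (T.h (T.h (P (nat_lit 0)) (T.h (P (nat_lit 34455666698401404157952)) (T.h (P (nat_lit 0)) (P (nat_lit 584082030985216))))) (T.h (P (nat_lit 0)) (T.h (T.h (P (nat_lit 0)) (M (nat_lit 2625970948095999))) (P (nat_lit 0))))))) (T.h (T.h (P (nat_lit 0)) (T.h (T.h (M (nat_lit 18381355421258832978903039)) (T.h (P (nat_lit 0)) (M (nat_lit 36613268445365010431)))) (T.h (P (nat_lit 0)) (P (nat_lit 7114211940729094144))))) (T.h (T.h (T.h (P (nat_lit 0)) (T.h (M (nat_lit 19946718446392155570175)) (T.h (P (nat_lit 0)) (P (nat_lit 3402133379809280))))) (T.h (P (nat_lit 0)) (T.h (T.h (P (nat_lit 0)) (M (nat_lit 4932788028899327))) (P (nat_lit 0)))))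 (T.h (T.h (P (nat_lit 0)) (M (nat_lit 23203781688285986815))) (T.h (T.h (T.h (P (nat_lit 0)) (P (nat_lit 3801332291633152))) (P (nat_lit 0))) (P (nat_lit 0))))))), (M (nat_lit 4410501400340933843783516159999)), (P (nat_lit 0)), (P (nat_lit 0))]
def lP11_14 : List (T ℤ) := [(T.h (T.h (T.h (M (nat_lit 128120900552666237134832664575)) (T.h (P (nat_lit 0)) (T.h (P (nat_lit 244345310791578333216768)) (T.h (P (nat_lit 0)) (T.h (P (nat_lit 622944617486090240)) (T.h (P (nat_lit 0)) (M (nat_lit 2463187883231)))))))) (T.h (P (nat_lit 0)) (T.h (T.h (M (nat_lit 374856245789455152054271)) (T.h (P (nat_lit 0)) (T.h (M (nat_lit 1937253098095378431)) (T.h (P (nat_lit 0)) (P (nat_lit 3986189105440)))))) (T.h (P (nat_lit 0)) (T.h (T.h (M (nat_lit 3158064110562705407)) (T.h (P (nat_lit 0)) (P (nat_lit 2707914055472)))) (T.h (P (nat_lit 0)) (P (nat_lit 1380574505568)))))))) (T.h (T.h (P (nat_lit 0)) (T.h (T.h (P (nat_lit 0)) (T.h (M (nat_lit 1980045858969294471167))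 (T.h (P (nat_lit 0)) (P (nat_lit 3795046400131072))))) (T.h (P (nat_lit 0)) (T.h (T.h (P (nat_lit 0)) (P (nat_lit 2866966031630336))) (P (nat_lit 0)))))) (T.h (T.h (T.h (M (nat_lit 374856245789455152054271)) (T.h (P (nat_lit 0)) (T.h (M (nat_lit 1937253098095378431)) (T.h (P (nat_lit 0)) (P (nat_lit 3986189105440)))))) (T.h (P (nat_lit 0)) (T.h (T.h (M (nat_lit 1706496107061706751)) (T.h (P (nat_lit 0)) (P (nat_lit 4438957717760)))) (T.h (P (nat_lit 0)) (P (nat_lit 1184705075472)))))) (T.h (T.h (P (nat_lit 0)) (T.h (T.h (P (nat_lit 0)) (P (nat_lit 2866966031630336))) (P (nat_lit 0)))) (T.h (T.h (T.h (M (nat_lit 3158064110562705407)) (T.h (P (nat_lit 0)) (P (nat_lit 2707914055472)))) (T.h (P (nat_lit 0)) (P (nat_lit 1184705075472)))) (T.h (P (nat_lit 0)) (P (nat_lit 1380574505568)))))))), (T.h (T.h (T.h (P (nat_lit 0)) (T.h (M (nat_lit 6708703288543951383055826943)) (T.h (P (nat_lit 0)) (T.h (M (nat_lit 8639614918792361017343)) (T.h (P (nat_lit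 0)) (P (nat_lit 12079869476732928))))))) (T.h (P (nat_lit 0)) (T.h (T.h (P (nat_lit 0)) (T.h (M (nat_lit 4825756084058852425727)) (T.h (P (nat_lit 0)) (M (nat_lit 22339981025869823))))) (T.h (P (nat_lit 0)) (T.h (T.h (P (nat_lit 0)) (M (nat_lit 13727318916464639))) (P (nat_lit 0))))))) (T.h (T.h (P (nat_lit 0)) (T.h (T.h (P (nat_lit 2367679197508544791314432)) (T.h (P (nat_lit 0)) (T.h (M (nat_lit 16662209236586987519)) (T.h (P (nat_lit 0)) (M (nat_lit 14111840783999)))))) (T.h (P (nat_lit 0)) (T.h (T.h (M (nat_lit 17490023526864781311)) (T.h (P (nat_lit 0)) (P (nat_lit 1223173417000)))) (T.h (P (nat_lit 0)) (P (nat_lit 1111384698048))))))) (T.h (T.h (T.h (P (nat_lit 0)) (T.h (M (nat_lit 9336552845164421316607)) (T.h (P (nat_lit 0)) (M (nat_lit 17301337354928127))))) (T.h (P (nat_lit 0)) (T.h (T.h (P (nat_lit 0)) (M (nat_lit 22001358117797887))) (P (nat_lit 0))))) (T.h (T.h (P (nat_lit 0)) (T.h (T.h (M (nat_lit 18959063845215141887)) (T.h (P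 (nat_lit 0)) (P (nat_lit 16464759474008)))) (T.h (P (nat_lit 0)) (P (nat_lit 4452436307520))))) (T.h (T.h (T.h (P (nat_lit 0)) (M (nat_lit 10096859823996927))) (P (nat_lit 0))) (T.h (T.h (P (nat_lit 0)) (P (nat_lit 1709027307648))) (P (nat_lit 0)))))))), (T.h (T.h (T.h (P (nat_lit 7707325677427308464448959676416)) (T.h (P (nat_lit 0)) (T.h (P (nat_lit 6115846739255371820433408)) (T.h (P (nat_lit 0)) (T.h (M (nat_lit 6761073294046134271)) (T.h (P (nat_lit 0)) (P (nat_lit 5745344476032)))))))) (T.h (P (nat_lit 0)) (T.h (T.h (P (nat_lit 2901120429012419390472192)) (T.h (P (nat_lit 0)) (T.h (P (nat_lit 15647870045474783232)) (T.h (P (nat_lit 0)) (M (nat_lit 6986606627727)))))) (T.h (P (nat_lit 0)) (T.h (T.h (P (nat_lit 5890513963451416576)) (T.h (P (nat_lit 0)) (M (nat_lit 4692097755967)))) (T.h (P (nat_lit 0)) (M (nat_lit 1109493383599)))))))) (T.h (T.h (P (nat_lit 0)) (T.h (T.h (P (nat_lit 0)) (T.h (P (nat_lit 9365546830999188406272)) (T.h (P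 (nat_lit 0)) (P (nat_lit 11959213971734528))))) (T.h (P (nat_lit 0)) (T.h (T.h (P (nat_lit 0)) (M (nat_lit 11019108930781183))) (P (nat_lit 0)))))) (T.h (T.h (T.h (P (nat_lit 2901120429012419390472192)) (T.h (P (nat_lit 0)) (T.h (P (nat_lit 15647870045474783232)) (T.h (P (nat_lit 0)) (M (nat_lit 6986606627727)))))) (T.h (P (nat_lit 0)) (T.h (T.h (P (nat_lit 12105851740364996608)) (T.h (P (nat_lit 0)) (M (nat_lit 10354312704511)))) (T.h (P (nat_lit 0)) (M (nat_lit 1741740014223)))))) (T.h (T.h (P (nat_lit 0)) (T.h (T.h (P (nat_lit 0)) (M (nat_lit 11019108930781183))) (P (nat_lit 0)))) (T.h (T.h (T.h (P (nat_lit 5890513963451416576)) (T.h (P (nat_lit 0)) (M (nat_lit 4692097755967)))) (T.h (P (nat_lit 0)) (M (nat_lit 1741740014223)))) (T.h (P (nat_lit 0)) (M (nat_lit 1109493383599)))))))), (T.h (T.h (T.h (P (nat_lit 0)) (T.h (P (nat_lit 6708703288543951383055826944)) (T.h (P (nat_lit 0)) (T.h (P (nat_lit 8639614918792361017344)) (T.h (P (nat_lit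 0)) (M (nat_lit 12079869476732927))))))) (T.h (P (nat_lit 0)) (T.h (T.h (P (nat_lit 0)) (T.h (P (nat_lit 7081154464611636871168)) (T.h (P (nat_lit 0)) (P (nat_lit 19820659190398976))))) (T.h (P (nat_lit 0)) (T.h (T.h (P (nat_lit 0)) (P (nat_lit 11912089370230784))) (P (nat_lit 0))))))) (T.h (T.h (P (nat_lit 0)) (T.h (T.h (M (nat_lit 2367679197508544791314431)) (T.h (P (nat_lit 0)) (T.h (P (nat_lit 16662209236586987520)) (T.h (P (nat_lit 0)) (P (nat_lit 14111840784000)))))) (T.h (P (nat_lit 0)) (T.h (T.h (P (nat_lit 18224543686039961600)) (T.h (P (nat_lit 0)) (M (nat_lit 8843966445503)))) (T.h (P (nat_lit 0)) (M (nat_lit 1410206002847))))))) (T.h (T.h (T.h (P (nat_lit 0)) (T.h (P (nat_lit 7081154464611636871168)) (T.h (P (nat_lit 0)) (P (nat_lit 19820659190398976))))) (T.h (P (nat_lit 0)) (T.h (T.h (P (nat_lit 0)) (P (nat_lit 22001358117797888))) (P (nat_lit 0))))) (T.h (T.h (P (nat_lit 0)) (T.h (T.h (P (nat_lit 18224543686039961600)) (T.h (P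 (nat_lit 0)) (M (nat_lit 8843966445503)))) (T.h (P (nat_lit 0)) (M (nat_lit 4452436307519))))) (T.h (T.h (T.h (P (nat_lit 0)) (P (nat_lit 11912089370230784))) (P (nat_lit 0))) (T.h (T.h (P (nat_lit 0)) (M (nat_lit 1410206002847))) (P (nat_lit 0)))))))), (T.h (T.h (T.h (M (nat_lit 2172631954831739215942938263551)) (T.h (P (nat_lit 0)) (T.h (M (nat_lit 7101092557652367280963583)) (T.h (P (nat_lit 0)) (P (nat_lit 3403652489910681600)))))) (T.h (P (nat_lit 0)) (T.h (T.h (M (nat_lit 3113098526908072926904319)) (T.h (P (nat_lit 0)) (M (nat_lit 11923797260938248191)))) (T.h (P (nat_lit 0)) (M (nat_lit 3128846296169840639)))))) (T.h (T.h (P (nat_lit 0)) (T.h (T.h (P (nat_lit 0)) (T.h (M (nat_lit 6096585033635921395711)) (T.h (P (nat_lit 0)) (M (nat_lit 19267366617087999))))) (T.h (P (nat_lit 0)) (T.h (T.h (P (nat_lit 0)) (P (nat_lit 6037481093464064))) (P (nat_lit 0)))))) (T.h (T.h (T.h (M (nat_lit 3113098526908072926904319)) (T.h (P (nat_lit 0)) (M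 (nat_lit 11923797260938248191)))) (T.h (P (nat_lit 0)) (M (nat_lit 5441742847361417215)))) (T.h (T.h (P (nat_lit 0)) (T.h (T.h (P (nat_lit 0)) (P (nat_lit 6037481093464064))) (P (nat_lit 0)))) (M (nat_lit 3128846296169840639)))))), (P (nat_lit 0)), (P (nat_lit 0)), (T.h (T.h (P (nat_lit 0)) (T.h (T.h (P (nat_lit 0)) (T.h (P (nat_lit 8967851728135020949274624)) (T.h (P (nat_lit 0)) (T.h (P (nat_lit 5808715515924840448)) (T.h (P (nat_lit 0)) (M (nat_lit 6298334266991))))))) (T.h (P (nat_lit 0)) (T.h (T.h (P (nat_lit 0)) (T.h (M (nat_lit 1632295132411723775)) (T.h (P (nat_lit 0)) (M (nat_lit 1954457784095))))) (T.h (P (nat_lit 0)) (T.h (T.h (P (nat_lit 0)) (M (nat_lit 1262651453183))) (P (nat_lit 0)))))))) (T.h (T.h (T.h (P (nat_lit 382278186225956246805020672)) (T.h (P (nat_lit 0)) (T.h (M (nat_lit 6393028105238678077439)) (T.h (P (nat_lit 0)) (P (nat_lit 10182874572193792)))))) (T.h (P (nat_lit 0)) (T.h (T.h (P (nat_lit 4917025952193526628352))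 (T.h (P (nat_lit 0)) (P (nat_lit 17704818290655232)))) (T.h (P (nat_lit 0)) (P (nat_lit 566836548272128)))))) (T.h (T.h (P (nat_lit 0)) (T.h (T.h (P (nat_lit 0)) (T.h (P (nat_lit 21437333873006477312)) (T.h (P (nat_lit 0)) (M (nat_lit 14649144822207))))) (T.h (P (nat_lit 0)) (T.h (T.h (P (nat_lit 0)) (P (nat_lit 7808644584816))) (P (nat_lit 0)))))) (T.h (T.h (T.h (M (nat_lit 2314989451720488124415)) (T.h (P (nat_lit 0)) (M (nat_lit 20917731012706303)))) (T.h (P (nat_lit 0)) (P (nat_lit 13535529003122688)))) (T.h (T.h (P (nat_lit 0)) (T.h (T.h (P (nat_lit 0)) (P (nat_lit 9389964963200))) (P (nat_lit 0)))) (M (nat_lit 1940894262886399)))))))]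
def lP11_15 : List (T ℤ) := [(T.h (T.h (P (nat_lit 0)) (T.h (T.h (P (nat_lit 485651212811086475852513280)) (T.h (P (nat_lit 0)) (T.h (M (nat_lit 47841372592584299380735)) (T.h (P (nat_lit 0)) (P (nat_lit 26959970316943360)))))) (T.h (P (nat_lit 0)) (T.h (T.h (M (nat_lit 5714166192908208701439)) (T.h (P (nat_lit 0)) (M (nat_lit 6269596438265855)))) (T.h (P (nat_lit 0)) (M (nat_lit 6752635111702527))))))) (T.h (T.h (T.h (P (nat_lit 0)) (T.h (P (nat_lit 28103389209149550503133184)) (T.h (P (nat_lit 0)) (T.h (P (nat_lit 22841197399336026112)) (T.h (P (nat_lit 0)) (M (nat_lit 26232607252823))))))) (T.h (P (nat_lit 0)) (T.h (T.h (P (nat_lit 0)) (T.h (M (nat_lit 46755508501555970047)) (T.h (P (nat_lit 0)) (P (nat_lit 2992585843392))))) (T.h (P (nat_lit 0)) (T.h (T.h (P (nat_lit 0)) (M (nat_lit 10659207937431))) (P (nat_lit 0))))))) (T.h (T.h (P (nat_lit 0)) (T.h (T.h (M (nat_lit 13720754705523942621183)) (T.h (P (nat_lit 0)) (P (nat_lit 48593063187546112))))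 (T.h (P (nat_lit 0)) (M (nat_lit 32749874407112703))))) (T.h (T.h (T.h (P (nat_lit 0)) (T.h (P (nat_lit 36020199626832347136)) (T.h (P (nat_lit 0)) (P (nat_lit 30282302885432))))) (T.h (P (nat_lit 0)) (T.h (T.h (P (nat_lit 0)) (M (nat_lit 35283134200615))) (P (nat_lit 0))))) (T.h (T.h (P (nat_lit 0)) (P (nat_lit 4266103463411712))) (T.h (T.h (T.h (P (nat_lit 0)) (M (nat_lit 14764031900079))) (P (nat_lit 0))) (P (nat_lit 0)))))))), (T.h (T.h (P (nat_lit 0)) (T.h (T.h (P (nat_lit 0)) (T.h (P (nat_lit 11799924226416691745128448)) (T.h (P (nat_lit 0)) (T.h (M (nat_lit 13066312361172795391)) (T.h (P (nat_lit 0)) (P (nat_lit 11861041236576))))))) (T.h (P (nat_lit 0)) (T.h (T.h (P (nat_lit 0)) (T.h (P (nat_lit 24992502955122884608)) (T.h (P (nat_lit 0)) (P (nat_lit 4308734371088))))) (T.h (P (nat_lit 0)) (T.h (T.h (P (nat_lit 0)) (P (nat_lit 3040955945440))) (P (nat_lit 0)))))))) (T.h (T.h (T.h (M (nat_lit 832454746821739008015466495)) (T.h (P (nat_lit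 0)) (T.h (M (nat_lit 32130929532941937672191)) (T.h (P (nat_lit 0)) (P (nat_lit 5910113848442880)))))) (T.h (P (nat_lit 0)) (T.h (T.h (M (nat_lit 4047631849667556278271)) (T.h (P (nat_lit 0)) (P (nat_lit 703405565444096)))) (T.h (P (nat_lit 0)) (M (nat_lit 6980540568846335)))))) (T.h (T.h (P (nat_lit 0)) (T.h (T.h (P (nat_lit 0)) (T.h (P (nat_lit 22920260165497257984)) (T.h (P (nat_lit 0)) (P (nat_lit 19135086581520))))) (T.h (P (nat_lit 0)) (T.h (T.h (P (nat_lit 0)) (M (nat_lit 4081026789279))) (P (nat_lit 0)))))) (T.h (T.h (T.h (P (nat_lit 2581207630647769694208)) (T.h (P (nat_lit 0)) (P (nat_lit 21537784946409472)))) (T.h (P (nat_lit 0)) (M (nat_lit 25091771215478783)))) (T.h (T.h (P (nat_lit 0)) (T.h (T.h (P (nat_lit 0)) (M (nat_lit 6622509720623))) (P (nat_lit 0)))) (P (nat_lit 3821690648035328))))))), (T.h (T.h (P (nat_lit 0)) (T.h (T.h (P (nat_lit 5365436076063364494613544960)) (T.h (P (nat_lit 0)) (T.h (P (nat_lit 16692309233254172459008))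 (T.h (P (nat_lit 0)) (M (nat_lit 24295617010860031)))))) (T.h (P (nat_lit 0)) (T.h (T.h (M (nat_lit 2829647422335983026175)) (T.h (P (nat_lit 0)) (P (nat_lit 17366088078819328)))) (T.h (P (nat_lit 0)) (P (nat_lit 8555427069952000))))))) (T.h (T.h (T.h (P (nat_lit 0)) (T.h (M (nat_lit 13089024482181258328145919)) (T.h (P (nat_lit 0)) (T.h (M (nat_lit 36766634793414688767)) (T.h (P (nat_lit 0)) (M (nat_lit 1283713304399))))))) (T.h (P (nat_lit 0)) (T.h (T.h (P (nat_lit 0)) (T.h (P (nat_lit 25093469970943180800)) (T.h (P (nat_lit 0)) (P (nat_lit 13661142254976))))) (T.h (P (nat_lit 0)) (T.h (T.h (P (nat_lit 0)) (M (nat_lit 4085685683903))) (P (nat_lit 0))))))) (T.h (T.h (P (nat_lit 0)) (T.h (T.h (M (nat_lit 23003241910279304380415)) (T.h (P (nat_lit 0)) (P (nat_lit 26953724719824896)))) (T.h (P (nat_lit 0)) (P (nat_lit 6090253865844736))))) (T.h (T.h (T.h (P (nat_lit 0)) (T.h (M (nat_lit 32647441060556963839)) (T.h (P (nat_lit 0)) (P (nat_lit 2377596206784)))))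 (T.h (P (nat_lit 0)) (T.h (T.h (P (nat_lit 0)) (P (nat_lit 3390121286400))) (P (nat_lit 0))))) (T.h (T.h (P (nat_lit 0)) (M (nat_lit 4868192976011263))) (T.h (T.h (T.h (P (nat_lit 0)) (P (nat_lit 4237866999168))) (P (nat_lit 0))) (P (nat_lit 0)))))))), (T.h (T.h (P (nat_lit 0)) (T.h (T.h (P (nat_lit 0)) (T.h (M (nat_lit 18381355421258832978903039)) (T.h (P (nat_lit 0)) (P (nat_lit 7114211940729094144))))) (T.h (P (nat_lit 0)) (T.h (T.h (P (nat_lit 0)) (M (nat_lit 23203781688285986815))) (P (nat_lit 0)))))) (T.h (T.h (T.h (P (nat_lit 2547540643335990035118817280)) (T.h (P (nat_lit 0)) (T.h (P (nat_lit 34455666698401404157952)) (T.h (P (nat_lit 0)) (M (nat_lit 2625970948095999)))))) (T.h (P (nat_lit 0)) (T.h (T.h (M (nat_lit 19946718446392155570175)) (T.h (P (nat_lit 0)) (M (nat_lit 4932788028899327)))) (T.h (P (nat_lit 0)) (P (nat_lit 3801332291633152)))))) (T.h (T.h (P (nat_lit 0)) (T.h (T.h (P (nat_lit 0)) (M (nat_lit 36613268445365010431)))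 (P (nat_lit 0)))) (T.h (T.h (T.h (P (nat_lit 392783585823669878784)) (T.h (P (nat_lit 0)) (P (nat_lit 584082030985216)))) (T.h (P (nat_lit 0)) (P (nat_lit 3402133379809280)))) (T.h (P (nat_lit 0)) (M (nat_lit 965174953410559))))))), (P (nat_lit 0)), (P (nat_lit 0)), (T.h (T.h (T.h (P (nat_lit 4725963943877363446462631903232)) (T.h (P (nat_lit 0)) (T.h (P (nat_lit 5614904754929497452576768)) (T.h (P (nat_lit 0)) (T.h (P (nat_lit 2947200881642176512)) (T.h (P (nat_lit 0)) (P (nat_lit 3763367250240)))))))) (T.h (P (nat_lit 0)) (T.h (T.h (M (nat_lit 4525859893507873321254911)) (T.h (P (nat_lit 0)) (T.h (P (nat_lit 41585227620505616384)) (T.h (P (nat_lit 0)) (M (nat_lit 17188398890863)))))) (T.h (P (nat_lit 0)) (T.h (T.h (P (nat_lit 4356681048105418752)) (T.h (P (nat_lit 0)) (M (nat_lit 12568657270559)))) (T.h (P (nat_lit 0)) (P (nat_lit 943651346112)))))))) (T.h (T.h (P (nat_lit 0)) (T.h (T.h (P (nat_lit 0)) (T.h (M (nat_lit 100712418235580822847487))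 (T.h (P (nat_lit 0)) (P (nat_lit 81576138741383168))))) (T.h (P (nat_lit 0)) (T.h (T.h (P (nat_lit 0)) (M (nat_lit 83660640094126079))) (P (nat_lit 0)))))) (T.h (T.h (T.h (M (nat_lit 4525859893507873321254911)) (T.h (P (nat_lit 0)) (T.h (P (nat_lit 41585227620505616384)) (T.h (P (nat_lit 0)) (M (nat_lit 17188398890863)))))) (T.h (P (nat_lit 0)) (T.h (T.h (M (nat_lit 11718930932718108671)) (T.h (P (nat_lit 0)) (M (nat_lit 5601216724607)))) (T.h (P (nat_lit 0)) (P (nat_lit 6703955430736)))))) (T.h (T.h (P (nat_lit 0)) (T.h (T.h (P (nat_lit 0)) (M (nat_lit 83660640094126079))) (P (nat_lit 0)))) (T.h (T.h (T.h (P (nat_lit 4356681048105418752)) (T.h (P (nat_lit 0)) (M (nat_lit 12568657270559)))) (T.h (P (nat_lit 0)) (P (nat_lit 6703955430736)))) (T.h (P (nat_lit 0)) (P (nat_lit 943651346112)))))))), (T.h (T.h (T.h (P (nat_lit 0)) (T.h (M (nat_lit 17945310140263648500847214591)) (T.h (P (nat_lit 0)) (T.h (P (nat_lit 62414332190549178580992)) (T.h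 (P (nat_lit 0)) (M (nat_lit 23035914709499903))))))) (T.h (P (nat_lit 0)) (T.h (T.h (P (nat_lit 0)) (T.h (P (nat_lit 60669860299830984704)) (T.h (P (nat_lit 0)) (M (nat_lit 101349532107309055))))) (T.h (P (nat_lit 0)) (T.h (T.h (P (nat_lit 0)) (M (nat_lit 464363322310655))) (P (nat_lit 0))))))) (T.h (T.h (P (nat_lit 0)) (T.h (T.h (P (nat_lit 113671732526542678644490240)) (T.h (P (nat_lit 0)) (T.h (M (nat_lit 77247248945085677567)) (T.h (P (nat_lit 0)) (M (nat_lit 90464097072943)))))) (T.h (P (nat_lit 0)) (T.h (T.h (P (nat_lit 63239819769151488000)) (T.h (P (nat_lit 0)) (M (nat_lit 1468415416495)))) (T.h (P (nat_lit 0)) (M (nat_lit 13012849848431))))))) (T.h (T.h (T.h (P (nat_lit 0)) (T.h (P (nat_lit 60669860299830984704)) (T.h (P (nat_lit 0)) (M (nat_lit 101349532107309055))))) (T.h (P (nat_lit 0)) (T.h (T.h (P (nat_lit 0)) (P (nat_lit 338852635511685120))) (P (nat_lit 0))))) (T.h (T.h (P (nat_lit 0)) (T.h (T.h (P (nat_lit 63239819769151488000))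 (T.h (P (nat_lit 0)) (M (nat_lit 1468415416495)))) (T.h (P (nat_lit 0)) (M (nat_lit 11131694030239))))) (T.h (T.h (T.h (P (nat_lit 0)) (M (nat_lit 464363322310655))) (P (nat_lit 0))) (T.h (T.h (P (nat_lit 0)) (M (nat_lit 13012849848431))) (P (nat_lit 0))))))))]
def lP11_16 : List (T ℤ) := [(T.h (T.h (T.h (P (nat_lit 17094486006638023269611089166336)) (T.h (P (nat_lit 0)) (T.h (M (nat_lit 20148846845481936800972799)) (T.h (P (nat_lit 0)) (T.h (P (nat_lit 5801966178695905280)) (T.h (P (nat_lit 0)) (M (nat_lit 17014264673503)))))))) (T.h (P (nat_lit 0)) (T.h (T.h (M (nat_lit 1076378879282812192555007)) (T.h (P (nat_lit 0)) (T.h (M (nat_lit 41828168617177382911)) (T.h (P (nat_lit 0)) (P (nat_lit 21125091832432)))))) (T.h (P (nat_lit 0)) (T.h (T.h (P (nat_lit 10528504190248943616)) (T.h (P (nat_lit 0)) (P (nat_lit 21021497637056)))) (T.h (P (nat_lit 0)) (M (nat_lit 6581222486943)))))))) (T.h (T.h (P (nat_lit 0)) (T.h (T.h (P (nat_lit 0)) (T.h (M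 (nat_lit 11089826955933368975359)) (T.h (P (nat_lit 0)) (M (nat_lit 102674919869054975))))) (T.h (P (nat_lit 0)) (T.h (T.h (P (nat_lit 0)) (P (nat_lit 108232000471072768))) (P (nat_lit 0)))))) (T.h (T.h (T.h (M (nat_lit 1076378879282812192555007)) (T.h (P (nat_lit 0)) (T.h (M (nat_lit 41828168617177382911)) (T.h (P (nat_lit 0)) (P (nat_lit 21125091832432)))))) (T.h (P (nat_lit 0)) (T.h (T.h (P (nat_lit 71326636137915613184)) (T.h (P (nat_lit 0)) (P (nat_lit 28555142539168)))) (T.h (P (nat_lit 0)) (P (nat_lit 8634115920752)))))) (T.h (T.h (P (nat_lit 0)) (T.h (T.h (P (nat_lit 0)) (P (nat_lit 108232000471072768))) (P (nat_lit 0)))) (T.h (T.h (T.h (P (nat_lit 10528504190248943616)) (T.h (P (nat_lit 0)) (P (nat_lit 21021497637056)))) (T.h (P (nat_lit 0)) (P (nat_lit 8634115920752)))) (T.h (P (nat_lit 0)) (M (nat_lit 6581222486943)))))))), (T.h (T.h (T.h (P (nat_lit 0)) (T.h (P (nat_lit 10151457375120829801050406912)) (T.h (P (nat_lit 0)) (T.h (M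 (nat_lit 9951277444890112294911)) (T.h (P (nat_lit 0)) (P (nat_lit 31456766477205504))))))) (T.h (P (nat_lit 0)) (T.h (T.h (P (nat_lit 0)) (T.h (P (nat_lit 49880736148396504514560)) (T.h (P (nat_lit 0)) (M (nat_lit 39655675760672767))))) (T.h (P (nat_lit 0)) (T.h (T.h (P (nat_lit 0)) (P (nat_lit 13571617115504640))) (P (nat_lit 0))))))) (T.h (T.h (P (nat_lit 0)) (T.h (T.h (M (nat_lit 30377277963035151395979263)) (T.h (P (nat_lit 0)) (T.h (P (nat_lit 7931507969781399552)) (T.h (P (nat_lit 0)) (M (nat_lit 6601572332735)))))) (T.h (P (nat_lit 0)) (T.h (T.h (M (nat_lit 14901091413981659135)) (T.h (P (nat_lit 0)) (P (nat_lit 9810825649872)))) (T.h (P (nat_lit 0)) (M (nat_lit 15480570450239))))))) (T.h (T.h (T.h (P (nat_lit 0)) (T.h (P (nat_lit 49880736148396504514560)) (T.h (P (nat_lit 0)) (M (nat_lit 39655675760672767))))) (T.h (P (nat_lit 0)) (T.h (T.h (P (nat_lit 0)) (M (nat_lit 49824041615884287))) (P (nat_lit 0))))) (T.h (T.h (P (nat_lit 0))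 (T.h (T.h (M (nat_lit 14901091413981659135)) (T.h (P (nat_lit 0)) (P (nat_lit 9810825649872)))) (T.h (P (nat_lit 0)) (P (nat_lit 29895976483296))))) (T.h (T.h (T.h (P (nat_lit 0)) (P (nat_lit 13571617115504640))) (P (nat_lit 0))) (T.h (T.h (P (nat_lit 0)) (M (nat_lit 15480570450239))) (P (nat_lit 0)))))))), (T.h (T.h (T.h (M (nat_lit 1696039962384953678185650716671)) (T.h (P (nat_lit 0)) (T.h (P (nat_lit 6876082958716744975253504)) (T.h (P (nat_lit 0)) (M (nat_lit 7025894866450120703)))))) (T.h (P (nat_lit 0)) (T.h (T.h (P (nat_lit 4038589180326032906911744)) (T.h (P (nat_lit 0)) (M (nat_lit 23211147316412022783)))) (T.h (P (nat_lit 0)) (M (nat_lit 19812913157190451199)))))) (T.h (T.h (P (nat_lit 0)) (T.h (T.h (P (nat_lit 0)) (T.h (P (nat_lit 83458043820414651596800)) (T.h (P (nat_lit 0)) (M (nat_lit 9638666133831679))))) (T.h (P (nat_lit 0)) (T.h (T.h (P (nat_lit 0)) (M (nat_lit 3433523588071423))) (P (nat_lit 0)))))) (T.h (T.h (T.h (P (nat_lit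 4038589180326032906911744)) (T.h (P (nat_lit 0)) (M (nat_lit 23211147316412022783)))) (T.h (P (nat_lit 0)) (P (nat_lit 7895580509026123776)))) (T.h (T.h (P (nat_lit 0)) (T.h (T.h (P (nat_lit 0)) (M (nat_lit 3433523588071423))) (P (nat_lit 0)))) (M (nat_lit 19812913157190451199)))))), (P (nat_lit 0)), (T.h (T.h (P (nat_lit 0)) (T.h (T.h (P (nat_lit 0)) (T.h (P (nat_lit 7184268505594158490058752)) (T.h (P (nat_lit 0)) (T.h (M (nat_lit 2601156957620404223)) (T.h (P (nat_lit 0)) (M (nat_lit 1986251696879))))))) (T.h (P (nat_lit 0)) (T.h (T.h (P (nat_lit 0)) (T.h (P (nat_lit 4839853690716160000)) (T.h (P (nat_lit 0)) (M (nat_lit 848450859647))))) (T.h (P (nat_lit 0)) (T.h (T.h (P (nat_lit 0)) (M (nat_lit 7021934510687))) (P (nat_lit 0)))))))) (T.h (T.h (T.h (P (nat_lit 675022628226457307761868800)) (T.h (P (nat_lit 0)) (T.h (P (nat_lit 4845535910664693874688)) (T.h (P (nat_lit 0)) (M (nat_lit 6998572935544831)))))) (T.h (P (nat_lit 0)) (T.h (T.h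 (M (nat_lit 6464518146767510831103)) (T.h (P (nat_lit 0)) (P (nat_lit 10386649831112704)))) (T.h (P (nat_lit 0)) (P (nat_lit 2617465088376832)))))) (T.h (T.h (P (nat_lit 0)) (T.h (T.h (P (nat_lit 0)) (T.h (P (nat_lit 11749434630120407040)) (T.h (P (nat_lit 0)) (P (nat_lit 13941406177392))))) (T.h (P (nat_lit 0)) (T.h (T.h (P (nat_lit 0)) (M (nat_lit 8516383229631))) (P (nat_lit 0)))))) (T.h (T.h (T.h (M (nat_lit 1736314362163560972287)) (T.h (P (nat_lit 0)) (P (nat_lit 13327066108461056)))) (T.h (P (nat_lit 0)) (M (nat_lit 21126193907367935)))) (T.h (T.h (P (nat_lit 0)) (T.h (T.h (P (nat_lit 0)) (P (nat_lit 27667501415936))) (P (nat_lit 0)))) (M (nat_lit 3289390770683903))))))), (T.h (T.h (P (nat_lit 0)) (T.h (T.h (M (nat_lit 5740505652863568559692840959)) (T.h (P (nat_lit 0)) (T.h (P (nat_lit 135088971692739877928960)) (T.h (P (nat_lit 0)) (P (nat_lit 42855415369302016)))))) (T.h (P (nat_lit 0)) (T.h (T.h (P (nat_lit 13722124758584802672640))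 (T.h (P (nat_lit 0)) (M (nat_lit 61048963772252159)))) (T.h (P (nat_lit 0)) (P (nat_lit 35026072501878784))))))) (T.h (T.h (T.h (P (nat_lit 0)) (T.h (M (nat_lit 84066929688755048797962239)) (T.h (P (nat_lit 0)) (T.h (M (nat_lit 94871250259186548735)) (T.h (P (nat_lit 0)) (M (nat_lit 807026724663))))))) (T.h (P (nat_lit 0)) (T.h (T.h (P (nat_lit 0)) (T.h (M (nat_lit 74571478095464759295)) (T.h (P (nat_lit 0)) (M (nat_lit 34423184521223))))) (T.h (P (nat_lit 0)) (T.h (T.h (P (nat_lit 0)) (M (nat_lit 8234108884807))) (P (nat_lit 0))))))) (T.h (T.h (P (nat_lit 0)) (T.h (T.h (M (nat_lit 70443364357273297092607)) (T.h (P (nat_lit 0)) (M (nat_lit 191526525544267775)))) (T.h (P (nat_lit 0)) (P (nat_lit 70262232530386944))))) (T.h (T.h (T.h (P (nat_lit 0)) (T.h (P (nat_lit 156187702513071292416)) (T.h (P (nat_lit 0)) (P (nat_lit 4688126309776))))) (T.h (P (nat_lit 0)) (T.h (T.h (P (nat_lit 0)) (M (nat_lit 34727966347239))) (P (nat_lit 0))))) (T.h (T.h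 (P (nat_lit 0)) (M (nat_lit 45857594310426623))) (T.h (T.h (T.h (P (nat_lit 0)) (P (nat_lit 8863310328040))) (P (nat_lit 0))) (P (nat_lit 0)))))))), (T.h (T.h (P (nat_lit 0)) (T.h (T.h (P (nat_lit 0)) (T.h (M (nat_lit 35141102086828376018911231)) (T.h (P (nat_lit 0)) (T.h (M (nat_lit 2909828443430453247)) (T.h (P (nat_lit 0)) (P (nat_lit 13234316602864))))))) (T.h (P (nat_lit 0)) (T.h (T.h (P (nat_lit 0)) (T.h (M (nat_lit 38571660381763141631)) (T.h (P (nat_lit 0)) (P (nat_lit 31506594755440))))) (T.h (P (nat_lit 0)) (T.h (T.h (P (nat_lit 0)) (P (nat_lit 3422371587152))) (P (nat_lit 0)))))))) (T.h (T.h (T.h (P (nat_lit 2044603438598660144330964992)) (T.h (P (nat_lit 0)) (T.h (M (nat_lit 45546875889984468942847)) (T.h (P (nat_lit 0)) (M (nat_lit 1676071592312831)))))) (T.h (P (nat_lit 0)) (T.h (T.h (M (nat_lit 73152441692684927631359)) (T.h (P (nat_lit 0)) (M (nat_lit 45794015764905983)))) (T.h (P (nat_lit 0)) (M (nat_lit 32437737833037823))))))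 (T.h (T.h (P (nat_lit 0)) (T.h (T.h (P (nat_lit 0)) (T.h (P (nat_lit 44100721235759988736)) (T.h (P (nat_lit 0)) (M (nat_lit 34191637143327))))) (T.h (P (nat_lit 0)) (T.h (T.h (P (nat_lit 0)) (M (nat_lit 43238637266271))) (P (nat_lit 0)))))) (T.h (T.h (T.h (P (nat_lit 27293918296730966687744)) (T.h (P (nat_lit 0)) (P (nat_lit 29961264934567936)))) (T.h (P (nat_lit 0)) (M (nat_lit 9506042827390975)))) (T.h (T.h (P (nat_lit 0)) (T.h (T.h (P (nat_lit 0)) (M (nat_lit 122270494269615))) (P (nat_lit 0)))) (M (nat_lit 448300185337855))))))), (T.h (T.h (P (nat_lit 0)) (T.h (T.h (M (nat_lit 22103747269811347225678184447)) (T.h (P (nat_lit 0)) (T.h (M (nat_lit 22900413350841088475135)) (T.h (P (nat_lit 0)) (M (nat_lit 77230784205979647)))))) (T.h (P (nat_lit 0)) (T.h (T.h (M (nat_lit 10737789727595630166015)) (T.h (P (nat_lit 0)) (M (nat_lit 20850077718872063)))) (T.h (P (nat_lit 0)) (M (nat_lit 10467174818709503))))))) (T.h (T.h (T.h (P (nat_lit 0))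 (T.h (P (nat_lit 26500495132438401082458112)) (T.h (P (nat_lit 0)) (T.h (P (nat_lit 128417446864883810304)) (T.h (P (nat_lit 0)) (P (nat_lit 35846040847008))))))) (T.h (P (nat_lit 0)) (T.h (T.h (P (nat_lit 0)) (T.h (M (nat_lit 194145112093039263743)) (T.h (P (nat_lit 0)) (P (nat_lit 1522815780144))))) (T.h (P (nat_lit 0)) (T.h (T.h (P (nat_lit 0)) (M (nat_lit 46674816420047))) (P (nat_lit 0))))))) (T.h (T.h (P (nat_lit 0)) (T.h (T.h (M (nat_lit 11104078704156566618111)) (T.h (P (nat_lit 0)) (M (nat_lit 7829432130568191)))) (T.h (P (nat_lit 0)) (P (nat_lit 17442829815119872))))) (T.h (T.h (T.h (P (nat_lit 0)) (T.h (M (nat_lit 110631618007638474751)) (T.h (P (nat_lit 0)) (M (nat_lit 27454079460623))))) (T.h (P (nat_lit 0)) (T.h (T.h (P (nat_lit 0)) (P (nat_lit 285224950080))) (P (nat_lit 0))))) (T.h (T.h (P (nat_lit 0)) (P (nat_lit 73608370696355840))) (T.h (T.h (T.h (P (nat_lit 0)) (P (nat_lit 35347017257280))) (P (nat_lit 0))) (P (nat_lit 0))))))))]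
def lP11_17 : List (T ℤ) := [(T.h (T.h (P (nat_lit 0)) (T.h (T.h (P (nat_lit 0)) (T.h (M (nat_lit 16377306634978973055975423)) (T.h (P (nat_lit 0)) (P (nat_lit 94872395999829032960))))) (T.h (P (nat_lit 0)) (T.h (T.h (P (nat_lit 0)) (M (nat_lit 94824523234900180991))) (P (nat_lit 0)))))) (T.h (T.h (T.h (M (nat_lit 2966186908321285952851935231)) (T.h (P (nat_lit 0)) (T.h (P (nat_lit 35537384737640326103040)) (T.h (P (nat_lit 0)) (M (nat_lit 71753149753163775)))))) (T.h (P (nat_lit 0)) (T.h (T.h (P (nat_lit 9616740369625253937152)) (T.h (P (nat_lit 0)) (M (nat_lit 55653943023239167)))) (T.h (P (nat_lit 0)) (P (nat_lit 50821383761641472)))))) (T.h (T.h (P (nat_lit 0)) (T.h (T.h (P (nat_lit 0)) (M (nat_lit 61976402703186657279))) (P (nat_lit 0)))) (T.h (T.h (T.h (M (nat_lit 11775693116598195847167)) (T.h (P (nat_lit 0)) (P (nat_lit 20023216806592512)))) (T.h (P (nat_lit 0)) (M (nat_lit 13771757658144767)))) (T.h (P (nat_lit 0)) (P (nat_lit 4586815369150464))))))),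 (T.h (T.h (T.h (P (nat_lit 2234861071386015486096483287040)) (T.h (P (nat_lit 0)) (T.h (M (nat_lit 7708168516762077199597567)) (T.h (P (nat_lit 0)) (T.h (M (nat_lit 274983503278374911)) (T.h (P (nat_lit 0)) (P (nat_lit 442542226560)))))))) (T.h (P (nat_lit 0)) (T.h (T.h (P (nat_lit 3051797688256327059505152)) (T.h (P (nat_lit 0)) (T.h (M (nat_lit 7796718564454432767)) (T.h (P (nat_lit 0)) (P (nat_lit 8369762580992)))))) (T.h (P (nat_lit 0)) (T.h (T.h (P (nat_lit 2096545058307178496)) (T.h (P (nat_lit 0)) (P (nat_lit 5028296010656)))) (T.h (P (nat_lit 0)) (M (nat_lit 581504258111)))))))) (T.h (T.h (P (nat_lit 0)) (T.h (T.h (P (nat_lit 0)) (T.h (M (nat_lit 52336254976759705894911)) (T.h (P (nat_lit 0)) (M (nat_lit 121581743433187327))))) (T.h (P (nat_lit 0)) (T.h (T.h (P (nat_lit 0)) (P (nat_lit 44583115770822656))) (P (nat_lit 0)))))) (T.h (T.h (T.h (P (nat_lit 2432596131675293574234112)) (T.h (P (nat_lit 0)) (T.h (M (nat_lit 7565961573420761087))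 (T.h (P (nat_lit 0)) (P (nat_lit 6846553600992)))))) (T.h (P (nat_lit 0)) (T.h (T.h (P (nat_lit 45507439988769292288)) (T.h (P (nat_lit 0)) (P (nat_lit 1638349355456)))) (T.h (P (nat_lit 0)) (M (nat_lit 14244316690639)))))) (T.h (T.h (P (nat_lit 0)) (T.h (T.h (P (nat_lit 0)) (P (nat_lit 43655035402321920))) (P (nat_lit 0)))) (T.h (T.h (T.h (M (nat_lit 1684463669741617151)) (T.h (P (nat_lit 0)) (P (nat_lit 2226811980688)))) (T.h (P (nat_lit 0)) (M (nat_lit 15522591740607)))) (T.h (P (nat_lit 0)) (P (nat_lit 3262258130688)))))))), (T.h (T.h (T.h (P (nat_lit 0)) (T.h (P (nat_lit 25915314775276063335450148864)) (T.h (P (nat_lit 0)) (T.h (P (nat_lit 37217567933618439847936)) (T.h (P (nat_lit 0)) (P (nat_lit 17476605358931968))))))) (T.h (P (nat_lit 0)) (T.h (T.h (P (nat_lit 0)) (T.h (P (nat_lit 32122294185496053547008)) (T.h (P (nat_lit 0)) (P (nat_lit 32773714036719616))))) (T.h (P (nat_lit 0)) (T.h (T.h (P (nat_lit 0)) (P (nat_lit 113971583758237696)))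 (P (nat_lit 0))))))) (T.h (T.h (P (nat_lit 0)) (T.h (T.h (M (nat_lit 74707748385063182113177599)) (T.h (P (nat_lit 0)) (T.h (P (nat_lit 13655237996218155008)) (T.h (P (nat_lit 0)) (M (nat_lit 10206279154663)))))) (T.h (P (nat_lit 0)) (T.h (T.h (M (nat_lit 107215200032036749311)) (T.h (P (nat_lit 0)) (M (nat_lit 17233012337271)))) (T.h (P (nat_lit 0)) (M (nat_lit 25595088244551))))))) (T.h (T.h (T.h (P (nat_lit 0)) (T.h (P (nat_lit 30035619129775030796288)) (T.h (P (nat_lit 0)) (P (nat_lit 42708329707143168))))) (T.h (P (nat_lit 0)) (T.h (T.h (P (nat_lit 0)) (M (nat_lit 91805828405035007))) (P (nat_lit 0))))) (T.h (T.h (P (nat_lit 0)) (T.h (T.h (P (nat_lit 208488500830169726976)) (T.h (P (nat_lit 0)) (P (nat_lit 13969092811040)))) (T.h (P (nat_lit 0)) (M (nat_lit 29420639605431))))) (T.h (T.h (T.h (P (nat_lit 0)) (M (nat_lit 93606095374286847))) (P (nat_lit 0))) (T.h (T.h (P (nat_lit 0)) (M (nat_lit 735534927183))) (P (nat_lit 0)))))))), (T.h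 (T.h (T.h (P (nat_lit 34469396769798165494452468056064)) (T.h (P (nat_lit 0)) (T.h (P (nat_lit 44519641943507608847515648)) (T.h (P (nat_lit 0)) (T.h (P (nat_lit 47482288048942612480)) (T.h (P (nat_lit 0)) (P (nat_lit 6826623893488)))))))) (T.h (P (nat_lit 0)) (T.h (T.h (P (nat_lit 19934871219881659447902208)) (T.h (P (nat_lit 0)) (T.h (M (nat_lit 58852486921897115647)) (T.h (P (nat_lit 0)) (M (nat_lit 6111706707791)))))) (T.h (P (nat_lit 0)) (T.h (T.h (P (nat_lit 14772470881657552896)) (T.h (P (nat_lit 0)) (P (nat_lit 1773144249968)))) (T.h (P (nat_lit 0)) (P (nat_lit 3093102488336)))))))) (T.h (T.h (P (nat_lit 0)) (T.h (T.h (P (nat_lit 0)) (T.h (M (nat_lit 62416489380685828587519)) (T.h (P (nat_lit 0)) (P (nat_lit 163637327301378048))))) (T.h (P (nat_lit 0)) (T.h (T.h (P (nat_lit 0)) (P (nat_lit 111511163911897088))) (P (nat_lit 0)))))) (T.h (T.h (T.h (P (nat_lit 14422568462454834656706560)) (T.h (P (nat_lit 0)) (T.h (P (nat_lit 33504488882459115520))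 (T.h (P (nat_lit 0)) (M (nat_lit 20438202200751)))))) (T.h (P (nat_lit 0)) (T.h (T.h (P (nat_lit 12706659931722350592)) (T.h (P (nat_lit 0)) (P (nat_lit 2383799509616)))) (T.h (P (nat_lit 0)) (M (nat_lit 52257193634687)))))) (T.h (T.h (P (nat_lit 0)) (T.h (T.h (P (nat_lit 0)) (P (nat_lit 270291920862543872))) (P (nat_lit 0)))) (T.h (T.h (T.h (M (nat_lit 13210808274074468351)) (T.h (P (nat_lit 0)) (M (nat_lit 42536823095647)))) (T.h (P (nat_lit 0)) (M (nat_lit 44475936872303)))) (T.h (P (nat_lit 0)) (P (nat_lit 9792623269744)))))))), (T.h (T.h (T.h (P (nat_lit 0)) (T.h (P (nat_lit 18529432507910414292886749184)) (T.h (P (nat_lit 0)) (T.h (M (nat_lit 23497555097726815830015)) (T.h (P (nat_lit 0)) (M (nat_lit 15087081316876287))))))) (T.h (P (nat_lit 0)) (T.h (T.h (P (nat_lit 0)) (T.h (M (nat_lit 43982881278496188923903)) (T.h (P (nat_lit 0)) (M (nat_lit 21776831697780735))))) (T.h (P (nat_lit 0)) (T.h (T.h (P (nat_lit 0)) (M (nat_lit 16801593346162687)))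 (P (nat_lit 0))))))) (T.h (T.h (P (nat_lit 0)) (T.h (T.h (P (nat_lit 15634930968812011095326720)) (T.h (P (nat_lit 0)) (T.h (P (nat_lit 204070318076118171648)) (T.h (P (nat_lit 0)) (P (nat_lit 3168478249392)))))) (T.h (P (nat_lit 0)) (T.h (T.h (M (nat_lit 40455026207279284223)) (T.h (P (nat_lit 0)) (P (nat_lit 42283604431488)))) (T.h (P (nat_lit 0)) (M (nat_lit 17687626344095))))))) (T.h (T.h (T.h (P (nat_lit 0)) (T.h (M (nat_lit 15669734238933647097855)) (T.h (P (nat_lit 0)) (P (nat_lit 6429248133234688))))) (T.h (P (nat_lit 0)) (T.h (T.h (P (nat_lit 0)) (P (nat_lit 43462957736230912))) (P (nat_lit 0))))) (T.h (T.h (P (nat_lit 0)) (T.h (T.h (M (nat_lit 64727913200095330303)) (T.h (P (nat_lit 0)) (P (nat_lit 20437287337344)))) (T.h (P (nat_lit 0)) (P (nat_lit 2312718109872))))) (T.h (T.h (T.h (P (nat_lit 0)) (P (nat_lit 7531921577934848))) (P (nat_lit 0))) (T.h (T.h (P (nat_lit 0)) (P (nat_lit 10661404066896))) (P (nat_lit 0)))))))), (T.h (T.h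 (T.h (M (nat_lit 2158715027469926782626691022847)) (T.h (P (nat_lit 0)) (T.h (P (nat_lit 3305967084846956888981504)) (T.h (P (nat_lit 0)) (P (nat_lit 41067633087189352448)))))) (T.h (P (nat_lit 0)) (T.h (T.h (P (nat_lit 18460261466987417481248768)) (T.h (P (nat_lit 0)) (M (nat_lit 8048539277899857919)))) (T.h (P (nat_lit 0)) (P (nat_lit 28045583246059110400)))))) (T.h (T.h (P (nat_lit 0)) (T.h (T.h (P (nat_lit 0)) (T.h (P (nat_lit 71991074787313208786944)) (T.h (P (nat_lit 0)) (M (nat_lit 1644384781697023))))) (T.h (P (nat_lit 0)) (T.h (T.h (P (nat_lit 0)) (P (nat_lit 24513404691382272))) (P (nat_lit 0)))))) (T.h (T.h (T.h (P (nat_lit 33337618639729065522626560)) (T.h (P (nat_lit 0)) (P (nat_lit 24234172217068355584)))) (T.h (P (nat_lit 0)) (M (nat_lit 50230513080956092415)))) (T.h (T.h (P (nat_lit 0)) (T.h (T.h (P (nat_lit 0)) (M (nat_lit 19092983665393663))) (P (nat_lit 0)))) (P (nat_lit 47976782058848518144)))))), (T.h (T.h (P (nat_lit 0))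 (T.h (T.h (M (nat_lit 9310831352475421986221195263)) (T.h (P (nat_lit 0)) (T.h (M (nat_lit 7423397857446391185407)) (T.h (P (nat_lit 0)) (P (nat_lit 74553129266184192)))))) (T.h (P (nat_lit 0)) (T.h (T.h (P (nat_lit 36551132823750885507072)) (T.h (P (nat_lit 0)) (P (nat_lit 36281672255471616)))) (T.h (P (nat_lit 0)) (M (nat_lit 37352433613930495))))))) (T.h (T.h (T.h (P (nat_lit 0)) (T.h (P (nat_lit 14270375171105064046559232)) (T.h (P (nat_lit 0)) (T.h (P (nat_lit 56438257722171850752)) (T.h (P (nat_lit 0)) (P (nat_lit 17156564310232))))))) (T.h (P (nat_lit 0)) (T.h (T.h (P (nat_lit 0)) (T.h (M (nat_lit 14739896929555054591)) (T.h (P (nat_lit 0)) (M (nat_lit 35792275403143))))) (T.h (P (nat_lit 0)) (T.h (T.h (P (nat_lit 0)) (P (nat_lit 6236726231368))) (P (nat_lit 0))))))) (T.h (T.h (P (nat_lit 0)) (T.h (T.h (M (nat_lit 20498207068890175897599)) (T.h (P (nat_lit 0)) (P (nat_lit 138756879406301184)))) (T.h (P (nat_lit 0)) (P (nat_lit 21931738815692800)))))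 (T.h (T.h (T.h (P (nat_lit 0)) (T.h (M (nat_lit 12859201740003606527)) (T.h (P (nat_lit 0)) (M (nat_lit 28617561087343))))) (T.h (P (nat_lit 0)) (T.h (T.h (P (nat_lit 0)) (M (nat_lit 2126431661767))) (P (nat_lit 0))))) (T.h (T.h (P (nat_lit 0)) (M (nat_lit 55359734370959359))) (T.h (T.h (T.h (P (nat_lit 0)) (M (nat_lit 1040245586055))) (P (nat_lit 0))) (P (nat_lit 0)))))))), (T.h (T.h (P (nat_lit 0)) (T.h (T.h (P (nat_lit 0)) (T.h (P (nat_lit 18160987799552731755053056)) (T.h (P (nat_lit 0)) (T.h (P (nat_lit 21878145842191269888)) (T.h (P (nat_lit 0)) (M (nat_lit 7873739442575))))))) (T.h (P (nat_lit 0)) (T.h (T.h (P (nat_lit 0)) (T.h (P (nat_lit 19481162464228278272)) (T.h (P (nat_lit 0)) (M (nat_lit 7951665789535))))) (T.h (P (nat_lit 0)) (T.h (T.h (P (nat_lit 0)) (P (nat_lit 10758290864272))) (P (nat_lit 0)))))))) (T.h (T.h (T.h (M (nat_lit 17352354535382128834734194687)) (T.h (P (nat_lit 0)) (T.h (M (nat_lit 52379413170725524078591)) (T.h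 (P (nat_lit 0)) (P (nat_lit 15634455428202496)))))) (T.h (P (nat_lit 0)) (T.h (T.h (M (nat_lit 52857145051299446783999)) (T.h (P (nat_lit 0)) (P (nat_lit 67914685012082688)))) (T.h (P (nat_lit 0)) (P (nat_lit 59286776086216704)))))) (T.h (T.h (P (nat_lit 0)) (T.h (T.h (P (nat_lit 0)) (T.h (P (nat_lit 59833041670746669056)) (T.h (P (nat_lit 0)) (M (nat_lit 31703322412495))))) (T.h (P (nat_lit 0)) (T.h (T.h (P (nat_lit 0)) (P (nat_lit 559791081248))) (P (nat_lit 0)))))) (T.h (T.h (T.h (M (nat_lit 36234473777591973052415)) (T.h (P (nat_lit 0)) (M (nat_lit 39686842768982015)))) (T.h (P (nat_lit 0)) (P (nat_lit 46410021154865152)))) (T.h (T.h (P (nat_lit 0)) (T.h (T.h (P (nat_lit 0)) (M (nat_lit 100686740992767))) (P (nat_lit 0)))) (M (nat_lit 11100554411098111)))))))]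
def lP11_18 : List (T ℤ) := [(T.h (T.h (P (nat_lit 0)) (T.h (T.h (P (nat_lit 19788889410555807710641651712)) (T.h (P (nat_lit 0)) (T.h (M (nat_lit 1946987401408860389375)) (T.h (P (nat_lit 0)) (P (nat_lit 33028909204176896)))))) (T.h (P (nat_lit 0)) (T.h (T.h (M (nat_lit 49904929576304448110591)) (T.h (P (nat_lit 0)) (P (nat_lit 2096900104093696)))) (T.h (P (nat_lit 0)) (M (nat_lit 7779731908526079))))))) (T.h (T.h (T.h (P (nat_lit 0)) (T.h (P (nat_lit 12042424443966133777727488)) (T.h (P (nat_lit 0)) (T.h (M (nat_lit 50061516823265804287)) (T.h (P (nat_lit 0)) (M (nat_lit 2357720657615))))))) (T.h (P (nat_lit 0)) (T.h (T.h (P (nat_lit 0)) (T.h (P (nat_lit 117160856552898297856)) (T.h (P (nat_lit 0)) (P (nat_lit 35562937696320))))) (T.h (P (nat_lit 0)) (T.h (T.h (P (nat_lit 0)) (P (nat_lit 50165371254912))) (P (nat_lit 0))))))) (T.h (T.h (P (nat_lit 0)) (T.h (T.h (M (nat_lit 12878553645961046917119)) (T.h (P (nat_lit 0)) (M (nat_lit 2811813019516927))))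 (T.h (P (nat_lit 0)) (P (nat_lit 50383687484407808))))) (T.h (T.h (T.h (P (nat_lit 0)) (T.h (M (nat_lit 89395846613752086527)) (T.h (P (nat_lit 0)) (P (nat_lit 15825708946992))))) (T.h (P (nat_lit 0)) (T.h (T.h (P (nat_lit 0)) (P (nat_lit 44867454238512))) (P (nat_lit 0))))) (T.h (T.h (P (nat_lit 0)) (M (nat_lit 15990749825236991))) (T.h (T.h (T.h (P (nat_lit 0)) (M (nat_lit 8166283547567))) (P (nat_lit 0))) (P (nat_lit 0)))))))), (T.h (T.h (P (nat_lit 0)) (T.h (T.h (P (nat_lit 0)) (T.h (P (nat_lit 26574890608093291826118656)) (T.h (P (nat_lit 0)) (P (nat_lit 35550091513922846720))))) (T.h (P (nat_lit 0)) (T.h (T.h (P (nat_lit 0)) (P (nat_lit 75770150469425430528))) (P (nat_lit 0)))))) (T.h (T.h (T.h (M (nat_lit 16243022313474890036584382463)) (T.h (P (nat_lit 0)) (T.h (M (nat_lit 12631042986953158950911)) (T.h (P (nat_lit 0)) (P (nat_lit 7921545353297920)))))) (T.h (P (nat_lit 0)) (T.h (T.h (P (nat_lit 27668648396956542959616)) (T.h (P (nat_lit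 0)) (M (nat_lit 106632176431267839)))) (T.h (P (nat_lit 0)) (P (nat_lit 18042978245672960)))))) (T.h (T.h (P (nat_lit 0)) (T.h (T.h (P (nat_lit 0)) (M (nat_lit 23191666894703689727))) (P (nat_lit 0)))) (T.h (T.h (T.h (M (nat_lit 63266495506882056159231)) (T.h (P (nat_lit 0)) (M (nat_lit 26921964869435391)))) (T.h (P (nat_lit 0)) (M (nat_lit 21423492554489855)))) (T.h (P (nat_lit 0)) (M (nat_lit 30725900405669887))))))), (T.h (T.h (T.h (P (nat_lit 16254568680746320099254504259584)) (T.h (P (nat_lit 0)) (T.h (M (nat_lit 12685605751155373801209855)) (T.h (P (nat_lit 0)) (T.h (M (nat_lit 19191782102932652031)) (T.h (P (nat_lit 0)) (M (nat_lit 2917104938943)))))))) (T.h (P (nat_lit 0)) (T.h (T.h (M (nat_lit 3958576683485596580052991)) (T.h (P (nat_lit 0)) (T.h (P (nat_lit 30513359163695824896)) (T.h (P (nat_lit 0)) (M (nat_lit 13363464019695)))))) (T.h (P (nat_lit 0)) (T.h (T.h (M (nat_lit 3860090204698181631)) (T.h (P (nat_lit 0)) (M (nat_lit 23439229653839))))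 (T.h (P (nat_lit 0)) (M (nat_lit 2761787860719)))))))) (T.h (T.h (P (nat_lit 0)) (T.h (T.h (P (nat_lit 0)) (T.h (P (nat_lit 3820633353032503918592)) (T.h (P (nat_lit 0)) (P (nat_lit 96424188085338112))))) (T.h (P (nat_lit 0)) (T.h (T.h (P (nat_lit 0)) (M (nat_lit 39378245962792959))) (P (nat_lit 0)))))) (T.h (T.h (T.h (P (nat_lit 17411467729897400389599232)) (T.h (P (nat_lit 0)) (T.h (P (nat_lit 47769169809322803200)) (T.h (P (nat_lit 0)) (M (nat_lit 8473992501295)))))) (T.h (P (nat_lit 0)) (T.h (T.h (M (nat_lit 41045787689923641343)) (T.h (P (nat_lit 0)) (P (nat_lit 3923258565072)))) (T.h (P (nat_lit 0)) (P (nat_lit 30591108230816)))))) (T.h (T.h (P (nat_lit 0)) (T.h (T.h (P (nat_lit 0)) (M (nat_lit 10230405475827711))) (P (nat_lit 0)))) (T.h (T.h (T.h (P (nat_lit 41501314220084428800)) (T.h (P (nat_lit 0)) (P (nat_lit 13624628393600)))) (T.h (P (nat_lit 0)) (P (nat_lit 25000766144816)))) (T.h (P (nat_lit 0)) (M (nat_lit 5883104315199)))))))),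 (T.h (T.h (T.h (P (nat_lit 0)) (T.h (M (nat_lit 20554582978663004213834940415)) (T.h (P (nat_lit 0)) (T.h (M (nat_lit 34999172906064189325311)) (T.h (P (nat_lit 0)) (M (nat_lit 10332781579010047))))))) (T.h (P (nat_lit 0)) (T.h (T.h (P (nat_lit 0)) (T.h (P (nat_lit 5421638563026066997248)) (T.h (P (nat_lit 0)) (P (nat_lit 64360973732315136))))) (T.h (P (nat_lit 0)) (T.h (T.h (P (nat_lit 0)) (M (nat_lit 82991536738959359))) (P (nat_lit 0))))))) (T.h (T.h (P (nat_lit 0)) (T.h (T.h (P (nat_lit 25007603106928841134702592)) (T.h (P (nat_lit 0)) (T.h (M (nat_lit 259926857630206656511)) (T.h (P (nat_lit 0)) (M (nat_lit 462822932063)))))) (T.h (P (nat_lit 0)) (T.h (T.h (P (nat_lit 69827702267230289920)) (T.h (P (nat_lit 0)) (P (nat_lit 8210136746112)))) (T.h (P (nat_lit 0)) (P (nat_lit 54728237009232))))))) (T.h (T.h (T.h (P (nat_lit 0)) (T.h (M (nat_lit 50790724973385429811199)) (T.h (P (nat_lit 0)) (P (nat_lit 63171967222317056))))) (T.h (P (nat_lit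 0)) (T.h (T.h (P (nat_lit 0)) (M (nat_lit 2238457358548991))) (P (nat_lit 0))))) (T.h (T.h (P (nat_lit 0)) (T.h (T.h (M (nat_lit 140829281879618224127)) (T.h (P (nat_lit 0)) (P (nat_lit 18547842041616)))) (T.h (P (nat_lit 0)) (M (nat_lit 26511480658367))))) (T.h (T.h (T.h (P (nat_lit 0)) (P (nat_lit 62941527274127360))) (P (nat_lit 0))) (T.h (T.h (P (nat_lit 0)) (P (nat_lit 31401763312080))) (P (nat_lit 0)))))))), (T.h (T.h (T.h (M (nat_lit 3990930358680729164823654301695)) (T.h (P (nat_lit 0)) (T.h (P (nat_lit 27076531107476770798960640)) (T.h (P (nat_lit 0)) (P (nat_lit 12685585197551321088)))))) (T.h (P (nat_lit 0)) (T.h (T.h (P (nat_lit 21974902872093783693983744)) (T.h (P (nat_lit 0)) (M (nat_lit 17065805797469978623)))) (T.h (P (nat_lit 0)) (P (nat_lit 53121578943446515712)))))) (T.h (T.h (P (nat_lit 0)) (T.h (T.h (P (nat_lit 0)) (T.h (P (nat_lit 118862079073980380086272)) (T.h (P (nat_lit 0)) (M (nat_lit 33993395259670527))))) (T.h (P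 (nat_lit 0)) (T.h (T.h (P (nat_lit 0)) (M (nat_lit 70376020478001151))) (P (nat_lit 0)))))) (T.h (T.h (T.h (P (nat_lit 44344369622601005705199616)) (T.h (P (nat_lit 0)) (M (nat_lit 67671942614401155071)))) (T.h (P (nat_lit 0)) (M (nat_lit 455436660721582079)))) (T.h (T.h (P (nat_lit 0)) (T.h (T.h (P (nat_lit 0)) (M (nat_lit 48237924204412927))) (P (nat_lit 0)))) (P (nat_lit 54726454716340895744)))))), (T.h (T.h (P (nat_lit 0)) (T.h (T.h (P (nat_lit 11784431976104366283581030400)) (T.h (P (nat_lit 0)) (T.h (P (nat_lit 26555739416533795864576)) (T.h (P (nat_lit 0)) (M (nat_lit 5811931586723839)))))) (T.h (P (nat_lit 0)) (T.h (T.h (P (nat_lit 3663976196347304869888)) (T.h (P (nat_lit 0)) (P (nat_lit 24136215000219648)))) (T.h (P (nat_lit 0)) (P (nat_lit 3648513761869824))))))) (T.h (T.h (T.h (P (nat_lit 0)) (T.h (M (nat_lit 17556318179026120489304063)) (T.h (P (nat_lit 0)) (T.h (M (nat_lit 8893166916194009087)) (T.h (P (nat_lit 0)) (M (nat_lit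 12054772672943))))))) (T.h (P (nat_lit 0)) (T.h (T.h (P (nat_lit 0)) (T.h (P (nat_lit 20627963221477687296)) (T.h (P (nat_lit 0)) (P (nat_lit 713704650528))))) (T.h (P (nat_lit 0)) (T.h (T.h (P (nat_lit 0)) (P (nat_lit 10811054617632))) (P (nat_lit 0))))))) (T.h (T.h (P (nat_lit 0)) (T.h (T.h (P (nat_lit 37487305661085982392320)) (T.h (P (nat_lit 0)) (M (nat_lit 2910662690144255)))) (T.h (P (nat_lit 0)) (M (nat_lit 24150572380094463))))) (T.h (T.h (T.h (P (nat_lit 0)) (T.h (P (nat_lit 30441162874292273152)) (T.h (P (nat_lit 0)) (P (nat_lit 10495551934128))))) (T.h (P (nat_lit 0)) (T.h (T.h (P (nat_lit 0)) (M (nat_lit 8590811891663))) (P (nat_lit 0))))) (T.h (T.h (P (nat_lit 0)) (P (nat_lit 43207727442690048))) (T.h (T.h (T.h (P (nat_lit 0)) (M (nat_lit 6246209782991))) (P (nat_lit 0))) (P (nat_lit 0)))))))), (T.h (T.h (P (nat_lit 0)) (T.h (T.h (P (nat_lit 0)) (T.h (M (nat_lit 53330515323703176544124927)) (T.h (P (nat_lit 0)) (M (nat_lit 41872423735447781375)))))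 (T.h (P (nat_lit 0)) (T.h (T.h (P (nat_lit 0)) (P (nat_lit 137922430172793929728))) (P (nat_lit 0)))))) (T.h (T.h (T.h (P (nat_lit 5681062283688008578714566656)) (T.h (P (nat_lit 0)) (T.h (M (nat_lit 9415945020137231351807)) (T.h (P (nat_lit 0)) (P (nat_lit 29200995111157760)))))) (T.h (P (nat_lit 0)) (T.h (T.h (P (nat_lit 30607393108761698631680)) (T.h (P (nat_lit 0)) (M (nat_lit 53186307789062143)))) (T.h (P (nat_lit 0)) (M (nat_lit 109922274535751679)))))) (T.h (T.h (P (nat_lit 0)) (T.h (T.h (P (nat_lit 0)) (M (nat_lit 101408466554331332607))) (P (nat_lit 0)))) (T.h (T.h (T.h (P (nat_lit 6524328405853089562624)) (T.h (P (nat_lit 0)) (M (nat_lit 139362887041023)))) (T.h (P (nat_lit 0)) (P (nat_lit 25339087913926656)))) (T.h (P (nat_lit 0)) (P (nat_lit 2781466941358080))))))), (T.h (T.h (T.h (M (nat_lit 3020651936024216055035763621887)) (T.h (P (nat_lit 0)) (T.h (P (nat_lit 7540115320817060979671040)) (T.h (P (nat_lit 0)) (P (nat_lit 7985131884629721088))))))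 (T.h (P (nat_lit 0)) (T.h (T.h (M (nat_lit 3663051078293994793336831)) (T.h (P (nat_lit 0)) (M (nat_lit 15224186350770061311)))) (T.h (P (nat_lit 0)) (M (nat_lit 109294943314378751)))))) (T.h (T.h (P (nat_lit 0)) (T.h (T.h (P (nat_lit 0)) (T.h (P (nat_lit 35632436876571404402688)) (T.h (P (nat_lit 0)) (M (nat_lit 2801545172942847))))) (T.h (P (nat_lit 0)) (T.h (T.h (P (nat_lit 0)) (M (nat_lit 24086699684003839))) (P (nat_lit 0)))))) (T.h (T.h (T.h (M (nat_lit 9727723194307173926567935)) (T.h (P (nat_lit 0)) (M (nat_lit 1493952592848355327)))) (T.h (P (nat_lit 0)) (M (nat_lit 31834555487518457855)))) (T.h (T.h (P (nat_lit 0)) (T.h (T.h (P (nat_lit 0)) (P (nat_lit 11442983771799552))) (P (nat_lit 0)))) (M (nat_lit 34055737634159853567))))))]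
def lP11_19 : List (T ℤ) := [(P (nat_lit 0)), (P (nat_lit 0)), (T.h (T.h (P (nat_lit 0)) (T.h (T.h (P (nat_lit 382278186225956246805020672)) (T.h (P (nat_lit 0)) (T.h (M (nat_lit 6393028105238678077439)) (T.h (P (nat_lit 0)) (P (nat_lit 10182874572193792)))))) (T.h (P (nat_lit 0)) (T.h (T.h (M (nat_lit 2314989451720488124415)) (T.h (P (nat_lit 0)) (M (nat_lit 20917731012706303)))) (T.h (P (nat_lit 0)) (M (nat_lit 1940894262886399))))))) (T.h (T.h (T.h (P (nat_lit 0)) (T.h (P (nat_lit 8967851728135020949274624)) (T.h (P (nat_lit 0)) (T.h (P (nat_lit 5808715515924840448)) (T.h (P (nat_lit 0)) (M (nat_lit 6298334266991))))))) (T.h (P (nat_lit 0)) (T.h (T.h (P (nat_lit 0)) (T.h (P (nat_lit 21437333873006477312)) (T.h (P (nat_lit 0)) (M (nat_lit 14649144822207))))) (T.h (P (nat_lit 0)) (T.h (T.h (P (nat_lit 0)) (P (nat_lit 9389964963200))) (P (nat_lit 0))))))) (T.h (T.h (P (nat_lit 0)) (T.h (T.h (P (nat_lit 4917025952193526628352)) (T.h (P (nat_lit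 0)) (P (nat_lit 17704818290655232)))) (T.h (P (nat_lit 0)) (P (nat_lit 13535529003122688))))) (T.h (T.h (T.h (P (nat_lit 0)) (T.h (M (nat_lit 1632295132411723775)) (T.h (P (nat_lit 0)) (M (nat_lit 1954457784095))))) (T.h (P (nat_lit 0)) (T.h (T.h (P (nat_lit 0)) (P (nat_lit 7808644584816))) (P (nat_lit 0))))) (T.h (T.h (P (nat_lit 0)) (P (nat_lit 566836548272128))) (T.h (T.h (T.h (P (nat_lit 0)) (M (nat_lit 1262651453183))) (P (nat_lit 0))) (P (nat_lit 0)))))))), (T.h (T.h (P (nat_lit 0)) (T.h (T.h (P (nat_lit 0)) (T.h (P (nat_lit 5810283156555816016805888)) (T.h (P (nat_lit 0)) (T.h (P (nat_lit 41172884228734451712)) (T.h (P (nat_lit 0)) (P (nat_lit 4509737917544))))))) (T.h (P (nat_lit 0)) (T.h (T.h (P (nat_lit 0)) (T.h (P (nat_lit 45427878034464047104)) (T.h (P (nat_lit 0)) (P (nat_lit 13433110305528))))) (T.h (P (nat_lit 0)) (T.h (T.h (P (nat_lit 0)) (P (nat_lit 3774720305552))) (P (nat_lit 0)))))))) (T.h (T.h (T.h (M (nat_lit 6924666312730873039744401407))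 (T.h (P (nat_lit 0)) (T.h (M (nat_lit 13034215677552899391487)) (T.h (P (nat_lit 0)) (P (nat_lit 27806606744977408)))))) (T.h (P (nat_lit 0)) (T.h (T.h (P (nat_lit 20966851406420814856192)) (T.h (P (nat_lit 0)) (M (nat_lit 16257695584583679)))) (T.h (P (nat_lit 0)) (P (nat_lit 14704517348524032)))))) (T.h (T.h (P (nat_lit 0)) (T.h (T.h (P (nat_lit 0)) (T.h (P (nat_lit 2086100085598322688)) (T.h (P (nat_lit 0)) (M (nat_lit 16296856776735))))) (T.h (P (nat_lit 0)) (T.h (T.h (P (nat_lit 0)) (P (nat_lit 18179075001016))) (P (nat_lit 0)))))) (T.h (T.h (T.h (P (nat_lit 5224766766905693306880)) (T.h (P (nat_lit 0)) (M (nat_lit 18326436873601023)))) (T.h (P (nat_lit 0)) (P (nat_lit 805034664558592)))) (T.h (T.h (P (nat_lit 0)) (T.h (T.h (P (nat_lit 0)) (P (nat_lit 4779188645288))) (P (nat_lit 0)))) (M (nat_lit 14235708366225407))))))), (T.h (T.h (P (nat_lit 0)) (T.h (T.h (M (nat_lit 832454746821739008015466495)) (T.h (P (nat_lit 0)) (T.h (M (nat_lit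 32130929532941937672191)) (T.h (P (nat_lit 0)) (P (nat_lit 5910113848442880)))))) (T.h (P (nat_lit 0)) (T.h (T.h (P (nat_lit 2581207630647769694208)) (T.h (P (nat_lit 0)) (P (nat_lit 21537784946409472)))) (T.h (P (nat_lit 0)) (P (nat_lit 3821690648035328))))))) (T.h (T.h (T.h (P (nat_lit 0)) (T.h (P (nat_lit 11799924226416691745128448)) (T.h (P (nat_lit 0)) (T.h (M (nat_lit 13066312361172795391)) (T.h (P (nat_lit 0)) (P (nat_lit 11861041236576))))))) (T.h (P (nat_lit 0)) (T.h (T.h (P (nat_lit 0)) (T.h (P (nat_lit 22920260165497257984)) (T.h (P (nat_lit 0)) (P (nat_lit 19135086581520))))) (T.h (P (nat_lit 0)) (T.h (T.h (P (nat_lit 0)) (M (nat_lit 6622509720623))) (P (nat_lit 0))))))) (T.h (T.h (P (nat_lit 0)) (T.h (T.h (M (nat_lit 4047631849667556278271)) (T.h (P (nat_lit 0)) (P (nat_lit 703405565444096)))) (T.h (P (nat_lit 0)) (M (nat_lit 25091771215478783))))) (T.h (T.h (T.h (P (nat_lit 0)) (T.h (P (nat_lit 24992502955122884608)) (T.h (P (nat_lit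 0)) (P (nat_lit 4308734371088))))) (T.h (P (nat_lit 0)) (T.h (T.h (P (nat_lit 0)) (M (nat_lit 4081026789279))) (P (nat_lit 0))))) (T.h (T.h (P (nat_lit 0)) (M (nat_lit 6980540568846335))) (T.h (T.h (T.h (P (nat_lit 0)) (P (nat_lit 3040955945440))) (P (nat_lit 0))) (P (nat_lit 0)))))))), (T.h (T.h (P (nat_lit 0)) (T.h (T.h (P (nat_lit 0)) (T.h (M (nat_lit 13089024482181258328145919)) (T.h (P (nat_lit 0)) (T.h (M (nat_lit 36766634793414688767)) (T.h (P (nat_lit 0)) (M (nat_lit 1283713304399))))))) (T.h (P (nat_lit 0)) (T.h (T.h (P (nat_lit 0)) (T.h (M (nat_lit 32647441060556963839)) (T.h (P (nat_lit 0)) (P (nat_lit 2377596206784))))) (T.h (P (nat_lit 0)) (T.h (T.h (P (nat_lit 0)) (P (nat_lit 4237866999168))) (P (nat_lit 0)))))))) (T.h (T.h (T.h (P (nat_lit 5365436076063364494613544960)) (T.h (P (nat_lit 0)) (T.h (P (nat_lit 16692309233254172459008)) (T.h (P (nat_lit 0)) (M (nat_lit 24295617010860031)))))) (T.h (P (nat_lit 0)) (T.h (T.h (M (nat_lit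 23003241910279304380415)) (T.h (P (nat_lit 0)) (P (nat_lit 26953724719824896)))) (T.h (P (nat_lit 0)) (M (nat_lit 4868192976011263)))))) (T.h (T.h (P (nat_lit 0)) (T.h (T.h (P (nat_lit 0)) (T.h (P (nat_lit 25093469970943180800)) (T.h (P (nat_lit 0)) (P (nat_lit 13661142254976))))) (T.h (P (nat_lit 0)) (T.h (T.h (P (nat_lit 0)) (P (nat_lit 3390121286400))) (P (nat_lit 0)))))) (T.h (T.h (T.h (M (nat_lit 2829647422335983026175)) (T.h (P (nat_lit 0)) (P (nat_lit 17366088078819328)))) (T.h (P (nat_lit 0)) (P (nat_lit 6090253865844736)))) (T.h (T.h (P (nat_lit 0)) (T.h (T.h (P (nat_lit 0)) (M (nat_lit 4085685683903))) (P (nat_lit 0)))) (P (nat_lit 8555427069952000))))))), (T.h (T.h (P (nat_lit 0)) (T.h (T.h (P (nat_lit 2547540643335990035118817280)) (T.h (P (nat_lit 0)) (T.h (P (nat_lit 34455666698401404157952)) (T.h (P (nat_lit 0)) (M (nat_lit 2625970948095999)))))) (T.h (P (nat_lit 0)) (T.h (T.h (P (nat_lit 392783585823669878784)) (T.h (P (nat_lit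 0)) (P (nat_lit 584082030985216)))) (T.h (P (nat_lit 0)) (M (nat_lit 965174953410559))))))) (T.h (T.h (T.h (P (nat_lit 0)) (T.h (M (nat_lit 18381355421258832978903039)) (T.h (P (nat_lit 0)) (P (nat_lit 7114211940729094144))))) (T.h (P (nat_lit 0)) (T.h (T.h (P (nat_lit 0)) (M (nat_lit 36613268445365010431))) (P (nat_lit 0))))) (T.h (T.h (P (nat_lit 0)) (T.h (T.h (M (nat_lit 19946718446392155570175)) (T.h (P (nat_lit 0)) (M (nat_lit 4932788028899327)))) (T.h (P (nat_lit 0)) (P (nat_lit 3402133379809280))))) (T.h (T.h (T.h (P (nat_lit 0)) (M (nat_lit 23203781688285986815))) (P (nat_lit 0))) (T.h (T.h (P (nat_lit 0)) (P (nat_lit 3801332291633152))) (P (nat_lit 0))))))), (P (nat_lit 0))]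
def lP11_20 : List (T ℤ) := [(P (nat_lit 0)), (T.h (T.h (T.h (P (nat_lit 0)) (T.h (P (nat_lit 292744442000501060956848128)) (T.h (P (nat_lit 0)) (T.h (P (nat_lit 578675089556927152128)) (T.h (P (nat_lit 0)) (M (nat_lit 1348496507797503))))))) (T.h (P (nat_lit 0)) (T.h (T.h (P (nat_lit 0)) (T.h (M (nat_lit 71490041528832753663)) (T.h (P (nat_lit 0)) (M (nat_lit 208462894661631))))) (T.h (P (nat_lit 0)) (T.h (T.h (P (nat_lit 0)) (M (nat_lit 7565409483816959))) (P (nat_lit 0))))))) (T.h (T.h (P (nat_lit 0)) (T.h (T.h (M (nat_lit 1783583222540862459215871)) (T.h (P (nat_lit 0)) (T.h (M (nat_lit 9687899242886070271)) (T.h (P (nat_lit 0)) (P (nat_lit 18277536452736)))))) (T.h (P (nat_lit 0)) (T.h (T.h (M (nat_lit 968861825208680447)) (T.h (P (nat_lit 0)) (P (nat_lit 6132761592576)))) (T.h (P (nat_lit 0)) (M (nat_lit 723600243695))))))) (T.h (T.h (T.h (P (nat_lit 0)) (T.h (M (nat_lit 71490041528832753663)) (T.h (P (nat_lit 0)) (M (nat_lit 208462894661631)))))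 (T.h (P (nat_lit 0)) (T.h (T.h (P (nat_lit 0)) (M (nat_lit 7318168459542527))) (P (nat_lit 0))))) (T.h (T.h (P (nat_lit 0)) (T.h (T.h (M (nat_lit 968861825208680447)) (T.h (P (nat_lit 0)) (P (nat_lit 6132761592576)))) (T.h (P (nat_lit 0)) (P (nat_lit 1106006924448))))) (T.h (T.h (T.h (P (nat_lit 0)) (M (nat_lit 7565409483816959))) (P (nat_lit 0))) (T.h (T.h (P (nat_lit 0)) (M (nat_lit 723600243695))) (P (nat_lit 0)))))))), (T.h (T.h (T.h (M (nat_lit 1833686140586091030416640180223)) (T.h (P (nat_lit 0)) (T.h (M (nat_lit 24929743016584213895839743)) (T.h (P (nat_lit 0)) (T.h (M (nat_lit 18997162503609253887)) (T.h (P (nat_lit 0)) (P (nat_lit 5640899468176)))))))) (T.h (P (nat_lit 0)) (T.h (T.h (P (nat_lit 1504758702031106729836544)) (T.h (P (nat_lit 0)) (T.h (P (nat_lit 193567321257144221696)) (T.h (P (nat_lit 0)) (P (nat_lit 50812174146176)))))) (T.h (P (nat_lit 0)) (T.h (T.h (M (nat_lit 313508080828547071)) (T.h (P (nat_lit 0)) (P (nat_lit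 787165522384)))) (T.h (P (nat_lit 0)) (M (nat_lit 3817912421327)))))))) (T.h (T.h (P (nat_lit 0)) (T.h (T.h (P (nat_lit 0)) (T.h (M (nat_lit 112471898535082606985215)) (T.h (P (nat_lit 0)) (P (nat_lit 93855003958312960))))) (T.h (P (nat_lit 0)) (T.h (T.h (P (nat_lit 0)) (M (nat_lit 122812598466641919))) (P (nat_lit 0)))))) (T.h (T.h (T.h (P (nat_lit 20152093936309671301218304)) (T.h (P (nat_lit 0)) (T.h (M (nat_lit 48338084010217439231)) (T.h (P (nat_lit 0)) (M (nat_lit 6529346305695)))))) (T.h (P (nat_lit 0)) (T.h (T.h (M (nat_lit 42881065747803537407)) (T.h (P (nat_lit 0)) (M (nat_lit 7950027518703)))) (T.h (P (nat_lit 0)) (P (nat_lit 38278448953200)))))) (T.h (T.h (P (nat_lit 0)) (T.h (T.h (P (nat_lit 0)) (M (nat_lit 9602603773984767))) (P (nat_lit 0)))) (T.h (T.h (T.h (M (nat_lit 9236317343162826751)) (T.h (P (nat_lit 0)) (P (nat_lit 47679961248304)))) (T.h (P (nat_lit 0)) (M (nat_lit 5909049594671)))) (T.h (P (nat_lit 0)) (P (nat_lit 11748727957200)))))))),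 (T.h (T.h (T.h (P (nat_lit 0)) (T.h (P (nat_lit 8691406057965620660182974464)) (T.h (P (nat_lit 0)) (T.h (M (nat_lit 15021339571157746057215)) (T.h (P (nat_lit 0)) (P (nat_lit 17136932539727872))))))) (T.h (P (nat_lit 0)) (T.h (T.h (P (nat_lit 0)) (T.h (M (nat_lit 38064473744062961156095)) (T.h (P (nat_lit 0)) (P (nat_lit 2082412055707648))))) (T.h (P (nat_lit 0)) (T.h (T.h (P (nat_lit 0)) (P (nat_lit 19186521793036288))) (P (nat_lit 0))))))) (T.h (T.h (P (nat_lit 0)) (T.h (T.h (P (nat_lit 39725240604148654384611328)) (T.h (P (nat_lit 0)) (T.h (M (nat_lit 3943748245355757567)) (T.h (P (nat_lit 0)) (M (nat_lit 12132135300319)))))) (T.h (P (nat_lit 0)) (T.h (T.h (P (nat_lit 33915569836709117952)) (T.h (P (nat_lit 0)) (M (nat_lit 7612428796111)))) (T.h (P (nat_lit 0)) (P (nat_lit 4076389384816))))))) (T.h (T.h (T.h (P (nat_lit 0)) (T.h (M (nat_lit 38064473744062961156095)) (T.h (P (nat_lit 0)) (P (nat_lit 2082412055707648))))) (T.h (P (nat_lit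 0)) (T.h (T.h (P (nat_lit 0)) (P (nat_lit 3935443694649344))) (P (nat_lit 0))))) (T.h (T.h (P (nat_lit 0)) (T.h (T.h (P (nat_lit 33915569836709117952)) (T.h (P (nat_lit 0)) (M (nat_lit 7612428796111)))) (T.h (P (nat_lit 0)) (M (nat_lit 675544214015))))) (T.h (T.h (T.h (P (nat_lit 0)) (P (nat_lit 19186521793036288))) (P (nat_lit 0))) (T.h (T.h (P (nat_lit 0)) (P (nat_lit 4076389384816))) (P (nat_lit 0)))))))), (T.h (T.h (T.h (M (nat_lit 1489864615173141456557266960383)) (T.h (P (nat_lit 0)) (T.h (P (nat_lit 44237522183060602493075456)) (T.h (P (nat_lit 0)) (T.h (M (nat_lit 8197879782847807487)) (T.h (P (nat_lit 0)) (P (nat_lit 13524330333600)))))))) (T.h (P (nat_lit 0)) (T.h (T.h (P (nat_lit 3190336379661984334872576)) (T.h (P (nat_lit 0)) (T.h (M (nat_lit 115193404408423514111)) (T.h (P (nat_lit 0)) (P (nat_lit 18792837007584)))))) (T.h (P (nat_lit 0)) (T.h (T.h (P (nat_lit 6454538503194673152)) (T.h (P (nat_lit 0)) (P (nat_lit 3472411185984))))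 (T.h (P (nat_lit 0)) (M (nat_lit 5550730409807)))))))) (T.h (T.h (P (nat_lit 0)) (T.h (T.h (P (nat_lit 0)) (T.h (P (nat_lit 117203895853605197971456)) (T.h (P (nat_lit 0)) (M (nat_lit 78799039213862911))))) (T.h (P (nat_lit 0)) (T.h (T.h (P (nat_lit 0)) (P (nat_lit 120510918138789888))) (P (nat_lit 0)))))) (T.h (T.h (T.h (P (nat_lit 3190336379661984334872576)) (T.h (P (nat_lit 0)) (T.h (M (nat_lit 115193404408423514111)) (T.h (P (nat_lit 0)) (P (nat_lit 18792837007584)))))) (T.h (P (nat_lit 0)) (T.h (T.h (P (nat_lit 107513538014303223808)) (T.h (P (nat_lit 0)) (P (nat_lit 64523868455424)))) (T.h (P (nat_lit 0)) (M (nat_lit 12406552033967)))))) (T.h (T.h (P (nat_lit 0)) (T.h (T.h (P (nat_lit 0)) (P (nat_lit 120510918138789888))) (P (nat_lit 0)))) (T.h (T.h (T.h (P (nat_lit 6454538503194673152)) (T.h (P (nat_lit 0)) (P (nat_lit 3472411185984)))) (T.h (P (nat_lit 0)) (M (nat_lit 12406552033967)))) (T.h (P (nat_lit 0)) (M (nat_lit 5550730409807)))))))),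 (T.h (T.h (T.h (P (nat_lit 0)) (T.h (M (nat_lit 14143915709784305992583872511)) (T.h (P (nat_lit 0)) (T.h (M (nat_lit 5554121537654855041023)) (T.h (P (nat_lit 0)) (M (nat_lit 26821480240742399))))))) (T.h (P (nat_lit 0)) (T.h (T.h (P (nat_lit 0)) (T.h (P (nat_lit 71315698274066231197696)) (T.h (P (nat_lit 0)) (M (nat_lit 32756148533133311))))) (T.h (P (nat_lit 0)) (T.h (T.h (P (nat_lit 0)) (M (nat_lit 8208545001439231))) (P (nat_lit 0))))))) (T.h (T.h (P (nat_lit 0)) (T.h (T.h (P (nat_lit 1786891951884896965754880)) (T.h (P (nat_lit 0)) (P (nat_lit 20838505919270617088)))) (T.h (P (nat_lit 0)) (M (nat_lit 27420855437877051391))))) (T.h (T.h (T.h (P (nat_lit 0)) (T.h (P (nat_lit 71315698274066231197696)) (T.h (P (nat_lit 0)) (M (nat_lit 32756148533133311))))) (T.h (P (nat_lit 0)) (T.h (T.h (P (nat_lit 0)) (M (nat_lit 50991262593449983))) (P (nat_lit 0))))) (T.h (T.h (P (nat_lit 0)) (M (nat_lit 27420855437877051391))) (T.h (T.h (T.h (P (nat_lit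 0)) (M (nat_lit 8208545001439231))) (P (nat_lit 0))) (P (nat_lit 0))))))), (P (nat_lit 0)), (T.h (T.h (P (nat_lit 0)) (T.h (T.h (P (nat_lit 675022628226457307761868800)) (T.h (P (nat_lit 0)) (T.h (P (nat_lit 4845535910664693874688)) (T.h (P (nat_lit 0)) (M (nat_lit 6998572935544831)))))) (T.h (P (nat_lit 0)) (T.h (T.h (M (nat_lit 1736314362163560972287)) (T.h (P (nat_lit 0)) (P (nat_lit 13327066108461056)))) (T.h (P (nat_lit 0)) (M (nat_lit 3289390770683903))))))) (T.h (T.h (T.h (P (nat_lit 0)) (T.h (P (nat_lit 7184268505594158490058752)) (T.h (P (nat_lit 0)) (T.h (M (nat_lit 2601156957620404223)) (T.h (P (nat_lit 0)) (M (nat_lit 1986251696879))))))) (T.h (P (nat_lit 0)) (T.h (T.h (P (nat_lit 0)) (T.h (P (nat_lit 11749434630120407040)) (T.h (P (nat_lit 0)) (P (nat_lit 13941406177392))))) (T.h (P (nat_lit 0)) (T.h (T.h (P (nat_lit 0)) (P (nat_lit 27667501415936))) (P (nat_lit 0))))))) (T.h (T.h (P (nat_lit 0)) (T.h (T.h (M (nat_lit 6464518146767510831103))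 (T.h (P (nat_lit 0)) (P (nat_lit 10386649831112704)))) (T.h (P (nat_lit 0)) (M (nat_lit 21126193907367935))))) (T.h (T.h (T.h (P (nat_lit 0)) (T.h (P (nat_lit 4839853690716160000)) (T.h (P (nat_lit 0)) (M (nat_lit 848450859647))))) (T.h (P (nat_lit 0)) (T.h (T.h (P (nat_lit 0)) (M (nat_lit 8516383229631))) (P (nat_lit 0))))) (T.h (T.h (P (nat_lit 0)) (P (nat_lit 2617465088376832))) (T.h (T.h (T.h (P (nat_lit 0)) (M (nat_lit 7021934510687))) (P (nat_lit 0))) (P (nat_lit 0))))))))]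
def lP11_21 : List (T ℤ) := [(T.h (T.h (P (nat_lit 0)) (T.h (T.h (P (nat_lit 0)) (T.h (M (nat_lit 84066929688755048797962239)) (T.h (P (nat_lit 0)) (T.h (M (nat_lit 94871250259186548735)) (T.h (P (nat_lit 0)) (M (nat_lit 807026724663))))))) (T.h (P (nat_lit 0)) (T.h (T.h (P (nat_lit 0)) (T.h (P (nat_lit 156187702513071292416)) (T.h (P (nat_lit 0)) (P (nat_lit 4688126309776))))) (T.h (P (nat_lit 0)) (T.h (T.h (P (nat_lit 0)) (P (nat_lit 8863310328040))) (P (nat_lit 0)))))))) (T.h (T.h (T.h (M (nat_lit 5740505652863568559692840959)) (T.h (P (nat_lit 0)) (T.h (P (nat_lit 135088971692739877928960)) (T.h (P (nat_lit 0)) (P (nat_lit 42855415369302016)))))) (T.h (P (nat_lit 0)) (T.h (T.h (M (nat_lit 70443364357273297092607)) (T.h (P (nat_lit 0)) (M (nat_lit 191526525544267775)))) (T.h (P (nat_lit 0)) (M (nat_lit 45857594310426623)))))) (T.h (T.h (P (nat_lit 0)) (T.h (T.h (P (nat_lit 0)) (T.h (M (nat_lit 74571478095464759295)) (T.h (P (nat_lit 0)) (M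 (nat_lit 34423184521223))))) (T.h (P (nat_lit 0)) (T.h (T.h (P (nat_lit 0)) (M (nat_lit 34727966347239))) (P (nat_lit 0)))))) (T.h (T.h (T.h (P (nat_lit 13722124758584802672640)) (T.h (P (nat_lit 0)) (M (nat_lit 61048963772252159)))) (T.h (P (nat_lit 0)) (P (nat_lit 70262232530386944)))) (T.h (T.h (P (nat_lit 0)) (T.h (T.h (P (nat_lit 0)) (M (nat_lit 8234108884807))) (P (nat_lit 0)))) (P (nat_lit 35026072501878784))))))), (T.h (T.h (P (nat_lit 0)) (T.h (T.h (P (nat_lit 2044603438598660144330964992)) (T.h (P (nat_lit 0)) (T.h (M (nat_lit 45546875889984468942847)) (T.h (P (nat_lit 0)) (M (nat_lit 1676071592312831)))))) (T.h (P (nat_lit 0)) (T.h (T.h (P (nat_lit 27293918296730966687744)) (T.h (P (nat_lit 0)) (P (nat_lit 29961264934567936)))) (T.h (P (nat_lit 0)) (M (nat_lit 448300185337855))))))) (T.h (T.h (T.h (P (nat_lit 0)) (T.h (M (nat_lit 35141102086828376018911231)) (T.h (P (nat_lit 0)) (T.h (M (nat_lit 2909828443430453247)) (T.h (P (nat_lit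 0)) (P (nat_lit 13234316602864))))))) (T.h (P (nat_lit 0)) (T.h (T.h (P (nat_lit 0)) (T.h (P (nat_lit 44100721235759988736)) (T.h (P (nat_lit 0)) (M (nat_lit 34191637143327))))) (T.h (P (nat_lit 0)) (T.h (T.h (P (nat_lit 0)) (M (nat_lit 122270494269615))) (P (nat_lit 0))))))) (T.h (T.h (P (nat_lit 0)) (T.h (T.h (M (nat_lit 73152441692684927631359)) (T.h (P (nat_lit 0)) (M (nat_lit 45794015764905983)))) (T.h (P (nat_lit 0)) (M (nat_lit 9506042827390975))))) (T.h (T.h (T.h (P (nat_lit 0)) (T.h (M (nat_lit 38571660381763141631)) (T.h (P (nat_lit 0)) (P (nat_lit 31506594755440))))) (T.h (P (nat_lit 0)) (T.h (T.h (P (nat_lit 0)) (M (nat_lit 43238637266271))) (P (nat_lit 0))))) (T.h (T.h (P (nat_lit 0)) (M (nat_lit 32437737833037823))) (T.h (T.h (T.h (P (nat_lit 0)) (P (nat_lit 3422371587152))) (P (nat_lit 0))) (P (nat_lit 0)))))))), (T.h (T.h (P (nat_lit 0)) (T.h (T.h (P (nat_lit 0)) (T.h (P (nat_lit 26500495132438401082458112)) (T.h (P (nat_lit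 0)) (T.h (P (nat_lit 128417446864883810304)) (T.h (P (nat_lit 0)) (P (nat_lit 35846040847008))))))) (T.h (P (nat_lit 0)) (T.h (T.h (P (nat_lit 0)) (T.h (M (nat_lit 110631618007638474751)) (T.h (P (nat_lit 0)) (M (nat_lit 27454079460623))))) (T.h (P (nat_lit 0)) (T.h (T.h (P (nat_lit 0)) (P (nat_lit 35347017257280))) (P (nat_lit 0)))))))) (T.h (T.h (T.h (M (nat_lit 22103747269811347225678184447)) (T.h (P (nat_lit 0)) (T.h (M (nat_lit 22900413350841088475135)) (T.h (P (nat_lit 0)) (M (nat_lit 77230784205979647)))))) (T.h (P (nat_lit 0)) (T.h (T.h (M (nat_lit 11104078704156566618111)) (T.h (P (nat_lit 0)) (M (nat_lit 7829432130568191)))) (T.h (P (nat_lit 0)) (P (nat_lit 73608370696355840)))))) (T.h (T.h (P (nat_lit 0)) (T.h (T.h (P (nat_lit 0)) (T.h (M (nat_lit 194145112093039263743)) (T.h (P (nat_lit 0)) (P (nat_lit 1522815780144))))) (T.h (P (nat_lit 0)) (T.h (T.h (P (nat_lit 0)) (P (nat_lit 285224950080))) (P (nat_lit 0)))))) (T.h (T.h (T.h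 (M (nat_lit 10737789727595630166015)) (T.h (P (nat_lit 0)) (M (nat_lit 20850077718872063)))) (T.h (P (nat_lit 0)) (P (nat_lit 17442829815119872)))) (T.h (T.h (P (nat_lit 0)) (T.h (T.h (P (nat_lit 0)) (M (nat_lit 46674816420047))) (P (nat_lit 0)))) (M (nat_lit 10467174818709503))))))), (T.h (T.h (P (nat_lit 0)) (T.h (T.h (M (nat_lit 2966186908321285952851935231)) (T.h (P (nat_lit 0)) (T.h (P (nat_lit 35537384737640326103040)) (T.h (P (nat_lit 0)) (M (nat_lit 71753149753163775)))))) (T.h (P (nat_lit 0)) (T.h (T.h (M (nat_lit 11775693116598195847167)) (T.h (P (nat_lit 0)) (P (nat_lit 20023216806592512)))) (T.h (P (nat_lit 0)) (P (nat_lit 4586815369150464))))))) (T.h (T.h (T.h (P (nat_lit 0)) (T.h (M (nat_lit 16377306634978973055975423)) (T.h (P (nat_lit 0)) (P (nat_lit 94872395999829032960))))) (T.h (P (nat_lit 0)) (T.h (T.h (P (nat_lit 0)) (M (nat_lit 61976402703186657279))) (P (nat_lit 0))))) (T.h (T.h (P (nat_lit 0)) (T.h (T.h (P (nat_lit 9616740369625253937152))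 (T.h (P (nat_lit 0)) (M (nat_lit 55653943023239167)))) (T.h (P (nat_lit 0)) (M (nat_lit 13771757658144767))))) (T.h (T.h (T.h (P (nat_lit 0)) (M (nat_lit 94824523234900180991))) (P (nat_lit 0))) (T.h (T.h (P (nat_lit 0)) (P (nat_lit 50821383761641472))) (P (nat_lit 0))))))), (T.h (T.h (T.h (P (nat_lit 0)) (T.h (P (nat_lit 764556372451912493610041344)) (T.h (P (nat_lit 0)) (T.h (M (nat_lit 4629978903440976248831)) (T.h (P (nat_lit 0)) (M (nat_lit 3881788525772799))))))) (T.h (P (nat_lit 0)) (T.h (T.h (P (nat_lit 0)) (T.h (M (nat_lit 1476002153045151449087)) (T.h (P (nat_lit 0)) (M (nat_lit 7382202009583615))))) (T.h (P (nat_lit 0)) (T.h (T.h (P (nat_lit 0)) (P (nat_lit 10749711120465920))) (P (nat_lit 0))))))) (T.h (T.h (P (nat_lit 0)) (T.h (T.h (P (nat_lit 17935703456270041898549248)) (T.h (P (nat_lit 0)) (T.h (P (nat_lit 42874667746012954624)) (T.h (P (nat_lit 0)) (P (nat_lit 18779929926400)))))) (T.h (P (nat_lit 0)) (T.h (T.h (P (nat_lit 4176420383513116672))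 (T.h (P (nat_lit 0)) (M (nat_lit 6840500237391)))) (T.h (P (nat_lit 0)) (M (nat_lit 7560985720175))))))) (T.h (T.h (T.h (P (nat_lit 0)) (T.h (M (nat_lit 1476002153045151449087)) (T.h (P (nat_lit 0)) (M (nat_lit 7382202009583615))))) (T.h (P (nat_lit 0)) (T.h (T.h (P (nat_lit 0)) (P (nat_lit 35409636581310464))) (P (nat_lit 0))))) (T.h (T.h (P (nat_lit 0)) (T.h (T.h (P (nat_lit 4176420383513116672)) (T.h (P (nat_lit 0)) (M (nat_lit 6840500237391)))) (T.h (P (nat_lit 0)) (M (nat_lit 3908915568191))))) (T.h (T.h (T.h (P (nat_lit 0)) (P (nat_lit 10749711120465920))) (P (nat_lit 0))) (T.h (T.h (P (nat_lit 0)) (M (nat_lit 7560985720175))) (P (nat_lit 0)))))))), (T.h (T.h (T.h (M (nat_lit 3006344336728008781710277738495)) (T.h (P (nat_lit 0)) (T.h (M (nat_lit 15164404603015937166147583)) (T.h (P (nat_lit 0)) (T.h (M (nat_lit 29186897946420969471)) (T.h (P (nat_lit 0)) (M (nat_lit 21538230432479)))))))) (T.h (P (nat_lit 0)) (T.h (T.h (P (nat_lit 14864583539935043158802432))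 (T.h (P (nat_lit 0)) (T.h (M (nat_lit 23762840419456516095)) (T.h (P (nat_lit 0)) (M (nat_lit 44544879363135)))))) (T.h (P (nat_lit 0)) (T.h (T.h (P (nat_lit 4525554985596878848)) (T.h (P (nat_lit 0)) (M (nat_lit 30315597187951)))) (T.h (P (nat_lit 0)) (M (nat_lit 8467143931935)))))))) (T.h (T.h (P (nat_lit 0)) (T.h (T.h (P (nat_lit 0)) (T.h (P (nat_lit 548614460292452426186752)) (T.h (P (nat_lit 0)) (M (nat_lit 24776055778181119))))) (T.h (P (nat_lit 0)) (T.h (T.h (P (nat_lit 0)) (M (nat_lit 239657266701926399))) (P (nat_lit 0)))))) (T.h (T.h (T.h (P (nat_lit 14864583539935043158802432)) (T.h (P (nat_lit 0)) (T.h (M (nat_lit 23762840419456516095)) (T.h (P (nat_lit 0)) (M (nat_lit 44544879363135)))))) (T.h (P (nat_lit 0)) (T.h (T.h (M (nat_lit 15014186648512495615)) (T.h (P (nat_lit 0)) (M (nat_lit 62959272967647)))) (T.h (P (nat_lit 0)) (M (nat_lit 67635942744431)))))) (T.h (T.h (P (nat_lit 0)) (T.h (T.h (P (nat_lit 0)) (M (nat_lit 239657266701926399)))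 (P (nat_lit 0)))) (T.h (T.h (T.h (P (nat_lit 4525554985596878848)) (T.h (P (nat_lit 0)) (M (nat_lit 30315597187951)))) (T.h (P (nat_lit 0)) (M (nat_lit 67635942744431)))) (T.h (P (nat_lit 0)) (M (nat_lit 8467143931935)))))))), (T.h (T.h (T.h (P (nat_lit 0)) (T.h (M (nat_lit 33039799577120779653437456383)) (T.h (P (nat_lit 0)) (T.h (M (nat_lit 77631362816479485493247)) (T.h (P (nat_lit 0)) (M (nat_lit 29844490118266879))))))) (T.h (P (nat_lit 0)) (T.h (T.h (P (nat_lit 0)) (T.h (M (nat_lit 69057996839415476912127)) (T.h (P (nat_lit 0)) (P (nat_lit 10277164654952448))))) (T.h (P (nat_lit 0)) (T.h (T.h (P (nat_lit 0)) (P (nat_lit 75991658234822656))) (P (nat_lit 0))))))) (T.h (T.h (P (nat_lit 0)) (T.h (T.h (P (nat_lit 12722127146272080019849216)) (T.h (P (nat_lit 0)) (T.h (P (nat_lit 73825563010498822144)) (T.h (P (nat_lit 0)) (M (nat_lit 188128462544287)))))) (T.h (P (nat_lit 0)) (T.h (T.h (P (nat_lit 29433117712469458944)) (T.h (P (nat_lit 0))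 (M (nat_lit 46197591123487)))) (T.h (P (nat_lit 0)) (M (nat_lit 12017445760319))))))) (T.h (T.h (T.h (P (nat_lit 0)) (T.h (M (nat_lit 69057996839415476912127)) (T.h (P (nat_lit 0)) (P (nat_lit 10277164654952448))))) (T.h (P (nat_lit 0)) (T.h (T.h (P (nat_lit 0)) (P (nat_lit 134422558893277184))) (P (nat_lit 0))))) (T.h (T.h (P (nat_lit 0)) (T.h (T.h (P (nat_lit 29433117712469458944)) (T.h (P (nat_lit 0)) (M (nat_lit 46197591123487)))) (T.h (P (nat_lit 0)) (M (nat_lit 24520800321247))))) (T.h (T.h (T.h (P (nat_lit 0)) (P (nat_lit 75991658234822656))) (P (nat_lit 0))) (T.h (T.h (P (nat_lit 0)) (M (nat_lit 12017445760319))) (P (nat_lit 0)))))))), (T.h (T.h (T.h (P (nat_lit 6673716617900190842543558098944)) (T.h (P (nat_lit 0)) (T.h (M (nat_lit 10086934459660500564180991)) (T.h (P (nat_lit 0)) (T.h (P (nat_lit 23707924861175201792)) (T.h (P (nat_lit 0)) (M (nat_lit 8922483493439)))))))) (T.h (P (nat_lit 0)) (T.h (T.h (P (nat_lit 1033976369646611571146752))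 (T.h (P (nat_lit 0)) (T.h (M (nat_lit 7616530210468397055)) (T.h (P (nat_lit 0)) (P (nat_lit 5948900219136)))))) (T.h (P (nat_lit 0)) (T.h (T.h (P (nat_lit 26760919484626632704)) (T.h (P (nat_lit 0)) (P (nat_lit 15982296344688)))) (T.h (P (nat_lit 0)) (P (nat_lit 10125785890848)))))))) (T.h (T.h (P (nat_lit 0)) (T.h (T.h (P (nat_lit 0)) (T.h (M (nat_lit 323670663222287212216319)) (T.h (P (nat_lit 0)) (P (nat_lit 155404866517598208))))) (T.h (P (nat_lit 0)) (T.h (T.h (P (nat_lit 0)) (P (nat_lit 212903059614531584))) (P (nat_lit 0)))))) (T.h (T.h (T.h (P (nat_lit 1033976369646611571146752)) (T.h (P (nat_lit 0)) (T.h (M (nat_lit 7616530210468397055)) (T.h (P (nat_lit 0)) (P (nat_lit 5948900219136)))))) (T.h (P (nat_lit 0)) (T.h (T.h (M (nat_lit 126923415089884168191)) (T.h (P (nat_lit 0)) (P (nat_lit 78859328005056)))) (T.h (P (nat_lit 0)) (M (nat_lit 4554131237999)))))) (T.h (T.h (P (nat_lit 0)) (T.h (T.h (P (nat_lit 0)) (P (nat_lit 212903059614531584)))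 (P (nat_lit 0)))) (T.h (T.h (T.h (P (nat_lit 26760919484626632704)) (T.h (P (nat_lit 0)) (P (nat_lit 15982296344688)))) (T.h (P (nat_lit 0)) (M (nat_lit 4554131237999)))) (T.h (P (nat_lit 0)) (P (nat_lit 10125785890848))))))))]
def lP11_22 : List (T ℤ) := [(T.h (T.h (T.h (P (nat_lit 0)) (T.h (P (nat_lit 42764588926905048164284235776)) (T.h (P (nat_lit 0)) (T.h (M (nat_lit 16858043786964232044543)) (T.h (P (nat_lit 0)) (M (nat_lit 6197651023659007))))))) (T.h (P (nat_lit 0)) (T.h (T.h (P (nat_lit 0)) (T.h (P (nat_lit 50188394149267256639488)) (T.h (P (nat_lit 0)) (P (nat_lit 19470957815529472))))) (T.h (P (nat_lit 0)) (T.h (T.h (P (nat_lit 0)) (M (nat_lit 55304486419021823))) (P (nat_lit 0))))))) (T.h (T.h (P (nat_lit 0)) (T.h (T.h (P (nat_lit 22729269502873008793976832)) (T.h (P (nat_lit 0)) (P (nat_lit 145261223832388108288)))) (T.h (P (nat_lit 0)) (M (nat_lit 82428582705361846271))))) (T.h (T.h (T.h (P (nat_lit 0)) (T.h (P (nat_lit 50188394149267256639488))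 (T.h (P (nat_lit 0)) (P (nat_lit 19470957815529472))))) (T.h (P (nat_lit 0)) (T.h (T.h (P (nat_lit 0)) (M (nat_lit 54418775282548735))) (P (nat_lit 0))))) (T.h (T.h (P (nat_lit 0)) (M (nat_lit 82428582705361846271))) (T.h (T.h (T.h (P (nat_lit 0)) (M (nat_lit 55304486419021823))) (P (nat_lit 0))) (P (nat_lit 0))))))), (T.h (T.h (P (nat_lit 0)) (T.h (T.h (P (nat_lit 0)) (T.h (P (nat_lit 3642758162366038185869312)) (T.h (P (nat_lit 0)) (T.h (M (nat_lit 55815510666470490111)) (T.h (P (nat_lit 0)) (M (nat_lit 23162146526199))))))) (T.h (P (nat_lit 0)) (T.h (T.h (P (nat_lit 0)) (T.h (M (nat_lit 92204131045926240255)) (T.h (P (nat_lit 0)) (M (nat_lit 10572253411111))))) (T.h (P (nat_lit 0)) (T.h (T.h (P (nat_lit 0)) (P (nat_lit 26818855177008))) (P (nat_lit 0)))))))) (T.h (T.h (T.h (M (nat_lit 6575954522997713494022815743)) (T.h (P (nat_lit 0)) (T.h (M (nat_lit 27633644161980858105855)) (T.h (P (nat_lit 0)) (M (nat_lit 924049805148159)))))) (T.h (P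 (nat_lit 0)) (T.h (T.h (P (nat_lit 67271243517672959246336)) (T.h (P (nat_lit 0)) (P (nat_lit 40463675361591296)))) (T.h (P (nat_lit 0)) (P (nat_lit 6397804160745472)))))) (T.h (T.h (P (nat_lit 0)) (T.h (T.h (P (nat_lit 0)) (T.h (M (nat_lit 207307129298180112383)) (T.h (P (nat_lit 0)) (M (nat_lit 3887843184823))))) (T.h (P (nat_lit 0)) (T.h (T.h (P (nat_lit 0)) (P (nat_lit 17193851118640))) (P (nat_lit 0)))))) (T.h (T.h (T.h (M (nat_lit 30127997819102433378303)) (T.h (P (nat_lit 0)) (P (nat_lit 101045535267389440)))) (T.h (P (nat_lit 0)) (P (nat_lit 70704301938114560)))) (T.h (T.h (P (nat_lit 0)) (T.h (T.h (P (nat_lit 0)) (P (nat_lit 81339482813120))) (P (nat_lit 0)))) (P (nat_lit 3577843045728256))))))), (T.h (T.h (P (nat_lit 0)) (T.h (T.h (M (nat_lit 7828493730594769166535753727)) (T.h (P (nat_lit 0)) (T.h (M (nat_lit 86396255065120928956415)) (T.h (P (nat_lit 0)) (P (nat_lit 41801517790085120)))))) (T.h (P (nat_lit 0)) (T.h (T.h (M (nat_lit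 53837020979397488803839)) (T.h (P (nat_lit 0)) (M (nat_lit 12512659497795583)))) (T.h (P (nat_lit 0)) (P (nat_lit 2214687480594432))))))) (T.h (T.h (T.h (P (nat_lit 0)) (T.h (P (nat_lit 46086304177284694394535936)) (T.h (P (nat_lit 0)) (T.h (P (nat_lit 30801212723777503232)) (T.h (P (nat_lit 0)) (M (nat_lit 6838306003199))))))) (T.h (P (nat_lit 0)) (T.h (T.h (P (nat_lit 0)) (T.h (P (nat_lit 32969033259893653504)) (T.h (P (nat_lit 0)) (M (nat_lit 35234724419327))))) (T.h (P (nat_lit 0)) (T.h (T.h (P (nat_lit 0)) (M (nat_lit 106196366572463))) (P (nat_lit 0))))))) (T.h (T.h (P (nat_lit 0)) (T.h (T.h (M (nat_lit 58790689262420470267903)) (T.h (P (nat_lit 0)) (P (nat_lit 71146723141287936)))) (T.h (P (nat_lit 0)) (P (nat_lit 26954648264163328))))) (T.h (T.h (T.h (P (nat_lit 0)) (T.h (P (nat_lit 66463044662110191616)) (T.h (P (nat_lit 0)) (M (nat_lit 12935944374639))))) (T.h (P (nat_lit 0)) (T.h (T.h (P (nat_lit 0)) (M (nat_lit 26187724296383)))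 (P (nat_lit 0))))) (T.h (T.h (P (nat_lit 0)) (P (nat_lit 72563184030810112))) (T.h (T.h (T.h (P (nat_lit 0)) (P (nat_lit 2973639012512))) (P (nat_lit 0))) (P (nat_lit 0)))))))), (T.h (T.h (P (nat_lit 0)) (T.h (T.h (P (nat_lit 0)) (T.h (P (nat_lit 65327691014593808938565632)) (T.h (P (nat_lit 0)) (T.h (M (nat_lit 170459976830579376127)) (T.h (P (nat_lit 0)) (P (nat_lit 29642179435440))))))) (T.h (P (nat_lit 0)) (T.h (T.h (P (nat_lit 0)) (T.h (P (nat_lit 44316201049126862848)) (T.h (P (nat_lit 0)) (M (nat_lit 28011356159807))))) (T.h (P (nat_lit 0)) (T.h (T.h (P (nat_lit 0)) (P (nat_lit 58490233436160))) (P (nat_lit 0)))))))) (T.h (T.h (T.h (M (nat_lit 11206858331730975898332037119)) (T.h (P (nat_lit 0)) (T.h (M (nat_lit 60140621660989331341311)) (T.h (P (nat_lit 0)) (P (nat_lit 69542991381856256)))))) (T.h (P (nat_lit 0)) (T.h (T.h (M (nat_lit 43623809268111311372287)) (T.h (P (nat_lit 0)) (M (nat_lit 7091974289948671)))) (T.h (P (nat_lit 0))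 (M (nat_lit 56962648596381695)))))) (T.h (T.h (P (nat_lit 0)) (T.h (T.h (P (nat_lit 0)) (T.h (M (nat_lit 171825225033142239231)) (T.h (P (nat_lit 0)) (P (nat_lit 50467503897696))))) (T.h (P (nat_lit 0)) (T.h (T.h (P (nat_lit 0)) (P (nat_lit 29858777633616))) (P (nat_lit 0)))))) (T.h (T.h (T.h (M (nat_lit 77098816337587598262271)) (T.h (P (nat_lit 0)) (P (nat_lit 103149845031059456)))) (T.h (P (nat_lit 0)) (P (nat_lit 93063017328082944)))) (T.h (T.h (P (nat_lit 0)) (T.h (T.h (P (nat_lit 0)) (P (nat_lit 57089020173120))) (P (nat_lit 0)))) (M (nat_lit 42396323796090879))))))), (T.h (T.h (P (nat_lit 0)) (T.h (T.h (P (nat_lit 11238980698650938542005420032)) (T.h (P (nat_lit 0)) (T.h (M (nat_lit 16836983933660345401343)) (T.h (P (nat_lit 0)) (M (nat_lit 55731942695206911)))))) (T.h (P (nat_lit 0)) (T.h (T.h (M (nat_lit 53788279463736556650495)) (T.h (P (nat_lit 0)) (M (nat_lit 7570336880918527)))) (T.h (P (nat_lit 0)) (M (nat_lit 34664899391881215)))))))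 (T.h (T.h (T.h (P (nat_lit 0)) (T.h (P (nat_lit 19367672092064425713860608)) (T.h (P (nat_lit 0)) (P (nat_lit 72063663062135078912))))) (T.h (P (nat_lit 0)) (T.h (T.h (P (nat_lit 0)) (P (nat_lit 46620149615710699520))) (P (nat_lit 0))))) (T.h (T.h (P (nat_lit 0)) (T.h (T.h (P (nat_lit 43591358222280624701440)) (T.h (P (nat_lit 0)) (M (nat_lit 126441140809465855)))) (T.h (P (nat_lit 0)) (M (nat_lit 6342112259833855))))) (T.h (T.h (T.h (P (nat_lit 0)) (P (nat_lit 68919699635825541120))) (P (nat_lit 0))) (T.h (T.h (P (nat_lit 0)) (M (nat_lit 34572894901452799))) (P (nat_lit 0))))))), (T.h (T.h (T.h (P (nat_lit 0)) (T.h (P (nat_lit 17732048480337310963034226688)) (T.h (P (nat_lit 0)) (T.h (P (nat_lit 68690807335618479128576)) (T.h (P (nat_lit 0)) (P (nat_lit 18295635521830912))))))) (T.h (P (nat_lit 0)) (T.h (T.h (P (nat_lit 0)) (T.h (M (nat_lit 56951589904568897503231)) (T.h (P (nat_lit 0)) (P (nat_lit 26626813672521728))))) (T.h (P (nat_lit 0))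 (T.h (T.h (P (nat_lit 0)) (M (nat_lit 49142619981643775))) (P (nat_lit 0))))))) (T.h (T.h (P (nat_lit 0)) (T.h (T.h (M (nat_lit 29702241433547724283707391)) (T.h (P (nat_lit 0)) (T.h (P (nat_lit 30108199896007835648)) (T.h (P (nat_lit 0)) (M (nat_lit 34828772718095)))))) (T.h (P (nat_lit 0)) (T.h (T.h (M (nat_lit 48523615630004322303)) (T.h (P (nat_lit 0)) (P (nat_lit 3518744938464)))) (T.h (P (nat_lit 0)) (P (nat_lit 26198108211744))))))) (T.h (T.h (T.h (P (nat_lit 0)) (T.h (M (nat_lit 28868292221294516109311)) (T.h (P (nat_lit 0)) (M (nat_lit 20002742489366527))))) (T.h (P (nat_lit 0)) (T.h (T.h (P (nat_lit 0)) (M (nat_lit 112301889646100479))) (P (nat_lit 0))))) (T.h (T.h (P (nat_lit 0)) (T.h (T.h (M (nat_lit 10464800313708642303)) (T.h (P (nat_lit 0)) (M (nat_lit 19697368432335)))) (T.h (P (nat_lit 0)) (P (nat_lit 48075729287152))))) (T.h (T.h (T.h (P (nat_lit 0)) (M (nat_lit 62033274398932991))) (P (nat_lit 0))) (T.h (T.h (P (nat_lit 0))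 (P (nat_lit 17378022920608))) (P (nat_lit 0)))))))), (T.h (T.h (T.h (P (nat_lit 1846993693776953964714512089088)) (T.h (P (nat_lit 0)) (T.h (P (nat_lit 9267779979138846188109824)) (T.h (P (nat_lit 0)) (T.h (P (nat_lit 21361495557233704960)) (T.h (P (nat_lit 0)) (P (nat_lit 9036297227760)))))))) (T.h (P (nat_lit 0)) (T.h (T.h (P (nat_lit 39194054953230352210984960)) (T.h (P (nat_lit 0)) (T.h (M (nat_lit 178655111953365598207)) (T.h (P (nat_lit 0)) (P (nat_lit 6212043629760)))))) (T.h (P (nat_lit 0)) (T.h (T.h (P (nat_lit 3656082647739793408)) (T.h (P (nat_lit 0)) (P (nat_lit 11499073325808)))) (T.h (P (nat_lit 0)) (P (nat_lit 9063088586880)))))))) (T.h (T.h (P (nat_lit 0)) (T.h (T.h (P (nat_lit 0)) (T.h (M (nat_lit 44631435757538408136703)) (T.h (P (nat_lit 0)) (P (nat_lit 255711544494522368))))) (T.h (P (nat_lit 0)) (T.h (T.h (P (nat_lit 0)) (M (nat_lit 1096605955063807))) (P (nat_lit 0)))))) (T.h (T.h (T.h (M (nat_lit 1853130850168265947217919))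 (T.h (P (nat_lit 0)) (T.h (P (nat_lit 44051830469361139712)) (T.h (P (nat_lit 0)) (M (nat_lit 9666919590191)))))) (T.h (P (nat_lit 0)) (T.h (T.h (M (nat_lit 59348227073949827071)) (T.h (P (nat_lit 0)) (P (nat_lit 103953532457952)))) (T.h (P (nat_lit 0)) (P (nat_lit 32035500908496)))))) (T.h (T.h (P (nat_lit 0)) (T.h (T.h (P (nat_lit 0)) (P (nat_lit 198213351397588992))) (P (nat_lit 0)))) (T.h (T.h (T.h (P (nat_lit 18308500933782274048)) (T.h (P (nat_lit 0)) (M (nat_lit 19700315715743)))) (T.h (P (nat_lit 0)) (P (nat_lit 16715075086896)))) (T.h (P (nat_lit 0)) (M (nat_lit 10011972156527)))))))), (T.h (T.h (T.h (P (nat_lit 0)) (T.h (M (nat_lit 7009792124449566996540948479)) (T.h (P (nat_lit 0)) (T.h (M (nat_lit 39227712750225020944383)) (T.h (P (nat_lit 0)) (M (nat_lit 27819431985283071))))))) (T.h (P (nat_lit 0)) (T.h (T.h (P (nat_lit 0)) (T.h (M (nat_lit 15565283519963194195967)) (T.h (P (nat_lit 0)) (P (nat_lit 8063302404800512))))) (T.h (P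 (nat_lit 0)) (T.h (T.h (P (nat_lit 0)) (M (nat_lit 124796479176474623))) (P (nat_lit 0))))))) (T.h (T.h (P (nat_lit 0)) (T.h (T.h (M (nat_lit 26946122561816422248349695)) (T.h (P (nat_lit 0)) (M (nat_lit 90805660409449676799)))) (T.h (P (nat_lit 0)) (P (nat_lit 242514190933726068736))))) (T.h (T.h (T.h (P (nat_lit 0)) (T.h (M (nat_lit 1186236504068564451327)) (T.h (P (nat_lit 0)) (M (nat_lit 20233199744991231))))) (T.h (P (nat_lit 0)) (T.h (T.h (P (nat_lit 0)) (M (nat_lit 147485272928354303))) (P (nat_lit 0))))) (T.h (T.h (P (nat_lit 0)) (P (nat_lit 93037330654499438592))) (T.h (T.h (T.h (P (nat_lit 0)) (P (nat_lit 7899487230705664))) (P (nat_lit 0))) (P (nat_lit 0)))))))]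
def lP11_23 : List (T ℤ) := [(T.h (T.h (P (nat_lit 0)) (T.h (T.h (P (nat_lit 0)) (T.h (M (nat_lit 24685156938852956708536319)) (T.h (P (nat_lit 0)) (T.h (M (nat_lit 35097218249134178303)) (T.h (P (nat_lit 0)) (P (nat_lit 12420987943536))))))) (T.h (P (nat_lit 0)) (T.h (T.h (P (nat_lit 0)) (T.h (M (nat_lit 14943524989175857151)) (T.h (P (nat_lit 0)) (P (nat_lit 3812593611312))))) (T.h (P (nat_lit 0)) (T.h (T.h (P (nat_lit 0)) (M (nat_lit 21449622771023))) (P (nat_lit 0)))))))) (T.h (T.h (T.h (P (nat_lit 9181707860978385977383845888)) (T.h (P (nat_lit 0)) (T.h (M (nat_lit 6319837551329745567743)) (T.h (P (nat_lit 0)) (P (nat_lit 930457470205952)))))) (T.h (P (nat_lit 0)) (T.h (T.h (P (nat_lit 5062566552641189445632)) (T.h (P (nat_lit 0)) (P (nat_lit 48316474667630592)))) (T.h (P (nat_lit 0)) (M (nat_lit 42830481488740351)))))) (T.h (T.h (P (nat_lit 0)) (T.h (T.h (P (nat_lit 0)) (T.h (P (nat_lit 115968685479053754368)) (T.h (P (nat_lit 0)) (M (nat_lit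 11482374518735))))) (T.h (P (nat_lit 0)) (T.h (T.h (P (nat_lit 0)) (P (nat_lit 20634963543984))) (P (nat_lit 0)))))) (T.h (T.h (T.h (P (nat_lit 18602088333796593106944)) (T.h (P (nat_lit 0)) (M (nat_lit 33548629675507711)))) (T.h (P (nat_lit 0)) (M (nat_lit 50478875293548543)))) (T.h (T.h (P (nat_lit 0)) (T.h (T.h (P (nat_lit 0)) (M (nat_lit 54383364855791))) (P (nat_lit 0)))) (P (nat_lit 16976460900204544))))))), (T.h (T.h (P (nat_lit 0)) (T.h (T.h (P (nat_lit 7238378753668218089558245376)) (T.h (P (nat_lit 0)) (T.h (P (nat_lit 126624066426670344568832)) (T.h (P (nat_lit 0)) (M (nat_lit 25281264314073087)))))) (T.h (P (nat_lit 0)) (T.h (T.h (M (nat_lit 13983143431136971063295)) (T.h (P (nat_lit 0)) (M (nat_lit 22406557314826239)))) (T.h (P (nat_lit 0)) (M (nat_lit 29920305752571903))))))) (T.h (T.h (T.h (P (nat_lit 0)) (T.h (P (nat_lit 13151526703321401362743296)) (T.h (P (nat_lit 0)) (M (nat_lit 70207128503712743423))))) (T.h (P (nat_lit 0))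 (T.h (T.h (P (nat_lit 0)) (P (nat_lit 93469117835464671232))) (P (nat_lit 0))))) (T.h (T.h (P (nat_lit 0)) (T.h (T.h (P (nat_lit 66195724270729374466048)) (T.h (P (nat_lit 0)) (M (nat_lit 78200650234724351)))) (T.h (P (nat_lit 0)) (M (nat_lit 23634781935910911))))) (T.h (T.h (T.h (P (nat_lit 0)) (M (nat_lit 67063165077403205631))) (P (nat_lit 0))) (T.h (T.h (P (nat_lit 0)) (M (nat_lit 46440312107827199))) (P (nat_lit 0))))))), (T.h (T.h (T.h (P (nat_lit 0)) (T.h (M (nat_lit 3552167905337314461328867327)) (T.h (P (nat_lit 0)) (T.h (M (nat_lit 17514454350803945652223)) (T.h (P (nat_lit 0)) (M (nat_lit 125001479028735))))))) (T.h (P (nat_lit 0)) (T.h (T.h (P (nat_lit 0)) (T.h (P (nat_lit 73841325025681435787264)) (T.h (P (nat_lit 0)) (M (nat_lit 4147707045363711))))) (T.h (P (nat_lit 0)) (T.h (T.h (P (nat_lit 0)) (P (nat_lit 32917182886395904))) (P (nat_lit 0))))))) (T.h (T.h (P (nat_lit 0)) (T.h (T.h (P (nat_lit 190497846206537530343424)) (T.h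 (P (nat_lit 0)) (M (nat_lit 33794473039585345535)))) (T.h (P (nat_lit 0)) (M (nat_lit 28821610291506708479))))) (T.h (T.h (T.h (P (nat_lit 0)) (T.h (M (nat_lit 20860751503021825851391)) (T.h (P (nat_lit 0)) (M (nat_lit 6828128011485183))))) (T.h (P (nat_lit 0)) (T.h (T.h (P (nat_lit 0)) (M (nat_lit 12333211291975679))) (P (nat_lit 0))))) (T.h (T.h (P (nat_lit 0)) (M (nat_lit 99359662876024373247))) (T.h (T.h (T.h (P (nat_lit 0)) (P (nat_lit 29223053233750016))) (P (nat_lit 0))) (P (nat_lit 0))))))), (P (nat_lit 0)), (P (nat_lit 0)), (T.h (T.h (T.h (P (nat_lit 2362981971938681723231315951616)) (T.h (P (nat_lit 0)) (T.h (P (nat_lit 2807452377464748726288384)) (T.h (P (nat_lit 0)) (T.h (P (nat_lit 1473600440821088256)) (T.h (P (nat_lit 0)) (P (nat_lit 1881683625120)))))))) (T.h (P (nat_lit 0)) (T.h (T.h (M (nat_lit 7333312270972622047543295)) (T.h (P (nat_lit 0)) (T.h (M (nat_lit 5859465466359054335)) (T.h (P (nat_lit 0)) (P (nat_lit 1042106905216))))))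 (T.h (P (nat_lit 0)) (T.h (T.h (P (nat_lit 2883080607284330496)) (T.h (P (nat_lit 0)) (P (nat_lit 5661848525520)))) (T.h (P (nat_lit 0)) (M (nat_lit 938032279007)))))))) (T.h (T.h (P (nat_lit 0)) (T.h (T.h (P (nat_lit 0)) (T.h (M (nat_lit 50356209117790411423743)) (T.h (P (nat_lit 0)) (P (nat_lit 40788069370691584))))) (T.h (P (nat_lit 0)) (T.h (T.h (P (nat_lit 0)) (M (nat_lit 124448709464817663))) (P (nat_lit 0)))))) (T.h (T.h (T.h (P (nat_lit 2807452377464748726288384)) (T.h (P (nat_lit 0)) (T.h (P (nat_lit 47444693086864670720)) (T.h (P (nat_lit 0)) (M (nat_lit 18230505796079)))))) (T.h (P (nat_lit 0)) (T.h (T.h (M (nat_lit 5859465466359054335)) (T.h (P (nat_lit 0)) (M (nat_lit 2800608362303)))) (T.h (P (nat_lit 0)) (P (nat_lit 5661848525520)))))) (T.h (T.h (P (nat_lit 0)) (T.h (T.h (P (nat_lit 0)) (P (nat_lit 40788069370691584))) (P (nat_lit 0)))) (T.h (T.h (T.h (P (nat_lit 1473600440821088256)) (T.h (P (nat_lit 0)) (M (nat_lit 18230505796079))))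 (T.h (P (nat_lit 0)) (P (nat_lit 1042106905216)))) (T.h (P (nat_lit 0)) (P (nat_lit 1881683625120)))))))), (T.h (T.h (T.h (P (nat_lit 0)) (T.h (P (nat_lit 5868077265898543568226615296)) (T.h (P (nat_lit 0)) (T.h (M (nat_lit 17960240460068412194815)) (T.h (P (nat_lit 0)) (M (nat_lit 6184202340007935))))))) (T.h (P (nat_lit 0)) (T.h (T.h (P (nat_lit 0)) (T.h (M (nat_lit 26700015962339074375679)) (T.h (P (nat_lit 0)) (M (nat_lit 22572802849243135))))) (T.h (P (nat_lit 0)) (T.h (T.h (P (nat_lit 0)) (M (nat_lit 25377768435810303))) (P (nat_lit 0))))))) (T.h (T.h (P (nat_lit 0)) (T.h (T.h (P (nat_lit 13739223594421542558105600)) (T.h (P (nat_lit 0)) (T.h (P (nat_lit 23470598196360642560)) (T.h (P (nat_lit 0)) (P (nat_lit 14476686885368)))))) (T.h (P (nat_lit 0)) (T.h (T.h (P (nat_lit 15287187009160871936)) (T.h (P (nat_lit 0)) (P (nat_lit 15453759794080)))) (T.h (P (nat_lit 0)) (P (nat_lit 3021184331912))))))) (T.h (T.h (T.h (P (nat_lit 0)) (T.h (M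 (nat_lit 30977542478894093828095)) (T.h (P (nat_lit 0)) (P (nat_lit 83312061680222208))))) (T.h (P (nat_lit 0)) (T.h (T.h (P (nat_lit 0)) (M (nat_lit 66931479672619007))) (P (nat_lit 0))))) (T.h (T.h (P (nat_lit 0)) (T.h (T.h (P (nat_lit 7385027208714125312)) (T.h (P (nat_lit 0)) (M (nat_lit 14844636919919)))) (T.h (P (nat_lit 0)) (M (nat_lit 5730851703471))))) (T.h (T.h (T.h (P (nat_lit 0)) (P (nat_lit 2865318050037760))) (P (nat_lit 0))) (T.h (T.h (P (nat_lit 0)) (P (nat_lit 9003225838696))) (P (nat_lit 0)))))))), (T.h (T.h (T.h (P (nat_lit 8547243003319011634805544583168)) (T.h (P (nat_lit 0)) (T.h (M (nat_lit 10074423422740968400486399)) (T.h (P (nat_lit 0)) (T.h (P (nat_lit 2900983089347952640)) (T.h (P (nat_lit 0)) (M (nat_lit 8507132336751)))))))) (T.h (P (nat_lit 0)) (T.h (T.h (M (nat_lit 15586726180167793191682047)) (T.h (P (nat_lit 0)) (T.h (P (nat_lit 14865489118221041664)) (T.h (P (nat_lit 0)) (M (nat_lit 16452623026111)))))) (T.h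 (P (nat_lit 0)) (T.h (T.h (M (nat_lit 25082296066384068607)) (T.h (P (nat_lit 0)) (M (nat_lit 8671366263727)))) (T.h (P (nat_lit 0)) (M (nat_lit 1807611555343)))))))) (T.h (T.h (P (nat_lit 0)) (T.h (T.h (P (nat_lit 0)) (T.h (M (nat_lit 5544913477966684487679)) (T.h (P (nat_lit 0)) (M (nat_lit 51337459934527487))))) (T.h (P (nat_lit 0)) (T.h (T.h (P (nat_lit 0)) (P (nat_lit 107443297016119296))) (P (nat_lit 0)))))) (T.h (T.h (T.h (P (nat_lit 14510347300884980999127040)) (T.h (P (nat_lit 0)) (T.h (M (nat_lit 56693657735398424575)) (T.h (P (nat_lit 0)) (P (nat_lit 37577714858544)))))) (T.h (P (nat_lit 0)) (T.h (T.h (P (nat_lit 35663318068957806592)) (T.h (P (nat_lit 0)) (P (nat_lit 14277571269584)))) (T.h (P (nat_lit 0)) (M (nat_lit 6732252487071)))))) (T.h (T.h (P (nat_lit 0)) (T.h (T.h (P (nat_lit 0)) (P (nat_lit 788703454953472))) (P (nat_lit 0)))) (T.h (T.h (T.h (P (nat_lit 35610800256633012224)) (T.h (P (nat_lit 0)) (P (nat_lit 29692863900784))))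 (T.h (P (nat_lit 0)) (P (nat_lit 15366368407824)))) (T.h (P (nat_lit 0)) (M (nat_lit 4773610931599))))))))]
def lP11_24 : List (T ℤ) := [(T.h (T.h (T.h (P (nat_lit 0)) (T.h (P (nat_lit 5075728687560414900525203456)) (T.h (P (nat_lit 0)) (T.h (M (nat_lit 4975638722445056147455)) (T.h (P (nat_lit 0)) (P (nat_lit 15728383238602752))))))) (T.h (P (nat_lit 0)) (T.h (T.h (P (nat_lit 0)) (T.h (P (nat_lit 19474584951922158993408)) (T.h (P (nat_lit 0)) (P (nat_lit 4315555809820672))))) (T.h (P (nat_lit 0)) (T.h (T.h (P (nat_lit 0)) (M (nat_lit 17724020956954623))) (P (nat_lit 0))))))) (T.h (T.h (P (nat_lit 0)) (T.h (T.h (M (nat_lit 15188638981517575697989631)) (T.h (P (nat_lit 0)) (T.h (P (nat_lit 3965753984890699776)) (T.h (P (nat_lit 0)) (M (nat_lit 3300786166367)))))) (T.h (P (nat_lit 0)) (T.h (T.h (M (nat_lit 27117710602233970687)) (T.h (P (nat_lit 0)) (P (nat_lit 9557671096032)))) (T.h (P (nat_lit 0)) (M (nat_lit 10644566670095))))))) (T.h (T.h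 (T.h (P (nat_lit 0)) (T.h (P (nat_lit 30406151196474345521152)) (T.h (P (nat_lit 0)) (M (nat_lit 43971231570493439))))) (T.h (P (nat_lit 0)) (T.h (T.h (P (nat_lit 0)) (M (nat_lit 24912020807942143))) (P (nat_lit 0))))) (T.h (T.h (P (nat_lit 0)) (T.h (T.h (P (nat_lit 12216619188252311552)) (T.h (P (nat_lit 0)) (P (nat_lit 253154553840)))) (T.h (P (nat_lit 0)) (P (nat_lit 14947988241648))))) (T.h (T.h (T.h (P (nat_lit 0)) (P (nat_lit 31295638072459264))) (P (nat_lit 0))) (T.h (T.h (P (nat_lit 0)) (M (nat_lit 4836003780143))) (P (nat_lit 0)))))))), (T.h (T.h (T.h (M (nat_lit 848019981192476839092825358335)) (T.h (P (nat_lit 0)) (T.h (P (nat_lit 3438041479358372487626752)) (T.h (P (nat_lit 0)) (M (nat_lit 3512947433225060351)))))) (T.h (P (nat_lit 0)) (T.h (T.h (P (nat_lit 10653213847725133906575360)) (T.h (P (nat_lit 0)) (M (nat_lit 3300389089831813119)))) (T.h (P (nat_lit 0)) (P (nat_lit 11113978180799561728)))))) (T.h (T.h (P (nat_lit 0)) (T.h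 (T.h (P (nat_lit 0)) (T.h (P (nat_lit 41729021910207325798400)) (T.h (P (nat_lit 0)) (M (nat_lit 4819333066915839))))) (T.h (P (nat_lit 0)) (T.h (T.h (P (nat_lit 0)) (M (nat_lit 8839026266406911))) (P (nat_lit 0)))))) (T.h (T.h (T.h (M (nat_lit 6614624667399100999663615)) (T.h (P (nat_lit 0)) (M (nat_lit 19910758226580209663)))) (T.h (P (nat_lit 0)) (P (nat_lit 3947790254513061888)))) (T.h (T.h (P (nat_lit 0)) (T.h (T.h (P (nat_lit 0)) (P (nat_lit 5405502678335488))) (P (nat_lit 0)))) (M (nat_lit 30926891337990012927)))))), (P (nat_lit 0)), (T.h (T.h (P (nat_lit 0)) (T.h (T.h (P (nat_lit 0)) (T.h (M (nat_lit 1783583222540862459215871)) (T.h (P (nat_lit 0)) (T.h (M (nat_lit 968861825208680447)) (T.h (P (nat_lit 0)) (M (nat_lit 723600243695))))))) (T.h (P (nat_lit 0)) (T.h (T.h (P (nat_lit 0)) (T.h (M (nat_lit 968861825208680447)) (T.h (P (nat_lit 0)) (P (nat_lit 1106006924448))))) (T.h (P (nat_lit 0)) (T.h (T.h (P (nat_lit 0)) (M (nat_lit 723600243695)))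 (P (nat_lit 0)))))))) (T.h (T.h (T.h (P (nat_lit 292744442000501060956848128)) (T.h (P (nat_lit 0)) (T.h (M (nat_lit 71490041528832753663)) (T.h (P (nat_lit 0)) (M (nat_lit 7565409483816959)))))) (T.h (P (nat_lit 0)) (T.h (T.h (M (nat_lit 71490041528832753663)) (T.h (P (nat_lit 0)) (M (nat_lit 7318168459542527)))) (T.h (P (nat_lit 0)) (M (nat_lit 7565409483816959)))))) (T.h (T.h (P (nat_lit 0)) (T.h (T.h (P (nat_lit 0)) (T.h (M (nat_lit 9687899242886070271)) (T.h (P (nat_lit 0)) (P (nat_lit 6132761592576))))) (T.h (P (nat_lit 0)) (T.h (T.h (P (nat_lit 0)) (P (nat_lit 6132761592576))) (P (nat_lit 0)))))) (T.h (T.h (T.h (P (nat_lit 578675089556927152128)) (T.h (P (nat_lit 0)) (M (nat_lit 208462894661631)))) (T.h (P (nat_lit 0)) (M (nat_lit 208462894661631)))) (T.h (T.h (P (nat_lit 0)) (T.h (T.h (P (nat_lit 0)) (P (nat_lit 18277536452736))) (P (nat_lit 0)))) (M (nat_lit 1348496507797503))))))), (T.h (T.h (P (nat_lit 0)) (T.h (T.h (P (nat_lit 25439072121365587605594308608))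 (T.h (P (nat_lit 0)) (T.h (P (nat_lit 39260101701961162686464)) (T.h (P (nat_lit 0)) (M (nat_lit 46279448589402111)))))) (T.h (P (nat_lit 0)) (T.h (T.h (P (nat_lit 32835649226746181451776)) (T.h (P (nat_lit 0)) (M (nat_lit 124121882012975103)))) (T.h (P (nat_lit 0)) (P (nat_lit 27052447050694656))))))) (T.h (T.h (T.h (P (nat_lit 0)) (T.h (M (nat_lit 29588896002306567315652607)) (T.h (P (nat_lit 0)) (T.h (M (nat_lit 28145018818879553535)) (T.h (P (nat_lit 0)) (M (nat_lit 38828225798559))))))) (T.h (P (nat_lit 0)) (T.h (T.h (P (nat_lit 0)) (T.h (P (nat_lit 603140925707637489664)) (T.h (P (nat_lit 0)) (M (nat_lit 9001400120855))))) (T.h (P (nat_lit 0)) (T.h (T.h (P (nat_lit 0)) (P (nat_lit 13619761588416))) (P (nat_lit 0))))))) (T.h (T.h (P (nat_lit 0)) (T.h (T.h (P (nat_lit 38260419747544456757248)) (T.h (P (nat_lit 0)) (P (nat_lit 101597129374236672)))) (T.h (P (nat_lit 0)) (M (nat_lit 120493888905445375))))) (T.h (T.h (T.h (P (nat_lit 0)) (T.h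 (M (nat_lit 128814671488589234175)) (T.h (P (nat_lit 0)) (P (nat_lit 56916490450304))))) (T.h (P (nat_lit 0)) (T.h (T.h (P (nat_lit 0)) (P (nat_lit 25142437511608))) (P (nat_lit 0))))) (T.h (T.h (P (nat_lit 0)) (M (nat_lit 23539714618982399))) (T.h (T.h (T.h (P (nat_lit 0)) (M (nat_lit 60196205129887))) (P (nat_lit 0))) (P (nat_lit 0)))))))), (T.h (T.h (P (nat_lit 0)) (T.h (T.h (P (nat_lit 0)) (T.h (P (nat_lit 6361063573136040009924608)) (T.h (P (nat_lit 0)) (T.h (P (nat_lit 32547474825401073664)) (T.h (P (nat_lit 0)) (M (nat_lit 1102750372303))))))) (T.h (P (nat_lit 0)) (T.h (T.h (P (nat_lit 0)) (T.h (M (nat_lit 3114357112931614719)) (T.h (P (nat_lit 0)) (M (nat_lit 12260400160623))))) (T.h (P (nat_lit 0)) (T.h (T.h (P (nat_lit 0)) (M (nat_lit 10914695388015))) (P (nat_lit 0)))))))) (T.h (T.h (T.h (M (nat_lit 16519899788560389826718728191)) (T.h (P (nat_lit 0)) (T.h (M (nat_lit 20726215518357509111807)) (T.h (P (nat_lit 0)) (P (nat_lit 53376662237773824))))))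 (T.h (P (nat_lit 0)) (T.h (T.h (M (nat_lit 48331781321057967800319)) (T.h (P (nat_lit 0)) (P (nat_lit 67211279446638592)))) (T.h (P (nat_lit 0)) (P (nat_lit 22614995997048832)))))) (T.h (T.h (P (nat_lit 0)) (T.h (T.h (P (nat_lit 0)) (T.h (P (nat_lit 36912781505249411072)) (T.h (P (nat_lit 0)) (M (nat_lit 18575295500271))))) (T.h (P (nat_lit 0)) (T.h (T.h (P (nat_lit 0)) (M (nat_lit 27622295623215))) (P (nat_lit 0)))))) (T.h (T.h (T.h (M (nat_lit 38815681408239742746623)) (T.h (P (nat_lit 0)) (P (nat_lit 24872236208455680)))) (T.h (P (nat_lit 0)) (M (nat_lit 14595071553503231)))) (T.h (T.h (P (nat_lit 0)) (T.h (T.h (P (nat_lit 0)) (M (nat_lit 94064231272143))) (P (nat_lit 0)))) (M (nat_lit 14922245059133439))))))), (T.h (T.h (P (nat_lit 0)) (T.h (T.h (M (nat_lit 25920019054726368708448485375)) (T.h (P (nat_lit 0)) (T.h (M (nat_lit 11270670670228105461759)) (T.h (P (nat_lit 0)) (M (nat_lit 58695919728099327)))))) (T.h (P (nat_lit 0)) (T.h (T.h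 (M (nat_lit 32169525483728206299135)) (T.h (P (nat_lit 0)) (P (nat_lit 46994885653495808)))) (T.h (P (nat_lit 0)) (M (nat_lit 18888208648962047))))))) (T.h (T.h (T.h (P (nat_lit 0)) (T.h (P (nat_lit 38096627589110099462848512)) (T.h (P (nat_lit 0)) (T.h (P (nat_lit 106594337060644978688)) (T.h (P (nat_lit 0)) (P (nat_lit 56011950313632))))))) (T.h (P (nat_lit 0)) (T.h (T.h (P (nat_lit 0)) (T.h (M (nat_lit 285020327601149837311)) (T.h (P (nat_lit 0)) (M (nat_lit 5451005508863))))) (T.h (P (nat_lit 0)) (T.h (T.h (P (nat_lit 0)) (P (nat_lit 3622862751840))) (P (nat_lit 0))))))) (T.h (T.h (P (nat_lit 0)) (T.h (T.h (M (nat_lit 27787483063106125430783)) (T.h (P (nat_lit 0)) (M (nat_lit 29192182078373887)))) (T.h (P (nat_lit 0)) (P (nat_lit 57081713356472320))))) (T.h (T.h (T.h (P (nat_lit 0)) (T.h (M (nat_lit 108181840819061260287)) (T.h (P (nat_lit 0)) (M (nat_lit 28889076865151))))) (T.h (P (nat_lit 0)) (T.h (T.h (P (nat_lit 0)) (P (nat_lit 15157720755216)))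 (P (nat_lit 0))))) (T.h (T.h (P (nat_lit 0)) (P (nat_lit 67809720250138624))) (T.h (T.h (T.h (P (nat_lit 0)) (P (nat_lit 27163896312912))) (P (nat_lit 0))) (P (nat_lit 0)))))))), (T.h (T.h (P (nat_lit 0)) (T.h (T.h (P (nat_lit 0)) (T.h (M (nat_lit 34949159902444343565221887)) (T.h (P (nat_lit 0)) (P (nat_lit 130808218232064835584))))) (T.h (P (nat_lit 0)) (T.h (T.h (P (nat_lit 0)) (M (nat_lit 18668642047161794559))) (P (nat_lit 0)))))) (T.h (T.h (T.h (P (nat_lit 3133521640352018543595749376)) (T.h (P (nat_lit 0)) (T.h (M (nat_lit 3848273589639705526271)) (T.h (P (nat_lit 0)) (M (nat_lit 107296303587655679)))))) (T.h (P (nat_lit 0)) (T.h (T.h (P (nat_lit 10530773426254924218368)) (T.h (P (nat_lit 0)) (M (nat_lit 48253519760162815)))) (T.h (P (nat_lit 0)) (P (nat_lit 25399662819524608)))))) (T.h (T.h (P (nat_lit 0)) (T.h (T.h (P (nat_lit 0)) (M (nat_lit 64795198108966322175))) (P (nat_lit 0)))) (T.h (T.h (T.h (P (nat_lit 6131544820029419683840))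 (T.h (P (nat_lit 0)) (P (nat_lit 24755005882941440)))) (T.h (P (nat_lit 0)) (M (nat_lit 3541496266850303)))) (T.h (P (nat_lit 0)) (P (nat_lit 3746641894768640)))))))]
def lP11_25 : List (T ℤ) := [(T.h (T.h (T.h (P (nat_lit 2234861071386015486096483287040)) (T.h (P (nat_lit 0)) (T.h (M (nat_lit 7708168516762077199597567)) (T.h (P (nat_lit 0)) (T.h (M (nat_lit 274983503278374911)) (T.h (P (nat_lit 0)) (P (nat_lit 442542226560)))))))) (T.h (P (nat_lit 0)) (T.h (T.h (P (nat_lit 2432596131675293574234112)) (T.h (P (nat_lit 0)) (T.h (M (nat_lit 7565961573420761087)) (T.h (P (nat_lit 0)) (P (nat_lit 6846553600992)))))) (T.h (P (nat_lit 0)) (T.h (T.h (M (nat_lit 1684463669741617151)) (T.h (P (nat_lit 0)) (P (nat_lit 2226811980688)))) (T.h (P (nat_lit 0)) (P (nat_lit 3262258130688)))))))) (T.h (T.h (P (nat_lit 0)) (T.h (T.h (P (nat_lit 0)) (T.h (M (nat_lit 52336254976759705894911)) (T.h (P (nat_lit 0)) (M (nat_lit 121581743433187327))))) (T.h (P (nat_lit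 0)) (T.h (T.h (P (nat_lit 0)) (P (nat_lit 43655035402321920))) (P (nat_lit 0)))))) (T.h (T.h (T.h (P (nat_lit 3051797688256327059505152)) (T.h (P (nat_lit 0)) (T.h (M (nat_lit 7796718564454432767)) (T.h (P (nat_lit 0)) (P (nat_lit 8369762580992)))))) (T.h (P (nat_lit 0)) (T.h (T.h (P (nat_lit 45507439988769292288)) (T.h (P (nat_lit 0)) (P (nat_lit 1638349355456)))) (T.h (P (nat_lit 0)) (M (nat_lit 15522591740607)))))) (T.h (T.h (P (nat_lit 0)) (T.h (T.h (P (nat_lit 0)) (P (nat_lit 44583115770822656))) (P (nat_lit 0)))) (T.h (T.h (T.h (P (nat_lit 2096545058307178496)) (T.h (P (nat_lit 0)) (P (nat_lit 5028296010656)))) (T.h (P (nat_lit 0)) (M (nat_lit 14244316690639)))) (T.h (P (nat_lit 0)) (M (nat_lit 581504258111)))))))), (T.h (T.h (T.h (P (nat_lit 0)) (T.h (P (nat_lit 25915314775276063335450148864)) (T.h (P (nat_lit 0)) (T.h (P (nat_lit 37217567933618439847936)) (T.h (P (nat_lit 0)) (P (nat_lit 17476605358931968))))))) (T.h (P (nat_lit 0))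 (T.h (T.h (P (nat_lit 0)) (T.h (P (nat_lit 30035619129775030796288)) (T.h (P (nat_lit 0)) (P (nat_lit 42708329707143168))))) (T.h (P (nat_lit 0)) (T.h (T.h (P (nat_lit 0)) (M (nat_lit 93606095374286847))) (P (nat_lit 0))))))) (T.h (T.h (P (nat_lit 0)) (T.h (T.h (M (nat_lit 74707748385063182113177599)) (T.h (P (nat_lit 0)) (T.h (P (nat_lit 13655237996218155008)) (T.h (P (nat_lit 0)) (M (nat_lit 10206279154663)))))) (T.h (P (nat_lit 0)) (T.h (T.h (P (nat_lit 208488500830169726976)) (T.h (P (nat_lit 0)) (P (nat_lit 13969092811040)))) (T.h (P (nat_lit 0)) (M (nat_lit 735534927183))))))) (T.h (T.h (T.h (P (nat_lit 0)) (T.h (P (nat_lit 32122294185496053547008)) (T.h (P (nat_lit 0)) (P (nat_lit 32773714036719616))))) (T.h (P (nat_lit 0)) (T.h (T.h (P (nat_lit 0)) (M (nat_lit 91805828405035007))) (P (nat_lit 0))))) (T.h (T.h (P (nat_lit 0)) (T.h (T.h (M (nat_lit 107215200032036749311)) (T.h (P (nat_lit 0)) (M (nat_lit 17233012337271)))) (T.h (P (nat_lit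 0)) (M (nat_lit 29420639605431))))) (T.h (T.h (T.h (P (nat_lit 0)) (P (nat_lit 113971583758237696))) (P (nat_lit 0))) (T.h (T.h (P (nat_lit 0)) (M (nat_lit 25595088244551))) (P (nat_lit 0)))))))), (T.h (T.h (T.h (P (nat_lit 34469396769798165494452468056064)) (T.h (P (nat_lit 0)) (T.h (P (nat_lit 44519641943507608847515648)) (T.h (P (nat_lit 0)) (T.h (P (nat_lit 47482288048942612480)) (T.h (P (nat_lit 0)) (P (nat_lit 6826623893488)))))))) (T.h (P (nat_lit 0)) (T.h (T.h (P (nat_lit 14422568462454834656706560)) (T.h (P (nat_lit 0)) (T.h (P (nat_lit 33504488882459115520)) (T.h (P (nat_lit 0)) (M (nat_lit 20438202200751)))))) (T.h (P (nat_lit 0)) (T.h (T.h (M (nat_lit 13210808274074468351)) (T.h (P (nat_lit 0)) (M (nat_lit 42536823095647)))) (T.h (P (nat_lit 0)) (P (nat_lit 9792623269744)))))))) (T.h (T.h (P (nat_lit 0)) (T.h (T.h (P (nat_lit 0)) (T.h (M (nat_lit 62416489380685828587519)) (T.h (P (nat_lit 0)) (P (nat_lit 163637327301378048))))) (T.h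 (P (nat_lit 0)) (T.h (T.h (P (nat_lit 0)) (P (nat_lit 270291920862543872))) (P (nat_lit 0)))))) (T.h (T.h (T.h (P (nat_lit 19934871219881659447902208)) (T.h (P (nat_lit 0)) (T.h (M (nat_lit 58852486921897115647)) (T.h (P (nat_lit 0)) (M (nat_lit 6111706707791)))))) (T.h (P (nat_lit 0)) (T.h (T.h (P (nat_lit 12706659931722350592)) (T.h (P (nat_lit 0)) (P (nat_lit 2383799509616)))) (T.h (P (nat_lit 0)) (M (nat_lit 44475936872303)))))) (T.h (T.h (P (nat_lit 0)) (T.h (T.h (P (nat_lit 0)) (P (nat_lit 111511163911897088))) (P (nat_lit 0)))) (T.h (T.h (T.h (P (nat_lit 14772470881657552896)) (T.h (P (nat_lit 0)) (P (nat_lit 1773144249968)))) (T.h (P (nat_lit 0)) (M (nat_lit 52257193634687)))) (T.h (P (nat_lit 0)) (P (nat_lit 3093102488336)))))))), (T.h (T.h (T.h (P (nat_lit 0)) (T.h (P (nat_lit 18529432507910414292886749184)) (T.h (P (nat_lit 0)) (T.h (M (nat_lit 23497555097726815830015)) (T.h (P (nat_lit 0)) (M (nat_lit 15087081316876287))))))) (T.h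 (P (nat_lit 0)) (T.h (T.h (P (nat_lit 0)) (T.h (M (nat_lit 15669734238933647097855)) (T.h (P (nat_lit 0)) (P (nat_lit 6429248133234688))))) (T.h (P (nat_lit 0)) (T.h (T.h (P (nat_lit 0)) (P (nat_lit 7531921577934848))) (P (nat_lit 0))))))) (T.h (T.h (P (nat_lit 0)) (T.h (T.h (P (nat_lit 15634930968812011095326720)) (T.h (P (nat_lit 0)) (T.h (P (nat_lit 204070318076118171648)) (T.h (P (nat_lit 0)) (P (nat_lit 3168478249392)))))) (T.h (P (nat_lit 0)) (T.h (T.h (M (nat_lit 64727913200095330303)) (T.h (P (nat_lit 0)) (P (nat_lit 20437287337344)))) (T.h (P (nat_lit 0)) (P (nat_lit 10661404066896))))))) (T.h (T.h (T.h (P (nat_lit 0)) (T.h (M (nat_lit 43982881278496188923903)) (T.h (P (nat_lit 0)) (M (nat_lit 21776831697780735))))) (T.h (P (nat_lit 0)) (T.h (T.h (P (nat_lit 0)) (P (nat_lit 43462957736230912))) (P (nat_lit 0))))) (T.h (T.h (P (nat_lit 0)) (T.h (T.h (M (nat_lit 40455026207279284223)) (T.h (P (nat_lit 0)) (P (nat_lit 42283604431488))))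 (T.h (P (nat_lit 0)) (P (nat_lit 2312718109872))))) (T.h (T.h (T.h (P (nat_lit 0)) (M (nat_lit 16801593346162687))) (P (nat_lit 0))) (T.h (T.h (P (nat_lit 0)) (M (nat_lit 17687626344095))) (P (nat_lit 0)))))))), (T.h (T.h (T.h (M (nat_lit 2158715027469926782626691022847)) (T.h (P (nat_lit 0)) (T.h (P (nat_lit 3305967084846956888981504)) (T.h (P (nat_lit 0)) (P (nat_lit 41067633087189352448)))))) (T.h (P (nat_lit 0)) (T.h (T.h (P (nat_lit 33337618639729065522626560)) (T.h (P (nat_lit 0)) (P (nat_lit 24234172217068355584)))) (T.h (P (nat_lit 0)) (P (nat_lit 47976782058848518144)))))) (T.h (T.h (P (nat_lit 0)) (T.h (T.h (P (nat_lit 0)) (T.h (P (nat_lit 71991074787313208786944)) (T.h (P (nat_lit 0)) (M (nat_lit 1644384781697023))))) (T.h (P (nat_lit 0)) (T.h (T.h (P (nat_lit 0)) (M (nat_lit 19092983665393663))) (P (nat_lit 0)))))) (T.h (T.h (T.h (P (nat_lit 18460261466987417481248768)) (T.h (P (nat_lit 0)) (M (nat_lit 8048539277899857919)))) (T.h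 (P (nat_lit 0)) (M (nat_lit 50230513080956092415)))) (T.h (T.h (P (nat_lit 0)) (T.h (T.h (P (nat_lit 0)) (P (nat_lit 24513404691382272))) (P (nat_lit 0)))) (P (nat_lit 28045583246059110400)))))), (T.h (T.h (P (nat_lit 0)) (T.h (T.h (M (nat_lit 6575954522997713494022815743)) (T.h (P (nat_lit 0)) (T.h (M (nat_lit 27633644161980858105855)) (T.h (P (nat_lit 0)) (M (nat_lit 924049805148159)))))) (T.h (P (nat_lit 0)) (T.h (T.h (M (nat_lit 30127997819102433378303)) (T.h (P (nat_lit 0)) (P (nat_lit 101045535267389440)))) (T.h (P (nat_lit 0)) (P (nat_lit 3577843045728256))))))) (T.h (T.h (T.h (P (nat_lit 0)) (T.h (P (nat_lit 3642758162366038185869312)) (T.h (P (nat_lit 0)) (T.h (M (nat_lit 55815510666470490111)) (T.h (P (nat_lit 0)) (M (nat_lit 23162146526199))))))) (T.h (P (nat_lit 0)) (T.h (T.h (P (nat_lit 0)) (T.h (M (nat_lit 207307129298180112383)) (T.h (P (nat_lit 0)) (M (nat_lit 3887843184823))))) (T.h (P (nat_lit 0)) (T.h (T.h (P (nat_lit 0))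 (P (nat_lit 81339482813120))) (P (nat_lit 0))))))) (T.h (T.h (P (nat_lit 0)) (T.h (T.h (P (nat_lit 67271243517672959246336)) (T.h (P (nat_lit 0)) (P (nat_lit 40463675361591296)))) (T.h (P (nat_lit 0)) (P (nat_lit 70704301938114560))))) (T.h (T.h (T.h (P (nat_lit 0)) (T.h (M (nat_lit 92204131045926240255)) (T.h (P (nat_lit 0)) (M (nat_lit 10572253411111))))) (T.h (P (nat_lit 0)) (T.h (T.h (P (nat_lit 0)) (P (nat_lit 17193851118640))) (P (nat_lit 0))))) (T.h (T.h (P (nat_lit 0)) (P (nat_lit 6397804160745472))) (T.h (T.h (T.h (P (nat_lit 0)) (P (nat_lit 26818855177008))) (P (nat_lit 0))) (P (nat_lit 0)))))))), (T.h (T.h (P (nat_lit 0)) (T.h (T.h (P (nat_lit 0)) (T.h (P (nat_lit 46086304177284694394535936)) (T.h (P (nat_lit 0)) (T.h (P (nat_lit 30801212723777503232)) (T.h (P (nat_lit 0)) (M (nat_lit 6838306003199))))))) (T.h (P (nat_lit 0)) (T.h (T.h (P (nat_lit 0)) (T.h (P (nat_lit 66463044662110191616)) (T.h (P (nat_lit 0)) (M (nat_lit 12935944374639)))))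 (T.h (P (nat_lit 0)) (T.h (T.h (P (nat_lit 0)) (P (nat_lit 2973639012512))) (P (nat_lit 0)))))))) (T.h (T.h (T.h (M (nat_lit 7828493730594769166535753727)) (T.h (P (nat_lit 0)) (T.h (M (nat_lit 86396255065120928956415)) (T.h (P (nat_lit 0)) (P (nat_lit 41801517790085120)))))) (T.h (P (nat_lit 0)) (T.h (T.h (M (nat_lit 58790689262420470267903)) (T.h (P (nat_lit 0)) (P (nat_lit 71146723141287936)))) (T.h (P (nat_lit 0)) (P (nat_lit 72563184030810112)))))) (T.h (T.h (P (nat_lit 0)) (T.h (T.h (P (nat_lit 0)) (T.h (P (nat_lit 32969033259893653504)) (T.h (P (nat_lit 0)) (M (nat_lit 35234724419327))))) (T.h (P (nat_lit 0)) (T.h (T.h (P (nat_lit 0)) (M (nat_lit 26187724296383))) (P (nat_lit 0)))))) (T.h (T.h (T.h (M (nat_lit 53837020979397488803839)) (T.h (P (nat_lit 0)) (M (nat_lit 12512659497795583)))) (T.h (P (nat_lit 0)) (P (nat_lit 26954648264163328)))) (T.h (T.h (P (nat_lit 0)) (T.h (T.h (P (nat_lit 0)) (M (nat_lit 106196366572463))) (P (nat_lit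 0)))) (P (nat_lit 2214687480594432))))))), (T.h (T.h (P (nat_lit 0)) (T.h (T.h (M (nat_lit 11206858331730975898332037119)) (T.h (P (nat_lit 0)) (T.h (M (nat_lit 60140621660989331341311)) (T.h (P (nat_lit 0)) (P (nat_lit 69542991381856256)))))) (T.h (P (nat_lit 0)) (T.h (T.h (M (nat_lit 77098816337587598262271)) (T.h (P (nat_lit 0)) (P (nat_lit 103149845031059456)))) (T.h (P (nat_lit 0)) (M (nat_lit 42396323796090879))))))) (T.h (T.h (T.h (P (nat_lit 0)) (T.h (P (nat_lit 65327691014593808938565632)) (T.h (P (nat_lit 0)) (T.h (M (nat_lit 170459976830579376127)) (T.h (P (nat_lit 0)) (P (nat_lit 29642179435440))))))) (T.h (P (nat_lit 0)) (T.h (T.h (P (nat_lit 0)) (T.h (M (nat_lit 171825225033142239231)) (T.h (P (nat_lit 0)) (P (nat_lit 50467503897696))))) (T.h (P (nat_lit 0)) (T.h (T.h (P (nat_lit 0)) (P (nat_lit 57089020173120))) (P (nat_lit 0))))))) (T.h (T.h (P (nat_lit 0)) (T.h (T.h (M (nat_lit 43623809268111311372287)) (T.h (P (nat_lit 0))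 (M (nat_lit 7091974289948671)))) (T.h (P (nat_lit 0)) (P (nat_lit 93063017328082944))))) (T.h (T.h (T.h (P (nat_lit 0)) (T.h (P (nat_lit 44316201049126862848)) (T.h (P (nat_lit 0)) (M (nat_lit 28011356159807))))) (T.h (P (nat_lit 0)) (T.h (T.h (P (nat_lit 0)) (P (nat_lit 29858777633616))) (P (nat_lit 0))))) (T.h (T.h (P (nat_lit 0)) (M (nat_lit 56962648596381695))) (T.h (T.h (T.h (P (nat_lit 0)) (P (nat_lit 58490233436160))) (P (nat_lit 0))) (P (nat_lit 0))))))))]
def lP11_26 : List (T ℤ) := [(T.h (T.h (P (nat_lit 0)) (T.h (T.h (P (nat_lit 0)) (T.h (P (nat_lit 19367672092064425713860608)) (T.h (P (nat_lit 0)) (P (nat_lit 72063663062135078912))))) (T.h (P (nat_lit 0)) (T.h (T.h (P (nat_lit 0)) (P (nat_lit 68919699635825541120))) (P (nat_lit 0)))))) (T.h (T.h (T.h (P (nat_lit 11238980698650938542005420032)) (T.h (P (nat_lit 0)) (T.h (M (nat_lit 16836983933660345401343)) (T.h (P (nat_lit 0)) (M (nat_lit 55731942695206911)))))) (T.h (P (nat_lit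 0)) (T.h (T.h (P (nat_lit 43591358222280624701440)) (T.h (P (nat_lit 0)) (M (nat_lit 126441140809465855)))) (T.h (P (nat_lit 0)) (M (nat_lit 34572894901452799)))))) (T.h (T.h (P (nat_lit 0)) (T.h (T.h (P (nat_lit 0)) (P (nat_lit 46620149615710699520))) (P (nat_lit 0)))) (T.h (T.h (T.h (M (nat_lit 53788279463736556650495)) (T.h (P (nat_lit 0)) (M (nat_lit 7570336880918527)))) (T.h (P (nat_lit 0)) (M (nat_lit 6342112259833855)))) (T.h (P (nat_lit 0)) (M (nat_lit 34664899391881215))))))), (T.h (T.h (T.h (P (nat_lit 17094486006638023269611089166336)) (T.h (P (nat_lit 0)) (T.h (M (nat_lit 31173452360335586383364095)) (T.h (P (nat_lit 0)) (T.h (M (nat_lit 50164592132768137215)) (T.h (P (nat_lit 0)) (M (nat_lit 3615223110687)))))))) (T.h (P (nat_lit 0)) (T.h (T.h (P (nat_lit 4435923878144012598640640)) (T.h (P (nat_lit 0)) (T.h (P (nat_lit 50528807187178848256)) (T.h (P (nat_lit 0)) (M (nat_lit 15403618750799)))))) (T.h (P (nat_lit 0)) (T.h (T.h (P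 (nat_lit 38511783345980964864)) (T.h (P (nat_lit 0)) (M (nat_lit 1086254618287)))) (T.h (P (nat_lit 0)) (M (nat_lit 13280743268351)))))))) (T.h (T.h (P (nat_lit 0)) (T.h (T.h (P (nat_lit 0)) (T.h (M (nat_lit 11089826955933368975359)) (T.h (P (nat_lit 0)) (P (nat_lit 214886594032238592))))) (T.h (P (nat_lit 0)) (T.h (T.h (P (nat_lit 0)) (M (nat_lit 50548756479574015))) (P (nat_lit 0)))))) (T.h (T.h (T.h (P (nat_lit 4435923878144012598640640)) (T.h (P (nat_lit 0)) (T.h (P (nat_lit 50528807187178848256)) (T.h (P (nat_lit 0)) (M (nat_lit 15403618750799)))))) (T.h (P (nat_lit 0)) (T.h (T.h (M (nat_lit 113387315470796849151)) (T.h (P (nat_lit 0)) (P (nat_lit 28555142539168)))) (T.h (P (nat_lit 0)) (P (nat_lit 67270578759328)))))) (T.h (T.h (P (nat_lit 0)) (T.h (T.h (P (nat_lit 0)) (M (nat_lit 50548756479574015))) (P (nat_lit 0)))) (T.h (T.h (T.h (P (nat_lit 38511783345980964864)) (T.h (P (nat_lit 0)) (M (nat_lit 1086254618287)))) (T.h (P (nat_lit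 0)) (P (nat_lit 67270578759328)))) (T.h (P (nat_lit 0)) (M (nat_lit 13280743268351)))))))), (T.h (T.h (T.h (P (nat_lit 0)) (T.h (M (nat_lit 51840038109452737416896970751)) (T.h (P (nat_lit 0)) (T.h (M (nat_lit 64339050967456412598271)) (T.h (P (nat_lit 0)) (M (nat_lit 37776417297924095))))))) (T.h (P (nat_lit 0)) (T.h (T.h (P (nat_lit 0)) (T.h (M (nat_lit 39058153733334230892543)) (T.h (P (nat_lit 0)) (P (nat_lit 104076599009968128))))) (T.h (P (nat_lit 0)) (T.h (T.h (P (nat_lit 0)) (P (nat_lit 9113800522039296))) (P (nat_lit 0))))))) (T.h (T.h (P (nat_lit 0)) (T.h (T.h (P (nat_lit 76193255178220198925697024)) (T.h (P (nat_lit 0)) (T.h (M (nat_lit 570040655202299674623)) (T.h (P (nat_lit 0)) (P (nat_lit 7245725503680)))))) (T.h (P (nat_lit 0)) (T.h (T.h (M (nat_lit 1587503758416281599)) (T.h (P (nat_lit 0)) (P (nat_lit 9706715246352)))) (T.h (P (nat_lit 0)) (P (nat_lit 83175846626544))))))) (T.h (T.h (T.h (P (nat_lit 0)) (T.h (M (nat_lit 39058153733334230892543))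 (T.h (P (nat_lit 0)) (P (nat_lit 104076599009968128))))) (T.h (P (nat_lit 0)) (T.h (T.h (P (nat_lit 0)) (M (nat_lit 58384364156747775))) (P (nat_lit 0))))) (T.h (T.h (P (nat_lit 0)) (T.h (T.h (M (nat_lit 1587503758416281599)) (T.h (P (nat_lit 0)) (P (nat_lit 9706715246352)))) (T.h (P (nat_lit 0)) (M (nat_lit 57778153730303))))) (T.h (T.h (T.h (P (nat_lit 0)) (P (nat_lit 9113800522039296))) (P (nat_lit 0))) (T.h (T.h (P (nat_lit 0)) (P (nat_lit 83175846626544))) (P (nat_lit 0)))))))), (T.h (T.h (T.h (M (nat_lit 6285820754976504651461657886719)) (T.h (P (nat_lit 0)) (T.h (P (nat_lit 67382311549751743597248512)) (T.h (P (nat_lit 0)) (P (nat_lit 87224953071082668032)))))) (T.h (P (nat_lit 0)) (T.h (T.h (P (nat_lit 52228017167611283004981248)) (T.h (P (nat_lit 0)) (M (nat_lit 68774780439803985919)))) (T.h (P (nat_lit 0)) (P (nat_lit 100247002912212910080)))))) (T.h (T.h (P (nat_lit 0)) (T.h (T.h (P (nat_lit 0)) (T.h (P (nat_lit 154266114327546108575744))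 (T.h (P (nat_lit 0)) (M (nat_lit 78797795876012031))))) (T.h (P (nat_lit 0)) (T.h (T.h (P (nat_lit 0)) (M (nat_lit 104955585349091327))) (P (nat_lit 0)))))) (T.h (T.h (T.h (P (nat_lit 52228017167611283004981248)) (T.h (P (nat_lit 0)) (M (nat_lit 68774780439803985919)))) (T.h (P (nat_lit 0)) (P (nat_lit 5689904858220462080)))) (T.h (T.h (P (nat_lit 0)) (T.h (T.h (P (nat_lit 0)) (M (nat_lit 104955585349091327))) (P (nat_lit 0)))) (P (nat_lit 100247002912212910080)))))), (T.h (T.h (P (nat_lit 0)) (T.h (T.h (P (nat_lit 8892000472475436383295504384)) (T.h (P (nat_lit 0)) (T.h (P (nat_lit 36157989310871717806080)) (T.h (P (nat_lit 0)) (M (nat_lit 11925370510737407)))))) (T.h (P (nat_lit 0)) (T.h (T.h (P (nat_lit 16456097033687519985664)) (T.h (P (nat_lit 0)) (M (nat_lit 35323327731531775)))) (T.h (P (nat_lit 0)) (P (nat_lit 24149417068855296))))))) (T.h (T.h (T.h (P (nat_lit 0)) (T.h (M (nat_lit 26784771438189274078380031)) (T.h (P (nat_lit 0)) (T.h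 (M (nat_lit 29567487790811185151)) (T.h (P (nat_lit 0)) (M (nat_lit 2461445725727))))))) (T.h (P (nat_lit 0)) (T.h (T.h (P (nat_lit 0)) (T.h (P (nat_lit 94840969493001273344)) (T.h (P (nat_lit 0)) (M (nat_lit 5314824709103))))) (T.h (P (nat_lit 0)) (T.h (T.h (P (nat_lit 0)) (M (nat_lit 53598465338255))) (P (nat_lit 0))))))) (T.h (T.h (P (nat_lit 0)) (T.h (T.h (P (nat_lit 18776408515861362507776)) (T.h (P (nat_lit 0)) (M (nat_lit 3549270860136447)))) (T.h (P (nat_lit 0)) (M (nat_lit 111816194942861311))))) (T.h (T.h (T.h (P (nat_lit 0)) (T.h (P (nat_lit 34039728992491143168)) (T.h (P (nat_lit 0)) (P (nat_lit 16382985646176))))) (T.h (P (nat_lit 0)) (T.h (T.h (P (nat_lit 0)) (P (nat_lit 7226975842848))) (P (nat_lit 0))))) (T.h (T.h (P (nat_lit 0)) (P (nat_lit 12760773594578944))) (T.h (T.h (T.h (P (nat_lit 0)) (M (nat_lit 25001913246767))) (P (nat_lit 0))) (P (nat_lit 0)))))))), (T.h (T.h (P (nat_lit 0)) (T.h (T.h (P (nat_lit 0)) (T.h (M (nat_lit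 23584525151007839168233471)) (T.h (P (nat_lit 0)) (M (nat_lit 61454915112997486591))))) (T.h (P (nat_lit 0)) (T.h (T.h (P (nat_lit 0)) (P (nat_lit 91165908592538681344))) (P (nat_lit 0)))))) (T.h (T.h (T.h (P (nat_lit 24515816103804542625737867264)) (T.h (P (nat_lit 0)) (T.h (P (nat_lit 65839141578859037589504)) (T.h (P (nat_lit 0)) (P (nat_lit 8326943506890752)))))) (T.h (P (nat_lit 0)) (T.h (T.h (M (nat_lit 8968247592976562257919)) (T.h (P (nat_lit 0)) (M (nat_lit 75462907401437183)))) (T.h (P (nat_lit 0)) (M (nat_lit 145528070694043647)))))) (T.h (T.h (P (nat_lit 0)) (T.h (T.h (P (nat_lit 0)) (P (nat_lit 7835413807227731968))) (P (nat_lit 0)))) (T.h (T.h (T.h (M (nat_lit 2297477073452696338431)) (T.h (P (nat_lit 0)) (P (nat_lit 6808094951456768)))) (T.h (P (nat_lit 0)) (P (nat_lit 33876372480163840)))) (T.h (P (nat_lit 0)) (P (nat_lit 647816382939136))))))), (T.h (T.h (T.h (P (nat_lit 136175368825848704011312562176)) (T.h (P (nat_lit 0))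 (T.h (P (nat_lit 10299676712578327630577664)) (T.h (P (nat_lit 0)) (P (nat_lit 15478283704106745856)))))) (T.h (P (nat_lit 0)) (T.h (T.h (M (nat_lit 11792852828530081829748735)) (T.h (P (nat_lit 0)) (P (nat_lit 18088830698126311424)))) (T.h (P (nat_lit 0)) (M (nat_lit 19079840722707283967)))))) (T.h (T.h (P (nat_lit 0)) (T.h (T.h (P (nat_lit 0)) (T.h (P (nat_lit 36587039533747480297472)) (T.h (P (nat_lit 0)) (P (nat_lit 11466888006205440))))) (T.h (P (nat_lit 0)) (T.h (T.h (P (nat_lit 0)) (P (nat_lit 59092969562472448))) (P (nat_lit 0)))))) (T.h (T.h (T.h (M (nat_lit 21845518975287555317039103)) (T.h (P (nat_lit 0)) (P (nat_lit 25337010042471186432)))) (T.h (P (nat_lit 0)) (M (nat_lit 30804249933590298623)))) (T.h (T.h (P (nat_lit 0)) (T.h (T.h (P (nat_lit 0)) (P (nat_lit 69317805307723776))) (P (nat_lit 0)))) (M (nat_lit 46493784627472236543)))))), (P (nat_lit 0))]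
def lP11_27 : List (T ℤ) := [(T.h (T.h (P (nat_lit 0)) (T.h (T.h (P (nat_lit 382278186225956246805020672)) (T.h (P (nat_lit 0)) (T.h (P (nat_lit 4917025952193526628352)) (T.h (P (nat_lit 0)) (P (nat_lit 566836548272128)))))) (T.h (P (nat_lit 0)) (T.h (T.h (M (nat_lit 2314989451720488124415)) (T.h (P (nat_lit 0)) (P (nat_lit 13535529003122688)))) (T.h (P (nat_lit 0)) (M (nat_lit 1940894262886399))))))) (T.h (T.h (T.h (P (nat_lit 0)) (T.h (P (nat_lit 8967851728135020949274624)) (T.h (P (nat_lit 0)) (T.h (M (nat_lit 1632295132411723775)) (T.h (P (nat_lit 0)) (M (nat_lit 1262651453183))))))) (T.h (P (nat_lit 0)) (T.h (T.h (P (nat_lit 0)) (T.h (P (nat_lit 21437333873006477312)) (T.h (P (nat_lit 0)) (P (nat_lit 7808644584816))))) (T.h (P (nat_lit 0)) (T.h (T.h (P (nat_lit 0)) (P (nat_lit 9389964963200))) (P (nat_lit 0))))))) (T.h (T.h (P (nat_lit 0)) (T.h (T.h (M (nat_lit 6393028105238678077439)) (T.h (P (nat_lit 0)) (P (nat_lit 17704818290655232))))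 (T.h (P (nat_lit 0)) (M (nat_lit 20917731012706303))))) (T.h (T.h (T.h (P (nat_lit 0)) (T.h (P (nat_lit 5808715515924840448)) (T.h (P (nat_lit 0)) (M (nat_lit 1954457784095))))) (T.h (P (nat_lit 0)) (T.h (T.h (P (nat_lit 0)) (M (nat_lit 14649144822207))) (P (nat_lit 0))))) (T.h (T.h (P (nat_lit 0)) (P (nat_lit 10182874572193792))) (T.h (T.h (T.h (P (nat_lit 0)) (M (nat_lit 6298334266991))) (P (nat_lit 0))) (P (nat_lit 0)))))))), (T.h (T.h (P (nat_lit 0)) (T.h (T.h (P (nat_lit 0)) (T.h (P (nat_lit 13739223594421542558105600)) (T.h (P (nat_lit 0)) (T.h (P (nat_lit 7385027208714125312)) (T.h (P (nat_lit 0)) (P (nat_lit 9003225838696))))))) (T.h (P (nat_lit 0)) (T.h (T.h (P (nat_lit 0)) (T.h (P (nat_lit 15287187009160871936)) (T.h (P (nat_lit 0)) (M (nat_lit 5730851703471))))) (T.h (P (nat_lit 0)) (T.h (T.h (P (nat_lit 0)) (P (nat_lit 3021184331912))) (P (nat_lit 0)))))))) (T.h (T.h (T.h (P (nat_lit 5868077265898543568226615296)) (T.h (P (nat_lit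 0)) (T.h (M (nat_lit 30977542478894093828095)) (T.h (P (nat_lit 0)) (P (nat_lit 2865318050037760)))))) (T.h (P (nat_lit 0)) (T.h (T.h (M (nat_lit 26700015962339074375679)) (T.h (P (nat_lit 0)) (M (nat_lit 66931479672619007)))) (T.h (P (nat_lit 0)) (M (nat_lit 25377768435810303)))))) (T.h (T.h (P (nat_lit 0)) (T.h (T.h (P (nat_lit 0)) (T.h (P (nat_lit 23470598196360642560)) (T.h (P (nat_lit 0)) (M (nat_lit 14844636919919))))) (T.h (P (nat_lit 0)) (T.h (T.h (P (nat_lit 0)) (P (nat_lit 15453759794080))) (P (nat_lit 0)))))) (T.h (T.h (T.h (M (nat_lit 17960240460068412194815)) (T.h (P (nat_lit 0)) (P (nat_lit 83312061680222208)))) (T.h (P (nat_lit 0)) (M (nat_lit 22572802849243135)))) (T.h (T.h (P (nat_lit 0)) (T.h (T.h (P (nat_lit 0)) (P (nat_lit 14476686885368))) (P (nat_lit 0)))) (M (nat_lit 6184202340007935))))))), (T.h (T.h (P (nat_lit 0)) (T.h (T.h (P (nat_lit 18564503227159049971049693184)) (T.h (P (nat_lit 0)) (T.h (M (nat_lit 24820660371626959831039))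 (T.h (P (nat_lit 0)) (M (nat_lit 55052733830086655)))))) (T.h (P (nat_lit 0)) (T.h (T.h (P (nat_lit 66109599704970709434368)) (T.h (P (nat_lit 0)) (P (nat_lit 5089028726112256)))) (T.h (P (nat_lit 0)) (P (nat_lit 14473944873795584))))))) (T.h (T.h (T.h (P (nat_lit 0)) (T.h (M (nat_lit 41502165659964416028835839)) (T.h (P (nat_lit 0)) (T.h (M (nat_lit 35457303268831526911)) (T.h (P (nat_lit 0)) (P (nat_lit 14337066975168))))))) (T.h (P (nat_lit 0)) (T.h (T.h (P (nat_lit 0)) (T.h (P (nat_lit 7187939730510577664)) (T.h (P (nat_lit 0)) (M (nat_lit 15616341643055))))) (T.h (P (nat_lit 0)) (T.h (T.h (P (nat_lit 0)) (M (nat_lit 28206262997471))) (P (nat_lit 0))))))) (T.h (T.h (P (nat_lit 0)) (T.h (T.h (M (nat_lit 24820660371626959831039)) (T.h (P (nat_lit 0)) (M (nat_lit 113005295211544575)))) (T.h (P (nat_lit 0)) (P (nat_lit 5089028726112256))))) (T.h (T.h (T.h (P (nat_lit 0)) (T.h (M (nat_lit 35457303268831526911)) (T.h (P (nat_lit 0)) (P (nat_lit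 43766994916064))))) (T.h (P (nat_lit 0)) (T.h (T.h (P (nat_lit 0)) (M (nat_lit 15616341643055))) (P (nat_lit 0))))) (T.h (T.h (P (nat_lit 0)) (M (nat_lit 55052733830086655))) (T.h (T.h (T.h (P (nat_lit 0)) (P (nat_lit 14337066975168))) (P (nat_lit 0))) (P (nat_lit 0)))))))), (T.h (T.h (P (nat_lit 0)) (T.h (T.h (P (nat_lit 0)) (T.h (M (nat_lit 11596132456671698380390399)) (T.h (P (nat_lit 0)) (T.h (P (nat_lit 21823109804238831616)) (T.h (P (nat_lit 0)) (M (nat_lit 20165909466623))))))) (T.h (P (nat_lit 0)) (T.h (T.h (P (nat_lit 0)) (T.h (M (nat_lit 2449777188577214463)) (T.h (P (nat_lit 0)) (P (nat_lit 1434997404528))))) (T.h (P (nat_lit 0)) (T.h (T.h (P (nat_lit 0)) (P (nat_lit 8183120944368))) (P (nat_lit 0)))))))) (T.h (T.h (T.h (P (nat_lit 3816271784915021482770300928)) (T.h (P (nat_lit 0)) (T.h (M (nat_lit 11629742680612983013375)) (T.h (P (nat_lit 0)) (M (nat_lit 18534864477880319)))))) (T.h (P (nat_lit 0)) (T.h (T.h (P (nat_lit 16683404358949558812672))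 (T.h (P (nat_lit 0)) (P (nat_lit 21362749947805696)))) (T.h (P (nat_lit 0)) (P (nat_lit 5798650446217216)))))) (T.h (T.h (P (nat_lit 0)) (T.h (T.h (P (nat_lit 0)) (T.h (P (nat_lit 90875215508110573568)) (T.h (P (nat_lit 0)) (P (nat_lit 6973821289008))))) (T.h (P (nat_lit 0)) (T.h (T.h (P (nat_lit 0)) (M (nat_lit 14872495805135))) (P (nat_lit 0)))))) (T.h (T.h (T.h (P (nat_lit 21431735756132576133120)) (T.h (P (nat_lit 0)) (M (nat_lit 67844963372367871)))) (T.h (P (nat_lit 0)) (M (nat_lit 39638883541352447)))) (T.h (T.h (P (nat_lit 0)) (T.h (T.h (P (nat_lit 0)) (M (nat_lit 50297679171887))) (P (nat_lit 0)))) (P (nat_lit 8421033830252544))))))), (T.h (T.h (P (nat_lit 0)) (T.h (T.h (M (nat_lit 6099708548673304496447684607)) (T.h (P (nat_lit 0)) (T.h (P (nat_lit 39385658327280031629312)) (T.h (P (nat_lit 0)) (P (nat_lit 35543153834491904)))))) (T.h (P (nat_lit 0)) (T.h (T.h (M (nat_lit 17907237936627615531007)) (T.h (P (nat_lit 0)) (M (nat_lit 4731789076348927))))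 (T.h (P (nat_lit 0)) (P (nat_lit 840173474381824))))))) (T.h (T.h (T.h (P (nat_lit 0)) (T.h (P (nat_lit 18571853267465370509246464)) (T.h (P (nat_lit 0)) (M (nat_lit 35935822232235802623))))) (T.h (P (nat_lit 0)) (T.h (T.h (P (nat_lit 0)) (P (nat_lit 2818795405779664896))) (P (nat_lit 0))))) (T.h (T.h (P (nat_lit 0)) (T.h (T.h (M (nat_lit 914033056629670281215)) (T.h (P (nat_lit 0)) (M (nat_lit 7400423263076351)))) (T.h (P (nat_lit 0)) (M (nat_lit 10230261391294463))))) (T.h (T.h (T.h (P (nat_lit 0)) (M (nat_lit 76155881187738386431))) (P (nat_lit 0))) (T.h (T.h (P (nat_lit 0)) (P (nat_lit 25421720942116864))) (P (nat_lit 0))))))), (T.h (T.h (T.h (P (nat_lit 0)) (T.h (P (nat_lit 382278186225956246805020672)) (T.h (P (nat_lit 0)) (T.h (M (nat_lit 2314989451720488124415)) (T.h (P (nat_lit 0)) (M (nat_lit 1940894262886399))))))) (T.h (P (nat_lit 0)) (T.h (T.h (P (nat_lit 0)) (T.h (P (nat_lit 4917025952193526628352)) (T.h (P (nat_lit 0)) (P (nat_lit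 13535529003122688))))) (T.h (P (nat_lit 0)) (T.h (T.h (P (nat_lit 0)) (P (nat_lit 566836548272128))) (P (nat_lit 0))))))) (T.h (T.h (P (nat_lit 0)) (T.h (T.h (P (nat_lit 8967851728135020949274624)) (T.h (P (nat_lit 0)) (T.h (P (nat_lit 21437333873006477312)) (T.h (P (nat_lit 0)) (P (nat_lit 9389964963200)))))) (T.h (P (nat_lit 0)) (T.h (T.h (M (nat_lit 1632295132411723775)) (T.h (P (nat_lit 0)) (P (nat_lit 7808644584816)))) (T.h (P (nat_lit 0)) (M (nat_lit 1262651453183))))))) (T.h (T.h (T.h (P (nat_lit 0)) (T.h (M (nat_lit 6393028105238678077439)) (T.h (P (nat_lit 0)) (M (nat_lit 20917731012706303))))) (T.h (P (nat_lit 0)) (T.h (T.h (P (nat_lit 0)) (P (nat_lit 17704818290655232))) (P (nat_lit 0))))) (T.h (T.h (P (nat_lit 0)) (T.h (T.h (P (nat_lit 5808715515924840448)) (T.h (P (nat_lit 0)) (M (nat_lit 14649144822207)))) (T.h (P (nat_lit 0)) (M (nat_lit 1954457784095))))) (T.h (T.h (T.h (P (nat_lit 0)) (P (nat_lit 10182874572193792))) (P (nat_lit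 0))) (T.h (T.h (P (nat_lit 0)) (M (nat_lit 6298334266991))) (P (nat_lit 0)))))))), (T.h (T.h (T.h (P (nat_lit 494982663140877495206020120576)) (T.h (P (nat_lit 0)) (T.h (M (nat_lit 5927007742180180497530879)) (T.h (P (nat_lit 0)) (T.h (P (nat_lit 488089392322183168)) (T.h (P (nat_lit 0)) (P (nat_lit 13335407769360)))))))) (T.h (P (nat_lit 0)) (T.h (T.h (P (nat_lit 760361372243217967218688)) (T.h (P (nat_lit 0)) (T.h (M (nat_lit 112212653982051467263)) (T.h (P (nat_lit 0)) (M (nat_lit 14683309859823)))))) (T.h (P (nat_lit 0)) (T.h (T.h (M (nat_lit 13636708470739697663)) (T.h (P (nat_lit 0)) (P (nat_lit 39561229117904)))) (T.h (P (nat_lit 0)) (M (nat_lit 3074782164335)))))))) (T.h (T.h (P (nat_lit 0)) (T.h (T.h (P (nat_lit 0)) (T.h (M (nat_lit 117186064638130949980159)) (T.h (P (nat_lit 0)) (M (nat_lit 77125257283698687))))) (T.h (P (nat_lit 0)) (T.h (T.h (P (nat_lit 0)) (M (nat_lit 163372375841832959))) (P (nat_lit 0)))))) (T.h (T.h (T.h (M (nat_lit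 43459846080287011753689087)) (T.h (P (nat_lit 0)) (T.h (P (nat_lit 73088794801821712384)) (T.h (P (nat_lit 0)) (M (nat_lit 7364327931871)))))) (T.h (P (nat_lit 0)) (T.h (T.h (P (nat_lit 148896973107979354112)) (T.h (P (nat_lit 0)) (M (nat_lit 51520465666783)))) (T.h (P (nat_lit 0)) (P (nat_lit 8624894673472)))))) (T.h (T.h (P (nat_lit 0)) (T.h (T.h (P (nat_lit 0)) (P (nat_lit 78523625526591488))) (P (nat_lit 0)))) (T.h (T.h (T.h (P (nat_lit 3322443915608457216)) (T.h (P (nat_lit 0)) (M (nat_lit 39242601906815)))) (T.h (P (nat_lit 0)) (P (nat_lit 12683593540336)))) (T.h (P (nat_lit 0)) (M (nat_lit 10575507628479)))))))), (T.h (T.h (T.h (P (nat_lit 0)) (T.h (M (nat_lit 16519899788560389826718728191)) (T.h (P (nat_lit 0)) (T.h (M (nat_lit 38815681408239742746623)) (T.h (P (nat_lit 0)) (M (nat_lit 14922245059133439))))))) (T.h (P (nat_lit 0)) (T.h (T.h (P (nat_lit 0)) (T.h (M (nat_lit 48331781321057967800319)) (T.h (P (nat_lit 0)) (M (nat_lit 14595071553503231)))))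 (T.h (P (nat_lit 0)) (T.h (T.h (P (nat_lit 0)) (P (nat_lit 22614995997048832))) (P (nat_lit 0))))))) (T.h (T.h (P (nat_lit 0)) (T.h (T.h (P (nat_lit 6361063573136040009924608)) (T.h (P (nat_lit 0)) (T.h (P (nat_lit 36912781505249411072)) (T.h (P (nat_lit 0)) (M (nat_lit 94064231272143)))))) (T.h (P (nat_lit 0)) (T.h (T.h (M (nat_lit 3114357112931614719)) (T.h (P (nat_lit 0)) (M (nat_lit 27622295623215)))) (T.h (P (nat_lit 0)) (M (nat_lit 10914695388015))))))) (T.h (T.h (T.h (P (nat_lit 0)) (T.h (M (nat_lit 20726215518357509111807)) (T.h (P (nat_lit 0)) (P (nat_lit 24872236208455680))))) (T.h (P (nat_lit 0)) (T.h (T.h (P (nat_lit 0)) (P (nat_lit 67211279446638592))) (P (nat_lit 0))))) (T.h (T.h (P (nat_lit 0)) (T.h (T.h (P (nat_lit 32547474825401073664)) (T.h (P (nat_lit 0)) (M (nat_lit 18575295500271)))) (T.h (P (nat_lit 0)) (M (nat_lit 12260400160623))))) (T.h (T.h (T.h (P (nat_lit 0)) (P (nat_lit 53376662237773824))) (P (nat_lit 0))) (T.h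 (T.h (P (nat_lit 0)) (M (nat_lit 1102750372303))) (P (nat_lit 0))))))))]
def lP11_28 : List (T ℤ) := [(T.h (T.h (T.h (P (nat_lit 3336858308950095421271779049472)) (T.h (P (nat_lit 0)) (T.h (M (nat_lit 5043467229830250282090495)) (T.h (P (nat_lit 0)) (T.h (P (nat_lit 11853962430587600896)) (T.h (P (nat_lit 0)) (M (nat_lit 4461241746719)))))))) (T.h (P (nat_lit 0)) (T.h (T.h (P (nat_lit 6077443599476861853237248)) (T.h (P (nat_lit 0)) (T.h (M (nat_lit 63461707544942084095)) (T.h (P (nat_lit 0)) (M (nat_lit 7293763681775)))))) (T.h (P (nat_lit 0)) (T.h (T.h (P (nat_lit 14906957054039031808)) (T.h (P (nat_lit 0)) (P (nat_lit 2739632443776)))) (T.h (P (nat_lit 0)) (P (nat_lit 14587027637568)))))))) (T.h (T.h (P (nat_lit 0)) (T.h (T.h (P (nat_lit 0)) (T.h (M (nat_lit 161835331611143606108159)) (T.h (P (nat_lit 0)) (P (nat_lit 77702433258799104))))) (T.h (P (nat_lit 0)) (T.h (T.h (P (nat_lit 0)) (P (nat_lit 135200626355732480))) (P (nat_lit 0))))))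 (T.h (T.h (T.h (M (nat_lit 5043467229830250282090495)) (T.h (P (nat_lit 0)) (T.h (P (nat_lit 55845177334473687040)) (T.h (P (nat_lit 0)) (P (nat_lit 13242663900912)))))) (T.h (P (nat_lit 0)) (T.h (T.h (M (nat_lit 63461707544942084095)) (T.h (P (nat_lit 0)) (P (nat_lit 39429664002528)))) (T.h (P (nat_lit 0)) (P (nat_lit 2739632443776)))))) (T.h (T.h (P (nat_lit 0)) (T.h (T.h (P (nat_lit 0)) (P (nat_lit 77702433258799104))) (P (nat_lit 0)))) (T.h (T.h (T.h (P (nat_lit 11853962430587600896)) (T.h (P (nat_lit 0)) (P (nat_lit 13242663900912)))) (T.h (P (nat_lit 0)) (M (nat_lit 7293763681775)))) (T.h (P (nat_lit 0)) (M (nat_lit 4461241746719)))))))), (T.h (T.h (T.h (P (nat_lit 0)) (T.h (P (nat_lit 21382294463452524082142117888)) (T.h (P (nat_lit 0)) (T.h (M (nat_lit 8429021893482116022271)) (T.h (P (nat_lit 0)) (M (nat_lit 3098825511829503))))))) (T.h (P (nat_lit 0)) (T.h (T.h (P (nat_lit 0)) (T.h (P (nat_lit 55308368152604113371136)) (T.h (P (nat_lit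 0)) (P (nat_lit 10349591218307072))))) (T.h (P (nat_lit 0)) (T.h (T.h (P (nat_lit 0)) (M (nat_lit 17072719312633855))) (P (nat_lit 0))))))) (T.h (T.h (P (nat_lit 0)) (T.h (T.h (P (nat_lit 11364634751436504396988416)) (T.h (P (nat_lit 0)) (P (nat_lit 72630611916194054144)))) (T.h (P (nat_lit 0)) (M (nat_lit 42786273065835692031))))) (T.h (T.h (T.h (P (nat_lit 0)) (T.h (M (nat_lit 5119974003336856731647)) (T.h (P (nat_lit 0)) (P (nat_lit 9121366597222400))))) (T.h (P (nat_lit 0)) (T.h (T.h (P (nat_lit 0)) (M (nat_lit 27209387641274367))) (P (nat_lit 0))))) (T.h (T.h (P (nat_lit 0)) (M (nat_lit 39642309639526154239))) (T.h (T.h (T.h (P (nat_lit 0)) (M (nat_lit 38231767106387967))) (P (nat_lit 0))) (P (nat_lit 0))))))), (T.h (T.h (P (nat_lit 0)) (T.h (T.h (P (nat_lit 0)) (T.h (P (nat_lit 14270375171105064046559232)) (T.h (P (nat_lit 0)) (T.h (P (nat_lit 56438257722171850752)) (T.h (P (nat_lit 0)) (P (nat_lit 17156564310232))))))) (T.h (P (nat_lit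 0)) (T.h (T.h (P (nat_lit 0)) (T.h (M (nat_lit 12859201740003606527)) (T.h (P (nat_lit 0)) (M (nat_lit 28617561087343))))) (T.h (P (nat_lit 0)) (T.h (T.h (P (nat_lit 0)) (M (nat_lit 1040245586055))) (P (nat_lit 0)))))))) (T.h (T.h (T.h (M (nat_lit 9310831352475421986221195263)) (T.h (P (nat_lit 0)) (T.h (M (nat_lit 7423397857446391185407)) (T.h (P (nat_lit 0)) (P (nat_lit 74553129266184192)))))) (T.h (P (nat_lit 0)) (T.h (T.h (M (nat_lit 20498207068890175897599)) (T.h (P (nat_lit 0)) (P (nat_lit 138756879406301184)))) (T.h (P (nat_lit 0)) (M (nat_lit 55359734370959359)))))) (T.h (T.h (P (nat_lit 0)) (T.h (T.h (P (nat_lit 0)) (T.h (M (nat_lit 14739896929555054591)) (T.h (P (nat_lit 0)) (M (nat_lit 35792275403143))))) (T.h (P (nat_lit 0)) (T.h (T.h (P (nat_lit 0)) (M (nat_lit 2126431661767))) (P (nat_lit 0)))))) (T.h (T.h (T.h (P (nat_lit 36551132823750885507072)) (T.h (P (nat_lit 0)) (P (nat_lit 36281672255471616)))) (T.h (P (nat_lit 0)) (P (nat_lit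 21931738815692800)))) (T.h (T.h (P (nat_lit 0)) (T.h (T.h (P (nat_lit 0)) (P (nat_lit 6236726231368))) (P (nat_lit 0)))) (M (nat_lit 37352433613930495))))))), (T.h (T.h (P (nat_lit 0)) (T.h (T.h (M (nat_lit 17352354535382128834734194687)) (T.h (P (nat_lit 0)) (T.h (M (nat_lit 52379413170725524078591)) (T.h (P (nat_lit 0)) (P (nat_lit 15634455428202496)))))) (T.h (P (nat_lit 0)) (T.h (T.h (M (nat_lit 36234473777591973052415)) (T.h (P (nat_lit 0)) (M (nat_lit 39686842768982015)))) (T.h (P (nat_lit 0)) (M (nat_lit 11100554411098111))))))) (T.h (T.h (T.h (P (nat_lit 0)) (T.h (P (nat_lit 18160987799552731755053056)) (T.h (P (nat_lit 0)) (T.h (P (nat_lit 21878145842191269888)) (T.h (P (nat_lit 0)) (M (nat_lit 7873739442575))))))) (T.h (P (nat_lit 0)) (T.h (T.h (P (nat_lit 0)) (T.h (P (nat_lit 59833041670746669056)) (T.h (P (nat_lit 0)) (M (nat_lit 31703322412495))))) (T.h (P (nat_lit 0)) (T.h (T.h (P (nat_lit 0)) (M (nat_lit 100686740992767))) (P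 (nat_lit 0))))))) (T.h (T.h (P (nat_lit 0)) (T.h (T.h (M (nat_lit 52857145051299446783999)) (T.h (P (nat_lit 0)) (P (nat_lit 67914685012082688)))) (T.h (P (nat_lit 0)) (P (nat_lit 46410021154865152))))) (T.h (T.h (T.h (P (nat_lit 0)) (T.h (P (nat_lit 19481162464228278272)) (T.h (P (nat_lit 0)) (M (nat_lit 7951665789535))))) (T.h (P (nat_lit 0)) (T.h (T.h (P (nat_lit 0)) (P (nat_lit 559791081248))) (P (nat_lit 0))))) (T.h (T.h (P (nat_lit 0)) (P (nat_lit 59286776086216704))) (T.h (T.h (T.h (P (nat_lit 0)) (P (nat_lit 10758290864272))) (P (nat_lit 0))) (P (nat_lit 0)))))))), (T.h (T.h (P (nat_lit 0)) (T.h (T.h (P (nat_lit 0)) (T.h (P (nat_lit 12042424443966133777727488)) (T.h (P (nat_lit 0)) (T.h (M (nat_lit 50061516823265804287)) (T.h (P (nat_lit 0)) (M (nat_lit 2357720657615))))))) (T.h (P (nat_lit 0)) (T.h (T.h (P (nat_lit 0)) (T.h (M (nat_lit 89395846613752086527)) (T.h (P (nat_lit 0)) (P (nat_lit 15825708946992))))) (T.h (P (nat_lit 0)) (T.h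 (T.h (P (nat_lit 0)) (M (nat_lit 8166283547567))) (P (nat_lit 0)))))))) (T.h (T.h (T.h (P (nat_lit 19788889410555807710641651712)) (T.h (P (nat_lit 0)) (T.h (M (nat_lit 1946987401408860389375)) (T.h (P (nat_lit 0)) (P (nat_lit 33028909204176896)))))) (T.h (P (nat_lit 0)) (T.h (T.h (M (nat_lit 12878553645961046917119)) (T.h (P (nat_lit 0)) (M (nat_lit 2811813019516927)))) (T.h (P (nat_lit 0)) (M (nat_lit 15990749825236991)))))) (T.h (T.h (P (nat_lit 0)) (T.h (T.h (P (nat_lit 0)) (T.h (P (nat_lit 117160856552898297856)) (T.h (P (nat_lit 0)) (P (nat_lit 35562937696320))))) (T.h (P (nat_lit 0)) (T.h (T.h (P (nat_lit 0)) (P (nat_lit 44867454238512))) (P (nat_lit 0)))))) (T.h (T.h (T.h (M (nat_lit 49904929576304448110591)) (T.h (P (nat_lit 0)) (P (nat_lit 2096900104093696)))) (T.h (P (nat_lit 0)) (P (nat_lit 50383687484407808)))) (T.h (T.h (P (nat_lit 0)) (T.h (T.h (P (nat_lit 0)) (P (nat_lit 50165371254912))) (P (nat_lit 0)))) (M (nat_lit 7779731908526079))))))),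 (T.h (T.h (P (nat_lit 0)) (T.h (T.h (M (nat_lit 16243022313474890036584382463)) (T.h (P (nat_lit 0)) (T.h (M (nat_lit 12631042986953158950911)) (T.h (P (nat_lit 0)) (P (nat_lit 7921545353297920)))))) (T.h (P (nat_lit 0)) (T.h (T.h (M (nat_lit 63266495506882056159231)) (T.h (P (nat_lit 0)) (M (nat_lit 26921964869435391)))) (T.h (P (nat_lit 0)) (M (nat_lit 30725900405669887))))))) (T.h (T.h (T.h (P (nat_lit 0)) (T.h (P (nat_lit 26574890608093291826118656)) (T.h (P (nat_lit 0)) (P (nat_lit 35550091513922846720))))) (T.h (P (nat_lit 0)) (T.h (T.h (P (nat_lit 0)) (M (nat_lit 23191666894703689727))) (P (nat_lit 0))))) (T.h (T.h (P (nat_lit 0)) (T.h (T.h (P (nat_lit 27668648396956542959616)) (T.h (P (nat_lit 0)) (M (nat_lit 106632176431267839)))) (T.h (P (nat_lit 0)) (M (nat_lit 21423492554489855))))) (T.h (T.h (T.h (P (nat_lit 0)) (P (nat_lit 75770150469425430528))) (P (nat_lit 0))) (T.h (T.h (P (nat_lit 0)) (P (nat_lit 18042978245672960))) (P (nat_lit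 0))))))), (T.h (T.h (T.h (P (nat_lit 0)) (T.h (P (nat_lit 17732048480337310963034226688)) (T.h (P (nat_lit 0)) (T.h (P (nat_lit 68690807335618479128576)) (T.h (P (nat_lit 0)) (P (nat_lit 18295635521830912))))))) (T.h (P (nat_lit 0)) (T.h (T.h (P (nat_lit 0)) (T.h (M (nat_lit 28868292221294516109311)) (T.h (P (nat_lit 0)) (M (nat_lit 20002742489366527))))) (T.h (P (nat_lit 0)) (T.h (T.h (P (nat_lit 0)) (M (nat_lit 62033274398932991))) (P (nat_lit 0))))))) (T.h (T.h (P (nat_lit 0)) (T.h (T.h (M (nat_lit 29702241433547724283707391)) (T.h (P (nat_lit 0)) (T.h (P (nat_lit 30108199896007835648)) (T.h (P (nat_lit 0)) (M (nat_lit 34828772718095)))))) (T.h (P (nat_lit 0)) (T.h (T.h (M (nat_lit 10464800313708642303)) (T.h (P (nat_lit 0)) (M (nat_lit 19697368432335)))) (T.h (P (nat_lit 0)) (P (nat_lit 17378022920608))))))) (T.h (T.h (T.h (P (nat_lit 0)) (T.h (M (nat_lit 56951589904568897503231)) (T.h (P (nat_lit 0)) (P (nat_lit 26626813672521728))))) (T.h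 (P (nat_lit 0)) (T.h (T.h (P (nat_lit 0)) (M (nat_lit 112301889646100479))) (P (nat_lit 0))))) (T.h (T.h (P (nat_lit 0)) (T.h (T.h (M (nat_lit 48523615630004322303)) (T.h (P (nat_lit 0)) (P (nat_lit 3518744938464)))) (T.h (P (nat_lit 0)) (P (nat_lit 48075729287152))))) (T.h (T.h (T.h (P (nat_lit 0)) (M (nat_lit 49142619981643775))) (P (nat_lit 0))) (T.h (T.h (P (nat_lit 0)) (P (nat_lit 26198108211744))) (P (nat_lit 0)))))))), (T.h (T.h (T.h (P (nat_lit 1846993693776953964714512089088)) (T.h (P (nat_lit 0)) (T.h (P (nat_lit 9267779979138846188109824)) (T.h (P (nat_lit 0)) (T.h (P (nat_lit 21361495557233704960)) (T.h (P (nat_lit 0)) (P (nat_lit 9036297227760)))))))) (T.h (P (nat_lit 0)) (T.h (T.h (M (nat_lit 1853130850168265947217919)) (T.h (P (nat_lit 0)) (T.h (P (nat_lit 44051830469361139712)) (T.h (P (nat_lit 0)) (M (nat_lit 9666919590191)))))) (T.h (P (nat_lit 0)) (T.h (T.h (P (nat_lit 18308500933782274048)) (T.h (P (nat_lit 0)) (M (nat_lit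 19700315715743)))) (T.h (P (nat_lit 0)) (M (nat_lit 10011972156527)))))))) (T.h (T.h (P (nat_lit 0)) (T.h (T.h (P (nat_lit 0)) (T.h (M (nat_lit 44631435757538408136703)) (T.h (P (nat_lit 0)) (P (nat_lit 255711544494522368))))) (T.h (P (nat_lit 0)) (T.h (T.h (P (nat_lit 0)) (P (nat_lit 198213351397588992))) (P (nat_lit 0)))))) (T.h (T.h (T.h (P (nat_lit 39194054953230352210984960)) (T.h (P (nat_lit 0)) (T.h (M (nat_lit 178655111953365598207)) (T.h (P (nat_lit 0)) (P (nat_lit 6212043629760)))))) (T.h (P (nat_lit 0)) (T.h (T.h (M (nat_lit 59348227073949827071)) (T.h (P (nat_lit 0)) (P (nat_lit 103953532457952)))) (T.h (P (nat_lit 0)) (P (nat_lit 16715075086896)))))) (T.h (T.h (P (nat_lit 0)) (T.h (T.h (P (nat_lit 0)) (M (nat_lit 1096605955063807))) (P (nat_lit 0)))) (T.h (T.h (T.h (P (nat_lit 3656082647739793408)) (T.h (P (nat_lit 0)) (P (nat_lit 11499073325808)))) (T.h (P (nat_lit 0)) (P (nat_lit 32035500908496)))) (T.h (P (nat_lit 0)) (P (nat_lit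 9063088586880))))))))]
def lP11_29 : List (T ℤ) := [(T.h (T.h (T.h (P (nat_lit 0)) (T.h (M (nat_lit 7009792124449566996540948479)) (T.h (P (nat_lit 0)) (T.h (M (nat_lit 39227712750225020944383)) (T.h (P (nat_lit 0)) (M (nat_lit 27819431985283071))))))) (T.h (P (nat_lit 0)) (T.h (T.h (P (nat_lit 0)) (T.h (M (nat_lit 1186236504068564451327)) (T.h (P (nat_lit 0)) (M (nat_lit 20233199744991231))))) (T.h (P (nat_lit 0)) (T.h (T.h (P (nat_lit 0)) (P (nat_lit 7899487230705664))) (P (nat_lit 0))))))) (T.h (T.h (P (nat_lit 0)) (T.h (T.h (M (nat_lit 26946122561816422248349695)) (T.h (P (nat_lit 0)) (M (nat_lit 90805660409449676799)))) (T.h (P (nat_lit 0)) (P (nat_lit 93037330654499438592))))) (T.h (T.h (T.h (P (nat_lit 0)) (T.h (M (nat_lit 15565283519963194195967)) (T.h (P (nat_lit 0)) (P (nat_lit 8063302404800512))))) (T.h (P (nat_lit 0)) (T.h (T.h (P (nat_lit 0)) (M (nat_lit 147485272928354303))) (P (nat_lit 0))))) (T.h (T.h (P (nat_lit 0)) (P (nat_lit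 242514190933726068736))) (T.h (T.h (T.h (P (nat_lit 0)) (M (nat_lit 124796479176474623))) (P (nat_lit 0))) (P (nat_lit 0))))))), (T.h (T.h (P (nat_lit 0)) (T.h (T.h (P (nat_lit 0)) (T.h (M (nat_lit 26784771438189274078380031)) (T.h (P (nat_lit 0)) (T.h (M (nat_lit 29567487790811185151)) (T.h (P (nat_lit 0)) (M (nat_lit 2461445725727))))))) (T.h (P (nat_lit 0)) (T.h (T.h (P (nat_lit 0)) (T.h (P (nat_lit 34039728992491143168)) (T.h (P (nat_lit 0)) (P (nat_lit 16382985646176))))) (T.h (P (nat_lit 0)) (T.h (T.h (P (nat_lit 0)) (M (nat_lit 25001913246767))) (P (nat_lit 0)))))))) (T.h (T.h (T.h (P (nat_lit 8892000472475436383295504384)) (T.h (P (nat_lit 0)) (T.h (P (nat_lit 36157989310871717806080)) (T.h (P (nat_lit 0)) (M (nat_lit 11925370510737407)))))) (T.h (P (nat_lit 0)) (T.h (T.h (P (nat_lit 18776408515861362507776)) (T.h (P (nat_lit 0)) (M (nat_lit 3549270860136447)))) (T.h (P (nat_lit 0)) (P (nat_lit 12760773594578944)))))) (T.h (T.h (P (nat_lit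 0)) (T.h (T.h (P (nat_lit 0)) (T.h (P (nat_lit 94840969493001273344)) (T.h (P (nat_lit 0)) (M (nat_lit 5314824709103))))) (T.h (P (nat_lit 0)) (T.h (T.h (P (nat_lit 0)) (P (nat_lit 7226975842848))) (P (nat_lit 0)))))) (T.h (T.h (T.h (P (nat_lit 16456097033687519985664)) (T.h (P (nat_lit 0)) (M (nat_lit 35323327731531775)))) (T.h (P (nat_lit 0)) (M (nat_lit 111816194942861311)))) (T.h (T.h (P (nat_lit 0)) (T.h (T.h (P (nat_lit 0)) (M (nat_lit 53598465338255))) (P (nat_lit 0)))) (P (nat_lit 24149417068855296))))))), (T.h (T.h (P (nat_lit 0)) (T.h (T.h (P (nat_lit 24515816103804542625737867264)) (T.h (P (nat_lit 0)) (T.h (P (nat_lit 65839141578859037589504)) (T.h (P (nat_lit 0)) (P (nat_lit 8326943506890752)))))) (T.h (P (nat_lit 0)) (T.h (T.h (M (nat_lit 2297477073452696338431)) (T.h (P (nat_lit 0)) (P (nat_lit 6808094951456768)))) (T.h (P (nat_lit 0)) (P (nat_lit 647816382939136))))))) (T.h (T.h (T.h (P (nat_lit 0)) (T.h (M (nat_lit 23584525151007839168233471))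 (T.h (P (nat_lit 0)) (M (nat_lit 61454915112997486591))))) (T.h (P (nat_lit 0)) (T.h (T.h (P (nat_lit 0)) (P (nat_lit 7835413807227731968))) (P (nat_lit 0))))) (T.h (T.h (P (nat_lit 0)) (T.h (T.h (M (nat_lit 8968247592976562257919)) (T.h (P (nat_lit 0)) (M (nat_lit 75462907401437183)))) (T.h (P (nat_lit 0)) (P (nat_lit 33876372480163840))))) (T.h (T.h (T.h (P (nat_lit 0)) (P (nat_lit 91165908592538681344))) (P (nat_lit 0))) (T.h (T.h (P (nat_lit 0)) (M (nat_lit 145528070694043647))) (P (nat_lit 0))))))), (T.h (T.h (T.h (P (nat_lit 0)) (T.h (M (nat_lit 12199417097346608992895369215)) (T.h (P (nat_lit 0)) (T.h (M (nat_lit 35814475873255231062015)) (T.h (P (nat_lit 0)) (P (nat_lit 1680346948763648))))))) (T.h (P (nat_lit 0)) (T.h (T.h (P (nat_lit 0)) (T.h (P (nat_lit 38471625270650361348096)) (T.h (P (nat_lit 0)) (M (nat_lit 14962050467643391))))) (T.h (P (nat_lit 0)) (T.h (T.h (P (nat_lit 0)) (P (nat_lit 60964874776608768))) (P (nat_lit 0)))))))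 (T.h (T.h (P (nat_lit 0)) (T.h (T.h (P (nat_lit 37143706534930741018492928)) (T.h (P (nat_lit 0)) (P (nat_lit 5637590811559329792)))) (T.h (P (nat_lit 0)) (M (nat_lit 112091703419974189055))))) (T.h (T.h (T.h (P (nat_lit 0)) (T.h (P (nat_lit 38471625270650361348096)) (T.h (P (nat_lit 0)) (M (nat_lit 14962050467643391))))) (T.h (P (nat_lit 0)) (T.h (T.h (P (nat_lit 0)) (M (nat_lit 14800846526152703))) (P (nat_lit 0))))) (T.h (T.h (P (nat_lit 0)) (M (nat_lit 112091703419974189055))) (T.h (T.h (T.h (P (nat_lit 0)) (P (nat_lit 60964874776608768))) (P (nat_lit 0))) (P (nat_lit 0))))))), (T.h (T.h (T.h (M (nat_lit 128120900552666237134832664575)) (T.h (P (nat_lit 0)) (T.h (M (nat_lit 374856245789455152054271)) (T.h (P (nat_lit 0)) (T.h (M (nat_lit 3158064110562705407)) (T.h (P (nat_lit 0)) (P (nat_lit 1380574505568)))))))) (T.h (P (nat_lit 0)) (T.h (T.h (M (nat_lit 374856245789455152054271)) (T.h (P (nat_lit 0)) (T.h (M (nat_lit 1706496107061706751))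 (T.h (P (nat_lit 0)) (P (nat_lit 1184705075472)))))) (T.h (P (nat_lit 0)) (T.h (T.h (M (nat_lit 3158064110562705407)) (T.h (P (nat_lit 0)) (P (nat_lit 1184705075472)))) (T.h (P (nat_lit 0)) (P (nat_lit 1380574505568)))))))) (T.h (T.h (P (nat_lit 0)) (T.h (T.h (P (nat_lit 0)) (T.h (M (nat_lit 1980045858969294471167)) (T.h (P (nat_lit 0)) (P (nat_lit 2866966031630336))))) (T.h (P (nat_lit 0)) (T.h (T.h (P (nat_lit 0)) (P (nat_lit 2866966031630336))) (P (nat_lit 0)))))) (T.h (T.h (T.h (P (nat_lit 244345310791578333216768)) (T.h (P (nat_lit 0)) (T.h (M (nat_lit 1937253098095378431)) (T.h (P (nat_lit 0)) (P (nat_lit 2707914055472)))))) (T.h (P (nat_lit 0)) (T.h (T.h (M (nat_lit 1937253098095378431)) (T.h (P (nat_lit 0)) (P (nat_lit 4438957717760)))) (T.h (P (nat_lit 0)) (P (nat_lit 2707914055472)))))) (T.h (T.h (P (nat_lit 0)) (T.h (T.h (P (nat_lit 0)) (P (nat_lit 3795046400131072))) (P (nat_lit 0)))) (T.h (T.h (T.h (P (nat_lit 622944617486090240))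 (T.h (P (nat_lit 0)) (P (nat_lit 3986189105440)))) (T.h (P (nat_lit 0)) (P (nat_lit 3986189105440)))) (T.h (P (nat_lit 0)) (M (nat_lit 2463187883231)))))))), (T.h (T.h (T.h (P (nat_lit 0)) (T.h (M (nat_lit 6924666312730873039744401407)) (T.h (P (nat_lit 0)) (T.h (P (nat_lit 5224766766905693306880)) (T.h (P (nat_lit 0)) (M (nat_lit 14235708366225407))))))) (T.h (P (nat_lit 0)) (T.h (T.h (P (nat_lit 0)) (T.h (P (nat_lit 20966851406420814856192)) (T.h (P (nat_lit 0)) (P (nat_lit 805034664558592))))) (T.h (P (nat_lit 0)) (T.h (T.h (P (nat_lit 0)) (P (nat_lit 14704517348524032))) (P (nat_lit 0))))))) (T.h (T.h (P (nat_lit 0)) (T.h (T.h (P (nat_lit 5810283156555816016805888)) (T.h (P (nat_lit 0)) (T.h (P (nat_lit 2086100085598322688)) (T.h (P (nat_lit 0)) (P (nat_lit 4779188645288)))))) (T.h (P (nat_lit 0)) (T.h (T.h (P (nat_lit 45427878034464047104)) (T.h (P (nat_lit 0)) (P (nat_lit 18179075001016)))) (T.h (P (nat_lit 0)) (P (nat_lit 3774720305552)))))))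 (T.h (T.h (T.h (P (nat_lit 0)) (T.h (M (nat_lit 13034215677552899391487)) (T.h (P (nat_lit 0)) (M (nat_lit 18326436873601023))))) (T.h (P (nat_lit 0)) (T.h (T.h (P (nat_lit 0)) (M (nat_lit 16257695584583679))) (P (nat_lit 0))))) (T.h (T.h (P (nat_lit 0)) (T.h (T.h (P (nat_lit 41172884228734451712)) (T.h (P (nat_lit 0)) (M (nat_lit 16296856776735)))) (T.h (P (nat_lit 0)) (P (nat_lit 13433110305528))))) (T.h (T.h (T.h (P (nat_lit 0)) (P (nat_lit 27806606744977408))) (P (nat_lit 0))) (T.h (T.h (P (nat_lit 0)) (P (nat_lit 4509737917544))) (P (nat_lit 0)))))))), (T.h (T.h (T.h (P (nat_lit 8547243003319011634805544583168)) (T.h (P (nat_lit 0)) (T.h (P (nat_lit 14510347300884980999127040)) (T.h (P (nat_lit 0)) (T.h (P (nat_lit 35610800256633012224)) (T.h (P (nat_lit 0)) (M (nat_lit 4773610931599)))))))) (T.h (P (nat_lit 0)) (T.h (T.h (M (nat_lit 15586726180167793191682047)) (T.h (P (nat_lit 0)) (T.h (P (nat_lit 35663318068957806592)) (T.h (P (nat_lit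 0)) (P (nat_lit 15366368407824)))))) (T.h (P (nat_lit 0)) (T.h (T.h (M (nat_lit 25082296066384068607)) (T.h (P (nat_lit 0)) (M (nat_lit 6732252487071)))) (T.h (P (nat_lit 0)) (M (nat_lit 1807611555343)))))))) (T.h (T.h (P (nat_lit 0)) (T.h (T.h (P (nat_lit 0)) (T.h (M (nat_lit 5544913477966684487679)) (T.h (P (nat_lit 0)) (P (nat_lit 788703454953472))))) (T.h (P (nat_lit 0)) (T.h (T.h (P (nat_lit 0)) (P (nat_lit 107443297016119296))) (P (nat_lit 0)))))) (T.h (T.h (T.h (M (nat_lit 10074423422740968400486399)) (T.h (P (nat_lit 0)) (T.h (M (nat_lit 56693657735398424575)) (T.h (P (nat_lit 0)) (P (nat_lit 29692863900784)))))) (T.h (P (nat_lit 0)) (T.h (T.h (P (nat_lit 14865489118221041664)) (T.h (P (nat_lit 0)) (P (nat_lit 14277571269584)))) (T.h (P (nat_lit 0)) (M (nat_lit 8671366263727)))))) (T.h (T.h (P (nat_lit 0)) (T.h (T.h (P (nat_lit 0)) (M (nat_lit 51337459934527487))) (P (nat_lit 0)))) (T.h (T.h (T.h (P (nat_lit 2900983089347952640)) (T.h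 (P (nat_lit 0)) (P (nat_lit 37577714858544)))) (T.h (P (nat_lit 0)) (M (nat_lit 16452623026111)))) (T.h (P (nat_lit 0)) (M (nat_lit 8507132336751)))))))), (T.h (T.h (T.h (P (nat_lit 0)) (T.h (P (nat_lit 3816271784915021482770300928)) (T.h (P (nat_lit 0)) (T.h (P (nat_lit 21431735756132576133120)) (T.h (P (nat_lit 0)) (P (nat_lit 8421033830252544))))))) (T.h (P (nat_lit 0)) (T.h (T.h (P (nat_lit 0)) (T.h (P (nat_lit 16683404358949558812672)) (T.h (P (nat_lit 0)) (M (nat_lit 39638883541352447))))) (T.h (P (nat_lit 0)) (T.h (T.h (P (nat_lit 0)) (P (nat_lit 5798650446217216))) (P (nat_lit 0))))))) (T.h (T.h (P (nat_lit 0)) (T.h (T.h (M (nat_lit 11596132456671698380390399)) (T.h (P (nat_lit 0)) (T.h (P (nat_lit 90875215508110573568)) (T.h (P (nat_lit 0)) (M (nat_lit 50297679171887)))))) (T.h (P (nat_lit 0)) (T.h (T.h (M (nat_lit 2449777188577214463)) (T.h (P (nat_lit 0)) (M (nat_lit 14872495805135)))) (T.h (P (nat_lit 0)) (P (nat_lit 8183120944368)))))))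 (T.h (T.h (T.h (P (nat_lit 0)) (T.h (M (nat_lit 11629742680612983013375)) (T.h (P (nat_lit 0)) (M (nat_lit 67844963372367871))))) (T.h (P (nat_lit 0)) (T.h (T.h (P (nat_lit 0)) (P (nat_lit 21362749947805696))) (P (nat_lit 0))))) (T.h (T.h (P (nat_lit 0)) (T.h (T.h (P (nat_lit 21823109804238831616)) (T.h (P (nat_lit 0)) (P (nat_lit 6973821289008)))) (T.h (P (nat_lit 0)) (P (nat_lit 1434997404528))))) (T.h (T.h (T.h (P (nat_lit 0)) (M (nat_lit 18534864477880319))) (P (nat_lit 0))) (T.h (T.h (P (nat_lit 0)) (M (nat_lit 20165909466623))) (P (nat_lit 0))))))))]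
def lP11_30 : List (T ℤ) := [(T.h (T.h (T.h (P (nat_lit 984195350018325543104137920512)) (T.h (P (nat_lit 0)) (T.h (M (nat_lit 15230894307888454317375487)) (T.h (P (nat_lit 0)) (M (nat_lit 15566893289482223615)))))) (T.h (P (nat_lit 0)) (T.h (T.h (M (nat_lit 353537135146806275997695)) (T.h (P (nat_lit 0)) (P (nat_lit 21389219787958124544)))) (T.h (P (nat_lit 0)) (P (nat_lit 4364305523307184128)))))) (T.h (T.h (P (nat_lit 0)) (T.h (T.h (P (nat_lit 0)) (T.h (M (nat_lit 5141982376459845500927)) (T.h (P (nat_lit 0)) (P (nat_lit 63912302629388288))))) (T.h (P (nat_lit 0)) (T.h (T.h (P (nat_lit 0)) (P (nat_lit 20305914272612352))) (P (nat_lit 0)))))) (T.h (T.h (T.h (M (nat_lit 15230894307888454317375487)) (T.h (P (nat_lit 0)) (M (nat_lit 10893491707010088959)))) (T.h (P (nat_lit 0)) (P (nat_lit 21389219787958124544)))) (T.h (T.h (P (nat_lit 0)) (T.h (T.h (P (nat_lit 0)) (P (nat_lit 63912302629388288))) (P (nat_lit 0)))) (M (nat_lit 15566893289482223615)))))),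 (T.h (T.h (P (nat_lit 0)) (T.h (T.h (M (nat_lit 3806205839395855949482688511)) (T.h (P (nat_lit 0)) (T.h (P (nat_lit 25039632414137793904640)) (T.h (P (nat_lit 0)) (M (nat_lit 4968131396501503)))))) (T.h (P (nat_lit 0)) (T.h (T.h (P (nat_lit 434528077766272745472)) (T.h (P (nat_lit 0)) (M (nat_lit 12985542396248063)))) (T.h (P (nat_lit 0)) (M (nat_lit 2875145773678591))))))) (T.h (T.h (T.h (P (nat_lit 0)) (T.h (P (nat_lit 20367765807806700639485952)) (T.h (P (nat_lit 0)) (T.h (P (nat_lit 19867004086649880576)) (T.h (P (nat_lit 0)) (M (nat_lit 12250454303887))))))) (T.h (P (nat_lit 0)) (T.h (T.h (P (nat_lit 0)) (T.h (M (nat_lit 52273040027484684287)) (T.h (P (nat_lit 0)) (M (nat_lit 24959317573815))))) (T.h (P (nat_lit 0)) (T.h (T.h (P (nat_lit 0)) (P (nat_lit 3392182722520))) (P (nat_lit 0))))))) (T.h (T.h (P (nat_lit 0)) (T.h (T.h (M (nat_lit 20350402788955445526527)) (T.h (P (nat_lit 0)) (M (nat_lit 37649753855066111)))) (T.h (P (nat_lit 0))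 (M (nat_lit 16405739284037631))))) (T.h (T.h (T.h (P (nat_lit 0)) (T.h (P (nat_lit 32360385358094925824)) (T.h (P (nat_lit 0)) (M (nat_lit 18188302719095))))) (T.h (P (nat_lit 0)) (T.h (T.h (P (nat_lit 0)) (M (nat_lit 11025427733215))) (P (nat_lit 0))))) (T.h (T.h (P (nat_lit 0)) (P (nat_lit 20784627276742656))) (T.h (T.h (T.h (P (nat_lit 0)) (M (nat_lit 1942311308743))) (P (nat_lit 0))) (P (nat_lit 0)))))))), (T.h (T.h (P (nat_lit 0)) (T.h (T.h (P (nat_lit 0)) (T.h (P (nat_lit 39725240604148654384611328)) (T.h (P (nat_lit 0)) (T.h (P (nat_lit 33915569836709117952)) (T.h (P (nat_lit 0)) (P (nat_lit 4076389384816))))))) (T.h (P (nat_lit 0)) (T.h (T.h (P (nat_lit 0)) (T.h (P (nat_lit 33915569836709117952)) (T.h (P (nat_lit 0)) (M (nat_lit 675544214015))))) (T.h (P (nat_lit 0)) (T.h (T.h (P (nat_lit 0)) (P (nat_lit 4076389384816))) (P (nat_lit 0)))))))) (T.h (T.h (T.h (P (nat_lit 8691406057965620660182974464)) (T.h (P (nat_lit 0)) (T.h (M (nat_lit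 38064473744062961156095)) (T.h (P (nat_lit 0)) (P (nat_lit 19186521793036288)))))) (T.h (P (nat_lit 0)) (T.h (T.h (M (nat_lit 38064473744062961156095)) (T.h (P (nat_lit 0)) (P (nat_lit 3935443694649344)))) (T.h (P (nat_lit 0)) (P (nat_lit 19186521793036288)))))) (T.h (T.h (P (nat_lit 0)) (T.h (T.h (P (nat_lit 0)) (T.h (M (nat_lit 3943748245355757567)) (T.h (P (nat_lit 0)) (M (nat_lit 7612428796111))))) (T.h (P (nat_lit 0)) (T.h (T.h (P (nat_lit 0)) (M (nat_lit 7612428796111))) (P (nat_lit 0)))))) (T.h (T.h (T.h (M (nat_lit 15021339571157746057215)) (T.h (P (nat_lit 0)) (P (nat_lit 2082412055707648)))) (T.h (P (nat_lit 0)) (P (nat_lit 2082412055707648)))) (T.h (T.h (P (nat_lit 0)) (T.h (T.h (P (nat_lit 0)) (M (nat_lit 12132135300319))) (P (nat_lit 0)))) (P (nat_lit 17136932539727872))))))), (T.h (T.h (P (nat_lit 0)) (T.h (T.h (M (nat_lit 25920019054726368708448485375)) (T.h (P (nat_lit 0)) (T.h (M (nat_lit 27787483063106125430783)) (T.h (P (nat_lit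 0)) (P (nat_lit 67809720250138624)))))) (T.h (P (nat_lit 0)) (T.h (T.h (M (nat_lit 32169525483728206299135)) (T.h (P (nat_lit 0)) (P (nat_lit 57081713356472320)))) (T.h (P (nat_lit 0)) (M (nat_lit 18888208648962047))))))) (T.h (T.h (T.h (P (nat_lit 0)) (T.h (P (nat_lit 38096627589110099462848512)) (T.h (P (nat_lit 0)) (T.h (M (nat_lit 108181840819061260287)) (T.h (P (nat_lit 0)) (P (nat_lit 27163896312912))))))) (T.h (P (nat_lit 0)) (T.h (T.h (P (nat_lit 0)) (T.h (M (nat_lit 285020327601149837311)) (T.h (P (nat_lit 0)) (P (nat_lit 15157720755216))))) (T.h (P (nat_lit 0)) (T.h (T.h (P (nat_lit 0)) (P (nat_lit 3622862751840))) (P (nat_lit 0))))))) (T.h (T.h (P (nat_lit 0)) (T.h (T.h (M (nat_lit 11270670670228105461759)) (T.h (P (nat_lit 0)) (M (nat_lit 29192182078373887)))) (T.h (P (nat_lit 0)) (P (nat_lit 46994885653495808))))) (T.h (T.h (T.h (P (nat_lit 0)) (T.h (P (nat_lit 106594337060644978688)) (T.h (P (nat_lit 0)) (M (nat_lit 28889076865151)))))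 (T.h (P (nat_lit 0)) (T.h (T.h (P (nat_lit 0)) (M (nat_lit 5451005508863))) (P (nat_lit 0))))) (T.h (T.h (P (nat_lit 0)) (M (nat_lit 58695919728099327))) (T.h (T.h (T.h (P (nat_lit 0)) (P (nat_lit 56011950313632))) (P (nat_lit 0))) (P (nat_lit 0)))))))), (T.h (T.h (P (nat_lit 0)) (T.h (T.h (P (nat_lit 0)) (T.h (P (nat_lit 11364634751436504396988416)) (T.h (P (nat_lit 0)) (M (nat_lit 39642309639526154239))))) (T.h (P (nat_lit 0)) (T.h (T.h (P (nat_lit 0)) (M (nat_lit 42786273065835692031))) (P (nat_lit 0)))))) (T.h (T.h (T.h (P (nat_lit 21382294463452524082142117888)) (T.h (P (nat_lit 0)) (T.h (M (nat_lit 5119974003336856731647)) (T.h (P (nat_lit 0)) (M (nat_lit 38231767106387967)))))) (T.h (P (nat_lit 0)) (T.h (T.h (P (nat_lit 55308368152604113371136)) (T.h (P (nat_lit 0)) (M (nat_lit 27209387641274367)))) (T.h (P (nat_lit 0)) (M (nat_lit 17072719312633855)))))) (T.h (T.h (P (nat_lit 0)) (T.h (T.h (P (nat_lit 0)) (P (nat_lit 72630611916194054144)))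 (P (nat_lit 0)))) (T.h (T.h (T.h (M (nat_lit 8429021893482116022271)) (T.h (P (nat_lit 0)) (P (nat_lit 9121366597222400)))) (T.h (P (nat_lit 0)) (P (nat_lit 10349591218307072)))) (T.h (P (nat_lit 0)) (M (nat_lit 3098825511829503))))))), (T.h (T.h (T.h (P (nat_lit 16254568680746320099254504259584)) (T.h (P (nat_lit 0)) (T.h (M (nat_lit 12685605751155373801209855)) (T.h (P (nat_lit 0)) (T.h (M (nat_lit 19191782102932652031)) (T.h (P (nat_lit 0)) (M (nat_lit 2917104938943)))))))) (T.h (P (nat_lit 0)) (T.h (T.h (P (nat_lit 17411467729897400389599232)) (T.h (P (nat_lit 0)) (T.h (P (nat_lit 47769169809322803200)) (T.h (P (nat_lit 0)) (M (nat_lit 8473992501295)))))) (T.h (P (nat_lit 0)) (T.h (T.h (P (nat_lit 41501314220084428800)) (T.h (P (nat_lit 0)) (P (nat_lit 13624628393600)))) (T.h (P (nat_lit 0)) (M (nat_lit 5883104315199)))))))) (T.h (T.h (P (nat_lit 0)) (T.h (T.h (P (nat_lit 0)) (T.h (P (nat_lit 3820633353032503918592)) (T.h (P (nat_lit 0))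 (P (nat_lit 96424188085338112))))) (T.h (P (nat_lit 0)) (T.h (T.h (P (nat_lit 0)) (M (nat_lit 10230405475827711))) (P (nat_lit 0)))))) (T.h (T.h (T.h (M (nat_lit 3958576683485596580052991)) (T.h (P (nat_lit 0)) (T.h (P (nat_lit 30513359163695824896)) (T.h (P (nat_lit 0)) (M (nat_lit 13363464019695)))))) (T.h (P (nat_lit 0)) (T.h (T.h (M (nat_lit 41045787689923641343)) (T.h (P (nat_lit 0)) (P (nat_lit 3923258565072)))) (T.h (P (nat_lit 0)) (P (nat_lit 25000766144816)))))) (T.h (T.h (P (nat_lit 0)) (T.h (T.h (P (nat_lit 0)) (M (nat_lit 39378245962792959))) (P (nat_lit 0)))) (T.h (T.h (T.h (M (nat_lit 3860090204698181631)) (T.h (P (nat_lit 0)) (M (nat_lit 23439229653839)))) (T.h (P (nat_lit 0)) (P (nat_lit 30591108230816)))) (T.h (P (nat_lit 0)) (M (nat_lit 2761787860719)))))))), (T.h (T.h (T.h (P (nat_lit 0)) (T.h (M (nat_lit 20554582978663004213834940415)) (T.h (P (nat_lit 0)) (T.h (M (nat_lit 34999172906064189325311)) (T.h (P (nat_lit 0)) (M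 (nat_lit 10332781579010047))))))) (T.h (P (nat_lit 0)) (T.h (T.h (P (nat_lit 0)) (T.h (M (nat_lit 50790724973385429811199)) (T.h (P (nat_lit 0)) (P (nat_lit 63171967222317056))))) (T.h (P (nat_lit 0)) (T.h (T.h (P (nat_lit 0)) (P (nat_lit 62941527274127360))) (P (nat_lit 0))))))) (T.h (T.h (P (nat_lit 0)) (T.h (T.h (P (nat_lit 25007603106928841134702592)) (T.h (P (nat_lit 0)) (T.h (M (nat_lit 259926857630206656511)) (T.h (P (nat_lit 0)) (M (nat_lit 462822932063)))))) (T.h (P (nat_lit 0)) (T.h (T.h (M (nat_lit 140829281879618224127)) (T.h (P (nat_lit 0)) (P (nat_lit 18547842041616)))) (T.h (P (nat_lit 0)) (P (nat_lit 31401763312080))))))) (T.h (T.h (T.h (P (nat_lit 0)) (T.h (P (nat_lit 5421638563026066997248)) (T.h (P (nat_lit 0)) (P (nat_lit 64360973732315136))))) (T.h (P (nat_lit 0)) (T.h (T.h (P (nat_lit 0)) (M (nat_lit 2238457358548991))) (P (nat_lit 0))))) (T.h (T.h (P (nat_lit 0)) (T.h (T.h (P (nat_lit 69827702267230289920)) (T.h (P (nat_lit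 0)) (P (nat_lit 8210136746112)))) (T.h (P (nat_lit 0)) (M (nat_lit 26511480658367))))) (T.h (T.h (T.h (P (nat_lit 0)) (M (nat_lit 82991536738959359))) (P (nat_lit 0))) (T.h (T.h (P (nat_lit 0)) (P (nat_lit 54728237009232))) (P (nat_lit 0)))))))), (T.h (T.h (T.h (M (nat_lit 3990930358680729164823654301695)) (T.h (P (nat_lit 0)) (T.h (P (nat_lit 27076531107476770798960640)) (T.h (P (nat_lit 0)) (P (nat_lit 12685585197551321088)))))) (T.h (P (nat_lit 0)) (T.h (T.h (P (nat_lit 44344369622601005705199616)) (T.h (P (nat_lit 0)) (M (nat_lit 67671942614401155071)))) (T.h (P (nat_lit 0)) (P (nat_lit 54726454716340895744)))))) (T.h (T.h (P (nat_lit 0)) (T.h (T.h (P (nat_lit 0)) (T.h (P (nat_lit 118862079073980380086272)) (T.h (P (nat_lit 0)) (M (nat_lit 33993395259670527))))) (T.h (P (nat_lit 0)) (T.h (T.h (P (nat_lit 0)) (M (nat_lit 48237924204412927))) (P (nat_lit 0)))))) (T.h (T.h (T.h (P (nat_lit 21974902872093783693983744)) (T.h (P (nat_lit 0)) (M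 (nat_lit 17065805797469978623)))) (T.h (P (nat_lit 0)) (M (nat_lit 455436660721582079)))) (T.h (T.h (P (nat_lit 0)) (T.h (T.h (P (nat_lit 0)) (M (nat_lit 70376020478001151))) (P (nat_lit 0)))) (P (nat_lit 53121578943446515712))))))]
def lP11_31 : List (T ℤ) := [(T.h (T.h (P (nat_lit 0)) (T.h (T.h (P (nat_lit 9181707860978385977383845888)) (T.h (P (nat_lit 0)) (T.h (M (nat_lit 6319837551329745567743)) (T.h (P (nat_lit 0)) (P (nat_lit 930457470205952)))))) (T.h (P (nat_lit 0)) (T.h (T.h (P (nat_lit 18602088333796593106944)) (T.h (P (nat_lit 0)) (M (nat_lit 33548629675507711)))) (T.h (P (nat_lit 0)) (P (nat_lit 16976460900204544))))))) (T.h (T.h (T.h (P (nat_lit 0)) (T.h (M (nat_lit 24685156938852956708536319)) (T.h (P (nat_lit 0)) (T.h (M (nat_lit 35097218249134178303)) (T.h (P (nat_lit 0)) (P (nat_lit 12420987943536))))))) (T.h (P (nat_lit 0)) (T.h (T.h (P (nat_lit 0)) (T.h (P (nat_lit 115968685479053754368)) (T.h (P (nat_lit 0)) (M (nat_lit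 11482374518735))))) (T.h (P (nat_lit 0)) (T.h (T.h (P (nat_lit 0)) (M (nat_lit 54383364855791))) (P (nat_lit 0))))))) (T.h (T.h (P (nat_lit 0)) (T.h (T.h (P (nat_lit 5062566552641189445632)) (T.h (P (nat_lit 0)) (P (nat_lit 48316474667630592)))) (T.h (P (nat_lit 0)) (M (nat_lit 50478875293548543))))) (T.h (T.h (T.h (P (nat_lit 0)) (T.h (M (nat_lit 14943524989175857151)) (T.h (P (nat_lit 0)) (P (nat_lit 3812593611312))))) (T.h (P (nat_lit 0)) (T.h (T.h (P (nat_lit 0)) (P (nat_lit 20634963543984))) (P (nat_lit 0))))) (T.h (T.h (P (nat_lit 0)) (M (nat_lit 42830481488740351))) (T.h (T.h (T.h (P (nat_lit 0)) (M (nat_lit 21449622771023))) (P (nat_lit 0))) (P (nat_lit 0)))))))), (T.h (T.h (P (nat_lit 0)) (T.h (T.h (P (nat_lit 0)) (T.h (P (nat_lit 13151526703321401362743296)) (T.h (P (nat_lit 0)) (M (nat_lit 70207128503712743423))))) (T.h (P (nat_lit 0)) (T.h (T.h (P (nat_lit 0)) (M (nat_lit 67063165077403205631))) (P (nat_lit 0)))))) (T.h (T.h (T.h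 (P (nat_lit 7238378753668218089558245376)) (T.h (P (nat_lit 0)) (T.h (P (nat_lit 126624066426670344568832)) (T.h (P (nat_lit 0)) (M (nat_lit 25281264314073087)))))) (T.h (P (nat_lit 0)) (T.h (T.h (P (nat_lit 66195724270729374466048)) (T.h (P (nat_lit 0)) (M (nat_lit 78200650234724351)))) (T.h (P (nat_lit 0)) (M (nat_lit 46440312107827199)))))) (T.h (T.h (P (nat_lit 0)) (T.h (T.h (P (nat_lit 0)) (P (nat_lit 93469117835464671232))) (P (nat_lit 0)))) (T.h (T.h (T.h (M (nat_lit 13983143431136971063295)) (T.h (P (nat_lit 0)) (M (nat_lit 22406557314826239)))) (T.h (P (nat_lit 0)) (M (nat_lit 23634781935910911)))) (T.h (P (nat_lit 0)) (M (nat_lit 29920305752571903))))))), (T.h (T.h (T.h (P (nat_lit 136175368825848704011312562176)) (T.h (P (nat_lit 0)) (T.h (P (nat_lit 10299676712578327630577664)) (T.h (P (nat_lit 0)) (P (nat_lit 15478283704106745856)))))) (T.h (P (nat_lit 0)) (T.h (T.h (M (nat_lit 21845518975287555317039103)) (T.h (P (nat_lit 0)) (P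 (nat_lit 25337010042471186432)))) (T.h (P (nat_lit 0)) (M (nat_lit 46493784627472236543)))))) (T.h (T.h (P (nat_lit 0)) (T.h (T.h (P (nat_lit 0)) (T.h (P (nat_lit 36587039533747480297472)) (T.h (P (nat_lit 0)) (P (nat_lit 11466888006205440))))) (T.h (P (nat_lit 0)) (T.h (T.h (P (nat_lit 0)) (P (nat_lit 69317805307723776))) (P (nat_lit 0)))))) (T.h (T.h (T.h (M (nat_lit 11792852828530081829748735)) (T.h (P (nat_lit 0)) (P (nat_lit 18088830698126311424)))) (T.h (P (nat_lit 0)) (M (nat_lit 30804249933590298623)))) (T.h (T.h (P (nat_lit 0)) (T.h (T.h (P (nat_lit 0)) (P (nat_lit 59092969562472448))) (P (nat_lit 0)))) (M (nat_lit 19079840722707283967)))))), (T.h (T.h (P (nat_lit 0)) (T.h (T.h (P (nat_lit 0)) (T.h (P (nat_lit 2367679197508544791314432)) (T.h (P (nat_lit 0)) (T.h (M (nat_lit 18959063845215141887)) (T.h (P (nat_lit 0)) (P (nat_lit 1709027307648))))))) (T.h (P (nat_lit 0)) (T.h (T.h (P (nat_lit 0)) (T.h (M (nat_lit 17490023526864781311))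 (T.h (P (nat_lit 0)) (P (nat_lit 4452436307520))))) (T.h (P (nat_lit 0)) (T.h (T.h (P (nat_lit 0)) (P (nat_lit 1111384698048))) (P (nat_lit 0)))))))) (T.h (T.h (T.h (M (nat_lit 6708703288543951383055826943)) (T.h (P (nat_lit 0)) (T.h (M (nat_lit 9336552845164421316607)) (T.h (P (nat_lit 0)) (M (nat_lit 10096859823996927)))))) (T.h (P (nat_lit 0)) (T.h (T.h (M (nat_lit 4825756084058852425727)) (T.h (P (nat_lit 0)) (M (nat_lit 22001358117797887)))) (T.h (P (nat_lit 0)) (M (nat_lit 13727318916464639)))))) (T.h (T.h (P (nat_lit 0)) (T.h (T.h (P (nat_lit 0)) (T.h (M (nat_lit 16662209236586987519)) (T.h (P (nat_lit 0)) (P (nat_lit 16464759474008))))) (T.h (P (nat_lit 0)) (T.h (T.h (P (nat_lit 0)) (P (nat_lit 1223173417000))) (P (nat_lit 0)))))) (T.h (T.h (T.h (M (nat_lit 8639614918792361017343)) (T.h (P (nat_lit 0)) (M (nat_lit 17301337354928127)))) (T.h (P (nat_lit 0)) (M (nat_lit 22339981025869823)))) (T.h (T.h (P (nat_lit 0)) (T.h (T.h (P (nat_lit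 0)) (M (nat_lit 14111840783999))) (P (nat_lit 0)))) (P (nat_lit 12079869476732928))))))), (T.h (T.h (P (nat_lit 0)) (T.h (T.h (M (nat_lit 832454746821739008015466495)) (T.h (P (nat_lit 0)) (T.h (M (nat_lit 4047631849667556278271)) (T.h (P (nat_lit 0)) (M (nat_lit 6980540568846335)))))) (T.h (P (nat_lit 0)) (T.h (T.h (P (nat_lit 2581207630647769694208)) (T.h (P (nat_lit 0)) (M (nat_lit 25091771215478783)))) (T.h (P (nat_lit 0)) (P (nat_lit 3821690648035328))))))) (T.h (T.h (T.h (P (nat_lit 0)) (T.h (P (nat_lit 11799924226416691745128448)) (T.h (P (nat_lit 0)) (T.h (P (nat_lit 24992502955122884608)) (T.h (P (nat_lit 0)) (P (nat_lit 3040955945440))))))) (T.h (P (nat_lit 0)) (T.h (T.h (P (nat_lit 0)) (T.h (P (nat_lit 22920260165497257984)) (T.h (P (nat_lit 0)) (M (nat_lit 4081026789279))))) (T.h (P (nat_lit 0)) (T.h (T.h (P (nat_lit 0)) (M (nat_lit 6622509720623))) (P (nat_lit 0))))))) (T.h (T.h (P (nat_lit 0)) (T.h (T.h (M (nat_lit 32130929532941937672191))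 (T.h (P (nat_lit 0)) (P (nat_lit 703405565444096)))) (T.h (P (nat_lit 0)) (P (nat_lit 21537784946409472))))) (T.h (T.h (T.h (P (nat_lit 0)) (T.h (M (nat_lit 13066312361172795391)) (T.h (P (nat_lit 0)) (P (nat_lit 4308734371088))))) (T.h (P (nat_lit 0)) (T.h (T.h (P (nat_lit 0)) (P (nat_lit 19135086581520))) (P (nat_lit 0))))) (T.h (T.h (P (nat_lit 0)) (P (nat_lit 5910113848442880))) (T.h (T.h (T.h (P (nat_lit 0)) (P (nat_lit 11861041236576))) (P (nat_lit 0))) (P (nat_lit 0)))))))), (T.h (T.h (P (nat_lit 0)) (T.h (T.h (P (nat_lit 0)) (T.h (M (nat_lit 15188638981517575697989631)) (T.h (P (nat_lit 0)) (T.h (P (nat_lit 12216619188252311552)) (T.h (P (nat_lit 0)) (M (nat_lit 4836003780143))))))) (T.h (P (nat_lit 0)) (T.h (T.h (P (nat_lit 0)) (T.h (M (nat_lit 27117710602233970687)) (T.h (P (nat_lit 0)) (P (nat_lit 14947988241648))))) (T.h (P (nat_lit 0)) (T.h (T.h (P (nat_lit 0)) (M (nat_lit 10644566670095))) (P (nat_lit 0)))))))) (T.h (T.h (T.h (P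 (nat_lit 5075728687560414900525203456)) (T.h (P (nat_lit 0)) (T.h (P (nat_lit 30406151196474345521152)) (T.h (P (nat_lit 0)) (P (nat_lit 31295638072459264)))))) (T.h (P (nat_lit 0)) (T.h (T.h (P (nat_lit 19474584951922158993408)) (T.h (P (nat_lit 0)) (M (nat_lit 24912020807942143)))) (T.h (P (nat_lit 0)) (M (nat_lit 17724020956954623)))))) (T.h (T.h (P (nat_lit 0)) (T.h (T.h (P (nat_lit 0)) (T.h (P (nat_lit 3965753984890699776)) (T.h (P (nat_lit 0)) (P (nat_lit 253154553840))))) (T.h (P (nat_lit 0)) (T.h (T.h (P (nat_lit 0)) (P (nat_lit 9557671096032))) (P (nat_lit 0)))))) (T.h (T.h (T.h (M (nat_lit 4975638722445056147455)) (T.h (P (nat_lit 0)) (M (nat_lit 43971231570493439)))) (T.h (P (nat_lit 0)) (P (nat_lit 4315555809820672)))) (T.h (T.h (P (nat_lit 0)) (T.h (T.h (P (nat_lit 0)) (M (nat_lit 3300786166367))) (P (nat_lit 0)))) (P (nat_lit 15728383238602752))))))), (T.h (T.h (P (nat_lit 0)) (T.h (T.h (M (nat_lit 6099708548673304496447684607))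 (T.h (P (nat_lit 0)) (T.h (M (nat_lit 914033056629670281215)) (T.h (P (nat_lit 0)) (P (nat_lit 25421720942116864)))))) (T.h (P (nat_lit 0)) (T.h (T.h (M (nat_lit 17907237936627615531007)) (T.h (P (nat_lit 0)) (M (nat_lit 10230261391294463)))) (T.h (P (nat_lit 0)) (P (nat_lit 840173474381824))))))) (T.h (T.h (T.h (P (nat_lit 0)) (T.h (P (nat_lit 18571853267465370509246464)) (T.h (P (nat_lit 0)) (M (nat_lit 76155881187738386431))))) (T.h (P (nat_lit 0)) (T.h (T.h (P (nat_lit 0)) (P (nat_lit 2818795405779664896))) (P (nat_lit 0))))) (T.h (T.h (P (nat_lit 0)) (T.h (T.h (P (nat_lit 39385658327280031629312)) (T.h (P (nat_lit 0)) (M (nat_lit 7400423263076351)))) (T.h (P (nat_lit 0)) (M (nat_lit 4731789076348927))))) (T.h (T.h (T.h (P (nat_lit 0)) (M (nat_lit 35935822232235802623))) (P (nat_lit 0))) (T.h (T.h (P (nat_lit 0)) (P (nat_lit 35543153834491904))) (P (nat_lit 0))))))), (T.h (T.h (T.h (P (nat_lit 0)) (T.h (M (nat_lit 832454746821739008015466495))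 (T.h (P (nat_lit 0)) (T.h (P (nat_lit 2581207630647769694208)) (T.h (P (nat_lit 0)) (P (nat_lit 3821690648035328))))))) (T.h (P (nat_lit 0)) (T.h (T.h (P (nat_lit 0)) (T.h (M (nat_lit 4047631849667556278271)) (T.h (P (nat_lit 0)) (M (nat_lit 25091771215478783))))) (T.h (P (nat_lit 0)) (T.h (T.h (P (nat_lit 0)) (M (nat_lit 6980540568846335))) (P (nat_lit 0))))))) (T.h (T.h (P (nat_lit 0)) (T.h (T.h (P (nat_lit 11799924226416691745128448)) (T.h (P (nat_lit 0)) (T.h (P (nat_lit 22920260165497257984)) (T.h (P (nat_lit 0)) (M (nat_lit 6622509720623)))))) (T.h (P (nat_lit 0)) (T.h (T.h (P (nat_lit 24992502955122884608)) (T.h (P (nat_lit 0)) (M (nat_lit 4081026789279)))) (T.h (P (nat_lit 0)) (P (nat_lit 3040955945440))))))) (T.h (T.h (T.h (P (nat_lit 0)) (T.h (M (nat_lit 32130929532941937672191)) (T.h (P (nat_lit 0)) (P (nat_lit 21537784946409472))))) (T.h (P (nat_lit 0)) (T.h (T.h (P (nat_lit 0)) (P (nat_lit 703405565444096))) (P (nat_lit 0))))) (T.h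 (T.h (P (nat_lit 0)) (T.h (T.h (M (nat_lit 13066312361172795391)) (T.h (P (nat_lit 0)) (P (nat_lit 19135086581520)))) (T.h (P (nat_lit 0)) (P (nat_lit 4308734371088))))) (T.h (T.h (T.h (P (nat_lit 0)) (P (nat_lit 5910113848442880))) (P (nat_lit 0))) (T.h (T.h (P (nat_lit 0)) (P (nat_lit 11861041236576))) (P (nat_lit 0))))))))]
def lP11_32 : List (T ℤ) := [(T.h (T.h (T.h (M (nat_lit 1489864615173141456557266960383)) (T.h (P (nat_lit 0)) (T.h (P (nat_lit 3190336379661984334872576)) (T.h (P (nat_lit 0)) (T.h (P (nat_lit 6454538503194673152)) (T.h (P (nat_lit 0)) (M (nat_lit 5550730409807)))))))) (T.h (P (nat_lit 0)) (T.h (T.h (P (nat_lit 3190336379661984334872576)) (T.h (P (nat_lit 0)) (T.h (P (nat_lit 107513538014303223808)) (T.h (P (nat_lit 0)) (M (nat_lit 12406552033967)))))) (T.h (P (nat_lit 0)) (T.h (T.h (P (nat_lit 6454538503194673152)) (T.h (P (nat_lit 0)) (M (nat_lit 12406552033967)))) (T.h (P (nat_lit 0)) (M (nat_lit 5550730409807))))))))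 (T.h (T.h (P (nat_lit 0)) (T.h (T.h (P (nat_lit 0)) (T.h (P (nat_lit 117203895853605197971456)) (T.h (P (nat_lit 0)) (P (nat_lit 120510918138789888))))) (T.h (P (nat_lit 0)) (T.h (T.h (P (nat_lit 0)) (P (nat_lit 120510918138789888))) (P (nat_lit 0)))))) (T.h (T.h (T.h (P (nat_lit 44237522183060602493075456)) (T.h (P (nat_lit 0)) (T.h (M (nat_lit 115193404408423514111)) (T.h (P (nat_lit 0)) (P (nat_lit 3472411185984)))))) (T.h (P (nat_lit 0)) (T.h (T.h (M (nat_lit 115193404408423514111)) (T.h (P (nat_lit 0)) (P (nat_lit 64523868455424)))) (T.h (P (nat_lit 0)) (P (nat_lit 3472411185984)))))) (T.h (T.h (P (nat_lit 0)) (T.h (T.h (P (nat_lit 0)) (M (nat_lit 78799039213862911))) (P (nat_lit 0)))) (T.h (T.h (T.h (M (nat_lit 8197879782847807487)) (T.h (P (nat_lit 0)) (P (nat_lit 18792837007584)))) (T.h (P (nat_lit 0)) (P (nat_lit 18792837007584)))) (T.h (P (nat_lit 0)) (P (nat_lit 13524330333600)))))))), (T.h (T.h (T.h (P (nat_lit 0)) (T.h (P (nat_lit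 3133521640352018543595749376)) (T.h (P (nat_lit 0)) (T.h (P (nat_lit 6131544820029419683840)) (T.h (P (nat_lit 0)) (P (nat_lit 3746641894768640))))))) (T.h (P (nat_lit 0)) (T.h (T.h (P (nat_lit 0)) (T.h (P (nat_lit 10530773426254924218368)) (T.h (P (nat_lit 0)) (M (nat_lit 3541496266850303))))) (T.h (P (nat_lit 0)) (T.h (T.h (P (nat_lit 0)) (P (nat_lit 25399662819524608))) (P (nat_lit 0))))))) (T.h (T.h (P (nat_lit 0)) (T.h (T.h (M (nat_lit 34949159902444343565221887)) (T.h (P (nat_lit 0)) (M (nat_lit 64795198108966322175)))) (T.h (P (nat_lit 0)) (M (nat_lit 18668642047161794559))))) (T.h (T.h (T.h (P (nat_lit 0)) (T.h (M (nat_lit 3848273589639705526271)) (T.h (P (nat_lit 0)) (P (nat_lit 24755005882941440))))) (T.h (P (nat_lit 0)) (T.h (T.h (P (nat_lit 0)) (M (nat_lit 48253519760162815))) (P (nat_lit 0))))) (T.h (T.h (P (nat_lit 0)) (P (nat_lit 130808218232064835584))) (T.h (T.h (T.h (P (nat_lit 0)) (M (nat_lit 107296303587655679))) (P (nat_lit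 0))) (P (nat_lit 0))))))), (T.h (T.h (P (nat_lit 0)) (T.h (T.h (P (nat_lit 0)) (T.h (M (nat_lit 17556318179026120489304063)) (T.h (P (nat_lit 0)) (T.h (M (nat_lit 8893166916194009087)) (T.h (P (nat_lit 0)) (M (nat_lit 12054772672943))))))) (T.h (P (nat_lit 0)) (T.h (T.h (P (nat_lit 0)) (T.h (P (nat_lit 30441162874292273152)) (T.h (P (nat_lit 0)) (P (nat_lit 10495551934128))))) (T.h (P (nat_lit 0)) (T.h (T.h (P (nat_lit 0)) (M (nat_lit 6246209782991))) (P (nat_lit 0)))))))) (T.h (T.h (T.h (P (nat_lit 11784431976104366283581030400)) (T.h (P (nat_lit 0)) (T.h (P (nat_lit 26555739416533795864576)) (T.h (P (nat_lit 0)) (M (nat_lit 5811931586723839)))))) (T.h (P (nat_lit 0)) (T.h (T.h (P (nat_lit 37487305661085982392320)) (T.h (P (nat_lit 0)) (M (nat_lit 2910662690144255)))) (T.h (P (nat_lit 0)) (P (nat_lit 43207727442690048)))))) (T.h (T.h (P (nat_lit 0)) (T.h (T.h (P (nat_lit 0)) (T.h (P (nat_lit 20627963221477687296)) (T.h (P (nat_lit 0)) (P (nat_lit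 713704650528))))) (T.h (P (nat_lit 0)) (T.h (T.h (P (nat_lit 0)) (M (nat_lit 8590811891663))) (P (nat_lit 0)))))) (T.h (T.h (T.h (P (nat_lit 3663976196347304869888)) (T.h (P (nat_lit 0)) (P (nat_lit 24136215000219648)))) (T.h (P (nat_lit 0)) (M (nat_lit 24150572380094463)))) (T.h (T.h (P (nat_lit 0)) (T.h (T.h (P (nat_lit 0)) (P (nat_lit 10811054617632))) (P (nat_lit 0)))) (P (nat_lit 3648513761869824))))))), (T.h (T.h (P (nat_lit 0)) (T.h (T.h (P (nat_lit 5681062283688008578714566656)) (T.h (P (nat_lit 0)) (T.h (M (nat_lit 9415945020137231351807)) (T.h (P (nat_lit 0)) (P (nat_lit 29200995111157760)))))) (T.h (P (nat_lit 0)) (T.h (T.h (P (nat_lit 6524328405853089562624)) (T.h (P (nat_lit 0)) (M (nat_lit 139362887041023)))) (T.h (P (nat_lit 0)) (P (nat_lit 2781466941358080))))))) (T.h (T.h (T.h (P (nat_lit 0)) (T.h (M (nat_lit 53330515323703176544124927)) (T.h (P (nat_lit 0)) (M (nat_lit 41872423735447781375))))) (T.h (P (nat_lit 0)) (T.h (T.h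 (P (nat_lit 0)) (M (nat_lit 101408466554331332607))) (P (nat_lit 0))))) (T.h (T.h (P (nat_lit 0)) (T.h (T.h (P (nat_lit 30607393108761698631680)) (T.h (P (nat_lit 0)) (M (nat_lit 53186307789062143)))) (T.h (P (nat_lit 0)) (P (nat_lit 25339087913926656))))) (T.h (T.h (T.h (P (nat_lit 0)) (P (nat_lit 137922430172793929728))) (P (nat_lit 0))) (T.h (T.h (P (nat_lit 0)) (M (nat_lit 109922274535751679))) (P (nat_lit 0))))))), (T.h (T.h (T.h (P (nat_lit 0)) (T.h (M (nat_lit 3552167905337314461328867327)) (T.h (P (nat_lit 0)) (T.h (M (nat_lit 17514454350803945652223)) (T.h (P (nat_lit 0)) (M (nat_lit 125001479028735))))))) (T.h (P (nat_lit 0)) (T.h (T.h (P (nat_lit 0)) (T.h (M (nat_lit 20860751503021825851391)) (T.h (P (nat_lit 0)) (M (nat_lit 6828128011485183))))) (T.h (P (nat_lit 0)) (T.h (T.h (P (nat_lit 0)) (P (nat_lit 29223053233750016))) (P (nat_lit 0))))))) (T.h (T.h (P (nat_lit 0)) (T.h (T.h (P (nat_lit 190497846206537530343424)) (T.h (P (nat_lit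 0)) (M (nat_lit 33794473039585345535)))) (T.h (P (nat_lit 0)) (M (nat_lit 99359662876024373247))))) (T.h (T.h (T.h (P (nat_lit 0)) (T.h (P (nat_lit 73841325025681435787264)) (T.h (P (nat_lit 0)) (M (nat_lit 4147707045363711))))) (T.h (P (nat_lit 0)) (T.h (T.h (P (nat_lit 0)) (M (nat_lit 12333211291975679))) (P (nat_lit 0))))) (T.h (T.h (P (nat_lit 0)) (M (nat_lit 28821610291506708479))) (T.h (T.h (T.h (P (nat_lit 0)) (P (nat_lit 32917182886395904))) (P (nat_lit 0))) (P (nat_lit 0))))))), (T.h (T.h (T.h (P (nat_lit 7707325677427308464448959676416)) (T.h (P (nat_lit 0)) (T.h (P (nat_lit 2901120429012419390472192)) (T.h (P (nat_lit 0)) (T.h (P (nat_lit 5890513963451416576)) (T.h (P (nat_lit 0)) (M (nat_lit 1109493383599)))))))) (T.h (P (nat_lit 0)) (T.h (T.h (P (nat_lit 2901120429012419390472192)) (T.h (P (nat_lit 0)) (T.h (P (nat_lit 12105851740364996608)) (T.h (P (nat_lit 0)) (M (nat_lit 1741740014223)))))) (T.h (P (nat_lit 0)) (T.h (T.h (P (nat_lit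 5890513963451416576)) (T.h (P (nat_lit 0)) (M (nat_lit 1741740014223)))) (T.h (P (nat_lit 0)) (M (nat_lit 1109493383599)))))))) (T.h (T.h (P (nat_lit 0)) (T.h (T.h (P (nat_lit 0)) (T.h (P (nat_lit 9365546830999188406272)) (T.h (P (nat_lit 0)) (M (nat_lit 11019108930781183))))) (T.h (P (nat_lit 0)) (T.h (T.h (P (nat_lit 0)) (M (nat_lit 11019108930781183))) (P (nat_lit 0)))))) (T.h (T.h (T.h (P (nat_lit 6115846739255371820433408)) (T.h (P (nat_lit 0)) (T.h (P (nat_lit 15647870045474783232)) (T.h (P (nat_lit 0)) (M (nat_lit 4692097755967)))))) (T.h (P (nat_lit 0)) (T.h (T.h (P (nat_lit 15647870045474783232)) (T.h (P (nat_lit 0)) (M (nat_lit 10354312704511)))) (T.h (P (nat_lit 0)) (M (nat_lit 4692097755967)))))) (T.h (T.h (P (nat_lit 0)) (T.h (T.h (P (nat_lit 0)) (P (nat_lit 11959213971734528))) (P (nat_lit 0)))) (T.h (T.h (T.h (M (nat_lit 6761073294046134271)) (T.h (P (nat_lit 0)) (M (nat_lit 6986606627727)))) (T.h (P (nat_lit 0)) (M (nat_lit 6986606627727))))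 (T.h (P (nat_lit 0)) (P (nat_lit 5745344476032)))))))), (T.h (T.h (T.h (P (nat_lit 0)) (T.h (P (nat_lit 5365436076063364494613544960)) (T.h (P (nat_lit 0)) (T.h (M (nat_lit 2829647422335983026175)) (T.h (P (nat_lit 0)) (P (nat_lit 8555427069952000))))))) (T.h (P (nat_lit 0)) (T.h (T.h (P (nat_lit 0)) (T.h (M (nat_lit 23003241910279304380415)) (T.h (P (nat_lit 0)) (P (nat_lit 6090253865844736))))) (T.h (P (nat_lit 0)) (T.h (T.h (P (nat_lit 0)) (M (nat_lit 4868192976011263))) (P (nat_lit 0))))))) (T.h (T.h (P (nat_lit 0)) (T.h (T.h (M (nat_lit 13089024482181258328145919)) (T.h (P (nat_lit 0)) (T.h (P (nat_lit 25093469970943180800)) (T.h (P (nat_lit 0)) (M (nat_lit 4085685683903)))))) (T.h (P (nat_lit 0)) (T.h (T.h (M (nat_lit 32647441060556963839)) (T.h (P (nat_lit 0)) (P (nat_lit 3390121286400)))) (T.h (P (nat_lit 0)) (P (nat_lit 4237866999168))))))) (T.h (T.h (T.h (P (nat_lit 0)) (T.h (P (nat_lit 16692309233254172459008)) (T.h (P (nat_lit 0))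 (P (nat_lit 17366088078819328))))) (T.h (P (nat_lit 0)) (T.h (T.h (P (nat_lit 0)) (P (nat_lit 26953724719824896))) (P (nat_lit 0))))) (T.h (T.h (P (nat_lit 0)) (T.h (T.h (M (nat_lit 36766634793414688767)) (T.h (P (nat_lit 0)) (P (nat_lit 13661142254976)))) (T.h (P (nat_lit 0)) (P (nat_lit 2377596206784))))) (T.h (T.h (T.h (P (nat_lit 0)) (M (nat_lit 24295617010860031))) (P (nat_lit 0))) (T.h (T.h (P (nat_lit 0)) (M (nat_lit 1283713304399))) (P (nat_lit 0)))))))), (T.h (T.h (T.h (M (nat_lit 848019981192476839092825358335)) (T.h (P (nat_lit 0)) (T.h (M (nat_lit 6614624667399100999663615)) (T.h (P (nat_lit 0)) (M (nat_lit 30926891337990012927)))))) (T.h (P (nat_lit 0)) (T.h (T.h (P (nat_lit 10653213847725133906575360)) (T.h (P (nat_lit 0)) (P (nat_lit 3947790254513061888)))) (T.h (P (nat_lit 0)) (P (nat_lit 11113978180799561728)))))) (T.h (T.h (P (nat_lit 0)) (T.h (T.h (P (nat_lit 0)) (T.h (P (nat_lit 41729021910207325798400)) (T.h (P (nat_lit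 0)) (P (nat_lit 5405502678335488))))) (T.h (P (nat_lit 0)) (T.h (T.h (P (nat_lit 0)) (M (nat_lit 8839026266406911))) (P (nat_lit 0)))))) (T.h (T.h (T.h (P (nat_lit 3438041479358372487626752)) (T.h (P (nat_lit 0)) (M (nat_lit 19910758226580209663)))) (T.h (P (nat_lit 0)) (M (nat_lit 3300389089831813119)))) (T.h (T.h (P (nat_lit 0)) (T.h (T.h (P (nat_lit 0)) (M (nat_lit 4819333066915839))) (P (nat_lit 0)))) (M (nat_lit 3512947433225060351))))))]
def lP11_33 : List (T ℤ) := [(T.h (T.h (P (nat_lit 0)) (T.h (T.h (P (nat_lit 5365436076063364494613544960)) (T.h (P (nat_lit 0)) (T.h (M (nat_lit 23003241910279304380415)) (T.h (P (nat_lit 0)) (M (nat_lit 4868192976011263)))))) (T.h (P (nat_lit 0)) (T.h (T.h (M (nat_lit 2829647422335983026175)) (T.h (P (nat_lit 0)) (P (nat_lit 6090253865844736)))) (T.h (P (nat_lit 0)) (P (nat_lit 8555427069952000))))))) (T.h (T.h (T.h (P (nat_lit 0)) (T.h (M (nat_lit 13089024482181258328145919)) (T.h (P (nat_lit 0)) (T.h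 (M (nat_lit 32647441060556963839)) (T.h (P (nat_lit 0)) (P (nat_lit 4237866999168))))))) (T.h (P (nat_lit 0)) (T.h (T.h (P (nat_lit 0)) (T.h (P (nat_lit 25093469970943180800)) (T.h (P (nat_lit 0)) (P (nat_lit 3390121286400))))) (T.h (P (nat_lit 0)) (T.h (T.h (P (nat_lit 0)) (M (nat_lit 4085685683903))) (P (nat_lit 0))))))) (T.h (T.h (P (nat_lit 0)) (T.h (T.h (P (nat_lit 16692309233254172459008)) (T.h (P (nat_lit 0)) (P (nat_lit 26953724719824896)))) (T.h (P (nat_lit 0)) (P (nat_lit 17366088078819328))))) (T.h (T.h (T.h (P (nat_lit 0)) (T.h (M (nat_lit 36766634793414688767)) (T.h (P (nat_lit 0)) (P (nat_lit 2377596206784))))) (T.h (P (nat_lit 0)) (T.h (T.h (P (nat_lit 0)) (P (nat_lit 13661142254976))) (P (nat_lit 0))))) (T.h (T.h (P (nat_lit 0)) (M (nat_lit 24295617010860031))) (T.h (T.h (T.h (P (nat_lit 0)) (M (nat_lit 1283713304399))) (P (nat_lit 0))) (P (nat_lit 0)))))))), (T.h (T.h (P (nat_lit 0)) (T.h (T.h (P (nat_lit 0)) (T.h (P (nat_lit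 1786891951884896965754880)) (T.h (P (nat_lit 0)) (M (nat_lit 27420855437877051391))))) (T.h (P (nat_lit 0)) (T.h (T.h (P (nat_lit 0)) (M (nat_lit 27420855437877051391))) (P (nat_lit 0)))))) (T.h (T.h (T.h (M (nat_lit 14143915709784305992583872511)) (T.h (P (nat_lit 0)) (T.h (P (nat_lit 71315698274066231197696)) (T.h (P (nat_lit 0)) (M (nat_lit 8208545001439231)))))) (T.h (P (nat_lit 0)) (T.h (T.h (P (nat_lit 71315698274066231197696)) (T.h (P (nat_lit 0)) (M (nat_lit 50991262593449983)))) (T.h (P (nat_lit 0)) (M (nat_lit 8208545001439231)))))) (T.h (T.h (P (nat_lit 0)) (T.h (T.h (P (nat_lit 0)) (P (nat_lit 20838505919270617088))) (P (nat_lit 0)))) (T.h (T.h (T.h (M (nat_lit 5554121537654855041023)) (T.h (P (nat_lit 0)) (M (nat_lit 32756148533133311)))) (T.h (P (nat_lit 0)) (M (nat_lit 32756148533133311)))) (T.h (P (nat_lit 0)) (M (nat_lit 26821480240742399))))))), (T.h (T.h (T.h (M (nat_lit 3020651936024216055035763621887)) (T.h (P (nat_lit 0))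 (T.h (P (nat_lit 7540115320817060979671040)) (T.h (P (nat_lit 0)) (P (nat_lit 7985131884629721088)))))) (T.h (P (nat_lit 0)) (T.h (T.h (M (nat_lit 9727723194307173926567935)) (T.h (P (nat_lit 0)) (M (nat_lit 1493952592848355327)))) (T.h (P (nat_lit 0)) (M (nat_lit 34055737634159853567)))))) (T.h (T.h (P (nat_lit 0)) (T.h (T.h (P (nat_lit 0)) (T.h (P (nat_lit 35632436876571404402688)) (T.h (P (nat_lit 0)) (M (nat_lit 2801545172942847))))) (T.h (P (nat_lit 0)) (T.h (T.h (P (nat_lit 0)) (P (nat_lit 11442983771799552))) (P (nat_lit 0)))))) (T.h (T.h (T.h (M (nat_lit 3663051078293994793336831)) (T.h (P (nat_lit 0)) (M (nat_lit 15224186350770061311)))) (T.h (P (nat_lit 0)) (M (nat_lit 31834555487518457855)))) (T.h (T.h (P (nat_lit 0)) (T.h (T.h (P (nat_lit 0)) (M (nat_lit 24086699684003839))) (P (nat_lit 0)))) (M (nat_lit 109294943314378751)))))), (T.h (T.h (P (nat_lit 0)) (T.h (T.h (P (nat_lit 0)) (T.h (M (nat_lit 2367679197508544791314431)) (T.h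 (P (nat_lit 0)) (T.h (P (nat_lit 18224543686039961600)) (T.h (P (nat_lit 0)) (M (nat_lit 1410206002847))))))) (T.h (P (nat_lit 0)) (T.h (T.h (P (nat_lit 0)) (T.h (P (nat_lit 18224543686039961600)) (T.h (P (nat_lit 0)) (M (nat_lit 4452436307519))))) (T.h (P (nat_lit 0)) (T.h (T.h (P (nat_lit 0)) (M (nat_lit 1410206002847))) (P (nat_lit 0)))))))) (T.h (T.h (T.h (P (nat_lit 6708703288543951383055826944)) (T.h (P (nat_lit 0)) (T.h (P (nat_lit 7081154464611636871168)) (T.h (P (nat_lit 0)) (P (nat_lit 11912089370230784)))))) (T.h (P (nat_lit 0)) (T.h (T.h (P (nat_lit 7081154464611636871168)) (T.h (P (nat_lit 0)) (P (nat_lit 22001358117797888)))) (T.h (P (nat_lit 0)) (P (nat_lit 11912089370230784)))))) (T.h (T.h (P (nat_lit 0)) (T.h (T.h (P (nat_lit 0)) (T.h (P (nat_lit 16662209236586987520)) (T.h (P (nat_lit 0)) (M (nat_lit 8843966445503))))) (T.h (P (nat_lit 0)) (T.h (T.h (P (nat_lit 0)) (M (nat_lit 8843966445503))) (P (nat_lit 0)))))) (T.h (T.h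 (T.h (P (nat_lit 8639614918792361017344)) (T.h (P (nat_lit 0)) (P (nat_lit 19820659190398976)))) (T.h (P (nat_lit 0)) (P (nat_lit 19820659190398976)))) (T.h (T.h (P (nat_lit 0)) (T.h (T.h (P (nat_lit 0)) (P (nat_lit 14111840784000))) (P (nat_lit 0)))) (M (nat_lit 12079869476732927))))))), (T.h (T.h (P (nat_lit 0)) (T.h (T.h (P (nat_lit 2547540643335990035118817280)) (T.h (P (nat_lit 0)) (T.h (M (nat_lit 19946718446392155570175)) (T.h (P (nat_lit 0)) (P (nat_lit 3801332291633152)))))) (T.h (P (nat_lit 0)) (T.h (T.h (P (nat_lit 392783585823669878784)) (T.h (P (nat_lit 0)) (P (nat_lit 3402133379809280)))) (T.h (P (nat_lit 0)) (M (nat_lit 965174953410559))))))) (T.h (T.h (T.h (P (nat_lit 0)) (T.h (M (nat_lit 18381355421258832978903039)) (T.h (P (nat_lit 0)) (M (nat_lit 23203781688285986815))))) (T.h (P (nat_lit 0)) (T.h (T.h (P (nat_lit 0)) (M (nat_lit 36613268445365010431))) (P (nat_lit 0))))) (T.h (T.h (P (nat_lit 0)) (T.h (T.h (P (nat_lit 34455666698401404157952))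 (T.h (P (nat_lit 0)) (M (nat_lit 4932788028899327)))) (T.h (P (nat_lit 0)) (P (nat_lit 584082030985216))))) (T.h (T.h (T.h (P (nat_lit 0)) (P (nat_lit 7114211940729094144))) (P (nat_lit 0))) (T.h (T.h (P (nat_lit 0)) (M (nat_lit 2625970948095999))) (P (nat_lit 0))))))), (T.h (T.h (T.h (P (nat_lit 0)) (T.h (P (nat_lit 2547540643335990035118817280)) (T.h (P (nat_lit 0)) (T.h (P (nat_lit 392783585823669878784)) (T.h (P (nat_lit 0)) (M (nat_lit 965174953410559))))))) (T.h (P (nat_lit 0)) (T.h (T.h (P (nat_lit 0)) (T.h (M (nat_lit 19946718446392155570175)) (T.h (P (nat_lit 0)) (P (nat_lit 3402133379809280))))) (T.h (P (nat_lit 0)) (T.h (T.h (P (nat_lit 0)) (P (nat_lit 3801332291633152))) (P (nat_lit 0))))))) (T.h (T.h (P (nat_lit 0)) (T.h (T.h (M (nat_lit 18381355421258832978903039)) (T.h (P (nat_lit 0)) (M (nat_lit 36613268445365010431)))) (T.h (P (nat_lit 0)) (M (nat_lit 23203781688285986815))))) (T.h (T.h (T.h (P (nat_lit 0)) (T.h (P (nat_lit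 34455666698401404157952)) (T.h (P (nat_lit 0)) (P (nat_lit 584082030985216))))) (T.h (P (nat_lit 0)) (T.h (T.h (P (nat_lit 0)) (M (nat_lit 4932788028899327))) (P (nat_lit 0))))) (T.h (T.h (P (nat_lit 0)) (P (nat_lit 7114211940729094144))) (T.h (T.h (T.h (P (nat_lit 0)) (M (nat_lit 2625970948095999))) (P (nat_lit 0))) (P (nat_lit 0))))))), (T.h (T.h (T.h (M (nat_lit 2172631954831739215942938263551)) (T.h (P (nat_lit 0)) (T.h (M (nat_lit 3113098526908072926904319)) (T.h (P (nat_lit 0)) (M (nat_lit 3128846296169840639)))))) (T.h (P (nat_lit 0)) (T.h (T.h (M (nat_lit 3113098526908072926904319)) (T.h (P (nat_lit 0)) (M (nat_lit 5441742847361417215)))) (T.h (P (nat_lit 0)) (M (nat_lit 3128846296169840639)))))) (T.h (T.h (P (nat_lit 0)) (T.h (T.h (P (nat_lit 0)) (T.h (M (nat_lit 6096585033635921395711)) (T.h (P (nat_lit 0)) (P (nat_lit 6037481093464064))))) (T.h (P (nat_lit 0)) (T.h (T.h (P (nat_lit 0)) (P (nat_lit 6037481093464064))) (P (nat_lit 0))))))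 (T.h (T.h (T.h (M (nat_lit 7101092557652367280963583)) (T.h (P (nat_lit 0)) (M (nat_lit 11923797260938248191)))) (T.h (P (nat_lit 0)) (M (nat_lit 11923797260938248191)))) (T.h (T.h (P (nat_lit 0)) (T.h (T.h (P (nat_lit 0)) (M (nat_lit 19267366617087999))) (P (nat_lit 0)))) (P (nat_lit 3403652489910681600))))))]

def CP11 : List (T ℤ) := lP11_0 ++ (lP11_1 ++ (lP11_2 ++ (lP11_3 ++ (lP11_4 ++ (lP11_5 ++ (lP11_6 ++ (lP11_7 ++ (lP11_8 ++ (lP11_9 ++ (lP11_10 ++ (lP11_11 ++ (lP11_12 ++ (lP11_13 ++ (lP11_14 ++ (lP11_15 ++ (lP11_16 ++ (lP11_17 ++ (lP11_18 ++ (lP11_19 ++ (lP11_20 ++ (lP11_21 ++ (lP11_22 ++ (lP11_23 ++ (lP11_24 ++ (lP11_25 ++ (lP11_26 ++ (lP11_27 ++ (lP11_28 ++ (lP11_29 ++ (lP11_30 ++ (lP11_31 ++ (lP11_32 ++ (lP11_33)))))))))))))))))))))))))))))))))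

/-- norms at radius 1536 -/
def NP11 : List ℕ := [(nat_lit 0), (nat_lit 0), (nat_lit 0), (nat_lit 0), (nat_lit 0), (nat_lit 0), (nat_lit 0), (nat_lit 0), (nat_lit 0), (nat_lit 0), (nat_lit 0), (nat_lit 0), (nat_lit 0), (nat_lit 0), (nat_lit 0), (nat_lit 0), (nat_lit 0), (nat_lit 4410501400340933843783516160000), (nat_lit 0), (nat_lit 0), (nat_lit 494649966725257697485269749465088), (nat_lit 1741280545741802917354271309561856), (nat_lit 1298289750583860843312445952884736), (nat_lit 1741280545741802917354271309561856), (nat_lit 540489967827937282607649061339136), (nat_lit 0), (nat_lit 0), (nat_lit 1329510867508963843657844045905920), (nat_lit 2248618041061839809868342711287808), (nat_lit 1700720524737998732520727504748544), (nat_lit 1854088543177440806441156886921216), (nat_lit 757869054131283449247902466048000), (nat_lit 0), (nat_lit 0), (nat_lit 3092065859416344805118412356321280), (nat_lit 3165445829442172797496873048866816), (nat_lit 4327746780672320838813177452953600),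 (nat_lit 2234653400492598801573892319084544), (nat_lit 768651863051437294372472271929344), (nat_lit 0), (nat_lit 1329510867508963843657844045905920), (nat_lit 3165445829442172797496873048866816), (nat_lit 4830876031400812755072195722477568), (nat_lit 3574663513163537387540341485207552), (nat_lit 1623359920587802913536900035772416), (nat_lit 494649966725257697485269749465088), (nat_lit 2248618041061839809868342711287808), (nat_lit 4327746780672320838813177452953600), (nat_lit 3574663513163537387540341485207552), (nat_lit 1855152369477198666651802007502848), (nat_lit 1741280545741802917354271309561856), (nat_lit 1700720524737998732520727504748544), (nat_lit 2234653400492598801573892319084544), (nat_lit 1623359920587802913536900035772416), (nat_lit 1298289750583860843312445952884736), (nat_lit 1854088543177440806441156886921216), (nat_lit 768651863051437294372472271929344), (nat_lit 1741280545741802917354271309561856), (nat_lit 757869054131283449247902466048000),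 (nat_lit 540489967827937282607649061339136), (nat_lit 0), (nat_lit 0), (nat_lit 0), (nat_lit 0), (nat_lit 0), (nat_lit 0), (nat_lit 0), (nat_lit 0), (nat_lit 0), (nat_lit 0), (nat_lit 1175872935149321118640635409072128), (nat_lit 0), (nat_lit 0), (nat_lit 0), (nat_lit 0), (nat_lit 0), (nat_lit 1329510867508963843657844045905920), (nat_lit 3551232856403137423361779483803648), (nat_lit 1700720524737998732520727504748544), (nat_lit 1854088543177440806441156886921216), (nat_lit 757869054131283449247902466048000), (nat_lit 0), (nat_lit 0), (nat_lit 713649321919874451129109963603968), (nat_lit 6550731855269318731149782452011008), (nat_lit 1855968684642193835438318070792192), (nat_lit 7359797663696028802899212492603392), (nat_lit 2349967942813161412841034095788032), (nat_lit 0), (nat_lit 713649321919874451129109963603968), (nat_lit 11203165720824683452229161448374272), (nat_lit 4685467137819026435406046873780224), (nat_lit 7342244838134247392484923296186368),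 (nat_lit 3175339065348844877886902891446272), (nat_lit 1329510867508963843657844045905920), (nat_lit 7863648424772611053021553701683200), (nat_lit 4685467137819026435406046873780224), (nat_lit 5782740490319792936400157698686976), (nat_lit 2070733505592697315115643294449664), (nat_lit 2561953150128489491619702229696512), (nat_lit 1855968684642193835438318070792192), (nat_lit 7342244838134247392484923296186368), (nat_lit 2070733505592697315115643294449664), (nat_lit 1700720524737998732520727504748544), (nat_lit 7359797663696028802899212492603392), (nat_lit 3175339065348844877886902891446272), (nat_lit 1854088543177440806441156886921216), (nat_lit 2349967942813161412841034095788032), (nat_lit 757869054131283449247902466048000), (nat_lit 4410501400340933843783516160000), (nat_lit 0), (nat_lit 0), (nat_lit 494649966725257697485269749465088), (nat_lit 1741280545741802917354271309561856), (nat_lit 1298289750583860843312445952884736), (nat_lit 1741280545741802917354271309561856),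 (nat_lit 540489967827937282607649061339136), (nat_lit 0), (nat_lit 0), (nat_lit 1329510867508963843657844045905920), (nat_lit 3551232856403137423361779483803648), (nat_lit 1700720524737998732520727504748544), (nat_lit 1854088543177440806441156886921216), (nat_lit 757869054131283449247902466048000), (nat_lit 0), (nat_lit 0), (nat_lit 4230822384043980658109828120444928), (nat_lit 8205981049776770902329686048636928), (nat_lit 5955706957833398312287136229883904), (nat_lit 3443566318388296434462190076952576), (nat_lit 1042562424682768316836534550528000), (nat_lit 0), (nat_lit 1453508147553715977518547097092096), (nat_lit 7837224689355206064146646608904192), (nat_lit 5371025356135895565637701391613952), (nat_lit 6375551800006954578718946343518208), (nat_lit 3502360287728752055862947204825088), (nat_lit 3142160884428377241108536899928064), (nat_lit 7039888235616019277990820178821120), (nat_lit 8606129157481806132557497847775232), (nat_lit 4305815898931787374752493096402944),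 (nat_lit 1890984042224046903000383289819136), (nat_lit 5058189056066490536860635038220288), (nat_lit 5292750311794916158892586955702272), (nat_lit 4741239593737934818994753403617280), (nat_lit 3021409309779914606323491051405312), (nat_lit 4089476329940135564537071574974464), (nat_lit 7322814881653791520020422430031872), (nat_lit 3104976135203680968895244592480256), (nat_lit 2169018846444348141930800870326272), (nat_lit 3754313029639671762673784598822912), (nat_lit 1014132167817417991535856596287488), (nat_lit 0), (nat_lit 0), (nat_lit 1329510867508963843657844045905920), (nat_lit 2248618041061839809868342711287808), (nat_lit 1700720524737998732520727504748544), (nat_lit 1854088543177440806441156886921216), (nat_lit 757869054131283449247902466048000), (nat_lit 0), (nat_lit 0), (nat_lit 713649321919874451129109963603968), (nat_lit 6550731855269318731149782452011008), (nat_lit 1855968684642193835438318070792192), (nat_lit 7359797663696028802899212492603392),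 (nat_lit 2349967942813161412841034095788032), (nat_lit 0), (nat_lit 1453508147553715977518547097092096), (nat_lit 7837224689355206064146646608904192), (nat_lit 5371025356135895565637701391613952), (nat_lit 6375551800006954578718946343518208), (nat_lit 3502360287728752055862947204825088), (nat_lit 1678311296475715023670182854787072), (nat_lit 12042588475816036409918077106388992), (nat_lit 8802452858287129364983436059607040), (nat_lit 9513082684962612466866675316162560), (nat_lit 4067250353145525398679490161278976), (nat_lit 6497481489370316923492902604111872), (nat_lit 6009358088695069043266952758296576), (nat_lit 9490856505606307675797257396944896), (nat_lit 3789579576202764411847603283558400), (nat_lit 5584857754468618016570971974008832), (nat_lit 8976614875322630257240994446573568), (nat_lit 5525699691885832892978019572908032), (nat_lit 4386709798619736639917169901043712), (nat_lit 4007197325917602068153942264512512), (nat_lit 2045809851980953000458586630914048),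 (nat_lit 0), (nat_lit 0), (nat_lit 3092065859416344805118412356321280), (nat_lit 3165445829442172797496873048866816), (nat_lit 4327746780672320838813177452953600), (nat_lit 2234653400492598801573892319084544), (nat_lit 768651863051437294372472271929344), (nat_lit 0), (nat_lit 713649321919874451129109963603968), (nat_lit 11203165720824683452229161448374272), (nat_lit 4685467137819026435406046873780224), (nat_lit 7342244838134247392484923296186368), (nat_lit 3175339065348844877886902891446272), (nat_lit 3142160884428377241108536899928064), (nat_lit 7039888235616019277990820178821120), (nat_lit 8606129157481806132557497847775232), (nat_lit 4305815898931787374752493096402944), (nat_lit 1890984042224046903000383289819136), (nat_lit 6497481489370316923492902604111872), (nat_lit 6009358088695069043266952758296576), (nat_lit 9490856505606307675797257396944896), (nat_lit 3789579576202764411847603283558400), (nat_lit 7726251220828411856411878391545856),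 (nat_lit 10017459678006130814905942724837376), (nat_lit 5837983874596197491494729109471232), (nat_lit 4367820989197141043261043590037504), (nat_lit 3579867592193287716297413014585344), (nat_lit 2296655128557598482379105028276224), (nat_lit 0), (nat_lit 1329510867508963843657844045905920), (nat_lit 3165445829442172797496873048866816), (nat_lit 4830876031400812755072195722477568), (nat_lit 3574663513163537387540341485207552), (nat_lit 1623359920587802913536900035772416), (nat_lit 1329510867508963843657844045905920), (nat_lit 7863648424772611053021553701683200), (nat_lit 4685467137819026435406046873780224), (nat_lit 5782740490319792936400157698686976), (nat_lit 2070733505592697315115643294449664), (nat_lit 5058189056066490536860635038220288), (nat_lit 5292750311794916158892586955702272), (nat_lit 4741239593737934818994753403617280), (nat_lit 3021409309779914606323491051405312), (nat_lit 5584857754468618016570971974008832), (nat_lit 8976614875322630257240994446573568),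 (nat_lit 5525699691885832892978019572908032), (nat_lit 4367820989197141043261043590037504), (nat_lit 3579867592193287716297413014585344), (nat_lit 3233470461636411021360135351042048), (nat_lit 494649966725257697485269749465088), (nat_lit 2248618041061839809868342711287808), (nat_lit 4327746780672320838813177452953600), (nat_lit 3574663513163537387540341485207552), (nat_lit 1855152369477198666651802007502848), (nat_lit 2561953150128489491619702229696512), (nat_lit 1855968684642193835438318070792192), (nat_lit 7342244838134247392484923296186368), (nat_lit 2070733505592697315115643294449664), (nat_lit 4089476329940135564537071574974464), (nat_lit 7322814881653791520020422430031872), (nat_lit 3104976135203680968895244592480256), (nat_lit 4386709798619736639917169901043712), (nat_lit 4007197325917602068153942264512512), (nat_lit 2296655128557598482379105028276224), (nat_lit 1741280545741802917354271309561856), (nat_lit 1700720524737998732520727504748544),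 (nat_lit 2234653400492598801573892319084544), (nat_lit 1623359920587802913536900035772416), (nat_lit 1700720524737998732520727504748544), (nat_lit 7359797663696028802899212492603392), (nat_lit 3175339065348844877886902891446272), (nat_lit 2169018846444348141930800870326272), (nat_lit 3754313029639671762673784598822912), (nat_lit 2045809851980953000458586630914048), (nat_lit 1298289750583860843312445952884736), (nat_lit 1854088543177440806441156886921216), (nat_lit 768651863051437294372472271929344), (nat_lit 1854088543177440806441156886921216), (nat_lit 2349967942813161412841034095788032), (nat_lit 1014132167817417991535856596287488), (nat_lit 1741280545741802917354271309561856), (nat_lit 757869054131283449247902466048000), (nat_lit 757869054131283449247902466048000), (nat_lit 540489967827937282607649061339136)]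


def lP12_0 : List (T ℤ) := [(P (nat_lit 0)), (P (nat_lit 0)), (P (nat_lit 0)), (P (nat_lit 0)), (P (nat_lit 0)), (P (nat_lit 0)), (P (nat_lit 0)), (P (nat_lit 0))]
def lP12_1 : List (T ℤ) := [(P (nat_lit 0)), (M (nat_lit 4410501400340933843783516159999)), (P (nat_lit 0)), (P (nat_lit 0)), (T.h (T.h (T.h (M (nat_lit 128120900552666237134832664575)) (T.h (P (nat_lit 0)) (T.h (P (nat_lit 244345310791578333216768)) (T.h (P (nat_lit 0)) (T.h (P (nat_lit 622944617486090240)) (T.h (P (nat_lit 0)) (M (nat_lit 2463187883231)))))))) (T.h (P (nat_lit 0)) (T.h (T.h (M (nat_lit 374856245789455152054271)) (T.h (P (nat_lit 0)) (T.h (M (nat_lit 1937253098095378431)) (T.h (P (nat_lit 0)) (P (nat_lit 3986189105440)))))) (T.h (P (nat_lit 0)) (T.h (T.h (M (nat_lit 3158064110562705407)) (T.h (P (nat_lit 0)) (P (nat_lit 2707914055472)))) (T.h (P (nat_lit 0)) (P (nat_lit 1380574505568)))))))) (T.h (T.h (P (nat_lit 0)) (T.h (T.h (P (nat_lit 0)) (T.h (M (nat_lit 1980045858969294471167))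 (T.h (P (nat_lit 0)) (P (nat_lit 3795046400131072))))) (T.h (P (nat_lit 0)) (T.h (T.h (P (nat_lit 0)) (P (nat_lit 2866966031630336))) (P (nat_lit 0)))))) (T.h (T.h (T.h (M (nat_lit 374856245789455152054271)) (T.h (P (nat_lit 0)) (T.h (M (nat_lit 1937253098095378431)) (T.h (P (nat_lit 0)) (P (nat_lit 3986189105440)))))) (T.h (P (nat_lit 0)) (T.h (T.h (M (nat_lit 1706496107061706751)) (T.h (P (nat_lit 0)) (P (nat_lit 4438957717760)))) (T.h (P (nat_lit 0)) (P (nat_lit 1184705075472)))))) (T.h (T.h (P (nat_lit 0)) (T.h (T.h (P (nat_lit 0)) (P (nat_lit 2866966031630336))) (P (nat_lit 0)))) (T.h (T.h (T.h (M (nat_lit 3158064110562705407)) (T.h (P (nat_lit 0)) (P (nat_lit 2707914055472)))) (T.h (P (nat_lit 0)) (P (nat_lit 1184705075472)))) (T.h (P (nat_lit 0)) (P (nat_lit 1380574505568)))))))), (T.h (T.h (T.h (P (nat_lit 0)) (T.h (M (nat_lit 6708703288543951383055826943)) (T.h (P (nat_lit 0)) (T.h (M (nat_lit 8639614918792361017343)) (T.h (P (nat_lit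 0)) (P (nat_lit 12079869476732928))))))) (T.h (P (nat_lit 0)) (T.h (T.h (P (nat_lit 0)) (T.h (M (nat_lit 9336552845164421316607)) (T.h (P (nat_lit 0)) (M (nat_lit 17301337354928127))))) (T.h (P (nat_lit 0)) (T.h (T.h (P (nat_lit 0)) (M (nat_lit 10096859823996927))) (P (nat_lit 0))))))) (T.h (T.h (P (nat_lit 0)) (T.h (T.h (P (nat_lit 2367679197508544791314432)) (T.h (P (nat_lit 0)) (T.h (M (nat_lit 16662209236586987519)) (T.h (P (nat_lit 0)) (M (nat_lit 14111840783999)))))) (T.h (P (nat_lit 0)) (T.h (T.h (M (nat_lit 18959063845215141887)) (T.h (P (nat_lit 0)) (P (nat_lit 16464759474008)))) (T.h (P (nat_lit 0)) (P (nat_lit 1709027307648))))))) (T.h (T.h (T.h (P (nat_lit 0)) (T.h (M (nat_lit 4825756084058852425727)) (T.h (P (nat_lit 0)) (M (nat_lit 22339981025869823))))) (T.h (P (nat_lit 0)) (T.h (T.h (P (nat_lit 0)) (M (nat_lit 22001358117797887))) (P (nat_lit 0))))) (T.h (T.h (P (nat_lit 0)) (T.h (T.h (M (nat_lit 17490023526864781311)) (T.h (P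 (nat_lit 0)) (P (nat_lit 1223173417000)))) (T.h (P (nat_lit 0)) (P (nat_lit 4452436307520))))) (T.h (T.h (T.h (P (nat_lit 0)) (M (nat_lit 13727318916464639))) (P (nat_lit 0))) (T.h (T.h (P (nat_lit 0)) (P (nat_lit 1111384698048))) (P (nat_lit 0)))))))), (T.h (T.h (T.h (P (nat_lit 7707325677427308464448959676416)) (T.h (P (nat_lit 0)) (T.h (P (nat_lit 6115846739255371820433408)) (T.h (P (nat_lit 0)) (T.h (M (nat_lit 6761073294046134271)) (T.h (P (nat_lit 0)) (P (nat_lit 5745344476032)))))))) (T.h (P (nat_lit 0)) (T.h (T.h (P (nat_lit 2901120429012419390472192)) (T.h (P (nat_lit 0)) (T.h (P (nat_lit 15647870045474783232)) (T.h (P (nat_lit 0)) (M (nat_lit 6986606627727)))))) (T.h (P (nat_lit 0)) (T.h (T.h (P (nat_lit 5890513963451416576)) (T.h (P (nat_lit 0)) (M (nat_lit 4692097755967)))) (T.h (P (nat_lit 0)) (M (nat_lit 1109493383599)))))))) (T.h (T.h (P (nat_lit 0)) (T.h (T.h (P (nat_lit 0)) (T.h (P (nat_lit 9365546830999188406272)) (T.h (P (nat_lit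 0)) (P (nat_lit 11959213971734528))))) (T.h (P (nat_lit 0)) (T.h (T.h (P (nat_lit 0)) (M (nat_lit 11019108930781183))) (P (nat_lit 0)))))) (T.h (T.h (T.h (P (nat_lit 2901120429012419390472192)) (T.h (P (nat_lit 0)) (T.h (P (nat_lit 15647870045474783232)) (T.h (P (nat_lit 0)) (M (nat_lit 6986606627727)))))) (T.h (P (nat_lit 0)) (T.h (T.h (P (nat_lit 12105851740364996608)) (T.h (P (nat_lit 0)) (M (nat_lit 10354312704511)))) (T.h (P (nat_lit 0)) (M (nat_lit 1741740014223)))))) (T.h (T.h (P (nat_lit 0)) (T.h (T.h (P (nat_lit 0)) (M (nat_lit 11019108930781183))) (P (nat_lit 0)))) (T.h (T.h (T.h (P (nat_lit 5890513963451416576)) (T.h (P (nat_lit 0)) (M (nat_lit 4692097755967)))) (T.h (P (nat_lit 0)) (M (nat_lit 1741740014223)))) (T.h (P (nat_lit 0)) (M (nat_lit 1109493383599)))))))), (T.h (T.h (T.h (P (nat_lit 0)) (T.h (P (nat_lit 6708703288543951383055826944)) (T.h (P (nat_lit 0)) (T.h (P (nat_lit 8639614918792361017344)) (T.h (P (nat_lit 0)) (M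 (nat_lit 12079869476732927))))))) (T.h (P (nat_lit 0)) (T.h (T.h (P (nat_lit 0)) (T.h (P (nat_lit 7081154464611636871168)) (T.h (P (nat_lit 0)) (P (nat_lit 19820659190398976))))) (T.h (P (nat_lit 0)) (T.h (T.h (P (nat_lit 0)) (P (nat_lit 11912089370230784))) (P (nat_lit 0))))))) (T.h (T.h (P (nat_lit 0)) (T.h (T.h (M (nat_lit 2367679197508544791314431)) (T.h (P (nat_lit 0)) (T.h (P (nat_lit 16662209236586987520)) (T.h (P (nat_lit 0)) (P (nat_lit 14111840784000)))))) (T.h (P (nat_lit 0)) (T.h (T.h (P (nat_lit 18224543686039961600)) (T.h (P (nat_lit 0)) (M (nat_lit 8843966445503)))) (T.h (P (nat_lit 0)) (M (nat_lit 1410206002847))))))) (T.h (T.h (T.h (P (nat_lit 0)) (T.h (P (nat_lit 7081154464611636871168)) (T.h (P (nat_lit 0)) (P (nat_lit 19820659190398976))))) (T.h (P (nat_lit 0)) (T.h (T.h (P (nat_lit 0)) (P (nat_lit 22001358117797888))) (P (nat_lit 0))))) (T.h (T.h (P (nat_lit 0)) (T.h (T.h (P (nat_lit 18224543686039961600)) (T.h (P (nat_lit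 0)) (M (nat_lit 8843966445503)))) (T.h (P (nat_lit 0)) (M (nat_lit 4452436307519))))) (T.h (T.h (T.h (P (nat_lit 0)) (P (nat_lit 11912089370230784))) (P (nat_lit 0))) (T.h (T.h (P (nat_lit 0)) (M (nat_lit 1410206002847))) (P (nat_lit 0))))))))]
def lP12_2 : List (T ℤ) := [(T.h (T.h (T.h (M (nat_lit 2172631954831739215942938263551)) (T.h (P (nat_lit 0)) (T.h (M (nat_lit 7101092557652367280963583)) (T.h (P (nat_lit 0)) (P (nat_lit 3403652489910681600)))))) (T.h (P (nat_lit 0)) (T.h (T.h (M (nat_lit 3113098526908072926904319)) (T.h (P (nat_lit 0)) (M (nat_lit 11923797260938248191)))) (T.h (P (nat_lit 0)) (M (nat_lit 3128846296169840639)))))) (T.h (T.h (P (nat_lit 0)) (T.h (T.h (P (nat_lit 0)) (T.h (M (nat_lit 6096585033635921395711)) (T.h (P (nat_lit 0)) (M (nat_lit 19267366617087999))))) (T.h (P (nat_lit 0)) (T.h (T.h (P (nat_lit 0)) (P (nat_lit 6037481093464064))) (P (nat_lit 0)))))) (T.h (T.h (T.h (M (nat_lit 3113098526908072926904319)) (T.h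 (P (nat_lit 0)) (M (nat_lit 11923797260938248191)))) (T.h (P (nat_lit 0)) (M (nat_lit 5441742847361417215)))) (T.h (T.h (P (nat_lit 0)) (T.h (T.h (P (nat_lit 0)) (P (nat_lit 6037481093464064))) (P (nat_lit 0)))) (M (nat_lit 3128846296169840639)))))), (P (nat_lit 0)), (P (nat_lit 0)), (P (nat_lit 0)), (T.h (T.h (P (nat_lit 0)) (T.h (T.h (P (nat_lit 0)) (T.h (P (nat_lit 8967851728135020949274624)) (T.h (P (nat_lit 0)) (T.h (P (nat_lit 5808715515924840448)) (T.h (P (nat_lit 0)) (M (nat_lit 6298334266991))))))) (T.h (P (nat_lit 0)) (T.h (T.h (P (nat_lit 0)) (T.h (M (nat_lit 1632295132411723775)) (T.h (P (nat_lit 0)) (M (nat_lit 1954457784095))))) (T.h (P (nat_lit 0)) (T.h (T.h (P (nat_lit 0)) (M (nat_lit 1262651453183))) (P (nat_lit 0)))))))) (T.h (T.h (T.h (P (nat_lit 382278186225956246805020672)) (T.h (P (nat_lit 0)) (T.h (M (nat_lit 6393028105238678077439)) (T.h (P (nat_lit 0)) (P (nat_lit 10182874572193792)))))) (T.h (P (nat_lit 0)) (T.h (T.h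 (P (nat_lit 4917025952193526628352)) (T.h (P (nat_lit 0)) (P (nat_lit 17704818290655232)))) (T.h (P (nat_lit 0)) (P (nat_lit 566836548272128)))))) (T.h (T.h (P (nat_lit 0)) (T.h (T.h (P (nat_lit 0)) (T.h (P (nat_lit 21437333873006477312)) (T.h (P (nat_lit 0)) (M (nat_lit 14649144822207))))) (T.h (P (nat_lit 0)) (T.h (T.h (P (nat_lit 0)) (P (nat_lit 7808644584816))) (P (nat_lit 0)))))) (T.h (T.h (T.h (M (nat_lit 2314989451720488124415)) (T.h (P (nat_lit 0)) (M (nat_lit 20917731012706303)))) (T.h (P (nat_lit 0)) (P (nat_lit 13535529003122688)))) (T.h (T.h (P (nat_lit 0)) (T.h (T.h (P (nat_lit 0)) (P (nat_lit 9389964963200))) (P (nat_lit 0)))) (M (nat_lit 1940894262886399))))))), (T.h (T.h (P (nat_lit 0)) (T.h (T.h (M (nat_lit 6924666312730873039744401407)) (T.h (P (nat_lit 0)) (T.h (M (nat_lit 13034215677552899391487)) (T.h (P (nat_lit 0)) (P (nat_lit 27806606744977408)))))) (T.h (P (nat_lit 0)) (T.h (T.h (P (nat_lit 5224766766905693306880)) (T.h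 (P (nat_lit 0)) (M (nat_lit 18326436873601023)))) (T.h (P (nat_lit 0)) (M (nat_lit 14235708366225407))))))) (T.h (T.h (T.h (P (nat_lit 0)) (T.h (P (nat_lit 5810283156555816016805888)) (T.h (P (nat_lit 0)) (T.h (P (nat_lit 41172884228734451712)) (T.h (P (nat_lit 0)) (P (nat_lit 4509737917544))))))) (T.h (P (nat_lit 0)) (T.h (T.h (P (nat_lit 0)) (T.h (P (nat_lit 2086100085598322688)) (T.h (P (nat_lit 0)) (M (nat_lit 16296856776735))))) (T.h (P (nat_lit 0)) (T.h (T.h (P (nat_lit 0)) (P (nat_lit 4779188645288))) (P (nat_lit 0))))))) (T.h (T.h (P (nat_lit 0)) (T.h (T.h (P (nat_lit 20966851406420814856192)) (T.h (P (nat_lit 0)) (M (nat_lit 16257695584583679)))) (T.h (P (nat_lit 0)) (P (nat_lit 805034664558592))))) (T.h (T.h (T.h (P (nat_lit 0)) (T.h (P (nat_lit 45427878034464047104)) (T.h (P (nat_lit 0)) (P (nat_lit 13433110305528))))) (T.h (P (nat_lit 0)) (T.h (T.h (P (nat_lit 0)) (P (nat_lit 18179075001016))) (P (nat_lit 0))))) (T.h (T.h (P (nat_lit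 0)) (P (nat_lit 14704517348524032))) (T.h (T.h (T.h (P (nat_lit 0)) (P (nat_lit 3774720305552))) (P (nat_lit 0))) (P (nat_lit 0)))))))), (T.h (T.h (P (nat_lit 0)) (T.h (T.h (P (nat_lit 0)) (T.h (P (nat_lit 11799924226416691745128448)) (T.h (P (nat_lit 0)) (T.h (M (nat_lit 13066312361172795391)) (T.h (P (nat_lit 0)) (P (nat_lit 11861041236576))))))) (T.h (P (nat_lit 0)) (T.h (T.h (P (nat_lit 0)) (T.h (P (nat_lit 24992502955122884608)) (T.h (P (nat_lit 0)) (P (nat_lit 4308734371088))))) (T.h (P (nat_lit 0)) (T.h (T.h (P (nat_lit 0)) (P (nat_lit 3040955945440))) (P (nat_lit 0)))))))) (T.h (T.h (T.h (M (nat_lit 832454746821739008015466495)) (T.h (P (nat_lit 0)) (T.h (M (nat_lit 32130929532941937672191)) (T.h (P (nat_lit 0)) (P (nat_lit 5910113848442880)))))) (T.h (P (nat_lit 0)) (T.h (T.h (M (nat_lit 4047631849667556278271)) (T.h (P (nat_lit 0)) (P (nat_lit 703405565444096)))) (T.h (P (nat_lit 0)) (M (nat_lit 6980540568846335)))))) (T.h (T.h (P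 (nat_lit 0)) (T.h (T.h (P (nat_lit 0)) (T.h (P (nat_lit 22920260165497257984)) (T.h (P (nat_lit 0)) (P (nat_lit 19135086581520))))) (T.h (P (nat_lit 0)) (T.h (T.h (P (nat_lit 0)) (M (nat_lit 4081026789279))) (P (nat_lit 0)))))) (T.h (T.h (T.h (P (nat_lit 2581207630647769694208)) (T.h (P (nat_lit 0)) (P (nat_lit 21537784946409472)))) (T.h (P (nat_lit 0)) (M (nat_lit 25091771215478783)))) (T.h (T.h (P (nat_lit 0)) (T.h (T.h (P (nat_lit 0)) (M (nat_lit 6622509720623))) (P (nat_lit 0)))) (P (nat_lit 3821690648035328))))))), (T.h (T.h (P (nat_lit 0)) (T.h (T.h (P (nat_lit 5365436076063364494613544960)) (T.h (P (nat_lit 0)) (T.h (P (nat_lit 16692309233254172459008)) (T.h (P (nat_lit 0)) (M (nat_lit 24295617010860031)))))) (T.h (P (nat_lit 0)) (T.h (T.h (M (nat_lit 2829647422335983026175)) (T.h (P (nat_lit 0)) (P (nat_lit 17366088078819328)))) (T.h (P (nat_lit 0)) (P (nat_lit 8555427069952000))))))) (T.h (T.h (T.h (P (nat_lit 0)) (T.h (M (nat_lit 13089024482181258328145919))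 (T.h (P (nat_lit 0)) (T.h (M (nat_lit 36766634793414688767)) (T.h (P (nat_lit 0)) (M (nat_lit 1283713304399))))))) (T.h (P (nat_lit 0)) (T.h (T.h (P (nat_lit 0)) (T.h (P (nat_lit 25093469970943180800)) (T.h (P (nat_lit 0)) (P (nat_lit 13661142254976))))) (T.h (P (nat_lit 0)) (T.h (T.h (P (nat_lit 0)) (M (nat_lit 4085685683903))) (P (nat_lit 0))))))) (T.h (T.h (P (nat_lit 0)) (T.h (T.h (M (nat_lit 23003241910279304380415)) (T.h (P (nat_lit 0)) (P (nat_lit 26953724719824896)))) (T.h (P (nat_lit 0)) (P (nat_lit 6090253865844736))))) (T.h (T.h (T.h (P (nat_lit 0)) (T.h (M (nat_lit 32647441060556963839)) (T.h (P (nat_lit 0)) (P (nat_lit 2377596206784))))) (T.h (P (nat_lit 0)) (T.h (T.h (P (nat_lit 0)) (P (nat_lit 3390121286400))) (P (nat_lit 0))))) (T.h (T.h (P (nat_lit 0)) (M (nat_lit 4868192976011263))) (T.h (T.h (T.h (P (nat_lit 0)) (P (nat_lit 4237866999168))) (P (nat_lit 0))) (P (nat_lit 0))))))))]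
def lP12_3 : List (T ℤ) := [(T.h (T.h (P (nat_lit 0)) (T.h (T.h (P (nat_lit 0)) (T.h (M (nat_lit 18381355421258832978903039)) (T.h (P (nat_lit 0)) (P (nat_lit 7114211940729094144))))) (T.h (P (nat_lit 0)) (T.h (T.h (P (nat_lit 0)) (M (nat_lit 23203781688285986815))) (P (nat_lit 0)))))) (T.h (T.h (T.h (P (nat_lit 2547540643335990035118817280)) (T.h (P (nat_lit 0)) (T.h (P (nat_lit 34455666698401404157952)) (T.h (P (nat_lit 0)) (M (nat_lit 2625970948095999)))))) (T.h (P (nat_lit 0)) (T.h (T.h (M (nat_lit 19946718446392155570175)) (T.h (P (nat_lit 0)) (M (nat_lit 4932788028899327)))) (T.h (P (nat_lit 0)) (P (nat_lit 3801332291633152)))))) (T.h (T.h (P (nat_lit 0)) (T.h (T.h (P (nat_lit 0)) (M (nat_lit 36613268445365010431))) (P (nat_lit 0)))) (T.h (T.h (T.h (P (nat_lit 392783585823669878784)) (T.h (P (nat_lit 0)) (P (nat_lit 584082030985216)))) (T.h (P (nat_lit 0)) (P (nat_lit 3402133379809280)))) (T.h (P (nat_lit 0)) (M (nat_lit 965174953410559))))))),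 (P (nat_lit 0)), (P (nat_lit 0)), (T.h (T.h (T.h (P (nat_lit 2362981971938681723231315951616)) (T.h (P (nat_lit 0)) (T.h (P (nat_lit 2807452377464748726288384)) (T.h (P (nat_lit 0)) (T.h (P (nat_lit 1473600440821088256)) (T.h (P (nat_lit 0)) (P (nat_lit 1881683625120)))))))) (T.h (P (nat_lit 0)) (T.h (T.h (P (nat_lit 2807452377464748726288384)) (T.h (P (nat_lit 0)) (T.h (P (nat_lit 47444693086864670720)) (T.h (P (nat_lit 0)) (M (nat_lit 18230505796079)))))) (T.h (P (nat_lit 0)) (T.h (T.h (P (nat_lit 1473600440821088256)) (T.h (P (nat_lit 0)) (M (nat_lit 18230505796079)))) (T.h (P (nat_lit 0)) (P (nat_lit 1881683625120)))))))) (T.h (T.h (P (nat_lit 0)) (T.h (T.h (P (nat_lit 0)) (T.h (M (nat_lit 50356209117790411423743)) (T.h (P (nat_lit 0)) (P (nat_lit 40788069370691584))))) (T.h (P (nat_lit 0)) (T.h (T.h (P (nat_lit 0)) (P (nat_lit 40788069370691584))) (P (nat_lit 0)))))) (T.h (T.h (T.h (M (nat_lit 7333312270972622047543295)) (T.h (P (nat_lit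 0)) (T.h (M (nat_lit 5859465466359054335)) (T.h (P (nat_lit 0)) (P (nat_lit 1042106905216)))))) (T.h (P (nat_lit 0)) (T.h (T.h (M (nat_lit 5859465466359054335)) (T.h (P (nat_lit 0)) (M (nat_lit 2800608362303)))) (T.h (P (nat_lit 0)) (P (nat_lit 1042106905216)))))) (T.h (T.h (P (nat_lit 0)) (T.h (T.h (P (nat_lit 0)) (M (nat_lit 124448709464817663))) (P (nat_lit 0)))) (T.h (T.h (T.h (P (nat_lit 2883080607284330496)) (T.h (P (nat_lit 0)) (P (nat_lit 5661848525520)))) (T.h (P (nat_lit 0)) (P (nat_lit 5661848525520)))) (T.h (P (nat_lit 0)) (M (nat_lit 938032279007)))))))), (T.h (T.h (T.h (P (nat_lit 0)) (T.h (P (nat_lit 5868077265898543568226615296)) (T.h (P (nat_lit 0)) (T.h (M (nat_lit 17960240460068412194815)) (T.h (P (nat_lit 0)) (M (nat_lit 6184202340007935))))))) (T.h (P (nat_lit 0)) (T.h (T.h (P (nat_lit 0)) (T.h (M (nat_lit 30977542478894093828095)) (T.h (P (nat_lit 0)) (P (nat_lit 83312061680222208))))) (T.h (P (nat_lit 0)) (T.h (T.h (P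 (nat_lit 0)) (P (nat_lit 2865318050037760))) (P (nat_lit 0))))))) (T.h (T.h (P (nat_lit 0)) (T.h (T.h (P (nat_lit 13739223594421542558105600)) (T.h (P (nat_lit 0)) (T.h (P (nat_lit 23470598196360642560)) (T.h (P (nat_lit 0)) (P (nat_lit 14476686885368)))))) (T.h (P (nat_lit 0)) (T.h (T.h (P (nat_lit 7385027208714125312)) (T.h (P (nat_lit 0)) (M (nat_lit 14844636919919)))) (T.h (P (nat_lit 0)) (P (nat_lit 9003225838696))))))) (T.h (T.h (T.h (P (nat_lit 0)) (T.h (M (nat_lit 26700015962339074375679)) (T.h (P (nat_lit 0)) (M (nat_lit 22572802849243135))))) (T.h (P (nat_lit 0)) (T.h (T.h (P (nat_lit 0)) (M (nat_lit 66931479672619007))) (P (nat_lit 0))))) (T.h (T.h (P (nat_lit 0)) (T.h (T.h (P (nat_lit 15287187009160871936)) (T.h (P (nat_lit 0)) (P (nat_lit 15453759794080)))) (T.h (P (nat_lit 0)) (M (nat_lit 5730851703471))))) (T.h (T.h (T.h (P (nat_lit 0)) (M (nat_lit 25377768435810303))) (P (nat_lit 0))) (T.h (T.h (P (nat_lit 0)) (P (nat_lit 3021184331912)))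 (P (nat_lit 0)))))))), (T.h (T.h (T.h (P (nat_lit 8547243003319011634805544583168)) (T.h (P (nat_lit 0)) (T.h (M (nat_lit 10074423422740968400486399)) (T.h (P (nat_lit 0)) (T.h (P (nat_lit 2900983089347952640)) (T.h (P (nat_lit 0)) (M (nat_lit 8507132336751)))))))) (T.h (P (nat_lit 0)) (T.h (T.h (P (nat_lit 14510347300884980999127040)) (T.h (P (nat_lit 0)) (T.h (M (nat_lit 56693657735398424575)) (T.h (P (nat_lit 0)) (P (nat_lit 37577714858544)))))) (T.h (P (nat_lit 0)) (T.h (T.h (P (nat_lit 35610800256633012224)) (T.h (P (nat_lit 0)) (P (nat_lit 29692863900784)))) (T.h (P (nat_lit 0)) (M (nat_lit 4773610931599)))))))) (T.h (T.h (P (nat_lit 0)) (T.h (T.h (P (nat_lit 0)) (T.h (M (nat_lit 5544913477966684487679)) (T.h (P (nat_lit 0)) (M (nat_lit 51337459934527487))))) (T.h (P (nat_lit 0)) (T.h (T.h (P (nat_lit 0)) (P (nat_lit 788703454953472))) (P (nat_lit 0)))))) (T.h (T.h (T.h (M (nat_lit 15586726180167793191682047)) (T.h (P (nat_lit 0)) (T.h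 (P (nat_lit 14865489118221041664)) (T.h (P (nat_lit 0)) (M (nat_lit 16452623026111)))))) (T.h (P (nat_lit 0)) (T.h (T.h (P (nat_lit 35663318068957806592)) (T.h (P (nat_lit 0)) (P (nat_lit 14277571269584)))) (T.h (P (nat_lit 0)) (P (nat_lit 15366368407824)))))) (T.h (T.h (P (nat_lit 0)) (T.h (T.h (P (nat_lit 0)) (P (nat_lit 107443297016119296))) (P (nat_lit 0)))) (T.h (T.h (T.h (M (nat_lit 25082296066384068607)) (T.h (P (nat_lit 0)) (M (nat_lit 8671366263727)))) (T.h (P (nat_lit 0)) (M (nat_lit 6732252487071)))) (T.h (P (nat_lit 0)) (M (nat_lit 1807611555343)))))))), (T.h (T.h (T.h (P (nat_lit 0)) (T.h (P (nat_lit 5075728687560414900525203456)) (T.h (P (nat_lit 0)) (T.h (M (nat_lit 4975638722445056147455)) (T.h (P (nat_lit 0)) (P (nat_lit 15728383238602752))))))) (T.h (P (nat_lit 0)) (T.h (T.h (P (nat_lit 0)) (T.h (P (nat_lit 30406151196474345521152)) (T.h (P (nat_lit 0)) (M (nat_lit 43971231570493439))))) (T.h (P (nat_lit 0)) (T.h (T.h (P (nat_lit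 0)) (P (nat_lit 31295638072459264))) (P (nat_lit 0))))))) (T.h (T.h (P (nat_lit 0)) (T.h (T.h (M (nat_lit 15188638981517575697989631)) (T.h (P (nat_lit 0)) (T.h (P (nat_lit 3965753984890699776)) (T.h (P (nat_lit 0)) (M (nat_lit 3300786166367)))))) (T.h (P (nat_lit 0)) (T.h (T.h (P (nat_lit 12216619188252311552)) (T.h (P (nat_lit 0)) (P (nat_lit 253154553840)))) (T.h (P (nat_lit 0)) (M (nat_lit 4836003780143))))))) (T.h (T.h (T.h (P (nat_lit 0)) (T.h (P (nat_lit 19474584951922158993408)) (T.h (P (nat_lit 0)) (P (nat_lit 4315555809820672))))) (T.h (P (nat_lit 0)) (T.h (T.h (P (nat_lit 0)) (M (nat_lit 24912020807942143))) (P (nat_lit 0))))) (T.h (T.h (P (nat_lit 0)) (T.h (T.h (M (nat_lit 27117710602233970687)) (T.h (P (nat_lit 0)) (P (nat_lit 9557671096032)))) (T.h (P (nat_lit 0)) (P (nat_lit 14947988241648))))) (T.h (T.h (T.h (P (nat_lit 0)) (M (nat_lit 17724020956954623))) (P (nat_lit 0))) (T.h (T.h (P (nat_lit 0)) (M (nat_lit 10644566670095)))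 (P (nat_lit 0)))))))), (T.h (T.h (T.h (M (nat_lit 848019981192476839092825358335)) (T.h (P (nat_lit 0)) (T.h (P (nat_lit 3438041479358372487626752)) (T.h (P (nat_lit 0)) (M (nat_lit 3512947433225060351)))))) (T.h (P (nat_lit 0)) (T.h (T.h (M (nat_lit 6614624667399100999663615)) (T.h (P (nat_lit 0)) (M (nat_lit 19910758226580209663)))) (T.h (P (nat_lit 0)) (M (nat_lit 30926891337990012927)))))) (T.h (T.h (P (nat_lit 0)) (T.h (T.h (P (nat_lit 0)) (T.h (P (nat_lit 41729021910207325798400)) (T.h (P (nat_lit 0)) (M (nat_lit 4819333066915839))))) (T.h (P (nat_lit 0)) (T.h (T.h (P (nat_lit 0)) (P (nat_lit 5405502678335488))) (P (nat_lit 0)))))) (T.h (T.h (T.h (P (nat_lit 10653213847725133906575360)) (T.h (P (nat_lit 0)) (M (nat_lit 3300389089831813119)))) (T.h (P (nat_lit 0)) (P (nat_lit 3947790254513061888)))) (T.h (T.h (P (nat_lit 0)) (T.h (T.h (P (nat_lit 0)) (M (nat_lit 8839026266406911))) (P (nat_lit 0)))) (P (nat_lit 11113978180799561728))))))]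
def lP12_4 : List (T ℤ) := [(P (nat_lit 0)), (P (nat_lit 0)), (T.h (T.h (P (nat_lit 0)) (T.h (T.h (P (nat_lit 0)) (T.h (P (nat_lit 8967851728135020949274624)) (T.h (P (nat_lit 0)) (T.h (M (nat_lit 1632295132411723775)) (T.h (P (nat_lit 0)) (M (nat_lit 1262651453183))))))) (T.h (P (nat_lit 0)) (T.h (T.h (P (nat_lit 0)) (T.h (P (nat_lit 5808715515924840448)) (T.h (P (nat_lit 0)) (M (nat_lit 1954457784095))))) (T.h (P (nat_lit 0)) (T.h (T.h (P (nat_lit 0)) (M (nat_lit 6298334266991))) (P (nat_lit 0)))))))) (T.h (T.h (T.h (P (nat_lit 382278186225956246805020672)) (T.h (P (nat_lit 0)) (T.h (P (nat_lit 4917025952193526628352)) (T.h (P (nat_lit 0)) (P (nat_lit 566836548272128)))))) (T.h (P (nat_lit 0)) (T.h (T.h (M (nat_lit 6393028105238678077439)) (T.h (P (nat_lit 0)) (P (nat_lit 17704818290655232)))) (T.h (P (nat_lit 0)) (P (nat_lit 10182874572193792)))))) (T.h (T.h (P (nat_lit 0)) (T.h (T.h (P (nat_lit 0)) (T.h (P (nat_lit 21437333873006477312))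 (T.h (P (nat_lit 0)) (P (nat_lit 7808644584816))))) (T.h (P (nat_lit 0)) (T.h (T.h (P (nat_lit 0)) (M (nat_lit 14649144822207))) (P (nat_lit 0)))))) (T.h (T.h (T.h (M (nat_lit 2314989451720488124415)) (T.h (P (nat_lit 0)) (P (nat_lit 13535529003122688)))) (T.h (P (nat_lit 0)) (M (nat_lit 20917731012706303)))) (T.h (T.h (P (nat_lit 0)) (T.h (T.h (P (nat_lit 0)) (P (nat_lit 9389964963200))) (P (nat_lit 0)))) (M (nat_lit 1940894262886399))))))), (T.h (T.h (P (nat_lit 0)) (T.h (T.h (P (nat_lit 5868077265898543568226615296)) (T.h (P (nat_lit 0)) (T.h (M (nat_lit 30977542478894093828095)) (T.h (P (nat_lit 0)) (P (nat_lit 2865318050037760)))))) (T.h (P (nat_lit 0)) (T.h (T.h (M (nat_lit 17960240460068412194815)) (T.h (P (nat_lit 0)) (P (nat_lit 83312061680222208)))) (T.h (P (nat_lit 0)) (M (nat_lit 6184202340007935))))))) (T.h (T.h (T.h (P (nat_lit 0)) (T.h (P (nat_lit 13739223594421542558105600)) (T.h (P (nat_lit 0)) (T.h (P (nat_lit 7385027208714125312))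 (T.h (P (nat_lit 0)) (P (nat_lit 9003225838696))))))) (T.h (P (nat_lit 0)) (T.h (T.h (P (nat_lit 0)) (T.h (P (nat_lit 23470598196360642560)) (T.h (P (nat_lit 0)) (M (nat_lit 14844636919919))))) (T.h (P (nat_lit 0)) (T.h (T.h (P (nat_lit 0)) (P (nat_lit 14476686885368))) (P (nat_lit 0))))))) (T.h (T.h (P (nat_lit 0)) (T.h (T.h (M (nat_lit 26700015962339074375679)) (T.h (P (nat_lit 0)) (M (nat_lit 66931479672619007)))) (T.h (P (nat_lit 0)) (M (nat_lit 22572802849243135))))) (T.h (T.h (T.h (P (nat_lit 0)) (T.h (P (nat_lit 15287187009160871936)) (T.h (P (nat_lit 0)) (M (nat_lit 5730851703471))))) (T.h (P (nat_lit 0)) (T.h (T.h (P (nat_lit 0)) (P (nat_lit 15453759794080))) (P (nat_lit 0))))) (T.h (T.h (P (nat_lit 0)) (M (nat_lit 25377768435810303))) (T.h (T.h (T.h (P (nat_lit 0)) (P (nat_lit 3021184331912))) (P (nat_lit 0))) (P (nat_lit 0)))))))), (T.h (T.h (P (nat_lit 0)) (T.h (T.h (P (nat_lit 0)) (T.h (M (nat_lit 41502165659964416028835839)) (T.h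 (P (nat_lit 0)) (T.h (M (nat_lit 35457303268831526911)) (T.h (P (nat_lit 0)) (P (nat_lit 14337066975168))))))) (T.h (P (nat_lit 0)) (T.h (T.h (P (nat_lit 0)) (T.h (M (nat_lit 35457303268831526911)) (T.h (P (nat_lit 0)) (P (nat_lit 43766994916064))))) (T.h (P (nat_lit 0)) (T.h (T.h (P (nat_lit 0)) (P (nat_lit 14337066975168))) (P (nat_lit 0)))))))) (T.h (T.h (T.h (P (nat_lit 18564503227159049971049693184)) (T.h (P (nat_lit 0)) (T.h (M (nat_lit 24820660371626959831039)) (T.h (P (nat_lit 0)) (M (nat_lit 55052733830086655)))))) (T.h (P (nat_lit 0)) (T.h (T.h (M (nat_lit 24820660371626959831039)) (T.h (P (nat_lit 0)) (M (nat_lit 113005295211544575)))) (T.h (P (nat_lit 0)) (M (nat_lit 55052733830086655)))))) (T.h (T.h (P (nat_lit 0)) (T.h (T.h (P (nat_lit 0)) (T.h (P (nat_lit 7187939730510577664)) (T.h (P (nat_lit 0)) (M (nat_lit 15616341643055))))) (T.h (P (nat_lit 0)) (T.h (T.h (P (nat_lit 0)) (M (nat_lit 15616341643055))) (P (nat_lit 0)))))) (T.h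 (T.h (T.h (P (nat_lit 66109599704970709434368)) (T.h (P (nat_lit 0)) (P (nat_lit 5089028726112256)))) (T.h (P (nat_lit 0)) (P (nat_lit 5089028726112256)))) (T.h (T.h (P (nat_lit 0)) (T.h (T.h (P (nat_lit 0)) (M (nat_lit 28206262997471))) (P (nat_lit 0)))) (P (nat_lit 14473944873795584))))))), (T.h (T.h (P (nat_lit 0)) (T.h (T.h (P (nat_lit 3816271784915021482770300928)) (T.h (P (nat_lit 0)) (T.h (M (nat_lit 11629742680612983013375)) (T.h (P (nat_lit 0)) (M (nat_lit 18534864477880319)))))) (T.h (P (nat_lit 0)) (T.h (T.h (P (nat_lit 21431735756132576133120)) (T.h (P (nat_lit 0)) (M (nat_lit 67844963372367871)))) (T.h (P (nat_lit 0)) (P (nat_lit 8421033830252544))))))) (T.h (T.h (T.h (P (nat_lit 0)) (T.h (M (nat_lit 11596132456671698380390399)) (T.h (P (nat_lit 0)) (T.h (P (nat_lit 21823109804238831616)) (T.h (P (nat_lit 0)) (M (nat_lit 20165909466623))))))) (T.h (P (nat_lit 0)) (T.h (T.h (P (nat_lit 0)) (T.h (P (nat_lit 90875215508110573568))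 (T.h (P (nat_lit 0)) (P (nat_lit 6973821289008))))) (T.h (P (nat_lit 0)) (T.h (T.h (P (nat_lit 0)) (M (nat_lit 50297679171887))) (P (nat_lit 0))))))) (T.h (T.h (P (nat_lit 0)) (T.h (T.h (P (nat_lit 16683404358949558812672)) (T.h (P (nat_lit 0)) (P (nat_lit 21362749947805696)))) (T.h (P (nat_lit 0)) (M (nat_lit 39638883541352447))))) (T.h (T.h (T.h (P (nat_lit 0)) (T.h (M (nat_lit 2449777188577214463)) (T.h (P (nat_lit 0)) (P (nat_lit 1434997404528))))) (T.h (P (nat_lit 0)) (T.h (T.h (P (nat_lit 0)) (M (nat_lit 14872495805135))) (P (nat_lit 0))))) (T.h (T.h (P (nat_lit 0)) (P (nat_lit 5798650446217216))) (T.h (T.h (T.h (P (nat_lit 0)) (P (nat_lit 8183120944368))) (P (nat_lit 0))) (P (nat_lit 0)))))))), (T.h (T.h (P (nat_lit 0)) (T.h (T.h (P (nat_lit 0)) (T.h (P (nat_lit 18571853267465370509246464)) (T.h (P (nat_lit 0)) (M (nat_lit 35935822232235802623))))) (T.h (P (nat_lit 0)) (T.h (T.h (P (nat_lit 0)) (M (nat_lit 76155881187738386431))) (P (nat_lit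 0)))))) (T.h (T.h (T.h (M (nat_lit 6099708548673304496447684607)) (T.h (P (nat_lit 0)) (T.h (P (nat_lit 39385658327280031629312)) (T.h (P (nat_lit 0)) (P (nat_lit 35543153834491904)))))) (T.h (P (nat_lit 0)) (T.h (T.h (M (nat_lit 914033056629670281215)) (T.h (P (nat_lit 0)) (M (nat_lit 7400423263076351)))) (T.h (P (nat_lit 0)) (P (nat_lit 25421720942116864)))))) (T.h (T.h (P (nat_lit 0)) (T.h (T.h (P (nat_lit 0)) (P (nat_lit 2818795405779664896))) (P (nat_lit 0)))) (T.h (T.h (T.h (M (nat_lit 17907237936627615531007)) (T.h (P (nat_lit 0)) (M (nat_lit 4731789076348927)))) (T.h (P (nat_lit 0)) (M (nat_lit 10230261391294463)))) (T.h (P (nat_lit 0)) (P (nat_lit 840173474381824))))))), (P (nat_lit 0))]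
def lP12_5 : List (T ℤ) := [(T.h (T.h (T.h (M (nat_lit 128120900552666237134832664575)) (T.h (P (nat_lit 0)) (T.h (M (nat_lit 374856245789455152054271)) (T.h (P (nat_lit 0)) (T.h (M (nat_lit 3158064110562705407)) (T.h (P (nat_lit 0)) (P (nat_lit 1380574505568)))))))) (T.h (P (nat_lit 0)) (T.h (T.h (P (nat_lit 244345310791578333216768)) (T.h (P (nat_lit 0)) (T.h (M (nat_lit 1937253098095378431)) (T.h (P (nat_lit 0)) (P (nat_lit 2707914055472)))))) (T.h (P (nat_lit 0)) (T.h (T.h (P (nat_lit 622944617486090240)) (T.h (P (nat_lit 0)) (P (nat_lit 3986189105440)))) (T.h (P (nat_lit 0)) (M (nat_lit 2463187883231)))))))) (T.h (T.h (P (nat_lit 0)) (T.h (T.h (P (nat_lit 0)) (T.h (M (nat_lit 1980045858969294471167)) (T.h (P (nat_lit 0)) (P (nat_lit 2866966031630336))))) (T.h (P (nat_lit 0)) (T.h (T.h (P (nat_lit 0)) (P (nat_lit 3795046400131072))) (P (nat_lit 0)))))) (T.h (T.h (T.h (M (nat_lit 374856245789455152054271)) (T.h (P (nat_lit 0)) (T.h (M (nat_lit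 1706496107061706751)) (T.h (P (nat_lit 0)) (P (nat_lit 1184705075472)))))) (T.h (P (nat_lit 0)) (T.h (T.h (M (nat_lit 1937253098095378431)) (T.h (P (nat_lit 0)) (P (nat_lit 4438957717760)))) (T.h (P (nat_lit 0)) (P (nat_lit 3986189105440)))))) (T.h (T.h (P (nat_lit 0)) (T.h (T.h (P (nat_lit 0)) (P (nat_lit 2866966031630336))) (P (nat_lit 0)))) (T.h (T.h (T.h (M (nat_lit 3158064110562705407)) (T.h (P (nat_lit 0)) (P (nat_lit 1184705075472)))) (T.h (P (nat_lit 0)) (P (nat_lit 2707914055472)))) (T.h (P (nat_lit 0)) (P (nat_lit 1380574505568)))))))), (T.h (T.h (T.h (P (nat_lit 0)) (T.h (M (nat_lit 6924666312730873039744401407)) (T.h (P (nat_lit 0)) (T.h (P (nat_lit 5224766766905693306880)) (T.h (P (nat_lit 0)) (M (nat_lit 14235708366225407))))))) (T.h (P (nat_lit 0)) (T.h (T.h (P (nat_lit 0)) (T.h (M (nat_lit 13034215677552899391487)) (T.h (P (nat_lit 0)) (M (nat_lit 18326436873601023))))) (T.h (P (nat_lit 0)) (T.h (T.h (P (nat_lit 0)) (P (nat_lit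 27806606744977408))) (P (nat_lit 0))))))) (T.h (T.h (P (nat_lit 0)) (T.h (T.h (P (nat_lit 5810283156555816016805888)) (T.h (P (nat_lit 0)) (T.h (P (nat_lit 2086100085598322688)) (T.h (P (nat_lit 0)) (P (nat_lit 4779188645288)))))) (T.h (P (nat_lit 0)) (T.h (T.h (P (nat_lit 41172884228734451712)) (T.h (P (nat_lit 0)) (M (nat_lit 16296856776735)))) (T.h (P (nat_lit 0)) (P (nat_lit 4509737917544))))))) (T.h (T.h (T.h (P (nat_lit 0)) (T.h (P (nat_lit 20966851406420814856192)) (T.h (P (nat_lit 0)) (P (nat_lit 805034664558592))))) (T.h (P (nat_lit 0)) (T.h (T.h (P (nat_lit 0)) (M (nat_lit 16257695584583679))) (P (nat_lit 0))))) (T.h (T.h (P (nat_lit 0)) (T.h (T.h (P (nat_lit 45427878034464047104)) (T.h (P (nat_lit 0)) (P (nat_lit 18179075001016)))) (T.h (P (nat_lit 0)) (P (nat_lit 13433110305528))))) (T.h (T.h (T.h (P (nat_lit 0)) (P (nat_lit 14704517348524032))) (P (nat_lit 0))) (T.h (T.h (P (nat_lit 0)) (P (nat_lit 3774720305552))) (P (nat_lit 0)))))))),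 (T.h (T.h (T.h (P (nat_lit 8547243003319011634805544583168)) (T.h (P (nat_lit 0)) (T.h (P (nat_lit 14510347300884980999127040)) (T.h (P (nat_lit 0)) (T.h (P (nat_lit 35610800256633012224)) (T.h (P (nat_lit 0)) (M (nat_lit 4773610931599)))))))) (T.h (P (nat_lit 0)) (T.h (T.h (M (nat_lit 10074423422740968400486399)) (T.h (P (nat_lit 0)) (T.h (M (nat_lit 56693657735398424575)) (T.h (P (nat_lit 0)) (P (nat_lit 29692863900784)))))) (T.h (P (nat_lit 0)) (T.h (T.h (P (nat_lit 2900983089347952640)) (T.h (P (nat_lit 0)) (P (nat_lit 37577714858544)))) (T.h (P (nat_lit 0)) (M (nat_lit 8507132336751)))))))) (T.h (T.h (P (nat_lit 0)) (T.h (T.h (P (nat_lit 0)) (T.h (M (nat_lit 5544913477966684487679)) (T.h (P (nat_lit 0)) (P (nat_lit 788703454953472))))) (T.h (P (nat_lit 0)) (T.h (T.h (P (nat_lit 0)) (M (nat_lit 51337459934527487))) (P (nat_lit 0)))))) (T.h (T.h (T.h (M (nat_lit 15586726180167793191682047)) (T.h (P (nat_lit 0)) (T.h (P (nat_lit 35663318068957806592))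 (T.h (P (nat_lit 0)) (P (nat_lit 15366368407824)))))) (T.h (P (nat_lit 0)) (T.h (T.h (P (nat_lit 14865489118221041664)) (T.h (P (nat_lit 0)) (P (nat_lit 14277571269584)))) (T.h (P (nat_lit 0)) (M (nat_lit 16452623026111)))))) (T.h (T.h (P (nat_lit 0)) (T.h (T.h (P (nat_lit 0)) (P (nat_lit 107443297016119296))) (P (nat_lit 0)))) (T.h (T.h (T.h (M (nat_lit 25082296066384068607)) (T.h (P (nat_lit 0)) (M (nat_lit 6732252487071)))) (T.h (P (nat_lit 0)) (M (nat_lit 8671366263727)))) (T.h (P (nat_lit 0)) (M (nat_lit 1807611555343)))))))), (T.h (T.h (T.h (P (nat_lit 0)) (T.h (P (nat_lit 3816271784915021482770300928)) (T.h (P (nat_lit 0)) (T.h (P (nat_lit 21431735756132576133120)) (T.h (P (nat_lit 0)) (P (nat_lit 8421033830252544))))))) (T.h (P (nat_lit 0)) (T.h (T.h (P (nat_lit 0)) (T.h (M (nat_lit 11629742680612983013375)) (T.h (P (nat_lit 0)) (M (nat_lit 67844963372367871))))) (T.h (P (nat_lit 0)) (T.h (T.h (P (nat_lit 0)) (M (nat_lit 18534864477880319)))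 (P (nat_lit 0))))))) (T.h (T.h (P (nat_lit 0)) (T.h (T.h (M (nat_lit 11596132456671698380390399)) (T.h (P (nat_lit 0)) (T.h (P (nat_lit 90875215508110573568)) (T.h (P (nat_lit 0)) (M (nat_lit 50297679171887)))))) (T.h (P (nat_lit 0)) (T.h (T.h (P (nat_lit 21823109804238831616)) (T.h (P (nat_lit 0)) (P (nat_lit 6973821289008)))) (T.h (P (nat_lit 0)) (M (nat_lit 20165909466623))))))) (T.h (T.h (T.h (P (nat_lit 0)) (T.h (P (nat_lit 16683404358949558812672)) (T.h (P (nat_lit 0)) (M (nat_lit 39638883541352447))))) (T.h (P (nat_lit 0)) (T.h (T.h (P (nat_lit 0)) (P (nat_lit 21362749947805696))) (P (nat_lit 0))))) (T.h (T.h (P (nat_lit 0)) (T.h (T.h (M (nat_lit 2449777188577214463)) (T.h (P (nat_lit 0)) (M (nat_lit 14872495805135)))) (T.h (P (nat_lit 0)) (P (nat_lit 1434997404528))))) (T.h (T.h (T.h (P (nat_lit 0)) (P (nat_lit 5798650446217216))) (P (nat_lit 0))) (T.h (T.h (P (nat_lit 0)) (P (nat_lit 8183120944368))) (P (nat_lit 0)))))))), (T.h (T.h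 (T.h (P (nat_lit 984195350018325543104137920512)) (T.h (P (nat_lit 0)) (T.h (M (nat_lit 15230894307888454317375487)) (T.h (P (nat_lit 0)) (M (nat_lit 15566893289482223615)))))) (T.h (P (nat_lit 0)) (T.h (T.h (M (nat_lit 15230894307888454317375487)) (T.h (P (nat_lit 0)) (M (nat_lit 10893491707010088959)))) (T.h (P (nat_lit 0)) (M (nat_lit 15566893289482223615)))))) (T.h (T.h (P (nat_lit 0)) (T.h (T.h (P (nat_lit 0)) (T.h (M (nat_lit 5141982376459845500927)) (T.h (P (nat_lit 0)) (P (nat_lit 63912302629388288))))) (T.h (P (nat_lit 0)) (T.h (T.h (P (nat_lit 0)) (P (nat_lit 63912302629388288))) (P (nat_lit 0)))))) (T.h (T.h (T.h (M (nat_lit 353537135146806275997695)) (T.h (P (nat_lit 0)) (P (nat_lit 21389219787958124544)))) (T.h (P (nat_lit 0)) (P (nat_lit 21389219787958124544)))) (T.h (T.h (P (nat_lit 0)) (T.h (T.h (P (nat_lit 0)) (P (nat_lit 20305914272612352))) (P (nat_lit 0)))) (P (nat_lit 4364305523307184128)))))), (P (nat_lit 0)), (T.h (T.h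 (P (nat_lit 0)) (T.h (T.h (M (nat_lit 6708703288543951383055826943)) (T.h (P (nat_lit 0)) (T.h (M (nat_lit 9336552845164421316607)) (T.h (P (nat_lit 0)) (M (nat_lit 10096859823996927)))))) (T.h (P (nat_lit 0)) (T.h (T.h (M (nat_lit 8639614918792361017343)) (T.h (P (nat_lit 0)) (M (nat_lit 17301337354928127)))) (T.h (P (nat_lit 0)) (P (nat_lit 12079869476732928))))))) (T.h (T.h (T.h (P (nat_lit 0)) (T.h (P (nat_lit 2367679197508544791314432)) (T.h (P (nat_lit 0)) (T.h (M (nat_lit 18959063845215141887)) (T.h (P (nat_lit 0)) (P (nat_lit 1709027307648))))))) (T.h (P (nat_lit 0)) (T.h (T.h (P (nat_lit 0)) (T.h (M (nat_lit 16662209236586987519)) (T.h (P (nat_lit 0)) (P (nat_lit 16464759474008))))) (T.h (P (nat_lit 0)) (T.h (T.h (P (nat_lit 0)) (M (nat_lit 14111840783999))) (P (nat_lit 0))))))) (T.h (T.h (P (nat_lit 0)) (T.h (T.h (M (nat_lit 4825756084058852425727)) (T.h (P (nat_lit 0)) (M (nat_lit 22001358117797887)))) (T.h (P (nat_lit 0)) (M (nat_lit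 22339981025869823))))) (T.h (T.h (T.h (P (nat_lit 0)) (T.h (M (nat_lit 17490023526864781311)) (T.h (P (nat_lit 0)) (P (nat_lit 4452436307520))))) (T.h (P (nat_lit 0)) (T.h (T.h (P (nat_lit 0)) (P (nat_lit 1223173417000))) (P (nat_lit 0))))) (T.h (T.h (P (nat_lit 0)) (M (nat_lit 13727318916464639))) (T.h (T.h (T.h (P (nat_lit 0)) (P (nat_lit 1111384698048))) (P (nat_lit 0))) (P (nat_lit 0)))))))), (T.h (T.h (P (nat_lit 0)) (T.h (T.h (P (nat_lit 0)) (T.h (P (nat_lit 11799924226416691745128448)) (T.h (P (nat_lit 0)) (T.h (P (nat_lit 24992502955122884608)) (T.h (P (nat_lit 0)) (P (nat_lit 3040955945440))))))) (T.h (P (nat_lit 0)) (T.h (T.h (P (nat_lit 0)) (T.h (M (nat_lit 13066312361172795391)) (T.h (P (nat_lit 0)) (P (nat_lit 4308734371088))))) (T.h (P (nat_lit 0)) (T.h (T.h (P (nat_lit 0)) (P (nat_lit 11861041236576))) (P (nat_lit 0)))))))) (T.h (T.h (T.h (M (nat_lit 832454746821739008015466495)) (T.h (P (nat_lit 0)) (T.h (M (nat_lit 4047631849667556278271))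 (T.h (P (nat_lit 0)) (M (nat_lit 6980540568846335)))))) (T.h (P (nat_lit 0)) (T.h (T.h (M (nat_lit 32130929532941937672191)) (T.h (P (nat_lit 0)) (P (nat_lit 703405565444096)))) (T.h (P (nat_lit 0)) (P (nat_lit 5910113848442880)))))) (T.h (T.h (P (nat_lit 0)) (T.h (T.h (P (nat_lit 0)) (T.h (P (nat_lit 22920260165497257984)) (T.h (P (nat_lit 0)) (M (nat_lit 4081026789279))))) (T.h (P (nat_lit 0)) (T.h (T.h (P (nat_lit 0)) (P (nat_lit 19135086581520))) (P (nat_lit 0)))))) (T.h (T.h (T.h (P (nat_lit 2581207630647769694208)) (T.h (P (nat_lit 0)) (M (nat_lit 25091771215478783)))) (T.h (P (nat_lit 0)) (P (nat_lit 21537784946409472)))) (T.h (T.h (P (nat_lit 0)) (T.h (T.h (P (nat_lit 0)) (M (nat_lit 6622509720623))) (P (nat_lit 0)))) (P (nat_lit 3821690648035328)))))))]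
def lP12_6 : List (T ℤ) := [(T.h (T.h (P (nat_lit 0)) (T.h (T.h (P (nat_lit 5075728687560414900525203456)) (T.h (P (nat_lit 0)) (T.h (P (nat_lit 30406151196474345521152)) (T.h (P (nat_lit 0)) (P (nat_lit 31295638072459264)))))) (T.h (P (nat_lit 0)) (T.h (T.h (M (nat_lit 4975638722445056147455)) (T.h (P (nat_lit 0)) (M (nat_lit 43971231570493439)))) (T.h (P (nat_lit 0)) (P (nat_lit 15728383238602752))))))) (T.h (T.h (T.h (P (nat_lit 0)) (T.h (M (nat_lit 15188638981517575697989631)) (T.h (P (nat_lit 0)) (T.h (P (nat_lit 12216619188252311552)) (T.h (P (nat_lit 0)) (M (nat_lit 4836003780143))))))) (T.h (P (nat_lit 0)) (T.h (T.h (P (nat_lit 0)) (T.h (P (nat_lit 3965753984890699776)) (T.h (P (nat_lit 0)) (P (nat_lit 253154553840))))) (T.h (P (nat_lit 0)) (T.h (T.h (P (nat_lit 0)) (M (nat_lit 3300786166367))) (P (nat_lit 0))))))) (T.h (T.h (P (nat_lit 0)) (T.h (T.h (P (nat_lit 19474584951922158993408)) (T.h (P (nat_lit 0)) (M (nat_lit 24912020807942143))))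 (T.h (P (nat_lit 0)) (P (nat_lit 4315555809820672))))) (T.h (T.h (T.h (P (nat_lit 0)) (T.h (M (nat_lit 27117710602233970687)) (T.h (P (nat_lit 0)) (P (nat_lit 14947988241648))))) (T.h (P (nat_lit 0)) (T.h (T.h (P (nat_lit 0)) (P (nat_lit 9557671096032))) (P (nat_lit 0))))) (T.h (T.h (P (nat_lit 0)) (M (nat_lit 17724020956954623))) (T.h (T.h (T.h (P (nat_lit 0)) (M (nat_lit 10644566670095))) (P (nat_lit 0))) (P (nat_lit 0)))))))), (T.h (T.h (P (nat_lit 0)) (T.h (T.h (P (nat_lit 0)) (T.h (P (nat_lit 18571853267465370509246464)) (T.h (P (nat_lit 0)) (M (nat_lit 76155881187738386431))))) (T.h (P (nat_lit 0)) (T.h (T.h (P (nat_lit 0)) (M (nat_lit 35935822232235802623))) (P (nat_lit 0)))))) (T.h (T.h (T.h (M (nat_lit 6099708548673304496447684607)) (T.h (P (nat_lit 0)) (T.h (M (nat_lit 914033056629670281215)) (T.h (P (nat_lit 0)) (P (nat_lit 25421720942116864)))))) (T.h (P (nat_lit 0)) (T.h (T.h (P (nat_lit 39385658327280031629312)) (T.h (P (nat_lit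 0)) (M (nat_lit 7400423263076351)))) (T.h (P (nat_lit 0)) (P (nat_lit 35543153834491904)))))) (T.h (T.h (P (nat_lit 0)) (T.h (T.h (P (nat_lit 0)) (P (nat_lit 2818795405779664896))) (P (nat_lit 0)))) (T.h (T.h (T.h (M (nat_lit 17907237936627615531007)) (T.h (P (nat_lit 0)) (M (nat_lit 10230261391294463)))) (T.h (P (nat_lit 0)) (M (nat_lit 4731789076348927)))) (T.h (P (nat_lit 0)) (P (nat_lit 840173474381824))))))), (P (nat_lit 0)), (T.h (T.h (T.h (P (nat_lit 7707325677427308464448959676416)) (T.h (P (nat_lit 0)) (T.h (P (nat_lit 2901120429012419390472192)) (T.h (P (nat_lit 0)) (T.h (P (nat_lit 5890513963451416576)) (T.h (P (nat_lit 0)) (M (nat_lit 1109493383599)))))))) (T.h (P (nat_lit 0)) (T.h (T.h (P (nat_lit 6115846739255371820433408)) (T.h (P (nat_lit 0)) (T.h (P (nat_lit 15647870045474783232)) (T.h (P (nat_lit 0)) (M (nat_lit 4692097755967)))))) (T.h (P (nat_lit 0)) (T.h (T.h (M (nat_lit 6761073294046134271)) (T.h (P (nat_lit 0)) (M (nat_lit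 6986606627727)))) (T.h (P (nat_lit 0)) (P (nat_lit 5745344476032)))))))) (T.h (T.h (P (nat_lit 0)) (T.h (T.h (P (nat_lit 0)) (T.h (P (nat_lit 9365546830999188406272)) (T.h (P (nat_lit 0)) (M (nat_lit 11019108930781183))))) (T.h (P (nat_lit 0)) (T.h (T.h (P (nat_lit 0)) (P (nat_lit 11959213971734528))) (P (nat_lit 0)))))) (T.h (T.h (T.h (P (nat_lit 2901120429012419390472192)) (T.h (P (nat_lit 0)) (T.h (P (nat_lit 12105851740364996608)) (T.h (P (nat_lit 0)) (M (nat_lit 1741740014223)))))) (T.h (P (nat_lit 0)) (T.h (T.h (P (nat_lit 15647870045474783232)) (T.h (P (nat_lit 0)) (M (nat_lit 10354312704511)))) (T.h (P (nat_lit 0)) (M (nat_lit 6986606627727)))))) (T.h (T.h (P (nat_lit 0)) (T.h (T.h (P (nat_lit 0)) (M (nat_lit 11019108930781183))) (P (nat_lit 0)))) (T.h (T.h (T.h (P (nat_lit 5890513963451416576)) (T.h (P (nat_lit 0)) (M (nat_lit 1741740014223)))) (T.h (P (nat_lit 0)) (M (nat_lit 4692097755967)))) (T.h (P (nat_lit 0)) (M (nat_lit 1109493383599)))))))),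 (T.h (T.h (T.h (P (nat_lit 0)) (T.h (P (nat_lit 5365436076063364494613544960)) (T.h (P (nat_lit 0)) (T.h (M (nat_lit 2829647422335983026175)) (T.h (P (nat_lit 0)) (P (nat_lit 8555427069952000))))))) (T.h (P (nat_lit 0)) (T.h (T.h (P (nat_lit 0)) (T.h (P (nat_lit 16692309233254172459008)) (T.h (P (nat_lit 0)) (P (nat_lit 17366088078819328))))) (T.h (P (nat_lit 0)) (T.h (T.h (P (nat_lit 0)) (M (nat_lit 24295617010860031))) (P (nat_lit 0))))))) (T.h (T.h (P (nat_lit 0)) (T.h (T.h (M (nat_lit 13089024482181258328145919)) (T.h (P (nat_lit 0)) (T.h (P (nat_lit 25093469970943180800)) (T.h (P (nat_lit 0)) (M (nat_lit 4085685683903)))))) (T.h (P (nat_lit 0)) (T.h (T.h (M (nat_lit 36766634793414688767)) (T.h (P (nat_lit 0)) (P (nat_lit 13661142254976)))) (T.h (P (nat_lit 0)) (M (nat_lit 1283713304399))))))) (T.h (T.h (T.h (P (nat_lit 0)) (T.h (M (nat_lit 23003241910279304380415)) (T.h (P (nat_lit 0)) (P (nat_lit 6090253865844736))))) (T.h (P (nat_lit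 0)) (T.h (T.h (P (nat_lit 0)) (P (nat_lit 26953724719824896))) (P (nat_lit 0))))) (T.h (T.h (P (nat_lit 0)) (T.h (T.h (M (nat_lit 32647441060556963839)) (T.h (P (nat_lit 0)) (P (nat_lit 3390121286400)))) (T.h (P (nat_lit 0)) (P (nat_lit 2377596206784))))) (T.h (T.h (T.h (P (nat_lit 0)) (M (nat_lit 4868192976011263))) (P (nat_lit 0))) (T.h (T.h (P (nat_lit 0)) (P (nat_lit 4237866999168))) (P (nat_lit 0)))))))), (T.h (T.h (T.h (M (nat_lit 848019981192476839092825358335)) (T.h (P (nat_lit 0)) (T.h (M (nat_lit 6614624667399100999663615)) (T.h (P (nat_lit 0)) (M (nat_lit 30926891337990012927)))))) (T.h (P (nat_lit 0)) (T.h (T.h (P (nat_lit 3438041479358372487626752)) (T.h (P (nat_lit 0)) (M (nat_lit 19910758226580209663)))) (T.h (P (nat_lit 0)) (M (nat_lit 3512947433225060351)))))) (T.h (T.h (P (nat_lit 0)) (T.h (T.h (P (nat_lit 0)) (T.h (P (nat_lit 41729021910207325798400)) (T.h (P (nat_lit 0)) (P (nat_lit 5405502678335488))))) (T.h (P (nat_lit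 0)) (T.h (T.h (P (nat_lit 0)) (M (nat_lit 4819333066915839))) (P (nat_lit 0)))))) (T.h (T.h (T.h (P (nat_lit 10653213847725133906575360)) (T.h (P (nat_lit 0)) (P (nat_lit 3947790254513061888)))) (T.h (P (nat_lit 0)) (M (nat_lit 3300389089831813119)))) (T.h (T.h (P (nat_lit 0)) (T.h (T.h (P (nat_lit 0)) (M (nat_lit 8839026266406911))) (P (nat_lit 0)))) (P (nat_lit 11113978180799561728)))))), (P (nat_lit 0)), (T.h (T.h (P (nat_lit 0)) (T.h (T.h (P (nat_lit 6708703288543951383055826944)) (T.h (P (nat_lit 0)) (T.h (P (nat_lit 7081154464611636871168)) (T.h (P (nat_lit 0)) (P (nat_lit 11912089370230784)))))) (T.h (P (nat_lit 0)) (T.h (T.h (P (nat_lit 8639614918792361017344)) (T.h (P (nat_lit 0)) (P (nat_lit 19820659190398976)))) (T.h (P (nat_lit 0)) (M (nat_lit 12079869476732927))))))) (T.h (T.h (T.h (P (nat_lit 0)) (T.h (M (nat_lit 2367679197508544791314431)) (T.h (P (nat_lit 0)) (T.h (P (nat_lit 18224543686039961600)) (T.h (P (nat_lit 0)) (M (nat_lit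 1410206002847))))))) (T.h (P (nat_lit 0)) (T.h (T.h (P (nat_lit 0)) (T.h (P (nat_lit 16662209236586987520)) (T.h (P (nat_lit 0)) (M (nat_lit 8843966445503))))) (T.h (P (nat_lit 0)) (T.h (T.h (P (nat_lit 0)) (P (nat_lit 14111840784000))) (P (nat_lit 0))))))) (T.h (T.h (P (nat_lit 0)) (T.h (T.h (P (nat_lit 7081154464611636871168)) (T.h (P (nat_lit 0)) (P (nat_lit 22001358117797888)))) (T.h (P (nat_lit 0)) (P (nat_lit 19820659190398976))))) (T.h (T.h (T.h (P (nat_lit 0)) (T.h (P (nat_lit 18224543686039961600)) (T.h (P (nat_lit 0)) (M (nat_lit 4452436307519))))) (T.h (P (nat_lit 0)) (T.h (T.h (P (nat_lit 0)) (M (nat_lit 8843966445503))) (P (nat_lit 0))))) (T.h (T.h (P (nat_lit 0)) (P (nat_lit 11912089370230784))) (T.h (T.h (T.h (P (nat_lit 0)) (M (nat_lit 1410206002847))) (P (nat_lit 0))) (P (nat_lit 0))))))))]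
def lP12_7 : List (T ℤ) := [(T.h (T.h (P (nat_lit 0)) (T.h (T.h (P (nat_lit 0)) (T.h (M (nat_lit 18381355421258832978903039)) (T.h (P (nat_lit 0)) (M (nat_lit 23203781688285986815))))) (T.h (P (nat_lit 0)) (T.h (T.h (P (nat_lit 0)) (P (nat_lit 7114211940729094144))) (P (nat_lit 0)))))) (T.h (T.h (T.h (P (nat_lit 2547540643335990035118817280)) (T.h (P (nat_lit 0)) (T.h (M (nat_lit 19946718446392155570175)) (T.h (P (nat_lit 0)) (P (nat_lit 3801332291633152)))))) (T.h (P (nat_lit 0)) (T.h (T.h (P (nat_lit 34455666698401404157952)) (T.h (P (nat_lit 0)) (M (nat_lit 4932788028899327)))) (T.h (P (nat_lit 0)) (M (nat_lit 2625970948095999)))))) (T.h (T.h (P (nat_lit 0)) (T.h (T.h (P (nat_lit 0)) (M (nat_lit 36613268445365010431))) (P (nat_lit 0)))) (T.h (T.h (T.h (P (nat_lit 392783585823669878784)) (T.h (P (nat_lit 0)) (P (nat_lit 3402133379809280)))) (T.h (P (nat_lit 0)) (P (nat_lit 584082030985216)))) (T.h (P (nat_lit 0)) (M (nat_lit 965174953410559))))))),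 (P (nat_lit 0)), (T.h (T.h (T.h (M (nat_lit 2172631954831739215942938263551)) (T.h (P (nat_lit 0)) (T.h (M (nat_lit 3113098526908072926904319)) (T.h (P (nat_lit 0)) (M (nat_lit 3128846296169840639)))))) (T.h (P (nat_lit 0)) (T.h (T.h (M (nat_lit 7101092557652367280963583)) (T.h (P (nat_lit 0)) (M (nat_lit 11923797260938248191)))) (T.h (P (nat_lit 0)) (P (nat_lit 3403652489910681600)))))) (T.h (T.h (P (nat_lit 0)) (T.h (T.h (P (nat_lit 0)) (T.h (M (nat_lit 6096585033635921395711)) (T.h (P (nat_lit 0)) (P (nat_lit 6037481093464064))))) (T.h (P (nat_lit 0)) (T.h (T.h (P (nat_lit 0)) (M (nat_lit 19267366617087999))) (P (nat_lit 0)))))) (T.h (T.h (T.h (M (nat_lit 3113098526908072926904319)) (T.h (P (nat_lit 0)) (M (nat_lit 5441742847361417215)))) (T.h (P (nat_lit 0)) (M (nat_lit 11923797260938248191)))) (T.h (T.h (P (nat_lit 0)) (T.h (T.h (P (nat_lit 0)) (P (nat_lit 6037481093464064))) (P (nat_lit 0)))) (M (nat_lit 3128846296169840639)))))), (P (nat_lit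 0)), (P (nat_lit 0)), (P (nat_lit 0)), (P (nat_lit 0)), (T.h (T.h (T.h (P (nat_lit 994881952032263961351246839808)) (T.h (P (nat_lit 0)) (T.h (M (nat_lit 777676102773590739386367)) (T.h (P (nat_lit 0)) (T.h (P (nat_lit 4875435867239350272)) (T.h (P (nat_lit 0)) (M (nat_lit 2948822705119)))))))) (T.h (P (nat_lit 0)) (T.h (T.h (M (nat_lit 607013194693503069716479)) (T.h (P (nat_lit 0)) (T.h (P (nat_lit 4200520453522980864)) (T.h (P (nat_lit 0)) (M (nat_lit 5513332824343)))))) (T.h (P (nat_lit 0)) (T.h (T.h (P (nat_lit 119771036014084096)) (T.h (P (nat_lit 0)) (M (nat_lit 4102694556783)))) (T.h (P (nat_lit 0)) (P (nat_lit 420417607296)))))))) (T.h (T.h (P (nat_lit 0)) (T.h (T.h (P (nat_lit 0)) (T.h (M (nat_lit 17831215474247991295)) (T.h (P (nat_lit 0)) (P (nat_lit 275413687271424))))) (T.h (P (nat_lit 0)) (T.h (T.h (P (nat_lit 0)) (M (nat_lit 262101576024063))) (P (nat_lit 0)))))) (T.h (T.h (T.h (M (nat_lit 607013194693503069716479)) (T.h (P (nat_lit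 0)) (T.h (P (nat_lit 4200520453522980864)) (T.h (P (nat_lit 0)) (M (nat_lit 5513332824343)))))) (T.h (P (nat_lit 0)) (T.h (T.h (P (nat_lit 4699115967748243456)) (T.h (P (nat_lit 0)) (M (nat_lit 13003402788639)))) (T.h (P (nat_lit 0)) (M (nat_lit 32407595071)))))) (T.h (T.h (P (nat_lit 0)) (T.h (T.h (P (nat_lit 0)) (M (nat_lit 262101576024063))) (P (nat_lit 0)))) (T.h (T.h (T.h (P (nat_lit 119771036014084096)) (T.h (P (nat_lit 0)) (M (nat_lit 4102694556783)))) (T.h (P (nat_lit 0)) (M (nat_lit 32407595071)))) (T.h (P (nat_lit 0)) (P (nat_lit 420417607296))))))))]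
def lP12_8 : List (T ℤ) := [(P (nat_lit 0)), (P (nat_lit 0)), (P (nat_lit 0)), (P (nat_lit 0)), (P (nat_lit 0)), (T.h (T.h (P (nat_lit 0)) (T.h (T.h (P (nat_lit 382278186225956246805020672)) (T.h (P (nat_lit 0)) (T.h (M (nat_lit 6393028105238678077439)) (T.h (P (nat_lit 0)) (P (nat_lit 10182874572193792)))))) (T.h (P (nat_lit 0)) (T.h (T.h (M (nat_lit 2314989451720488124415)) (T.h (P (nat_lit 0)) (M (nat_lit 20917731012706303)))) (T.h (P (nat_lit 0)) (M (nat_lit 1940894262886399))))))) (T.h (T.h (T.h (P (nat_lit 0)) (T.h (P (nat_lit 8967851728135020949274624)) (T.h (P (nat_lit 0)) (T.h (P (nat_lit 5808715515924840448)) (T.h (P (nat_lit 0)) (M (nat_lit 6298334266991))))))) (T.h (P (nat_lit 0)) (T.h (T.h (P (nat_lit 0)) (T.h (P (nat_lit 21437333873006477312)) (T.h (P (nat_lit 0)) (M (nat_lit 14649144822207))))) (T.h (P (nat_lit 0)) (T.h (T.h (P (nat_lit 0)) (P (nat_lit 9389964963200))) (P (nat_lit 0))))))) (T.h (T.h (P (nat_lit 0)) (T.h (T.h (P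 (nat_lit 4917025952193526628352)) (T.h (P (nat_lit 0)) (P (nat_lit 17704818290655232)))) (T.h (P (nat_lit 0)) (P (nat_lit 13535529003122688))))) (T.h (T.h (T.h (P (nat_lit 0)) (T.h (M (nat_lit 1632295132411723775)) (T.h (P (nat_lit 0)) (M (nat_lit 1954457784095))))) (T.h (P (nat_lit 0)) (T.h (T.h (P (nat_lit 0)) (P (nat_lit 7808644584816))) (P (nat_lit 0))))) (T.h (T.h (P (nat_lit 0)) (P (nat_lit 566836548272128))) (T.h (T.h (T.h (P (nat_lit 0)) (M (nat_lit 1262651453183))) (P (nat_lit 0))) (P (nat_lit 0)))))))), (T.h (T.h (P (nat_lit 0)) (T.h (T.h (P (nat_lit 0)) (T.h (P (nat_lit 24235577508478125571309568)) (T.h (P (nat_lit 0)) (T.h (P (nat_lit 27600791378715475968)) (T.h (P (nat_lit 0)) (M (nat_lit 14087459280783))))))) (T.h (P (nat_lit 0)) (T.h (T.h (P (nat_lit 0)) (T.h (P (nat_lit 27943601856741113856)) (T.h (P (nat_lit 0)) (P (nat_lit 6047000083168))))) (T.h (P (nat_lit 0)) (T.h (T.h (P (nat_lit 0)) (M (nat_lit 13507243101983))) (P (nat_lit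 0)))))))) (T.h (T.h (T.h (M (nat_lit 1660277313292384736815087615)) (T.h (P (nat_lit 0)) (T.h (M (nat_lit 34095887690769872453631)) (T.h (P (nat_lit 0)) (P (nat_lit 23872298796843008)))))) (T.h (P (nat_lit 0)) (T.h (T.h (P (nat_lit 5659438854306925641728)) (T.h (P (nat_lit 0)) (P (nat_lit 5471654666240000)))) (T.h (P (nat_lit 0)) (M (nat_lit 351013966544895)))))) (T.h (T.h (P (nat_lit 0)) (T.h (T.h (P (nat_lit 0)) (T.h (M (nat_lit 49514274264520327167)) (T.h (P (nat_lit 0)) (M (nat_lit 4016420944911))))) (T.h (P (nat_lit 0)) (T.h (T.h (P (nat_lit 0)) (M (nat_lit 30121225887215))) (P (nat_lit 0)))))) (T.h (T.h (T.h (M (nat_lit 2639819057570967977983)) (T.h (P (nat_lit 0)) (M (nat_lit 11337667861151743)))) (T.h (P (nat_lit 0)) (M (nat_lit 22867708401680383)))) (T.h (T.h (P (nat_lit 0)) (T.h (T.h (P (nat_lit 0)) (M (nat_lit 3633512607455))) (P (nat_lit 0)))) (M (nat_lit 4813890442690559))))))), (T.h (T.h (P (nat_lit 0)) (T.h (T.h (M (nat_lit 832454746821739008015466495))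 (T.h (P (nat_lit 0)) (T.h (M (nat_lit 32130929532941937672191)) (T.h (P (nat_lit 0)) (P (nat_lit 5910113848442880)))))) (T.h (P (nat_lit 0)) (T.h (T.h (P (nat_lit 2581207630647769694208)) (T.h (P (nat_lit 0)) (P (nat_lit 21537784946409472)))) (T.h (P (nat_lit 0)) (P (nat_lit 3821690648035328))))))) (T.h (T.h (T.h (P (nat_lit 0)) (T.h (P (nat_lit 11799924226416691745128448)) (T.h (P (nat_lit 0)) (T.h (M (nat_lit 13066312361172795391)) (T.h (P (nat_lit 0)) (P (nat_lit 11861041236576))))))) (T.h (P (nat_lit 0)) (T.h (T.h (P (nat_lit 0)) (T.h (P (nat_lit 22920260165497257984)) (T.h (P (nat_lit 0)) (P (nat_lit 19135086581520))))) (T.h (P (nat_lit 0)) (T.h (T.h (P (nat_lit 0)) (M (nat_lit 6622509720623))) (P (nat_lit 0))))))) (T.h (T.h (P (nat_lit 0)) (T.h (T.h (M (nat_lit 4047631849667556278271)) (T.h (P (nat_lit 0)) (P (nat_lit 703405565444096)))) (T.h (P (nat_lit 0)) (M (nat_lit 25091771215478783))))) (T.h (T.h (T.h (P (nat_lit 0)) (T.h (P (nat_lit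 24992502955122884608)) (T.h (P (nat_lit 0)) (P (nat_lit 4308734371088))))) (T.h (P (nat_lit 0)) (T.h (T.h (P (nat_lit 0)) (M (nat_lit 4081026789279))) (P (nat_lit 0))))) (T.h (T.h (P (nat_lit 0)) (M (nat_lit 6980540568846335))) (T.h (T.h (T.h (P (nat_lit 0)) (P (nat_lit 3040955945440))) (P (nat_lit 0))) (P (nat_lit 0))))))))]
def lP12_9 : List (T ℤ) := [(T.h (T.h (P (nat_lit 0)) (T.h (T.h (P (nat_lit 0)) (T.h (M (nat_lit 13089024482181258328145919)) (T.h (P (nat_lit 0)) (T.h (M (nat_lit 36766634793414688767)) (T.h (P (nat_lit 0)) (M (nat_lit 1283713304399))))))) (T.h (P (nat_lit 0)) (T.h (T.h (P (nat_lit 0)) (T.h (M (nat_lit 32647441060556963839)) (T.h (P (nat_lit 0)) (P (nat_lit 2377596206784))))) (T.h (P (nat_lit 0)) (T.h (T.h (P (nat_lit 0)) (P (nat_lit 4237866999168))) (P (nat_lit 0)))))))) (T.h (T.h (T.h (P (nat_lit 5365436076063364494613544960)) (T.h (P (nat_lit 0)) (T.h (P (nat_lit 16692309233254172459008)) (T.h (P (nat_lit 0)) (M (nat_lit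 24295617010860031)))))) (T.h (P (nat_lit 0)) (T.h (T.h (M (nat_lit 23003241910279304380415)) (T.h (P (nat_lit 0)) (P (nat_lit 26953724719824896)))) (T.h (P (nat_lit 0)) (M (nat_lit 4868192976011263)))))) (T.h (T.h (P (nat_lit 0)) (T.h (T.h (P (nat_lit 0)) (T.h (P (nat_lit 25093469970943180800)) (T.h (P (nat_lit 0)) (P (nat_lit 13661142254976))))) (T.h (P (nat_lit 0)) (T.h (T.h (P (nat_lit 0)) (P (nat_lit 3390121286400))) (P (nat_lit 0)))))) (T.h (T.h (T.h (M (nat_lit 2829647422335983026175)) (T.h (P (nat_lit 0)) (P (nat_lit 17366088078819328)))) (T.h (P (nat_lit 0)) (P (nat_lit 6090253865844736)))) (T.h (T.h (P (nat_lit 0)) (T.h (T.h (P (nat_lit 0)) (M (nat_lit 4085685683903))) (P (nat_lit 0)))) (P (nat_lit 8555427069952000))))))), (T.h (T.h (P (nat_lit 0)) (T.h (T.h (P (nat_lit 2547540643335990035118817280)) (T.h (P (nat_lit 0)) (T.h (P (nat_lit 34455666698401404157952)) (T.h (P (nat_lit 0)) (M (nat_lit 2625970948095999)))))) (T.h (P (nat_lit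 0)) (T.h (T.h (P (nat_lit 392783585823669878784)) (T.h (P (nat_lit 0)) (P (nat_lit 584082030985216)))) (T.h (P (nat_lit 0)) (M (nat_lit 965174953410559))))))) (T.h (T.h (T.h (P (nat_lit 0)) (T.h (M (nat_lit 18381355421258832978903039)) (T.h (P (nat_lit 0)) (P (nat_lit 7114211940729094144))))) (T.h (P (nat_lit 0)) (T.h (T.h (P (nat_lit 0)) (M (nat_lit 36613268445365010431))) (P (nat_lit 0))))) (T.h (T.h (P (nat_lit 0)) (T.h (T.h (M (nat_lit 19946718446392155570175)) (T.h (P (nat_lit 0)) (M (nat_lit 4932788028899327)))) (T.h (P (nat_lit 0)) (P (nat_lit 3402133379809280))))) (T.h (T.h (T.h (P (nat_lit 0)) (M (nat_lit 23203781688285986815))) (P (nat_lit 0))) (T.h (T.h (P (nat_lit 0)) (P (nat_lit 3801332291633152))) (P (nat_lit 0))))))), (P (nat_lit 0)), (P (nat_lit 0)), (T.h (T.h (T.h (P (nat_lit 0)) (T.h (P (nat_lit 292744442000501060956848128)) (T.h (P (nat_lit 0)) (T.h (P (nat_lit 578675089556927152128)) (T.h (P (nat_lit 0)) (M (nat_lit 1348496507797503)))))))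 (T.h (P (nat_lit 0)) (T.h (T.h (P (nat_lit 0)) (T.h (M (nat_lit 71490041528832753663)) (T.h (P (nat_lit 0)) (M (nat_lit 208462894661631))))) (T.h (P (nat_lit 0)) (T.h (T.h (P (nat_lit 0)) (M (nat_lit 7565409483816959))) (P (nat_lit 0))))))) (T.h (T.h (P (nat_lit 0)) (T.h (T.h (M (nat_lit 1783583222540862459215871)) (T.h (P (nat_lit 0)) (T.h (M (nat_lit 9687899242886070271)) (T.h (P (nat_lit 0)) (P (nat_lit 18277536452736)))))) (T.h (P (nat_lit 0)) (T.h (T.h (M (nat_lit 968861825208680447)) (T.h (P (nat_lit 0)) (P (nat_lit 6132761592576)))) (T.h (P (nat_lit 0)) (M (nat_lit 723600243695))))))) (T.h (T.h (T.h (P (nat_lit 0)) (T.h (M (nat_lit 71490041528832753663)) (T.h (P (nat_lit 0)) (M (nat_lit 208462894661631))))) (T.h (P (nat_lit 0)) (T.h (T.h (P (nat_lit 0)) (M (nat_lit 7318168459542527))) (P (nat_lit 0))))) (T.h (T.h (P (nat_lit 0)) (T.h (T.h (M (nat_lit 968861825208680447)) (T.h (P (nat_lit 0)) (P (nat_lit 6132761592576)))) (T.h (P (nat_lit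 0)) (P (nat_lit 1106006924448))))) (T.h (T.h (T.h (P (nat_lit 0)) (M (nat_lit 7565409483816959))) (P (nat_lit 0))) (T.h (T.h (P (nat_lit 0)) (M (nat_lit 723600243695))) (P (nat_lit 0)))))))), (T.h (T.h (T.h (M (nat_lit 669351738722606767605310029823)) (T.h (P (nat_lit 0)) (T.h (M (nat_lit 34194794548435612824764415)) (T.h (P (nat_lit 0)) (T.h (M (nat_lit 7837359294000398335)) (T.h (P (nat_lit 0)) (M (nat_lit 2467304080151)))))))) (T.h (P (nat_lit 0)) (T.h (T.h (P (nat_lit 7112543097064745401843712)) (T.h (P (nat_lit 0)) (T.h (P (nat_lit 12375355395802136576)) (T.h (P (nat_lit 0)) (M (nat_lit 22885974106255)))))) (T.h (P (nat_lit 0)) (T.h (T.h (M (nat_lit 4374113975420321791)) (T.h (P (nat_lit 0)) (P (nat_lit 20157816658216)))) (T.h (P (nat_lit 0)) (P (nat_lit 12542067863280)))))))) (T.h (T.h (P (nat_lit 0)) (T.h (T.h (P (nat_lit 0)) (T.h (M (nat_lit 114828981586606778482687)) (T.h (P (nat_lit 0)) (P (nat_lit 86189314742452224))))) (T.h (P (nat_lit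 0)) (T.h (T.h (P (nat_lit 0)) (M (nat_lit 43363930528841727))) (P (nat_lit 0)))))) (T.h (T.h (T.h (P (nat_lit 1132560037137162348527616)) (T.h (P (nat_lit 0)) (T.h (P (nat_lit 171232147182561787904)) (T.h (P (nat_lit 0)) (P (nat_lit 31747883843256)))))) (T.h (P (nat_lit 0)) (T.h (T.h (M (nat_lit 77546859864927502335)) (T.h (P (nat_lit 0)) (M (nat_lit 29735246592743)))) (T.h (P (nat_lit 0)) (M (nat_lit 10296179727247)))))) (T.h (T.h (P (nat_lit 0)) (T.h (T.h (P (nat_lit 0)) (M (nat_lit 143092487154237439))) (P (nat_lit 0)))) (T.h (T.h (T.h (M (nat_lit 6975108275784122367)) (T.h (P (nat_lit 0)) (P (nat_lit 4706030097928)))) (T.h (P (nat_lit 0)) (P (nat_lit 38919839035552)))) (T.h (P (nat_lit 0)) (M (nat_lit 3446347292831)))))))), (T.h (T.h (T.h (P (nat_lit 0)) (T.h (P (nat_lit 8691406057965620660182974464)) (T.h (P (nat_lit 0)) (T.h (M (nat_lit 15021339571157746057215)) (T.h (P (nat_lit 0)) (P (nat_lit 17136932539727872))))))) (T.h (P (nat_lit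 0)) (T.h (T.h (P (nat_lit 0)) (T.h (M (nat_lit 38064473744062961156095)) (T.h (P (nat_lit 0)) (P (nat_lit 2082412055707648))))) (T.h (P (nat_lit 0)) (T.h (T.h (P (nat_lit 0)) (P (nat_lit 19186521793036288))) (P (nat_lit 0))))))) (T.h (T.h (P (nat_lit 0)) (T.h (T.h (P (nat_lit 39725240604148654384611328)) (T.h (P (nat_lit 0)) (T.h (M (nat_lit 3943748245355757567)) (T.h (P (nat_lit 0)) (M (nat_lit 12132135300319)))))) (T.h (P (nat_lit 0)) (T.h (T.h (P (nat_lit 33915569836709117952)) (T.h (P (nat_lit 0)) (M (nat_lit 7612428796111)))) (T.h (P (nat_lit 0)) (P (nat_lit 4076389384816))))))) (T.h (T.h (T.h (P (nat_lit 0)) (T.h (M (nat_lit 38064473744062961156095)) (T.h (P (nat_lit 0)) (P (nat_lit 2082412055707648))))) (T.h (P (nat_lit 0)) (T.h (T.h (P (nat_lit 0)) (P (nat_lit 3935443694649344))) (P (nat_lit 0))))) (T.h (T.h (P (nat_lit 0)) (T.h (T.h (P (nat_lit 33915569836709117952)) (T.h (P (nat_lit 0)) (M (nat_lit 7612428796111)))) (T.h (P (nat_lit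 0)) (M (nat_lit 675544214015))))) (T.h (T.h (T.h (P (nat_lit 0)) (P (nat_lit 19186521793036288))) (P (nat_lit 0))) (T.h (T.h (P (nat_lit 0)) (P (nat_lit 4076389384816))) (P (nat_lit 0)))))))), (T.h (T.h (T.h (M (nat_lit 1489864615173141456557266960383)) (T.h (P (nat_lit 0)) (T.h (P (nat_lit 44237522183060602493075456)) (T.h (P (nat_lit 0)) (T.h (M (nat_lit 8197879782847807487)) (T.h (P (nat_lit 0)) (P (nat_lit 13524330333600)))))))) (T.h (P (nat_lit 0)) (T.h (T.h (P (nat_lit 3190336379661984334872576)) (T.h (P (nat_lit 0)) (T.h (M (nat_lit 115193404408423514111)) (T.h (P (nat_lit 0)) (P (nat_lit 18792837007584)))))) (T.h (P (nat_lit 0)) (T.h (T.h (P (nat_lit 6454538503194673152)) (T.h (P (nat_lit 0)) (P (nat_lit 3472411185984)))) (T.h (P (nat_lit 0)) (M (nat_lit 5550730409807)))))))) (T.h (T.h (P (nat_lit 0)) (T.h (T.h (P (nat_lit 0)) (T.h (P (nat_lit 117203895853605197971456)) (T.h (P (nat_lit 0)) (M (nat_lit 78799039213862911))))) (T.h (P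 (nat_lit 0)) (T.h (T.h (P (nat_lit 0)) (P (nat_lit 120510918138789888))) (P (nat_lit 0)))))) (T.h (T.h (T.h (P (nat_lit 3190336379661984334872576)) (T.h (P (nat_lit 0)) (T.h (M (nat_lit 115193404408423514111)) (T.h (P (nat_lit 0)) (P (nat_lit 18792837007584)))))) (T.h (P (nat_lit 0)) (T.h (T.h (P (nat_lit 107513538014303223808)) (T.h (P (nat_lit 0)) (P (nat_lit 64523868455424)))) (T.h (P (nat_lit 0)) (M (nat_lit 12406552033967)))))) (T.h (T.h (P (nat_lit 0)) (T.h (T.h (P (nat_lit 0)) (P (nat_lit 120510918138789888))) (P (nat_lit 0)))) (T.h (T.h (T.h (P (nat_lit 6454538503194673152)) (T.h (P (nat_lit 0)) (P (nat_lit 3472411185984)))) (T.h (P (nat_lit 0)) (M (nat_lit 12406552033967)))) (T.h (P (nat_lit 0)) (M (nat_lit 5550730409807))))))))]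
def lP12_10 : List (T ℤ) := [(T.h (T.h (T.h (P (nat_lit 0)) (T.h (M (nat_lit 14143915709784305992583872511)) (T.h (P (nat_lit 0)) (T.h (M (nat_lit 5554121537654855041023)) (T.h (P (nat_lit 0)) (M (nat_lit 26821480240742399))))))) (T.h (P (nat_lit 0)) (T.h (T.h (P (nat_lit 0)) (T.h (P (nat_lit 71315698274066231197696)) (T.h (P (nat_lit 0)) (M (nat_lit 32756148533133311))))) (T.h (P (nat_lit 0)) (T.h (T.h (P (nat_lit 0)) (M (nat_lit 8208545001439231))) (P (nat_lit 0))))))) (T.h (T.h (P (nat_lit 0)) (T.h (T.h (P (nat_lit 1786891951884896965754880)) (T.h (P (nat_lit 0)) (P (nat_lit 20838505919270617088)))) (T.h (P (nat_lit 0)) (M (nat_lit 27420855437877051391))))) (T.h (T.h (T.h (P (nat_lit 0)) (T.h (P (nat_lit 71315698274066231197696)) (T.h (P (nat_lit 0)) (M (nat_lit 32756148533133311))))) (T.h (P (nat_lit 0)) (T.h (T.h (P (nat_lit 0)) (M (nat_lit 50991262593449983))) (P (nat_lit 0))))) (T.h (T.h (P (nat_lit 0)) (M (nat_lit 27420855437877051391)))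 (T.h (T.h (T.h (P (nat_lit 0)) (M (nat_lit 8208545001439231))) (P (nat_lit 0))) (P (nat_lit 0))))))), (P (nat_lit 0)), (P (nat_lit 0)), (T.h (T.h (P (nat_lit 0)) (T.h (T.h (P (nat_lit 292744442000501060956848128)) (T.h (P (nat_lit 0)) (T.h (M (nat_lit 71490041528832753663)) (T.h (P (nat_lit 0)) (M (nat_lit 7565409483816959)))))) (T.h (P (nat_lit 0)) (T.h (T.h (P (nat_lit 578675089556927152128)) (T.h (P (nat_lit 0)) (M (nat_lit 208462894661631)))) (T.h (P (nat_lit 0)) (M (nat_lit 1348496507797503))))))) (T.h (T.h (T.h (P (nat_lit 0)) (T.h (M (nat_lit 1783583222540862459215871)) (T.h (P (nat_lit 0)) (T.h (M (nat_lit 968861825208680447)) (T.h (P (nat_lit 0)) (M (nat_lit 723600243695))))))) (T.h (P (nat_lit 0)) (T.h (T.h (P (nat_lit 0)) (T.h (M (nat_lit 9687899242886070271)) (T.h (P (nat_lit 0)) (P (nat_lit 6132761592576))))) (T.h (P (nat_lit 0)) (T.h (T.h (P (nat_lit 0)) (P (nat_lit 18277536452736))) (P (nat_lit 0))))))) (T.h (T.h (P (nat_lit 0))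 (T.h (T.h (M (nat_lit 71490041528832753663)) (T.h (P (nat_lit 0)) (M (nat_lit 7318168459542527)))) (T.h (P (nat_lit 0)) (M (nat_lit 208462894661631))))) (T.h (T.h (T.h (P (nat_lit 0)) (T.h (M (nat_lit 968861825208680447)) (T.h (P (nat_lit 0)) (P (nat_lit 1106006924448))))) (T.h (P (nat_lit 0)) (T.h (T.h (P (nat_lit 0)) (P (nat_lit 6132761592576))) (P (nat_lit 0))))) (T.h (T.h (P (nat_lit 0)) (M (nat_lit 7565409483816959))) (T.h (T.h (T.h (P (nat_lit 0)) (M (nat_lit 723600243695))) (P (nat_lit 0))) (P (nat_lit 0)))))))), (T.h (T.h (P (nat_lit 0)) (T.h (T.h (P (nat_lit 0)) (T.h (M (nat_lit 29588896002306567315652607)) (T.h (P (nat_lit 0)) (T.h (M (nat_lit 78479845153734393855)) (T.h (P (nat_lit 0)) (M (nat_lit 49512215464223))))))) (T.h (P (nat_lit 0)) (T.h (T.h (P (nat_lit 0)) (T.h (M (nat_lit 78479845153734393855)) (T.h (P (nat_lit 0)) (P (nat_lit 56916490450304))))) (T.h (P (nat_lit 0)) (T.h (T.h (P (nat_lit 0)) (M (nat_lit 49512215464223)))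 (P (nat_lit 0)))))))) (T.h (T.h (T.h (P (nat_lit 25439072121365587605594308608)) (T.h (P (nat_lit 0)) (T.h (P (nat_lit 38760260724752809721856)) (T.h (P (nat_lit 0)) (M (nat_lit 34909581604192255)))))) (T.h (P (nat_lit 0)) (T.h (T.h (P (nat_lit 38760260724752809721856)) (T.h (P (nat_lit 0)) (P (nat_lit 101597129374236672)))) (T.h (P (nat_lit 0)) (M (nat_lit 34909581604192255)))))) (T.h (T.h (P (nat_lit 0)) (T.h (T.h (P (nat_lit 0)) (T.h (P (nat_lit 603140925707637489664)) (T.h (P (nat_lit 0)) (P (nat_lit 8070518695376))))) (T.h (P (nat_lit 0)) (T.h (T.h (P (nat_lit 0)) (P (nat_lit 8070518695376))) (P (nat_lit 0)))))) (T.h (T.h (T.h (P (nat_lit 32835649226746181451776)) (T.h (P (nat_lit 0)) (M (nat_lit 122307885459210239)))) (T.h (P (nat_lit 0)) (M (nat_lit 122307885459210239)))) (T.h (T.h (P (nat_lit 0)) (T.h (T.h (P (nat_lit 0)) (P (nat_lit 13619761588416))) (P (nat_lit 0)))) (P (nat_lit 27052447050694656))))))), (T.h (T.h (P (nat_lit 0)) (T.h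 (T.h (M (nat_lit 16519899788560389826718728191)) (T.h (P (nat_lit 0)) (T.h (M (nat_lit 20726215518357509111807)) (T.h (P (nat_lit 0)) (P (nat_lit 53376662237773824)))))) (T.h (P (nat_lit 0)) (T.h (T.h (M (nat_lit 38815681408239742746623)) (T.h (P (nat_lit 0)) (P (nat_lit 24872236208455680)))) (T.h (P (nat_lit 0)) (M (nat_lit 14922245059133439))))))) (T.h (T.h (T.h (P (nat_lit 0)) (T.h (P (nat_lit 6361063573136040009924608)) (T.h (P (nat_lit 0)) (T.h (P (nat_lit 32547474825401073664)) (T.h (P (nat_lit 0)) (M (nat_lit 1102750372303))))))) (T.h (P (nat_lit 0)) (T.h (T.h (P (nat_lit 0)) (T.h (P (nat_lit 36912781505249411072)) (T.h (P (nat_lit 0)) (M (nat_lit 18575295500271))))) (T.h (P (nat_lit 0)) (T.h (T.h (P (nat_lit 0)) (M (nat_lit 94064231272143))) (P (nat_lit 0))))))) (T.h (T.h (P (nat_lit 0)) (T.h (T.h (M (nat_lit 48331781321057967800319)) (T.h (P (nat_lit 0)) (P (nat_lit 67211279446638592)))) (T.h (P (nat_lit 0)) (M (nat_lit 14595071553503231)))))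 (T.h (T.h (T.h (P (nat_lit 0)) (T.h (M (nat_lit 3114357112931614719)) (T.h (P (nat_lit 0)) (M (nat_lit 12260400160623))))) (T.h (P (nat_lit 0)) (T.h (T.h (P (nat_lit 0)) (M (nat_lit 27622295623215))) (P (nat_lit 0))))) (T.h (T.h (P (nat_lit 0)) (P (nat_lit 22614995997048832))) (T.h (T.h (T.h (P (nat_lit 0)) (M (nat_lit 10914695388015))) (P (nat_lit 0))) (P (nat_lit 0)))))))), (T.h (T.h (P (nat_lit 0)) (T.h (T.h (P (nat_lit 0)) (T.h (P (nat_lit 38096627589110099462848512)) (T.h (P (nat_lit 0)) (T.h (P (nat_lit 106594337060644978688)) (T.h (P (nat_lit 0)) (P (nat_lit 56011950313632))))))) (T.h (P (nat_lit 0)) (T.h (T.h (P (nat_lit 0)) (T.h (M (nat_lit 108181840819061260287)) (T.h (P (nat_lit 0)) (M (nat_lit 28889076865151))))) (T.h (P (nat_lit 0)) (T.h (T.h (P (nat_lit 0)) (P (nat_lit 27163896312912))) (P (nat_lit 0)))))))) (T.h (T.h (T.h (M (nat_lit 25920019054726368708448485375)) (T.h (P (nat_lit 0)) (T.h (M (nat_lit 11270670670228105461759))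 (T.h (P (nat_lit 0)) (M (nat_lit 58695919728099327)))))) (T.h (P (nat_lit 0)) (T.h (T.h (M (nat_lit 27787483063106125430783)) (T.h (P (nat_lit 0)) (M (nat_lit 29192182078373887)))) (T.h (P (nat_lit 0)) (P (nat_lit 67809720250138624)))))) (T.h (T.h (P (nat_lit 0)) (T.h (T.h (P (nat_lit 0)) (T.h (M (nat_lit 285020327601149837311)) (T.h (P (nat_lit 0)) (M (nat_lit 5451005508863))))) (T.h (P (nat_lit 0)) (T.h (T.h (P (nat_lit 0)) (P (nat_lit 15157720755216))) (P (nat_lit 0)))))) (T.h (T.h (T.h (M (nat_lit 32169525483728206299135)) (T.h (P (nat_lit 0)) (P (nat_lit 46994885653495808)))) (T.h (P (nat_lit 0)) (P (nat_lit 57081713356472320)))) (T.h (T.h (P (nat_lit 0)) (T.h (T.h (P (nat_lit 0)) (P (nat_lit 3622862751840))) (P (nat_lit 0)))) (M (nat_lit 18888208648962047))))))), (T.h (T.h (P (nat_lit 0)) (T.h (T.h (P (nat_lit 3133521640352018543595749376)) (T.h (P (nat_lit 0)) (T.h (M (nat_lit 3848273589639705526271)) (T.h (P (nat_lit 0)) (M (nat_lit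 107296303587655679)))))) (T.h (P (nat_lit 0)) (T.h (T.h (P (nat_lit 6131544820029419683840)) (T.h (P (nat_lit 0)) (P (nat_lit 24755005882941440)))) (T.h (P (nat_lit 0)) (P (nat_lit 3746641894768640))))))) (T.h (T.h (T.h (P (nat_lit 0)) (T.h (M (nat_lit 34949159902444343565221887)) (T.h (P (nat_lit 0)) (P (nat_lit 130808218232064835584))))) (T.h (P (nat_lit 0)) (T.h (T.h (P (nat_lit 0)) (M (nat_lit 64795198108966322175))) (P (nat_lit 0))))) (T.h (T.h (P (nat_lit 0)) (T.h (T.h (P (nat_lit 10530773426254924218368)) (T.h (P (nat_lit 0)) (M (nat_lit 48253519760162815)))) (T.h (P (nat_lit 0)) (M (nat_lit 3541496266850303))))) (T.h (T.h (T.h (P (nat_lit 0)) (M (nat_lit 18668642047161794559))) (P (nat_lit 0))) (T.h (T.h (P (nat_lit 0)) (P (nat_lit 25399662819524608))) (P (nat_lit 0)))))))]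
def lP12_11 : List (T ℤ) := [(P (nat_lit 0)), (T.h (T.h (T.h (P (nat_lit 0)) (T.h (P (nat_lit 382278186225956246805020672)) (T.h (P (nat_lit 0)) (T.h (M (nat_lit 2314989451720488124415)) (T.h (P (nat_lit 0)) (M (nat_lit 1940894262886399))))))) (T.h (P (nat_lit 0)) (T.h (T.h (P (nat_lit 0)) (T.h (M (nat_lit 6393028105238678077439)) (T.h (P (nat_lit 0)) (M (nat_lit 20917731012706303))))) (T.h (P (nat_lit 0)) (T.h (T.h (P (nat_lit 0)) (P (nat_lit 10182874572193792))) (P (nat_lit 0))))))) (T.h (T.h (P (nat_lit 0)) (T.h (T.h (P (nat_lit 8967851728135020949274624)) (T.h (P (nat_lit 0)) (T.h (P (nat_lit 21437333873006477312)) (T.h (P (nat_lit 0)) (P (nat_lit 9389964963200)))))) (T.h (P (nat_lit 0)) (T.h (T.h (P (nat_lit 5808715515924840448)) (T.h (P (nat_lit 0)) (M (nat_lit 14649144822207)))) (T.h (P (nat_lit 0)) (M (nat_lit 6298334266991))))))) (T.h (T.h (T.h (P (nat_lit 0)) (T.h (P (nat_lit 4917025952193526628352)) (T.h (P (nat_lit 0)) (P (nat_lit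 13535529003122688))))) (T.h (P (nat_lit 0)) (T.h (T.h (P (nat_lit 0)) (P (nat_lit 17704818290655232))) (P (nat_lit 0))))) (T.h (T.h (P (nat_lit 0)) (T.h (T.h (M (nat_lit 1632295132411723775)) (T.h (P (nat_lit 0)) (P (nat_lit 7808644584816)))) (T.h (P (nat_lit 0)) (M (nat_lit 1954457784095))))) (T.h (T.h (T.h (P (nat_lit 0)) (P (nat_lit 566836548272128))) (P (nat_lit 0))) (T.h (T.h (P (nat_lit 0)) (M (nat_lit 1262651453183))) (P (nat_lit 0)))))))), (T.h (T.h (T.h (M (nat_lit 669351738722606767605310029823)) (T.h (P (nat_lit 0)) (T.h (P (nat_lit 7112543097064745401843712)) (T.h (P (nat_lit 0)) (T.h (M (nat_lit 4374113975420321791)) (T.h (P (nat_lit 0)) (P (nat_lit 12542067863280)))))))) (T.h (P (nat_lit 0)) (T.h (T.h (M (nat_lit 34194794548435612824764415)) (T.h (P (nat_lit 0)) (T.h (P (nat_lit 12375355395802136576)) (T.h (P (nat_lit 0)) (P (nat_lit 20157816658216)))))) (T.h (P (nat_lit 0)) (T.h (T.h (M (nat_lit 7837359294000398335)) (T.h (P (nat_lit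 0)) (M (nat_lit 22885974106255)))) (T.h (P (nat_lit 0)) (M (nat_lit 2467304080151)))))))) (T.h (T.h (P (nat_lit 0)) (T.h (T.h (P (nat_lit 0)) (T.h (M (nat_lit 114828981586606778482687)) (T.h (P (nat_lit 0)) (M (nat_lit 43363930528841727))))) (T.h (P (nat_lit 0)) (T.h (T.h (P (nat_lit 0)) (P (nat_lit 86189314742452224))) (P (nat_lit 0)))))) (T.h (T.h (T.h (P (nat_lit 1132560037137162348527616)) (T.h (P (nat_lit 0)) (T.h (M (nat_lit 77546859864927502335)) (T.h (P (nat_lit 0)) (M (nat_lit 10296179727247)))))) (T.h (P (nat_lit 0)) (T.h (T.h (P (nat_lit 171232147182561787904)) (T.h (P (nat_lit 0)) (M (nat_lit 29735246592743)))) (T.h (P (nat_lit 0)) (P (nat_lit 31747883843256)))))) (T.h (T.h (P (nat_lit 0)) (T.h (T.h (P (nat_lit 0)) (M (nat_lit 143092487154237439))) (P (nat_lit 0)))) (T.h (T.h (T.h (M (nat_lit 6975108275784122367)) (T.h (P (nat_lit 0)) (P (nat_lit 38919839035552)))) (T.h (P (nat_lit 0)) (P (nat_lit 4706030097928)))) (T.h (P (nat_lit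 0)) (M (nat_lit 3446347292831)))))))), (T.h (T.h (T.h (P (nat_lit 0)) (T.h (M (nat_lit 16519899788560389826718728191)) (T.h (P (nat_lit 0)) (T.h (M (nat_lit 38815681408239742746623)) (T.h (P (nat_lit 0)) (M (nat_lit 14922245059133439))))))) (T.h (P (nat_lit 0)) (T.h (T.h (P (nat_lit 0)) (T.h (M (nat_lit 20726215518357509111807)) (T.h (P (nat_lit 0)) (P (nat_lit 24872236208455680))))) (T.h (P (nat_lit 0)) (T.h (T.h (P (nat_lit 0)) (P (nat_lit 53376662237773824))) (P (nat_lit 0))))))) (T.h (T.h (P (nat_lit 0)) (T.h (T.h (P (nat_lit 6361063573136040009924608)) (T.h (P (nat_lit 0)) (T.h (P (nat_lit 36912781505249411072)) (T.h (P (nat_lit 0)) (M (nat_lit 94064231272143)))))) (T.h (P (nat_lit 0)) (T.h (T.h (P (nat_lit 32547474825401073664)) (T.h (P (nat_lit 0)) (M (nat_lit 18575295500271)))) (T.h (P (nat_lit 0)) (M (nat_lit 1102750372303))))))) (T.h (T.h (T.h (P (nat_lit 0)) (T.h (M (nat_lit 48331781321057967800319)) (T.h (P (nat_lit 0)) (M (nat_lit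 14595071553503231))))) (T.h (P (nat_lit 0)) (T.h (T.h (P (nat_lit 0)) (P (nat_lit 67211279446638592))) (P (nat_lit 0))))) (T.h (T.h (P (nat_lit 0)) (T.h (T.h (M (nat_lit 3114357112931614719)) (T.h (P (nat_lit 0)) (M (nat_lit 27622295623215)))) (T.h (P (nat_lit 0)) (M (nat_lit 12260400160623))))) (T.h (T.h (T.h (P (nat_lit 0)) (P (nat_lit 22614995997048832))) (P (nat_lit 0))) (T.h (T.h (P (nat_lit 0)) (M (nat_lit 10914695388015))) (P (nat_lit 0)))))))), (T.h (T.h (T.h (P (nat_lit 3336858308950095421271779049472)) (T.h (P (nat_lit 0)) (T.h (M (nat_lit 5043467229830250282090495)) (T.h (P (nat_lit 0)) (T.h (P (nat_lit 11853962430587600896)) (T.h (P (nat_lit 0)) (M (nat_lit 4461241746719)))))))) (T.h (P (nat_lit 0)) (T.h (T.h (M (nat_lit 5043467229830250282090495)) (T.h (P (nat_lit 0)) (T.h (P (nat_lit 55845177334473687040)) (T.h (P (nat_lit 0)) (P (nat_lit 13242663900912)))))) (T.h (P (nat_lit 0)) (T.h (T.h (P (nat_lit 11853962430587600896)) (T.h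 (P (nat_lit 0)) (P (nat_lit 13242663900912)))) (T.h (P (nat_lit 0)) (M (nat_lit 4461241746719)))))))) (T.h (T.h (P (nat_lit 0)) (T.h (T.h (P (nat_lit 0)) (T.h (M (nat_lit 161835331611143606108159)) (T.h (P (nat_lit 0)) (P (nat_lit 77702433258799104))))) (T.h (P (nat_lit 0)) (T.h (T.h (P (nat_lit 0)) (P (nat_lit 77702433258799104))) (P (nat_lit 0)))))) (T.h (T.h (T.h (P (nat_lit 6077443599476861853237248)) (T.h (P (nat_lit 0)) (T.h (M (nat_lit 63461707544942084095)) (T.h (P (nat_lit 0)) (M (nat_lit 7293763681775)))))) (T.h (P (nat_lit 0)) (T.h (T.h (M (nat_lit 63461707544942084095)) (T.h (P (nat_lit 0)) (P (nat_lit 39429664002528)))) (T.h (P (nat_lit 0)) (M (nat_lit 7293763681775)))))) (T.h (T.h (P (nat_lit 0)) (T.h (T.h (P (nat_lit 0)) (P (nat_lit 135200626355732480))) (P (nat_lit 0)))) (T.h (T.h (T.h (P (nat_lit 14906957054039031808)) (T.h (P (nat_lit 0)) (P (nat_lit 2739632443776)))) (T.h (P (nat_lit 0)) (P (nat_lit 2739632443776)))) (T.h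 (P (nat_lit 0)) (P (nat_lit 14587027637568)))))))), (T.h (T.h (T.h (P (nat_lit 0)) (T.h (P (nat_lit 21382294463452524082142117888)) (T.h (P (nat_lit 0)) (T.h (M (nat_lit 8429021893482116022271)) (T.h (P (nat_lit 0)) (M (nat_lit 3098825511829503))))))) (T.h (P (nat_lit 0)) (T.h (T.h (P (nat_lit 0)) (T.h (M (nat_lit 5119974003336856731647)) (T.h (P (nat_lit 0)) (P (nat_lit 9121366597222400))))) (T.h (P (nat_lit 0)) (T.h (T.h (P (nat_lit 0)) (M (nat_lit 38231767106387967))) (P (nat_lit 0))))))) (T.h (T.h (P (nat_lit 0)) (T.h (T.h (P (nat_lit 11364634751436504396988416)) (T.h (P (nat_lit 0)) (P (nat_lit 72630611916194054144)))) (T.h (P (nat_lit 0)) (M (nat_lit 39642309639526154239))))) (T.h (T.h (T.h (P (nat_lit 0)) (T.h (P (nat_lit 55308368152604113371136)) (T.h (P (nat_lit 0)) (P (nat_lit 10349591218307072))))) (T.h (P (nat_lit 0)) (T.h (T.h (P (nat_lit 0)) (M (nat_lit 27209387641274367))) (P (nat_lit 0))))) (T.h (T.h (P (nat_lit 0)) (M (nat_lit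 42786273065835692031))) (T.h (T.h (T.h (P (nat_lit 0)) (M (nat_lit 17072719312633855))) (P (nat_lit 0))) (P (nat_lit 0))))))), (P (nat_lit 0)), (T.h (T.h (P (nat_lit 0)) (T.h (T.h (P (nat_lit 0)) (T.h (P (nat_lit 24235577508478125571309568)) (T.h (P (nat_lit 0)) (T.h (P (nat_lit 27943601856741113856)) (T.h (P (nat_lit 0)) (M (nat_lit 13507243101983))))))) (T.h (P (nat_lit 0)) (T.h (T.h (P (nat_lit 0)) (T.h (P (nat_lit 27600791378715475968)) (T.h (P (nat_lit 0)) (P (nat_lit 6047000083168))))) (T.h (P (nat_lit 0)) (T.h (T.h (P (nat_lit 0)) (M (nat_lit 14087459280783))) (P (nat_lit 0)))))))) (T.h (T.h (T.h (M (nat_lit 1660277313292384736815087615)) (T.h (P (nat_lit 0)) (T.h (P (nat_lit 5659438854306925641728)) (T.h (P (nat_lit 0)) (M (nat_lit 351013966544895)))))) (T.h (P (nat_lit 0)) (T.h (T.h (M (nat_lit 34095887690769872453631)) (T.h (P (nat_lit 0)) (P (nat_lit 5471654666240000)))) (T.h (P (nat_lit 0)) (P (nat_lit 23872298796843008)))))) (T.h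 (T.h (P (nat_lit 0)) (T.h (T.h (P (nat_lit 0)) (T.h (M (nat_lit 49514274264520327167)) (T.h (P (nat_lit 0)) (M (nat_lit 30121225887215))))) (T.h (P (nat_lit 0)) (T.h (T.h (P (nat_lit 0)) (M (nat_lit 4016420944911))) (P (nat_lit 0)))))) (T.h (T.h (T.h (M (nat_lit 2639819057570967977983)) (T.h (P (nat_lit 0)) (M (nat_lit 22867708401680383)))) (T.h (P (nat_lit 0)) (M (nat_lit 11337667861151743)))) (T.h (T.h (P (nat_lit 0)) (T.h (T.h (P (nat_lit 0)) (M (nat_lit 3633512607455))) (P (nat_lit 0)))) (M (nat_lit 4813890442690559)))))))]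
def lP12_12 : List (T ℤ) := [(T.h (T.h (P (nat_lit 0)) (T.h (T.h (P (nat_lit 8691406057965620660182974464)) (T.h (P (nat_lit 0)) (T.h (M (nat_lit 38064473744062961156095)) (T.h (P (nat_lit 0)) (P (nat_lit 19186521793036288)))))) (T.h (P (nat_lit 0)) (T.h (T.h (M (nat_lit 15021339571157746057215)) (T.h (P (nat_lit 0)) (P (nat_lit 2082412055707648)))) (T.h (P (nat_lit 0)) (P (nat_lit 17136932539727872))))))) (T.h (T.h (T.h (P (nat_lit 0)) (T.h (P (nat_lit 39725240604148654384611328)) (T.h (P (nat_lit 0)) (T.h (P (nat_lit 33915569836709117952)) (T.h (P (nat_lit 0)) (P (nat_lit 4076389384816))))))) (T.h (P (nat_lit 0)) (T.h (T.h (P (nat_lit 0)) (T.h (M (nat_lit 3943748245355757567)) (T.h (P (nat_lit 0)) (M (nat_lit 7612428796111))))) (T.h (P (nat_lit 0)) (T.h (T.h (P (nat_lit 0)) (M (nat_lit 12132135300319))) (P (nat_lit 0))))))) (T.h (T.h (P (nat_lit 0)) (T.h (T.h (M (nat_lit 38064473744062961156095)) (T.h (P (nat_lit 0)) (P (nat_lit 3935443694649344))))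 (T.h (P (nat_lit 0)) (P (nat_lit 2082412055707648))))) (T.h (T.h (T.h (P (nat_lit 0)) (T.h (P (nat_lit 33915569836709117952)) (T.h (P (nat_lit 0)) (M (nat_lit 675544214015))))) (T.h (P (nat_lit 0)) (T.h (T.h (P (nat_lit 0)) (M (nat_lit 7612428796111))) (P (nat_lit 0))))) (T.h (T.h (P (nat_lit 0)) (P (nat_lit 19186521793036288))) (T.h (T.h (T.h (P (nat_lit 0)) (P (nat_lit 4076389384816))) (P (nat_lit 0))) (P (nat_lit 0)))))))), (T.h (T.h (P (nat_lit 0)) (T.h (T.h (P (nat_lit 0)) (T.h (P (nat_lit 38096627589110099462848512)) (T.h (P (nat_lit 0)) (T.h (M (nat_lit 108181840819061260287)) (T.h (P (nat_lit 0)) (P (nat_lit 27163896312912))))))) (T.h (P (nat_lit 0)) (T.h (T.h (P (nat_lit 0)) (T.h (P (nat_lit 106594337060644978688)) (T.h (P (nat_lit 0)) (M (nat_lit 28889076865151))))) (T.h (P (nat_lit 0)) (T.h (T.h (P (nat_lit 0)) (P (nat_lit 56011950313632))) (P (nat_lit 0)))))))) (T.h (T.h (T.h (M (nat_lit 25920019054726368708448485375)) (T.h (P (nat_lit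 0)) (T.h (M (nat_lit 27787483063106125430783)) (T.h (P (nat_lit 0)) (P (nat_lit 67809720250138624)))))) (T.h (P (nat_lit 0)) (T.h (T.h (M (nat_lit 11270670670228105461759)) (T.h (P (nat_lit 0)) (M (nat_lit 29192182078373887)))) (T.h (P (nat_lit 0)) (M (nat_lit 58695919728099327)))))) (T.h (T.h (P (nat_lit 0)) (T.h (T.h (P (nat_lit 0)) (T.h (M (nat_lit 285020327601149837311)) (T.h (P (nat_lit 0)) (P (nat_lit 15157720755216))))) (T.h (P (nat_lit 0)) (T.h (T.h (P (nat_lit 0)) (M (nat_lit 5451005508863))) (P (nat_lit 0)))))) (T.h (T.h (T.h (M (nat_lit 32169525483728206299135)) (T.h (P (nat_lit 0)) (P (nat_lit 57081713356472320)))) (T.h (P (nat_lit 0)) (P (nat_lit 46994885653495808)))) (T.h (T.h (P (nat_lit 0)) (T.h (T.h (P (nat_lit 0)) (P (nat_lit 3622862751840))) (P (nat_lit 0)))) (M (nat_lit 18888208648962047))))))), (T.h (T.h (P (nat_lit 0)) (T.h (T.h (P (nat_lit 21382294463452524082142117888)) (T.h (P (nat_lit 0)) (T.h (M (nat_lit 5119974003336856731647))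 (T.h (P (nat_lit 0)) (M (nat_lit 38231767106387967)))))) (T.h (P (nat_lit 0)) (T.h (T.h (M (nat_lit 8429021893482116022271)) (T.h (P (nat_lit 0)) (P (nat_lit 9121366597222400)))) (T.h (P (nat_lit 0)) (M (nat_lit 3098825511829503))))))) (T.h (T.h (T.h (P (nat_lit 0)) (T.h (P (nat_lit 11364634751436504396988416)) (T.h (P (nat_lit 0)) (M (nat_lit 39642309639526154239))))) (T.h (P (nat_lit 0)) (T.h (T.h (P (nat_lit 0)) (P (nat_lit 72630611916194054144))) (P (nat_lit 0))))) (T.h (T.h (P (nat_lit 0)) (T.h (T.h (P (nat_lit 55308368152604113371136)) (T.h (P (nat_lit 0)) (M (nat_lit 27209387641274367)))) (T.h (P (nat_lit 0)) (P (nat_lit 10349591218307072))))) (T.h (T.h (T.h (P (nat_lit 0)) (M (nat_lit 42786273065835692031))) (P (nat_lit 0))) (T.h (T.h (P (nat_lit 0)) (M (nat_lit 17072719312633855))) (P (nat_lit 0))))))), (T.h (T.h (T.h (P (nat_lit 994881952032263961351246839808)) (T.h (P (nat_lit 0)) (T.h (M (nat_lit 607013194693503069716479)) (T.h (P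 (nat_lit 0)) (T.h (P (nat_lit 119771036014084096)) (T.h (P (nat_lit 0)) (P (nat_lit 420417607296)))))))) (T.h (P (nat_lit 0)) (T.h (T.h (M (nat_lit 777676102773590739386367)) (T.h (P (nat_lit 0)) (T.h (P (nat_lit 4200520453522980864)) (T.h (P (nat_lit 0)) (M (nat_lit 4102694556783)))))) (T.h (P (nat_lit 0)) (T.h (T.h (P (nat_lit 4875435867239350272)) (T.h (P (nat_lit 0)) (M (nat_lit 5513332824343)))) (T.h (P (nat_lit 0)) (M (nat_lit 2948822705119)))))))) (T.h (T.h (P (nat_lit 0)) (T.h (T.h (P (nat_lit 0)) (T.h (M (nat_lit 17831215474247991295)) (T.h (P (nat_lit 0)) (M (nat_lit 262101576024063))))) (T.h (P (nat_lit 0)) (T.h (T.h (P (nat_lit 0)) (P (nat_lit 275413687271424))) (P (nat_lit 0)))))) (T.h (T.h (T.h (M (nat_lit 607013194693503069716479)) (T.h (P (nat_lit 0)) (T.h (P (nat_lit 4699115967748243456)) (T.h (P (nat_lit 0)) (M (nat_lit 32407595071)))))) (T.h (P (nat_lit 0)) (T.h (T.h (P (nat_lit 4200520453522980864)) (T.h (P (nat_lit 0)) (M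 (nat_lit 13003402788639)))) (T.h (P (nat_lit 0)) (M (nat_lit 5513332824343)))))) (T.h (T.h (P (nat_lit 0)) (T.h (T.h (P (nat_lit 0)) (M (nat_lit 262101576024063))) (P (nat_lit 0)))) (T.h (T.h (T.h (P (nat_lit 119771036014084096)) (T.h (P (nat_lit 0)) (M (nat_lit 32407595071)))) (T.h (P (nat_lit 0)) (M (nat_lit 4102694556783)))) (T.h (P (nat_lit 0)) (P (nat_lit 420417607296)))))))), (T.h (T.h (T.h (P (nat_lit 0)) (T.h (M (nat_lit 832454746821739008015466495)) (T.h (P (nat_lit 0)) (T.h (P (nat_lit 2581207630647769694208)) (T.h (P (nat_lit 0)) (P (nat_lit 3821690648035328))))))) (T.h (P (nat_lit 0)) (T.h (T.h (P (nat_lit 0)) (T.h (M (nat_lit 32130929532941937672191)) (T.h (P (nat_lit 0)) (P (nat_lit 21537784946409472))))) (T.h (P (nat_lit 0)) (T.h (T.h (P (nat_lit 0)) (P (nat_lit 5910113848442880))) (P (nat_lit 0))))))) (T.h (T.h (P (nat_lit 0)) (T.h (T.h (P (nat_lit 11799924226416691745128448)) (T.h (P (nat_lit 0)) (T.h (P (nat_lit 22920260165497257984))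 (T.h (P (nat_lit 0)) (M (nat_lit 6622509720623)))))) (T.h (P (nat_lit 0)) (T.h (T.h (M (nat_lit 13066312361172795391)) (T.h (P (nat_lit 0)) (P (nat_lit 19135086581520)))) (T.h (P (nat_lit 0)) (P (nat_lit 11861041236576))))))) (T.h (T.h (T.h (P (nat_lit 0)) (T.h (M (nat_lit 4047631849667556278271)) (T.h (P (nat_lit 0)) (M (nat_lit 25091771215478783))))) (T.h (P (nat_lit 0)) (T.h (T.h (P (nat_lit 0)) (P (nat_lit 703405565444096))) (P (nat_lit 0))))) (T.h (T.h (P (nat_lit 0)) (T.h (T.h (P (nat_lit 24992502955122884608)) (T.h (P (nat_lit 0)) (M (nat_lit 4081026789279)))) (T.h (P (nat_lit 0)) (P (nat_lit 4308734371088))))) (T.h (T.h (T.h (P (nat_lit 0)) (M (nat_lit 6980540568846335))) (P (nat_lit 0))) (T.h (T.h (P (nat_lit 0)) (P (nat_lit 3040955945440))) (P (nat_lit 0)))))))), (T.h (T.h (T.h (M (nat_lit 1489864615173141456557266960383)) (T.h (P (nat_lit 0)) (T.h (P (nat_lit 3190336379661984334872576)) (T.h (P (nat_lit 0)) (T.h (P (nat_lit 6454538503194673152))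 (T.h (P (nat_lit 0)) (M (nat_lit 5550730409807)))))))) (T.h (P (nat_lit 0)) (T.h (T.h (P (nat_lit 44237522183060602493075456)) (T.h (P (nat_lit 0)) (T.h (M (nat_lit 115193404408423514111)) (T.h (P (nat_lit 0)) (P (nat_lit 3472411185984)))))) (T.h (P (nat_lit 0)) (T.h (T.h (M (nat_lit 8197879782847807487)) (T.h (P (nat_lit 0)) (P (nat_lit 18792837007584)))) (T.h (P (nat_lit 0)) (P (nat_lit 13524330333600)))))))) (T.h (T.h (P (nat_lit 0)) (T.h (T.h (P (nat_lit 0)) (T.h (P (nat_lit 117203895853605197971456)) (T.h (P (nat_lit 0)) (P (nat_lit 120510918138789888))))) (T.h (P (nat_lit 0)) (T.h (T.h (P (nat_lit 0)) (M (nat_lit 78799039213862911))) (P (nat_lit 0)))))) (T.h (T.h (T.h (P (nat_lit 3190336379661984334872576)) (T.h (P (nat_lit 0)) (T.h (P (nat_lit 107513538014303223808)) (T.h (P (nat_lit 0)) (M (nat_lit 12406552033967)))))) (T.h (P (nat_lit 0)) (T.h (T.h (M (nat_lit 115193404408423514111)) (T.h (P (nat_lit 0)) (P (nat_lit 64523868455424))))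 (T.h (P (nat_lit 0)) (P (nat_lit 18792837007584)))))) (T.h (T.h (P (nat_lit 0)) (T.h (T.h (P (nat_lit 0)) (P (nat_lit 120510918138789888))) (P (nat_lit 0)))) (T.h (T.h (T.h (P (nat_lit 6454538503194673152)) (T.h (P (nat_lit 0)) (M (nat_lit 12406552033967)))) (T.h (P (nat_lit 0)) (P (nat_lit 3472411185984)))) (T.h (P (nat_lit 0)) (M (nat_lit 5550730409807)))))))), (T.h (T.h (T.h (P (nat_lit 0)) (T.h (P (nat_lit 3133521640352018543595749376)) (T.h (P (nat_lit 0)) (T.h (P (nat_lit 6131544820029419683840)) (T.h (P (nat_lit 0)) (P (nat_lit 3746641894768640))))))) (T.h (P (nat_lit 0)) (T.h (T.h (P (nat_lit 0)) (T.h (M (nat_lit 3848273589639705526271)) (T.h (P (nat_lit 0)) (P (nat_lit 24755005882941440))))) (T.h (P (nat_lit 0)) (T.h (T.h (P (nat_lit 0)) (M (nat_lit 107296303587655679))) (P (nat_lit 0))))))) (T.h (T.h (P (nat_lit 0)) (T.h (T.h (M (nat_lit 34949159902444343565221887)) (T.h (P (nat_lit 0)) (M (nat_lit 64795198108966322175)))) (T.h (P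 (nat_lit 0)) (P (nat_lit 130808218232064835584))))) (T.h (T.h (T.h (P (nat_lit 0)) (T.h (P (nat_lit 10530773426254924218368)) (T.h (P (nat_lit 0)) (M (nat_lit 3541496266850303))))) (T.h (P (nat_lit 0)) (T.h (T.h (P (nat_lit 0)) (M (nat_lit 48253519760162815))) (P (nat_lit 0))))) (T.h (T.h (P (nat_lit 0)) (M (nat_lit 18668642047161794559))) (T.h (T.h (T.h (P (nat_lit 0)) (P (nat_lit 25399662819524608))) (P (nat_lit 0))) (P (nat_lit 0))))))), (P (nat_lit 0))]
def lP12_13 : List (T ℤ) := [(T.h (T.h (P (nat_lit 0)) (T.h (T.h (P (nat_lit 0)) (T.h (M (nat_lit 13089024482181258328145919)) (T.h (P (nat_lit 0)) (T.h (M (nat_lit 32647441060556963839)) (T.h (P (nat_lit 0)) (P (nat_lit 4237866999168))))))) (T.h (P (nat_lit 0)) (T.h (T.h (P (nat_lit 0)) (T.h (M (nat_lit 36766634793414688767)) (T.h (P (nat_lit 0)) (P (nat_lit 2377596206784))))) (T.h (P (nat_lit 0)) (T.h (T.h (P (nat_lit 0)) (M (nat_lit 1283713304399))) (P (nat_lit 0)))))))) (T.h (T.h (T.h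 (P (nat_lit 5365436076063364494613544960)) (T.h (P (nat_lit 0)) (T.h (M (nat_lit 23003241910279304380415)) (T.h (P (nat_lit 0)) (M (nat_lit 4868192976011263)))))) (T.h (P (nat_lit 0)) (T.h (T.h (P (nat_lit 16692309233254172459008)) (T.h (P (nat_lit 0)) (P (nat_lit 26953724719824896)))) (T.h (P (nat_lit 0)) (M (nat_lit 24295617010860031)))))) (T.h (T.h (P (nat_lit 0)) (T.h (T.h (P (nat_lit 0)) (T.h (P (nat_lit 25093469970943180800)) (T.h (P (nat_lit 0)) (P (nat_lit 3390121286400))))) (T.h (P (nat_lit 0)) (T.h (T.h (P (nat_lit 0)) (P (nat_lit 13661142254976))) (P (nat_lit 0)))))) (T.h (T.h (T.h (M (nat_lit 2829647422335983026175)) (T.h (P (nat_lit 0)) (P (nat_lit 6090253865844736)))) (T.h (P (nat_lit 0)) (P (nat_lit 17366088078819328)))) (T.h (T.h (P (nat_lit 0)) (T.h (T.h (P (nat_lit 0)) (M (nat_lit 4085685683903))) (P (nat_lit 0)))) (P (nat_lit 8555427069952000))))))), (T.h (T.h (P (nat_lit 0)) (T.h (T.h (M (nat_lit 14143915709784305992583872511))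 (T.h (P (nat_lit 0)) (T.h (P (nat_lit 71315698274066231197696)) (T.h (P (nat_lit 0)) (M (nat_lit 8208545001439231)))))) (T.h (P (nat_lit 0)) (T.h (T.h (M (nat_lit 5554121537654855041023)) (T.h (P (nat_lit 0)) (M (nat_lit 32756148533133311)))) (T.h (P (nat_lit 0)) (M (nat_lit 26821480240742399))))))) (T.h (T.h (T.h (P (nat_lit 0)) (T.h (P (nat_lit 1786891951884896965754880)) (T.h (P (nat_lit 0)) (M (nat_lit 27420855437877051391))))) (T.h (P (nat_lit 0)) (T.h (T.h (P (nat_lit 0)) (P (nat_lit 20838505919270617088))) (P (nat_lit 0))))) (T.h (T.h (P (nat_lit 0)) (T.h (T.h (P (nat_lit 71315698274066231197696)) (T.h (P (nat_lit 0)) (M (nat_lit 50991262593449983)))) (T.h (P (nat_lit 0)) (M (nat_lit 32756148533133311))))) (T.h (T.h (T.h (P (nat_lit 0)) (M (nat_lit 27420855437877051391))) (P (nat_lit 0))) (T.h (T.h (P (nat_lit 0)) (M (nat_lit 8208545001439231))) (P (nat_lit 0))))))), (P (nat_lit 0)), (T.h (T.h (T.h (P (nat_lit 0)) (T.h (P (nat_lit 2547540643335990035118817280))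 (T.h (P (nat_lit 0)) (T.h (P (nat_lit 392783585823669878784)) (T.h (P (nat_lit 0)) (M (nat_lit 965174953410559))))))) (T.h (P (nat_lit 0)) (T.h (T.h (P (nat_lit 0)) (T.h (P (nat_lit 34455666698401404157952)) (T.h (P (nat_lit 0)) (P (nat_lit 584082030985216))))) (T.h (P (nat_lit 0)) (T.h (T.h (P (nat_lit 0)) (M (nat_lit 2625970948095999))) (P (nat_lit 0))))))) (T.h (T.h (P (nat_lit 0)) (T.h (T.h (M (nat_lit 18381355421258832978903039)) (T.h (P (nat_lit 0)) (M (nat_lit 36613268445365010431)))) (T.h (P (nat_lit 0)) (P (nat_lit 7114211940729094144))))) (T.h (T.h (T.h (P (nat_lit 0)) (T.h (M (nat_lit 19946718446392155570175)) (T.h (P (nat_lit 0)) (P (nat_lit 3402133379809280))))) (T.h (P (nat_lit 0)) (T.h (T.h (P (nat_lit 0)) (M (nat_lit 4932788028899327))) (P (nat_lit 0))))) (T.h (T.h (P (nat_lit 0)) (M (nat_lit 23203781688285986815))) (T.h (T.h (T.h (P (nat_lit 0)) (P (nat_lit 3801332291633152))) (P (nat_lit 0))) (P (nat_lit 0))))))), (P (nat_lit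 0)), (P (nat_lit 0)), (P (nat_lit 0)), (P (nat_lit 0))]
def lP12_14 : List (T ℤ) := [(P (nat_lit 0)), (T.h (T.h (P (nat_lit 0)) (T.h (T.h (P (nat_lit 2145928526103471212667600896)) (T.h (P (nat_lit 0)) (T.h (M (nat_lit 13745484901814426927103)) (T.h (P (nat_lit 0)) (P (nat_lit 3087671520100352)))))) (T.h (P (nat_lit 0)) (T.h (T.h (M (nat_lit 3074347135337240723455)) (T.h (P (nat_lit 0)) (P (nat_lit 5068071422885888)))) (T.h (P (nat_lit 0)) (M (nat_lit 1938744669011967))))))) (T.h (T.h (T.h (P (nat_lit 0)) (T.h (P (nat_lit 3867811700671424931823616)) (T.h (P (nat_lit 0)) (T.h (M (nat_lit 4759593979379449855)) (T.h (P (nat_lit 0)) (M (nat_lit 12145147972039))))))) (T.h (P (nat_lit 0)) (T.h (T.h (P (nat_lit 0)) (T.h (P (nat_lit 2758765762964357120)) (T.h (P (nat_lit 0)) (P (nat_lit 7009006788304))))) (T.h (P (nat_lit 0)) (T.h (T.h (P (nat_lit 0)) (M (nat_lit 7025695329975))) (P (nat_lit 0))))))) (T.h (T.h (P (nat_lit 0)) (T.h (T.h (M (nat_lit 19380193559830868262911))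 (T.h (P (nat_lit 0)) (P (nat_lit 43121408521306112)))) (T.h (P (nat_lit 0)) (M (nat_lit 9882166005432319))))) (T.h (T.h (T.h (P (nat_lit 0)) (T.h (P (nat_lit 8076597770091233280)) (T.h (P (nat_lit 0)) (P (nat_lit 24235302802264))))) (T.h (P (nat_lit 0)) (T.h (T.h (P (nat_lit 0)) (M (nat_lit 5161908313399))) (P (nat_lit 0))))) (T.h (T.h (P (nat_lit 0)) (P (nat_lit 4617117429956608))) (T.h (T.h (T.h (P (nat_lit 0)) (M (nat_lit 1256788798095))) (P (nat_lit 0))) (P (nat_lit 0)))))))), (P (nat_lit 0)), (P (nat_lit 0)), (P (nat_lit 0)), (P (nat_lit 0)), (P (nat_lit 0)), (T.h (T.h (T.h (P (nat_lit 2362981971938681723231315951616)) (T.h (P (nat_lit 0)) (T.h (P (nat_lit 2807452377464748726288384)) (T.h (P (nat_lit 0)) (T.h (P (nat_lit 1473600440821088256)) (T.h (P (nat_lit 0)) (P (nat_lit 1881683625120)))))))) (T.h (P (nat_lit 0)) (T.h (T.h (M (nat_lit 7333312270972622047543295)) (T.h (P (nat_lit 0)) (T.h (M (nat_lit 5859465466359054335)) (T.h (P (nat_lit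 0)) (P (nat_lit 1042106905216)))))) (T.h (P (nat_lit 0)) (T.h (T.h (P (nat_lit 2883080607284330496)) (T.h (P (nat_lit 0)) (P (nat_lit 5661848525520)))) (T.h (P (nat_lit 0)) (M (nat_lit 938032279007)))))))) (T.h (T.h (P (nat_lit 0)) (T.h (T.h (P (nat_lit 0)) (T.h (M (nat_lit 50356209117790411423743)) (T.h (P (nat_lit 0)) (P (nat_lit 40788069370691584))))) (T.h (P (nat_lit 0)) (T.h (T.h (P (nat_lit 0)) (M (nat_lit 124448709464817663))) (P (nat_lit 0)))))) (T.h (T.h (T.h (P (nat_lit 2807452377464748726288384)) (T.h (P (nat_lit 0)) (T.h (P (nat_lit 47444693086864670720)) (T.h (P (nat_lit 0)) (M (nat_lit 18230505796079)))))) (T.h (P (nat_lit 0)) (T.h (T.h (M (nat_lit 5859465466359054335)) (T.h (P (nat_lit 0)) (M (nat_lit 2800608362303)))) (T.h (P (nat_lit 0)) (P (nat_lit 5661848525520)))))) (T.h (T.h (P (nat_lit 0)) (T.h (T.h (P (nat_lit 0)) (P (nat_lit 40788069370691584))) (P (nat_lit 0)))) (T.h (T.h (T.h (P (nat_lit 1473600440821088256)) (T.h (P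 (nat_lit 0)) (M (nat_lit 18230505796079)))) (T.h (P (nat_lit 0)) (P (nat_lit 1042106905216)))) (T.h (P (nat_lit 0)) (P (nat_lit 1881683625120))))))))]
def lP12_15 : List (T ℤ) := [(T.h (T.h (T.h (P (nat_lit 0)) (T.h (M (nat_lit 8972655070131824250423607295)) (T.h (P (nat_lit 0)) (T.h (P (nat_lit 31207166095274589290496)) (T.h (P (nat_lit 0)) (M (nat_lit 11517957354749951))))))) (T.h (P (nat_lit 0)) (T.h (T.h (P (nat_lit 0)) (T.h (P (nat_lit 6567739535871807848448)) (T.h (P (nat_lit 0)) (M (nat_lit 43499799333765119))))) (T.h (P (nat_lit 0)) (T.h (T.h (P (nat_lit 0)) (P (nat_lit 64724250157416448))) (P (nat_lit 0))))))) (T.h (T.h (P (nat_lit 0)) (T.h (T.h (P (nat_lit 56835866263271339322245120)) (T.h (P (nat_lit 0)) (T.h (M (nat_lit 38623624472542838783)) (T.h (P (nat_lit 0)) (M (nat_lit 45232048536471)))))) (T.h (P (nat_lit 0)) (T.h (T.h (P (nat_lit 66268639615663472640)) (T.h (P (nat_lit 0)) (M (nat_lit 17567129578935)))) (T.h (P (nat_lit 0))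 (P (nat_lit 2591980023928))))))) (T.h (T.h (T.h (P (nat_lit 0)) (T.h (M (nat_lit 6507069675571976863743)) (T.h (P (nat_lit 0)) (M (nat_lit 57849732773543935))))) (T.h (P (nat_lit 0)) (T.h (T.h (P (nat_lit 0)) (P (nat_lit 169426317755842560))) (P (nat_lit 0))))) (T.h (T.h (P (nat_lit 0)) (T.h (T.h (M (nat_lit 3028819846511984639)) (T.h (P (nat_lit 0)) (P (nat_lit 16098714162440)))) (T.h (P (nat_lit 0)) (M (nat_lit 5565847015119))))) (T.h (T.h (T.h (P (nat_lit 0)) (M (nat_lit 65188613479727103))) (P (nat_lit 0))) (T.h (T.h (P (nat_lit 0)) (M (nat_lit 15604829872359))) (P (nat_lit 0)))))))), (T.h (T.h (T.h (P (nat_lit 8547243003319011634805544583168)) (T.h (P (nat_lit 0)) (T.h (M (nat_lit 10074423422740968400486399)) (T.h (P (nat_lit 0)) (T.h (P (nat_lit 2900983089347952640)) (T.h (P (nat_lit 0)) (M (nat_lit 8507132336751)))))))) (T.h (P (nat_lit 0)) (T.h (T.h (M (nat_lit 15586726180167793191682047)) (T.h (P (nat_lit 0)) (T.h (P (nat_lit 14865489118221041664))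 (T.h (P (nat_lit 0)) (M (nat_lit 16452623026111)))))) (T.h (P (nat_lit 0)) (T.h (T.h (M (nat_lit 25082296066384068607)) (T.h (P (nat_lit 0)) (M (nat_lit 8671366263727)))) (T.h (P (nat_lit 0)) (M (nat_lit 1807611555343)))))))) (T.h (T.h (P (nat_lit 0)) (T.h (T.h (P (nat_lit 0)) (T.h (M (nat_lit 5544913477966684487679)) (T.h (P (nat_lit 0)) (M (nat_lit 51337459934527487))))) (T.h (P (nat_lit 0)) (T.h (T.h (P (nat_lit 0)) (P (nat_lit 107443297016119296))) (P (nat_lit 0)))))) (T.h (T.h (T.h (P (nat_lit 14510347300884980999127040)) (T.h (P (nat_lit 0)) (T.h (M (nat_lit 56693657735398424575)) (T.h (P (nat_lit 0)) (P (nat_lit 37577714858544)))))) (T.h (P (nat_lit 0)) (T.h (T.h (P (nat_lit 35663318068957806592)) (T.h (P (nat_lit 0)) (P (nat_lit 14277571269584)))) (T.h (P (nat_lit 0)) (M (nat_lit 6732252487071)))))) (T.h (T.h (P (nat_lit 0)) (T.h (T.h (P (nat_lit 0)) (P (nat_lit 788703454953472))) (P (nat_lit 0)))) (T.h (T.h (T.h (P (nat_lit 35610800256633012224))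 (T.h (P (nat_lit 0)) (P (nat_lit 29692863900784)))) (T.h (P (nat_lit 0)) (P (nat_lit 15366368407824)))) (T.h (P (nat_lit 0)) (M (nat_lit 4773610931599)))))))), (T.h (T.h (T.h (P (nat_lit 0)) (T.h (P (nat_lit 5075728687560414900525203456)) (T.h (P (nat_lit 0)) (T.h (M (nat_lit 4975638722445056147455)) (T.h (P (nat_lit 0)) (P (nat_lit 15728383238602752))))))) (T.h (P (nat_lit 0)) (T.h (T.h (P (nat_lit 0)) (T.h (P (nat_lit 19474584951922158993408)) (T.h (P (nat_lit 0)) (P (nat_lit 4315555809820672))))) (T.h (P (nat_lit 0)) (T.h (T.h (P (nat_lit 0)) (M (nat_lit 17724020956954623))) (P (nat_lit 0))))))) (T.h (T.h (P (nat_lit 0)) (T.h (T.h (M (nat_lit 15188638981517575697989631)) (T.h (P (nat_lit 0)) (T.h (P (nat_lit 3965753984890699776)) (T.h (P (nat_lit 0)) (M (nat_lit 3300786166367)))))) (T.h (P (nat_lit 0)) (T.h (T.h (M (nat_lit 27117710602233970687)) (T.h (P (nat_lit 0)) (P (nat_lit 9557671096032)))) (T.h (P (nat_lit 0)) (M (nat_lit 10644566670095)))))))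 (T.h (T.h (T.h (P (nat_lit 0)) (T.h (P (nat_lit 30406151196474345521152)) (T.h (P (nat_lit 0)) (M (nat_lit 43971231570493439))))) (T.h (P (nat_lit 0)) (T.h (T.h (P (nat_lit 0)) (M (nat_lit 24912020807942143))) (P (nat_lit 0))))) (T.h (T.h (P (nat_lit 0)) (T.h (T.h (P (nat_lit 12216619188252311552)) (T.h (P (nat_lit 0)) (P (nat_lit 253154553840)))) (T.h (P (nat_lit 0)) (P (nat_lit 14947988241648))))) (T.h (T.h (T.h (P (nat_lit 0)) (P (nat_lit 31295638072459264))) (P (nat_lit 0))) (T.h (T.h (P (nat_lit 0)) (M (nat_lit 4836003780143))) (P (nat_lit 0)))))))), (T.h (T.h (T.h (M (nat_lit 848019981192476839092825358335)) (T.h (P (nat_lit 0)) (T.h (P (nat_lit 3438041479358372487626752)) (T.h (P (nat_lit 0)) (M (nat_lit 3512947433225060351)))))) (T.h (P (nat_lit 0)) (T.h (T.h (P (nat_lit 10653213847725133906575360)) (T.h (P (nat_lit 0)) (M (nat_lit 3300389089831813119)))) (T.h (P (nat_lit 0)) (P (nat_lit 11113978180799561728)))))) (T.h (T.h (P (nat_lit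 0)) (T.h (T.h (P (nat_lit 0)) (T.h (P (nat_lit 41729021910207325798400)) (T.h (P (nat_lit 0)) (M (nat_lit 4819333066915839))))) (T.h (P (nat_lit 0)) (T.h (T.h (P (nat_lit 0)) (M (nat_lit 8839026266406911))) (P (nat_lit 0)))))) (T.h (T.h (T.h (M (nat_lit 6614624667399100999663615)) (T.h (P (nat_lit 0)) (M (nat_lit 19910758226580209663)))) (T.h (P (nat_lit 0)) (P (nat_lit 3947790254513061888)))) (T.h (T.h (P (nat_lit 0)) (T.h (T.h (P (nat_lit 0)) (P (nat_lit 5405502678335488))) (P (nat_lit 0)))) (M (nat_lit 30926891337990012927)))))), (P (nat_lit 0)), (P (nat_lit 0)), (T.h (T.h (P (nat_lit 0)) (T.h (T.h (P (nat_lit 0)) (T.h (M (nat_lit 1783583222540862459215871)) (T.h (P (nat_lit 0)) (T.h (M (nat_lit 968861825208680447)) (T.h (P (nat_lit 0)) (M (nat_lit 723600243695))))))) (T.h (P (nat_lit 0)) (T.h (T.h (P (nat_lit 0)) (T.h (M (nat_lit 968861825208680447)) (T.h (P (nat_lit 0)) (P (nat_lit 1106006924448))))) (T.h (P (nat_lit 0)) (T.h (T.h (P (nat_lit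 0)) (M (nat_lit 723600243695))) (P (nat_lit 0)))))))) (T.h (T.h (T.h (P (nat_lit 292744442000501060956848128)) (T.h (P (nat_lit 0)) (T.h (M (nat_lit 71490041528832753663)) (T.h (P (nat_lit 0)) (M (nat_lit 7565409483816959)))))) (T.h (P (nat_lit 0)) (T.h (T.h (M (nat_lit 71490041528832753663)) (T.h (P (nat_lit 0)) (M (nat_lit 7318168459542527)))) (T.h (P (nat_lit 0)) (M (nat_lit 7565409483816959)))))) (T.h (T.h (P (nat_lit 0)) (T.h (T.h (P (nat_lit 0)) (T.h (M (nat_lit 9687899242886070271)) (T.h (P (nat_lit 0)) (P (nat_lit 6132761592576))))) (T.h (P (nat_lit 0)) (T.h (T.h (P (nat_lit 0)) (P (nat_lit 6132761592576))) (P (nat_lit 0)))))) (T.h (T.h (T.h (P (nat_lit 578675089556927152128)) (T.h (P (nat_lit 0)) (M (nat_lit 208462894661631)))) (T.h (P (nat_lit 0)) (M (nat_lit 208462894661631)))) (T.h (T.h (P (nat_lit 0)) (T.h (T.h (P (nat_lit 0)) (P (nat_lit 18277536452736))) (P (nat_lit 0)))) (M (nat_lit 1348496507797503))))))), (T.h (T.h (P (nat_lit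 0)) (T.h (T.h (P (nat_lit 13375381822705104134890061824)) (T.h (P (nat_lit 0)) (T.h (P (nat_lit 49970011180281486114816)) (T.h (P (nat_lit 0)) (P (nat_lit 75214597483397120)))))) (T.h (P (nat_lit 0)) (T.h (T.h (P (nat_lit 40533845255652837949440)) (T.h (P (nat_lit 0)) (M (nat_lit 49489775836823551)))) (T.h (P (nat_lit 0)) (P (nat_lit 24462417407541248))))))) (T.h (T.h (T.h (P (nat_lit 0)) (T.h (M (nat_lit 81208718118092134548504575)) (T.h (P (nat_lit 0)) (T.h (M (nat_lit 54941159622648528895)) (T.h (P (nat_lit 0)) (M (nat_lit 26610485073111))))))) (T.h (P (nat_lit 0)) (T.h (T.h (P (nat_lit 0)) (T.h (P (nat_lit 73195444599466754048)) (T.h (P (nat_lit 0)) (M (nat_lit 34425023988567))))) (T.h (P (nat_lit 0)) (T.h (T.h (P (nat_lit 0)) (M (nat_lit 49889935426295))) (P (nat_lit 0))))))) (T.h (T.h (P (nat_lit 0)) (T.h (T.h (M (nat_lit 6387050532758704095231)) (T.h (P (nat_lit 0)) (M (nat_lit 161898014655447039)))) (T.h (P (nat_lit 0)) (P (nat_lit 5962513485070336)))))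 (T.h (T.h (T.h (P (nat_lit 0)) (T.h (P (nat_lit 210245857004855754752)) (T.h (P (nat_lit 0)) (M (nat_lit 7080129942271))))) (T.h (P (nat_lit 0)) (T.h (T.h (P (nat_lit 0)) (M (nat_lit 8435515175687))) (P (nat_lit 0))))) (T.h (T.h (P (nat_lit 0)) (M (nat_lit 69269819939782655))) (T.h (T.h (T.h (P (nat_lit 0)) (P (nat_lit 15644960963528))) (P (nat_lit 0))) (P (nat_lit 0))))))))]
def lP12_16 : List (T ℤ) := [(T.h (T.h (P (nat_lit 0)) (T.h (T.h (P (nat_lit 0)) (T.h (P (nat_lit 6361063573136040009924608)) (T.h (P (nat_lit 0)) (T.h (P (nat_lit 32547474825401073664)) (T.h (P (nat_lit 0)) (M (nat_lit 1102750372303))))))) (T.h (P (nat_lit 0)) (T.h (T.h (P (nat_lit 0)) (T.h (M (nat_lit 3114357112931614719)) (T.h (P (nat_lit 0)) (M (nat_lit 12260400160623))))) (T.h (P (nat_lit 0)) (T.h (T.h (P (nat_lit 0)) (M (nat_lit 10914695388015))) (P (nat_lit 0)))))))) (T.h (T.h (T.h (M (nat_lit 16519899788560389826718728191)) (T.h (P (nat_lit 0)) (T.h (M (nat_lit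 20726215518357509111807)) (T.h (P (nat_lit 0)) (P (nat_lit 53376662237773824)))))) (T.h (P (nat_lit 0)) (T.h (T.h (M (nat_lit 48331781321057967800319)) (T.h (P (nat_lit 0)) (P (nat_lit 67211279446638592)))) (T.h (P (nat_lit 0)) (P (nat_lit 22614995997048832)))))) (T.h (T.h (P (nat_lit 0)) (T.h (T.h (P (nat_lit 0)) (T.h (P (nat_lit 36912781505249411072)) (T.h (P (nat_lit 0)) (M (nat_lit 18575295500271))))) (T.h (P (nat_lit 0)) (T.h (T.h (P (nat_lit 0)) (M (nat_lit 27622295623215))) (P (nat_lit 0)))))) (T.h (T.h (T.h (M (nat_lit 38815681408239742746623)) (T.h (P (nat_lit 0)) (P (nat_lit 24872236208455680)))) (T.h (P (nat_lit 0)) (M (nat_lit 14595071553503231)))) (T.h (T.h (P (nat_lit 0)) (T.h (T.h (P (nat_lit 0)) (M (nat_lit 94064231272143))) (P (nat_lit 0)))) (M (nat_lit 14922245059133439))))))), (T.h (T.h (P (nat_lit 0)) (T.h (T.h (M (nat_lit 25920019054726368708448485375)) (T.h (P (nat_lit 0)) (T.h (M (nat_lit 11270670670228105461759)) (T.h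 (P (nat_lit 0)) (M (nat_lit 58695919728099327)))))) (T.h (P (nat_lit 0)) (T.h (T.h (M (nat_lit 32169525483728206299135)) (T.h (P (nat_lit 0)) (P (nat_lit 46994885653495808)))) (T.h (P (nat_lit 0)) (M (nat_lit 18888208648962047))))))) (T.h (T.h (T.h (P (nat_lit 0)) (T.h (P (nat_lit 38096627589110099462848512)) (T.h (P (nat_lit 0)) (T.h (P (nat_lit 106594337060644978688)) (T.h (P (nat_lit 0)) (P (nat_lit 56011950313632))))))) (T.h (P (nat_lit 0)) (T.h (T.h (P (nat_lit 0)) (T.h (M (nat_lit 285020327601149837311)) (T.h (P (nat_lit 0)) (M (nat_lit 5451005508863))))) (T.h (P (nat_lit 0)) (T.h (T.h (P (nat_lit 0)) (P (nat_lit 3622862751840))) (P (nat_lit 0))))))) (T.h (T.h (P (nat_lit 0)) (T.h (T.h (M (nat_lit 27787483063106125430783)) (T.h (P (nat_lit 0)) (M (nat_lit 29192182078373887)))) (T.h (P (nat_lit 0)) (P (nat_lit 57081713356472320))))) (T.h (T.h (T.h (P (nat_lit 0)) (T.h (M (nat_lit 108181840819061260287)) (T.h (P (nat_lit 0)) (M (nat_lit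 28889076865151))))) (T.h (P (nat_lit 0)) (T.h (T.h (P (nat_lit 0)) (P (nat_lit 15157720755216))) (P (nat_lit 0))))) (T.h (T.h (P (nat_lit 0)) (P (nat_lit 67809720250138624))) (T.h (T.h (T.h (P (nat_lit 0)) (P (nat_lit 27163896312912))) (P (nat_lit 0))) (P (nat_lit 0)))))))), (T.h (T.h (P (nat_lit 0)) (T.h (T.h (P (nat_lit 0)) (T.h (M (nat_lit 34949159902444343565221887)) (T.h (P (nat_lit 0)) (P (nat_lit 130808218232064835584))))) (T.h (P (nat_lit 0)) (T.h (T.h (P (nat_lit 0)) (M (nat_lit 18668642047161794559))) (P (nat_lit 0)))))) (T.h (T.h (T.h (P (nat_lit 3133521640352018543595749376)) (T.h (P (nat_lit 0)) (T.h (M (nat_lit 3848273589639705526271)) (T.h (P (nat_lit 0)) (M (nat_lit 107296303587655679)))))) (T.h (P (nat_lit 0)) (T.h (T.h (P (nat_lit 10530773426254924218368)) (T.h (P (nat_lit 0)) (M (nat_lit 48253519760162815)))) (T.h (P (nat_lit 0)) (P (nat_lit 25399662819524608)))))) (T.h (T.h (P (nat_lit 0)) (T.h (T.h (P (nat_lit 0)) (M (nat_lit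 64795198108966322175))) (P (nat_lit 0)))) (T.h (T.h (T.h (P (nat_lit 6131544820029419683840)) (T.h (P (nat_lit 0)) (P (nat_lit 24755005882941440)))) (T.h (P (nat_lit 0)) (M (nat_lit 3541496266850303)))) (T.h (P (nat_lit 0)) (P (nat_lit 3746641894768640))))))), (P (nat_lit 0)), (T.h (T.h (T.h (P (nat_lit 2362981971938681723231315951616)) (T.h (P (nat_lit 0)) (T.h (M (nat_lit 7333312270972622047543295)) (T.h (P (nat_lit 0)) (T.h (P (nat_lit 2883080607284330496)) (T.h (P (nat_lit 0)) (M (nat_lit 938032279007)))))))) (T.h (P (nat_lit 0)) (T.h (T.h (P (nat_lit 2807452377464748726288384)) (T.h (P (nat_lit 0)) (T.h (M (nat_lit 5859465466359054335)) (T.h (P (nat_lit 0)) (P (nat_lit 5661848525520)))))) (T.h (P (nat_lit 0)) (T.h (T.h (P (nat_lit 1473600440821088256)) (T.h (P (nat_lit 0)) (P (nat_lit 1042106905216)))) (T.h (P (nat_lit 0)) (P (nat_lit 1881683625120)))))))) (T.h (T.h (P (nat_lit 0)) (T.h (T.h (P (nat_lit 0)) (T.h (M (nat_lit 50356209117790411423743))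 (T.h (P (nat_lit 0)) (M (nat_lit 124448709464817663))))) (T.h (P (nat_lit 0)) (T.h (T.h (P (nat_lit 0)) (P (nat_lit 40788069370691584))) (P (nat_lit 0)))))) (T.h (T.h (T.h (P (nat_lit 2807452377464748726288384)) (T.h (P (nat_lit 0)) (T.h (M (nat_lit 5859465466359054335)) (T.h (P (nat_lit 0)) (P (nat_lit 5661848525520)))))) (T.h (P (nat_lit 0)) (T.h (T.h (P (nat_lit 47444693086864670720)) (T.h (P (nat_lit 0)) (M (nat_lit 2800608362303)))) (T.h (P (nat_lit 0)) (M (nat_lit 18230505796079)))))) (T.h (T.h (P (nat_lit 0)) (T.h (T.h (P (nat_lit 0)) (P (nat_lit 40788069370691584))) (P (nat_lit 0)))) (T.h (T.h (T.h (P (nat_lit 1473600440821088256)) (T.h (P (nat_lit 0)) (P (nat_lit 1042106905216)))) (T.h (P (nat_lit 0)) (M (nat_lit 18230505796079)))) (T.h (P (nat_lit 0)) (P (nat_lit 1881683625120)))))))), (T.h (T.h (T.h (P (nat_lit 0)) (T.h (P (nat_lit 13375381822705104134890061824)) (T.h (P (nat_lit 0)) (T.h (P (nat_lit 40533845255652837949440)) (T.h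 (P (nat_lit 0)) (P (nat_lit 24462417407541248))))))) (T.h (P (nat_lit 0)) (T.h (T.h (P (nat_lit 0)) (T.h (P (nat_lit 49970011180281486114816)) (T.h (P (nat_lit 0)) (M (nat_lit 49489775836823551))))) (T.h (P (nat_lit 0)) (T.h (T.h (P (nat_lit 0)) (P (nat_lit 75214597483397120))) (P (nat_lit 0))))))) (T.h (T.h (P (nat_lit 0)) (T.h (T.h (M (nat_lit 81208718118092134548504575)) (T.h (P (nat_lit 0)) (T.h (P (nat_lit 73195444599466754048)) (T.h (P (nat_lit 0)) (M (nat_lit 49889935426295)))))) (T.h (P (nat_lit 0)) (T.h (T.h (M (nat_lit 54941159622648528895)) (T.h (P (nat_lit 0)) (M (nat_lit 34425023988567)))) (T.h (P (nat_lit 0)) (M (nat_lit 26610485073111))))))) (T.h (T.h (T.h (P (nat_lit 0)) (T.h (M (nat_lit 6387050532758704095231)) (T.h (P (nat_lit 0)) (P (nat_lit 5962513485070336))))) (T.h (P (nat_lit 0)) (T.h (T.h (P (nat_lit 0)) (M (nat_lit 161898014655447039))) (P (nat_lit 0))))) (T.h (T.h (P (nat_lit 0)) (T.h (T.h (P (nat_lit 210245857004855754752))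 (T.h (P (nat_lit 0)) (M (nat_lit 8435515175687)))) (T.h (P (nat_lit 0)) (M (nat_lit 7080129942271))))) (T.h (T.h (T.h (P (nat_lit 0)) (M (nat_lit 69269819939782655))) (P (nat_lit 0))) (T.h (T.h (P (nat_lit 0)) (P (nat_lit 15644960963528))) (P (nat_lit 0)))))))), (T.h (T.h (T.h (P (nat_lit 25922153766479153859646923472896)) (T.h (P (nat_lit 0)) (T.h (P (nat_lit 30009294642622627848388608)) (T.h (P (nat_lit 0)) (T.h (P (nat_lit 11871487792309600256)) (T.h (P (nat_lit 0)) (P (nat_lit 11600234825088)))))))) (T.h (P (nat_lit 0)) (T.h (T.h (P (nat_lit 30009294642622627848388608)) (T.h (P (nat_lit 0)) (T.h (M (nat_lit 2158829186498691071)) (T.h (P (nat_lit 0)) (M (nat_lit 35804570608575)))))) (T.h (P (nat_lit 0)) (T.h (T.h (P (nat_lit 11871487792309600256)) (T.h (P (nat_lit 0)) (M (nat_lit 35804570608575)))) (T.h (P (nat_lit 0)) (P (nat_lit 11600234825088)))))))) (T.h (T.h (P (nat_lit 0)) (T.h (T.h (P (nat_lit 0)) (T.h (M (nat_lit 56871575902719144099839))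 (T.h (P (nat_lit 0)) (P (nat_lit 162848623846424576))))) (T.h (P (nat_lit 0)) (T.h (T.h (P (nat_lit 0)) (P (nat_lit 162848623846424576))) (P (nat_lit 0)))))) (T.h (T.h (T.h (P (nat_lit 30009294642622627848388608)) (T.h (P (nat_lit 0)) (T.h (M (nat_lit 2158829186498691071)) (T.h (P (nat_lit 0)) (M (nat_lit 35804570608575)))))) (T.h (P (nat_lit 0)) (T.h (T.h (M (nat_lit 2158829186498691071)) (T.h (P (nat_lit 0)) (M (nat_lit 11893771759967)))) (T.h (P (nat_lit 0)) (M (nat_lit 35804570608575)))))) (T.h (T.h (P (nat_lit 0)) (T.h (T.h (P (nat_lit 0)) (P (nat_lit 162848623846424576))) (P (nat_lit 0)))) (T.h (T.h (T.h (P (nat_lit 11871487792309600256)) (T.h (P (nat_lit 0)) (M (nat_lit 35804570608575)))) (T.h (P (nat_lit 0)) (M (nat_lit 35804570608575)))) (T.h (P (nat_lit 0)) (P (nat_lit 11600234825088)))))))), (T.h (T.h (T.h (P (nat_lit 0)) (T.h (P (nat_lit 14713160722995392810116448256)) (T.h (P (nat_lit 0)) (T.h (M (nat_lit 44929290853859391963135))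 (T.h (P (nat_lit 0)) (M (nat_lit 23508115147128831))))))) (T.h (P (nat_lit 0)) (T.h (T.h (P (nat_lit 0)) (T.h (M (nat_lit 32353138597883205910527)) (T.h (P (nat_lit 0)) (P (nat_lit 46068131674587136))))) (T.h (P (nat_lit 0)) (T.h (T.h (P (nat_lit 0)) (P (nat_lit 1733271131717632))) (P (nat_lit 0))))))) (T.h (T.h (P (nat_lit 0)) (T.h (T.h (P (nat_lit 27231063425483709475717120)) (T.h (P (nat_lit 0)) (T.h (P (nat_lit 113195102568007598080)) (T.h (P (nat_lit 0)) (P (nat_lit 53466157421280)))))) (T.h (P (nat_lit 0)) (T.h (T.h (M (nat_lit 62278136011518115839)) (T.h (P (nat_lit 0)) (P (nat_lit 35309783142480)))) (T.h (P (nat_lit 0)) (P (nat_lit 2478283122528))))))) (T.h (T.h (T.h (P (nat_lit 0)) (T.h (M (nat_lit 32353138597883205910527)) (T.h (P (nat_lit 0)) (P (nat_lit 46068131674587136))))) (T.h (P (nat_lit 0)) (T.h (T.h (P (nat_lit 0)) (P (nat_lit 22100207788425216))) (P (nat_lit 0))))) (T.h (T.h (P (nat_lit 0)) (T.h (T.h (M (nat_lit 62278136011518115839))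 (T.h (P (nat_lit 0)) (P (nat_lit 35309783142480)))) (T.h (P (nat_lit 0)) (P (nat_lit 877720705344))))) (T.h (T.h (T.h (P (nat_lit 0)) (P (nat_lit 1733271131717632))) (P (nat_lit 0))) (T.h (T.h (P (nat_lit 0)) (P (nat_lit 2478283122528))) (P (nat_lit 0))))))))]
def lP12_17 : List (T ℤ) := [(T.h (T.h (T.h (M (nat_lit 3142910377488252325730828943359)) (T.h (P (nat_lit 0)) (T.h (P (nat_lit 18536861392735411206356992)) (T.h (P (nat_lit 0)) (P (nat_lit 56634526376671576064)))))) (T.h (P (nat_lit 0)) (T.h (T.h (P (nat_lit 33691155774875871798624256)) (T.h (P (nat_lit 0)) (P (nat_lit 2844952429110231040)))) (T.h (P (nat_lit 0)) (P (nat_lit 43612476535541334016)))))) (T.h (T.h (P (nat_lit 0)) (T.h (T.h (P (nat_lit 0)) (T.h (P (nat_lit 77133057163773054287872)) (T.h (P (nat_lit 0)) (M (nat_lit 65556687411085311))))) (T.h (P (nat_lit 0)) (T.h (T.h (P (nat_lit 0)) (M (nat_lit 39398897938006015))) (P (nat_lit 0)))))) (T.h (T.h (T.h (P (nat_lit 33691155774875871798624256))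 (T.h (P (nat_lit 0)) (P (nat_lit 2844952429110231040)))) (T.h (P (nat_lit 0)) (M (nat_lit 71619732868914216959)))) (T.h (T.h (P (nat_lit 0)) (T.h (T.h (P (nat_lit 0)) (M (nat_lit 39398897938006015))) (P (nat_lit 0)))) (P (nat_lit 43612476535541334016)))))), (P (nat_lit 0)), (T.h (T.h (P (nat_lit 0)) (T.h (T.h (M (nat_lit 8972655070131824250423607295)) (T.h (P (nat_lit 0)) (T.h (P (nat_lit 6567739535871807848448)) (T.h (P (nat_lit 0)) (P (nat_lit 64724250157416448)))))) (T.h (P (nat_lit 0)) (T.h (T.h (P (nat_lit 31207166095274589290496)) (T.h (P (nat_lit 0)) (M (nat_lit 43499799333765119)))) (T.h (P (nat_lit 0)) (M (nat_lit 11517957354749951))))))) (T.h (T.h (T.h (P (nat_lit 0)) (T.h (P (nat_lit 56835866263271339322245120)) (T.h (P (nat_lit 0)) (T.h (P (nat_lit 66268639615663472640)) (T.h (P (nat_lit 0)) (P (nat_lit 2591980023928))))))) (T.h (P (nat_lit 0)) (T.h (T.h (P (nat_lit 0)) (T.h (M (nat_lit 38623624472542838783)) (T.h (P (nat_lit 0))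 (M (nat_lit 17567129578935))))) (T.h (P (nat_lit 0)) (T.h (T.h (P (nat_lit 0)) (M (nat_lit 45232048536471))) (P (nat_lit 0))))))) (T.h (T.h (P (nat_lit 0)) (T.h (T.h (M (nat_lit 6507069675571976863743)) (T.h (P (nat_lit 0)) (P (nat_lit 169426317755842560)))) (T.h (P (nat_lit 0)) (M (nat_lit 57849732773543935))))) (T.h (T.h (T.h (P (nat_lit 0)) (T.h (M (nat_lit 3028819846511984639)) (T.h (P (nat_lit 0)) (M (nat_lit 5565847015119))))) (T.h (P (nat_lit 0)) (T.h (T.h (P (nat_lit 0)) (P (nat_lit 16098714162440))) (P (nat_lit 0))))) (T.h (T.h (P (nat_lit 0)) (M (nat_lit 65188613479727103))) (T.h (T.h (T.h (P (nat_lit 0)) (M (nat_lit 15604829872359))) (P (nat_lit 0))) (P (nat_lit 0)))))))), (T.h (T.h (P (nat_lit 0)) (T.h (T.h (P (nat_lit 0)) (T.h (P (nat_lit 6361063573136040009924608)) (T.h (P (nat_lit 0)) (T.h (M (nat_lit 3114357112931614719)) (T.h (P (nat_lit 0)) (M (nat_lit 10914695388015))))))) (T.h (P (nat_lit 0)) (T.h (T.h (P (nat_lit 0)) (T.h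 (P (nat_lit 32547474825401073664)) (T.h (P (nat_lit 0)) (M (nat_lit 12260400160623))))) (T.h (P (nat_lit 0)) (T.h (T.h (P (nat_lit 0)) (M (nat_lit 1102750372303))) (P (nat_lit 0)))))))) (T.h (T.h (T.h (M (nat_lit 16519899788560389826718728191)) (T.h (P (nat_lit 0)) (T.h (M (nat_lit 48331781321057967800319)) (T.h (P (nat_lit 0)) (P (nat_lit 22614995997048832)))))) (T.h (P (nat_lit 0)) (T.h (T.h (M (nat_lit 20726215518357509111807)) (T.h (P (nat_lit 0)) (P (nat_lit 67211279446638592)))) (T.h (P (nat_lit 0)) (P (nat_lit 53376662237773824)))))) (T.h (T.h (P (nat_lit 0)) (T.h (T.h (P (nat_lit 0)) (T.h (P (nat_lit 36912781505249411072)) (T.h (P (nat_lit 0)) (M (nat_lit 27622295623215))))) (T.h (P (nat_lit 0)) (T.h (T.h (P (nat_lit 0)) (M (nat_lit 18575295500271))) (P (nat_lit 0)))))) (T.h (T.h (T.h (M (nat_lit 38815681408239742746623)) (T.h (P (nat_lit 0)) (M (nat_lit 14595071553503231)))) (T.h (P (nat_lit 0)) (P (nat_lit 24872236208455680)))) (T.h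 (T.h (P (nat_lit 0)) (T.h (T.h (P (nat_lit 0)) (M (nat_lit 94064231272143))) (P (nat_lit 0)))) (M (nat_lit 14922245059133439))))))), (T.h (T.h (P (nat_lit 0)) (T.h (T.h (P (nat_lit 14713160722995392810116448256)) (T.h (P (nat_lit 0)) (T.h (M (nat_lit 32353138597883205910527)) (T.h (P (nat_lit 0)) (P (nat_lit 1733271131717632)))))) (T.h (P (nat_lit 0)) (T.h (T.h (M (nat_lit 44929290853859391963135)) (T.h (P (nat_lit 0)) (P (nat_lit 46068131674587136)))) (T.h (P (nat_lit 0)) (M (nat_lit 23508115147128831))))))) (T.h (T.h (T.h (P (nat_lit 0)) (T.h (P (nat_lit 27231063425483709475717120)) (T.h (P (nat_lit 0)) (T.h (M (nat_lit 62278136011518115839)) (T.h (P (nat_lit 0)) (P (nat_lit 2478283122528))))))) (T.h (P (nat_lit 0)) (T.h (T.h (P (nat_lit 0)) (T.h (P (nat_lit 113195102568007598080)) (T.h (P (nat_lit 0)) (P (nat_lit 35309783142480))))) (T.h (P (nat_lit 0)) (T.h (T.h (P (nat_lit 0)) (P (nat_lit 53466157421280))) (P (nat_lit 0))))))) (T.h (T.h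 (P (nat_lit 0)) (T.h (T.h (M (nat_lit 32353138597883205910527)) (T.h (P (nat_lit 0)) (P (nat_lit 22100207788425216)))) (T.h (P (nat_lit 0)) (P (nat_lit 46068131674587136))))) (T.h (T.h (T.h (P (nat_lit 0)) (T.h (M (nat_lit 62278136011518115839)) (T.h (P (nat_lit 0)) (P (nat_lit 877720705344))))) (T.h (P (nat_lit 0)) (T.h (T.h (P (nat_lit 0)) (P (nat_lit 35309783142480))) (P (nat_lit 0))))) (T.h (T.h (P (nat_lit 0)) (P (nat_lit 1733271131717632))) (T.h (T.h (T.h (P (nat_lit 0)) (P (nat_lit 2478283122528))) (P (nat_lit 0))) (P (nat_lit 0)))))))), (T.h (T.h (P (nat_lit 0)) (T.h (T.h (P (nat_lit 0)) (T.h (P (nat_lit 8003037340627921316872192)) (T.h (P (nat_lit 0)) (P (nat_lit 111705972701661233152))))) (T.h (P (nat_lit 0)) (T.h (T.h (P (nat_lit 0)) (P (nat_lit 111705972701661233152))) (P (nat_lit 0)))))) (T.h (T.h (T.h (M (nat_lit 10143313764801585540136697855)) (T.h (P (nat_lit 0)) (T.h (M (nat_lit 11717009930323488669695)) (T.h (P (nat_lit 0))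 (M (nat_lit 17500175588818943)))))) (T.h (P (nat_lit 0)) (T.h (T.h (M (nat_lit 11717009930323488669695)) (T.h (P (nat_lit 0)) (M (nat_lit 99231753168191487)))) (T.h (P (nat_lit 0)) (M (nat_lit 17500175588818943)))))) (T.h (T.h (P (nat_lit 0)) (T.h (T.h (P (nat_lit 0)) (M (nat_lit 26010462300483354623))) (P (nat_lit 0)))) (T.h (T.h (T.h (M (nat_lit 45359257570254440628223)) (T.h (P (nat_lit 0)) (M (nat_lit 16691703478140927)))) (T.h (P (nat_lit 0)) (M (nat_lit 16691703478140927)))) (T.h (P (nat_lit 0)) (M (nat_lit 31566073880051711))))))), (T.h (T.h (T.h (P (nat_lit 0)) (T.h (P (nat_lit 2145928526103471212667600896)) (T.h (P (nat_lit 0)) (T.h (M (nat_lit 3074347135337240723455)) (T.h (P (nat_lit 0)) (M (nat_lit 1938744669011967))))))) (T.h (P (nat_lit 0)) (T.h (T.h (P (nat_lit 0)) (T.h (M (nat_lit 13745484901814426927103)) (T.h (P (nat_lit 0)) (P (nat_lit 5068071422885888))))) (T.h (P (nat_lit 0)) (T.h (T.h (P (nat_lit 0)) (P (nat_lit 3087671520100352)))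 (P (nat_lit 0))))))) (T.h (T.h (P (nat_lit 0)) (T.h (T.h (P (nat_lit 3867811700671424931823616)) (T.h (P (nat_lit 0)) (T.h (P (nat_lit 2758765762964357120)) (T.h (P (nat_lit 0)) (M (nat_lit 7025695329975)))))) (T.h (P (nat_lit 0)) (T.h (T.h (M (nat_lit 4759593979379449855)) (T.h (P (nat_lit 0)) (P (nat_lit 7009006788304)))) (T.h (P (nat_lit 0)) (M (nat_lit 12145147972039))))))) (T.h (T.h (T.h (P (nat_lit 0)) (T.h (M (nat_lit 19380193559830868262911)) (T.h (P (nat_lit 0)) (M (nat_lit 9882166005432319))))) (T.h (P (nat_lit 0)) (T.h (T.h (P (nat_lit 0)) (P (nat_lit 43121408521306112))) (P (nat_lit 0))))) (T.h (T.h (P (nat_lit 0)) (T.h (T.h (P (nat_lit 8076597770091233280)) (T.h (P (nat_lit 0)) (M (nat_lit 5161908313399)))) (T.h (P (nat_lit 0)) (P (nat_lit 24235302802264))))) (T.h (T.h (T.h (P (nat_lit 0)) (P (nat_lit 4617117429956608))) (P (nat_lit 0))) (T.h (T.h (P (nat_lit 0)) (M (nat_lit 1256788798095))) (P (nat_lit 0)))))))), (T.h (T.h (T.h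 (P (nat_lit 8547243003319011634805544583168)) (T.h (P (nat_lit 0)) (T.h (M (nat_lit 15586726180167793191682047)) (T.h (P (nat_lit 0)) (T.h (M (nat_lit 25082296066384068607)) (T.h (P (nat_lit 0)) (M (nat_lit 1807611555343)))))))) (T.h (P (nat_lit 0)) (T.h (T.h (M (nat_lit 10074423422740968400486399)) (T.h (P (nat_lit 0)) (T.h (P (nat_lit 14865489118221041664)) (T.h (P (nat_lit 0)) (M (nat_lit 8671366263727)))))) (T.h (P (nat_lit 0)) (T.h (T.h (P (nat_lit 2900983089347952640)) (T.h (P (nat_lit 0)) (M (nat_lit 16452623026111)))) (T.h (P (nat_lit 0)) (M (nat_lit 8507132336751)))))))) (T.h (T.h (P (nat_lit 0)) (T.h (T.h (P (nat_lit 0)) (T.h (M (nat_lit 5544913477966684487679)) (T.h (P (nat_lit 0)) (P (nat_lit 107443297016119296))))) (T.h (P (nat_lit 0)) (T.h (T.h (P (nat_lit 0)) (M (nat_lit 51337459934527487))) (P (nat_lit 0)))))) (T.h (T.h (T.h (P (nat_lit 14510347300884980999127040)) (T.h (P (nat_lit 0)) (T.h (P (nat_lit 35663318068957806592))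 (T.h (P (nat_lit 0)) (M (nat_lit 6732252487071)))))) (T.h (P (nat_lit 0)) (T.h (T.h (M (nat_lit 56693657735398424575)) (T.h (P (nat_lit 0)) (P (nat_lit 14277571269584)))) (T.h (P (nat_lit 0)) (P (nat_lit 37577714858544)))))) (T.h (T.h (P (nat_lit 0)) (T.h (T.h (P (nat_lit 0)) (P (nat_lit 788703454953472))) (P (nat_lit 0)))) (T.h (T.h (T.h (P (nat_lit 35610800256633012224)) (T.h (P (nat_lit 0)) (P (nat_lit 15366368407824)))) (T.h (P (nat_lit 0)) (P (nat_lit 29692863900784)))) (T.h (P (nat_lit 0)) (M (nat_lit 4773610931599))))))))]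
def lP12_18 : List (T ℤ) := [(T.h (T.h (T.h (P (nat_lit 0)) (T.h (M (nat_lit 25920019054726368708448485375)) (T.h (P (nat_lit 0)) (T.h (M (nat_lit 32169525483728206299135)) (T.h (P (nat_lit 0)) (M (nat_lit 18888208648962047))))))) (T.h (P (nat_lit 0)) (T.h (T.h (P (nat_lit 0)) (T.h (M (nat_lit 11270670670228105461759)) (T.h (P (nat_lit 0)) (P (nat_lit 46994885653495808))))) (T.h (P (nat_lit 0)) (T.h (T.h (P (nat_lit 0)) (M (nat_lit 58695919728099327))) (P (nat_lit 0))))))) (T.h (T.h (P (nat_lit 0)) (T.h (T.h (P (nat_lit 38096627589110099462848512)) (T.h (P (nat_lit 0)) (T.h (M (nat_lit 285020327601149837311)) (T.h (P (nat_lit 0)) (P (nat_lit 3622862751840)))))) (T.h (P (nat_lit 0)) (T.h (T.h (P (nat_lit 106594337060644978688)) (T.h (P (nat_lit 0)) (M (nat_lit 5451005508863)))) (T.h (P (nat_lit 0)) (P (nat_lit 56011950313632))))))) (T.h (T.h (T.h (P (nat_lit 0)) (T.h (M (nat_lit 27787483063106125430783)) (T.h (P (nat_lit 0)) (P (nat_lit 57081713356472320)))))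 (T.h (P (nat_lit 0)) (T.h (T.h (P (nat_lit 0)) (M (nat_lit 29192182078373887))) (P (nat_lit 0))))) (T.h (T.h (P (nat_lit 0)) (T.h (T.h (M (nat_lit 108181840819061260287)) (T.h (P (nat_lit 0)) (P (nat_lit 15157720755216)))) (T.h (P (nat_lit 0)) (M (nat_lit 28889076865151))))) (T.h (T.h (T.h (P (nat_lit 0)) (P (nat_lit 67809720250138624))) (P (nat_lit 0))) (T.h (T.h (P (nat_lit 0)) (P (nat_lit 27163896312912))) (P (nat_lit 0)))))))), (T.h (T.h (T.h (M (nat_lit 3142910377488252325730828943359)) (T.h (P (nat_lit 0)) (T.h (P (nat_lit 33691155774875871798624256)) (T.h (P (nat_lit 0)) (P (nat_lit 43612476535541334016)))))) (T.h (P (nat_lit 0)) (T.h (T.h (P (nat_lit 18536861392735411206356992)) (T.h (P (nat_lit 0)) (P (nat_lit 2844952429110231040)))) (T.h (P (nat_lit 0)) (P (nat_lit 56634526376671576064)))))) (T.h (T.h (P (nat_lit 0)) (T.h (T.h (P (nat_lit 0)) (T.h (P (nat_lit 77133057163773054287872)) (T.h (P (nat_lit 0)) (M (nat_lit 39398897938006015)))))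 (T.h (P (nat_lit 0)) (T.h (T.h (P (nat_lit 0)) (M (nat_lit 65556687411085311))) (P (nat_lit 0)))))) (T.h (T.h (T.h (P (nat_lit 33691155774875871798624256)) (T.h (P (nat_lit 0)) (M (nat_lit 71619732868914216959)))) (T.h (P (nat_lit 0)) (P (nat_lit 2844952429110231040)))) (T.h (T.h (P (nat_lit 0)) (T.h (T.h (P (nat_lit 0)) (M (nat_lit 39398897938006015))) (P (nat_lit 0)))) (P (nat_lit 43612476535541334016)))))), (P (nat_lit 0)), (T.h (T.h (P (nat_lit 0)) (T.h (T.h (P (nat_lit 5075728687560414900525203456)) (T.h (P (nat_lit 0)) (T.h (P (nat_lit 19474584951922158993408)) (T.h (P (nat_lit 0)) (M (nat_lit 17724020956954623)))))) (T.h (P (nat_lit 0)) (T.h (T.h (M (nat_lit 4975638722445056147455)) (T.h (P (nat_lit 0)) (P (nat_lit 4315555809820672)))) (T.h (P (nat_lit 0)) (P (nat_lit 15728383238602752))))))) (T.h (T.h (T.h (P (nat_lit 0)) (T.h (M (nat_lit 15188638981517575697989631)) (T.h (P (nat_lit 0)) (T.h (M (nat_lit 27117710602233970687)) (T.h (P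 (nat_lit 0)) (M (nat_lit 10644566670095))))))) (T.h (P (nat_lit 0)) (T.h (T.h (P (nat_lit 0)) (T.h (P (nat_lit 3965753984890699776)) (T.h (P (nat_lit 0)) (P (nat_lit 9557671096032))))) (T.h (P (nat_lit 0)) (T.h (T.h (P (nat_lit 0)) (M (nat_lit 3300786166367))) (P (nat_lit 0))))))) (T.h (T.h (P (nat_lit 0)) (T.h (T.h (P (nat_lit 30406151196474345521152)) (T.h (P (nat_lit 0)) (M (nat_lit 24912020807942143)))) (T.h (P (nat_lit 0)) (M (nat_lit 43971231570493439))))) (T.h (T.h (T.h (P (nat_lit 0)) (T.h (P (nat_lit 12216619188252311552)) (T.h (P (nat_lit 0)) (P (nat_lit 14947988241648))))) (T.h (P (nat_lit 0)) (T.h (T.h (P (nat_lit 0)) (P (nat_lit 253154553840))) (P (nat_lit 0))))) (T.h (T.h (P (nat_lit 0)) (P (nat_lit 31295638072459264))) (T.h (T.h (T.h (P (nat_lit 0)) (M (nat_lit 4836003780143))) (P (nat_lit 0))) (P (nat_lit 0)))))))), (T.h (T.h (P (nat_lit 0)) (T.h (T.h (P (nat_lit 0)) (T.h (M (nat_lit 34949159902444343565221887)) (T.h (P (nat_lit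 0)) (M (nat_lit 18668642047161794559))))) (T.h (P (nat_lit 0)) (T.h (T.h (P (nat_lit 0)) (P (nat_lit 130808218232064835584))) (P (nat_lit 0)))))) (T.h (T.h (T.h (P (nat_lit 3133521640352018543595749376)) (T.h (P (nat_lit 0)) (T.h (P (nat_lit 10530773426254924218368)) (T.h (P (nat_lit 0)) (P (nat_lit 25399662819524608)))))) (T.h (P (nat_lit 0)) (T.h (T.h (M (nat_lit 3848273589639705526271)) (T.h (P (nat_lit 0)) (M (nat_lit 48253519760162815)))) (T.h (P (nat_lit 0)) (M (nat_lit 107296303587655679)))))) (T.h (T.h (P (nat_lit 0)) (T.h (T.h (P (nat_lit 0)) (M (nat_lit 64795198108966322175))) (P (nat_lit 0)))) (T.h (T.h (T.h (P (nat_lit 6131544820029419683840)) (T.h (P (nat_lit 0)) (M (nat_lit 3541496266850303)))) (T.h (P (nat_lit 0)) (P (nat_lit 24755005882941440)))) (T.h (P (nat_lit 0)) (P (nat_lit 3746641894768640))))))), (P (nat_lit 0)), (T.h (T.h (T.h (M (nat_lit 848019981192476839092825358335)) (T.h (P (nat_lit 0)) (T.h (P (nat_lit 10653213847725133906575360))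 (T.h (P (nat_lit 0)) (P (nat_lit 11113978180799561728)))))) (T.h (P (nat_lit 0)) (T.h (T.h (P (nat_lit 3438041479358372487626752)) (T.h (P (nat_lit 0)) (M (nat_lit 3300389089831813119)))) (T.h (P (nat_lit 0)) (M (nat_lit 3512947433225060351)))))) (T.h (T.h (P (nat_lit 0)) (T.h (T.h (P (nat_lit 0)) (T.h (P (nat_lit 41729021910207325798400)) (T.h (P (nat_lit 0)) (M (nat_lit 8839026266406911))))) (T.h (P (nat_lit 0)) (T.h (T.h (P (nat_lit 0)) (M (nat_lit 4819333066915839))) (P (nat_lit 0)))))) (T.h (T.h (T.h (M (nat_lit 6614624667399100999663615)) (T.h (P (nat_lit 0)) (P (nat_lit 3947790254513061888)))) (T.h (P (nat_lit 0)) (M (nat_lit 19910758226580209663)))) (T.h (T.h (P (nat_lit 0)) (T.h (T.h (P (nat_lit 0)) (P (nat_lit 5405502678335488))) (P (nat_lit 0)))) (M (nat_lit 30926891337990012927)))))), (P (nat_lit 0))]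
def lP12_19 : List (T ℤ) := [(P (nat_lit 0)), (P (nat_lit 0)), (P (nat_lit 0)), (T.h (T.h (T.h (M (nat_lit 1164334401863484262811330150399)) (T.h (P (nat_lit 0)) (T.h (P (nat_lit 9265051531851398928924672)) (T.h (P (nat_lit 0)) (T.h (M (nat_lit 11159803209608855551)) (T.h (P (nat_lit 0)) (P (nat_lit 8108203548328)))))))) (T.h (P (nat_lit 0)) (T.h (T.h (P (nat_lit 372198664893944381308928)) (T.h (P (nat_lit 0)) (T.h (P (nat_lit 22335174074582433792)) (T.h (P (nat_lit 0)) (P (nat_lit 19064290302920)))))) (T.h (P (nat_lit 0)) (T.h (T.h (P (nat_lit 6661600194955575296)) (T.h (P (nat_lit 0)) (M (nat_lit 3918864575543)))) (T.h (P (nat_lit 0)) (M (nat_lit 371565128495)))))))) (T.h (T.h (P (nat_lit 0)) (T.h (T.h (P (nat_lit 0)) (T.h (P (nat_lit 2357083051524171497472)) (T.h (P (nat_lit 0)) (P (nat_lit 7665689215860736))))) (T.h (P (nat_lit 0)) (T.h (T.h (P (nat_lit 0)) (P (nat_lit 20279888687595520))) (P (nat_lit 0)))))) (T.h (T.h (T.h (P (nat_lit 13039550839244925899374592))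 (T.h (P (nat_lit 0)) (T.h (M (nat_lit 60713439406019575807)) (T.h (P (nat_lit 0)) (P (nat_lit 16356627800560)))))) (T.h (P (nat_lit 0)) (T.h (T.h (P (nat_lit 34665794117123964928)) (T.h (P (nat_lit 0)) (P (nat_lit 21785219074040)))) (T.h (P (nat_lit 0)) (M (nat_lit 641390082351)))))) (T.h (T.h (P (nat_lit 0)) (T.h (T.h (P (nat_lit 0)) (P (nat_lit 33761326754856960))) (P (nat_lit 0)))) (T.h (T.h (T.h (M (nat_lit 4862203367742504959)) (T.h (P (nat_lit 0)) (P (nat_lit 27522144590088)))) (T.h (P (nat_lit 0)) (P (nat_lit 4387130132576)))) (T.h (P (nat_lit 0)) (M (nat_lit 793339906079)))))))), (P (nat_lit 0)), (P (nat_lit 0)), (P (nat_lit 0)), (P (nat_lit 0))]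
def lP12_20 : List (T ℤ) := [(P (nat_lit 0)), (T.h (T.h (P (nat_lit 0)) (T.h (T.h (P (nat_lit 382278186225956246805020672)) (T.h (P (nat_lit 0)) (T.h (P (nat_lit 4917025952193526628352)) (T.h (P (nat_lit 0)) (P (nat_lit 566836548272128)))))) (T.h (P (nat_lit 0)) (T.h (T.h (M (nat_lit 2314989451720488124415)) (T.h (P (nat_lit 0)) (P (nat_lit 13535529003122688)))) (T.h (P (nat_lit 0)) (M (nat_lit 1940894262886399))))))) (T.h (T.h (T.h (P (nat_lit 0)) (T.h (P (nat_lit 8967851728135020949274624)) (T.h (P (nat_lit 0)) (T.h (M (nat_lit 1632295132411723775)) (T.h (P (nat_lit 0)) (M (nat_lit 1262651453183))))))) (T.h (P (nat_lit 0)) (T.h (T.h (P (nat_lit 0)) (T.h (P (nat_lit 21437333873006477312)) (T.h (P (nat_lit 0)) (P (nat_lit 7808644584816))))) (T.h (P (nat_lit 0)) (T.h (T.h (P (nat_lit 0)) (P (nat_lit 9389964963200))) (P (nat_lit 0))))))) (T.h (T.h (P (nat_lit 0)) (T.h (T.h (M (nat_lit 6393028105238678077439)) (T.h (P (nat_lit 0)) (P (nat_lit 17704818290655232))))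 (T.h (P (nat_lit 0)) (M (nat_lit 20917731012706303))))) (T.h (T.h (T.h (P (nat_lit 0)) (T.h (P (nat_lit 5808715515924840448)) (T.h (P (nat_lit 0)) (M (nat_lit 1954457784095))))) (T.h (P (nat_lit 0)) (T.h (T.h (P (nat_lit 0)) (M (nat_lit 14649144822207))) (P (nat_lit 0))))) (T.h (T.h (P (nat_lit 0)) (P (nat_lit 10182874572193792))) (T.h (T.h (T.h (P (nat_lit 0)) (M (nat_lit 6298334266991))) (P (nat_lit 0))) (P (nat_lit 0)))))))), (T.h (T.h (P (nat_lit 0)) (T.h (T.h (P (nat_lit 0)) (T.h (M (nat_lit 2858211570662914249457663)) (T.h (P (nat_lit 0)) (T.h (M (nat_lit 39930090636538019839)) (T.h (P (nat_lit 0)) (P (nat_lit 25803458348448))))))) (T.h (P (nat_lit 0)) (T.h (T.h (P (nat_lit 0)) (T.h (M (nat_lit 54058154491784462335)) (T.h (P (nat_lit 0)) (P (nat_lit 11768256252048))))) (T.h (P (nat_lit 0)) (T.h (T.h (P (nat_lit 0)) (M (nat_lit 6781650635487))) (P (nat_lit 0)))))))) (T.h (T.h (T.h (M (nat_lit 19115887475568672694582902783)) (T.h (P (nat_lit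 0)) (T.h (P (nat_lit 85118960512458391814144)) (T.h (P (nat_lit 0)) (M (nat_lit 32359182114095103)))))) (T.h (P (nat_lit 0)) (T.h (T.h (M (nat_lit 64056313824514592997375)) (T.h (P (nat_lit 0)) (M (nat_lit 29628510888820735)))) (T.h (P (nat_lit 0)) (P (nat_lit 23412225629356032)))))) (T.h (T.h (P (nat_lit 0)) (T.h (T.h (P (nat_lit 0)) (T.h (M (nat_lit 147766922694931513343)) (T.h (P (nat_lit 0)) (P (nat_lit 1839467344))))) (T.h (P (nat_lit 0)) (T.h (T.h (P (nat_lit 0)) (M (nat_lit 26292451171551))) (P (nat_lit 0)))))) (T.h (T.h (T.h (M (nat_lit 26811720497068035276799)) (T.h (P (nat_lit 0)) (M (nat_lit 11559187935428607)))) (T.h (P (nat_lit 0)) (P (nat_lit 64299719045316608)))) (T.h (T.h (P (nat_lit 0)) (T.h (T.h (P (nat_lit 0)) (P (nat_lit 41655826541488))) (P (nat_lit 0)))) (P (nat_lit 10563655094337536))))))), (T.h (T.h (P (nat_lit 0)) (T.h (T.h (P (nat_lit 18564503227159049971049693184)) (T.h (P (nat_lit 0)) (T.h (M (nat_lit 24820660371626959831039))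 (T.h (P (nat_lit 0)) (M (nat_lit 55052733830086655)))))) (T.h (P (nat_lit 0)) (T.h (T.h (P (nat_lit 66109599704970709434368)) (T.h (P (nat_lit 0)) (P (nat_lit 5089028726112256)))) (T.h (P (nat_lit 0)) (P (nat_lit 14473944873795584))))))) (T.h (T.h (T.h (P (nat_lit 0)) (T.h (M (nat_lit 41502165659964416028835839)) (T.h (P (nat_lit 0)) (T.h (M (nat_lit 35457303268831526911)) (T.h (P (nat_lit 0)) (P (nat_lit 14337066975168))))))) (T.h (P (nat_lit 0)) (T.h (T.h (P (nat_lit 0)) (T.h (P (nat_lit 7187939730510577664)) (T.h (P (nat_lit 0)) (M (nat_lit 15616341643055))))) (T.h (P (nat_lit 0)) (T.h (T.h (P (nat_lit 0)) (M (nat_lit 28206262997471))) (P (nat_lit 0))))))) (T.h (T.h (P (nat_lit 0)) (T.h (T.h (M (nat_lit 24820660371626959831039)) (T.h (P (nat_lit 0)) (M (nat_lit 113005295211544575)))) (T.h (P (nat_lit 0)) (P (nat_lit 5089028726112256))))) (T.h (T.h (T.h (P (nat_lit 0)) (T.h (M (nat_lit 35457303268831526911)) (T.h (P (nat_lit 0)) (P (nat_lit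 43766994916064))))) (T.h (P (nat_lit 0)) (T.h (T.h (P (nat_lit 0)) (M (nat_lit 15616341643055))) (P (nat_lit 0))))) (T.h (T.h (P (nat_lit 0)) (M (nat_lit 55052733830086655))) (T.h (T.h (T.h (P (nat_lit 0)) (P (nat_lit 14337066975168))) (P (nat_lit 0))) (P (nat_lit 0)))))))), (T.h (T.h (P (nat_lit 0)) (T.h (T.h (P (nat_lit 0)) (T.h (M (nat_lit 11596132456671698380390399)) (T.h (P (nat_lit 0)) (T.h (P (nat_lit 21823109804238831616)) (T.h (P (nat_lit 0)) (M (nat_lit 20165909466623))))))) (T.h (P (nat_lit 0)) (T.h (T.h (P (nat_lit 0)) (T.h (M (nat_lit 2449777188577214463)) (T.h (P (nat_lit 0)) (P (nat_lit 1434997404528))))) (T.h (P (nat_lit 0)) (T.h (T.h (P (nat_lit 0)) (P (nat_lit 8183120944368))) (P (nat_lit 0)))))))) (T.h (T.h (T.h (P (nat_lit 3816271784915021482770300928)) (T.h (P (nat_lit 0)) (T.h (M (nat_lit 11629742680612983013375)) (T.h (P (nat_lit 0)) (M (nat_lit 18534864477880319)))))) (T.h (P (nat_lit 0)) (T.h (T.h (P (nat_lit 16683404358949558812672))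 (T.h (P (nat_lit 0)) (P (nat_lit 21362749947805696)))) (T.h (P (nat_lit 0)) (P (nat_lit 5798650446217216)))))) (T.h (T.h (P (nat_lit 0)) (T.h (T.h (P (nat_lit 0)) (T.h (P (nat_lit 90875215508110573568)) (T.h (P (nat_lit 0)) (P (nat_lit 6973821289008))))) (T.h (P (nat_lit 0)) (T.h (T.h (P (nat_lit 0)) (M (nat_lit 14872495805135))) (P (nat_lit 0)))))) (T.h (T.h (T.h (P (nat_lit 21431735756132576133120)) (T.h (P (nat_lit 0)) (M (nat_lit 67844963372367871)))) (T.h (P (nat_lit 0)) (M (nat_lit 39638883541352447)))) (T.h (T.h (P (nat_lit 0)) (T.h (T.h (P (nat_lit 0)) (M (nat_lit 50297679171887))) (P (nat_lit 0)))) (P (nat_lit 8421033830252544))))))), (T.h (T.h (P (nat_lit 0)) (T.h (T.h (M (nat_lit 6099708548673304496447684607)) (T.h (P (nat_lit 0)) (T.h (P (nat_lit 39385658327280031629312)) (T.h (P (nat_lit 0)) (P (nat_lit 35543153834491904)))))) (T.h (P (nat_lit 0)) (T.h (T.h (M (nat_lit 17907237936627615531007)) (T.h (P (nat_lit 0)) (M (nat_lit 4731789076348927))))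 (T.h (P (nat_lit 0)) (P (nat_lit 840173474381824))))))) (T.h (T.h (T.h (P (nat_lit 0)) (T.h (P (nat_lit 18571853267465370509246464)) (T.h (P (nat_lit 0)) (M (nat_lit 35935822232235802623))))) (T.h (P (nat_lit 0)) (T.h (T.h (P (nat_lit 0)) (P (nat_lit 2818795405779664896))) (P (nat_lit 0))))) (T.h (T.h (P (nat_lit 0)) (T.h (T.h (M (nat_lit 914033056629670281215)) (T.h (P (nat_lit 0)) (M (nat_lit 7400423263076351)))) (T.h (P (nat_lit 0)) (M (nat_lit 10230261391294463))))) (T.h (T.h (T.h (P (nat_lit 0)) (M (nat_lit 76155881187738386431))) (P (nat_lit 0))) (T.h (T.h (P (nat_lit 0)) (P (nat_lit 25421720942116864))) (P (nat_lit 0))))))), (P (nat_lit 0)), (T.h (T.h (T.h (P (nat_lit 0)) (T.h (P (nat_lit 382278186225956246805020672)) (T.h (P (nat_lit 0)) (T.h (M (nat_lit 2314989451720488124415)) (T.h (P (nat_lit 0)) (M (nat_lit 1940894262886399))))))) (T.h (P (nat_lit 0)) (T.h (T.h (P (nat_lit 0)) (T.h (P (nat_lit 4917025952193526628352)) (T.h (P (nat_lit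 0)) (P (nat_lit 13535529003122688))))) (T.h (P (nat_lit 0)) (T.h (T.h (P (nat_lit 0)) (P (nat_lit 566836548272128))) (P (nat_lit 0))))))) (T.h (T.h (P (nat_lit 0)) (T.h (T.h (P (nat_lit 8967851728135020949274624)) (T.h (P (nat_lit 0)) (T.h (P (nat_lit 21437333873006477312)) (T.h (P (nat_lit 0)) (P (nat_lit 9389964963200)))))) (T.h (P (nat_lit 0)) (T.h (T.h (M (nat_lit 1632295132411723775)) (T.h (P (nat_lit 0)) (P (nat_lit 7808644584816)))) (T.h (P (nat_lit 0)) (M (nat_lit 1262651453183))))))) (T.h (T.h (T.h (P (nat_lit 0)) (T.h (M (nat_lit 6393028105238678077439)) (T.h (P (nat_lit 0)) (M (nat_lit 20917731012706303))))) (T.h (P (nat_lit 0)) (T.h (T.h (P (nat_lit 0)) (P (nat_lit 17704818290655232))) (P (nat_lit 0))))) (T.h (T.h (P (nat_lit 0)) (T.h (T.h (P (nat_lit 5808715515924840448)) (T.h (P (nat_lit 0)) (M (nat_lit 14649144822207)))) (T.h (P (nat_lit 0)) (M (nat_lit 1954457784095))))) (T.h (T.h (T.h (P (nat_lit 0)) (P (nat_lit 10182874572193792)))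 (P (nat_lit 0))) (T.h (T.h (P (nat_lit 0)) (M (nat_lit 6298334266991))) (P (nat_lit 0))))))))]
def lP12_21 : List (T ℤ) := [(T.h (T.h (T.h (M (nat_lit 1503172168364004390855138869247)) (T.h (P (nat_lit 0)) (T.h (M (nat_lit 7582202301507968583073791)) (T.h (P (nat_lit 0)) (T.h (M (nat_lit 14593448973210484735)) (T.h (P (nat_lit 0)) (M (nat_lit 10769115216239)))))))) (T.h (P (nat_lit 0)) (T.h (T.h (M (nat_lit 7582202301507968583073791)) (T.h (P (nat_lit 0)) (T.h (M (nat_lit 16255747095200268287)) (T.h (P (nat_lit 0)) (M (nat_lit 3612266903327)))))) (T.h (P (nat_lit 0)) (T.h (T.h (M (nat_lit 14593448973210484735)) (T.h (P (nat_lit 0)) (M (nat_lit 3612266903327)))) (T.h (P (nat_lit 0)) (M (nat_lit 10769115216239)))))))) (T.h (T.h (P (nat_lit 0)) (T.h (T.h (P (nat_lit 0)) (T.h (P (nat_lit 274307230146226213093376)) (T.h (P (nat_lit 0)) (M (nat_lit 12388027889090559))))) (T.h (P (nat_lit 0)) (T.h (T.h (P (nat_lit 0)) (M (nat_lit 12388027889090559)))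 (P (nat_lit 0)))))) (T.h (T.h (T.h (P (nat_lit 22446785841443011741876224)) (T.h (P (nat_lit 0)) (T.h (M (nat_lit 7507093324256247807)) (T.h (P (nat_lit 0)) (M (nat_lit 40932612459807)))))) (T.h (P (nat_lit 0)) (T.h (T.h (M (nat_lit 7507093324256247807)) (T.h (P (nat_lit 0)) (M (nat_lit 31479636483823)))) (T.h (P (nat_lit 0)) (M (nat_lit 40932612459807)))))) (T.h (T.h (P (nat_lit 0)) (T.h (T.h (P (nat_lit 0)) (M (nat_lit 227269238812835839))) (P (nat_lit 0)))) (T.h (T.h (T.h (P (nat_lit 19119003958807363584)) (T.h (P (nat_lit 0)) (M (nat_lit 26703330284623)))) (T.h (P (nat_lit 0)) (M (nat_lit 26703330284623)))) (T.h (P (nat_lit 0)) (P (nat_lit 2301971284304)))))))), (T.h (T.h (T.h (P (nat_lit 0)) (T.h (M (nat_lit 16519899788560389826718728191)) (T.h (P (nat_lit 0)) (T.h (M (nat_lit 38815681408239742746623)) (T.h (P (nat_lit 0)) (M (nat_lit 14922245059133439))))))) (T.h (P (nat_lit 0)) (T.h (T.h (P (nat_lit 0)) (T.h (M (nat_lit 48331781321057967800319))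 (T.h (P (nat_lit 0)) (M (nat_lit 14595071553503231))))) (T.h (P (nat_lit 0)) (T.h (T.h (P (nat_lit 0)) (P (nat_lit 22614995997048832))) (P (nat_lit 0))))))) (T.h (T.h (P (nat_lit 0)) (T.h (T.h (P (nat_lit 6361063573136040009924608)) (T.h (P (nat_lit 0)) (T.h (P (nat_lit 36912781505249411072)) (T.h (P (nat_lit 0)) (M (nat_lit 94064231272143)))))) (T.h (P (nat_lit 0)) (T.h (T.h (M (nat_lit 3114357112931614719)) (T.h (P (nat_lit 0)) (M (nat_lit 27622295623215)))) (T.h (P (nat_lit 0)) (M (nat_lit 10914695388015))))))) (T.h (T.h (T.h (P (nat_lit 0)) (T.h (M (nat_lit 20726215518357509111807)) (T.h (P (nat_lit 0)) (P (nat_lit 24872236208455680))))) (T.h (P (nat_lit 0)) (T.h (T.h (P (nat_lit 0)) (P (nat_lit 67211279446638592))) (P (nat_lit 0))))) (T.h (T.h (P (nat_lit 0)) (T.h (T.h (P (nat_lit 32547474825401073664)) (T.h (P (nat_lit 0)) (M (nat_lit 18575295500271)))) (T.h (P (nat_lit 0)) (M (nat_lit 12260400160623))))) (T.h (T.h (T.h (P (nat_lit 0))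 (P (nat_lit 53376662237773824))) (P (nat_lit 0))) (T.h (T.h (P (nat_lit 0)) (M (nat_lit 1102750372303))) (P (nat_lit 0)))))))), (T.h (T.h (T.h (P (nat_lit 3336858308950095421271779049472)) (T.h (P (nat_lit 0)) (T.h (M (nat_lit 5043467229830250282090495)) (T.h (P (nat_lit 0)) (T.h (P (nat_lit 11853962430587600896)) (T.h (P (nat_lit 0)) (M (nat_lit 4461241746719)))))))) (T.h (P (nat_lit 0)) (T.h (T.h (P (nat_lit 6077443599476861853237248)) (T.h (P (nat_lit 0)) (T.h (M (nat_lit 63461707544942084095)) (T.h (P (nat_lit 0)) (M (nat_lit 7293763681775)))))) (T.h (P (nat_lit 0)) (T.h (T.h (P (nat_lit 14906957054039031808)) (T.h (P (nat_lit 0)) (P (nat_lit 2739632443776)))) (T.h (P (nat_lit 0)) (P (nat_lit 14587027637568)))))))) (T.h (T.h (P (nat_lit 0)) (T.h (T.h (P (nat_lit 0)) (T.h (M (nat_lit 161835331611143606108159)) (T.h (P (nat_lit 0)) (P (nat_lit 77702433258799104))))) (T.h (P (nat_lit 0)) (T.h (T.h (P (nat_lit 0)) (P (nat_lit 135200626355732480)))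 (P (nat_lit 0)))))) (T.h (T.h (T.h (M (nat_lit 5043467229830250282090495)) (T.h (P (nat_lit 0)) (T.h (P (nat_lit 55845177334473687040)) (T.h (P (nat_lit 0)) (P (nat_lit 13242663900912)))))) (T.h (P (nat_lit 0)) (T.h (T.h (M (nat_lit 63461707544942084095)) (T.h (P (nat_lit 0)) (P (nat_lit 39429664002528)))) (T.h (P (nat_lit 0)) (P (nat_lit 2739632443776)))))) (T.h (T.h (P (nat_lit 0)) (T.h (T.h (P (nat_lit 0)) (P (nat_lit 77702433258799104))) (P (nat_lit 0)))) (T.h (T.h (T.h (P (nat_lit 11853962430587600896)) (T.h (P (nat_lit 0)) (P (nat_lit 13242663900912)))) (T.h (P (nat_lit 0)) (M (nat_lit 7293763681775)))) (T.h (P (nat_lit 0)) (M (nat_lit 4461241746719)))))))), (T.h (T.h (T.h (P (nat_lit 0)) (T.h (P (nat_lit 21382294463452524082142117888)) (T.h (P (nat_lit 0)) (T.h (M (nat_lit 8429021893482116022271)) (T.h (P (nat_lit 0)) (M (nat_lit 3098825511829503))))))) (T.h (P (nat_lit 0)) (T.h (T.h (P (nat_lit 0)) (T.h (P (nat_lit 55308368152604113371136))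 (T.h (P (nat_lit 0)) (P (nat_lit 10349591218307072))))) (T.h (P (nat_lit 0)) (T.h (T.h (P (nat_lit 0)) (M (nat_lit 17072719312633855))) (P (nat_lit 0))))))) (T.h (T.h (P (nat_lit 0)) (T.h (T.h (P (nat_lit 11364634751436504396988416)) (T.h (P (nat_lit 0)) (P (nat_lit 72630611916194054144)))) (T.h (P (nat_lit 0)) (M (nat_lit 42786273065835692031))))) (T.h (T.h (T.h (P (nat_lit 0)) (T.h (M (nat_lit 5119974003336856731647)) (T.h (P (nat_lit 0)) (P (nat_lit 9121366597222400))))) (T.h (P (nat_lit 0)) (T.h (T.h (P (nat_lit 0)) (M (nat_lit 27209387641274367))) (P (nat_lit 0))))) (T.h (T.h (P (nat_lit 0)) (M (nat_lit 39642309639526154239))) (T.h (T.h (T.h (P (nat_lit 0)) (M (nat_lit 38231767106387967))) (P (nat_lit 0))) (P (nat_lit 0))))))), (P (nat_lit 0)), (T.h (T.h (P (nat_lit 0)) (T.h (T.h (P (nat_lit 0)) (T.h (M (nat_lit 2858211570662914249457663)) (T.h (P (nat_lit 0)) (T.h (M (nat_lit 54058154491784462335)) (T.h (P (nat_lit 0)) (M (nat_lit 6781650635487)))))))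 (T.h (P (nat_lit 0)) (T.h (T.h (P (nat_lit 0)) (T.h (M (nat_lit 39930090636538019839)) (T.h (P (nat_lit 0)) (P (nat_lit 11768256252048))))) (T.h (P (nat_lit 0)) (T.h (T.h (P (nat_lit 0)) (P (nat_lit 25803458348448))) (P (nat_lit 0)))))))) (T.h (T.h (T.h (M (nat_lit 19115887475568672694582902783)) (T.h (P (nat_lit 0)) (T.h (M (nat_lit 64056313824514592997375)) (T.h (P (nat_lit 0)) (P (nat_lit 23412225629356032)))))) (T.h (P (nat_lit 0)) (T.h (T.h (P (nat_lit 85118960512458391814144)) (T.h (P (nat_lit 0)) (M (nat_lit 29628510888820735)))) (T.h (P (nat_lit 0)) (M (nat_lit 32359182114095103)))))) (T.h (T.h (P (nat_lit 0)) (T.h (T.h (P (nat_lit 0)) (T.h (M (nat_lit 147766922694931513343)) (T.h (P (nat_lit 0)) (M (nat_lit 26292451171551))))) (T.h (P (nat_lit 0)) (T.h (T.h (P (nat_lit 0)) (P (nat_lit 1839467344))) (P (nat_lit 0)))))) (T.h (T.h (T.h (M (nat_lit 26811720497068035276799)) (T.h (P (nat_lit 0)) (P (nat_lit 64299719045316608)))) (T.h (P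 (nat_lit 0)) (M (nat_lit 11559187935428607)))) (T.h (T.h (P (nat_lit 0)) (T.h (T.h (P (nat_lit 0)) (P (nat_lit 41655826541488))) (P (nat_lit 0)))) (P (nat_lit 10563655094337536))))))), (T.h (T.h (P (nat_lit 0)) (T.h (T.h (M (nat_lit 16519899788560389826718728191)) (T.h (P (nat_lit 0)) (T.h (M (nat_lit 48331781321057967800319)) (T.h (P (nat_lit 0)) (P (nat_lit 22614995997048832)))))) (T.h (P (nat_lit 0)) (T.h (T.h (M (nat_lit 38815681408239742746623)) (T.h (P (nat_lit 0)) (M (nat_lit 14595071553503231)))) (T.h (P (nat_lit 0)) (M (nat_lit 14922245059133439))))))) (T.h (T.h (T.h (P (nat_lit 0)) (T.h (P (nat_lit 6361063573136040009924608)) (T.h (P (nat_lit 0)) (T.h (M (nat_lit 3114357112931614719)) (T.h (P (nat_lit 0)) (M (nat_lit 10914695388015))))))) (T.h (P (nat_lit 0)) (T.h (T.h (P (nat_lit 0)) (T.h (P (nat_lit 36912781505249411072)) (T.h (P (nat_lit 0)) (M (nat_lit 27622295623215))))) (T.h (P (nat_lit 0)) (T.h (T.h (P (nat_lit 0)) (M (nat_lit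 94064231272143))) (P (nat_lit 0))))))) (T.h (T.h (P (nat_lit 0)) (T.h (T.h (M (nat_lit 20726215518357509111807)) (T.h (P (nat_lit 0)) (P (nat_lit 67211279446638592)))) (T.h (P (nat_lit 0)) (P (nat_lit 24872236208455680))))) (T.h (T.h (T.h (P (nat_lit 0)) (T.h (P (nat_lit 32547474825401073664)) (T.h (P (nat_lit 0)) (M (nat_lit 12260400160623))))) (T.h (P (nat_lit 0)) (T.h (T.h (P (nat_lit 0)) (M (nat_lit 18575295500271))) (P (nat_lit 0))))) (T.h (T.h (P (nat_lit 0)) (P (nat_lit 53376662237773824))) (T.h (T.h (T.h (P (nat_lit 0)) (M (nat_lit 1102750372303))) (P (nat_lit 0))) (P (nat_lit 0)))))))), (T.h (T.h (P (nat_lit 0)) (T.h (T.h (P (nat_lit 0)) (T.h (P (nat_lit 27231063425483709475717120)) (T.h (P (nat_lit 0)) (T.h (M (nat_lit 62278136011518115839)) (T.h (P (nat_lit 0)) (P (nat_lit 2478283122528))))))) (T.h (P (nat_lit 0)) (T.h (T.h (P (nat_lit 0)) (T.h (M (nat_lit 62278136011518115839)) (T.h (P (nat_lit 0)) (P (nat_lit 877720705344))))) (T.h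 (P (nat_lit 0)) (T.h (T.h (P (nat_lit 0)) (P (nat_lit 2478283122528))) (P (nat_lit 0)))))))) (T.h (T.h (T.h (P (nat_lit 14713160722995392810116448256)) (T.h (P (nat_lit 0)) (T.h (M (nat_lit 32353138597883205910527)) (T.h (P (nat_lit 0)) (P (nat_lit 1733271131717632)))))) (T.h (P (nat_lit 0)) (T.h (T.h (M (nat_lit 32353138597883205910527)) (T.h (P (nat_lit 0)) (P (nat_lit 22100207788425216)))) (T.h (P (nat_lit 0)) (P (nat_lit 1733271131717632)))))) (T.h (T.h (P (nat_lit 0)) (T.h (T.h (P (nat_lit 0)) (T.h (P (nat_lit 113195102568007598080)) (T.h (P (nat_lit 0)) (P (nat_lit 35309783142480))))) (T.h (P (nat_lit 0)) (T.h (T.h (P (nat_lit 0)) (P (nat_lit 35309783142480))) (P (nat_lit 0)))))) (T.h (T.h (T.h (M (nat_lit 44929290853859391963135)) (T.h (P (nat_lit 0)) (P (nat_lit 46068131674587136)))) (T.h (P (nat_lit 0)) (P (nat_lit 46068131674587136)))) (T.h (T.h (P (nat_lit 0)) (T.h (T.h (P (nat_lit 0)) (P (nat_lit 53466157421280))) (P (nat_lit 0))))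 (M (nat_lit 23508115147128831)))))))]
def lP12_22 : List (T ℤ) := [(T.h (T.h (P (nat_lit 0)) (T.h (T.h (M (nat_lit 10143313764801585540136697855)) (T.h (P (nat_lit 0)) (T.h (M (nat_lit 11717009930323488669695)) (T.h (P (nat_lit 0)) (M (nat_lit 17500175588818943)))))) (T.h (P (nat_lit 0)) (T.h (T.h (M (nat_lit 45359257570254440628223)) (T.h (P (nat_lit 0)) (M (nat_lit 16691703478140927)))) (T.h (P (nat_lit 0)) (M (nat_lit 31566073880051711))))))) (T.h (T.h (T.h (P (nat_lit 0)) (T.h (P (nat_lit 8003037340627921316872192)) (T.h (P (nat_lit 0)) (P (nat_lit 111705972701661233152))))) (T.h (P (nat_lit 0)) (T.h (T.h (P (nat_lit 0)) (M (nat_lit 26010462300483354623))) (P (nat_lit 0))))) (T.h (T.h (P (nat_lit 0)) (T.h (T.h (M (nat_lit 11717009930323488669695)) (T.h (P (nat_lit 0)) (M (nat_lit 99231753168191487)))) (T.h (P (nat_lit 0)) (M (nat_lit 16691703478140927))))) (T.h (T.h (T.h (P (nat_lit 0)) (P (nat_lit 111705972701661233152))) (P (nat_lit 0)))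 (T.h (T.h (P (nat_lit 0)) (M (nat_lit 17500175588818943))) (P (nat_lit 0))))))), (T.h (T.h (T.h (M (nat_lit 1164334401863484262811330150399)) (T.h (P (nat_lit 0)) (T.h (P (nat_lit 372198664893944381308928)) (T.h (P (nat_lit 0)) (T.h (P (nat_lit 6661600194955575296)) (T.h (P (nat_lit 0)) (M (nat_lit 371565128495)))))))) (T.h (P (nat_lit 0)) (T.h (T.h (P (nat_lit 9265051531851398928924672)) (T.h (P (nat_lit 0)) (T.h (P (nat_lit 22335174074582433792)) (T.h (P (nat_lit 0)) (M (nat_lit 3918864575543)))))) (T.h (P (nat_lit 0)) (T.h (T.h (M (nat_lit 11159803209608855551)) (T.h (P (nat_lit 0)) (P (nat_lit 19064290302920)))) (T.h (P (nat_lit 0)) (P (nat_lit 8108203548328)))))))) (T.h (T.h (P (nat_lit 0)) (T.h (T.h (P (nat_lit 0)) (T.h (P (nat_lit 2357083051524171497472)) (T.h (P (nat_lit 0)) (P (nat_lit 20279888687595520))))) (T.h (P (nat_lit 0)) (T.h (T.h (P (nat_lit 0)) (P (nat_lit 7665689215860736))) (P (nat_lit 0)))))) (T.h (T.h (T.h (P (nat_lit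 13039550839244925899374592)) (T.h (P (nat_lit 0)) (T.h (P (nat_lit 34665794117123964928)) (T.h (P (nat_lit 0)) (M (nat_lit 641390082351)))))) (T.h (P (nat_lit 0)) (T.h (T.h (M (nat_lit 60713439406019575807)) (T.h (P (nat_lit 0)) (P (nat_lit 21785219074040)))) (T.h (P (nat_lit 0)) (P (nat_lit 16356627800560)))))) (T.h (T.h (P (nat_lit 0)) (T.h (T.h (P (nat_lit 0)) (P (nat_lit 33761326754856960))) (P (nat_lit 0)))) (T.h (T.h (T.h (M (nat_lit 4862203367742504959)) (T.h (P (nat_lit 0)) (P (nat_lit 4387130132576)))) (T.h (P (nat_lit 0)) (P (nat_lit 27522144590088)))) (T.h (P (nat_lit 0)) (M (nat_lit 793339906079)))))))), (T.h (T.h (T.h (P (nat_lit 0)) (T.h (P (nat_lit 18564503227159049971049693184)) (T.h (P (nat_lit 0)) (T.h (P (nat_lit 66109599704970709434368)) (T.h (P (nat_lit 0)) (P (nat_lit 14473944873795584))))))) (T.h (P (nat_lit 0)) (T.h (T.h (P (nat_lit 0)) (T.h (M (nat_lit 24820660371626959831039)) (T.h (P (nat_lit 0)) (P (nat_lit 5089028726112256)))))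 (T.h (P (nat_lit 0)) (T.h (T.h (P (nat_lit 0)) (M (nat_lit 55052733830086655))) (P (nat_lit 0))))))) (T.h (T.h (P (nat_lit 0)) (T.h (T.h (M (nat_lit 41502165659964416028835839)) (T.h (P (nat_lit 0)) (T.h (P (nat_lit 7187939730510577664)) (T.h (P (nat_lit 0)) (M (nat_lit 28206262997471)))))) (T.h (P (nat_lit 0)) (T.h (T.h (M (nat_lit 35457303268831526911)) (T.h (P (nat_lit 0)) (M (nat_lit 15616341643055)))) (T.h (P (nat_lit 0)) (P (nat_lit 14337066975168))))))) (T.h (T.h (T.h (P (nat_lit 0)) (T.h (M (nat_lit 24820660371626959831039)) (T.h (P (nat_lit 0)) (P (nat_lit 5089028726112256))))) (T.h (P (nat_lit 0)) (T.h (T.h (P (nat_lit 0)) (M (nat_lit 113005295211544575))) (P (nat_lit 0))))) (T.h (T.h (P (nat_lit 0)) (T.h (T.h (M (nat_lit 35457303268831526911)) (T.h (P (nat_lit 0)) (M (nat_lit 15616341643055)))) (T.h (P (nat_lit 0)) (P (nat_lit 43766994916064))))) (T.h (T.h (T.h (P (nat_lit 0)) (M (nat_lit 55052733830086655))) (P (nat_lit 0))) (T.h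 (T.h (P (nat_lit 0)) (P (nat_lit 14337066975168))) (P (nat_lit 0)))))))), (T.h (T.h (T.h (P (nat_lit 3336858308950095421271779049472)) (T.h (P (nat_lit 0)) (T.h (P (nat_lit 6077443599476861853237248)) (T.h (P (nat_lit 0)) (T.h (P (nat_lit 14906957054039031808)) (T.h (P (nat_lit 0)) (P (nat_lit 14587027637568)))))))) (T.h (P (nat_lit 0)) (T.h (T.h (M (nat_lit 5043467229830250282090495)) (T.h (P (nat_lit 0)) (T.h (M (nat_lit 63461707544942084095)) (T.h (P (nat_lit 0)) (P (nat_lit 2739632443776)))))) (T.h (P (nat_lit 0)) (T.h (T.h (P (nat_lit 11853962430587600896)) (T.h (P (nat_lit 0)) (M (nat_lit 7293763681775)))) (T.h (P (nat_lit 0)) (M (nat_lit 4461241746719)))))))) (T.h (T.h (P (nat_lit 0)) (T.h (T.h (P (nat_lit 0)) (T.h (M (nat_lit 161835331611143606108159)) (T.h (P (nat_lit 0)) (P (nat_lit 135200626355732480))))) (T.h (P (nat_lit 0)) (T.h (T.h (P (nat_lit 0)) (P (nat_lit 77702433258799104))) (P (nat_lit 0)))))) (T.h (T.h (T.h (M (nat_lit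 5043467229830250282090495)) (T.h (P (nat_lit 0)) (T.h (M (nat_lit 63461707544942084095)) (T.h (P (nat_lit 0)) (P (nat_lit 2739632443776)))))) (T.h (P (nat_lit 0)) (T.h (T.h (P (nat_lit 55845177334473687040)) (T.h (P (nat_lit 0)) (P (nat_lit 39429664002528)))) (T.h (P (nat_lit 0)) (P (nat_lit 13242663900912)))))) (T.h (T.h (P (nat_lit 0)) (T.h (T.h (P (nat_lit 0)) (P (nat_lit 77702433258799104))) (P (nat_lit 0)))) (T.h (T.h (T.h (P (nat_lit 11853962430587600896)) (T.h (P (nat_lit 0)) (M (nat_lit 7293763681775)))) (T.h (P (nat_lit 0)) (P (nat_lit 13242663900912)))) (T.h (P (nat_lit 0)) (M (nat_lit 4461241746719)))))))), (T.h (T.h (T.h (P (nat_lit 0)) (T.h (M (nat_lit 10143313764801585540136697855)) (T.h (P (nat_lit 0)) (T.h (M (nat_lit 45359257570254440628223)) (T.h (P (nat_lit 0)) (M (nat_lit 31566073880051711))))))) (T.h (P (nat_lit 0)) (T.h (T.h (P (nat_lit 0)) (T.h (M (nat_lit 11717009930323488669695)) (T.h (P (nat_lit 0)) (M (nat_lit 16691703478140927)))))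 (T.h (P (nat_lit 0)) (T.h (T.h (P (nat_lit 0)) (M (nat_lit 17500175588818943))) (P (nat_lit 0))))))) (T.h (T.h (P (nat_lit 0)) (T.h (T.h (P (nat_lit 8003037340627921316872192)) (T.h (P (nat_lit 0)) (M (nat_lit 26010462300483354623)))) (T.h (P (nat_lit 0)) (P (nat_lit 111705972701661233152))))) (T.h (T.h (T.h (P (nat_lit 0)) (T.h (M (nat_lit 11717009930323488669695)) (T.h (P (nat_lit 0)) (M (nat_lit 16691703478140927))))) (T.h (P (nat_lit 0)) (T.h (T.h (P (nat_lit 0)) (M (nat_lit 99231753168191487))) (P (nat_lit 0))))) (T.h (T.h (P (nat_lit 0)) (P (nat_lit 111705972701661233152))) (T.h (T.h (T.h (P (nat_lit 0)) (M (nat_lit 17500175588818943))) (P (nat_lit 0))) (P (nat_lit 0))))))), (P (nat_lit 0)), (T.h (T.h (P (nat_lit 0)) (T.h (T.h (P (nat_lit 0)) (T.h (M (nat_lit 11596132456671698380390399)) (T.h (P (nat_lit 0)) (T.h (M (nat_lit 2449777188577214463)) (T.h (P (nat_lit 0)) (P (nat_lit 8183120944368))))))) (T.h (P (nat_lit 0)) (T.h (T.h (P (nat_lit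 0)) (T.h (P (nat_lit 21823109804238831616)) (T.h (P (nat_lit 0)) (P (nat_lit 1434997404528))))) (T.h (P (nat_lit 0)) (T.h (T.h (P (nat_lit 0)) (M (nat_lit 20165909466623))) (P (nat_lit 0)))))))) (T.h (T.h (T.h (P (nat_lit 3816271784915021482770300928)) (T.h (P (nat_lit 0)) (T.h (P (nat_lit 16683404358949558812672)) (T.h (P (nat_lit 0)) (P (nat_lit 5798650446217216)))))) (T.h (P (nat_lit 0)) (T.h (T.h (M (nat_lit 11629742680612983013375)) (T.h (P (nat_lit 0)) (P (nat_lit 21362749947805696)))) (T.h (P (nat_lit 0)) (M (nat_lit 18534864477880319)))))) (T.h (T.h (P (nat_lit 0)) (T.h (T.h (P (nat_lit 0)) (T.h (P (nat_lit 90875215508110573568)) (T.h (P (nat_lit 0)) (M (nat_lit 14872495805135))))) (T.h (P (nat_lit 0)) (T.h (T.h (P (nat_lit 0)) (P (nat_lit 6973821289008))) (P (nat_lit 0)))))) (T.h (T.h (T.h (P (nat_lit 21431735756132576133120)) (T.h (P (nat_lit 0)) (M (nat_lit 39638883541352447)))) (T.h (P (nat_lit 0)) (M (nat_lit 67844963372367871))))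 (T.h (T.h (P (nat_lit 0)) (T.h (T.h (P (nat_lit 0)) (M (nat_lit 50297679171887))) (P (nat_lit 0)))) (P (nat_lit 8421033830252544))))))), (T.h (T.h (P (nat_lit 0)) (T.h (T.h (P (nat_lit 21382294463452524082142117888)) (T.h (P (nat_lit 0)) (T.h (P (nat_lit 55308368152604113371136)) (T.h (P (nat_lit 0)) (M (nat_lit 17072719312633855)))))) (T.h (P (nat_lit 0)) (T.h (T.h (M (nat_lit 8429021893482116022271)) (T.h (P (nat_lit 0)) (P (nat_lit 10349591218307072)))) (T.h (P (nat_lit 0)) (M (nat_lit 3098825511829503))))))) (T.h (T.h (T.h (P (nat_lit 0)) (T.h (P (nat_lit 11364634751436504396988416)) (T.h (P (nat_lit 0)) (M (nat_lit 42786273065835692031))))) (T.h (P (nat_lit 0)) (T.h (T.h (P (nat_lit 0)) (P (nat_lit 72630611916194054144))) (P (nat_lit 0))))) (T.h (T.h (P (nat_lit 0)) (T.h (T.h (M (nat_lit 5119974003336856731647)) (T.h (P (nat_lit 0)) (M (nat_lit 27209387641274367)))) (T.h (P (nat_lit 0)) (P (nat_lit 9121366597222400))))) (T.h (T.h (T.h (P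 (nat_lit 0)) (M (nat_lit 39642309639526154239))) (P (nat_lit 0))) (T.h (T.h (P (nat_lit 0)) (M (nat_lit 38231767106387967))) (P (nat_lit 0)))))))]
def lP12_23 : List (T ℤ) := [(P (nat_lit 0)), (T.h (T.h (T.h (P (nat_lit 0)) (T.h (M (nat_lit 6099708548673304496447684607)) (T.h (P (nat_lit 0)) (T.h (M (nat_lit 17907237936627615531007)) (T.h (P (nat_lit 0)) (P (nat_lit 840173474381824))))))) (T.h (P (nat_lit 0)) (T.h (T.h (P (nat_lit 0)) (T.h (P (nat_lit 39385658327280031629312)) (T.h (P (nat_lit 0)) (M (nat_lit 4731789076348927))))) (T.h (P (nat_lit 0)) (T.h (T.h (P (nat_lit 0)) (P (nat_lit 35543153834491904))) (P (nat_lit 0))))))) (T.h (T.h (P (nat_lit 0)) (T.h (T.h (P (nat_lit 18571853267465370509246464)) (T.h (P (nat_lit 0)) (P (nat_lit 2818795405779664896)))) (T.h (P (nat_lit 0)) (M (nat_lit 35935822232235802623))))) (T.h (T.h (T.h (P (nat_lit 0)) (T.h (M (nat_lit 914033056629670281215)) (T.h (P (nat_lit 0)) (M (nat_lit 10230261391294463)))))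 (T.h (P (nat_lit 0)) (T.h (T.h (P (nat_lit 0)) (M (nat_lit 7400423263076351))) (P (nat_lit 0))))) (T.h (T.h (P (nat_lit 0)) (M (nat_lit 76155881187738386431))) (T.h (T.h (T.h (P (nat_lit 0)) (P (nat_lit 25421720942116864))) (P (nat_lit 0))) (P (nat_lit 0))))))), (P (nat_lit 0)), (P (nat_lit 0)), (P (nat_lit 0)), (P (nat_lit 0)), (T.h (T.h (P (nat_lit 0)) (T.h (T.h (P (nat_lit 0)) (T.h (P (nat_lit 0)) (T.h (P (nat_lit 499840977208352964608)) (T.h (P (nat_lit 0)) (M (nat_lit 11369866985209855)))))) (T.h (P (nat_lit 0)) (T.h (T.h (P (nat_lit 0)) (T.h (P (nat_lit 0)) (M (nat_lit 1813996553764863)))) (P (nat_lit 0)))))) (T.h (T.h (T.h (P (nat_lit 0)) (T.h (P (nat_lit 0)) (T.h (P (nat_lit 0)) (T.h (P (nat_lit 50334826334854840320)) (T.h (P (nat_lit 0)) (P (nat_lit 10683989665664))))))) (T.h (P (nat_lit 0)) (T.h (T.h (P (nat_lit 0)) (T.h (P (nat_lit 0)) (T.h (P (nat_lit 0)) (M (nat_lit 17071918816231))))) (P (nat_lit 0))))) (T.h (T.h (P (nat_lit 0))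 (T.h (M (nat_lit 499840977208352964607)) (T.h (P (nat_lit 0)) (P (nat_lit 1813996553764864))))) (T.h (T.h (T.h (P (nat_lit 0)) (M (nat_lit 50334826334854840319))) (T.h (P (nat_lit 0)) (T.h (T.h (P (nat_lit 0)) (P (nat_lit 17071918816232))) (P (nat_lit 0))))) (T.h (T.h (P (nat_lit 0)) (P (nat_lit 11369866985209856))) (T.h (T.h (T.h (P (nat_lit 0)) (M (nat_lit 10683989665663))) (P (nat_lit 0))) (P (nat_lit 0)))))))), (P (nat_lit 0))]
def lP12_24 : List (T ℤ) := [(P (nat_lit 0)), (P (nat_lit 0)), (P (nat_lit 0)), (T.h (T.h (T.h (M (nat_lit 128120900552666237134832664575)) (T.h (P (nat_lit 0)) (T.h (M (nat_lit 374856245789455152054271)) (T.h (P (nat_lit 0)) (T.h (M (nat_lit 3158064110562705407)) (T.h (P (nat_lit 0)) (P (nat_lit 1380574505568)))))))) (T.h (P (nat_lit 0)) (T.h (T.h (M (nat_lit 374856245789455152054271)) (T.h (P (nat_lit 0)) (T.h (M (nat_lit 1706496107061706751)) (T.h (P (nat_lit 0)) (P (nat_lit 1184705075472)))))) (T.h (P (nat_lit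 0)) (T.h (T.h (M (nat_lit 3158064110562705407)) (T.h (P (nat_lit 0)) (P (nat_lit 1184705075472)))) (T.h (P (nat_lit 0)) (P (nat_lit 1380574505568)))))))) (T.h (T.h (P (nat_lit 0)) (T.h (T.h (P (nat_lit 0)) (T.h (M (nat_lit 1980045858969294471167)) (T.h (P (nat_lit 0)) (P (nat_lit 2866966031630336))))) (T.h (P (nat_lit 0)) (T.h (T.h (P (nat_lit 0)) (P (nat_lit 2866966031630336))) (P (nat_lit 0)))))) (T.h (T.h (T.h (P (nat_lit 244345310791578333216768)) (T.h (P (nat_lit 0)) (T.h (M (nat_lit 1937253098095378431)) (T.h (P (nat_lit 0)) (P (nat_lit 2707914055472)))))) (T.h (P (nat_lit 0)) (T.h (T.h (M (nat_lit 1937253098095378431)) (T.h (P (nat_lit 0)) (P (nat_lit 4438957717760)))) (T.h (P (nat_lit 0)) (P (nat_lit 2707914055472)))))) (T.h (T.h (P (nat_lit 0)) (T.h (T.h (P (nat_lit 0)) (P (nat_lit 3795046400131072))) (P (nat_lit 0)))) (T.h (T.h (T.h (P (nat_lit 622944617486090240)) (T.h (P (nat_lit 0)) (P (nat_lit 3986189105440)))) (T.h (P (nat_lit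 0)) (P (nat_lit 3986189105440)))) (T.h (P (nat_lit 0)) (M (nat_lit 2463187883231)))))))), (T.h (T.h (T.h (P (nat_lit 0)) (T.h (P (nat_lit 12539932952570959200560087040)) (T.h (P (nat_lit 0)) (T.h (M (nat_lit 3316277322034398101503)) (T.h (P (nat_lit 0)) (M (nat_lit 6985812048609279))))))) (T.h (P (nat_lit 0)) (T.h (T.h (P (nat_lit 0)) (T.h (P (nat_lit 36422669662533734891520)) (T.h (P (nat_lit 0)) (P (nat_lit 36745816222072832))))) (T.h (P (nat_lit 0)) (T.h (T.h (P (nat_lit 0)) (M (nat_lit 24336275434504191))) (P (nat_lit 0))))))) (T.h (T.h (P (nat_lit 0)) (T.h (T.h (P (nat_lit 6500969733028952435326976)) (T.h (P (nat_lit 0)) (T.h (M (nat_lit 59540206603248599039)) (T.h (P (nat_lit 0)) (P (nat_lit 39683656271632)))))) (T.h (P (nat_lit 0)) (T.h (T.h (M (nat_lit 1757356174686027775)) (T.h (P (nat_lit 0)) (P (nat_lit 22404607986728)))) (T.h (P (nat_lit 0)) (M (nat_lit 16380495890711))))))) (T.h (T.h (T.h (P (nat_lit 0)) (T.h (M (nat_lit 17847716994785432567807))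 (T.h (P (nat_lit 0)) (P (nat_lit 82263489873543168))))) (T.h (P (nat_lit 0)) (T.h (T.h (P (nat_lit 0)) (P (nat_lit 70092186250412032))) (P (nat_lit 0))))) (T.h (T.h (P (nat_lit 0)) (T.h (T.h (M (nat_lit 52274040409388220415)) (T.h (P (nat_lit 0)) (P (nat_lit 17192011651296)))) (T.h (P (nat_lit 0)) (M (nat_lit 22340509663159))))) (T.h (T.h (T.h (P (nat_lit 0)) (P (nat_lit 38756986274840576))) (P (nat_lit 0))) (T.h (T.h (P (nat_lit 0)) (P (nat_lit 1015396828560))) (P (nat_lit 0)))))))), (T.h (T.h (T.h (P (nat_lit 8547243003319011634805544583168)) (T.h (P (nat_lit 0)) (T.h (P (nat_lit 14510347300884980999127040)) (T.h (P (nat_lit 0)) (T.h (P (nat_lit 35610800256633012224)) (T.h (P (nat_lit 0)) (M (nat_lit 4773610931599)))))))) (T.h (P (nat_lit 0)) (T.h (T.h (M (nat_lit 15586726180167793191682047)) (T.h (P (nat_lit 0)) (T.h (P (nat_lit 35663318068957806592)) (T.h (P (nat_lit 0)) (P (nat_lit 15366368407824)))))) (T.h (P (nat_lit 0)) (T.h (T.h (M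 (nat_lit 25082296066384068607)) (T.h (P (nat_lit 0)) (M (nat_lit 6732252487071)))) (T.h (P (nat_lit 0)) (M (nat_lit 1807611555343)))))))) (T.h (T.h (P (nat_lit 0)) (T.h (T.h (P (nat_lit 0)) (T.h (M (nat_lit 5544913477966684487679)) (T.h (P (nat_lit 0)) (P (nat_lit 788703454953472))))) (T.h (P (nat_lit 0)) (T.h (T.h (P (nat_lit 0)) (P (nat_lit 107443297016119296))) (P (nat_lit 0)))))) (T.h (T.h (T.h (M (nat_lit 10074423422740968400486399)) (T.h (P (nat_lit 0)) (T.h (M (nat_lit 56693657735398424575)) (T.h (P (nat_lit 0)) (P (nat_lit 29692863900784)))))) (T.h (P (nat_lit 0)) (T.h (T.h (P (nat_lit 14865489118221041664)) (T.h (P (nat_lit 0)) (P (nat_lit 14277571269584)))) (T.h (P (nat_lit 0)) (M (nat_lit 8671366263727)))))) (T.h (T.h (P (nat_lit 0)) (T.h (T.h (P (nat_lit 0)) (M (nat_lit 51337459934527487))) (P (nat_lit 0)))) (T.h (T.h (T.h (P (nat_lit 2900983089347952640)) (T.h (P (nat_lit 0)) (P (nat_lit 37577714858544)))) (T.h (P (nat_lit 0)) (M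 (nat_lit 16452623026111)))) (T.h (P (nat_lit 0)) (M (nat_lit 8507132336751)))))))), (T.h (T.h (T.h (P (nat_lit 0)) (T.h (P (nat_lit 3816271784915021482770300928)) (T.h (P (nat_lit 0)) (T.h (P (nat_lit 21431735756132576133120)) (T.h (P (nat_lit 0)) (P (nat_lit 8421033830252544))))))) (T.h (P (nat_lit 0)) (T.h (T.h (P (nat_lit 0)) (T.h (P (nat_lit 16683404358949558812672)) (T.h (P (nat_lit 0)) (M (nat_lit 39638883541352447))))) (T.h (P (nat_lit 0)) (T.h (T.h (P (nat_lit 0)) (P (nat_lit 5798650446217216))) (P (nat_lit 0))))))) (T.h (T.h (P (nat_lit 0)) (T.h (T.h (M (nat_lit 11596132456671698380390399)) (T.h (P (nat_lit 0)) (T.h (P (nat_lit 90875215508110573568)) (T.h (P (nat_lit 0)) (M (nat_lit 50297679171887)))))) (T.h (P (nat_lit 0)) (T.h (T.h (M (nat_lit 2449777188577214463)) (T.h (P (nat_lit 0)) (M (nat_lit 14872495805135)))) (T.h (P (nat_lit 0)) (P (nat_lit 8183120944368))))))) (T.h (T.h (T.h (P (nat_lit 0)) (T.h (M (nat_lit 11629742680612983013375))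 (T.h (P (nat_lit 0)) (M (nat_lit 67844963372367871))))) (T.h (P (nat_lit 0)) (T.h (T.h (P (nat_lit 0)) (P (nat_lit 21362749947805696))) (P (nat_lit 0))))) (T.h (T.h (P (nat_lit 0)) (T.h (T.h (P (nat_lit 21823109804238831616)) (T.h (P (nat_lit 0)) (P (nat_lit 6973821289008)))) (T.h (P (nat_lit 0)) (P (nat_lit 1434997404528))))) (T.h (T.h (T.h (P (nat_lit 0)) (M (nat_lit 18534864477880319))) (P (nat_lit 0))) (T.h (T.h (P (nat_lit 0)) (M (nat_lit 20165909466623))) (P (nat_lit 0)))))))), (T.h (T.h (T.h (P (nat_lit 984195350018325543104137920512)) (T.h (P (nat_lit 0)) (T.h (M (nat_lit 15230894307888454317375487)) (T.h (P (nat_lit 0)) (M (nat_lit 15566893289482223615)))))) (T.h (P (nat_lit 0)) (T.h (T.h (M (nat_lit 353537135146806275997695)) (T.h (P (nat_lit 0)) (P (nat_lit 21389219787958124544)))) (T.h (P (nat_lit 0)) (P (nat_lit 4364305523307184128)))))) (T.h (T.h (P (nat_lit 0)) (T.h (T.h (P (nat_lit 0)) (T.h (M (nat_lit 5141982376459845500927))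 (T.h (P (nat_lit 0)) (P (nat_lit 63912302629388288))))) (T.h (P (nat_lit 0)) (T.h (T.h (P (nat_lit 0)) (P (nat_lit 20305914272612352))) (P (nat_lit 0)))))) (T.h (T.h (T.h (M (nat_lit 15230894307888454317375487)) (T.h (P (nat_lit 0)) (M (nat_lit 10893491707010088959)))) (T.h (P (nat_lit 0)) (P (nat_lit 21389219787958124544)))) (T.h (T.h (P (nat_lit 0)) (T.h (T.h (P (nat_lit 0)) (P (nat_lit 63912302629388288))) (P (nat_lit 0)))) (M (nat_lit 15566893289482223615))))))]
def lP12_25 : List (T ℤ) := [(P (nat_lit 0)), (T.h (T.h (P (nat_lit 0)) (T.h (T.h (P (nat_lit 12539932952570959200560087040)) (T.h (P (nat_lit 0)) (T.h (P (nat_lit 36422669662533734891520)) (T.h (P (nat_lit 0)) (M (nat_lit 24336275434504191)))))) (T.h (P (nat_lit 0)) (T.h (T.h (M (nat_lit 3316277322034398101503)) (T.h (P (nat_lit 0)) (P (nat_lit 36745816222072832)))) (T.h (P (nat_lit 0)) (M (nat_lit 6985812048609279))))))) (T.h (T.h (T.h (P (nat_lit 0)) (T.h (P (nat_lit 6500969733028952435326976))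 (T.h (P (nat_lit 0)) (T.h (M (nat_lit 1757356174686027775)) (T.h (P (nat_lit 0)) (M (nat_lit 16380495890711))))))) (T.h (P (nat_lit 0)) (T.h (T.h (P (nat_lit 0)) (T.h (M (nat_lit 59540206603248599039)) (T.h (P (nat_lit 0)) (P (nat_lit 22404607986728))))) (T.h (P (nat_lit 0)) (T.h (T.h (P (nat_lit 0)) (P (nat_lit 39683656271632))) (P (nat_lit 0))))))) (T.h (T.h (P (nat_lit 0)) (T.h (T.h (M (nat_lit 17847716994785432567807)) (T.h (P (nat_lit 0)) (P (nat_lit 70092186250412032)))) (T.h (P (nat_lit 0)) (P (nat_lit 82263489873543168))))) (T.h (T.h (T.h (P (nat_lit 0)) (T.h (M (nat_lit 52274040409388220415)) (T.h (P (nat_lit 0)) (M (nat_lit 22340509663159))))) (T.h (P (nat_lit 0)) (T.h (T.h (P (nat_lit 0)) (P (nat_lit 17192011651296))) (P (nat_lit 0))))) (T.h (T.h (P (nat_lit 0)) (P (nat_lit 38756986274840576))) (T.h (T.h (T.h (P (nat_lit 0)) (P (nat_lit 1015396828560))) (P (nat_lit 0))) (P (nat_lit 0)))))))), (T.h (T.h (P (nat_lit 0)) (T.h (T.h (P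 (nat_lit 0)) (T.h (P (nat_lit 39725240604148654384611328)) (T.h (P (nat_lit 0)) (T.h (P (nat_lit 33915569836709117952)) (T.h (P (nat_lit 0)) (P (nat_lit 4076389384816))))))) (T.h (P (nat_lit 0)) (T.h (T.h (P (nat_lit 0)) (T.h (P (nat_lit 33915569836709117952)) (T.h (P (nat_lit 0)) (M (nat_lit 675544214015))))) (T.h (P (nat_lit 0)) (T.h (T.h (P (nat_lit 0)) (P (nat_lit 4076389384816))) (P (nat_lit 0)))))))) (T.h (T.h (T.h (P (nat_lit 8691406057965620660182974464)) (T.h (P (nat_lit 0)) (T.h (M (nat_lit 38064473744062961156095)) (T.h (P (nat_lit 0)) (P (nat_lit 19186521793036288)))))) (T.h (P (nat_lit 0)) (T.h (T.h (M (nat_lit 38064473744062961156095)) (T.h (P (nat_lit 0)) (P (nat_lit 3935443694649344)))) (T.h (P (nat_lit 0)) (P (nat_lit 19186521793036288)))))) (T.h (T.h (P (nat_lit 0)) (T.h (T.h (P (nat_lit 0)) (T.h (M (nat_lit 3943748245355757567)) (T.h (P (nat_lit 0)) (M (nat_lit 7612428796111))))) (T.h (P (nat_lit 0)) (T.h (T.h (P (nat_lit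 0)) (M (nat_lit 7612428796111))) (P (nat_lit 0)))))) (T.h (T.h (T.h (M (nat_lit 15021339571157746057215)) (T.h (P (nat_lit 0)) (P (nat_lit 2082412055707648)))) (T.h (P (nat_lit 0)) (P (nat_lit 2082412055707648)))) (T.h (T.h (P (nat_lit 0)) (T.h (T.h (P (nat_lit 0)) (M (nat_lit 12132135300319))) (P (nat_lit 0)))) (P (nat_lit 17136932539727872))))))), (T.h (T.h (P (nat_lit 0)) (T.h (T.h (M (nat_lit 25920019054726368708448485375)) (T.h (P (nat_lit 0)) (T.h (M (nat_lit 27787483063106125430783)) (T.h (P (nat_lit 0)) (P (nat_lit 67809720250138624)))))) (T.h (P (nat_lit 0)) (T.h (T.h (M (nat_lit 32169525483728206299135)) (T.h (P (nat_lit 0)) (P (nat_lit 57081713356472320)))) (T.h (P (nat_lit 0)) (M (nat_lit 18888208648962047))))))) (T.h (T.h (T.h (P (nat_lit 0)) (T.h (P (nat_lit 38096627589110099462848512)) (T.h (P (nat_lit 0)) (T.h (M (nat_lit 108181840819061260287)) (T.h (P (nat_lit 0)) (P (nat_lit 27163896312912))))))) (T.h (P (nat_lit 0)) (T.h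 (T.h (P (nat_lit 0)) (T.h (M (nat_lit 285020327601149837311)) (T.h (P (nat_lit 0)) (P (nat_lit 15157720755216))))) (T.h (P (nat_lit 0)) (T.h (T.h (P (nat_lit 0)) (P (nat_lit 3622862751840))) (P (nat_lit 0))))))) (T.h (T.h (P (nat_lit 0)) (T.h (T.h (M (nat_lit 11270670670228105461759)) (T.h (P (nat_lit 0)) (M (nat_lit 29192182078373887)))) (T.h (P (nat_lit 0)) (P (nat_lit 46994885653495808))))) (T.h (T.h (T.h (P (nat_lit 0)) (T.h (P (nat_lit 106594337060644978688)) (T.h (P (nat_lit 0)) (M (nat_lit 28889076865151))))) (T.h (P (nat_lit 0)) (T.h (T.h (P (nat_lit 0)) (M (nat_lit 5451005508863))) (P (nat_lit 0))))) (T.h (T.h (P (nat_lit 0)) (M (nat_lit 58695919728099327))) (T.h (T.h (T.h (P (nat_lit 0)) (P (nat_lit 56011950313632))) (P (nat_lit 0))) (P (nat_lit 0)))))))), (T.h (T.h (P (nat_lit 0)) (T.h (T.h (P (nat_lit 0)) (T.h (P (nat_lit 11364634751436504396988416)) (T.h (P (nat_lit 0)) (M (nat_lit 39642309639526154239))))) (T.h (P (nat_lit 0))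 (T.h (T.h (P (nat_lit 0)) (M (nat_lit 42786273065835692031))) (P (nat_lit 0)))))) (T.h (T.h (T.h (P (nat_lit 21382294463452524082142117888)) (T.h (P (nat_lit 0)) (T.h (M (nat_lit 5119974003336856731647)) (T.h (P (nat_lit 0)) (M (nat_lit 38231767106387967)))))) (T.h (P (nat_lit 0)) (T.h (T.h (P (nat_lit 55308368152604113371136)) (T.h (P (nat_lit 0)) (M (nat_lit 27209387641274367)))) (T.h (P (nat_lit 0)) (M (nat_lit 17072719312633855)))))) (T.h (T.h (P (nat_lit 0)) (T.h (T.h (P (nat_lit 0)) (P (nat_lit 72630611916194054144))) (P (nat_lit 0)))) (T.h (T.h (T.h (M (nat_lit 8429021893482116022271)) (T.h (P (nat_lit 0)) (P (nat_lit 9121366597222400)))) (T.h (P (nat_lit 0)) (P (nat_lit 10349591218307072)))) (T.h (P (nat_lit 0)) (M (nat_lit 3098825511829503))))))), (T.h (T.h (P (nat_lit 0)) (T.h (P (nat_lit 0)) (T.h (T.h (P (nat_lit 0)) (T.h (P (nat_lit 499840977208352964608)) (T.h (P (nat_lit 0)) (M (nat_lit 1813996553764863))))) (T.h (P (nat_lit 0))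 (T.h (T.h (P (nat_lit 0)) (M (nat_lit 11369866985209855))) (P (nat_lit 0))))))) (T.h (T.h (P (nat_lit 0)) (T.h (P (nat_lit 0)) (T.h (P (nat_lit 0)) (T.h (T.h (P (nat_lit 50334826334854840320)) (T.h (P (nat_lit 0)) (M (nat_lit 17071918816231)))) (T.h (P (nat_lit 0)) (P (nat_lit 10683989665664))))))) (T.h (T.h (T.h (P (nat_lit 0)) (T.h (M (nat_lit 499840977208352964607)) (T.h (P (nat_lit 0)) (P (nat_lit 1813996553764864))))) (P (nat_lit 0))) (T.h (T.h (P (nat_lit 0)) (T.h (T.h (M (nat_lit 50334826334854840319)) (T.h (P (nat_lit 0)) (P (nat_lit 17071918816232)))) (P (nat_lit 0)))) (T.h (T.h (T.h (P (nat_lit 0)) (P (nat_lit 11369866985209856))) (P (nat_lit 0))) (T.h (T.h (P (nat_lit 0)) (M (nat_lit 10683989665663))) (P (nat_lit 0)))))))), (T.h (T.h (T.h (P (nat_lit 8547243003319011634805544583168)) (T.h (P (nat_lit 0)) (T.h (M (nat_lit 15586726180167793191682047)) (T.h (P (nat_lit 0)) (T.h (M (nat_lit 25082296066384068607)) (T.h (P (nat_lit 0))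 (M (nat_lit 1807611555343)))))))) (T.h (P (nat_lit 0)) (T.h (T.h (P (nat_lit 14510347300884980999127040)) (T.h (P (nat_lit 0)) (T.h (P (nat_lit 35663318068957806592)) (T.h (P (nat_lit 0)) (M (nat_lit 6732252487071)))))) (T.h (P (nat_lit 0)) (T.h (T.h (P (nat_lit 35610800256633012224)) (T.h (P (nat_lit 0)) (P (nat_lit 15366368407824)))) (T.h (P (nat_lit 0)) (M (nat_lit 4773610931599)))))))) (T.h (T.h (P (nat_lit 0)) (T.h (T.h (P (nat_lit 0)) (T.h (M (nat_lit 5544913477966684487679)) (T.h (P (nat_lit 0)) (P (nat_lit 107443297016119296))))) (T.h (P (nat_lit 0)) (T.h (T.h (P (nat_lit 0)) (P (nat_lit 788703454953472))) (P (nat_lit 0)))))) (T.h (T.h (T.h (M (nat_lit 10074423422740968400486399)) (T.h (P (nat_lit 0)) (T.h (P (nat_lit 14865489118221041664)) (T.h (P (nat_lit 0)) (M (nat_lit 8671366263727)))))) (T.h (P (nat_lit 0)) (T.h (T.h (M (nat_lit 56693657735398424575)) (T.h (P (nat_lit 0)) (P (nat_lit 14277571269584)))) (T.h (P (nat_lit 0)) (P (nat_lit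 29692863900784)))))) (T.h (T.h (P (nat_lit 0)) (T.h (T.h (P (nat_lit 0)) (M (nat_lit 51337459934527487))) (P (nat_lit 0)))) (T.h (T.h (T.h (P (nat_lit 2900983089347952640)) (T.h (P (nat_lit 0)) (M (nat_lit 16452623026111)))) (T.h (P (nat_lit 0)) (P (nat_lit 37577714858544)))) (T.h (P (nat_lit 0)) (M (nat_lit 8507132336751)))))))), (T.h (T.h (T.h (P (nat_lit 0)) (T.h (M (nat_lit 25920019054726368708448485375)) (T.h (P (nat_lit 0)) (T.h (M (nat_lit 32169525483728206299135)) (T.h (P (nat_lit 0)) (M (nat_lit 18888208648962047))))))) (T.h (P (nat_lit 0)) (T.h (T.h (P (nat_lit 0)) (T.h (M (nat_lit 27787483063106125430783)) (T.h (P (nat_lit 0)) (P (nat_lit 57081713356472320))))) (T.h (P (nat_lit 0)) (T.h (T.h (P (nat_lit 0)) (P (nat_lit 67809720250138624))) (P (nat_lit 0))))))) (T.h (T.h (P (nat_lit 0)) (T.h (T.h (P (nat_lit 38096627589110099462848512)) (T.h (P (nat_lit 0)) (T.h (M (nat_lit 285020327601149837311)) (T.h (P (nat_lit 0)) (P (nat_lit 3622862751840))))))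 (T.h (P (nat_lit 0)) (T.h (T.h (M (nat_lit 108181840819061260287)) (T.h (P (nat_lit 0)) (P (nat_lit 15157720755216)))) (T.h (P (nat_lit 0)) (P (nat_lit 27163896312912))))))) (T.h (T.h (T.h (P (nat_lit 0)) (T.h (M (nat_lit 11270670670228105461759)) (T.h (P (nat_lit 0)) (P (nat_lit 46994885653495808))))) (T.h (P (nat_lit 0)) (T.h (T.h (P (nat_lit 0)) (M (nat_lit 29192182078373887))) (P (nat_lit 0))))) (T.h (T.h (P (nat_lit 0)) (T.h (T.h (P (nat_lit 106594337060644978688)) (T.h (P (nat_lit 0)) (M (nat_lit 5451005508863)))) (T.h (P (nat_lit 0)) (M (nat_lit 28889076865151))))) (T.h (T.h (T.h (P (nat_lit 0)) (M (nat_lit 58695919728099327))) (P (nat_lit 0))) (T.h (T.h (P (nat_lit 0)) (P (nat_lit 56011950313632))) (P (nat_lit 0))))))))]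
def lP12_26 : List (T ℤ) := [(T.h (T.h (T.h (M (nat_lit 3142910377488252325730828943359)) (T.h (P (nat_lit 0)) (T.h (P (nat_lit 33691155774875871798624256)) (T.h (P (nat_lit 0)) (P (nat_lit 43612476535541334016)))))) (T.h (P (nat_lit 0)) (T.h (T.h (P (nat_lit 33691155774875871798624256)) (T.h (P (nat_lit 0)) (M (nat_lit 71619732868914216959)))) (T.h (P (nat_lit 0)) (P (nat_lit 43612476535541334016)))))) (T.h (T.h (P (nat_lit 0)) (T.h (T.h (P (nat_lit 0)) (T.h (P (nat_lit 77133057163773054287872)) (T.h (P (nat_lit 0)) (M (nat_lit 39398897938006015))))) (T.h (P (nat_lit 0)) (T.h (T.h (P (nat_lit 0)) (M (nat_lit 39398897938006015))) (P (nat_lit 0)))))) (T.h (T.h (T.h (P (nat_lit 18536861392735411206356992)) (T.h (P (nat_lit 0)) (P (nat_lit 2844952429110231040)))) (T.h (P (nat_lit 0)) (P (nat_lit 2844952429110231040)))) (T.h (T.h (P (nat_lit 0)) (T.h (T.h (P (nat_lit 0)) (M (nat_lit 65556687411085311))) (P (nat_lit 0)))) (P (nat_lit 56634526376671576064)))))),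 (P (nat_lit 0)), (T.h (T.h (P (nat_lit 0)) (T.h (T.h (P (nat_lit 3816271784915021482770300928)) (T.h (P (nat_lit 0)) (T.h (P (nat_lit 16683404358949558812672)) (T.h (P (nat_lit 0)) (P (nat_lit 5798650446217216)))))) (T.h (P (nat_lit 0)) (T.h (T.h (P (nat_lit 21431735756132576133120)) (T.h (P (nat_lit 0)) (M (nat_lit 39638883541352447)))) (T.h (P (nat_lit 0)) (P (nat_lit 8421033830252544))))))) (T.h (T.h (T.h (P (nat_lit 0)) (T.h (M (nat_lit 11596132456671698380390399)) (T.h (P (nat_lit 0)) (T.h (M (nat_lit 2449777188577214463)) (T.h (P (nat_lit 0)) (P (nat_lit 8183120944368))))))) (T.h (P (nat_lit 0)) (T.h (T.h (P (nat_lit 0)) (T.h (P (nat_lit 90875215508110573568)) (T.h (P (nat_lit 0)) (M (nat_lit 14872495805135))))) (T.h (P (nat_lit 0)) (T.h (T.h (P (nat_lit 0)) (M (nat_lit 50297679171887))) (P (nat_lit 0))))))) (T.h (T.h (P (nat_lit 0)) (T.h (T.h (M (nat_lit 11629742680612983013375)) (T.h (P (nat_lit 0)) (P (nat_lit 21362749947805696))))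 (T.h (P (nat_lit 0)) (M (nat_lit 67844963372367871))))) (T.h (T.h (T.h (P (nat_lit 0)) (T.h (P (nat_lit 21823109804238831616)) (T.h (P (nat_lit 0)) (P (nat_lit 1434997404528))))) (T.h (P (nat_lit 0)) (T.h (T.h (P (nat_lit 0)) (P (nat_lit 6973821289008))) (P (nat_lit 0))))) (T.h (T.h (P (nat_lit 0)) (M (nat_lit 18534864477880319))) (T.h (T.h (T.h (P (nat_lit 0)) (M (nat_lit 20165909466623))) (P (nat_lit 0))) (P (nat_lit 0)))))))), (T.h (T.h (P (nat_lit 0)) (T.h (T.h (P (nat_lit 0)) (T.h (P (nat_lit 11364634751436504396988416)) (T.h (P (nat_lit 0)) (M (nat_lit 42786273065835692031))))) (T.h (P (nat_lit 0)) (T.h (T.h (P (nat_lit 0)) (M (nat_lit 39642309639526154239))) (P (nat_lit 0)))))) (T.h (T.h (T.h (P (nat_lit 21382294463452524082142117888)) (T.h (P (nat_lit 0)) (T.h (P (nat_lit 55308368152604113371136)) (T.h (P (nat_lit 0)) (M (nat_lit 17072719312633855)))))) (T.h (P (nat_lit 0)) (T.h (T.h (M (nat_lit 5119974003336856731647)) (T.h (P (nat_lit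 0)) (M (nat_lit 27209387641274367)))) (T.h (P (nat_lit 0)) (M (nat_lit 38231767106387967)))))) (T.h (T.h (P (nat_lit 0)) (T.h (T.h (P (nat_lit 0)) (P (nat_lit 72630611916194054144))) (P (nat_lit 0)))) (T.h (T.h (T.h (M (nat_lit 8429021893482116022271)) (T.h (P (nat_lit 0)) (P (nat_lit 10349591218307072)))) (T.h (P (nat_lit 0)) (P (nat_lit 9121366597222400)))) (T.h (P (nat_lit 0)) (M (nat_lit 3098825511829503))))))), (P (nat_lit 0)), (T.h (T.h (T.h (P (nat_lit 984195350018325543104137920512)) (T.h (P (nat_lit 0)) (T.h (M (nat_lit 353537135146806275997695)) (T.h (P (nat_lit 0)) (P (nat_lit 4364305523307184128)))))) (T.h (P (nat_lit 0)) (T.h (T.h (M (nat_lit 15230894307888454317375487)) (T.h (P (nat_lit 0)) (P (nat_lit 21389219787958124544)))) (T.h (P (nat_lit 0)) (M (nat_lit 15566893289482223615)))))) (T.h (T.h (P (nat_lit 0)) (T.h (T.h (P (nat_lit 0)) (T.h (M (nat_lit 5141982376459845500927)) (T.h (P (nat_lit 0)) (P (nat_lit 20305914272612352)))))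 (T.h (P (nat_lit 0)) (T.h (T.h (P (nat_lit 0)) (P (nat_lit 63912302629388288))) (P (nat_lit 0)))))) (T.h (T.h (T.h (M (nat_lit 15230894307888454317375487)) (T.h (P (nat_lit 0)) (P (nat_lit 21389219787958124544)))) (T.h (P (nat_lit 0)) (M (nat_lit 10893491707010088959)))) (T.h (T.h (P (nat_lit 0)) (T.h (T.h (P (nat_lit 0)) (P (nat_lit 63912302629388288))) (P (nat_lit 0)))) (M (nat_lit 15566893289482223615)))))), (P (nat_lit 0)), (P (nat_lit 0))]
def lP12_27 : List (T ℤ) := [(P (nat_lit 0)), (T.h (T.h (T.h (P (nat_lit 1164334401863484262811330150400)) (T.h (P (nat_lit 0)) (T.h (M (nat_lit 13039550839244925899374591)) (T.h (P (nat_lit 0)) (T.h (P (nat_lit 4862203367742504960)) (T.h (P (nat_lit 0)) (P (nat_lit 793339906080)))))))) (T.h (P (nat_lit 0)) (T.h (T.h (M (nat_lit 372198664893944381308927)) (T.h (P (nat_lit 0)) (T.h (M (nat_lit 34665794117123964927)) (T.h (P (nat_lit 0)) (M (nat_lit 4387130132575)))))) (T.h (P (nat_lit 0)) (T.h (T.h (M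 (nat_lit 6661600194955575295)) (T.h (P (nat_lit 0)) (P (nat_lit 641390082352)))) (T.h (P (nat_lit 0)) (P (nat_lit 371565128496)))))))) (T.h (T.h (P (nat_lit 0)) (T.h (T.h (P (nat_lit 0)) (T.h (M (nat_lit 2357083051524171497471)) (T.h (P (nat_lit 0)) (M (nat_lit 33761326754856959))))) (T.h (P (nat_lit 0)) (T.h (T.h (P (nat_lit 0)) (M (nat_lit 20279888687595519))) (P (nat_lit 0)))))) (T.h (T.h (T.h (M (nat_lit 9265051531851398928924671)) (T.h (P (nat_lit 0)) (T.h (P (nat_lit 60713439406019575808)) (T.h (P (nat_lit 0)) (M (nat_lit 27522144590087)))))) (T.h (P (nat_lit 0)) (T.h (T.h (M (nat_lit 22335174074582433791)) (T.h (P (nat_lit 0)) (M (nat_lit 21785219074039)))) (T.h (P (nat_lit 0)) (P (nat_lit 3918864575544)))))) (T.h (T.h (P (nat_lit 0)) (T.h (T.h (P (nat_lit 0)) (M (nat_lit 7665689215860735))) (P (nat_lit 0)))) (T.h (T.h (T.h (P (nat_lit 11159803209608855552)) (T.h (P (nat_lit 0)) (M (nat_lit 16356627800559)))) (T.h (P (nat_lit 0)) (M (nat_lit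 19064290302919)))) (T.h (P (nat_lit 0)) (M (nat_lit 8108203548327)))))))), (P (nat_lit 0)), (P (nat_lit 0)), (P (nat_lit 0)), (P (nat_lit 0)), (T.h (T.h (P (nat_lit 0)) (T.h (T.h (P (nat_lit 0)) (T.h (M (nat_lit 42565491092166275275685887)) (T.h (P (nat_lit 0)) (T.h (M (nat_lit 9830381893491621887)) (T.h (P (nat_lit 0)) (P (nat_lit 14564584286304))))))) (T.h (P (nat_lit 0)) (T.h (T.h (P (nat_lit 0)) (T.h (M (nat_lit 9830381893491621887)) (T.h (P (nat_lit 0)) (M (nat_lit 23051714072223))))) (T.h (P (nat_lit 0)) (T.h (T.h (P (nat_lit 0)) (P (nat_lit 14564584286304))) (P (nat_lit 0)))))))) (T.h (T.h (T.h (M (nat_lit 338176282343597735797587967)) (T.h (P (nat_lit 0)) (T.h (M (nat_lit 13991137393318199033855)) (T.h (P (nat_lit 0)) (P (nat_lit 9828879108767744)))))) (T.h (P (nat_lit 0)) (T.h (T.h (M (nat_lit 13991137393318199033855)) (T.h (P (nat_lit 0)) (M (nat_lit 30669438349541375)))) (T.h (P (nat_lit 0)) (P (nat_lit 9828879108767744)))))) (T.h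 (T.h (P (nat_lit 0)) (T.h (T.h (P (nat_lit 0)) (T.h (P (nat_lit 23883727542987784192)) (T.h (P (nat_lit 0)) (M (nat_lit 18225145824207))))) (T.h (P (nat_lit 0)) (T.h (T.h (P (nat_lit 0)) (M (nat_lit 18225145824207))) (P (nat_lit 0)))))) (T.h (T.h (T.h (P (nat_lit 5343966728476296216576)) (T.h (P (nat_lit 0)) (P (nat_lit 79781471589236736)))) (T.h (P (nat_lit 0)) (P (nat_lit 79781471589236736)))) (T.h (T.h (P (nat_lit 0)) (T.h (T.h (P (nat_lit 0)) (P (nat_lit 51468774767840))) (P (nat_lit 0)))) (M (nat_lit 25834476259180543))))))), (T.h (T.h (P (nat_lit 0)) (T.h (T.h (M (nat_lit 832454746821739008015466495)) (T.h (P (nat_lit 0)) (T.h (M (nat_lit 4047631849667556278271)) (T.h (P (nat_lit 0)) (M (nat_lit 6980540568846335)))))) (T.h (P (nat_lit 0)) (T.h (T.h (P (nat_lit 2581207630647769694208)) (T.h (P (nat_lit 0)) (M (nat_lit 25091771215478783)))) (T.h (P (nat_lit 0)) (P (nat_lit 3821690648035328))))))) (T.h (T.h (T.h (P (nat_lit 0)) (T.h (P (nat_lit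 11799924226416691745128448)) (T.h (P (nat_lit 0)) (T.h (P (nat_lit 24992502955122884608)) (T.h (P (nat_lit 0)) (P (nat_lit 3040955945440))))))) (T.h (P (nat_lit 0)) (T.h (T.h (P (nat_lit 0)) (T.h (P (nat_lit 22920260165497257984)) (T.h (P (nat_lit 0)) (M (nat_lit 4081026789279))))) (T.h (P (nat_lit 0)) (T.h (T.h (P (nat_lit 0)) (M (nat_lit 6622509720623))) (P (nat_lit 0))))))) (T.h (T.h (P (nat_lit 0)) (T.h (T.h (M (nat_lit 32130929532941937672191)) (T.h (P (nat_lit 0)) (P (nat_lit 703405565444096)))) (T.h (P (nat_lit 0)) (P (nat_lit 21537784946409472))))) (T.h (T.h (T.h (P (nat_lit 0)) (T.h (M (nat_lit 13066312361172795391)) (T.h (P (nat_lit 0)) (P (nat_lit 4308734371088))))) (T.h (P (nat_lit 0)) (T.h (T.h (P (nat_lit 0)) (P (nat_lit 19135086581520))) (P (nat_lit 0))))) (T.h (T.h (P (nat_lit 0)) (P (nat_lit 5910113848442880))) (T.h (T.h (T.h (P (nat_lit 0)) (P (nat_lit 11861041236576))) (P (nat_lit 0))) (P (nat_lit 0))))))))]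
def lP12_28 : List (T ℤ) := [(T.h (T.h (P (nat_lit 0)) (T.h (T.h (P (nat_lit 0)) (T.h (M (nat_lit 15188638981517575697989631)) (T.h (P (nat_lit 0)) (T.h (P (nat_lit 12216619188252311552)) (T.h (P (nat_lit 0)) (M (nat_lit 4836003780143))))))) (T.h (P (nat_lit 0)) (T.h (T.h (P (nat_lit 0)) (T.h (M (nat_lit 27117710602233970687)) (T.h (P (nat_lit 0)) (P (nat_lit 14947988241648))))) (T.h (P (nat_lit 0)) (T.h (T.h (P (nat_lit 0)) (M (nat_lit 10644566670095))) (P (nat_lit 0)))))))) (T.h (T.h (T.h (P (nat_lit 5075728687560414900525203456)) (T.h (P (nat_lit 0)) (T.h (P (nat_lit 30406151196474345521152)) (T.h (P (nat_lit 0)) (P (nat_lit 31295638072459264)))))) (T.h (P (nat_lit 0)) (T.h (T.h (P (nat_lit 19474584951922158993408)) (T.h (P (nat_lit 0)) (M (nat_lit 24912020807942143)))) (T.h (P (nat_lit 0)) (M (nat_lit 17724020956954623)))))) (T.h (T.h (P (nat_lit 0)) (T.h (T.h (P (nat_lit 0)) (T.h (P (nat_lit 3965753984890699776)) (T.h (P (nat_lit 0)) (P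 (nat_lit 253154553840))))) (T.h (P (nat_lit 0)) (T.h (T.h (P (nat_lit 0)) (P (nat_lit 9557671096032))) (P (nat_lit 0)))))) (T.h (T.h (T.h (M (nat_lit 4975638722445056147455)) (T.h (P (nat_lit 0)) (M (nat_lit 43971231570493439)))) (T.h (P (nat_lit 0)) (P (nat_lit 4315555809820672)))) (T.h (T.h (P (nat_lit 0)) (T.h (T.h (P (nat_lit 0)) (M (nat_lit 3300786166367))) (P (nat_lit 0)))) (P (nat_lit 15728383238602752))))))), (T.h (T.h (P (nat_lit 0)) (T.h (T.h (M (nat_lit 6099708548673304496447684607)) (T.h (P (nat_lit 0)) (T.h (M (nat_lit 914033056629670281215)) (T.h (P (nat_lit 0)) (P (nat_lit 25421720942116864)))))) (T.h (P (nat_lit 0)) (T.h (T.h (M (nat_lit 17907237936627615531007)) (T.h (P (nat_lit 0)) (M (nat_lit 10230261391294463)))) (T.h (P (nat_lit 0)) (P (nat_lit 840173474381824))))))) (T.h (T.h (T.h (P (nat_lit 0)) (T.h (P (nat_lit 18571853267465370509246464)) (T.h (P (nat_lit 0)) (M (nat_lit 76155881187738386431))))) (T.h (P (nat_lit 0))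 (T.h (T.h (P (nat_lit 0)) (P (nat_lit 2818795405779664896))) (P (nat_lit 0))))) (T.h (T.h (P (nat_lit 0)) (T.h (T.h (P (nat_lit 39385658327280031629312)) (T.h (P (nat_lit 0)) (M (nat_lit 7400423263076351)))) (T.h (P (nat_lit 0)) (M (nat_lit 4731789076348927))))) (T.h (T.h (T.h (P (nat_lit 0)) (M (nat_lit 35935822232235802623))) (P (nat_lit 0))) (T.h (T.h (P (nat_lit 0)) (P (nat_lit 35543153834491904))) (P (nat_lit 0))))))), (T.h (T.h (T.h (P (nat_lit 1164334401863484262811330150400)) (T.h (P (nat_lit 0)) (T.h (M (nat_lit 372198664893944381308927)) (T.h (P (nat_lit 0)) (T.h (M (nat_lit 6661600194955575295)) (T.h (P (nat_lit 0)) (P (nat_lit 371565128496)))))))) (T.h (P (nat_lit 0)) (T.h (T.h (M (nat_lit 13039550839244925899374591)) (T.h (P (nat_lit 0)) (T.h (M (nat_lit 34665794117123964927)) (T.h (P (nat_lit 0)) (P (nat_lit 641390082352)))))) (T.h (P (nat_lit 0)) (T.h (T.h (P (nat_lit 4862203367742504960)) (T.h (P (nat_lit 0)) (M (nat_lit 4387130132575))))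 (T.h (P (nat_lit 0)) (P (nat_lit 793339906080)))))))) (T.h (T.h (P (nat_lit 0)) (T.h (T.h (P (nat_lit 0)) (T.h (M (nat_lit 2357083051524171497471)) (T.h (P (nat_lit 0)) (M (nat_lit 20279888687595519))))) (T.h (P (nat_lit 0)) (T.h (T.h (P (nat_lit 0)) (M (nat_lit 33761326754856959))) (P (nat_lit 0)))))) (T.h (T.h (T.h (M (nat_lit 9265051531851398928924671)) (T.h (P (nat_lit 0)) (T.h (M (nat_lit 22335174074582433791)) (T.h (P (nat_lit 0)) (P (nat_lit 3918864575544)))))) (T.h (P (nat_lit 0)) (T.h (T.h (P (nat_lit 60713439406019575808)) (T.h (P (nat_lit 0)) (M (nat_lit 21785219074039)))) (T.h (P (nat_lit 0)) (M (nat_lit 27522144590087)))))) (T.h (T.h (P (nat_lit 0)) (T.h (T.h (P (nat_lit 0)) (M (nat_lit 7665689215860735))) (P (nat_lit 0)))) (T.h (T.h (T.h (P (nat_lit 11159803209608855552)) (T.h (P (nat_lit 0)) (M (nat_lit 19064290302919)))) (T.h (P (nat_lit 0)) (M (nat_lit 16356627800559)))) (T.h (P (nat_lit 0)) (M (nat_lit 8108203548327)))))))),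 (T.h (T.h (T.h (P (nat_lit 0)) (T.h (M (nat_lit 832454746821739008015466495)) (T.h (P (nat_lit 0)) (T.h (P (nat_lit 2581207630647769694208)) (T.h (P (nat_lit 0)) (P (nat_lit 3821690648035328))))))) (T.h (P (nat_lit 0)) (T.h (T.h (P (nat_lit 0)) (T.h (M (nat_lit 4047631849667556278271)) (T.h (P (nat_lit 0)) (M (nat_lit 25091771215478783))))) (T.h (P (nat_lit 0)) (T.h (T.h (P (nat_lit 0)) (M (nat_lit 6980540568846335))) (P (nat_lit 0))))))) (T.h (T.h (P (nat_lit 0)) (T.h (T.h (P (nat_lit 11799924226416691745128448)) (T.h (P (nat_lit 0)) (T.h (P (nat_lit 22920260165497257984)) (T.h (P (nat_lit 0)) (M (nat_lit 6622509720623)))))) (T.h (P (nat_lit 0)) (T.h (T.h (P (nat_lit 24992502955122884608)) (T.h (P (nat_lit 0)) (M (nat_lit 4081026789279)))) (T.h (P (nat_lit 0)) (P (nat_lit 3040955945440))))))) (T.h (T.h (T.h (P (nat_lit 0)) (T.h (M (nat_lit 32130929532941937672191)) (T.h (P (nat_lit 0)) (P (nat_lit 21537784946409472))))) (T.h (P (nat_lit 0))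 (T.h (T.h (P (nat_lit 0)) (P (nat_lit 703405565444096))) (P (nat_lit 0))))) (T.h (T.h (P (nat_lit 0)) (T.h (T.h (M (nat_lit 13066312361172795391)) (T.h (P (nat_lit 0)) (P (nat_lit 19135086581520)))) (T.h (P (nat_lit 0)) (P (nat_lit 4308734371088))))) (T.h (T.h (T.h (P (nat_lit 0)) (P (nat_lit 5910113848442880))) (P (nat_lit 0))) (T.h (T.h (P (nat_lit 0)) (P (nat_lit 11861041236576))) (P (nat_lit 0)))))))), (T.h (T.h (T.h (M (nat_lit 1489864615173141456557266960383)) (T.h (P (nat_lit 0)) (T.h (P (nat_lit 3190336379661984334872576)) (T.h (P (nat_lit 0)) (T.h (P (nat_lit 6454538503194673152)) (T.h (P (nat_lit 0)) (M (nat_lit 5550730409807)))))))) (T.h (P (nat_lit 0)) (T.h (T.h (P (nat_lit 3190336379661984334872576)) (T.h (P (nat_lit 0)) (T.h (P (nat_lit 107513538014303223808)) (T.h (P (nat_lit 0)) (M (nat_lit 12406552033967)))))) (T.h (P (nat_lit 0)) (T.h (T.h (P (nat_lit 6454538503194673152)) (T.h (P (nat_lit 0)) (M (nat_lit 12406552033967))))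 (T.h (P (nat_lit 0)) (M (nat_lit 5550730409807)))))))) (T.h (T.h (P (nat_lit 0)) (T.h (T.h (P (nat_lit 0)) (T.h (P (nat_lit 117203895853605197971456)) (T.h (P (nat_lit 0)) (P (nat_lit 120510918138789888))))) (T.h (P (nat_lit 0)) (T.h (T.h (P (nat_lit 0)) (P (nat_lit 120510918138789888))) (P (nat_lit 0)))))) (T.h (T.h (T.h (P (nat_lit 44237522183060602493075456)) (T.h (P (nat_lit 0)) (T.h (M (nat_lit 115193404408423514111)) (T.h (P (nat_lit 0)) (P (nat_lit 3472411185984)))))) (T.h (P (nat_lit 0)) (T.h (T.h (M (nat_lit 115193404408423514111)) (T.h (P (nat_lit 0)) (P (nat_lit 64523868455424)))) (T.h (P (nat_lit 0)) (P (nat_lit 3472411185984)))))) (T.h (T.h (P (nat_lit 0)) (T.h (T.h (P (nat_lit 0)) (M (nat_lit 78799039213862911))) (P (nat_lit 0)))) (T.h (T.h (T.h (M (nat_lit 8197879782847807487)) (T.h (P (nat_lit 0)) (P (nat_lit 18792837007584)))) (T.h (P (nat_lit 0)) (P (nat_lit 18792837007584)))) (T.h (P (nat_lit 0)) (P (nat_lit 13524330333600)))))))),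 (T.h (T.h (T.h (P (nat_lit 0)) (T.h (P (nat_lit 3133521640352018543595749376)) (T.h (P (nat_lit 0)) (T.h (P (nat_lit 6131544820029419683840)) (T.h (P (nat_lit 0)) (P (nat_lit 3746641894768640))))))) (T.h (P (nat_lit 0)) (T.h (T.h (P (nat_lit 0)) (T.h (P (nat_lit 10530773426254924218368)) (T.h (P (nat_lit 0)) (M (nat_lit 3541496266850303))))) (T.h (P (nat_lit 0)) (T.h (T.h (P (nat_lit 0)) (P (nat_lit 25399662819524608))) (P (nat_lit 0))))))) (T.h (T.h (P (nat_lit 0)) (T.h (T.h (M (nat_lit 34949159902444343565221887)) (T.h (P (nat_lit 0)) (M (nat_lit 64795198108966322175)))) (T.h (P (nat_lit 0)) (M (nat_lit 18668642047161794559))))) (T.h (T.h (T.h (P (nat_lit 0)) (T.h (M (nat_lit 3848273589639705526271)) (T.h (P (nat_lit 0)) (P (nat_lit 24755005882941440))))) (T.h (P (nat_lit 0)) (T.h (T.h (P (nat_lit 0)) (M (nat_lit 48253519760162815))) (P (nat_lit 0))))) (T.h (T.h (P (nat_lit 0)) (P (nat_lit 130808218232064835584))) (T.h (T.h (T.h (P (nat_lit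 0)) (M (nat_lit 107296303587655679))) (P (nat_lit 0))) (P (nat_lit 0))))))), (P (nat_lit 0)), (T.h (T.h (P (nat_lit 0)) (T.h (T.h (P (nat_lit 0)) (T.h (M (nat_lit 15188638981517575697989631)) (T.h (P (nat_lit 0)) (T.h (M (nat_lit 27117710602233970687)) (T.h (P (nat_lit 0)) (M (nat_lit 10644566670095))))))) (T.h (P (nat_lit 0)) (T.h (T.h (P (nat_lit 0)) (T.h (P (nat_lit 12216619188252311552)) (T.h (P (nat_lit 0)) (P (nat_lit 14947988241648))))) (T.h (P (nat_lit 0)) (T.h (T.h (P (nat_lit 0)) (M (nat_lit 4836003780143))) (P (nat_lit 0)))))))) (T.h (T.h (T.h (P (nat_lit 5075728687560414900525203456)) (T.h (P (nat_lit 0)) (T.h (P (nat_lit 19474584951922158993408)) (T.h (P (nat_lit 0)) (M (nat_lit 17724020956954623)))))) (T.h (P (nat_lit 0)) (T.h (T.h (P (nat_lit 30406151196474345521152)) (T.h (P (nat_lit 0)) (M (nat_lit 24912020807942143)))) (T.h (P (nat_lit 0)) (P (nat_lit 31295638072459264)))))) (T.h (T.h (P (nat_lit 0)) (T.h (T.h (P (nat_lit 0))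 (T.h (P (nat_lit 3965753984890699776)) (T.h (P (nat_lit 0)) (P (nat_lit 9557671096032))))) (T.h (P (nat_lit 0)) (T.h (T.h (P (nat_lit 0)) (P (nat_lit 253154553840))) (P (nat_lit 0)))))) (T.h (T.h (T.h (M (nat_lit 4975638722445056147455)) (T.h (P (nat_lit 0)) (P (nat_lit 4315555809820672)))) (T.h (P (nat_lit 0)) (M (nat_lit 43971231570493439)))) (T.h (T.h (P (nat_lit 0)) (T.h (T.h (P (nat_lit 0)) (M (nat_lit 3300786166367))) (P (nat_lit 0)))) (P (nat_lit 15728383238602752)))))))]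
def lP12_29 : List (T ℤ) := [(T.h (T.h (P (nat_lit 0)) (T.h (T.h (P (nat_lit 3133521640352018543595749376)) (T.h (P (nat_lit 0)) (T.h (P (nat_lit 10530773426254924218368)) (T.h (P (nat_lit 0)) (P (nat_lit 25399662819524608)))))) (T.h (P (nat_lit 0)) (T.h (T.h (P (nat_lit 6131544820029419683840)) (T.h (P (nat_lit 0)) (M (nat_lit 3541496266850303)))) (T.h (P (nat_lit 0)) (P (nat_lit 3746641894768640))))))) (T.h (T.h (T.h (P (nat_lit 0)) (T.h (M (nat_lit 34949159902444343565221887)) (T.h (P (nat_lit 0)) (M (nat_lit 18668642047161794559))))) (T.h (P (nat_lit 0)) (T.h (T.h (P (nat_lit 0)) (M (nat_lit 64795198108966322175))) (P (nat_lit 0))))) (T.h (T.h (P (nat_lit 0)) (T.h (T.h (M (nat_lit 3848273589639705526271)) (T.h (P (nat_lit 0)) (M (nat_lit 48253519760162815)))) (T.h (P (nat_lit 0)) (P (nat_lit 24755005882941440))))) (T.h (T.h (T.h (P (nat_lit 0)) (P (nat_lit 130808218232064835584))) (P (nat_lit 0))) (T.h (T.h (P (nat_lit 0)) (M (nat_lit 107296303587655679)))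 (P (nat_lit 0))))))), (P (nat_lit 0)), (T.h (T.h (T.h (P (nat_lit 0)) (T.h (M (nat_lit 6099708548673304496447684607)) (T.h (P (nat_lit 0)) (T.h (M (nat_lit 17907237936627615531007)) (T.h (P (nat_lit 0)) (P (nat_lit 840173474381824))))))) (T.h (P (nat_lit 0)) (T.h (T.h (P (nat_lit 0)) (T.h (M (nat_lit 914033056629670281215)) (T.h (P (nat_lit 0)) (M (nat_lit 10230261391294463))))) (T.h (P (nat_lit 0)) (T.h (T.h (P (nat_lit 0)) (P (nat_lit 25421720942116864))) (P (nat_lit 0))))))) (T.h (T.h (P (nat_lit 0)) (T.h (T.h (P (nat_lit 18571853267465370509246464)) (T.h (P (nat_lit 0)) (P (nat_lit 2818795405779664896)))) (T.h (P (nat_lit 0)) (M (nat_lit 76155881187738386431))))) (T.h (T.h (T.h (P (nat_lit 0)) (T.h (P (nat_lit 39385658327280031629312)) (T.h (P (nat_lit 0)) (M (nat_lit 4731789076348927))))) (T.h (P (nat_lit 0)) (T.h (T.h (P (nat_lit 0)) (M (nat_lit 7400423263076351))) (P (nat_lit 0))))) (T.h (T.h (P (nat_lit 0)) (M (nat_lit 35935822232235802623)))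 (T.h (T.h (T.h (P (nat_lit 0)) (P (nat_lit 35543153834491904))) (P (nat_lit 0))) (P (nat_lit 0))))))), (P (nat_lit 0)), (P (nat_lit 0)), (T.h (T.h (P (nat_lit 0)) (T.h (T.h (M (nat_lit 2145928526103471212667600895)) (T.h (P (nat_lit 0)) (T.h (P (nat_lit 19380193559830868262912)) (T.h (P (nat_lit 0)) (M (nat_lit 4617117429956607)))))) (T.h (P (nat_lit 0)) (T.h (T.h (P (nat_lit 3074347135337240723456)) (T.h (P (nat_lit 0)) (P (nat_lit 9882166005432320)))) (T.h (P (nat_lit 0)) (P (nat_lit 1938744669011968))))))) (T.h (T.h (T.h (P (nat_lit 0)) (T.h (M (nat_lit 3867811700671424931823615)) (T.h (P (nat_lit 0)) (T.h (M (nat_lit 8076597770091233279)) (T.h (P (nat_lit 0)) (P (nat_lit 1256788798096))))))) (T.h (P (nat_lit 0)) (T.h (T.h (P (nat_lit 0)) (T.h (M (nat_lit 2758765762964357119)) (T.h (P (nat_lit 0)) (P (nat_lit 5161908313400))))) (T.h (P (nat_lit 0)) (T.h (T.h (P (nat_lit 0)) (P (nat_lit 7025695329976))) (P (nat_lit 0))))))) (T.h (T.h (P (nat_lit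 0)) (T.h (T.h (P (nat_lit 13745484901814426927104)) (T.h (P (nat_lit 0)) (M (nat_lit 43121408521306111)))) (T.h (P (nat_lit 0)) (M (nat_lit 5068071422885887))))) (T.h (T.h (T.h (P (nat_lit 0)) (T.h (P (nat_lit 4759593979379449856)) (T.h (P (nat_lit 0)) (M (nat_lit 24235302802263))))) (T.h (P (nat_lit 0)) (T.h (T.h (P (nat_lit 0)) (M (nat_lit 7009006788303))) (P (nat_lit 0))))) (T.h (T.h (P (nat_lit 0)) (M (nat_lit 3087671520100351))) (T.h (T.h (T.h (P (nat_lit 0)) (P (nat_lit 12145147972040))) (P (nat_lit 0))) (P (nat_lit 0)))))))), (P (nat_lit 0)), (P (nat_lit 0))]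
def lP12_30 : List (T ℤ) := [(P (nat_lit 0)), (T.h (T.h (T.h (P (nat_lit 0)) (T.h (M (nat_lit 2145928526103471212667600895)) (T.h (P (nat_lit 0)) (T.h (P (nat_lit 3074347135337240723456)) (T.h (P (nat_lit 0)) (P (nat_lit 1938744669011968))))))) (T.h (P (nat_lit 0)) (T.h (T.h (P (nat_lit 0)) (T.h (P (nat_lit 19380193559830868262912)) (T.h (P (nat_lit 0)) (P (nat_lit 9882166005432320))))) (T.h (P (nat_lit 0)) (T.h (T.h (P (nat_lit 0)) (M (nat_lit 4617117429956607))) (P (nat_lit 0))))))) (T.h (T.h (P (nat_lit 0)) (T.h (T.h (M (nat_lit 3867811700671424931823615)) (T.h (P (nat_lit 0)) (T.h (M (nat_lit 2758765762964357119)) (T.h (P (nat_lit 0)) (P (nat_lit 7025695329976)))))) (T.h (P (nat_lit 0)) (T.h (T.h (M (nat_lit 8076597770091233279)) (T.h (P (nat_lit 0)) (P (nat_lit 5161908313400)))) (T.h (P (nat_lit 0)) (P (nat_lit 1256788798096))))))) (T.h (T.h (T.h (P (nat_lit 0)) (T.h (P (nat_lit 13745484901814426927104)) (T.h (P (nat_lit 0)) (M (nat_lit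 5068071422885887))))) (T.h (P (nat_lit 0)) (T.h (T.h (P (nat_lit 0)) (M (nat_lit 43121408521306111))) (P (nat_lit 0))))) (T.h (T.h (P (nat_lit 0)) (T.h (T.h (P (nat_lit 4759593979379449856)) (T.h (P (nat_lit 0)) (M (nat_lit 7009006788303)))) (T.h (P (nat_lit 0)) (M (nat_lit 24235302802263))))) (T.h (T.h (T.h (P (nat_lit 0)) (M (nat_lit 3087671520100351))) (P (nat_lit 0))) (T.h (T.h (P (nat_lit 0)) (P (nat_lit 12145147972040))) (P (nat_lit 0)))))))), (T.h (T.h (T.h (P (nat_lit 7707325677427308464448959676416)) (T.h (P (nat_lit 0)) (T.h (P (nat_lit 2901120429012419390472192)) (T.h (P (nat_lit 0)) (T.h (P (nat_lit 5890513963451416576)) (T.h (P (nat_lit 0)) (M (nat_lit 1109493383599)))))))) (T.h (P (nat_lit 0)) (T.h (T.h (P (nat_lit 2901120429012419390472192)) (T.h (P (nat_lit 0)) (T.h (P (nat_lit 12105851740364996608)) (T.h (P (nat_lit 0)) (M (nat_lit 1741740014223)))))) (T.h (P (nat_lit 0)) (T.h (T.h (P (nat_lit 5890513963451416576)) (T.h (P (nat_lit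 0)) (M (nat_lit 1741740014223)))) (T.h (P (nat_lit 0)) (M (nat_lit 1109493383599)))))))) (T.h (T.h (P (nat_lit 0)) (T.h (T.h (P (nat_lit 0)) (T.h (P (nat_lit 9365546830999188406272)) (T.h (P (nat_lit 0)) (M (nat_lit 11019108930781183))))) (T.h (P (nat_lit 0)) (T.h (T.h (P (nat_lit 0)) (M (nat_lit 11019108930781183))) (P (nat_lit 0)))))) (T.h (T.h (T.h (P (nat_lit 6115846739255371820433408)) (T.h (P (nat_lit 0)) (T.h (P (nat_lit 15647870045474783232)) (T.h (P (nat_lit 0)) (M (nat_lit 4692097755967)))))) (T.h (P (nat_lit 0)) (T.h (T.h (P (nat_lit 15647870045474783232)) (T.h (P (nat_lit 0)) (M (nat_lit 10354312704511)))) (T.h (P (nat_lit 0)) (M (nat_lit 4692097755967)))))) (T.h (T.h (P (nat_lit 0)) (T.h (T.h (P (nat_lit 0)) (P (nat_lit 11959213971734528))) (P (nat_lit 0)))) (T.h (T.h (T.h (M (nat_lit 6761073294046134271)) (T.h (P (nat_lit 0)) (M (nat_lit 6986606627727)))) (T.h (P (nat_lit 0)) (M (nat_lit 6986606627727)))) (T.h (P (nat_lit 0)) (P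 (nat_lit 5745344476032)))))))), (T.h (T.h (T.h (P (nat_lit 0)) (T.h (P (nat_lit 5365436076063364494613544960)) (T.h (P (nat_lit 0)) (T.h (M (nat_lit 2829647422335983026175)) (T.h (P (nat_lit 0)) (P (nat_lit 8555427069952000))))))) (T.h (P (nat_lit 0)) (T.h (T.h (P (nat_lit 0)) (T.h (M (nat_lit 23003241910279304380415)) (T.h (P (nat_lit 0)) (P (nat_lit 6090253865844736))))) (T.h (P (nat_lit 0)) (T.h (T.h (P (nat_lit 0)) (M (nat_lit 4868192976011263))) (P (nat_lit 0))))))) (T.h (T.h (P (nat_lit 0)) (T.h (T.h (M (nat_lit 13089024482181258328145919)) (T.h (P (nat_lit 0)) (T.h (P (nat_lit 25093469970943180800)) (T.h (P (nat_lit 0)) (M (nat_lit 4085685683903)))))) (T.h (P (nat_lit 0)) (T.h (T.h (M (nat_lit 32647441060556963839)) (T.h (P (nat_lit 0)) (P (nat_lit 3390121286400)))) (T.h (P (nat_lit 0)) (P (nat_lit 4237866999168))))))) (T.h (T.h (T.h (P (nat_lit 0)) (T.h (P (nat_lit 16692309233254172459008)) (T.h (P (nat_lit 0)) (P (nat_lit 17366088078819328)))))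 (T.h (P (nat_lit 0)) (T.h (T.h (P (nat_lit 0)) (P (nat_lit 26953724719824896))) (P (nat_lit 0))))) (T.h (T.h (P (nat_lit 0)) (T.h (T.h (M (nat_lit 36766634793414688767)) (T.h (P (nat_lit 0)) (P (nat_lit 13661142254976)))) (T.h (P (nat_lit 0)) (P (nat_lit 2377596206784))))) (T.h (T.h (T.h (P (nat_lit 0)) (M (nat_lit 24295617010860031))) (P (nat_lit 0))) (T.h (T.h (P (nat_lit 0)) (M (nat_lit 1283713304399))) (P (nat_lit 0)))))))), (T.h (T.h (T.h (M (nat_lit 848019981192476839092825358335)) (T.h (P (nat_lit 0)) (T.h (M (nat_lit 6614624667399100999663615)) (T.h (P (nat_lit 0)) (M (nat_lit 30926891337990012927)))))) (T.h (P (nat_lit 0)) (T.h (T.h (P (nat_lit 10653213847725133906575360)) (T.h (P (nat_lit 0)) (P (nat_lit 3947790254513061888)))) (T.h (P (nat_lit 0)) (P (nat_lit 11113978180799561728)))))) (T.h (T.h (P (nat_lit 0)) (T.h (T.h (P (nat_lit 0)) (T.h (P (nat_lit 41729021910207325798400)) (T.h (P (nat_lit 0)) (P (nat_lit 5405502678335488)))))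 (T.h (P (nat_lit 0)) (T.h (T.h (P (nat_lit 0)) (M (nat_lit 8839026266406911))) (P (nat_lit 0)))))) (T.h (T.h (T.h (P (nat_lit 3438041479358372487626752)) (T.h (P (nat_lit 0)) (M (nat_lit 19910758226580209663)))) (T.h (P (nat_lit 0)) (M (nat_lit 3300389089831813119)))) (T.h (T.h (P (nat_lit 0)) (T.h (T.h (P (nat_lit 0)) (M (nat_lit 4819333066915839))) (P (nat_lit 0)))) (M (nat_lit 3512947433225060351)))))), (P (nat_lit 0)), (T.h (T.h (P (nat_lit 0)) (T.h (T.h (P (nat_lit 5365436076063364494613544960)) (T.h (P (nat_lit 0)) (T.h (M (nat_lit 23003241910279304380415)) (T.h (P (nat_lit 0)) (M (nat_lit 4868192976011263)))))) (T.h (P (nat_lit 0)) (T.h (T.h (M (nat_lit 2829647422335983026175)) (T.h (P (nat_lit 0)) (P (nat_lit 6090253865844736)))) (T.h (P (nat_lit 0)) (P (nat_lit 8555427069952000))))))) (T.h (T.h (T.h (P (nat_lit 0)) (T.h (M (nat_lit 13089024482181258328145919)) (T.h (P (nat_lit 0)) (T.h (M (nat_lit 32647441060556963839)) (T.h (P (nat_lit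 0)) (P (nat_lit 4237866999168))))))) (T.h (P (nat_lit 0)) (T.h (T.h (P (nat_lit 0)) (T.h (P (nat_lit 25093469970943180800)) (T.h (P (nat_lit 0)) (P (nat_lit 3390121286400))))) (T.h (P (nat_lit 0)) (T.h (T.h (P (nat_lit 0)) (M (nat_lit 4085685683903))) (P (nat_lit 0))))))) (T.h (T.h (P (nat_lit 0)) (T.h (T.h (P (nat_lit 16692309233254172459008)) (T.h (P (nat_lit 0)) (P (nat_lit 26953724719824896)))) (T.h (P (nat_lit 0)) (P (nat_lit 17366088078819328))))) (T.h (T.h (T.h (P (nat_lit 0)) (T.h (M (nat_lit 36766634793414688767)) (T.h (P (nat_lit 0)) (P (nat_lit 2377596206784))))) (T.h (P (nat_lit 0)) (T.h (T.h (P (nat_lit 0)) (P (nat_lit 13661142254976))) (P (nat_lit 0))))) (T.h (T.h (P (nat_lit 0)) (M (nat_lit 24295617010860031))) (T.h (T.h (T.h (P (nat_lit 0)) (M (nat_lit 1283713304399))) (P (nat_lit 0))) (P (nat_lit 0)))))))), (T.h (T.h (P (nat_lit 0)) (T.h (T.h (P (nat_lit 0)) (T.h (P (nat_lit 1786891951884896965754880)) (T.h (P (nat_lit 0)) (M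 (nat_lit 27420855437877051391))))) (T.h (P (nat_lit 0)) (T.h (T.h (P (nat_lit 0)) (M (nat_lit 27420855437877051391))) (P (nat_lit 0)))))) (T.h (T.h (T.h (M (nat_lit 14143915709784305992583872511)) (T.h (P (nat_lit 0)) (T.h (P (nat_lit 71315698274066231197696)) (T.h (P (nat_lit 0)) (M (nat_lit 8208545001439231)))))) (T.h (P (nat_lit 0)) (T.h (T.h (P (nat_lit 71315698274066231197696)) (T.h (P (nat_lit 0)) (M (nat_lit 50991262593449983)))) (T.h (P (nat_lit 0)) (M (nat_lit 8208545001439231)))))) (T.h (T.h (P (nat_lit 0)) (T.h (T.h (P (nat_lit 0)) (P (nat_lit 20838505919270617088))) (P (nat_lit 0)))) (T.h (T.h (T.h (M (nat_lit 5554121537654855041023)) (T.h (P (nat_lit 0)) (M (nat_lit 32756148533133311)))) (T.h (P (nat_lit 0)) (M (nat_lit 32756148533133311)))) (T.h (P (nat_lit 0)) (M (nat_lit 26821480240742399)))))))]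
def lP12_31 : List (T ℤ) := [(P (nat_lit 0)), (T.h (T.h (T.h (M (nat_lit 848019981192476839092825358335)) (T.h (P (nat_lit 0)) (T.h (P (nat_lit 10653213847725133906575360)) (T.h (P (nat_lit 0)) (P (nat_lit 11113978180799561728)))))) (T.h (P (nat_lit 0)) (T.h (T.h (M (nat_lit 6614624667399100999663615)) (T.h (P (nat_lit 0)) (P (nat_lit 3947790254513061888)))) (T.h (P (nat_lit 0)) (M (nat_lit 30926891337990012927)))))) (T.h (T.h (P (nat_lit 0)) (T.h (T.h (P (nat_lit 0)) (T.h (P (nat_lit 41729021910207325798400)) (T.h (P (nat_lit 0)) (M (nat_lit 8839026266406911))))) (T.h (P (nat_lit 0)) (T.h (T.h (P (nat_lit 0)) (P (nat_lit 5405502678335488))) (P (nat_lit 0)))))) (T.h (T.h (T.h (P (nat_lit 3438041479358372487626752)) (T.h (P (nat_lit 0)) (M (nat_lit 3300389089831813119)))) (T.h (P (nat_lit 0)) (M (nat_lit 19910758226580209663)))) (T.h (T.h (P (nat_lit 0)) (T.h (T.h (P (nat_lit 0)) (M (nat_lit 4819333066915839))) (P (nat_lit 0)))) (M (nat_lit 3512947433225060351)))))),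 (P (nat_lit 0)), (T.h (T.h (T.h (M (nat_lit 994881952032263961351246839807)) (T.h (P (nat_lit 0)) (T.h (P (nat_lit 607013194693503069716480)) (T.h (P (nat_lit 0)) (T.h (M (nat_lit 119771036014084095)) (T.h (P (nat_lit 0)) (M (nat_lit 420417607295)))))))) (T.h (P (nat_lit 0)) (T.h (T.h (P (nat_lit 607013194693503069716480)) (T.h (P (nat_lit 0)) (T.h (M (nat_lit 4699115967748243455)) (T.h (P (nat_lit 0)) (P (nat_lit 32407595072)))))) (T.h (P (nat_lit 0)) (T.h (T.h (M (nat_lit 119771036014084095)) (T.h (P (nat_lit 0)) (P (nat_lit 32407595072)))) (T.h (P (nat_lit 0)) (M (nat_lit 420417607295)))))))) (T.h (T.h (P (nat_lit 0)) (T.h (T.h (P (nat_lit 0)) (T.h (P (nat_lit 17831215474247991296)) (T.h (P (nat_lit 0)) (P (nat_lit 262101576024064))))) (T.h (P (nat_lit 0)) (T.h (T.h (P (nat_lit 0)) (P (nat_lit 262101576024064))) (P (nat_lit 0)))))) (T.h (T.h (T.h (P (nat_lit 777676102773590739386368)) (T.h (P (nat_lit 0)) (T.h (M (nat_lit 4200520453522980863))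 (T.h (P (nat_lit 0)) (P (nat_lit 4102694556784)))))) (T.h (P (nat_lit 0)) (T.h (T.h (M (nat_lit 4200520453522980863)) (T.h (P (nat_lit 0)) (P (nat_lit 13003402788640)))) (T.h (P (nat_lit 0)) (P (nat_lit 4102694556784)))))) (T.h (T.h (P (nat_lit 0)) (T.h (T.h (P (nat_lit 0)) (M (nat_lit 275413687271423))) (P (nat_lit 0)))) (T.h (T.h (T.h (M (nat_lit 4875435867239350271)) (T.h (P (nat_lit 0)) (P (nat_lit 5513332824344)))) (T.h (P (nat_lit 0)) (P (nat_lit 5513332824344)))) (T.h (P (nat_lit 0)) (P (nat_lit 2948822705120)))))))), (P (nat_lit 0)), (P (nat_lit 0)), (P (nat_lit 0)), (P (nat_lit 0))]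
def lP12_32 : List (T ℤ) := [(T.h (T.h (P (nat_lit 0)) (T.h (T.h (P (nat_lit 0)) (T.h (M (nat_lit 2367679197508544791314431)) (T.h (P (nat_lit 0)) (T.h (P (nat_lit 18224543686039961600)) (T.h (P (nat_lit 0)) (M (nat_lit 1410206002847))))))) (T.h (P (nat_lit 0)) (T.h (T.h (P (nat_lit 0)) (T.h (P (nat_lit 18224543686039961600)) (T.h (P (nat_lit 0)) (M (nat_lit 4452436307519))))) (T.h (P (nat_lit 0)) (T.h (T.h (P (nat_lit 0)) (M (nat_lit 1410206002847))) (P (nat_lit 0)))))))) (T.h (T.h (T.h (P (nat_lit 6708703288543951383055826944)) (T.h (P (nat_lit 0)) (T.h (P (nat_lit 7081154464611636871168)) (T.h (P (nat_lit 0)) (P (nat_lit 11912089370230784)))))) (T.h (P (nat_lit 0)) (T.h (T.h (P (nat_lit 7081154464611636871168)) (T.h (P (nat_lit 0)) (P (nat_lit 22001358117797888)))) (T.h (P (nat_lit 0)) (P (nat_lit 11912089370230784)))))) (T.h (T.h (P (nat_lit 0)) (T.h (T.h (P (nat_lit 0)) (T.h (P (nat_lit 16662209236586987520)) (T.h (P (nat_lit 0)) (M (nat_lit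 8843966445503))))) (T.h (P (nat_lit 0)) (T.h (T.h (P (nat_lit 0)) (M (nat_lit 8843966445503))) (P (nat_lit 0)))))) (T.h (T.h (T.h (P (nat_lit 8639614918792361017344)) (T.h (P (nat_lit 0)) (P (nat_lit 19820659190398976)))) (T.h (P (nat_lit 0)) (P (nat_lit 19820659190398976)))) (T.h (T.h (P (nat_lit 0)) (T.h (T.h (P (nat_lit 0)) (P (nat_lit 14111840784000))) (P (nat_lit 0)))) (M (nat_lit 12079869476732927))))))), (T.h (T.h (P (nat_lit 0)) (T.h (T.h (P (nat_lit 2547540643335990035118817280)) (T.h (P (nat_lit 0)) (T.h (M (nat_lit 19946718446392155570175)) (T.h (P (nat_lit 0)) (P (nat_lit 3801332291633152)))))) (T.h (P (nat_lit 0)) (T.h (T.h (P (nat_lit 392783585823669878784)) (T.h (P (nat_lit 0)) (P (nat_lit 3402133379809280)))) (T.h (P (nat_lit 0)) (M (nat_lit 965174953410559))))))) (T.h (T.h (T.h (P (nat_lit 0)) (T.h (M (nat_lit 18381355421258832978903039)) (T.h (P (nat_lit 0)) (M (nat_lit 23203781688285986815))))) (T.h (P (nat_lit 0)) (T.h (T.h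 (P (nat_lit 0)) (M (nat_lit 36613268445365010431))) (P (nat_lit 0))))) (T.h (T.h (P (nat_lit 0)) (T.h (T.h (P (nat_lit 34455666698401404157952)) (T.h (P (nat_lit 0)) (M (nat_lit 4932788028899327)))) (T.h (P (nat_lit 0)) (P (nat_lit 584082030985216))))) (T.h (T.h (T.h (P (nat_lit 0)) (P (nat_lit 7114211940729094144))) (P (nat_lit 0))) (T.h (T.h (P (nat_lit 0)) (M (nat_lit 2625970948095999))) (P (nat_lit 0))))))), (P (nat_lit 0)), (T.h (T.h (T.h (P (nat_lit 0)) (T.h (P (nat_lit 2547540643335990035118817280)) (T.h (P (nat_lit 0)) (T.h (P (nat_lit 392783585823669878784)) (T.h (P (nat_lit 0)) (M (nat_lit 965174953410559))))))) (T.h (P (nat_lit 0)) (T.h (T.h (P (nat_lit 0)) (T.h (M (nat_lit 19946718446392155570175)) (T.h (P (nat_lit 0)) (P (nat_lit 3402133379809280))))) (T.h (P (nat_lit 0)) (T.h (T.h (P (nat_lit 0)) (P (nat_lit 3801332291633152))) (P (nat_lit 0))))))) (T.h (T.h (P (nat_lit 0)) (T.h (T.h (M (nat_lit 18381355421258832978903039)) (T.h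 (P (nat_lit 0)) (M (nat_lit 36613268445365010431)))) (T.h (P (nat_lit 0)) (M (nat_lit 23203781688285986815))))) (T.h (T.h (T.h (P (nat_lit 0)) (T.h (P (nat_lit 34455666698401404157952)) (T.h (P (nat_lit 0)) (P (nat_lit 584082030985216))))) (T.h (P (nat_lit 0)) (T.h (T.h (P (nat_lit 0)) (M (nat_lit 4932788028899327))) (P (nat_lit 0))))) (T.h (T.h (P (nat_lit 0)) (P (nat_lit 7114211940729094144))) (T.h (T.h (T.h (P (nat_lit 0)) (M (nat_lit 2625970948095999))) (P (nat_lit 0))) (P (nat_lit 0))))))), (P (nat_lit 0)), (P (nat_lit 0)), (P (nat_lit 0)), (P (nat_lit 0))]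
def lP12_33 : List (T ℤ) := [(P (nat_lit 0)), (T.h (T.h (T.h (M (nat_lit 2172631954831739215942938263551)) (T.h (P (nat_lit 0)) (T.h (M (nat_lit 3113098526908072926904319)) (T.h (P (nat_lit 0)) (M (nat_lit 3128846296169840639)))))) (T.h (P (nat_lit 0)) (T.h (T.h (M (nat_lit 3113098526908072926904319)) (T.h (P (nat_lit 0)) (M (nat_lit 5441742847361417215)))) (T.h (P (nat_lit 0)) (M (nat_lit 3128846296169840639)))))) (T.h (T.h (P (nat_lit 0)) (T.h (T.h (P (nat_lit 0)) (T.h (M (nat_lit 6096585033635921395711)) (T.h (P (nat_lit 0)) (P (nat_lit 6037481093464064))))) (T.h (P (nat_lit 0)) (T.h (T.h (P (nat_lit 0)) (P (nat_lit 6037481093464064))) (P (nat_lit 0)))))) (T.h (T.h (T.h (M (nat_lit 7101092557652367280963583)) (T.h (P (nat_lit 0)) (M (nat_lit 11923797260938248191)))) (T.h (P (nat_lit 0)) (M (nat_lit 11923797260938248191)))) (T.h (T.h (P (nat_lit 0)) (T.h (T.h (P (nat_lit 0)) (M (nat_lit 19267366617087999))) (P (nat_lit 0)))) (P (nat_lit 3403652489910681600)))))),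 (P (nat_lit 0)), (P (nat_lit 0)), (P (nat_lit 0)), (P (nat_lit 0)), (P (nat_lit 0))]

def CP12 : List (T ℤ) := lP12_0 ++ (lP12_1 ++ (lP12_2 ++ (lP12_3 ++ (lP12_4 ++ (lP12_5 ++ (lP12_6 ++ (lP12_7 ++ (lP12_8 ++ (lP12_9 ++ (lP12_10 ++ (lP12_11 ++ (lP12_12 ++ (lP12_13 ++ (lP12_14 ++ (lP12_15 ++ (lP12_16 ++ (lP12_17 ++ (lP12_18 ++ (lP12_19 ++ (lP12_20 ++ (lP12_21 ++ (lP12_22 ++ (lP12_23 ++ (lP12_24 ++ (lP12_25 ++ (lP12_26 ++ (lP12_27 ++ (lP12_28 ++ (lP12_29 ++ (lP12_30 ++ (lP12_31 ++ (lP12_32 ++ (lP12_33)))))))))))))))))))))))))))))))))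

/-- norms at radius 1536 -/
def NP12 : List ℕ := [(nat_lit 0), (nat_lit 0), (nat_lit 0), (nat_lit 0), (nat_lit 0), (nat_lit 0), (nat_lit 0), (nat_lit 0), (nat_lit 0), (nat_lit 4410501400340933843783516160000), (nat_lit 0), (nat_lit 0), (nat_lit 494649966725257697485269749465088), (nat_lit 1741280545741802917354271309561856), (nat_lit 1298289750583860843312445952884736), (nat_lit 1741280545741802917354271309561856), (nat_lit 540489967827937282607649061339136), (nat_lit 0), (nat_lit 0), (nat_lit 0), (nat_lit 1329510867508963843657844045905920), (nat_lit 2248618041061839809868342711287808), (nat_lit 1700720524737998732520727504748544), (nat_lit 1854088543177440806441156886921216), (nat_lit 757869054131283449247902466048000), (nat_lit 0), (nat_lit 0), (nat_lit 3092065859416344805118412356321280), (nat_lit 3165445829442172797496873048866816), (nat_lit 4327746780672320838813177452953600), (nat_lit 2234653400492598801573892319084544), (nat_lit 768651863051437294372472271929344),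 (nat_lit 0), (nat_lit 0), (nat_lit 1329510867508963843657844045905920), (nat_lit 3165445829442172797496873048866816), (nat_lit 4830876031400812755072195722477568), (nat_lit 3574663513163537387540341485207552), (nat_lit 1623359920587802913536900035772416), (nat_lit 0), (nat_lit 494649966725257697485269749465088), (nat_lit 2248618041061839809868342711287808), (nat_lit 4327746780672320838813177452953600), (nat_lit 3574663513163537387540341485207552), (nat_lit 1855152369477198666651802007502848), (nat_lit 0), (nat_lit 1741280545741802917354271309561856), (nat_lit 1700720524737998732520727504748544), (nat_lit 2234653400492598801573892319084544), (nat_lit 1623359920587802913536900035772416), (nat_lit 0), (nat_lit 1298289750583860843312445952884736), (nat_lit 1854088543177440806441156886921216), (nat_lit 768651863051437294372472271929344), (nat_lit 0), (nat_lit 1741280545741802917354271309561856), (nat_lit 757869054131283449247902466048000), (nat_lit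 0), (nat_lit 540489967827937282607649061339136), (nat_lit 0), (nat_lit 0), (nat_lit 0), (nat_lit 0), (nat_lit 587936467574660559320317704536064), (nat_lit 0), (nat_lit 0), (nat_lit 0), (nat_lit 0), (nat_lit 0), (nat_lit 1329510867508963843657844045905920), (nat_lit 2323471944644005939220177278205952), (nat_lit 1700720524737998732520727504748544), (nat_lit 1854088543177440806441156886921216), (nat_lit 757869054131283449247902466048000), (nat_lit 0), (nat_lit 0), (nat_lit 713649321919874451129109963603968), (nat_lit 6731646806949131412369173028798464), (nat_lit 1855968684642193835438318070792192), (nat_lit 7359797663696028802899212492603392), (nat_lit 2349967942813161412841034095788032), (nat_lit 0), (nat_lit 0), (nat_lit 713649321919874451129109963603968), (nat_lit 10966744009418741306305490756567040), (nat_lit 4685467137819026435406046873780224), (nat_lit 7342244838134247392484923296186368), (nat_lit 3175339065348844877886902891446272), (nat_lit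 0), (nat_lit 1329510867508963843657844045905920), (nat_lit 6731646806949131412369173028798464), (nat_lit 4685467137819026435406046873780224), (nat_lit 5782740490319792936400157698686976), (nat_lit 2070733505592697315115643294449664), (nat_lit 0), (nat_lit 2323471944644005939220177278205952), (nat_lit 1855968684642193835438318070792192), (nat_lit 7342244838134247392484923296186368), (nat_lit 2070733505592697315115643294449664), (nat_lit 587936467574660559320317704536064), (nat_lit 1700720524737998732520727504748544), (nat_lit 7359797663696028802899212492603392), (nat_lit 3175339065348844877886902891446272), (nat_lit 0), (nat_lit 1854088543177440806441156886921216), (nat_lit 2349967942813161412841034095788032), (nat_lit 0), (nat_lit 757869054131283449247902466048000), (nat_lit 0), (nat_lit 0), (nat_lit 0), (nat_lit 0), (nat_lit 0), (nat_lit 1555733564921828199027285266792448), (nat_lit 0), (nat_lit 0), (nat_lit 0), (nat_lit 0), (nat_lit 0), (nat_lit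 3092065859416344805118412356321280), (nat_lit 5781540744352084261893836126552064), (nat_lit 4327746780672320838813177452953600), (nat_lit 2234653400492598801573892319084544), (nat_lit 768651863051437294372472271929344), (nat_lit 0), (nat_lit 0), (nat_lit 713649321919874451129109963603968), (nat_lit 7615500374465693419364860538388480), (nat_lit 4685467137819026435406046873780224), (nat_lit 7342244838134247392484923296186368), (nat_lit 3175339065348844877886902891446272), (nat_lit 0), (nat_lit 3092065859416344805118412356321280), (nat_lit 7615500374465693419364860538388480), (nat_lit 8290116300301459046298776009441280), (nat_lit 4721043038569530897079290059292672), (nat_lit 2950663527345396033950888698576896), (nat_lit 0), (nat_lit 5781540744352084261893836126552064), (nat_lit 4685467137819026435406046873780224), (nat_lit 4721043038569530897079290059292672), (nat_lit 3375077717050305174312384290881536), (nat_lit 1555733564921828199027285266792448),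 (nat_lit 4327746780672320838813177452953600), (nat_lit 7342244838134247392484923296186368), (nat_lit 2950663527345396033950888698576896), (nat_lit 0), (nat_lit 2234653400492598801573892319084544), (nat_lit 3175339065348844877886902891446272), (nat_lit 0), (nat_lit 768651863051437294372472271929344), (nat_lit 0), (nat_lit 0), (nat_lit 0), (nat_lit 0), (nat_lit 2724258001233008740708456574484480), (nat_lit 0), (nat_lit 0), (nat_lit 0), (nat_lit 0), (nat_lit 0), (nat_lit 1329510867508963843657844045905920), (nat_lit 4963410615939438300315211247124480), (nat_lit 4830876031400812755072195722477568), (nat_lit 3574663513163537387540341485207552), (nat_lit 1623359920587802913536900035772416), (nat_lit 0), (nat_lit 1329510867508963843657844045905920), (nat_lit 6279995193468922268517044479590400), (nat_lit 4685467137819026435406046873780224), (nat_lit 5782740490319792936400157698686976), (nat_lit 2070733505592697315115643294449664), (nat_lit 0), (nat_lit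 4963410615939438300315211247124480), (nat_lit 4685467137819026435406046873780224), (nat_lit 4721043038569530897079290059292672), (nat_lit 3375077717050305174312384290881536), (nat_lit 2724258001233008740708456574484480), (nat_lit 4830876031400812755072195722477568), (nat_lit 5782740490319792936400157698686976), (nat_lit 3375077717050305174312384290881536), (nat_lit 0), (nat_lit 3574663513163537387540341485207552), (nat_lit 2070733505592697315115643294449664), (nat_lit 0), (nat_lit 1623359920587802913536900035772416), (nat_lit 0), (nat_lit 0), (nat_lit 0), (nat_lit 0), (nat_lit 1518425559772130045613284668735488), (nat_lit 0), (nat_lit 0), (nat_lit 0), (nat_lit 0), (nat_lit 494649966725257697485269749465088), (nat_lit 4654385947334593218963848652914688), (nat_lit 4327746780672320838813177452953600), (nat_lit 3574663513163537387540341485207552), (nat_lit 1855152369477198666651802007502848), (nat_lit 0), (nat_lit 4654385947334593218963848652914688),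 (nat_lit 1855968684642193835438318070792192), (nat_lit 7342244838134247392484923296186368), (nat_lit 2070733505592697315115643294449664), (nat_lit 1518425559772130045613284668735488), (nat_lit 4327746780672320838813177452953600), (nat_lit 7342244838134247392484923296186368), (nat_lit 2950663527345396033950888698576896), (nat_lit 0), (nat_lit 3574663513163537387540341485207552), (nat_lit 2070733505592697315115643294449664), (nat_lit 0), (nat_lit 1855152369477198666651802007502848), (nat_lit 0), (nat_lit 0), (nat_lit 0), (nat_lit 2724258001233008740708456574484480), (nat_lit 0), (nat_lit 0), (nat_lit 0), (nat_lit 0), (nat_lit 4319355998701993363626551263887360), (nat_lit 1700720524737998732520727504748544), (nat_lit 2234653400492598801573892319084544), (nat_lit 1623359920587802913536900035772416), (nat_lit 2724258001233008740708456574484480), (nat_lit 1700720524737998732520727504748544), (nat_lit 7359797663696028802899212492603392), (nat_lit 3175339065348844877886902891446272),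 (nat_lit 0), (nat_lit 2234653400492598801573892319084544), (nat_lit 3175339065348844877886902891446272), (nat_lit 0), (nat_lit 1623359920587802913536900035772416), (nat_lit 0), (nat_lit 0), (nat_lit 1555733564921828199027285266792448), (nat_lit 0), (nat_lit 0), (nat_lit 0), (nat_lit 1555733564921828199027285266792448), (nat_lit 1298289750583860843312445952884736), (nat_lit 1854088543177440806441156886921216), (nat_lit 768651863051437294372472271929344), (nat_lit 0), (nat_lit 1854088543177440806441156886921216), (nat_lit 2349967942813161412841034095788032), (nat_lit 0), (nat_lit 768651863051437294372472271929344), (nat_lit 0), (nat_lit 587936467574660559320317704536064), (nat_lit 0), (nat_lit 0), (nat_lit 0), (nat_lit 0), (nat_lit 1741280545741802917354271309561856), (nat_lit 757869054131283449247902466048000), (nat_lit 0), (nat_lit 757869054131283449247902466048000), (nat_lit 0), (nat_lit 0), (nat_lit 0), (nat_lit 0), (nat_lit 0), (nat_lit 540489967827937282607649061339136),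 (nat_lit 0), (nat_lit 0), (nat_lit 0), (nat_lit 0), (nat_lit 0)]


def lP22_0 : List (T ℤ) := [(P (nat_lit 0)), (M (nat_lit 4410501400340933843783516159999)), (P (nat_lit 0)), (P (nat_lit 0)), (T.h (T.h (T.h (M (nat_lit 128120900552666237134832664575)) (T.h (P (nat_lit 0)) (T.h (P (nat_lit 244345310791578333216768)) (T.h (P (nat_lit 0)) (T.h (P (nat_lit 622944617486090240)) (T.h (P (nat_lit 0)) (M (nat_lit 2463187883231)))))))) (T.h (P (nat_lit 0)) (T.h (T.h (M (nat_lit 374856245789455152054271)) (T.h (P (nat_lit 0)) (T.h (M (nat_lit 1937253098095378431)) (T.h (P (nat_lit 0)) (P (nat_lit 3986189105440)))))) (T.h (P (nat_lit 0)) (T.h (T.h (M (nat_lit 3158064110562705407)) (T.h (P (nat_lit 0)) (P (nat_lit 2707914055472)))) (T.h (P (nat_lit 0)) (P (nat_lit 1380574505568)))))))) (T.h (T.h (P (nat_lit 0)) (T.h (T.h (P (nat_lit 0)) (T.h (M (nat_lit 1980045858969294471167)) (T.h (P (nat_lit 0)) (P (nat_lit 3795046400131072))))) (T.h (P (nat_lit 0))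 (T.h (T.h (P (nat_lit 0)) (P (nat_lit 2866966031630336))) (P (nat_lit 0)))))) (T.h (T.h (T.h (M (nat_lit 374856245789455152054271)) (T.h (P (nat_lit 0)) (T.h (M (nat_lit 1937253098095378431)) (T.h (P (nat_lit 0)) (P (nat_lit 3986189105440)))))) (T.h (P (nat_lit 0)) (T.h (T.h (M (nat_lit 1706496107061706751)) (T.h (P (nat_lit 0)) (P (nat_lit 4438957717760)))) (T.h (P (nat_lit 0)) (P (nat_lit 1184705075472)))))) (T.h (T.h (P (nat_lit 0)) (T.h (T.h (P (nat_lit 0)) (P (nat_lit 2866966031630336))) (P (nat_lit 0)))) (T.h (T.h (T.h (M (nat_lit 3158064110562705407)) (T.h (P (nat_lit 0)) (P (nat_lit 2707914055472)))) (T.h (P (nat_lit 0)) (P (nat_lit 1184705075472)))) (T.h (P (nat_lit 0)) (P (nat_lit 1380574505568)))))))), (T.h (T.h (T.h (P (nat_lit 0)) (T.h (M (nat_lit 6708703288543951383055826943)) (T.h (P (nat_lit 0)) (T.h (M (nat_lit 8639614918792361017343)) (T.h (P (nat_lit 0)) (P (nat_lit 12079869476732928))))))) (T.h (P (nat_lit 0)) (T.h (T.h (P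 (nat_lit 0)) (T.h (M (nat_lit 9336552845164421316607)) (T.h (P (nat_lit 0)) (M (nat_lit 17301337354928127))))) (T.h (P (nat_lit 0)) (T.h (T.h (P (nat_lit 0)) (M (nat_lit 10096859823996927))) (P (nat_lit 0))))))) (T.h (T.h (P (nat_lit 0)) (T.h (T.h (P (nat_lit 2367679197508544791314432)) (T.h (P (nat_lit 0)) (T.h (M (nat_lit 16662209236586987519)) (T.h (P (nat_lit 0)) (M (nat_lit 14111840783999)))))) (T.h (P (nat_lit 0)) (T.h (T.h (M (nat_lit 18959063845215141887)) (T.h (P (nat_lit 0)) (P (nat_lit 16464759474008)))) (T.h (P (nat_lit 0)) (P (nat_lit 1709027307648))))))) (T.h (T.h (T.h (P (nat_lit 0)) (T.h (M (nat_lit 4825756084058852425727)) (T.h (P (nat_lit 0)) (M (nat_lit 22339981025869823))))) (T.h (P (nat_lit 0)) (T.h (T.h (P (nat_lit 0)) (M (nat_lit 22001358117797887))) (P (nat_lit 0))))) (T.h (T.h (P (nat_lit 0)) (T.h (T.h (M (nat_lit 17490023526864781311)) (T.h (P (nat_lit 0)) (P (nat_lit 1223173417000)))) (T.h (P (nat_lit 0)) (P (nat_lit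 4452436307520))))) (T.h (T.h (T.h (P (nat_lit 0)) (M (nat_lit 13727318916464639))) (P (nat_lit 0))) (T.h (T.h (P (nat_lit 0)) (P (nat_lit 1111384698048))) (P (nat_lit 0)))))))), (T.h (T.h (T.h (P (nat_lit 7707325677427308464448959676416)) (T.h (P (nat_lit 0)) (T.h (P (nat_lit 6115846739255371820433408)) (T.h (P (nat_lit 0)) (T.h (M (nat_lit 6761073294046134271)) (T.h (P (nat_lit 0)) (P (nat_lit 5745344476032)))))))) (T.h (P (nat_lit 0)) (T.h (T.h (P (nat_lit 2901120429012419390472192)) (T.h (P (nat_lit 0)) (T.h (P (nat_lit 15647870045474783232)) (T.h (P (nat_lit 0)) (M (nat_lit 6986606627727)))))) (T.h (P (nat_lit 0)) (T.h (T.h (P (nat_lit 5890513963451416576)) (T.h (P (nat_lit 0)) (M (nat_lit 4692097755967)))) (T.h (P (nat_lit 0)) (M (nat_lit 1109493383599)))))))) (T.h (T.h (P (nat_lit 0)) (T.h (T.h (P (nat_lit 0)) (T.h (P (nat_lit 9365546830999188406272)) (T.h (P (nat_lit 0)) (P (nat_lit 11959213971734528))))) (T.h (P (nat_lit 0)) (T.h (T.h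 (P (nat_lit 0)) (M (nat_lit 11019108930781183))) (P (nat_lit 0)))))) (T.h (T.h (T.h (P (nat_lit 2901120429012419390472192)) (T.h (P (nat_lit 0)) (T.h (P (nat_lit 15647870045474783232)) (T.h (P (nat_lit 0)) (M (nat_lit 6986606627727)))))) (T.h (P (nat_lit 0)) (T.h (T.h (P (nat_lit 12105851740364996608)) (T.h (P (nat_lit 0)) (M (nat_lit 10354312704511)))) (T.h (P (nat_lit 0)) (M (nat_lit 1741740014223)))))) (T.h (T.h (P (nat_lit 0)) (T.h (T.h (P (nat_lit 0)) (M (nat_lit 11019108930781183))) (P (nat_lit 0)))) (T.h (T.h (T.h (P (nat_lit 5890513963451416576)) (T.h (P (nat_lit 0)) (M (nat_lit 4692097755967)))) (T.h (P (nat_lit 0)) (M (nat_lit 1741740014223)))) (T.h (P (nat_lit 0)) (M (nat_lit 1109493383599)))))))), (T.h (T.h (T.h (P (nat_lit 0)) (T.h (P (nat_lit 6708703288543951383055826944)) (T.h (P (nat_lit 0)) (T.h (P (nat_lit 8639614918792361017344)) (T.h (P (nat_lit 0)) (M (nat_lit 12079869476732927))))))) (T.h (P (nat_lit 0)) (T.h (T.h (P (nat_lit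 0)) (T.h (P (nat_lit 7081154464611636871168)) (T.h (P (nat_lit 0)) (P (nat_lit 19820659190398976))))) (T.h (P (nat_lit 0)) (T.h (T.h (P (nat_lit 0)) (P (nat_lit 11912089370230784))) (P (nat_lit 0))))))) (T.h (T.h (P (nat_lit 0)) (T.h (T.h (M (nat_lit 2367679197508544791314431)) (T.h (P (nat_lit 0)) (T.h (P (nat_lit 16662209236586987520)) (T.h (P (nat_lit 0)) (P (nat_lit 14111840784000)))))) (T.h (P (nat_lit 0)) (T.h (T.h (P (nat_lit 18224543686039961600)) (T.h (P (nat_lit 0)) (M (nat_lit 8843966445503)))) (T.h (P (nat_lit 0)) (M (nat_lit 1410206002847))))))) (T.h (T.h (T.h (P (nat_lit 0)) (T.h (P (nat_lit 7081154464611636871168)) (T.h (P (nat_lit 0)) (P (nat_lit 19820659190398976))))) (T.h (P (nat_lit 0)) (T.h (T.h (P (nat_lit 0)) (P (nat_lit 22001358117797888))) (P (nat_lit 0))))) (T.h (T.h (P (nat_lit 0)) (T.h (T.h (P (nat_lit 18224543686039961600)) (T.h (P (nat_lit 0)) (M (nat_lit 8843966445503)))) (T.h (P (nat_lit 0)) (M (nat_lit 4452436307519)))))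 (T.h (T.h (T.h (P (nat_lit 0)) (P (nat_lit 11912089370230784))) (P (nat_lit 0))) (T.h (T.h (P (nat_lit 0)) (M (nat_lit 1410206002847))) (P (nat_lit 0))))))))]
def lP22_1 : List (T ℤ) := [(T.h (T.h (T.h (M (nat_lit 2172631954831739215942938263551)) (T.h (P (nat_lit 0)) (T.h (M (nat_lit 7101092557652367280963583)) (T.h (P (nat_lit 0)) (P (nat_lit 3403652489910681600)))))) (T.h (P (nat_lit 0)) (T.h (T.h (M (nat_lit 3113098526908072926904319)) (T.h (P (nat_lit 0)) (M (nat_lit 11923797260938248191)))) (T.h (P (nat_lit 0)) (M (nat_lit 3128846296169840639)))))) (T.h (T.h (P (nat_lit 0)) (T.h (T.h (P (nat_lit 0)) (T.h (M (nat_lit 6096585033635921395711)) (T.h (P (nat_lit 0)) (M (nat_lit 19267366617087999))))) (T.h (P (nat_lit 0)) (T.h (T.h (P (nat_lit 0)) (P (nat_lit 6037481093464064))) (P (nat_lit 0)))))) (T.h (T.h (T.h (M (nat_lit 3113098526908072926904319)) (T.h (P (nat_lit 0)) (M (nat_lit 11923797260938248191)))) (T.h (P (nat_lit 0)) (M (nat_lit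 5441742847361417215)))) (T.h (T.h (P (nat_lit 0)) (T.h (T.h (P (nat_lit 0)) (P (nat_lit 6037481093464064))) (P (nat_lit 0)))) (M (nat_lit 3128846296169840639)))))), (P (nat_lit 0)), (P (nat_lit 0)), (P (nat_lit 0)), (T.h (T.h (P (nat_lit 0)) (T.h (T.h (P (nat_lit 0)) (T.h (P (nat_lit 8967851728135020949274624)) (T.h (P (nat_lit 0)) (T.h (P (nat_lit 5808715515924840448)) (T.h (P (nat_lit 0)) (M (nat_lit 6298334266991))))))) (T.h (P (nat_lit 0)) (T.h (T.h (P (nat_lit 0)) (T.h (M (nat_lit 1632295132411723775)) (T.h (P (nat_lit 0)) (M (nat_lit 1954457784095))))) (T.h (P (nat_lit 0)) (T.h (T.h (P (nat_lit 0)) (M (nat_lit 1262651453183))) (P (nat_lit 0)))))))) (T.h (T.h (T.h (P (nat_lit 382278186225956246805020672)) (T.h (P (nat_lit 0)) (T.h (M (nat_lit 6393028105238678077439)) (T.h (P (nat_lit 0)) (P (nat_lit 10182874572193792)))))) (T.h (P (nat_lit 0)) (T.h (T.h (P (nat_lit 4917025952193526628352)) (T.h (P (nat_lit 0)) (P (nat_lit 17704818290655232))))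 (T.h (P (nat_lit 0)) (P (nat_lit 566836548272128)))))) (T.h (T.h (P (nat_lit 0)) (T.h (T.h (P (nat_lit 0)) (T.h (P (nat_lit 21437333873006477312)) (T.h (P (nat_lit 0)) (M (nat_lit 14649144822207))))) (T.h (P (nat_lit 0)) (T.h (T.h (P (nat_lit 0)) (P (nat_lit 7808644584816))) (P (nat_lit 0)))))) (T.h (T.h (T.h (M (nat_lit 2314989451720488124415)) (T.h (P (nat_lit 0)) (M (nat_lit 20917731012706303)))) (T.h (P (nat_lit 0)) (P (nat_lit 13535529003122688)))) (T.h (T.h (P (nat_lit 0)) (T.h (T.h (P (nat_lit 0)) (P (nat_lit 9389964963200))) (P (nat_lit 0)))) (M (nat_lit 1940894262886399))))))), (T.h (T.h (P (nat_lit 0)) (T.h (T.h (M (nat_lit 6924666312730873039744401407)) (T.h (P (nat_lit 0)) (T.h (M (nat_lit 13034215677552899391487)) (T.h (P (nat_lit 0)) (P (nat_lit 27806606744977408)))))) (T.h (P (nat_lit 0)) (T.h (T.h (P (nat_lit 5224766766905693306880)) (T.h (P (nat_lit 0)) (M (nat_lit 18326436873601023)))) (T.h (P (nat_lit 0)) (M (nat_lit 14235708366225407)))))))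 (T.h (T.h (T.h (P (nat_lit 0)) (T.h (P (nat_lit 5810283156555816016805888)) (T.h (P (nat_lit 0)) (T.h (P (nat_lit 41172884228734451712)) (T.h (P (nat_lit 0)) (P (nat_lit 4509737917544))))))) (T.h (P (nat_lit 0)) (T.h (T.h (P (nat_lit 0)) (T.h (P (nat_lit 2086100085598322688)) (T.h (P (nat_lit 0)) (M (nat_lit 16296856776735))))) (T.h (P (nat_lit 0)) (T.h (T.h (P (nat_lit 0)) (P (nat_lit 4779188645288))) (P (nat_lit 0))))))) (T.h (T.h (P (nat_lit 0)) (T.h (T.h (P (nat_lit 20966851406420814856192)) (T.h (P (nat_lit 0)) (M (nat_lit 16257695584583679)))) (T.h (P (nat_lit 0)) (P (nat_lit 805034664558592))))) (T.h (T.h (T.h (P (nat_lit 0)) (T.h (P (nat_lit 45427878034464047104)) (T.h (P (nat_lit 0)) (P (nat_lit 13433110305528))))) (T.h (P (nat_lit 0)) (T.h (T.h (P (nat_lit 0)) (P (nat_lit 18179075001016))) (P (nat_lit 0))))) (T.h (T.h (P (nat_lit 0)) (P (nat_lit 14704517348524032))) (T.h (T.h (T.h (P (nat_lit 0)) (P (nat_lit 3774720305552))) (P (nat_lit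 0))) (P (nat_lit 0)))))))), (T.h (T.h (P (nat_lit 0)) (T.h (T.h (P (nat_lit 0)) (T.h (P (nat_lit 11799924226416691745128448)) (T.h (P (nat_lit 0)) (T.h (M (nat_lit 13066312361172795391)) (T.h (P (nat_lit 0)) (P (nat_lit 11861041236576))))))) (T.h (P (nat_lit 0)) (T.h (T.h (P (nat_lit 0)) (T.h (P (nat_lit 24992502955122884608)) (T.h (P (nat_lit 0)) (P (nat_lit 4308734371088))))) (T.h (P (nat_lit 0)) (T.h (T.h (P (nat_lit 0)) (P (nat_lit 3040955945440))) (P (nat_lit 0)))))))) (T.h (T.h (T.h (M (nat_lit 832454746821739008015466495)) (T.h (P (nat_lit 0)) (T.h (M (nat_lit 32130929532941937672191)) (T.h (P (nat_lit 0)) (P (nat_lit 5910113848442880)))))) (T.h (P (nat_lit 0)) (T.h (T.h (M (nat_lit 4047631849667556278271)) (T.h (P (nat_lit 0)) (P (nat_lit 703405565444096)))) (T.h (P (nat_lit 0)) (M (nat_lit 6980540568846335)))))) (T.h (T.h (P (nat_lit 0)) (T.h (T.h (P (nat_lit 0)) (T.h (P (nat_lit 22920260165497257984)) (T.h (P (nat_lit 0)) (P (nat_lit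 19135086581520))))) (T.h (P (nat_lit 0)) (T.h (T.h (P (nat_lit 0)) (M (nat_lit 4081026789279))) (P (nat_lit 0)))))) (T.h (T.h (T.h (P (nat_lit 2581207630647769694208)) (T.h (P (nat_lit 0)) (P (nat_lit 21537784946409472)))) (T.h (P (nat_lit 0)) (M (nat_lit 25091771215478783)))) (T.h (T.h (P (nat_lit 0)) (T.h (T.h (P (nat_lit 0)) (M (nat_lit 6622509720623))) (P (nat_lit 0)))) (P (nat_lit 3821690648035328))))))), (T.h (T.h (P (nat_lit 0)) (T.h (T.h (P (nat_lit 5365436076063364494613544960)) (T.h (P (nat_lit 0)) (T.h (P (nat_lit 16692309233254172459008)) (T.h (P (nat_lit 0)) (M (nat_lit 24295617010860031)))))) (T.h (P (nat_lit 0)) (T.h (T.h (M (nat_lit 2829647422335983026175)) (T.h (P (nat_lit 0)) (P (nat_lit 17366088078819328)))) (T.h (P (nat_lit 0)) (P (nat_lit 8555427069952000))))))) (T.h (T.h (T.h (P (nat_lit 0)) (T.h (M (nat_lit 13089024482181258328145919)) (T.h (P (nat_lit 0)) (T.h (M (nat_lit 36766634793414688767)) (T.h (P (nat_lit 0)) (M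 (nat_lit 1283713304399))))))) (T.h (P (nat_lit 0)) (T.h (T.h (P (nat_lit 0)) (T.h (P (nat_lit 25093469970943180800)) (T.h (P (nat_lit 0)) (P (nat_lit 13661142254976))))) (T.h (P (nat_lit 0)) (T.h (T.h (P (nat_lit 0)) (M (nat_lit 4085685683903))) (P (nat_lit 0))))))) (T.h (T.h (P (nat_lit 0)) (T.h (T.h (M (nat_lit 23003241910279304380415)) (T.h (P (nat_lit 0)) (P (nat_lit 26953724719824896)))) (T.h (P (nat_lit 0)) (P (nat_lit 6090253865844736))))) (T.h (T.h (T.h (P (nat_lit 0)) (T.h (M (nat_lit 32647441060556963839)) (T.h (P (nat_lit 0)) (P (nat_lit 2377596206784))))) (T.h (P (nat_lit 0)) (T.h (T.h (P (nat_lit 0)) (P (nat_lit 3390121286400))) (P (nat_lit 0))))) (T.h (T.h (P (nat_lit 0)) (M (nat_lit 4868192976011263))) (T.h (T.h (T.h (P (nat_lit 0)) (P (nat_lit 4237866999168))) (P (nat_lit 0))) (P (nat_lit 0))))))))]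
def lP22_2 : List (T ℤ) := [(T.h (T.h (P (nat_lit 0)) (T.h (T.h (P (nat_lit 0)) (T.h (M (nat_lit 18381355421258832978903039)) (T.h (P (nat_lit 0)) (P (nat_lit 7114211940729094144))))) (T.h (P (nat_lit 0)) (T.h (T.h (P (nat_lit 0)) (M (nat_lit 23203781688285986815))) (P (nat_lit 0)))))) (T.h (T.h (T.h (P (nat_lit 2547540643335990035118817280)) (T.h (P (nat_lit 0)) (T.h (P (nat_lit 34455666698401404157952)) (T.h (P (nat_lit 0)) (M (nat_lit 2625970948095999)))))) (T.h (P (nat_lit 0)) (T.h (T.h (M (nat_lit 19946718446392155570175)) (T.h (P (nat_lit 0)) (M (nat_lit 4932788028899327)))) (T.h (P (nat_lit 0)) (P (nat_lit 3801332291633152)))))) (T.h (T.h (P (nat_lit 0)) (T.h (T.h (P (nat_lit 0)) (M (nat_lit 36613268445365010431))) (P (nat_lit 0)))) (T.h (T.h (T.h (P (nat_lit 392783585823669878784)) (T.h (P (nat_lit 0)) (P (nat_lit 584082030985216)))) (T.h (P (nat_lit 0)) (P (nat_lit 3402133379809280)))) (T.h (P (nat_lit 0)) (M (nat_lit 965174953410559))))))),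 (P (nat_lit 0)), (P (nat_lit 0)), (P (nat_lit 0)), (T.h (T.h (T.h (P (nat_lit 2362981971938681723231315951616)) (T.h (P (nat_lit 0)) (T.h (P (nat_lit 2807452377464748726288384)) (T.h (P (nat_lit 0)) (T.h (P (nat_lit 1473600440821088256)) (T.h (P (nat_lit 0)) (P (nat_lit 1881683625120)))))))) (T.h (P (nat_lit 0)) (T.h (T.h (P (nat_lit 2807452377464748726288384)) (T.h (P (nat_lit 0)) (T.h (P (nat_lit 47444693086864670720)) (T.h (P (nat_lit 0)) (M (nat_lit 18230505796079)))))) (T.h (P (nat_lit 0)) (T.h (T.h (P (nat_lit 1473600440821088256)) (T.h (P (nat_lit 0)) (M (nat_lit 18230505796079)))) (T.h (P (nat_lit 0)) (P (nat_lit 1881683625120)))))))) (T.h (T.h (P (nat_lit 0)) (T.h (T.h (P (nat_lit 0)) (T.h (M (nat_lit 50356209117790411423743)) (T.h (P (nat_lit 0)) (P (nat_lit 40788069370691584))))) (T.h (P (nat_lit 0)) (T.h (T.h (P (nat_lit 0)) (P (nat_lit 40788069370691584))) (P (nat_lit 0)))))) (T.h (T.h (T.h (M (nat_lit 7333312270972622047543295))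 (T.h (P (nat_lit 0)) (T.h (M (nat_lit 5859465466359054335)) (T.h (P (nat_lit 0)) (P (nat_lit 1042106905216)))))) (T.h (P (nat_lit 0)) (T.h (T.h (M (nat_lit 5859465466359054335)) (T.h (P (nat_lit 0)) (M (nat_lit 2800608362303)))) (T.h (P (nat_lit 0)) (P (nat_lit 1042106905216)))))) (T.h (T.h (P (nat_lit 0)) (T.h (T.h (P (nat_lit 0)) (M (nat_lit 124448709464817663))) (P (nat_lit 0)))) (T.h (T.h (T.h (P (nat_lit 2883080607284330496)) (T.h (P (nat_lit 0)) (P (nat_lit 5661848525520)))) (T.h (P (nat_lit 0)) (P (nat_lit 5661848525520)))) (T.h (P (nat_lit 0)) (M (nat_lit 938032279007)))))))), (T.h (T.h (T.h (P (nat_lit 0)) (T.h (P (nat_lit 5868077265898543568226615296)) (T.h (P (nat_lit 0)) (T.h (M (nat_lit 17960240460068412194815)) (T.h (P (nat_lit 0)) (M (nat_lit 6184202340007935))))))) (T.h (P (nat_lit 0)) (T.h (T.h (P (nat_lit 0)) (T.h (M (nat_lit 30977542478894093828095)) (T.h (P (nat_lit 0)) (P (nat_lit 83312061680222208))))) (T.h (P (nat_lit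 0)) (T.h (T.h (P (nat_lit 0)) (P (nat_lit 2865318050037760))) (P (nat_lit 0))))))) (T.h (T.h (P (nat_lit 0)) (T.h (T.h (P (nat_lit 13739223594421542558105600)) (T.h (P (nat_lit 0)) (T.h (P (nat_lit 23470598196360642560)) (T.h (P (nat_lit 0)) (P (nat_lit 14476686885368)))))) (T.h (P (nat_lit 0)) (T.h (T.h (P (nat_lit 7385027208714125312)) (T.h (P (nat_lit 0)) (M (nat_lit 14844636919919)))) (T.h (P (nat_lit 0)) (P (nat_lit 9003225838696))))))) (T.h (T.h (T.h (P (nat_lit 0)) (T.h (M (nat_lit 26700015962339074375679)) (T.h (P (nat_lit 0)) (M (nat_lit 22572802849243135))))) (T.h (P (nat_lit 0)) (T.h (T.h (P (nat_lit 0)) (M (nat_lit 66931479672619007))) (P (nat_lit 0))))) (T.h (T.h (P (nat_lit 0)) (T.h (T.h (P (nat_lit 15287187009160871936)) (T.h (P (nat_lit 0)) (P (nat_lit 15453759794080)))) (T.h (P (nat_lit 0)) (M (nat_lit 5730851703471))))) (T.h (T.h (T.h (P (nat_lit 0)) (M (nat_lit 25377768435810303))) (P (nat_lit 0))) (T.h (T.h (P (nat_lit 0))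 (P (nat_lit 3021184331912))) (P (nat_lit 0)))))))), (T.h (T.h (T.h (P (nat_lit 8547243003319011634805544583168)) (T.h (P (nat_lit 0)) (T.h (M (nat_lit 10074423422740968400486399)) (T.h (P (nat_lit 0)) (T.h (P (nat_lit 2900983089347952640)) (T.h (P (nat_lit 0)) (M (nat_lit 8507132336751)))))))) (T.h (P (nat_lit 0)) (T.h (T.h (P (nat_lit 14510347300884980999127040)) (T.h (P (nat_lit 0)) (T.h (M (nat_lit 56693657735398424575)) (T.h (P (nat_lit 0)) (P (nat_lit 37577714858544)))))) (T.h (P (nat_lit 0)) (T.h (T.h (P (nat_lit 35610800256633012224)) (T.h (P (nat_lit 0)) (P (nat_lit 29692863900784)))) (T.h (P (nat_lit 0)) (M (nat_lit 4773610931599)))))))) (T.h (T.h (P (nat_lit 0)) (T.h (T.h (P (nat_lit 0)) (T.h (M (nat_lit 5544913477966684487679)) (T.h (P (nat_lit 0)) (M (nat_lit 51337459934527487))))) (T.h (P (nat_lit 0)) (T.h (T.h (P (nat_lit 0)) (P (nat_lit 788703454953472))) (P (nat_lit 0)))))) (T.h (T.h (T.h (M (nat_lit 15586726180167793191682047))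 (T.h (P (nat_lit 0)) (T.h (P (nat_lit 14865489118221041664)) (T.h (P (nat_lit 0)) (M (nat_lit 16452623026111)))))) (T.h (P (nat_lit 0)) (T.h (T.h (P (nat_lit 35663318068957806592)) (T.h (P (nat_lit 0)) (P (nat_lit 14277571269584)))) (T.h (P (nat_lit 0)) (P (nat_lit 15366368407824)))))) (T.h (T.h (P (nat_lit 0)) (T.h (T.h (P (nat_lit 0)) (P (nat_lit 107443297016119296))) (P (nat_lit 0)))) (T.h (T.h (T.h (M (nat_lit 25082296066384068607)) (T.h (P (nat_lit 0)) (M (nat_lit 8671366263727)))) (T.h (P (nat_lit 0)) (M (nat_lit 6732252487071)))) (T.h (P (nat_lit 0)) (M (nat_lit 1807611555343)))))))), (T.h (T.h (T.h (P (nat_lit 0)) (T.h (P (nat_lit 5075728687560414900525203456)) (T.h (P (nat_lit 0)) (T.h (M (nat_lit 4975638722445056147455)) (T.h (P (nat_lit 0)) (P (nat_lit 15728383238602752))))))) (T.h (P (nat_lit 0)) (T.h (T.h (P (nat_lit 0)) (T.h (P (nat_lit 30406151196474345521152)) (T.h (P (nat_lit 0)) (M (nat_lit 43971231570493439))))) (T.h (P (nat_lit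 0)) (T.h (T.h (P (nat_lit 0)) (P (nat_lit 31295638072459264))) (P (nat_lit 0))))))) (T.h (T.h (P (nat_lit 0)) (T.h (T.h (M (nat_lit 15188638981517575697989631)) (T.h (P (nat_lit 0)) (T.h (P (nat_lit 3965753984890699776)) (T.h (P (nat_lit 0)) (M (nat_lit 3300786166367)))))) (T.h (P (nat_lit 0)) (T.h (T.h (P (nat_lit 12216619188252311552)) (T.h (P (nat_lit 0)) (P (nat_lit 253154553840)))) (T.h (P (nat_lit 0)) (M (nat_lit 4836003780143))))))) (T.h (T.h (T.h (P (nat_lit 0)) (T.h (P (nat_lit 19474584951922158993408)) (T.h (P (nat_lit 0)) (P (nat_lit 4315555809820672))))) (T.h (P (nat_lit 0)) (T.h (T.h (P (nat_lit 0)) (M (nat_lit 24912020807942143))) (P (nat_lit 0))))) (T.h (T.h (P (nat_lit 0)) (T.h (T.h (M (nat_lit 27117710602233970687)) (T.h (P (nat_lit 0)) (P (nat_lit 9557671096032)))) (T.h (P (nat_lit 0)) (P (nat_lit 14947988241648))))) (T.h (T.h (T.h (P (nat_lit 0)) (M (nat_lit 17724020956954623))) (P (nat_lit 0))) (T.h (T.h (P (nat_lit 0)) (M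 (nat_lit 10644566670095))) (P (nat_lit 0))))))))]
def lP22_3 : List (T ℤ) := [(T.h (T.h (T.h (M (nat_lit 848019981192476839092825358335)) (T.h (P (nat_lit 0)) (T.h (P (nat_lit 3438041479358372487626752)) (T.h (P (nat_lit 0)) (M (nat_lit 3512947433225060351)))))) (T.h (P (nat_lit 0)) (T.h (T.h (M (nat_lit 6614624667399100999663615)) (T.h (P (nat_lit 0)) (M (nat_lit 19910758226580209663)))) (T.h (P (nat_lit 0)) (M (nat_lit 30926891337990012927)))))) (T.h (T.h (P (nat_lit 0)) (T.h (T.h (P (nat_lit 0)) (T.h (P (nat_lit 41729021910207325798400)) (T.h (P (nat_lit 0)) (M (nat_lit 4819333066915839))))) (T.h (P (nat_lit 0)) (T.h (T.h (P (nat_lit 0)) (P (nat_lit 5405502678335488))) (P (nat_lit 0)))))) (T.h (T.h (T.h (P (nat_lit 10653213847725133906575360)) (T.h (P (nat_lit 0)) (M (nat_lit 3300389089831813119)))) (T.h (P (nat_lit 0)) (P (nat_lit 3947790254513061888)))) (T.h (T.h (P (nat_lit 0)) (T.h (T.h (P (nat_lit 0)) (M (nat_lit 8839026266406911)))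 (P (nat_lit 0)))) (P (nat_lit 11113978180799561728)))))), (P (nat_lit 0)), (P (nat_lit 0)), (T.h (T.h (P (nat_lit 0)) (T.h (T.h (P (nat_lit 0)) (T.h (P (nat_lit 8967851728135020949274624)) (T.h (P (nat_lit 0)) (T.h (M (nat_lit 1632295132411723775)) (T.h (P (nat_lit 0)) (M (nat_lit 1262651453183))))))) (T.h (P (nat_lit 0)) (T.h (T.h (P (nat_lit 0)) (T.h (P (nat_lit 5808715515924840448)) (T.h (P (nat_lit 0)) (M (nat_lit 1954457784095))))) (T.h (P (nat_lit 0)) (T.h (T.h (P (nat_lit 0)) (M (nat_lit 6298334266991))) (P (nat_lit 0)))))))) (T.h (T.h (T.h (P (nat_lit 382278186225956246805020672)) (T.h (P (nat_lit 0)) (T.h (P (nat_lit 4917025952193526628352)) (T.h (P (nat_lit 0)) (P (nat_lit 566836548272128)))))) (T.h (P (nat_lit 0)) (T.h (T.h (M (nat_lit 6393028105238678077439)) (T.h (P (nat_lit 0)) (P (nat_lit 17704818290655232)))) (T.h (P (nat_lit 0)) (P (nat_lit 10182874572193792)))))) (T.h (T.h (P (nat_lit 0)) (T.h (T.h (P (nat_lit 0)) (T.h (P (nat_lit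 21437333873006477312)) (T.h (P (nat_lit 0)) (P (nat_lit 7808644584816))))) (T.h (P (nat_lit 0)) (T.h (T.h (P (nat_lit 0)) (M (nat_lit 14649144822207))) (P (nat_lit 0)))))) (T.h (T.h (T.h (M (nat_lit 2314989451720488124415)) (T.h (P (nat_lit 0)) (P (nat_lit 13535529003122688)))) (T.h (P (nat_lit 0)) (M (nat_lit 20917731012706303)))) (T.h (T.h (P (nat_lit 0)) (T.h (T.h (P (nat_lit 0)) (P (nat_lit 9389964963200))) (P (nat_lit 0)))) (M (nat_lit 1940894262886399))))))), (T.h (T.h (P (nat_lit 0)) (T.h (T.h (P (nat_lit 5868077265898543568226615296)) (T.h (P (nat_lit 0)) (T.h (M (nat_lit 30977542478894093828095)) (T.h (P (nat_lit 0)) (P (nat_lit 2865318050037760)))))) (T.h (P (nat_lit 0)) (T.h (T.h (M (nat_lit 17960240460068412194815)) (T.h (P (nat_lit 0)) (P (nat_lit 83312061680222208)))) (T.h (P (nat_lit 0)) (M (nat_lit 6184202340007935))))))) (T.h (T.h (T.h (P (nat_lit 0)) (T.h (P (nat_lit 13739223594421542558105600)) (T.h (P (nat_lit 0)) (T.h (P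 (nat_lit 7385027208714125312)) (T.h (P (nat_lit 0)) (P (nat_lit 9003225838696))))))) (T.h (P (nat_lit 0)) (T.h (T.h (P (nat_lit 0)) (T.h (P (nat_lit 23470598196360642560)) (T.h (P (nat_lit 0)) (M (nat_lit 14844636919919))))) (T.h (P (nat_lit 0)) (T.h (T.h (P (nat_lit 0)) (P (nat_lit 14476686885368))) (P (nat_lit 0))))))) (T.h (T.h (P (nat_lit 0)) (T.h (T.h (M (nat_lit 26700015962339074375679)) (T.h (P (nat_lit 0)) (M (nat_lit 66931479672619007)))) (T.h (P (nat_lit 0)) (M (nat_lit 22572802849243135))))) (T.h (T.h (T.h (P (nat_lit 0)) (T.h (P (nat_lit 15287187009160871936)) (T.h (P (nat_lit 0)) (M (nat_lit 5730851703471))))) (T.h (P (nat_lit 0)) (T.h (T.h (P (nat_lit 0)) (P (nat_lit 15453759794080))) (P (nat_lit 0))))) (T.h (T.h (P (nat_lit 0)) (M (nat_lit 25377768435810303))) (T.h (T.h (T.h (P (nat_lit 0)) (P (nat_lit 3021184331912))) (P (nat_lit 0))) (P (nat_lit 0)))))))), (T.h (T.h (P (nat_lit 0)) (T.h (T.h (P (nat_lit 0)) (T.h (M (nat_lit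 41502165659964416028835839)) (T.h (P (nat_lit 0)) (T.h (M (nat_lit 35457303268831526911)) (T.h (P (nat_lit 0)) (P (nat_lit 14337066975168))))))) (T.h (P (nat_lit 0)) (T.h (T.h (P (nat_lit 0)) (T.h (M (nat_lit 35457303268831526911)) (T.h (P (nat_lit 0)) (P (nat_lit 43766994916064))))) (T.h (P (nat_lit 0)) (T.h (T.h (P (nat_lit 0)) (P (nat_lit 14337066975168))) (P (nat_lit 0)))))))) (T.h (T.h (T.h (P (nat_lit 18564503227159049971049693184)) (T.h (P (nat_lit 0)) (T.h (M (nat_lit 24820660371626959831039)) (T.h (P (nat_lit 0)) (M (nat_lit 55052733830086655)))))) (T.h (P (nat_lit 0)) (T.h (T.h (M (nat_lit 24820660371626959831039)) (T.h (P (nat_lit 0)) (M (nat_lit 113005295211544575)))) (T.h (P (nat_lit 0)) (M (nat_lit 55052733830086655)))))) (T.h (T.h (P (nat_lit 0)) (T.h (T.h (P (nat_lit 0)) (T.h (P (nat_lit 7187939730510577664)) (T.h (P (nat_lit 0)) (M (nat_lit 15616341643055))))) (T.h (P (nat_lit 0)) (T.h (T.h (P (nat_lit 0)) (M (nat_lit 15616341643055)))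 (P (nat_lit 0)))))) (T.h (T.h (T.h (P (nat_lit 66109599704970709434368)) (T.h (P (nat_lit 0)) (P (nat_lit 5089028726112256)))) (T.h (P (nat_lit 0)) (P (nat_lit 5089028726112256)))) (T.h (T.h (P (nat_lit 0)) (T.h (T.h (P (nat_lit 0)) (M (nat_lit 28206262997471))) (P (nat_lit 0)))) (P (nat_lit 14473944873795584))))))), (T.h (T.h (P (nat_lit 0)) (T.h (T.h (P (nat_lit 3816271784915021482770300928)) (T.h (P (nat_lit 0)) (T.h (M (nat_lit 11629742680612983013375)) (T.h (P (nat_lit 0)) (M (nat_lit 18534864477880319)))))) (T.h (P (nat_lit 0)) (T.h (T.h (P (nat_lit 21431735756132576133120)) (T.h (P (nat_lit 0)) (M (nat_lit 67844963372367871)))) (T.h (P (nat_lit 0)) (P (nat_lit 8421033830252544))))))) (T.h (T.h (T.h (P (nat_lit 0)) (T.h (M (nat_lit 11596132456671698380390399)) (T.h (P (nat_lit 0)) (T.h (P (nat_lit 21823109804238831616)) (T.h (P (nat_lit 0)) (M (nat_lit 20165909466623))))))) (T.h (P (nat_lit 0)) (T.h (T.h (P (nat_lit 0)) (T.h (P (nat_lit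 90875215508110573568)) (T.h (P (nat_lit 0)) (P (nat_lit 6973821289008))))) (T.h (P (nat_lit 0)) (T.h (T.h (P (nat_lit 0)) (M (nat_lit 50297679171887))) (P (nat_lit 0))))))) (T.h (T.h (P (nat_lit 0)) (T.h (T.h (P (nat_lit 16683404358949558812672)) (T.h (P (nat_lit 0)) (P (nat_lit 21362749947805696)))) (T.h (P (nat_lit 0)) (M (nat_lit 39638883541352447))))) (T.h (T.h (T.h (P (nat_lit 0)) (T.h (M (nat_lit 2449777188577214463)) (T.h (P (nat_lit 0)) (P (nat_lit 1434997404528))))) (T.h (P (nat_lit 0)) (T.h (T.h (P (nat_lit 0)) (M (nat_lit 14872495805135))) (P (nat_lit 0))))) (T.h (T.h (P (nat_lit 0)) (P (nat_lit 5798650446217216))) (T.h (T.h (T.h (P (nat_lit 0)) (P (nat_lit 8183120944368))) (P (nat_lit 0))) (P (nat_lit 0)))))))), (T.h (T.h (P (nat_lit 0)) (T.h (T.h (P (nat_lit 0)) (T.h (P (nat_lit 18571853267465370509246464)) (T.h (P (nat_lit 0)) (M (nat_lit 35935822232235802623))))) (T.h (P (nat_lit 0)) (T.h (T.h (P (nat_lit 0)) (M (nat_lit 76155881187738386431)))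 (P (nat_lit 0)))))) (T.h (T.h (T.h (M (nat_lit 6099708548673304496447684607)) (T.h (P (nat_lit 0)) (T.h (P (nat_lit 39385658327280031629312)) (T.h (P (nat_lit 0)) (P (nat_lit 35543153834491904)))))) (T.h (P (nat_lit 0)) (T.h (T.h (M (nat_lit 914033056629670281215)) (T.h (P (nat_lit 0)) (M (nat_lit 7400423263076351)))) (T.h (P (nat_lit 0)) (P (nat_lit 25421720942116864)))))) (T.h (T.h (P (nat_lit 0)) (T.h (T.h (P (nat_lit 0)) (P (nat_lit 2818795405779664896))) (P (nat_lit 0)))) (T.h (T.h (T.h (M (nat_lit 17907237936627615531007)) (T.h (P (nat_lit 0)) (M (nat_lit 4731789076348927)))) (T.h (P (nat_lit 0)) (M (nat_lit 10230261391294463)))) (T.h (P (nat_lit 0)) (P (nat_lit 840173474381824)))))))]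
def lP22_4 : List (T ℤ) := [(P (nat_lit 0)), (P (nat_lit 0)), (T.h (T.h (T.h (M (nat_lit 128120900552666237134832664575)) (T.h (P (nat_lit 0)) (T.h (M (nat_lit 374856245789455152054271)) (T.h (P (nat_lit 0)) (T.h (M (nat_lit 3158064110562705407)) (T.h (P (nat_lit 0)) (P (nat_lit 1380574505568)))))))) (T.h (P (nat_lit 0)) (T.h (T.h (P (nat_lit 244345310791578333216768)) (T.h (P (nat_lit 0)) (T.h (M (nat_lit 1937253098095378431)) (T.h (P (nat_lit 0)) (P (nat_lit 2707914055472)))))) (T.h (P (nat_lit 0)) (T.h (T.h (P (nat_lit 622944617486090240)) (T.h (P (nat_lit 0)) (P (nat_lit 3986189105440)))) (T.h (P (nat_lit 0)) (M (nat_lit 2463187883231)))))))) (T.h (T.h (P (nat_lit 0)) (T.h (T.h (P (nat_lit 0)) (T.h (M (nat_lit 1980045858969294471167)) (T.h (P (nat_lit 0)) (P (nat_lit 2866966031630336))))) (T.h (P (nat_lit 0)) (T.h (T.h (P (nat_lit 0)) (P (nat_lit 3795046400131072))) (P (nat_lit 0)))))) (T.h (T.h (T.h (M (nat_lit 374856245789455152054271))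 (T.h (P (nat_lit 0)) (T.h (M (nat_lit 1706496107061706751)) (T.h (P (nat_lit 0)) (P (nat_lit 1184705075472)))))) (T.h (P (nat_lit 0)) (T.h (T.h (M (nat_lit 1937253098095378431)) (T.h (P (nat_lit 0)) (P (nat_lit 4438957717760)))) (T.h (P (nat_lit 0)) (P (nat_lit 3986189105440)))))) (T.h (T.h (P (nat_lit 0)) (T.h (T.h (P (nat_lit 0)) (P (nat_lit 2866966031630336))) (P (nat_lit 0)))) (T.h (T.h (T.h (M (nat_lit 3158064110562705407)) (T.h (P (nat_lit 0)) (P (nat_lit 1184705075472)))) (T.h (P (nat_lit 0)) (P (nat_lit 2707914055472)))) (T.h (P (nat_lit 0)) (P (nat_lit 1380574505568)))))))), (T.h (T.h (T.h (P (nat_lit 0)) (T.h (M (nat_lit 6924666312730873039744401407)) (T.h (P (nat_lit 0)) (T.h (P (nat_lit 5224766766905693306880)) (T.h (P (nat_lit 0)) (M (nat_lit 14235708366225407))))))) (T.h (P (nat_lit 0)) (T.h (T.h (P (nat_lit 0)) (T.h (M (nat_lit 13034215677552899391487)) (T.h (P (nat_lit 0)) (M (nat_lit 18326436873601023))))) (T.h (P (nat_lit 0))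 (T.h (T.h (P (nat_lit 0)) (P (nat_lit 27806606744977408))) (P (nat_lit 0))))))) (T.h (T.h (P (nat_lit 0)) (T.h (T.h (P (nat_lit 5810283156555816016805888)) (T.h (P (nat_lit 0)) (T.h (P (nat_lit 2086100085598322688)) (T.h (P (nat_lit 0)) (P (nat_lit 4779188645288)))))) (T.h (P (nat_lit 0)) (T.h (T.h (P (nat_lit 41172884228734451712)) (T.h (P (nat_lit 0)) (M (nat_lit 16296856776735)))) (T.h (P (nat_lit 0)) (P (nat_lit 4509737917544))))))) (T.h (T.h (T.h (P (nat_lit 0)) (T.h (P (nat_lit 20966851406420814856192)) (T.h (P (nat_lit 0)) (P (nat_lit 805034664558592))))) (T.h (P (nat_lit 0)) (T.h (T.h (P (nat_lit 0)) (M (nat_lit 16257695584583679))) (P (nat_lit 0))))) (T.h (T.h (P (nat_lit 0)) (T.h (T.h (P (nat_lit 45427878034464047104)) (T.h (P (nat_lit 0)) (P (nat_lit 18179075001016)))) (T.h (P (nat_lit 0)) (P (nat_lit 13433110305528))))) (T.h (T.h (T.h (P (nat_lit 0)) (P (nat_lit 14704517348524032))) (P (nat_lit 0))) (T.h (T.h (P (nat_lit 0)) (P (nat_lit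 3774720305552))) (P (nat_lit 0)))))))), (T.h (T.h (T.h (P (nat_lit 8547243003319011634805544583168)) (T.h (P (nat_lit 0)) (T.h (P (nat_lit 14510347300884980999127040)) (T.h (P (nat_lit 0)) (T.h (P (nat_lit 35610800256633012224)) (T.h (P (nat_lit 0)) (M (nat_lit 4773610931599)))))))) (T.h (P (nat_lit 0)) (T.h (T.h (M (nat_lit 10074423422740968400486399)) (T.h (P (nat_lit 0)) (T.h (M (nat_lit 56693657735398424575)) (T.h (P (nat_lit 0)) (P (nat_lit 29692863900784)))))) (T.h (P (nat_lit 0)) (T.h (T.h (P (nat_lit 2900983089347952640)) (T.h (P (nat_lit 0)) (P (nat_lit 37577714858544)))) (T.h (P (nat_lit 0)) (M (nat_lit 8507132336751)))))))) (T.h (T.h (P (nat_lit 0)) (T.h (T.h (P (nat_lit 0)) (T.h (M (nat_lit 5544913477966684487679)) (T.h (P (nat_lit 0)) (P (nat_lit 788703454953472))))) (T.h (P (nat_lit 0)) (T.h (T.h (P (nat_lit 0)) (M (nat_lit 51337459934527487))) (P (nat_lit 0)))))) (T.h (T.h (T.h (M (nat_lit 15586726180167793191682047)) (T.h (P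 (nat_lit 0)) (T.h (P (nat_lit 35663318068957806592)) (T.h (P (nat_lit 0)) (P (nat_lit 15366368407824)))))) (T.h (P (nat_lit 0)) (T.h (T.h (P (nat_lit 14865489118221041664)) (T.h (P (nat_lit 0)) (P (nat_lit 14277571269584)))) (T.h (P (nat_lit 0)) (M (nat_lit 16452623026111)))))) (T.h (T.h (P (nat_lit 0)) (T.h (T.h (P (nat_lit 0)) (P (nat_lit 107443297016119296))) (P (nat_lit 0)))) (T.h (T.h (T.h (M (nat_lit 25082296066384068607)) (T.h (P (nat_lit 0)) (M (nat_lit 6732252487071)))) (T.h (P (nat_lit 0)) (M (nat_lit 8671366263727)))) (T.h (P (nat_lit 0)) (M (nat_lit 1807611555343)))))))), (T.h (T.h (T.h (P (nat_lit 0)) (T.h (P (nat_lit 3816271784915021482770300928)) (T.h (P (nat_lit 0)) (T.h (P (nat_lit 21431735756132576133120)) (T.h (P (nat_lit 0)) (P (nat_lit 8421033830252544))))))) (T.h (P (nat_lit 0)) (T.h (T.h (P (nat_lit 0)) (T.h (M (nat_lit 11629742680612983013375)) (T.h (P (nat_lit 0)) (M (nat_lit 67844963372367871))))) (T.h (P (nat_lit 0))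 (T.h (T.h (P (nat_lit 0)) (M (nat_lit 18534864477880319))) (P (nat_lit 0))))))) (T.h (T.h (P (nat_lit 0)) (T.h (T.h (M (nat_lit 11596132456671698380390399)) (T.h (P (nat_lit 0)) (T.h (P (nat_lit 90875215508110573568)) (T.h (P (nat_lit 0)) (M (nat_lit 50297679171887)))))) (T.h (P (nat_lit 0)) (T.h (T.h (P (nat_lit 21823109804238831616)) (T.h (P (nat_lit 0)) (P (nat_lit 6973821289008)))) (T.h (P (nat_lit 0)) (M (nat_lit 20165909466623))))))) (T.h (T.h (T.h (P (nat_lit 0)) (T.h (P (nat_lit 16683404358949558812672)) (T.h (P (nat_lit 0)) (M (nat_lit 39638883541352447))))) (T.h (P (nat_lit 0)) (T.h (T.h (P (nat_lit 0)) (P (nat_lit 21362749947805696))) (P (nat_lit 0))))) (T.h (T.h (P (nat_lit 0)) (T.h (T.h (M (nat_lit 2449777188577214463)) (T.h (P (nat_lit 0)) (M (nat_lit 14872495805135)))) (T.h (P (nat_lit 0)) (P (nat_lit 1434997404528))))) (T.h (T.h (T.h (P (nat_lit 0)) (P (nat_lit 5798650446217216))) (P (nat_lit 0))) (T.h (T.h (P (nat_lit 0)) (P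 (nat_lit 8183120944368))) (P (nat_lit 0)))))))), (T.h (T.h (T.h (P (nat_lit 984195350018325543104137920512)) (T.h (P (nat_lit 0)) (T.h (M (nat_lit 15230894307888454317375487)) (T.h (P (nat_lit 0)) (M (nat_lit 15566893289482223615)))))) (T.h (P (nat_lit 0)) (T.h (T.h (M (nat_lit 15230894307888454317375487)) (T.h (P (nat_lit 0)) (M (nat_lit 10893491707010088959)))) (T.h (P (nat_lit 0)) (M (nat_lit 15566893289482223615)))))) (T.h (T.h (P (nat_lit 0)) (T.h (T.h (P (nat_lit 0)) (T.h (M (nat_lit 5141982376459845500927)) (T.h (P (nat_lit 0)) (P (nat_lit 63912302629388288))))) (T.h (P (nat_lit 0)) (T.h (T.h (P (nat_lit 0)) (P (nat_lit 63912302629388288))) (P (nat_lit 0)))))) (T.h (T.h (T.h (M (nat_lit 353537135146806275997695)) (T.h (P (nat_lit 0)) (P (nat_lit 21389219787958124544)))) (T.h (P (nat_lit 0)) (P (nat_lit 21389219787958124544)))) (T.h (T.h (P (nat_lit 0)) (T.h (T.h (P (nat_lit 0)) (P (nat_lit 20305914272612352))) (P (nat_lit 0)))) (P (nat_lit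 4364305523307184128)))))), (P (nat_lit 0))]
def lP22_5 : List (T ℤ) := [(P (nat_lit 0)), (T.h (T.h (P (nat_lit 0)) (T.h (T.h (M (nat_lit 6708703288543951383055826943)) (T.h (P (nat_lit 0)) (T.h (M (nat_lit 9336552845164421316607)) (T.h (P (nat_lit 0)) (M (nat_lit 10096859823996927)))))) (T.h (P (nat_lit 0)) (T.h (T.h (M (nat_lit 8639614918792361017343)) (T.h (P (nat_lit 0)) (M (nat_lit 17301337354928127)))) (T.h (P (nat_lit 0)) (P (nat_lit 12079869476732928))))))) (T.h (T.h (T.h (P (nat_lit 0)) (T.h (P (nat_lit 2367679197508544791314432)) (T.h (P (nat_lit 0)) (T.h (M (nat_lit 18959063845215141887)) (T.h (P (nat_lit 0)) (P (nat_lit 1709027307648))))))) (T.h (P (nat_lit 0)) (T.h (T.h (P (nat_lit 0)) (T.h (M (nat_lit 16662209236586987519)) (T.h (P (nat_lit 0)) (P (nat_lit 16464759474008))))) (T.h (P (nat_lit 0)) (T.h (T.h (P (nat_lit 0)) (M (nat_lit 14111840783999))) (P (nat_lit 0))))))) (T.h (T.h (P (nat_lit 0)) (T.h (T.h (M (nat_lit 4825756084058852425727))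 (T.h (P (nat_lit 0)) (M (nat_lit 22001358117797887)))) (T.h (P (nat_lit 0)) (M (nat_lit 22339981025869823))))) (T.h (T.h (T.h (P (nat_lit 0)) (T.h (M (nat_lit 17490023526864781311)) (T.h (P (nat_lit 0)) (P (nat_lit 4452436307520))))) (T.h (P (nat_lit 0)) (T.h (T.h (P (nat_lit 0)) (P (nat_lit 1223173417000))) (P (nat_lit 0))))) (T.h (T.h (P (nat_lit 0)) (M (nat_lit 13727318916464639))) (T.h (T.h (T.h (P (nat_lit 0)) (P (nat_lit 1111384698048))) (P (nat_lit 0))) (P (nat_lit 0)))))))), (T.h (T.h (P (nat_lit 0)) (T.h (T.h (P (nat_lit 0)) (T.h (P (nat_lit 11799924226416691745128448)) (T.h (P (nat_lit 0)) (T.h (P (nat_lit 24992502955122884608)) (T.h (P (nat_lit 0)) (P (nat_lit 3040955945440))))))) (T.h (P (nat_lit 0)) (T.h (T.h (P (nat_lit 0)) (T.h (M (nat_lit 13066312361172795391)) (T.h (P (nat_lit 0)) (P (nat_lit 4308734371088))))) (T.h (P (nat_lit 0)) (T.h (T.h (P (nat_lit 0)) (P (nat_lit 11861041236576))) (P (nat_lit 0)))))))) (T.h (T.h (T.h (M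 (nat_lit 832454746821739008015466495)) (T.h (P (nat_lit 0)) (T.h (M (nat_lit 4047631849667556278271)) (T.h (P (nat_lit 0)) (M (nat_lit 6980540568846335)))))) (T.h (P (nat_lit 0)) (T.h (T.h (M (nat_lit 32130929532941937672191)) (T.h (P (nat_lit 0)) (P (nat_lit 703405565444096)))) (T.h (P (nat_lit 0)) (P (nat_lit 5910113848442880)))))) (T.h (T.h (P (nat_lit 0)) (T.h (T.h (P (nat_lit 0)) (T.h (P (nat_lit 22920260165497257984)) (T.h (P (nat_lit 0)) (M (nat_lit 4081026789279))))) (T.h (P (nat_lit 0)) (T.h (T.h (P (nat_lit 0)) (P (nat_lit 19135086581520))) (P (nat_lit 0)))))) (T.h (T.h (T.h (P (nat_lit 2581207630647769694208)) (T.h (P (nat_lit 0)) (M (nat_lit 25091771215478783)))) (T.h (P (nat_lit 0)) (P (nat_lit 21537784946409472)))) (T.h (T.h (P (nat_lit 0)) (T.h (T.h (P (nat_lit 0)) (M (nat_lit 6622509720623))) (P (nat_lit 0)))) (P (nat_lit 3821690648035328))))))), (T.h (T.h (P (nat_lit 0)) (T.h (T.h (P (nat_lit 5075728687560414900525203456)) (T.h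 (P (nat_lit 0)) (T.h (P (nat_lit 30406151196474345521152)) (T.h (P (nat_lit 0)) (P (nat_lit 31295638072459264)))))) (T.h (P (nat_lit 0)) (T.h (T.h (M (nat_lit 4975638722445056147455)) (T.h (P (nat_lit 0)) (M (nat_lit 43971231570493439)))) (T.h (P (nat_lit 0)) (P (nat_lit 15728383238602752))))))) (T.h (T.h (T.h (P (nat_lit 0)) (T.h (M (nat_lit 15188638981517575697989631)) (T.h (P (nat_lit 0)) (T.h (P (nat_lit 12216619188252311552)) (T.h (P (nat_lit 0)) (M (nat_lit 4836003780143))))))) (T.h (P (nat_lit 0)) (T.h (T.h (P (nat_lit 0)) (T.h (P (nat_lit 3965753984890699776)) (T.h (P (nat_lit 0)) (P (nat_lit 253154553840))))) (T.h (P (nat_lit 0)) (T.h (T.h (P (nat_lit 0)) (M (nat_lit 3300786166367))) (P (nat_lit 0))))))) (T.h (T.h (P (nat_lit 0)) (T.h (T.h (P (nat_lit 19474584951922158993408)) (T.h (P (nat_lit 0)) (M (nat_lit 24912020807942143)))) (T.h (P (nat_lit 0)) (P (nat_lit 4315555809820672))))) (T.h (T.h (T.h (P (nat_lit 0)) (T.h (M (nat_lit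 27117710602233970687)) (T.h (P (nat_lit 0)) (P (nat_lit 14947988241648))))) (T.h (P (nat_lit 0)) (T.h (T.h (P (nat_lit 0)) (P (nat_lit 9557671096032))) (P (nat_lit 0))))) (T.h (T.h (P (nat_lit 0)) (M (nat_lit 17724020956954623))) (T.h (T.h (T.h (P (nat_lit 0)) (M (nat_lit 10644566670095))) (P (nat_lit 0))) (P (nat_lit 0)))))))), (T.h (T.h (P (nat_lit 0)) (T.h (T.h (P (nat_lit 0)) (T.h (P (nat_lit 18571853267465370509246464)) (T.h (P (nat_lit 0)) (M (nat_lit 76155881187738386431))))) (T.h (P (nat_lit 0)) (T.h (T.h (P (nat_lit 0)) (M (nat_lit 35935822232235802623))) (P (nat_lit 0)))))) (T.h (T.h (T.h (M (nat_lit 6099708548673304496447684607)) (T.h (P (nat_lit 0)) (T.h (M (nat_lit 914033056629670281215)) (T.h (P (nat_lit 0)) (P (nat_lit 25421720942116864)))))) (T.h (P (nat_lit 0)) (T.h (T.h (P (nat_lit 39385658327280031629312)) (T.h (P (nat_lit 0)) (M (nat_lit 7400423263076351)))) (T.h (P (nat_lit 0)) (P (nat_lit 35543153834491904)))))) (T.h (T.h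 (P (nat_lit 0)) (T.h (T.h (P (nat_lit 0)) (P (nat_lit 2818795405779664896))) (P (nat_lit 0)))) (T.h (T.h (T.h (M (nat_lit 17907237936627615531007)) (T.h (P (nat_lit 0)) (M (nat_lit 10230261391294463)))) (T.h (P (nat_lit 0)) (M (nat_lit 4731789076348927)))) (T.h (P (nat_lit 0)) (P (nat_lit 840173474381824))))))), (P (nat_lit 0)), (P (nat_lit 0)), (T.h (T.h (T.h (P (nat_lit 7707325677427308464448959676416)) (T.h (P (nat_lit 0)) (T.h (P (nat_lit 2901120429012419390472192)) (T.h (P (nat_lit 0)) (T.h (P (nat_lit 5890513963451416576)) (T.h (P (nat_lit 0)) (M (nat_lit 1109493383599)))))))) (T.h (P (nat_lit 0)) (T.h (T.h (P (nat_lit 6115846739255371820433408)) (T.h (P (nat_lit 0)) (T.h (P (nat_lit 15647870045474783232)) (T.h (P (nat_lit 0)) (M (nat_lit 4692097755967)))))) (T.h (P (nat_lit 0)) (T.h (T.h (M (nat_lit 6761073294046134271)) (T.h (P (nat_lit 0)) (M (nat_lit 6986606627727)))) (T.h (P (nat_lit 0)) (P (nat_lit 5745344476032)))))))) (T.h (T.h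 (P (nat_lit 0)) (T.h (T.h (P (nat_lit 0)) (T.h (P (nat_lit 9365546830999188406272)) (T.h (P (nat_lit 0)) (M (nat_lit 11019108930781183))))) (T.h (P (nat_lit 0)) (T.h (T.h (P (nat_lit 0)) (P (nat_lit 11959213971734528))) (P (nat_lit 0)))))) (T.h (T.h (T.h (P (nat_lit 2901120429012419390472192)) (T.h (P (nat_lit 0)) (T.h (P (nat_lit 12105851740364996608)) (T.h (P (nat_lit 0)) (M (nat_lit 1741740014223)))))) (T.h (P (nat_lit 0)) (T.h (T.h (P (nat_lit 15647870045474783232)) (T.h (P (nat_lit 0)) (M (nat_lit 10354312704511)))) (T.h (P (nat_lit 0)) (M (nat_lit 6986606627727)))))) (T.h (T.h (P (nat_lit 0)) (T.h (T.h (P (nat_lit 0)) (M (nat_lit 11019108930781183))) (P (nat_lit 0)))) (T.h (T.h (T.h (P (nat_lit 5890513963451416576)) (T.h (P (nat_lit 0)) (M (nat_lit 1741740014223)))) (T.h (P (nat_lit 0)) (M (nat_lit 4692097755967)))) (T.h (P (nat_lit 0)) (M (nat_lit 1109493383599))))))))]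
def lP22_6 : List (T ℤ) := [(T.h (T.h (T.h (P (nat_lit 0)) (T.h (P (nat_lit 5365436076063364494613544960)) (T.h (P (nat_lit 0)) (T.h (M (nat_lit 2829647422335983026175)) (T.h (P (nat_lit 0)) (P (nat_lit 8555427069952000))))))) (T.h (P (nat_lit 0)) (T.h (T.h (P (nat_lit 0)) (T.h (P (nat_lit 16692309233254172459008)) (T.h (P (nat_lit 0)) (P (nat_lit 17366088078819328))))) (T.h (P (nat_lit 0)) (T.h (T.h (P (nat_lit 0)) (M (nat_lit 24295617010860031))) (P (nat_lit 0))))))) (T.h (T.h (P (nat_lit 0)) (T.h (T.h (M (nat_lit 13089024482181258328145919)) (T.h (P (nat_lit 0)) (T.h (P (nat_lit 25093469970943180800)) (T.h (P (nat_lit 0)) (M (nat_lit 4085685683903)))))) (T.h (P (nat_lit 0)) (T.h (T.h (M (nat_lit 36766634793414688767)) (T.h (P (nat_lit 0)) (P (nat_lit 13661142254976)))) (T.h (P (nat_lit 0)) (M (nat_lit 1283713304399))))))) (T.h (T.h (T.h (P (nat_lit 0)) (T.h (M (nat_lit 23003241910279304380415)) (T.h (P (nat_lit 0)) (P (nat_lit 6090253865844736)))))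 (T.h (P (nat_lit 0)) (T.h (T.h (P (nat_lit 0)) (P (nat_lit 26953724719824896))) (P (nat_lit 0))))) (T.h (T.h (P (nat_lit 0)) (T.h (T.h (M (nat_lit 32647441060556963839)) (T.h (P (nat_lit 0)) (P (nat_lit 3390121286400)))) (T.h (P (nat_lit 0)) (P (nat_lit 2377596206784))))) (T.h (T.h (T.h (P (nat_lit 0)) (M (nat_lit 4868192976011263))) (P (nat_lit 0))) (T.h (T.h (P (nat_lit 0)) (P (nat_lit 4237866999168))) (P (nat_lit 0)))))))), (T.h (T.h (T.h (M (nat_lit 848019981192476839092825358335)) (T.h (P (nat_lit 0)) (T.h (M (nat_lit 6614624667399100999663615)) (T.h (P (nat_lit 0)) (M (nat_lit 30926891337990012927)))))) (T.h (P (nat_lit 0)) (T.h (T.h (P (nat_lit 3438041479358372487626752)) (T.h (P (nat_lit 0)) (M (nat_lit 19910758226580209663)))) (T.h (P (nat_lit 0)) (M (nat_lit 3512947433225060351)))))) (T.h (T.h (P (nat_lit 0)) (T.h (T.h (P (nat_lit 0)) (T.h (P (nat_lit 41729021910207325798400)) (T.h (P (nat_lit 0)) (P (nat_lit 5405502678335488)))))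 (T.h (P (nat_lit 0)) (T.h (T.h (P (nat_lit 0)) (M (nat_lit 4819333066915839))) (P (nat_lit 0)))))) (T.h (T.h (T.h (P (nat_lit 10653213847725133906575360)) (T.h (P (nat_lit 0)) (P (nat_lit 3947790254513061888)))) (T.h (P (nat_lit 0)) (M (nat_lit 3300389089831813119)))) (T.h (T.h (P (nat_lit 0)) (T.h (T.h (P (nat_lit 0)) (M (nat_lit 8839026266406911))) (P (nat_lit 0)))) (P (nat_lit 11113978180799561728)))))), (P (nat_lit 0)), (P (nat_lit 0)), (T.h (T.h (P (nat_lit 0)) (T.h (T.h (P (nat_lit 6708703288543951383055826944)) (T.h (P (nat_lit 0)) (T.h (P (nat_lit 7081154464611636871168)) (T.h (P (nat_lit 0)) (P (nat_lit 11912089370230784)))))) (T.h (P (nat_lit 0)) (T.h (T.h (P (nat_lit 8639614918792361017344)) (T.h (P (nat_lit 0)) (P (nat_lit 19820659190398976)))) (T.h (P (nat_lit 0)) (M (nat_lit 12079869476732927))))))) (T.h (T.h (T.h (P (nat_lit 0)) (T.h (M (nat_lit 2367679197508544791314431)) (T.h (P (nat_lit 0)) (T.h (P (nat_lit 18224543686039961600))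 (T.h (P (nat_lit 0)) (M (nat_lit 1410206002847))))))) (T.h (P (nat_lit 0)) (T.h (T.h (P (nat_lit 0)) (T.h (P (nat_lit 16662209236586987520)) (T.h (P (nat_lit 0)) (M (nat_lit 8843966445503))))) (T.h (P (nat_lit 0)) (T.h (T.h (P (nat_lit 0)) (P (nat_lit 14111840784000))) (P (nat_lit 0))))))) (T.h (T.h (P (nat_lit 0)) (T.h (T.h (P (nat_lit 7081154464611636871168)) (T.h (P (nat_lit 0)) (P (nat_lit 22001358117797888)))) (T.h (P (nat_lit 0)) (P (nat_lit 19820659190398976))))) (T.h (T.h (T.h (P (nat_lit 0)) (T.h (P (nat_lit 18224543686039961600)) (T.h (P (nat_lit 0)) (M (nat_lit 4452436307519))))) (T.h (P (nat_lit 0)) (T.h (T.h (P (nat_lit 0)) (M (nat_lit 8843966445503))) (P (nat_lit 0))))) (T.h (T.h (P (nat_lit 0)) (P (nat_lit 11912089370230784))) (T.h (T.h (T.h (P (nat_lit 0)) (M (nat_lit 1410206002847))) (P (nat_lit 0))) (P (nat_lit 0)))))))), (T.h (T.h (P (nat_lit 0)) (T.h (T.h (P (nat_lit 0)) (T.h (M (nat_lit 18381355421258832978903039)) (T.h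 (P (nat_lit 0)) (M (nat_lit 23203781688285986815))))) (T.h (P (nat_lit 0)) (T.h (T.h (P (nat_lit 0)) (P (nat_lit 7114211940729094144))) (P (nat_lit 0)))))) (T.h (T.h (T.h (P (nat_lit 2547540643335990035118817280)) (T.h (P (nat_lit 0)) (T.h (M (nat_lit 19946718446392155570175)) (T.h (P (nat_lit 0)) (P (nat_lit 3801332291633152)))))) (T.h (P (nat_lit 0)) (T.h (T.h (P (nat_lit 34455666698401404157952)) (T.h (P (nat_lit 0)) (M (nat_lit 4932788028899327)))) (T.h (P (nat_lit 0)) (M (nat_lit 2625970948095999)))))) (T.h (T.h (P (nat_lit 0)) (T.h (T.h (P (nat_lit 0)) (M (nat_lit 36613268445365010431))) (P (nat_lit 0)))) (T.h (T.h (T.h (P (nat_lit 392783585823669878784)) (T.h (P (nat_lit 0)) (P (nat_lit 3402133379809280)))) (T.h (P (nat_lit 0)) (P (nat_lit 584082030985216)))) (T.h (P (nat_lit 0)) (M (nat_lit 965174953410559))))))), (P (nat_lit 0)), (P (nat_lit 0))]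
def lP22_7 : List (T ℤ) := [(T.h (T.h (T.h (M (nat_lit 2172631954831739215942938263551)) (T.h (P (nat_lit 0)) (T.h (M (nat_lit 3113098526908072926904319)) (T.h (P (nat_lit 0)) (M (nat_lit 3128846296169840639)))))) (T.h (P (nat_lit 0)) (T.h (T.h (M (nat_lit 7101092557652367280963583)) (T.h (P (nat_lit 0)) (M (nat_lit 11923797260938248191)))) (T.h (P (nat_lit 0)) (P (nat_lit 3403652489910681600)))))) (T.h (T.h (P (nat_lit 0)) (T.h (T.h (P (nat_lit 0)) (T.h (M (nat_lit 6096585033635921395711)) (T.h (P (nat_lit 0)) (P (nat_lit 6037481093464064))))) (T.h (P (nat_lit 0)) (T.h (T.h (P (nat_lit 0)) (M (nat_lit 19267366617087999))) (P (nat_lit 0)))))) (T.h (T.h (T.h (M (nat_lit 3113098526908072926904319)) (T.h (P (nat_lit 0)) (M (nat_lit 5441742847361417215)))) (T.h (P (nat_lit 0)) (M (nat_lit 11923797260938248191)))) (T.h (T.h (P (nat_lit 0)) (T.h (T.h (P (nat_lit 0)) (P (nat_lit 6037481093464064))) (P (nat_lit 0)))) (M (nat_lit 3128846296169840639)))))),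 (P (nat_lit 0)), (P (nat_lit 0)), (P (nat_lit 0)), (P (nat_lit 0)), (P (nat_lit 0)), (T.h (T.h (P (nat_lit 0)) (T.h (T.h (P (nat_lit 382278186225956246805020672)) (T.h (P (nat_lit 0)) (T.h (M (nat_lit 6393028105238678077439)) (T.h (P (nat_lit 0)) (P (nat_lit 10182874572193792)))))) (T.h (P (nat_lit 0)) (T.h (T.h (M (nat_lit 2314989451720488124415)) (T.h (P (nat_lit 0)) (M (nat_lit 20917731012706303)))) (T.h (P (nat_lit 0)) (M (nat_lit 1940894262886399))))))) (T.h (T.h (T.h (P (nat_lit 0)) (T.h (P (nat_lit 8967851728135020949274624)) (T.h (P (nat_lit 0)) (T.h (P (nat_lit 5808715515924840448)) (T.h (P (nat_lit 0)) (M (nat_lit 6298334266991))))))) (T.h (P (nat_lit 0)) (T.h (T.h (P (nat_lit 0)) (T.h (P (nat_lit 21437333873006477312)) (T.h (P (nat_lit 0)) (M (nat_lit 14649144822207))))) (T.h (P (nat_lit 0)) (T.h (T.h (P (nat_lit 0)) (P (nat_lit 9389964963200))) (P (nat_lit 0))))))) (T.h (T.h (P (nat_lit 0)) (T.h (T.h (P (nat_lit 4917025952193526628352))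 (T.h (P (nat_lit 0)) (P (nat_lit 17704818290655232)))) (T.h (P (nat_lit 0)) (P (nat_lit 13535529003122688))))) (T.h (T.h (T.h (P (nat_lit 0)) (T.h (M (nat_lit 1632295132411723775)) (T.h (P (nat_lit 0)) (M (nat_lit 1954457784095))))) (T.h (P (nat_lit 0)) (T.h (T.h (P (nat_lit 0)) (P (nat_lit 7808644584816))) (P (nat_lit 0))))) (T.h (T.h (P (nat_lit 0)) (P (nat_lit 566836548272128))) (T.h (T.h (T.h (P (nat_lit 0)) (M (nat_lit 1262651453183))) (P (nat_lit 0))) (P (nat_lit 0)))))))), (T.h (T.h (P (nat_lit 0)) (T.h (T.h (P (nat_lit 0)) (T.h (P (nat_lit 20367765807806700639485952)) (T.h (P (nat_lit 0)) (T.h (P (nat_lit 32360385358094925824)) (T.h (P (nat_lit 0)) (M (nat_lit 1942311308743))))))) (T.h (P (nat_lit 0)) (T.h (T.h (P (nat_lit 0)) (T.h (P (nat_lit 19867004086649880576)) (T.h (P (nat_lit 0)) (M (nat_lit 18188302719095))))) (T.h (P (nat_lit 0)) (T.h (T.h (P (nat_lit 0)) (M (nat_lit 12250454303887))) (P (nat_lit 0)))))))) (T.h (T.h (T.h (M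 (nat_lit 3806205839395855949482688511)) (T.h (P (nat_lit 0)) (T.h (M (nat_lit 20350402788955445526527)) (T.h (P (nat_lit 0)) (P (nat_lit 20784627276742656)))))) (T.h (P (nat_lit 0)) (T.h (T.h (P (nat_lit 25039632414137793904640)) (T.h (P (nat_lit 0)) (M (nat_lit 37649753855066111)))) (T.h (P (nat_lit 0)) (M (nat_lit 4968131396501503)))))) (T.h (T.h (P (nat_lit 0)) (T.h (T.h (P (nat_lit 0)) (T.h (M (nat_lit 52273040027484684287)) (T.h (P (nat_lit 0)) (M (nat_lit 11025427733215))))) (T.h (P (nat_lit 0)) (T.h (T.h (P (nat_lit 0)) (M (nat_lit 24959317573815))) (P (nat_lit 0)))))) (T.h (T.h (T.h (P (nat_lit 434528077766272745472)) (T.h (P (nat_lit 0)) (M (nat_lit 16405739284037631)))) (T.h (P (nat_lit 0)) (M (nat_lit 12985542396248063)))) (T.h (T.h (P (nat_lit 0)) (T.h (T.h (P (nat_lit 0)) (P (nat_lit 3392182722520))) (P (nat_lit 0)))) (M (nat_lit 2875145773678591)))))))]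
def lP22_8 : List (T ℤ) := [(T.h (T.h (P (nat_lit 0)) (T.h (T.h (M (nat_lit 832454746821739008015466495)) (T.h (P (nat_lit 0)) (T.h (M (nat_lit 32130929532941937672191)) (T.h (P (nat_lit 0)) (P (nat_lit 5910113848442880)))))) (T.h (P (nat_lit 0)) (T.h (T.h (P (nat_lit 2581207630647769694208)) (T.h (P (nat_lit 0)) (P (nat_lit 21537784946409472)))) (T.h (P (nat_lit 0)) (P (nat_lit 3821690648035328))))))) (T.h (T.h (T.h (P (nat_lit 0)) (T.h (P (nat_lit 11799924226416691745128448)) (T.h (P (nat_lit 0)) (T.h (M (nat_lit 13066312361172795391)) (T.h (P (nat_lit 0)) (P (nat_lit 11861041236576))))))) (T.h (P (nat_lit 0)) (T.h (T.h (P (nat_lit 0)) (T.h (P (nat_lit 22920260165497257984)) (T.h (P (nat_lit 0)) (P (nat_lit 19135086581520))))) (T.h (P (nat_lit 0)) (T.h (T.h (P (nat_lit 0)) (M (nat_lit 6622509720623))) (P (nat_lit 0))))))) (T.h (T.h (P (nat_lit 0)) (T.h (T.h (M (nat_lit 4047631849667556278271)) (T.h (P (nat_lit 0)) (P (nat_lit 703405565444096))))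 (T.h (P (nat_lit 0)) (M (nat_lit 25091771215478783))))) (T.h (T.h (T.h (P (nat_lit 0)) (T.h (P (nat_lit 24992502955122884608)) (T.h (P (nat_lit 0)) (P (nat_lit 4308734371088))))) (T.h (P (nat_lit 0)) (T.h (T.h (P (nat_lit 0)) (M (nat_lit 4081026789279))) (P (nat_lit 0))))) (T.h (T.h (P (nat_lit 0)) (M (nat_lit 6980540568846335))) (T.h (T.h (T.h (P (nat_lit 0)) (P (nat_lit 3040955945440))) (P (nat_lit 0))) (P (nat_lit 0)))))))), (T.h (T.h (P (nat_lit 0)) (T.h (T.h (P (nat_lit 0)) (T.h (M (nat_lit 13089024482181258328145919)) (T.h (P (nat_lit 0)) (T.h (M (nat_lit 36766634793414688767)) (T.h (P (nat_lit 0)) (M (nat_lit 1283713304399))))))) (T.h (P (nat_lit 0)) (T.h (T.h (P (nat_lit 0)) (T.h (M (nat_lit 32647441060556963839)) (T.h (P (nat_lit 0)) (P (nat_lit 2377596206784))))) (T.h (P (nat_lit 0)) (T.h (T.h (P (nat_lit 0)) (P (nat_lit 4237866999168))) (P (nat_lit 0)))))))) (T.h (T.h (T.h (P (nat_lit 5365436076063364494613544960)) (T.h (P (nat_lit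 0)) (T.h (P (nat_lit 16692309233254172459008)) (T.h (P (nat_lit 0)) (M (nat_lit 24295617010860031)))))) (T.h (P (nat_lit 0)) (T.h (T.h (M (nat_lit 23003241910279304380415)) (T.h (P (nat_lit 0)) (P (nat_lit 26953724719824896)))) (T.h (P (nat_lit 0)) (M (nat_lit 4868192976011263)))))) (T.h (T.h (P (nat_lit 0)) (T.h (T.h (P (nat_lit 0)) (T.h (P (nat_lit 25093469970943180800)) (T.h (P (nat_lit 0)) (P (nat_lit 13661142254976))))) (T.h (P (nat_lit 0)) (T.h (T.h (P (nat_lit 0)) (P (nat_lit 3390121286400))) (P (nat_lit 0)))))) (T.h (T.h (T.h (M (nat_lit 2829647422335983026175)) (T.h (P (nat_lit 0)) (P (nat_lit 17366088078819328)))) (T.h (P (nat_lit 0)) (P (nat_lit 6090253865844736)))) (T.h (T.h (P (nat_lit 0)) (T.h (T.h (P (nat_lit 0)) (M (nat_lit 4085685683903))) (P (nat_lit 0)))) (P (nat_lit 8555427069952000))))))), (T.h (T.h (P (nat_lit 0)) (T.h (T.h (P (nat_lit 2547540643335990035118817280)) (T.h (P (nat_lit 0)) (T.h (P (nat_lit 34455666698401404157952))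 (T.h (P (nat_lit 0)) (M (nat_lit 2625970948095999)))))) (T.h (P (nat_lit 0)) (T.h (T.h (P (nat_lit 392783585823669878784)) (T.h (P (nat_lit 0)) (P (nat_lit 584082030985216)))) (T.h (P (nat_lit 0)) (M (nat_lit 965174953410559))))))) (T.h (T.h (T.h (P (nat_lit 0)) (T.h (M (nat_lit 18381355421258832978903039)) (T.h (P (nat_lit 0)) (P (nat_lit 7114211940729094144))))) (T.h (P (nat_lit 0)) (T.h (T.h (P (nat_lit 0)) (M (nat_lit 36613268445365010431))) (P (nat_lit 0))))) (T.h (T.h (P (nat_lit 0)) (T.h (T.h (M (nat_lit 19946718446392155570175)) (T.h (P (nat_lit 0)) (M (nat_lit 4932788028899327)))) (T.h (P (nat_lit 0)) (P (nat_lit 3402133379809280))))) (T.h (T.h (T.h (P (nat_lit 0)) (M (nat_lit 23203781688285986815))) (P (nat_lit 0))) (T.h (T.h (P (nat_lit 0)) (P (nat_lit 3801332291633152))) (P (nat_lit 0))))))), (P (nat_lit 0)), (P (nat_lit 0)), (T.h (T.h (T.h (P (nat_lit 0)) (T.h (P (nat_lit 292744442000501060956848128)) (T.h (P (nat_lit 0)) (T.h (P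 (nat_lit 578675089556927152128)) (T.h (P (nat_lit 0)) (M (nat_lit 1348496507797503))))))) (T.h (P (nat_lit 0)) (T.h (T.h (P (nat_lit 0)) (T.h (M (nat_lit 71490041528832753663)) (T.h (P (nat_lit 0)) (M (nat_lit 208462894661631))))) (T.h (P (nat_lit 0)) (T.h (T.h (P (nat_lit 0)) (M (nat_lit 7565409483816959))) (P (nat_lit 0))))))) (T.h (T.h (P (nat_lit 0)) (T.h (T.h (M (nat_lit 1783583222540862459215871)) (T.h (P (nat_lit 0)) (T.h (M (nat_lit 9687899242886070271)) (T.h (P (nat_lit 0)) (P (nat_lit 18277536452736)))))) (T.h (P (nat_lit 0)) (T.h (T.h (M (nat_lit 968861825208680447)) (T.h (P (nat_lit 0)) (P (nat_lit 6132761592576)))) (T.h (P (nat_lit 0)) (M (nat_lit 723600243695))))))) (T.h (T.h (T.h (P (nat_lit 0)) (T.h (M (nat_lit 71490041528832753663)) (T.h (P (nat_lit 0)) (M (nat_lit 208462894661631))))) (T.h (P (nat_lit 0)) (T.h (T.h (P (nat_lit 0)) (M (nat_lit 7318168459542527))) (P (nat_lit 0))))) (T.h (T.h (P (nat_lit 0)) (T.h (T.h (M (nat_lit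 968861825208680447)) (T.h (P (nat_lit 0)) (P (nat_lit 6132761592576)))) (T.h (P (nat_lit 0)) (P (nat_lit 1106006924448))))) (T.h (T.h (T.h (P (nat_lit 0)) (M (nat_lit 7565409483816959))) (P (nat_lit 0))) (T.h (T.h (P (nat_lit 0)) (M (nat_lit 723600243695))) (P (nat_lit 0)))))))), (T.h (T.h (T.h (P (nat_lit 494982663140877495206020120576)) (T.h (P (nat_lit 0)) (T.h (M (nat_lit 43459846080287011753689087)) (T.h (P (nat_lit 0)) (T.h (P (nat_lit 3322443915608457216)) (T.h (P (nat_lit 0)) (M (nat_lit 10575507628479)))))))) (T.h (P (nat_lit 0)) (T.h (T.h (M (nat_lit 5927007742180180497530879)) (T.h (P (nat_lit 0)) (T.h (P (nat_lit 73088794801821712384)) (T.h (P (nat_lit 0)) (M (nat_lit 39242601906815)))))) (T.h (P (nat_lit 0)) (T.h (T.h (P (nat_lit 488089392322183168)) (T.h (P (nat_lit 0)) (M (nat_lit 7364327931871)))) (T.h (P (nat_lit 0)) (P (nat_lit 13335407769360)))))))) (T.h (T.h (P (nat_lit 0)) (T.h (T.h (P (nat_lit 0)) (T.h (M (nat_lit 117186064638130949980159))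 (T.h (P (nat_lit 0)) (P (nat_lit 78523625526591488))))) (T.h (P (nat_lit 0)) (T.h (T.h (P (nat_lit 0)) (M (nat_lit 77125257283698687))) (P (nat_lit 0)))))) (T.h (T.h (T.h (P (nat_lit 760361372243217967218688)) (T.h (P (nat_lit 0)) (T.h (P (nat_lit 148896973107979354112)) (T.h (P (nat_lit 0)) (P (nat_lit 12683593540336)))))) (T.h (P (nat_lit 0)) (T.h (T.h (M (nat_lit 112212653982051467263)) (T.h (P (nat_lit 0)) (M (nat_lit 51520465666783)))) (T.h (P (nat_lit 0)) (M (nat_lit 14683309859823)))))) (T.h (T.h (P (nat_lit 0)) (T.h (T.h (P (nat_lit 0)) (M (nat_lit 163372375841832959))) (P (nat_lit 0)))) (T.h (T.h (T.h (M (nat_lit 13636708470739697663)) (T.h (P (nat_lit 0)) (P (nat_lit 8624894673472)))) (T.h (P (nat_lit 0)) (P (nat_lit 39561229117904)))) (T.h (P (nat_lit 0)) (M (nat_lit 3074782164335)))))))), (T.h (T.h (T.h (P (nat_lit 0)) (T.h (P (nat_lit 8691406057965620660182974464)) (T.h (P (nat_lit 0)) (T.h (M (nat_lit 15021339571157746057215))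 (T.h (P (nat_lit 0)) (P (nat_lit 17136932539727872))))))) (T.h (P (nat_lit 0)) (T.h (T.h (P (nat_lit 0)) (T.h (M (nat_lit 38064473744062961156095)) (T.h (P (nat_lit 0)) (P (nat_lit 2082412055707648))))) (T.h (P (nat_lit 0)) (T.h (T.h (P (nat_lit 0)) (P (nat_lit 19186521793036288))) (P (nat_lit 0))))))) (T.h (T.h (P (nat_lit 0)) (T.h (T.h (P (nat_lit 39725240604148654384611328)) (T.h (P (nat_lit 0)) (T.h (M (nat_lit 3943748245355757567)) (T.h (P (nat_lit 0)) (M (nat_lit 12132135300319)))))) (T.h (P (nat_lit 0)) (T.h (T.h (P (nat_lit 33915569836709117952)) (T.h (P (nat_lit 0)) (M (nat_lit 7612428796111)))) (T.h (P (nat_lit 0)) (P (nat_lit 4076389384816))))))) (T.h (T.h (T.h (P (nat_lit 0)) (T.h (M (nat_lit 38064473744062961156095)) (T.h (P (nat_lit 0)) (P (nat_lit 2082412055707648))))) (T.h (P (nat_lit 0)) (T.h (T.h (P (nat_lit 0)) (P (nat_lit 3935443694649344))) (P (nat_lit 0))))) (T.h (T.h (P (nat_lit 0)) (T.h (T.h (P (nat_lit 33915569836709117952))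 (T.h (P (nat_lit 0)) (M (nat_lit 7612428796111)))) (T.h (P (nat_lit 0)) (M (nat_lit 675544214015))))) (T.h (T.h (T.h (P (nat_lit 0)) (P (nat_lit 19186521793036288))) (P (nat_lit 0))) (T.h (T.h (P (nat_lit 0)) (P (nat_lit 4076389384816))) (P (nat_lit 0))))))))]
def lP22_9 : List (T ℤ) := [(T.h (T.h (T.h (M (nat_lit 1489864615173141456557266960383)) (T.h (P (nat_lit 0)) (T.h (P (nat_lit 44237522183060602493075456)) (T.h (P (nat_lit 0)) (T.h (M (nat_lit 8197879782847807487)) (T.h (P (nat_lit 0)) (P (nat_lit 13524330333600)))))))) (T.h (P (nat_lit 0)) (T.h (T.h (P (nat_lit 3190336379661984334872576)) (T.h (P (nat_lit 0)) (T.h (M (nat_lit 115193404408423514111)) (T.h (P (nat_lit 0)) (P (nat_lit 18792837007584)))))) (T.h (P (nat_lit 0)) (T.h (T.h (P (nat_lit 6454538503194673152)) (T.h (P (nat_lit 0)) (P (nat_lit 3472411185984)))) (T.h (P (nat_lit 0)) (M (nat_lit 5550730409807)))))))) (T.h (T.h (P (nat_lit 0)) (T.h (T.h (P (nat_lit 0)) (T.h (P (nat_lit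 117203895853605197971456)) (T.h (P (nat_lit 0)) (M (nat_lit 78799039213862911))))) (T.h (P (nat_lit 0)) (T.h (T.h (P (nat_lit 0)) (P (nat_lit 120510918138789888))) (P (nat_lit 0)))))) (T.h (T.h (T.h (P (nat_lit 3190336379661984334872576)) (T.h (P (nat_lit 0)) (T.h (M (nat_lit 115193404408423514111)) (T.h (P (nat_lit 0)) (P (nat_lit 18792837007584)))))) (T.h (P (nat_lit 0)) (T.h (T.h (P (nat_lit 107513538014303223808)) (T.h (P (nat_lit 0)) (P (nat_lit 64523868455424)))) (T.h (P (nat_lit 0)) (M (nat_lit 12406552033967)))))) (T.h (T.h (P (nat_lit 0)) (T.h (T.h (P (nat_lit 0)) (P (nat_lit 120510918138789888))) (P (nat_lit 0)))) (T.h (T.h (T.h (P (nat_lit 6454538503194673152)) (T.h (P (nat_lit 0)) (P (nat_lit 3472411185984)))) (T.h (P (nat_lit 0)) (M (nat_lit 12406552033967)))) (T.h (P (nat_lit 0)) (M (nat_lit 5550730409807)))))))), (T.h (T.h (T.h (P (nat_lit 0)) (T.h (M (nat_lit 14143915709784305992583872511)) (T.h (P (nat_lit 0)) (T.h (M (nat_lit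 5554121537654855041023)) (T.h (P (nat_lit 0)) (M (nat_lit 26821480240742399))))))) (T.h (P (nat_lit 0)) (T.h (T.h (P (nat_lit 0)) (T.h (P (nat_lit 71315698274066231197696)) (T.h (P (nat_lit 0)) (M (nat_lit 32756148533133311))))) (T.h (P (nat_lit 0)) (T.h (T.h (P (nat_lit 0)) (M (nat_lit 8208545001439231))) (P (nat_lit 0))))))) (T.h (T.h (P (nat_lit 0)) (T.h (T.h (P (nat_lit 1786891951884896965754880)) (T.h (P (nat_lit 0)) (P (nat_lit 20838505919270617088)))) (T.h (P (nat_lit 0)) (M (nat_lit 27420855437877051391))))) (T.h (T.h (T.h (P (nat_lit 0)) (T.h (P (nat_lit 71315698274066231197696)) (T.h (P (nat_lit 0)) (M (nat_lit 32756148533133311))))) (T.h (P (nat_lit 0)) (T.h (T.h (P (nat_lit 0)) (M (nat_lit 50991262593449983))) (P (nat_lit 0))))) (T.h (T.h (P (nat_lit 0)) (M (nat_lit 27420855437877051391))) (T.h (T.h (T.h (P (nat_lit 0)) (M (nat_lit 8208545001439231))) (P (nat_lit 0))) (P (nat_lit 0))))))), (P (nat_lit 0)), (P (nat_lit 0)), (T.h (T.h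 (P (nat_lit 0)) (T.h (T.h (P (nat_lit 292744442000501060956848128)) (T.h (P (nat_lit 0)) (T.h (M (nat_lit 71490041528832753663)) (T.h (P (nat_lit 0)) (M (nat_lit 7565409483816959)))))) (T.h (P (nat_lit 0)) (T.h (T.h (P (nat_lit 578675089556927152128)) (T.h (P (nat_lit 0)) (M (nat_lit 208462894661631)))) (T.h (P (nat_lit 0)) (M (nat_lit 1348496507797503))))))) (T.h (T.h (T.h (P (nat_lit 0)) (T.h (M (nat_lit 1783583222540862459215871)) (T.h (P (nat_lit 0)) (T.h (M (nat_lit 968861825208680447)) (T.h (P (nat_lit 0)) (M (nat_lit 723600243695))))))) (T.h (P (nat_lit 0)) (T.h (T.h (P (nat_lit 0)) (T.h (M (nat_lit 9687899242886070271)) (T.h (P (nat_lit 0)) (P (nat_lit 6132761592576))))) (T.h (P (nat_lit 0)) (T.h (T.h (P (nat_lit 0)) (P (nat_lit 18277536452736))) (P (nat_lit 0))))))) (T.h (T.h (P (nat_lit 0)) (T.h (T.h (M (nat_lit 71490041528832753663)) (T.h (P (nat_lit 0)) (M (nat_lit 7318168459542527)))) (T.h (P (nat_lit 0)) (M (nat_lit 208462894661631)))))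 (T.h (T.h (T.h (P (nat_lit 0)) (T.h (M (nat_lit 968861825208680447)) (T.h (P (nat_lit 0)) (P (nat_lit 1106006924448))))) (T.h (P (nat_lit 0)) (T.h (T.h (P (nat_lit 0)) (P (nat_lit 6132761592576))) (P (nat_lit 0))))) (T.h (T.h (P (nat_lit 0)) (M (nat_lit 7565409483816959))) (T.h (T.h (T.h (P (nat_lit 0)) (M (nat_lit 723600243695))) (P (nat_lit 0))) (P (nat_lit 0)))))))), (T.h (T.h (P (nat_lit 0)) (T.h (T.h (P (nat_lit 0)) (T.h (M (nat_lit 29588896002306567315652607)) (T.h (P (nat_lit 0)) (T.h (M (nat_lit 128814671488589234175)) (T.h (P (nat_lit 0)) (M (nat_lit 60196205129887))))))) (T.h (P (nat_lit 0)) (T.h (T.h (P (nat_lit 0)) (T.h (M (nat_lit 28145018818879553535)) (T.h (P (nat_lit 0)) (P (nat_lit 56916490450304))))) (T.h (P (nat_lit 0)) (T.h (T.h (P (nat_lit 0)) (M (nat_lit 38828225798559))) (P (nat_lit 0)))))))) (T.h (T.h (T.h (P (nat_lit 25439072121365587605594308608)) (T.h (P (nat_lit 0)) (T.h (P (nat_lit 38260419747544456757248)) (T.h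 (P (nat_lit 0)) (M (nat_lit 23539714618982399)))))) (T.h (P (nat_lit 0)) (T.h (T.h (P (nat_lit 39260101701961162686464)) (T.h (P (nat_lit 0)) (P (nat_lit 101597129374236672)))) (T.h (P (nat_lit 0)) (M (nat_lit 46279448589402111)))))) (T.h (T.h (P (nat_lit 0)) (T.h (T.h (P (nat_lit 0)) (T.h (P (nat_lit 603140925707637489664)) (T.h (P (nat_lit 0)) (P (nat_lit 25142437511608))))) (T.h (P (nat_lit 0)) (T.h (T.h (P (nat_lit 0)) (M (nat_lit 9001400120855))) (P (nat_lit 0)))))) (T.h (T.h (T.h (P (nat_lit 32835649226746181451776)) (T.h (P (nat_lit 0)) (M (nat_lit 120493888905445375)))) (T.h (P (nat_lit 0)) (M (nat_lit 124121882012975103)))) (T.h (T.h (P (nat_lit 0)) (T.h (T.h (P (nat_lit 0)) (P (nat_lit 13619761588416))) (P (nat_lit 0)))) (P (nat_lit 27052447050694656))))))), (T.h (T.h (P (nat_lit 0)) (T.h (T.h (M (nat_lit 16519899788560389826718728191)) (T.h (P (nat_lit 0)) (T.h (M (nat_lit 20726215518357509111807)) (T.h (P (nat_lit 0)) (P (nat_lit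 53376662237773824)))))) (T.h (P (nat_lit 0)) (T.h (T.h (M (nat_lit 38815681408239742746623)) (T.h (P (nat_lit 0)) (P (nat_lit 24872236208455680)))) (T.h (P (nat_lit 0)) (M (nat_lit 14922245059133439))))))) (T.h (T.h (T.h (P (nat_lit 0)) (T.h (P (nat_lit 6361063573136040009924608)) (T.h (P (nat_lit 0)) (T.h (P (nat_lit 32547474825401073664)) (T.h (P (nat_lit 0)) (M (nat_lit 1102750372303))))))) (T.h (P (nat_lit 0)) (T.h (T.h (P (nat_lit 0)) (T.h (P (nat_lit 36912781505249411072)) (T.h (P (nat_lit 0)) (M (nat_lit 18575295500271))))) (T.h (P (nat_lit 0)) (T.h (T.h (P (nat_lit 0)) (M (nat_lit 94064231272143))) (P (nat_lit 0))))))) (T.h (T.h (P (nat_lit 0)) (T.h (T.h (M (nat_lit 48331781321057967800319)) (T.h (P (nat_lit 0)) (P (nat_lit 67211279446638592)))) (T.h (P (nat_lit 0)) (M (nat_lit 14595071553503231))))) (T.h (T.h (T.h (P (nat_lit 0)) (T.h (M (nat_lit 3114357112931614719)) (T.h (P (nat_lit 0)) (M (nat_lit 12260400160623))))) (T.h (P (nat_lit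 0)) (T.h (T.h (P (nat_lit 0)) (M (nat_lit 27622295623215))) (P (nat_lit 0))))) (T.h (T.h (P (nat_lit 0)) (P (nat_lit 22614995997048832))) (T.h (T.h (T.h (P (nat_lit 0)) (M (nat_lit 10914695388015))) (P (nat_lit 0))) (P (nat_lit 0)))))))), (T.h (T.h (P (nat_lit 0)) (T.h (T.h (P (nat_lit 0)) (T.h (P (nat_lit 38096627589110099462848512)) (T.h (P (nat_lit 0)) (T.h (P (nat_lit 106594337060644978688)) (T.h (P (nat_lit 0)) (P (nat_lit 56011950313632))))))) (T.h (P (nat_lit 0)) (T.h (T.h (P (nat_lit 0)) (T.h (M (nat_lit 108181840819061260287)) (T.h (P (nat_lit 0)) (M (nat_lit 28889076865151))))) (T.h (P (nat_lit 0)) (T.h (T.h (P (nat_lit 0)) (P (nat_lit 27163896312912))) (P (nat_lit 0)))))))) (T.h (T.h (T.h (M (nat_lit 25920019054726368708448485375)) (T.h (P (nat_lit 0)) (T.h (M (nat_lit 11270670670228105461759)) (T.h (P (nat_lit 0)) (M (nat_lit 58695919728099327)))))) (T.h (P (nat_lit 0)) (T.h (T.h (M (nat_lit 27787483063106125430783)) (T.h (P (nat_lit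 0)) (M (nat_lit 29192182078373887)))) (T.h (P (nat_lit 0)) (P (nat_lit 67809720250138624)))))) (T.h (T.h (P (nat_lit 0)) (T.h (T.h (P (nat_lit 0)) (T.h (M (nat_lit 285020327601149837311)) (T.h (P (nat_lit 0)) (M (nat_lit 5451005508863))))) (T.h (P (nat_lit 0)) (T.h (T.h (P (nat_lit 0)) (P (nat_lit 15157720755216))) (P (nat_lit 0)))))) (T.h (T.h (T.h (M (nat_lit 32169525483728206299135)) (T.h (P (nat_lit 0)) (P (nat_lit 46994885653495808)))) (T.h (P (nat_lit 0)) (P (nat_lit 57081713356472320)))) (T.h (T.h (P (nat_lit 0)) (T.h (T.h (P (nat_lit 0)) (P (nat_lit 3622862751840))) (P (nat_lit 0)))) (M (nat_lit 18888208648962047)))))))]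
def lP22_10 : List (T ℤ) := [(T.h (T.h (P (nat_lit 0)) (T.h (T.h (P (nat_lit 3133521640352018543595749376)) (T.h (P (nat_lit 0)) (T.h (M (nat_lit 3848273589639705526271)) (T.h (P (nat_lit 0)) (M (nat_lit 107296303587655679)))))) (T.h (P (nat_lit 0)) (T.h (T.h (P (nat_lit 6131544820029419683840)) (T.h (P (nat_lit 0)) (P (nat_lit 24755005882941440)))) (T.h (P (nat_lit 0)) (P (nat_lit 3746641894768640))))))) (T.h (T.h (T.h (P (nat_lit 0)) (T.h (M (nat_lit 34949159902444343565221887)) (T.h (P (nat_lit 0)) (P (nat_lit 130808218232064835584))))) (T.h (P (nat_lit 0)) (T.h (T.h (P (nat_lit 0)) (M (nat_lit 64795198108966322175))) (P (nat_lit 0))))) (T.h (T.h (P (nat_lit 0)) (T.h (T.h (P (nat_lit 10530773426254924218368)) (T.h (P (nat_lit 0)) (M (nat_lit 48253519760162815)))) (T.h (P (nat_lit 0)) (M (nat_lit 3541496266850303))))) (T.h (T.h (T.h (P (nat_lit 0)) (M (nat_lit 18668642047161794559))) (P (nat_lit 0))) (T.h (T.h (P (nat_lit 0)) (P (nat_lit 25399662819524608)))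 (P (nat_lit 0))))))), (P (nat_lit 0)), (P (nat_lit 0)), (T.h (T.h (T.h (P (nat_lit 0)) (T.h (P (nat_lit 382278186225956246805020672)) (T.h (P (nat_lit 0)) (T.h (M (nat_lit 2314989451720488124415)) (T.h (P (nat_lit 0)) (M (nat_lit 1940894262886399))))))) (T.h (P (nat_lit 0)) (T.h (T.h (P (nat_lit 0)) (T.h (M (nat_lit 6393028105238678077439)) (T.h (P (nat_lit 0)) (M (nat_lit 20917731012706303))))) (T.h (P (nat_lit 0)) (T.h (T.h (P (nat_lit 0)) (P (nat_lit 10182874572193792))) (P (nat_lit 0))))))) (T.h (T.h (P (nat_lit 0)) (T.h (T.h (P (nat_lit 8967851728135020949274624)) (T.h (P (nat_lit 0)) (T.h (P (nat_lit 21437333873006477312)) (T.h (P (nat_lit 0)) (P (nat_lit 9389964963200)))))) (T.h (P (nat_lit 0)) (T.h (T.h (P (nat_lit 5808715515924840448)) (T.h (P (nat_lit 0)) (M (nat_lit 14649144822207)))) (T.h (P (nat_lit 0)) (M (nat_lit 6298334266991))))))) (T.h (T.h (T.h (P (nat_lit 0)) (T.h (P (nat_lit 4917025952193526628352)) (T.h (P (nat_lit 0))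 (P (nat_lit 13535529003122688))))) (T.h (P (nat_lit 0)) (T.h (T.h (P (nat_lit 0)) (P (nat_lit 17704818290655232))) (P (nat_lit 0))))) (T.h (T.h (P (nat_lit 0)) (T.h (T.h (M (nat_lit 1632295132411723775)) (T.h (P (nat_lit 0)) (P (nat_lit 7808644584816)))) (T.h (P (nat_lit 0)) (M (nat_lit 1954457784095))))) (T.h (T.h (T.h (P (nat_lit 0)) (P (nat_lit 566836548272128))) (P (nat_lit 0))) (T.h (T.h (P (nat_lit 0)) (M (nat_lit 1262651453183))) (P (nat_lit 0)))))))), (T.h (T.h (T.h (M (nat_lit 1833686140586091030416640180223)) (T.h (P (nat_lit 0)) (T.h (P (nat_lit 20152093936309671301218304)) (T.h (P (nat_lit 0)) (T.h (M (nat_lit 9236317343162826751)) (T.h (P (nat_lit 0)) (P (nat_lit 11748727957200)))))))) (T.h (P (nat_lit 0)) (T.h (T.h (M (nat_lit 24929743016584213895839743)) (T.h (P (nat_lit 0)) (T.h (M (nat_lit 48338084010217439231)) (T.h (P (nat_lit 0)) (P (nat_lit 47679961248304)))))) (T.h (P (nat_lit 0)) (T.h (T.h (M (nat_lit 18997162503609253887))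 (T.h (P (nat_lit 0)) (M (nat_lit 6529346305695)))) (T.h (P (nat_lit 0)) (P (nat_lit 5640899468176)))))))) (T.h (T.h (P (nat_lit 0)) (T.h (T.h (P (nat_lit 0)) (T.h (M (nat_lit 112471898535082606985215)) (T.h (P (nat_lit 0)) (M (nat_lit 9602603773984767))))) (T.h (P (nat_lit 0)) (T.h (T.h (P (nat_lit 0)) (P (nat_lit 93855003958312960))) (P (nat_lit 0)))))) (T.h (T.h (T.h (P (nat_lit 1504758702031106729836544)) (T.h (P (nat_lit 0)) (T.h (M (nat_lit 42881065747803537407)) (T.h (P (nat_lit 0)) (M (nat_lit 5909049594671)))))) (T.h (P (nat_lit 0)) (T.h (T.h (P (nat_lit 193567321257144221696)) (T.h (P (nat_lit 0)) (M (nat_lit 7950027518703)))) (T.h (P (nat_lit 0)) (P (nat_lit 50812174146176)))))) (T.h (T.h (P (nat_lit 0)) (T.h (T.h (P (nat_lit 0)) (M (nat_lit 122812598466641919))) (P (nat_lit 0)))) (T.h (T.h (T.h (M (nat_lit 313508080828547071)) (T.h (P (nat_lit 0)) (P (nat_lit 38278448953200)))) (T.h (P (nat_lit 0)) (P (nat_lit 787165522384)))) (T.h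 (P (nat_lit 0)) (M (nat_lit 3817912421327)))))))), (T.h (T.h (T.h (P (nat_lit 0)) (T.h (M (nat_lit 16519899788560389826718728191)) (T.h (P (nat_lit 0)) (T.h (M (nat_lit 38815681408239742746623)) (T.h (P (nat_lit 0)) (M (nat_lit 14922245059133439))))))) (T.h (P (nat_lit 0)) (T.h (T.h (P (nat_lit 0)) (T.h (M (nat_lit 20726215518357509111807)) (T.h (P (nat_lit 0)) (P (nat_lit 24872236208455680))))) (T.h (P (nat_lit 0)) (T.h (T.h (P (nat_lit 0)) (P (nat_lit 53376662237773824))) (P (nat_lit 0))))))) (T.h (T.h (P (nat_lit 0)) (T.h (T.h (P (nat_lit 6361063573136040009924608)) (T.h (P (nat_lit 0)) (T.h (P (nat_lit 36912781505249411072)) (T.h (P (nat_lit 0)) (M (nat_lit 94064231272143)))))) (T.h (P (nat_lit 0)) (T.h (T.h (P (nat_lit 32547474825401073664)) (T.h (P (nat_lit 0)) (M (nat_lit 18575295500271)))) (T.h (P (nat_lit 0)) (M (nat_lit 1102750372303))))))) (T.h (T.h (T.h (P (nat_lit 0)) (T.h (M (nat_lit 48331781321057967800319)) (T.h (P (nat_lit 0))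 (M (nat_lit 14595071553503231))))) (T.h (P (nat_lit 0)) (T.h (T.h (P (nat_lit 0)) (P (nat_lit 67211279446638592))) (P (nat_lit 0))))) (T.h (T.h (P (nat_lit 0)) (T.h (T.h (M (nat_lit 3114357112931614719)) (T.h (P (nat_lit 0)) (M (nat_lit 27622295623215)))) (T.h (P (nat_lit 0)) (M (nat_lit 12260400160623))))) (T.h (T.h (T.h (P (nat_lit 0)) (P (nat_lit 22614995997048832))) (P (nat_lit 0))) (T.h (T.h (P (nat_lit 0)) (M (nat_lit 10914695388015))) (P (nat_lit 0)))))))), (T.h (T.h (T.h (P (nat_lit 3336858308950095421271779049472)) (T.h (P (nat_lit 0)) (T.h (M (nat_lit 5043467229830250282090495)) (T.h (P (nat_lit 0)) (T.h (P (nat_lit 11853962430587600896)) (T.h (P (nat_lit 0)) (M (nat_lit 4461241746719)))))))) (T.h (P (nat_lit 0)) (T.h (T.h (M (nat_lit 5043467229830250282090495)) (T.h (P (nat_lit 0)) (T.h (P (nat_lit 55845177334473687040)) (T.h (P (nat_lit 0)) (P (nat_lit 13242663900912)))))) (T.h (P (nat_lit 0)) (T.h (T.h (P (nat_lit 11853962430587600896))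 (T.h (P (nat_lit 0)) (P (nat_lit 13242663900912)))) (T.h (P (nat_lit 0)) (M (nat_lit 4461241746719)))))))) (T.h (T.h (P (nat_lit 0)) (T.h (T.h (P (nat_lit 0)) (T.h (M (nat_lit 161835331611143606108159)) (T.h (P (nat_lit 0)) (P (nat_lit 77702433258799104))))) (T.h (P (nat_lit 0)) (T.h (T.h (P (nat_lit 0)) (P (nat_lit 77702433258799104))) (P (nat_lit 0)))))) (T.h (T.h (T.h (P (nat_lit 6077443599476861853237248)) (T.h (P (nat_lit 0)) (T.h (M (nat_lit 63461707544942084095)) (T.h (P (nat_lit 0)) (M (nat_lit 7293763681775)))))) (T.h (P (nat_lit 0)) (T.h (T.h (M (nat_lit 63461707544942084095)) (T.h (P (nat_lit 0)) (P (nat_lit 39429664002528)))) (T.h (P (nat_lit 0)) (M (nat_lit 7293763681775)))))) (T.h (T.h (P (nat_lit 0)) (T.h (T.h (P (nat_lit 0)) (P (nat_lit 135200626355732480))) (P (nat_lit 0)))) (T.h (T.h (T.h (P (nat_lit 14906957054039031808)) (T.h (P (nat_lit 0)) (P (nat_lit 2739632443776)))) (T.h (P (nat_lit 0)) (P (nat_lit 2739632443776))))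 (T.h (P (nat_lit 0)) (P (nat_lit 14587027637568)))))))), (T.h (T.h (T.h (P (nat_lit 0)) (T.h (P (nat_lit 21382294463452524082142117888)) (T.h (P (nat_lit 0)) (T.h (M (nat_lit 8429021893482116022271)) (T.h (P (nat_lit 0)) (M (nat_lit 3098825511829503))))))) (T.h (P (nat_lit 0)) (T.h (T.h (P (nat_lit 0)) (T.h (M (nat_lit 5119974003336856731647)) (T.h (P (nat_lit 0)) (P (nat_lit 9121366597222400))))) (T.h (P (nat_lit 0)) (T.h (T.h (P (nat_lit 0)) (M (nat_lit 38231767106387967))) (P (nat_lit 0))))))) (T.h (T.h (P (nat_lit 0)) (T.h (T.h (P (nat_lit 11364634751436504396988416)) (T.h (P (nat_lit 0)) (P (nat_lit 72630611916194054144)))) (T.h (P (nat_lit 0)) (M (nat_lit 39642309639526154239))))) (T.h (T.h (T.h (P (nat_lit 0)) (T.h (P (nat_lit 55308368152604113371136)) (T.h (P (nat_lit 0)) (P (nat_lit 10349591218307072))))) (T.h (P (nat_lit 0)) (T.h (T.h (P (nat_lit 0)) (M (nat_lit 27209387641274367))) (P (nat_lit 0))))) (T.h (T.h (P (nat_lit 0)) (M (nat_lit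 42786273065835692031))) (T.h (T.h (T.h (P (nat_lit 0)) (M (nat_lit 17072719312633855))) (P (nat_lit 0))) (P (nat_lit 0)))))))]
def lP22_11 : List (T ℤ) := [(P (nat_lit 0)), (P (nat_lit 0)), (T.h (T.h (P (nat_lit 0)) (T.h (T.h (P (nat_lit 0)) (T.h (P (nat_lit 28103389209149550503133184)) (T.h (P (nat_lit 0)) (T.h (P (nat_lit 36020199626832347136)) (T.h (P (nat_lit 0)) (M (nat_lit 14764031900079))))))) (T.h (P (nat_lit 0)) (T.h (T.h (P (nat_lit 0)) (T.h (P (nat_lit 22841197399336026112)) (T.h (P (nat_lit 0)) (P (nat_lit 30282302885432))))) (T.h (P (nat_lit 0)) (T.h (T.h (P (nat_lit 0)) (M (nat_lit 26232607252823))) (P (nat_lit 0)))))))) (T.h (T.h (T.h (P (nat_lit 485651212811086475852513280)) (T.h (P (nat_lit 0)) (T.h (M (nat_lit 13720754705523942621183)) (T.h (P (nat_lit 0)) (P (nat_lit 4266103463411712)))))) (T.h (P (nat_lit 0)) (T.h (T.h (M (nat_lit 47841372592584299380735)) (T.h (P (nat_lit 0)) (P (nat_lit 48593063187546112)))) (T.h (P (nat_lit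 0)) (P (nat_lit 26959970316943360)))))) (T.h (T.h (P (nat_lit 0)) (T.h (T.h (P (nat_lit 0)) (T.h (M (nat_lit 46755508501555970047)) (T.h (P (nat_lit 0)) (M (nat_lit 35283134200615))))) (T.h (P (nat_lit 0)) (T.h (T.h (P (nat_lit 0)) (P (nat_lit 2992585843392))) (P (nat_lit 0)))))) (T.h (T.h (T.h (M (nat_lit 5714166192908208701439)) (T.h (P (nat_lit 0)) (M (nat_lit 32749874407112703)))) (T.h (P (nat_lit 0)) (M (nat_lit 6269596438265855)))) (T.h (T.h (P (nat_lit 0)) (T.h (T.h (P (nat_lit 0)) (M (nat_lit 10659207937431))) (P (nat_lit 0)))) (M (nat_lit 6752635111702527))))))), (T.h (T.h (P (nat_lit 0)) (T.h (T.h (P (nat_lit 8691406057965620660182974464)) (T.h (P (nat_lit 0)) (T.h (M (nat_lit 38064473744062961156095)) (T.h (P (nat_lit 0)) (P (nat_lit 19186521793036288)))))) (T.h (P (nat_lit 0)) (T.h (T.h (M (nat_lit 15021339571157746057215)) (T.h (P (nat_lit 0)) (P (nat_lit 2082412055707648)))) (T.h (P (nat_lit 0)) (P (nat_lit 17136932539727872)))))))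 (T.h (T.h (T.h (P (nat_lit 0)) (T.h (P (nat_lit 39725240604148654384611328)) (T.h (P (nat_lit 0)) (T.h (P (nat_lit 33915569836709117952)) (T.h (P (nat_lit 0)) (P (nat_lit 4076389384816))))))) (T.h (P (nat_lit 0)) (T.h (T.h (P (nat_lit 0)) (T.h (M (nat_lit 3943748245355757567)) (T.h (P (nat_lit 0)) (M (nat_lit 7612428796111))))) (T.h (P (nat_lit 0)) (T.h (T.h (P (nat_lit 0)) (M (nat_lit 12132135300319))) (P (nat_lit 0))))))) (T.h (T.h (P (nat_lit 0)) (T.h (T.h (M (nat_lit 38064473744062961156095)) (T.h (P (nat_lit 0)) (P (nat_lit 3935443694649344)))) (T.h (P (nat_lit 0)) (P (nat_lit 2082412055707648))))) (T.h (T.h (T.h (P (nat_lit 0)) (T.h (P (nat_lit 33915569836709117952)) (T.h (P (nat_lit 0)) (M (nat_lit 675544214015))))) (T.h (P (nat_lit 0)) (T.h (T.h (P (nat_lit 0)) (M (nat_lit 7612428796111))) (P (nat_lit 0))))) (T.h (T.h (P (nat_lit 0)) (P (nat_lit 19186521793036288))) (T.h (T.h (T.h (P (nat_lit 0)) (P (nat_lit 4076389384816))) (P (nat_lit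 0))) (P (nat_lit 0)))))))), (T.h (T.h (P (nat_lit 0)) (T.h (T.h (P (nat_lit 0)) (T.h (P (nat_lit 38096627589110099462848512)) (T.h (P (nat_lit 0)) (T.h (M (nat_lit 108181840819061260287)) (T.h (P (nat_lit 0)) (P (nat_lit 27163896312912))))))) (T.h (P (nat_lit 0)) (T.h (T.h (P (nat_lit 0)) (T.h (P (nat_lit 106594337060644978688)) (T.h (P (nat_lit 0)) (M (nat_lit 28889076865151))))) (T.h (P (nat_lit 0)) (T.h (T.h (P (nat_lit 0)) (P (nat_lit 56011950313632))) (P (nat_lit 0)))))))) (T.h (T.h (T.h (M (nat_lit 25920019054726368708448485375)) (T.h (P (nat_lit 0)) (T.h (M (nat_lit 27787483063106125430783)) (T.h (P (nat_lit 0)) (P (nat_lit 67809720250138624)))))) (T.h (P (nat_lit 0)) (T.h (T.h (M (nat_lit 11270670670228105461759)) (T.h (P (nat_lit 0)) (M (nat_lit 29192182078373887)))) (T.h (P (nat_lit 0)) (M (nat_lit 58695919728099327)))))) (T.h (T.h (P (nat_lit 0)) (T.h (T.h (P (nat_lit 0)) (T.h (M (nat_lit 285020327601149837311)) (T.h (P (nat_lit 0))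 (P (nat_lit 15157720755216))))) (T.h (P (nat_lit 0)) (T.h (T.h (P (nat_lit 0)) (M (nat_lit 5451005508863))) (P (nat_lit 0)))))) (T.h (T.h (T.h (M (nat_lit 32169525483728206299135)) (T.h (P (nat_lit 0)) (P (nat_lit 57081713356472320)))) (T.h (P (nat_lit 0)) (P (nat_lit 46994885653495808)))) (T.h (T.h (P (nat_lit 0)) (T.h (T.h (P (nat_lit 0)) (P (nat_lit 3622862751840))) (P (nat_lit 0)))) (M (nat_lit 18888208648962047))))))), (T.h (T.h (P (nat_lit 0)) (T.h (T.h (P (nat_lit 21382294463452524082142117888)) (T.h (P (nat_lit 0)) (T.h (M (nat_lit 5119974003336856731647)) (T.h (P (nat_lit 0)) (M (nat_lit 38231767106387967)))))) (T.h (P (nat_lit 0)) (T.h (T.h (M (nat_lit 8429021893482116022271)) (T.h (P (nat_lit 0)) (P (nat_lit 9121366597222400)))) (T.h (P (nat_lit 0)) (M (nat_lit 3098825511829503))))))) (T.h (T.h (T.h (P (nat_lit 0)) (T.h (P (nat_lit 11364634751436504396988416)) (T.h (P (nat_lit 0)) (M (nat_lit 39642309639526154239))))) (T.h (P (nat_lit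 0)) (T.h (T.h (P (nat_lit 0)) (P (nat_lit 72630611916194054144))) (P (nat_lit 0))))) (T.h (T.h (P (nat_lit 0)) (T.h (T.h (P (nat_lit 55308368152604113371136)) (T.h (P (nat_lit 0)) (M (nat_lit 27209387641274367)))) (T.h (P (nat_lit 0)) (P (nat_lit 10349591218307072))))) (T.h (T.h (T.h (P (nat_lit 0)) (M (nat_lit 42786273065835692031))) (P (nat_lit 0))) (T.h (T.h (P (nat_lit 0)) (M (nat_lit 17072719312633855))) (P (nat_lit 0))))))), (P (nat_lit 0)), (T.h (T.h (T.h (P (nat_lit 1989763904064527922702493679616)) (T.h (P (nat_lit 0)) (T.h (M (nat_lit 1214026389387006139432959)) (T.h (P (nat_lit 0)) (T.h (P (nat_lit 239542072028168192)) (T.h (P (nat_lit 0)) (P (nat_lit 840835214592)))))))) (T.h (P (nat_lit 0)) (T.h (T.h (M (nat_lit 1555352205547181478772735)) (T.h (P (nat_lit 0)) (T.h (P (nat_lit 8401040907045961728)) (T.h (P (nat_lit 0)) (M (nat_lit 8205389113567)))))) (T.h (P (nat_lit 0)) (T.h (T.h (P (nat_lit 9750871734478700544)) (T.h (P (nat_lit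 0)) (M (nat_lit 11026665648687)))) (T.h (P (nat_lit 0)) (M (nat_lit 5897645410239)))))))) (T.h (T.h (P (nat_lit 0)) (T.h (T.h (P (nat_lit 0)) (T.h (M (nat_lit 35662430948495982591)) (T.h (P (nat_lit 0)) (M (nat_lit 524203152048127))))) (T.h (P (nat_lit 0)) (T.h (T.h (P (nat_lit 0)) (P (nat_lit 550827374542848))) (P (nat_lit 0)))))) (T.h (T.h (T.h (M (nat_lit 1214026389387006139432959)) (T.h (P (nat_lit 0)) (T.h (P (nat_lit 9398231935496486912)) (T.h (P (nat_lit 0)) (M (nat_lit 64815190143)))))) (T.h (P (nat_lit 0)) (T.h (T.h (P (nat_lit 8401040907045961728)) (T.h (P (nat_lit 0)) (M (nat_lit 26006805577279)))) (T.h (P (nat_lit 0)) (M (nat_lit 11026665648687)))))) (T.h (T.h (P (nat_lit 0)) (T.h (T.h (P (nat_lit 0)) (M (nat_lit 524203152048127))) (P (nat_lit 0)))) (T.h (T.h (T.h (P (nat_lit 239542072028168192)) (T.h (P (nat_lit 0)) (M (nat_lit 64815190143)))) (T.h (P (nat_lit 0)) (M (nat_lit 8205389113567)))) (T.h (P (nat_lit 0)) (P (nat_lit 840835214592))))))))]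
def lP22_12 : List (T ℤ) := [(T.h (T.h (T.h (P (nat_lit 0)) (T.h (M (nat_lit 832454746821739008015466495)) (T.h (P (nat_lit 0)) (T.h (P (nat_lit 2581207630647769694208)) (T.h (P (nat_lit 0)) (P (nat_lit 3821690648035328))))))) (T.h (P (nat_lit 0)) (T.h (T.h (P (nat_lit 0)) (T.h (M (nat_lit 32130929532941937672191)) (T.h (P (nat_lit 0)) (P (nat_lit 21537784946409472))))) (T.h (P (nat_lit 0)) (T.h (T.h (P (nat_lit 0)) (P (nat_lit 5910113848442880))) (P (nat_lit 0))))))) (T.h (T.h (P (nat_lit 0)) (T.h (T.h (P (nat_lit 11799924226416691745128448)) (T.h (P (nat_lit 0)) (T.h (P (nat_lit 22920260165497257984)) (T.h (P (nat_lit 0)) (M (nat_lit 6622509720623)))))) (T.h (P (nat_lit 0)) (T.h (T.h (M (nat_lit 13066312361172795391)) (T.h (P (nat_lit 0)) (P (nat_lit 19135086581520)))) (T.h (P (nat_lit 0)) (P (nat_lit 11861041236576))))))) (T.h (T.h (T.h (P (nat_lit 0)) (T.h (M (nat_lit 4047631849667556278271)) (T.h (P (nat_lit 0)) (M (nat_lit 25091771215478783)))))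 (T.h (P (nat_lit 0)) (T.h (T.h (P (nat_lit 0)) (P (nat_lit 703405565444096))) (P (nat_lit 0))))) (T.h (T.h (P (nat_lit 0)) (T.h (T.h (P (nat_lit 24992502955122884608)) (T.h (P (nat_lit 0)) (M (nat_lit 4081026789279)))) (T.h (P (nat_lit 0)) (P (nat_lit 4308734371088))))) (T.h (T.h (T.h (P (nat_lit 0)) (M (nat_lit 6980540568846335))) (P (nat_lit 0))) (T.h (T.h (P (nat_lit 0)) (P (nat_lit 3040955945440))) (P (nat_lit 0)))))))), (T.h (T.h (T.h (M (nat_lit 1489864615173141456557266960383)) (T.h (P (nat_lit 0)) (T.h (P (nat_lit 3190336379661984334872576)) (T.h (P (nat_lit 0)) (T.h (P (nat_lit 6454538503194673152)) (T.h (P (nat_lit 0)) (M (nat_lit 5550730409807)))))))) (T.h (P (nat_lit 0)) (T.h (T.h (P (nat_lit 44237522183060602493075456)) (T.h (P (nat_lit 0)) (T.h (M (nat_lit 115193404408423514111)) (T.h (P (nat_lit 0)) (P (nat_lit 3472411185984)))))) (T.h (P (nat_lit 0)) (T.h (T.h (M (nat_lit 8197879782847807487)) (T.h (P (nat_lit 0)) (P (nat_lit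 18792837007584)))) (T.h (P (nat_lit 0)) (P (nat_lit 13524330333600)))))))) (T.h (T.h (P (nat_lit 0)) (T.h (T.h (P (nat_lit 0)) (T.h (P (nat_lit 117203895853605197971456)) (T.h (P (nat_lit 0)) (P (nat_lit 120510918138789888))))) (T.h (P (nat_lit 0)) (T.h (T.h (P (nat_lit 0)) (M (nat_lit 78799039213862911))) (P (nat_lit 0)))))) (T.h (T.h (T.h (P (nat_lit 3190336379661984334872576)) (T.h (P (nat_lit 0)) (T.h (P (nat_lit 107513538014303223808)) (T.h (P (nat_lit 0)) (M (nat_lit 12406552033967)))))) (T.h (P (nat_lit 0)) (T.h (T.h (M (nat_lit 115193404408423514111)) (T.h (P (nat_lit 0)) (P (nat_lit 64523868455424)))) (T.h (P (nat_lit 0)) (P (nat_lit 18792837007584)))))) (T.h (T.h (P (nat_lit 0)) (T.h (T.h (P (nat_lit 0)) (P (nat_lit 120510918138789888))) (P (nat_lit 0)))) (T.h (T.h (T.h (P (nat_lit 6454538503194673152)) (T.h (P (nat_lit 0)) (M (nat_lit 12406552033967)))) (T.h (P (nat_lit 0)) (P (nat_lit 3472411185984)))) (T.h (P (nat_lit 0)) (M (nat_lit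 5550730409807)))))))), (T.h (T.h (T.h (P (nat_lit 0)) (T.h (P (nat_lit 3133521640352018543595749376)) (T.h (P (nat_lit 0)) (T.h (P (nat_lit 6131544820029419683840)) (T.h (P (nat_lit 0)) (P (nat_lit 3746641894768640))))))) (T.h (P (nat_lit 0)) (T.h (T.h (P (nat_lit 0)) (T.h (M (nat_lit 3848273589639705526271)) (T.h (P (nat_lit 0)) (P (nat_lit 24755005882941440))))) (T.h (P (nat_lit 0)) (T.h (T.h (P (nat_lit 0)) (M (nat_lit 107296303587655679))) (P (nat_lit 0))))))) (T.h (T.h (P (nat_lit 0)) (T.h (T.h (M (nat_lit 34949159902444343565221887)) (T.h (P (nat_lit 0)) (M (nat_lit 64795198108966322175)))) (T.h (P (nat_lit 0)) (P (nat_lit 130808218232064835584))))) (T.h (T.h (T.h (P (nat_lit 0)) (T.h (P (nat_lit 10530773426254924218368)) (T.h (P (nat_lit 0)) (M (nat_lit 3541496266850303))))) (T.h (P (nat_lit 0)) (T.h (T.h (P (nat_lit 0)) (M (nat_lit 48253519760162815))) (P (nat_lit 0))))) (T.h (T.h (P (nat_lit 0)) (M (nat_lit 18668642047161794559))) (T.h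 (T.h (T.h (P (nat_lit 0)) (P (nat_lit 25399662819524608))) (P (nat_lit 0))) (P (nat_lit 0))))))), (P (nat_lit 0)), (P (nat_lit 0)), (T.h (T.h (P (nat_lit 0)) (T.h (T.h (P (nat_lit 0)) (T.h (M (nat_lit 13089024482181258328145919)) (T.h (P (nat_lit 0)) (T.h (M (nat_lit 32647441060556963839)) (T.h (P (nat_lit 0)) (P (nat_lit 4237866999168))))))) (T.h (P (nat_lit 0)) (T.h (T.h (P (nat_lit 0)) (T.h (M (nat_lit 36766634793414688767)) (T.h (P (nat_lit 0)) (P (nat_lit 2377596206784))))) (T.h (P (nat_lit 0)) (T.h (T.h (P (nat_lit 0)) (M (nat_lit 1283713304399))) (P (nat_lit 0)))))))) (T.h (T.h (T.h (P (nat_lit 5365436076063364494613544960)) (T.h (P (nat_lit 0)) (T.h (M (nat_lit 23003241910279304380415)) (T.h (P (nat_lit 0)) (M (nat_lit 4868192976011263)))))) (T.h (P (nat_lit 0)) (T.h (T.h (P (nat_lit 16692309233254172459008)) (T.h (P (nat_lit 0)) (P (nat_lit 26953724719824896)))) (T.h (P (nat_lit 0)) (M (nat_lit 24295617010860031)))))) (T.h (T.h (P (nat_lit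 0)) (T.h (T.h (P (nat_lit 0)) (T.h (P (nat_lit 25093469970943180800)) (T.h (P (nat_lit 0)) (P (nat_lit 3390121286400))))) (T.h (P (nat_lit 0)) (T.h (T.h (P (nat_lit 0)) (P (nat_lit 13661142254976))) (P (nat_lit 0)))))) (T.h (T.h (T.h (M (nat_lit 2829647422335983026175)) (T.h (P (nat_lit 0)) (P (nat_lit 6090253865844736)))) (T.h (P (nat_lit 0)) (P (nat_lit 17366088078819328)))) (T.h (T.h (P (nat_lit 0)) (T.h (T.h (P (nat_lit 0)) (M (nat_lit 4085685683903))) (P (nat_lit 0)))) (P (nat_lit 8555427069952000))))))), (T.h (T.h (P (nat_lit 0)) (T.h (T.h (M (nat_lit 14143915709784305992583872511)) (T.h (P (nat_lit 0)) (T.h (P (nat_lit 71315698274066231197696)) (T.h (P (nat_lit 0)) (M (nat_lit 8208545001439231)))))) (T.h (P (nat_lit 0)) (T.h (T.h (M (nat_lit 5554121537654855041023)) (T.h (P (nat_lit 0)) (M (nat_lit 32756148533133311)))) (T.h (P (nat_lit 0)) (M (nat_lit 26821480240742399))))))) (T.h (T.h (T.h (P (nat_lit 0)) (T.h (P (nat_lit 1786891951884896965754880))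 (T.h (P (nat_lit 0)) (M (nat_lit 27420855437877051391))))) (T.h (P (nat_lit 0)) (T.h (T.h (P (nat_lit 0)) (P (nat_lit 20838505919270617088))) (P (nat_lit 0))))) (T.h (T.h (P (nat_lit 0)) (T.h (T.h (P (nat_lit 71315698274066231197696)) (T.h (P (nat_lit 0)) (M (nat_lit 50991262593449983)))) (T.h (P (nat_lit 0)) (M (nat_lit 32756148533133311))))) (T.h (T.h (T.h (P (nat_lit 0)) (M (nat_lit 27420855437877051391))) (P (nat_lit 0))) (T.h (T.h (P (nat_lit 0)) (M (nat_lit 8208545001439231))) (P (nat_lit 0))))))), (P (nat_lit 0))]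
def lP22_13 : List (T ℤ) := [(P (nat_lit 0)), (T.h (T.h (T.h (P (nat_lit 0)) (T.h (P (nat_lit 2547540643335990035118817280)) (T.h (P (nat_lit 0)) (T.h (P (nat_lit 392783585823669878784)) (T.h (P (nat_lit 0)) (M (nat_lit 965174953410559))))))) (T.h (P (nat_lit 0)) (T.h (T.h (P (nat_lit 0)) (T.h (P (nat_lit 34455666698401404157952)) (T.h (P (nat_lit 0)) (P (nat_lit 584082030985216))))) (T.h (P (nat_lit 0)) (T.h (T.h (P (nat_lit 0)) (M (nat_lit 2625970948095999))) (P (nat_lit 0))))))) (T.h (T.h (P (nat_lit 0)) (T.h (T.h (M (nat_lit 18381355421258832978903039)) (T.h (P (nat_lit 0)) (M (nat_lit 36613268445365010431)))) (T.h (P (nat_lit 0)) (P (nat_lit 7114211940729094144))))) (T.h (T.h (T.h (P (nat_lit 0)) (T.h (M (nat_lit 19946718446392155570175)) (T.h (P (nat_lit 0)) (P (nat_lit 3402133379809280))))) (T.h (P (nat_lit 0)) (T.h (T.h (P (nat_lit 0)) (M (nat_lit 4932788028899327))) (P (nat_lit 0))))) (T.h (T.h (P (nat_lit 0)) (M (nat_lit 23203781688285986815)))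 (T.h (T.h (T.h (P (nat_lit 0)) (P (nat_lit 3801332291633152))) (P (nat_lit 0))) (P (nat_lit 0))))))), (P (nat_lit 0)), (P (nat_lit 0)), (P (nat_lit 0)), (M (nat_lit 4410501400340933843783516159999)), (P (nat_lit 0)), (P (nat_lit 0))]
def lP22_14 : List (T ℤ) := [(T.h (T.h (T.h (P (nat_lit 2234861071386015486096483287040)) (T.h (P (nat_lit 0)) (T.h (P (nat_lit 3051797688256327059505152)) (T.h (P (nat_lit 0)) (T.h (P (nat_lit 2096545058307178496)) (T.h (P (nat_lit 0)) (M (nat_lit 581504258111)))))))) (T.h (P (nat_lit 0)) (T.h (T.h (M (nat_lit 7708168516762077199597567)) (T.h (P (nat_lit 0)) (T.h (M (nat_lit 7796718564454432767)) (T.h (P (nat_lit 0)) (P (nat_lit 5028296010656)))))) (T.h (P (nat_lit 0)) (T.h (T.h (M (nat_lit 274983503278374911)) (T.h (P (nat_lit 0)) (P (nat_lit 8369762580992)))) (T.h (P (nat_lit 0)) (P (nat_lit 442542226560)))))))) (T.h (T.h (P (nat_lit 0)) (T.h (T.h (P (nat_lit 0)) (T.h (M (nat_lit 52336254976759705894911)) (T.h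 (P (nat_lit 0)) (P (nat_lit 44583115770822656))))) (T.h (P (nat_lit 0)) (T.h (T.h (P (nat_lit 0)) (M (nat_lit 121581743433187327))) (P (nat_lit 0)))))) (T.h (T.h (T.h (P (nat_lit 2432596131675293574234112)) (T.h (P (nat_lit 0)) (T.h (P (nat_lit 45507439988769292288)) (T.h (P (nat_lit 0)) (M (nat_lit 14244316690639)))))) (T.h (P (nat_lit 0)) (T.h (T.h (M (nat_lit 7565961573420761087)) (T.h (P (nat_lit 0)) (P (nat_lit 1638349355456)))) (T.h (P (nat_lit 0)) (P (nat_lit 6846553600992)))))) (T.h (T.h (P (nat_lit 0)) (T.h (T.h (P (nat_lit 0)) (P (nat_lit 43655035402321920))) (P (nat_lit 0)))) (T.h (T.h (T.h (M (nat_lit 1684463669741617151)) (T.h (P (nat_lit 0)) (M (nat_lit 15522591740607)))) (T.h (P (nat_lit 0)) (P (nat_lit 2226811980688)))) (T.h (P (nat_lit 0)) (P (nat_lit 3262258130688)))))))), (T.h (T.h (T.h (P (nat_lit 0)) (T.h (M (nat_lit 9310831352475421986221195263)) (T.h (P (nat_lit 0)) (T.h (P (nat_lit 36551132823750885507072)) (T.h (P (nat_lit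 0)) (M (nat_lit 37352433613930495))))))) (T.h (P (nat_lit 0)) (T.h (T.h (P (nat_lit 0)) (T.h (M (nat_lit 7423397857446391185407)) (T.h (P (nat_lit 0)) (P (nat_lit 36281672255471616))))) (T.h (P (nat_lit 0)) (T.h (T.h (P (nat_lit 0)) (P (nat_lit 74553129266184192))) (P (nat_lit 0))))))) (T.h (T.h (P (nat_lit 0)) (T.h (T.h (P (nat_lit 14270375171105064046559232)) (T.h (P (nat_lit 0)) (T.h (M (nat_lit 14739896929555054591)) (T.h (P (nat_lit 0)) (P (nat_lit 6236726231368)))))) (T.h (P (nat_lit 0)) (T.h (T.h (P (nat_lit 56438257722171850752)) (T.h (P (nat_lit 0)) (M (nat_lit 35792275403143)))) (T.h (P (nat_lit 0)) (P (nat_lit 17156564310232))))))) (T.h (T.h (T.h (P (nat_lit 0)) (T.h (M (nat_lit 20498207068890175897599)) (T.h (P (nat_lit 0)) (P (nat_lit 21931738815692800))))) (T.h (P (nat_lit 0)) (T.h (T.h (P (nat_lit 0)) (P (nat_lit 138756879406301184))) (P (nat_lit 0))))) (T.h (T.h (P (nat_lit 0)) (T.h (T.h (M (nat_lit 12859201740003606527)) (T.h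 (P (nat_lit 0)) (M (nat_lit 2126431661767)))) (T.h (P (nat_lit 0)) (M (nat_lit 28617561087343))))) (T.h (T.h (T.h (P (nat_lit 0)) (M (nat_lit 55359734370959359))) (P (nat_lit 0))) (T.h (T.h (P (nat_lit 0)) (M (nat_lit 1040245586055))) (P (nat_lit 0)))))))), (T.h (T.h (T.h (P (nat_lit 16254568680746320099254504259584)) (T.h (P (nat_lit 0)) (T.h (M (nat_lit 3958576683485596580052991)) (T.h (P (nat_lit 0)) (T.h (M (nat_lit 3860090204698181631)) (T.h (P (nat_lit 0)) (M (nat_lit 2761787860719)))))))) (T.h (P (nat_lit 0)) (T.h (T.h (M (nat_lit 12685605751155373801209855)) (T.h (P (nat_lit 0)) (T.h (P (nat_lit 30513359163695824896)) (T.h (P (nat_lit 0)) (M (nat_lit 23439229653839)))))) (T.h (P (nat_lit 0)) (T.h (T.h (M (nat_lit 19191782102932652031)) (T.h (P (nat_lit 0)) (M (nat_lit 13363464019695)))) (T.h (P (nat_lit 0)) (M (nat_lit 2917104938943)))))))) (T.h (T.h (P (nat_lit 0)) (T.h (T.h (P (nat_lit 0)) (T.h (P (nat_lit 3820633353032503918592))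 (T.h (P (nat_lit 0)) (M (nat_lit 39378245962792959))))) (T.h (P (nat_lit 0)) (T.h (T.h (P (nat_lit 0)) (P (nat_lit 96424188085338112))) (P (nat_lit 0)))))) (T.h (T.h (T.h (P (nat_lit 17411467729897400389599232)) (T.h (P (nat_lit 0)) (T.h (M (nat_lit 41045787689923641343)) (T.h (P (nat_lit 0)) (P (nat_lit 30591108230816)))))) (T.h (P (nat_lit 0)) (T.h (T.h (P (nat_lit 47769169809322803200)) (T.h (P (nat_lit 0)) (P (nat_lit 3923258565072)))) (T.h (P (nat_lit 0)) (M (nat_lit 8473992501295)))))) (T.h (T.h (P (nat_lit 0)) (T.h (T.h (P (nat_lit 0)) (M (nat_lit 10230405475827711))) (P (nat_lit 0)))) (T.h (T.h (T.h (P (nat_lit 41501314220084428800)) (T.h (P (nat_lit 0)) (P (nat_lit 25000766144816)))) (T.h (P (nat_lit 0)) (P (nat_lit 13624628393600)))) (T.h (P (nat_lit 0)) (M (nat_lit 5883104315199)))))))), (T.h (T.h (T.h (P (nat_lit 0)) (T.h (P (nat_lit 11784431976104366283581030400)) (T.h (P (nat_lit 0)) (T.h (P (nat_lit 3663976196347304869888)) (T.h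 (P (nat_lit 0)) (P (nat_lit 3648513761869824))))))) (T.h (P (nat_lit 0)) (T.h (T.h (P (nat_lit 0)) (T.h (P (nat_lit 26555739416533795864576)) (T.h (P (nat_lit 0)) (P (nat_lit 24136215000219648))))) (T.h (P (nat_lit 0)) (T.h (T.h (P (nat_lit 0)) (M (nat_lit 5811931586723839))) (P (nat_lit 0))))))) (T.h (T.h (P (nat_lit 0)) (T.h (T.h (M (nat_lit 17556318179026120489304063)) (T.h (P (nat_lit 0)) (T.h (P (nat_lit 20627963221477687296)) (T.h (P (nat_lit 0)) (P (nat_lit 10811054617632)))))) (T.h (P (nat_lit 0)) (T.h (T.h (M (nat_lit 8893166916194009087)) (T.h (P (nat_lit 0)) (P (nat_lit 713704650528)))) (T.h (P (nat_lit 0)) (M (nat_lit 12054772672943))))))) (T.h (T.h (T.h (P (nat_lit 0)) (T.h (P (nat_lit 37487305661085982392320)) (T.h (P (nat_lit 0)) (M (nat_lit 24150572380094463))))) (T.h (P (nat_lit 0)) (T.h (T.h (P (nat_lit 0)) (M (nat_lit 2910662690144255))) (P (nat_lit 0))))) (T.h (T.h (P (nat_lit 0)) (T.h (T.h (P (nat_lit 30441162874292273152))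 (T.h (P (nat_lit 0)) (M (nat_lit 8590811891663)))) (T.h (P (nat_lit 0)) (P (nat_lit 10495551934128))))) (T.h (T.h (T.h (P (nat_lit 0)) (P (nat_lit 43207727442690048))) (P (nat_lit 0))) (T.h (T.h (P (nat_lit 0)) (M (nat_lit 6246209782991))) (P (nat_lit 0)))))))), (T.h (T.h (T.h (M (nat_lit 3020651936024216055035763621887)) (T.h (P (nat_lit 0)) (T.h (M (nat_lit 3663051078293994793336831)) (T.h (P (nat_lit 0)) (M (nat_lit 109294943314378751)))))) (T.h (P (nat_lit 0)) (T.h (T.h (P (nat_lit 7540115320817060979671040)) (T.h (P (nat_lit 0)) (M (nat_lit 15224186350770061311)))) (T.h (P (nat_lit 0)) (P (nat_lit 7985131884629721088)))))) (T.h (T.h (P (nat_lit 0)) (T.h (T.h (P (nat_lit 0)) (T.h (P (nat_lit 35632436876571404402688)) (T.h (P (nat_lit 0)) (M (nat_lit 24086699684003839))))) (T.h (P (nat_lit 0)) (T.h (T.h (P (nat_lit 0)) (M (nat_lit 2801545172942847))) (P (nat_lit 0)))))) (T.h (T.h (T.h (M (nat_lit 9727723194307173926567935)) (T.h (P (nat_lit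 0)) (M (nat_lit 31834555487518457855)))) (T.h (P (nat_lit 0)) (M (nat_lit 1493952592848355327)))) (T.h (T.h (P (nat_lit 0)) (T.h (T.h (P (nat_lit 0)) (P (nat_lit 11442983771799552))) (P (nat_lit 0)))) (M (nat_lit 34055737634159853567)))))), (P (nat_lit 0)), (P (nat_lit 0)), (T.h (T.h (P (nat_lit 0)) (T.h (T.h (P (nat_lit 0)) (T.h (P (nat_lit 7184268505594158490058752)) (T.h (P (nat_lit 0)) (T.h (P (nat_lit 4839853690716160000)) (T.h (P (nat_lit 0)) (M (nat_lit 7021934510687))))))) (T.h (P (nat_lit 0)) (T.h (T.h (P (nat_lit 0)) (T.h (M (nat_lit 2601156957620404223)) (T.h (P (nat_lit 0)) (M (nat_lit 848450859647))))) (T.h (P (nat_lit 0)) (T.h (T.h (P (nat_lit 0)) (M (nat_lit 1986251696879))) (P (nat_lit 0)))))))) (T.h (T.h (T.h (P (nat_lit 675022628226457307761868800)) (T.h (P (nat_lit 0)) (T.h (M (nat_lit 6464518146767510831103)) (T.h (P (nat_lit 0)) (P (nat_lit 2617465088376832)))))) (T.h (P (nat_lit 0)) (T.h (T.h (P (nat_lit 4845535910664693874688))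 (T.h (P (nat_lit 0)) (P (nat_lit 10386649831112704)))) (T.h (P (nat_lit 0)) (M (nat_lit 6998572935544831)))))) (T.h (T.h (P (nat_lit 0)) (T.h (T.h (P (nat_lit 0)) (T.h (P (nat_lit 11749434630120407040)) (T.h (P (nat_lit 0)) (M (nat_lit 8516383229631))))) (T.h (P (nat_lit 0)) (T.h (T.h (P (nat_lit 0)) (P (nat_lit 13941406177392))) (P (nat_lit 0)))))) (T.h (T.h (T.h (M (nat_lit 1736314362163560972287)) (T.h (P (nat_lit 0)) (M (nat_lit 21126193907367935)))) (T.h (P (nat_lit 0)) (P (nat_lit 13327066108461056)))) (T.h (T.h (P (nat_lit 0)) (T.h (T.h (P (nat_lit 0)) (P (nat_lit 27667501415936))) (P (nat_lit 0)))) (M (nat_lit 3289390770683903)))))))]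
def lP22_15 : List (T ℤ) := [(T.h (T.h (P (nat_lit 0)) (T.h (T.h (P (nat_lit 25915314775276063335450148864)) (T.h (P (nat_lit 0)) (T.h (P (nat_lit 32122294185496053547008)) (T.h (P (nat_lit 0)) (P (nat_lit 113971583758237696)))))) (T.h (P (nat_lit 0)) (T.h (T.h (P (nat_lit 37217567933618439847936)) (T.h (P (nat_lit 0)) (P (nat_lit 32773714036719616)))) (T.h (P (nat_lit 0)) (P (nat_lit 17476605358931968))))))) (T.h (T.h (T.h (P (nat_lit 0)) (T.h (M (nat_lit 74707748385063182113177599)) (T.h (P (nat_lit 0)) (T.h (M (nat_lit 107215200032036749311)) (T.h (P (nat_lit 0)) (M (nat_lit 25595088244551))))))) (T.h (P (nat_lit 0)) (T.h (T.h (P (nat_lit 0)) (T.h (P (nat_lit 13655237996218155008)) (T.h (P (nat_lit 0)) (M (nat_lit 17233012337271))))) (T.h (P (nat_lit 0)) (T.h (T.h (P (nat_lit 0)) (M (nat_lit 10206279154663))) (P (nat_lit 0))))))) (T.h (T.h (P (nat_lit 0)) (T.h (T.h (P (nat_lit 30035619129775030796288)) (T.h (P (nat_lit 0)) (M (nat_lit 91805828405035007))))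 (T.h (P (nat_lit 0)) (P (nat_lit 42708329707143168))))) (T.h (T.h (T.h (P (nat_lit 0)) (T.h (P (nat_lit 208488500830169726976)) (T.h (P (nat_lit 0)) (M (nat_lit 29420639605431))))) (T.h (P (nat_lit 0)) (T.h (T.h (P (nat_lit 0)) (P (nat_lit 13969092811040))) (P (nat_lit 0))))) (T.h (T.h (P (nat_lit 0)) (M (nat_lit 93606095374286847))) (T.h (T.h (T.h (P (nat_lit 0)) (M (nat_lit 735534927183))) (P (nat_lit 0))) (P (nat_lit 0)))))))), (T.h (T.h (P (nat_lit 0)) (T.h (T.h (P (nat_lit 0)) (T.h (P (nat_lit 18160987799552731755053056)) (T.h (P (nat_lit 0)) (T.h (P (nat_lit 19481162464228278272)) (T.h (P (nat_lit 0)) (P (nat_lit 10758290864272))))))) (T.h (P (nat_lit 0)) (T.h (T.h (P (nat_lit 0)) (T.h (P (nat_lit 21878145842191269888)) (T.h (P (nat_lit 0)) (M (nat_lit 7951665789535))))) (T.h (P (nat_lit 0)) (T.h (T.h (P (nat_lit 0)) (M (nat_lit 7873739442575))) (P (nat_lit 0)))))))) (T.h (T.h (T.h (M (nat_lit 17352354535382128834734194687)) (T.h (P (nat_lit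 0)) (T.h (M (nat_lit 52857145051299446783999)) (T.h (P (nat_lit 0)) (P (nat_lit 59286776086216704)))))) (T.h (P (nat_lit 0)) (T.h (T.h (M (nat_lit 52379413170725524078591)) (T.h (P (nat_lit 0)) (P (nat_lit 67914685012082688)))) (T.h (P (nat_lit 0)) (P (nat_lit 15634455428202496)))))) (T.h (T.h (P (nat_lit 0)) (T.h (T.h (P (nat_lit 0)) (T.h (P (nat_lit 59833041670746669056)) (T.h (P (nat_lit 0)) (P (nat_lit 559791081248))))) (T.h (P (nat_lit 0)) (T.h (T.h (P (nat_lit 0)) (M (nat_lit 31703322412495))) (P (nat_lit 0)))))) (T.h (T.h (T.h (M (nat_lit 36234473777591973052415)) (T.h (P (nat_lit 0)) (P (nat_lit 46410021154865152)))) (T.h (P (nat_lit 0)) (M (nat_lit 39686842768982015)))) (T.h (T.h (P (nat_lit 0)) (T.h (T.h (P (nat_lit 0)) (M (nat_lit 100686740992767))) (P (nat_lit 0)))) (M (nat_lit 11100554411098111))))))), (T.h (T.h (P (nat_lit 0)) (T.h (T.h (M (nat_lit 20554582978663004213834940415)) (T.h (P (nat_lit 0)) (T.h (P (nat_lit 5421638563026066997248))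 (T.h (P (nat_lit 0)) (M (nat_lit 82991536738959359)))))) (T.h (P (nat_lit 0)) (T.h (T.h (M (nat_lit 34999172906064189325311)) (T.h (P (nat_lit 0)) (P (nat_lit 64360973732315136)))) (T.h (P (nat_lit 0)) (M (nat_lit 10332781579010047))))))) (T.h (T.h (T.h (P (nat_lit 0)) (T.h (P (nat_lit 25007603106928841134702592)) (T.h (P (nat_lit 0)) (T.h (P (nat_lit 69827702267230289920)) (T.h (P (nat_lit 0)) (P (nat_lit 54728237009232))))))) (T.h (P (nat_lit 0)) (T.h (T.h (P (nat_lit 0)) (T.h (M (nat_lit 259926857630206656511)) (T.h (P (nat_lit 0)) (P (nat_lit 8210136746112))))) (T.h (P (nat_lit 0)) (T.h (T.h (P (nat_lit 0)) (M (nat_lit 462822932063))) (P (nat_lit 0))))))) (T.h (T.h (P (nat_lit 0)) (T.h (T.h (M (nat_lit 50790724973385429811199)) (T.h (P (nat_lit 0)) (M (nat_lit 2238457358548991)))) (T.h (P (nat_lit 0)) (P (nat_lit 63171967222317056))))) (T.h (T.h (T.h (P (nat_lit 0)) (T.h (M (nat_lit 140829281879618224127)) (T.h (P (nat_lit 0)) (M (nat_lit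 26511480658367))))) (T.h (P (nat_lit 0)) (T.h (T.h (P (nat_lit 0)) (P (nat_lit 18547842041616))) (P (nat_lit 0))))) (T.h (T.h (P (nat_lit 0)) (P (nat_lit 62941527274127360))) (T.h (T.h (T.h (P (nat_lit 0)) (P (nat_lit 31401763312080))) (P (nat_lit 0))) (P (nat_lit 0)))))))), (T.h (T.h (P (nat_lit 0)) (T.h (T.h (P (nat_lit 0)) (T.h (M (nat_lit 53330515323703176544124927)) (T.h (P (nat_lit 0)) (P (nat_lit 137922430172793929728))))) (T.h (P (nat_lit 0)) (T.h (T.h (P (nat_lit 0)) (M (nat_lit 41872423735447781375))) (P (nat_lit 0)))))) (T.h (T.h (T.h (P (nat_lit 5681062283688008578714566656)) (T.h (P (nat_lit 0)) (T.h (P (nat_lit 30607393108761698631680)) (T.h (P (nat_lit 0)) (M (nat_lit 109922274535751679)))))) (T.h (P (nat_lit 0)) (T.h (T.h (M (nat_lit 9415945020137231351807)) (T.h (P (nat_lit 0)) (M (nat_lit 53186307789062143)))) (T.h (P (nat_lit 0)) (P (nat_lit 29200995111157760)))))) (T.h (T.h (P (nat_lit 0)) (T.h (T.h (P (nat_lit 0)) (M (nat_lit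 101408466554331332607))) (P (nat_lit 0)))) (T.h (T.h (T.h (P (nat_lit 6524328405853089562624)) (T.h (P (nat_lit 0)) (P (nat_lit 25339087913926656)))) (T.h (P (nat_lit 0)) (M (nat_lit 139362887041023)))) (T.h (P (nat_lit 0)) (P (nat_lit 2781466941358080))))))), (P (nat_lit 0)), (P (nat_lit 0)), (T.h (T.h (T.h (P (nat_lit 4725963943877363446462631903232)) (T.h (P (nat_lit 0)) (T.h (M (nat_lit 4525859893507873321254911)) (T.h (P (nat_lit 0)) (T.h (P (nat_lit 4356681048105418752)) (T.h (P (nat_lit 0)) (P (nat_lit 943651346112)))))))) (T.h (P (nat_lit 0)) (T.h (T.h (P (nat_lit 5614904754929497452576768)) (T.h (P (nat_lit 0)) (T.h (P (nat_lit 41585227620505616384)) (T.h (P (nat_lit 0)) (M (nat_lit 12568657270559)))))) (T.h (P (nat_lit 0)) (T.h (T.h (P (nat_lit 2947200881642176512)) (T.h (P (nat_lit 0)) (M (nat_lit 17188398890863)))) (T.h (P (nat_lit 0)) (P (nat_lit 3763367250240)))))))) (T.h (T.h (P (nat_lit 0)) (T.h (T.h (P (nat_lit 0)) (T.h (M (nat_lit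 100712418235580822847487)) (T.h (P (nat_lit 0)) (M (nat_lit 83660640094126079))))) (T.h (P (nat_lit 0)) (T.h (T.h (P (nat_lit 0)) (P (nat_lit 81576138741383168))) (P (nat_lit 0)))))) (T.h (T.h (T.h (M (nat_lit 4525859893507873321254911)) (T.h (P (nat_lit 0)) (T.h (M (nat_lit 11718930932718108671)) (T.h (P (nat_lit 0)) (P (nat_lit 6703955430736)))))) (T.h (P (nat_lit 0)) (T.h (T.h (P (nat_lit 41585227620505616384)) (T.h (P (nat_lit 0)) (M (nat_lit 5601216724607)))) (T.h (P (nat_lit 0)) (M (nat_lit 17188398890863)))))) (T.h (T.h (P (nat_lit 0)) (T.h (T.h (P (nat_lit 0)) (M (nat_lit 83660640094126079))) (P (nat_lit 0)))) (T.h (T.h (T.h (P (nat_lit 4356681048105418752)) (T.h (P (nat_lit 0)) (P (nat_lit 6703955430736)))) (T.h (P (nat_lit 0)) (M (nat_lit 12568657270559)))) (T.h (P (nat_lit 0)) (P (nat_lit 943651346112)))))))), (T.h (T.h (T.h (P (nat_lit 0)) (T.h (M (nat_lit 5740505652863568559692840959)) (T.h (P (nat_lit 0)) (T.h (P (nat_lit 13722124758584802672640))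 (T.h (P (nat_lit 0)) (P (nat_lit 35026072501878784))))))) (T.h (P (nat_lit 0)) (T.h (T.h (P (nat_lit 0)) (T.h (P (nat_lit 135088971692739877928960)) (T.h (P (nat_lit 0)) (M (nat_lit 61048963772252159))))) (T.h (P (nat_lit 0)) (T.h (T.h (P (nat_lit 0)) (P (nat_lit 42855415369302016))) (P (nat_lit 0))))))) (T.h (T.h (P (nat_lit 0)) (T.h (T.h (M (nat_lit 84066929688755048797962239)) (T.h (P (nat_lit 0)) (T.h (M (nat_lit 74571478095464759295)) (T.h (P (nat_lit 0)) (M (nat_lit 8234108884807)))))) (T.h (P (nat_lit 0)) (T.h (T.h (M (nat_lit 94871250259186548735)) (T.h (P (nat_lit 0)) (M (nat_lit 34423184521223)))) (T.h (P (nat_lit 0)) (M (nat_lit 807026724663))))))) (T.h (T.h (T.h (P (nat_lit 0)) (T.h (M (nat_lit 70443364357273297092607)) (T.h (P (nat_lit 0)) (P (nat_lit 70262232530386944))))) (T.h (P (nat_lit 0)) (T.h (T.h (P (nat_lit 0)) (M (nat_lit 191526525544267775))) (P (nat_lit 0))))) (T.h (T.h (P (nat_lit 0)) (T.h (T.h (P (nat_lit 156187702513071292416))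 (T.h (P (nat_lit 0)) (M (nat_lit 34727966347239)))) (T.h (P (nat_lit 0)) (P (nat_lit 4688126309776))))) (T.h (T.h (T.h (P (nat_lit 0)) (M (nat_lit 45857594310426623))) (P (nat_lit 0))) (T.h (T.h (P (nat_lit 0)) (P (nat_lit 8863310328040))) (P (nat_lit 0))))))))]
def lP22_16 : List (T ℤ) := [(T.h (T.h (T.h (P (nat_lit 34469396769798165494452468056064)) (T.h (P (nat_lit 0)) (T.h (P (nat_lit 19934871219881659447902208)) (T.h (P (nat_lit 0)) (T.h (P (nat_lit 14772470881657552896)) (T.h (P (nat_lit 0)) (P (nat_lit 3093102488336)))))))) (T.h (P (nat_lit 0)) (T.h (T.h (P (nat_lit 44519641943507608847515648)) (T.h (P (nat_lit 0)) (T.h (M (nat_lit 58852486921897115647)) (T.h (P (nat_lit 0)) (P (nat_lit 1773144249968)))))) (T.h (P (nat_lit 0)) (T.h (T.h (P (nat_lit 47482288048942612480)) (T.h (P (nat_lit 0)) (M (nat_lit 6111706707791)))) (T.h (P (nat_lit 0)) (P (nat_lit 6826623893488)))))))) (T.h (T.h (P (nat_lit 0)) (T.h (T.h (P (nat_lit 0)) (T.h (M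 (nat_lit 62416489380685828587519)) (T.h (P (nat_lit 0)) (P (nat_lit 111511163911897088))))) (T.h (P (nat_lit 0)) (T.h (T.h (P (nat_lit 0)) (P (nat_lit 163637327301378048))) (P (nat_lit 0)))))) (T.h (T.h (T.h (P (nat_lit 14422568462454834656706560)) (T.h (P (nat_lit 0)) (T.h (P (nat_lit 12706659931722350592)) (T.h (P (nat_lit 0)) (M (nat_lit 52257193634687)))))) (T.h (P (nat_lit 0)) (T.h (T.h (P (nat_lit 33504488882459115520)) (T.h (P (nat_lit 0)) (P (nat_lit 2383799509616)))) (T.h (P (nat_lit 0)) (M (nat_lit 20438202200751)))))) (T.h (T.h (P (nat_lit 0)) (T.h (T.h (P (nat_lit 0)) (P (nat_lit 270291920862543872))) (P (nat_lit 0)))) (T.h (T.h (T.h (M (nat_lit 13210808274074468351)) (T.h (P (nat_lit 0)) (M (nat_lit 44475936872303)))) (T.h (P (nat_lit 0)) (M (nat_lit 42536823095647)))) (T.h (P (nat_lit 0)) (P (nat_lit 9792623269744)))))))), (T.h (T.h (T.h (P (nat_lit 0)) (T.h (P (nat_lit 19788889410555807710641651712)) (T.h (P (nat_lit 0)) (T.h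 (M (nat_lit 49904929576304448110591)) (T.h (P (nat_lit 0)) (M (nat_lit 7779731908526079))))))) (T.h (P (nat_lit 0)) (T.h (T.h (P (nat_lit 0)) (T.h (M (nat_lit 1946987401408860389375)) (T.h (P (nat_lit 0)) (P (nat_lit 2096900104093696))))) (T.h (P (nat_lit 0)) (T.h (T.h (P (nat_lit 0)) (P (nat_lit 33028909204176896))) (P (nat_lit 0))))))) (T.h (T.h (P (nat_lit 0)) (T.h (T.h (P (nat_lit 12042424443966133777727488)) (T.h (P (nat_lit 0)) (T.h (P (nat_lit 117160856552898297856)) (T.h (P (nat_lit 0)) (P (nat_lit 50165371254912)))))) (T.h (P (nat_lit 0)) (T.h (T.h (M (nat_lit 50061516823265804287)) (T.h (P (nat_lit 0)) (P (nat_lit 35562937696320)))) (T.h (P (nat_lit 0)) (M (nat_lit 2357720657615))))))) (T.h (T.h (T.h (P (nat_lit 0)) (T.h (M (nat_lit 12878553645961046917119)) (T.h (P (nat_lit 0)) (P (nat_lit 50383687484407808))))) (T.h (P (nat_lit 0)) (T.h (T.h (P (nat_lit 0)) (M (nat_lit 2811813019516927))) (P (nat_lit 0))))) (T.h (T.h (P (nat_lit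 0)) (T.h (T.h (M (nat_lit 89395846613752086527)) (T.h (P (nat_lit 0)) (P (nat_lit 44867454238512)))) (T.h (P (nat_lit 0)) (P (nat_lit 15825708946992))))) (T.h (T.h (T.h (P (nat_lit 0)) (M (nat_lit 15990749825236991))) (P (nat_lit 0))) (T.h (T.h (P (nat_lit 0)) (M (nat_lit 8166283547567))) (P (nat_lit 0)))))))), (T.h (T.h (T.h (M (nat_lit 3990930358680729164823654301695)) (T.h (P (nat_lit 0)) (T.h (P (nat_lit 21974902872093783693983744)) (T.h (P (nat_lit 0)) (P (nat_lit 53121578943446515712)))))) (T.h (P (nat_lit 0)) (T.h (T.h (P (nat_lit 27076531107476770798960640)) (T.h (P (nat_lit 0)) (M (nat_lit 17065805797469978623)))) (T.h (P (nat_lit 0)) (P (nat_lit 12685585197551321088)))))) (T.h (T.h (P (nat_lit 0)) (T.h (T.h (P (nat_lit 0)) (T.h (P (nat_lit 118862079073980380086272)) (T.h (P (nat_lit 0)) (M (nat_lit 70376020478001151))))) (T.h (P (nat_lit 0)) (T.h (T.h (P (nat_lit 0)) (M (nat_lit 33993395259670527))) (P (nat_lit 0)))))) (T.h (T.h (T.h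 (P (nat_lit 44344369622601005705199616)) (T.h (P (nat_lit 0)) (M (nat_lit 455436660721582079)))) (T.h (P (nat_lit 0)) (M (nat_lit 67671942614401155071)))) (T.h (T.h (P (nat_lit 0)) (T.h (T.h (P (nat_lit 0)) (M (nat_lit 48237924204412927))) (P (nat_lit 0)))) (P (nat_lit 54726454716340895744)))))), (P (nat_lit 0)), (T.h (T.h (P (nat_lit 0)) (T.h (T.h (P (nat_lit 0)) (T.h (P (nat_lit 8967851728135020949274624)) (T.h (P (nat_lit 0)) (T.h (M (nat_lit 1632295132411723775)) (T.h (P (nat_lit 0)) (M (nat_lit 1262651453183))))))) (T.h (P (nat_lit 0)) (T.h (T.h (P (nat_lit 0)) (T.h (P (nat_lit 5808715515924840448)) (T.h (P (nat_lit 0)) (M (nat_lit 1954457784095))))) (T.h (P (nat_lit 0)) (T.h (T.h (P (nat_lit 0)) (M (nat_lit 6298334266991))) (P (nat_lit 0)))))))) (T.h (T.h (T.h (P (nat_lit 382278186225956246805020672)) (T.h (P (nat_lit 0)) (T.h (P (nat_lit 4917025952193526628352)) (T.h (P (nat_lit 0)) (P (nat_lit 566836548272128)))))) (T.h (P (nat_lit 0))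 (T.h (T.h (M (nat_lit 6393028105238678077439)) (T.h (P (nat_lit 0)) (P (nat_lit 17704818290655232)))) (T.h (P (nat_lit 0)) (P (nat_lit 10182874572193792)))))) (T.h (T.h (P (nat_lit 0)) (T.h (T.h (P (nat_lit 0)) (T.h (P (nat_lit 21437333873006477312)) (T.h (P (nat_lit 0)) (P (nat_lit 7808644584816))))) (T.h (P (nat_lit 0)) (T.h (T.h (P (nat_lit 0)) (M (nat_lit 14649144822207))) (P (nat_lit 0)))))) (T.h (T.h (T.h (M (nat_lit 2314989451720488124415)) (T.h (P (nat_lit 0)) (P (nat_lit 13535529003122688)))) (T.h (P (nat_lit 0)) (M (nat_lit 20917731012706303)))) (T.h (T.h (P (nat_lit 0)) (T.h (T.h (P (nat_lit 0)) (P (nat_lit 9389964963200))) (P (nat_lit 0)))) (M (nat_lit 1940894262886399))))))), (T.h (T.h (P (nat_lit 0)) (T.h (T.h (M (nat_lit 17945310140263648500847214591)) (T.h (P (nat_lit 0)) (T.h (P (nat_lit 60669860299830984704)) (T.h (P (nat_lit 0)) (M (nat_lit 464363322310655)))))) (T.h (P (nat_lit 0)) (T.h (T.h (P (nat_lit 62414332190549178580992))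 (T.h (P (nat_lit 0)) (M (nat_lit 101349532107309055)))) (T.h (P (nat_lit 0)) (M (nat_lit 23035914709499903))))))) (T.h (T.h (T.h (P (nat_lit 0)) (T.h (P (nat_lit 113671732526542678644490240)) (T.h (P (nat_lit 0)) (T.h (P (nat_lit 63239819769151488000)) (T.h (P (nat_lit 0)) (M (nat_lit 13012849848431))))))) (T.h (P (nat_lit 0)) (T.h (T.h (P (nat_lit 0)) (T.h (M (nat_lit 77247248945085677567)) (T.h (P (nat_lit 0)) (M (nat_lit 1468415416495))))) (T.h (P (nat_lit 0)) (T.h (T.h (P (nat_lit 0)) (M (nat_lit 90464097072943))) (P (nat_lit 0))))))) (T.h (T.h (P (nat_lit 0)) (T.h (T.h (P (nat_lit 60669860299830984704)) (T.h (P (nat_lit 0)) (P (nat_lit 338852635511685120)))) (T.h (P (nat_lit 0)) (M (nat_lit 101349532107309055))))) (T.h (T.h (T.h (P (nat_lit 0)) (T.h (P (nat_lit 63239819769151488000)) (T.h (P (nat_lit 0)) (M (nat_lit 11131694030239))))) (T.h (P (nat_lit 0)) (T.h (T.h (P (nat_lit 0)) (M (nat_lit 1468415416495))) (P (nat_lit 0))))) (T.h (T.h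 (P (nat_lit 0)) (M (nat_lit 464363322310655))) (T.h (T.h (T.h (P (nat_lit 0)) (M (nat_lit 13012849848431))) (P (nat_lit 0))) (P (nat_lit 0)))))))), (T.h (T.h (P (nat_lit 0)) (T.h (T.h (P (nat_lit 0)) (T.h (M (nat_lit 35141102086828376018911231)) (T.h (P (nat_lit 0)) (T.h (M (nat_lit 38571660381763141631)) (T.h (P (nat_lit 0)) (P (nat_lit 3422371587152))))))) (T.h (P (nat_lit 0)) (T.h (T.h (P (nat_lit 0)) (T.h (M (nat_lit 2909828443430453247)) (T.h (P (nat_lit 0)) (P (nat_lit 31506594755440))))) (T.h (P (nat_lit 0)) (T.h (T.h (P (nat_lit 0)) (P (nat_lit 13234316602864))) (P (nat_lit 0)))))))) (T.h (T.h (T.h (P (nat_lit 2044603438598660144330964992)) (T.h (P (nat_lit 0)) (T.h (M (nat_lit 73152441692684927631359)) (T.h (P (nat_lit 0)) (M (nat_lit 32437737833037823)))))) (T.h (P (nat_lit 0)) (T.h (T.h (M (nat_lit 45546875889984468942847)) (T.h (P (nat_lit 0)) (M (nat_lit 45794015764905983)))) (T.h (P (nat_lit 0)) (M (nat_lit 1676071592312831))))))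 (T.h (T.h (P (nat_lit 0)) (T.h (T.h (P (nat_lit 0)) (T.h (P (nat_lit 44100721235759988736)) (T.h (P (nat_lit 0)) (M (nat_lit 43238637266271))))) (T.h (P (nat_lit 0)) (T.h (T.h (P (nat_lit 0)) (M (nat_lit 34191637143327))) (P (nat_lit 0)))))) (T.h (T.h (T.h (P (nat_lit 27293918296730966687744)) (T.h (P (nat_lit 0)) (M (nat_lit 9506042827390975)))) (T.h (P (nat_lit 0)) (P (nat_lit 29961264934567936)))) (T.h (T.h (P (nat_lit 0)) (T.h (T.h (P (nat_lit 0)) (M (nat_lit 122270494269615))) (P (nat_lit 0)))) (M (nat_lit 448300185337855))))))), (T.h (T.h (P (nat_lit 0)) (T.h (T.h (P (nat_lit 18529432507910414292886749184)) (T.h (P (nat_lit 0)) (T.h (M (nat_lit 43982881278496188923903)) (T.h (P (nat_lit 0)) (M (nat_lit 16801593346162687)))))) (T.h (P (nat_lit 0)) (T.h (T.h (M (nat_lit 23497555097726815830015)) (T.h (P (nat_lit 0)) (M (nat_lit 21776831697780735)))) (T.h (P (nat_lit 0)) (M (nat_lit 15087081316876287))))))) (T.h (T.h (T.h (P (nat_lit 0))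 (T.h (P (nat_lit 15634930968812011095326720)) (T.h (P (nat_lit 0)) (T.h (M (nat_lit 40455026207279284223)) (T.h (P (nat_lit 0)) (M (nat_lit 17687626344095))))))) (T.h (P (nat_lit 0)) (T.h (T.h (P (nat_lit 0)) (T.h (P (nat_lit 204070318076118171648)) (T.h (P (nat_lit 0)) (P (nat_lit 42283604431488))))) (T.h (P (nat_lit 0)) (T.h (T.h (P (nat_lit 0)) (P (nat_lit 3168478249392))) (P (nat_lit 0))))))) (T.h (T.h (P (nat_lit 0)) (T.h (T.h (M (nat_lit 15669734238933647097855)) (T.h (P (nat_lit 0)) (P (nat_lit 43462957736230912)))) (T.h (P (nat_lit 0)) (P (nat_lit 6429248133234688))))) (T.h (T.h (T.h (P (nat_lit 0)) (T.h (M (nat_lit 64727913200095330303)) (T.h (P (nat_lit 0)) (P (nat_lit 2312718109872))))) (T.h (P (nat_lit 0)) (T.h (T.h (P (nat_lit 0)) (P (nat_lit 20437287337344))) (P (nat_lit 0))))) (T.h (T.h (P (nat_lit 0)) (P (nat_lit 7531921577934848))) (T.h (T.h (T.h (P (nat_lit 0)) (P (nat_lit 10661404066896))) (P (nat_lit 0))) (P (nat_lit 0))))))))]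
def lP22_17 : List (T ℤ) := [(T.h (T.h (P (nat_lit 0)) (T.h (T.h (P (nat_lit 0)) (T.h (P (nat_lit 26574890608093291826118656)) (T.h (P (nat_lit 0)) (P (nat_lit 75770150469425430528))))) (T.h (P (nat_lit 0)) (T.h (T.h (P (nat_lit 0)) (P (nat_lit 35550091513922846720))) (P (nat_lit 0)))))) (T.h (T.h (T.h (M (nat_lit 16243022313474890036584382463)) (T.h (P (nat_lit 0)) (T.h (P (nat_lit 27668648396956542959616)) (T.h (P (nat_lit 0)) (P (nat_lit 18042978245672960)))))) (T.h (P (nat_lit 0)) (T.h (T.h (M (nat_lit 12631042986953158950911)) (T.h (P (nat_lit 0)) (M (nat_lit 106632176431267839)))) (T.h (P (nat_lit 0)) (P (nat_lit 7921545353297920)))))) (T.h (T.h (P (nat_lit 0)) (T.h (T.h (P (nat_lit 0)) (M (nat_lit 23191666894703689727))) (P (nat_lit 0)))) (T.h (T.h (T.h (M (nat_lit 63266495506882056159231)) (T.h (P (nat_lit 0)) (M (nat_lit 21423492554489855)))) (T.h (P (nat_lit 0)) (M (nat_lit 26921964869435391)))) (T.h (P (nat_lit 0)) (M (nat_lit 30725900405669887))))))),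 (T.h (T.h (T.h (M (nat_lit 128120900552666237134832664575)) (T.h (P (nat_lit 0)) (T.h (M (nat_lit 374856245789455152054271)) (T.h (P (nat_lit 0)) (T.h (M (nat_lit 3158064110562705407)) (T.h (P (nat_lit 0)) (P (nat_lit 1380574505568)))))))) (T.h (P (nat_lit 0)) (T.h (T.h (P (nat_lit 244345310791578333216768)) (T.h (P (nat_lit 0)) (T.h (M (nat_lit 1937253098095378431)) (T.h (P (nat_lit 0)) (P (nat_lit 2707914055472)))))) (T.h (P (nat_lit 0)) (T.h (T.h (P (nat_lit 622944617486090240)) (T.h (P (nat_lit 0)) (P (nat_lit 3986189105440)))) (T.h (P (nat_lit 0)) (M (nat_lit 2463187883231)))))))) (T.h (T.h (P (nat_lit 0)) (T.h (T.h (P (nat_lit 0)) (T.h (M (nat_lit 1980045858969294471167)) (T.h (P (nat_lit 0)) (P (nat_lit 2866966031630336))))) (T.h (P (nat_lit 0)) (T.h (T.h (P (nat_lit 0)) (P (nat_lit 3795046400131072))) (P (nat_lit 0)))))) (T.h (T.h (T.h (M (nat_lit 374856245789455152054271)) (T.h (P (nat_lit 0)) (T.h (M (nat_lit 1706496107061706751))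 (T.h (P (nat_lit 0)) (P (nat_lit 1184705075472)))))) (T.h (P (nat_lit 0)) (T.h (T.h (M (nat_lit 1937253098095378431)) (T.h (P (nat_lit 0)) (P (nat_lit 4438957717760)))) (T.h (P (nat_lit 0)) (P (nat_lit 3986189105440)))))) (T.h (T.h (P (nat_lit 0)) (T.h (T.h (P (nat_lit 0)) (P (nat_lit 2866966031630336))) (P (nat_lit 0)))) (T.h (T.h (T.h (M (nat_lit 3158064110562705407)) (T.h (P (nat_lit 0)) (P (nat_lit 1184705075472)))) (T.h (P (nat_lit 0)) (P (nat_lit 2707914055472)))) (T.h (P (nat_lit 0)) (P (nat_lit 1380574505568)))))))), (T.h (T.h (T.h (P (nat_lit 0)) (T.h (P (nat_lit 485651212811086475852513280)) (T.h (P (nat_lit 0)) (T.h (M (nat_lit 5714166192908208701439)) (T.h (P (nat_lit 0)) (M (nat_lit 6752635111702527))))))) (T.h (P (nat_lit 0)) (T.h (T.h (P (nat_lit 0)) (T.h (M (nat_lit 47841372592584299380735)) (T.h (P (nat_lit 0)) (M (nat_lit 6269596438265855))))) (T.h (P (nat_lit 0)) (T.h (T.h (P (nat_lit 0)) (P (nat_lit 26959970316943360))) (P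 (nat_lit 0))))))) (T.h (T.h (P (nat_lit 0)) (T.h (T.h (P (nat_lit 28103389209149550503133184)) (T.h (P (nat_lit 0)) (T.h (M (nat_lit 46755508501555970047)) (T.h (P (nat_lit 0)) (M (nat_lit 10659207937431)))))) (T.h (P (nat_lit 0)) (T.h (T.h (P (nat_lit 22841197399336026112)) (T.h (P (nat_lit 0)) (P (nat_lit 2992585843392)))) (T.h (P (nat_lit 0)) (M (nat_lit 26232607252823))))))) (T.h (T.h (T.h (P (nat_lit 0)) (T.h (M (nat_lit 13720754705523942621183)) (T.h (P (nat_lit 0)) (M (nat_lit 32749874407112703))))) (T.h (P (nat_lit 0)) (T.h (T.h (P (nat_lit 0)) (P (nat_lit 48593063187546112))) (P (nat_lit 0))))) (T.h (T.h (P (nat_lit 0)) (T.h (T.h (P (nat_lit 36020199626832347136)) (T.h (P (nat_lit 0)) (M (nat_lit 35283134200615)))) (T.h (P (nat_lit 0)) (P (nat_lit 30282302885432))))) (T.h (T.h (T.h (P (nat_lit 0)) (P (nat_lit 4266103463411712))) (P (nat_lit 0))) (T.h (T.h (P (nat_lit 0)) (M (nat_lit 14764031900079))) (P (nat_lit 0)))))))), (T.h (T.h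 (T.h (P (nat_lit 17094486006638023269611089166336)) (T.h (P (nat_lit 0)) (T.h (M (nat_lit 1076378879282812192555007)) (T.h (P (nat_lit 0)) (T.h (P (nat_lit 10528504190248943616)) (T.h (P (nat_lit 0)) (M (nat_lit 6581222486943)))))))) (T.h (P (nat_lit 0)) (T.h (T.h (M (nat_lit 20148846845481936800972799)) (T.h (P (nat_lit 0)) (T.h (M (nat_lit 41828168617177382911)) (T.h (P (nat_lit 0)) (P (nat_lit 21021497637056)))))) (T.h (P (nat_lit 0)) (T.h (T.h (P (nat_lit 5801966178695905280)) (T.h (P (nat_lit 0)) (P (nat_lit 21125091832432)))) (T.h (P (nat_lit 0)) (M (nat_lit 17014264673503)))))))) (T.h (T.h (P (nat_lit 0)) (T.h (T.h (P (nat_lit 0)) (T.h (M (nat_lit 11089826955933368975359)) (T.h (P (nat_lit 0)) (P (nat_lit 108232000471072768))))) (T.h (P (nat_lit 0)) (T.h (T.h (P (nat_lit 0)) (M (nat_lit 102674919869054975))) (P (nat_lit 0)))))) (T.h (T.h (T.h (M (nat_lit 1076378879282812192555007)) (T.h (P (nat_lit 0)) (T.h (P (nat_lit 71326636137915613184))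 (T.h (P (nat_lit 0)) (P (nat_lit 8634115920752)))))) (T.h (P (nat_lit 0)) (T.h (T.h (M (nat_lit 41828168617177382911)) (T.h (P (nat_lit 0)) (P (nat_lit 28555142539168)))) (T.h (P (nat_lit 0)) (P (nat_lit 21125091832432)))))) (T.h (T.h (P (nat_lit 0)) (T.h (T.h (P (nat_lit 0)) (P (nat_lit 108232000471072768))) (P (nat_lit 0)))) (T.h (T.h (T.h (P (nat_lit 10528504190248943616)) (T.h (P (nat_lit 0)) (P (nat_lit 8634115920752)))) (T.h (P (nat_lit 0)) (P (nat_lit 21021497637056)))) (T.h (P (nat_lit 0)) (M (nat_lit 6581222486943)))))))), (T.h (T.h (T.h (P (nat_lit 0)) (T.h (M (nat_lit 22103747269811347225678184447)) (T.h (P (nat_lit 0)) (T.h (M (nat_lit 10737789727595630166015)) (T.h (P (nat_lit 0)) (M (nat_lit 10467174818709503))))))) (T.h (P (nat_lit 0)) (T.h (T.h (P (nat_lit 0)) (T.h (M (nat_lit 22900413350841088475135)) (T.h (P (nat_lit 0)) (M (nat_lit 20850077718872063))))) (T.h (P (nat_lit 0)) (T.h (T.h (P (nat_lit 0)) (M (nat_lit 77230784205979647)))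 (P (nat_lit 0))))))) (T.h (T.h (P (nat_lit 0)) (T.h (T.h (P (nat_lit 26500495132438401082458112)) (T.h (P (nat_lit 0)) (T.h (M (nat_lit 194145112093039263743)) (T.h (P (nat_lit 0)) (M (nat_lit 46674816420047)))))) (T.h (P (nat_lit 0)) (T.h (T.h (P (nat_lit 128417446864883810304)) (T.h (P (nat_lit 0)) (P (nat_lit 1522815780144)))) (T.h (P (nat_lit 0)) (P (nat_lit 35846040847008))))))) (T.h (T.h (T.h (P (nat_lit 0)) (T.h (M (nat_lit 11104078704156566618111)) (T.h (P (nat_lit 0)) (P (nat_lit 17442829815119872))))) (T.h (P (nat_lit 0)) (T.h (T.h (P (nat_lit 0)) (M (nat_lit 7829432130568191))) (P (nat_lit 0))))) (T.h (T.h (P (nat_lit 0)) (T.h (T.h (M (nat_lit 110631618007638474751)) (T.h (P (nat_lit 0)) (P (nat_lit 285224950080)))) (T.h (P (nat_lit 0)) (M (nat_lit 27454079460623))))) (T.h (T.h (T.h (P (nat_lit 0)) (P (nat_lit 73608370696355840))) (P (nat_lit 0))) (T.h (T.h (P (nat_lit 0)) (P (nat_lit 35347017257280))) (P (nat_lit 0)))))))), (T.h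 (T.h (T.h (M (nat_lit 2158715027469926782626691022847)) (T.h (P (nat_lit 0)) (T.h (P (nat_lit 18460261466987417481248768)) (T.h (P (nat_lit 0)) (P (nat_lit 28045583246059110400)))))) (T.h (P (nat_lit 0)) (T.h (T.h (P (nat_lit 3305967084846956888981504)) (T.h (P (nat_lit 0)) (M (nat_lit 8048539277899857919)))) (T.h (P (nat_lit 0)) (P (nat_lit 41067633087189352448)))))) (T.h (T.h (P (nat_lit 0)) (T.h (T.h (P (nat_lit 0)) (T.h (P (nat_lit 71991074787313208786944)) (T.h (P (nat_lit 0)) (P (nat_lit 24513404691382272))))) (T.h (P (nat_lit 0)) (T.h (T.h (P (nat_lit 0)) (M (nat_lit 1644384781697023))) (P (nat_lit 0)))))) (T.h (T.h (T.h (P (nat_lit 33337618639729065522626560)) (T.h (P (nat_lit 0)) (M (nat_lit 50230513080956092415)))) (T.h (P (nat_lit 0)) (P (nat_lit 24234172217068355584)))) (T.h (T.h (P (nat_lit 0)) (T.h (T.h (P (nat_lit 0)) (M (nat_lit 19092983665393663))) (P (nat_lit 0)))) (P (nat_lit 47976782058848518144)))))), (T.h (T.h (P (nat_lit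 0)) (T.h (T.h (M (nat_lit 6708703288543951383055826943)) (T.h (P (nat_lit 0)) (T.h (M (nat_lit 4825756084058852425727)) (T.h (P (nat_lit 0)) (M (nat_lit 13727318916464639)))))) (T.h (P (nat_lit 0)) (T.h (T.h (M (nat_lit 8639614918792361017343)) (T.h (P (nat_lit 0)) (M (nat_lit 22339981025869823)))) (T.h (P (nat_lit 0)) (P (nat_lit 12079869476732928))))))) (T.h (T.h (T.h (P (nat_lit 0)) (T.h (P (nat_lit 2367679197508544791314432)) (T.h (P (nat_lit 0)) (T.h (M (nat_lit 17490023526864781311)) (T.h (P (nat_lit 0)) (P (nat_lit 1111384698048))))))) (T.h (P (nat_lit 0)) (T.h (T.h (P (nat_lit 0)) (T.h (M (nat_lit 16662209236586987519)) (T.h (P (nat_lit 0)) (P (nat_lit 1223173417000))))) (T.h (P (nat_lit 0)) (T.h (T.h (P (nat_lit 0)) (M (nat_lit 14111840783999))) (P (nat_lit 0))))))) (T.h (T.h (P (nat_lit 0)) (T.h (T.h (M (nat_lit 9336552845164421316607)) (T.h (P (nat_lit 0)) (M (nat_lit 22001358117797887)))) (T.h (P (nat_lit 0)) (M (nat_lit 17301337354928127)))))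 (T.h (T.h (T.h (P (nat_lit 0)) (T.h (M (nat_lit 18959063845215141887)) (T.h (P (nat_lit 0)) (P (nat_lit 4452436307520))))) (T.h (P (nat_lit 0)) (T.h (T.h (P (nat_lit 0)) (P (nat_lit 16464759474008))) (P (nat_lit 0))))) (T.h (T.h (P (nat_lit 0)) (M (nat_lit 10096859823996927))) (T.h (T.h (T.h (P (nat_lit 0)) (P (nat_lit 1709027307648))) (P (nat_lit 0))) (P (nat_lit 0)))))))), (T.h (T.h (P (nat_lit 0)) (T.h (T.h (P (nat_lit 0)) (T.h (P (nat_lit 11799924226416691745128448)) (T.h (P (nat_lit 0)) (T.h (P (nat_lit 24992502955122884608)) (T.h (P (nat_lit 0)) (P (nat_lit 3040955945440))))))) (T.h (P (nat_lit 0)) (T.h (T.h (P (nat_lit 0)) (T.h (M (nat_lit 13066312361172795391)) (T.h (P (nat_lit 0)) (P (nat_lit 4308734371088))))) (T.h (P (nat_lit 0)) (T.h (T.h (P (nat_lit 0)) (P (nat_lit 11861041236576))) (P (nat_lit 0)))))))) (T.h (T.h (T.h (M (nat_lit 832454746821739008015466495)) (T.h (P (nat_lit 0)) (T.h (M (nat_lit 4047631849667556278271)) (T.h (P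 (nat_lit 0)) (M (nat_lit 6980540568846335)))))) (T.h (P (nat_lit 0)) (T.h (T.h (M (nat_lit 32130929532941937672191)) (T.h (P (nat_lit 0)) (P (nat_lit 703405565444096)))) (T.h (P (nat_lit 0)) (P (nat_lit 5910113848442880)))))) (T.h (T.h (P (nat_lit 0)) (T.h (T.h (P (nat_lit 0)) (T.h (P (nat_lit 22920260165497257984)) (T.h (P (nat_lit 0)) (M (nat_lit 4081026789279))))) (T.h (P (nat_lit 0)) (T.h (T.h (P (nat_lit 0)) (P (nat_lit 19135086581520))) (P (nat_lit 0)))))) (T.h (T.h (T.h (P (nat_lit 2581207630647769694208)) (T.h (P (nat_lit 0)) (M (nat_lit 25091771215478783)))) (T.h (P (nat_lit 0)) (P (nat_lit 21537784946409472)))) (T.h (T.h (P (nat_lit 0)) (T.h (T.h (P (nat_lit 0)) (M (nat_lit 6622509720623))) (P (nat_lit 0)))) (P (nat_lit 3821690648035328)))))))]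
def lP22_18 : List (T ℤ) := [(T.h (T.h (P (nat_lit 0)) (T.h (T.h (P (nat_lit 10151457375120829801050406912)) (T.h (P (nat_lit 0)) (T.h (P (nat_lit 49880736148396504514560)) (T.h (P (nat_lit 0)) (P (nat_lit 13571617115504640)))))) (T.h (P (nat_lit 0)) (T.h (T.h (M (nat_lit 9951277444890112294911)) (T.h (P (nat_lit 0)) (M (nat_lit 39655675760672767)))) (T.h (P (nat_lit 0)) (P (nat_lit 31456766477205504))))))) (T.h (T.h (T.h (P (nat_lit 0)) (T.h (M (nat_lit 30377277963035151395979263)) (T.h (P (nat_lit 0)) (T.h (M (nat_lit 14901091413981659135)) (T.h (P (nat_lit 0)) (M (nat_lit 15480570450239))))))) (T.h (P (nat_lit 0)) (T.h (T.h (P (nat_lit 0)) (T.h (P (nat_lit 7931507969781399552)) (T.h (P (nat_lit 0)) (P (nat_lit 9810825649872))))) (T.h (P (nat_lit 0)) (T.h (T.h (P (nat_lit 0)) (M (nat_lit 6601572332735))) (P (nat_lit 0))))))) (T.h (T.h (P (nat_lit 0)) (T.h (T.h (P (nat_lit 49880736148396504514560)) (T.h (P (nat_lit 0)) (M (nat_lit 49824041615884287))))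 (T.h (P (nat_lit 0)) (M (nat_lit 39655675760672767))))) (T.h (T.h (T.h (P (nat_lit 0)) (T.h (M (nat_lit 14901091413981659135)) (T.h (P (nat_lit 0)) (P (nat_lit 29895976483296))))) (T.h (P (nat_lit 0)) (T.h (T.h (P (nat_lit 0)) (P (nat_lit 9810825649872))) (P (nat_lit 0))))) (T.h (T.h (P (nat_lit 0)) (P (nat_lit 13571617115504640))) (T.h (T.h (T.h (P (nat_lit 0)) (M (nat_lit 15480570450239))) (P (nat_lit 0))) (P (nat_lit 0)))))))), (T.h (T.h (P (nat_lit 0)) (T.h (T.h (P (nat_lit 0)) (T.h (M (nat_lit 16377306634978973055975423)) (T.h (P (nat_lit 0)) (M (nat_lit 94824523234900180991))))) (T.h (P (nat_lit 0)) (T.h (T.h (P (nat_lit 0)) (P (nat_lit 94872395999829032960))) (P (nat_lit 0)))))) (T.h (T.h (T.h (M (nat_lit 2966186908321285952851935231)) (T.h (P (nat_lit 0)) (T.h (P (nat_lit 9616740369625253937152)) (T.h (P (nat_lit 0)) (P (nat_lit 50821383761641472)))))) (T.h (P (nat_lit 0)) (T.h (T.h (P (nat_lit 35537384737640326103040)) (T.h (P (nat_lit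 0)) (M (nat_lit 55653943023239167)))) (T.h (P (nat_lit 0)) (M (nat_lit 71753149753163775)))))) (T.h (T.h (P (nat_lit 0)) (T.h (T.h (P (nat_lit 0)) (M (nat_lit 61976402703186657279))) (P (nat_lit 0)))) (T.h (T.h (T.h (M (nat_lit 11775693116598195847167)) (T.h (P (nat_lit 0)) (M (nat_lit 13771757658144767)))) (T.h (P (nat_lit 0)) (P (nat_lit 20023216806592512)))) (T.h (P (nat_lit 0)) (P (nat_lit 4586815369150464))))))), (T.h (T.h (T.h (P (nat_lit 7707325677427308464448959676416)) (T.h (P (nat_lit 0)) (T.h (P (nat_lit 2901120429012419390472192)) (T.h (P (nat_lit 0)) (T.h (P (nat_lit 5890513963451416576)) (T.h (P (nat_lit 0)) (M (nat_lit 1109493383599)))))))) (T.h (P (nat_lit 0)) (T.h (T.h (P (nat_lit 6115846739255371820433408)) (T.h (P (nat_lit 0)) (T.h (P (nat_lit 15647870045474783232)) (T.h (P (nat_lit 0)) (M (nat_lit 4692097755967)))))) (T.h (P (nat_lit 0)) (T.h (T.h (M (nat_lit 6761073294046134271)) (T.h (P (nat_lit 0)) (M (nat_lit 6986606627727))))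 (T.h (P (nat_lit 0)) (P (nat_lit 5745344476032)))))))) (T.h (T.h (P (nat_lit 0)) (T.h (T.h (P (nat_lit 0)) (T.h (P (nat_lit 9365546830999188406272)) (T.h (P (nat_lit 0)) (M (nat_lit 11019108930781183))))) (T.h (P (nat_lit 0)) (T.h (T.h (P (nat_lit 0)) (P (nat_lit 11959213971734528))) (P (nat_lit 0)))))) (T.h (T.h (T.h (P (nat_lit 2901120429012419390472192)) (T.h (P (nat_lit 0)) (T.h (P (nat_lit 12105851740364996608)) (T.h (P (nat_lit 0)) (M (nat_lit 1741740014223)))))) (T.h (P (nat_lit 0)) (T.h (T.h (P (nat_lit 15647870045474783232)) (T.h (P (nat_lit 0)) (M (nat_lit 10354312704511)))) (T.h (P (nat_lit 0)) (M (nat_lit 6986606627727)))))) (T.h (T.h (P (nat_lit 0)) (T.h (T.h (P (nat_lit 0)) (M (nat_lit 11019108930781183))) (P (nat_lit 0)))) (T.h (T.h (T.h (P (nat_lit 5890513963451416576)) (T.h (P (nat_lit 0)) (M (nat_lit 1741740014223)))) (T.h (P (nat_lit 0)) (M (nat_lit 4692097755967)))) (T.h (P (nat_lit 0)) (M (nat_lit 1109493383599)))))))),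 (T.h (T.h (T.h (P (nat_lit 0)) (T.h (P (nat_lit 5365436076063364494613544960)) (T.h (P (nat_lit 0)) (T.h (M (nat_lit 2829647422335983026175)) (T.h (P (nat_lit 0)) (P (nat_lit 8555427069952000))))))) (T.h (P (nat_lit 0)) (T.h (T.h (P (nat_lit 0)) (T.h (P (nat_lit 16692309233254172459008)) (T.h (P (nat_lit 0)) (P (nat_lit 17366088078819328))))) (T.h (P (nat_lit 0)) (T.h (T.h (P (nat_lit 0)) (M (nat_lit 24295617010860031))) (P (nat_lit 0))))))) (T.h (T.h (P (nat_lit 0)) (T.h (T.h (M (nat_lit 13089024482181258328145919)) (T.h (P (nat_lit 0)) (T.h (P (nat_lit 25093469970943180800)) (T.h (P (nat_lit 0)) (M (nat_lit 4085685683903)))))) (T.h (P (nat_lit 0)) (T.h (T.h (M (nat_lit 36766634793414688767)) (T.h (P (nat_lit 0)) (P (nat_lit 13661142254976)))) (T.h (P (nat_lit 0)) (M (nat_lit 1283713304399))))))) (T.h (T.h (T.h (P (nat_lit 0)) (T.h (M (nat_lit 23003241910279304380415)) (T.h (P (nat_lit 0)) (P (nat_lit 6090253865844736))))) (T.h (P (nat_lit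 0)) (T.h (T.h (P (nat_lit 0)) (P (nat_lit 26953724719824896))) (P (nat_lit 0))))) (T.h (T.h (P (nat_lit 0)) (T.h (T.h (M (nat_lit 32647441060556963839)) (T.h (P (nat_lit 0)) (P (nat_lit 3390121286400)))) (T.h (P (nat_lit 0)) (P (nat_lit 2377596206784))))) (T.h (T.h (T.h (P (nat_lit 0)) (M (nat_lit 4868192976011263))) (P (nat_lit 0))) (T.h (T.h (P (nat_lit 0)) (P (nat_lit 4237866999168))) (P (nat_lit 0)))))))), (T.h (T.h (T.h (M (nat_lit 1696039962384953678185650716671)) (T.h (P (nat_lit 0)) (T.h (P (nat_lit 4038589180326032906911744)) (T.h (P (nat_lit 0)) (M (nat_lit 19812913157190451199)))))) (T.h (P (nat_lit 0)) (T.h (T.h (P (nat_lit 6876082958716744975253504)) (T.h (P (nat_lit 0)) (M (nat_lit 23211147316412022783)))) (T.h (P (nat_lit 0)) (M (nat_lit 7025894866450120703)))))) (T.h (T.h (P (nat_lit 0)) (T.h (T.h (P (nat_lit 0)) (T.h (P (nat_lit 83458043820414651596800)) (T.h (P (nat_lit 0)) (M (nat_lit 3433523588071423))))) (T.h (P (nat_lit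 0)) (T.h (T.h (P (nat_lit 0)) (M (nat_lit 9638666133831679))) (P (nat_lit 0)))))) (T.h (T.h (T.h (P (nat_lit 4038589180326032906911744)) (T.h (P (nat_lit 0)) (P (nat_lit 7895580509026123776)))) (T.h (P (nat_lit 0)) (M (nat_lit 23211147316412022783)))) (T.h (T.h (P (nat_lit 0)) (T.h (T.h (P (nat_lit 0)) (M (nat_lit 3433523588071423))) (P (nat_lit 0)))) (M (nat_lit 19812913157190451199)))))), (T.h (T.h (P (nat_lit 0)) (T.h (T.h (P (nat_lit 6708703288543951383055826944)) (T.h (P (nat_lit 0)) (T.h (P (nat_lit 7081154464611636871168)) (T.h (P (nat_lit 0)) (P (nat_lit 11912089370230784)))))) (T.h (P (nat_lit 0)) (T.h (T.h (P (nat_lit 8639614918792361017344)) (T.h (P (nat_lit 0)) (P (nat_lit 19820659190398976)))) (T.h (P (nat_lit 0)) (M (nat_lit 12079869476732927))))))) (T.h (T.h (T.h (P (nat_lit 0)) (T.h (M (nat_lit 2367679197508544791314431)) (T.h (P (nat_lit 0)) (T.h (P (nat_lit 18224543686039961600)) (T.h (P (nat_lit 0)) (M (nat_lit 1410206002847)))))))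 (T.h (P (nat_lit 0)) (T.h (T.h (P (nat_lit 0)) (T.h (P (nat_lit 16662209236586987520)) (T.h (P (nat_lit 0)) (M (nat_lit 8843966445503))))) (T.h (P (nat_lit 0)) (T.h (T.h (P (nat_lit 0)) (P (nat_lit 14111840784000))) (P (nat_lit 0))))))) (T.h (T.h (P (nat_lit 0)) (T.h (T.h (P (nat_lit 7081154464611636871168)) (T.h (P (nat_lit 0)) (P (nat_lit 22001358117797888)))) (T.h (P (nat_lit 0)) (P (nat_lit 19820659190398976))))) (T.h (T.h (T.h (P (nat_lit 0)) (T.h (P (nat_lit 18224543686039961600)) (T.h (P (nat_lit 0)) (M (nat_lit 4452436307519))))) (T.h (P (nat_lit 0)) (T.h (T.h (P (nat_lit 0)) (M (nat_lit 8843966445503))) (P (nat_lit 0))))) (T.h (T.h (P (nat_lit 0)) (P (nat_lit 11912089370230784))) (T.h (T.h (T.h (P (nat_lit 0)) (M (nat_lit 1410206002847))) (P (nat_lit 0))) (P (nat_lit 0)))))))), (T.h (T.h (P (nat_lit 0)) (T.h (T.h (P (nat_lit 0)) (T.h (M (nat_lit 18381355421258832978903039)) (T.h (P (nat_lit 0)) (M (nat_lit 23203781688285986815)))))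 (T.h (P (nat_lit 0)) (T.h (T.h (P (nat_lit 0)) (P (nat_lit 7114211940729094144))) (P (nat_lit 0)))))) (T.h (T.h (T.h (P (nat_lit 2547540643335990035118817280)) (T.h (P (nat_lit 0)) (T.h (M (nat_lit 19946718446392155570175)) (T.h (P (nat_lit 0)) (P (nat_lit 3801332291633152)))))) (T.h (P (nat_lit 0)) (T.h (T.h (P (nat_lit 34455666698401404157952)) (T.h (P (nat_lit 0)) (M (nat_lit 4932788028899327)))) (T.h (P (nat_lit 0)) (M (nat_lit 2625970948095999)))))) (T.h (T.h (P (nat_lit 0)) (T.h (T.h (P (nat_lit 0)) (M (nat_lit 36613268445365010431))) (P (nat_lit 0)))) (T.h (T.h (T.h (P (nat_lit 392783585823669878784)) (T.h (P (nat_lit 0)) (P (nat_lit 3402133379809280)))) (T.h (P (nat_lit 0)) (P (nat_lit 584082030985216)))) (T.h (P (nat_lit 0)) (M (nat_lit 965174953410559))))))), (T.h (T.h (T.h (M (nat_lit 2172631954831739215942938263551)) (T.h (P (nat_lit 0)) (T.h (M (nat_lit 3113098526908072926904319)) (T.h (P (nat_lit 0)) (M (nat_lit 3128846296169840639))))))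 (T.h (P (nat_lit 0)) (T.h (T.h (M (nat_lit 7101092557652367280963583)) (T.h (P (nat_lit 0)) (M (nat_lit 11923797260938248191)))) (T.h (P (nat_lit 0)) (P (nat_lit 3403652489910681600)))))) (T.h (T.h (P (nat_lit 0)) (T.h (T.h (P (nat_lit 0)) (T.h (M (nat_lit 6096585033635921395711)) (T.h (P (nat_lit 0)) (P (nat_lit 6037481093464064))))) (T.h (P (nat_lit 0)) (T.h (T.h (P (nat_lit 0)) (M (nat_lit 19267366617087999))) (P (nat_lit 0)))))) (T.h (T.h (T.h (M (nat_lit 3113098526908072926904319)) (T.h (P (nat_lit 0)) (M (nat_lit 5441742847361417215)))) (T.h (P (nat_lit 0)) (M (nat_lit 11923797260938248191)))) (T.h (T.h (P (nat_lit 0)) (T.h (T.h (P (nat_lit 0)) (P (nat_lit 6037481093464064))) (P (nat_lit 0)))) (M (nat_lit 3128846296169840639))))))]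
def lP22_19 : List (T ℤ) := [(P (nat_lit 0)), (P (nat_lit 0)), (T.h (T.h (P (nat_lit 0)) (T.h (T.h (P (nat_lit 764556372451912493610041344)) (T.h (P (nat_lit 0)) (T.h (M (nat_lit 1476002153045151449087)) (T.h (P (nat_lit 0)) (P (nat_lit 10749711120465920)))))) (T.h (P (nat_lit 0)) (T.h (T.h (M (nat_lit 4629978903440976248831)) (T.h (P (nat_lit 0)) (M (nat_lit 7382202009583615)))) (T.h (P (nat_lit 0)) (M (nat_lit 3881788525772799))))))) (T.h (T.h (T.h (P (nat_lit 0)) (T.h (P (nat_lit 17935703456270041898549248)) (T.h (P (nat_lit 0)) (T.h (P (nat_lit 4176420383513116672)) (T.h (P (nat_lit 0)) (M (nat_lit 7560985720175))))))) (T.h (P (nat_lit 0)) (T.h (T.h (P (nat_lit 0)) (T.h (P (nat_lit 42874667746012954624)) (T.h (P (nat_lit 0)) (M (nat_lit 6840500237391))))) (T.h (P (nat_lit 0)) (T.h (T.h (P (nat_lit 0)) (P (nat_lit 18779929926400))) (P (nat_lit 0))))))) (T.h (T.h (P (nat_lit 0)) (T.h (T.h (M (nat_lit 1476002153045151449087)) (T.h (P (nat_lit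 0)) (P (nat_lit 35409636581310464)))) (T.h (P (nat_lit 0)) (M (nat_lit 7382202009583615))))) (T.h (T.h (T.h (P (nat_lit 0)) (T.h (P (nat_lit 4176420383513116672)) (T.h (P (nat_lit 0)) (M (nat_lit 3908915568191))))) (T.h (P (nat_lit 0)) (T.h (T.h (P (nat_lit 0)) (M (nat_lit 6840500237391))) (P (nat_lit 0))))) (T.h (T.h (P (nat_lit 0)) (P (nat_lit 10749711120465920))) (T.h (T.h (T.h (P (nat_lit 0)) (M (nat_lit 7560985720175))) (P (nat_lit 0))) (P (nat_lit 0)))))))), (T.h (T.h (P (nat_lit 0)) (T.h (T.h (P (nat_lit 0)) (T.h (P (nat_lit 3642758162366038185869312)) (T.h (P (nat_lit 0)) (T.h (M (nat_lit 92204131045926240255)) (T.h (P (nat_lit 0)) (P (nat_lit 26818855177008))))))) (T.h (P (nat_lit 0)) (T.h (T.h (P (nat_lit 0)) (T.h (M (nat_lit 55815510666470490111)) (T.h (P (nat_lit 0)) (M (nat_lit 10572253411111))))) (T.h (P (nat_lit 0)) (T.h (T.h (P (nat_lit 0)) (M (nat_lit 23162146526199))) (P (nat_lit 0)))))))) (T.h (T.h (T.h (M (nat_lit 6575954522997713494022815743))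 (T.h (P (nat_lit 0)) (T.h (P (nat_lit 67271243517672959246336)) (T.h (P (nat_lit 0)) (P (nat_lit 6397804160745472)))))) (T.h (P (nat_lit 0)) (T.h (T.h (M (nat_lit 27633644161980858105855)) (T.h (P (nat_lit 0)) (P (nat_lit 40463675361591296)))) (T.h (P (nat_lit 0)) (M (nat_lit 924049805148159)))))) (T.h (T.h (P (nat_lit 0)) (T.h (T.h (P (nat_lit 0)) (T.h (M (nat_lit 207307129298180112383)) (T.h (P (nat_lit 0)) (P (nat_lit 17193851118640))))) (T.h (P (nat_lit 0)) (T.h (T.h (P (nat_lit 0)) (M (nat_lit 3887843184823))) (P (nat_lit 0)))))) (T.h (T.h (T.h (M (nat_lit 30127997819102433378303)) (T.h (P (nat_lit 0)) (P (nat_lit 70704301938114560)))) (T.h (P (nat_lit 0)) (P (nat_lit 101045535267389440)))) (T.h (T.h (P (nat_lit 0)) (T.h (T.h (P (nat_lit 0)) (P (nat_lit 81339482813120))) (P (nat_lit 0)))) (P (nat_lit 3577843045728256))))))), (T.h (T.h (P (nat_lit 0)) (T.h (T.h (P (nat_lit 17732048480337310963034226688)) (T.h (P (nat_lit 0)) (T.h (M (nat_lit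 56951589904568897503231)) (T.h (P (nat_lit 0)) (M (nat_lit 49142619981643775)))))) (T.h (P (nat_lit 0)) (T.h (T.h (P (nat_lit 68690807335618479128576)) (T.h (P (nat_lit 0)) (P (nat_lit 26626813672521728)))) (T.h (P (nat_lit 0)) (P (nat_lit 18295635521830912))))))) (T.h (T.h (T.h (P (nat_lit 0)) (T.h (M (nat_lit 29702241433547724283707391)) (T.h (P (nat_lit 0)) (T.h (M (nat_lit 48523615630004322303)) (T.h (P (nat_lit 0)) (P (nat_lit 26198108211744))))))) (T.h (P (nat_lit 0)) (T.h (T.h (P (nat_lit 0)) (T.h (P (nat_lit 30108199896007835648)) (T.h (P (nat_lit 0)) (P (nat_lit 3518744938464))))) (T.h (P (nat_lit 0)) (T.h (T.h (P (nat_lit 0)) (M (nat_lit 34828772718095))) (P (nat_lit 0))))))) (T.h (T.h (P (nat_lit 0)) (T.h (T.h (M (nat_lit 28868292221294516109311)) (T.h (P (nat_lit 0)) (M (nat_lit 112301889646100479)))) (T.h (P (nat_lit 0)) (M (nat_lit 20002742489366527))))) (T.h (T.h (T.h (P (nat_lit 0)) (T.h (M (nat_lit 10464800313708642303)) (T.h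 (P (nat_lit 0)) (P (nat_lit 48075729287152))))) (T.h (P (nat_lit 0)) (T.h (T.h (P (nat_lit 0)) (M (nat_lit 19697368432335))) (P (nat_lit 0))))) (T.h (T.h (P (nat_lit 0)) (M (nat_lit 62033274398932991))) (T.h (T.h (T.h (P (nat_lit 0)) (P (nat_lit 17378022920608))) (P (nat_lit 0))) (P (nat_lit 0)))))))), (T.h (T.h (P (nat_lit 0)) (T.h (T.h (P (nat_lit 0)) (T.h (M (nat_lit 24685156938852956708536319)) (T.h (P (nat_lit 0)) (T.h (M (nat_lit 14943524989175857151)) (T.h (P (nat_lit 0)) (M (nat_lit 21449622771023))))))) (T.h (P (nat_lit 0)) (T.h (T.h (P (nat_lit 0)) (T.h (M (nat_lit 35097218249134178303)) (T.h (P (nat_lit 0)) (P (nat_lit 3812593611312))))) (T.h (P (nat_lit 0)) (T.h (T.h (P (nat_lit 0)) (P (nat_lit 12420987943536))) (P (nat_lit 0)))))))) (T.h (T.h (T.h (P (nat_lit 9181707860978385977383845888)) (T.h (P (nat_lit 0)) (T.h (P (nat_lit 5062566552641189445632)) (T.h (P (nat_lit 0)) (M (nat_lit 42830481488740351)))))) (T.h (P (nat_lit 0))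 (T.h (T.h (M (nat_lit 6319837551329745567743)) (T.h (P (nat_lit 0)) (P (nat_lit 48316474667630592)))) (T.h (P (nat_lit 0)) (P (nat_lit 930457470205952)))))) (T.h (T.h (P (nat_lit 0)) (T.h (T.h (P (nat_lit 0)) (T.h (P (nat_lit 115968685479053754368)) (T.h (P (nat_lit 0)) (P (nat_lit 20634963543984))))) (T.h (P (nat_lit 0)) (T.h (T.h (P (nat_lit 0)) (M (nat_lit 11482374518735))) (P (nat_lit 0)))))) (T.h (T.h (T.h (P (nat_lit 18602088333796593106944)) (T.h (P (nat_lit 0)) (M (nat_lit 50478875293548543)))) (T.h (P (nat_lit 0)) (M (nat_lit 33548629675507711)))) (T.h (T.h (P (nat_lit 0)) (T.h (T.h (P (nat_lit 0)) (M (nat_lit 54383364855791))) (P (nat_lit 0)))) (P (nat_lit 16976460900204544))))))), (T.h (T.h (P (nat_lit 0)) (T.h (T.h (M (nat_lit 3552167905337314461328867327)) (T.h (P (nat_lit 0)) (T.h (P (nat_lit 73841325025681435787264)) (T.h (P (nat_lit 0)) (P (nat_lit 32917182886395904)))))) (T.h (P (nat_lit 0)) (T.h (T.h (M (nat_lit 17514454350803945652223))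 (T.h (P (nat_lit 0)) (M (nat_lit 4147707045363711)))) (T.h (P (nat_lit 0)) (M (nat_lit 125001479028735))))))) (T.h (T.h (T.h (P (nat_lit 0)) (T.h (P (nat_lit 190497846206537530343424)) (T.h (P (nat_lit 0)) (M (nat_lit 28821610291506708479))))) (T.h (P (nat_lit 0)) (T.h (T.h (P (nat_lit 0)) (M (nat_lit 33794473039585345535))) (P (nat_lit 0))))) (T.h (T.h (P (nat_lit 0)) (T.h (T.h (M (nat_lit 20860751503021825851391)) (T.h (P (nat_lit 0)) (M (nat_lit 12333211291975679)))) (T.h (P (nat_lit 0)) (M (nat_lit 6828128011485183))))) (T.h (T.h (T.h (P (nat_lit 0)) (M (nat_lit 99359662876024373247))) (P (nat_lit 0))) (T.h (T.h (P (nat_lit 0)) (P (nat_lit 29223053233750016))) (P (nat_lit 0))))))), (P (nat_lit 0))]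
def lP22_20 : List (T ℤ) := [(P (nat_lit 0)), (T.h (T.h (T.h (P (nat_lit 0)) (T.h (P (nat_lit 675022628226457307761868800)) (T.h (P (nat_lit 0)) (T.h (M (nat_lit 1736314362163560972287)) (T.h (P (nat_lit 0)) (M (nat_lit 3289390770683903))))))) (T.h (P (nat_lit 0)) (T.h (T.h (P (nat_lit 0)) (T.h (P (nat_lit 4845535910664693874688)) (T.h (P (nat_lit 0)) (P (nat_lit 13327066108461056))))) (T.h (P (nat_lit 0)) (T.h (T.h (P (nat_lit 0)) (M (nat_lit 6998572935544831))) (P (nat_lit 0))))))) (T.h (T.h (P (nat_lit 0)) (T.h (T.h (P (nat_lit 7184268505594158490058752)) (T.h (P (nat_lit 0)) (T.h (P (nat_lit 11749434630120407040)) (T.h (P (nat_lit 0)) (P (nat_lit 27667501415936)))))) (T.h (P (nat_lit 0)) (T.h (T.h (M (nat_lit 2601156957620404223)) (T.h (P (nat_lit 0)) (P (nat_lit 13941406177392)))) (T.h (P (nat_lit 0)) (M (nat_lit 1986251696879))))))) (T.h (T.h (T.h (P (nat_lit 0)) (T.h (M (nat_lit 6464518146767510831103)) (T.h (P (nat_lit 0)) (M (nat_lit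 21126193907367935))))) (T.h (P (nat_lit 0)) (T.h (T.h (P (nat_lit 0)) (P (nat_lit 10386649831112704))) (P (nat_lit 0))))) (T.h (T.h (P (nat_lit 0)) (T.h (T.h (P (nat_lit 4839853690716160000)) (T.h (P (nat_lit 0)) (M (nat_lit 8516383229631)))) (T.h (P (nat_lit 0)) (M (nat_lit 848450859647))))) (T.h (T.h (T.h (P (nat_lit 0)) (P (nat_lit 2617465088376832))) (P (nat_lit 0))) (T.h (T.h (P (nat_lit 0)) (M (nat_lit 7021934510687))) (P (nat_lit 0)))))))), (T.h (T.h (T.h (M (nat_lit 3006344336728008781710277738495)) (T.h (P (nat_lit 0)) (T.h (P (nat_lit 14864583539935043158802432)) (T.h (P (nat_lit 0)) (T.h (P (nat_lit 4525554985596878848)) (T.h (P (nat_lit 0)) (M (nat_lit 8467143931935)))))))) (T.h (P (nat_lit 0)) (T.h (T.h (M (nat_lit 15164404603015937166147583)) (T.h (P (nat_lit 0)) (T.h (M (nat_lit 23762840419456516095)) (T.h (P (nat_lit 0)) (M (nat_lit 30315597187951)))))) (T.h (P (nat_lit 0)) (T.h (T.h (M (nat_lit 29186897946420969471)) (T.h (P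 (nat_lit 0)) (M (nat_lit 44544879363135)))) (T.h (P (nat_lit 0)) (M (nat_lit 21538230432479)))))))) (T.h (T.h (P (nat_lit 0)) (T.h (T.h (P (nat_lit 0)) (T.h (P (nat_lit 548614460292452426186752)) (T.h (P (nat_lit 0)) (M (nat_lit 239657266701926399))))) (T.h (P (nat_lit 0)) (T.h (T.h (P (nat_lit 0)) (M (nat_lit 24776055778181119))) (P (nat_lit 0)))))) (T.h (T.h (T.h (P (nat_lit 14864583539935043158802432)) (T.h (P (nat_lit 0)) (T.h (M (nat_lit 15014186648512495615)) (T.h (P (nat_lit 0)) (M (nat_lit 67635942744431)))))) (T.h (P (nat_lit 0)) (T.h (T.h (M (nat_lit 23762840419456516095)) (T.h (P (nat_lit 0)) (M (nat_lit 62959272967647)))) (T.h (P (nat_lit 0)) (M (nat_lit 44544879363135)))))) (T.h (T.h (P (nat_lit 0)) (T.h (T.h (P (nat_lit 0)) (M (nat_lit 239657266701926399))) (P (nat_lit 0)))) (T.h (T.h (T.h (P (nat_lit 4525554985596878848)) (T.h (P (nat_lit 0)) (M (nat_lit 67635942744431)))) (T.h (P (nat_lit 0)) (M (nat_lit 30315597187951)))) (T.h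 (P (nat_lit 0)) (M (nat_lit 8467143931935)))))))), (T.h (T.h (T.h (P (nat_lit 0)) (T.h (M (nat_lit 7828493730594769166535753727)) (T.h (P (nat_lit 0)) (T.h (M (nat_lit 53837020979397488803839)) (T.h (P (nat_lit 0)) (P (nat_lit 2214687480594432))))))) (T.h (P (nat_lit 0)) (T.h (T.h (P (nat_lit 0)) (T.h (M (nat_lit 86396255065120928956415)) (T.h (P (nat_lit 0)) (M (nat_lit 12512659497795583))))) (T.h (P (nat_lit 0)) (T.h (T.h (P (nat_lit 0)) (P (nat_lit 41801517790085120))) (P (nat_lit 0))))))) (T.h (T.h (P (nat_lit 0)) (T.h (T.h (P (nat_lit 46086304177284694394535936)) (T.h (P (nat_lit 0)) (T.h (P (nat_lit 32969033259893653504)) (T.h (P (nat_lit 0)) (M (nat_lit 106196366572463)))))) (T.h (P (nat_lit 0)) (T.h (T.h (P (nat_lit 30801212723777503232)) (T.h (P (nat_lit 0)) (M (nat_lit 35234724419327)))) (T.h (P (nat_lit 0)) (M (nat_lit 6838306003199))))))) (T.h (T.h (T.h (P (nat_lit 0)) (T.h (M (nat_lit 58790689262420470267903)) (T.h (P (nat_lit 0))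 (P (nat_lit 26954648264163328))))) (T.h (P (nat_lit 0)) (T.h (T.h (P (nat_lit 0)) (P (nat_lit 71146723141287936))) (P (nat_lit 0))))) (T.h (T.h (P (nat_lit 0)) (T.h (T.h (P (nat_lit 66463044662110191616)) (T.h (P (nat_lit 0)) (M (nat_lit 26187724296383)))) (T.h (P (nat_lit 0)) (M (nat_lit 12935944374639))))) (T.h (T.h (T.h (P (nat_lit 0)) (P (nat_lit 72563184030810112))) (P (nat_lit 0))) (T.h (T.h (P (nat_lit 0)) (P (nat_lit 2973639012512))) (P (nat_lit 0)))))))), (T.h (T.h (T.h (P (nat_lit 1846993693776953964714512089088)) (T.h (P (nat_lit 0)) (T.h (P (nat_lit 39194054953230352210984960)) (T.h (P (nat_lit 0)) (T.h (P (nat_lit 3656082647739793408)) (T.h (P (nat_lit 0)) (P (nat_lit 9063088586880)))))))) (T.h (P (nat_lit 0)) (T.h (T.h (P (nat_lit 9267779979138846188109824)) (T.h (P (nat_lit 0)) (T.h (M (nat_lit 178655111953365598207)) (T.h (P (nat_lit 0)) (P (nat_lit 11499073325808)))))) (T.h (P (nat_lit 0)) (T.h (T.h (P (nat_lit 21361495557233704960))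 (T.h (P (nat_lit 0)) (P (nat_lit 6212043629760)))) (T.h (P (nat_lit 0)) (P (nat_lit 9036297227760)))))))) (T.h (T.h (P (nat_lit 0)) (T.h (T.h (P (nat_lit 0)) (T.h (M (nat_lit 44631435757538408136703)) (T.h (P (nat_lit 0)) (M (nat_lit 1096605955063807))))) (T.h (P (nat_lit 0)) (T.h (T.h (P (nat_lit 0)) (P (nat_lit 255711544494522368))) (P (nat_lit 0)))))) (T.h (T.h (T.h (M (nat_lit 1853130850168265947217919)) (T.h (P (nat_lit 0)) (T.h (M (nat_lit 59348227073949827071)) (T.h (P (nat_lit 0)) (P (nat_lit 32035500908496)))))) (T.h (P (nat_lit 0)) (T.h (T.h (P (nat_lit 44051830469361139712)) (T.h (P (nat_lit 0)) (P (nat_lit 103953532457952)))) (T.h (P (nat_lit 0)) (M (nat_lit 9666919590191)))))) (T.h (T.h (P (nat_lit 0)) (T.h (T.h (P (nat_lit 0)) (P (nat_lit 198213351397588992))) (P (nat_lit 0)))) (T.h (T.h (T.h (P (nat_lit 18308500933782274048)) (T.h (P (nat_lit 0)) (P (nat_lit 16715075086896)))) (T.h (P (nat_lit 0)) (M (nat_lit 19700315715743))))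 (T.h (P (nat_lit 0)) (M (nat_lit 10011972156527)))))))), (T.h (T.h (T.h (P (nat_lit 0)) (T.h (P (nat_lit 7238378753668218089558245376)) (T.h (P (nat_lit 0)) (T.h (M (nat_lit 13983143431136971063295)) (T.h (P (nat_lit 0)) (M (nat_lit 29920305752571903))))))) (T.h (P (nat_lit 0)) (T.h (T.h (P (nat_lit 0)) (T.h (P (nat_lit 126624066426670344568832)) (T.h (P (nat_lit 0)) (M (nat_lit 22406557314826239))))) (T.h (P (nat_lit 0)) (T.h (T.h (P (nat_lit 0)) (M (nat_lit 25281264314073087))) (P (nat_lit 0))))))) (T.h (T.h (P (nat_lit 0)) (T.h (T.h (P (nat_lit 13151526703321401362743296)) (T.h (P (nat_lit 0)) (P (nat_lit 93469117835464671232)))) (T.h (P (nat_lit 0)) (M (nat_lit 70207128503712743423))))) (T.h (T.h (T.h (P (nat_lit 0)) (T.h (P (nat_lit 66195724270729374466048)) (T.h (P (nat_lit 0)) (M (nat_lit 23634781935910911))))) (T.h (P (nat_lit 0)) (T.h (T.h (P (nat_lit 0)) (M (nat_lit 78200650234724351))) (P (nat_lit 0))))) (T.h (T.h (P (nat_lit 0))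 (M (nat_lit 67063165077403205631))) (T.h (T.h (T.h (P (nat_lit 0)) (M (nat_lit 46440312107827199))) (P (nat_lit 0))) (P (nat_lit 0))))))), (P (nat_lit 0)), (T.h (T.h (P (nat_lit 0)) (T.h (T.h (P (nat_lit 292744442000501060956848128)) (T.h (P (nat_lit 0)) (T.h (M (nat_lit 71490041528832753663)) (T.h (P (nat_lit 0)) (M (nat_lit 7565409483816959)))))) (T.h (P (nat_lit 0)) (T.h (T.h (P (nat_lit 578675089556927152128)) (T.h (P (nat_lit 0)) (M (nat_lit 208462894661631)))) (T.h (P (nat_lit 0)) (M (nat_lit 1348496507797503))))))) (T.h (T.h (T.h (P (nat_lit 0)) (T.h (M (nat_lit 1783583222540862459215871)) (T.h (P (nat_lit 0)) (T.h (M (nat_lit 968861825208680447)) (T.h (P (nat_lit 0)) (M (nat_lit 723600243695))))))) (T.h (P (nat_lit 0)) (T.h (T.h (P (nat_lit 0)) (T.h (M (nat_lit 9687899242886070271)) (T.h (P (nat_lit 0)) (P (nat_lit 6132761592576))))) (T.h (P (nat_lit 0)) (T.h (T.h (P (nat_lit 0)) (P (nat_lit 18277536452736))) (P (nat_lit 0))))))) (T.h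 (T.h (P (nat_lit 0)) (T.h (T.h (M (nat_lit 71490041528832753663)) (T.h (P (nat_lit 0)) (M (nat_lit 7318168459542527)))) (T.h (P (nat_lit 0)) (M (nat_lit 208462894661631))))) (T.h (T.h (T.h (P (nat_lit 0)) (T.h (M (nat_lit 968861825208680447)) (T.h (P (nat_lit 0)) (P (nat_lit 1106006924448))))) (T.h (P (nat_lit 0)) (T.h (T.h (P (nat_lit 0)) (P (nat_lit 6132761592576))) (P (nat_lit 0))))) (T.h (T.h (P (nat_lit 0)) (M (nat_lit 7565409483816959))) (T.h (T.h (T.h (P (nat_lit 0)) (M (nat_lit 723600243695))) (P (nat_lit 0))) (P (nat_lit 0))))))))]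
def lP22_21 : List (T ℤ) := [(T.h (T.h (P (nat_lit 0)) (T.h (T.h (P (nat_lit 0)) (T.h (M (nat_lit 84066929688755048797962239)) (T.h (P (nat_lit 0)) (T.h (P (nat_lit 156187702513071292416)) (T.h (P (nat_lit 0)) (P (nat_lit 8863310328040))))))) (T.h (P (nat_lit 0)) (T.h (T.h (P (nat_lit 0)) (T.h (M (nat_lit 94871250259186548735)) (T.h (P (nat_lit 0)) (P (nat_lit 4688126309776))))) (T.h (P (nat_lit 0)) (T.h (T.h (P (nat_lit 0)) (M (nat_lit 807026724663))) (P (nat_lit 0)))))))) (T.h (T.h (T.h (M (nat_lit 5740505652863568559692840959)) (T.h (P (nat_lit 0)) (T.h (M (nat_lit 70443364357273297092607)) (T.h (P (nat_lit 0)) (M (nat_lit 45857594310426623)))))) (T.h (P (nat_lit 0)) (T.h (T.h (P (nat_lit 135088971692739877928960)) (T.h (P (nat_lit 0)) (M (nat_lit 191526525544267775)))) (T.h (P (nat_lit 0)) (P (nat_lit 42855415369302016)))))) (T.h (T.h (P (nat_lit 0)) (T.h (T.h (P (nat_lit 0)) (T.h (M (nat_lit 74571478095464759295)) (T.h (P (nat_lit 0)) (M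 (nat_lit 34727966347239))))) (T.h (P (nat_lit 0)) (T.h (T.h (P (nat_lit 0)) (M (nat_lit 34423184521223))) (P (nat_lit 0)))))) (T.h (T.h (T.h (P (nat_lit 13722124758584802672640)) (T.h (P (nat_lit 0)) (P (nat_lit 70262232530386944)))) (T.h (P (nat_lit 0)) (M (nat_lit 61048963772252159)))) (T.h (T.h (P (nat_lit 0)) (T.h (T.h (P (nat_lit 0)) (M (nat_lit 8234108884807))) (P (nat_lit 0)))) (P (nat_lit 35026072501878784))))))), (T.h (T.h (P (nat_lit 0)) (T.h (T.h (M (nat_lit 33039799577120779653437456383)) (T.h (P (nat_lit 0)) (T.h (M (nat_lit 69057996839415476912127)) (T.h (P (nat_lit 0)) (P (nat_lit 75991658234822656)))))) (T.h (P (nat_lit 0)) (T.h (T.h (M (nat_lit 77631362816479485493247)) (T.h (P (nat_lit 0)) (P (nat_lit 10277164654952448)))) (T.h (P (nat_lit 0)) (M (nat_lit 29844490118266879))))))) (T.h (T.h (T.h (P (nat_lit 0)) (T.h (P (nat_lit 12722127146272080019849216)) (T.h (P (nat_lit 0)) (T.h (P (nat_lit 29433117712469458944)) (T.h (P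 (nat_lit 0)) (M (nat_lit 12017445760319))))))) (T.h (P (nat_lit 0)) (T.h (T.h (P (nat_lit 0)) (T.h (P (nat_lit 73825563010498822144)) (T.h (P (nat_lit 0)) (M (nat_lit 46197591123487))))) (T.h (P (nat_lit 0)) (T.h (T.h (P (nat_lit 0)) (M (nat_lit 188128462544287))) (P (nat_lit 0))))))) (T.h (T.h (P (nat_lit 0)) (T.h (T.h (M (nat_lit 69057996839415476912127)) (T.h (P (nat_lit 0)) (P (nat_lit 134422558893277184)))) (T.h (P (nat_lit 0)) (P (nat_lit 10277164654952448))))) (T.h (T.h (T.h (P (nat_lit 0)) (T.h (P (nat_lit 29433117712469458944)) (T.h (P (nat_lit 0)) (M (nat_lit 24520800321247))))) (T.h (P (nat_lit 0)) (T.h (T.h (P (nat_lit 0)) (M (nat_lit 46197591123487))) (P (nat_lit 0))))) (T.h (T.h (P (nat_lit 0)) (P (nat_lit 75991658234822656))) (T.h (T.h (T.h (P (nat_lit 0)) (M (nat_lit 12017445760319))) (P (nat_lit 0))) (P (nat_lit 0)))))))), (T.h (T.h (P (nat_lit 0)) (T.h (T.h (P (nat_lit 0)) (T.h (P (nat_lit 65327691014593808938565632)) (T.h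 (P (nat_lit 0)) (T.h (P (nat_lit 44316201049126862848)) (T.h (P (nat_lit 0)) (P (nat_lit 58490233436160))))))) (T.h (P (nat_lit 0)) (T.h (T.h (P (nat_lit 0)) (T.h (M (nat_lit 170459976830579376127)) (T.h (P (nat_lit 0)) (M (nat_lit 28011356159807))))) (T.h (P (nat_lit 0)) (T.h (T.h (P (nat_lit 0)) (P (nat_lit 29642179435440))) (P (nat_lit 0)))))))) (T.h (T.h (T.h (M (nat_lit 11206858331730975898332037119)) (T.h (P (nat_lit 0)) (T.h (M (nat_lit 43623809268111311372287)) (T.h (P (nat_lit 0)) (M (nat_lit 56962648596381695)))))) (T.h (P (nat_lit 0)) (T.h (T.h (M (nat_lit 60140621660989331341311)) (T.h (P (nat_lit 0)) (M (nat_lit 7091974289948671)))) (T.h (P (nat_lit 0)) (P (nat_lit 69542991381856256)))))) (T.h (T.h (P (nat_lit 0)) (T.h (T.h (P (nat_lit 0)) (T.h (M (nat_lit 171825225033142239231)) (T.h (P (nat_lit 0)) (P (nat_lit 29858777633616))))) (T.h (P (nat_lit 0)) (T.h (T.h (P (nat_lit 0)) (P (nat_lit 50467503897696))) (P (nat_lit 0)))))) (T.h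 (T.h (T.h (M (nat_lit 77098816337587598262271)) (T.h (P (nat_lit 0)) (P (nat_lit 93063017328082944)))) (T.h (P (nat_lit 0)) (P (nat_lit 103149845031059456)))) (T.h (T.h (P (nat_lit 0)) (T.h (T.h (P (nat_lit 0)) (P (nat_lit 57089020173120))) (P (nat_lit 0)))) (M (nat_lit 42396323796090879))))))), (T.h (T.h (P (nat_lit 0)) (T.h (T.h (M (nat_lit 7009792124449566996540948479)) (T.h (P (nat_lit 0)) (T.h (M (nat_lit 15565283519963194195967)) (T.h (P (nat_lit 0)) (M (nat_lit 124796479176474623)))))) (T.h (P (nat_lit 0)) (T.h (T.h (M (nat_lit 39227712750225020944383)) (T.h (P (nat_lit 0)) (P (nat_lit 8063302404800512)))) (T.h (P (nat_lit 0)) (M (nat_lit 27819431985283071))))))) (T.h (T.h (T.h (P (nat_lit 0)) (T.h (M (nat_lit 26946122561816422248349695)) (T.h (P (nat_lit 0)) (P (nat_lit 242514190933726068736))))) (T.h (P (nat_lit 0)) (T.h (T.h (P (nat_lit 0)) (M (nat_lit 90805660409449676799))) (P (nat_lit 0))))) (T.h (T.h (P (nat_lit 0)) (T.h (T.h (M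 (nat_lit 1186236504068564451327)) (T.h (P (nat_lit 0)) (M (nat_lit 147485272928354303)))) (T.h (P (nat_lit 0)) (M (nat_lit 20233199744991231))))) (T.h (T.h (T.h (P (nat_lit 0)) (P (nat_lit 93037330654499438592))) (P (nat_lit 0))) (T.h (T.h (P (nat_lit 0)) (P (nat_lit 7899487230705664))) (P (nat_lit 0))))))), (T.h (T.h (T.h (P (nat_lit 0)) (T.h (P (nat_lit 382278186225956246805020672)) (T.h (P (nat_lit 0)) (T.h (M (nat_lit 2314989451720488124415)) (T.h (P (nat_lit 0)) (M (nat_lit 1940894262886399))))))) (T.h (P (nat_lit 0)) (T.h (T.h (P (nat_lit 0)) (T.h (M (nat_lit 6393028105238678077439)) (T.h (P (nat_lit 0)) (M (nat_lit 20917731012706303))))) (T.h (P (nat_lit 0)) (T.h (T.h (P (nat_lit 0)) (P (nat_lit 10182874572193792))) (P (nat_lit 0))))))) (T.h (T.h (P (nat_lit 0)) (T.h (T.h (P (nat_lit 8967851728135020949274624)) (T.h (P (nat_lit 0)) (T.h (P (nat_lit 21437333873006477312)) (T.h (P (nat_lit 0)) (P (nat_lit 9389964963200)))))) (T.h (P (nat_lit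 0)) (T.h (T.h (P (nat_lit 5808715515924840448)) (T.h (P (nat_lit 0)) (M (nat_lit 14649144822207)))) (T.h (P (nat_lit 0)) (M (nat_lit 6298334266991))))))) (T.h (T.h (T.h (P (nat_lit 0)) (T.h (P (nat_lit 4917025952193526628352)) (T.h (P (nat_lit 0)) (P (nat_lit 13535529003122688))))) (T.h (P (nat_lit 0)) (T.h (T.h (P (nat_lit 0)) (P (nat_lit 17704818290655232))) (P (nat_lit 0))))) (T.h (T.h (P (nat_lit 0)) (T.h (T.h (M (nat_lit 1632295132411723775)) (T.h (P (nat_lit 0)) (P (nat_lit 7808644584816)))) (T.h (P (nat_lit 0)) (M (nat_lit 1954457784095))))) (T.h (T.h (T.h (P (nat_lit 0)) (P (nat_lit 566836548272128))) (P (nat_lit 0))) (T.h (T.h (P (nat_lit 0)) (M (nat_lit 1262651453183))) (P (nat_lit 0)))))))), (T.h (T.h (T.h (M (nat_lit 1833686140586091030416640180223)) (T.h (P (nat_lit 0)) (T.h (P (nat_lit 1504758702031106729836544)) (T.h (P (nat_lit 0)) (T.h (M (nat_lit 313508080828547071)) (T.h (P (nat_lit 0)) (M (nat_lit 3817912421327)))))))) (T.h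 (P (nat_lit 0)) (T.h (T.h (M (nat_lit 24929743016584213895839743)) (T.h (P (nat_lit 0)) (T.h (P (nat_lit 193567321257144221696)) (T.h (P (nat_lit 0)) (P (nat_lit 787165522384)))))) (T.h (P (nat_lit 0)) (T.h (T.h (M (nat_lit 18997162503609253887)) (T.h (P (nat_lit 0)) (P (nat_lit 50812174146176)))) (T.h (P (nat_lit 0)) (P (nat_lit 5640899468176)))))))) (T.h (T.h (P (nat_lit 0)) (T.h (T.h (P (nat_lit 0)) (T.h (M (nat_lit 112471898535082606985215)) (T.h (P (nat_lit 0)) (M (nat_lit 122812598466641919))))) (T.h (P (nat_lit 0)) (T.h (T.h (P (nat_lit 0)) (P (nat_lit 93855003958312960))) (P (nat_lit 0)))))) (T.h (T.h (T.h (P (nat_lit 20152093936309671301218304)) (T.h (P (nat_lit 0)) (T.h (M (nat_lit 42881065747803537407)) (T.h (P (nat_lit 0)) (P (nat_lit 38278448953200)))))) (T.h (P (nat_lit 0)) (T.h (T.h (M (nat_lit 48338084010217439231)) (T.h (P (nat_lit 0)) (M (nat_lit 7950027518703)))) (T.h (P (nat_lit 0)) (M (nat_lit 6529346305695)))))) (T.h (T.h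 (P (nat_lit 0)) (T.h (T.h (P (nat_lit 0)) (M (nat_lit 9602603773984767))) (P (nat_lit 0)))) (T.h (T.h (T.h (M (nat_lit 9236317343162826751)) (T.h (P (nat_lit 0)) (M (nat_lit 5909049594671)))) (T.h (P (nat_lit 0)) (P (nat_lit 47679961248304)))) (T.h (P (nat_lit 0)) (P (nat_lit 11748727957200)))))))), (T.h (T.h (T.h (P (nat_lit 0)) (T.h (P (nat_lit 2044603438598660144330964992)) (T.h (P (nat_lit 0)) (T.h (P (nat_lit 27293918296730966687744)) (T.h (P (nat_lit 0)) (M (nat_lit 448300185337855))))))) (T.h (P (nat_lit 0)) (T.h (T.h (P (nat_lit 0)) (T.h (M (nat_lit 45546875889984468942847)) (T.h (P (nat_lit 0)) (P (nat_lit 29961264934567936))))) (T.h (P (nat_lit 0)) (T.h (T.h (P (nat_lit 0)) (M (nat_lit 1676071592312831))) (P (nat_lit 0))))))) (T.h (T.h (P (nat_lit 0)) (T.h (T.h (M (nat_lit 35141102086828376018911231)) (T.h (P (nat_lit 0)) (T.h (P (nat_lit 44100721235759988736)) (T.h (P (nat_lit 0)) (M (nat_lit 122270494269615)))))) (T.h (P (nat_lit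 0)) (T.h (T.h (M (nat_lit 2909828443430453247)) (T.h (P (nat_lit 0)) (M (nat_lit 34191637143327)))) (T.h (P (nat_lit 0)) (P (nat_lit 13234316602864))))))) (T.h (T.h (T.h (P (nat_lit 0)) (T.h (M (nat_lit 73152441692684927631359)) (T.h (P (nat_lit 0)) (M (nat_lit 9506042827390975))))) (T.h (P (nat_lit 0)) (T.h (T.h (P (nat_lit 0)) (M (nat_lit 45794015764905983))) (P (nat_lit 0))))) (T.h (T.h (P (nat_lit 0)) (T.h (T.h (M (nat_lit 38571660381763141631)) (T.h (P (nat_lit 0)) (M (nat_lit 43238637266271)))) (T.h (P (nat_lit 0)) (P (nat_lit 31506594755440))))) (T.h (T.h (T.h (P (nat_lit 0)) (M (nat_lit 32437737833037823))) (P (nat_lit 0))) (T.h (T.h (P (nat_lit 0)) (P (nat_lit 3422371587152))) (P (nat_lit 0)))))))), (T.h (T.h (T.h (P (nat_lit 6673716617900190842543558098944)) (T.h (P (nat_lit 0)) (T.h (P (nat_lit 1033976369646611571146752)) (T.h (P (nat_lit 0)) (T.h (P (nat_lit 26760919484626632704)) (T.h (P (nat_lit 0)) (P (nat_lit 10125785890848))))))))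 (T.h (P (nat_lit 0)) (T.h (T.h (M (nat_lit 10086934459660500564180991)) (T.h (P (nat_lit 0)) (T.h (M (nat_lit 7616530210468397055)) (T.h (P (nat_lit 0)) (P (nat_lit 15982296344688)))))) (T.h (P (nat_lit 0)) (T.h (T.h (P (nat_lit 23707924861175201792)) (T.h (P (nat_lit 0)) (P (nat_lit 5948900219136)))) (T.h (P (nat_lit 0)) (M (nat_lit 8922483493439)))))))) (T.h (T.h (P (nat_lit 0)) (T.h (T.h (P (nat_lit 0)) (T.h (M (nat_lit 323670663222287212216319)) (T.h (P (nat_lit 0)) (P (nat_lit 212903059614531584))))) (T.h (P (nat_lit 0)) (T.h (T.h (P (nat_lit 0)) (P (nat_lit 155404866517598208))) (P (nat_lit 0)))))) (T.h (T.h (T.h (P (nat_lit 1033976369646611571146752)) (T.h (P (nat_lit 0)) (T.h (M (nat_lit 126923415089884168191)) (T.h (P (nat_lit 0)) (M (nat_lit 4554131237999)))))) (T.h (P (nat_lit 0)) (T.h (T.h (M (nat_lit 7616530210468397055)) (T.h (P (nat_lit 0)) (P (nat_lit 78859328005056)))) (T.h (P (nat_lit 0)) (P (nat_lit 5948900219136)))))) (T.h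 (T.h (P (nat_lit 0)) (T.h (T.h (P (nat_lit 0)) (P (nat_lit 212903059614531584))) (P (nat_lit 0)))) (T.h (T.h (T.h (P (nat_lit 26760919484626632704)) (T.h (P (nat_lit 0)) (M (nat_lit 4554131237999)))) (T.h (P (nat_lit 0)) (P (nat_lit 15982296344688)))) (T.h (P (nat_lit 0)) (P (nat_lit 10125785890848))))))))]
def lP22_22 : List (T ℤ) := [(T.h (T.h (T.h (P (nat_lit 0)) (T.h (P (nat_lit 11238980698650938542005420032)) (T.h (P (nat_lit 0)) (T.h (M (nat_lit 53788279463736556650495)) (T.h (P (nat_lit 0)) (M (nat_lit 34664899391881215))))))) (T.h (P (nat_lit 0)) (T.h (T.h (P (nat_lit 0)) (T.h (M (nat_lit 16836983933660345401343)) (T.h (P (nat_lit 0)) (M (nat_lit 7570336880918527))))) (T.h (P (nat_lit 0)) (T.h (T.h (P (nat_lit 0)) (M (nat_lit 55731942695206911))) (P (nat_lit 0))))))) (T.h (T.h (P (nat_lit 0)) (T.h (T.h (P (nat_lit 19367672092064425713860608)) (T.h (P (nat_lit 0)) (P (nat_lit 46620149615710699520)))) (T.h (P (nat_lit 0)) (P (nat_lit 72063663062135078912)))))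 (T.h (T.h (T.h (P (nat_lit 0)) (T.h (P (nat_lit 43591358222280624701440)) (T.h (P (nat_lit 0)) (M (nat_lit 6342112259833855))))) (T.h (P (nat_lit 0)) (T.h (T.h (P (nat_lit 0)) (M (nat_lit 126441140809465855))) (P (nat_lit 0))))) (T.h (T.h (P (nat_lit 0)) (P (nat_lit 68919699635825541120))) (T.h (T.h (T.h (P (nat_lit 0)) (M (nat_lit 34572894901452799))) (P (nat_lit 0))) (P (nat_lit 0))))))), (T.h (T.h (P (nat_lit 0)) (T.h (T.h (P (nat_lit 0)) (T.h (P (nat_lit 5810283156555816016805888)) (T.h (P (nat_lit 0)) (T.h (P (nat_lit 45427878034464047104)) (T.h (P (nat_lit 0)) (P (nat_lit 3774720305552))))))) (T.h (P (nat_lit 0)) (T.h (T.h (P (nat_lit 0)) (T.h (P (nat_lit 41172884228734451712)) (T.h (P (nat_lit 0)) (P (nat_lit 13433110305528))))) (T.h (P (nat_lit 0)) (T.h (T.h (P (nat_lit 0)) (P (nat_lit 4509737917544))) (P (nat_lit 0)))))))) (T.h (T.h (T.h (M (nat_lit 6924666312730873039744401407)) (T.h (P (nat_lit 0)) (T.h (P (nat_lit 20966851406420814856192))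 (T.h (P (nat_lit 0)) (P (nat_lit 14704517348524032)))))) (T.h (P (nat_lit 0)) (T.h (T.h (M (nat_lit 13034215677552899391487)) (T.h (P (nat_lit 0)) (M (nat_lit 16257695584583679)))) (T.h (P (nat_lit 0)) (P (nat_lit 27806606744977408)))))) (T.h (T.h (P (nat_lit 0)) (T.h (T.h (P (nat_lit 0)) (T.h (P (nat_lit 2086100085598322688)) (T.h (P (nat_lit 0)) (P (nat_lit 18179075001016))))) (T.h (P (nat_lit 0)) (T.h (T.h (P (nat_lit 0)) (M (nat_lit 16296856776735))) (P (nat_lit 0)))))) (T.h (T.h (T.h (P (nat_lit 5224766766905693306880)) (T.h (P (nat_lit 0)) (P (nat_lit 805034664558592)))) (T.h (P (nat_lit 0)) (M (nat_lit 18326436873601023)))) (T.h (T.h (P (nat_lit 0)) (T.h (T.h (P (nat_lit 0)) (P (nat_lit 4779188645288))) (P (nat_lit 0)))) (M (nat_lit 14235708366225407))))))), (T.h (T.h (P (nat_lit 0)) (T.h (T.h (P (nat_lit 8691406057965620660182974464)) (T.h (P (nat_lit 0)) (T.h (M (nat_lit 38064473744062961156095)) (T.h (P (nat_lit 0)) (P (nat_lit 19186521793036288))))))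 (T.h (P (nat_lit 0)) (T.h (T.h (M (nat_lit 15021339571157746057215)) (T.h (P (nat_lit 0)) (P (nat_lit 2082412055707648)))) (T.h (P (nat_lit 0)) (P (nat_lit 17136932539727872))))))) (T.h (T.h (T.h (P (nat_lit 0)) (T.h (P (nat_lit 39725240604148654384611328)) (T.h (P (nat_lit 0)) (T.h (P (nat_lit 33915569836709117952)) (T.h (P (nat_lit 0)) (P (nat_lit 4076389384816))))))) (T.h (P (nat_lit 0)) (T.h (T.h (P (nat_lit 0)) (T.h (M (nat_lit 3943748245355757567)) (T.h (P (nat_lit 0)) (M (nat_lit 7612428796111))))) (T.h (P (nat_lit 0)) (T.h (T.h (P (nat_lit 0)) (M (nat_lit 12132135300319))) (P (nat_lit 0))))))) (T.h (T.h (P (nat_lit 0)) (T.h (T.h (M (nat_lit 38064473744062961156095)) (T.h (P (nat_lit 0)) (P (nat_lit 3935443694649344)))) (T.h (P (nat_lit 0)) (P (nat_lit 2082412055707648))))) (T.h (T.h (T.h (P (nat_lit 0)) (T.h (P (nat_lit 33915569836709117952)) (T.h (P (nat_lit 0)) (M (nat_lit 675544214015))))) (T.h (P (nat_lit 0)) (T.h (T.h (P (nat_lit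 0)) (M (nat_lit 7612428796111))) (P (nat_lit 0))))) (T.h (T.h (P (nat_lit 0)) (P (nat_lit 19186521793036288))) (T.h (T.h (T.h (P (nat_lit 0)) (P (nat_lit 4076389384816))) (P (nat_lit 0))) (P (nat_lit 0)))))))), (T.h (T.h (P (nat_lit 0)) (T.h (T.h (P (nat_lit 0)) (T.h (P (nat_lit 26500495132438401082458112)) (T.h (P (nat_lit 0)) (T.h (M (nat_lit 110631618007638474751)) (T.h (P (nat_lit 0)) (P (nat_lit 35347017257280))))))) (T.h (P (nat_lit 0)) (T.h (T.h (P (nat_lit 0)) (T.h (P (nat_lit 128417446864883810304)) (T.h (P (nat_lit 0)) (M (nat_lit 27454079460623))))) (T.h (P (nat_lit 0)) (T.h (T.h (P (nat_lit 0)) (P (nat_lit 35846040847008))) (P (nat_lit 0)))))))) (T.h (T.h (T.h (M (nat_lit 22103747269811347225678184447)) (T.h (P (nat_lit 0)) (T.h (M (nat_lit 11104078704156566618111)) (T.h (P (nat_lit 0)) (P (nat_lit 73608370696355840)))))) (T.h (P (nat_lit 0)) (T.h (T.h (M (nat_lit 22900413350841088475135)) (T.h (P (nat_lit 0)) (M (nat_lit 7829432130568191))))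 (T.h (P (nat_lit 0)) (M (nat_lit 77230784205979647)))))) (T.h (T.h (P (nat_lit 0)) (T.h (T.h (P (nat_lit 0)) (T.h (M (nat_lit 194145112093039263743)) (T.h (P (nat_lit 0)) (P (nat_lit 285224950080))))) (T.h (P (nat_lit 0)) (T.h (T.h (P (nat_lit 0)) (P (nat_lit 1522815780144))) (P (nat_lit 0)))))) (T.h (T.h (T.h (M (nat_lit 10737789727595630166015)) (T.h (P (nat_lit 0)) (P (nat_lit 17442829815119872)))) (T.h (P (nat_lit 0)) (M (nat_lit 20850077718872063)))) (T.h (T.h (P (nat_lit 0)) (T.h (T.h (P (nat_lit 0)) (M (nat_lit 46674816420047))) (P (nat_lit 0)))) (M (nat_lit 10467174818709503))))))), (T.h (T.h (P (nat_lit 0)) (T.h (T.h (P (nat_lit 42764588926905048164284235776)) (T.h (P (nat_lit 0)) (T.h (P (nat_lit 50188394149267256639488)) (T.h (P (nat_lit 0)) (M (nat_lit 55304486419021823)))))) (T.h (P (nat_lit 0)) (T.h (T.h (M (nat_lit 16858043786964232044543)) (T.h (P (nat_lit 0)) (P (nat_lit 19470957815529472)))) (T.h (P (nat_lit 0)) (M (nat_lit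 6197651023659007))))))) (T.h (T.h (T.h (P (nat_lit 0)) (T.h (P (nat_lit 22729269502873008793976832)) (T.h (P (nat_lit 0)) (M (nat_lit 82428582705361846271))))) (T.h (P (nat_lit 0)) (T.h (T.h (P (nat_lit 0)) (P (nat_lit 145261223832388108288))) (P (nat_lit 0))))) (T.h (T.h (P (nat_lit 0)) (T.h (T.h (P (nat_lit 50188394149267256639488)) (T.h (P (nat_lit 0)) (M (nat_lit 54418775282548735)))) (T.h (P (nat_lit 0)) (P (nat_lit 19470957815529472))))) (T.h (T.h (T.h (P (nat_lit 0)) (M (nat_lit 82428582705361846271))) (P (nat_lit 0))) (T.h (T.h (P (nat_lit 0)) (M (nat_lit 55304486419021823))) (P (nat_lit 0))))))), (T.h (T.h (T.h (P (nat_lit 0)) (T.h (M (nat_lit 832454746821739008015466495)) (T.h (P (nat_lit 0)) (T.h (P (nat_lit 2581207630647769694208)) (T.h (P (nat_lit 0)) (P (nat_lit 3821690648035328))))))) (T.h (P (nat_lit 0)) (T.h (T.h (P (nat_lit 0)) (T.h (M (nat_lit 32130929532941937672191)) (T.h (P (nat_lit 0)) (P (nat_lit 21537784946409472)))))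 (T.h (P (nat_lit 0)) (T.h (T.h (P (nat_lit 0)) (P (nat_lit 5910113848442880))) (P (nat_lit 0))))))) (T.h (T.h (P (nat_lit 0)) (T.h (T.h (P (nat_lit 11799924226416691745128448)) (T.h (P (nat_lit 0)) (T.h (P (nat_lit 22920260165497257984)) (T.h (P (nat_lit 0)) (M (nat_lit 6622509720623)))))) (T.h (P (nat_lit 0)) (T.h (T.h (M (nat_lit 13066312361172795391)) (T.h (P (nat_lit 0)) (P (nat_lit 19135086581520)))) (T.h (P (nat_lit 0)) (P (nat_lit 11861041236576))))))) (T.h (T.h (T.h (P (nat_lit 0)) (T.h (M (nat_lit 4047631849667556278271)) (T.h (P (nat_lit 0)) (M (nat_lit 25091771215478783))))) (T.h (P (nat_lit 0)) (T.h (T.h (P (nat_lit 0)) (P (nat_lit 703405565444096))) (P (nat_lit 0))))) (T.h (T.h (P (nat_lit 0)) (T.h (T.h (P (nat_lit 24992502955122884608)) (T.h (P (nat_lit 0)) (M (nat_lit 4081026789279)))) (T.h (P (nat_lit 0)) (P (nat_lit 4308734371088))))) (T.h (T.h (T.h (P (nat_lit 0)) (M (nat_lit 6980540568846335))) (P (nat_lit 0))) (T.h (T.h (P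 (nat_lit 0)) (P (nat_lit 3040955945440))) (P (nat_lit 0)))))))), (T.h (T.h (T.h (M (nat_lit 1489864615173141456557266960383)) (T.h (P (nat_lit 0)) (T.h (P (nat_lit 3190336379661984334872576)) (T.h (P (nat_lit 0)) (T.h (P (nat_lit 6454538503194673152)) (T.h (P (nat_lit 0)) (M (nat_lit 5550730409807)))))))) (T.h (P (nat_lit 0)) (T.h (T.h (P (nat_lit 44237522183060602493075456)) (T.h (P (nat_lit 0)) (T.h (M (nat_lit 115193404408423514111)) (T.h (P (nat_lit 0)) (P (nat_lit 3472411185984)))))) (T.h (P (nat_lit 0)) (T.h (T.h (M (nat_lit 8197879782847807487)) (T.h (P (nat_lit 0)) (P (nat_lit 18792837007584)))) (T.h (P (nat_lit 0)) (P (nat_lit 13524330333600)))))))) (T.h (T.h (P (nat_lit 0)) (T.h (T.h (P (nat_lit 0)) (T.h (P (nat_lit 117203895853605197971456)) (T.h (P (nat_lit 0)) (P (nat_lit 120510918138789888))))) (T.h (P (nat_lit 0)) (T.h (T.h (P (nat_lit 0)) (M (nat_lit 78799039213862911))) (P (nat_lit 0)))))) (T.h (T.h (T.h (P (nat_lit 3190336379661984334872576))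 (T.h (P (nat_lit 0)) (T.h (P (nat_lit 107513538014303223808)) (T.h (P (nat_lit 0)) (M (nat_lit 12406552033967)))))) (T.h (P (nat_lit 0)) (T.h (T.h (M (nat_lit 115193404408423514111)) (T.h (P (nat_lit 0)) (P (nat_lit 64523868455424)))) (T.h (P (nat_lit 0)) (P (nat_lit 18792837007584)))))) (T.h (T.h (P (nat_lit 0)) (T.h (T.h (P (nat_lit 0)) (P (nat_lit 120510918138789888))) (P (nat_lit 0)))) (T.h (T.h (T.h (P (nat_lit 6454538503194673152)) (T.h (P (nat_lit 0)) (M (nat_lit 12406552033967)))) (T.h (P (nat_lit 0)) (P (nat_lit 3472411185984)))) (T.h (P (nat_lit 0)) (M (nat_lit 5550730409807)))))))), (T.h (T.h (T.h (P (nat_lit 0)) (T.h (M (nat_lit 2966186908321285952851935231)) (T.h (P (nat_lit 0)) (T.h (M (nat_lit 11775693116598195847167)) (T.h (P (nat_lit 0)) (P (nat_lit 4586815369150464))))))) (T.h (P (nat_lit 0)) (T.h (T.h (P (nat_lit 0)) (T.h (P (nat_lit 35537384737640326103040)) (T.h (P (nat_lit 0)) (P (nat_lit 20023216806592512))))) (T.h (P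 (nat_lit 0)) (T.h (T.h (P (nat_lit 0)) (M (nat_lit 71753149753163775))) (P (nat_lit 0))))))) (T.h (T.h (P (nat_lit 0)) (T.h (T.h (M (nat_lit 16377306634978973055975423)) (T.h (P (nat_lit 0)) (M (nat_lit 61976402703186657279)))) (T.h (P (nat_lit 0)) (P (nat_lit 94872395999829032960))))) (T.h (T.h (T.h (P (nat_lit 0)) (T.h (P (nat_lit 9616740369625253937152)) (T.h (P (nat_lit 0)) (M (nat_lit 13771757658144767))))) (T.h (P (nat_lit 0)) (T.h (T.h (P (nat_lit 0)) (M (nat_lit 55653943023239167))) (P (nat_lit 0))))) (T.h (T.h (P (nat_lit 0)) (M (nat_lit 94824523234900180991))) (T.h (T.h (T.h (P (nat_lit 0)) (P (nat_lit 50821383761641472))) (P (nat_lit 0))) (P (nat_lit 0)))))))]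
def lP22_23 : List (T ℤ) := [(T.h (T.h (P (nat_lit 0)) (T.h (T.h (P (nat_lit 0)) (T.h (M (nat_lit 13089024482181258328145919)) (T.h (P (nat_lit 0)) (T.h (M (nat_lit 32647441060556963839)) (T.h (P (nat_lit 0)) (P (nat_lit 4237866999168))))))) (T.h (P (nat_lit 0)) (T.h (T.h (P (nat_lit 0)) (T.h (M (nat_lit 36766634793414688767)) (T.h (P (nat_lit 0)) (P (nat_lit 2377596206784))))) (T.h (P (nat_lit 0)) (T.h (T.h (P (nat_lit 0)) (M (nat_lit 1283713304399))) (P (nat_lit 0)))))))) (T.h (T.h (T.h (P (nat_lit 5365436076063364494613544960)) (T.h (P (nat_lit 0)) (T.h (M (nat_lit 23003241910279304380415)) (T.h (P (nat_lit 0)) (M (nat_lit 4868192976011263)))))) (T.h (P (nat_lit 0)) (T.h (T.h (P (nat_lit 16692309233254172459008)) (T.h (P (nat_lit 0)) (P (nat_lit 26953724719824896)))) (T.h (P (nat_lit 0)) (M (nat_lit 24295617010860031)))))) (T.h (T.h (P (nat_lit 0)) (T.h (T.h (P (nat_lit 0)) (T.h (P (nat_lit 25093469970943180800)) (T.h (P (nat_lit 0)) (P (nat_lit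 3390121286400))))) (T.h (P (nat_lit 0)) (T.h (T.h (P (nat_lit 0)) (P (nat_lit 13661142254976))) (P (nat_lit 0)))))) (T.h (T.h (T.h (M (nat_lit 2829647422335983026175)) (T.h (P (nat_lit 0)) (P (nat_lit 6090253865844736)))) (T.h (P (nat_lit 0)) (P (nat_lit 17366088078819328)))) (T.h (T.h (P (nat_lit 0)) (T.h (T.h (P (nat_lit 0)) (M (nat_lit 4085685683903))) (P (nat_lit 0)))) (P (nat_lit 8555427069952000))))))), (T.h (T.h (P (nat_lit 0)) (T.h (T.h (M (nat_lit 14143915709784305992583872511)) (T.h (P (nat_lit 0)) (T.h (P (nat_lit 71315698274066231197696)) (T.h (P (nat_lit 0)) (M (nat_lit 8208545001439231)))))) (T.h (P (nat_lit 0)) (T.h (T.h (M (nat_lit 5554121537654855041023)) (T.h (P (nat_lit 0)) (M (nat_lit 32756148533133311)))) (T.h (P (nat_lit 0)) (M (nat_lit 26821480240742399))))))) (T.h (T.h (T.h (P (nat_lit 0)) (T.h (P (nat_lit 1786891951884896965754880)) (T.h (P (nat_lit 0)) (M (nat_lit 27420855437877051391))))) (T.h (P (nat_lit 0)) (T.h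 (T.h (P (nat_lit 0)) (P (nat_lit 20838505919270617088))) (P (nat_lit 0))))) (T.h (T.h (P (nat_lit 0)) (T.h (T.h (P (nat_lit 71315698274066231197696)) (T.h (P (nat_lit 0)) (M (nat_lit 50991262593449983)))) (T.h (P (nat_lit 0)) (M (nat_lit 32756148533133311))))) (T.h (T.h (T.h (P (nat_lit 0)) (M (nat_lit 27420855437877051391))) (P (nat_lit 0))) (T.h (T.h (P (nat_lit 0)) (M (nat_lit 8208545001439231))) (P (nat_lit 0))))))), (T.h (T.h (T.h (P (nat_lit 0)) (T.h (P (nat_lit 2547540643335990035118817280)) (T.h (P (nat_lit 0)) (T.h (P (nat_lit 392783585823669878784)) (T.h (P (nat_lit 0)) (M (nat_lit 965174953410559))))))) (T.h (P (nat_lit 0)) (T.h (T.h (P (nat_lit 0)) (T.h (P (nat_lit 34455666698401404157952)) (T.h (P (nat_lit 0)) (P (nat_lit 584082030985216))))) (T.h (P (nat_lit 0)) (T.h (T.h (P (nat_lit 0)) (M (nat_lit 2625970948095999))) (P (nat_lit 0))))))) (T.h (T.h (P (nat_lit 0)) (T.h (T.h (M (nat_lit 18381355421258832978903039)) (T.h (P (nat_lit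 0)) (M (nat_lit 36613268445365010431)))) (T.h (P (nat_lit 0)) (P (nat_lit 7114211940729094144))))) (T.h (T.h (T.h (P (nat_lit 0)) (T.h (M (nat_lit 19946718446392155570175)) (T.h (P (nat_lit 0)) (P (nat_lit 3402133379809280))))) (T.h (P (nat_lit 0)) (T.h (T.h (P (nat_lit 0)) (M (nat_lit 4932788028899327))) (P (nat_lit 0))))) (T.h (T.h (P (nat_lit 0)) (M (nat_lit 23203781688285986815))) (T.h (T.h (T.h (P (nat_lit 0)) (P (nat_lit 3801332291633152))) (P (nat_lit 0))) (P (nat_lit 0))))))), (P (nat_lit 0)), (P (nat_lit 0)), (T.h (T.h (T.h (P (nat_lit 2234861071386015486096483287040)) (T.h (P (nat_lit 0)) (T.h (P (nat_lit 2432596131675293574234112)) (T.h (P (nat_lit 0)) (T.h (M (nat_lit 1684463669741617151)) (T.h (P (nat_lit 0)) (P (nat_lit 3262258130688)))))))) (T.h (P (nat_lit 0)) (T.h (T.h (M (nat_lit 7708168516762077199597567)) (T.h (P (nat_lit 0)) (T.h (M (nat_lit 7565961573420761087)) (T.h (P (nat_lit 0)) (P (nat_lit 2226811980688)))))) (T.h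 (P (nat_lit 0)) (T.h (T.h (M (nat_lit 274983503278374911)) (T.h (P (nat_lit 0)) (P (nat_lit 6846553600992)))) (T.h (P (nat_lit 0)) (P (nat_lit 442542226560)))))))) (T.h (T.h (P (nat_lit 0)) (T.h (T.h (P (nat_lit 0)) (T.h (M (nat_lit 52336254976759705894911)) (T.h (P (nat_lit 0)) (P (nat_lit 43655035402321920))))) (T.h (P (nat_lit 0)) (T.h (T.h (P (nat_lit 0)) (M (nat_lit 121581743433187327))) (P (nat_lit 0)))))) (T.h (T.h (T.h (P (nat_lit 3051797688256327059505152)) (T.h (P (nat_lit 0)) (T.h (P (nat_lit 45507439988769292288)) (T.h (P (nat_lit 0)) (M (nat_lit 15522591740607)))))) (T.h (P (nat_lit 0)) (T.h (T.h (M (nat_lit 7796718564454432767)) (T.h (P (nat_lit 0)) (P (nat_lit 1638349355456)))) (T.h (P (nat_lit 0)) (P (nat_lit 8369762580992)))))) (T.h (T.h (P (nat_lit 0)) (T.h (T.h (P (nat_lit 0)) (P (nat_lit 44583115770822656))) (P (nat_lit 0)))) (T.h (T.h (T.h (P (nat_lit 2096545058307178496)) (T.h (P (nat_lit 0)) (M (nat_lit 14244316690639))))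 (T.h (P (nat_lit 0)) (P (nat_lit 5028296010656)))) (T.h (P (nat_lit 0)) (M (nat_lit 581504258111)))))))), (T.h (T.h (T.h (P (nat_lit 0)) (T.h (M (nat_lit 6575954522997713494022815743)) (T.h (P (nat_lit 0)) (T.h (M (nat_lit 30127997819102433378303)) (T.h (P (nat_lit 0)) (P (nat_lit 3577843045728256))))))) (T.h (P (nat_lit 0)) (T.h (T.h (P (nat_lit 0)) (T.h (M (nat_lit 27633644161980858105855)) (T.h (P (nat_lit 0)) (P (nat_lit 101045535267389440))))) (T.h (P (nat_lit 0)) (T.h (T.h (P (nat_lit 0)) (M (nat_lit 924049805148159))) (P (nat_lit 0))))))) (T.h (T.h (P (nat_lit 0)) (T.h (T.h (P (nat_lit 3642758162366038185869312)) (T.h (P (nat_lit 0)) (T.h (M (nat_lit 207307129298180112383)) (T.h (P (nat_lit 0)) (P (nat_lit 81339482813120)))))) (T.h (P (nat_lit 0)) (T.h (T.h (M (nat_lit 55815510666470490111)) (T.h (P (nat_lit 0)) (M (nat_lit 3887843184823)))) (T.h (P (nat_lit 0)) (M (nat_lit 23162146526199))))))) (T.h (T.h (T.h (P (nat_lit 0)) (T.h (P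 (nat_lit 67271243517672959246336)) (T.h (P (nat_lit 0)) (P (nat_lit 70704301938114560))))) (T.h (P (nat_lit 0)) (T.h (T.h (P (nat_lit 0)) (P (nat_lit 40463675361591296))) (P (nat_lit 0))))) (T.h (T.h (P (nat_lit 0)) (T.h (T.h (M (nat_lit 92204131045926240255)) (T.h (P (nat_lit 0)) (P (nat_lit 17193851118640)))) (T.h (P (nat_lit 0)) (M (nat_lit 10572253411111))))) (T.h (T.h (T.h (P (nat_lit 0)) (P (nat_lit 6397804160745472))) (P (nat_lit 0))) (T.h (T.h (P (nat_lit 0)) (P (nat_lit 26818855177008))) (P (nat_lit 0)))))))), (T.h (T.h (T.h (P (nat_lit 17094486006638023269611089166336)) (T.h (P (nat_lit 0)) (T.h (P (nat_lit 4435923878144012598640640)) (T.h (P (nat_lit 0)) (T.h (P (nat_lit 38511783345980964864)) (T.h (P (nat_lit 0)) (M (nat_lit 13280743268351)))))))) (T.h (P (nat_lit 0)) (T.h (T.h (M (nat_lit 31173452360335586383364095)) (T.h (P (nat_lit 0)) (T.h (P (nat_lit 50528807187178848256)) (T.h (P (nat_lit 0)) (M (nat_lit 1086254618287))))))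 (T.h (P (nat_lit 0)) (T.h (T.h (M (nat_lit 50164592132768137215)) (T.h (P (nat_lit 0)) (M (nat_lit 15403618750799)))) (T.h (P (nat_lit 0)) (M (nat_lit 3615223110687)))))))) (T.h (T.h (P (nat_lit 0)) (T.h (T.h (P (nat_lit 0)) (T.h (M (nat_lit 11089826955933368975359)) (T.h (P (nat_lit 0)) (M (nat_lit 50548756479574015))))) (T.h (P (nat_lit 0)) (T.h (T.h (P (nat_lit 0)) (P (nat_lit 214886594032238592))) (P (nat_lit 0)))))) (T.h (T.h (T.h (P (nat_lit 4435923878144012598640640)) (T.h (P (nat_lit 0)) (T.h (M (nat_lit 113387315470796849151)) (T.h (P (nat_lit 0)) (P (nat_lit 67270578759328)))))) (T.h (P (nat_lit 0)) (T.h (T.h (P (nat_lit 50528807187178848256)) (T.h (P (nat_lit 0)) (P (nat_lit 28555142539168)))) (T.h (P (nat_lit 0)) (M (nat_lit 15403618750799)))))) (T.h (T.h (P (nat_lit 0)) (T.h (T.h (P (nat_lit 0)) (M (nat_lit 50548756479574015))) (P (nat_lit 0)))) (T.h (T.h (T.h (P (nat_lit 38511783345980964864)) (T.h (P (nat_lit 0)) (P (nat_lit 67270578759328))))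 (T.h (P (nat_lit 0)) (M (nat_lit 1086254618287)))) (T.h (P (nat_lit 0)) (M (nat_lit 13280743268351))))))))]
def lP22_24 : List (T ℤ) := [(T.h (T.h (T.h (P (nat_lit 0)) (T.h (P (nat_lit 8892000472475436383295504384)) (T.h (P (nat_lit 0)) (T.h (P (nat_lit 16456097033687519985664)) (T.h (P (nat_lit 0)) (P (nat_lit 24149417068855296))))))) (T.h (P (nat_lit 0)) (T.h (T.h (P (nat_lit 0)) (T.h (P (nat_lit 36157989310871717806080)) (T.h (P (nat_lit 0)) (M (nat_lit 35323327731531775))))) (T.h (P (nat_lit 0)) (T.h (T.h (P (nat_lit 0)) (M (nat_lit 11925370510737407))) (P (nat_lit 0))))))) (T.h (T.h (P (nat_lit 0)) (T.h (T.h (M (nat_lit 26784771438189274078380031)) (T.h (P (nat_lit 0)) (T.h (P (nat_lit 94840969493001273344)) (T.h (P (nat_lit 0)) (M (nat_lit 53598465338255)))))) (T.h (P (nat_lit 0)) (T.h (T.h (M (nat_lit 29567487790811185151)) (T.h (P (nat_lit 0)) (M (nat_lit 5314824709103)))) (T.h (P (nat_lit 0)) (M (nat_lit 2461445725727))))))) (T.h (T.h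 (T.h (P (nat_lit 0)) (T.h (P (nat_lit 18776408515861362507776)) (T.h (P (nat_lit 0)) (M (nat_lit 111816194942861311))))) (T.h (P (nat_lit 0)) (T.h (T.h (P (nat_lit 0)) (M (nat_lit 3549270860136447))) (P (nat_lit 0))))) (T.h (T.h (P (nat_lit 0)) (T.h (T.h (P (nat_lit 34039728992491143168)) (T.h (P (nat_lit 0)) (P (nat_lit 7226975842848)))) (T.h (P (nat_lit 0)) (P (nat_lit 16382985646176))))) (T.h (T.h (T.h (P (nat_lit 0)) (P (nat_lit 12760773594578944))) (P (nat_lit 0))) (T.h (T.h (P (nat_lit 0)) (M (nat_lit 25001913246767))) (P (nat_lit 0)))))))), (T.h (T.h (T.h (P (nat_lit 136175368825848704011312562176)) (T.h (P (nat_lit 0)) (T.h (M (nat_lit 11792852828530081829748735)) (T.h (P (nat_lit 0)) (M (nat_lit 19079840722707283967)))))) (T.h (P (nat_lit 0)) (T.h (T.h (P (nat_lit 10299676712578327630577664)) (T.h (P (nat_lit 0)) (P (nat_lit 18088830698126311424)))) (T.h (P (nat_lit 0)) (P (nat_lit 15478283704106745856)))))) (T.h (T.h (P (nat_lit 0))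 (T.h (T.h (P (nat_lit 0)) (T.h (P (nat_lit 36587039533747480297472)) (T.h (P (nat_lit 0)) (P (nat_lit 59092969562472448))))) (T.h (P (nat_lit 0)) (T.h (T.h (P (nat_lit 0)) (P (nat_lit 11466888006205440))) (P (nat_lit 0)))))) (T.h (T.h (T.h (M (nat_lit 21845518975287555317039103)) (T.h (P (nat_lit 0)) (M (nat_lit 30804249933590298623)))) (T.h (P (nat_lit 0)) (P (nat_lit 25337010042471186432)))) (T.h (T.h (P (nat_lit 0)) (T.h (T.h (P (nat_lit 0)) (P (nat_lit 69317805307723776))) (P (nat_lit 0)))) (M (nat_lit 46493784627472236543)))))), (P (nat_lit 0)), (T.h (T.h (P (nat_lit 0)) (T.h (T.h (P (nat_lit 0)) (T.h (M (nat_lit 1783583222540862459215871)) (T.h (P (nat_lit 0)) (T.h (M (nat_lit 968861825208680447)) (T.h (P (nat_lit 0)) (M (nat_lit 723600243695))))))) (T.h (P (nat_lit 0)) (T.h (T.h (P (nat_lit 0)) (T.h (M (nat_lit 968861825208680447)) (T.h (P (nat_lit 0)) (P (nat_lit 1106006924448))))) (T.h (P (nat_lit 0)) (T.h (T.h (P (nat_lit 0)) (M (nat_lit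 723600243695))) (P (nat_lit 0)))))))) (T.h (T.h (T.h (P (nat_lit 292744442000501060956848128)) (T.h (P (nat_lit 0)) (T.h (M (nat_lit 71490041528832753663)) (T.h (P (nat_lit 0)) (M (nat_lit 7565409483816959)))))) (T.h (P (nat_lit 0)) (T.h (T.h (M (nat_lit 71490041528832753663)) (T.h (P (nat_lit 0)) (M (nat_lit 7318168459542527)))) (T.h (P (nat_lit 0)) (M (nat_lit 7565409483816959)))))) (T.h (T.h (P (nat_lit 0)) (T.h (T.h (P (nat_lit 0)) (T.h (M (nat_lit 9687899242886070271)) (T.h (P (nat_lit 0)) (P (nat_lit 6132761592576))))) (T.h (P (nat_lit 0)) (T.h (T.h (P (nat_lit 0)) (P (nat_lit 6132761592576))) (P (nat_lit 0)))))) (T.h (T.h (T.h (P (nat_lit 578675089556927152128)) (T.h (P (nat_lit 0)) (M (nat_lit 208462894661631)))) (T.h (P (nat_lit 0)) (M (nat_lit 208462894661631)))) (T.h (T.h (P (nat_lit 0)) (T.h (T.h (P (nat_lit 0)) (P (nat_lit 18277536452736))) (P (nat_lit 0)))) (M (nat_lit 1348496507797503))))))), (T.h (T.h (P (nat_lit 0)) (T.h (T.h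 (P (nat_lit 25915314775276063335450148864)) (T.h (P (nat_lit 0)) (T.h (P (nat_lit 30035619129775030796288)) (T.h (P (nat_lit 0)) (M (nat_lit 93606095374286847)))))) (T.h (P (nat_lit 0)) (T.h (T.h (P (nat_lit 37217567933618439847936)) (T.h (P (nat_lit 0)) (P (nat_lit 42708329707143168)))) (T.h (P (nat_lit 0)) (P (nat_lit 17476605358931968))))))) (T.h (T.h (T.h (P (nat_lit 0)) (T.h (M (nat_lit 74707748385063182113177599)) (T.h (P (nat_lit 0)) (T.h (P (nat_lit 208488500830169726976)) (T.h (P (nat_lit 0)) (M (nat_lit 735534927183))))))) (T.h (P (nat_lit 0)) (T.h (T.h (P (nat_lit 0)) (T.h (P (nat_lit 13655237996218155008)) (T.h (P (nat_lit 0)) (P (nat_lit 13969092811040))))) (T.h (P (nat_lit 0)) (T.h (T.h (P (nat_lit 0)) (M (nat_lit 10206279154663))) (P (nat_lit 0))))))) (T.h (T.h (P (nat_lit 0)) (T.h (T.h (P (nat_lit 32122294185496053547008)) (T.h (P (nat_lit 0)) (M (nat_lit 91805828405035007)))) (T.h (P (nat_lit 0)) (P (nat_lit 32773714036719616)))))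 (T.h (T.h (T.h (P (nat_lit 0)) (T.h (M (nat_lit 107215200032036749311)) (T.h (P (nat_lit 0)) (M (nat_lit 29420639605431))))) (T.h (P (nat_lit 0)) (T.h (T.h (P (nat_lit 0)) (M (nat_lit 17233012337271))) (P (nat_lit 0))))) (T.h (T.h (P (nat_lit 0)) (P (nat_lit 113971583758237696))) (T.h (T.h (T.h (P (nat_lit 0)) (M (nat_lit 25595088244551))) (P (nat_lit 0))) (P (nat_lit 0)))))))), (T.h (T.h (P (nat_lit 0)) (T.h (T.h (P (nat_lit 0)) (T.h (P (nat_lit 46086304177284694394535936)) (T.h (P (nat_lit 0)) (T.h (P (nat_lit 66463044662110191616)) (T.h (P (nat_lit 0)) (P (nat_lit 2973639012512))))))) (T.h (P (nat_lit 0)) (T.h (T.h (P (nat_lit 0)) (T.h (P (nat_lit 30801212723777503232)) (T.h (P (nat_lit 0)) (M (nat_lit 12935944374639))))) (T.h (P (nat_lit 0)) (T.h (T.h (P (nat_lit 0)) (M (nat_lit 6838306003199))) (P (nat_lit 0)))))))) (T.h (T.h (T.h (M (nat_lit 7828493730594769166535753727)) (T.h (P (nat_lit 0)) (T.h (M (nat_lit 58790689262420470267903))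 (T.h (P (nat_lit 0)) (P (nat_lit 72563184030810112)))))) (T.h (P (nat_lit 0)) (T.h (T.h (M (nat_lit 86396255065120928956415)) (T.h (P (nat_lit 0)) (P (nat_lit 71146723141287936)))) (T.h (P (nat_lit 0)) (P (nat_lit 41801517790085120)))))) (T.h (T.h (P (nat_lit 0)) (T.h (T.h (P (nat_lit 0)) (T.h (P (nat_lit 32969033259893653504)) (T.h (P (nat_lit 0)) (M (nat_lit 26187724296383))))) (T.h (P (nat_lit 0)) (T.h (T.h (P (nat_lit 0)) (M (nat_lit 35234724419327))) (P (nat_lit 0)))))) (T.h (T.h (T.h (M (nat_lit 53837020979397488803839)) (T.h (P (nat_lit 0)) (P (nat_lit 26954648264163328)))) (T.h (P (nat_lit 0)) (M (nat_lit 12512659497795583)))) (T.h (T.h (P (nat_lit 0)) (T.h (T.h (P (nat_lit 0)) (M (nat_lit 106196366572463))) (P (nat_lit 0)))) (P (nat_lit 2214687480594432))))))), (T.h (T.h (P (nat_lit 0)) (T.h (T.h (M (nat_lit 51840038109452737416896970751)) (T.h (P (nat_lit 0)) (T.h (M (nat_lit 39058153733334230892543)) (T.h (P (nat_lit 0)) (P (nat_lit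 9113800522039296)))))) (T.h (P (nat_lit 0)) (T.h (T.h (M (nat_lit 64339050967456412598271)) (T.h (P (nat_lit 0)) (P (nat_lit 104076599009968128)))) (T.h (P (nat_lit 0)) (M (nat_lit 37776417297924095))))))) (T.h (T.h (T.h (P (nat_lit 0)) (T.h (P (nat_lit 76193255178220198925697024)) (T.h (P (nat_lit 0)) (T.h (M (nat_lit 1587503758416281599)) (T.h (P (nat_lit 0)) (P (nat_lit 83175846626544))))))) (T.h (P (nat_lit 0)) (T.h (T.h (P (nat_lit 0)) (T.h (M (nat_lit 570040655202299674623)) (T.h (P (nat_lit 0)) (P (nat_lit 9706715246352))))) (T.h (P (nat_lit 0)) (T.h (T.h (P (nat_lit 0)) (P (nat_lit 7245725503680))) (P (nat_lit 0))))))) (T.h (T.h (P (nat_lit 0)) (T.h (T.h (M (nat_lit 39058153733334230892543)) (T.h (P (nat_lit 0)) (M (nat_lit 58384364156747775)))) (T.h (P (nat_lit 0)) (P (nat_lit 104076599009968128))))) (T.h (T.h (T.h (P (nat_lit 0)) (T.h (M (nat_lit 1587503758416281599)) (T.h (P (nat_lit 0)) (M (nat_lit 57778153730303))))) (T.h (P (nat_lit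 0)) (T.h (T.h (P (nat_lit 0)) (P (nat_lit 9706715246352))) (P (nat_lit 0))))) (T.h (T.h (P (nat_lit 0)) (P (nat_lit 9113800522039296))) (T.h (T.h (T.h (P (nat_lit 0)) (P (nat_lit 83175846626544))) (P (nat_lit 0))) (P (nat_lit 0)))))))), (T.h (T.h (P (nat_lit 0)) (T.h (T.h (P (nat_lit 0)) (T.h (M (nat_lit 23584525151007839168233471)) (T.h (P (nat_lit 0)) (P (nat_lit 91165908592538681344))))) (T.h (P (nat_lit 0)) (T.h (T.h (P (nat_lit 0)) (M (nat_lit 61454915112997486591))) (P (nat_lit 0)))))) (T.h (T.h (T.h (P (nat_lit 24515816103804542625737867264)) (T.h (P (nat_lit 0)) (T.h (M (nat_lit 8968247592976562257919)) (T.h (P (nat_lit 0)) (M (nat_lit 145528070694043647)))))) (T.h (P (nat_lit 0)) (T.h (T.h (P (nat_lit 65839141578859037589504)) (T.h (P (nat_lit 0)) (M (nat_lit 75462907401437183)))) (T.h (P (nat_lit 0)) (P (nat_lit 8326943506890752)))))) (T.h (T.h (P (nat_lit 0)) (T.h (T.h (P (nat_lit 0)) (P (nat_lit 7835413807227731968))) (P (nat_lit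 0)))) (T.h (T.h (T.h (M (nat_lit 2297477073452696338431)) (T.h (P (nat_lit 0)) (P (nat_lit 33876372480163840)))) (T.h (P (nat_lit 0)) (P (nat_lit 6808094951456768)))) (T.h (P (nat_lit 0)) (P (nat_lit 647816382939136)))))))]
def lP22_25 : List (T ℤ) := [(T.h (T.h (T.h (P (nat_lit 2362981971938681723231315951616)) (T.h (P (nat_lit 0)) (T.h (M (nat_lit 7333312270972622047543295)) (T.h (P (nat_lit 0)) (T.h (P (nat_lit 2883080607284330496)) (T.h (P (nat_lit 0)) (M (nat_lit 938032279007)))))))) (T.h (P (nat_lit 0)) (T.h (T.h (P (nat_lit 2807452377464748726288384)) (T.h (P (nat_lit 0)) (T.h (M (nat_lit 5859465466359054335)) (T.h (P (nat_lit 0)) (P (nat_lit 5661848525520)))))) (T.h (P (nat_lit 0)) (T.h (T.h (P (nat_lit 1473600440821088256)) (T.h (P (nat_lit 0)) (P (nat_lit 1042106905216)))) (T.h (P (nat_lit 0)) (P (nat_lit 1881683625120)))))))) (T.h (T.h (P (nat_lit 0)) (T.h (T.h (P (nat_lit 0)) (T.h (M (nat_lit 50356209117790411423743)) (T.h (P (nat_lit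 0)) (M (nat_lit 124448709464817663))))) (T.h (P (nat_lit 0)) (T.h (T.h (P (nat_lit 0)) (P (nat_lit 40788069370691584))) (P (nat_lit 0)))))) (T.h (T.h (T.h (P (nat_lit 2807452377464748726288384)) (T.h (P (nat_lit 0)) (T.h (M (nat_lit 5859465466359054335)) (T.h (P (nat_lit 0)) (P (nat_lit 5661848525520)))))) (T.h (P (nat_lit 0)) (T.h (T.h (P (nat_lit 47444693086864670720)) (T.h (P (nat_lit 0)) (M (nat_lit 2800608362303)))) (T.h (P (nat_lit 0)) (M (nat_lit 18230505796079)))))) (T.h (T.h (P (nat_lit 0)) (T.h (T.h (P (nat_lit 0)) (P (nat_lit 40788069370691584))) (P (nat_lit 0)))) (T.h (T.h (T.h (P (nat_lit 1473600440821088256)) (T.h (P (nat_lit 0)) (P (nat_lit 1042106905216)))) (T.h (P (nat_lit 0)) (M (nat_lit 18230505796079)))) (T.h (P (nat_lit 0)) (P (nat_lit 1881683625120)))))))), (T.h (T.h (T.h (P (nat_lit 0)) (T.h (P (nat_lit 25439072121365587605594308608)) (T.h (P (nat_lit 0)) (T.h (P (nat_lit 32835649226746181451776)) (T.h (P (nat_lit 0))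 (P (nat_lit 27052447050694656))))))) (T.h (P (nat_lit 0)) (T.h (T.h (P (nat_lit 0)) (T.h (P (nat_lit 39260101701961162686464)) (T.h (P (nat_lit 0)) (M (nat_lit 124121882012975103))))) (T.h (P (nat_lit 0)) (T.h (T.h (P (nat_lit 0)) (M (nat_lit 46279448589402111))) (P (nat_lit 0))))))) (T.h (T.h (P (nat_lit 0)) (T.h (T.h (M (nat_lit 29588896002306567315652607)) (T.h (P (nat_lit 0)) (T.h (P (nat_lit 603140925707637489664)) (T.h (P (nat_lit 0)) (P (nat_lit 13619761588416)))))) (T.h (P (nat_lit 0)) (T.h (T.h (M (nat_lit 28145018818879553535)) (T.h (P (nat_lit 0)) (M (nat_lit 9001400120855)))) (T.h (P (nat_lit 0)) (M (nat_lit 38828225798559))))))) (T.h (T.h (T.h (P (nat_lit 0)) (T.h (P (nat_lit 38260419747544456757248)) (T.h (P (nat_lit 0)) (M (nat_lit 120493888905445375))))) (T.h (P (nat_lit 0)) (T.h (T.h (P (nat_lit 0)) (P (nat_lit 101597129374236672))) (P (nat_lit 0))))) (T.h (T.h (P (nat_lit 0)) (T.h (T.h (M (nat_lit 128814671488589234175)) (T.h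 (P (nat_lit 0)) (P (nat_lit 25142437511608)))) (T.h (P (nat_lit 0)) (P (nat_lit 56916490450304))))) (T.h (T.h (T.h (P (nat_lit 0)) (M (nat_lit 23539714618982399))) (P (nat_lit 0))) (T.h (T.h (P (nat_lit 0)) (M (nat_lit 60196205129887))) (P (nat_lit 0)))))))), (T.h (T.h (T.h (P (nat_lit 34469396769798165494452468056064)) (T.h (P (nat_lit 0)) (T.h (P (nat_lit 14422568462454834656706560)) (T.h (P (nat_lit 0)) (T.h (M (nat_lit 13210808274074468351)) (T.h (P (nat_lit 0)) (P (nat_lit 9792623269744)))))))) (T.h (P (nat_lit 0)) (T.h (T.h (P (nat_lit 44519641943507608847515648)) (T.h (P (nat_lit 0)) (T.h (P (nat_lit 33504488882459115520)) (T.h (P (nat_lit 0)) (M (nat_lit 42536823095647)))))) (T.h (P (nat_lit 0)) (T.h (T.h (P (nat_lit 47482288048942612480)) (T.h (P (nat_lit 0)) (M (nat_lit 20438202200751)))) (T.h (P (nat_lit 0)) (P (nat_lit 6826623893488)))))))) (T.h (T.h (P (nat_lit 0)) (T.h (T.h (P (nat_lit 0)) (T.h (M (nat_lit 62416489380685828587519))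 (T.h (P (nat_lit 0)) (P (nat_lit 270291920862543872))))) (T.h (P (nat_lit 0)) (T.h (T.h (P (nat_lit 0)) (P (nat_lit 163637327301378048))) (P (nat_lit 0)))))) (T.h (T.h (T.h (P (nat_lit 19934871219881659447902208)) (T.h (P (nat_lit 0)) (T.h (P (nat_lit 12706659931722350592)) (T.h (P (nat_lit 0)) (M (nat_lit 44475936872303)))))) (T.h (P (nat_lit 0)) (T.h (T.h (M (nat_lit 58852486921897115647)) (T.h (P (nat_lit 0)) (P (nat_lit 2383799509616)))) (T.h (P (nat_lit 0)) (M (nat_lit 6111706707791)))))) (T.h (T.h (P (nat_lit 0)) (T.h (T.h (P (nat_lit 0)) (P (nat_lit 111511163911897088))) (P (nat_lit 0)))) (T.h (T.h (T.h (P (nat_lit 14772470881657552896)) (T.h (P (nat_lit 0)) (M (nat_lit 52257193634687)))) (T.h (P (nat_lit 0)) (P (nat_lit 1773144249968)))) (T.h (P (nat_lit 0)) (P (nat_lit 3093102488336)))))))), (T.h (T.h (T.h (P (nat_lit 0)) (T.h (M (nat_lit 11206858331730975898332037119)) (T.h (P (nat_lit 0)) (T.h (M (nat_lit 77098816337587598262271))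 (T.h (P (nat_lit 0)) (M (nat_lit 42396323796090879))))))) (T.h (P (nat_lit 0)) (T.h (T.h (P (nat_lit 0)) (T.h (M (nat_lit 60140621660989331341311)) (T.h (P (nat_lit 0)) (P (nat_lit 103149845031059456))))) (T.h (P (nat_lit 0)) (T.h (T.h (P (nat_lit 0)) (P (nat_lit 69542991381856256))) (P (nat_lit 0))))))) (T.h (T.h (P (nat_lit 0)) (T.h (T.h (P (nat_lit 65327691014593808938565632)) (T.h (P (nat_lit 0)) (T.h (M (nat_lit 171825225033142239231)) (T.h (P (nat_lit 0)) (P (nat_lit 57089020173120)))))) (T.h (P (nat_lit 0)) (T.h (T.h (M (nat_lit 170459976830579376127)) (T.h (P (nat_lit 0)) (P (nat_lit 50467503897696)))) (T.h (P (nat_lit 0)) (P (nat_lit 29642179435440))))))) (T.h (T.h (T.h (P (nat_lit 0)) (T.h (M (nat_lit 43623809268111311372287)) (T.h (P (nat_lit 0)) (P (nat_lit 93063017328082944))))) (T.h (P (nat_lit 0)) (T.h (T.h (P (nat_lit 0)) (M (nat_lit 7091974289948671))) (P (nat_lit 0))))) (T.h (T.h (P (nat_lit 0)) (T.h (T.h (P (nat_lit 44316201049126862848))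 (T.h (P (nat_lit 0)) (P (nat_lit 29858777633616)))) (T.h (P (nat_lit 0)) (M (nat_lit 28011356159807))))) (T.h (T.h (T.h (P (nat_lit 0)) (M (nat_lit 56962648596381695))) (P (nat_lit 0))) (T.h (T.h (P (nat_lit 0)) (P (nat_lit 58490233436160))) (P (nat_lit 0)))))))), (T.h (T.h (T.h (M (nat_lit 6285820754976504651461657886719)) (T.h (P (nat_lit 0)) (T.h (P (nat_lit 52228017167611283004981248)) (T.h (P (nat_lit 0)) (P (nat_lit 100247002912212910080)))))) (T.h (P (nat_lit 0)) (T.h (T.h (P (nat_lit 67382311549751743597248512)) (T.h (P (nat_lit 0)) (M (nat_lit 68774780439803985919)))) (T.h (P (nat_lit 0)) (P (nat_lit 87224953071082668032)))))) (T.h (T.h (P (nat_lit 0)) (T.h (T.h (P (nat_lit 0)) (T.h (P (nat_lit 154266114327546108575744)) (T.h (P (nat_lit 0)) (M (nat_lit 104955585349091327))))) (T.h (P (nat_lit 0)) (T.h (T.h (P (nat_lit 0)) (M (nat_lit 78797795876012031))) (P (nat_lit 0)))))) (T.h (T.h (T.h (P (nat_lit 52228017167611283004981248)) (T.h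 (P (nat_lit 0)) (P (nat_lit 5689904858220462080)))) (T.h (P (nat_lit 0)) (M (nat_lit 68774780439803985919)))) (T.h (T.h (P (nat_lit 0)) (T.h (T.h (P (nat_lit 0)) (M (nat_lit 104955585349091327))) (P (nat_lit 0)))) (P (nat_lit 100247002912212910080)))))), (T.h (T.h (P (nat_lit 0)) (T.h (T.h (P (nat_lit 5868077265898543568226615296)) (T.h (P (nat_lit 0)) (T.h (M (nat_lit 26700015962339074375679)) (T.h (P (nat_lit 0)) (M (nat_lit 25377768435810303)))))) (T.h (P (nat_lit 0)) (T.h (T.h (M (nat_lit 17960240460068412194815)) (T.h (P (nat_lit 0)) (M (nat_lit 22572802849243135)))) (T.h (P (nat_lit 0)) (M (nat_lit 6184202340007935))))))) (T.h (T.h (T.h (P (nat_lit 0)) (T.h (P (nat_lit 13739223594421542558105600)) (T.h (P (nat_lit 0)) (T.h (P (nat_lit 15287187009160871936)) (T.h (P (nat_lit 0)) (P (nat_lit 3021184331912))))))) (T.h (P (nat_lit 0)) (T.h (T.h (P (nat_lit 0)) (T.h (P (nat_lit 23470598196360642560)) (T.h (P (nat_lit 0)) (P (nat_lit 15453759794080)))))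 (T.h (P (nat_lit 0)) (T.h (T.h (P (nat_lit 0)) (P (nat_lit 14476686885368))) (P (nat_lit 0))))))) (T.h (T.h (P (nat_lit 0)) (T.h (T.h (M (nat_lit 30977542478894093828095)) (T.h (P (nat_lit 0)) (M (nat_lit 66931479672619007)))) (T.h (P (nat_lit 0)) (P (nat_lit 83312061680222208))))) (T.h (T.h (T.h (P (nat_lit 0)) (T.h (P (nat_lit 7385027208714125312)) (T.h (P (nat_lit 0)) (M (nat_lit 5730851703471))))) (T.h (P (nat_lit 0)) (T.h (T.h (P (nat_lit 0)) (M (nat_lit 14844636919919))) (P (nat_lit 0))))) (T.h (T.h (P (nat_lit 0)) (P (nat_lit 2865318050037760))) (T.h (T.h (T.h (P (nat_lit 0)) (P (nat_lit 9003225838696))) (P (nat_lit 0))) (P (nat_lit 0)))))))), (T.h (T.h (P (nat_lit 0)) (T.h (T.h (P (nat_lit 0)) (T.h (P (nat_lit 6361063573136040009924608)) (T.h (P (nat_lit 0)) (T.h (M (nat_lit 3114357112931614719)) (T.h (P (nat_lit 0)) (M (nat_lit 10914695388015))))))) (T.h (P (nat_lit 0)) (T.h (T.h (P (nat_lit 0)) (T.h (P (nat_lit 32547474825401073664))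 (T.h (P (nat_lit 0)) (M (nat_lit 12260400160623))))) (T.h (P (nat_lit 0)) (T.h (T.h (P (nat_lit 0)) (M (nat_lit 1102750372303))) (P (nat_lit 0)))))))) (T.h (T.h (T.h (M (nat_lit 16519899788560389826718728191)) (T.h (P (nat_lit 0)) (T.h (M (nat_lit 48331781321057967800319)) (T.h (P (nat_lit 0)) (P (nat_lit 22614995997048832)))))) (T.h (P (nat_lit 0)) (T.h (T.h (M (nat_lit 20726215518357509111807)) (T.h (P (nat_lit 0)) (P (nat_lit 67211279446638592)))) (T.h (P (nat_lit 0)) (P (nat_lit 53376662237773824)))))) (T.h (T.h (P (nat_lit 0)) (T.h (T.h (P (nat_lit 0)) (T.h (P (nat_lit 36912781505249411072)) (T.h (P (nat_lit 0)) (M (nat_lit 27622295623215))))) (T.h (P (nat_lit 0)) (T.h (T.h (P (nat_lit 0)) (M (nat_lit 18575295500271))) (P (nat_lit 0)))))) (T.h (T.h (T.h (M (nat_lit 38815681408239742746623)) (T.h (P (nat_lit 0)) (M (nat_lit 14595071553503231)))) (T.h (P (nat_lit 0)) (P (nat_lit 24872236208455680)))) (T.h (T.h (P (nat_lit 0)) (T.h (T.h (P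 (nat_lit 0)) (M (nat_lit 94064231272143))) (P (nat_lit 0)))) (M (nat_lit 14922245059133439))))))), (T.h (T.h (P (nat_lit 0)) (T.h (T.h (P (nat_lit 18529432507910414292886749184)) (T.h (P (nat_lit 0)) (T.h (M (nat_lit 15669734238933647097855)) (T.h (P (nat_lit 0)) (P (nat_lit 7531921577934848)))))) (T.h (P (nat_lit 0)) (T.h (T.h (M (nat_lit 23497555097726815830015)) (T.h (P (nat_lit 0)) (P (nat_lit 6429248133234688)))) (T.h (P (nat_lit 0)) (M (nat_lit 15087081316876287))))))) (T.h (T.h (T.h (P (nat_lit 0)) (T.h (P (nat_lit 15634930968812011095326720)) (T.h (P (nat_lit 0)) (T.h (M (nat_lit 64727913200095330303)) (T.h (P (nat_lit 0)) (P (nat_lit 10661404066896))))))) (T.h (P (nat_lit 0)) (T.h (T.h (P (nat_lit 0)) (T.h (P (nat_lit 204070318076118171648)) (T.h (P (nat_lit 0)) (P (nat_lit 20437287337344))))) (T.h (P (nat_lit 0)) (T.h (T.h (P (nat_lit 0)) (P (nat_lit 3168478249392))) (P (nat_lit 0))))))) (T.h (T.h (P (nat_lit 0)) (T.h (T.h (M (nat_lit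 43982881278496188923903)) (T.h (P (nat_lit 0)) (P (nat_lit 43462957736230912)))) (T.h (P (nat_lit 0)) (M (nat_lit 21776831697780735))))) (T.h (T.h (T.h (P (nat_lit 0)) (T.h (M (nat_lit 40455026207279284223)) (T.h (P (nat_lit 0)) (P (nat_lit 2312718109872))))) (T.h (P (nat_lit 0)) (T.h (T.h (P (nat_lit 0)) (P (nat_lit 42283604431488))) (P (nat_lit 0))))) (T.h (T.h (P (nat_lit 0)) (M (nat_lit 16801593346162687))) (T.h (T.h (T.h (P (nat_lit 0)) (M (nat_lit 17687626344095))) (P (nat_lit 0))) (P (nat_lit 0))))))))]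
def lP22_26 : List (T ℤ) := [(T.h (T.h (P (nat_lit 0)) (T.h (T.h (P (nat_lit 0)) (T.h (P (nat_lit 19367672092064425713860608)) (T.h (P (nat_lit 0)) (P (nat_lit 68919699635825541120))))) (T.h (P (nat_lit 0)) (T.h (T.h (P (nat_lit 0)) (P (nat_lit 72063663062135078912))) (P (nat_lit 0)))))) (T.h (T.h (T.h (P (nat_lit 11238980698650938542005420032)) (T.h (P (nat_lit 0)) (T.h (P (nat_lit 43591358222280624701440)) (T.h (P (nat_lit 0)) (M (nat_lit 34572894901452799)))))) (T.h (P (nat_lit 0)) (T.h (T.h (M (nat_lit 16836983933660345401343)) (T.h (P (nat_lit 0)) (M (nat_lit 126441140809465855)))) (T.h (P (nat_lit 0)) (M (nat_lit 55731942695206911)))))) (T.h (T.h (P (nat_lit 0)) (T.h (T.h (P (nat_lit 0)) (P (nat_lit 46620149615710699520))) (P (nat_lit 0)))) (T.h (T.h (T.h (M (nat_lit 53788279463736556650495)) (T.h (P (nat_lit 0)) (M (nat_lit 6342112259833855)))) (T.h (P (nat_lit 0)) (M (nat_lit 7570336880918527)))) (T.h (P (nat_lit 0)) (M (nat_lit 34664899391881215))))))),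 (T.h (T.h (T.h (P (nat_lit 8547243003319011634805544583168)) (T.h (P (nat_lit 0)) (T.h (M (nat_lit 15586726180167793191682047)) (T.h (P (nat_lit 0)) (T.h (M (nat_lit 25082296066384068607)) (T.h (P (nat_lit 0)) (M (nat_lit 1807611555343)))))))) (T.h (P (nat_lit 0)) (T.h (T.h (M (nat_lit 10074423422740968400486399)) (T.h (P (nat_lit 0)) (T.h (P (nat_lit 14865489118221041664)) (T.h (P (nat_lit 0)) (M (nat_lit 8671366263727)))))) (T.h (P (nat_lit 0)) (T.h (T.h (P (nat_lit 2900983089347952640)) (T.h (P (nat_lit 0)) (M (nat_lit 16452623026111)))) (T.h (P (nat_lit 0)) (M (nat_lit 8507132336751)))))))) (T.h (T.h (P (nat_lit 0)) (T.h (T.h (P (nat_lit 0)) (T.h (M (nat_lit 5544913477966684487679)) (T.h (P (nat_lit 0)) (P (nat_lit 107443297016119296))))) (T.h (P (nat_lit 0)) (T.h (T.h (P (nat_lit 0)) (M (nat_lit 51337459934527487))) (P (nat_lit 0)))))) (T.h (T.h (T.h (P (nat_lit 14510347300884980999127040)) (T.h (P (nat_lit 0)) (T.h (P (nat_lit 35663318068957806592))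 (T.h (P (nat_lit 0)) (M (nat_lit 6732252487071)))))) (T.h (P (nat_lit 0)) (T.h (T.h (M (nat_lit 56693657735398424575)) (T.h (P (nat_lit 0)) (P (nat_lit 14277571269584)))) (T.h (P (nat_lit 0)) (P (nat_lit 37577714858544)))))) (T.h (T.h (P (nat_lit 0)) (T.h (T.h (P (nat_lit 0)) (P (nat_lit 788703454953472))) (P (nat_lit 0)))) (T.h (T.h (T.h (P (nat_lit 35610800256633012224)) (T.h (P (nat_lit 0)) (P (nat_lit 15366368407824)))) (T.h (P (nat_lit 0)) (P (nat_lit 29692863900784)))) (T.h (P (nat_lit 0)) (M (nat_lit 4773610931599)))))))), (T.h (T.h (T.h (P (nat_lit 0)) (T.h (M (nat_lit 25920019054726368708448485375)) (T.h (P (nat_lit 0)) (T.h (M (nat_lit 32169525483728206299135)) (T.h (P (nat_lit 0)) (M (nat_lit 18888208648962047))))))) (T.h (P (nat_lit 0)) (T.h (T.h (P (nat_lit 0)) (T.h (M (nat_lit 11270670670228105461759)) (T.h (P (nat_lit 0)) (P (nat_lit 46994885653495808))))) (T.h (P (nat_lit 0)) (T.h (T.h (P (nat_lit 0)) (M (nat_lit 58695919728099327)))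 (P (nat_lit 0))))))) (T.h (T.h (P (nat_lit 0)) (T.h (T.h (P (nat_lit 38096627589110099462848512)) (T.h (P (nat_lit 0)) (T.h (M (nat_lit 285020327601149837311)) (T.h (P (nat_lit 0)) (P (nat_lit 3622862751840)))))) (T.h (P (nat_lit 0)) (T.h (T.h (P (nat_lit 106594337060644978688)) (T.h (P (nat_lit 0)) (M (nat_lit 5451005508863)))) (T.h (P (nat_lit 0)) (P (nat_lit 56011950313632))))))) (T.h (T.h (T.h (P (nat_lit 0)) (T.h (M (nat_lit 27787483063106125430783)) (T.h (P (nat_lit 0)) (P (nat_lit 57081713356472320))))) (T.h (P (nat_lit 0)) (T.h (T.h (P (nat_lit 0)) (M (nat_lit 29192182078373887))) (P (nat_lit 0))))) (T.h (T.h (P (nat_lit 0)) (T.h (T.h (M (nat_lit 108181840819061260287)) (T.h (P (nat_lit 0)) (P (nat_lit 15157720755216)))) (T.h (P (nat_lit 0)) (M (nat_lit 28889076865151))))) (T.h (T.h (T.h (P (nat_lit 0)) (P (nat_lit 67809720250138624))) (P (nat_lit 0))) (T.h (T.h (P (nat_lit 0)) (P (nat_lit 27163896312912))) (P (nat_lit 0)))))))), (T.h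 (T.h (T.h (M (nat_lit 2158715027469926782626691022847)) (T.h (P (nat_lit 0)) (T.h (P (nat_lit 33337618639729065522626560)) (T.h (P (nat_lit 0)) (P (nat_lit 47976782058848518144)))))) (T.h (P (nat_lit 0)) (T.h (T.h (P (nat_lit 3305967084846956888981504)) (T.h (P (nat_lit 0)) (P (nat_lit 24234172217068355584)))) (T.h (P (nat_lit 0)) (P (nat_lit 41067633087189352448)))))) (T.h (T.h (P (nat_lit 0)) (T.h (T.h (P (nat_lit 0)) (T.h (P (nat_lit 71991074787313208786944)) (T.h (P (nat_lit 0)) (M (nat_lit 19092983665393663))))) (T.h (P (nat_lit 0)) (T.h (T.h (P (nat_lit 0)) (M (nat_lit 1644384781697023))) (P (nat_lit 0)))))) (T.h (T.h (T.h (P (nat_lit 18460261466987417481248768)) (T.h (P (nat_lit 0)) (M (nat_lit 50230513080956092415)))) (T.h (P (nat_lit 0)) (M (nat_lit 8048539277899857919)))) (T.h (T.h (P (nat_lit 0)) (T.h (T.h (P (nat_lit 0)) (P (nat_lit 24513404691382272))) (P (nat_lit 0)))) (P (nat_lit 28045583246059110400)))))), (T.h (T.h (P (nat_lit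 0)) (T.h (T.h (P (nat_lit 5075728687560414900525203456)) (T.h (P (nat_lit 0)) (T.h (P (nat_lit 19474584951922158993408)) (T.h (P (nat_lit 0)) (M (nat_lit 17724020956954623)))))) (T.h (P (nat_lit 0)) (T.h (T.h (M (nat_lit 4975638722445056147455)) (T.h (P (nat_lit 0)) (P (nat_lit 4315555809820672)))) (T.h (P (nat_lit 0)) (P (nat_lit 15728383238602752))))))) (T.h (T.h (T.h (P (nat_lit 0)) (T.h (M (nat_lit 15188638981517575697989631)) (T.h (P (nat_lit 0)) (T.h (M (nat_lit 27117710602233970687)) (T.h (P (nat_lit 0)) (M (nat_lit 10644566670095))))))) (T.h (P (nat_lit 0)) (T.h (T.h (P (nat_lit 0)) (T.h (P (nat_lit 3965753984890699776)) (T.h (P (nat_lit 0)) (P (nat_lit 9557671096032))))) (T.h (P (nat_lit 0)) (T.h (T.h (P (nat_lit 0)) (M (nat_lit 3300786166367))) (P (nat_lit 0))))))) (T.h (T.h (P (nat_lit 0)) (T.h (T.h (P (nat_lit 30406151196474345521152)) (T.h (P (nat_lit 0)) (M (nat_lit 24912020807942143)))) (T.h (P (nat_lit 0)) (M (nat_lit 43971231570493439)))))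 (T.h (T.h (T.h (P (nat_lit 0)) (T.h (P (nat_lit 12216619188252311552)) (T.h (P (nat_lit 0)) (P (nat_lit 14947988241648))))) (T.h (P (nat_lit 0)) (T.h (T.h (P (nat_lit 0)) (P (nat_lit 253154553840))) (P (nat_lit 0))))) (T.h (T.h (P (nat_lit 0)) (P (nat_lit 31295638072459264))) (T.h (T.h (T.h (P (nat_lit 0)) (M (nat_lit 4836003780143))) (P (nat_lit 0))) (P (nat_lit 0)))))))), (T.h (T.h (P (nat_lit 0)) (T.h (T.h (P (nat_lit 0)) (T.h (M (nat_lit 34949159902444343565221887)) (T.h (P (nat_lit 0)) (M (nat_lit 18668642047161794559))))) (T.h (P (nat_lit 0)) (T.h (T.h (P (nat_lit 0)) (P (nat_lit 130808218232064835584))) (P (nat_lit 0)))))) (T.h (T.h (T.h (P (nat_lit 3133521640352018543595749376)) (T.h (P (nat_lit 0)) (T.h (P (nat_lit 10530773426254924218368)) (T.h (P (nat_lit 0)) (P (nat_lit 25399662819524608)))))) (T.h (P (nat_lit 0)) (T.h (T.h (M (nat_lit 3848273589639705526271)) (T.h (P (nat_lit 0)) (M (nat_lit 48253519760162815)))) (T.h (P (nat_lit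 0)) (M (nat_lit 107296303587655679)))))) (T.h (T.h (P (nat_lit 0)) (T.h (T.h (P (nat_lit 0)) (M (nat_lit 64795198108966322175))) (P (nat_lit 0)))) (T.h (T.h (T.h (P (nat_lit 6131544820029419683840)) (T.h (P (nat_lit 0)) (M (nat_lit 3541496266850303)))) (T.h (P (nat_lit 0)) (P (nat_lit 24755005882941440)))) (T.h (P (nat_lit 0)) (P (nat_lit 3746641894768640))))))), (T.h (T.h (T.h (M (nat_lit 848019981192476839092825358335)) (T.h (P (nat_lit 0)) (T.h (P (nat_lit 10653213847725133906575360)) (T.h (P (nat_lit 0)) (P (nat_lit 11113978180799561728)))))) (T.h (P (nat_lit 0)) (T.h (T.h (P (nat_lit 3438041479358372487626752)) (T.h (P (nat_lit 0)) (M (nat_lit 3300389089831813119)))) (T.h (P (nat_lit 0)) (M (nat_lit 3512947433225060351)))))) (T.h (T.h (P (nat_lit 0)) (T.h (T.h (P (nat_lit 0)) (T.h (P (nat_lit 41729021910207325798400)) (T.h (P (nat_lit 0)) (M (nat_lit 8839026266406911))))) (T.h (P (nat_lit 0)) (T.h (T.h (P (nat_lit 0)) (M (nat_lit 4819333066915839)))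 (P (nat_lit 0)))))) (T.h (T.h (T.h (M (nat_lit 6614624667399100999663615)) (T.h (P (nat_lit 0)) (P (nat_lit 3947790254513061888)))) (T.h (P (nat_lit 0)) (M (nat_lit 19910758226580209663)))) (T.h (T.h (P (nat_lit 0)) (T.h (T.h (P (nat_lit 0)) (P (nat_lit 5405502678335488))) (P (nat_lit 0)))) (M (nat_lit 30926891337990012927)))))), (P (nat_lit 0))]
def lP22_27 : List (T ℤ) := [(T.h (T.h (P (nat_lit 0)) (T.h (T.h (P (nat_lit 382278186225956246805020672)) (T.h (P (nat_lit 0)) (T.h (P (nat_lit 4917025952193526628352)) (T.h (P (nat_lit 0)) (P (nat_lit 566836548272128)))))) (T.h (P (nat_lit 0)) (T.h (T.h (M (nat_lit 2314989451720488124415)) (T.h (P (nat_lit 0)) (P (nat_lit 13535529003122688)))) (T.h (P (nat_lit 0)) (M (nat_lit 1940894262886399))))))) (T.h (T.h (T.h (P (nat_lit 0)) (T.h (P (nat_lit 8967851728135020949274624)) (T.h (P (nat_lit 0)) (T.h (M (nat_lit 1632295132411723775)) (T.h (P (nat_lit 0)) (M (nat_lit 1262651453183))))))) (T.h (P (nat_lit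 0)) (T.h (T.h (P (nat_lit 0)) (T.h (P (nat_lit 21437333873006477312)) (T.h (P (nat_lit 0)) (P (nat_lit 7808644584816))))) (T.h (P (nat_lit 0)) (T.h (T.h (P (nat_lit 0)) (P (nat_lit 9389964963200))) (P (nat_lit 0))))))) (T.h (T.h (P (nat_lit 0)) (T.h (T.h (M (nat_lit 6393028105238678077439)) (T.h (P (nat_lit 0)) (P (nat_lit 17704818290655232)))) (T.h (P (nat_lit 0)) (M (nat_lit 20917731012706303))))) (T.h (T.h (T.h (P (nat_lit 0)) (T.h (P (nat_lit 5808715515924840448)) (T.h (P (nat_lit 0)) (M (nat_lit 1954457784095))))) (T.h (P (nat_lit 0)) (T.h (T.h (P (nat_lit 0)) (M (nat_lit 14649144822207))) (P (nat_lit 0))))) (T.h (T.h (P (nat_lit 0)) (P (nat_lit 10182874572193792))) (T.h (T.h (T.h (P (nat_lit 0)) (M (nat_lit 6298334266991))) (P (nat_lit 0))) (P (nat_lit 0)))))))), (T.h (T.h (P (nat_lit 0)) (T.h (T.h (P (nat_lit 0)) (T.h (P (nat_lit 14270375171105064046559232)) (T.h (P (nat_lit 0)) (T.h (M (nat_lit 12859201740003606527)) (T.h (P (nat_lit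 0)) (M (nat_lit 1040245586055))))))) (T.h (P (nat_lit 0)) (T.h (T.h (P (nat_lit 0)) (T.h (P (nat_lit 56438257722171850752)) (T.h (P (nat_lit 0)) (M (nat_lit 28617561087343))))) (T.h (P (nat_lit 0)) (T.h (T.h (P (nat_lit 0)) (P (nat_lit 17156564310232))) (P (nat_lit 0)))))))) (T.h (T.h (T.h (M (nat_lit 9310831352475421986221195263)) (T.h (P (nat_lit 0)) (T.h (M (nat_lit 20498207068890175897599)) (T.h (P (nat_lit 0)) (M (nat_lit 55359734370959359)))))) (T.h (P (nat_lit 0)) (T.h (T.h (M (nat_lit 7423397857446391185407)) (T.h (P (nat_lit 0)) (P (nat_lit 138756879406301184)))) (T.h (P (nat_lit 0)) (P (nat_lit 74553129266184192)))))) (T.h (T.h (P (nat_lit 0)) (T.h (T.h (P (nat_lit 0)) (T.h (M (nat_lit 14739896929555054591)) (T.h (P (nat_lit 0)) (M (nat_lit 2126431661767))))) (T.h (P (nat_lit 0)) (T.h (T.h (P (nat_lit 0)) (M (nat_lit 35792275403143))) (P (nat_lit 0)))))) (T.h (T.h (T.h (P (nat_lit 36551132823750885507072)) (T.h (P (nat_lit 0)) (P (nat_lit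 21931738815692800)))) (T.h (P (nat_lit 0)) (P (nat_lit 36281672255471616)))) (T.h (T.h (P (nat_lit 0)) (T.h (T.h (P (nat_lit 0)) (P (nat_lit 6236726231368))) (P (nat_lit 0)))) (M (nat_lit 37352433613930495))))))), (T.h (T.h (P (nat_lit 0)) (T.h (T.h (P (nat_lit 17732048480337310963034226688)) (T.h (P (nat_lit 0)) (T.h (M (nat_lit 28868292221294516109311)) (T.h (P (nat_lit 0)) (M (nat_lit 62033274398932991)))))) (T.h (P (nat_lit 0)) (T.h (T.h (P (nat_lit 68690807335618479128576)) (T.h (P (nat_lit 0)) (M (nat_lit 20002742489366527)))) (T.h (P (nat_lit 0)) (P (nat_lit 18295635521830912))))))) (T.h (T.h (T.h (P (nat_lit 0)) (T.h (M (nat_lit 29702241433547724283707391)) (T.h (P (nat_lit 0)) (T.h (M (nat_lit 10464800313708642303)) (T.h (P (nat_lit 0)) (P (nat_lit 17378022920608))))))) (T.h (P (nat_lit 0)) (T.h (T.h (P (nat_lit 0)) (T.h (P (nat_lit 30108199896007835648)) (T.h (P (nat_lit 0)) (M (nat_lit 19697368432335))))) (T.h (P (nat_lit 0)) (T.h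 (T.h (P (nat_lit 0)) (M (nat_lit 34828772718095))) (P (nat_lit 0))))))) (T.h (T.h (P (nat_lit 0)) (T.h (T.h (M (nat_lit 56951589904568897503231)) (T.h (P (nat_lit 0)) (M (nat_lit 112301889646100479)))) (T.h (P (nat_lit 0)) (P (nat_lit 26626813672521728))))) (T.h (T.h (T.h (P (nat_lit 0)) (T.h (M (nat_lit 48523615630004322303)) (T.h (P (nat_lit 0)) (P (nat_lit 48075729287152))))) (T.h (P (nat_lit 0)) (T.h (T.h (P (nat_lit 0)) (P (nat_lit 3518744938464))) (P (nat_lit 0))))) (T.h (T.h (P (nat_lit 0)) (M (nat_lit 49142619981643775))) (T.h (T.h (T.h (P (nat_lit 0)) (P (nat_lit 26198108211744))) (P (nat_lit 0))) (P (nat_lit 0)))))))), (T.h (T.h (P (nat_lit 0)) (T.h (T.h (P (nat_lit 0)) (T.h (M (nat_lit 26784771438189274078380031)) (T.h (P (nat_lit 0)) (T.h (P (nat_lit 34039728992491143168)) (T.h (P (nat_lit 0)) (M (nat_lit 25001913246767))))))) (T.h (P (nat_lit 0)) (T.h (T.h (P (nat_lit 0)) (T.h (M (nat_lit 29567487790811185151)) (T.h (P (nat_lit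 0)) (P (nat_lit 16382985646176))))) (T.h (P (nat_lit 0)) (T.h (T.h (P (nat_lit 0)) (M (nat_lit 2461445725727))) (P (nat_lit 0)))))))) (T.h (T.h (T.h (P (nat_lit 8892000472475436383295504384)) (T.h (P (nat_lit 0)) (T.h (P (nat_lit 18776408515861362507776)) (T.h (P (nat_lit 0)) (P (nat_lit 12760773594578944)))))) (T.h (P (nat_lit 0)) (T.h (T.h (P (nat_lit 36157989310871717806080)) (T.h (P (nat_lit 0)) (M (nat_lit 3549270860136447)))) (T.h (P (nat_lit 0)) (M (nat_lit 11925370510737407)))))) (T.h (T.h (P (nat_lit 0)) (T.h (T.h (P (nat_lit 0)) (T.h (P (nat_lit 94840969493001273344)) (T.h (P (nat_lit 0)) (P (nat_lit 7226975842848))))) (T.h (P (nat_lit 0)) (T.h (T.h (P (nat_lit 0)) (M (nat_lit 5314824709103))) (P (nat_lit 0)))))) (T.h (T.h (T.h (P (nat_lit 16456097033687519985664)) (T.h (P (nat_lit 0)) (M (nat_lit 111816194942861311)))) (T.h (P (nat_lit 0)) (M (nat_lit 35323327731531775)))) (T.h (T.h (P (nat_lit 0)) (T.h (T.h (P (nat_lit 0)) (M (nat_lit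 53598465338255))) (P (nat_lit 0)))) (P (nat_lit 24149417068855296))))))), (T.h (T.h (P (nat_lit 0)) (T.h (T.h (M (nat_lit 12199417097346608992895369215)) (T.h (P (nat_lit 0)) (T.h (P (nat_lit 38471625270650361348096)) (T.h (P (nat_lit 0)) (P (nat_lit 60964874776608768)))))) (T.h (P (nat_lit 0)) (T.h (T.h (M (nat_lit 35814475873255231062015)) (T.h (P (nat_lit 0)) (M (nat_lit 14962050467643391)))) (T.h (P (nat_lit 0)) (P (nat_lit 1680346948763648))))))) (T.h (T.h (T.h (P (nat_lit 0)) (T.h (P (nat_lit 37143706534930741018492928)) (T.h (P (nat_lit 0)) (M (nat_lit 112091703419974189055))))) (T.h (P (nat_lit 0)) (T.h (T.h (P (nat_lit 0)) (P (nat_lit 5637590811559329792))) (P (nat_lit 0))))) (T.h (T.h (P (nat_lit 0)) (T.h (T.h (P (nat_lit 38471625270650361348096)) (T.h (P (nat_lit 0)) (M (nat_lit 14800846526152703)))) (T.h (P (nat_lit 0)) (M (nat_lit 14962050467643391))))) (T.h (T.h (T.h (P (nat_lit 0)) (M (nat_lit 112091703419974189055))) (P (nat_lit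 0))) (T.h (T.h (P (nat_lit 0)) (P (nat_lit 60964874776608768))) (P (nat_lit 0))))))), (T.h (T.h (T.h (P (nat_lit 0)) (T.h (P (nat_lit 382278186225956246805020672)) (T.h (P (nat_lit 0)) (T.h (M (nat_lit 2314989451720488124415)) (T.h (P (nat_lit 0)) (M (nat_lit 1940894262886399))))))) (T.h (P (nat_lit 0)) (T.h (T.h (P (nat_lit 0)) (T.h (P (nat_lit 4917025952193526628352)) (T.h (P (nat_lit 0)) (P (nat_lit 13535529003122688))))) (T.h (P (nat_lit 0)) (T.h (T.h (P (nat_lit 0)) (P (nat_lit 566836548272128))) (P (nat_lit 0))))))) (T.h (T.h (P (nat_lit 0)) (T.h (T.h (P (nat_lit 8967851728135020949274624)) (T.h (P (nat_lit 0)) (T.h (P (nat_lit 21437333873006477312)) (T.h (P (nat_lit 0)) (P (nat_lit 9389964963200)))))) (T.h (P (nat_lit 0)) (T.h (T.h (M (nat_lit 1632295132411723775)) (T.h (P (nat_lit 0)) (P (nat_lit 7808644584816)))) (T.h (P (nat_lit 0)) (M (nat_lit 1262651453183))))))) (T.h (T.h (T.h (P (nat_lit 0)) (T.h (M (nat_lit 6393028105238678077439))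 (T.h (P (nat_lit 0)) (M (nat_lit 20917731012706303))))) (T.h (P (nat_lit 0)) (T.h (T.h (P (nat_lit 0)) (P (nat_lit 17704818290655232))) (P (nat_lit 0))))) (T.h (T.h (P (nat_lit 0)) (T.h (T.h (P (nat_lit 5808715515924840448)) (T.h (P (nat_lit 0)) (M (nat_lit 14649144822207)))) (T.h (P (nat_lit 0)) (M (nat_lit 1954457784095))))) (T.h (T.h (T.h (P (nat_lit 0)) (P (nat_lit 10182874572193792))) (P (nat_lit 0))) (T.h (T.h (P (nat_lit 0)) (M (nat_lit 6298334266991))) (P (nat_lit 0)))))))), (T.h (T.h (T.h (P (nat_lit 494982663140877495206020120576)) (T.h (P (nat_lit 0)) (T.h (P (nat_lit 760361372243217967218688)) (T.h (P (nat_lit 0)) (T.h (M (nat_lit 13636708470739697663)) (T.h (P (nat_lit 0)) (M (nat_lit 3074782164335)))))))) (T.h (P (nat_lit 0)) (T.h (T.h (M (nat_lit 5927007742180180497530879)) (T.h (P (nat_lit 0)) (T.h (M (nat_lit 112212653982051467263)) (T.h (P (nat_lit 0)) (P (nat_lit 39561229117904)))))) (T.h (P (nat_lit 0)) (T.h (T.h (P (nat_lit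 488089392322183168)) (T.h (P (nat_lit 0)) (M (nat_lit 14683309859823)))) (T.h (P (nat_lit 0)) (P (nat_lit 13335407769360)))))))) (T.h (T.h (P (nat_lit 0)) (T.h (T.h (P (nat_lit 0)) (T.h (M (nat_lit 117186064638130949980159)) (T.h (P (nat_lit 0)) (M (nat_lit 163372375841832959))))) (T.h (P (nat_lit 0)) (T.h (T.h (P (nat_lit 0)) (M (nat_lit 77125257283698687))) (P (nat_lit 0)))))) (T.h (T.h (T.h (M (nat_lit 43459846080287011753689087)) (T.h (P (nat_lit 0)) (T.h (P (nat_lit 148896973107979354112)) (T.h (P (nat_lit 0)) (P (nat_lit 8624894673472)))))) (T.h (P (nat_lit 0)) (T.h (T.h (P (nat_lit 73088794801821712384)) (T.h (P (nat_lit 0)) (M (nat_lit 51520465666783)))) (T.h (P (nat_lit 0)) (M (nat_lit 7364327931871)))))) (T.h (T.h (P (nat_lit 0)) (T.h (T.h (P (nat_lit 0)) (P (nat_lit 78523625526591488))) (P (nat_lit 0)))) (T.h (T.h (T.h (P (nat_lit 3322443915608457216)) (T.h (P (nat_lit 0)) (P (nat_lit 12683593540336)))) (T.h (P (nat_lit 0)) (M (nat_lit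 39242601906815)))) (T.h (P (nat_lit 0)) (M (nat_lit 10575507628479)))))))), (T.h (T.h (T.h (P (nat_lit 0)) (T.h (M (nat_lit 17352354535382128834734194687)) (T.h (P (nat_lit 0)) (T.h (M (nat_lit 36234473777591973052415)) (T.h (P (nat_lit 0)) (M (nat_lit 11100554411098111))))))) (T.h (P (nat_lit 0)) (T.h (T.h (P (nat_lit 0)) (T.h (M (nat_lit 52379413170725524078591)) (T.h (P (nat_lit 0)) (M (nat_lit 39686842768982015))))) (T.h (P (nat_lit 0)) (T.h (T.h (P (nat_lit 0)) (P (nat_lit 15634455428202496))) (P (nat_lit 0))))))) (T.h (T.h (P (nat_lit 0)) (T.h (T.h (P (nat_lit 18160987799552731755053056)) (T.h (P (nat_lit 0)) (T.h (P (nat_lit 59833041670746669056)) (T.h (P (nat_lit 0)) (M (nat_lit 100686740992767)))))) (T.h (P (nat_lit 0)) (T.h (T.h (P (nat_lit 21878145842191269888)) (T.h (P (nat_lit 0)) (M (nat_lit 31703322412495)))) (T.h (P (nat_lit 0)) (M (nat_lit 7873739442575))))))) (T.h (T.h (T.h (P (nat_lit 0)) (T.h (M (nat_lit 52857145051299446783999))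 (T.h (P (nat_lit 0)) (P (nat_lit 46410021154865152))))) (T.h (P (nat_lit 0)) (T.h (T.h (P (nat_lit 0)) (P (nat_lit 67914685012082688))) (P (nat_lit 0))))) (T.h (T.h (P (nat_lit 0)) (T.h (T.h (P (nat_lit 19481162464228278272)) (T.h (P (nat_lit 0)) (P (nat_lit 559791081248)))) (T.h (P (nat_lit 0)) (M (nat_lit 7951665789535))))) (T.h (T.h (T.h (P (nat_lit 0)) (P (nat_lit 59286776086216704))) (P (nat_lit 0))) (T.h (T.h (P (nat_lit 0)) (P (nat_lit 10758290864272))) (P (nat_lit 0))))))))]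
def lP22_28 : List (T ℤ) := [(T.h (T.h (T.h (P (nat_lit 1846993693776953964714512089088)) (T.h (P (nat_lit 0)) (T.h (M (nat_lit 1853130850168265947217919)) (T.h (P (nat_lit 0)) (T.h (P (nat_lit 18308500933782274048)) (T.h (P (nat_lit 0)) (M (nat_lit 10011972156527)))))))) (T.h (P (nat_lit 0)) (T.h (T.h (P (nat_lit 9267779979138846188109824)) (T.h (P (nat_lit 0)) (T.h (P (nat_lit 44051830469361139712)) (T.h (P (nat_lit 0)) (M (nat_lit 19700315715743)))))) (T.h (P (nat_lit 0)) (T.h (T.h (P (nat_lit 21361495557233704960)) (T.h (P (nat_lit 0)) (M (nat_lit 9666919590191)))) (T.h (P (nat_lit 0)) (P (nat_lit 9036297227760)))))))) (T.h (T.h (P (nat_lit 0)) (T.h (T.h (P (nat_lit 0)) (T.h (M (nat_lit 44631435757538408136703)) (T.h (P (nat_lit 0)) (P (nat_lit 198213351397588992))))) (T.h (P (nat_lit 0)) (T.h (T.h (P (nat_lit 0)) (P (nat_lit 255711544494522368))) (P (nat_lit 0)))))) (T.h (T.h (T.h (P (nat_lit 39194054953230352210984960)) (T.h (P (nat_lit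 0)) (T.h (M (nat_lit 59348227073949827071)) (T.h (P (nat_lit 0)) (P (nat_lit 16715075086896)))))) (T.h (P (nat_lit 0)) (T.h (T.h (M (nat_lit 178655111953365598207)) (T.h (P (nat_lit 0)) (P (nat_lit 103953532457952)))) (T.h (P (nat_lit 0)) (P (nat_lit 6212043629760)))))) (T.h (T.h (P (nat_lit 0)) (T.h (T.h (P (nat_lit 0)) (M (nat_lit 1096605955063807))) (P (nat_lit 0)))) (T.h (T.h (T.h (P (nat_lit 3656082647739793408)) (T.h (P (nat_lit 0)) (P (nat_lit 32035500908496)))) (T.h (P (nat_lit 0)) (P (nat_lit 11499073325808)))) (T.h (P (nat_lit 0)) (P (nat_lit 9063088586880)))))))), (T.h (T.h (T.h (P (nat_lit 0)) (T.h (P (nat_lit 24515816103804542625737867264)) (T.h (P (nat_lit 0)) (T.h (M (nat_lit 2297477073452696338431)) (T.h (P (nat_lit 0)) (P (nat_lit 647816382939136))))))) (T.h (P (nat_lit 0)) (T.h (T.h (P (nat_lit 0)) (T.h (P (nat_lit 65839141578859037589504)) (T.h (P (nat_lit 0)) (P (nat_lit 6808094951456768))))) (T.h (P (nat_lit 0)) (T.h (T.h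 (P (nat_lit 0)) (P (nat_lit 8326943506890752))) (P (nat_lit 0))))))) (T.h (T.h (P (nat_lit 0)) (T.h (T.h (M (nat_lit 23584525151007839168233471)) (T.h (P (nat_lit 0)) (P (nat_lit 7835413807227731968)))) (T.h (P (nat_lit 0)) (M (nat_lit 61454915112997486591))))) (T.h (T.h (T.h (P (nat_lit 0)) (T.h (M (nat_lit 8968247592976562257919)) (T.h (P (nat_lit 0)) (P (nat_lit 33876372480163840))))) (T.h (P (nat_lit 0)) (T.h (T.h (P (nat_lit 0)) (M (nat_lit 75462907401437183))) (P (nat_lit 0))))) (T.h (T.h (P (nat_lit 0)) (P (nat_lit 91165908592538681344))) (T.h (T.h (T.h (P (nat_lit 0)) (M (nat_lit 145528070694043647))) (P (nat_lit 0))) (P (nat_lit 0))))))), (T.h (T.h (P (nat_lit 0)) (T.h (T.h (P (nat_lit 0)) (T.h (P (nat_lit 13739223594421542558105600)) (T.h (P (nat_lit 0)) (T.h (P (nat_lit 15287187009160871936)) (T.h (P (nat_lit 0)) (P (nat_lit 3021184331912))))))) (T.h (P (nat_lit 0)) (T.h (T.h (P (nat_lit 0)) (T.h (P (nat_lit 7385027208714125312))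 (T.h (P (nat_lit 0)) (M (nat_lit 5730851703471))))) (T.h (P (nat_lit 0)) (T.h (T.h (P (nat_lit 0)) (P (nat_lit 9003225838696))) (P (nat_lit 0)))))))) (T.h (T.h (T.h (P (nat_lit 5868077265898543568226615296)) (T.h (P (nat_lit 0)) (T.h (M (nat_lit 26700015962339074375679)) (T.h (P (nat_lit 0)) (M (nat_lit 25377768435810303)))))) (T.h (P (nat_lit 0)) (T.h (T.h (M (nat_lit 30977542478894093828095)) (T.h (P (nat_lit 0)) (M (nat_lit 66931479672619007)))) (T.h (P (nat_lit 0)) (P (nat_lit 2865318050037760)))))) (T.h (T.h (P (nat_lit 0)) (T.h (T.h (P (nat_lit 0)) (T.h (P (nat_lit 23470598196360642560)) (T.h (P (nat_lit 0)) (P (nat_lit 15453759794080))))) (T.h (P (nat_lit 0)) (T.h (T.h (P (nat_lit 0)) (M (nat_lit 14844636919919))) (P (nat_lit 0)))))) (T.h (T.h (T.h (M (nat_lit 17960240460068412194815)) (T.h (P (nat_lit 0)) (M (nat_lit 22572802849243135)))) (T.h (P (nat_lit 0)) (P (nat_lit 83312061680222208)))) (T.h (T.h (P (nat_lit 0)) (T.h (T.h (P (nat_lit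 0)) (P (nat_lit 14476686885368))) (P (nat_lit 0)))) (M (nat_lit 6184202340007935))))))), (T.h (T.h (P (nat_lit 0)) (T.h (T.h (M (nat_lit 16519899788560389826718728191)) (T.h (P (nat_lit 0)) (T.h (M (nat_lit 48331781321057967800319)) (T.h (P (nat_lit 0)) (P (nat_lit 22614995997048832)))))) (T.h (P (nat_lit 0)) (T.h (T.h (M (nat_lit 38815681408239742746623)) (T.h (P (nat_lit 0)) (M (nat_lit 14595071553503231)))) (T.h (P (nat_lit 0)) (M (nat_lit 14922245059133439))))))) (T.h (T.h (T.h (P (nat_lit 0)) (T.h (P (nat_lit 6361063573136040009924608)) (T.h (P (nat_lit 0)) (T.h (M (nat_lit 3114357112931614719)) (T.h (P (nat_lit 0)) (M (nat_lit 10914695388015))))))) (T.h (P (nat_lit 0)) (T.h (T.h (P (nat_lit 0)) (T.h (P (nat_lit 36912781505249411072)) (T.h (P (nat_lit 0)) (M (nat_lit 27622295623215))))) (T.h (P (nat_lit 0)) (T.h (T.h (P (nat_lit 0)) (M (nat_lit 94064231272143))) (P (nat_lit 0))))))) (T.h (T.h (P (nat_lit 0)) (T.h (T.h (M (nat_lit 20726215518357509111807))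 (T.h (P (nat_lit 0)) (P (nat_lit 67211279446638592)))) (T.h (P (nat_lit 0)) (P (nat_lit 24872236208455680))))) (T.h (T.h (T.h (P (nat_lit 0)) (T.h (P (nat_lit 32547474825401073664)) (T.h (P (nat_lit 0)) (M (nat_lit 12260400160623))))) (T.h (P (nat_lit 0)) (T.h (T.h (P (nat_lit 0)) (M (nat_lit 18575295500271))) (P (nat_lit 0))))) (T.h (T.h (P (nat_lit 0)) (P (nat_lit 53376662237773824))) (T.h (T.h (T.h (P (nat_lit 0)) (M (nat_lit 1102750372303))) (P (nat_lit 0))) (P (nat_lit 0)))))))), (T.h (T.h (P (nat_lit 0)) (T.h (T.h (P (nat_lit 0)) (T.h (P (nat_lit 12042424443966133777727488)) (T.h (P (nat_lit 0)) (T.h (M (nat_lit 89395846613752086527)) (T.h (P (nat_lit 0)) (M (nat_lit 8166283547567))))))) (T.h (P (nat_lit 0)) (T.h (T.h (P (nat_lit 0)) (T.h (M (nat_lit 50061516823265804287)) (T.h (P (nat_lit 0)) (P (nat_lit 15825708946992))))) (T.h (P (nat_lit 0)) (T.h (T.h (P (nat_lit 0)) (M (nat_lit 2357720657615))) (P (nat_lit 0)))))))) (T.h (T.h (T.h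 (P (nat_lit 19788889410555807710641651712)) (T.h (P (nat_lit 0)) (T.h (M (nat_lit 12878553645961046917119)) (T.h (P (nat_lit 0)) (M (nat_lit 15990749825236991)))))) (T.h (P (nat_lit 0)) (T.h (T.h (M (nat_lit 1946987401408860389375)) (T.h (P (nat_lit 0)) (M (nat_lit 2811813019516927)))) (T.h (P (nat_lit 0)) (P (nat_lit 33028909204176896)))))) (T.h (T.h (P (nat_lit 0)) (T.h (T.h (P (nat_lit 0)) (T.h (P (nat_lit 117160856552898297856)) (T.h (P (nat_lit 0)) (P (nat_lit 44867454238512))))) (T.h (P (nat_lit 0)) (T.h (T.h (P (nat_lit 0)) (P (nat_lit 35562937696320))) (P (nat_lit 0)))))) (T.h (T.h (T.h (M (nat_lit 49904929576304448110591)) (T.h (P (nat_lit 0)) (P (nat_lit 50383687484407808)))) (T.h (P (nat_lit 0)) (P (nat_lit 2096900104093696)))) (T.h (T.h (P (nat_lit 0)) (T.h (T.h (P (nat_lit 0)) (P (nat_lit 50165371254912))) (P (nat_lit 0)))) (M (nat_lit 7779731908526079))))))), (T.h (T.h (P (nat_lit 0)) (T.h (T.h (M (nat_lit 7009792124449566996540948479))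 (T.h (P (nat_lit 0)) (T.h (M (nat_lit 1186236504068564451327)) (T.h (P (nat_lit 0)) (P (nat_lit 7899487230705664)))))) (T.h (P (nat_lit 0)) (T.h (T.h (M (nat_lit 39227712750225020944383)) (T.h (P (nat_lit 0)) (M (nat_lit 20233199744991231)))) (T.h (P (nat_lit 0)) (M (nat_lit 27819431985283071))))))) (T.h (T.h (T.h (P (nat_lit 0)) (T.h (M (nat_lit 26946122561816422248349695)) (T.h (P (nat_lit 0)) (P (nat_lit 93037330654499438592))))) (T.h (P (nat_lit 0)) (T.h (T.h (P (nat_lit 0)) (M (nat_lit 90805660409449676799))) (P (nat_lit 0))))) (T.h (T.h (P (nat_lit 0)) (T.h (T.h (M (nat_lit 15565283519963194195967)) (T.h (P (nat_lit 0)) (M (nat_lit 147485272928354303)))) (T.h (P (nat_lit 0)) (P (nat_lit 8063302404800512))))) (T.h (T.h (T.h (P (nat_lit 0)) (P (nat_lit 242514190933726068736))) (P (nat_lit 0))) (T.h (T.h (P (nat_lit 0)) (M (nat_lit 124796479176474623))) (P (nat_lit 0))))))), (T.h (T.h (T.h (P (nat_lit 0)) (T.h (P (nat_lit 18564503227159049971049693184))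 (T.h (P (nat_lit 0)) (T.h (P (nat_lit 66109599704970709434368)) (T.h (P (nat_lit 0)) (P (nat_lit 14473944873795584))))))) (T.h (P (nat_lit 0)) (T.h (T.h (P (nat_lit 0)) (T.h (M (nat_lit 24820660371626959831039)) (T.h (P (nat_lit 0)) (P (nat_lit 5089028726112256))))) (T.h (P (nat_lit 0)) (T.h (T.h (P (nat_lit 0)) (M (nat_lit 55052733830086655))) (P (nat_lit 0))))))) (T.h (T.h (P (nat_lit 0)) (T.h (T.h (M (nat_lit 41502165659964416028835839)) (T.h (P (nat_lit 0)) (T.h (P (nat_lit 7187939730510577664)) (T.h (P (nat_lit 0)) (M (nat_lit 28206262997471)))))) (T.h (P (nat_lit 0)) (T.h (T.h (M (nat_lit 35457303268831526911)) (T.h (P (nat_lit 0)) (M (nat_lit 15616341643055)))) (T.h (P (nat_lit 0)) (P (nat_lit 14337066975168))))))) (T.h (T.h (T.h (P (nat_lit 0)) (T.h (M (nat_lit 24820660371626959831039)) (T.h (P (nat_lit 0)) (P (nat_lit 5089028726112256))))) (T.h (P (nat_lit 0)) (T.h (T.h (P (nat_lit 0)) (M (nat_lit 113005295211544575))) (P (nat_lit 0)))))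 (T.h (T.h (P (nat_lit 0)) (T.h (T.h (M (nat_lit 35457303268831526911)) (T.h (P (nat_lit 0)) (M (nat_lit 15616341643055)))) (T.h (P (nat_lit 0)) (P (nat_lit 43766994916064))))) (T.h (T.h (T.h (P (nat_lit 0)) (M (nat_lit 55052733830086655))) (P (nat_lit 0))) (T.h (T.h (P (nat_lit 0)) (P (nat_lit 14337066975168))) (P (nat_lit 0)))))))), (T.h (T.h (T.h (P (nat_lit 3336858308950095421271779049472)) (T.h (P (nat_lit 0)) (T.h (P (nat_lit 6077443599476861853237248)) (T.h (P (nat_lit 0)) (T.h (P (nat_lit 14906957054039031808)) (T.h (P (nat_lit 0)) (P (nat_lit 14587027637568)))))))) (T.h (P (nat_lit 0)) (T.h (T.h (M (nat_lit 5043467229830250282090495)) (T.h (P (nat_lit 0)) (T.h (M (nat_lit 63461707544942084095)) (T.h (P (nat_lit 0)) (P (nat_lit 2739632443776)))))) (T.h (P (nat_lit 0)) (T.h (T.h (P (nat_lit 11853962430587600896)) (T.h (P (nat_lit 0)) (M (nat_lit 7293763681775)))) (T.h (P (nat_lit 0)) (M (nat_lit 4461241746719)))))))) (T.h (T.h (P (nat_lit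 0)) (T.h (T.h (P (nat_lit 0)) (T.h (M (nat_lit 161835331611143606108159)) (T.h (P (nat_lit 0)) (P (nat_lit 135200626355732480))))) (T.h (P (nat_lit 0)) (T.h (T.h (P (nat_lit 0)) (P (nat_lit 77702433258799104))) (P (nat_lit 0)))))) (T.h (T.h (T.h (M (nat_lit 5043467229830250282090495)) (T.h (P (nat_lit 0)) (T.h (M (nat_lit 63461707544942084095)) (T.h (P (nat_lit 0)) (P (nat_lit 2739632443776)))))) (T.h (P (nat_lit 0)) (T.h (T.h (P (nat_lit 55845177334473687040)) (T.h (P (nat_lit 0)) (P (nat_lit 39429664002528)))) (T.h (P (nat_lit 0)) (P (nat_lit 13242663900912)))))) (T.h (T.h (P (nat_lit 0)) (T.h (T.h (P (nat_lit 0)) (P (nat_lit 77702433258799104))) (P (nat_lit 0)))) (T.h (T.h (T.h (P (nat_lit 11853962430587600896)) (T.h (P (nat_lit 0)) (M (nat_lit 7293763681775)))) (T.h (P (nat_lit 0)) (P (nat_lit 13242663900912)))) (T.h (P (nat_lit 0)) (M (nat_lit 4461241746719))))))))]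
def lP22_29 : List (T ℤ) := [(T.h (T.h (T.h (P (nat_lit 0)) (T.h (M (nat_lit 16243022313474890036584382463)) (T.h (P (nat_lit 0)) (T.h (M (nat_lit 63266495506882056159231)) (T.h (P (nat_lit 0)) (M (nat_lit 30725900405669887))))))) (T.h (P (nat_lit 0)) (T.h (T.h (P (nat_lit 0)) (T.h (M (nat_lit 12631042986953158950911)) (T.h (P (nat_lit 0)) (M (nat_lit 26921964869435391))))) (T.h (P (nat_lit 0)) (T.h (T.h (P (nat_lit 0)) (P (nat_lit 7921545353297920))) (P (nat_lit 0))))))) (T.h (T.h (P (nat_lit 0)) (T.h (T.h (P (nat_lit 26574890608093291826118656)) (T.h (P (nat_lit 0)) (M (nat_lit 23191666894703689727)))) (T.h (P (nat_lit 0)) (P (nat_lit 35550091513922846720))))) (T.h (T.h (T.h (P (nat_lit 0)) (T.h (P (nat_lit 27668648396956542959616)) (T.h (P (nat_lit 0)) (M (nat_lit 21423492554489855))))) (T.h (P (nat_lit 0)) (T.h (T.h (P (nat_lit 0)) (M (nat_lit 106632176431267839))) (P (nat_lit 0))))) (T.h (T.h (P (nat_lit 0)) (P (nat_lit 75770150469425430528)))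 (T.h (T.h (T.h (P (nat_lit 0)) (P (nat_lit 18042978245672960))) (P (nat_lit 0))) (P (nat_lit 0))))))), (T.h (T.h (P (nat_lit 0)) (T.h (T.h (P (nat_lit 0)) (T.h (M (nat_lit 11596132456671698380390399)) (T.h (P (nat_lit 0)) (T.h (M (nat_lit 2449777188577214463)) (T.h (P (nat_lit 0)) (P (nat_lit 8183120944368))))))) (T.h (P (nat_lit 0)) (T.h (T.h (P (nat_lit 0)) (T.h (P (nat_lit 21823109804238831616)) (T.h (P (nat_lit 0)) (P (nat_lit 1434997404528))))) (T.h (P (nat_lit 0)) (T.h (T.h (P (nat_lit 0)) (M (nat_lit 20165909466623))) (P (nat_lit 0)))))))) (T.h (T.h (T.h (P (nat_lit 3816271784915021482770300928)) (T.h (P (nat_lit 0)) (T.h (P (nat_lit 16683404358949558812672)) (T.h (P (nat_lit 0)) (P (nat_lit 5798650446217216)))))) (T.h (P (nat_lit 0)) (T.h (T.h (M (nat_lit 11629742680612983013375)) (T.h (P (nat_lit 0)) (P (nat_lit 21362749947805696)))) (T.h (P (nat_lit 0)) (M (nat_lit 18534864477880319)))))) (T.h (T.h (P (nat_lit 0)) (T.h (T.h (P (nat_lit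 0)) (T.h (P (nat_lit 90875215508110573568)) (T.h (P (nat_lit 0)) (M (nat_lit 14872495805135))))) (T.h (P (nat_lit 0)) (T.h (T.h (P (nat_lit 0)) (P (nat_lit 6973821289008))) (P (nat_lit 0)))))) (T.h (T.h (T.h (P (nat_lit 21431735756132576133120)) (T.h (P (nat_lit 0)) (M (nat_lit 39638883541352447)))) (T.h (P (nat_lit 0)) (M (nat_lit 67844963372367871)))) (T.h (T.h (P (nat_lit 0)) (T.h (T.h (P (nat_lit 0)) (M (nat_lit 50297679171887))) (P (nat_lit 0)))) (P (nat_lit 8421033830252544))))))), (T.h (T.h (P (nat_lit 0)) (T.h (T.h (P (nat_lit 21382294463452524082142117888)) (T.h (P (nat_lit 0)) (T.h (P (nat_lit 55308368152604113371136)) (T.h (P (nat_lit 0)) (M (nat_lit 17072719312633855)))))) (T.h (P (nat_lit 0)) (T.h (T.h (M (nat_lit 8429021893482116022271)) (T.h (P (nat_lit 0)) (P (nat_lit 10349591218307072)))) (T.h (P (nat_lit 0)) (M (nat_lit 3098825511829503))))))) (T.h (T.h (T.h (P (nat_lit 0)) (T.h (P (nat_lit 11364634751436504396988416)) (T.h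 (P (nat_lit 0)) (M (nat_lit 42786273065835692031))))) (T.h (P (nat_lit 0)) (T.h (T.h (P (nat_lit 0)) (P (nat_lit 72630611916194054144))) (P (nat_lit 0))))) (T.h (T.h (P (nat_lit 0)) (T.h (T.h (M (nat_lit 5119974003336856731647)) (T.h (P (nat_lit 0)) (M (nat_lit 27209387641274367)))) (T.h (P (nat_lit 0)) (P (nat_lit 9121366597222400))))) (T.h (T.h (T.h (P (nat_lit 0)) (M (nat_lit 39642309639526154239))) (P (nat_lit 0))) (T.h (T.h (P (nat_lit 0)) (M (nat_lit 38231767106387967))) (P (nat_lit 0))))))), (T.h (T.h (T.h (P (nat_lit 0)) (T.h (M (nat_lit 6099708548673304496447684607)) (T.h (P (nat_lit 0)) (T.h (M (nat_lit 17907237936627615531007)) (T.h (P (nat_lit 0)) (P (nat_lit 840173474381824))))))) (T.h (P (nat_lit 0)) (T.h (T.h (P (nat_lit 0)) (T.h (P (nat_lit 39385658327280031629312)) (T.h (P (nat_lit 0)) (M (nat_lit 4731789076348927))))) (T.h (P (nat_lit 0)) (T.h (T.h (P (nat_lit 0)) (P (nat_lit 35543153834491904))) (P (nat_lit 0))))))) (T.h (T.h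 (P (nat_lit 0)) (T.h (T.h (P (nat_lit 18571853267465370509246464)) (T.h (P (nat_lit 0)) (P (nat_lit 2818795405779664896)))) (T.h (P (nat_lit 0)) (M (nat_lit 35935822232235802623))))) (T.h (T.h (T.h (P (nat_lit 0)) (T.h (M (nat_lit 914033056629670281215)) (T.h (P (nat_lit 0)) (M (nat_lit 10230261391294463))))) (T.h (P (nat_lit 0)) (T.h (T.h (P (nat_lit 0)) (M (nat_lit 7400423263076351))) (P (nat_lit 0))))) (T.h (T.h (P (nat_lit 0)) (M (nat_lit 76155881187738386431))) (T.h (T.h (T.h (P (nat_lit 0)) (P (nat_lit 25421720942116864))) (P (nat_lit 0))) (P (nat_lit 0))))))), (T.h (T.h (T.h (M (nat_lit 128120900552666237134832664575)) (T.h (P (nat_lit 0)) (T.h (M (nat_lit 374856245789455152054271)) (T.h (P (nat_lit 0)) (T.h (M (nat_lit 3158064110562705407)) (T.h (P (nat_lit 0)) (P (nat_lit 1380574505568)))))))) (T.h (P (nat_lit 0)) (T.h (T.h (M (nat_lit 374856245789455152054271)) (T.h (P (nat_lit 0)) (T.h (M (nat_lit 1706496107061706751)) (T.h (P (nat_lit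 0)) (P (nat_lit 1184705075472)))))) (T.h (P (nat_lit 0)) (T.h (T.h (M (nat_lit 3158064110562705407)) (T.h (P (nat_lit 0)) (P (nat_lit 1184705075472)))) (T.h (P (nat_lit 0)) (P (nat_lit 1380574505568)))))))) (T.h (T.h (P (nat_lit 0)) (T.h (T.h (P (nat_lit 0)) (T.h (M (nat_lit 1980045858969294471167)) (T.h (P (nat_lit 0)) (P (nat_lit 2866966031630336))))) (T.h (P (nat_lit 0)) (T.h (T.h (P (nat_lit 0)) (P (nat_lit 2866966031630336))) (P (nat_lit 0)))))) (T.h (T.h (T.h (P (nat_lit 244345310791578333216768)) (T.h (P (nat_lit 0)) (T.h (M (nat_lit 1937253098095378431)) (T.h (P (nat_lit 0)) (P (nat_lit 2707914055472)))))) (T.h (P (nat_lit 0)) (T.h (T.h (M (nat_lit 1937253098095378431)) (T.h (P (nat_lit 0)) (P (nat_lit 4438957717760)))) (T.h (P (nat_lit 0)) (P (nat_lit 2707914055472)))))) (T.h (T.h (P (nat_lit 0)) (T.h (T.h (P (nat_lit 0)) (P (nat_lit 3795046400131072))) (P (nat_lit 0)))) (T.h (T.h (T.h (P (nat_lit 622944617486090240)) (T.h (P (nat_lit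 0)) (P (nat_lit 3986189105440)))) (T.h (P (nat_lit 0)) (P (nat_lit 3986189105440)))) (T.h (P (nat_lit 0)) (M (nat_lit 2463187883231)))))))), (T.h (T.h (T.h (P (nat_lit 0)) (T.h (M (nat_lit 3806205839395855949482688511)) (T.h (P (nat_lit 0)) (T.h (P (nat_lit 434528077766272745472)) (T.h (P (nat_lit 0)) (M (nat_lit 2875145773678591))))))) (T.h (P (nat_lit 0)) (T.h (T.h (P (nat_lit 0)) (T.h (P (nat_lit 25039632414137793904640)) (T.h (P (nat_lit 0)) (M (nat_lit 12985542396248063))))) (T.h (P (nat_lit 0)) (T.h (T.h (P (nat_lit 0)) (M (nat_lit 4968131396501503))) (P (nat_lit 0))))))) (T.h (T.h (P (nat_lit 0)) (T.h (T.h (P (nat_lit 20367765807806700639485952)) (T.h (P (nat_lit 0)) (T.h (M (nat_lit 52273040027484684287)) (T.h (P (nat_lit 0)) (P (nat_lit 3392182722520)))))) (T.h (P (nat_lit 0)) (T.h (T.h (P (nat_lit 19867004086649880576)) (T.h (P (nat_lit 0)) (M (nat_lit 24959317573815)))) (T.h (P (nat_lit 0)) (M (nat_lit 12250454303887))))))) (T.h (T.h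 (T.h (P (nat_lit 0)) (T.h (M (nat_lit 20350402788955445526527)) (T.h (P (nat_lit 0)) (M (nat_lit 16405739284037631))))) (T.h (P (nat_lit 0)) (T.h (T.h (P (nat_lit 0)) (M (nat_lit 37649753855066111))) (P (nat_lit 0))))) (T.h (T.h (P (nat_lit 0)) (T.h (T.h (P (nat_lit 32360385358094925824)) (T.h (P (nat_lit 0)) (M (nat_lit 11025427733215)))) (T.h (P (nat_lit 0)) (M (nat_lit 18188302719095))))) (T.h (T.h (T.h (P (nat_lit 0)) (P (nat_lit 20784627276742656))) (P (nat_lit 0))) (T.h (T.h (P (nat_lit 0)) (M (nat_lit 1942311308743))) (P (nat_lit 0)))))))), (T.h (T.h (T.h (P (nat_lit 16254568680746320099254504259584)) (T.h (P (nat_lit 0)) (T.h (P (nat_lit 17411467729897400389599232)) (T.h (P (nat_lit 0)) (T.h (P (nat_lit 41501314220084428800)) (T.h (P (nat_lit 0)) (M (nat_lit 5883104315199)))))))) (T.h (P (nat_lit 0)) (T.h (T.h (M (nat_lit 12685605751155373801209855)) (T.h (P (nat_lit 0)) (T.h (P (nat_lit 47769169809322803200)) (T.h (P (nat_lit 0)) (P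 (nat_lit 13624628393600)))))) (T.h (P (nat_lit 0)) (T.h (T.h (M (nat_lit 19191782102932652031)) (T.h (P (nat_lit 0)) (M (nat_lit 8473992501295)))) (T.h (P (nat_lit 0)) (M (nat_lit 2917104938943)))))))) (T.h (T.h (P (nat_lit 0)) (T.h (T.h (P (nat_lit 0)) (T.h (P (nat_lit 3820633353032503918592)) (T.h (P (nat_lit 0)) (M (nat_lit 10230405475827711))))) (T.h (P (nat_lit 0)) (T.h (T.h (P (nat_lit 0)) (P (nat_lit 96424188085338112))) (P (nat_lit 0)))))) (T.h (T.h (T.h (M (nat_lit 3958576683485596580052991)) (T.h (P (nat_lit 0)) (T.h (M (nat_lit 41045787689923641343)) (T.h (P (nat_lit 0)) (P (nat_lit 25000766144816)))))) (T.h (P (nat_lit 0)) (T.h (T.h (P (nat_lit 30513359163695824896)) (T.h (P (nat_lit 0)) (P (nat_lit 3923258565072)))) (T.h (P (nat_lit 0)) (M (nat_lit 13363464019695)))))) (T.h (T.h (P (nat_lit 0)) (T.h (T.h (P (nat_lit 0)) (M (nat_lit 39378245962792959))) (P (nat_lit 0)))) (T.h (T.h (T.h (M (nat_lit 3860090204698181631)) (T.h (P (nat_lit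 0)) (P (nat_lit 30591108230816)))) (T.h (P (nat_lit 0)) (M (nat_lit 23439229653839)))) (T.h (P (nat_lit 0)) (M (nat_lit 2761787860719)))))))), (T.h (T.h (T.h (P (nat_lit 0)) (T.h (P (nat_lit 9181707860978385977383845888)) (T.h (P (nat_lit 0)) (T.h (P (nat_lit 18602088333796593106944)) (T.h (P (nat_lit 0)) (P (nat_lit 16976460900204544))))))) (T.h (P (nat_lit 0)) (T.h (T.h (P (nat_lit 0)) (T.h (M (nat_lit 6319837551329745567743)) (T.h (P (nat_lit 0)) (M (nat_lit 33548629675507711))))) (T.h (P (nat_lit 0)) (T.h (T.h (P (nat_lit 0)) (P (nat_lit 930457470205952))) (P (nat_lit 0))))))) (T.h (T.h (P (nat_lit 0)) (T.h (T.h (M (nat_lit 24685156938852956708536319)) (T.h (P (nat_lit 0)) (T.h (P (nat_lit 115968685479053754368)) (T.h (P (nat_lit 0)) (M (nat_lit 54383364855791)))))) (T.h (P (nat_lit 0)) (T.h (T.h (M (nat_lit 35097218249134178303)) (T.h (P (nat_lit 0)) (M (nat_lit 11482374518735)))) (T.h (P (nat_lit 0)) (P (nat_lit 12420987943536))))))) (T.h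 (T.h (T.h (P (nat_lit 0)) (T.h (P (nat_lit 5062566552641189445632)) (T.h (P (nat_lit 0)) (M (nat_lit 50478875293548543))))) (T.h (P (nat_lit 0)) (T.h (T.h (P (nat_lit 0)) (P (nat_lit 48316474667630592))) (P (nat_lit 0))))) (T.h (T.h (P (nat_lit 0)) (T.h (T.h (M (nat_lit 14943524989175857151)) (T.h (P (nat_lit 0)) (P (nat_lit 20634963543984)))) (T.h (P (nat_lit 0)) (P (nat_lit 3812593611312))))) (T.h (T.h (T.h (P (nat_lit 0)) (M (nat_lit 42830481488740351))) (P (nat_lit 0))) (T.h (T.h (P (nat_lit 0)) (M (nat_lit 21449622771023))) (P (nat_lit 0))))))))]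
def lP22_30 : List (T ℤ) := [(T.h (T.h (T.h (P (nat_lit 136175368825848704011312562176)) (T.h (P (nat_lit 0)) (T.h (M (nat_lit 21845518975287555317039103)) (T.h (P (nat_lit 0)) (M (nat_lit 46493784627472236543)))))) (T.h (P (nat_lit 0)) (T.h (T.h (P (nat_lit 10299676712578327630577664)) (T.h (P (nat_lit 0)) (P (nat_lit 25337010042471186432)))) (T.h (P (nat_lit 0)) (P (nat_lit 15478283704106745856)))))) (T.h (T.h (P (nat_lit 0)) (T.h (T.h (P (nat_lit 0)) (T.h (P (nat_lit 36587039533747480297472)) (T.h (P (nat_lit 0)) (P (nat_lit 69317805307723776))))) (T.h (P (nat_lit 0)) (T.h (T.h (P (nat_lit 0)) (P (nat_lit 11466888006205440))) (P (nat_lit 0)))))) (T.h (T.h (T.h (M (nat_lit 11792852828530081829748735)) (T.h (P (nat_lit 0)) (M (nat_lit 30804249933590298623)))) (T.h (P (nat_lit 0)) (P (nat_lit 18088830698126311424)))) (T.h (T.h (P (nat_lit 0)) (T.h (T.h (P (nat_lit 0)) (P (nat_lit 59092969562472448))) (P (nat_lit 0)))) (M (nat_lit 19079840722707283967)))))),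 (T.h (T.h (P (nat_lit 0)) (T.h (T.h (M (nat_lit 6924666312730873039744401407)) (T.h (P (nat_lit 0)) (T.h (P (nat_lit 20966851406420814856192)) (T.h (P (nat_lit 0)) (P (nat_lit 14704517348524032)))))) (T.h (P (nat_lit 0)) (T.h (T.h (P (nat_lit 5224766766905693306880)) (T.h (P (nat_lit 0)) (P (nat_lit 805034664558592)))) (T.h (P (nat_lit 0)) (M (nat_lit 14235708366225407))))))) (T.h (T.h (T.h (P (nat_lit 0)) (T.h (P (nat_lit 5810283156555816016805888)) (T.h (P (nat_lit 0)) (T.h (P (nat_lit 45427878034464047104)) (T.h (P (nat_lit 0)) (P (nat_lit 3774720305552))))))) (T.h (P (nat_lit 0)) (T.h (T.h (P (nat_lit 0)) (T.h (P (nat_lit 2086100085598322688)) (T.h (P (nat_lit 0)) (P (nat_lit 18179075001016))))) (T.h (P (nat_lit 0)) (T.h (T.h (P (nat_lit 0)) (P (nat_lit 4779188645288))) (P (nat_lit 0))))))) (T.h (T.h (P (nat_lit 0)) (T.h (T.h (M (nat_lit 13034215677552899391487)) (T.h (P (nat_lit 0)) (M (nat_lit 16257695584583679)))) (T.h (P (nat_lit 0))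 (M (nat_lit 18326436873601023))))) (T.h (T.h (T.h (P (nat_lit 0)) (T.h (P (nat_lit 41172884228734451712)) (T.h (P (nat_lit 0)) (P (nat_lit 13433110305528))))) (T.h (P (nat_lit 0)) (T.h (T.h (P (nat_lit 0)) (M (nat_lit 16296856776735))) (P (nat_lit 0))))) (T.h (T.h (P (nat_lit 0)) (P (nat_lit 27806606744977408))) (T.h (T.h (T.h (P (nat_lit 0)) (P (nat_lit 4509737917544))) (P (nat_lit 0))) (P (nat_lit 0)))))))), (T.h (T.h (P (nat_lit 0)) (T.h (T.h (P (nat_lit 0)) (T.h (P (nat_lit 39725240604148654384611328)) (T.h (P (nat_lit 0)) (T.h (P (nat_lit 33915569836709117952)) (T.h (P (nat_lit 0)) (P (nat_lit 4076389384816))))))) (T.h (P (nat_lit 0)) (T.h (T.h (P (nat_lit 0)) (T.h (P (nat_lit 33915569836709117952)) (T.h (P (nat_lit 0)) (M (nat_lit 675544214015))))) (T.h (P (nat_lit 0)) (T.h (T.h (P (nat_lit 0)) (P (nat_lit 4076389384816))) (P (nat_lit 0)))))))) (T.h (T.h (T.h (P (nat_lit 8691406057965620660182974464)) (T.h (P (nat_lit 0)) (T.h (M (nat_lit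 38064473744062961156095)) (T.h (P (nat_lit 0)) (P (nat_lit 19186521793036288)))))) (T.h (P (nat_lit 0)) (T.h (T.h (M (nat_lit 38064473744062961156095)) (T.h (P (nat_lit 0)) (P (nat_lit 3935443694649344)))) (T.h (P (nat_lit 0)) (P (nat_lit 19186521793036288)))))) (T.h (T.h (P (nat_lit 0)) (T.h (T.h (P (nat_lit 0)) (T.h (M (nat_lit 3943748245355757567)) (T.h (P (nat_lit 0)) (M (nat_lit 7612428796111))))) (T.h (P (nat_lit 0)) (T.h (T.h (P (nat_lit 0)) (M (nat_lit 7612428796111))) (P (nat_lit 0)))))) (T.h (T.h (T.h (M (nat_lit 15021339571157746057215)) (T.h (P (nat_lit 0)) (P (nat_lit 2082412055707648)))) (T.h (P (nat_lit 0)) (P (nat_lit 2082412055707648)))) (T.h (T.h (P (nat_lit 0)) (T.h (T.h (P (nat_lit 0)) (M (nat_lit 12132135300319))) (P (nat_lit 0)))) (P (nat_lit 17136932539727872))))))), (T.h (T.h (P (nat_lit 0)) (T.h (T.h (M (nat_lit 20554582978663004213834940415)) (T.h (P (nat_lit 0)) (T.h (M (nat_lit 50790724973385429811199)) (T.h (P (nat_lit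 0)) (P (nat_lit 62941527274127360)))))) (T.h (P (nat_lit 0)) (T.h (T.h (M (nat_lit 34999172906064189325311)) (T.h (P (nat_lit 0)) (P (nat_lit 63171967222317056)))) (T.h (P (nat_lit 0)) (M (nat_lit 10332781579010047))))))) (T.h (T.h (T.h (P (nat_lit 0)) (T.h (P (nat_lit 25007603106928841134702592)) (T.h (P (nat_lit 0)) (T.h (M (nat_lit 140829281879618224127)) (T.h (P (nat_lit 0)) (P (nat_lit 31401763312080))))))) (T.h (P (nat_lit 0)) (T.h (T.h (P (nat_lit 0)) (T.h (M (nat_lit 259926857630206656511)) (T.h (P (nat_lit 0)) (P (nat_lit 18547842041616))))) (T.h (P (nat_lit 0)) (T.h (T.h (P (nat_lit 0)) (M (nat_lit 462822932063))) (P (nat_lit 0))))))) (T.h (T.h (P (nat_lit 0)) (T.h (T.h (P (nat_lit 5421638563026066997248)) (T.h (P (nat_lit 0)) (M (nat_lit 2238457358548991)))) (T.h (P (nat_lit 0)) (P (nat_lit 64360973732315136))))) (T.h (T.h (T.h (P (nat_lit 0)) (T.h (P (nat_lit 69827702267230289920)) (T.h (P (nat_lit 0)) (M (nat_lit 26511480658367)))))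 (T.h (P (nat_lit 0)) (T.h (T.h (P (nat_lit 0)) (P (nat_lit 8210136746112))) (P (nat_lit 0))))) (T.h (T.h (P (nat_lit 0)) (M (nat_lit 82991536738959359))) (T.h (T.h (T.h (P (nat_lit 0)) (P (nat_lit 54728237009232))) (P (nat_lit 0))) (P (nat_lit 0)))))))), (T.h (T.h (P (nat_lit 0)) (T.h (T.h (P (nat_lit 0)) (T.h (P (nat_lit 13151526703321401362743296)) (T.h (P (nat_lit 0)) (M (nat_lit 67063165077403205631))))) (T.h (P (nat_lit 0)) (T.h (T.h (P (nat_lit 0)) (M (nat_lit 70207128503712743423))) (P (nat_lit 0)))))) (T.h (T.h (T.h (P (nat_lit 7238378753668218089558245376)) (T.h (P (nat_lit 0)) (T.h (P (nat_lit 66195724270729374466048)) (T.h (P (nat_lit 0)) (M (nat_lit 46440312107827199)))))) (T.h (P (nat_lit 0)) (T.h (T.h (P (nat_lit 126624066426670344568832)) (T.h (P (nat_lit 0)) (M (nat_lit 78200650234724351)))) (T.h (P (nat_lit 0)) (M (nat_lit 25281264314073087)))))) (T.h (T.h (P (nat_lit 0)) (T.h (T.h (P (nat_lit 0)) (P (nat_lit 93469117835464671232)))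 (P (nat_lit 0)))) (T.h (T.h (T.h (M (nat_lit 13983143431136971063295)) (T.h (P (nat_lit 0)) (M (nat_lit 23634781935910911)))) (T.h (P (nat_lit 0)) (M (nat_lit 22406557314826239)))) (T.h (P (nat_lit 0)) (M (nat_lit 29920305752571903))))))), (T.h (T.h (T.h (P (nat_lit 8547243003319011634805544583168)) (T.h (P (nat_lit 0)) (T.h (M (nat_lit 15586726180167793191682047)) (T.h (P (nat_lit 0)) (T.h (M (nat_lit 25082296066384068607)) (T.h (P (nat_lit 0)) (M (nat_lit 1807611555343)))))))) (T.h (P (nat_lit 0)) (T.h (T.h (P (nat_lit 14510347300884980999127040)) (T.h (P (nat_lit 0)) (T.h (P (nat_lit 35663318068957806592)) (T.h (P (nat_lit 0)) (M (nat_lit 6732252487071)))))) (T.h (P (nat_lit 0)) (T.h (T.h (P (nat_lit 35610800256633012224)) (T.h (P (nat_lit 0)) (P (nat_lit 15366368407824)))) (T.h (P (nat_lit 0)) (M (nat_lit 4773610931599)))))))) (T.h (T.h (P (nat_lit 0)) (T.h (T.h (P (nat_lit 0)) (T.h (M (nat_lit 5544913477966684487679)) (T.h (P (nat_lit 0))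 (P (nat_lit 107443297016119296))))) (T.h (P (nat_lit 0)) (T.h (T.h (P (nat_lit 0)) (P (nat_lit 788703454953472))) (P (nat_lit 0)))))) (T.h (T.h (T.h (M (nat_lit 10074423422740968400486399)) (T.h (P (nat_lit 0)) (T.h (P (nat_lit 14865489118221041664)) (T.h (P (nat_lit 0)) (M (nat_lit 8671366263727)))))) (T.h (P (nat_lit 0)) (T.h (T.h (M (nat_lit 56693657735398424575)) (T.h (P (nat_lit 0)) (P (nat_lit 14277571269584)))) (T.h (P (nat_lit 0)) (P (nat_lit 29692863900784)))))) (T.h (T.h (P (nat_lit 0)) (T.h (T.h (P (nat_lit 0)) (M (nat_lit 51337459934527487))) (P (nat_lit 0)))) (T.h (T.h (T.h (P (nat_lit 2900983089347952640)) (T.h (P (nat_lit 0)) (M (nat_lit 16452623026111)))) (T.h (P (nat_lit 0)) (P (nat_lit 37577714858544)))) (T.h (P (nat_lit 0)) (M (nat_lit 8507132336751)))))))), (T.h (T.h (T.h (P (nat_lit 0)) (T.h (M (nat_lit 25920019054726368708448485375)) (T.h (P (nat_lit 0)) (T.h (M (nat_lit 32169525483728206299135)) (T.h (P (nat_lit 0)) (M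 (nat_lit 18888208648962047))))))) (T.h (P (nat_lit 0)) (T.h (T.h (P (nat_lit 0)) (T.h (M (nat_lit 27787483063106125430783)) (T.h (P (nat_lit 0)) (P (nat_lit 57081713356472320))))) (T.h (P (nat_lit 0)) (T.h (T.h (P (nat_lit 0)) (P (nat_lit 67809720250138624))) (P (nat_lit 0))))))) (T.h (T.h (P (nat_lit 0)) (T.h (T.h (P (nat_lit 38096627589110099462848512)) (T.h (P (nat_lit 0)) (T.h (M (nat_lit 285020327601149837311)) (T.h (P (nat_lit 0)) (P (nat_lit 3622862751840)))))) (T.h (P (nat_lit 0)) (T.h (T.h (M (nat_lit 108181840819061260287)) (T.h (P (nat_lit 0)) (P (nat_lit 15157720755216)))) (T.h (P (nat_lit 0)) (P (nat_lit 27163896312912))))))) (T.h (T.h (T.h (P (nat_lit 0)) (T.h (M (nat_lit 11270670670228105461759)) (T.h (P (nat_lit 0)) (P (nat_lit 46994885653495808))))) (T.h (P (nat_lit 0)) (T.h (T.h (P (nat_lit 0)) (M (nat_lit 29192182078373887))) (P (nat_lit 0))))) (T.h (T.h (P (nat_lit 0)) (T.h (T.h (P (nat_lit 106594337060644978688)) (T.h (P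 (nat_lit 0)) (M (nat_lit 5451005508863)))) (T.h (P (nat_lit 0)) (M (nat_lit 28889076865151))))) (T.h (T.h (T.h (P (nat_lit 0)) (M (nat_lit 58695919728099327))) (P (nat_lit 0))) (T.h (T.h (P (nat_lit 0)) (P (nat_lit 56011950313632))) (P (nat_lit 0)))))))), (T.h (T.h (T.h (M (nat_lit 3990930358680729164823654301695)) (T.h (P (nat_lit 0)) (T.h (P (nat_lit 44344369622601005705199616)) (T.h (P (nat_lit 0)) (P (nat_lit 54726454716340895744)))))) (T.h (P (nat_lit 0)) (T.h (T.h (P (nat_lit 27076531107476770798960640)) (T.h (P (nat_lit 0)) (M (nat_lit 67671942614401155071)))) (T.h (P (nat_lit 0)) (P (nat_lit 12685585197551321088)))))) (T.h (T.h (P (nat_lit 0)) (T.h (T.h (P (nat_lit 0)) (T.h (P (nat_lit 118862079073980380086272)) (T.h (P (nat_lit 0)) (M (nat_lit 48237924204412927))))) (T.h (P (nat_lit 0)) (T.h (T.h (P (nat_lit 0)) (M (nat_lit 33993395259670527))) (P (nat_lit 0)))))) (T.h (T.h (T.h (P (nat_lit 21974902872093783693983744)) (T.h (P (nat_lit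 0)) (M (nat_lit 455436660721582079)))) (T.h (P (nat_lit 0)) (M (nat_lit 17065805797469978623)))) (T.h (T.h (P (nat_lit 0)) (T.h (T.h (P (nat_lit 0)) (M (nat_lit 70376020478001151))) (P (nat_lit 0)))) (P (nat_lit 53121578943446515712))))))]
def lP22_31 : List (T ℤ) := [(T.h (T.h (P (nat_lit 0)) (T.h (T.h (P (nat_lit 3816271784915021482770300928)) (T.h (P (nat_lit 0)) (T.h (P (nat_lit 16683404358949558812672)) (T.h (P (nat_lit 0)) (P (nat_lit 5798650446217216)))))) (T.h (P (nat_lit 0)) (T.h (T.h (P (nat_lit 21431735756132576133120)) (T.h (P (nat_lit 0)) (M (nat_lit 39638883541352447)))) (T.h (P (nat_lit 0)) (P (nat_lit 8421033830252544))))))) (T.h (T.h (T.h (P (nat_lit 0)) (T.h (M (nat_lit 11596132456671698380390399)) (T.h (P (nat_lit 0)) (T.h (M (nat_lit 2449777188577214463)) (T.h (P (nat_lit 0)) (P (nat_lit 8183120944368))))))) (T.h (P (nat_lit 0)) (T.h (T.h (P (nat_lit 0)) (T.h (P (nat_lit 90875215508110573568)) (T.h (P (nat_lit 0)) (M (nat_lit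 14872495805135))))) (T.h (P (nat_lit 0)) (T.h (T.h (P (nat_lit 0)) (M (nat_lit 50297679171887))) (P (nat_lit 0))))))) (T.h (T.h (P (nat_lit 0)) (T.h (T.h (M (nat_lit 11629742680612983013375)) (T.h (P (nat_lit 0)) (P (nat_lit 21362749947805696)))) (T.h (P (nat_lit 0)) (M (nat_lit 67844963372367871))))) (T.h (T.h (T.h (P (nat_lit 0)) (T.h (P (nat_lit 21823109804238831616)) (T.h (P (nat_lit 0)) (P (nat_lit 1434997404528))))) (T.h (P (nat_lit 0)) (T.h (T.h (P (nat_lit 0)) (P (nat_lit 6973821289008))) (P (nat_lit 0))))) (T.h (T.h (P (nat_lit 0)) (M (nat_lit 18534864477880319))) (T.h (T.h (T.h (P (nat_lit 0)) (M (nat_lit 20165909466623))) (P (nat_lit 0))) (P (nat_lit 0)))))))), (T.h (T.h (P (nat_lit 0)) (T.h (T.h (P (nat_lit 0)) (T.h (P (nat_lit 11364634751436504396988416)) (T.h (P (nat_lit 0)) (M (nat_lit 42786273065835692031))))) (T.h (P (nat_lit 0)) (T.h (T.h (P (nat_lit 0)) (M (nat_lit 39642309639526154239))) (P (nat_lit 0)))))) (T.h (T.h (T.h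 (P (nat_lit 21382294463452524082142117888)) (T.h (P (nat_lit 0)) (T.h (P (nat_lit 55308368152604113371136)) (T.h (P (nat_lit 0)) (M (nat_lit 17072719312633855)))))) (T.h (P (nat_lit 0)) (T.h (T.h (M (nat_lit 5119974003336856731647)) (T.h (P (nat_lit 0)) (M (nat_lit 27209387641274367)))) (T.h (P (nat_lit 0)) (M (nat_lit 38231767106387967)))))) (T.h (T.h (P (nat_lit 0)) (T.h (T.h (P (nat_lit 0)) (P (nat_lit 72630611916194054144))) (P (nat_lit 0)))) (T.h (T.h (T.h (M (nat_lit 8429021893482116022271)) (T.h (P (nat_lit 0)) (P (nat_lit 10349591218307072)))) (T.h (P (nat_lit 0)) (P (nat_lit 9121366597222400)))) (T.h (P (nat_lit 0)) (M (nat_lit 3098825511829503))))))), (T.h (T.h (T.h (P (nat_lit 984195350018325543104137920512)) (T.h (P (nat_lit 0)) (T.h (M (nat_lit 353537135146806275997695)) (T.h (P (nat_lit 0)) (P (nat_lit 4364305523307184128)))))) (T.h (P (nat_lit 0)) (T.h (T.h (M (nat_lit 15230894307888454317375487)) (T.h (P (nat_lit 0)) (P (nat_lit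 21389219787958124544)))) (T.h (P (nat_lit 0)) (M (nat_lit 15566893289482223615)))))) (T.h (T.h (P (nat_lit 0)) (T.h (T.h (P (nat_lit 0)) (T.h (M (nat_lit 5141982376459845500927)) (T.h (P (nat_lit 0)) (P (nat_lit 20305914272612352))))) (T.h (P (nat_lit 0)) (T.h (T.h (P (nat_lit 0)) (P (nat_lit 63912302629388288))) (P (nat_lit 0)))))) (T.h (T.h (T.h (M (nat_lit 15230894307888454317375487)) (T.h (P (nat_lit 0)) (P (nat_lit 21389219787958124544)))) (T.h (P (nat_lit 0)) (M (nat_lit 10893491707010088959)))) (T.h (T.h (P (nat_lit 0)) (T.h (T.h (P (nat_lit 0)) (P (nat_lit 63912302629388288))) (P (nat_lit 0)))) (M (nat_lit 15566893289482223615)))))), (T.h (T.h (P (nat_lit 0)) (T.h (T.h (P (nat_lit 0)) (T.h (P (nat_lit 2367679197508544791314432)) (T.h (P (nat_lit 0)) (T.h (M (nat_lit 17490023526864781311)) (T.h (P (nat_lit 0)) (P (nat_lit 1111384698048))))))) (T.h (P (nat_lit 0)) (T.h (T.h (P (nat_lit 0)) (T.h (M (nat_lit 18959063845215141887)) (T.h (P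 (nat_lit 0)) (P (nat_lit 4452436307520))))) (T.h (P (nat_lit 0)) (T.h (T.h (P (nat_lit 0)) (P (nat_lit 1709027307648))) (P (nat_lit 0)))))))) (T.h (T.h (T.h (M (nat_lit 6708703288543951383055826943)) (T.h (P (nat_lit 0)) (T.h (M (nat_lit 4825756084058852425727)) (T.h (P (nat_lit 0)) (M (nat_lit 13727318916464639)))))) (T.h (P (nat_lit 0)) (T.h (T.h (M (nat_lit 9336552845164421316607)) (T.h (P (nat_lit 0)) (M (nat_lit 22001358117797887)))) (T.h (P (nat_lit 0)) (M (nat_lit 10096859823996927)))))) (T.h (T.h (P (nat_lit 0)) (T.h (T.h (P (nat_lit 0)) (T.h (M (nat_lit 16662209236586987519)) (T.h (P (nat_lit 0)) (P (nat_lit 1223173417000))))) (T.h (P (nat_lit 0)) (T.h (T.h (P (nat_lit 0)) (P (nat_lit 16464759474008))) (P (nat_lit 0)))))) (T.h (T.h (T.h (M (nat_lit 8639614918792361017343)) (T.h (P (nat_lit 0)) (M (nat_lit 22339981025869823)))) (T.h (P (nat_lit 0)) (M (nat_lit 17301337354928127)))) (T.h (T.h (P (nat_lit 0)) (T.h (T.h (P (nat_lit 0))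 (M (nat_lit 14111840783999))) (P (nat_lit 0)))) (P (nat_lit 12079869476732928))))))), (T.h (T.h (P (nat_lit 0)) (T.h (T.h (M (nat_lit 832454746821739008015466495)) (T.h (P (nat_lit 0)) (T.h (M (nat_lit 4047631849667556278271)) (T.h (P (nat_lit 0)) (M (nat_lit 6980540568846335)))))) (T.h (P (nat_lit 0)) (T.h (T.h (P (nat_lit 2581207630647769694208)) (T.h (P (nat_lit 0)) (M (nat_lit 25091771215478783)))) (T.h (P (nat_lit 0)) (P (nat_lit 3821690648035328))))))) (T.h (T.h (T.h (P (nat_lit 0)) (T.h (P (nat_lit 11799924226416691745128448)) (T.h (P (nat_lit 0)) (T.h (P (nat_lit 24992502955122884608)) (T.h (P (nat_lit 0)) (P (nat_lit 3040955945440))))))) (T.h (P (nat_lit 0)) (T.h (T.h (P (nat_lit 0)) (T.h (P (nat_lit 22920260165497257984)) (T.h (P (nat_lit 0)) (M (nat_lit 4081026789279))))) (T.h (P (nat_lit 0)) (T.h (T.h (P (nat_lit 0)) (M (nat_lit 6622509720623))) (P (nat_lit 0))))))) (T.h (T.h (P (nat_lit 0)) (T.h (T.h (M (nat_lit 32130929532941937672191))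 (T.h (P (nat_lit 0)) (P (nat_lit 703405565444096)))) (T.h (P (nat_lit 0)) (P (nat_lit 21537784946409472))))) (T.h (T.h (T.h (P (nat_lit 0)) (T.h (M (nat_lit 13066312361172795391)) (T.h (P (nat_lit 0)) (P (nat_lit 4308734371088))))) (T.h (P (nat_lit 0)) (T.h (T.h (P (nat_lit 0)) (P (nat_lit 19135086581520))) (P (nat_lit 0))))) (T.h (T.h (P (nat_lit 0)) (P (nat_lit 5910113848442880))) (T.h (T.h (T.h (P (nat_lit 0)) (P (nat_lit 11861041236576))) (P (nat_lit 0))) (P (nat_lit 0)))))))), (T.h (T.h (P (nat_lit 0)) (T.h (T.h (P (nat_lit 0)) (T.h (M (nat_lit 17556318179026120489304063)) (T.h (P (nat_lit 0)) (T.h (P (nat_lit 30441162874292273152)) (T.h (P (nat_lit 0)) (M (nat_lit 6246209782991))))))) (T.h (P (nat_lit 0)) (T.h (T.h (P (nat_lit 0)) (T.h (M (nat_lit 8893166916194009087)) (T.h (P (nat_lit 0)) (P (nat_lit 10495551934128))))) (T.h (P (nat_lit 0)) (T.h (T.h (P (nat_lit 0)) (M (nat_lit 12054772672943))) (P (nat_lit 0)))))))) (T.h (T.h (T.h (P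 (nat_lit 11784431976104366283581030400)) (T.h (P (nat_lit 0)) (T.h (P (nat_lit 37487305661085982392320)) (T.h (P (nat_lit 0)) (P (nat_lit 43207727442690048)))))) (T.h (P (nat_lit 0)) (T.h (T.h (P (nat_lit 26555739416533795864576)) (T.h (P (nat_lit 0)) (M (nat_lit 2910662690144255)))) (T.h (P (nat_lit 0)) (M (nat_lit 5811931586723839)))))) (T.h (T.h (P (nat_lit 0)) (T.h (T.h (P (nat_lit 0)) (T.h (P (nat_lit 20627963221477687296)) (T.h (P (nat_lit 0)) (M (nat_lit 8590811891663))))) (T.h (P (nat_lit 0)) (T.h (T.h (P (nat_lit 0)) (P (nat_lit 713704650528))) (P (nat_lit 0)))))) (T.h (T.h (T.h (P (nat_lit 3663976196347304869888)) (T.h (P (nat_lit 0)) (M (nat_lit 24150572380094463)))) (T.h (P (nat_lit 0)) (P (nat_lit 24136215000219648)))) (T.h (T.h (P (nat_lit 0)) (T.h (T.h (P (nat_lit 0)) (P (nat_lit 10811054617632))) (P (nat_lit 0)))) (P (nat_lit 3648513761869824))))))), (T.h (T.h (P (nat_lit 0)) (T.h (T.h (M (nat_lit 3552167905337314461328867327))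 (T.h (P (nat_lit 0)) (T.h (M (nat_lit 20860751503021825851391)) (T.h (P (nat_lit 0)) (P (nat_lit 29223053233750016)))))) (T.h (P (nat_lit 0)) (T.h (T.h (M (nat_lit 17514454350803945652223)) (T.h (P (nat_lit 0)) (M (nat_lit 6828128011485183)))) (T.h (P (nat_lit 0)) (M (nat_lit 125001479028735))))))) (T.h (T.h (T.h (P (nat_lit 0)) (T.h (P (nat_lit 190497846206537530343424)) (T.h (P (nat_lit 0)) (M (nat_lit 99359662876024373247))))) (T.h (P (nat_lit 0)) (T.h (T.h (P (nat_lit 0)) (M (nat_lit 33794473039585345535))) (P (nat_lit 0))))) (T.h (T.h (P (nat_lit 0)) (T.h (T.h (P (nat_lit 73841325025681435787264)) (T.h (P (nat_lit 0)) (M (nat_lit 12333211291975679)))) (T.h (P (nat_lit 0)) (M (nat_lit 4147707045363711))))) (T.h (T.h (T.h (P (nat_lit 0)) (M (nat_lit 28821610291506708479))) (P (nat_lit 0))) (T.h (T.h (P (nat_lit 0)) (P (nat_lit 32917182886395904))) (P (nat_lit 0))))))), (T.h (T.h (T.h (P (nat_lit 0)) (T.h (M (nat_lit 832454746821739008015466495))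 (T.h (P (nat_lit 0)) (T.h (P (nat_lit 2581207630647769694208)) (T.h (P (nat_lit 0)) (P (nat_lit 3821690648035328))))))) (T.h (P (nat_lit 0)) (T.h (T.h (P (nat_lit 0)) (T.h (M (nat_lit 4047631849667556278271)) (T.h (P (nat_lit 0)) (M (nat_lit 25091771215478783))))) (T.h (P (nat_lit 0)) (T.h (T.h (P (nat_lit 0)) (M (nat_lit 6980540568846335))) (P (nat_lit 0))))))) (T.h (T.h (P (nat_lit 0)) (T.h (T.h (P (nat_lit 11799924226416691745128448)) (T.h (P (nat_lit 0)) (T.h (P (nat_lit 22920260165497257984)) (T.h (P (nat_lit 0)) (M (nat_lit 6622509720623)))))) (T.h (P (nat_lit 0)) (T.h (T.h (P (nat_lit 24992502955122884608)) (T.h (P (nat_lit 0)) (M (nat_lit 4081026789279)))) (T.h (P (nat_lit 0)) (P (nat_lit 3040955945440))))))) (T.h (T.h (T.h (P (nat_lit 0)) (T.h (M (nat_lit 32130929532941937672191)) (T.h (P (nat_lit 0)) (P (nat_lit 21537784946409472))))) (T.h (P (nat_lit 0)) (T.h (T.h (P (nat_lit 0)) (P (nat_lit 703405565444096))) (P (nat_lit 0))))) (T.h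 (T.h (P (nat_lit 0)) (T.h (T.h (M (nat_lit 13066312361172795391)) (T.h (P (nat_lit 0)) (P (nat_lit 19135086581520)))) (T.h (P (nat_lit 0)) (P (nat_lit 4308734371088))))) (T.h (T.h (T.h (P (nat_lit 0)) (P (nat_lit 5910113848442880))) (P (nat_lit 0))) (T.h (T.h (P (nat_lit 0)) (P (nat_lit 11861041236576))) (P (nat_lit 0))))))))]
def lP22_32 : List (T ℤ) := [(T.h (T.h (T.h (M (nat_lit 1489864615173141456557266960383)) (T.h (P (nat_lit 0)) (T.h (P (nat_lit 3190336379661984334872576)) (T.h (P (nat_lit 0)) (T.h (P (nat_lit 6454538503194673152)) (T.h (P (nat_lit 0)) (M (nat_lit 5550730409807)))))))) (T.h (P (nat_lit 0)) (T.h (T.h (P (nat_lit 3190336379661984334872576)) (T.h (P (nat_lit 0)) (T.h (P (nat_lit 107513538014303223808)) (T.h (P (nat_lit 0)) (M (nat_lit 12406552033967)))))) (T.h (P (nat_lit 0)) (T.h (T.h (P (nat_lit 6454538503194673152)) (T.h (P (nat_lit 0)) (M (nat_lit 12406552033967)))) (T.h (P (nat_lit 0)) (M (nat_lit 5550730409807))))))))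 (T.h (T.h (P (nat_lit 0)) (T.h (T.h (P (nat_lit 0)) (T.h (P (nat_lit 117203895853605197971456)) (T.h (P (nat_lit 0)) (P (nat_lit 120510918138789888))))) (T.h (P (nat_lit 0)) (T.h (T.h (P (nat_lit 0)) (P (nat_lit 120510918138789888))) (P (nat_lit 0)))))) (T.h (T.h (T.h (P (nat_lit 44237522183060602493075456)) (T.h (P (nat_lit 0)) (T.h (M (nat_lit 115193404408423514111)) (T.h (P (nat_lit 0)) (P (nat_lit 3472411185984)))))) (T.h (P (nat_lit 0)) (T.h (T.h (M (nat_lit 115193404408423514111)) (T.h (P (nat_lit 0)) (P (nat_lit 64523868455424)))) (T.h (P (nat_lit 0)) (P (nat_lit 3472411185984)))))) (T.h (T.h (P (nat_lit 0)) (T.h (T.h (P (nat_lit 0)) (M (nat_lit 78799039213862911))) (P (nat_lit 0)))) (T.h (T.h (T.h (M (nat_lit 8197879782847807487)) (T.h (P (nat_lit 0)) (P (nat_lit 18792837007584)))) (T.h (P (nat_lit 0)) (P (nat_lit 18792837007584)))) (T.h (P (nat_lit 0)) (P (nat_lit 13524330333600)))))))), (T.h (T.h (T.h (P (nat_lit 0)) (T.h (P (nat_lit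 5681062283688008578714566656)) (T.h (P (nat_lit 0)) (T.h (P (nat_lit 6524328405853089562624)) (T.h (P (nat_lit 0)) (P (nat_lit 2781466941358080))))))) (T.h (P (nat_lit 0)) (T.h (T.h (P (nat_lit 0)) (T.h (M (nat_lit 9415945020137231351807)) (T.h (P (nat_lit 0)) (M (nat_lit 139362887041023))))) (T.h (P (nat_lit 0)) (T.h (T.h (P (nat_lit 0)) (P (nat_lit 29200995111157760))) (P (nat_lit 0))))))) (T.h (T.h (P (nat_lit 0)) (T.h (T.h (M (nat_lit 53330515323703176544124927)) (T.h (P (nat_lit 0)) (M (nat_lit 101408466554331332607)))) (T.h (P (nat_lit 0)) (M (nat_lit 41872423735447781375))))) (T.h (T.h (T.h (P (nat_lit 0)) (T.h (P (nat_lit 30607393108761698631680)) (T.h (P (nat_lit 0)) (P (nat_lit 25339087913926656))))) (T.h (P (nat_lit 0)) (T.h (T.h (P (nat_lit 0)) (M (nat_lit 53186307789062143))) (P (nat_lit 0))))) (T.h (T.h (P (nat_lit 0)) (P (nat_lit 137922430172793929728))) (T.h (T.h (T.h (P (nat_lit 0)) (M (nat_lit 109922274535751679))) (P (nat_lit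 0))) (P (nat_lit 0))))))), (T.h (T.h (P (nat_lit 0)) (T.h (T.h (P (nat_lit 0)) (T.h (M (nat_lit 15188638981517575697989631)) (T.h (P (nat_lit 0)) (T.h (M (nat_lit 27117710602233970687)) (T.h (P (nat_lit 0)) (M (nat_lit 10644566670095))))))) (T.h (P (nat_lit 0)) (T.h (T.h (P (nat_lit 0)) (T.h (P (nat_lit 12216619188252311552)) (T.h (P (nat_lit 0)) (P (nat_lit 14947988241648))))) (T.h (P (nat_lit 0)) (T.h (T.h (P (nat_lit 0)) (M (nat_lit 4836003780143))) (P (nat_lit 0)))))))) (T.h (T.h (T.h (P (nat_lit 5075728687560414900525203456)) (T.h (P (nat_lit 0)) (T.h (P (nat_lit 19474584951922158993408)) (T.h (P (nat_lit 0)) (M (nat_lit 17724020956954623)))))) (T.h (P (nat_lit 0)) (T.h (T.h (P (nat_lit 30406151196474345521152)) (T.h (P (nat_lit 0)) (M (nat_lit 24912020807942143)))) (T.h (P (nat_lit 0)) (P (nat_lit 31295638072459264)))))) (T.h (T.h (P (nat_lit 0)) (T.h (T.h (P (nat_lit 0)) (T.h (P (nat_lit 3965753984890699776)) (T.h (P (nat_lit 0)) (P (nat_lit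 9557671096032))))) (T.h (P (nat_lit 0)) (T.h (T.h (P (nat_lit 0)) (P (nat_lit 253154553840))) (P (nat_lit 0)))))) (T.h (T.h (T.h (M (nat_lit 4975638722445056147455)) (T.h (P (nat_lit 0)) (P (nat_lit 4315555809820672)))) (T.h (P (nat_lit 0)) (M (nat_lit 43971231570493439)))) (T.h (T.h (P (nat_lit 0)) (T.h (T.h (P (nat_lit 0)) (M (nat_lit 3300786166367))) (P (nat_lit 0)))) (P (nat_lit 15728383238602752))))))), (T.h (T.h (P (nat_lit 0)) (T.h (T.h (P (nat_lit 3133521640352018543595749376)) (T.h (P (nat_lit 0)) (T.h (P (nat_lit 10530773426254924218368)) (T.h (P (nat_lit 0)) (P (nat_lit 25399662819524608)))))) (T.h (P (nat_lit 0)) (T.h (T.h (P (nat_lit 6131544820029419683840)) (T.h (P (nat_lit 0)) (M (nat_lit 3541496266850303)))) (T.h (P (nat_lit 0)) (P (nat_lit 3746641894768640))))))) (T.h (T.h (T.h (P (nat_lit 0)) (T.h (M (nat_lit 34949159902444343565221887)) (T.h (P (nat_lit 0)) (M (nat_lit 18668642047161794559))))) (T.h (P (nat_lit 0)) (T.h (T.h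 (P (nat_lit 0)) (M (nat_lit 64795198108966322175))) (P (nat_lit 0))))) (T.h (T.h (P (nat_lit 0)) (T.h (T.h (M (nat_lit 3848273589639705526271)) (T.h (P (nat_lit 0)) (M (nat_lit 48253519760162815)))) (T.h (P (nat_lit 0)) (P (nat_lit 24755005882941440))))) (T.h (T.h (T.h (P (nat_lit 0)) (P (nat_lit 130808218232064835584))) (P (nat_lit 0))) (T.h (T.h (P (nat_lit 0)) (M (nat_lit 107296303587655679))) (P (nat_lit 0))))))), (T.h (T.h (T.h (P (nat_lit 0)) (T.h (M (nat_lit 6099708548673304496447684607)) (T.h (P (nat_lit 0)) (T.h (M (nat_lit 17907237936627615531007)) (T.h (P (nat_lit 0)) (P (nat_lit 840173474381824))))))) (T.h (P (nat_lit 0)) (T.h (T.h (P (nat_lit 0)) (T.h (M (nat_lit 914033056629670281215)) (T.h (P (nat_lit 0)) (M (nat_lit 10230261391294463))))) (T.h (P (nat_lit 0)) (T.h (T.h (P (nat_lit 0)) (P (nat_lit 25421720942116864))) (P (nat_lit 0))))))) (T.h (T.h (P (nat_lit 0)) (T.h (T.h (P (nat_lit 18571853267465370509246464)) (T.h (P (nat_lit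 0)) (P (nat_lit 2818795405779664896)))) (T.h (P (nat_lit 0)) (M (nat_lit 76155881187738386431))))) (T.h (T.h (T.h (P (nat_lit 0)) (T.h (P (nat_lit 39385658327280031629312)) (T.h (P (nat_lit 0)) (M (nat_lit 4731789076348927))))) (T.h (P (nat_lit 0)) (T.h (T.h (P (nat_lit 0)) (M (nat_lit 7400423263076351))) (P (nat_lit 0))))) (T.h (T.h (P (nat_lit 0)) (M (nat_lit 35935822232235802623))) (T.h (T.h (T.h (P (nat_lit 0)) (P (nat_lit 35543153834491904))) (P (nat_lit 0))) (P (nat_lit 0))))))), (T.h (T.h (T.h (P (nat_lit 7707325677427308464448959676416)) (T.h (P (nat_lit 0)) (T.h (P (nat_lit 2901120429012419390472192)) (T.h (P (nat_lit 0)) (T.h (P (nat_lit 5890513963451416576)) (T.h (P (nat_lit 0)) (M (nat_lit 1109493383599)))))))) (T.h (P (nat_lit 0)) (T.h (T.h (P (nat_lit 2901120429012419390472192)) (T.h (P (nat_lit 0)) (T.h (P (nat_lit 12105851740364996608)) (T.h (P (nat_lit 0)) (M (nat_lit 1741740014223)))))) (T.h (P (nat_lit 0)) (T.h (T.h (P (nat_lit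 5890513963451416576)) (T.h (P (nat_lit 0)) (M (nat_lit 1741740014223)))) (T.h (P (nat_lit 0)) (M (nat_lit 1109493383599)))))))) (T.h (T.h (P (nat_lit 0)) (T.h (T.h (P (nat_lit 0)) (T.h (P (nat_lit 9365546830999188406272)) (T.h (P (nat_lit 0)) (M (nat_lit 11019108930781183))))) (T.h (P (nat_lit 0)) (T.h (T.h (P (nat_lit 0)) (M (nat_lit 11019108930781183))) (P (nat_lit 0)))))) (T.h (T.h (T.h (P (nat_lit 6115846739255371820433408)) (T.h (P (nat_lit 0)) (T.h (P (nat_lit 15647870045474783232)) (T.h (P (nat_lit 0)) (M (nat_lit 4692097755967)))))) (T.h (P (nat_lit 0)) (T.h (T.h (P (nat_lit 15647870045474783232)) (T.h (P (nat_lit 0)) (M (nat_lit 10354312704511)))) (T.h (P (nat_lit 0)) (M (nat_lit 4692097755967)))))) (T.h (T.h (P (nat_lit 0)) (T.h (T.h (P (nat_lit 0)) (P (nat_lit 11959213971734528))) (P (nat_lit 0)))) (T.h (T.h (T.h (M (nat_lit 6761073294046134271)) (T.h (P (nat_lit 0)) (M (nat_lit 6986606627727)))) (T.h (P (nat_lit 0)) (M (nat_lit 6986606627727))))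 (T.h (P (nat_lit 0)) (P (nat_lit 5745344476032)))))))), (T.h (T.h (T.h (P (nat_lit 0)) (T.h (P (nat_lit 5365436076063364494613544960)) (T.h (P (nat_lit 0)) (T.h (M (nat_lit 2829647422335983026175)) (T.h (P (nat_lit 0)) (P (nat_lit 8555427069952000))))))) (T.h (P (nat_lit 0)) (T.h (T.h (P (nat_lit 0)) (T.h (M (nat_lit 23003241910279304380415)) (T.h (P (nat_lit 0)) (P (nat_lit 6090253865844736))))) (T.h (P (nat_lit 0)) (T.h (T.h (P (nat_lit 0)) (M (nat_lit 4868192976011263))) (P (nat_lit 0))))))) (T.h (T.h (P (nat_lit 0)) (T.h (T.h (M (nat_lit 13089024482181258328145919)) (T.h (P (nat_lit 0)) (T.h (P (nat_lit 25093469970943180800)) (T.h (P (nat_lit 0)) (M (nat_lit 4085685683903)))))) (T.h (P (nat_lit 0)) (T.h (T.h (M (nat_lit 32647441060556963839)) (T.h (P (nat_lit 0)) (P (nat_lit 3390121286400)))) (T.h (P (nat_lit 0)) (P (nat_lit 4237866999168))))))) (T.h (T.h (T.h (P (nat_lit 0)) (T.h (P (nat_lit 16692309233254172459008)) (T.h (P (nat_lit 0))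 (P (nat_lit 17366088078819328))))) (T.h (P (nat_lit 0)) (T.h (T.h (P (nat_lit 0)) (P (nat_lit 26953724719824896))) (P (nat_lit 0))))) (T.h (T.h (P (nat_lit 0)) (T.h (T.h (M (nat_lit 36766634793414688767)) (T.h (P (nat_lit 0)) (P (nat_lit 13661142254976)))) (T.h (P (nat_lit 0)) (P (nat_lit 2377596206784))))) (T.h (T.h (T.h (P (nat_lit 0)) (M (nat_lit 24295617010860031))) (P (nat_lit 0))) (T.h (T.h (P (nat_lit 0)) (M (nat_lit 1283713304399))) (P (nat_lit 0)))))))), (T.h (T.h (T.h (M (nat_lit 3020651936024216055035763621887)) (T.h (P (nat_lit 0)) (T.h (M (nat_lit 9727723194307173926567935)) (T.h (P (nat_lit 0)) (M (nat_lit 34055737634159853567)))))) (T.h (P (nat_lit 0)) (T.h (T.h (P (nat_lit 7540115320817060979671040)) (T.h (P (nat_lit 0)) (M (nat_lit 1493952592848355327)))) (T.h (P (nat_lit 0)) (P (nat_lit 7985131884629721088)))))) (T.h (T.h (P (nat_lit 0)) (T.h (T.h (P (nat_lit 0)) (T.h (P (nat_lit 35632436876571404402688)) (T.h (P (nat_lit 0))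 (P (nat_lit 11442983771799552))))) (T.h (P (nat_lit 0)) (T.h (T.h (P (nat_lit 0)) (M (nat_lit 2801545172942847))) (P (nat_lit 0)))))) (T.h (T.h (T.h (M (nat_lit 3663051078293994793336831)) (T.h (P (nat_lit 0)) (M (nat_lit 31834555487518457855)))) (T.h (P (nat_lit 0)) (M (nat_lit 15224186350770061311)))) (T.h (T.h (P (nat_lit 0)) (T.h (T.h (P (nat_lit 0)) (M (nat_lit 24086699684003839))) (P (nat_lit 0)))) (M (nat_lit 109294943314378751))))))]
def lP22_33 : List (T ℤ) := [(T.h (T.h (P (nat_lit 0)) (T.h (T.h (P (nat_lit 5365436076063364494613544960)) (T.h (P (nat_lit 0)) (T.h (M (nat_lit 23003241910279304380415)) (T.h (P (nat_lit 0)) (M (nat_lit 4868192976011263)))))) (T.h (P (nat_lit 0)) (T.h (T.h (M (nat_lit 2829647422335983026175)) (T.h (P (nat_lit 0)) (P (nat_lit 6090253865844736)))) (T.h (P (nat_lit 0)) (P (nat_lit 8555427069952000))))))) (T.h (T.h (T.h (P (nat_lit 0)) (T.h (M (nat_lit 13089024482181258328145919)) (T.h (P (nat_lit 0)) (T.h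 (M (nat_lit 32647441060556963839)) (T.h (P (nat_lit 0)) (P (nat_lit 4237866999168))))))) (T.h (P (nat_lit 0)) (T.h (T.h (P (nat_lit 0)) (T.h (P (nat_lit 25093469970943180800)) (T.h (P (nat_lit 0)) (P (nat_lit 3390121286400))))) (T.h (P (nat_lit 0)) (T.h (T.h (P (nat_lit 0)) (M (nat_lit 4085685683903))) (P (nat_lit 0))))))) (T.h (T.h (P (nat_lit 0)) (T.h (T.h (P (nat_lit 16692309233254172459008)) (T.h (P (nat_lit 0)) (P (nat_lit 26953724719824896)))) (T.h (P (nat_lit 0)) (P (nat_lit 17366088078819328))))) (T.h (T.h (T.h (P (nat_lit 0)) (T.h (M (nat_lit 36766634793414688767)) (T.h (P (nat_lit 0)) (P (nat_lit 2377596206784))))) (T.h (P (nat_lit 0)) (T.h (T.h (P (nat_lit 0)) (P (nat_lit 13661142254976))) (P (nat_lit 0))))) (T.h (T.h (P (nat_lit 0)) (M (nat_lit 24295617010860031))) (T.h (T.h (T.h (P (nat_lit 0)) (M (nat_lit 1283713304399))) (P (nat_lit 0))) (P (nat_lit 0)))))))), (T.h (T.h (P (nat_lit 0)) (T.h (T.h (P (nat_lit 0)) (T.h (P (nat_lit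 1786891951884896965754880)) (T.h (P (nat_lit 0)) (M (nat_lit 27420855437877051391))))) (T.h (P (nat_lit 0)) (T.h (T.h (P (nat_lit 0)) (M (nat_lit 27420855437877051391))) (P (nat_lit 0)))))) (T.h (T.h (T.h (M (nat_lit 14143915709784305992583872511)) (T.h (P (nat_lit 0)) (T.h (P (nat_lit 71315698274066231197696)) (T.h (P (nat_lit 0)) (M (nat_lit 8208545001439231)))))) (T.h (P (nat_lit 0)) (T.h (T.h (P (nat_lit 71315698274066231197696)) (T.h (P (nat_lit 0)) (M (nat_lit 50991262593449983)))) (T.h (P (nat_lit 0)) (M (nat_lit 8208545001439231)))))) (T.h (T.h (P (nat_lit 0)) (T.h (T.h (P (nat_lit 0)) (P (nat_lit 20838505919270617088))) (P (nat_lit 0)))) (T.h (T.h (T.h (M (nat_lit 5554121537654855041023)) (T.h (P (nat_lit 0)) (M (nat_lit 32756148533133311)))) (T.h (P (nat_lit 0)) (M (nat_lit 32756148533133311)))) (T.h (P (nat_lit 0)) (M (nat_lit 26821480240742399))))))), (T.h (T.h (T.h (M (nat_lit 848019981192476839092825358335)) (T.h (P (nat_lit 0))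 (T.h (P (nat_lit 10653213847725133906575360)) (T.h (P (nat_lit 0)) (P (nat_lit 11113978180799561728)))))) (T.h (P (nat_lit 0)) (T.h (T.h (M (nat_lit 6614624667399100999663615)) (T.h (P (nat_lit 0)) (P (nat_lit 3947790254513061888)))) (T.h (P (nat_lit 0)) (M (nat_lit 30926891337990012927)))))) (T.h (T.h (P (nat_lit 0)) (T.h (T.h (P (nat_lit 0)) (T.h (P (nat_lit 41729021910207325798400)) (T.h (P (nat_lit 0)) (M (nat_lit 8839026266406911))))) (T.h (P (nat_lit 0)) (T.h (T.h (P (nat_lit 0)) (P (nat_lit 5405502678335488))) (P (nat_lit 0)))))) (T.h (T.h (T.h (P (nat_lit 3438041479358372487626752)) (T.h (P (nat_lit 0)) (M (nat_lit 3300389089831813119)))) (T.h (P (nat_lit 0)) (M (nat_lit 19910758226580209663)))) (T.h (T.h (P (nat_lit 0)) (T.h (T.h (P (nat_lit 0)) (M (nat_lit 4819333066915839))) (P (nat_lit 0)))) (M (nat_lit 3512947433225060351)))))), (T.h (T.h (P (nat_lit 0)) (T.h (T.h (P (nat_lit 0)) (T.h (M (nat_lit 2367679197508544791314431)) (T.h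 (P (nat_lit 0)) (T.h (P (nat_lit 18224543686039961600)) (T.h (P (nat_lit 0)) (M (nat_lit 1410206002847))))))) (T.h (P (nat_lit 0)) (T.h (T.h (P (nat_lit 0)) (T.h (P (nat_lit 18224543686039961600)) (T.h (P (nat_lit 0)) (M (nat_lit 4452436307519))))) (T.h (P (nat_lit 0)) (T.h (T.h (P (nat_lit 0)) (M (nat_lit 1410206002847))) (P (nat_lit 0)))))))) (T.h (T.h (T.h (P (nat_lit 6708703288543951383055826944)) (T.h (P (nat_lit 0)) (T.h (P (nat_lit 7081154464611636871168)) (T.h (P (nat_lit 0)) (P (nat_lit 11912089370230784)))))) (T.h (P (nat_lit 0)) (T.h (T.h (P (nat_lit 7081154464611636871168)) (T.h (P (nat_lit 0)) (P (nat_lit 22001358117797888)))) (T.h (P (nat_lit 0)) (P (nat_lit 11912089370230784)))))) (T.h (T.h (P (nat_lit 0)) (T.h (T.h (P (nat_lit 0)) (T.h (P (nat_lit 16662209236586987520)) (T.h (P (nat_lit 0)) (M (nat_lit 8843966445503))))) (T.h (P (nat_lit 0)) (T.h (T.h (P (nat_lit 0)) (M (nat_lit 8843966445503))) (P (nat_lit 0)))))) (T.h (T.h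 (T.h (P (nat_lit 8639614918792361017344)) (T.h (P (nat_lit 0)) (P (nat_lit 19820659190398976)))) (T.h (P (nat_lit 0)) (P (nat_lit 19820659190398976)))) (T.h (T.h (P (nat_lit 0)) (T.h (T.h (P (nat_lit 0)) (P (nat_lit 14111840784000))) (P (nat_lit 0)))) (M (nat_lit 12079869476732927))))))), (T.h (T.h (P (nat_lit 0)) (T.h (T.h (P (nat_lit 2547540643335990035118817280)) (T.h (P (nat_lit 0)) (T.h (M (nat_lit 19946718446392155570175)) (T.h (P (nat_lit 0)) (P (nat_lit 3801332291633152)))))) (T.h (P (nat_lit 0)) (T.h (T.h (P (nat_lit 392783585823669878784)) (T.h (P (nat_lit 0)) (P (nat_lit 3402133379809280)))) (T.h (P (nat_lit 0)) (M (nat_lit 965174953410559))))))) (T.h (T.h (T.h (P (nat_lit 0)) (T.h (M (nat_lit 18381355421258832978903039)) (T.h (P (nat_lit 0)) (M (nat_lit 23203781688285986815))))) (T.h (P (nat_lit 0)) (T.h (T.h (P (nat_lit 0)) (M (nat_lit 36613268445365010431))) (P (nat_lit 0))))) (T.h (T.h (P (nat_lit 0)) (T.h (T.h (P (nat_lit 34455666698401404157952))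 (T.h (P (nat_lit 0)) (M (nat_lit 4932788028899327)))) (T.h (P (nat_lit 0)) (P (nat_lit 584082030985216))))) (T.h (T.h (T.h (P (nat_lit 0)) (P (nat_lit 7114211940729094144))) (P (nat_lit 0))) (T.h (T.h (P (nat_lit 0)) (M (nat_lit 2625970948095999))) (P (nat_lit 0))))))), (T.h (T.h (T.h (P (nat_lit 0)) (T.h (P (nat_lit 2547540643335990035118817280)) (T.h (P (nat_lit 0)) (T.h (P (nat_lit 392783585823669878784)) (T.h (P (nat_lit 0)) (M (nat_lit 965174953410559))))))) (T.h (P (nat_lit 0)) (T.h (T.h (P (nat_lit 0)) (T.h (M (nat_lit 19946718446392155570175)) (T.h (P (nat_lit 0)) (P (nat_lit 3402133379809280))))) (T.h (P (nat_lit 0)) (T.h (T.h (P (nat_lit 0)) (P (nat_lit 3801332291633152))) (P (nat_lit 0))))))) (T.h (T.h (P (nat_lit 0)) (T.h (T.h (M (nat_lit 18381355421258832978903039)) (T.h (P (nat_lit 0)) (M (nat_lit 36613268445365010431)))) (T.h (P (nat_lit 0)) (M (nat_lit 23203781688285986815))))) (T.h (T.h (T.h (P (nat_lit 0)) (T.h (P (nat_lit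 34455666698401404157952)) (T.h (P (nat_lit 0)) (P (nat_lit 584082030985216))))) (T.h (P (nat_lit 0)) (T.h (T.h (P (nat_lit 0)) (M (nat_lit 4932788028899327))) (P (nat_lit 0))))) (T.h (T.h (P (nat_lit 0)) (P (nat_lit 7114211940729094144))) (T.h (T.h (T.h (P (nat_lit 0)) (M (nat_lit 2625970948095999))) (P (nat_lit 0))) (P (nat_lit 0))))))), (T.h (T.h (T.h (M (nat_lit 2172631954831739215942938263551)) (T.h (P (nat_lit 0)) (T.h (M (nat_lit 3113098526908072926904319)) (T.h (P (nat_lit 0)) (M (nat_lit 3128846296169840639)))))) (T.h (P (nat_lit 0)) (T.h (T.h (M (nat_lit 3113098526908072926904319)) (T.h (P (nat_lit 0)) (M (nat_lit 5441742847361417215)))) (T.h (P (nat_lit 0)) (M (nat_lit 3128846296169840639)))))) (T.h (T.h (P (nat_lit 0)) (T.h (T.h (P (nat_lit 0)) (T.h (M (nat_lit 6096585033635921395711)) (T.h (P (nat_lit 0)) (P (nat_lit 6037481093464064))))) (T.h (P (nat_lit 0)) (T.h (T.h (P (nat_lit 0)) (P (nat_lit 6037481093464064))) (P (nat_lit 0))))))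 (T.h (T.h (T.h (M (nat_lit 7101092557652367280963583)) (T.h (P (nat_lit 0)) (M (nat_lit 11923797260938248191)))) (T.h (P (nat_lit 0)) (M (nat_lit 11923797260938248191)))) (T.h (T.h (P (nat_lit 0)) (T.h (T.h (P (nat_lit 0)) (M (nat_lit 19267366617087999))) (P (nat_lit 0)))) (P (nat_lit 3403652489910681600))))))]

def CP22 : List (T ℤ) := lP22_0 ++ (lP22_1 ++ (lP22_2 ++ (lP22_3 ++ (lP22_4 ++ (lP22_5 ++ (lP22_6 ++ (lP22_7 ++ (lP22_8 ++ (lP22_9 ++ (lP22_10 ++ (lP22_11 ++ (lP22_12 ++ (lP22_13 ++ (lP22_14 ++ (lP22_15 ++ (lP22_16 ++ (lP22_17 ++ (lP22_18 ++ (lP22_19 ++ (lP22_20 ++ (lP22_21 ++ (lP22_22 ++ (lP22_23 ++ (lP22_24 ++ (lP22_25 ++ (lP22_26 ++ (lP22_27 ++ (lP22_28 ++ (lP22_29 ++ (lP22_30 ++ (lP22_31 ++ (lP22_32 ++ (lP22_33)))))))))))))))))))))))))))))))))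

/-- norms at radius 1536 -/
def NP22 : List ℕ := [(nat_lit 0), (nat_lit 4410501400340933843783516160000), (nat_lit 0), (nat_lit 0), (nat_lit 494649966725257697485269749465088), (nat_lit 1741280545741802917354271309561856), (nat_lit 1298289750583860843312445952884736), (nat_lit 1741280545741802917354271309561856), (nat_lit 540489967827937282607649061339136), (nat_lit 0), (nat_lit 0), (nat_lit 0), (nat_lit 1329510867508963843657844045905920), (nat_lit 2248618041061839809868342711287808), (nat_lit 1700720524737998732520727504748544), (nat_lit 1854088543177440806441156886921216), (nat_lit 757869054131283449247902466048000), (nat_lit 0), (nat_lit 0), (nat_lit 0), (nat_lit 3092065859416344805118412356321280), (nat_lit 3165445829442172797496873048866816), (nat_lit 4327746780672320838813177452953600), (nat_lit 2234653400492598801573892319084544), (nat_lit 768651863051437294372472271929344), (nat_lit 0), (nat_lit 0), (nat_lit 1329510867508963843657844045905920),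 (nat_lit 3165445829442172797496873048866816), (nat_lit 4830876031400812755072195722477568), (nat_lit 3574663513163537387540341485207552), (nat_lit 1623359920587802913536900035772416), (nat_lit 0), (nat_lit 0), (nat_lit 494649966725257697485269749465088), (nat_lit 2248618041061839809868342711287808), (nat_lit 4327746780672320838813177452953600), (nat_lit 3574663513163537387540341485207552), (nat_lit 1855152369477198666651802007502848), (nat_lit 0), (nat_lit 0), (nat_lit 1741280545741802917354271309561856), (nat_lit 1700720524737998732520727504748544), (nat_lit 2234653400492598801573892319084544), (nat_lit 1623359920587802913536900035772416), (nat_lit 0), (nat_lit 0), (nat_lit 1298289750583860843312445952884736), (nat_lit 1854088543177440806441156886921216), (nat_lit 768651863051437294372472271929344), (nat_lit 0), (nat_lit 0), (nat_lit 1741280545741802917354271309561856), (nat_lit 757869054131283449247902466048000), (nat_lit 0), (nat_lit 0),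 (nat_lit 540489967827937282607649061339136), (nat_lit 0), (nat_lit 0), (nat_lit 0), (nat_lit 0), (nat_lit 0), (nat_lit 1329510867508963843657844045905920), (nat_lit 2561953150128489491619702229696512), (nat_lit 1700720524737998732520727504748544), (nat_lit 1854088543177440806441156886921216), (nat_lit 757869054131283449247902466048000), (nat_lit 0), (nat_lit 0), (nat_lit 713649321919874451129109963603968), (nat_lit 7863648424772611053021553701683200), (nat_lit 1855968684642193835438318070792192), (nat_lit 7359797663696028802899212492603392), (nat_lit 2349967942813161412841034095788032), (nat_lit 0), (nat_lit 0), (nat_lit 713649321919874451129109963603968), (nat_lit 11203165720824683452229161448374272), (nat_lit 4685467137819026435406046873780224), (nat_lit 7342244838134247392484923296186368), (nat_lit 3175339065348844877886902891446272), (nat_lit 0), (nat_lit 0), (nat_lit 1329510867508963843657844045905920), (nat_lit 6550731855269318731149782452011008),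 (nat_lit 4685467137819026435406046873780224), (nat_lit 5782740490319792936400157698686976), (nat_lit 2070733505592697315115643294449664), (nat_lit 0), (nat_lit 0), (nat_lit 3551232856403137423361779483803648), (nat_lit 1855968684642193835438318070792192), (nat_lit 7342244838134247392484923296186368), (nat_lit 2070733505592697315115643294449664), (nat_lit 0), (nat_lit 1175872935149321118640635409072128), (nat_lit 1700720524737998732520727504748544), (nat_lit 7359797663696028802899212492603392), (nat_lit 3175339065348844877886902891446272), (nat_lit 0), (nat_lit 0), (nat_lit 1854088543177440806441156886921216), (nat_lit 2349967942813161412841034095788032), (nat_lit 0), (nat_lit 0), (nat_lit 757869054131283449247902466048000), (nat_lit 0), (nat_lit 0), (nat_lit 0), (nat_lit 4410501400340933843783516160000), (nat_lit 0), (nat_lit 0), (nat_lit 3142160884428377241108536899928064), (nat_lit 5058189056066490536860635038220288), (nat_lit 4089476329940135564537071574974464),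 (nat_lit 2169018846444348141930800870326272), (nat_lit 1014132167817417991535856596287488), (nat_lit 0), (nat_lit 0), (nat_lit 1453508147553715977518547097092096), (nat_lit 7039888235616019277990820178821120), (nat_lit 5292750311794916158892586955702272), (nat_lit 7322814881653791520020422430031872), (nat_lit 3754313029639671762673784598822912), (nat_lit 0), (nat_lit 0), (nat_lit 4230822384043980658109828120444928), (nat_lit 7837224689355206064146646608904192), (nat_lit 8606129157481806132557497847775232), (nat_lit 4741239593737934818994753403617280), (nat_lit 3104976135203680968895244592480256), (nat_lit 0), (nat_lit 1329510867508963843657844045905920), (nat_lit 8205981049776770902329686048636928), (nat_lit 5371025356135895565637701391613952), (nat_lit 4305815898931787374752493096402944), (nat_lit 3021409309779914606323491051405312), (nat_lit 494649966725257697485269749465088), (nat_lit 3551232856403137423361779483803648), (nat_lit 5955706957833398312287136229883904),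 (nat_lit 6375551800006954578718946343518208), (nat_lit 1890984042224046903000383289819136), (nat_lit 1741280545741802917354271309561856), (nat_lit 1700720524737998732520727504748544), (nat_lit 3443566318388296434462190076952576), (nat_lit 3502360287728752055862947204825088), (nat_lit 1298289750583860843312445952884736), (nat_lit 1854088543177440806441156886921216), (nat_lit 1042562424682768316836534550528000), (nat_lit 1741280545741802917354271309561856), (nat_lit 757869054131283449247902466048000), (nat_lit 540489967827937282607649061339136), (nat_lit 0), (nat_lit 0), (nat_lit 1678311296475715023670182854787072), (nat_lit 6497481489370316923492902604111872), (nat_lit 5584857754468618016570971974008832), (nat_lit 4386709798619736639917169901043712), (nat_lit 2045809851980953000458586630914048), (nat_lit 0), (nat_lit 0), (nat_lit 1453508147553715977518547097092096), (nat_lit 12042588475816036409918077106388992), (nat_lit 6009358088695069043266952758296576),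 (nat_lit 8976614875322630257240994446573568), (nat_lit 4007197325917602068153942264512512), (nat_lit 0), (nat_lit 713649321919874451129109963603968), (nat_lit 7837224689355206064146646608904192), (nat_lit 8802452858287129364983436059607040), (nat_lit 9490856505606307675797257396944896), (nat_lit 5525699691885832892978019572908032), (nat_lit 1329510867508963843657844045905920), (nat_lit 6550731855269318731149782452011008), (nat_lit 5371025356135895565637701391613952), (nat_lit 9513082684962612466866675316162560), (nat_lit 3789579576202764411847603283558400), (nat_lit 2248618041061839809868342711287808), (nat_lit 1855968684642193835438318070792192), (nat_lit 6375551800006954578718946343518208), (nat_lit 4067250353145525398679490161278976), (nat_lit 1700720524737998732520727504748544), (nat_lit 7359797663696028802899212492603392), (nat_lit 3502360287728752055862947204825088), (nat_lit 1854088543177440806441156886921216), (nat_lit 2349967942813161412841034095788032),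 (nat_lit 757869054131283449247902466048000), (nat_lit 0), (nat_lit 0), (nat_lit 3142160884428377241108536899928064), (nat_lit 6497481489370316923492902604111872), (nat_lit 7726251220828411856411878391545856), (nat_lit 4367820989197141043261043590037504), (nat_lit 2296655128557598482379105028276224), (nat_lit 0), (nat_lit 713649321919874451129109963603968), (nat_lit 7039888235616019277990820178821120), (nat_lit 6009358088695069043266952758296576), (nat_lit 10017459678006130814905942724837376), (nat_lit 3579867592193287716297413014585344), (nat_lit 3092065859416344805118412356321280), (nat_lit 11203165720824683452229161448374272), (nat_lit 8606129157481806132557497847775232), (nat_lit 9490856505606307675797257396944896), (nat_lit 5837983874596197491494729109471232), (nat_lit 3165445829442172797496873048866816), (nat_lit 4685467137819026435406046873780224), (nat_lit 4305815898931787374752493096402944), (nat_lit 3789579576202764411847603283558400),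 (nat_lit 4327746780672320838813177452953600), (nat_lit 7342244838134247392484923296186368), (nat_lit 1890984042224046903000383289819136), (nat_lit 2234653400492598801573892319084544), (nat_lit 3175339065348844877886902891446272), (nat_lit 768651863051437294372472271929344), (nat_lit 0), (nat_lit 1329510867508963843657844045905920), (nat_lit 5058189056066490536860635038220288), (nat_lit 5584857754468618016570971974008832), (nat_lit 4367820989197141043261043590037504), (nat_lit 3233470461636411021360135351042048), (nat_lit 1329510867508963843657844045905920), (nat_lit 7863648424772611053021553701683200), (nat_lit 5292750311794916158892586955702272), (nat_lit 8976614875322630257240994446573568), (nat_lit 3579867592193287716297413014585344), (nat_lit 3165445829442172797496873048866816), (nat_lit 4685467137819026435406046873780224), (nat_lit 4741239593737934818994753403617280), (nat_lit 5525699691885832892978019572908032), (nat_lit 4830876031400812755072195722477568),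 (nat_lit 5782740490319792936400157698686976), (nat_lit 3021409309779914606323491051405312), (nat_lit 3574663513163537387540341485207552), (nat_lit 2070733505592697315115643294449664), (nat_lit 1623359920587802913536900035772416), (nat_lit 494649966725257697485269749465088), (nat_lit 2561953150128489491619702229696512), (nat_lit 4089476329940135564537071574974464), (nat_lit 4386709798619736639917169901043712), (nat_lit 2296655128557598482379105028276224), (nat_lit 2248618041061839809868342711287808), (nat_lit 1855968684642193835438318070792192), (nat_lit 7322814881653791520020422430031872), (nat_lit 4007197325917602068153942264512512), (nat_lit 4327746780672320838813177452953600), (nat_lit 7342244838134247392484923296186368), (nat_lit 3104976135203680968895244592480256), (nat_lit 3574663513163537387540341485207552), (nat_lit 2070733505592697315115643294449664), (nat_lit 1855152369477198666651802007502848), (nat_lit 1741280545741802917354271309561856),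 (nat_lit 1700720524737998732520727504748544), (nat_lit 2169018846444348141930800870326272), (nat_lit 2045809851980953000458586630914048), (nat_lit 1700720524737998732520727504748544), (nat_lit 7359797663696028802899212492603392), (nat_lit 3754313029639671762673784598822912), (nat_lit 2234653400492598801573892319084544), (nat_lit 3175339065348844877886902891446272), (nat_lit 1623359920587802913536900035772416), (nat_lit 1298289750583860843312445952884736), (nat_lit 1854088543177440806441156886921216), (nat_lit 1014132167817417991535856596287488), (nat_lit 1854088543177440806441156886921216), (nat_lit 2349967942813161412841034095788032), (nat_lit 768651863051437294372472271929344), (nat_lit 1741280545741802917354271309561856), (nat_lit 757869054131283449247902466048000), (nat_lit 757869054131283449247902466048000), (nat_lit 540489967827937282607649061339136)]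


end Pool.Agent.TOPR.R6104
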