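import Pool.Agent.Helper10.TOP.PR
import Pool.Agent.TOPR.R6104.Lit

set_option autoImplicit false
set_option linter.all false
set_option maxRecDepth 100000

namespace Pool.Agent.TOPR.R6104

open Helper10.PC hiding V3
open Helper80.CW.DL Pool.Agent.Helper6.TOP

theorem nl_Qp : nlOK 1536 CQp NQp = true := by decide +kernel
theorem nl_Qm : nlOK 1536 CQm NQm = true := by decide +kernel
theorem nl_P11 : nlOK 1536 CP11 NP11 = true := by decide +kernel
theorem nl_P12 : nlOK 1536 CP12 NP12 = true := by decide +kernel
theorem nl_P22 : nlOK 1536 CP22 NP22 = true := by decide +kernel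

end Pool.Agent.TOPR.R6104
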