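import Pool.Agent.TOPR.R6104.Cert

set_option autoImplicit false
set_option linter.all false
set_option maxRecDepth 100000

namespace Pool.Agent.TOPR.R6104

open Helper10.PC hiding V3
open Helper80.CW.DL Pool.Agent.Helper6.TOP

def et0_0 : T ℤ := (T.h (T.h (T.h (T.h (T.h (P (nat_lit 6782664)) (T.h (P (nat_lit 0)) (T.h (P (nat_lit 332939228)) (T.h (P (nat_lit 0)) (T.h (P (nat_lit 47058822372)) (T.h (P (nat_lit 0)) (M (nat_lit 345143626391)))))))) (T.h (P (nat_lit 0)) (T.h (T.h (M (nat_lit 217022231)) (T.h (P (nat_lit 0)) (T.h (P (nat_lit 28867320688)) (T.h (P (nat_lit 0)) (M (nat_lit 676978513867)))))) (T.h (P (nat_lit 0)) (T.h (T.h (M (nat_lit 9282598159)) (T.h (P (nat_lit 0)) (M (nat_lit 996547276359)))) (T.h (P (nat_lit 0)) (P (nat_lit 615796970808)))))))) (T.h (T.h (P (nat_lit 0)) (T.h (T.h (P (nat_lit 0)) (T.h (P (nat_lit 7203364872)) (T.h (P (nat_lit 0)) (M (nat_lit 174985719703)))))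 (T.h (P (nat_lit 0)) (T.h (T.h (P (nat_lit 0)) (M (nat_lit 231631250007))) (P (nat_lit 0)))))) (T.h (T.h (T.h (P (nat_lit 332939228)) (T.h (P (nat_lit 0)) (T.h (P (nat_lit 25428773568)) (T.h (P (nat_lit 0)) (M (nat_lit 296176268867)))))) (T.h (P (nat_lit 0)) (T.h (T.h (P (nat_lit 28867320688)) (T.h (P (nat_lit 0)) (M (nat_lit 1109739429439)))) (T.h (P (nat_lit 0)) (M (nat_lit 996547276359)))))) (T.h (T.h (P (nat_lit 0)) (T.h (T.h (P (nat_lit 0)) (M (nat_lit 174985719703))) (P (nat_lit 0)))) (T.h (T.h (T.h (P (nat_lit 47058822372)) (T.h (P (nat_lit 0)) (M (nat_lit 296176268867)))) (T.h (P (nat_lit 0)) (M (nat_lit 676978513867)))) (T.h (P (nat_lit 0)) (M (nat_lit 345143626391)))))))) (T.h (P (nat_lit 0)) (T.h (T.h (T.h (T.h (P (nat_lit 192917116)) (T.h (P (nat_lit 0)) (T.h (P (nat_lit 641435984)) (T.h (P (nat_lit 0)) (T.h (M (nat_lit 117148459707)) (T.h (P (nat_lit 0)) (P (nat_lit 1193402732900))))))))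 (T.h (P (nat_lit 0)) (T.h (T.h (P (nat_lit 2218479984)) (T.h (P (nat_lit 0)) (T.h (P (nat_lit 527069915176)) (T.h (P (nat_lit 0)) (M (nat_lit 7423215975195)))))) (T.h (P (nat_lit 0)) (T.h (T.h (P (nat_lit 51036647648)) (T.h (P (nat_lit 0)) (M (nat_lit 9394428714635)))) (T.h (P (nat_lit 0)) (P (nat_lit 2126783084188)))))))) (T.h (T.h (P (nat_lit 0)) (T.h (T.h (P (nat_lit 0)) (T.h (M (nat_lit 239614351703)) (T.h (P (nat_lit 0)) (P (nat_lit 1153068948360))))) (T.h (P (nat_lit 0)) (T.h (T.h (P (nat_lit 0)) (P (nat_lit 4285261849848))) (P (nat_lit 0)))))) (T.h (T.h (T.h (M (nat_lit 5436688543)) (T.h (P (nat_lit 0)) (T.h (M (nat_lit 76795579643)) (T.h (P (nat_lit 0)) (M (nat_lit 3841592101955)))))) (T.h (P (nat_lit 0)) (T.h (T.h (P (nat_lit 354669589288)) (T.h (P (nat_lit 0)) (M (nat_lit 3569392817395)))) (T.h (P (nat_lit 0)) (P (nat_lit 4113155756528)))))) (T.h (T.h (P (nat_lit 0)) (T.h (T.h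 (P (nat_lit 0)) (M (nat_lit 8311499524775))) (P (nat_lit 0)))) (T.h (T.h (T.h (P (nat_lit 120894991980)) (T.h (P (nat_lit 0)) (P (nat_lit 1683063121768)))) (T.h (P (nat_lit 0)) (P (nat_lit 2167841565932)))) (T.h (P (nat_lit 0)) (P (nat_lit 451902888836)))))))) (P (nat_lit 0))))) (T.h (T.h (P (nat_lit 0)) (T.h (T.h (T.h (P (nat_lit 0)) (T.h (T.h (P (nat_lit 0)) (T.h (P (nat_lit 9967906396)) (T.h (P (nat_lit 0)) (T.h (M (nat_lit 49011928979)) (T.h (P (nat_lit 0)) (M (nat_lit 760238986359))))))) (T.h (P (nat_lit 0)) (T.h (T.h (P (nat_lit 0)) (T.h (P (nat_lit 15723513960)) (T.h (P (nat_lit 0)) (M (nat_lit 1077183592771))))) (T.h (P (nat_lit 0)) (T.h (T.h (P (nat_lit 0)) (M (nat_lit 2965260309143))) (P (nat_lit 0)))))))) (T.h (T.h (T.h (M (nat_lit 134196299)) (T.h (P (nat_lit 0)) (T.h (P (nat_lit 37882901784)) (T.h (P (nat_lit 0)) (P (nat_lit 367798323844)))))) (T.h (P (nat_lit 0)) (T.h (T.h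 (M (nat_lit 32859184791)) (T.h (P (nat_lit 0)) (P (nat_lit 1244529004656)))) (T.h (P (nat_lit 0)) (M (nat_lit 141801487267)))))) (T.h (T.h (P (nat_lit 0)) (T.h (T.h (P (nat_lit 0)) (T.h (P (nat_lit 409982652688)) (T.h (P (nat_lit 0)) (P (nat_lit 1020256697320))))) (T.h (P (nat_lit 0)) (T.h (T.h (P (nat_lit 0)) (M (nat_lit 4783771645379))) (P (nat_lit 0)))))) (T.h (T.h (T.h (M (nat_lit 1501878223)) (T.h (P (nat_lit 0)) (P (nat_lit 1013249442436)))) (T.h (P (nat_lit 0)) (M (nat_lit 1711163252931)))) (T.h (T.h (P (nat_lit 0)) (T.h (T.h (P (nat_lit 0)) (P (nat_lit 1655627430156))) (P (nat_lit 0)))) (M (nat_lit 179362421111))))))) (P (nat_lit 0)))) (T.h (T.h (T.h (T.h (T.h (M (nat_lit 16680719)) (T.h (P (nat_lit 0)) (T.h (M (nat_lit 108998987)) (T.h (P (nat_lit 0)) (T.h (M (nat_lit 52565159219)) (T.h (P (nat_lit 0)) (P (nat_lit 277373345900)))))))) (T.h (P (nat_lit 0)) (T.h (T.h (P (nat_lit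 521500000)) (T.h (P (nat_lit 0)) (T.h (M (nat_lit 51931273015)) (T.h (P (nat_lit 0)) (P (nat_lit 1173024438992)))))) (T.h (P (nat_lit 0)) (T.h (T.h (P (nat_lit 21709055592)) (T.h (P (nat_lit 0)) (P (nat_lit 1746651656932)))) (T.h (P (nat_lit 0)) (M (nat_lit 1436336119007)))))))) (T.h (T.h (P (nat_lit 0)) (T.h (T.h (P (nat_lit 0)) (T.h (M (nat_lit 16836564863)) (T.h (P (nat_lit 0)) (P (nat_lit 326768644636))))) (T.h (P (nat_lit 0)) (T.h (T.h (P (nat_lit 0)) (P (nat_lit 537650319696))) (P (nat_lit 0)))))) (T.h (T.h (T.h (M (nat_lit 108998987)) (T.h (P (nat_lit 0)) (T.h (M (nat_lit 59708306839)) (T.h (P (nat_lit 0)) (P (nat_lit 435435003556)))))) (T.h (P (nat_lit 0)) (T.h (T.h (M (nat_lit 51931273015)) (T.h (P (nat_lit 0)) (P (nat_lit 2588578176128)))) (T.h (P (nat_lit 0)) (P (nat_lit 1746651656932)))))) (T.h (T.h (P (nat_lit 0)) (T.h (T.h (P (nat_lit 0)) (P (nat_lit 326768644636))) (P (nat_lit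 0)))) (T.h (T.h (T.h (M (nat_lit 52565159219)) (T.h (P (nat_lit 0)) (P (nat_lit 435435003556)))) (T.h (P (nat_lit 0)) (P (nat_lit 1173024438992)))) (T.h (P (nat_lit 0)) (P (nat_lit 277373345900)))))))) (P (nat_lit 0))) (P (nat_lit 0)))))
def et0_1 : T ℤ := (T.h (T.h (P (nat_lit 0)) (T.h (P (nat_lit 0)) (T.h (T.h (T.h (T.h (M (nat_lit 125095223)) (T.h (P (nat_lit 0)) (T.h (M (nat_lit 2493518615)) (T.h (P (nat_lit 0)) (T.h (M (nat_lit 21958357703)) (T.h (P (nat_lit 0)) (M (nat_lit 470420906279)))))))) (T.h (P (nat_lit 0)) (T.h (T.h (M (nat_lit 2493518615)) (T.h (P (nat_lit 0)) (T.h (M (nat_lit 706981019479)) (T.h (P (nat_lit 0)) (P (nat_lit 4557626449020)))))) (T.h (P (nat_lit 0)) (T.h (T.h (M (nat_lit 21958357703)) (T.h (P (nat_lit 0)) (P (nat_lit 4557626449020)))) (T.h (P (nat_lit 0)) (M (nat_lit 470420906279)))))))) (T.h (T.h (P (nat_lit 0)) (T.h (T.h (P (nat_lit 0)) (T.h (P (nat_lit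 183194821576)) (T.h (P (nat_lit 0)) (M (nat_lit 2489506187175))))) (T.h (P (nat_lit 0)) (T.h (T.h (P (nat_lit 0)) (M (nat_lit 2489506187175))) (P (nat_lit 0)))))) (T.h (T.h (T.h (P (nat_lit 6513289704)) (T.h (P (nat_lit 0)) (T.h (P (nat_lit 87312839424)) (T.h (P (nat_lit 0)) (M (nat_lit 260526726303)))))) (T.h (P (nat_lit 0)) (T.h (T.h (P (nat_lit 87312839424)) (T.h (P (nat_lit 0)) (P (nat_lit 700152090576)))) (T.h (P (nat_lit 0)) (M (nat_lit 260526726303)))))) (T.h (T.h (P (nat_lit 0)) (T.h (T.h (P (nat_lit 0)) (P (nat_lit 7595746427296))) (P (nat_lit 0)))) (T.h (T.h (T.h (M (nat_lit 42961248863)) (T.h (P (nat_lit 0)) (M (nat_lit 1415462131379)))) (T.h (P (nat_lit 0)) (M (nat_lit 1415462131379)))) (T.h (P (nat_lit 0)) (P (nat_lit 234508069752)))))))) (T.h (P (nat_lit 0)) (T.h (T.h (T.h (T.h (P (nat_lit 192917116)) (T.h (P (nat_lit 0)) (T.h (P (nat_lit 2218479984)) (T.h (P (nat_lit 0))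 (T.h (P (nat_lit 51036647648)) (T.h (P (nat_lit 0)) (P (nat_lit 2126783084188)))))))) (T.h (P (nat_lit 0)) (T.h (T.h (P (nat_lit 641435984)) (T.h (P (nat_lit 0)) (T.h (P (nat_lit 527069915176)) (T.h (P (nat_lit 0)) (M (nat_lit 9394428714635)))))) (T.h (P (nat_lit 0)) (T.h (T.h (M (nat_lit 117148459707)) (T.h (P (nat_lit 0)) (M (nat_lit 7423215975195)))) (T.h (P (nat_lit 0)) (P (nat_lit 1193402732900)))))))) (T.h (T.h (P (nat_lit 0)) (T.h (T.h (P (nat_lit 0)) (T.h (M (nat_lit 239614351703)) (T.h (P (nat_lit 0)) (P (nat_lit 4285261849848))))) (T.h (P (nat_lit 0)) (T.h (T.h (P (nat_lit 0)) (P (nat_lit 1153068948360))) (P (nat_lit 0)))))) (T.h (T.h (T.h (M (nat_lit 5436688543)) (T.h (P (nat_lit 0)) (T.h (P (nat_lit 354669589288)) (T.h (P (nat_lit 0)) (P (nat_lit 4113155756528)))))) (T.h (P (nat_lit 0)) (T.h (T.h (M (nat_lit 76795579643)) (T.h (P (nat_lit 0)) (M (nat_lit 3569392817395)))) (T.h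 (P (nat_lit 0)) (M (nat_lit 3841592101955)))))) (T.h (T.h (P (nat_lit 0)) (T.h (T.h (P (nat_lit 0)) (M (nat_lit 8311499524775))) (P (nat_lit 0)))) (T.h (T.h (T.h (P (nat_lit 120894991980)) (T.h (P (nat_lit 0)) (P (nat_lit 2167841565932)))) (T.h (P (nat_lit 0)) (P (nat_lit 1683063121768)))) (T.h (P (nat_lit 0)) (P (nat_lit 451902888836)))))))) (P (nat_lit 0))))))) (T.h (T.h (P (nat_lit 0)) (T.h (T.h (T.h (P (nat_lit 0)) (T.h (T.h (P (nat_lit 0)) (T.h (M (nat_lit 7965052375)) (T.h (P (nat_lit 0)) (T.h (P (nat_lit 24323092884)) (T.h (P (nat_lit 0)) (P (nat_lit 315662863296))))))) (T.h (P (nat_lit 0)) (T.h (T.h (P (nat_lit 0)) (T.h (M (nat_lit 86556606231)) (T.h (P (nat_lit 0)) (P (nat_lit 488614446024))))) (T.h (P (nat_lit 0)) (T.h (T.h (P (nat_lit 0)) (P (nat_lit 1574583566748))) (P (nat_lit 0)))))))) (T.h (T.h (T.h (M (nat_lit 82893367)) (T.h (P (nat_lit 0)) (T.h (M (nat_lit 17888036207))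 (T.h (P (nat_lit 0)) (M (nat_lit 34596957291)))))) (T.h (P (nat_lit 0)) (T.h (T.h (P (nat_lit 23257700760)) (T.h (P (nat_lit 0)) (M (nat_lit 1080616350747)))) (T.h (P (nat_lit 0)) (M (nat_lit 621513340587)))))) (T.h (T.h (P (nat_lit 0)) (T.h (T.h (P (nat_lit 0)) (T.h (M (nat_lit 319441167607)) (T.h (P (nat_lit 0)) (M (nat_lit 1952161146203))))) (T.h (P (nat_lit 0)) (T.h (T.h (P (nat_lit 0)) (P (nat_lit 3662286205552))) (P (nat_lit 0)))))) (T.h (T.h (T.h (P (nat_lit 8421882564)) (T.h (P (nat_lit 0)) (M (nat_lit 826143127631)))) (T.h (P (nat_lit 0)) (P (nat_lit 1276716980756)))) (T.h (T.h (P (nat_lit 0)) (T.h (T.h (P (nat_lit 0)) (M (nat_lit 2347491240799))) (P (nat_lit 0)))) (P (nat_lit 118462784600))))))) (T.h (P (nat_lit 0)) (T.h (T.h (T.h (P (nat_lit 0)) (T.h (T.h (P (nat_lit 0)) (T.h (P (nat_lit 14679077392)) (T.h (P (nat_lit 0)) (T.h (P (nat_lit 126886871272)) (T.h (P (nat_lit 0))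 (M (nat_lit 3584266743791))))))) (T.h (P (nat_lit 0)) (T.h (T.h (P (nat_lit 0)) (T.h (P (nat_lit 126886871272)) (T.h (P (nat_lit 0)) (M (nat_lit 10941748729015))))) (T.h (P (nat_lit 0)) (T.h (T.h (P (nat_lit 0)) (M (nat_lit 3584266743791))) (P (nat_lit 0)))))))) (T.h (T.h (T.h (M (nat_lit 233309607)) (T.h (P (nat_lit 0)) (T.h (M (nat_lit 75899871823)) (T.h (P (nat_lit 0)) (P (nat_lit 863033503724)))))) (T.h (P (nat_lit 0)) (T.h (T.h (M (nat_lit 75899871823)) (T.h (P (nat_lit 0)) (P (nat_lit 7356585339992)))) (T.h (P (nat_lit 0)) (P (nat_lit 863033503724)))))) (T.h (T.h (P (nat_lit 0)) (T.h (T.h (P (nat_lit 0)) (T.h (P (nat_lit 976929019584)) (T.h (P (nat_lit 0)) (P (nat_lit 3904085410764))))) (T.h (P (nat_lit 0)) (T.h (T.h (P (nat_lit 0)) (P (nat_lit 3904085410764))) (P (nat_lit 0)))))) (T.h (T.h (T.h (M (nat_lit 74934445431)) (T.h (P (nat_lit 0)) (M (nat_lit 1258156006323)))) (T.h (P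 (nat_lit 0)) (M (nat_lit 1258156006323)))) (T.h (T.h (P (nat_lit 0)) (T.h (T.h (P (nat_lit 0)) (P (nat_lit 7051565749368))) (P (nat_lit 0)))) (M (nat_lit 650357855671))))))) (P (nat_lit 0)))))) et0_0))
def et0_2 : T ℤ := (T.h (T.h (P (nat_lit 0)) (T.h (P (nat_lit 0)) (T.h (P (nat_lit 0)) (T.h (P (nat_lit 0)) (T.h (T.h (T.h (T.h (P (nat_lit 6782664)) (T.h (P (nat_lit 0)) (T.h (M (nat_lit 217022231)) (T.h (P (nat_lit 0)) (T.h (M (nat_lit 9282598159)) (T.h (P (nat_lit 0)) (P (nat_lit 615796970808)))))))) (T.h (P (nat_lit 0)) (T.h (T.h (P (nat_lit 332939228)) (T.h (P (nat_lit 0)) (T.h (P (nat_lit 28867320688)) (T.h (P (nat_lit 0)) (M (nat_lit 996547276359)))))) (T.h (P (nat_lit 0)) (T.h (T.h (P (nat_lit 47058822372)) (T.h (P (nat_lit 0)) (M (nat_lit 676978513867)))) (T.h (P (nat_lit 0)) (M (nat_lit 345143626391)))))))) (T.h (T.h (P (nat_lit 0)) (T.h (T.h (P (nat_lit 0)) (T.h (P (nat_lit 7203364872))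 (T.h (P (nat_lit 0)) (M (nat_lit 231631250007))))) (T.h (P (nat_lit 0)) (T.h (T.h (P (nat_lit 0)) (M (nat_lit 174985719703))) (P (nat_lit 0)))))) (T.h (T.h (T.h (P (nat_lit 332939228)) (T.h (P (nat_lit 0)) (T.h (P (nat_lit 28867320688)) (T.h (P (nat_lit 0)) (M (nat_lit 996547276359)))))) (T.h (P (nat_lit 0)) (T.h (T.h (P (nat_lit 25428773568)) (T.h (P (nat_lit 0)) (M (nat_lit 1109739429439)))) (T.h (P (nat_lit 0)) (M (nat_lit 296176268867)))))) (T.h (T.h (P (nat_lit 0)) (T.h (T.h (P (nat_lit 0)) (M (nat_lit 174985719703))) (P (nat_lit 0)))) (T.h (T.h (T.h (P (nat_lit 47058822372)) (T.h (P (nat_lit 0)) (M (nat_lit 676978513867)))) (T.h (P (nat_lit 0)) (M (nat_lit 296176268867)))) (T.h (P (nat_lit 0)) (M (nat_lit 345143626391)))))))) (T.h (P (nat_lit 0)) (T.h (T.h (T.h (T.h (M (nat_lit 16680719)) (T.h (P (nat_lit 0)) (T.h (P (nat_lit 521500000)) (T.h (P (nat_lit 0)) (T.h (P (nat_lit 21709055592))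 (T.h (P (nat_lit 0)) (M (nat_lit 1436336119007)))))))) (T.h (P (nat_lit 0)) (T.h (T.h (M (nat_lit 108998987)) (T.h (P (nat_lit 0)) (T.h (M (nat_lit 51931273015)) (T.h (P (nat_lit 0)) (P (nat_lit 1746651656932)))))) (T.h (P (nat_lit 0)) (T.h (T.h (M (nat_lit 52565159219)) (T.h (P (nat_lit 0)) (P (nat_lit 1173024438992)))) (T.h (P (nat_lit 0)) (P (nat_lit 277373345900)))))))) (T.h (T.h (P (nat_lit 0)) (T.h (T.h (P (nat_lit 0)) (T.h (M (nat_lit 16836564863)) (T.h (P (nat_lit 0)) (P (nat_lit 537650319696))))) (T.h (P (nat_lit 0)) (T.h (T.h (P (nat_lit 0)) (P (nat_lit 326768644636))) (P (nat_lit 0)))))) (T.h (T.h (T.h (M (nat_lit 108998987)) (T.h (P (nat_lit 0)) (T.h (M (nat_lit 51931273015)) (T.h (P (nat_lit 0)) (P (nat_lit 1746651656932)))))) (T.h (P (nat_lit 0)) (T.h (T.h (M (nat_lit 59708306839)) (T.h (P (nat_lit 0)) (P (nat_lit 2588578176128)))) (T.h (P (nat_lit 0)) (P (nat_lit 435435003556))))))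 (T.h (T.h (P (nat_lit 0)) (T.h (T.h (P (nat_lit 0)) (P (nat_lit 326768644636))) (P (nat_lit 0)))) (T.h (T.h (T.h (M (nat_lit 52565159219)) (T.h (P (nat_lit 0)) (P (nat_lit 1173024438992)))) (T.h (P (nat_lit 0)) (P (nat_lit 435435003556)))) (T.h (P (nat_lit 0)) (P (nat_lit 277373345900)))))))) (P (nat_lit 0))))))))) (T.h (T.h (P (nat_lit 0)) (T.h (P (nat_lit 0)) (T.h (P (nat_lit 0)) (T.h (T.h (T.h (P (nat_lit 0)) (T.h (T.h (P (nat_lit 0)) (T.h (M (nat_lit 7965052375)) (T.h (P (nat_lit 0)) (T.h (M (nat_lit 86556606231)) (T.h (P (nat_lit 0)) (P (nat_lit 1574583566748))))))) (T.h (P (nat_lit 0)) (T.h (T.h (P (nat_lit 0)) (T.h (P (nat_lit 24323092884)) (T.h (P (nat_lit 0)) (P (nat_lit 488614446024))))) (T.h (P (nat_lit 0)) (T.h (T.h (P (nat_lit 0)) (P (nat_lit 315662863296))) (P (nat_lit 0)))))))) (T.h (T.h (T.h (M (nat_lit 82893367)) (T.h (P (nat_lit 0)) (T.h (P (nat_lit 23257700760)) (T.h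 (P (nat_lit 0)) (M (nat_lit 621513340587)))))) (T.h (P (nat_lit 0)) (T.h (T.h (M (nat_lit 17888036207)) (T.h (P (nat_lit 0)) (M (nat_lit 1080616350747)))) (T.h (P (nat_lit 0)) (M (nat_lit 34596957291)))))) (T.h (T.h (P (nat_lit 0)) (T.h (T.h (P (nat_lit 0)) (T.h (M (nat_lit 319441167607)) (T.h (P (nat_lit 0)) (P (nat_lit 3662286205552))))) (T.h (P (nat_lit 0)) (T.h (T.h (P (nat_lit 0)) (M (nat_lit 1952161146203))) (P (nat_lit 0)))))) (T.h (T.h (T.h (P (nat_lit 8421882564)) (T.h (P (nat_lit 0)) (P (nat_lit 1276716980756)))) (T.h (P (nat_lit 0)) (M (nat_lit 826143127631)))) (T.h (T.h (P (nat_lit 0)) (T.h (T.h (P (nat_lit 0)) (M (nat_lit 2347491240799))) (P (nat_lit 0)))) (P (nat_lit 118462784600))))))) (T.h (P (nat_lit 0)) (T.h (T.h (T.h (P (nat_lit 0)) (T.h (T.h (P (nat_lit 0)) (T.h (P (nat_lit 9967906396)) (T.h (P (nat_lit 0)) (T.h (P (nat_lit 15723513960)) (T.h (P (nat_lit 0)) (M (nat_lit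 2965260309143))))))) (T.h (P (nat_lit 0)) (T.h (T.h (P (nat_lit 0)) (T.h (M (nat_lit 49011928979)) (T.h (P (nat_lit 0)) (M (nat_lit 1077183592771))))) (T.h (P (nat_lit 0)) (T.h (T.h (P (nat_lit 0)) (M (nat_lit 760238986359))) (P (nat_lit 0)))))))) (T.h (T.h (T.h (M (nat_lit 134196299)) (T.h (P (nat_lit 0)) (T.h (M (nat_lit 32859184791)) (T.h (P (nat_lit 0)) (M (nat_lit 141801487267)))))) (T.h (P (nat_lit 0)) (T.h (T.h (P (nat_lit 37882901784)) (T.h (P (nat_lit 0)) (P (nat_lit 1244529004656)))) (T.h (P (nat_lit 0)) (P (nat_lit 367798323844)))))) (T.h (T.h (P (nat_lit 0)) (T.h (T.h (P (nat_lit 0)) (T.h (P (nat_lit 409982652688)) (T.h (P (nat_lit 0)) (M (nat_lit 4783771645379))))) (T.h (P (nat_lit 0)) (T.h (T.h (P (nat_lit 0)) (P (nat_lit 1020256697320))) (P (nat_lit 0)))))) (T.h (T.h (T.h (M (nat_lit 1501878223)) (T.h (P (nat_lit 0)) (M (nat_lit 1711163252931)))) (T.h (P (nat_lit 0)) (P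 (nat_lit 1013249442436)))) (T.h (T.h (P (nat_lit 0)) (T.h (T.h (P (nat_lit 0)) (P (nat_lit 1655627430156))) (P (nat_lit 0)))) (M (nat_lit 179362421111))))))) (P (nat_lit 0)))))))) et0_1))
def et0_3 : T ℤ := (T.h (T.h (T.h (T.h (T.h (P (nat_lit 0)) (T.h (M (nat_lit 82893367)) (T.h (P (nat_lit 0)) (T.h (P (nat_lit 8421882564)) (T.h (P (nat_lit 0)) (P (nat_lit 118462784600))))))) (T.h (P (nat_lit 0)) (T.h (T.h (P (nat_lit 0)) (T.h (P (nat_lit 23257700760)) (T.h (P (nat_lit 0)) (P (nat_lit 1276716980756))))) (T.h (P (nat_lit 0)) (T.h (T.h (P (nat_lit 0)) (M (nat_lit 621513340587))) (P (nat_lit 0))))))) (T.h (T.h (P (nat_lit 0)) (T.h (T.h (M (nat_lit 7965052375)) (T.h (P (nat_lit 0)) (T.h (M (nat_lit 319441167607)) (T.h (P (nat_lit 0)) (M (nat_lit 2347491240799)))))) (T.h (P (nat_lit 0)) (T.h (T.h (M (nat_lit 86556606231)) (T.h (P (nat_lit 0)) (P (nat_lit 3662286205552)))) (T.h (P (nat_lit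 0)) (P (nat_lit 1574583566748))))))) (T.h (T.h (T.h (P (nat_lit 0)) (T.h (M (nat_lit 17888036207)) (T.h (P (nat_lit 0)) (M (nat_lit 826143127631))))) (T.h (P (nat_lit 0)) (T.h (T.h (P (nat_lit 0)) (M (nat_lit 1080616350747))) (P (nat_lit 0))))) (T.h (T.h (P (nat_lit 0)) (T.h (T.h (P (nat_lit 24323092884)) (T.h (P (nat_lit 0)) (M (nat_lit 1952161146203)))) (T.h (P (nat_lit 0)) (P (nat_lit 488614446024))))) (T.h (T.h (T.h (P (nat_lit 0)) (M (nat_lit 34596957291))) (P (nat_lit 0))) (T.h (T.h (P (nat_lit 0)) (P (nat_lit 315662863296))) (P (nat_lit 0)))))))) (T.h (P (nat_lit 0)) (T.h (T.h (T.h (T.h (P (nat_lit 0)) (T.h (P (nat_lit 1353217460)) (T.h (P (nat_lit 0)) (T.h (P (nat_lit 14449250060)) (T.h (P (nat_lit 0)) (P (nat_lit 608796244336))))))) (T.h (P (nat_lit 0)) (T.h (T.h (P (nat_lit 0)) (T.h (P (nat_lit 423880631160)) (T.h (P (nat_lit 0)) (M (nat_lit 3073304156131))))) (T.h (P (nat_lit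 0)) (T.h (T.h (P (nat_lit 0)) (P (nat_lit 738160016524))) (P (nat_lit 0))))))) (T.h (T.h (P (nat_lit 0)) (T.h (T.h (M (nat_lit 22673208347)) (T.h (P (nat_lit 0)) (T.h (M (nat_lit 1715937666827)) (T.h (P (nat_lit 0)) (P (nat_lit 23516057818036)))))) (T.h (P (nat_lit 0)) (T.h (T.h (M (nat_lit 200330951631)) (T.h (P (nat_lit 0)) (P (nat_lit 4643823875068)))) (T.h (P (nat_lit 0)) (P (nat_lit 275687593076))))))) (T.h (T.h (T.h (P (nat_lit 0)) (T.h (M (nat_lit 52596496791)) (T.h (P (nat_lit 0)) (P (nat_lit 2022189481452))))) (T.h (P (nat_lit 0)) (T.h (T.h (P (nat_lit 0)) (M (nat_lit 1360307831847))) (P (nat_lit 0))))) (T.h (T.h (P (nat_lit 0)) (T.h (T.h (P (nat_lit 108534839224)) (T.h (P (nat_lit 0)) (P (nat_lit 6905573905804)))) (T.h (P (nat_lit 0)) (P (nat_lit 3065100040156))))) (T.h (T.h (T.h (P (nat_lit 0)) (M (nat_lit 1430303334935))) (P (nat_lit 0))) (T.h (T.h (P (nat_lit 0)) (P (nat_lit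 2728673847004))) (P (nat_lit 0)))))))) (P (nat_lit 0))))) (T.h (T.h (P (nat_lit 0)) (T.h (T.h (T.h (P (nat_lit 0)) (T.h (T.h (M (nat_lit 835826263)) (T.h (P (nat_lit 0)) (T.h (M (nat_lit 8177858639)) (T.h (P (nat_lit 0)) (M (nat_lit 800125770051)))))) (T.h (P (nat_lit 0)) (T.h (T.h (P (nat_lit 92654504992)) (T.h (P (nat_lit 0)) (M (nat_lit 1012982957447)))) (T.h (P (nat_lit 0)) (M (nat_lit 1219106335215))))))) (T.h (T.h (T.h (P (nat_lit 0)) (T.h (M (nat_lit 4909101231)) (T.h (P (nat_lit 0)) (T.h (M (nat_lit 112601916167)) (T.h (P (nat_lit 0)) (M (nat_lit 1019097346203))))))) (T.h (P (nat_lit 0)) (T.h (T.h (P (nat_lit 0)) (T.h (M (nat_lit 626274317535)) (T.h (P (nat_lit 0)) (P (nat_lit 1903107199028))))) (T.h (P (nat_lit 0)) (T.h (T.h (P (nat_lit 0)) (P (nat_lit 3033033825080))) (P (nat_lit 0))))))) (T.h (T.h (P (nat_lit 0)) (T.h (T.h (M (nat_lit 8177858639)) (T.h (P (nat_lit 0)) (P (nat_lit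 2303502403160)))) (T.h (P (nat_lit 0)) (M (nat_lit 1012982957447))))) (T.h (T.h (T.h (P (nat_lit 0)) (T.h (M (nat_lit 112601916167)) (T.h (P (nat_lit 0)) (P (nat_lit 168886053504))))) (T.h (P (nat_lit 0)) (T.h (T.h (P (nat_lit 0)) (P (nat_lit 1903107199028))) (P (nat_lit 0))))) (T.h (T.h (P (nat_lit 0)) (M (nat_lit 800125770051))) (T.h (T.h (T.h (P (nat_lit 0)) (M (nat_lit 1019097346203))) (P (nat_lit 0))) (P (nat_lit 0)))))))) (P (nat_lit 0)))) (T.h (T.h (T.h (T.h (T.h (P (nat_lit 0)) (T.h (M (nat_lit 134196299)) (T.h (P (nat_lit 0)) (T.h (M (nat_lit 1501878223)) (T.h (P (nat_lit 0)) (M (nat_lit 179362421111))))))) (T.h (P (nat_lit 0)) (T.h (T.h (P (nat_lit 0)) (T.h (M (nat_lit 32859184791)) (T.h (P (nat_lit 0)) (M (nat_lit 1711163252931))))) (T.h (P (nat_lit 0)) (T.h (T.h (P (nat_lit 0)) (M (nat_lit 141801487267))) (P (nat_lit 0))))))) (T.h (T.h (P (nat_lit 0)) (T.h (T.h (P (nat_lit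 9967906396)) (T.h (P (nat_lit 0)) (T.h (P (nat_lit 409982652688)) (T.h (P (nat_lit 0)) (P (nat_lit 1655627430156)))))) (T.h (P (nat_lit 0)) (T.h (T.h (P (nat_lit 15723513960)) (T.h (P (nat_lit 0)) (M (nat_lit 4783771645379)))) (T.h (P (nat_lit 0)) (M (nat_lit 2965260309143))))))) (T.h (T.h (T.h (P (nat_lit 0)) (T.h (P (nat_lit 37882901784)) (T.h (P (nat_lit 0)) (P (nat_lit 1013249442436))))) (T.h (P (nat_lit 0)) (T.h (T.h (P (nat_lit 0)) (P (nat_lit 1244529004656))) (P (nat_lit 0))))) (T.h (T.h (P (nat_lit 0)) (T.h (T.h (M (nat_lit 49011928979)) (T.h (P (nat_lit 0)) (P (nat_lit 1020256697320)))) (T.h (P (nat_lit 0)) (M (nat_lit 1077183592771))))) (T.h (T.h (T.h (P (nat_lit 0)) (P (nat_lit 367798323844))) (P (nat_lit 0))) (T.h (T.h (P (nat_lit 0)) (M (nat_lit 760238986359))) (P (nat_lit 0)))))))) (P (nat_lit 0))) (P (nat_lit 0)))))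
def et0_4 : T ℤ := (T.h (T.h (P (nat_lit 0)) (T.h (P (nat_lit 0)) (T.h (T.h (T.h (T.h (P (nat_lit 0)) (T.h (M (nat_lit 63478831)) (T.h (P (nat_lit 0)) (T.h (M (nat_lit 2105207711)) (T.h (P (nat_lit 0)) (P (nat_lit 82305695056))))))) (T.h (P (nat_lit 0)) (T.h (T.h (P (nat_lit 0)) (T.h (P (nat_lit 260079256)) (T.h (P (nat_lit 0)) (P (nat_lit 12723565348))))) (T.h (P (nat_lit 0)) (T.h (T.h (P (nat_lit 0)) (P (nat_lit 461755949940))) (P (nat_lit 0))))))) (T.h (T.h (P (nat_lit 0)) (T.h (T.h (P (nat_lit 1584140128)) (T.h (P (nat_lit 0)) (T.h (P (nat_lit 144360948248)) (T.h (P (nat_lit 0)) (M (nat_lit 4569384113183)))))) (T.h (P (nat_lit 0)) (T.h (T.h (P (nat_lit 14437166232)) (T.h (P (nat_lit 0)) (M (nat_lit 1533190398143)))) (T.h (P (nat_lit 0)) (P (nat_lit 180900060924))))))) (T.h (T.h (T.h (P (nat_lit 0)) (T.h (P (nat_lit 260079256)) (T.h (P (nat_lit 0)) (P (nat_lit 12723565348))))) (T.h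 (P (nat_lit 0)) (T.h (T.h (P (nat_lit 0)) (P (nat_lit 446665555392))) (P (nat_lit 0))))) (T.h (T.h (P (nat_lit 0)) (T.h (T.h (P (nat_lit 14437166232)) (T.h (P (nat_lit 0)) (M (nat_lit 1533190398143)))) (T.h (P (nat_lit 0)) (M (nat_lit 276501731111))))) (T.h (T.h (T.h (P (nat_lit 0)) (P (nat_lit 461755949940))) (P (nat_lit 0))) (T.h (T.h (P (nat_lit 0)) (P (nat_lit 180900060924))) (P (nat_lit 0)))))))) (T.h (P (nat_lit 0)) (T.h (T.h (T.h (T.h (P (nat_lit 0)) (T.h (M (nat_lit 835826263)) (T.h (P (nat_lit 0)) (T.h (P (nat_lit 92654504992)) (T.h (P (nat_lit 0)) (M (nat_lit 1219106335215))))))) (T.h (P (nat_lit 0)) (T.h (T.h (P (nat_lit 0)) (T.h (M (nat_lit 8177858639)) (T.h (P (nat_lit 0)) (M (nat_lit 1012982957447))))) (T.h (P (nat_lit 0)) (T.h (T.h (P (nat_lit 0)) (M (nat_lit 800125770051))) (P (nat_lit 0))))))) (T.h (T.h (P (nat_lit 0)) (T.h (T.h (M (nat_lit 4909101231)) (T.h (P (nat_lit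 0)) (T.h (M (nat_lit 626274317535)) (T.h (P (nat_lit 0)) (P (nat_lit 3033033825080)))))) (T.h (P (nat_lit 0)) (T.h (T.h (M (nat_lit 112601916167)) (T.h (P (nat_lit 0)) (P (nat_lit 1903107199028)))) (T.h (P (nat_lit 0)) (M (nat_lit 1019097346203))))))) (T.h (T.h (T.h (P (nat_lit 0)) (T.h (M (nat_lit 8177858639)) (T.h (P (nat_lit 0)) (M (nat_lit 1012982957447))))) (T.h (P (nat_lit 0)) (T.h (T.h (P (nat_lit 0)) (P (nat_lit 2303502403160))) (P (nat_lit 0))))) (T.h (T.h (P (nat_lit 0)) (T.h (T.h (M (nat_lit 112601916167)) (T.h (P (nat_lit 0)) (P (nat_lit 1903107199028)))) (T.h (P (nat_lit 0)) (P (nat_lit 168886053504))))) (T.h (T.h (T.h (P (nat_lit 0)) (M (nat_lit 800125770051))) (P (nat_lit 0))) (T.h (T.h (P (nat_lit 0)) (M (nat_lit 1019097346203))) (P (nat_lit 0)))))))) (P (nat_lit 0))))))) (T.h (T.h (P (nat_lit 0)) (T.h (T.h (T.h (P (nat_lit 0)) (T.h (T.h (M (nat_lit 63478831)) (T.h (P (nat_lit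 0)) (T.h (P (nat_lit 260079256)) (T.h (P (nat_lit 0)) (P (nat_lit 461755949940)))))) (T.h (P (nat_lit 0)) (T.h (T.h (M (nat_lit 2105207711)) (T.h (P (nat_lit 0)) (P (nat_lit 12723565348)))) (T.h (P (nat_lit 0)) (P (nat_lit 82305695056))))))) (T.h (T.h (T.h (P (nat_lit 0)) (T.h (P (nat_lit 1584140128)) (T.h (P (nat_lit 0)) (T.h (P (nat_lit 14437166232)) (T.h (P (nat_lit 0)) (P (nat_lit 180900060924))))))) (T.h (P (nat_lit 0)) (T.h (T.h (P (nat_lit 0)) (T.h (P (nat_lit 144360948248)) (T.h (P (nat_lit 0)) (M (nat_lit 1533190398143))))) (T.h (P (nat_lit 0)) (T.h (T.h (P (nat_lit 0)) (M (nat_lit 4569384113183))) (P (nat_lit 0))))))) (T.h (T.h (P (nat_lit 0)) (T.h (T.h (P (nat_lit 260079256)) (T.h (P (nat_lit 0)) (P (nat_lit 446665555392)))) (T.h (P (nat_lit 0)) (P (nat_lit 12723565348))))) (T.h (T.h (T.h (P (nat_lit 0)) (T.h (P (nat_lit 14437166232)) (T.h (P (nat_lit 0)) (M (nat_lit 276501731111)))))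 (T.h (P (nat_lit 0)) (T.h (T.h (P (nat_lit 0)) (M (nat_lit 1533190398143))) (P (nat_lit 0))))) (T.h (T.h (P (nat_lit 0)) (P (nat_lit 461755949940))) (T.h (T.h (T.h (P (nat_lit 0)) (P (nat_lit 180900060924))) (P (nat_lit 0))) (P (nat_lit 0)))))))) (T.h (P (nat_lit 0)) (T.h (T.h (T.h (P (nat_lit 0)) (T.h (T.h (P (nat_lit 1353217460)) (T.h (P (nat_lit 0)) (T.h (P (nat_lit 423880631160)) (T.h (P (nat_lit 0)) (P (nat_lit 738160016524)))))) (T.h (P (nat_lit 0)) (T.h (T.h (P (nat_lit 14449250060)) (T.h (P (nat_lit 0)) (M (nat_lit 3073304156131)))) (T.h (P (nat_lit 0)) (P (nat_lit 608796244336))))))) (T.h (T.h (T.h (P (nat_lit 0)) (T.h (M (nat_lit 22673208347)) (T.h (P (nat_lit 0)) (T.h (M (nat_lit 200330951631)) (T.h (P (nat_lit 0)) (P (nat_lit 275687593076))))))) (T.h (P (nat_lit 0)) (T.h (T.h (P (nat_lit 0)) (T.h (M (nat_lit 1715937666827)) (T.h (P (nat_lit 0)) (P (nat_lit 4643823875068)))))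 (T.h (P (nat_lit 0)) (T.h (T.h (P (nat_lit 0)) (P (nat_lit 23516057818036))) (P (nat_lit 0))))))) (T.h (T.h (P (nat_lit 0)) (T.h (T.h (M (nat_lit 52596496791)) (T.h (P (nat_lit 0)) (M (nat_lit 1360307831847)))) (T.h (P (nat_lit 0)) (P (nat_lit 2022189481452))))) (T.h (T.h (T.h (P (nat_lit 0)) (T.h (P (nat_lit 108534839224)) (T.h (P (nat_lit 0)) (P (nat_lit 3065100040156))))) (T.h (P (nat_lit 0)) (T.h (T.h (P (nat_lit 0)) (P (nat_lit 6905573905804))) (P (nat_lit 0))))) (T.h (T.h (P (nat_lit 0)) (M (nat_lit 1430303334935))) (T.h (T.h (T.h (P (nat_lit 0)) (P (nat_lit 2728673847004))) (P (nat_lit 0))) (P (nat_lit 0)))))))) (P (nat_lit 0)))))) et0_3))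
def et0_5 : T ℤ := (T.h (T.h (T.h (T.h (T.h (M (nat_lit 125095223)) (T.h (P (nat_lit 0)) (T.h (P (nat_lit 6513289704)) (T.h (P (nat_lit 0)) (T.h (M (nat_lit 42961248863)) (T.h (P (nat_lit 0)) (P (nat_lit 234508069752)))))))) (T.h (P (nat_lit 0)) (T.h (T.h (M (nat_lit 2493518615)) (T.h (P (nat_lit 0)) (T.h (P (nat_lit 87312839424)) (T.h (P (nat_lit 0)) (M (nat_lit 1415462131379)))))) (T.h (P (nat_lit 0)) (T.h (T.h (M (nat_lit 21958357703)) (T.h (P (nat_lit 0)) (M (nat_lit 260526726303)))) (T.h (P (nat_lit 0)) (M (nat_lit 470420906279)))))))) (T.h (T.h (P (nat_lit 0)) (T.h (T.h (P (nat_lit 0)) (T.h (P (nat_lit 183194821576)) (T.h (P (nat_lit 0)) (P (nat_lit 7595746427296))))) (T.h (P (nat_lit 0)) (T.h (T.h (P (nat_lit 0)) (M (nat_lit 2489506187175))) (P (nat_lit 0)))))) (T.h (T.h (T.h (M (nat_lit 2493518615)) (T.h (P (nat_lit 0)) (T.h (P (nat_lit 87312839424)) (T.h (P (nat_lit 0)) (M (nat_lit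 1415462131379)))))) (T.h (P (nat_lit 0)) (T.h (T.h (M (nat_lit 706981019479)) (T.h (P (nat_lit 0)) (P (nat_lit 700152090576)))) (T.h (P (nat_lit 0)) (P (nat_lit 4557626449020)))))) (T.h (T.h (P (nat_lit 0)) (T.h (T.h (P (nat_lit 0)) (M (nat_lit 2489506187175))) (P (nat_lit 0)))) (T.h (T.h (T.h (M (nat_lit 21958357703)) (T.h (P (nat_lit 0)) (M (nat_lit 260526726303)))) (T.h (P (nat_lit 0)) (P (nat_lit 4557626449020)))) (T.h (P (nat_lit 0)) (M (nat_lit 470420906279)))))))) (T.h (P (nat_lit 0)) (T.h (T.h (T.h (T.h (M (nat_lit 522183815)) (T.h (P (nat_lit 0)) (T.h (M (nat_lit 9201642911)) (T.h (P (nat_lit 0)) (T.h (M (nat_lit 250770365159)) (T.h (P (nat_lit 0)) (M (nat_lit 2900058706271)))))))) (T.h (P (nat_lit 0)) (T.h (T.h (M (nat_lit 9201642911)) (T.h (P (nat_lit 0)) (T.h (M (nat_lit 396045085239)) (T.h (P (nat_lit 0)) (P (nat_lit 8951142652144)))))) (T.h (P (nat_lit 0)) (T.h (T.h (M (nat_lit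 250770365159)) (T.h (P (nat_lit 0)) (P (nat_lit 8951142652144)))) (T.h (P (nat_lit 0)) (M (nat_lit 2900058706271)))))))) (T.h (T.h (P (nat_lit 0)) (T.h (T.h (P (nat_lit 0)) (T.h (P (nat_lit 769800509520)) (T.h (P (nat_lit 0)) (M (nat_lit 6732283667983))))) (T.h (P (nat_lit 0)) (T.h (T.h (P (nat_lit 0)) (M (nat_lit 6732283667983))) (P (nat_lit 0)))))) (T.h (T.h (T.h (M (nat_lit 9201642911)) (T.h (P (nat_lit 0)) (T.h (M (nat_lit 396045085239)) (T.h (P (nat_lit 0)) (P (nat_lit 8951142652144)))))) (T.h (P (nat_lit 0)) (T.h (T.h (M (nat_lit 396045085239)) (T.h (P (nat_lit 0)) (P (nat_lit 2973442939992)))) (T.h (P (nat_lit 0)) (P (nat_lit 8951142652144)))))) (T.h (T.h (P (nat_lit 0)) (T.h (T.h (P (nat_lit 0)) (M (nat_lit 6732283667983))) (P (nat_lit 0)))) (T.h (T.h (T.h (M (nat_lit 250770365159)) (T.h (P (nat_lit 0)) (P (nat_lit 8951142652144)))) (T.h (P (nat_lit 0)) (P (nat_lit 8951142652144))))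 (T.h (P (nat_lit 0)) (M (nat_lit 2900058706271)))))))) (P (nat_lit 0))))) (T.h (T.h (P (nat_lit 0)) (T.h (T.h (T.h (P (nat_lit 0)) (T.h (T.h (P (nat_lit 0)) (T.h (M (nat_lit 22673208347)) (T.h (P (nat_lit 0)) (T.h (P (nat_lit 108534839224)) (T.h (P (nat_lit 0)) (P (nat_lit 2728673847004))))))) (T.h (P (nat_lit 0)) (T.h (T.h (P (nat_lit 0)) (T.h (M (nat_lit 200330951631)) (T.h (P (nat_lit 0)) (P (nat_lit 3065100040156))))) (T.h (P (nat_lit 0)) (T.h (T.h (P (nat_lit 0)) (P (nat_lit 275687593076))) (P (nat_lit 0)))))))) (T.h (T.h (T.h (P (nat_lit 1353217460)) (T.h (P (nat_lit 0)) (T.h (M (nat_lit 52596496791)) (T.h (P (nat_lit 0)) (M (nat_lit 1430303334935)))))) (T.h (P (nat_lit 0)) (T.h (T.h (P (nat_lit 423880631160)) (T.h (P (nat_lit 0)) (M (nat_lit 1360307831847)))) (T.h (P (nat_lit 0)) (P (nat_lit 738160016524)))))) (T.h (T.h (P (nat_lit 0)) (T.h (T.h (P (nat_lit 0)) (T.h (M (nat_lit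 1715937666827)) (T.h (P (nat_lit 0)) (P (nat_lit 6905573905804))))) (T.h (P (nat_lit 0)) (T.h (T.h (P (nat_lit 0)) (P (nat_lit 4643823875068))) (P (nat_lit 0)))))) (T.h (T.h (T.h (P (nat_lit 14449250060)) (T.h (P (nat_lit 0)) (P (nat_lit 2022189481452)))) (T.h (P (nat_lit 0)) (M (nat_lit 3073304156131)))) (T.h (T.h (P (nat_lit 0)) (T.h (T.h (P (nat_lit 0)) (P (nat_lit 23516057818036))) (P (nat_lit 0)))) (P (nat_lit 608796244336))))))) (P (nat_lit 0)))) (T.h (T.h (T.h (T.h (T.h (P (nat_lit 192917116)) (T.h (P (nat_lit 0)) (T.h (M (nat_lit 5436688543)) (T.h (P (nat_lit 0)) (T.h (P (nat_lit 120894991980)) (T.h (P (nat_lit 0)) (P (nat_lit 451902888836)))))))) (T.h (P (nat_lit 0)) (T.h (T.h (P (nat_lit 2218479984)) (T.h (P (nat_lit 0)) (T.h (P (nat_lit 354669589288)) (T.h (P (nat_lit 0)) (P (nat_lit 2167841565932)))))) (T.h (P (nat_lit 0)) (T.h (T.h (P (nat_lit 51036647648)) (T.h (P (nat_lit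 0)) (P (nat_lit 4113155756528)))) (T.h (P (nat_lit 0)) (P (nat_lit 2126783084188)))))))) (T.h (T.h (P (nat_lit 0)) (T.h (T.h (P (nat_lit 0)) (T.h (M (nat_lit 239614351703)) (T.h (P (nat_lit 0)) (M (nat_lit 8311499524775))))) (T.h (P (nat_lit 0)) (T.h (T.h (P (nat_lit 0)) (P (nat_lit 4285261849848))) (P (nat_lit 0)))))) (T.h (T.h (T.h (P (nat_lit 641435984)) (T.h (P (nat_lit 0)) (T.h (M (nat_lit 76795579643)) (T.h (P (nat_lit 0)) (P (nat_lit 1683063121768)))))) (T.h (P (nat_lit 0)) (T.h (T.h (P (nat_lit 527069915176)) (T.h (P (nat_lit 0)) (M (nat_lit 3569392817395)))) (T.h (P (nat_lit 0)) (M (nat_lit 9394428714635)))))) (T.h (T.h (P (nat_lit 0)) (T.h (T.h (P (nat_lit 0)) (P (nat_lit 1153068948360))) (P (nat_lit 0)))) (T.h (T.h (T.h (M (nat_lit 117148459707)) (T.h (P (nat_lit 0)) (M (nat_lit 3841592101955)))) (T.h (P (nat_lit 0)) (M (nat_lit 7423215975195)))) (T.h (P (nat_lit 0)) (P (nat_lit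 1193402732900)))))))) (P (nat_lit 0))) (P (nat_lit 0)))))
def et0_6 : T ℤ := (T.h (T.h (P (nat_lit 0)) (T.h (P (nat_lit 0)) (T.h (T.h (T.h (T.h (M (nat_lit 125095223)) (T.h (P (nat_lit 0)) (T.h (M (nat_lit 2493518615)) (T.h (P (nat_lit 0)) (T.h (M (nat_lit 21958357703)) (T.h (P (nat_lit 0)) (M (nat_lit 470420906279)))))))) (T.h (P (nat_lit 0)) (T.h (T.h (P (nat_lit 6513289704)) (T.h (P (nat_lit 0)) (T.h (P (nat_lit 87312839424)) (T.h (P (nat_lit 0)) (M (nat_lit 260526726303)))))) (T.h (P (nat_lit 0)) (T.h (T.h (M (nat_lit 42961248863)) (T.h (P (nat_lit 0)) (M (nat_lit 1415462131379)))) (T.h (P (nat_lit 0)) (P (nat_lit 234508069752)))))))) (T.h (T.h (P (nat_lit 0)) (T.h (T.h (P (nat_lit 0)) (T.h (P (nat_lit 183194821576)) (T.h (P (nat_lit 0)) (M (nat_lit 2489506187175))))) (T.h (P (nat_lit 0)) (T.h (T.h (P (nat_lit 0)) (P (nat_lit 7595746427296))) (P (nat_lit 0)))))) (T.h (T.h (T.h (M (nat_lit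 2493518615)) (T.h (P (nat_lit 0)) (T.h (M (nat_lit 706981019479)) (T.h (P (nat_lit 0)) (P (nat_lit 4557626449020)))))) (T.h (P (nat_lit 0)) (T.h (T.h (P (nat_lit 87312839424)) (T.h (P (nat_lit 0)) (P (nat_lit 700152090576)))) (T.h (P (nat_lit 0)) (M (nat_lit 1415462131379)))))) (T.h (T.h (P (nat_lit 0)) (T.h (T.h (P (nat_lit 0)) (M (nat_lit 2489506187175))) (P (nat_lit 0)))) (T.h (T.h (T.h (M (nat_lit 21958357703)) (T.h (P (nat_lit 0)) (P (nat_lit 4557626449020)))) (T.h (P (nat_lit 0)) (M (nat_lit 260526726303)))) (T.h (P (nat_lit 0)) (M (nat_lit 470420906279)))))))) (T.h (P (nat_lit 0)) (T.h (T.h (T.h (T.h (P (nat_lit 192917116)) (T.h (P (nat_lit 0)) (T.h (P (nat_lit 2218479984)) (T.h (P (nat_lit 0)) (T.h (P (nat_lit 51036647648)) (T.h (P (nat_lit 0)) (P (nat_lit 2126783084188)))))))) (T.h (P (nat_lit 0)) (T.h (T.h (M (nat_lit 5436688543)) (T.h (P (nat_lit 0)) (T.h (P (nat_lit 354669589288))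 (T.h (P (nat_lit 0)) (P (nat_lit 4113155756528)))))) (T.h (P (nat_lit 0)) (T.h (T.h (P (nat_lit 120894991980)) (T.h (P (nat_lit 0)) (P (nat_lit 2167841565932)))) (T.h (P (nat_lit 0)) (P (nat_lit 451902888836)))))))) (T.h (T.h (P (nat_lit 0)) (T.h (T.h (P (nat_lit 0)) (T.h (M (nat_lit 239614351703)) (T.h (P (nat_lit 0)) (P (nat_lit 4285261849848))))) (T.h (P (nat_lit 0)) (T.h (T.h (P (nat_lit 0)) (M (nat_lit 8311499524775))) (P (nat_lit 0)))))) (T.h (T.h (T.h (P (nat_lit 641435984)) (T.h (P (nat_lit 0)) (T.h (P (nat_lit 527069915176)) (T.h (P (nat_lit 0)) (M (nat_lit 9394428714635)))))) (T.h (P (nat_lit 0)) (T.h (T.h (M (nat_lit 76795579643)) (T.h (P (nat_lit 0)) (M (nat_lit 3569392817395)))) (T.h (P (nat_lit 0)) (P (nat_lit 1683063121768)))))) (T.h (T.h (P (nat_lit 0)) (T.h (T.h (P (nat_lit 0)) (P (nat_lit 1153068948360))) (P (nat_lit 0)))) (T.h (T.h (T.h (M (nat_lit 117148459707)) (T.h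 (P (nat_lit 0)) (M (nat_lit 7423215975195)))) (T.h (P (nat_lit 0)) (M (nat_lit 3841592101955)))) (T.h (P (nat_lit 0)) (P (nat_lit 1193402732900)))))))) (P (nat_lit 0))))))) (T.h (T.h (P (nat_lit 0)) (T.h (T.h (T.h (P (nat_lit 0)) (T.h (T.h (P (nat_lit 0)) (T.h (P (nat_lit 1584140128)) (T.h (P (nat_lit 0)) (T.h (P (nat_lit 14437166232)) (T.h (P (nat_lit 0)) (P (nat_lit 180900060924))))))) (T.h (P (nat_lit 0)) (T.h (T.h (P (nat_lit 0)) (T.h (P (nat_lit 14437166232)) (T.h (P (nat_lit 0)) (M (nat_lit 276501731111))))) (T.h (P (nat_lit 0)) (T.h (T.h (P (nat_lit 0)) (P (nat_lit 180900060924))) (P (nat_lit 0)))))))) (T.h (T.h (T.h (M (nat_lit 63478831)) (T.h (P (nat_lit 0)) (T.h (P (nat_lit 260079256)) (T.h (P (nat_lit 0)) (P (nat_lit 461755949940)))))) (T.h (P (nat_lit 0)) (T.h (T.h (P (nat_lit 260079256)) (T.h (P (nat_lit 0)) (P (nat_lit 446665555392)))) (T.h (P (nat_lit 0)) (P (nat_lit 461755949940))))))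 (T.h (T.h (P (nat_lit 0)) (T.h (T.h (P (nat_lit 0)) (T.h (P (nat_lit 144360948248)) (T.h (P (nat_lit 0)) (M (nat_lit 1533190398143))))) (T.h (P (nat_lit 0)) (T.h (T.h (P (nat_lit 0)) (M (nat_lit 1533190398143))) (P (nat_lit 0)))))) (T.h (T.h (T.h (M (nat_lit 2105207711)) (T.h (P (nat_lit 0)) (P (nat_lit 12723565348)))) (T.h (P (nat_lit 0)) (P (nat_lit 12723565348)))) (T.h (T.h (P (nat_lit 0)) (T.h (T.h (P (nat_lit 0)) (M (nat_lit 4569384113183))) (P (nat_lit 0)))) (P (nat_lit 82305695056))))))) (T.h (P (nat_lit 0)) (T.h (T.h (T.h (P (nat_lit 0)) (T.h (T.h (P (nat_lit 0)) (T.h (M (nat_lit 22673208347)) (T.h (P (nat_lit 0)) (T.h (M (nat_lit 200330951631)) (T.h (P (nat_lit 0)) (P (nat_lit 275687593076))))))) (T.h (P (nat_lit 0)) (T.h (T.h (P (nat_lit 0)) (T.h (P (nat_lit 108534839224)) (T.h (P (nat_lit 0)) (P (nat_lit 3065100040156))))) (T.h (P (nat_lit 0)) (T.h (T.h (P (nat_lit 0)) (P (nat_lit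 2728673847004))) (P (nat_lit 0)))))))) (T.h (T.h (T.h (P (nat_lit 1353217460)) (T.h (P (nat_lit 0)) (T.h (P (nat_lit 423880631160)) (T.h (P (nat_lit 0)) (P (nat_lit 738160016524)))))) (T.h (P (nat_lit 0)) (T.h (T.h (M (nat_lit 52596496791)) (T.h (P (nat_lit 0)) (M (nat_lit 1360307831847)))) (T.h (P (nat_lit 0)) (M (nat_lit 1430303334935)))))) (T.h (T.h (P (nat_lit 0)) (T.h (T.h (P (nat_lit 0)) (T.h (M (nat_lit 1715937666827)) (T.h (P (nat_lit 0)) (P (nat_lit 4643823875068))))) (T.h (P (nat_lit 0)) (T.h (T.h (P (nat_lit 0)) (P (nat_lit 6905573905804))) (P (nat_lit 0)))))) (T.h (T.h (T.h (P (nat_lit 14449250060)) (T.h (P (nat_lit 0)) (M (nat_lit 3073304156131)))) (T.h (P (nat_lit 0)) (P (nat_lit 2022189481452)))) (T.h (T.h (P (nat_lit 0)) (T.h (T.h (P (nat_lit 0)) (P (nat_lit 23516057818036))) (P (nat_lit 0)))) (P (nat_lit 608796244336))))))) (P (nat_lit 0)))))) et0_5))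
def et0_7 : T ℤ := (T.h (T.h (T.h (T.h (T.h (P (nat_lit 0)) (T.h (M (nat_lit 82893367)) (T.h (P (nat_lit 0)) (T.h (P (nat_lit 8421882564)) (T.h (P (nat_lit 0)) (P (nat_lit 118462784600))))))) (T.h (P (nat_lit 0)) (T.h (T.h (P (nat_lit 0)) (T.h (M (nat_lit 17888036207)) (T.h (P (nat_lit 0)) (M (nat_lit 826143127631))))) (T.h (P (nat_lit 0)) (T.h (T.h (P (nat_lit 0)) (M (nat_lit 34596957291))) (P (nat_lit 0))))))) (T.h (T.h (P (nat_lit 0)) (T.h (T.h (M (nat_lit 7965052375)) (T.h (P (nat_lit 0)) (T.h (M (nat_lit 319441167607)) (T.h (P (nat_lit 0)) (M (nat_lit 2347491240799)))))) (T.h (P (nat_lit 0)) (T.h (T.h (P (nat_lit 24323092884)) (T.h (P (nat_lit 0)) (M (nat_lit 1952161146203)))) (T.h (P (nat_lit 0)) (P (nat_lit 315662863296))))))) (T.h (T.h (T.h (P (nat_lit 0)) (T.h (P (nat_lit 23257700760)) (T.h (P (nat_lit 0)) (P (nat_lit 1276716980756))))) (T.h (P (nat_lit 0)) (T.h (T.h (P (nat_lit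 0)) (M (nat_lit 1080616350747))) (P (nat_lit 0))))) (T.h (T.h (P (nat_lit 0)) (T.h (T.h (M (nat_lit 86556606231)) (T.h (P (nat_lit 0)) (P (nat_lit 3662286205552)))) (T.h (P (nat_lit 0)) (P (nat_lit 488614446024))))) (T.h (T.h (T.h (P (nat_lit 0)) (M (nat_lit 621513340587))) (P (nat_lit 0))) (T.h (T.h (P (nat_lit 0)) (P (nat_lit 1574583566748))) (P (nat_lit 0)))))))) (T.h (P (nat_lit 0)) (T.h (T.h (T.h (T.h (P (nat_lit 0)) (T.h (P (nat_lit 1353217460)) (T.h (P (nat_lit 0)) (T.h (P (nat_lit 14449250060)) (T.h (P (nat_lit 0)) (P (nat_lit 608796244336))))))) (T.h (P (nat_lit 0)) (T.h (T.h (P (nat_lit 0)) (T.h (M (nat_lit 52596496791)) (T.h (P (nat_lit 0)) (P (nat_lit 2022189481452))))) (T.h (P (nat_lit 0)) (T.h (T.h (P (nat_lit 0)) (M (nat_lit 1430303334935))) (P (nat_lit 0))))))) (T.h (T.h (P (nat_lit 0)) (T.h (T.h (M (nat_lit 22673208347)) (T.h (P (nat_lit 0)) (T.h (M (nat_lit 1715937666827))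 (T.h (P (nat_lit 0)) (P (nat_lit 23516057818036)))))) (T.h (P (nat_lit 0)) (T.h (T.h (P (nat_lit 108534839224)) (T.h (P (nat_lit 0)) (P (nat_lit 6905573905804)))) (T.h (P (nat_lit 0)) (P (nat_lit 2728673847004))))))) (T.h (T.h (T.h (P (nat_lit 0)) (T.h (P (nat_lit 423880631160)) (T.h (P (nat_lit 0)) (M (nat_lit 3073304156131))))) (T.h (P (nat_lit 0)) (T.h (T.h (P (nat_lit 0)) (M (nat_lit 1360307831847))) (P (nat_lit 0))))) (T.h (T.h (P (nat_lit 0)) (T.h (T.h (M (nat_lit 200330951631)) (T.h (P (nat_lit 0)) (P (nat_lit 4643823875068)))) (T.h (P (nat_lit 0)) (P (nat_lit 3065100040156))))) (T.h (T.h (T.h (P (nat_lit 0)) (P (nat_lit 738160016524))) (P (nat_lit 0))) (T.h (T.h (P (nat_lit 0)) (P (nat_lit 275687593076))) (P (nat_lit 0)))))))) (P (nat_lit 0))))) (T.h (T.h (P (nat_lit 0)) (T.h (T.h (T.h (P (nat_lit 0)) (T.h (T.h (P (nat_lit 1353217460)) (T.h (P (nat_lit 0)) (T.h (M (nat_lit 52596496791))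 (T.h (P (nat_lit 0)) (M (nat_lit 1430303334935)))))) (T.h (P (nat_lit 0)) (T.h (T.h (P (nat_lit 14449250060)) (T.h (P (nat_lit 0)) (P (nat_lit 2022189481452)))) (T.h (P (nat_lit 0)) (P (nat_lit 608796244336))))))) (T.h (T.h (T.h (P (nat_lit 0)) (T.h (M (nat_lit 22673208347)) (T.h (P (nat_lit 0)) (T.h (P (nat_lit 108534839224)) (T.h (P (nat_lit 0)) (P (nat_lit 2728673847004))))))) (T.h (P (nat_lit 0)) (T.h (T.h (P (nat_lit 0)) (T.h (M (nat_lit 1715937666827)) (T.h (P (nat_lit 0)) (P (nat_lit 6905573905804))))) (T.h (P (nat_lit 0)) (T.h (T.h (P (nat_lit 0)) (P (nat_lit 23516057818036))) (P (nat_lit 0))))))) (T.h (T.h (P (nat_lit 0)) (T.h (T.h (P (nat_lit 423880631160)) (T.h (P (nat_lit 0)) (M (nat_lit 1360307831847)))) (T.h (P (nat_lit 0)) (M (nat_lit 3073304156131))))) (T.h (T.h (T.h (P (nat_lit 0)) (T.h (M (nat_lit 200330951631)) (T.h (P (nat_lit 0)) (P (nat_lit 3065100040156))))) (T.h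 (P (nat_lit 0)) (T.h (T.h (P (nat_lit 0)) (P (nat_lit 4643823875068))) (P (nat_lit 0))))) (T.h (T.h (P (nat_lit 0)) (P (nat_lit 738160016524))) (T.h (T.h (T.h (P (nat_lit 0)) (P (nat_lit 275687593076))) (P (nat_lit 0))) (P (nat_lit 0)))))))) (P (nat_lit 0)))) (T.h (T.h (T.h (T.h (T.h (P (nat_lit 0)) (T.h (M (nat_lit 233309607)) (T.h (P (nat_lit 0)) (T.h (M (nat_lit 74934445431)) (T.h (P (nat_lit 0)) (M (nat_lit 650357855671))))))) (T.h (P (nat_lit 0)) (T.h (T.h (P (nat_lit 0)) (T.h (M (nat_lit 75899871823)) (T.h (P (nat_lit 0)) (M (nat_lit 1258156006323))))) (T.h (P (nat_lit 0)) (T.h (T.h (P (nat_lit 0)) (P (nat_lit 863033503724))) (P (nat_lit 0))))))) (T.h (T.h (P (nat_lit 0)) (T.h (T.h (P (nat_lit 14679077392)) (T.h (P (nat_lit 0)) (T.h (P (nat_lit 976929019584)) (T.h (P (nat_lit 0)) (P (nat_lit 7051565749368)))))) (T.h (P (nat_lit 0)) (T.h (T.h (P (nat_lit 126886871272)) (T.h (P (nat_lit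 0)) (P (nat_lit 3904085410764)))) (T.h (P (nat_lit 0)) (M (nat_lit 3584266743791))))))) (T.h (T.h (T.h (P (nat_lit 0)) (T.h (M (nat_lit 75899871823)) (T.h (P (nat_lit 0)) (M (nat_lit 1258156006323))))) (T.h (P (nat_lit 0)) (T.h (T.h (P (nat_lit 0)) (P (nat_lit 7356585339992))) (P (nat_lit 0))))) (T.h (T.h (P (nat_lit 0)) (T.h (T.h (P (nat_lit 126886871272)) (T.h (P (nat_lit 0)) (P (nat_lit 3904085410764)))) (T.h (P (nat_lit 0)) (M (nat_lit 10941748729015))))) (T.h (T.h (T.h (P (nat_lit 0)) (P (nat_lit 863033503724))) (P (nat_lit 0))) (T.h (T.h (P (nat_lit 0)) (M (nat_lit 3584266743791))) (P (nat_lit 0)))))))) (P (nat_lit 0))) (P (nat_lit 0)))))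
def et0_8 : T ℤ := (T.h (T.h (T.h (T.h (T.h (P (nat_lit 6782664)) (T.h (P (nat_lit 0)) (T.h (P (nat_lit 332939228)) (T.h (P (nat_lit 0)) (T.h (P (nat_lit 47058822372)) (T.h (P (nat_lit 0)) (M (nat_lit 345143626391)))))))) (T.h (P (nat_lit 0)) (T.h (T.h (P (nat_lit 332939228)) (T.h (P (nat_lit 0)) (T.h (P (nat_lit 25428773568)) (T.h (P (nat_lit 0)) (M (nat_lit 296176268867)))))) (T.h (P (nat_lit 0)) (T.h (T.h (P (nat_lit 47058822372)) (T.h (P (nat_lit 0)) (M (nat_lit 296176268867)))) (T.h (P (nat_lit 0)) (M (nat_lit 345143626391)))))))) (T.h (T.h (P (nat_lit 0)) (T.h (T.h (P (nat_lit 0)) (T.h (P (nat_lit 7203364872)) (T.h (P (nat_lit 0)) (M (nat_lit 174985719703))))) (T.h (P (nat_lit 0)) (T.h (T.h (P (nat_lit 0)) (M (nat_lit 174985719703))) (P (nat_lit 0)))))) (T.h (T.h (T.h (M (nat_lit 217022231)) (T.h (P (nat_lit 0)) (T.h (P (nat_lit 28867320688)) (T.h (P (nat_lit 0)) (M (nat_lit 676978513867))))))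 (T.h (P (nat_lit 0)) (T.h (T.h (P (nat_lit 28867320688)) (T.h (P (nat_lit 0)) (M (nat_lit 1109739429439)))) (T.h (P (nat_lit 0)) (M (nat_lit 676978513867)))))) (T.h (T.h (P (nat_lit 0)) (T.h (T.h (P (nat_lit 0)) (M (nat_lit 231631250007))) (P (nat_lit 0)))) (T.h (T.h (T.h (M (nat_lit 9282598159)) (T.h (P (nat_lit 0)) (M (nat_lit 996547276359)))) (T.h (P (nat_lit 0)) (M (nat_lit 996547276359)))) (T.h (P (nat_lit 0)) (P (nat_lit 615796970808)))))))) (T.h (P (nat_lit 0)) (T.h (T.h (T.h (T.h (P (nat_lit 192917116)) (T.h (P (nat_lit 0)) (T.h (P (nat_lit 641435984)) (T.h (P (nat_lit 0)) (T.h (M (nat_lit 117148459707)) (T.h (P (nat_lit 0)) (P (nat_lit 1193402732900)))))))) (T.h (P (nat_lit 0)) (T.h (T.h (M (nat_lit 5436688543)) (T.h (P (nat_lit 0)) (T.h (M (nat_lit 76795579643)) (T.h (P (nat_lit 0)) (M (nat_lit 3841592101955)))))) (T.h (P (nat_lit 0)) (T.h (T.h (P (nat_lit 120894991980)) (T.h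 (P (nat_lit 0)) (P (nat_lit 1683063121768)))) (T.h (P (nat_lit 0)) (P (nat_lit 451902888836)))))))) (T.h (T.h (P (nat_lit 0)) (T.h (T.h (P (nat_lit 0)) (T.h (M (nat_lit 239614351703)) (T.h (P (nat_lit 0)) (P (nat_lit 1153068948360))))) (T.h (P (nat_lit 0)) (T.h (T.h (P (nat_lit 0)) (M (nat_lit 8311499524775))) (P (nat_lit 0)))))) (T.h (T.h (T.h (P (nat_lit 2218479984)) (T.h (P (nat_lit 0)) (T.h (P (nat_lit 527069915176)) (T.h (P (nat_lit 0)) (M (nat_lit 7423215975195)))))) (T.h (P (nat_lit 0)) (T.h (T.h (P (nat_lit 354669589288)) (T.h (P (nat_lit 0)) (M (nat_lit 3569392817395)))) (T.h (P (nat_lit 0)) (P (nat_lit 2167841565932)))))) (T.h (T.h (P (nat_lit 0)) (T.h (T.h (P (nat_lit 0)) (P (nat_lit 4285261849848))) (P (nat_lit 0)))) (T.h (T.h (T.h (P (nat_lit 51036647648)) (T.h (P (nat_lit 0)) (M (nat_lit 9394428714635)))) (T.h (P (nat_lit 0)) (P (nat_lit 4113155756528)))) (T.h (P (nat_lit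 0)) (P (nat_lit 2126783084188)))))))) (P (nat_lit 0))))) (T.h (T.h (P (nat_lit 0)) (T.h (T.h (T.h (P (nat_lit 0)) (T.h (T.h (P (nat_lit 0)) (T.h (M (nat_lit 4909101231)) (T.h (P (nat_lit 0)) (T.h (M (nat_lit 112601916167)) (T.h (P (nat_lit 0)) (M (nat_lit 1019097346203))))))) (T.h (P (nat_lit 0)) (T.h (T.h (P (nat_lit 0)) (T.h (M (nat_lit 112601916167)) (T.h (P (nat_lit 0)) (P (nat_lit 168886053504))))) (T.h (P (nat_lit 0)) (T.h (T.h (P (nat_lit 0)) (M (nat_lit 1019097346203))) (P (nat_lit 0)))))))) (T.h (T.h (T.h (M (nat_lit 835826263)) (T.h (P (nat_lit 0)) (T.h (M (nat_lit 8177858639)) (T.h (P (nat_lit 0)) (M (nat_lit 800125770051)))))) (T.h (P (nat_lit 0)) (T.h (T.h (M (nat_lit 8177858639)) (T.h (P (nat_lit 0)) (P (nat_lit 2303502403160)))) (T.h (P (nat_lit 0)) (M (nat_lit 800125770051)))))) (T.h (T.h (P (nat_lit 0)) (T.h (T.h (P (nat_lit 0)) (T.h (M (nat_lit 626274317535)) (T.h (P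 (nat_lit 0)) (P (nat_lit 1903107199028))))) (T.h (P (nat_lit 0)) (T.h (T.h (P (nat_lit 0)) (P (nat_lit 1903107199028))) (P (nat_lit 0)))))) (T.h (T.h (T.h (P (nat_lit 92654504992)) (T.h (P (nat_lit 0)) (M (nat_lit 1012982957447)))) (T.h (P (nat_lit 0)) (M (nat_lit 1012982957447)))) (T.h (T.h (P (nat_lit 0)) (T.h (T.h (P (nat_lit 0)) (P (nat_lit 3033033825080))) (P (nat_lit 0)))) (M (nat_lit 1219106335215))))))) (P (nat_lit 0)))) (T.h (T.h (T.h (T.h (T.h (P (nat_lit 192917116)) (T.h (P (nat_lit 0)) (T.h (M (nat_lit 5436688543)) (T.h (P (nat_lit 0)) (T.h (P (nat_lit 120894991980)) (T.h (P (nat_lit 0)) (P (nat_lit 451902888836)))))))) (T.h (P (nat_lit 0)) (T.h (T.h (P (nat_lit 641435984)) (T.h (P (nat_lit 0)) (T.h (M (nat_lit 76795579643)) (T.h (P (nat_lit 0)) (P (nat_lit 1683063121768)))))) (T.h (P (nat_lit 0)) (T.h (T.h (M (nat_lit 117148459707)) (T.h (P (nat_lit 0)) (M (nat_lit 3841592101955))))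 (T.h (P (nat_lit 0)) (P (nat_lit 1193402732900)))))))) (T.h (T.h (P (nat_lit 0)) (T.h (T.h (P (nat_lit 0)) (T.h (M (nat_lit 239614351703)) (T.h (P (nat_lit 0)) (M (nat_lit 8311499524775))))) (T.h (P (nat_lit 0)) (T.h (T.h (P (nat_lit 0)) (P (nat_lit 1153068948360))) (P (nat_lit 0)))))) (T.h (T.h (T.h (P (nat_lit 2218479984)) (T.h (P (nat_lit 0)) (T.h (P (nat_lit 354669589288)) (T.h (P (nat_lit 0)) (P (nat_lit 2167841565932)))))) (T.h (P (nat_lit 0)) (T.h (T.h (P (nat_lit 527069915176)) (T.h (P (nat_lit 0)) (M (nat_lit 3569392817395)))) (T.h (P (nat_lit 0)) (M (nat_lit 7423215975195)))))) (T.h (T.h (P (nat_lit 0)) (T.h (T.h (P (nat_lit 0)) (P (nat_lit 4285261849848))) (P (nat_lit 0)))) (T.h (T.h (T.h (P (nat_lit 51036647648)) (T.h (P (nat_lit 0)) (P (nat_lit 4113155756528)))) (T.h (P (nat_lit 0)) (M (nat_lit 9394428714635)))) (T.h (P (nat_lit 0)) (P (nat_lit 2126783084188)))))))) (P (nat_lit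 0))) (P (nat_lit 0)))))
def et0_9 : T ℤ := (T.h (T.h (T.h (P (nat_lit 0)) (T.h (T.h (T.h (P (nat_lit 0)) (T.h (T.h (M (nat_lit 134196299)) (T.h (P (nat_lit 0)) (T.h (P (nat_lit 37882901784)) (T.h (P (nat_lit 0)) (P (nat_lit 367798323844)))))) (T.h (P (nat_lit 0)) (T.h (T.h (M (nat_lit 1501878223)) (T.h (P (nat_lit 0)) (P (nat_lit 1013249442436)))) (T.h (P (nat_lit 0)) (M (nat_lit 179362421111))))))) (T.h (T.h (T.h (P (nat_lit 0)) (T.h (P (nat_lit 9967906396)) (T.h (P (nat_lit 0)) (T.h (M (nat_lit 49011928979)) (T.h (P (nat_lit 0)) (M (nat_lit 760238986359))))))) (T.h (P (nat_lit 0)) (T.h (T.h (P (nat_lit 0)) (T.h (P (nat_lit 409982652688)) (T.h (P (nat_lit 0)) (P (nat_lit 1020256697320))))) (T.h (P (nat_lit 0)) (T.h (T.h (P (nat_lit 0)) (P (nat_lit 1655627430156))) (P (nat_lit 0))))))) (T.h (T.h (P (nat_lit 0)) (T.h (T.h (M (nat_lit 32859184791)) (T.h (P (nat_lit 0)) (P (nat_lit 1244529004656))))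 (T.h (P (nat_lit 0)) (M (nat_lit 1711163252931))))) (T.h (T.h (T.h (P (nat_lit 0)) (T.h (P (nat_lit 15723513960)) (T.h (P (nat_lit 0)) (M (nat_lit 1077183592771))))) (T.h (P (nat_lit 0)) (T.h (T.h (P (nat_lit 0)) (M (nat_lit 4783771645379))) (P (nat_lit 0))))) (T.h (T.h (P (nat_lit 0)) (M (nat_lit 141801487267))) (T.h (T.h (T.h (P (nat_lit 0)) (M (nat_lit 2965260309143))) (P (nat_lit 0))) (P (nat_lit 0)))))))) (P (nat_lit 0)))) (T.h (T.h (T.h (T.h (T.h (P (nat_lit 0)) (T.h (M (nat_lit 134196299)) (T.h (P (nat_lit 0)) (T.h (M (nat_lit 1501878223)) (T.h (P (nat_lit 0)) (M (nat_lit 179362421111))))))) (T.h (P (nat_lit 0)) (T.h (T.h (P (nat_lit 0)) (T.h (P (nat_lit 37882901784)) (T.h (P (nat_lit 0)) (P (nat_lit 1013249442436))))) (T.h (P (nat_lit 0)) (T.h (T.h (P (nat_lit 0)) (P (nat_lit 367798323844))) (P (nat_lit 0))))))) (T.h (T.h (P (nat_lit 0)) (T.h (T.h (P (nat_lit 9967906396)) (T.h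 (P (nat_lit 0)) (T.h (P (nat_lit 409982652688)) (T.h (P (nat_lit 0)) (P (nat_lit 1655627430156)))))) (T.h (P (nat_lit 0)) (T.h (T.h (M (nat_lit 49011928979)) (T.h (P (nat_lit 0)) (P (nat_lit 1020256697320)))) (T.h (P (nat_lit 0)) (M (nat_lit 760238986359))))))) (T.h (T.h (T.h (P (nat_lit 0)) (T.h (M (nat_lit 32859184791)) (T.h (P (nat_lit 0)) (M (nat_lit 1711163252931))))) (T.h (P (nat_lit 0)) (T.h (T.h (P (nat_lit 0)) (P (nat_lit 1244529004656))) (P (nat_lit 0))))) (T.h (T.h (P (nat_lit 0)) (T.h (T.h (P (nat_lit 15723513960)) (T.h (P (nat_lit 0)) (M (nat_lit 4783771645379)))) (T.h (P (nat_lit 0)) (M (nat_lit 1077183592771))))) (T.h (T.h (T.h (P (nat_lit 0)) (M (nat_lit 141801487267))) (P (nat_lit 0))) (T.h (T.h (P (nat_lit 0)) (M (nat_lit 2965260309143))) (P (nat_lit 0)))))))) (P (nat_lit 0))) (P (nat_lit 0)))) (T.h (T.h (T.h (T.h (T.h (T.h (M (nat_lit 16680719)) (T.h (P (nat_lit 0))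 (T.h (M (nat_lit 108998987)) (T.h (P (nat_lit 0)) (T.h (M (nat_lit 52565159219)) (T.h (P (nat_lit 0)) (P (nat_lit 277373345900)))))))) (T.h (P (nat_lit 0)) (T.h (T.h (M (nat_lit 108998987)) (T.h (P (nat_lit 0)) (T.h (M (nat_lit 59708306839)) (T.h (P (nat_lit 0)) (P (nat_lit 435435003556)))))) (T.h (P (nat_lit 0)) (T.h (T.h (M (nat_lit 52565159219)) (T.h (P (nat_lit 0)) (P (nat_lit 435435003556)))) (T.h (P (nat_lit 0)) (P (nat_lit 277373345900)))))))) (T.h (T.h (P (nat_lit 0)) (T.h (T.h (P (nat_lit 0)) (T.h (M (nat_lit 16836564863)) (T.h (P (nat_lit 0)) (P (nat_lit 326768644636))))) (T.h (P (nat_lit 0)) (T.h (T.h (P (nat_lit 0)) (P (nat_lit 326768644636))) (P (nat_lit 0)))))) (T.h (T.h (T.h (P (nat_lit 521500000)) (T.h (P (nat_lit 0)) (T.h (M (nat_lit 51931273015)) (T.h (P (nat_lit 0)) (P (nat_lit 1173024438992)))))) (T.h (P (nat_lit 0)) (T.h (T.h (M (nat_lit 51931273015)) (T.h (P (nat_lit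 0)) (P (nat_lit 2588578176128)))) (T.h (P (nat_lit 0)) (P (nat_lit 1173024438992)))))) (T.h (T.h (P (nat_lit 0)) (T.h (T.h (P (nat_lit 0)) (P (nat_lit 537650319696))) (P (nat_lit 0)))) (T.h (T.h (T.h (P (nat_lit 21709055592)) (T.h (P (nat_lit 0)) (P (nat_lit 1746651656932)))) (T.h (P (nat_lit 0)) (P (nat_lit 1746651656932)))) (T.h (P (nat_lit 0)) (M (nat_lit 1436336119007)))))))) (P (nat_lit 0))) (P (nat_lit 0))) (P (nat_lit 0))))
def et0_10 : T ℤ := (T.h (T.h (T.h (P (nat_lit 0)) (T.h (P (nat_lit 0)) (T.h (P (nat_lit 0)) (T.h (T.h (T.h (P (nat_lit 0)) (T.h (T.h (M (nat_lit 82893367)) (T.h (P (nat_lit 0)) (T.h (P (nat_lit 23257700760)) (T.h (P (nat_lit 0)) (M (nat_lit 621513340587)))))) (T.h (P (nat_lit 0)) (T.h (T.h (P (nat_lit 8421882564)) (T.h (P (nat_lit 0)) (P (nat_lit 1276716980756)))) (T.h (P (nat_lit 0)) (P (nat_lit 118462784600))))))) (T.h (T.h (T.h (P (nat_lit 0)) (T.h (M (nat_lit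 7965052375)) (T.h (P (nat_lit 0)) (T.h (M (nat_lit 86556606231)) (T.h (P (nat_lit 0)) (P (nat_lit 1574583566748))))))) (T.h (P (nat_lit 0)) (T.h (T.h (P (nat_lit 0)) (T.h (M (nat_lit 319441167607)) (T.h (P (nat_lit 0)) (P (nat_lit 3662286205552))))) (T.h (P (nat_lit 0)) (T.h (T.h (P (nat_lit 0)) (M (nat_lit 2347491240799))) (P (nat_lit 0))))))) (T.h (T.h (P (nat_lit 0)) (T.h (T.h (M (nat_lit 17888036207)) (T.h (P (nat_lit 0)) (M (nat_lit 1080616350747)))) (T.h (P (nat_lit 0)) (M (nat_lit 826143127631))))) (T.h (T.h (T.h (P (nat_lit 0)) (T.h (P (nat_lit 24323092884)) (T.h (P (nat_lit 0)) (P (nat_lit 488614446024))))) (T.h (P (nat_lit 0)) (T.h (T.h (P (nat_lit 0)) (M (nat_lit 1952161146203))) (P (nat_lit 0))))) (T.h (T.h (P (nat_lit 0)) (M (nat_lit 34596957291))) (T.h (T.h (T.h (P (nat_lit 0)) (P (nat_lit 315662863296))) (P (nat_lit 0))) (P (nat_lit 0)))))))) (T.h (P (nat_lit 0)) (T.h (T.h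 (T.h (P (nat_lit 0)) (T.h (T.h (M (nat_lit 134196299)) (T.h (P (nat_lit 0)) (T.h (M (nat_lit 32859184791)) (T.h (P (nat_lit 0)) (M (nat_lit 141801487267)))))) (T.h (P (nat_lit 0)) (T.h (T.h (M (nat_lit 1501878223)) (T.h (P (nat_lit 0)) (M (nat_lit 1711163252931)))) (T.h (P (nat_lit 0)) (M (nat_lit 179362421111))))))) (T.h (T.h (T.h (P (nat_lit 0)) (T.h (P (nat_lit 9967906396)) (T.h (P (nat_lit 0)) (T.h (P (nat_lit 15723513960)) (T.h (P (nat_lit 0)) (M (nat_lit 2965260309143))))))) (T.h (P (nat_lit 0)) (T.h (T.h (P (nat_lit 0)) (T.h (P (nat_lit 409982652688)) (T.h (P (nat_lit 0)) (M (nat_lit 4783771645379))))) (T.h (P (nat_lit 0)) (T.h (T.h (P (nat_lit 0)) (P (nat_lit 1655627430156))) (P (nat_lit 0))))))) (T.h (T.h (P (nat_lit 0)) (T.h (T.h (P (nat_lit 37882901784)) (T.h (P (nat_lit 0)) (P (nat_lit 1244529004656)))) (T.h (P (nat_lit 0)) (P (nat_lit 1013249442436))))) (T.h (T.h (T.h (P (nat_lit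 0)) (T.h (M (nat_lit 49011928979)) (T.h (P (nat_lit 0)) (M (nat_lit 1077183592771))))) (T.h (P (nat_lit 0)) (T.h (T.h (P (nat_lit 0)) (P (nat_lit 1020256697320))) (P (nat_lit 0))))) (T.h (T.h (P (nat_lit 0)) (P (nat_lit 367798323844))) (T.h (T.h (T.h (P (nat_lit 0)) (M (nat_lit 760238986359))) (P (nat_lit 0))) (P (nat_lit 0)))))))) (P (nat_lit 0)))))))) et0_4) (T.h et0_6 (T.h (T.h (T.h (P (nat_lit 0)) (T.h (T.h (T.h (P (nat_lit 0)) (T.h (T.h (M (nat_lit 82893367)) (T.h (P (nat_lit 0)) (T.h (M (nat_lit 17888036207)) (T.h (P (nat_lit 0)) (M (nat_lit 34596957291)))))) (T.h (P (nat_lit 0)) (T.h (T.h (P (nat_lit 8421882564)) (T.h (P (nat_lit 0)) (M (nat_lit 826143127631)))) (T.h (P (nat_lit 0)) (P (nat_lit 118462784600))))))) (T.h (T.h (T.h (P (nat_lit 0)) (T.h (M (nat_lit 7965052375)) (T.h (P (nat_lit 0)) (T.h (P (nat_lit 24323092884)) (T.h (P (nat_lit 0)) (P (nat_lit 315662863296))))))) (T.h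 (P (nat_lit 0)) (T.h (T.h (P (nat_lit 0)) (T.h (M (nat_lit 319441167607)) (T.h (P (nat_lit 0)) (M (nat_lit 1952161146203))))) (T.h (P (nat_lit 0)) (T.h (T.h (P (nat_lit 0)) (M (nat_lit 2347491240799))) (P (nat_lit 0))))))) (T.h (T.h (P (nat_lit 0)) (T.h (T.h (P (nat_lit 23257700760)) (T.h (P (nat_lit 0)) (M (nat_lit 1080616350747)))) (T.h (P (nat_lit 0)) (P (nat_lit 1276716980756))))) (T.h (T.h (T.h (P (nat_lit 0)) (T.h (M (nat_lit 86556606231)) (T.h (P (nat_lit 0)) (P (nat_lit 488614446024))))) (T.h (P (nat_lit 0)) (T.h (T.h (P (nat_lit 0)) (P (nat_lit 3662286205552))) (P (nat_lit 0))))) (T.h (T.h (P (nat_lit 0)) (M (nat_lit 621513340587))) (T.h (T.h (T.h (P (nat_lit 0)) (P (nat_lit 1574583566748))) (P (nat_lit 0))) (P (nat_lit 0)))))))) (T.h (P (nat_lit 0)) (T.h (T.h (T.h (P (nat_lit 0)) (T.h (T.h (M (nat_lit 233309607)) (T.h (P (nat_lit 0)) (T.h (M (nat_lit 75899871823)) (T.h (P (nat_lit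 0)) (P (nat_lit 863033503724)))))) (T.h (P (nat_lit 0)) (T.h (T.h (M (nat_lit 74934445431)) (T.h (P (nat_lit 0)) (M (nat_lit 1258156006323)))) (T.h (P (nat_lit 0)) (M (nat_lit 650357855671))))))) (T.h (T.h (T.h (P (nat_lit 0)) (T.h (P (nat_lit 14679077392)) (T.h (P (nat_lit 0)) (T.h (P (nat_lit 126886871272)) (T.h (P (nat_lit 0)) (M (nat_lit 3584266743791))))))) (T.h (P (nat_lit 0)) (T.h (T.h (P (nat_lit 0)) (T.h (P (nat_lit 976929019584)) (T.h (P (nat_lit 0)) (P (nat_lit 3904085410764))))) (T.h (P (nat_lit 0)) (T.h (T.h (P (nat_lit 0)) (P (nat_lit 7051565749368))) (P (nat_lit 0))))))) (T.h (T.h (P (nat_lit 0)) (T.h (T.h (M (nat_lit 75899871823)) (T.h (P (nat_lit 0)) (P (nat_lit 7356585339992)))) (T.h (P (nat_lit 0)) (M (nat_lit 1258156006323))))) (T.h (T.h (T.h (P (nat_lit 0)) (T.h (P (nat_lit 126886871272)) (T.h (P (nat_lit 0)) (M (nat_lit 10941748729015))))) (T.h (P (nat_lit 0)) (T.h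 (T.h (P (nat_lit 0)) (P (nat_lit 3904085410764))) (P (nat_lit 0))))) (T.h (T.h (P (nat_lit 0)) (P (nat_lit 863033503724))) (T.h (T.h (T.h (P (nat_lit 0)) (M (nat_lit 3584266743791))) (P (nat_lit 0))) (P (nat_lit 0)))))))) (P (nat_lit 0)))))) et0_7) (T.h et0_8 et0_9))))

def t0 : T ℤ := (T.h et0_2 et0_10)

theorem h_t0 : chkT (c.G g0) t0 = true := by decide +kernel


end Pool.Agent.TOPR.R6104
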