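import Pool.Agent.TOPR.R6104.Cert

set_option autoImplicit false
set_option linter.all false
set_option maxRecDepth 100000

namespace Pool.Agent.TOPR.R6104

open Helper10.PC hiding V3
open Helper80.CW.DL Pool.Agent.Helper6.TOP

def et1_0 : T ℤ := (T.h (T.h (T.h (T.h (P (nat_lit 0)) (T.h (T.h (P (nat_lit 1840665712)) (T.h (P (nat_lit 0)) (T.h (P (nat_lit 58594107260)) (T.h (P (nat_lit 0)) (P (nat_lit 847363037728)))))) (T.h (P (nat_lit 0)) (T.h (T.h (P (nat_lit 33609769336)) (T.h (P (nat_lit 0)) (P (nat_lit 1178099742664)))) (T.h (P (nat_lit 0)) (M (nat_lit 161642234567))))))) (T.h (T.h (T.h (P (nat_lit 0)) (T.h (M (nat_lit 1197704327)) (T.h (P (nat_lit 0)) (T.h (P (nat_lit 423808796872)) (T.h (P (nat_lit 0)) (M (nat_lit 1210805810935))))))) (T.h (P (nat_lit 0)) (T.h (T.h (P (nat_lit 0)) (T.h (P (nat_lit 177520785384)) (T.h (P (nat_lit 0)) (M (nat_lit 3606488589699))))) (T.h (P (nat_lit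 0)) (T.h (T.h (P (nat_lit 0)) (P (nat_lit 4705131301792))) (P (nat_lit 0))))))) (T.h (T.h (P (nat_lit 0)) (T.h (T.h (P (nat_lit 58594107260)) (T.h (P (nat_lit 0)) (P (nat_lit 1298467310560)))) (T.h (P (nat_lit 0)) (P (nat_lit 1178099742664))))) (T.h (T.h (T.h (P (nat_lit 0)) (T.h (P (nat_lit 423808796872)) (T.h (P (nat_lit 0)) (M (nat_lit 1482475068711))))) (T.h (P (nat_lit 0)) (T.h (T.h (P (nat_lit 0)) (M (nat_lit 3606488589699))) (P (nat_lit 0))))) (T.h (T.h (P (nat_lit 0)) (P (nat_lit 847363037728))) (T.h (T.h (T.h (P (nat_lit 0)) (M (nat_lit 1210805810935))) (P (nat_lit 0))) (P (nat_lit 0)))))))) (T.h (P (nat_lit 0)) (T.h (T.h (T.h (P (nat_lit 0)) (T.h (T.h (M (nat_lit 167309771)) (T.h (P (nat_lit 0)) (T.h (M (nat_lit 106922171299)) (T.h (P (nat_lit 0)) (M (nat_lit 7564917519655)))))) (T.h (P (nat_lit 0)) (T.h (T.h (P (nat_lit 78881309948)) (T.h (P (nat_lit 0)) (M (nat_lit 539365297519))))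 (T.h (P (nat_lit 0)) (M (nat_lit 607390400567))))))) (T.h (T.h (T.h (P (nat_lit 0)) (T.h (P (nat_lit 4169091836)) (T.h (P (nat_lit 0)) (T.h (P (nat_lit 12612813164)) (T.h (P (nat_lit 0)) (P (nat_lit 2821002205084))))))) (T.h (P (nat_lit 0)) (T.h (T.h (P (nat_lit 0)) (T.h (P (nat_lit 2419587134580)) (T.h (P (nat_lit 0)) (M (nat_lit 147673489739))))) (T.h (P (nat_lit 0)) (T.h (T.h (P (nat_lit 0)) (P (nat_lit 1925458597048))) (P (nat_lit 0))))))) (T.h (T.h (P (nat_lit 0)) (T.h (T.h (P (nat_lit 21241341436)) (T.h (P (nat_lit 0)) (P (nat_lit 2868185268732)))) (T.h (P (nat_lit 0)) (P (nat_lit 1330207109420))))) (T.h (T.h (T.h (P (nat_lit 0)) (T.h (M (nat_lit 104634227235)) (T.h (P (nat_lit 0)) (M (nat_lit 8719659807627))))) (T.h (P (nat_lit 0)) (T.h (T.h (P (nat_lit 0)) (M (nat_lit 5575308139351))) (P (nat_lit 0))))) (T.h (T.h (P (nat_lit 0)) (P (nat_lit 3522724666804))) (T.h (T.h (T.h (P (nat_lit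 0)) (P (nat_lit 6209330557556))) (P (nat_lit 0))) (P (nat_lit 0)))))))) (P (nat_lit 0))))) (T.h (T.h (P (nat_lit 0)) (T.h (T.h (T.h (T.h (P (nat_lit 0)) (T.h (M (nat_lit 1089716739)) (T.h (P (nat_lit 0)) (T.h (M (nat_lit 19192300483)) (T.h (P (nat_lit 0)) (M (nat_lit 1067757417159))))))) (T.h (P (nat_lit 0)) (T.h (T.h (P (nat_lit 0)) (T.h (M (nat_lit 151143290899)) (T.h (P (nat_lit 0)) (M (nat_lit 2229773268855))))) (T.h (P (nat_lit 0)) (T.h (T.h (P (nat_lit 0)) (P (nat_lit 1571236115736))) (P (nat_lit 0))))))) (T.h (T.h (P (nat_lit 0)) (T.h (T.h (P (nat_lit 13366752112)) (T.h (P (nat_lit 0)) (T.h (M (nat_lit 294256971679)) (T.h (P (nat_lit 0)) (P (nat_lit 2383316648944)))))) (T.h (P (nat_lit 0)) (T.h (T.h (P (nat_lit 1273427015532)) (T.h (P (nat_lit 0)) (M (nat_lit 7968999648735)))) (T.h (P (nat_lit 0)) (P (nat_lit 748832760900))))))) (T.h (T.h (T.h (P (nat_lit 0)) (T.h (P (nat_lit 243693388484))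 (T.h (P (nat_lit 0)) (M (nat_lit 407012939451))))) (T.h (P (nat_lit 0)) (T.h (T.h (P (nat_lit 0)) (M (nat_lit 5367650963499))) (P (nat_lit 0))))) (T.h (T.h (P (nat_lit 0)) (T.h (T.h (P (nat_lit 619204847352)) (T.h (P (nat_lit 0)) (M (nat_lit 1977570750399)))) (T.h (P (nat_lit 0)) (M (nat_lit 1386931120623))))) (T.h (T.h (T.h (P (nat_lit 0)) (P (nat_lit 1114388383752))) (P (nat_lit 0))) (T.h (T.h (P (nat_lit 0)) (M (nat_lit 2472089082847))) (P (nat_lit 0)))))))) (P (nat_lit 0)))) (T.h (T.h (T.h (T.h (P (nat_lit 0)) (T.h (T.h (M (nat_lit 3220508983)) (T.h (P (nat_lit 0)) (T.h (M (nat_lit 77419634039)) (T.h (P (nat_lit 0)) (M (nat_lit 1305456404279)))))) (T.h (P (nat_lit 0)) (T.h (T.h (M (nat_lit 58865680215)) (T.h (P (nat_lit 0)) (M (nat_lit 1658331966927)))) (T.h (P (nat_lit 0)) (P (nat_lit 284022896640))))))) (T.h (T.h (T.h (P (nat_lit 0)) (T.h (P (nat_lit 2100722848)) (T.h (P (nat_lit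 0)) (T.h (M (nat_lit 579194573243)) (T.h (P (nat_lit 0)) (P (nat_lit 822620168328))))))) (T.h (P (nat_lit 0)) (T.h (T.h (P (nat_lit 0)) (T.h (M (nat_lit 310509460071)) (T.h (P (nat_lit 0)) (P (nat_lit 5158980426544))))) (T.h (P (nat_lit 0)) (T.h (T.h (P (nat_lit 0)) (M (nat_lit 8231907123999))) (P (nat_lit 0))))))) (T.h (T.h (P (nat_lit 0)) (T.h (T.h (M (nat_lit 77419634039)) (T.h (P (nat_lit 0)) (M (nat_lit 2270472045631)))) (T.h (P (nat_lit 0)) (M (nat_lit 1658331966927))))) (T.h (T.h (T.h (P (nat_lit 0)) (T.h (M (nat_lit 579194573243)) (T.h (P (nat_lit 0)) (P (nat_lit 2597254512720))))) (T.h (P (nat_lit 0)) (T.h (T.h (P (nat_lit 0)) (P (nat_lit 5158980426544))) (P (nat_lit 0))))) (T.h (T.h (P (nat_lit 0)) (M (nat_lit 1305456404279))) (T.h (T.h (T.h (P (nat_lit 0)) (P (nat_lit 822620168328))) (P (nat_lit 0))) (P (nat_lit 0)))))))) (P (nat_lit 0))) (P (nat_lit 0)))))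
def et1_1 : T ℤ := (T.h (T.h (P (nat_lit 0)) (T.h (P (nat_lit 0)) (T.h (T.h (T.h (P (nat_lit 0)) (T.h (T.h (M (nat_lit 1095870555)) (T.h (P (nat_lit 0)) (T.h (P (nat_lit 16892334656)) (T.h (P (nat_lit 0)) (P (nat_lit 2382086167596)))))) (T.h (P (nat_lit 0)) (T.h (T.h (P (nat_lit 36107697304)) (T.h (P (nat_lit 0)) (P (nat_lit 113028952848)))) (T.h (P (nat_lit 0)) (P (nat_lit 253864713308))))))) (T.h (T.h (T.h (P (nat_lit 0)) (T.h (P (nat_lit 5278782868)) (T.h (P (nat_lit 0)) (T.h (P (nat_lit 4860550744)) (T.h (P (nat_lit 0)) (M (nat_lit 2359598077347))))))) (T.h (P (nat_lit 0)) (T.h (T.h (P (nat_lit 0)) (T.h (M (nat_lit 1084217170059)) (T.h (P (nat_lit 0)) (P (nat_lit 4487993585600))))) (T.h (P (nat_lit 0)) (T.h (T.h (P (nat_lit 0)) (M (nat_lit 3150819154867))) (P (nat_lit 0))))))) (T.h (T.h (P (nat_lit 0)) (T.h (T.h (P (nat_lit 6055834852)) (T.h (P (nat_lit 0)) (P (nat_lit 725892098016))))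 (T.h (P (nat_lit 0)) (M (nat_lit 166071221211))))) (T.h (T.h (T.h (P (nat_lit 0)) (T.h (P (nat_lit 382818625000)) (T.h (P (nat_lit 0)) (P (nat_lit 2194423954264))))) (T.h (P (nat_lit 0)) (T.h (T.h (P (nat_lit 0)) (M (nat_lit 4586028571511))) (P (nat_lit 0))))) (T.h (T.h (P (nat_lit 0)) (M (nat_lit 1148640072491))) (T.h (T.h (T.h (P (nat_lit 0)) (M (nat_lit 268118176467))) (P (nat_lit 0))) (P (nat_lit 0)))))))) (T.h (P (nat_lit 0)) (T.h (T.h (T.h (P (nat_lit 0)) (T.h (T.h (P (nat_lit 729440152)) (T.h (P (nat_lit 0)) (T.h (P (nat_lit 337853841304)) (T.h (P (nat_lit 0)) (M (nat_lit 3478715709251)))))) (T.h (P (nat_lit 0)) (T.h (T.h (M (nat_lit 238876962379)) (T.h (P (nat_lit 0)) (M (nat_lit 757519820819)))) (T.h (P (nat_lit 0)) (M (nat_lit 603259660835))))))) (T.h (T.h (T.h (P (nat_lit 0)) (T.h (M (nat_lit 41203668491)) (T.h (P (nat_lit 0)) (T.h (P (nat_lit 530790064588)) (T.h (P (nat_lit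 0)) (P (nat_lit 11763447188864))))))) (T.h (P (nat_lit 0)) (T.h (T.h (P (nat_lit 0)) (T.h (M (nat_lit 130944960383)) (T.h (P (nat_lit 0)) (M (nat_lit 4068062418587))))) (T.h (P (nat_lit 0)) (T.h (T.h (P (nat_lit 0)) (P (nat_lit 29340312850268))) (P (nat_lit 0))))))) (T.h (T.h (P (nat_lit 0)) (T.h (T.h (M (nat_lit 4396056755)) (T.h (P (nat_lit 0)) (M (nat_lit 2280138722735)))) (T.h (P (nat_lit 0)) (P (nat_lit 3734805551708))))) (T.h (T.h (T.h (P (nat_lit 0)) (T.h (M (nat_lit 1719458031759)) (T.h (P (nat_lit 0)) (M (nat_lit 837081819307))))) (T.h (P (nat_lit 0)) (T.h (T.h (P (nat_lit 0)) (P (nat_lit 8675622552996))) (P (nat_lit 0))))) (T.h (T.h (P (nat_lit 0)) (P (nat_lit 910465081428))) (T.h (T.h (T.h (P (nat_lit 0)) (M (nat_lit 4773487217547))) (P (nat_lit 0))) (P (nat_lit 0)))))))) (P (nat_lit 0))))))) (T.h (T.h (P (nat_lit 0)) (T.h (T.h (T.h (T.h (P (nat_lit 0)) (T.h (M (nat_lit 465294227))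 (T.h (P (nat_lit 0)) (T.h (P (nat_lit 8517286672)) (T.h (P (nat_lit 0)) (P (nat_lit 669416506556))))))) (T.h (P (nat_lit 0)) (T.h (T.h (P (nat_lit 0)) (T.h (P (nat_lit 62432502228)) (T.h (P (nat_lit 0)) (P (nat_lit 1353640487724))))) (T.h (P (nat_lit 0)) (T.h (T.h (P (nat_lit 0)) (P (nat_lit 268731595316))) (P (nat_lit 0))))))) (T.h (T.h (P (nat_lit 0)) (T.h (T.h (M (nat_lit 2849753347)) (T.h (P (nat_lit 0)) (T.h (P (nat_lit 295074625112)) (T.h (P (nat_lit 0)) (M (nat_lit 267308080763)))))) (T.h (P (nat_lit 0)) (T.h (T.h (M (nat_lit 414306628491)) (T.h (P (nat_lit 0)) (P (nat_lit 4803213230768)))) (T.h (P (nat_lit 0)) (M (nat_lit 863169930243))))))) (T.h (T.h (T.h (P (nat_lit 0)) (T.h (M (nat_lit 94806990647)) (T.h (P (nat_lit 0)) (P (nat_lit 99960069496))))) (T.h (P (nat_lit 0)) (T.h (T.h (P (nat_lit 0)) (P (nat_lit 2001011491680))) (P (nat_lit 0))))) (T.h (T.h (P (nat_lit 0)) (T.h (T.h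 (M (nat_lit 140985870643)) (T.h (P (nat_lit 0)) (M (nat_lit 4948125497627)))) (T.h (P (nat_lit 0)) (M (nat_lit 4788912635459))))) (T.h (T.h (T.h (P (nat_lit 0)) (M (nat_lit 855256308163))) (P (nat_lit 0))) (T.h (T.h (P (nat_lit 0)) (M (nat_lit 308751120735))) (P (nat_lit 0)))))))) (T.h (P (nat_lit 0)) (T.h (T.h (T.h (T.h (P (nat_lit 0)) (T.h (P (nat_lit 729440152)) (T.h (P (nat_lit 0)) (T.h (M (nat_lit 238876962379)) (T.h (P (nat_lit 0)) (M (nat_lit 603259660835))))))) (T.h (P (nat_lit 0)) (T.h (T.h (P (nat_lit 0)) (T.h (P (nat_lit 337853841304)) (T.h (P (nat_lit 0)) (M (nat_lit 757519820819))))) (T.h (P (nat_lit 0)) (T.h (T.h (P (nat_lit 0)) (M (nat_lit 3478715709251))) (P (nat_lit 0))))))) (T.h (T.h (P (nat_lit 0)) (T.h (T.h (M (nat_lit 41203668491)) (T.h (P (nat_lit 0)) (T.h (M (nat_lit 130944960383)) (T.h (P (nat_lit 0)) (P (nat_lit 29340312850268)))))) (T.h (P (nat_lit 0)) (T.h (T.h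 (P (nat_lit 530790064588)) (T.h (P (nat_lit 0)) (M (nat_lit 4068062418587)))) (T.h (P (nat_lit 0)) (P (nat_lit 11763447188864))))))) (T.h (T.h (T.h (P (nat_lit 0)) (T.h (M (nat_lit 4396056755)) (T.h (P (nat_lit 0)) (P (nat_lit 3734805551708))))) (T.h (P (nat_lit 0)) (T.h (T.h (P (nat_lit 0)) (M (nat_lit 2280138722735))) (P (nat_lit 0))))) (T.h (T.h (P (nat_lit 0)) (T.h (T.h (M (nat_lit 1719458031759)) (T.h (P (nat_lit 0)) (P (nat_lit 8675622552996)))) (T.h (P (nat_lit 0)) (M (nat_lit 837081819307))))) (T.h (T.h (T.h (P (nat_lit 0)) (P (nat_lit 910465081428))) (P (nat_lit 0))) (T.h (T.h (P (nat_lit 0)) (M (nat_lit 4773487217547))) (P (nat_lit 0)))))))) (P (nat_lit 0)))))) et1_0))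
def et1_2 : T ℤ := (T.h (T.h (P (nat_lit 0)) (T.h (P (nat_lit 0)) (T.h (P (nat_lit 0)) (T.h (P (nat_lit 0)) (T.h (T.h (T.h (P (nat_lit 0)) (T.h (T.h (M (nat_lit 465294227)) (T.h (P (nat_lit 0)) (T.h (P (nat_lit 62432502228)) (T.h (P (nat_lit 0)) (P (nat_lit 268731595316)))))) (T.h (P (nat_lit 0)) (T.h (T.h (P (nat_lit 8517286672)) (T.h (P (nat_lit 0)) (P (nat_lit 1353640487724)))) (T.h (P (nat_lit 0)) (P (nat_lit 669416506556))))))) (T.h (T.h (T.h (P (nat_lit 0)) (T.h (M (nat_lit 2849753347)) (T.h (P (nat_lit 0)) (T.h (M (nat_lit 414306628491)) (T.h (P (nat_lit 0)) (M (nat_lit 863169930243))))))) (T.h (P (nat_lit 0)) (T.h (T.h (P (nat_lit 0)) (T.h (P (nat_lit 295074625112)) (T.h (P (nat_lit 0)) (P (nat_lit 4803213230768))))) (T.h (P (nat_lit 0)) (T.h (T.h (P (nat_lit 0)) (M (nat_lit 267308080763))) (P (nat_lit 0))))))) (T.h (T.h (P (nat_lit 0)) (T.h (T.h (M (nat_lit 94806990647)) (T.h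 (P (nat_lit 0)) (P (nat_lit 2001011491680)))) (T.h (P (nat_lit 0)) (P (nat_lit 99960069496))))) (T.h (T.h (T.h (P (nat_lit 0)) (T.h (M (nat_lit 140985870643)) (T.h (P (nat_lit 0)) (M (nat_lit 4788912635459))))) (T.h (P (nat_lit 0)) (T.h (T.h (P (nat_lit 0)) (M (nat_lit 4948125497627))) (P (nat_lit 0))))) (T.h (T.h (P (nat_lit 0)) (M (nat_lit 855256308163))) (T.h (T.h (T.h (P (nat_lit 0)) (M (nat_lit 308751120735))) (P (nat_lit 0))) (P (nat_lit 0)))))))) (T.h (P (nat_lit 0)) (T.h (T.h (T.h (P (nat_lit 0)) (T.h (T.h (M (nat_lit 1089716739)) (T.h (P (nat_lit 0)) (T.h (M (nat_lit 151143290899)) (T.h (P (nat_lit 0)) (P (nat_lit 1571236115736)))))) (T.h (P (nat_lit 0)) (T.h (T.h (M (nat_lit 19192300483)) (T.h (P (nat_lit 0)) (M (nat_lit 2229773268855)))) (T.h (P (nat_lit 0)) (M (nat_lit 1067757417159))))))) (T.h (T.h (T.h (P (nat_lit 0)) (T.h (P (nat_lit 13366752112)) (T.h (P (nat_lit 0)) (T.h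 (P (nat_lit 1273427015532)) (T.h (P (nat_lit 0)) (P (nat_lit 748832760900))))))) (T.h (P (nat_lit 0)) (T.h (T.h (P (nat_lit 0)) (T.h (M (nat_lit 294256971679)) (T.h (P (nat_lit 0)) (M (nat_lit 7968999648735))))) (T.h (P (nat_lit 0)) (T.h (T.h (P (nat_lit 0)) (P (nat_lit 2383316648944))) (P (nat_lit 0))))))) (T.h (T.h (P (nat_lit 0)) (T.h (T.h (P (nat_lit 243693388484)) (T.h (P (nat_lit 0)) (M (nat_lit 5367650963499)))) (T.h (P (nat_lit 0)) (M (nat_lit 407012939451))))) (T.h (T.h (T.h (P (nat_lit 0)) (T.h (P (nat_lit 619204847352)) (T.h (P (nat_lit 0)) (M (nat_lit 1386931120623))))) (T.h (P (nat_lit 0)) (T.h (T.h (P (nat_lit 0)) (M (nat_lit 1977570750399))) (P (nat_lit 0))))) (T.h (T.h (P (nat_lit 0)) (P (nat_lit 1114388383752))) (T.h (T.h (T.h (P (nat_lit 0)) (M (nat_lit 2472089082847))) (P (nat_lit 0))) (P (nat_lit 0)))))))) (P (nat_lit 0))))))))) (T.h (T.h (P (nat_lit 0)) (T.h (P (nat_lit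 0)) (T.h (P (nat_lit 0)) (T.h (T.h (T.h (T.h (P (nat_lit 0)) (T.h (M (nat_lit 1095870555)) (T.h (P (nat_lit 0)) (T.h (P (nat_lit 36107697304)) (T.h (P (nat_lit 0)) (P (nat_lit 253864713308))))))) (T.h (P (nat_lit 0)) (T.h (T.h (P (nat_lit 0)) (T.h (P (nat_lit 16892334656)) (T.h (P (nat_lit 0)) (P (nat_lit 113028952848))))) (T.h (P (nat_lit 0)) (T.h (T.h (P (nat_lit 0)) (P (nat_lit 2382086167596))) (P (nat_lit 0))))))) (T.h (T.h (P (nat_lit 0)) (T.h (T.h (P (nat_lit 5278782868)) (T.h (P (nat_lit 0)) (T.h (M (nat_lit 1084217170059)) (T.h (P (nat_lit 0)) (M (nat_lit 3150819154867)))))) (T.h (P (nat_lit 0)) (T.h (T.h (P (nat_lit 4860550744)) (T.h (P (nat_lit 0)) (P (nat_lit 4487993585600)))) (T.h (P (nat_lit 0)) (M (nat_lit 2359598077347))))))) (T.h (T.h (T.h (P (nat_lit 0)) (T.h (P (nat_lit 6055834852)) (T.h (P (nat_lit 0)) (M (nat_lit 166071221211))))) (T.h (P (nat_lit 0)) (T.h (T.h (P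 (nat_lit 0)) (P (nat_lit 725892098016))) (P (nat_lit 0))))) (T.h (T.h (P (nat_lit 0)) (T.h (T.h (P (nat_lit 382818625000)) (T.h (P (nat_lit 0)) (M (nat_lit 4586028571511)))) (T.h (P (nat_lit 0)) (P (nat_lit 2194423954264))))) (T.h (T.h (T.h (P (nat_lit 0)) (M (nat_lit 1148640072491))) (P (nat_lit 0))) (T.h (T.h (P (nat_lit 0)) (M (nat_lit 268118176467))) (P (nat_lit 0)))))))) (T.h (P (nat_lit 0)) (T.h (T.h (T.h (T.h (P (nat_lit 0)) (T.h (M (nat_lit 167309771)) (T.h (P (nat_lit 0)) (T.h (P (nat_lit 78881309948)) (T.h (P (nat_lit 0)) (M (nat_lit 607390400567))))))) (T.h (P (nat_lit 0)) (T.h (T.h (P (nat_lit 0)) (T.h (M (nat_lit 106922171299)) (T.h (P (nat_lit 0)) (M (nat_lit 539365297519))))) (T.h (P (nat_lit 0)) (T.h (T.h (P (nat_lit 0)) (M (nat_lit 7564917519655))) (P (nat_lit 0))))))) (T.h (T.h (P (nat_lit 0)) (T.h (T.h (P (nat_lit 4169091836)) (T.h (P (nat_lit 0)) (T.h (P (nat_lit 2419587134580))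 (T.h (P (nat_lit 0)) (P (nat_lit 1925458597048)))))) (T.h (P (nat_lit 0)) (T.h (T.h (P (nat_lit 12612813164)) (T.h (P (nat_lit 0)) (M (nat_lit 147673489739)))) (T.h (P (nat_lit 0)) (P (nat_lit 2821002205084))))))) (T.h (T.h (T.h (P (nat_lit 0)) (T.h (P (nat_lit 21241341436)) (T.h (P (nat_lit 0)) (P (nat_lit 1330207109420))))) (T.h (P (nat_lit 0)) (T.h (T.h (P (nat_lit 0)) (P (nat_lit 2868185268732))) (P (nat_lit 0))))) (T.h (T.h (P (nat_lit 0)) (T.h (T.h (M (nat_lit 104634227235)) (T.h (P (nat_lit 0)) (M (nat_lit 5575308139351)))) (T.h (P (nat_lit 0)) (M (nat_lit 8719659807627))))) (T.h (T.h (T.h (P (nat_lit 0)) (P (nat_lit 3522724666804))) (P (nat_lit 0))) (T.h (T.h (P (nat_lit 0)) (P (nat_lit 6209330557556))) (P (nat_lit 0)))))))) (P (nat_lit 0)))))))) et1_1))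
def et1_3 : T ℤ := (T.h (T.h (T.h (T.h (P (nat_lit 0)) (T.h (T.h (P (nat_lit 0)) (T.h (M (nat_lit 2849753347)) (T.h (P (nat_lit 0)) (T.h (M (nat_lit 140985870643)) (T.h (P (nat_lit 0)) (M (nat_lit 308751120735))))))) (T.h (P (nat_lit 0)) (T.h (T.h (P (nat_lit 0)) (T.h (M (nat_lit 414306628491)) (T.h (P (nat_lit 0)) (M (nat_lit 4788912635459))))) (T.h (P (nat_lit 0)) (T.h (T.h (P (nat_lit 0)) (M (nat_lit 863169930243))) (P (nat_lit 0)))))))) (T.h (T.h (T.h (M (nat_lit 465294227)) (T.h (P (nat_lit 0)) (T.h (M (nat_lit 94806990647)) (T.h (P (nat_lit 0)) (M (nat_lit 855256308163)))))) (T.h (P (nat_lit 0)) (T.h (T.h (P (nat_lit 62432502228)) (T.h (P (nat_lit 0)) (P (nat_lit 2001011491680)))) (T.h (P (nat_lit 0)) (P (nat_lit 268731595316)))))) (T.h (T.h (P (nat_lit 0)) (T.h (T.h (P (nat_lit 0)) (T.h (P (nat_lit 295074625112)) (T.h (P (nat_lit 0)) (M (nat_lit 4948125497627))))) (T.h (P (nat_lit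 0)) (T.h (T.h (P (nat_lit 0)) (P (nat_lit 4803213230768))) (P (nat_lit 0)))))) (T.h (T.h (T.h (P (nat_lit 8517286672)) (T.h (P (nat_lit 0)) (P (nat_lit 99960069496)))) (T.h (P (nat_lit 0)) (P (nat_lit 1353640487724)))) (T.h (T.h (P (nat_lit 0)) (T.h (T.h (P (nat_lit 0)) (M (nat_lit 267308080763))) (P (nat_lit 0)))) (P (nat_lit 669416506556))))))) (T.h (P (nat_lit 0)) (T.h (T.h (T.h (P (nat_lit 0)) (T.h (T.h (P (nat_lit 0)) (T.h (P (nat_lit 19679793084)) (T.h (P (nat_lit 0)) (T.h (P (nat_lit 2395741371996)) (T.h (P (nat_lit 0)) (M (nat_lit 15845606182531))))))) (T.h (P (nat_lit 0)) (T.h (T.h (P (nat_lit 0)) (T.h (M (nat_lit 2837562597239)) (T.h (P (nat_lit 0)) (P (nat_lit 16851961504672))))) (T.h (P (nat_lit 0)) (T.h (T.h (P (nat_lit 0)) (M (nat_lit 32673637682951))) (P (nat_lit 0)))))))) (T.h (T.h (T.h (P (nat_lit 6705238008)) (T.h (P (nat_lit 0)) (T.h (M (nat_lit 132011788635)) (T.h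 (P (nat_lit 0)) (M (nat_lit 7867581551199)))))) (T.h (P (nat_lit 0)) (T.h (T.h (P (nat_lit 9351076784)) (T.h (P (nat_lit 0)) (P (nat_lit 6241083184924)))) (T.h (P (nat_lit 0)) (P (nat_lit 10465498024884)))))) (T.h (T.h (P (nat_lit 0)) (T.h (T.h (P (nat_lit 0)) (T.h (P (nat_lit 6068627399968)) (T.h (P (nat_lit 0)) (M (nat_lit 8842003773875))))) (T.h (P (nat_lit 0)) (T.h (T.h (P (nat_lit 0)) (P (nat_lit 3179753213504))) (P (nat_lit 0)))))) (T.h (T.h (T.h (P (nat_lit 352993603032)) (T.h (P (nat_lit 0)) (M (nat_lit 5771898926471)))) (T.h (P (nat_lit 0)) (M (nat_lit 3397831510023)))) (T.h (T.h (P (nat_lit 0)) (T.h (T.h (P (nat_lit 0)) (M (nat_lit 2113336605239))) (P (nat_lit 0)))) (P (nat_lit 3426803426704))))))) (P (nat_lit 0))))) (T.h (T.h (P (nat_lit 0)) (T.h (T.h (T.h (T.h (P (nat_lit 0)) (T.h (P (nat_lit 0)) (T.h (M (nat_lit 2411803743)) (T.h (P (nat_lit 0)) (T.h (M (nat_lit 445943535519))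 (T.h (P (nat_lit 0)) (P (nat_lit 3237926072388)))))))) (T.h (P (nat_lit 0)) (T.h (T.h (M (nat_lit 56304371703)) (T.h (P (nat_lit 0)) (T.h (P (nat_lit 2850551199888)) (T.h (P (nat_lit 0)) (M (nat_lit 2025573191823)))))) (T.h (P (nat_lit 0)) (T.h (T.h (M (nat_lit 778153942887)) (T.h (P (nat_lit 0)) (M (nat_lit 10962488254423)))) (T.h (P (nat_lit 0)) (M (nat_lit 7889192694599)))))))) (T.h (T.h (P (nat_lit 0)) (T.h (T.h (P (nat_lit 0)) (T.h (M (nat_lit 930335345575)) (T.h (P (nat_lit 0)) (M (nat_lit 15084400090787))))) (T.h (P (nat_lit 0)) (T.h (T.h (P (nat_lit 0)) (P (nat_lit 10055035351592))) (P (nat_lit 0)))))) (T.h (T.h (T.h (M (nat_lit 2411803743)) (T.h (P (nat_lit 0)) (T.h (M (nat_lit 2341012131471)) (T.h (P (nat_lit 0)) (P (nat_lit 7237155353148)))))) (T.h (P (nat_lit 0)) (T.h (T.h (P (nat_lit 2850551199888)) (T.h (P (nat_lit 0)) (M (nat_lit 37638923265663)))) (T.h (P (nat_lit 0))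 (M (nat_lit 10962488254423)))))) (T.h (T.h (P (nat_lit 0)) (T.h (T.h (P (nat_lit 0)) (M (nat_lit 15084400090787))) (P (nat_lit 0)))) (T.h (T.h (T.h (M (nat_lit 445943535519)) (T.h (P (nat_lit 0)) (P (nat_lit 7237155353148)))) (T.h (P (nat_lit 0)) (M (nat_lit 2025573191823)))) (T.h (P (nat_lit 0)) (P (nat_lit 3237926072388)))))))) (P (nat_lit 0)))) (T.h (T.h (T.h (T.h (P (nat_lit 0)) (T.h (T.h (P (nat_lit 0)) (T.h (P (nat_lit 13366752112)) (T.h (P (nat_lit 0)) (T.h (P (nat_lit 619204847352)) (T.h (P (nat_lit 0)) (M (nat_lit 2472089082847))))))) (T.h (P (nat_lit 0)) (T.h (T.h (P (nat_lit 0)) (T.h (P (nat_lit 1273427015532)) (T.h (P (nat_lit 0)) (M (nat_lit 1386931120623))))) (T.h (P (nat_lit 0)) (T.h (T.h (P (nat_lit 0)) (P (nat_lit 748832760900))) (P (nat_lit 0)))))))) (T.h (T.h (T.h (M (nat_lit 1089716739)) (T.h (P (nat_lit 0)) (T.h (P (nat_lit 243693388484)) (T.h (P (nat_lit 0)) (P (nat_lit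 1114388383752)))))) (T.h (P (nat_lit 0)) (T.h (T.h (M (nat_lit 151143290899)) (T.h (P (nat_lit 0)) (M (nat_lit 5367650963499)))) (T.h (P (nat_lit 0)) (P (nat_lit 1571236115736)))))) (T.h (T.h (P (nat_lit 0)) (T.h (T.h (P (nat_lit 0)) (T.h (M (nat_lit 294256971679)) (T.h (P (nat_lit 0)) (M (nat_lit 1977570750399))))) (T.h (P (nat_lit 0)) (T.h (T.h (P (nat_lit 0)) (M (nat_lit 7968999648735))) (P (nat_lit 0)))))) (T.h (T.h (T.h (M (nat_lit 19192300483)) (T.h (P (nat_lit 0)) (M (nat_lit 407012939451)))) (T.h (P (nat_lit 0)) (M (nat_lit 2229773268855)))) (T.h (T.h (P (nat_lit 0)) (T.h (T.h (P (nat_lit 0)) (P (nat_lit 2383316648944))) (P (nat_lit 0)))) (M (nat_lit 1067757417159))))))) (P (nat_lit 0))) (P (nat_lit 0)))))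
def et1_4 : T ℤ := (T.h (T.h (P (nat_lit 0)) (T.h (P (nat_lit 0)) (T.h (T.h (T.h (P (nat_lit 0)) (T.h (T.h (P (nat_lit 0)) (T.h (P (nat_lit 1775926496)) (T.h (P (nat_lit 0)) (T.h (P (nat_lit 12031450872)) (T.h (P (nat_lit 0)) (P (nat_lit 1155223869272))))))) (T.h (P (nat_lit 0)) (T.h (T.h (P (nat_lit 0)) (T.h (P (nat_lit 12031450872)) (T.h (P (nat_lit 0)) (M (nat_lit 2967355468983))))) (T.h (P (nat_lit 0)) (T.h (T.h (P (nat_lit 0)) (P (nat_lit 1155223869272))) (P (nat_lit 0)))))))) (T.h (T.h (T.h (M (nat_lit 4530903279)) (T.h (P (nat_lit 0)) (T.h (M (nat_lit 11563928231)) (T.h (P (nat_lit 0)) (P (nat_lit 552715234740)))))) (T.h (P (nat_lit 0)) (T.h (T.h (M (nat_lit 11563928231)) (T.h (P (nat_lit 0)) (M (nat_lit 1066862991391)))) (T.h (P (nat_lit 0)) (P (nat_lit 552715234740)))))) (T.h (T.h (P (nat_lit 0)) (T.h (T.h (P (nat_lit 0)) (T.h (M (nat_lit 1500689344375)) (T.h (P (nat_lit 0))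 (M (nat_lit 2944597517443))))) (T.h (P (nat_lit 0)) (T.h (T.h (P (nat_lit 0)) (M (nat_lit 2944597517443))) (P (nat_lit 0)))))) (T.h (T.h (T.h (M (nat_lit 57731157687)) (T.h (P (nat_lit 0)) (P (nat_lit 339302015388)))) (T.h (P (nat_lit 0)) (P (nat_lit 339302015388)))) (T.h (T.h (P (nat_lit 0)) (T.h (T.h (P (nat_lit 0)) (M (nat_lit 1474343661399))) (P (nat_lit 0)))) (M (nat_lit 616009762191))))))) (T.h (P (nat_lit 0)) (T.h (T.h (T.h (P (nat_lit 0)) (T.h (T.h (P (nat_lit 0)) (T.h (P (nat_lit 19679793084)) (T.h (P (nat_lit 0)) (T.h (M (nat_lit 2837562597239)) (T.h (P (nat_lit 0)) (M (nat_lit 32673637682951))))))) (T.h (P (nat_lit 0)) (T.h (T.h (P (nat_lit 0)) (T.h (P (nat_lit 2395741371996)) (T.h (P (nat_lit 0)) (P (nat_lit 16851961504672))))) (T.h (P (nat_lit 0)) (T.h (T.h (P (nat_lit 0)) (M (nat_lit 15845606182531))) (P (nat_lit 0)))))))) (T.h (T.h (T.h (P (nat_lit 6705238008)) (T.h (P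 (nat_lit 0)) (T.h (P (nat_lit 9351076784)) (T.h (P (nat_lit 0)) (P (nat_lit 10465498024884)))))) (T.h (P (nat_lit 0)) (T.h (T.h (M (nat_lit 132011788635)) (T.h (P (nat_lit 0)) (P (nat_lit 6241083184924)))) (T.h (P (nat_lit 0)) (M (nat_lit 7867581551199)))))) (T.h (T.h (P (nat_lit 0)) (T.h (T.h (P (nat_lit 0)) (T.h (P (nat_lit 6068627399968)) (T.h (P (nat_lit 0)) (P (nat_lit 3179753213504))))) (T.h (P (nat_lit 0)) (T.h (T.h (P (nat_lit 0)) (M (nat_lit 8842003773875))) (P (nat_lit 0)))))) (T.h (T.h (T.h (P (nat_lit 352993603032)) (T.h (P (nat_lit 0)) (M (nat_lit 3397831510023)))) (T.h (P (nat_lit 0)) (M (nat_lit 5771898926471)))) (T.h (T.h (P (nat_lit 0)) (T.h (T.h (P (nat_lit 0)) (M (nat_lit 2113336605239))) (P (nat_lit 0)))) (P (nat_lit 3426803426704))))))) (P (nat_lit 0))))))) (T.h (T.h (P (nat_lit 0)) (T.h (T.h (T.h (T.h (P (nat_lit 0)) (T.h (P (nat_lit 0)) (T.h (P (nat_lit 1424595952))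 (T.h (P (nat_lit 0)) (T.h (P (nat_lit 48898982104)) (T.h (P (nat_lit 0)) (M (nat_lit 463642350983)))))))) (T.h (P (nat_lit 0)) (T.h (T.h (M (nat_lit 7505007)) (T.h (P (nat_lit 0)) (T.h (M (nat_lit 293586102727)) (T.h (P (nat_lit 0)) (M (nat_lit 3519121945607)))))) (T.h (P (nat_lit 0)) (T.h (T.h (P (nat_lit 26505776)) (T.h (P (nat_lit 0)) (M (nat_lit 2379252689423)))) (T.h (P (nat_lit 0)) (P (nat_lit 2843997984)))))))) (T.h (T.h (P (nat_lit 0)) (T.h (T.h (P (nat_lit 0)) (T.h (P (nat_lit 20749472)) (T.h (P (nat_lit 0)) (P (nat_lit 1507326322080))))) (T.h (P (nat_lit 0)) (T.h (T.h (P (nat_lit 0)) (P (nat_lit 20471808))) (P (nat_lit 0)))))) (T.h (T.h (T.h (P (nat_lit 1424595952)) (T.h (P (nat_lit 0)) (T.h (M (nat_lit 71819855)) (T.h (P (nat_lit 0)) (M (nat_lit 2266876494295)))))) (T.h (P (nat_lit 0)) (T.h (T.h (M (nat_lit 293586102727)) (T.h (P (nat_lit 0)) (M (nat_lit 2461898895)))) (T.h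 (P (nat_lit 0)) (M (nat_lit 2379252689423)))))) (T.h (T.h (P (nat_lit 0)) (T.h (T.h (P (nat_lit 0)) (P (nat_lit 1507326322080))) (P (nat_lit 0)))) (T.h (T.h (T.h (P (nat_lit 48898982104)) (T.h (P (nat_lit 0)) (M (nat_lit 2266876494295)))) (T.h (P (nat_lit 0)) (M (nat_lit 3519121945607)))) (T.h (P (nat_lit 0)) (M (nat_lit 463642350983)))))))) (T.h (P (nat_lit 0)) (T.h (T.h (T.h (T.h (P (nat_lit 0)) (T.h (P (nat_lit 0)) (T.h (P (nat_lit 75673582012)) (T.h (P (nat_lit 0)) (T.h (P (nat_lit 362040912072)) (T.h (P (nat_lit 0)) (P (nat_lit 2602391018920)))))))) (T.h (P (nat_lit 0)) (T.h (T.h (P (nat_lit 75673582012)) (T.h (P (nat_lit 0)) (T.h (M (nat_lit 3788908574639)) (T.h (P (nat_lit 0)) (M (nat_lit 7724887275531)))))) (T.h (P (nat_lit 0)) (T.h (T.h (P (nat_lit 362040912072)) (T.h (P (nat_lit 0)) (M (nat_lit 7724887275531)))) (T.h (P (nat_lit 0)) (P (nat_lit 2602391018920)))))))) (T.h (T.h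 (P (nat_lit 0)) (T.h (T.h (P (nat_lit 0)) (T.h (P (nat_lit 555442744136)) (T.h (P (nat_lit 0)) (P (nat_lit 7460654612404))))) (T.h (P (nat_lit 0)) (T.h (T.h (P (nat_lit 0)) (P (nat_lit 7460654612404))) (P (nat_lit 0)))))) (T.h (T.h (T.h (M (nat_lit 67594381567)) (T.h (P (nat_lit 0)) (T.h (P (nat_lit 2361822744372)) (T.h (P (nat_lit 0)) (P (nat_lit 4254695481036)))))) (T.h (P (nat_lit 0)) (T.h (T.h (P (nat_lit 2361822744372)) (T.h (P (nat_lit 0)) (M (nat_lit 23000637334807)))) (T.h (P (nat_lit 0)) (P (nat_lit 4254695481036)))))) (T.h (T.h (P (nat_lit 0)) (T.h (T.h (P (nat_lit 0)) (M (nat_lit 9949886724231))) (P (nat_lit 0)))) (T.h (T.h (T.h (M (nat_lit 1537038254639)) (T.h (P (nat_lit 0)) (M (nat_lit 1598118925535)))) (T.h (P (nat_lit 0)) (M (nat_lit 1598118925535)))) (T.h (P (nat_lit 0)) (M (nat_lit 8509099455247)))))))) (P (nat_lit 0)))))) et1_3))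
def et1_5 : T ℤ := (T.h (T.h (P (nat_lit 0)) (T.h (P (nat_lit 0)) (T.h (P (nat_lit 0)) (T.h (P (nat_lit 0)) (T.h (T.h (T.h (P (nat_lit 0)) (T.h (T.h (P (nat_lit 0)) (T.h (M (nat_lit 2849753347)) (T.h (P (nat_lit 0)) (T.h (M (nat_lit 414306628491)) (T.h (P (nat_lit 0)) (M (nat_lit 863169930243))))))) (T.h (P (nat_lit 0)) (T.h (T.h (P (nat_lit 0)) (T.h (M (nat_lit 140985870643)) (T.h (P (nat_lit 0)) (M (nat_lit 4788912635459))))) (T.h (P (nat_lit 0)) (T.h (T.h (P (nat_lit 0)) (M (nat_lit 308751120735))) (P (nat_lit 0)))))))) (T.h (T.h (T.h (M (nat_lit 465294227)) (T.h (P (nat_lit 0)) (T.h (P (nat_lit 62432502228)) (T.h (P (nat_lit 0)) (P (nat_lit 268731595316)))))) (T.h (P (nat_lit 0)) (T.h (T.h (M (nat_lit 94806990647)) (T.h (P (nat_lit 0)) (P (nat_lit 2001011491680)))) (T.h (P (nat_lit 0)) (M (nat_lit 855256308163)))))) (T.h (T.h (P (nat_lit 0)) (T.h (T.h (P (nat_lit 0)) (T.h (P (nat_lit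 295074625112)) (T.h (P (nat_lit 0)) (P (nat_lit 4803213230768))))) (T.h (P (nat_lit 0)) (T.h (T.h (P (nat_lit 0)) (M (nat_lit 4948125497627))) (P (nat_lit 0)))))) (T.h (T.h (T.h (P (nat_lit 8517286672)) (T.h (P (nat_lit 0)) (P (nat_lit 1353640487724)))) (T.h (P (nat_lit 0)) (P (nat_lit 99960069496)))) (T.h (T.h (P (nat_lit 0)) (T.h (T.h (P (nat_lit 0)) (M (nat_lit 267308080763))) (P (nat_lit 0)))) (P (nat_lit 669416506556))))))) (T.h (P (nat_lit 0)) (T.h (T.h (T.h (P (nat_lit 0)) (T.h (T.h (P (nat_lit 0)) (T.h (P (nat_lit 13366752112)) (T.h (P (nat_lit 0)) (T.h (P (nat_lit 1273427015532)) (T.h (P (nat_lit 0)) (P (nat_lit 748832760900))))))) (T.h (P (nat_lit 0)) (T.h (T.h (P (nat_lit 0)) (T.h (P (nat_lit 619204847352)) (T.h (P (nat_lit 0)) (M (nat_lit 1386931120623))))) (T.h (P (nat_lit 0)) (T.h (T.h (P (nat_lit 0)) (M (nat_lit 2472089082847))) (P (nat_lit 0)))))))) (T.h (T.h (T.h (M (nat_lit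 1089716739)) (T.h (P (nat_lit 0)) (T.h (M (nat_lit 151143290899)) (T.h (P (nat_lit 0)) (P (nat_lit 1571236115736)))))) (T.h (P (nat_lit 0)) (T.h (T.h (P (nat_lit 243693388484)) (T.h (P (nat_lit 0)) (M (nat_lit 5367650963499)))) (T.h (P (nat_lit 0)) (P (nat_lit 1114388383752)))))) (T.h (T.h (P (nat_lit 0)) (T.h (T.h (P (nat_lit 0)) (T.h (M (nat_lit 294256971679)) (T.h (P (nat_lit 0)) (M (nat_lit 7968999648735))))) (T.h (P (nat_lit 0)) (T.h (T.h (P (nat_lit 0)) (M (nat_lit 1977570750399))) (P (nat_lit 0)))))) (T.h (T.h (T.h (M (nat_lit 19192300483)) (T.h (P (nat_lit 0)) (M (nat_lit 2229773268855)))) (T.h (P (nat_lit 0)) (M (nat_lit 407012939451)))) (T.h (T.h (P (nat_lit 0)) (T.h (T.h (P (nat_lit 0)) (P (nat_lit 2383316648944))) (P (nat_lit 0)))) (M (nat_lit 1067757417159))))))) (P (nat_lit 0))))))))) (T.h (T.h (P (nat_lit 0)) (T.h (P (nat_lit 0)) (T.h (P (nat_lit 0)) (T.h (T.h (T.h (T.h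 (P (nat_lit 0)) (T.h (P (nat_lit 0)) (T.h (M (nat_lit 7505007)) (T.h (P (nat_lit 0)) (T.h (P (nat_lit 26505776)) (T.h (P (nat_lit 0)) (P (nat_lit 2843997984)))))))) (T.h (P (nat_lit 0)) (T.h (T.h (P (nat_lit 1424595952)) (T.h (P (nat_lit 0)) (T.h (M (nat_lit 293586102727)) (T.h (P (nat_lit 0)) (M (nat_lit 2379252689423)))))) (T.h (P (nat_lit 0)) (T.h (T.h (P (nat_lit 48898982104)) (T.h (P (nat_lit 0)) (M (nat_lit 3519121945607)))) (T.h (P (nat_lit 0)) (M (nat_lit 463642350983)))))))) (T.h (T.h (P (nat_lit 0)) (T.h (T.h (P (nat_lit 0)) (T.h (P (nat_lit 20749472)) (T.h (P (nat_lit 0)) (P (nat_lit 20471808))))) (T.h (P (nat_lit 0)) (T.h (T.h (P (nat_lit 0)) (P (nat_lit 1507326322080))) (P (nat_lit 0)))))) (T.h (T.h (T.h (P (nat_lit 1424595952)) (T.h (P (nat_lit 0)) (T.h (M (nat_lit 293586102727)) (T.h (P (nat_lit 0)) (M (nat_lit 2379252689423)))))) (T.h (P (nat_lit 0)) (T.h (T.h (M (nat_lit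 71819855)) (T.h (P (nat_lit 0)) (M (nat_lit 2461898895)))) (T.h (P (nat_lit 0)) (M (nat_lit 2266876494295)))))) (T.h (T.h (P (nat_lit 0)) (T.h (T.h (P (nat_lit 0)) (P (nat_lit 1507326322080))) (P (nat_lit 0)))) (T.h (T.h (T.h (P (nat_lit 48898982104)) (T.h (P (nat_lit 0)) (M (nat_lit 3519121945607)))) (T.h (P (nat_lit 0)) (M (nat_lit 2266876494295)))) (T.h (P (nat_lit 0)) (M (nat_lit 463642350983)))))))) (T.h (P (nat_lit 0)) (T.h (T.h (T.h (T.h (P (nat_lit 0)) (T.h (P (nat_lit 0)) (T.h (M (nat_lit 56304371703)) (T.h (P (nat_lit 0)) (T.h (M (nat_lit 778153942887)) (T.h (P (nat_lit 0)) (M (nat_lit 7889192694599)))))))) (T.h (P (nat_lit 0)) (T.h (T.h (M (nat_lit 2411803743)) (T.h (P (nat_lit 0)) (T.h (P (nat_lit 2850551199888)) (T.h (P (nat_lit 0)) (M (nat_lit 10962488254423)))))) (T.h (P (nat_lit 0)) (T.h (T.h (M (nat_lit 445943535519)) (T.h (P (nat_lit 0)) (M (nat_lit 2025573191823))))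 (T.h (P (nat_lit 0)) (P (nat_lit 3237926072388)))))))) (T.h (T.h (P (nat_lit 0)) (T.h (T.h (P (nat_lit 0)) (T.h (M (nat_lit 930335345575)) (T.h (P (nat_lit 0)) (P (nat_lit 10055035351592))))) (T.h (P (nat_lit 0)) (T.h (T.h (P (nat_lit 0)) (M (nat_lit 15084400090787))) (P (nat_lit 0)))))) (T.h (T.h (T.h (M (nat_lit 2411803743)) (T.h (P (nat_lit 0)) (T.h (P (nat_lit 2850551199888)) (T.h (P (nat_lit 0)) (M (nat_lit 10962488254423)))))) (T.h (P (nat_lit 0)) (T.h (T.h (M (nat_lit 2341012131471)) (T.h (P (nat_lit 0)) (M (nat_lit 37638923265663)))) (T.h (P (nat_lit 0)) (P (nat_lit 7237155353148)))))) (T.h (T.h (P (nat_lit 0)) (T.h (T.h (P (nat_lit 0)) (M (nat_lit 15084400090787))) (P (nat_lit 0)))) (T.h (T.h (T.h (M (nat_lit 445943535519)) (T.h (P (nat_lit 0)) (M (nat_lit 2025573191823)))) (T.h (P (nat_lit 0)) (P (nat_lit 7237155353148)))) (T.h (P (nat_lit 0)) (P (nat_lit 3237926072388))))))))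 (P (nat_lit 0)))))))) et1_4))
def et1_6 : T ℤ := (T.h (T.h (T.h (T.h (P (nat_lit 0)) (T.h (T.h (M (nat_lit 1095870555)) (T.h (P (nat_lit 0)) (T.h (P (nat_lit 6055834852)) (T.h (P (nat_lit 0)) (M (nat_lit 1148640072491)))))) (T.h (P (nat_lit 0)) (T.h (T.h (P (nat_lit 36107697304)) (T.h (P (nat_lit 0)) (M (nat_lit 166071221211)))) (T.h (P (nat_lit 0)) (P (nat_lit 253864713308))))))) (T.h (T.h (T.h (P (nat_lit 0)) (T.h (P (nat_lit 5278782868)) (T.h (P (nat_lit 0)) (T.h (P (nat_lit 382818625000)) (T.h (P (nat_lit 0)) (M (nat_lit 268118176467))))))) (T.h (P (nat_lit 0)) (T.h (T.h (P (nat_lit 0)) (T.h (M (nat_lit 1084217170059)) (T.h (P (nat_lit 0)) (M (nat_lit 4586028571511))))) (T.h (P (nat_lit 0)) (T.h (T.h (P (nat_lit 0)) (M (nat_lit 3150819154867))) (P (nat_lit 0))))))) (T.h (T.h (P (nat_lit 0)) (T.h (T.h (P (nat_lit 16892334656)) (T.h (P (nat_lit 0)) (P (nat_lit 725892098016)))) (T.h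 (P (nat_lit 0)) (P (nat_lit 113028952848))))) (T.h (T.h (T.h (P (nat_lit 0)) (T.h (P (nat_lit 4860550744)) (T.h (P (nat_lit 0)) (P (nat_lit 2194423954264))))) (T.h (P (nat_lit 0)) (T.h (T.h (P (nat_lit 0)) (P (nat_lit 4487993585600))) (P (nat_lit 0))))) (T.h (T.h (P (nat_lit 0)) (P (nat_lit 2382086167596))) (T.h (T.h (T.h (P (nat_lit 0)) (M (nat_lit 2359598077347))) (P (nat_lit 0))) (P (nat_lit 0)))))))) (T.h (P (nat_lit 0)) (T.h (T.h (T.h (P (nat_lit 0)) (T.h (T.h (M (nat_lit 18069236135)) (T.h (P (nat_lit 0)) (T.h (M (nat_lit 89103810627)) (T.h (P (nat_lit 0)) (P (nat_lit 8930107619412)))))) (T.h (P (nat_lit 0)) (T.h (T.h (P (nat_lit 147430324552)) (T.h (P (nat_lit 0)) (P (nat_lit 1713139332576)))) (T.h (P (nat_lit 0)) (P (nat_lit 539753947432))))))) (T.h (T.h (T.h (P (nat_lit 0)) (T.h (P (nat_lit 36801653672)) (T.h (P (nat_lit 0)) (T.h (P (nat_lit 763852260836)) (T.h (P (nat_lit 0))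 (M (nat_lit 1445665154807))))))) (T.h (P (nat_lit 0)) (T.h (T.h (P (nat_lit 0)) (T.h (M (nat_lit 8208736817903)) (T.h (P (nat_lit 0)) (M (nat_lit 20597373499779))))) (T.h (P (nat_lit 0)) (T.h (T.h (P (nat_lit 0)) (M (nat_lit 31188591829079))) (P (nat_lit 0))))))) (T.h (T.h (P (nat_lit 0)) (T.h (T.h (M (nat_lit 89103810627)) (T.h (P (nat_lit 0)) (P (nat_lit 4749312402912)))) (T.h (P (nat_lit 0)) (P (nat_lit 1713139332576))))) (T.h (T.h (T.h (P (nat_lit 0)) (T.h (P (nat_lit 763852260836)) (T.h (P (nat_lit 0)) (M (nat_lit 512003744783))))) (T.h (P (nat_lit 0)) (T.h (T.h (P (nat_lit 0)) (M (nat_lit 20597373499779))) (P (nat_lit 0))))) (T.h (T.h (P (nat_lit 0)) (P (nat_lit 8930107619412))) (T.h (T.h (T.h (P (nat_lit 0)) (M (nat_lit 1445665154807))) (P (nat_lit 0))) (P (nat_lit 0)))))))) (P (nat_lit 0))))) (T.h (T.h (P (nat_lit 0)) (T.h (T.h (T.h (T.h (P (nat_lit 0)) (T.h (P (nat_lit 6705238008))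 (T.h (P (nat_lit 0)) (T.h (P (nat_lit 352993603032)) (T.h (P (nat_lit 0)) (P (nat_lit 3426803426704))))))) (T.h (P (nat_lit 0)) (T.h (T.h (P (nat_lit 0)) (T.h (P (nat_lit 9351076784)) (T.h (P (nat_lit 0)) (M (nat_lit 3397831510023))))) (T.h (P (nat_lit 0)) (T.h (T.h (P (nat_lit 0)) (P (nat_lit 10465498024884))) (P (nat_lit 0))))))) (T.h (T.h (P (nat_lit 0)) (T.h (T.h (P (nat_lit 19679793084)) (T.h (P (nat_lit 0)) (T.h (P (nat_lit 6068627399968)) (T.h (P (nat_lit 0)) (M (nat_lit 2113336605239)))))) (T.h (P (nat_lit 0)) (T.h (T.h (M (nat_lit 2837562597239)) (T.h (P (nat_lit 0)) (P (nat_lit 3179753213504)))) (T.h (P (nat_lit 0)) (M (nat_lit 32673637682951))))))) (T.h (T.h (T.h (P (nat_lit 0)) (T.h (M (nat_lit 132011788635)) (T.h (P (nat_lit 0)) (M (nat_lit 5771898926471))))) (T.h (P (nat_lit 0)) (T.h (T.h (P (nat_lit 0)) (P (nat_lit 6241083184924))) (P (nat_lit 0))))) (T.h (T.h (P (nat_lit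 0)) (T.h (T.h (P (nat_lit 2395741371996)) (T.h (P (nat_lit 0)) (M (nat_lit 8842003773875)))) (T.h (P (nat_lit 0)) (P (nat_lit 16851961504672))))) (T.h (T.h (T.h (P (nat_lit 0)) (M (nat_lit 7867581551199))) (P (nat_lit 0))) (T.h (T.h (P (nat_lit 0)) (M (nat_lit 15845606182531))) (P (nat_lit 0)))))))) (P (nat_lit 0)))) (T.h (T.h (T.h (T.h (P (nat_lit 0)) (T.h (T.h (M (nat_lit 167309771)) (T.h (P (nat_lit 0)) (T.h (P (nat_lit 21241341436)) (T.h (P (nat_lit 0)) (P (nat_lit 3522724666804)))))) (T.h (P (nat_lit 0)) (T.h (T.h (P (nat_lit 78881309948)) (T.h (P (nat_lit 0)) (P (nat_lit 1330207109420)))) (T.h (P (nat_lit 0)) (M (nat_lit 607390400567))))))) (T.h (T.h (T.h (P (nat_lit 0)) (T.h (P (nat_lit 4169091836)) (T.h (P (nat_lit 0)) (T.h (M (nat_lit 104634227235)) (T.h (P (nat_lit 0)) (P (nat_lit 6209330557556))))))) (T.h (P (nat_lit 0)) (T.h (T.h (P (nat_lit 0)) (T.h (P (nat_lit 2419587134580))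 (T.h (P (nat_lit 0)) (M (nat_lit 5575308139351))))) (T.h (P (nat_lit 0)) (T.h (T.h (P (nat_lit 0)) (P (nat_lit 1925458597048))) (P (nat_lit 0))))))) (T.h (T.h (P (nat_lit 0)) (T.h (T.h (M (nat_lit 106922171299)) (T.h (P (nat_lit 0)) (P (nat_lit 2868185268732)))) (T.h (P (nat_lit 0)) (M (nat_lit 539365297519))))) (T.h (T.h (T.h (P (nat_lit 0)) (T.h (P (nat_lit 12612813164)) (T.h (P (nat_lit 0)) (M (nat_lit 8719659807627))))) (T.h (P (nat_lit 0)) (T.h (T.h (P (nat_lit 0)) (M (nat_lit 147673489739))) (P (nat_lit 0))))) (T.h (T.h (P (nat_lit 0)) (M (nat_lit 7564917519655))) (T.h (T.h (T.h (P (nat_lit 0)) (P (nat_lit 2821002205084))) (P (nat_lit 0))) (P (nat_lit 0)))))))) (P (nat_lit 0))) (P (nat_lit 0)))))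
def et1_7 : T ℤ := (T.h (T.h (P (nat_lit 0)) (T.h (P (nat_lit 0)) (T.h (T.h (T.h (P (nat_lit 0)) (T.h (T.h (M (nat_lit 4530903279)) (T.h (P (nat_lit 0)) (T.h (M (nat_lit 11563928231)) (T.h (P (nat_lit 0)) (P (nat_lit 552715234740)))))) (T.h (P (nat_lit 0)) (T.h (T.h (M (nat_lit 57731157687)) (T.h (P (nat_lit 0)) (P (nat_lit 339302015388)))) (T.h (P (nat_lit 0)) (M (nat_lit 616009762191))))))) (T.h (T.h (T.h (P (nat_lit 0)) (T.h (P (nat_lit 1775926496)) (T.h (P (nat_lit 0)) (T.h (P (nat_lit 12031450872)) (T.h (P (nat_lit 0)) (P (nat_lit 1155223869272))))))) (T.h (P (nat_lit 0)) (T.h (T.h (P (nat_lit 0)) (T.h (M (nat_lit 1500689344375)) (T.h (P (nat_lit 0)) (M (nat_lit 2944597517443))))) (T.h (P (nat_lit 0)) (T.h (T.h (P (nat_lit 0)) (M (nat_lit 1474343661399))) (P (nat_lit 0))))))) (T.h (T.h (P (nat_lit 0)) (T.h (T.h (M (nat_lit 11563928231)) (T.h (P (nat_lit 0)) (M (nat_lit 1066862991391))))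 (T.h (P (nat_lit 0)) (P (nat_lit 339302015388))))) (T.h (T.h (T.h (P (nat_lit 0)) (T.h (P (nat_lit 12031450872)) (T.h (P (nat_lit 0)) (M (nat_lit 2967355468983))))) (T.h (P (nat_lit 0)) (T.h (T.h (P (nat_lit 0)) (M (nat_lit 2944597517443))) (P (nat_lit 0))))) (T.h (T.h (P (nat_lit 0)) (P (nat_lit 552715234740))) (T.h (T.h (T.h (P (nat_lit 0)) (P (nat_lit 1155223869272))) (P (nat_lit 0))) (P (nat_lit 0)))))))) (T.h (P (nat_lit 0)) (T.h (T.h (T.h (P (nat_lit 0)) (T.h (T.h (P (nat_lit 6705238008)) (T.h (P (nat_lit 0)) (T.h (P (nat_lit 9351076784)) (T.h (P (nat_lit 0)) (P (nat_lit 10465498024884)))))) (T.h (P (nat_lit 0)) (T.h (T.h (P (nat_lit 352993603032)) (T.h (P (nat_lit 0)) (M (nat_lit 3397831510023)))) (T.h (P (nat_lit 0)) (P (nat_lit 3426803426704))))))) (T.h (T.h (T.h (P (nat_lit 0)) (T.h (P (nat_lit 19679793084)) (T.h (P (nat_lit 0)) (T.h (M (nat_lit 2837562597239)) (T.h (P (nat_lit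 0)) (M (nat_lit 32673637682951))))))) (T.h (P (nat_lit 0)) (T.h (T.h (P (nat_lit 0)) (T.h (P (nat_lit 6068627399968)) (T.h (P (nat_lit 0)) (P (nat_lit 3179753213504))))) (T.h (P (nat_lit 0)) (T.h (T.h (P (nat_lit 0)) (M (nat_lit 2113336605239))) (P (nat_lit 0))))))) (T.h (T.h (P (nat_lit 0)) (T.h (T.h (M (nat_lit 132011788635)) (T.h (P (nat_lit 0)) (P (nat_lit 6241083184924)))) (T.h (P (nat_lit 0)) (M (nat_lit 5771898926471))))) (T.h (T.h (T.h (P (nat_lit 0)) (T.h (P (nat_lit 2395741371996)) (T.h (P (nat_lit 0)) (P (nat_lit 16851961504672))))) (T.h (P (nat_lit 0)) (T.h (T.h (P (nat_lit 0)) (M (nat_lit 8842003773875))) (P (nat_lit 0))))) (T.h (T.h (P (nat_lit 0)) (M (nat_lit 7867581551199))) (T.h (T.h (T.h (P (nat_lit 0)) (M (nat_lit 15845606182531))) (P (nat_lit 0))) (P (nat_lit 0)))))))) (P (nat_lit 0))))))) (T.h (T.h (P (nat_lit 0)) (T.h (T.h (T.h (T.h (P (nat_lit 0)) (T.h (M (nat_lit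 4530903279)) (T.h (P (nat_lit 0)) (T.h (M (nat_lit 57731157687)) (T.h (P (nat_lit 0)) (M (nat_lit 616009762191))))))) (T.h (P (nat_lit 0)) (T.h (T.h (P (nat_lit 0)) (T.h (M (nat_lit 11563928231)) (T.h (P (nat_lit 0)) (P (nat_lit 339302015388))))) (T.h (P (nat_lit 0)) (T.h (T.h (P (nat_lit 0)) (P (nat_lit 552715234740))) (P (nat_lit 0))))))) (T.h (T.h (P (nat_lit 0)) (T.h (T.h (P (nat_lit 1775926496)) (T.h (P (nat_lit 0)) (T.h (M (nat_lit 1500689344375)) (T.h (P (nat_lit 0)) (M (nat_lit 1474343661399)))))) (T.h (P (nat_lit 0)) (T.h (T.h (P (nat_lit 12031450872)) (T.h (P (nat_lit 0)) (M (nat_lit 2944597517443)))) (T.h (P (nat_lit 0)) (P (nat_lit 1155223869272))))))) (T.h (T.h (T.h (P (nat_lit 0)) (T.h (M (nat_lit 11563928231)) (T.h (P (nat_lit 0)) (P (nat_lit 339302015388))))) (T.h (P (nat_lit 0)) (T.h (T.h (P (nat_lit 0)) (M (nat_lit 1066862991391))) (P (nat_lit 0))))) (T.h (T.h (P (nat_lit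 0)) (T.h (T.h (P (nat_lit 12031450872)) (T.h (P (nat_lit 0)) (M (nat_lit 2944597517443)))) (T.h (P (nat_lit 0)) (M (nat_lit 2967355468983))))) (T.h (T.h (T.h (P (nat_lit 0)) (P (nat_lit 552715234740))) (P (nat_lit 0))) (T.h (T.h (P (nat_lit 0)) (P (nat_lit 1155223869272))) (P (nat_lit 0)))))))) (T.h (P (nat_lit 0)) (T.h (T.h (T.h (T.h (P (nat_lit 0)) (T.h (M (nat_lit 18069236135)) (T.h (P (nat_lit 0)) (T.h (P (nat_lit 147430324552)) (T.h (P (nat_lit 0)) (P (nat_lit 539753947432))))))) (T.h (P (nat_lit 0)) (T.h (T.h (P (nat_lit 0)) (T.h (M (nat_lit 89103810627)) (T.h (P (nat_lit 0)) (P (nat_lit 1713139332576))))) (T.h (P (nat_lit 0)) (T.h (T.h (P (nat_lit 0)) (P (nat_lit 8930107619412))) (P (nat_lit 0))))))) (T.h (T.h (P (nat_lit 0)) (T.h (T.h (P (nat_lit 36801653672)) (T.h (P (nat_lit 0)) (T.h (M (nat_lit 8208736817903)) (T.h (P (nat_lit 0)) (M (nat_lit 31188591829079)))))) (T.h (P (nat_lit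 0)) (T.h (T.h (P (nat_lit 763852260836)) (T.h (P (nat_lit 0)) (M (nat_lit 20597373499779)))) (T.h (P (nat_lit 0)) (M (nat_lit 1445665154807))))))) (T.h (T.h (T.h (P (nat_lit 0)) (T.h (M (nat_lit 89103810627)) (T.h (P (nat_lit 0)) (P (nat_lit 1713139332576))))) (T.h (P (nat_lit 0)) (T.h (T.h (P (nat_lit 0)) (P (nat_lit 4749312402912))) (P (nat_lit 0))))) (T.h (T.h (P (nat_lit 0)) (T.h (T.h (P (nat_lit 763852260836)) (T.h (P (nat_lit 0)) (M (nat_lit 20597373499779)))) (T.h (P (nat_lit 0)) (M (nat_lit 512003744783))))) (T.h (T.h (T.h (P (nat_lit 0)) (P (nat_lit 8930107619412))) (P (nat_lit 0))) (T.h (T.h (P (nat_lit 0)) (M (nat_lit 1445665154807))) (P (nat_lit 0)))))))) (P (nat_lit 0)))))) et1_6))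
def et1_8 : T ℤ := (T.h (T.h (T.h (T.h (P (nat_lit 0)) (T.h (T.h (P (nat_lit 0)) (T.h (P (nat_lit 5278782868)) (T.h (P (nat_lit 0)) (T.h (P (nat_lit 382818625000)) (T.h (P (nat_lit 0)) (M (nat_lit 268118176467))))))) (T.h (P (nat_lit 0)) (T.h (T.h (P (nat_lit 0)) (T.h (P (nat_lit 4860550744)) (T.h (P (nat_lit 0)) (P (nat_lit 2194423954264))))) (T.h (P (nat_lit 0)) (T.h (T.h (P (nat_lit 0)) (M (nat_lit 2359598077347))) (P (nat_lit 0)))))))) (T.h (T.h (T.h (M (nat_lit 1095870555)) (T.h (P (nat_lit 0)) (T.h (P (nat_lit 6055834852)) (T.h (P (nat_lit 0)) (M (nat_lit 1148640072491)))))) (T.h (P (nat_lit 0)) (T.h (T.h (P (nat_lit 16892334656)) (T.h (P (nat_lit 0)) (P (nat_lit 725892098016)))) (T.h (P (nat_lit 0)) (P (nat_lit 2382086167596)))))) (T.h (T.h (P (nat_lit 0)) (T.h (T.h (P (nat_lit 0)) (T.h (M (nat_lit 1084217170059)) (T.h (P (nat_lit 0)) (M (nat_lit 4586028571511))))) (T.h (P (nat_lit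 0)) (T.h (T.h (P (nat_lit 0)) (P (nat_lit 4487993585600))) (P (nat_lit 0)))))) (T.h (T.h (T.h (P (nat_lit 36107697304)) (T.h (P (nat_lit 0)) (M (nat_lit 166071221211)))) (T.h (P (nat_lit 0)) (P (nat_lit 113028952848)))) (T.h (T.h (P (nat_lit 0)) (T.h (T.h (P (nat_lit 0)) (M (nat_lit 3150819154867))) (P (nat_lit 0)))) (P (nat_lit 253864713308))))))) (T.h (P (nat_lit 0)) (T.h (T.h (T.h (P (nat_lit 0)) (T.h (T.h (P (nat_lit 0)) (T.h (P (nat_lit 36801653672)) (T.h (P (nat_lit 0)) (T.h (P (nat_lit 763852260836)) (T.h (P (nat_lit 0)) (M (nat_lit 1445665154807))))))) (T.h (P (nat_lit 0)) (T.h (T.h (P (nat_lit 0)) (T.h (P (nat_lit 763852260836)) (T.h (P (nat_lit 0)) (M (nat_lit 512003744783))))) (T.h (P (nat_lit 0)) (T.h (T.h (P (nat_lit 0)) (M (nat_lit 1445665154807))) (P (nat_lit 0)))))))) (T.h (T.h (T.h (M (nat_lit 18069236135)) (T.h (P (nat_lit 0)) (T.h (M (nat_lit 89103810627)) (T.h (P (nat_lit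 0)) (P (nat_lit 8930107619412)))))) (T.h (P (nat_lit 0)) (T.h (T.h (M (nat_lit 89103810627)) (T.h (P (nat_lit 0)) (P (nat_lit 4749312402912)))) (T.h (P (nat_lit 0)) (P (nat_lit 8930107619412)))))) (T.h (T.h (P (nat_lit 0)) (T.h (T.h (P (nat_lit 0)) (T.h (M (nat_lit 8208736817903)) (T.h (P (nat_lit 0)) (M (nat_lit 20597373499779))))) (T.h (P (nat_lit 0)) (T.h (T.h (P (nat_lit 0)) (M (nat_lit 20597373499779))) (P (nat_lit 0)))))) (T.h (T.h (T.h (P (nat_lit 147430324552)) (T.h (P (nat_lit 0)) (P (nat_lit 1713139332576)))) (T.h (P (nat_lit 0)) (P (nat_lit 1713139332576)))) (T.h (T.h (P (nat_lit 0)) (T.h (T.h (P (nat_lit 0)) (M (nat_lit 31188591829079))) (P (nat_lit 0)))) (P (nat_lit 539753947432))))))) (P (nat_lit 0))))) (T.h (T.h (P (nat_lit 0)) (T.h (T.h (T.h (T.h (P (nat_lit 0)) (T.h (P (nat_lit 0)) (T.h (M (nat_lit 67594381567)) (T.h (P (nat_lit 0)) (T.h (M (nat_lit 1537038254639)) (T.h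 (P (nat_lit 0)) (M (nat_lit 8509099455247)))))))) (T.h (P (nat_lit 0)) (T.h (T.h (P (nat_lit 75673582012)) (T.h (P (nat_lit 0)) (T.h (P (nat_lit 2361822744372)) (T.h (P (nat_lit 0)) (M (nat_lit 1598118925535)))))) (T.h (P (nat_lit 0)) (T.h (T.h (P (nat_lit 362040912072)) (T.h (P (nat_lit 0)) (P (nat_lit 4254695481036)))) (T.h (P (nat_lit 0)) (P (nat_lit 2602391018920)))))))) (T.h (T.h (P (nat_lit 0)) (T.h (T.h (P (nat_lit 0)) (T.h (P (nat_lit 555442744136)) (T.h (P (nat_lit 0)) (M (nat_lit 9949886724231))))) (T.h (P (nat_lit 0)) (T.h (T.h (P (nat_lit 0)) (P (nat_lit 7460654612404))) (P (nat_lit 0)))))) (T.h (T.h (T.h (P (nat_lit 75673582012)) (T.h (P (nat_lit 0)) (T.h (P (nat_lit 2361822744372)) (T.h (P (nat_lit 0)) (M (nat_lit 1598118925535)))))) (T.h (P (nat_lit 0)) (T.h (T.h (M (nat_lit 3788908574639)) (T.h (P (nat_lit 0)) (M (nat_lit 23000637334807)))) (T.h (P (nat_lit 0)) (M (nat_lit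 7724887275531)))))) (T.h (T.h (P (nat_lit 0)) (T.h (T.h (P (nat_lit 0)) (P (nat_lit 7460654612404))) (P (nat_lit 0)))) (T.h (T.h (T.h (P (nat_lit 362040912072)) (T.h (P (nat_lit 0)) (P (nat_lit 4254695481036)))) (T.h (P (nat_lit 0)) (M (nat_lit 7724887275531)))) (T.h (P (nat_lit 0)) (P (nat_lit 2602391018920)))))))) (P (nat_lit 0)))) (T.h (T.h (T.h (T.h (P (nat_lit 0)) (T.h (T.h (P (nat_lit 0)) (T.h (M (nat_lit 41203668491)) (T.h (P (nat_lit 0)) (T.h (M (nat_lit 1719458031759)) (T.h (P (nat_lit 0)) (M (nat_lit 4773487217547))))))) (T.h (P (nat_lit 0)) (T.h (T.h (P (nat_lit 0)) (T.h (P (nat_lit 530790064588)) (T.h (P (nat_lit 0)) (M (nat_lit 837081819307))))) (T.h (P (nat_lit 0)) (T.h (T.h (P (nat_lit 0)) (P (nat_lit 11763447188864))) (P (nat_lit 0)))))))) (T.h (T.h (T.h (P (nat_lit 729440152)) (T.h (P (nat_lit 0)) (T.h (M (nat_lit 4396056755)) (T.h (P (nat_lit 0)) (P (nat_lit 910465081428))))))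 (T.h (P (nat_lit 0)) (T.h (T.h (P (nat_lit 337853841304)) (T.h (P (nat_lit 0)) (M (nat_lit 2280138722735)))) (T.h (P (nat_lit 0)) (M (nat_lit 3478715709251)))))) (T.h (T.h (P (nat_lit 0)) (T.h (T.h (P (nat_lit 0)) (T.h (M (nat_lit 130944960383)) (T.h (P (nat_lit 0)) (P (nat_lit 8675622552996))))) (T.h (P (nat_lit 0)) (T.h (T.h (P (nat_lit 0)) (M (nat_lit 4068062418587))) (P (nat_lit 0)))))) (T.h (T.h (T.h (M (nat_lit 238876962379)) (T.h (P (nat_lit 0)) (P (nat_lit 3734805551708)))) (T.h (P (nat_lit 0)) (M (nat_lit 757519820819)))) (T.h (T.h (P (nat_lit 0)) (T.h (T.h (P (nat_lit 0)) (P (nat_lit 29340312850268))) (P (nat_lit 0)))) (M (nat_lit 603259660835))))))) (P (nat_lit 0))) (P (nat_lit 0)))))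
def et1_9 : T ℤ := (T.h (T.h (P (nat_lit 0)) (T.h (P (nat_lit 0)) (T.h (T.h (T.h (P (nat_lit 0)) (T.h (T.h (P (nat_lit 0)) (T.h (P (nat_lit 5278782868)) (T.h (P (nat_lit 0)) (T.h (P (nat_lit 4860550744)) (T.h (P (nat_lit 0)) (M (nat_lit 2359598077347))))))) (T.h (P (nat_lit 0)) (T.h (T.h (P (nat_lit 0)) (T.h (P (nat_lit 382818625000)) (T.h (P (nat_lit 0)) (P (nat_lit 2194423954264))))) (T.h (P (nat_lit 0)) (T.h (T.h (P (nat_lit 0)) (M (nat_lit 268118176467))) (P (nat_lit 0)))))))) (T.h (T.h (T.h (M (nat_lit 1095870555)) (T.h (P (nat_lit 0)) (T.h (P (nat_lit 16892334656)) (T.h (P (nat_lit 0)) (P (nat_lit 2382086167596)))))) (T.h (P (nat_lit 0)) (T.h (T.h (P (nat_lit 6055834852)) (T.h (P (nat_lit 0)) (P (nat_lit 725892098016)))) (T.h (P (nat_lit 0)) (M (nat_lit 1148640072491)))))) (T.h (T.h (P (nat_lit 0)) (T.h (T.h (P (nat_lit 0)) (T.h (M (nat_lit 1084217170059)) (T.h (P (nat_lit 0)) (P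 (nat_lit 4487993585600))))) (T.h (P (nat_lit 0)) (T.h (T.h (P (nat_lit 0)) (M (nat_lit 4586028571511))) (P (nat_lit 0)))))) (T.h (T.h (T.h (P (nat_lit 36107697304)) (T.h (P (nat_lit 0)) (P (nat_lit 113028952848)))) (T.h (P (nat_lit 0)) (M (nat_lit 166071221211)))) (T.h (T.h (P (nat_lit 0)) (T.h (T.h (P (nat_lit 0)) (M (nat_lit 3150819154867))) (P (nat_lit 0)))) (P (nat_lit 253864713308))))))) (T.h (P (nat_lit 0)) (T.h (T.h (T.h (P (nat_lit 0)) (T.h (T.h (P (nat_lit 0)) (T.h (M (nat_lit 41203668491)) (T.h (P (nat_lit 0)) (T.h (P (nat_lit 530790064588)) (T.h (P (nat_lit 0)) (P (nat_lit 11763447188864))))))) (T.h (P (nat_lit 0)) (T.h (T.h (P (nat_lit 0)) (T.h (M (nat_lit 1719458031759)) (T.h (P (nat_lit 0)) (M (nat_lit 837081819307))))) (T.h (P (nat_lit 0)) (T.h (T.h (P (nat_lit 0)) (M (nat_lit 4773487217547))) (P (nat_lit 0)))))))) (T.h (T.h (T.h (P (nat_lit 729440152)) (T.h (P (nat_lit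 0)) (T.h (P (nat_lit 337853841304)) (T.h (P (nat_lit 0)) (M (nat_lit 3478715709251)))))) (T.h (P (nat_lit 0)) (T.h (T.h (M (nat_lit 4396056755)) (T.h (P (nat_lit 0)) (M (nat_lit 2280138722735)))) (T.h (P (nat_lit 0)) (P (nat_lit 910465081428)))))) (T.h (T.h (P (nat_lit 0)) (T.h (T.h (P (nat_lit 0)) (T.h (M (nat_lit 130944960383)) (T.h (P (nat_lit 0)) (M (nat_lit 4068062418587))))) (T.h (P (nat_lit 0)) (T.h (T.h (P (nat_lit 0)) (P (nat_lit 8675622552996))) (P (nat_lit 0)))))) (T.h (T.h (T.h (M (nat_lit 238876962379)) (T.h (P (nat_lit 0)) (M (nat_lit 757519820819)))) (T.h (P (nat_lit 0)) (P (nat_lit 3734805551708)))) (T.h (T.h (P (nat_lit 0)) (T.h (T.h (P (nat_lit 0)) (P (nat_lit 29340312850268))) (P (nat_lit 0)))) (M (nat_lit 603259660835))))))) (P (nat_lit 0))))))) (T.h (T.h (P (nat_lit 0)) (T.h (T.h (T.h (T.h (P (nat_lit 0)) (T.h (P (nat_lit 0)) (T.h (P (nat_lit 1424595952)) (T.h (P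 (nat_lit 0)) (T.h (P (nat_lit 48898982104)) (T.h (P (nat_lit 0)) (M (nat_lit 463642350983)))))))) (T.h (P (nat_lit 0)) (T.h (T.h (P (nat_lit 1424595952)) (T.h (P (nat_lit 0)) (T.h (M (nat_lit 71819855)) (T.h (P (nat_lit 0)) (M (nat_lit 2266876494295)))))) (T.h (P (nat_lit 0)) (T.h (T.h (P (nat_lit 48898982104)) (T.h (P (nat_lit 0)) (M (nat_lit 2266876494295)))) (T.h (P (nat_lit 0)) (M (nat_lit 463642350983)))))))) (T.h (T.h (P (nat_lit 0)) (T.h (T.h (P (nat_lit 0)) (T.h (P (nat_lit 20749472)) (T.h (P (nat_lit 0)) (P (nat_lit 1507326322080))))) (T.h (P (nat_lit 0)) (T.h (T.h (P (nat_lit 0)) (P (nat_lit 1507326322080))) (P (nat_lit 0)))))) (T.h (T.h (T.h (M (nat_lit 7505007)) (T.h (P (nat_lit 0)) (T.h (M (nat_lit 293586102727)) (T.h (P (nat_lit 0)) (M (nat_lit 3519121945607)))))) (T.h (P (nat_lit 0)) (T.h (T.h (M (nat_lit 293586102727)) (T.h (P (nat_lit 0)) (M (nat_lit 2461898895)))) (T.h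 (P (nat_lit 0)) (M (nat_lit 3519121945607)))))) (T.h (T.h (P (nat_lit 0)) (T.h (T.h (P (nat_lit 0)) (P (nat_lit 20471808))) (P (nat_lit 0)))) (T.h (T.h (T.h (P (nat_lit 26505776)) (T.h (P (nat_lit 0)) (M (nat_lit 2379252689423)))) (T.h (P (nat_lit 0)) (M (nat_lit 2379252689423)))) (T.h (P (nat_lit 0)) (P (nat_lit 2843997984)))))))) (T.h (P (nat_lit 0)) (T.h (T.h (T.h (T.h (P (nat_lit 0)) (T.h (P (nat_lit 0)) (T.h (P (nat_lit 75673582012)) (T.h (P (nat_lit 0)) (T.h (P (nat_lit 362040912072)) (T.h (P (nat_lit 0)) (P (nat_lit 2602391018920)))))))) (T.h (P (nat_lit 0)) (T.h (T.h (M (nat_lit 67594381567)) (T.h (P (nat_lit 0)) (T.h (P (nat_lit 2361822744372)) (T.h (P (nat_lit 0)) (P (nat_lit 4254695481036)))))) (T.h (P (nat_lit 0)) (T.h (T.h (M (nat_lit 1537038254639)) (T.h (P (nat_lit 0)) (M (nat_lit 1598118925535)))) (T.h (P (nat_lit 0)) (M (nat_lit 8509099455247)))))))) (T.h (T.h (P (nat_lit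 0)) (T.h (T.h (P (nat_lit 0)) (T.h (P (nat_lit 555442744136)) (T.h (P (nat_lit 0)) (P (nat_lit 7460654612404))))) (T.h (P (nat_lit 0)) (T.h (T.h (P (nat_lit 0)) (M (nat_lit 9949886724231))) (P (nat_lit 0)))))) (T.h (T.h (T.h (P (nat_lit 75673582012)) (T.h (P (nat_lit 0)) (T.h (M (nat_lit 3788908574639)) (T.h (P (nat_lit 0)) (M (nat_lit 7724887275531)))))) (T.h (P (nat_lit 0)) (T.h (T.h (P (nat_lit 2361822744372)) (T.h (P (nat_lit 0)) (M (nat_lit 23000637334807)))) (T.h (P (nat_lit 0)) (M (nat_lit 1598118925535)))))) (T.h (T.h (P (nat_lit 0)) (T.h (T.h (P (nat_lit 0)) (P (nat_lit 7460654612404))) (P (nat_lit 0)))) (T.h (T.h (T.h (P (nat_lit 362040912072)) (T.h (P (nat_lit 0)) (M (nat_lit 7724887275531)))) (T.h (P (nat_lit 0)) (P (nat_lit 4254695481036)))) (T.h (P (nat_lit 0)) (P (nat_lit 2602391018920)))))))) (P (nat_lit 0)))))) et1_8))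
def et1_10 : T ℤ := (T.h (T.h (T.h (T.h (P (nat_lit 0)) (T.h (T.h (M (nat_lit 465294227)) (T.h (P (nat_lit 0)) (T.h (M (nat_lit 94806990647)) (T.h (P (nat_lit 0)) (M (nat_lit 855256308163)))))) (T.h (P (nat_lit 0)) (T.h (T.h (P (nat_lit 8517286672)) (T.h (P (nat_lit 0)) (P (nat_lit 99960069496)))) (T.h (P (nat_lit 0)) (P (nat_lit 669416506556))))))) (T.h (T.h (T.h (P (nat_lit 0)) (T.h (M (nat_lit 2849753347)) (T.h (P (nat_lit 0)) (T.h (M (nat_lit 140985870643)) (T.h (P (nat_lit 0)) (M (nat_lit 308751120735))))))) (T.h (P (nat_lit 0)) (T.h (T.h (P (nat_lit 0)) (T.h (P (nat_lit 295074625112)) (T.h (P (nat_lit 0)) (M (nat_lit 4948125497627))))) (T.h (P (nat_lit 0)) (T.h (T.h (P (nat_lit 0)) (M (nat_lit 267308080763))) (P (nat_lit 0))))))) (T.h (T.h (P (nat_lit 0)) (T.h (T.h (P (nat_lit 62432502228)) (T.h (P (nat_lit 0)) (P (nat_lit 2001011491680)))) (T.h (P (nat_lit 0)) (P (nat_lit 1353640487724)))))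 (T.h (T.h (T.h (P (nat_lit 0)) (T.h (M (nat_lit 414306628491)) (T.h (P (nat_lit 0)) (M (nat_lit 4788912635459))))) (T.h (P (nat_lit 0)) (T.h (T.h (P (nat_lit 0)) (P (nat_lit 4803213230768))) (P (nat_lit 0))))) (T.h (T.h (P (nat_lit 0)) (P (nat_lit 268731595316))) (T.h (T.h (T.h (P (nat_lit 0)) (M (nat_lit 863169930243))) (P (nat_lit 0))) (P (nat_lit 0)))))))) (T.h (P (nat_lit 0)) (T.h (T.h (T.h (P (nat_lit 0)) (T.h (T.h (P (nat_lit 6705238008)) (T.h (P (nat_lit 0)) (T.h (M (nat_lit 132011788635)) (T.h (P (nat_lit 0)) (M (nat_lit 7867581551199)))))) (T.h (P (nat_lit 0)) (T.h (T.h (P (nat_lit 352993603032)) (T.h (P (nat_lit 0)) (M (nat_lit 5771898926471)))) (T.h (P (nat_lit 0)) (P (nat_lit 3426803426704))))))) (T.h (T.h (T.h (P (nat_lit 0)) (T.h (P (nat_lit 19679793084)) (T.h (P (nat_lit 0)) (T.h (P (nat_lit 2395741371996)) (T.h (P (nat_lit 0)) (M (nat_lit 15845606182531))))))) (T.h (P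 (nat_lit 0)) (T.h (T.h (P (nat_lit 0)) (T.h (P (nat_lit 6068627399968)) (T.h (P (nat_lit 0)) (M (nat_lit 8842003773875))))) (T.h (P (nat_lit 0)) (T.h (T.h (P (nat_lit 0)) (M (nat_lit 2113336605239))) (P (nat_lit 0))))))) (T.h (T.h (P (nat_lit 0)) (T.h (T.h (P (nat_lit 9351076784)) (T.h (P (nat_lit 0)) (P (nat_lit 6241083184924)))) (T.h (P (nat_lit 0)) (M (nat_lit 3397831510023))))) (T.h (T.h (T.h (P (nat_lit 0)) (T.h (M (nat_lit 2837562597239)) (T.h (P (nat_lit 0)) (P (nat_lit 16851961504672))))) (T.h (P (nat_lit 0)) (T.h (T.h (P (nat_lit 0)) (P (nat_lit 3179753213504))) (P (nat_lit 0))))) (T.h (T.h (P (nat_lit 0)) (P (nat_lit 10465498024884))) (T.h (T.h (T.h (P (nat_lit 0)) (M (nat_lit 32673637682951))) (P (nat_lit 0))) (P (nat_lit 0)))))))) (P (nat_lit 0))))) (T.h (T.h (P (nat_lit 0)) (T.h (T.h (T.h (T.h (P (nat_lit 0)) (T.h (P (nat_lit 6705238008)) (T.h (P (nat_lit 0)) (T.h (P (nat_lit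 352993603032)) (T.h (P (nat_lit 0)) (P (nat_lit 3426803426704))))))) (T.h (P (nat_lit 0)) (T.h (T.h (P (nat_lit 0)) (T.h (M (nat_lit 132011788635)) (T.h (P (nat_lit 0)) (M (nat_lit 5771898926471))))) (T.h (P (nat_lit 0)) (T.h (T.h (P (nat_lit 0)) (M (nat_lit 7867581551199))) (P (nat_lit 0))))))) (T.h (T.h (P (nat_lit 0)) (T.h (T.h (P (nat_lit 19679793084)) (T.h (P (nat_lit 0)) (T.h (P (nat_lit 6068627399968)) (T.h (P (nat_lit 0)) (M (nat_lit 2113336605239)))))) (T.h (P (nat_lit 0)) (T.h (T.h (P (nat_lit 2395741371996)) (T.h (P (nat_lit 0)) (M (nat_lit 8842003773875)))) (T.h (P (nat_lit 0)) (M (nat_lit 15845606182531))))))) (T.h (T.h (T.h (P (nat_lit 0)) (T.h (P (nat_lit 9351076784)) (T.h (P (nat_lit 0)) (M (nat_lit 3397831510023))))) (T.h (P (nat_lit 0)) (T.h (T.h (P (nat_lit 0)) (P (nat_lit 6241083184924))) (P (nat_lit 0))))) (T.h (T.h (P (nat_lit 0)) (T.h (T.h (M (nat_lit 2837562597239))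 (T.h (P (nat_lit 0)) (P (nat_lit 3179753213504)))) (T.h (P (nat_lit 0)) (P (nat_lit 16851961504672))))) (T.h (T.h (T.h (P (nat_lit 0)) (P (nat_lit 10465498024884))) (P (nat_lit 0))) (T.h (T.h (P (nat_lit 0)) (M (nat_lit 32673637682951))) (P (nat_lit 0)))))))) (P (nat_lit 0)))) (T.h (T.h (T.h (T.h (P (nat_lit 0)) (T.h (T.h (P (nat_lit 729440152)) (T.h (P (nat_lit 0)) (T.h (M (nat_lit 4396056755)) (T.h (P (nat_lit 0)) (P (nat_lit 910465081428)))))) (T.h (P (nat_lit 0)) (T.h (T.h (M (nat_lit 238876962379)) (T.h (P (nat_lit 0)) (P (nat_lit 3734805551708)))) (T.h (P (nat_lit 0)) (M (nat_lit 603259660835))))))) (T.h (T.h (T.h (P (nat_lit 0)) (T.h (M (nat_lit 41203668491)) (T.h (P (nat_lit 0)) (T.h (M (nat_lit 1719458031759)) (T.h (P (nat_lit 0)) (M (nat_lit 4773487217547))))))) (T.h (P (nat_lit 0)) (T.h (T.h (P (nat_lit 0)) (T.h (M (nat_lit 130944960383)) (T.h (P (nat_lit 0)) (P (nat_lit 8675622552996)))))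 (T.h (P (nat_lit 0)) (T.h (T.h (P (nat_lit 0)) (P (nat_lit 29340312850268))) (P (nat_lit 0))))))) (T.h (T.h (P (nat_lit 0)) (T.h (T.h (P (nat_lit 337853841304)) (T.h (P (nat_lit 0)) (M (nat_lit 2280138722735)))) (T.h (P (nat_lit 0)) (M (nat_lit 757519820819))))) (T.h (T.h (T.h (P (nat_lit 0)) (T.h (P (nat_lit 530790064588)) (T.h (P (nat_lit 0)) (M (nat_lit 837081819307))))) (T.h (P (nat_lit 0)) (T.h (T.h (P (nat_lit 0)) (M (nat_lit 4068062418587))) (P (nat_lit 0))))) (T.h (T.h (P (nat_lit 0)) (M (nat_lit 3478715709251))) (T.h (T.h (T.h (P (nat_lit 0)) (P (nat_lit 11763447188864))) (P (nat_lit 0))) (P (nat_lit 0)))))))) (P (nat_lit 0))) (P (nat_lit 0)))))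
def et1_11 : T ℤ := (T.h (T.h (T.h (T.h (P (nat_lit 0)) (T.h (T.h (P (nat_lit 0)) (T.h (M (nat_lit 1197704327)) (T.h (P (nat_lit 0)) (T.h (P (nat_lit 423808796872)) (T.h (P (nat_lit 0)) (M (nat_lit 1210805810935))))))) (T.h (P (nat_lit 0)) (T.h (T.h (P (nat_lit 0)) (T.h (P (nat_lit 423808796872)) (T.h (P (nat_lit 0)) (M (nat_lit 1482475068711))))) (T.h (P (nat_lit 0)) (T.h (T.h (P (nat_lit 0)) (M (nat_lit 1210805810935))) (P (nat_lit 0)))))))) (T.h (T.h (T.h (P (nat_lit 1840665712)) (T.h (P (nat_lit 0)) (T.h (P (nat_lit 58594107260)) (T.h (P (nat_lit 0)) (P (nat_lit 847363037728)))))) (T.h (P (nat_lit 0)) (T.h (T.h (P (nat_lit 58594107260)) (T.h (P (nat_lit 0)) (P (nat_lit 1298467310560)))) (T.h (P (nat_lit 0)) (P (nat_lit 847363037728)))))) (T.h (T.h (P (nat_lit 0)) (T.h (T.h (P (nat_lit 0)) (T.h (P (nat_lit 177520785384)) (T.h (P (nat_lit 0)) (M (nat_lit 3606488589699))))) (T.h (P (nat_lit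 0)) (T.h (T.h (P (nat_lit 0)) (M (nat_lit 3606488589699))) (P (nat_lit 0)))))) (T.h (T.h (T.h (P (nat_lit 33609769336)) (T.h (P (nat_lit 0)) (P (nat_lit 1178099742664)))) (T.h (P (nat_lit 0)) (P (nat_lit 1178099742664)))) (T.h (T.h (P (nat_lit 0)) (T.h (T.h (P (nat_lit 0)) (P (nat_lit 4705131301792))) (P (nat_lit 0)))) (M (nat_lit 161642234567))))))) (T.h (P (nat_lit 0)) (T.h (T.h (T.h (P (nat_lit 0)) (T.h (T.h (P (nat_lit 0)) (T.h (P (nat_lit 4169091836)) (T.h (P (nat_lit 0)) (T.h (P (nat_lit 12612813164)) (T.h (P (nat_lit 0)) (P (nat_lit 2821002205084))))))) (T.h (P (nat_lit 0)) (T.h (T.h (P (nat_lit 0)) (T.h (M (nat_lit 104634227235)) (T.h (P (nat_lit 0)) (M (nat_lit 8719659807627))))) (T.h (P (nat_lit 0)) (T.h (T.h (P (nat_lit 0)) (P (nat_lit 6209330557556))) (P (nat_lit 0)))))))) (T.h (T.h (T.h (M (nat_lit 167309771)) (T.h (P (nat_lit 0)) (T.h (M (nat_lit 106922171299)) (T.h (P (nat_lit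 0)) (M (nat_lit 7564917519655)))))) (T.h (P (nat_lit 0)) (T.h (T.h (P (nat_lit 21241341436)) (T.h (P (nat_lit 0)) (P (nat_lit 2868185268732)))) (T.h (P (nat_lit 0)) (P (nat_lit 3522724666804)))))) (T.h (T.h (P (nat_lit 0)) (T.h (T.h (P (nat_lit 0)) (T.h (P (nat_lit 2419587134580)) (T.h (P (nat_lit 0)) (M (nat_lit 147673489739))))) (T.h (P (nat_lit 0)) (T.h (T.h (P (nat_lit 0)) (M (nat_lit 5575308139351))) (P (nat_lit 0)))))) (T.h (T.h (T.h (P (nat_lit 78881309948)) (T.h (P (nat_lit 0)) (M (nat_lit 539365297519)))) (T.h (P (nat_lit 0)) (P (nat_lit 1330207109420)))) (T.h (T.h (P (nat_lit 0)) (T.h (T.h (P (nat_lit 0)) (P (nat_lit 1925458597048))) (P (nat_lit 0)))) (M (nat_lit 607390400567))))))) (P (nat_lit 0))))) (T.h (T.h (P (nat_lit 0)) (T.h (T.h (T.h (T.h (P (nat_lit 0)) (T.h (P (nat_lit 0)) (T.h (M (nat_lit 2411803743)) (T.h (P (nat_lit 0)) (T.h (M (nat_lit 445943535519)) (T.h (P (nat_lit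 0)) (P (nat_lit 3237926072388)))))))) (T.h (P (nat_lit 0)) (T.h (T.h (M (nat_lit 2411803743)) (T.h (P (nat_lit 0)) (T.h (M (nat_lit 2341012131471)) (T.h (P (nat_lit 0)) (P (nat_lit 7237155353148)))))) (T.h (P (nat_lit 0)) (T.h (T.h (M (nat_lit 445943535519)) (T.h (P (nat_lit 0)) (P (nat_lit 7237155353148)))) (T.h (P (nat_lit 0)) (P (nat_lit 3237926072388)))))))) (T.h (T.h (P (nat_lit 0)) (T.h (T.h (P (nat_lit 0)) (T.h (M (nat_lit 930335345575)) (T.h (P (nat_lit 0)) (M (nat_lit 15084400090787))))) (T.h (P (nat_lit 0)) (T.h (T.h (P (nat_lit 0)) (M (nat_lit 15084400090787))) (P (nat_lit 0)))))) (T.h (T.h (T.h (M (nat_lit 56304371703)) (T.h (P (nat_lit 0)) (T.h (P (nat_lit 2850551199888)) (T.h (P (nat_lit 0)) (M (nat_lit 2025573191823)))))) (T.h (P (nat_lit 0)) (T.h (T.h (P (nat_lit 2850551199888)) (T.h (P (nat_lit 0)) (M (nat_lit 37638923265663)))) (T.h (P (nat_lit 0)) (M (nat_lit 2025573191823))))))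 (T.h (T.h (P (nat_lit 0)) (T.h (T.h (P (nat_lit 0)) (P (nat_lit 10055035351592))) (P (nat_lit 0)))) (T.h (T.h (T.h (M (nat_lit 778153942887)) (T.h (P (nat_lit 0)) (M (nat_lit 10962488254423)))) (T.h (P (nat_lit 0)) (M (nat_lit 10962488254423)))) (T.h (P (nat_lit 0)) (M (nat_lit 7889192694599)))))))) (P (nat_lit 0)))) (T.h (T.h (T.h (T.h (P (nat_lit 0)) (T.h (T.h (P (nat_lit 0)) (T.h (P (nat_lit 4169091836)) (T.h (P (nat_lit 0)) (T.h (M (nat_lit 104634227235)) (T.h (P (nat_lit 0)) (P (nat_lit 6209330557556))))))) (T.h (P (nat_lit 0)) (T.h (T.h (P (nat_lit 0)) (T.h (P (nat_lit 12612813164)) (T.h (P (nat_lit 0)) (M (nat_lit 8719659807627))))) (T.h (P (nat_lit 0)) (T.h (T.h (P (nat_lit 0)) (P (nat_lit 2821002205084))) (P (nat_lit 0)))))))) (T.h (T.h (T.h (M (nat_lit 167309771)) (T.h (P (nat_lit 0)) (T.h (P (nat_lit 21241341436)) (T.h (P (nat_lit 0)) (P (nat_lit 3522724666804)))))) (T.h (P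 (nat_lit 0)) (T.h (T.h (M (nat_lit 106922171299)) (T.h (P (nat_lit 0)) (P (nat_lit 2868185268732)))) (T.h (P (nat_lit 0)) (M (nat_lit 7564917519655)))))) (T.h (T.h (P (nat_lit 0)) (T.h (T.h (P (nat_lit 0)) (T.h (P (nat_lit 2419587134580)) (T.h (P (nat_lit 0)) (M (nat_lit 5575308139351))))) (T.h (P (nat_lit 0)) (T.h (T.h (P (nat_lit 0)) (M (nat_lit 147673489739))) (P (nat_lit 0)))))) (T.h (T.h (T.h (P (nat_lit 78881309948)) (T.h (P (nat_lit 0)) (P (nat_lit 1330207109420)))) (T.h (P (nat_lit 0)) (M (nat_lit 539365297519)))) (T.h (T.h (P (nat_lit 0)) (T.h (T.h (P (nat_lit 0)) (P (nat_lit 1925458597048))) (P (nat_lit 0)))) (M (nat_lit 607390400567))))))) (P (nat_lit 0))) (P (nat_lit 0)))))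
def et1_12 : T ℤ := (T.h (T.h (T.h (P (nat_lit 0)) (T.h (T.h (T.h (T.h (P (nat_lit 0)) (T.h (M (nat_lit 1089716739)) (T.h (P (nat_lit 0)) (T.h (M (nat_lit 19192300483)) (T.h (P (nat_lit 0)) (M (nat_lit 1067757417159))))))) (T.h (P (nat_lit 0)) (T.h (T.h (P (nat_lit 0)) (T.h (P (nat_lit 243693388484)) (T.h (P (nat_lit 0)) (M (nat_lit 407012939451))))) (T.h (P (nat_lit 0)) (T.h (T.h (P (nat_lit 0)) (P (nat_lit 1114388383752))) (P (nat_lit 0))))))) (T.h (T.h (P (nat_lit 0)) (T.h (T.h (P (nat_lit 13366752112)) (T.h (P (nat_lit 0)) (T.h (M (nat_lit 294256971679)) (T.h (P (nat_lit 0)) (P (nat_lit 2383316648944)))))) (T.h (P (nat_lit 0)) (T.h (T.h (P (nat_lit 619204847352)) (T.h (P (nat_lit 0)) (M (nat_lit 1977570750399)))) (T.h (P (nat_lit 0)) (M (nat_lit 2472089082847))))))) (T.h (T.h (T.h (P (nat_lit 0)) (T.h (M (nat_lit 151143290899)) (T.h (P (nat_lit 0)) (M (nat_lit 2229773268855))))) (T.h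 (P (nat_lit 0)) (T.h (T.h (P (nat_lit 0)) (M (nat_lit 5367650963499))) (P (nat_lit 0))))) (T.h (T.h (P (nat_lit 0)) (T.h (T.h (P (nat_lit 1273427015532)) (T.h (P (nat_lit 0)) (M (nat_lit 7968999648735)))) (T.h (P (nat_lit 0)) (M (nat_lit 1386931120623))))) (T.h (T.h (T.h (P (nat_lit 0)) (P (nat_lit 1571236115736))) (P (nat_lit 0))) (T.h (T.h (P (nat_lit 0)) (P (nat_lit 748832760900))) (P (nat_lit 0)))))))) (P (nat_lit 0)))) (T.h (T.h (T.h (T.h (P (nat_lit 0)) (T.h (T.h (M (nat_lit 1089716739)) (T.h (P (nat_lit 0)) (T.h (P (nat_lit 243693388484)) (T.h (P (nat_lit 0)) (P (nat_lit 1114388383752)))))) (T.h (P (nat_lit 0)) (T.h (T.h (M (nat_lit 19192300483)) (T.h (P (nat_lit 0)) (M (nat_lit 407012939451)))) (T.h (P (nat_lit 0)) (M (nat_lit 1067757417159))))))) (T.h (T.h (T.h (P (nat_lit 0)) (T.h (P (nat_lit 13366752112)) (T.h (P (nat_lit 0)) (T.h (P (nat_lit 619204847352)) (T.h (P (nat_lit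 0)) (M (nat_lit 2472089082847))))))) (T.h (P (nat_lit 0)) (T.h (T.h (P (nat_lit 0)) (T.h (M (nat_lit 294256971679)) (T.h (P (nat_lit 0)) (M (nat_lit 1977570750399))))) (T.h (P (nat_lit 0)) (T.h (T.h (P (nat_lit 0)) (P (nat_lit 2383316648944))) (P (nat_lit 0))))))) (T.h (T.h (P (nat_lit 0)) (T.h (T.h (M (nat_lit 151143290899)) (T.h (P (nat_lit 0)) (M (nat_lit 5367650963499)))) (T.h (P (nat_lit 0)) (M (nat_lit 2229773268855))))) (T.h (T.h (T.h (P (nat_lit 0)) (T.h (P (nat_lit 1273427015532)) (T.h (P (nat_lit 0)) (M (nat_lit 1386931120623))))) (T.h (P (nat_lit 0)) (T.h (T.h (P (nat_lit 0)) (M (nat_lit 7968999648735))) (P (nat_lit 0))))) (T.h (T.h (P (nat_lit 0)) (P (nat_lit 1571236115736))) (T.h (T.h (T.h (P (nat_lit 0)) (P (nat_lit 748832760900))) (P (nat_lit 0))) (P (nat_lit 0)))))))) (P (nat_lit 0))) (P (nat_lit 0)))) (T.h (T.h (T.h (T.h (T.h (P (nat_lit 0)) (T.h (T.h (P (nat_lit 0))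 (T.h (P (nat_lit 2100722848)) (T.h (P (nat_lit 0)) (T.h (M (nat_lit 579194573243)) (T.h (P (nat_lit 0)) (P (nat_lit 822620168328))))))) (T.h (P (nat_lit 0)) (T.h (T.h (P (nat_lit 0)) (T.h (M (nat_lit 579194573243)) (T.h (P (nat_lit 0)) (P (nat_lit 2597254512720))))) (T.h (P (nat_lit 0)) (T.h (T.h (P (nat_lit 0)) (P (nat_lit 822620168328))) (P (nat_lit 0)))))))) (T.h (T.h (T.h (M (nat_lit 3220508983)) (T.h (P (nat_lit 0)) (T.h (M (nat_lit 77419634039)) (T.h (P (nat_lit 0)) (M (nat_lit 1305456404279)))))) (T.h (P (nat_lit 0)) (T.h (T.h (M (nat_lit 77419634039)) (T.h (P (nat_lit 0)) (M (nat_lit 2270472045631)))) (T.h (P (nat_lit 0)) (M (nat_lit 1305456404279)))))) (T.h (T.h (P (nat_lit 0)) (T.h (T.h (P (nat_lit 0)) (T.h (M (nat_lit 310509460071)) (T.h (P (nat_lit 0)) (P (nat_lit 5158980426544))))) (T.h (P (nat_lit 0)) (T.h (T.h (P (nat_lit 0)) (P (nat_lit 5158980426544))) (P (nat_lit 0))))))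 (T.h (T.h (T.h (M (nat_lit 58865680215)) (T.h (P (nat_lit 0)) (M (nat_lit 1658331966927)))) (T.h (P (nat_lit 0)) (M (nat_lit 1658331966927)))) (T.h (T.h (P (nat_lit 0)) (T.h (T.h (P (nat_lit 0)) (M (nat_lit 8231907123999))) (P (nat_lit 0)))) (P (nat_lit 284022896640))))))) (P (nat_lit 0))) (P (nat_lit 0))) (P (nat_lit 0))))
def et1_13 : T ℤ := (T.h (T.h (T.h (P (nat_lit 0)) (T.h (P (nat_lit 0)) (T.h (P (nat_lit 0)) (T.h (T.h (T.h (T.h (P (nat_lit 0)) (T.h (M (nat_lit 1095870555)) (T.h (P (nat_lit 0)) (T.h (P (nat_lit 36107697304)) (T.h (P (nat_lit 0)) (P (nat_lit 253864713308))))))) (T.h (P (nat_lit 0)) (T.h (T.h (P (nat_lit 0)) (T.h (P (nat_lit 6055834852)) (T.h (P (nat_lit 0)) (M (nat_lit 166071221211))))) (T.h (P (nat_lit 0)) (T.h (T.h (P (nat_lit 0)) (M (nat_lit 1148640072491))) (P (nat_lit 0))))))) (T.h (T.h (P (nat_lit 0)) (T.h (T.h (P (nat_lit 5278782868)) (T.h (P (nat_lit 0))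 (T.h (M (nat_lit 1084217170059)) (T.h (P (nat_lit 0)) (M (nat_lit 3150819154867)))))) (T.h (P (nat_lit 0)) (T.h (T.h (P (nat_lit 382818625000)) (T.h (P (nat_lit 0)) (M (nat_lit 4586028571511)))) (T.h (P (nat_lit 0)) (M (nat_lit 268118176467))))))) (T.h (T.h (T.h (P (nat_lit 0)) (T.h (P (nat_lit 16892334656)) (T.h (P (nat_lit 0)) (P (nat_lit 113028952848))))) (T.h (P (nat_lit 0)) (T.h (T.h (P (nat_lit 0)) (P (nat_lit 725892098016))) (P (nat_lit 0))))) (T.h (T.h (P (nat_lit 0)) (T.h (T.h (P (nat_lit 4860550744)) (T.h (P (nat_lit 0)) (P (nat_lit 4487993585600)))) (T.h (P (nat_lit 0)) (P (nat_lit 2194423954264))))) (T.h (T.h (T.h (P (nat_lit 0)) (P (nat_lit 2382086167596))) (P (nat_lit 0))) (T.h (T.h (P (nat_lit 0)) (M (nat_lit 2359598077347))) (P (nat_lit 0)))))))) (T.h (P (nat_lit 0)) (T.h (T.h (T.h (T.h (P (nat_lit 0)) (T.h (M (nat_lit 167309771)) (T.h (P (nat_lit 0)) (T.h (P (nat_lit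 78881309948)) (T.h (P (nat_lit 0)) (M (nat_lit 607390400567))))))) (T.h (P (nat_lit 0)) (T.h (T.h (P (nat_lit 0)) (T.h (P (nat_lit 21241341436)) (T.h (P (nat_lit 0)) (P (nat_lit 1330207109420))))) (T.h (P (nat_lit 0)) (T.h (T.h (P (nat_lit 0)) (P (nat_lit 3522724666804))) (P (nat_lit 0))))))) (T.h (T.h (P (nat_lit 0)) (T.h (T.h (P (nat_lit 4169091836)) (T.h (P (nat_lit 0)) (T.h (P (nat_lit 2419587134580)) (T.h (P (nat_lit 0)) (P (nat_lit 1925458597048)))))) (T.h (P (nat_lit 0)) (T.h (T.h (M (nat_lit 104634227235)) (T.h (P (nat_lit 0)) (M (nat_lit 5575308139351)))) (T.h (P (nat_lit 0)) (P (nat_lit 6209330557556))))))) (T.h (T.h (T.h (P (nat_lit 0)) (T.h (M (nat_lit 106922171299)) (T.h (P (nat_lit 0)) (M (nat_lit 539365297519))))) (T.h (P (nat_lit 0)) (T.h (T.h (P (nat_lit 0)) (P (nat_lit 2868185268732))) (P (nat_lit 0))))) (T.h (T.h (P (nat_lit 0)) (T.h (T.h (P (nat_lit 12612813164)) (T.h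 (P (nat_lit 0)) (M (nat_lit 147673489739)))) (T.h (P (nat_lit 0)) (M (nat_lit 8719659807627))))) (T.h (T.h (T.h (P (nat_lit 0)) (M (nat_lit 7564917519655))) (P (nat_lit 0))) (T.h (T.h (P (nat_lit 0)) (P (nat_lit 2821002205084))) (P (nat_lit 0)))))))) (P (nat_lit 0)))))))) et1_7) (T.h et1_9 (T.h (T.h (T.h (P (nat_lit 0)) (T.h (T.h (T.h (T.h (P (nat_lit 0)) (T.h (M (nat_lit 465294227)) (T.h (P (nat_lit 0)) (T.h (P (nat_lit 8517286672)) (T.h (P (nat_lit 0)) (P (nat_lit 669416506556))))))) (T.h (P (nat_lit 0)) (T.h (T.h (P (nat_lit 0)) (T.h (M (nat_lit 94806990647)) (T.h (P (nat_lit 0)) (P (nat_lit 99960069496))))) (T.h (P (nat_lit 0)) (T.h (T.h (P (nat_lit 0)) (M (nat_lit 855256308163))) (P (nat_lit 0))))))) (T.h (T.h (P (nat_lit 0)) (T.h (T.h (M (nat_lit 2849753347)) (T.h (P (nat_lit 0)) (T.h (P (nat_lit 295074625112)) (T.h (P (nat_lit 0)) (M (nat_lit 267308080763)))))) (T.h (P (nat_lit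 0)) (T.h (T.h (M (nat_lit 140985870643)) (T.h (P (nat_lit 0)) (M (nat_lit 4948125497627)))) (T.h (P (nat_lit 0)) (M (nat_lit 308751120735))))))) (T.h (T.h (T.h (P (nat_lit 0)) (T.h (P (nat_lit 62432502228)) (T.h (P (nat_lit 0)) (P (nat_lit 1353640487724))))) (T.h (P (nat_lit 0)) (T.h (T.h (P (nat_lit 0)) (P (nat_lit 2001011491680))) (P (nat_lit 0))))) (T.h (T.h (P (nat_lit 0)) (T.h (T.h (M (nat_lit 414306628491)) (T.h (P (nat_lit 0)) (P (nat_lit 4803213230768)))) (T.h (P (nat_lit 0)) (M (nat_lit 4788912635459))))) (T.h (T.h (T.h (P (nat_lit 0)) (P (nat_lit 268731595316))) (P (nat_lit 0))) (T.h (T.h (P (nat_lit 0)) (M (nat_lit 863169930243))) (P (nat_lit 0)))))))) (T.h (P (nat_lit 0)) (T.h (T.h (T.h (T.h (P (nat_lit 0)) (T.h (P (nat_lit 729440152)) (T.h (P (nat_lit 0)) (T.h (M (nat_lit 238876962379)) (T.h (P (nat_lit 0)) (M (nat_lit 603259660835))))))) (T.h (P (nat_lit 0)) (T.h (T.h (P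 (nat_lit 0)) (T.h (M (nat_lit 4396056755)) (T.h (P (nat_lit 0)) (P (nat_lit 3734805551708))))) (T.h (P (nat_lit 0)) (T.h (T.h (P (nat_lit 0)) (P (nat_lit 910465081428))) (P (nat_lit 0))))))) (T.h (T.h (P (nat_lit 0)) (T.h (T.h (M (nat_lit 41203668491)) (T.h (P (nat_lit 0)) (T.h (M (nat_lit 130944960383)) (T.h (P (nat_lit 0)) (P (nat_lit 29340312850268)))))) (T.h (P (nat_lit 0)) (T.h (T.h (M (nat_lit 1719458031759)) (T.h (P (nat_lit 0)) (P (nat_lit 8675622552996)))) (T.h (P (nat_lit 0)) (M (nat_lit 4773487217547))))))) (T.h (T.h (T.h (P (nat_lit 0)) (T.h (P (nat_lit 337853841304)) (T.h (P (nat_lit 0)) (M (nat_lit 757519820819))))) (T.h (P (nat_lit 0)) (T.h (T.h (P (nat_lit 0)) (M (nat_lit 2280138722735))) (P (nat_lit 0))))) (T.h (T.h (P (nat_lit 0)) (T.h (T.h (P (nat_lit 530790064588)) (T.h (P (nat_lit 0)) (M (nat_lit 4068062418587)))) (T.h (P (nat_lit 0)) (M (nat_lit 837081819307)))))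 (T.h (T.h (T.h (P (nat_lit 0)) (M (nat_lit 3478715709251))) (P (nat_lit 0))) (T.h (T.h (P (nat_lit 0)) (P (nat_lit 11763447188864))) (P (nat_lit 0)))))))) (P (nat_lit 0)))))) et1_10) (T.h et1_11 et1_12))))

def t1 : T ℤ := (T.h (T.h (T.h (P (nat_lit 0)) (T.h (P (nat_lit 0)) (T.h (P (nat_lit 0)) (T.h (P (nat_lit 0)) (T.h (P (nat_lit 0)) (T.h (T.h (T.h (T.h (P (nat_lit 0)) (T.h (P (nat_lit 1840665712)) (T.h (P (nat_lit 0)) (T.h (P (nat_lit 33609769336)) (T.h (P (nat_lit 0)) (M (nat_lit 161642234567))))))) (T.h (P (nat_lit 0)) (T.h (T.h (P (nat_lit 0)) (T.h (P (nat_lit 58594107260)) (T.h (P (nat_lit 0)) (P (nat_lit 1178099742664))))) (T.h (P (nat_lit 0)) (T.h (T.h (P (nat_lit 0)) (P (nat_lit 847363037728))) (P (nat_lit 0))))))) (T.h (T.h (P (nat_lit 0)) (T.h (T.h (M (nat_lit 1197704327)) (T.h (P (nat_lit 0)) (T.h (P (nat_lit 177520785384)) (T.h (P (nat_lit 0)) (P (nat_lit 4705131301792))))))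 (T.h (P (nat_lit 0)) (T.h (T.h (P (nat_lit 423808796872)) (T.h (P (nat_lit 0)) (M (nat_lit 3606488589699)))) (T.h (P (nat_lit 0)) (M (nat_lit 1210805810935))))))) (T.h (T.h (T.h (P (nat_lit 0)) (T.h (P (nat_lit 58594107260)) (T.h (P (nat_lit 0)) (P (nat_lit 1178099742664))))) (T.h (P (nat_lit 0)) (T.h (T.h (P (nat_lit 0)) (P (nat_lit 1298467310560))) (P (nat_lit 0))))) (T.h (T.h (P (nat_lit 0)) (T.h (T.h (P (nat_lit 423808796872)) (T.h (P (nat_lit 0)) (M (nat_lit 3606488589699)))) (T.h (P (nat_lit 0)) (M (nat_lit 1482475068711))))) (T.h (T.h (T.h (P (nat_lit 0)) (P (nat_lit 847363037728))) (P (nat_lit 0))) (T.h (T.h (P (nat_lit 0)) (M (nat_lit 1210805810935))) (P (nat_lit 0)))))))) (T.h (P (nat_lit 0)) (T.h (T.h (T.h (T.h (P (nat_lit 0)) (T.h (M (nat_lit 3220508983)) (T.h (P (nat_lit 0)) (T.h (M (nat_lit 58865680215)) (T.h (P (nat_lit 0)) (P (nat_lit 284022896640))))))) (T.h (P (nat_lit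 0)) (T.h (T.h (P (nat_lit 0)) (T.h (M (nat_lit 77419634039)) (T.h (P (nat_lit 0)) (M (nat_lit 1658331966927))))) (T.h (P (nat_lit 0)) (T.h (T.h (P (nat_lit 0)) (M (nat_lit 1305456404279))) (P (nat_lit 0))))))) (T.h (T.h (P (nat_lit 0)) (T.h (T.h (P (nat_lit 2100722848)) (T.h (P (nat_lit 0)) (T.h (M (nat_lit 310509460071)) (T.h (P (nat_lit 0)) (M (nat_lit 8231907123999)))))) (T.h (P (nat_lit 0)) (T.h (T.h (M (nat_lit 579194573243)) (T.h (P (nat_lit 0)) (P (nat_lit 5158980426544)))) (T.h (P (nat_lit 0)) (P (nat_lit 822620168328))))))) (T.h (T.h (T.h (P (nat_lit 0)) (T.h (M (nat_lit 77419634039)) (T.h (P (nat_lit 0)) (M (nat_lit 1658331966927))))) (T.h (P (nat_lit 0)) (T.h (T.h (P (nat_lit 0)) (M (nat_lit 2270472045631))) (P (nat_lit 0))))) (T.h (T.h (P (nat_lit 0)) (T.h (T.h (M (nat_lit 579194573243)) (T.h (P (nat_lit 0)) (P (nat_lit 5158980426544)))) (T.h (P (nat_lit 0)) (P (nat_lit 2597254512720)))))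 (T.h (T.h (T.h (P (nat_lit 0)) (M (nat_lit 1305456404279))) (P (nat_lit 0))) (T.h (T.h (P (nat_lit 0)) (P (nat_lit 822620168328))) (P (nat_lit 0)))))))) (P (nat_lit 0)))))))))) et1_2) (T.h et1_5 et1_13))

theorem h_t1 : chkT (c.G g1) t1 = true := by decide +kernel


end Pool.Agent.TOPR.R6104
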