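import Pool.Agent.TOPR.R6104.Cert

set_option autoImplicit false
set_option linter.all false
set_option maxRecDepth 100000

namespace Pool.Agent.TOPR.R6104

open Helper10.PC hiding V3
open Helper80.CW.DL Pool.Agent.Helper6.TOP

def et2_0 : T ℤ := (T.h (T.h (P (nat_lit 0)) (T.h (T.h (T.h (P (nat_lit 0)) (T.h (T.h (P (nat_lit 0)) (T.h (P (nat_lit 81793377792)) (T.h (P (nat_lit 0)) (P (nat_lit 1293621544768))))) (T.h (P (nat_lit 0)) (T.h (T.h (P (nat_lit 0)) (M (nat_lit 715918850971))) (P (nat_lit 0)))))) (T.h (T.h (T.h (M (nat_lit 1258824595)) (T.h (P (nat_lit 0)) (T.h (P (nat_lit 92630811584)) (T.h (P (nat_lit 0)) (M (nat_lit 233040241939)))))) (T.h (P (nat_lit 0)) (T.h (T.h (M (nat_lit 599003301939)) (T.h (P (nat_lit 0)) (P (nat_lit 5149845893000)))) (T.h (P (nat_lit 0)) (P (nat_lit 875692939708)))))) (T.h (T.h (P (nat_lit 0)) (T.h (T.h (P (nat_lit 0)) (P (nat_lit 3006084576076))) (P (nat_lit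 0)))) (T.h (T.h (T.h (P (nat_lit 31554001732)) (T.h (P (nat_lit 0)) (M (nat_lit 2072922937159)))) (T.h (P (nat_lit 0)) (M (nat_lit 1586404733795)))) (T.h (P (nat_lit 0)) (P (nat_lit 215580258920))))))) (T.h (P (nat_lit 0)) (T.h (T.h (T.h (P (nat_lit 0)) (T.h (T.h (P (nat_lit 0)) (T.h (P (nat_lit 65980477144)) (T.h (P (nat_lit 0)) (M (nat_lit 4539244245751))))) (T.h (P (nat_lit 0)) (T.h (T.h (P (nat_lit 0)) (M (nat_lit 2141941918863))) (P (nat_lit 0)))))) (T.h (T.h (T.h (M (nat_lit 5290653807)) (T.h (P (nat_lit 0)) (T.h (M (nat_lit 13300931555)) (T.h (P (nat_lit 0)) (P (nat_lit 6206474839384)))))) (T.h (P (nat_lit 0)) (T.h (T.h (P (nat_lit 573136761192)) (T.h (P (nat_lit 0)) (M (nat_lit 1806743960711)))) (T.h (P (nat_lit 0)) (P (nat_lit 8677527791624)))))) (T.h (T.h (P (nat_lit 0)) (T.h (T.h (P (nat_lit 0)) (P (nat_lit 168013298856))) (P (nat_lit 0)))) (T.h (T.h (T.h (M (nat_lit 260584608427))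 (T.h (P (nat_lit 0)) (M (nat_lit 2497622409983)))) (T.h (P (nat_lit 0)) (M (nat_lit 1155221942467)))) (T.h (P (nat_lit 0)) (P (nat_lit 205120477144))))))) (P (nat_lit 0)))))) (T.h (T.h (T.h (T.h (T.h (P (nat_lit 1565366816)) (T.h (P (nat_lit 0)) (T.h (P (nat_lit 9870854280)) (T.h (P (nat_lit 0)) (P (nat_lit 140841355456)))))) (T.h (P (nat_lit 0)) (T.h (T.h (P (nat_lit 23813852368)) (T.h (P (nat_lit 0)) (P (nat_lit 724960643488)))) (T.h (P (nat_lit 0)) (M (nat_lit 316155149623)))))) (T.h (T.h (P (nat_lit 0)) (T.h (T.h (P (nat_lit 0)) (T.h (P (nat_lit 68940384096)) (T.h (P (nat_lit 0)) (M (nat_lit 1383137562759))))) (T.h (P (nat_lit 0)) (T.h (T.h (P (nat_lit 0)) (P (nat_lit 5070331252352))) (P (nat_lit 0)))))) (T.h (T.h (T.h (P (nat_lit 9870854280)) (T.h (P (nat_lit 0)) (P (nat_lit 482731765328)))) (T.h (P (nat_lit 0)) (P (nat_lit 724960643488)))) (T.h (T.h (P (nat_lit 0)) (T.h (T.h (P (nat_lit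 0)) (M (nat_lit 1383137562759))) (P (nat_lit 0)))) (P (nat_lit 140841355456)))))) (T.h (P (nat_lit 0)) (T.h (T.h (T.h (T.h (M (nat_lit 179575215)) (T.h (P (nat_lit 0)) (T.h (M (nat_lit 23499867535)) (T.h (P (nat_lit 0)) (M (nat_lit 1843386372207)))))) (T.h (P (nat_lit 0)) (T.h (T.h (P (nat_lit 12214376992)) (T.h (P (nat_lit 0)) (M (nat_lit 1186773671303)))) (T.h (P (nat_lit 0)) (M (nat_lit 209387983871)))))) (T.h (T.h (P (nat_lit 0)) (T.h (T.h (P (nat_lit 0)) (T.h (P (nat_lit 607237189400)) (T.h (P (nat_lit 0)) (P (nat_lit 1319702802328))))) (T.h (P (nat_lit 0)) (T.h (T.h (P (nat_lit 0)) (M (nat_lit 1176594987039))) (P (nat_lit 0)))))) (T.h (T.h (T.h (P (nat_lit 37847818560)) (T.h (P (nat_lit 0)) (P (nat_lit 235306635768)))) (T.h (P (nat_lit 0)) (M (nat_lit 196718519319)))) (T.h (T.h (P (nat_lit 0)) (T.h (T.h (P (nat_lit 0)) (M (nat_lit 2157965397071))) (P (nat_lit 0)))) (P (nat_lit 662444721508))))))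 (P (nat_lit 0))))) (T.h (T.h (P (nat_lit 0)) (T.h (T.h (T.h (P (nat_lit 0)) (T.h (T.h (P (nat_lit 0)) (T.h (M (nat_lit 65303692839)) (T.h (P (nat_lit 0)) (M (nat_lit 1383053164975))))) (T.h (P (nat_lit 0)) (T.h (T.h (P (nat_lit 0)) (P (nat_lit 424040075584))) (P (nat_lit 0)))))) (T.h (T.h (T.h (P (nat_lit 2209639280)) (T.h (P (nat_lit 0)) (T.h (M (nat_lit 290262955915)) (T.h (P (nat_lit 0)) (P (nat_lit 928059641512)))))) (T.h (P (nat_lit 0)) (T.h (T.h (P (nat_lit 501395940932)) (T.h (P (nat_lit 0)) (M (nat_lit 1204293952367)))) (T.h (P (nat_lit 0)) (M (nat_lit 641106188499)))))) (T.h (T.h (P (nat_lit 0)) (T.h (T.h (P (nat_lit 0)) (M (nat_lit 2182320859751))) (P (nat_lit 0)))) (T.h (T.h (T.h (P (nat_lit 5715753444)) (T.h (P (nat_lit 0)) (P (nat_lit 830598969680)))) (T.h (P (nat_lit 0)) (P (nat_lit 142598152096)))) (T.h (P (nat_lit 0)) (M (nat_lit 235638416359))))))) (P (nat_lit 0)))) (T.h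 (T.h (T.h (T.h (T.h (M (nat_lit 460072711)) (T.h (P (nat_lit 0)) (T.h (M (nat_lit 11059947719)) (T.h (P (nat_lit 0)) (M (nat_lit 186493772039)))))) (T.h (P (nat_lit 0)) (T.h (T.h (M (nat_lit 25228148663)) (T.h (P (nat_lit 0)) (M (nat_lit 710713700111)))) (T.h (P (nat_lit 0)) (P (nat_lit 202873497600)))))) (T.h (T.h (P (nat_lit 0)) (T.h (T.h (P (nat_lit 0)) (T.h (M (nat_lit 88716988591)) (T.h (P (nat_lit 0)) (P (nat_lit 1473994407584))))) (T.h (P (nat_lit 0)) (T.h (T.h (P (nat_lit 0)) (M (nat_lit 4703946927999))) (P (nat_lit 0)))))) (T.h (T.h (T.h (M (nat_lit 11059947719)) (T.h (P (nat_lit 0)) (M (nat_lit 324353149375)))) (T.h (P (nat_lit 0)) (M (nat_lit 710713700111)))) (T.h (T.h (P (nat_lit 0)) (T.h (T.h (P (nat_lit 0)) (P (nat_lit 1473994407584))) (P (nat_lit 0)))) (M (nat_lit 186493772039)))))) (P (nat_lit 0))) (P (nat_lit 0))))))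
def et2_1 : T ℤ := (T.h (T.h (P (nat_lit 0)) (T.h (P (nat_lit 0)) (T.h (P (nat_lit 0)) (T.h (P (nat_lit 0)) (T.h (T.h (T.h (T.h (P (nat_lit 2581617572)) (T.h (P (nat_lit 0)) (T.h (M (nat_lit 26917621963)) (T.h (P (nat_lit 0)) (P (nat_lit 377058657132)))))) (T.h (P (nat_lit 0)) (T.h (T.h (P (nat_lit 54116853276)) (T.h (P (nat_lit 0)) (M (nat_lit 1270925669631)))) (T.h (P (nat_lit 0)) (P (nat_lit 1653975260632)))))) (T.h (T.h (P (nat_lit 0)) (T.h (T.h (P (nat_lit 0)) (T.h (M (nat_lit 1039146517695)) (T.h (P (nat_lit 0)) (P (nat_lit 4607487845064))))) (T.h (P (nat_lit 0)) (T.h (T.h (P (nat_lit 0)) (P (nat_lit 4804830347872))) (P (nat_lit 0)))))) (T.h (T.h (T.h (M (nat_lit 77121929483)) (T.h (P (nat_lit 0)) (P (nat_lit 2304730555456)))) (T.h (P (nat_lit 0)) (P (nat_lit 1818517086436)))) (T.h (T.h (P (nat_lit 0)) (T.h (T.h (P (nat_lit 0)) (M (nat_lit 7014724413527))) (P (nat_lit 0)))) (M (nat_lit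 1011441379267)))))) (T.h (P (nat_lit 0)) (T.h (T.h (T.h (T.h (M (nat_lit 179575215)) (T.h (P (nat_lit 0)) (T.h (P (nat_lit 12214376992)) (T.h (P (nat_lit 0)) (M (nat_lit 209387983871)))))) (T.h (P (nat_lit 0)) (T.h (T.h (M (nat_lit 23499867535)) (T.h (P (nat_lit 0)) (M (nat_lit 1186773671303)))) (T.h (P (nat_lit 0)) (M (nat_lit 1843386372207)))))) (T.h (T.h (P (nat_lit 0)) (T.h (T.h (P (nat_lit 0)) (T.h (P (nat_lit 607237189400)) (T.h (P (nat_lit 0)) (M (nat_lit 1176594987039))))) (T.h (P (nat_lit 0)) (T.h (T.h (P (nat_lit 0)) (P (nat_lit 1319702802328))) (P (nat_lit 0)))))) (T.h (T.h (T.h (P (nat_lit 37847818560)) (T.h (P (nat_lit 0)) (M (nat_lit 196718519319)))) (T.h (P (nat_lit 0)) (P (nat_lit 235306635768)))) (T.h (T.h (P (nat_lit 0)) (T.h (T.h (P (nat_lit 0)) (M (nat_lit 2157965397071))) (P (nat_lit 0)))) (P (nat_lit 662444721508)))))) (P (nat_lit 0))))))))) (T.h (T.h (P (nat_lit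 0)) (T.h (P (nat_lit 0)) (T.h (P (nat_lit 0)) (T.h (T.h (T.h (P (nat_lit 0)) (T.h (T.h (P (nat_lit 0)) (T.h (M (nat_lit 88729002071)) (T.h (P (nat_lit 0)) (M (nat_lit 1605872480943))))) (T.h (P (nat_lit 0)) (T.h (T.h (P (nat_lit 0)) (M (nat_lit 1605872480943))) (P (nat_lit 0)))))) (T.h (T.h (T.h (P (nat_lit 15168901352)) (T.h (P (nat_lit 0)) (T.h (M (nat_lit 664787632935)) (T.h (P (nat_lit 0)) (M (nat_lit 9988474830339)))))) (T.h (P (nat_lit 0)) (T.h (T.h (M (nat_lit 664787632935)) (T.h (P (nat_lit 0)) (P (nat_lit 1837157958712)))) (T.h (P (nat_lit 0)) (M (nat_lit 9988474830339)))))) (T.h (T.h (P (nat_lit 0)) (T.h (T.h (P (nat_lit 0)) (P (nat_lit 4336150672640))) (P (nat_lit 0)))) (T.h (T.h (T.h (P (nat_lit 662283508960)) (T.h (P (nat_lit 0)) (M (nat_lit 3790185371459)))) (T.h (P (nat_lit 0)) (M (nat_lit 3790185371459)))) (T.h (P (nat_lit 0)) (P (nat_lit 932246525016))))))) (T.h (P (nat_lit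 0)) (T.h (T.h (T.h (P (nat_lit 0)) (T.h (T.h (P (nat_lit 0)) (T.h (P (nat_lit 65980477144)) (T.h (P (nat_lit 0)) (M (nat_lit 2141941918863))))) (T.h (P (nat_lit 0)) (T.h (T.h (P (nat_lit 0)) (M (nat_lit 4539244245751))) (P (nat_lit 0)))))) (T.h (T.h (T.h (M (nat_lit 5290653807)) (T.h (P (nat_lit 0)) (T.h (P (nat_lit 573136761192)) (T.h (P (nat_lit 0)) (P (nat_lit 8677527791624)))))) (T.h (P (nat_lit 0)) (T.h (T.h (M (nat_lit 13300931555)) (T.h (P (nat_lit 0)) (M (nat_lit 1806743960711)))) (T.h (P (nat_lit 0)) (P (nat_lit 6206474839384)))))) (T.h (T.h (P (nat_lit 0)) (T.h (T.h (P (nat_lit 0)) (P (nat_lit 168013298856))) (P (nat_lit 0)))) (T.h (T.h (T.h (M (nat_lit 260584608427)) (T.h (P (nat_lit 0)) (M (nat_lit 1155221942467)))) (T.h (P (nat_lit 0)) (M (nat_lit 2497622409983)))) (T.h (P (nat_lit 0)) (P (nat_lit 205120477144))))))) (P (nat_lit 0)))))))) (T.h (T.h (P (nat_lit 0)) (T.h (P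 (nat_lit 0)) (T.h (T.h (T.h (T.h (P (nat_lit 2581617572)) (T.h (P (nat_lit 0)) (T.h (P (nat_lit 54116853276)) (T.h (P (nat_lit 0)) (P (nat_lit 1653975260632)))))) (T.h (P (nat_lit 0)) (T.h (T.h (M (nat_lit 26917621963)) (T.h (P (nat_lit 0)) (M (nat_lit 1270925669631)))) (T.h (P (nat_lit 0)) (P (nat_lit 377058657132)))))) (T.h (T.h (P (nat_lit 0)) (T.h (T.h (P (nat_lit 0)) (T.h (M (nat_lit 1039146517695)) (T.h (P (nat_lit 0)) (P (nat_lit 4804830347872))))) (T.h (P (nat_lit 0)) (T.h (T.h (P (nat_lit 0)) (P (nat_lit 4607487845064))) (P (nat_lit 0)))))) (T.h (T.h (T.h (M (nat_lit 77121929483)) (T.h (P (nat_lit 0)) (P (nat_lit 1818517086436)))) (T.h (P (nat_lit 0)) (P (nat_lit 2304730555456)))) (T.h (T.h (P (nat_lit 0)) (T.h (T.h (P (nat_lit 0)) (M (nat_lit 7014724413527))) (P (nat_lit 0)))) (M (nat_lit 1011441379267)))))) (T.h (P (nat_lit 0)) (T.h (T.h (T.h (T.h (P (nat_lit 208411472)) (T.h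 (P (nat_lit 0)) (T.h (M (nat_lit 54111006547)) (T.h (P (nat_lit 0)) (M (nat_lit 927859144775)))))) (T.h (P (nat_lit 0)) (T.h (T.h (M (nat_lit 54111006547)) (T.h (P (nat_lit 0)) (M (nat_lit 649302703559)))) (T.h (P (nat_lit 0)) (M (nat_lit 927859144775)))))) (T.h (T.h (P (nat_lit 0)) (T.h (T.h (P (nat_lit 0)) (T.h (M (nat_lit 74825691647)) (T.h (P (nat_lit 0)) (P (nat_lit 15603589509128))))) (T.h (P (nat_lit 0)) (T.h (T.h (P (nat_lit 0)) (P (nat_lit 15603589509128))) (P (nat_lit 0)))))) (T.h (T.h (T.h (M (nat_lit 1256016215)) (T.h (P (nat_lit 0)) (P (nat_lit 1274896847484)))) (T.h (P (nat_lit 0)) (P (nat_lit 1274896847484)))) (T.h (T.h (P (nat_lit 0)) (T.h (T.h (P (nat_lit 0)) (P (nat_lit 4957498601712))) (P (nat_lit 0)))) (P (nat_lit 260132880408)))))) (P (nat_lit 0))))))) et2_0)))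
def et2_2 : T ℤ := (T.h (T.h (P (nat_lit 0)) (T.h (P (nat_lit 0)) (T.h (P (nat_lit 0)) (T.h (P (nat_lit 0)) (T.h (P (nat_lit 0)) (T.h (P (nat_lit 0)) (T.h (T.h (T.h (T.h (P (nat_lit 1565366816)) (T.h (P (nat_lit 0)) (T.h (P (nat_lit 23813852368)) (T.h (P (nat_lit 0)) (M (nat_lit 316155149623)))))) (T.h (P (nat_lit 0)) (T.h (T.h (P (nat_lit 9870854280)) (T.h (P (nat_lit 0)) (P (nat_lit 724960643488)))) (T.h (P (nat_lit 0)) (P (nat_lit 140841355456)))))) (T.h (T.h (P (nat_lit 0)) (T.h (T.h (P (nat_lit 0)) (T.h (P (nat_lit 68940384096)) (T.h (P (nat_lit 0)) (P (nat_lit 5070331252352))))) (T.h (P (nat_lit 0)) (T.h (T.h (P (nat_lit 0)) (M (nat_lit 1383137562759))) (P (nat_lit 0)))))) (T.h (T.h (T.h (P (nat_lit 9870854280)) (T.h (P (nat_lit 0)) (P (nat_lit 724960643488)))) (T.h (P (nat_lit 0)) (P (nat_lit 482731765328)))) (T.h (T.h (P (nat_lit 0)) (T.h (T.h (P (nat_lit 0)) (M (nat_lit 1383137562759)))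 (P (nat_lit 0)))) (P (nat_lit 140841355456)))))) (T.h (P (nat_lit 0)) (T.h (T.h (T.h (T.h (M (nat_lit 460072711)) (T.h (P (nat_lit 0)) (T.h (M (nat_lit 25228148663)) (T.h (P (nat_lit 0)) (P (nat_lit 202873497600)))))) (T.h (P (nat_lit 0)) (T.h (T.h (M (nat_lit 11059947719)) (T.h (P (nat_lit 0)) (M (nat_lit 710713700111)))) (T.h (P (nat_lit 0)) (M (nat_lit 186493772039)))))) (T.h (T.h (P (nat_lit 0)) (T.h (T.h (P (nat_lit 0)) (T.h (M (nat_lit 88716988591)) (T.h (P (nat_lit 0)) (M (nat_lit 4703946927999))))) (T.h (P (nat_lit 0)) (T.h (T.h (P (nat_lit 0)) (P (nat_lit 1473994407584))) (P (nat_lit 0)))))) (T.h (T.h (T.h (M (nat_lit 11059947719)) (T.h (P (nat_lit 0)) (M (nat_lit 710713700111)))) (T.h (P (nat_lit 0)) (M (nat_lit 324353149375)))) (T.h (T.h (P (nat_lit 0)) (T.h (T.h (P (nat_lit 0)) (P (nat_lit 1473994407584))) (P (nat_lit 0)))) (M (nat_lit 186493772039)))))) (P (nat_lit 0)))))))))))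 (T.h (T.h (P (nat_lit 0)) (T.h (P (nat_lit 0)) (T.h (P (nat_lit 0)) (T.h (P (nat_lit 0)) (T.h (P (nat_lit 0)) (T.h (T.h (T.h (P (nat_lit 0)) (T.h (T.h (P (nat_lit 0)) (T.h (P (nat_lit 81793377792)) (T.h (P (nat_lit 0)) (M (nat_lit 715918850971))))) (T.h (P (nat_lit 0)) (T.h (T.h (P (nat_lit 0)) (P (nat_lit 1293621544768))) (P (nat_lit 0)))))) (T.h (T.h (T.h (M (nat_lit 1258824595)) (T.h (P (nat_lit 0)) (T.h (M (nat_lit 599003301939)) (T.h (P (nat_lit 0)) (P (nat_lit 875692939708)))))) (T.h (P (nat_lit 0)) (T.h (T.h (P (nat_lit 92630811584)) (T.h (P (nat_lit 0)) (P (nat_lit 5149845893000)))) (T.h (P (nat_lit 0)) (M (nat_lit 233040241939)))))) (T.h (T.h (P (nat_lit 0)) (T.h (T.h (P (nat_lit 0)) (P (nat_lit 3006084576076))) (P (nat_lit 0)))) (T.h (T.h (T.h (P (nat_lit 31554001732)) (T.h (P (nat_lit 0)) (M (nat_lit 1586404733795)))) (T.h (P (nat_lit 0)) (M (nat_lit 2072922937159)))) (T.h (P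 (nat_lit 0)) (P (nat_lit 215580258920))))))) (T.h (P (nat_lit 0)) (T.h (T.h (T.h (P (nat_lit 0)) (T.h (T.h (P (nat_lit 0)) (T.h (M (nat_lit 65303692839)) (T.h (P (nat_lit 0)) (P (nat_lit 424040075584))))) (T.h (P (nat_lit 0)) (T.h (T.h (P (nat_lit 0)) (M (nat_lit 1383053164975))) (P (nat_lit 0)))))) (T.h (T.h (T.h (P (nat_lit 2209639280)) (T.h (P (nat_lit 0)) (T.h (P (nat_lit 501395940932)) (T.h (P (nat_lit 0)) (M (nat_lit 641106188499)))))) (T.h (P (nat_lit 0)) (T.h (T.h (M (nat_lit 290262955915)) (T.h (P (nat_lit 0)) (M (nat_lit 1204293952367)))) (T.h (P (nat_lit 0)) (P (nat_lit 928059641512)))))) (T.h (T.h (P (nat_lit 0)) (T.h (T.h (P (nat_lit 0)) (M (nat_lit 2182320859751))) (P (nat_lit 0)))) (T.h (T.h (T.h (P (nat_lit 5715753444)) (T.h (P (nat_lit 0)) (P (nat_lit 142598152096)))) (T.h (P (nat_lit 0)) (P (nat_lit 830598969680)))) (T.h (P (nat_lit 0)) (M (nat_lit 235638416359)))))))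 (P (nat_lit 0)))))))))) et2_1))
def et2_3 : T ℤ := (T.h (T.h (T.h (T.h (T.h (P (nat_lit 0)) (T.h (M (nat_lit 1258824595)) (T.h (P (nat_lit 0)) (T.h (P (nat_lit 31554001732)) (T.h (P (nat_lit 0)) (P (nat_lit 215580258920))))))) (T.h (P (nat_lit 0)) (T.h (T.h (P (nat_lit 0)) (T.h (M (nat_lit 599003301939)) (T.h (P (nat_lit 0)) (M (nat_lit 1586404733795))))) (T.h (P (nat_lit 0)) (T.h (T.h (P (nat_lit 0)) (P (nat_lit 875692939708))) (P (nat_lit 0))))))) (T.h (T.h (P (nat_lit 0)) (T.h (T.h (P (nat_lit 81793377792)) (T.h (P (nat_lit 0)) (P (nat_lit 3006084576076)))) (T.h (P (nat_lit 0)) (M (nat_lit 715918850971))))) (T.h (T.h (T.h (P (nat_lit 0)) (T.h (P (nat_lit 92630811584)) (T.h (P (nat_lit 0)) (M (nat_lit 2072922937159))))) (T.h (P (nat_lit 0)) (T.h (T.h (P (nat_lit 0)) (P (nat_lit 5149845893000))) (P (nat_lit 0))))) (T.h (T.h (P (nat_lit 0)) (P (nat_lit 1293621544768))) (T.h (T.h (T.h (P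 (nat_lit 0)) (M (nat_lit 233040241939))) (P (nat_lit 0))) (P (nat_lit 0))))))) (T.h (P (nat_lit 0)) (T.h (T.h (T.h (T.h (P (nat_lit 0)) (T.h (P (nat_lit 2717896776)) (T.h (P (nat_lit 0)) (T.h (P (nat_lit 89225720440)) (T.h (P (nat_lit 0)) (P (nat_lit 914707493840))))))) (T.h (P (nat_lit 0)) (T.h (T.h (P (nat_lit 0)) (T.h (M (nat_lit 55999751051)) (T.h (P (nat_lit 0)) (P (nat_lit 6043702608140))))) (T.h (P (nat_lit 0)) (T.h (T.h (P (nat_lit 0)) (M (nat_lit 26195386618079))) (P (nat_lit 0))))))) (T.h (T.h (P (nat_lit 0)) (T.h (T.h (M (nat_lit 124164358447)) (T.h (P (nat_lit 0)) (M (nat_lit 3862094766435)))) (T.h (P (nat_lit 0)) (P (nat_lit 7796777381424))))) (T.h (T.h (T.h (P (nat_lit 0)) (T.h (P (nat_lit 153242922188)) (T.h (P (nat_lit 0)) (M (nat_lit 864623112023))))) (T.h (P (nat_lit 0)) (T.h (T.h (P (nat_lit 0)) (M (nat_lit 11780644472695))) (P (nat_lit 0))))) (T.h (T.h (P (nat_lit 0))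 (M (nat_lit 1112737777659))) (T.h (T.h (T.h (P (nat_lit 0)) (P (nat_lit 6201089555548))) (P (nat_lit 0))) (P (nat_lit 0))))))) (P (nat_lit 0))))) (T.h (T.h (P (nat_lit 0)) (T.h (T.h (T.h (P (nat_lit 0)) (T.h (T.h (M (nat_lit 12267891311)) (T.h (P (nat_lit 0)) (T.h (P (nat_lit 1037779995736)) (T.h (P (nat_lit 0)) (M (nat_lit 2004039306991)))))) (T.h (P (nat_lit 0)) (T.h (T.h (M (nat_lit 80823105783)) (T.h (P (nat_lit 0)) (M (nat_lit 7997106575471)))) (T.h (P (nat_lit 0)) (M (nat_lit 6548212949399))))))) (T.h (T.h (T.h (P (nat_lit 0)) (T.h (P (nat_lit 6348315480)) (T.h (P (nat_lit 0)) (M (nat_lit 1634410347811))))) (T.h (P (nat_lit 0)) (T.h (T.h (P (nat_lit 0)) (P (nat_lit 1242071742968))) (P (nat_lit 0))))) (T.h (T.h (P (nat_lit 0)) (T.h (T.h (P (nat_lit 1037779995736)) (T.h (P (nat_lit 0)) (M (nat_lit 12449038719103)))) (T.h (P (nat_lit 0)) (M (nat_lit 7997106575471))))) (T.h (T.h (T.h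 (P (nat_lit 0)) (M (nat_lit 1634410347811))) (P (nat_lit 0))) (T.h (T.h (P (nat_lit 0)) (M (nat_lit 2004039306991))) (P (nat_lit 0))))))) (P (nat_lit 0)))) (T.h (T.h (T.h (T.h (T.h (P (nat_lit 0)) (T.h (P (nat_lit 2209639280)) (T.h (P (nat_lit 0)) (T.h (P (nat_lit 5715753444)) (T.h (P (nat_lit 0)) (M (nat_lit 235638416359))))))) (T.h (P (nat_lit 0)) (T.h (T.h (P (nat_lit 0)) (T.h (P (nat_lit 501395940932)) (T.h (P (nat_lit 0)) (P (nat_lit 142598152096))))) (T.h (P (nat_lit 0)) (T.h (T.h (P (nat_lit 0)) (M (nat_lit 641106188499))) (P (nat_lit 0))))))) (T.h (T.h (P (nat_lit 0)) (T.h (T.h (M (nat_lit 65303692839)) (T.h (P (nat_lit 0)) (M (nat_lit 2182320859751)))) (T.h (P (nat_lit 0)) (P (nat_lit 424040075584))))) (T.h (T.h (T.h (P (nat_lit 0)) (T.h (M (nat_lit 290262955915)) (T.h (P (nat_lit 0)) (P (nat_lit 830598969680))))) (T.h (P (nat_lit 0)) (T.h (T.h (P (nat_lit 0)) (M (nat_lit 1204293952367)))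 (P (nat_lit 0))))) (T.h (T.h (P (nat_lit 0)) (M (nat_lit 1383053164975))) (T.h (T.h (T.h (P (nat_lit 0)) (P (nat_lit 928059641512))) (P (nat_lit 0))) (P (nat_lit 0))))))) (P (nat_lit 0))) (P (nat_lit 0)))))
def et2_4 : T ℤ := (T.h (T.h (P (nat_lit 0)) (T.h (P (nat_lit 0)) (T.h (T.h (T.h (T.h (P (nat_lit 0)) (T.h (M (nat_lit 8915859151)) (T.h (P (nat_lit 0)) (T.h (M (nat_lit 507045505143)) (T.h (P (nat_lit 0)) (M (nat_lit 1207941257795))))))) (T.h (P (nat_lit 0)) (T.h (T.h (P (nat_lit 0)) (T.h (P (nat_lit 1393916393412)) (T.h (P (nat_lit 0)) (M (nat_lit 6220893331447))))) (T.h (P (nat_lit 0)) (T.h (T.h (P (nat_lit 0)) (P (nat_lit 15984051745240))) (P (nat_lit 0))))))) (T.h (T.h (P (nat_lit 0)) (T.h (T.h (M (nat_lit 68093795823)) (T.h (P (nat_lit 0)) (M (nat_lit 4663577438019)))) (T.h (P (nat_lit 0)) (P (nat_lit 1138656868776))))) (T.h (T.h (T.h (P (nat_lit 0)) (T.h (M (nat_lit 913705971787))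 (T.h (P (nat_lit 0)) (P (nat_lit 4525508034816))))) (T.h (P (nat_lit 0)) (T.h (T.h (P (nat_lit 0)) (P (nat_lit 10967772443760))) (P (nat_lit 0))))) (T.h (T.h (P (nat_lit 0)) (P (nat_lit 248509207476))) (T.h (T.h (T.h (P (nat_lit 0)) (M (nat_lit 199974082651))) (P (nat_lit 0))) (P (nat_lit 0))))))) (T.h (P (nat_lit 0)) (T.h (T.h (T.h (T.h (P (nat_lit 0)) (T.h (P (nat_lit 18546184088)) (T.h (P (nat_lit 0)) (T.h (M (nat_lit 122658412051)) (T.h (P (nat_lit 0)) (M (nat_lit 756549197223))))))) (T.h (P (nat_lit 0)) (T.h (T.h (P (nat_lit 0)) (T.h (M (nat_lit 74505427667)) (T.h (P (nat_lit 0)) (P (nat_lit 2226896141900))))) (T.h (P (nat_lit 0)) (T.h (T.h (P (nat_lit 0)) (M (nat_lit 9333927516207))) (P (nat_lit 0))))))) (T.h (T.h (P (nat_lit 0)) (T.h (T.h (P (nat_lit 40375293336)) (T.h (P (nat_lit 0)) (P (nat_lit 4329121823084)))) (T.h (P (nat_lit 0)) (M (nat_lit 2362865784139))))) (T.h (T.h (T.h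 (P (nat_lit 0)) (T.h (P (nat_lit 804842684776)) (T.h (P (nat_lit 0)) (P (nat_lit 2526755668532))))) (T.h (P (nat_lit 0)) (T.h (T.h (P (nat_lit 0)) (M (nat_lit 6642916904607))) (P (nat_lit 0))))) (T.h (T.h (P (nat_lit 0)) (M (nat_lit 2550260607351))) (T.h (T.h (T.h (P (nat_lit 0)) (M (nat_lit 4168144363435))) (P (nat_lit 0))) (P (nat_lit 0))))))) (P (nat_lit 0))))))) (T.h (T.h (P (nat_lit 0)) (T.h (T.h (T.h (P (nat_lit 0)) (T.h (T.h (P (nat_lit 4195288008)) (T.h (P (nat_lit 0)) (T.h (M (nat_lit 586622429695)) (T.h (P (nat_lit 0)) (P (nat_lit 1483706341920)))))) (T.h (P (nat_lit 0)) (T.h (T.h (P (nat_lit 152028759912)) (T.h (P (nat_lit 0)) (M (nat_lit 3543530449003)))) (T.h (P (nat_lit 0)) (M (nat_lit 692603920031))))))) (T.h (T.h (T.h (P (nat_lit 0)) (T.h (P (nat_lit 121496000760)) (T.h (P (nat_lit 0)) (P (nat_lit 1571117827800))))) (T.h (P (nat_lit 0)) (T.h (T.h (P (nat_lit 0)) (M (nat_lit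 2740162983391))) (P (nat_lit 0))))) (T.h (T.h (P (nat_lit 0)) (T.h (T.h (M (nat_lit 586622429695)) (T.h (P (nat_lit 0)) (P (nat_lit 10174811295904)))) (T.h (P (nat_lit 0)) (M (nat_lit 3543530449003))))) (T.h (T.h (T.h (P (nat_lit 0)) (P (nat_lit 1571117827800))) (P (nat_lit 0))) (T.h (T.h (P (nat_lit 0)) (P (nat_lit 1483706341920))) (P (nat_lit 0))))))) (T.h (P (nat_lit 0)) (T.h (T.h (T.h (P (nat_lit 0)) (T.h (T.h (P (nat_lit 18546184088)) (T.h (P (nat_lit 0)) (T.h (M (nat_lit 74505427667)) (T.h (P (nat_lit 0)) (M (nat_lit 9333927516207)))))) (T.h (P (nat_lit 0)) (T.h (T.h (M (nat_lit 122658412051)) (T.h (P (nat_lit 0)) (P (nat_lit 2226896141900)))) (T.h (P (nat_lit 0)) (M (nat_lit 756549197223))))))) (T.h (T.h (T.h (P (nat_lit 0)) (T.h (P (nat_lit 40375293336)) (T.h (P (nat_lit 0)) (M (nat_lit 2362865784139))))) (T.h (P (nat_lit 0)) (T.h (T.h (P (nat_lit 0)) (P (nat_lit 4329121823084)))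 (P (nat_lit 0))))) (T.h (T.h (P (nat_lit 0)) (T.h (T.h (P (nat_lit 804842684776)) (T.h (P (nat_lit 0)) (M (nat_lit 6642916904607)))) (T.h (P (nat_lit 0)) (P (nat_lit 2526755668532))))) (T.h (T.h (T.h (P (nat_lit 0)) (M (nat_lit 2550260607351))) (P (nat_lit 0))) (T.h (T.h (P (nat_lit 0)) (M (nat_lit 4168144363435))) (P (nat_lit 0))))))) (P (nat_lit 0)))))) et2_3))
def et2_5 : T ℤ := (T.h (T.h (P (nat_lit 0)) (T.h (P (nat_lit 0)) (T.h (P (nat_lit 0)) (T.h (P (nat_lit 0)) (T.h (T.h (T.h (T.h (P (nat_lit 0)) (T.h (P (nat_lit 4195288008)) (T.h (P (nat_lit 0)) (T.h (P (nat_lit 152028759912)) (T.h (P (nat_lit 0)) (M (nat_lit 692603920031))))))) (T.h (P (nat_lit 0)) (T.h (T.h (P (nat_lit 0)) (T.h (M (nat_lit 586622429695)) (T.h (P (nat_lit 0)) (M (nat_lit 3543530449003))))) (T.h (P (nat_lit 0)) (T.h (T.h (P (nat_lit 0)) (P (nat_lit 1483706341920))) (P (nat_lit 0))))))) (T.h (T.h (P (nat_lit 0))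 (T.h (T.h (P (nat_lit 121496000760)) (T.h (P (nat_lit 0)) (M (nat_lit 2740162983391)))) (T.h (P (nat_lit 0)) (P (nat_lit 1571117827800))))) (T.h (T.h (T.h (P (nat_lit 0)) (T.h (M (nat_lit 586622429695)) (T.h (P (nat_lit 0)) (M (nat_lit 3543530449003))))) (T.h (P (nat_lit 0)) (T.h (T.h (P (nat_lit 0)) (P (nat_lit 10174811295904))) (P (nat_lit 0))))) (T.h (T.h (P (nat_lit 0)) (P (nat_lit 1571117827800))) (T.h (T.h (T.h (P (nat_lit 0)) (P (nat_lit 1483706341920))) (P (nat_lit 0))) (P (nat_lit 0))))))) (T.h (P (nat_lit 0)) (T.h (T.h (T.h (T.h (P (nat_lit 0)) (T.h (M (nat_lit 12267891311)) (T.h (P (nat_lit 0)) (T.h (M (nat_lit 80823105783)) (T.h (P (nat_lit 0)) (M (nat_lit 6548212949399))))))) (T.h (P (nat_lit 0)) (T.h (T.h (P (nat_lit 0)) (T.h (P (nat_lit 1037779995736)) (T.h (P (nat_lit 0)) (M (nat_lit 7997106575471))))) (T.h (P (nat_lit 0)) (T.h (T.h (P (nat_lit 0)) (M (nat_lit 2004039306991)))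 (P (nat_lit 0))))))) (T.h (T.h (P (nat_lit 0)) (T.h (T.h (P (nat_lit 6348315480)) (T.h (P (nat_lit 0)) (P (nat_lit 1242071742968)))) (T.h (P (nat_lit 0)) (M (nat_lit 1634410347811))))) (T.h (T.h (T.h (P (nat_lit 0)) (T.h (P (nat_lit 1037779995736)) (T.h (P (nat_lit 0)) (M (nat_lit 7997106575471))))) (T.h (P (nat_lit 0)) (T.h (T.h (P (nat_lit 0)) (M (nat_lit 12449038719103))) (P (nat_lit 0))))) (T.h (T.h (P (nat_lit 0)) (M (nat_lit 1634410347811))) (T.h (T.h (T.h (P (nat_lit 0)) (M (nat_lit 2004039306991))) (P (nat_lit 0))) (P (nat_lit 0))))))) (P (nat_lit 0))))))))) (T.h (T.h (P (nat_lit 0)) (T.h (P (nat_lit 0)) (T.h (P (nat_lit 0)) (T.h (T.h (T.h (P (nat_lit 0)) (T.h (T.h (M (nat_lit 8915859151)) (T.h (P (nat_lit 0)) (T.h (P (nat_lit 1393916393412)) (T.h (P (nat_lit 0)) (P (nat_lit 15984051745240)))))) (T.h (P (nat_lit 0)) (T.h (T.h (M (nat_lit 507045505143)) (T.h (P (nat_lit 0)) (M (nat_lit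 6220893331447)))) (T.h (P (nat_lit 0)) (M (nat_lit 1207941257795))))))) (T.h (T.h (T.h (P (nat_lit 0)) (T.h (M (nat_lit 68093795823)) (T.h (P (nat_lit 0)) (P (nat_lit 1138656868776))))) (T.h (P (nat_lit 0)) (T.h (T.h (P (nat_lit 0)) (M (nat_lit 4663577438019))) (P (nat_lit 0))))) (T.h (T.h (P (nat_lit 0)) (T.h (T.h (M (nat_lit 913705971787)) (T.h (P (nat_lit 0)) (P (nat_lit 10967772443760)))) (T.h (P (nat_lit 0)) (P (nat_lit 4525508034816))))) (T.h (T.h (T.h (P (nat_lit 0)) (P (nat_lit 248509207476))) (P (nat_lit 0))) (T.h (T.h (P (nat_lit 0)) (M (nat_lit 199974082651))) (P (nat_lit 0))))))) (T.h (P (nat_lit 0)) (T.h (T.h (T.h (P (nat_lit 0)) (T.h (T.h (P (nat_lit 2717896776)) (T.h (P (nat_lit 0)) (T.h (M (nat_lit 55999751051)) (T.h (P (nat_lit 0)) (M (nat_lit 26195386618079)))))) (T.h (P (nat_lit 0)) (T.h (T.h (P (nat_lit 89225720440)) (T.h (P (nat_lit 0)) (P (nat_lit 6043702608140))))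 (T.h (P (nat_lit 0)) (P (nat_lit 914707493840))))))) (T.h (T.h (T.h (P (nat_lit 0)) (T.h (M (nat_lit 124164358447)) (T.h (P (nat_lit 0)) (P (nat_lit 7796777381424))))) (T.h (P (nat_lit 0)) (T.h (T.h (P (nat_lit 0)) (M (nat_lit 3862094766435))) (P (nat_lit 0))))) (T.h (T.h (P (nat_lit 0)) (T.h (T.h (P (nat_lit 153242922188)) (T.h (P (nat_lit 0)) (M (nat_lit 11780644472695)))) (T.h (P (nat_lit 0)) (M (nat_lit 864623112023))))) (T.h (T.h (T.h (P (nat_lit 0)) (M (nat_lit 1112737777659))) (P (nat_lit 0))) (T.h (T.h (P (nat_lit 0)) (P (nat_lit 6201089555548))) (P (nat_lit 0))))))) (P (nat_lit 0)))))))) et2_4))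
def et2_6 : T ℤ := (T.h (T.h (P (nat_lit 0)) (T.h (T.h (T.h (P (nat_lit 0)) (T.h (T.h (P (nat_lit 0)) (T.h (M (nat_lit 68093795823)) (T.h (P (nat_lit 0)) (P (nat_lit 248509207476))))) (T.h (P (nat_lit 0)) (T.h (T.h (P (nat_lit 0)) (P (nat_lit 1138656868776))) (P (nat_lit 0)))))) (T.h (T.h (T.h (M (nat_lit 8915859151)) (T.h (P (nat_lit 0)) (T.h (M (nat_lit 913705971787)) (T.h (P (nat_lit 0)) (M (nat_lit 199974082651)))))) (T.h (P (nat_lit 0)) (T.h (T.h (P (nat_lit 1393916393412)) (T.h (P (nat_lit 0)) (P (nat_lit 10967772443760)))) (T.h (P (nat_lit 0)) (P (nat_lit 15984051745240)))))) (T.h (T.h (P (nat_lit 0)) (T.h (T.h (P (nat_lit 0)) (M (nat_lit 4663577438019))) (P (nat_lit 0)))) (T.h (T.h (T.h (M (nat_lit 507045505143)) (T.h (P (nat_lit 0)) (P (nat_lit 4525508034816)))) (T.h (P (nat_lit 0)) (M (nat_lit 6220893331447)))) (T.h (P (nat_lit 0)) (M (nat_lit 1207941257795))))))) (T.h (P (nat_lit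 0)) (T.h (T.h (T.h (P (nat_lit 0)) (T.h (T.h (P (nat_lit 0)) (T.h (P (nat_lit 28432500232)) (T.h (P (nat_lit 0)) (P (nat_lit 6658194822172))))) (T.h (P (nat_lit 0)) (T.h (T.h (P (nat_lit 0)) (P (nat_lit 6658194822172))) (P (nat_lit 0)))))) (T.h (T.h (T.h (M (nat_lit 8797922255)) (T.h (P (nat_lit 0)) (T.h (M (nat_lit 170504935235)) (T.h (P (nat_lit 0)) (M (nat_lit 4272503805863)))))) (T.h (P (nat_lit 0)) (T.h (T.h (M (nat_lit 170504935235)) (T.h (P (nat_lit 0)) (M (nat_lit 24226502238327)))) (T.h (P (nat_lit 0)) (M (nat_lit 4272503805863)))))) (T.h (T.h (P (nat_lit 0)) (T.h (T.h (P (nat_lit 0)) (M (nat_lit 1550344365863))) (P (nat_lit 0)))) (T.h (T.h (T.h (M (nat_lit 660064070983)) (T.h (P (nat_lit 0)) (M (nat_lit 4075122919467)))) (T.h (P (nat_lit 0)) (M (nat_lit 4075122919467)))) (T.h (P (nat_lit 0)) (M (nat_lit 7706561005871))))))) (P (nat_lit 0)))))) (T.h (T.h (T.h (T.h (T.h (P (nat_lit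 2581617572)) (T.h (P (nat_lit 0)) (T.h (M (nat_lit 77121929483)) (T.h (P (nat_lit 0)) (M (nat_lit 1011441379267)))))) (T.h (P (nat_lit 0)) (T.h (T.h (M (nat_lit 26917621963)) (T.h (P (nat_lit 0)) (P (nat_lit 2304730555456)))) (T.h (P (nat_lit 0)) (P (nat_lit 377058657132)))))) (T.h (T.h (P (nat_lit 0)) (T.h (T.h (P (nat_lit 0)) (T.h (M (nat_lit 1039146517695)) (T.h (P (nat_lit 0)) (M (nat_lit 7014724413527))))) (T.h (P (nat_lit 0)) (T.h (T.h (P (nat_lit 0)) (P (nat_lit 4607487845064))) (P (nat_lit 0)))))) (T.h (T.h (T.h (P (nat_lit 54116853276)) (T.h (P (nat_lit 0)) (P (nat_lit 1818517086436)))) (T.h (P (nat_lit 0)) (M (nat_lit 1270925669631)))) (T.h (T.h (P (nat_lit 0)) (T.h (T.h (P (nat_lit 0)) (P (nat_lit 4804830347872))) (P (nat_lit 0)))) (P (nat_lit 1653975260632)))))) (T.h (P (nat_lit 0)) (T.h (T.h (T.h (T.h (M (nat_lit 665537159)) (T.h (P (nat_lit 0)) (T.h (P (nat_lit 119695029976))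 (T.h (P (nat_lit 0)) (P (nat_lit 2599506171676)))))) (T.h (P (nat_lit 0)) (T.h (T.h (P (nat_lit 65856161032)) (T.h (P (nat_lit 0)) (P (nat_lit 169572378940)))) (T.h (P (nat_lit 0)) (P (nat_lit 3375680826704)))))) (T.h (T.h (P (nat_lit 0)) (T.h (T.h (P (nat_lit 0)) (T.h (P (nat_lit 1122433709152)) (T.h (P (nat_lit 0)) (M (nat_lit 9618871566895))))) (T.h (P (nat_lit 0)) (T.h (T.h (P (nat_lit 0)) (M (nat_lit 16005050637471))) (P (nat_lit 0)))))) (T.h (T.h (T.h (P (nat_lit 119695029976)) (T.h (P (nat_lit 0)) (M (nat_lit 4268868736559)))) (T.h (P (nat_lit 0)) (P (nat_lit 169572378940)))) (T.h (T.h (P (nat_lit 0)) (T.h (T.h (P (nat_lit 0)) (M (nat_lit 9618871566895))) (P (nat_lit 0)))) (P (nat_lit 2599506171676)))))) (P (nat_lit 0))))) (T.h (T.h (P (nat_lit 0)) (T.h (T.h (T.h (P (nat_lit 0)) (T.h (T.h (P (nat_lit 0)) (T.h (M (nat_lit 124164358447)) (T.h (P (nat_lit 0)) (M (nat_lit 1112737777659)))))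 (T.h (P (nat_lit 0)) (T.h (T.h (P (nat_lit 0)) (P (nat_lit 7796777381424))) (P (nat_lit 0)))))) (T.h (T.h (T.h (P (nat_lit 2717896776)) (T.h (P (nat_lit 0)) (T.h (P (nat_lit 153242922188)) (T.h (P (nat_lit 0)) (P (nat_lit 6201089555548)))))) (T.h (P (nat_lit 0)) (T.h (T.h (M (nat_lit 55999751051)) (T.h (P (nat_lit 0)) (M (nat_lit 11780644472695)))) (T.h (P (nat_lit 0)) (M (nat_lit 26195386618079)))))) (T.h (T.h (P (nat_lit 0)) (T.h (T.h (P (nat_lit 0)) (M (nat_lit 3862094766435))) (P (nat_lit 0)))) (T.h (T.h (T.h (P (nat_lit 89225720440)) (T.h (P (nat_lit 0)) (M (nat_lit 864623112023)))) (T.h (P (nat_lit 0)) (P (nat_lit 6043702608140)))) (T.h (P (nat_lit 0)) (P (nat_lit 914707493840))))))) (P (nat_lit 0)))) (T.h (T.h (T.h (T.h (T.h (M (nat_lit 179575215)) (T.h (P (nat_lit 0)) (T.h (P (nat_lit 37847818560)) (T.h (P (nat_lit 0)) (P (nat_lit 662444721508)))))) (T.h (P (nat_lit 0)) (T.h (T.h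 (P (nat_lit 12214376992)) (T.h (P (nat_lit 0)) (M (nat_lit 196718519319)))) (T.h (P (nat_lit 0)) (M (nat_lit 209387983871)))))) (T.h (T.h (P (nat_lit 0)) (T.h (T.h (P (nat_lit 0)) (T.h (P (nat_lit 607237189400)) (T.h (P (nat_lit 0)) (M (nat_lit 2157965397071))))) (T.h (P (nat_lit 0)) (T.h (T.h (P (nat_lit 0)) (M (nat_lit 1176594987039))) (P (nat_lit 0)))))) (T.h (T.h (T.h (M (nat_lit 23499867535)) (T.h (P (nat_lit 0)) (P (nat_lit 235306635768)))) (T.h (P (nat_lit 0)) (M (nat_lit 1186773671303)))) (T.h (T.h (P (nat_lit 0)) (T.h (T.h (P (nat_lit 0)) (P (nat_lit 1319702802328))) (P (nat_lit 0)))) (M (nat_lit 1843386372207)))))) (P (nat_lit 0))) (P (nat_lit 0))))))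
def et2_7 : T ℤ := (T.h (T.h (P (nat_lit 0)) (T.h (P (nat_lit 0)) (T.h (P (nat_lit 0)) (T.h (P (nat_lit 0)) (T.h (T.h (T.h (T.h (P (nat_lit 2581617572)) (T.h (P (nat_lit 0)) (T.h (M (nat_lit 26917621963)) (T.h (P (nat_lit 0)) (P (nat_lit 377058657132)))))) (T.h (P (nat_lit 0)) (T.h (T.h (M (nat_lit 77121929483)) (T.h (P (nat_lit 0)) (P (nat_lit 2304730555456)))) (T.h (P (nat_lit 0)) (M (nat_lit 1011441379267)))))) (T.h (T.h (P (nat_lit 0)) (T.h (T.h (P (nat_lit 0)) (T.h (M (nat_lit 1039146517695)) (T.h (P (nat_lit 0)) (P (nat_lit 4607487845064))))) (T.h (P (nat_lit 0)) (T.h (T.h (P (nat_lit 0)) (M (nat_lit 7014724413527))) (P (nat_lit 0)))))) (T.h (T.h (T.h (P (nat_lit 54116853276)) (T.h (P (nat_lit 0)) (M (nat_lit 1270925669631)))) (T.h (P (nat_lit 0)) (P (nat_lit 1818517086436)))) (T.h (T.h (P (nat_lit 0)) (T.h (T.h (P (nat_lit 0)) (P (nat_lit 4804830347872))) (P (nat_lit 0)))) (P (nat_lit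 1653975260632)))))) (T.h (P (nat_lit 0)) (T.h (T.h (T.h (T.h (M (nat_lit 179575215)) (T.h (P (nat_lit 0)) (T.h (P (nat_lit 12214376992)) (T.h (P (nat_lit 0)) (M (nat_lit 209387983871)))))) (T.h (P (nat_lit 0)) (T.h (T.h (P (nat_lit 37847818560)) (T.h (P (nat_lit 0)) (M (nat_lit 196718519319)))) (T.h (P (nat_lit 0)) (P (nat_lit 662444721508)))))) (T.h (T.h (P (nat_lit 0)) (T.h (T.h (P (nat_lit 0)) (T.h (P (nat_lit 607237189400)) (T.h (P (nat_lit 0)) (M (nat_lit 1176594987039))))) (T.h (P (nat_lit 0)) (T.h (T.h (P (nat_lit 0)) (M (nat_lit 2157965397071))) (P (nat_lit 0)))))) (T.h (T.h (T.h (M (nat_lit 23499867535)) (T.h (P (nat_lit 0)) (M (nat_lit 1186773671303)))) (T.h (P (nat_lit 0)) (P (nat_lit 235306635768)))) (T.h (T.h (P (nat_lit 0)) (T.h (T.h (P (nat_lit 0)) (P (nat_lit 1319702802328))) (P (nat_lit 0)))) (M (nat_lit 1843386372207)))))) (P (nat_lit 0))))))))) (T.h (T.h (P (nat_lit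 0)) (T.h (P (nat_lit 0)) (T.h (P (nat_lit 0)) (T.h (T.h (T.h (P (nat_lit 0)) (T.h (T.h (P (nat_lit 0)) (T.h (M (nat_lit 68093795823)) (T.h (P (nat_lit 0)) (P (nat_lit 1138656868776))))) (T.h (P (nat_lit 0)) (T.h (T.h (P (nat_lit 0)) (P (nat_lit 248509207476))) (P (nat_lit 0)))))) (T.h (T.h (T.h (M (nat_lit 8915859151)) (T.h (P (nat_lit 0)) (T.h (P (nat_lit 1393916393412)) (T.h (P (nat_lit 0)) (P (nat_lit 15984051745240)))))) (T.h (P (nat_lit 0)) (T.h (T.h (M (nat_lit 913705971787)) (T.h (P (nat_lit 0)) (P (nat_lit 10967772443760)))) (T.h (P (nat_lit 0)) (M (nat_lit 199974082651)))))) (T.h (T.h (P (nat_lit 0)) (T.h (T.h (P (nat_lit 0)) (M (nat_lit 4663577438019))) (P (nat_lit 0)))) (T.h (T.h (T.h (M (nat_lit 507045505143)) (T.h (P (nat_lit 0)) (M (nat_lit 6220893331447)))) (T.h (P (nat_lit 0)) (P (nat_lit 4525508034816)))) (T.h (P (nat_lit 0)) (M (nat_lit 1207941257795))))))) (T.h (P (nat_lit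 0)) (T.h (T.h (T.h (P (nat_lit 0)) (T.h (T.h (P (nat_lit 0)) (T.h (M (nat_lit 124164358447)) (T.h (P (nat_lit 0)) (P (nat_lit 7796777381424))))) (T.h (P (nat_lit 0)) (T.h (T.h (P (nat_lit 0)) (M (nat_lit 1112737777659))) (P (nat_lit 0)))))) (T.h (T.h (T.h (P (nat_lit 2717896776)) (T.h (P (nat_lit 0)) (T.h (M (nat_lit 55999751051)) (T.h (P (nat_lit 0)) (M (nat_lit 26195386618079)))))) (T.h (P (nat_lit 0)) (T.h (T.h (P (nat_lit 153242922188)) (T.h (P (nat_lit 0)) (M (nat_lit 11780644472695)))) (T.h (P (nat_lit 0)) (P (nat_lit 6201089555548)))))) (T.h (T.h (P (nat_lit 0)) (T.h (T.h (P (nat_lit 0)) (M (nat_lit 3862094766435))) (P (nat_lit 0)))) (T.h (T.h (T.h (P (nat_lit 89225720440)) (T.h (P (nat_lit 0)) (P (nat_lit 6043702608140)))) (T.h (P (nat_lit 0)) (M (nat_lit 864623112023)))) (T.h (P (nat_lit 0)) (P (nat_lit 914707493840))))))) (P (nat_lit 0)))))))) (T.h (T.h (P (nat_lit 0)) (T.h (P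 (nat_lit 0)) (T.h (T.h (T.h (T.h (P (nat_lit 3400494312)) (T.h (P (nat_lit 0)) (T.h (P (nat_lit 69807859920)) (T.h (P (nat_lit 0)) (M (nat_lit 295485647823)))))) (T.h (P (nat_lit 0)) (T.h (T.h (P (nat_lit 69807859920)) (T.h (P (nat_lit 0)) (M (nat_lit 1712856587751)))) (T.h (P (nat_lit 0)) (M (nat_lit 295485647823)))))) (T.h (T.h (P (nat_lit 0)) (T.h (T.h (P (nat_lit 0)) (T.h (P (nat_lit 2251611686640)) (T.h (P (nat_lit 0)) (P (nat_lit 12828830134320))))) (T.h (P (nat_lit 0)) (T.h (T.h (P (nat_lit 0)) (P (nat_lit 12828830134320))) (P (nat_lit 0)))))) (T.h (T.h (T.h (P (nat_lit 69807859920)) (T.h (P (nat_lit 0)) (M (nat_lit 1712856587751)))) (T.h (P (nat_lit 0)) (M (nat_lit 1712856587751)))) (T.h (T.h (P (nat_lit 0)) (T.h (T.h (P (nat_lit 0)) (P (nat_lit 12828830134320))) (P (nat_lit 0)))) (M (nat_lit 295485647823)))))) (T.h (P (nat_lit 0)) (T.h (T.h (T.h (T.h (M (nat_lit 665537159)) (T.h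 (P (nat_lit 0)) (T.h (P (nat_lit 65856161032)) (T.h (P (nat_lit 0)) (P (nat_lit 3375680826704)))))) (T.h (P (nat_lit 0)) (T.h (T.h (P (nat_lit 119695029976)) (T.h (P (nat_lit 0)) (P (nat_lit 169572378940)))) (T.h (P (nat_lit 0)) (P (nat_lit 2599506171676)))))) (T.h (T.h (P (nat_lit 0)) (T.h (T.h (P (nat_lit 0)) (T.h (P (nat_lit 1122433709152)) (T.h (P (nat_lit 0)) (M (nat_lit 16005050637471))))) (T.h (P (nat_lit 0)) (T.h (T.h (P (nat_lit 0)) (M (nat_lit 9618871566895))) (P (nat_lit 0)))))) (T.h (T.h (T.h (P (nat_lit 119695029976)) (T.h (P (nat_lit 0)) (P (nat_lit 169572378940)))) (T.h (P (nat_lit 0)) (M (nat_lit 4268868736559)))) (T.h (T.h (P (nat_lit 0)) (T.h (T.h (P (nat_lit 0)) (M (nat_lit 9618871566895))) (P (nat_lit 0)))) (P (nat_lit 2599506171676)))))) (P (nat_lit 0))))))) et2_6)))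
def et2_8 : T ℤ := (T.h (T.h (T.h (T.h (T.h (P (nat_lit 0)) (T.h (P (nat_lit 15168901352)) (T.h (P (nat_lit 0)) (T.h (P (nat_lit 662283508960)) (T.h (P (nat_lit 0)) (P (nat_lit 932246525016))))))) (T.h (P (nat_lit 0)) (T.h (T.h (P (nat_lit 0)) (T.h (M (nat_lit 664787632935)) (T.h (P (nat_lit 0)) (M (nat_lit 3790185371459))))) (T.h (P (nat_lit 0)) (T.h (T.h (P (nat_lit 0)) (M (nat_lit 9988474830339))) (P (nat_lit 0))))))) (T.h (T.h (P (nat_lit 0)) (T.h (T.h (M (nat_lit 88729002071)) (T.h (P (nat_lit 0)) (P (nat_lit 4336150672640)))) (T.h (P (nat_lit 0)) (M (nat_lit 1605872480943))))) (T.h (T.h (T.h (P (nat_lit 0)) (T.h (M (nat_lit 664787632935)) (T.h (P (nat_lit 0)) (M (nat_lit 3790185371459))))) (T.h (P (nat_lit 0)) (T.h (T.h (P (nat_lit 0)) (P (nat_lit 1837157958712))) (P (nat_lit 0))))) (T.h (T.h (P (nat_lit 0)) (M (nat_lit 1605872480943))) (T.h (T.h (T.h (P (nat_lit 0)) (M (nat_lit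 9988474830339))) (P (nat_lit 0))) (P (nat_lit 0))))))) (T.h (P (nat_lit 0)) (T.h (T.h (T.h (T.h (P (nat_lit 0)) (T.h (M (nat_lit 8797922255)) (T.h (P (nat_lit 0)) (T.h (M (nat_lit 660064070983)) (T.h (P (nat_lit 0)) (M (nat_lit 7706561005871))))))) (T.h (P (nat_lit 0)) (T.h (T.h (P (nat_lit 0)) (T.h (M (nat_lit 170504935235)) (T.h (P (nat_lit 0)) (M (nat_lit 4075122919467))))) (T.h (P (nat_lit 0)) (T.h (T.h (P (nat_lit 0)) (M (nat_lit 4272503805863))) (P (nat_lit 0))))))) (T.h (T.h (P (nat_lit 0)) (T.h (T.h (P (nat_lit 28432500232)) (T.h (P (nat_lit 0)) (M (nat_lit 1550344365863)))) (T.h (P (nat_lit 0)) (P (nat_lit 6658194822172))))) (T.h (T.h (T.h (P (nat_lit 0)) (T.h (M (nat_lit 170504935235)) (T.h (P (nat_lit 0)) (M (nat_lit 4075122919467))))) (T.h (P (nat_lit 0)) (T.h (T.h (P (nat_lit 0)) (M (nat_lit 24226502238327))) (P (nat_lit 0))))) (T.h (T.h (P (nat_lit 0)) (P (nat_lit 6658194822172)))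 (T.h (T.h (T.h (P (nat_lit 0)) (M (nat_lit 4272503805863))) (P (nat_lit 0))) (P (nat_lit 0))))))) (P (nat_lit 0))))) (T.h (T.h (P (nat_lit 0)) (T.h (T.h (T.h (P (nat_lit 0)) (T.h (T.h (P (nat_lit 18546184088)) (T.h (P (nat_lit 0)) (T.h (P (nat_lit 804842684776)) (T.h (P (nat_lit 0)) (M (nat_lit 4168144363435)))))) (T.h (P (nat_lit 0)) (T.h (T.h (M (nat_lit 122658412051)) (T.h (P (nat_lit 0)) (P (nat_lit 2526755668532)))) (T.h (P (nat_lit 0)) (M (nat_lit 756549197223))))))) (T.h (T.h (T.h (P (nat_lit 0)) (T.h (P (nat_lit 40375293336)) (T.h (P (nat_lit 0)) (M (nat_lit 2550260607351))))) (T.h (P (nat_lit 0)) (T.h (T.h (P (nat_lit 0)) (P (nat_lit 4329121823084))) (P (nat_lit 0))))) (T.h (T.h (P (nat_lit 0)) (T.h (T.h (M (nat_lit 74505427667)) (T.h (P (nat_lit 0)) (M (nat_lit 6642916904607)))) (T.h (P (nat_lit 0)) (P (nat_lit 2226896141900))))) (T.h (T.h (T.h (P (nat_lit 0)) (M (nat_lit 2362865784139)))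 (P (nat_lit 0))) (T.h (T.h (P (nat_lit 0)) (M (nat_lit 9333927516207))) (P (nat_lit 0))))))) (P (nat_lit 0)))) (T.h (T.h (T.h (T.h (T.h (P (nat_lit 0)) (T.h (M (nat_lit 5290653807)) (T.h (P (nat_lit 0)) (T.h (M (nat_lit 260584608427)) (T.h (P (nat_lit 0)) (P (nat_lit 205120477144))))))) (T.h (P (nat_lit 0)) (T.h (T.h (P (nat_lit 0)) (T.h (P (nat_lit 573136761192)) (T.h (P (nat_lit 0)) (M (nat_lit 1155221942467))))) (T.h (P (nat_lit 0)) (T.h (T.h (P (nat_lit 0)) (P (nat_lit 8677527791624))) (P (nat_lit 0))))))) (T.h (T.h (P (nat_lit 0)) (T.h (T.h (P (nat_lit 65980477144)) (T.h (P (nat_lit 0)) (P (nat_lit 168013298856)))) (T.h (P (nat_lit 0)) (M (nat_lit 2141941918863))))) (T.h (T.h (T.h (P (nat_lit 0)) (T.h (M (nat_lit 13300931555)) (T.h (P (nat_lit 0)) (M (nat_lit 2497622409983))))) (T.h (P (nat_lit 0)) (T.h (T.h (P (nat_lit 0)) (M (nat_lit 1806743960711))) (P (nat_lit 0))))) (T.h (T.h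 (P (nat_lit 0)) (M (nat_lit 4539244245751))) (T.h (T.h (T.h (P (nat_lit 0)) (P (nat_lit 6206474839384))) (P (nat_lit 0))) (P (nat_lit 0))))))) (P (nat_lit 0))) (P (nat_lit 0)))))
def et2_9 : T ℤ := (T.h (T.h (P (nat_lit 0)) (T.h (P (nat_lit 0)) (T.h (T.h (T.h (T.h (P (nat_lit 0)) (T.h (M (nat_lit 8915859151)) (T.h (P (nat_lit 0)) (T.h (M (nat_lit 507045505143)) (T.h (P (nat_lit 0)) (M (nat_lit 1207941257795))))))) (T.h (P (nat_lit 0)) (T.h (T.h (P (nat_lit 0)) (T.h (M (nat_lit 913705971787)) (T.h (P (nat_lit 0)) (P (nat_lit 4525508034816))))) (T.h (P (nat_lit 0)) (T.h (T.h (P (nat_lit 0)) (M (nat_lit 199974082651))) (P (nat_lit 0))))))) (T.h (T.h (P (nat_lit 0)) (T.h (T.h (M (nat_lit 68093795823)) (T.h (P (nat_lit 0)) (M (nat_lit 4663577438019)))) (T.h (P (nat_lit 0)) (P (nat_lit 248509207476))))) (T.h (T.h (T.h (P (nat_lit 0)) (T.h (P (nat_lit 1393916393412)) (T.h (P (nat_lit 0)) (M (nat_lit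 6220893331447))))) (T.h (P (nat_lit 0)) (T.h (T.h (P (nat_lit 0)) (P (nat_lit 10967772443760))) (P (nat_lit 0))))) (T.h (T.h (P (nat_lit 0)) (P (nat_lit 1138656868776))) (T.h (T.h (T.h (P (nat_lit 0)) (P (nat_lit 15984051745240))) (P (nat_lit 0))) (P (nat_lit 0))))))) (T.h (P (nat_lit 0)) (T.h (T.h (T.h (T.h (P (nat_lit 0)) (T.h (P (nat_lit 18546184088)) (T.h (P (nat_lit 0)) (T.h (M (nat_lit 122658412051)) (T.h (P (nat_lit 0)) (M (nat_lit 756549197223))))))) (T.h (P (nat_lit 0)) (T.h (T.h (P (nat_lit 0)) (T.h (P (nat_lit 804842684776)) (T.h (P (nat_lit 0)) (P (nat_lit 2526755668532))))) (T.h (P (nat_lit 0)) (T.h (T.h (P (nat_lit 0)) (M (nat_lit 4168144363435))) (P (nat_lit 0))))))) (T.h (T.h (P (nat_lit 0)) (T.h (T.h (P (nat_lit 40375293336)) (T.h (P (nat_lit 0)) (P (nat_lit 4329121823084)))) (T.h (P (nat_lit 0)) (M (nat_lit 2550260607351))))) (T.h (T.h (T.h (P (nat_lit 0)) (T.h (M (nat_lit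 74505427667)) (T.h (P (nat_lit 0)) (P (nat_lit 2226896141900))))) (T.h (P (nat_lit 0)) (T.h (T.h (P (nat_lit 0)) (M (nat_lit 6642916904607))) (P (nat_lit 0))))) (T.h (T.h (P (nat_lit 0)) (M (nat_lit 2362865784139))) (T.h (T.h (T.h (P (nat_lit 0)) (M (nat_lit 9333927516207))) (P (nat_lit 0))) (P (nat_lit 0))))))) (P (nat_lit 0))))))) (T.h (T.h (P (nat_lit 0)) (T.h (T.h (T.h (P (nat_lit 0)) (T.h (T.h (M (nat_lit 8915859151)) (T.h (P (nat_lit 0)) (T.h (M (nat_lit 913705971787)) (T.h (P (nat_lit 0)) (M (nat_lit 199974082651)))))) (T.h (P (nat_lit 0)) (T.h (T.h (M (nat_lit 507045505143)) (T.h (P (nat_lit 0)) (P (nat_lit 4525508034816)))) (T.h (P (nat_lit 0)) (M (nat_lit 1207941257795))))))) (T.h (T.h (T.h (P (nat_lit 0)) (T.h (M (nat_lit 68093795823)) (T.h (P (nat_lit 0)) (P (nat_lit 248509207476))))) (T.h (P (nat_lit 0)) (T.h (T.h (P (nat_lit 0)) (M (nat_lit 4663577438019))) (P (nat_lit 0)))))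 (T.h (T.h (P (nat_lit 0)) (T.h (T.h (P (nat_lit 1393916393412)) (T.h (P (nat_lit 0)) (P (nat_lit 10967772443760)))) (T.h (P (nat_lit 0)) (M (nat_lit 6220893331447))))) (T.h (T.h (T.h (P (nat_lit 0)) (P (nat_lit 1138656868776))) (P (nat_lit 0))) (T.h (T.h (P (nat_lit 0)) (P (nat_lit 15984051745240))) (P (nat_lit 0))))))) (T.h (P (nat_lit 0)) (T.h (T.h (T.h (P (nat_lit 0)) (T.h (T.h (M (nat_lit 8797922255)) (T.h (P (nat_lit 0)) (T.h (M (nat_lit 170504935235)) (T.h (P (nat_lit 0)) (M (nat_lit 4272503805863)))))) (T.h (P (nat_lit 0)) (T.h (T.h (M (nat_lit 660064070983)) (T.h (P (nat_lit 0)) (M (nat_lit 4075122919467)))) (T.h (P (nat_lit 0)) (M (nat_lit 7706561005871))))))) (T.h (T.h (T.h (P (nat_lit 0)) (T.h (P (nat_lit 28432500232)) (T.h (P (nat_lit 0)) (P (nat_lit 6658194822172))))) (T.h (P (nat_lit 0)) (T.h (T.h (P (nat_lit 0)) (M (nat_lit 1550344365863))) (P (nat_lit 0))))) (T.h (T.h (P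 (nat_lit 0)) (T.h (T.h (M (nat_lit 170504935235)) (T.h (P (nat_lit 0)) (M (nat_lit 24226502238327)))) (T.h (P (nat_lit 0)) (M (nat_lit 4075122919467))))) (T.h (T.h (T.h (P (nat_lit 0)) (P (nat_lit 6658194822172))) (P (nat_lit 0))) (T.h (T.h (P (nat_lit 0)) (M (nat_lit 4272503805863))) (P (nat_lit 0))))))) (P (nat_lit 0)))))) et2_8))
def et2_10 : T ℤ := (T.h (T.h (P (nat_lit 0)) (T.h (T.h (T.h (P (nat_lit 0)) (T.h (T.h (P (nat_lit 0)) (T.h (P (nat_lit 121496000760)) (T.h (P (nat_lit 0)) (P (nat_lit 1571117827800))))) (T.h (P (nat_lit 0)) (T.h (T.h (P (nat_lit 0)) (P (nat_lit 1571117827800))) (P (nat_lit 0)))))) (T.h (T.h (T.h (P (nat_lit 4195288008)) (T.h (P (nat_lit 0)) (T.h (M (nat_lit 586622429695)) (T.h (P (nat_lit 0)) (P (nat_lit 1483706341920)))))) (T.h (P (nat_lit 0)) (T.h (T.h (M (nat_lit 586622429695)) (T.h (P (nat_lit 0)) (P (nat_lit 10174811295904)))) (T.h (P (nat_lit 0)) (P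 (nat_lit 1483706341920)))))) (T.h (T.h (P (nat_lit 0)) (T.h (T.h (P (nat_lit 0)) (M (nat_lit 2740162983391))) (P (nat_lit 0)))) (T.h (T.h (T.h (P (nat_lit 152028759912)) (T.h (P (nat_lit 0)) (M (nat_lit 3543530449003)))) (T.h (P (nat_lit 0)) (M (nat_lit 3543530449003)))) (T.h (P (nat_lit 0)) (M (nat_lit 692603920031))))))) (T.h (P (nat_lit 0)) (T.h (T.h (T.h (P (nat_lit 0)) (T.h (T.h (P (nat_lit 0)) (T.h (P (nat_lit 40375293336)) (T.h (P (nat_lit 0)) (M (nat_lit 2362865784139))))) (T.h (P (nat_lit 0)) (T.h (T.h (P (nat_lit 0)) (M (nat_lit 2550260607351))) (P (nat_lit 0)))))) (T.h (T.h (T.h (P (nat_lit 18546184088)) (T.h (P (nat_lit 0)) (T.h (M (nat_lit 74505427667)) (T.h (P (nat_lit 0)) (M (nat_lit 9333927516207)))))) (T.h (P (nat_lit 0)) (T.h (T.h (P (nat_lit 804842684776)) (T.h (P (nat_lit 0)) (M (nat_lit 6642916904607)))) (T.h (P (nat_lit 0)) (M (nat_lit 4168144363435)))))) (T.h (T.h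 (P (nat_lit 0)) (T.h (T.h (P (nat_lit 0)) (P (nat_lit 4329121823084))) (P (nat_lit 0)))) (T.h (T.h (T.h (M (nat_lit 122658412051)) (T.h (P (nat_lit 0)) (P (nat_lit 2226896141900)))) (T.h (P (nat_lit 0)) (P (nat_lit 2526755668532)))) (T.h (P (nat_lit 0)) (M (nat_lit 756549197223))))))) (P (nat_lit 0)))))) (T.h (T.h (T.h (T.h (T.h (P (nat_lit 2581617572)) (T.h (P (nat_lit 0)) (T.h (M (nat_lit 77121929483)) (T.h (P (nat_lit 0)) (M (nat_lit 1011441379267)))))) (T.h (P (nat_lit 0)) (T.h (T.h (P (nat_lit 54116853276)) (T.h (P (nat_lit 0)) (P (nat_lit 1818517086436)))) (T.h (P (nat_lit 0)) (P (nat_lit 1653975260632)))))) (T.h (T.h (P (nat_lit 0)) (T.h (T.h (P (nat_lit 0)) (T.h (M (nat_lit 1039146517695)) (T.h (P (nat_lit 0)) (M (nat_lit 7014724413527))))) (T.h (P (nat_lit 0)) (T.h (T.h (P (nat_lit 0)) (P (nat_lit 4804830347872))) (P (nat_lit 0)))))) (T.h (T.h (T.h (M (nat_lit 26917621963)) (T.h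 (P (nat_lit 0)) (P (nat_lit 2304730555456)))) (T.h (P (nat_lit 0)) (M (nat_lit 1270925669631)))) (T.h (T.h (P (nat_lit 0)) (T.h (T.h (P (nat_lit 0)) (P (nat_lit 4607487845064))) (P (nat_lit 0)))) (P (nat_lit 377058657132)))))) (T.h (P (nat_lit 0)) (T.h (T.h (T.h (T.h (M (nat_lit 665537159)) (T.h (P (nat_lit 0)) (T.h (P (nat_lit 119695029976)) (T.h (P (nat_lit 0)) (P (nat_lit 2599506171676)))))) (T.h (P (nat_lit 0)) (T.h (T.h (P (nat_lit 119695029976)) (T.h (P (nat_lit 0)) (M (nat_lit 4268868736559)))) (T.h (P (nat_lit 0)) (P (nat_lit 2599506171676)))))) (T.h (T.h (P (nat_lit 0)) (T.h (T.h (P (nat_lit 0)) (T.h (P (nat_lit 1122433709152)) (T.h (P (nat_lit 0)) (M (nat_lit 9618871566895))))) (T.h (P (nat_lit 0)) (T.h (T.h (P (nat_lit 0)) (M (nat_lit 9618871566895))) (P (nat_lit 0)))))) (T.h (T.h (T.h (P (nat_lit 65856161032)) (T.h (P (nat_lit 0)) (P (nat_lit 169572378940)))) (T.h (P (nat_lit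 0)) (P (nat_lit 169572378940)))) (T.h (T.h (P (nat_lit 0)) (T.h (T.h (P (nat_lit 0)) (M (nat_lit 16005050637471))) (P (nat_lit 0)))) (P (nat_lit 3375680826704)))))) (P (nat_lit 0))))) (T.h (T.h (P (nat_lit 0)) (T.h (T.h (T.h (P (nat_lit 0)) (T.h (T.h (P (nat_lit 0)) (T.h (P (nat_lit 40375293336)) (T.h (P (nat_lit 0)) (M (nat_lit 2550260607351))))) (T.h (P (nat_lit 0)) (T.h (T.h (P (nat_lit 0)) (M (nat_lit 2362865784139))) (P (nat_lit 0)))))) (T.h (T.h (T.h (P (nat_lit 18546184088)) (T.h (P (nat_lit 0)) (T.h (P (nat_lit 804842684776)) (T.h (P (nat_lit 0)) (M (nat_lit 4168144363435)))))) (T.h (P (nat_lit 0)) (T.h (T.h (M (nat_lit 74505427667)) (T.h (P (nat_lit 0)) (M (nat_lit 6642916904607)))) (T.h (P (nat_lit 0)) (M (nat_lit 9333927516207)))))) (T.h (T.h (P (nat_lit 0)) (T.h (T.h (P (nat_lit 0)) (P (nat_lit 4329121823084))) (P (nat_lit 0)))) (T.h (T.h (T.h (M (nat_lit 122658412051)) (T.h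 (P (nat_lit 0)) (P (nat_lit 2526755668532)))) (T.h (P (nat_lit 0)) (P (nat_lit 2226896141900)))) (T.h (P (nat_lit 0)) (M (nat_lit 756549197223))))))) (P (nat_lit 0)))) (T.h (T.h (T.h (T.h (T.h (P (nat_lit 208411472)) (T.h (P (nat_lit 0)) (T.h (M (nat_lit 1256016215)) (T.h (P (nat_lit 0)) (P (nat_lit 260132880408)))))) (T.h (P (nat_lit 0)) (T.h (T.h (M (nat_lit 54111006547)) (T.h (P (nat_lit 0)) (P (nat_lit 1274896847484)))) (T.h (P (nat_lit 0)) (M (nat_lit 927859144775)))))) (T.h (T.h (P (nat_lit 0)) (T.h (T.h (P (nat_lit 0)) (T.h (M (nat_lit 74825691647)) (T.h (P (nat_lit 0)) (P (nat_lit 4957498601712))))) (T.h (P (nat_lit 0)) (T.h (T.h (P (nat_lit 0)) (P (nat_lit 15603589509128))) (P (nat_lit 0)))))) (T.h (T.h (T.h (M (nat_lit 54111006547)) (T.h (P (nat_lit 0)) (P (nat_lit 1274896847484)))) (T.h (P (nat_lit 0)) (M (nat_lit 649302703559)))) (T.h (T.h (P (nat_lit 0)) (T.h (T.h (P (nat_lit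 0)) (P (nat_lit 15603589509128))) (P (nat_lit 0)))) (M (nat_lit 927859144775)))))) (P (nat_lit 0))) (P (nat_lit 0))))))
def et2_11 : T ℤ := (T.h (T.h (T.h (T.h (T.h (P (nat_lit 0)) (T.h (M (nat_lit 1258824595)) (T.h (P (nat_lit 0)) (T.h (P (nat_lit 31554001732)) (T.h (P (nat_lit 0)) (P (nat_lit 215580258920))))))) (T.h (P (nat_lit 0)) (T.h (T.h (P (nat_lit 0)) (T.h (P (nat_lit 92630811584)) (T.h (P (nat_lit 0)) (M (nat_lit 2072922937159))))) (T.h (P (nat_lit 0)) (T.h (T.h (P (nat_lit 0)) (M (nat_lit 233040241939))) (P (nat_lit 0))))))) (T.h (T.h (P (nat_lit 0)) (T.h (T.h (P (nat_lit 81793377792)) (T.h (P (nat_lit 0)) (P (nat_lit 3006084576076)))) (T.h (P (nat_lit 0)) (P (nat_lit 1293621544768))))) (T.h (T.h (T.h (P (nat_lit 0)) (T.h (M (nat_lit 599003301939)) (T.h (P (nat_lit 0)) (M (nat_lit 1586404733795))))) (T.h (P (nat_lit 0)) (T.h (T.h (P (nat_lit 0)) (P (nat_lit 5149845893000)))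 (P (nat_lit 0))))) (T.h (T.h (P (nat_lit 0)) (M (nat_lit 715918850971))) (T.h (T.h (T.h (P (nat_lit 0)) (P (nat_lit 875692939708))) (P (nat_lit 0))) (P (nat_lit 0))))))) (T.h (P (nat_lit 0)) (T.h (T.h (T.h (T.h (P (nat_lit 0)) (T.h (P (nat_lit 2717896776)) (T.h (P (nat_lit 0)) (T.h (P (nat_lit 89225720440)) (T.h (P (nat_lit 0)) (P (nat_lit 914707493840))))))) (T.h (P (nat_lit 0)) (T.h (T.h (P (nat_lit 0)) (T.h (P (nat_lit 153242922188)) (T.h (P (nat_lit 0)) (M (nat_lit 864623112023))))) (T.h (P (nat_lit 0)) (T.h (T.h (P (nat_lit 0)) (P (nat_lit 6201089555548))) (P (nat_lit 0))))))) (T.h (T.h (P (nat_lit 0)) (T.h (T.h (M (nat_lit 124164358447)) (T.h (P (nat_lit 0)) (M (nat_lit 3862094766435)))) (T.h (P (nat_lit 0)) (M (nat_lit 1112737777659))))) (T.h (T.h (T.h (P (nat_lit 0)) (T.h (M (nat_lit 55999751051)) (T.h (P (nat_lit 0)) (P (nat_lit 6043702608140))))) (T.h (P (nat_lit 0)) (T.h (T.h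 (P (nat_lit 0)) (M (nat_lit 11780644472695))) (P (nat_lit 0))))) (T.h (T.h (P (nat_lit 0)) (P (nat_lit 7796777381424))) (T.h (T.h (T.h (P (nat_lit 0)) (M (nat_lit 26195386618079))) (P (nat_lit 0))) (P (nat_lit 0))))))) (P (nat_lit 0))))) (T.h (T.h (P (nat_lit 0)) (T.h (T.h (T.h (P (nat_lit 0)) (T.h (T.h (P (nat_lit 2717896776)) (T.h (P (nat_lit 0)) (T.h (P (nat_lit 153242922188)) (T.h (P (nat_lit 0)) (P (nat_lit 6201089555548)))))) (T.h (P (nat_lit 0)) (T.h (T.h (P (nat_lit 89225720440)) (T.h (P (nat_lit 0)) (M (nat_lit 864623112023)))) (T.h (P (nat_lit 0)) (P (nat_lit 914707493840))))))) (T.h (T.h (T.h (P (nat_lit 0)) (T.h (M (nat_lit 124164358447)) (T.h (P (nat_lit 0)) (M (nat_lit 1112737777659))))) (T.h (P (nat_lit 0)) (T.h (T.h (P (nat_lit 0)) (M (nat_lit 3862094766435))) (P (nat_lit 0))))) (T.h (T.h (P (nat_lit 0)) (T.h (T.h (M (nat_lit 55999751051)) (T.h (P (nat_lit 0)) (M (nat_lit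 11780644472695)))) (T.h (P (nat_lit 0)) (P (nat_lit 6043702608140))))) (T.h (T.h (T.h (P (nat_lit 0)) (P (nat_lit 7796777381424))) (P (nat_lit 0))) (T.h (T.h (P (nat_lit 0)) (M (nat_lit 26195386618079))) (P (nat_lit 0))))))) (P (nat_lit 0)))) (T.h (T.h (T.h (T.h (T.h (P (nat_lit 0)) (T.h (M (nat_lit 5290653807)) (T.h (P (nat_lit 0)) (T.h (M (nat_lit 260584608427)) (T.h (P (nat_lit 0)) (P (nat_lit 205120477144))))))) (T.h (P (nat_lit 0)) (T.h (T.h (P (nat_lit 0)) (T.h (M (nat_lit 13300931555)) (T.h (P (nat_lit 0)) (M (nat_lit 2497622409983))))) (T.h (P (nat_lit 0)) (T.h (T.h (P (nat_lit 0)) (P (nat_lit 6206474839384))) (P (nat_lit 0))))))) (T.h (T.h (P (nat_lit 0)) (T.h (T.h (P (nat_lit 65980477144)) (T.h (P (nat_lit 0)) (P (nat_lit 168013298856)))) (T.h (P (nat_lit 0)) (M (nat_lit 4539244245751))))) (T.h (T.h (T.h (P (nat_lit 0)) (T.h (P (nat_lit 573136761192)) (T.h (P (nat_lit 0)) (M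 (nat_lit 1155221942467))))) (T.h (P (nat_lit 0)) (T.h (T.h (P (nat_lit 0)) (M (nat_lit 1806743960711))) (P (nat_lit 0))))) (T.h (T.h (P (nat_lit 0)) (M (nat_lit 2141941918863))) (T.h (T.h (T.h (P (nat_lit 0)) (P (nat_lit 8677527791624))) (P (nat_lit 0))) (P (nat_lit 0))))))) (P (nat_lit 0))) (P (nat_lit 0)))))
def et2_12 : T ℤ := (T.h (T.h (T.h (T.h (T.h (T.h (P (nat_lit 1565366816)) (T.h (P (nat_lit 0)) (T.h (P (nat_lit 9870854280)) (T.h (P (nat_lit 0)) (P (nat_lit 140841355456)))))) (T.h (P (nat_lit 0)) (T.h (T.h (P (nat_lit 9870854280)) (T.h (P (nat_lit 0)) (P (nat_lit 482731765328)))) (T.h (P (nat_lit 0)) (P (nat_lit 140841355456)))))) (T.h (T.h (P (nat_lit 0)) (T.h (T.h (P (nat_lit 0)) (T.h (P (nat_lit 68940384096)) (T.h (P (nat_lit 0)) (M (nat_lit 1383137562759))))) (T.h (P (nat_lit 0)) (T.h (T.h (P (nat_lit 0)) (M (nat_lit 1383137562759))) (P (nat_lit 0)))))) (T.h (T.h (T.h (P (nat_lit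 23813852368)) (T.h (P (nat_lit 0)) (P (nat_lit 724960643488)))) (T.h (P (nat_lit 0)) (P (nat_lit 724960643488)))) (T.h (T.h (P (nat_lit 0)) (T.h (T.h (P (nat_lit 0)) (P (nat_lit 5070331252352))) (P (nat_lit 0)))) (M (nat_lit 316155149623)))))) (T.h (P (nat_lit 0)) (T.h (T.h (T.h (T.h (M (nat_lit 179575215)) (T.h (P (nat_lit 0)) (T.h (M (nat_lit 23499867535)) (T.h (P (nat_lit 0)) (M (nat_lit 1843386372207)))))) (T.h (P (nat_lit 0)) (T.h (T.h (P (nat_lit 37847818560)) (T.h (P (nat_lit 0)) (P (nat_lit 235306635768)))) (T.h (P (nat_lit 0)) (P (nat_lit 662444721508)))))) (T.h (T.h (P (nat_lit 0)) (T.h (T.h (P (nat_lit 0)) (T.h (P (nat_lit 607237189400)) (T.h (P (nat_lit 0)) (P (nat_lit 1319702802328))))) (T.h (P (nat_lit 0)) (T.h (T.h (P (nat_lit 0)) (M (nat_lit 2157965397071))) (P (nat_lit 0)))))) (T.h (T.h (T.h (P (nat_lit 12214376992)) (T.h (P (nat_lit 0)) (M (nat_lit 1186773671303)))) (T.h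 (P (nat_lit 0)) (M (nat_lit 196718519319)))) (T.h (T.h (P (nat_lit 0)) (T.h (T.h (P (nat_lit 0)) (M (nat_lit 1176594987039))) (P (nat_lit 0)))) (M (nat_lit 209387983871)))))) (P (nat_lit 0))))) (T.h (T.h (P (nat_lit 0)) (T.h (T.h (T.h (P (nat_lit 0)) (T.h (T.h (P (nat_lit 0)) (T.h (P (nat_lit 6348315480)) (T.h (P (nat_lit 0)) (M (nat_lit 1634410347811))))) (T.h (P (nat_lit 0)) (T.h (T.h (P (nat_lit 0)) (M (nat_lit 1634410347811))) (P (nat_lit 0)))))) (T.h (T.h (T.h (M (nat_lit 12267891311)) (T.h (P (nat_lit 0)) (T.h (P (nat_lit 1037779995736)) (T.h (P (nat_lit 0)) (M (nat_lit 2004039306991)))))) (T.h (P (nat_lit 0)) (T.h (T.h (P (nat_lit 1037779995736)) (T.h (P (nat_lit 0)) (M (nat_lit 12449038719103)))) (T.h (P (nat_lit 0)) (M (nat_lit 2004039306991)))))) (T.h (T.h (P (nat_lit 0)) (T.h (T.h (P (nat_lit 0)) (P (nat_lit 1242071742968))) (P (nat_lit 0)))) (T.h (T.h (T.h (M (nat_lit 80823105783))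 (T.h (P (nat_lit 0)) (M (nat_lit 7997106575471)))) (T.h (P (nat_lit 0)) (M (nat_lit 7997106575471)))) (T.h (P (nat_lit 0)) (M (nat_lit 6548212949399))))))) (P (nat_lit 0)))) (T.h (T.h (T.h (T.h (T.h (M (nat_lit 179575215)) (T.h (P (nat_lit 0)) (T.h (P (nat_lit 37847818560)) (T.h (P (nat_lit 0)) (P (nat_lit 662444721508)))))) (T.h (P (nat_lit 0)) (T.h (T.h (M (nat_lit 23499867535)) (T.h (P (nat_lit 0)) (P (nat_lit 235306635768)))) (T.h (P (nat_lit 0)) (M (nat_lit 1843386372207)))))) (T.h (T.h (P (nat_lit 0)) (T.h (T.h (P (nat_lit 0)) (T.h (P (nat_lit 607237189400)) (T.h (P (nat_lit 0)) (M (nat_lit 2157965397071))))) (T.h (P (nat_lit 0)) (T.h (T.h (P (nat_lit 0)) (P (nat_lit 1319702802328))) (P (nat_lit 0)))))) (T.h (T.h (T.h (P (nat_lit 12214376992)) (T.h (P (nat_lit 0)) (M (nat_lit 196718519319)))) (T.h (P (nat_lit 0)) (M (nat_lit 1186773671303)))) (T.h (T.h (P (nat_lit 0)) (T.h (T.h (P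 (nat_lit 0)) (M (nat_lit 1176594987039))) (P (nat_lit 0)))) (M (nat_lit 209387983871)))))) (P (nat_lit 0))) (P (nat_lit 0))))) (T.h (T.h (T.h (P (nat_lit 0)) (T.h (T.h (T.h (P (nat_lit 0)) (T.h (T.h (P (nat_lit 2209639280)) (T.h (P (nat_lit 0)) (T.h (M (nat_lit 290262955915)) (T.h (P (nat_lit 0)) (P (nat_lit 928059641512)))))) (T.h (P (nat_lit 0)) (T.h (T.h (P (nat_lit 5715753444)) (T.h (P (nat_lit 0)) (P (nat_lit 830598969680)))) (T.h (P (nat_lit 0)) (M (nat_lit 235638416359))))))) (T.h (T.h (T.h (P (nat_lit 0)) (T.h (M (nat_lit 65303692839)) (T.h (P (nat_lit 0)) (M (nat_lit 1383053164975))))) (T.h (P (nat_lit 0)) (T.h (T.h (P (nat_lit 0)) (M (nat_lit 2182320859751))) (P (nat_lit 0))))) (T.h (T.h (P (nat_lit 0)) (T.h (T.h (P (nat_lit 501395940932)) (T.h (P (nat_lit 0)) (M (nat_lit 1204293952367)))) (T.h (P (nat_lit 0)) (P (nat_lit 142598152096))))) (T.h (T.h (T.h (P (nat_lit 0)) (P (nat_lit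 424040075584))) (P (nat_lit 0))) (T.h (T.h (P (nat_lit 0)) (M (nat_lit 641106188499))) (P (nat_lit 0))))))) (P (nat_lit 0)))) (T.h (T.h (T.h (T.h (T.h (P (nat_lit 0)) (T.h (P (nat_lit 2209639280)) (T.h (P (nat_lit 0)) (T.h (P (nat_lit 5715753444)) (T.h (P (nat_lit 0)) (M (nat_lit 235638416359))))))) (T.h (P (nat_lit 0)) (T.h (T.h (P (nat_lit 0)) (T.h (M (nat_lit 290262955915)) (T.h (P (nat_lit 0)) (P (nat_lit 830598969680))))) (T.h (P (nat_lit 0)) (T.h (T.h (P (nat_lit 0)) (P (nat_lit 928059641512))) (P (nat_lit 0))))))) (T.h (T.h (P (nat_lit 0)) (T.h (T.h (M (nat_lit 65303692839)) (T.h (P (nat_lit 0)) (M (nat_lit 2182320859751)))) (T.h (P (nat_lit 0)) (M (nat_lit 1383053164975))))) (T.h (T.h (T.h (P (nat_lit 0)) (T.h (P (nat_lit 501395940932)) (T.h (P (nat_lit 0)) (P (nat_lit 142598152096))))) (T.h (P (nat_lit 0)) (T.h (T.h (P (nat_lit 0)) (M (nat_lit 1204293952367))) (P (nat_lit 0)))))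 (T.h (T.h (P (nat_lit 0)) (P (nat_lit 424040075584))) (T.h (T.h (T.h (P (nat_lit 0)) (M (nat_lit 641106188499))) (P (nat_lit 0))) (P (nat_lit 0))))))) (P (nat_lit 0))) (P (nat_lit 0)))) (T.h (T.h (T.h (T.h (T.h (T.h (M (nat_lit 460072711)) (T.h (P (nat_lit 0)) (T.h (M (nat_lit 11059947719)) (T.h (P (nat_lit 0)) (M (nat_lit 186493772039)))))) (T.h (P (nat_lit 0)) (T.h (T.h (M (nat_lit 11059947719)) (T.h (P (nat_lit 0)) (M (nat_lit 324353149375)))) (T.h (P (nat_lit 0)) (M (nat_lit 186493772039)))))) (T.h (T.h (P (nat_lit 0)) (T.h (T.h (P (nat_lit 0)) (T.h (M (nat_lit 88716988591)) (T.h (P (nat_lit 0)) (P (nat_lit 1473994407584))))) (T.h (P (nat_lit 0)) (T.h (T.h (P (nat_lit 0)) (P (nat_lit 1473994407584))) (P (nat_lit 0)))))) (T.h (T.h (T.h (M (nat_lit 25228148663)) (T.h (P (nat_lit 0)) (M (nat_lit 710713700111)))) (T.h (P (nat_lit 0)) (M (nat_lit 710713700111)))) (T.h (T.h (P (nat_lit 0))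 (T.h (T.h (P (nat_lit 0)) (M (nat_lit 4703946927999))) (P (nat_lit 0)))) (P (nat_lit 202873497600)))))) (P (nat_lit 0))) (P (nat_lit 0))) (P (nat_lit 0)))))
def et2_13 : T ℤ := (T.h (T.h (T.h (P (nat_lit 0)) (T.h (P (nat_lit 0)) (T.h (P (nat_lit 0)) (T.h (T.h (T.h (P (nat_lit 0)) (T.h (T.h (P (nat_lit 15168901352)) (T.h (P (nat_lit 0)) (T.h (M (nat_lit 664787632935)) (T.h (P (nat_lit 0)) (M (nat_lit 9988474830339)))))) (T.h (P (nat_lit 0)) (T.h (T.h (P (nat_lit 662283508960)) (T.h (P (nat_lit 0)) (M (nat_lit 3790185371459)))) (T.h (P (nat_lit 0)) (P (nat_lit 932246525016))))))) (T.h (T.h (T.h (P (nat_lit 0)) (T.h (M (nat_lit 88729002071)) (T.h (P (nat_lit 0)) (M (nat_lit 1605872480943))))) (T.h (P (nat_lit 0)) (T.h (T.h (P (nat_lit 0)) (P (nat_lit 4336150672640))) (P (nat_lit 0))))) (T.h (T.h (P (nat_lit 0)) (T.h (T.h (M (nat_lit 664787632935)) (T.h (P (nat_lit 0)) (P (nat_lit 1837157958712))))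 (T.h (P (nat_lit 0)) (M (nat_lit 3790185371459))))) (T.h (T.h (T.h (P (nat_lit 0)) (M (nat_lit 1605872480943))) (P (nat_lit 0))) (T.h (T.h (P (nat_lit 0)) (M (nat_lit 9988474830339))) (P (nat_lit 0))))))) (T.h (P (nat_lit 0)) (T.h (T.h (T.h (P (nat_lit 0)) (T.h (T.h (M (nat_lit 5290653807)) (T.h (P (nat_lit 0)) (T.h (P (nat_lit 573136761192)) (T.h (P (nat_lit 0)) (P (nat_lit 8677527791624)))))) (T.h (P (nat_lit 0)) (T.h (T.h (M (nat_lit 260584608427)) (T.h (P (nat_lit 0)) (M (nat_lit 1155221942467)))) (T.h (P (nat_lit 0)) (P (nat_lit 205120477144))))))) (T.h (T.h (T.h (P (nat_lit 0)) (T.h (P (nat_lit 65980477144)) (T.h (P (nat_lit 0)) (M (nat_lit 2141941918863))))) (T.h (P (nat_lit 0)) (T.h (T.h (P (nat_lit 0)) (P (nat_lit 168013298856))) (P (nat_lit 0))))) (T.h (T.h (P (nat_lit 0)) (T.h (T.h (M (nat_lit 13300931555)) (T.h (P (nat_lit 0)) (M (nat_lit 1806743960711)))) (T.h (P (nat_lit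 0)) (M (nat_lit 2497622409983))))) (T.h (T.h (T.h (P (nat_lit 0)) (M (nat_lit 4539244245751))) (P (nat_lit 0))) (T.h (T.h (P (nat_lit 0)) (P (nat_lit 6206474839384))) (P (nat_lit 0))))))) (P (nat_lit 0)))))))) et2_9) (T.h (T.h (T.h (P (nat_lit 0)) (T.h (P (nat_lit 0)) (T.h (T.h (T.h (T.h (P (nat_lit 2581617572)) (T.h (P (nat_lit 0)) (T.h (P (nat_lit 54116853276)) (T.h (P (nat_lit 0)) (P (nat_lit 1653975260632)))))) (T.h (P (nat_lit 0)) (T.h (T.h (M (nat_lit 77121929483)) (T.h (P (nat_lit 0)) (P (nat_lit 1818517086436)))) (T.h (P (nat_lit 0)) (M (nat_lit 1011441379267)))))) (T.h (T.h (P (nat_lit 0)) (T.h (T.h (P (nat_lit 0)) (T.h (M (nat_lit 1039146517695)) (T.h (P (nat_lit 0)) (P (nat_lit 4804830347872))))) (T.h (P (nat_lit 0)) (T.h (T.h (P (nat_lit 0)) (M (nat_lit 7014724413527))) (P (nat_lit 0)))))) (T.h (T.h (T.h (M (nat_lit 26917621963)) (T.h (P (nat_lit 0)) (M (nat_lit 1270925669631))))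 (T.h (P (nat_lit 0)) (P (nat_lit 2304730555456)))) (T.h (T.h (P (nat_lit 0)) (T.h (T.h (P (nat_lit 0)) (P (nat_lit 4607487845064))) (P (nat_lit 0)))) (P (nat_lit 377058657132)))))) (T.h (P (nat_lit 0)) (T.h (T.h (T.h (T.h (P (nat_lit 208411472)) (T.h (P (nat_lit 0)) (T.h (M (nat_lit 54111006547)) (T.h (P (nat_lit 0)) (M (nat_lit 927859144775)))))) (T.h (P (nat_lit 0)) (T.h (T.h (M (nat_lit 1256016215)) (T.h (P (nat_lit 0)) (P (nat_lit 1274896847484)))) (T.h (P (nat_lit 0)) (P (nat_lit 260132880408)))))) (T.h (T.h (P (nat_lit 0)) (T.h (T.h (P (nat_lit 0)) (T.h (M (nat_lit 74825691647)) (T.h (P (nat_lit 0)) (P (nat_lit 15603589509128))))) (T.h (P (nat_lit 0)) (T.h (T.h (P (nat_lit 0)) (P (nat_lit 4957498601712))) (P (nat_lit 0)))))) (T.h (T.h (T.h (M (nat_lit 54111006547)) (T.h (P (nat_lit 0)) (M (nat_lit 649302703559)))) (T.h (P (nat_lit 0)) (P (nat_lit 1274896847484)))) (T.h (T.h (P (nat_lit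 0)) (T.h (T.h (P (nat_lit 0)) (P (nat_lit 15603589509128))) (P (nat_lit 0)))) (M (nat_lit 927859144775)))))) (P (nat_lit 0))))))) et2_10) (T.h (T.h (T.h (P (nat_lit 0)) (T.h (T.h (T.h (P (nat_lit 0)) (T.h (T.h (M (nat_lit 1258824595)) (T.h (P (nat_lit 0)) (T.h (P (nat_lit 92630811584)) (T.h (P (nat_lit 0)) (M (nat_lit 233040241939)))))) (T.h (P (nat_lit 0)) (T.h (T.h (P (nat_lit 31554001732)) (T.h (P (nat_lit 0)) (M (nat_lit 2072922937159)))) (T.h (P (nat_lit 0)) (P (nat_lit 215580258920))))))) (T.h (T.h (T.h (P (nat_lit 0)) (T.h (P (nat_lit 81793377792)) (T.h (P (nat_lit 0)) (P (nat_lit 1293621544768))))) (T.h (P (nat_lit 0)) (T.h (T.h (P (nat_lit 0)) (P (nat_lit 3006084576076))) (P (nat_lit 0))))) (T.h (T.h (P (nat_lit 0)) (T.h (T.h (M (nat_lit 599003301939)) (T.h (P (nat_lit 0)) (P (nat_lit 5149845893000)))) (T.h (P (nat_lit 0)) (M (nat_lit 1586404733795))))) (T.h (T.h (T.h (P (nat_lit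 0)) (M (nat_lit 715918850971))) (P (nat_lit 0))) (T.h (T.h (P (nat_lit 0)) (P (nat_lit 875692939708))) (P (nat_lit 0))))))) (T.h (P (nat_lit 0)) (T.h (T.h (T.h (P (nat_lit 0)) (T.h (T.h (M (nat_lit 5290653807)) (T.h (P (nat_lit 0)) (T.h (M (nat_lit 13300931555)) (T.h (P (nat_lit 0)) (P (nat_lit 6206474839384)))))) (T.h (P (nat_lit 0)) (T.h (T.h (M (nat_lit 260584608427)) (T.h (P (nat_lit 0)) (M (nat_lit 2497622409983)))) (T.h (P (nat_lit 0)) (P (nat_lit 205120477144))))))) (T.h (T.h (T.h (P (nat_lit 0)) (T.h (P (nat_lit 65980477144)) (T.h (P (nat_lit 0)) (M (nat_lit 4539244245751))))) (T.h (P (nat_lit 0)) (T.h (T.h (P (nat_lit 0)) (P (nat_lit 168013298856))) (P (nat_lit 0))))) (T.h (T.h (P (nat_lit 0)) (T.h (T.h (P (nat_lit 573136761192)) (T.h (P (nat_lit 0)) (M (nat_lit 1806743960711)))) (T.h (P (nat_lit 0)) (M (nat_lit 1155221942467))))) (T.h (T.h (T.h (P (nat_lit 0)) (M (nat_lit 2141941918863)))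 (P (nat_lit 0))) (T.h (T.h (P (nat_lit 0)) (P (nat_lit 8677527791624))) (P (nat_lit 0))))))) (P (nat_lit 0)))))) et2_11) et2_12)))

def t2 : T ℤ := (T.h et2_2 (T.h (T.h (T.h (P (nat_lit 0)) (T.h (P (nat_lit 0)) (T.h (P (nat_lit 0)) (T.h (P (nat_lit 0)) (T.h (P (nat_lit 0)) (T.h (T.h (T.h (P (nat_lit 0)) (T.h (T.h (M (nat_lit 1258824595)) (T.h (P (nat_lit 0)) (T.h (M (nat_lit 599003301939)) (T.h (P (nat_lit 0)) (P (nat_lit 875692939708)))))) (T.h (P (nat_lit 0)) (T.h (T.h (P (nat_lit 31554001732)) (T.h (P (nat_lit 0)) (M (nat_lit 1586404733795)))) (T.h (P (nat_lit 0)) (P (nat_lit 215580258920))))))) (T.h (T.h (T.h (P (nat_lit 0)) (T.h (P (nat_lit 81793377792)) (T.h (P (nat_lit 0)) (M (nat_lit 715918850971))))) (T.h (P (nat_lit 0)) (T.h (T.h (P (nat_lit 0)) (P (nat_lit 3006084576076))) (P (nat_lit 0))))) (T.h (T.h (P (nat_lit 0)) (T.h (T.h (P (nat_lit 92630811584)) (T.h (P (nat_lit 0)) (P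 (nat_lit 5149845893000)))) (T.h (P (nat_lit 0)) (M (nat_lit 2072922937159))))) (T.h (T.h (T.h (P (nat_lit 0)) (P (nat_lit 1293621544768))) (P (nat_lit 0))) (T.h (T.h (P (nat_lit 0)) (M (nat_lit 233040241939))) (P (nat_lit 0))))))) (T.h (P (nat_lit 0)) (T.h (T.h (T.h (P (nat_lit 0)) (T.h (T.h (P (nat_lit 2209639280)) (T.h (P (nat_lit 0)) (T.h (P (nat_lit 501395940932)) (T.h (P (nat_lit 0)) (M (nat_lit 641106188499)))))) (T.h (P (nat_lit 0)) (T.h (T.h (P (nat_lit 5715753444)) (T.h (P (nat_lit 0)) (P (nat_lit 142598152096)))) (T.h (P (nat_lit 0)) (M (nat_lit 235638416359))))))) (T.h (T.h (T.h (P (nat_lit 0)) (T.h (M (nat_lit 65303692839)) (T.h (P (nat_lit 0)) (P (nat_lit 424040075584))))) (T.h (P (nat_lit 0)) (T.h (T.h (P (nat_lit 0)) (M (nat_lit 2182320859751))) (P (nat_lit 0))))) (T.h (T.h (P (nat_lit 0)) (T.h (T.h (M (nat_lit 290262955915)) (T.h (P (nat_lit 0)) (M (nat_lit 1204293952367))))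 (T.h (P (nat_lit 0)) (P (nat_lit 830598969680))))) (T.h (T.h (T.h (P (nat_lit 0)) (M (nat_lit 1383053164975))) (P (nat_lit 0))) (T.h (T.h (P (nat_lit 0)) (P (nat_lit 928059641512))) (P (nat_lit 0))))))) (P (nat_lit 0)))))))))) et2_5) (T.h et2_7 et2_13)))

theorem h_t2 : chkT (c.G g2) t2 = true := by decide +kernel


end Pool.Agent.TOPR.R6104
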