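import Pool.Agent.TOPR.R6104.Cert

set_option autoImplicit false
set_option linter.all false
set_option maxRecDepth 100000

namespace Pool.Agent.TOPR.R6104

open Helper10.PC hiding V3
open Helper80.CW.DL Pool.Agent.Helper6.TOP

def en11_0 : T ℤ := (T.h (T.h (P (nat_lit 0)) (T.h (P (nat_lit 0)) (T.h (T.h (T.h (P (nat_lit 0)) (T.h (T.h (M (nat_lit 2724475895)) (T.h (P (nat_lit 0)) (T.h (M (nat_lit 364065126519)) (T.h (P (nat_lit 0)) (M (nat_lit 2215644848967)))))) (T.h (P (nat_lit 0)) (T.h (T.h (M (nat_lit 30229560623)) (T.h (P (nat_lit 0)) (P (nat_lit 5429485587088)))) (T.h (P (nat_lit 0)) (M (nat_lit 775953033359))))))) (T.h (T.h (T.h (P (nat_lit 0)) (T.h (P (nat_lit 40230166820)) (T.h (P (nat_lit 0)) (T.h (M (nat_lit 801116755715)) (T.h (P (nat_lit 0)) (P (nat_lit 301774336224))))))) (T.h (P (nat_lit 0)) (T.h (T.h (P (nat_lit 0)) (T.h (M (nat_lit 859786972763)) (T.h (P (nat_lit 0)) (M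 (nat_lit 6074188613679))))) (T.h (P (nat_lit 0)) (T.h (T.h (P (nat_lit 0)) (M (nat_lit 3601316124959))) (P (nat_lit 0))))))) (T.h (T.h (P (nat_lit 0)) (T.h (T.h (P (nat_lit 48569654872)) (T.h (P (nat_lit 0)) (P (nat_lit 624241376488)))) (T.h (P (nat_lit 0)) (M (nat_lit 3937260548831))))) (T.h (T.h (T.h (P (nat_lit 0)) (T.h (P (nat_lit 1422170797064)) (T.h (P (nat_lit 0)) (M (nat_lit 3495176577119))))) (T.h (P (nat_lit 0)) (T.h (T.h (P (nat_lit 0)) (P (nat_lit 6065891929264))) (P (nat_lit 0))))) (T.h (T.h (P (nat_lit 0)) (M (nat_lit 834641743))) (T.h (T.h (T.h (P (nat_lit 0)) (P (nat_lit 2835604575808))) (P (nat_lit 0))) (P (nat_lit 0)))))))) (P (nat_lit 0))))) (T.h (T.h (P (nat_lit 0)) (T.h (T.h (T.h (T.h (P (nat_lit 0)) (T.h (M (nat_lit 356918979)) (T.h (P (nat_lit 0)) (T.h (P (nat_lit 10542811556)) (T.h (P (nat_lit 0)) (M (nat_lit 876269650931))))))) (T.h (P (nat_lit 0)) (T.h (T.h (P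 (nat_lit 0)) (T.h (M (nat_lit 168304942907)) (T.h (P (nat_lit 0)) (M (nat_lit 2238117729143))))) (T.h (P (nat_lit 0)) (T.h (T.h (P (nat_lit 0)) (P (nat_lit 3265186108960))) (P (nat_lit 0))))))) (T.h (T.h (P (nat_lit 0)) (T.h (T.h (P (nat_lit 11928227208)) (T.h (P (nat_lit 0)) (T.h (M (nat_lit 607591440635)) (T.h (P (nat_lit 0)) (M (nat_lit 1190563711119)))))) (T.h (P (nat_lit 0)) (T.h (T.h (P (nat_lit 73960113928)) (T.h (P (nat_lit 0)) (M (nat_lit 5234162200799)))) (T.h (P (nat_lit 0)) (P (nat_lit 283921974820))))))) (T.h (T.h (T.h (P (nat_lit 0)) (T.h (P (nat_lit 29316797496)) (T.h (P (nat_lit 0)) (M (nat_lit 320630511251))))) (T.h (P (nat_lit 0)) (T.h (T.h (P (nat_lit 0)) (P (nat_lit 39487009140))) (P (nat_lit 0))))) (T.h (T.h (P (nat_lit 0)) (T.h (T.h (P (nat_lit 907120605464)) (T.h (P (nat_lit 0)) (P (nat_lit 4600457068220)))) (T.h (P (nat_lit 0)) (P (nat_lit 6635401244280))))) (T.h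 (T.h (T.h (P (nat_lit 0)) (P (nat_lit 294744239720))) (P (nat_lit 0))) (T.h (T.h (P (nat_lit 0)) (P (nat_lit 1164409524420))) (P (nat_lit 0)))))))) (P (nat_lit 0)))) (T.h (T.h (T.h (T.h (P (nat_lit 0)) (T.h (T.h (M (nat_lit 2909436271)) (T.h (P (nat_lit 0)) (T.h (M (nat_lit 51522179743)) (T.h (P (nat_lit 0)) (M (nat_lit 1454112471951)))))) (T.h (P (nat_lit 0)) (T.h (T.h (M (nat_lit 62861471951)) (T.h (P (nat_lit 0)) (M (nat_lit 2419514061327)))) (T.h (P (nat_lit 0)) (P (nat_lit 1474593441984))))))) (T.h (T.h (T.h (P (nat_lit 0)) (T.h (P (nat_lit 4205843136)) (T.h (P (nat_lit 0)) (T.h (M (nat_lit 543133726299)) (T.h (P (nat_lit 0)) (P (nat_lit 705103001424))))))) (T.h (P (nat_lit 0)) (T.h (T.h (P (nat_lit 0)) (T.h (M (nat_lit 496572531359)) (T.h (P (nat_lit 0)) (P (nat_lit 4421983222752))))) (T.h (P (nat_lit 0)) (T.h (T.h (P (nat_lit 0)) (M (nat_lit 7055920391999))) (P (nat_lit 0)))))))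 (T.h (T.h (P (nat_lit 0)) (T.h (T.h (M (nat_lit 51522179743)) (T.h (P (nat_lit 0)) (M (nat_lit 2685712660863)))) (T.h (P (nat_lit 0)) (M (nat_lit 2419514061327))))) (T.h (T.h (T.h (P (nat_lit 0)) (T.h (M (nat_lit 543133726299)) (T.h (P (nat_lit 0)) (P (nat_lit 2226218153760))))) (T.h (P (nat_lit 0)) (T.h (T.h (P (nat_lit 0)) (P (nat_lit 4421983222752))) (P (nat_lit 0))))) (T.h (T.h (P (nat_lit 0)) (M (nat_lit 1454112471951))) (T.h (T.h (T.h (P (nat_lit 0)) (P (nat_lit 705103001424))) (P (nat_lit 0))) (P (nat_lit 0)))))))) (P (nat_lit 0))) (P (nat_lit 0)))))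
def en11_1 : T ℤ := (T.h (T.h (P (nat_lit 0)) (T.h (P (nat_lit 0)) (T.h (P (nat_lit 0)) (T.h (P (nat_lit 0)) (T.h (P (nat_lit 0)) (T.h (T.h (T.h (T.h (P (nat_lit 0)) (T.h (P (nat_lit 1377683792)) (T.h (P (nat_lit 0)) (T.h (P (nat_lit 25113617272)) (T.h (P (nat_lit 0)) (M (nat_lit 102510111239))))))) (T.h (P (nat_lit 0)) (T.h (T.h (P (nat_lit 0)) (T.h (P (nat_lit 9920603296)) (T.h (P (nat_lit 0)) (P (nat_lit 536950547008))))) (T.h (P (nat_lit 0)) (T.h (T.h (P (nat_lit 0)) (P (nat_lit 820304581636))) (P (nat_lit 0))))))) (T.h (T.h (P (nat_lit 0)) (T.h (T.h (M (nat_lit 997363507)) (T.h (P (nat_lit 0)) (T.h (P (nat_lit 61422508396)) (T.h (P (nat_lit 0)) (P (nat_lit 1175394545104)))))) (T.h (P (nat_lit 0)) (T.h (T.h (P (nat_lit 112651460972)) (T.h (P (nat_lit 0)) (P (nat_lit 1497450940600)))) (T.h (P (nat_lit 0)) (P (nat_lit 327556730956))))))) (T.h (T.h (T.h (P (nat_lit 0)) (T.h (P (nat_lit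 26330786316)) (T.h (P (nat_lit 0)) (P (nat_lit 229416143264))))) (T.h (P (nat_lit 0)) (T.h (T.h (P (nat_lit 0)) (P (nat_lit 372240411664))) (P (nat_lit 0))))) (T.h (T.h (P (nat_lit 0)) (T.h (T.h (P (nat_lit 134541867556)) (T.h (P (nat_lit 0)) (M (nat_lit 2312945573651)))) (T.h (P (nat_lit 0)) (M (nat_lit 371871542523))))) (T.h (T.h (T.h (P (nat_lit 0)) (P (nat_lit 598718943668))) (P (nat_lit 0))) (T.h (T.h (P (nat_lit 0)) (P (nat_lit 178146078556))) (P (nat_lit 0)))))))) (P (nat_lit 0)))))))) (T.h (T.h (P (nat_lit 0)) (T.h (P (nat_lit 0)) (T.h (P (nat_lit 0)) (T.h (P (nat_lit 0)) (T.h (T.h (T.h (P (nat_lit 0)) (T.h (T.h (M (nat_lit 731616911)) (T.h (P (nat_lit 0)) (T.h (P (nat_lit 185705694408)) (T.h (P (nat_lit 0)) (M (nat_lit 1598027747063)))))) (T.h (P (nat_lit 0)) (T.h (T.h (P (nat_lit 48005194936)) (T.h (P (nat_lit 0)) (P (nat_lit 315524932824)))) (T.h (P (nat_lit 0)) (M (nat_lit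 264613445567))))))) (T.h (T.h (T.h (P (nat_lit 0)) (T.h (M (nat_lit 6665919195)) (T.h (P (nat_lit 0)) (T.h (P (nat_lit 60664341172)) (T.h (P (nat_lit 0)) (P (nat_lit 1275097469688))))))) (T.h (P (nat_lit 0)) (T.h (T.h (P (nat_lit 0)) (T.h (P (nat_lit 948220340996)) (T.h (P (nat_lit 0)) (M (nat_lit 1241658608767))))) (T.h (P (nat_lit 0)) (T.h (T.h (P (nat_lit 0)) (P (nat_lit 2519014912824))) (P (nat_lit 0))))))) (T.h (T.h (P (nat_lit 0)) (T.h (T.h (M (nat_lit 13118601623)) (T.h (P (nat_lit 0)) (P (nat_lit 1116003923520)))) (T.h (P (nat_lit 0)) (P (nat_lit 17844772248))))) (T.h (T.h (T.h (P (nat_lit 0)) (T.h (M (nat_lit 556754826671)) (T.h (P (nat_lit 0)) (M (nat_lit 882667350167))))) (T.h (P (nat_lit 0)) (T.h (T.h (P (nat_lit 0)) (P (nat_lit 2418374430848))) (P (nat_lit 0))))) (T.h (T.h (P (nat_lit 0)) (P (nat_lit 244278275456))) (T.h (T.h (T.h (P (nat_lit 0)) (M (nat_lit 66353887663)))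 (P (nat_lit 0))) (P (nat_lit 0)))))))) (P (nat_lit 0))))))) (T.h (T.h (P (nat_lit 0)) (T.h (P (nat_lit 0)) (T.h (P (nat_lit 0)) (T.h (T.h (T.h (T.h (P (nat_lit 0)) (T.h (P (nat_lit 2706422404)) (T.h (P (nat_lit 0)) (T.h (M (nat_lit 92105637251)) (T.h (P (nat_lit 0)) (M (nat_lit 101285592467))))))) (T.h (P (nat_lit 0)) (T.h (T.h (P (nat_lit 0)) (T.h (P (nat_lit 90811539156)) (T.h (P (nat_lit 0)) (P (nat_lit 1467999939780))))) (T.h (P (nat_lit 0)) (T.h (T.h (P (nat_lit 0)) (P (nat_lit 3469578656928))) (P (nat_lit 0))))))) (T.h (T.h (P (nat_lit 0)) (T.h (T.h (M (nat_lit 17725979571)) (T.h (P (nat_lit 0)) (T.h (M (nat_lit 773380414855)) (T.h (P (nat_lit 0)) (P (nat_lit 8795897423736)))))) (T.h (P (nat_lit 0)) (T.h (T.h (P (nat_lit 918865788992)) (T.h (P (nat_lit 0)) (P (nat_lit 119032590900)))) (T.h (P (nat_lit 0)) (P (nat_lit 3128831162124))))))) (T.h (T.h (T.h (P (nat_lit 0)) (T.h (M (nat_lit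 77816791691)) (T.h (P (nat_lit 0)) (P (nat_lit 2411933774720))))) (T.h (P (nat_lit 0)) (T.h (T.h (P (nat_lit 0)) (M (nat_lit 5842232218811))) (P (nat_lit 0))))) (T.h (T.h (P (nat_lit 0)) (T.h (T.h (M (nat_lit 839851185615)) (T.h (P (nat_lit 0)) (P (nat_lit 90562305012)))) (T.h (P (nat_lit 0)) (P (nat_lit 965251674120))))) (T.h (T.h (T.h (P (nat_lit 0)) (M (nat_lit 416604811355))) (P (nat_lit 0))) (T.h (T.h (P (nat_lit 0)) (M (nat_lit 1946249404595))) (P (nat_lit 0)))))))) (P (nat_lit 0)))))) en11_0)))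
def en11_2 : T ℤ := (T.h (T.h (P (nat_lit 0)) (T.h (P (nat_lit 0)) (T.h (T.h (T.h (P (nat_lit 0)) (T.h (T.h (P (nat_lit 0)) (T.h (P (nat_lit 7282877664)) (T.h (P (nat_lit 0)) (T.h (P (nat_lit 1712031785024)) (T.h (P (nat_lit 0)) (P (nat_lit 260588830380))))))) (T.h (P (nat_lit 0)) (T.h (T.h (P (nat_lit 0)) (T.h (M (nat_lit 3682604562111)) (T.h (P (nat_lit 0)) (P (nat_lit 2227823024076))))) (T.h (P (nat_lit 0)) (T.h (T.h (P (nat_lit 0)) (M (nat_lit 4387254344051))) (P (nat_lit 0)))))))) (T.h (T.h (T.h (P (nat_lit 4977895936)) (T.h (P (nat_lit 0)) (T.h (P (nat_lit 139729744004)) (T.h (P (nat_lit 0)) (M (nat_lit 5969345678855)))))) (T.h (P (nat_lit 0)) (T.h (T.h (P (nat_lit 27591363060)) (T.h (P (nat_lit 0)) (P (nat_lit 14477433154140)))) (T.h (P (nat_lit 0)) (P (nat_lit 3451680191532)))))) (T.h (T.h (P (nat_lit 0)) (T.h (T.h (P (nat_lit 0)) (T.h (P (nat_lit 2016816992460)) (T.h (P (nat_lit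 0)) (P (nat_lit 12631336615536))))) (T.h (P (nat_lit 0)) (T.h (T.h (P (nat_lit 0)) (M (nat_lit 4008301692179))) (P (nat_lit 0)))))) (T.h (T.h (T.h (M (nat_lit 12304865011)) (T.h (P (nat_lit 0)) (M (nat_lit 3927801927983)))) (T.h (P (nat_lit 0)) (M (nat_lit 1225090222907)))) (T.h (T.h (P (nat_lit 0)) (T.h (T.h (P (nat_lit 0)) (P (nat_lit 1105160661324))) (P (nat_lit 0)))) (M (nat_lit 119634687563))))))) (P (nat_lit 0))))) (T.h (T.h (P (nat_lit 0)) (T.h (T.h (T.h (T.h (P (nat_lit 65180080)) (T.h (P (nat_lit 0)) (T.h (M (nat_lit 5892841151)) (T.h (P (nat_lit 0)) (T.h (P (nat_lit 370643799700)) (T.h (P (nat_lit 0)) (P (nat_lit 1009408255344)))))))) (T.h (P (nat_lit 0)) (T.h (T.h (M (nat_lit 7373454591)) (T.h (P (nat_lit 0)) (T.h (P (nat_lit 784093864172)) (T.h (P (nat_lit 0)) (P (nat_lit 7047918718240)))))) (T.h (P (nat_lit 0)) (T.h (T.h (M (nat_lit 358524298703)) (T.h (P (nat_lit 0)) (P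 (nat_lit 4762386646160)))) (T.h (P (nat_lit 0)) (P (nat_lit 1389535299040)))))))) (T.h (T.h (P (nat_lit 0)) (T.h (T.h (P (nat_lit 0)) (T.h (M (nat_lit 441141509871)) (T.h (P (nat_lit 0)) (M (nat_lit 5569403226255))))) (T.h (P (nat_lit 0)) (T.h (T.h (P (nat_lit 0)) (P (nat_lit 19916844006464))) (P (nat_lit 0)))))) (T.h (T.h (T.h (M (nat_lit 5892841151)) (T.h (P (nat_lit 0)) (T.h (M (nat_lit 840242295215)) (T.h (P (nat_lit 0)) (P (nat_lit 4200332534800)))))) (T.h (P (nat_lit 0)) (T.h (T.h (P (nat_lit 784093864172)) (T.h (P (nat_lit 0)) (P (nat_lit 4498849425472)))) (T.h (P (nat_lit 0)) (P (nat_lit 4762386646160)))))) (T.h (T.h (P (nat_lit 0)) (T.h (T.h (P (nat_lit 0)) (M (nat_lit 5569403226255))) (P (nat_lit 0)))) (T.h (T.h (T.h (P (nat_lit 370643799700)) (T.h (P (nat_lit 0)) (P (nat_lit 4200332534800)))) (T.h (P (nat_lit 0)) (P (nat_lit 7047918718240)))) (T.h (P (nat_lit 0)) (P (nat_lit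 1009408255344)))))))) (P (nat_lit 0)))) (T.h (T.h (T.h (T.h (P (nat_lit 0)) (T.h (T.h (P (nat_lit 0)) (T.h (P (nat_lit 11928227208)) (T.h (P (nat_lit 0)) (T.h (P (nat_lit 907120605464)) (T.h (P (nat_lit 0)) (P (nat_lit 1164409524420))))))) (T.h (P (nat_lit 0)) (T.h (T.h (P (nat_lit 0)) (T.h (P (nat_lit 73960113928)) (T.h (P (nat_lit 0)) (P (nat_lit 6635401244280))))) (T.h (P (nat_lit 0)) (T.h (T.h (P (nat_lit 0)) (P (nat_lit 283921974820))) (P (nat_lit 0)))))))) (T.h (T.h (T.h (M (nat_lit 356918979)) (T.h (P (nat_lit 0)) (T.h (P (nat_lit 29316797496)) (T.h (P (nat_lit 0)) (P (nat_lit 294744239720)))))) (T.h (P (nat_lit 0)) (T.h (T.h (M (nat_lit 168304942907)) (T.h (P (nat_lit 0)) (P (nat_lit 39487009140)))) (T.h (P (nat_lit 0)) (P (nat_lit 3265186108960)))))) (T.h (T.h (P (nat_lit 0)) (T.h (T.h (P (nat_lit 0)) (T.h (M (nat_lit 607591440635)) (T.h (P (nat_lit 0)) (P (nat_lit 4600457068220)))))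 (T.h (P (nat_lit 0)) (T.h (T.h (P (nat_lit 0)) (M (nat_lit 5234162200799))) (P (nat_lit 0)))))) (T.h (T.h (T.h (P (nat_lit 10542811556)) (T.h (P (nat_lit 0)) (M (nat_lit 320630511251)))) (T.h (P (nat_lit 0)) (M (nat_lit 2238117729143)))) (T.h (T.h (P (nat_lit 0)) (T.h (T.h (P (nat_lit 0)) (M (nat_lit 1190563711119))) (P (nat_lit 0)))) (M (nat_lit 876269650931))))))) (P (nat_lit 0))) (P (nat_lit 0)))))
def en11_3 : T ℤ := (T.h (T.h (P (nat_lit 0)) (T.h (P (nat_lit 0)) (T.h (T.h (T.h (P (nat_lit 0)) (T.h (T.h (M (nat_lit 4879002031)) (T.h (P (nat_lit 0)) (T.h (M (nat_lit 111423168959)) (T.h (P (nat_lit 0)) (P (nat_lit 1392970609408)))))) (T.h (P (nat_lit 0)) (T.h (T.h (P (nat_lit 5493960112)) (T.h (P (nat_lit 0)) (P (nat_lit 3941072076504)))) (T.h (P (nat_lit 0)) (M (nat_lit 572270359423))))))) (T.h (T.h (T.h (P (nat_lit 0)) (T.h (M (nat_lit 35782206399)) (T.h (P (nat_lit 0)) (T.h (P (nat_lit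 1250380622360)) (T.h (P (nat_lit 0)) (P (nat_lit 2971441644400))))))) (T.h (P (nat_lit 0)) (T.h (T.h (P (nat_lit 0)) (T.h (M (nat_lit 5308197618687)) (T.h (P (nat_lit 0)) (M (nat_lit 5678437405911))))) (T.h (P (nat_lit 0)) (T.h (T.h (P (nat_lit 0)) (M (nat_lit 735977661247))) (P (nat_lit 0))))))) (T.h (T.h (P (nat_lit 0)) (T.h (T.h (M (nat_lit 111423168959)) (T.h (P (nat_lit 0)) (M (nat_lit 817393779375)))) (T.h (P (nat_lit 0)) (P (nat_lit 3941072076504))))) (T.h (T.h (T.h (P (nat_lit 0)) (T.h (P (nat_lit 1250380622360)) (T.h (P (nat_lit 0)) (M (nat_lit 1488290579167))))) (T.h (P (nat_lit 0)) (T.h (T.h (P (nat_lit 0)) (M (nat_lit 5678437405911))) (P (nat_lit 0))))) (T.h (T.h (P (nat_lit 0)) (P (nat_lit 1392970609408))) (T.h (T.h (T.h (P (nat_lit 0)) (P (nat_lit 2971441644400))) (P (nat_lit 0))) (P (nat_lit 0)))))))) (P (nat_lit 0))))) (T.h (T.h (P (nat_lit 0)) (T.h (T.h (T.h (T.h (P (nat_lit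 0)) (T.h (P (nat_lit 4977895936)) (T.h (P (nat_lit 0)) (T.h (M (nat_lit 12304865011)) (T.h (P (nat_lit 0)) (M (nat_lit 119634687563))))))) (T.h (P (nat_lit 0)) (T.h (T.h (P (nat_lit 0)) (T.h (P (nat_lit 27591363060)) (T.h (P (nat_lit 0)) (M (nat_lit 1225090222907))))) (T.h (P (nat_lit 0)) (T.h (T.h (P (nat_lit 0)) (P (nat_lit 3451680191532))) (P (nat_lit 0))))))) (T.h (T.h (P (nat_lit 0)) (T.h (T.h (P (nat_lit 7282877664)) (T.h (P (nat_lit 0)) (T.h (P (nat_lit 2016816992460)) (T.h (P (nat_lit 0)) (P (nat_lit 1105160661324)))))) (T.h (P (nat_lit 0)) (T.h (T.h (M (nat_lit 3682604562111)) (T.h (P (nat_lit 0)) (M (nat_lit 4008301692179)))) (T.h (P (nat_lit 0)) (M (nat_lit 4387254344051))))))) (T.h (T.h (T.h (P (nat_lit 0)) (T.h (P (nat_lit 139729744004)) (T.h (P (nat_lit 0)) (M (nat_lit 3927801927983))))) (T.h (P (nat_lit 0)) (T.h (T.h (P (nat_lit 0)) (P (nat_lit 14477433154140))) (P (nat_lit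 0))))) (T.h (T.h (P (nat_lit 0)) (T.h (T.h (P (nat_lit 1712031785024)) (T.h (P (nat_lit 0)) (P (nat_lit 12631336615536)))) (T.h (P (nat_lit 0)) (P (nat_lit 2227823024076))))) (T.h (T.h (T.h (P (nat_lit 0)) (M (nat_lit 5969345678855))) (P (nat_lit 0))) (T.h (T.h (P (nat_lit 0)) (P (nat_lit 260588830380))) (P (nat_lit 0)))))))) (P (nat_lit 0)))) (T.h (T.h (T.h (T.h (P (nat_lit 0)) (T.h (T.h (M (nat_lit 2724475895)) (T.h (P (nat_lit 0)) (T.h (P (nat_lit 48569654872)) (T.h (P (nat_lit 0)) (M (nat_lit 834641743)))))) (T.h (P (nat_lit 0)) (T.h (T.h (M (nat_lit 30229560623)) (T.h (P (nat_lit 0)) (M (nat_lit 3937260548831)))) (T.h (P (nat_lit 0)) (M (nat_lit 775953033359))))))) (T.h (T.h (T.h (P (nat_lit 0)) (T.h (P (nat_lit 40230166820)) (T.h (P (nat_lit 0)) (T.h (P (nat_lit 1422170797064)) (T.h (P (nat_lit 0)) (P (nat_lit 2835604575808))))))) (T.h (P (nat_lit 0)) (T.h (T.h (P (nat_lit 0)) (T.h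 (M (nat_lit 859786972763)) (T.h (P (nat_lit 0)) (P (nat_lit 6065891929264))))) (T.h (P (nat_lit 0)) (T.h (T.h (P (nat_lit 0)) (M (nat_lit 3601316124959))) (P (nat_lit 0))))))) (T.h (T.h (P (nat_lit 0)) (T.h (T.h (M (nat_lit 364065126519)) (T.h (P (nat_lit 0)) (P (nat_lit 624241376488)))) (T.h (P (nat_lit 0)) (P (nat_lit 5429485587088))))) (T.h (T.h (T.h (P (nat_lit 0)) (T.h (M (nat_lit 801116755715)) (T.h (P (nat_lit 0)) (M (nat_lit 3495176577119))))) (T.h (P (nat_lit 0)) (T.h (T.h (P (nat_lit 0)) (M (nat_lit 6074188613679))) (P (nat_lit 0))))) (T.h (T.h (P (nat_lit 0)) (M (nat_lit 2215644848967))) (T.h (T.h (T.h (P (nat_lit 0)) (P (nat_lit 301774336224))) (P (nat_lit 0))) (P (nat_lit 0)))))))) (P (nat_lit 0))) (P (nat_lit 0)))))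
def en11_4 : T ℤ := (T.h (T.h (P (nat_lit 0)) (T.h (P (nat_lit 0)) (T.h (T.h (T.h (P (nat_lit 0)) (T.h (T.h (P (nat_lit 0)) (T.h (M (nat_lit 1901576551)) (T.h (P (nat_lit 0)) (T.h (M (nat_lit 102341928439)) (T.h (P (nat_lit 0)) (M (nat_lit 1071007420999))))))) (T.h (P (nat_lit 0)) (T.h (T.h (P (nat_lit 0)) (T.h (P (nat_lit 126725935800)) (T.h (P (nat_lit 0)) (P (nat_lit 335500948736))))) (T.h (P (nat_lit 0)) (T.h (T.h (P (nat_lit 0)) (M (nat_lit 621236994743))) (P (nat_lit 0)))))))) (T.h (T.h (T.h (M (nat_lit 2562926339)) (T.h (P (nat_lit 0)) (T.h (M (nat_lit 47862301295)) (T.h (P (nat_lit 0)) (P (nat_lit 904163538180)))))) (T.h (P (nat_lit 0)) (T.h (T.h (P (nat_lit 165021047620)) (T.h (P (nat_lit 0)) (P (nat_lit 2952355797400)))) (T.h (P (nat_lit 0)) (P (nat_lit 2680432670412)))))) (T.h (T.h (P (nat_lit 0)) (T.h (T.h (P (nat_lit 0)) (T.h (M (nat_lit 2332645721699)) (T.h (P (nat_lit 0))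 (P (nat_lit 1467162437180))))) (T.h (P (nat_lit 0)) (T.h (T.h (P (nat_lit 0)) (M (nat_lit 1570425662763))) (P (nat_lit 0)))))) (T.h (T.h (T.h (P (nat_lit 8342750452)) (T.h (P (nat_lit 0)) (M (nat_lit 3272443877455)))) (T.h (P (nat_lit 0)) (P (nat_lit 1230142323696)))) (T.h (T.h (P (nat_lit 0)) (T.h (T.h (P (nat_lit 0)) (M (nat_lit 2043762143907))) (P (nat_lit 0)))) (M (nat_lit 122331113619))))))) (P (nat_lit 0))))) (T.h (T.h (P (nat_lit 0)) (T.h (T.h (T.h (T.h (P (nat_lit 17767536)) (T.h (P (nat_lit 0)) (T.h (P (nat_lit 2985746584)) (T.h (P (nat_lit 0)) (T.h (M (nat_lit 229744300267)) (T.h (P (nat_lit 0)) (M (nat_lit 1276461149471)))))))) (T.h (P (nat_lit 0)) (T.h (T.h (M (nat_lit 6560605275)) (T.h (P (nat_lit 0)) (T.h (P (nat_lit 1528655759400)) (T.h (P (nat_lit 0)) (P (nat_lit 2937772169264)))))) (T.h (P (nat_lit 0)) (T.h (T.h (M (nat_lit 93208596119)) (T.h (P (nat_lit 0)) (M (nat_lit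 4871228209767)))) (T.h (P (nat_lit 0)) (P (nat_lit 730695245112)))))))) (T.h (T.h (P (nat_lit 0)) (T.h (T.h (P (nat_lit 0)) (T.h (P (nat_lit 374332090544)) (T.h (P (nat_lit 0)) (P (nat_lit 2462466077472))))) (T.h (P (nat_lit 0)) (T.h (T.h (P (nat_lit 0)) (P (nat_lit 5940551982456))) (P (nat_lit 0)))))) (T.h (T.h (T.h (M (nat_lit 10325877239)) (T.h (P (nat_lit 0)) (T.h (P (nat_lit 871492710340)) (T.h (P (nat_lit 0)) (M (nat_lit 4791750707727)))))) (T.h (P (nat_lit 0)) (T.h (T.h (M (nat_lit 2527359757419)) (T.h (P (nat_lit 0)) (M (nat_lit 2248193763287)))) (T.h (P (nat_lit 0)) (P (nat_lit 1262953935096)))))) (T.h (T.h (P (nat_lit 0)) (T.h (T.h (P (nat_lit 0)) (M (nat_lit 4450515706623))) (P (nat_lit 0)))) (T.h (T.h (T.h (P (nat_lit 390991969764)) (T.h (P (nat_lit 0)) (P (nat_lit 4245065071176)))) (T.h (P (nat_lit 0)) (M (nat_lit 6628199027911)))) (T.h (P (nat_lit 0)) (M (nat_lit 696189648511))))))))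 (P (nat_lit 0)))) (T.h (T.h (T.h (T.h (P (nat_lit 0)) (T.h (T.h (P (nat_lit 0)) (T.h (M (nat_lit 17725979571)) (T.h (P (nat_lit 0)) (T.h (M (nat_lit 839851185615)) (T.h (P (nat_lit 0)) (M (nat_lit 1946249404595))))))) (T.h (P (nat_lit 0)) (T.h (T.h (P (nat_lit 0)) (T.h (P (nat_lit 918865788992)) (T.h (P (nat_lit 0)) (P (nat_lit 965251674120))))) (T.h (P (nat_lit 0)) (T.h (T.h (P (nat_lit 0)) (P (nat_lit 3128831162124))) (P (nat_lit 0)))))))) (T.h (T.h (T.h (P (nat_lit 2706422404)) (T.h (P (nat_lit 0)) (T.h (M (nat_lit 77816791691)) (T.h (P (nat_lit 0)) (M (nat_lit 416604811355)))))) (T.h (P (nat_lit 0)) (T.h (T.h (P (nat_lit 90811539156)) (T.h (P (nat_lit 0)) (M (nat_lit 5842232218811)))) (T.h (P (nat_lit 0)) (P (nat_lit 3469578656928)))))) (T.h (T.h (P (nat_lit 0)) (T.h (T.h (P (nat_lit 0)) (T.h (M (nat_lit 773380414855)) (T.h (P (nat_lit 0)) (P (nat_lit 90562305012))))) (T.h (P (nat_lit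 0)) (T.h (T.h (P (nat_lit 0)) (P (nat_lit 119032590900))) (P (nat_lit 0)))))) (T.h (T.h (T.h (M (nat_lit 92105637251)) (T.h (P (nat_lit 0)) (P (nat_lit 2411933774720)))) (T.h (P (nat_lit 0)) (P (nat_lit 1467999939780)))) (T.h (T.h (P (nat_lit 0)) (T.h (T.h (P (nat_lit 0)) (P (nat_lit 8795897423736))) (P (nat_lit 0)))) (M (nat_lit 101285592467))))))) (P (nat_lit 0))) (P (nat_lit 0)))))
def en11_5 : T ℤ := (T.h (T.h (T.h (P (nat_lit 0)) (T.h (T.h (T.h (T.h (P (nat_lit 0)) (T.h (P (nat_lit 1914559412)) (T.h (P (nat_lit 0)) (T.h (P (nat_lit 20532824952)) (T.h (P (nat_lit 0)) (P (nat_lit 596874272424))))))) (T.h (P (nat_lit 0)) (T.h (T.h (P (nat_lit 0)) (T.h (M (nat_lit 136355726263)) (T.h (P (nat_lit 0)) (M (nat_lit 401056572079))))) (T.h (P (nat_lit 0)) (T.h (T.h (P (nat_lit 0)) (M (nat_lit 1255962512719))) (P (nat_lit 0))))))) (T.h (T.h (P (nat_lit 0)) (T.h (T.h (M (nat_lit 5058828211))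 (T.h (P (nat_lit 0)) (T.h (P (nat_lit 278458273076)) (T.h (P (nat_lit 0)) (M (nat_lit 1061143120939)))))) (T.h (P (nat_lit 0)) (T.h (T.h (M (nat_lit 1003490487779)) (T.h (P (nat_lit 0)) (M (nat_lit 2070706001439)))) (T.h (P (nat_lit 0)) (M (nat_lit 789304516019))))))) (T.h (T.h (T.h (P (nat_lit 0)) (T.h (P (nat_lit 112237152304)) (T.h (P (nat_lit 0)) (P (nat_lit 314521079852))))) (T.h (P (nat_lit 0)) (T.h (T.h (P (nat_lit 0)) (P (nat_lit 3140072913200))) (P (nat_lit 0))))) (T.h (T.h (P (nat_lit 0)) (T.h (T.h (M (nat_lit 1092423114315)) (T.h (P (nat_lit 0)) (P (nat_lit 1672607578800)))) (T.h (P (nat_lit 0)) (M (nat_lit 963821258651))))) (T.h (T.h (T.h (P (nat_lit 0)) (M (nat_lit 1727202813027))) (P (nat_lit 0))) (T.h (T.h (P (nat_lit 0)) (M (nat_lit 695849514263))) (P (nat_lit 0)))))))) (P (nat_lit 0)))) (T.h (T.h (T.h (T.h (P (nat_lit 0)) (T.h (T.h (M (nat_lit 731616911)) (T.h (P (nat_lit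 0)) (T.h (M (nat_lit 13118601623)) (T.h (P (nat_lit 0)) (P (nat_lit 244278275456)))))) (T.h (P (nat_lit 0)) (T.h (T.h (P (nat_lit 48005194936)) (T.h (P (nat_lit 0)) (P (nat_lit 17844772248)))) (T.h (P (nat_lit 0)) (M (nat_lit 264613445567))))))) (T.h (T.h (T.h (P (nat_lit 0)) (T.h (M (nat_lit 6665919195)) (T.h (P (nat_lit 0)) (T.h (M (nat_lit 556754826671)) (T.h (P (nat_lit 0)) (M (nat_lit 66353887663))))))) (T.h (P (nat_lit 0)) (T.h (T.h (P (nat_lit 0)) (T.h (P (nat_lit 948220340996)) (T.h (P (nat_lit 0)) (P (nat_lit 2418374430848))))) (T.h (P (nat_lit 0)) (T.h (T.h (P (nat_lit 0)) (P (nat_lit 2519014912824))) (P (nat_lit 0))))))) (T.h (T.h (P (nat_lit 0)) (T.h (T.h (P (nat_lit 185705694408)) (T.h (P (nat_lit 0)) (P (nat_lit 1116003923520)))) (T.h (P (nat_lit 0)) (P (nat_lit 315524932824))))) (T.h (T.h (T.h (P (nat_lit 0)) (T.h (P (nat_lit 60664341172)) (T.h (P (nat_lit 0)) (M (nat_lit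 882667350167))))) (T.h (P (nat_lit 0)) (T.h (T.h (P (nat_lit 0)) (M (nat_lit 1241658608767))) (P (nat_lit 0))))) (T.h (T.h (P (nat_lit 0)) (M (nat_lit 1598027747063))) (T.h (T.h (T.h (P (nat_lit 0)) (P (nat_lit 1275097469688))) (P (nat_lit 0))) (P (nat_lit 0)))))))) (P (nat_lit 0))) (P (nat_lit 0)))) (T.h (T.h (T.h (T.h (T.h (P (nat_lit 0)) (T.h (T.h (P (nat_lit 0)) (T.h (M (nat_lit 997363507)) (T.h (P (nat_lit 0)) (T.h (P (nat_lit 134541867556)) (T.h (P (nat_lit 0)) (P (nat_lit 178146078556))))))) (T.h (P (nat_lit 0)) (T.h (T.h (P (nat_lit 0)) (T.h (P (nat_lit 112651460972)) (T.h (P (nat_lit 0)) (M (nat_lit 371871542523))))) (T.h (P (nat_lit 0)) (T.h (T.h (P (nat_lit 0)) (P (nat_lit 327556730956))) (P (nat_lit 0)))))))) (T.h (T.h (T.h (P (nat_lit 1377683792)) (T.h (P (nat_lit 0)) (T.h (P (nat_lit 26330786316)) (T.h (P (nat_lit 0)) (P (nat_lit 598718943668)))))) (T.h (P (nat_lit 0)) (T.h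 (T.h (P (nat_lit 9920603296)) (T.h (P (nat_lit 0)) (P (nat_lit 372240411664)))) (T.h (P (nat_lit 0)) (P (nat_lit 820304581636)))))) (T.h (T.h (P (nat_lit 0)) (T.h (T.h (P (nat_lit 0)) (T.h (P (nat_lit 61422508396)) (T.h (P (nat_lit 0)) (M (nat_lit 2312945573651))))) (T.h (P (nat_lit 0)) (T.h (T.h (P (nat_lit 0)) (P (nat_lit 1497450940600))) (P (nat_lit 0)))))) (T.h (T.h (T.h (P (nat_lit 25113617272)) (T.h (P (nat_lit 0)) (P (nat_lit 229416143264)))) (T.h (P (nat_lit 0)) (P (nat_lit 536950547008)))) (T.h (T.h (P (nat_lit 0)) (T.h (T.h (P (nat_lit 0)) (P (nat_lit 1175394545104))) (P (nat_lit 0)))) (M (nat_lit 102510111239))))))) (P (nat_lit 0))) (P (nat_lit 0))) (P (nat_lit 0))))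
def en11_6 : T ℤ := (T.h (T.h (T.h (P (nat_lit 0)) (T.h (P (nat_lit 0)) (T.h (P (nat_lit 0)) (T.h (P (nat_lit 0)) (T.h (T.h (T.h (P (nat_lit 0)) (T.h (T.h (P (nat_lit 0)) (T.h (M (nat_lit 5058828211)) (T.h (P (nat_lit 0)) (T.h (M (nat_lit 1092423114315)) (T.h (P (nat_lit 0)) (M (nat_lit 695849514263))))))) (T.h (P (nat_lit 0)) (T.h (T.h (P (nat_lit 0)) (T.h (M (nat_lit 1003490487779)) (T.h (P (nat_lit 0)) (M (nat_lit 963821258651))))) (T.h (P (nat_lit 0)) (T.h (T.h (P (nat_lit 0)) (M (nat_lit 789304516019))) (P (nat_lit 0)))))))) (T.h (T.h (T.h (P (nat_lit 1914559412)) (T.h (P (nat_lit 0)) (T.h (P (nat_lit 112237152304)) (T.h (P (nat_lit 0)) (M (nat_lit 1727202813027)))))) (T.h (P (nat_lit 0)) (T.h (T.h (M (nat_lit 136355726263)) (T.h (P (nat_lit 0)) (P (nat_lit 3140072913200)))) (T.h (P (nat_lit 0)) (M (nat_lit 1255962512719)))))) (T.h (T.h (P (nat_lit 0)) (T.h (T.h (P (nat_lit 0)) (T.h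 (P (nat_lit 278458273076)) (T.h (P (nat_lit 0)) (P (nat_lit 1672607578800))))) (T.h (P (nat_lit 0)) (T.h (T.h (P (nat_lit 0)) (M (nat_lit 2070706001439))) (P (nat_lit 0)))))) (T.h (T.h (T.h (P (nat_lit 20532824952)) (T.h (P (nat_lit 0)) (P (nat_lit 314521079852)))) (T.h (P (nat_lit 0)) (M (nat_lit 401056572079)))) (T.h (T.h (P (nat_lit 0)) (T.h (T.h (P (nat_lit 0)) (M (nat_lit 1061143120939))) (P (nat_lit 0)))) (P (nat_lit 596874272424))))))) (P (nat_lit 0))))))) (T.h (T.h (P (nat_lit 0)) (T.h (P (nat_lit 0)) (T.h (P (nat_lit 0)) (T.h (T.h (T.h (T.h (P (nat_lit 17767536)) (T.h (P (nat_lit 0)) (T.h (M (nat_lit 10325877239)) (T.h (P (nat_lit 0)) (T.h (P (nat_lit 390991969764)) (T.h (P (nat_lit 0)) (M (nat_lit 696189648511)))))))) (T.h (P (nat_lit 0)) (T.h (T.h (M (nat_lit 6560605275)) (T.h (P (nat_lit 0)) (T.h (M (nat_lit 2527359757419)) (T.h (P (nat_lit 0)) (M (nat_lit 6628199027911))))))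 (T.h (P (nat_lit 0)) (T.h (T.h (M (nat_lit 93208596119)) (T.h (P (nat_lit 0)) (P (nat_lit 1262953935096)))) (T.h (P (nat_lit 0)) (P (nat_lit 730695245112)))))))) (T.h (T.h (P (nat_lit 0)) (T.h (T.h (P (nat_lit 0)) (T.h (P (nat_lit 374332090544)) (T.h (P (nat_lit 0)) (M (nat_lit 4450515706623))))) (T.h (P (nat_lit 0)) (T.h (T.h (P (nat_lit 0)) (P (nat_lit 5940551982456))) (P (nat_lit 0)))))) (T.h (T.h (T.h (P (nat_lit 2985746584)) (T.h (P (nat_lit 0)) (T.h (P (nat_lit 871492710340)) (T.h (P (nat_lit 0)) (P (nat_lit 4245065071176)))))) (T.h (P (nat_lit 0)) (T.h (T.h (P (nat_lit 1528655759400)) (T.h (P (nat_lit 0)) (M (nat_lit 2248193763287)))) (T.h (P (nat_lit 0)) (M (nat_lit 4871228209767)))))) (T.h (T.h (P (nat_lit 0)) (T.h (T.h (P (nat_lit 0)) (P (nat_lit 2462466077472))) (P (nat_lit 0)))) (T.h (T.h (T.h (M (nat_lit 229744300267)) (T.h (P (nat_lit 0)) (M (nat_lit 4791750707727)))) (T.h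 (P (nat_lit 0)) (P (nat_lit 2937772169264)))) (T.h (P (nat_lit 0)) (M (nat_lit 1276461149471)))))))) (P (nat_lit 0)))))) en11_2)) (T.h (T.h (T.h (P (nat_lit 0)) (T.h (P (nat_lit 0)) (T.h (P (nat_lit 0)) (T.h (T.h (T.h (T.h (P (nat_lit 0)) (T.h (M (nat_lit 2562926339)) (T.h (P (nat_lit 0)) (T.h (P (nat_lit 8342750452)) (T.h (P (nat_lit 0)) (M (nat_lit 122331113619))))))) (T.h (P (nat_lit 0)) (T.h (T.h (P (nat_lit 0)) (T.h (P (nat_lit 165021047620)) (T.h (P (nat_lit 0)) (P (nat_lit 1230142323696))))) (T.h (P (nat_lit 0)) (T.h (T.h (P (nat_lit 0)) (P (nat_lit 2680432670412))) (P (nat_lit 0))))))) (T.h (T.h (P (nat_lit 0)) (T.h (T.h (M (nat_lit 1901576551)) (T.h (P (nat_lit 0)) (T.h (M (nat_lit 2332645721699)) (T.h (P (nat_lit 0)) (M (nat_lit 2043762143907)))))) (T.h (P (nat_lit 0)) (T.h (T.h (P (nat_lit 126725935800)) (T.h (P (nat_lit 0)) (M (nat_lit 1570425662763)))) (T.h (P (nat_lit 0))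 (M (nat_lit 621236994743))))))) (T.h (T.h (T.h (P (nat_lit 0)) (T.h (M (nat_lit 47862301295)) (T.h (P (nat_lit 0)) (M (nat_lit 3272443877455))))) (T.h (P (nat_lit 0)) (T.h (T.h (P (nat_lit 0)) (P (nat_lit 2952355797400))) (P (nat_lit 0))))) (T.h (T.h (P (nat_lit 0)) (T.h (T.h (M (nat_lit 102341928439)) (T.h (P (nat_lit 0)) (P (nat_lit 1467162437180)))) (T.h (P (nat_lit 0)) (P (nat_lit 335500948736))))) (T.h (T.h (T.h (P (nat_lit 0)) (P (nat_lit 904163538180))) (P (nat_lit 0))) (T.h (T.h (P (nat_lit 0)) (M (nat_lit 1071007420999))) (P (nat_lit 0)))))))) (P (nat_lit 0)))))) en11_3) (T.h en11_4 en11_5)))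

def n11 : T ℤ := (T.h en11_1 en11_6)

theorem h_n11 : chkT (c.Nn 1 1) n11 = true := by decide +kernel


end Pool.Agent.TOPR.R6104
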