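import Pool.Agent.TOPR.R6104.Cert

set_option autoImplicit false
set_option linter.all false
set_option maxRecDepth 100000

namespace Pool.Agent.TOPR.R6104

open Helper10.PC hiding V3
open Helper80.CW.DL Pool.Agent.Helper6.TOP

def en01_0 : T ℤ := (T.h (T.h (P (nat_lit 0)) (T.h (P (nat_lit 0)) (T.h (T.h (T.h (P (nat_lit 0)) (T.h (T.h (P (nat_lit 0)) (T.h (M (nat_lit 51454199755)) (T.h (P (nat_lit 0)) (T.h (P (nat_lit 1191083237500)) (T.h (P (nat_lit 0)) (M (nat_lit 6158002870603))))))) (T.h (P (nat_lit 0)) (T.h (T.h (P (nat_lit 0)) (T.h (M (nat_lit 309011484259)) (T.h (P (nat_lit 0)) (P (nat_lit 11257154298916))))) (T.h (P (nat_lit 0)) (T.h (T.h (P (nat_lit 0)) (M (nat_lit 11499997703435))) (P (nat_lit 0)))))))) (T.h (T.h (T.h (M (nat_lit 1901177499)) (T.h (P (nat_lit 0)) (T.h (P (nat_lit 3455279944)) (T.h (P (nat_lit 0)) (M (nat_lit 869355327451)))))) (T.h (P (nat_lit 0)) (T.h (T.h (M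 (nat_lit 181541819)) (T.h (P (nat_lit 0)) (M (nat_lit 8685133377919)))) (T.h (P (nat_lit 0)) (P (nat_lit 518567888516)))))) (T.h (T.h (P (nat_lit 0)) (T.h (T.h (P (nat_lit 0)) (T.h (P (nat_lit 4316584354772)) (T.h (P (nat_lit 0)) (M (nat_lit 9401086194847))))) (T.h (P (nat_lit 0)) (T.h (T.h (P (nat_lit 0)) (M (nat_lit 865126786731))) (P (nat_lit 0)))))) (T.h (T.h (T.h (P (nat_lit 134507241072)) (T.h (P (nat_lit 0)) (M (nat_lit 3028816349007)))) (T.h (P (nat_lit 0)) (M (nat_lit 2807381222815)))) (T.h (T.h (P (nat_lit 0)) (T.h (T.h (P (nat_lit 0)) (P (nat_lit 1931790905156))) (P (nat_lit 0)))) (P (nat_lit 1484649840536))))))) (P (nat_lit 0))))) (T.h (T.h (P (nat_lit 0)) (T.h (T.h (T.h (T.h (M (nat_lit 6385875)) (T.h (P (nat_lit 0)) (T.h (P (nat_lit 2455356136)) (T.h (P (nat_lit 0)) (T.h (M (nat_lit 246316653211)) (T.h (P (nat_lit 0)) (P (nat_lit 1825569617376)))))))) (T.h (P (nat_lit 0))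 (T.h (T.h (M (nat_lit 34913370115)) (T.h (P (nat_lit 0)) (T.h (P (nat_lit 2396487214600)) (T.h (P (nat_lit 0)) (M (nat_lit 8392393663499)))))) (T.h (P (nat_lit 0)) (T.h (T.h (P (nat_lit 228770421696)) (T.h (P (nat_lit 0)) (M (nat_lit 6755211750239)))) (T.h (P (nat_lit 0)) (M (nat_lit 3338644556639)))))))) (T.h (T.h (P (nat_lit 0)) (T.h (T.h (P (nat_lit 0)) (T.h (M (nat_lit 205749664703)) (T.h (P (nat_lit 0)) (M (nat_lit 3661693468495))))) (T.h (P (nat_lit 0)) (T.h (T.h (P (nat_lit 0)) (M (nat_lit 5165720249899))) (P (nat_lit 0)))))) (T.h (T.h (T.h (M (nat_lit 1151418791)) (T.h (P (nat_lit 0)) (T.h (M (nat_lit 1251977697367)) (T.h (P (nat_lit 0)) (M (nat_lit 1866493542839)))))) (T.h (P (nat_lit 0)) (T.h (T.h (P (nat_lit 127264631592)) (T.h (P (nat_lit 0)) (M (nat_lit 15129541129431)))) (T.h (P (nat_lit 0)) (M (nat_lit 4646926987539)))))) (T.h (T.h (P (nat_lit 0)) (T.h (T.h (P (nat_lit 0))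 (M (nat_lit 5447713920819))) (P (nat_lit 0)))) (T.h (T.h (T.h (M (nat_lit 320256838851)) (T.h (P (nat_lit 0)) (P (nat_lit 3885640822560)))) (T.h (P (nat_lit 0)) (P (nat_lit 1659616630660)))) (T.h (P (nat_lit 0)) (M (nat_lit 269821471463)))))))) (P (nat_lit 0)))) (T.h (T.h (T.h (T.h (P (nat_lit 0)) (T.h (T.h (P (nat_lit 0)) (T.h (P (nat_lit 11322550952)) (T.h (P (nat_lit 0)) (T.h (P (nat_lit 65848958156)) (T.h (P (nat_lit 0)) (M (nat_lit 3283343024003))))))) (T.h (P (nat_lit 0)) (T.h (T.h (P (nat_lit 0)) (T.h (P (nat_lit 1021770989296)) (T.h (P (nat_lit 0)) (M (nat_lit 7824199347671))))) (T.h (P (nat_lit 0)) (T.h (T.h (P (nat_lit 0)) (P (nat_lit 357934677380))) (P (nat_lit 0)))))))) (T.h (T.h (T.h (M (nat_lit 1969967999)) (T.h (P (nat_lit 0)) (T.h (P (nat_lit 138053815632)) (T.h (P (nat_lit 0)) (P (nat_lit 299517598172)))))) (T.h (P (nat_lit 0)) (T.h (T.h (P (nat_lit 46852408444)) (T.h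 (P (nat_lit 0)) (M (nat_lit 3329736608727)))) (T.h (P (nat_lit 0)) (M (nat_lit 299412548063)))))) (T.h (T.h (P (nat_lit 0)) (T.h (T.h (P (nat_lit 0)) (T.h (M (nat_lit 140252241263)) (T.h (P (nat_lit 0)) (M (nat_lit 6295517711419))))) (T.h (P (nat_lit 0)) (T.h (T.h (P (nat_lit 0)) (M (nat_lit 1596408926687))) (P (nat_lit 0)))))) (T.h (T.h (T.h (P (nat_lit 10045583152)) (T.h (P (nat_lit 0)) (M (nat_lit 422808681355)))) (T.h (P (nat_lit 0)) (P (nat_lit 118233930460)))) (T.h (T.h (P (nat_lit 0)) (T.h (T.h (P (nat_lit 0)) (P (nat_lit 3233406553072))) (P (nat_lit 0)))) (M (nat_lit 168094005067))))))) (P (nat_lit 0))) (P (nat_lit 0)))))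
def en01_1 : T ℤ := (T.h (T.h (P (nat_lit 0)) (T.h (P (nat_lit 0)) (T.h (P (nat_lit 0)) (T.h (P (nat_lit 0)) (T.h (P (nat_lit 0)) (T.h (T.h (T.h (T.h (P (nat_lit 105337224)) (T.h (P (nat_lit 0)) (T.h (M (nat_lit 1381430263)) (T.h (P (nat_lit 0)) (T.h (P (nat_lit 145299311496)) (T.h (P (nat_lit 0)) (M (nat_lit 1474411352559)))))))) (T.h (P (nat_lit 0)) (T.h (T.h (M (nat_lit 1078272039)) (T.h (P (nat_lit 0)) (T.h (P (nat_lit 125185264752)) (T.h (P (nat_lit 0)) (M (nat_lit 2756666412171)))))) (T.h (P (nat_lit 0)) (T.h (T.h (P (nat_lit 3569455028)) (T.h (P (nat_lit 0)) (M (nat_lit 2051347278391)))) (T.h (P (nat_lit 0)) (P (nat_lit 210208803648)))))))) (T.h (T.h (P (nat_lit 0)) (T.h (T.h (P (nat_lit 0)) (T.h (M (nat_lit 129739167)) (T.h (P (nat_lit 0)) (P (nat_lit 33619834872))))) (T.h (P (nat_lit 0)) (T.h (T.h (P (nat_lit 0)) (M (nat_lit 31994821291))) (P (nat_lit 0)))))) (T.h (T.h (T.h (M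 (nat_lit 1078272039)) (T.h (P (nat_lit 0)) (T.h (P (nat_lit 125185264752)) (T.h (P (nat_lit 0)) (M (nat_lit 2756666412171)))))) (T.h (P (nat_lit 0)) (T.h (T.h (P (nat_lit 140044569008)) (T.h (P (nat_lit 0)) (M (nat_lit 6501701394319)))) (T.h (P (nat_lit 0)) (M (nat_lit 16203797535)))))) (T.h (T.h (P (nat_lit 0)) (T.h (T.h (P (nat_lit 0)) (M (nat_lit 31994821291))) (P (nat_lit 0)))) (T.h (T.h (T.h (P (nat_lit 3569455028)) (T.h (P (nat_lit 0)) (M (nat_lit 2051347278391)))) (T.h (P (nat_lit 0)) (M (nat_lit 16203797535)))) (T.h (P (nat_lit 0)) (P (nat_lit 210208803648)))))))) (P (nat_lit 0)))))))) (T.h (T.h (P (nat_lit 0)) (T.h (P (nat_lit 0)) (T.h (P (nat_lit 0)) (T.h (P (nat_lit 0)) (T.h (T.h (T.h (P (nat_lit 0)) (T.h (T.h (P (nat_lit 0)) (T.h (P (nat_lit 18193164720)) (T.h (P (nat_lit 0)) (T.h (P (nat_lit 879924035088)) (T.h (P (nat_lit 0)) (M (nat_lit 5714639308639))))))) (T.h (P (nat_lit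 0)) (T.h (T.h (P (nat_lit 0)) (T.h (P (nat_lit 306550328696)) (T.h (P (nat_lit 0)) (P (nat_lit 4293452053460))))) (T.h (P (nat_lit 0)) (T.h (T.h (P (nat_lit 0)) (M (nat_lit 3911737423051))) (P (nat_lit 0)))))))) (T.h (T.h (T.h (M (nat_lit 1039319851)) (T.h (P (nat_lit 0)) (T.h (M (nat_lit 53159157087)) (T.h (P (nat_lit 0)) (P (nat_lit 77500479292)))))) (T.h (P (nat_lit 0)) (T.h (T.h (M (nat_lit 2955651263)) (T.h (P (nat_lit 0)) (P (nat_lit 1934107204908)))) (T.h (P (nat_lit 0)) (P (nat_lit 863130565696)))))) (T.h (T.h (P (nat_lit 0)) (T.h (T.h (P (nat_lit 0)) (T.h (M (nat_lit 58034614603)) (T.h (P (nat_lit 0)) (P (nat_lit 1908094467464))))) (T.h (P (nat_lit 0)) (T.h (T.h (P (nat_lit 0)) (M (nat_lit 8876471868119))) (P (nat_lit 0)))))) (T.h (T.h (T.h (M (nat_lit 12323236295)) (T.h (P (nat_lit 0)) (P (nat_lit 736894992824)))) (T.h (P (nat_lit 0)) (M (nat_lit 1629127773815)))) (T.h (T.h (P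 (nat_lit 0)) (T.h (T.h (P (nat_lit 0)) (M (nat_lit 279441111915))) (P (nat_lit 0)))) (M (nat_lit 404757172671))))))) (P (nat_lit 0))))))) (T.h (T.h (P (nat_lit 0)) (T.h (P (nat_lit 0)) (T.h (P (nat_lit 0)) (T.h (T.h (T.h (T.h (M (nat_lit 129664575)) (T.h (P (nat_lit 0)) (T.h (M (nat_lit 18455332459)) (T.h (P (nat_lit 0)) (T.h (M (nat_lit 103817631339)) (T.h (P (nat_lit 0)) (P (nat_lit 715457217524)))))))) (T.h (P (nat_lit 0)) (T.h (T.h (P (nat_lit 25618251452)) (T.h (P (nat_lit 0)) (T.h (P (nat_lit 587085720156)) (T.h (P (nat_lit 0)) (P (nat_lit 1423102150040)))))) (T.h (P (nat_lit 0)) (T.h (T.h (M (nat_lit 391221605491)) (T.h (P (nat_lit 0)) (P (nat_lit 5368678631544)))) (T.h (P (nat_lit 0)) (P (nat_lit 1428899664336)))))))) (T.h (T.h (P (nat_lit 0)) (T.h (T.h (P (nat_lit 0)) (T.h (M (nat_lit 188599628327)) (T.h (P (nat_lit 0)) (M (nat_lit 4229967171791))))) (T.h (P (nat_lit 0)) (T.h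 (T.h (P (nat_lit 0)) (P (nat_lit 459562238884))) (P (nat_lit 0)))))) (T.h (T.h (T.h (M (nat_lit 490261147)) (T.h (P (nat_lit 0)) (T.h (P (nat_lit 792904689948)) (T.h (P (nat_lit 0)) (P (nat_lit 4885218163920)))))) (T.h (P (nat_lit 0)) (T.h (T.h (M (nat_lit 218856525263)) (T.h (P (nat_lit 0)) (M (nat_lit 4236931592411)))) (T.h (P (nat_lit 0)) (P (nat_lit 327071523448)))))) (T.h (T.h (P (nat_lit 0)) (T.h (T.h (P (nat_lit 0)) (M (nat_lit 2972141571259))) (P (nat_lit 0)))) (T.h (T.h (T.h (M (nat_lit 121725682223)) (T.h (P (nat_lit 0)) (M (nat_lit 299815657111)))) (T.h (P (nat_lit 0)) (P (nat_lit 3564945781384)))) (T.h (P (nat_lit 0)) (M (nat_lit 455604035711)))))))) (P (nat_lit 0)))))) en01_0)))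
def en01_2 : T ℤ := (T.h (T.h (P (nat_lit 0)) (T.h (P (nat_lit 0)) (T.h (T.h (T.h (P (nat_lit 0)) (T.h (T.h (M (nat_lit 239258703)) (T.h (P (nat_lit 0)) (T.h (P (nat_lit 399724408852)) (T.h (P (nat_lit 0)) (M (nat_lit 6086004788711)))))) (T.h (P (nat_lit 0)) (T.h (T.h (P (nat_lit 73940482092)) (T.h (P (nat_lit 0)) (M (nat_lit 3431060171147)))) (T.h (P (nat_lit 0)) (P (nat_lit 2147788824052))))))) (T.h (T.h (T.h (P (nat_lit 0)) (T.h (M (nat_lit 26846468087)) (T.h (P (nat_lit 0)) (T.h (M (nat_lit 150384238519)) (T.h (P (nat_lit 0)) (M (nat_lit 241580618599))))))) (T.h (P (nat_lit 0)) (T.h (T.h (P (nat_lit 0)) (T.h (P (nat_lit 2666016775676)) (T.h (P (nat_lit 0)) (M (nat_lit 1276950094371))))) (T.h (P (nat_lit 0)) (T.h (T.h (P (nat_lit 0)) (M (nat_lit 6867264092971))) (P (nat_lit 0))))))) (T.h (T.h (P (nat_lit 0)) (T.h (T.h (M (nat_lit 275946373151)) (T.h (P (nat_lit 0)) (M (nat_lit 9524095623975))))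 (T.h (P (nat_lit 0)) (M (nat_lit 120382168371))))) (T.h (T.h (T.h (P (nat_lit 0)) (T.h (P (nat_lit 72517670336)) (T.h (P (nat_lit 0)) (M (nat_lit 481787732959))))) (T.h (P (nat_lit 0)) (T.h (T.h (P (nat_lit 0)) (M (nat_lit 10389714394203))) (P (nat_lit 0))))) (T.h (T.h (P (nat_lit 0)) (P (nat_lit 82770946104))) (T.h (T.h (T.h (P (nat_lit 0)) (P (nat_lit 1107730660168))) (P (nat_lit 0))) (P (nat_lit 0)))))))) (P (nat_lit 0))))) (T.h (T.h (P (nat_lit 0)) (T.h (T.h (T.h (T.h (P (nat_lit 0)) (T.h (P (nat_lit 7289058392)) (T.h (P (nat_lit 0)) (T.h (P (nat_lit 103652139172)) (T.h (P (nat_lit 0)) (P (nat_lit 748557279620))))))) (T.h (P (nat_lit 0)) (T.h (T.h (P (nat_lit 0)) (T.h (M (nat_lit 4482894375)) (T.h (P (nat_lit 0)) (M (nat_lit 2755625004575))))) (T.h (P (nat_lit 0)) (T.h (T.h (P (nat_lit 0)) (P (nat_lit 4844483517372))) (P (nat_lit 0))))))) (T.h (T.h (P (nat_lit 0)) (T.h (T.h (M (nat_lit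 36636219391)) (T.h (P (nat_lit 0)) (T.h (P (nat_lit 1940442684512)) (T.h (P (nat_lit 0)) (M (nat_lit 3507798709543)))))) (T.h (P (nat_lit 0)) (T.h (T.h (P (nat_lit 1027356327816)) (T.h (P (nat_lit 0)) (P (nat_lit 4018229187080)))) (T.h (P (nat_lit 0)) (M (nat_lit 5708234286423))))))) (T.h (T.h (T.h (P (nat_lit 0)) (T.h (P (nat_lit 198306902552)) (T.h (P (nat_lit 0)) (P (nat_lit 2018820035428))))) (T.h (P (nat_lit 0)) (T.h (T.h (P (nat_lit 0)) (M (nat_lit 7302981105463))) (P (nat_lit 0))))) (T.h (T.h (P (nat_lit 0)) (T.h (T.h (P (nat_lit 1017895233144)) (T.h (P (nat_lit 0)) (P (nat_lit 138067071264)))) (T.h (P (nat_lit 0)) (M (nat_lit 2370069685223))))) (T.h (T.h (T.h (P (nat_lit 0)) (M (nat_lit 1046020788139))) (P (nat_lit 0))) (T.h (T.h (P (nat_lit 0)) (M (nat_lit 2983492177159))) (P (nat_lit 0)))))))) (P (nat_lit 0)))) (T.h (T.h (T.h (T.h (P (nat_lit 0)) (T.h (T.h (M (nat_lit 854454323))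 (T.h (P (nat_lit 0)) (T.h (M (nat_lit 216596695851)) (T.h (P (nat_lit 0)) (P (nat_lit 1565692475048)))))) (T.h (P (nat_lit 0)) (T.h (T.h (P (nat_lit 41318479800)) (T.h (P (nat_lit 0)) (P (nat_lit 3181043159252)))) (T.h (P (nat_lit 0)) (M (nat_lit 1041505512455))))))) (T.h (T.h (T.h (P (nat_lit 0)) (T.h (M (nat_lit 12252360575)) (T.h (P (nat_lit 0)) (T.h (M (nat_lit 748541910835)) (T.h (P (nat_lit 0)) (P (nat_lit 2308532680684))))))) (T.h (P (nat_lit 0)) (T.h (T.h (P (nat_lit 0)) (T.h (P (nat_lit 680175785600)) (T.h (P (nat_lit 0)) (M (nat_lit 8531781903627))))) (T.h (P (nat_lit 0)) (T.h (T.h (P (nat_lit 0)) (P (nat_lit 4076314663040))) (P (nat_lit 0))))))) (T.h (T.h (P (nat_lit 0)) (T.h (T.h (P (nat_lit 132910655908)) (T.h (P (nat_lit 0)) (P (nat_lit 2044536376880)))) (T.h (P (nat_lit 0)) (M (nat_lit 598854155275))))) (T.h (T.h (T.h (P (nat_lit 0)) (T.h (P (nat_lit 324381671208)) (T.h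 (P (nat_lit 0)) (M (nat_lit 3606946001179))))) (T.h (P (nat_lit 0)) (T.h (T.h (P (nat_lit 0)) (P (nat_lit 4450160396160))) (P (nat_lit 0))))) (T.h (T.h (P (nat_lit 0)) (M (nat_lit 2424928052059))) (T.h (T.h (T.h (P (nat_lit 0)) (P (nat_lit 1788670822892))) (P (nat_lit 0))) (P (nat_lit 0)))))))) (P (nat_lit 0))) (P (nat_lit 0)))))
def en01_3 : T ℤ := (T.h (T.h (P (nat_lit 0)) (T.h (P (nat_lit 0)) (T.h (T.h (T.h (P (nat_lit 0)) (T.h (T.h (P (nat_lit 0)) (T.h (M (nat_lit 26846468087)) (T.h (P (nat_lit 0)) (T.h (M (nat_lit 150384238519)) (T.h (P (nat_lit 0)) (M (nat_lit 241580618599))))))) (T.h (P (nat_lit 0)) (T.h (T.h (P (nat_lit 0)) (T.h (P (nat_lit 72517670336)) (T.h (P (nat_lit 0)) (M (nat_lit 481787732959))))) (T.h (P (nat_lit 0)) (T.h (T.h (P (nat_lit 0)) (P (nat_lit 1107730660168))) (P (nat_lit 0)))))))) (T.h (T.h (T.h (M (nat_lit 239258703)) (T.h (P (nat_lit 0)) (T.h (P (nat_lit 399724408852))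 (T.h (P (nat_lit 0)) (M (nat_lit 6086004788711)))))) (T.h (P (nat_lit 0)) (T.h (T.h (M (nat_lit 275946373151)) (T.h (P (nat_lit 0)) (M (nat_lit 9524095623975)))) (T.h (P (nat_lit 0)) (P (nat_lit 82770946104)))))) (T.h (T.h (P (nat_lit 0)) (T.h (T.h (P (nat_lit 0)) (T.h (P (nat_lit 2666016775676)) (T.h (P (nat_lit 0)) (M (nat_lit 1276950094371))))) (T.h (P (nat_lit 0)) (T.h (T.h (P (nat_lit 0)) (M (nat_lit 10389714394203))) (P (nat_lit 0)))))) (T.h (T.h (T.h (P (nat_lit 73940482092)) (T.h (P (nat_lit 0)) (M (nat_lit 3431060171147)))) (T.h (P (nat_lit 0)) (M (nat_lit 120382168371)))) (T.h (T.h (P (nat_lit 0)) (T.h (T.h (P (nat_lit 0)) (M (nat_lit 6867264092971))) (P (nat_lit 0)))) (P (nat_lit 2147788824052))))))) (P (nat_lit 0))))) (T.h (T.h (P (nat_lit 0)) (T.h (T.h (T.h (T.h (M (nat_lit 129509535)) (T.h (P (nat_lit 0)) (T.h (M (nat_lit 15786679375)) (T.h (P (nat_lit 0)) (T.h (P (nat_lit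 258678025040)) (T.h (P (nat_lit 0)) (M (nat_lit 3829383448415)))))))) (T.h (P (nat_lit 0)) (T.h (T.h (P (nat_lit 18682561032)) (T.h (P (nat_lit 0)) (T.h (M (nat_lit 1082890366895)) (T.h (P (nat_lit 0)) (M (nat_lit 2780967807695)))))) (T.h (P (nat_lit 0)) (T.h (T.h (M (nat_lit 156019746739)) (T.h (P (nat_lit 0)) (M (nat_lit 939244707887)))) (T.h (P (nat_lit 0)) (P (nat_lit 51758394900)))))))) (T.h (T.h (P (nat_lit 0)) (T.h (T.h (P (nat_lit 0)) (T.h (P (nat_lit 806042088848)) (T.h (P (nat_lit 0)) (M (nat_lit 15484631721863))))) (T.h (P (nat_lit 0)) (T.h (T.h (P (nat_lit 0)) (M (nat_lit 7204791652835))) (P (nat_lit 0)))))) (T.h (T.h (T.h (P (nat_lit 18682561032)) (T.h (P (nat_lit 0)) (T.h (M (nat_lit 1082890366895)) (T.h (P (nat_lit 0)) (M (nat_lit 2780967807695)))))) (T.h (P (nat_lit 0)) (T.h (T.h (P (nat_lit 2216232095808)) (T.h (P (nat_lit 0)) (M (nat_lit 6744581289863)))) (T.h (P (nat_lit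 0)) (M (nat_lit 8047867639223)))))) (T.h (T.h (P (nat_lit 0)) (T.h (T.h (P (nat_lit 0)) (M (nat_lit 7204791652835))) (P (nat_lit 0)))) (T.h (T.h (T.h (M (nat_lit 156019746739)) (T.h (P (nat_lit 0)) (M (nat_lit 939244707887)))) (T.h (P (nat_lit 0)) (M (nat_lit 8047867639223)))) (T.h (P (nat_lit 0)) (P (nat_lit 51758394900)))))))) (P (nat_lit 0)))) (T.h (T.h (T.h (T.h (P (nat_lit 0)) (T.h (T.h (P (nat_lit 0)) (T.h (P (nat_lit 44990767968)) (T.h (P (nat_lit 0)) (T.h (P (nat_lit 1469615061840)) (T.h (P (nat_lit 0)) (M (nat_lit 2078957179923))))))) (T.h (P (nat_lit 0)) (T.h (T.h (P (nat_lit 0)) (T.h (M (nat_lit 1629909484051)) (T.h (P (nat_lit 0)) (M (nat_lit 800083026215))))) (T.h (P (nat_lit 0)) (T.h (T.h (P (nat_lit 0)) (P (nat_lit 5679026101500))) (P (nat_lit 0)))))))) (T.h (T.h (T.h (M (nat_lit 3629849555)) (T.h (P (nat_lit 0)) (T.h (M (nat_lit 30452349659)) (T.h (P (nat_lit 0)) (M (nat_lit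 535516536147)))))) (T.h (P (nat_lit 0)) (T.h (T.h (M (nat_lit 191899718755)) (T.h (P (nat_lit 0)) (P (nat_lit 2118470733304)))) (T.h (P (nat_lit 0)) (P (nat_lit 391005789096)))))) (T.h (T.h (P (nat_lit 0)) (T.h (T.h (P (nat_lit 0)) (T.h (M (nat_lit 2883132395763)) (T.h (P (nat_lit 0)) (P (nat_lit 4927311166708))))) (T.h (P (nat_lit 0)) (T.h (T.h (P (nat_lit 0)) (M (nat_lit 2364284626635))) (P (nat_lit 0)))))) (T.h (T.h (T.h (M (nat_lit 111835958643)) (T.h (P (nat_lit 0)) (P (nat_lit 2408952354076)))) (T.h (P (nat_lit 0)) (P (nat_lit 6498331007812)))) (T.h (T.h (P (nat_lit 0)) (T.h (T.h (P (nat_lit 0)) (P (nat_lit 13833927249384))) (P (nat_lit 0)))) (M (nat_lit 662059193195))))))) (P (nat_lit 0))) (P (nat_lit 0)))))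
def en01_4 : T ℤ := (T.h (T.h (P (nat_lit 0)) (T.h (P (nat_lit 0)) (T.h (T.h (T.h (P (nat_lit 0)) (T.h (T.h (M (nat_lit 1901177499)) (T.h (P (nat_lit 0)) (T.h (P (nat_lit 3455279944)) (T.h (P (nat_lit 0)) (M (nat_lit 869355327451)))))) (T.h (P (nat_lit 0)) (T.h (T.h (P (nat_lit 134507241072)) (T.h (P (nat_lit 0)) (M (nat_lit 3028816349007)))) (T.h (P (nat_lit 0)) (P (nat_lit 1484649840536))))))) (T.h (T.h (T.h (P (nat_lit 0)) (T.h (M (nat_lit 51454199755)) (T.h (P (nat_lit 0)) (T.h (P (nat_lit 1191083237500)) (T.h (P (nat_lit 0)) (M (nat_lit 6158002870603))))))) (T.h (P (nat_lit 0)) (T.h (T.h (P (nat_lit 0)) (T.h (P (nat_lit 4316584354772)) (T.h (P (nat_lit 0)) (M (nat_lit 9401086194847))))) (T.h (P (nat_lit 0)) (T.h (T.h (P (nat_lit 0)) (P (nat_lit 1931790905156))) (P (nat_lit 0))))))) (T.h (T.h (P (nat_lit 0)) (T.h (T.h (M (nat_lit 181541819)) (T.h (P (nat_lit 0)) (M (nat_lit 8685133377919))))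 (T.h (P (nat_lit 0)) (M (nat_lit 2807381222815))))) (T.h (T.h (T.h (P (nat_lit 0)) (T.h (M (nat_lit 309011484259)) (T.h (P (nat_lit 0)) (P (nat_lit 11257154298916))))) (T.h (P (nat_lit 0)) (T.h (T.h (P (nat_lit 0)) (M (nat_lit 865126786731))) (P (nat_lit 0))))) (T.h (T.h (P (nat_lit 0)) (P (nat_lit 518567888516))) (T.h (T.h (T.h (P (nat_lit 0)) (M (nat_lit 11499997703435))) (P (nat_lit 0))) (P (nat_lit 0)))))))) (P (nat_lit 0))))) (T.h (T.h (P (nat_lit 0)) (T.h (T.h (T.h (T.h (P (nat_lit 0)) (T.h (P (nat_lit 7289058392)) (T.h (P (nat_lit 0)) (T.h (P (nat_lit 103652139172)) (T.h (P (nat_lit 0)) (P (nat_lit 748557279620))))))) (T.h (P (nat_lit 0)) (T.h (T.h (P (nat_lit 0)) (T.h (P (nat_lit 198306902552)) (T.h (P (nat_lit 0)) (P (nat_lit 2018820035428))))) (T.h (P (nat_lit 0)) (T.h (T.h (P (nat_lit 0)) (M (nat_lit 1046020788139))) (P (nat_lit 0))))))) (T.h (T.h (P (nat_lit 0)) (T.h (T.h (M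 (nat_lit 36636219391)) (T.h (P (nat_lit 0)) (T.h (P (nat_lit 1940442684512)) (T.h (P (nat_lit 0)) (M (nat_lit 3507798709543)))))) (T.h (P (nat_lit 0)) (T.h (T.h (P (nat_lit 1017895233144)) (T.h (P (nat_lit 0)) (P (nat_lit 138067071264)))) (T.h (P (nat_lit 0)) (M (nat_lit 2983492177159))))))) (T.h (T.h (T.h (P (nat_lit 0)) (T.h (M (nat_lit 4482894375)) (T.h (P (nat_lit 0)) (M (nat_lit 2755625004575))))) (T.h (P (nat_lit 0)) (T.h (T.h (P (nat_lit 0)) (M (nat_lit 7302981105463))) (P (nat_lit 0))))) (T.h (T.h (P (nat_lit 0)) (T.h (T.h (P (nat_lit 1027356327816)) (T.h (P (nat_lit 0)) (P (nat_lit 4018229187080)))) (T.h (P (nat_lit 0)) (M (nat_lit 2370069685223))))) (T.h (T.h (T.h (P (nat_lit 0)) (P (nat_lit 4844483517372))) (P (nat_lit 0))) (T.h (T.h (P (nat_lit 0)) (M (nat_lit 5708234286423))) (P (nat_lit 0)))))))) (P (nat_lit 0)))) (T.h (T.h (T.h (T.h (P (nat_lit 0)) (T.h (T.h (M (nat_lit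 3629849555)) (T.h (P (nat_lit 0)) (T.h (M (nat_lit 30452349659)) (T.h (P (nat_lit 0)) (M (nat_lit 535516536147)))))) (T.h (P (nat_lit 0)) (T.h (T.h (M (nat_lit 111835958643)) (T.h (P (nat_lit 0)) (P (nat_lit 2408952354076)))) (T.h (P (nat_lit 0)) (M (nat_lit 662059193195))))))) (T.h (T.h (T.h (P (nat_lit 0)) (T.h (P (nat_lit 44990767968)) (T.h (P (nat_lit 0)) (T.h (P (nat_lit 1469615061840)) (T.h (P (nat_lit 0)) (M (nat_lit 2078957179923))))))) (T.h (P (nat_lit 0)) (T.h (T.h (P (nat_lit 0)) (T.h (M (nat_lit 2883132395763)) (T.h (P (nat_lit 0)) (P (nat_lit 4927311166708))))) (T.h (P (nat_lit 0)) (T.h (T.h (P (nat_lit 0)) (P (nat_lit 13833927249384))) (P (nat_lit 0))))))) (T.h (T.h (P (nat_lit 0)) (T.h (T.h (M (nat_lit 191899718755)) (T.h (P (nat_lit 0)) (P (nat_lit 2118470733304)))) (T.h (P (nat_lit 0)) (P (nat_lit 6498331007812))))) (T.h (T.h (T.h (P (nat_lit 0)) (T.h (M (nat_lit 1629909484051))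 (T.h (P (nat_lit 0)) (M (nat_lit 800083026215))))) (T.h (P (nat_lit 0)) (T.h (T.h (P (nat_lit 0)) (M (nat_lit 2364284626635))) (P (nat_lit 0))))) (T.h (T.h (P (nat_lit 0)) (P (nat_lit 391005789096))) (T.h (T.h (T.h (P (nat_lit 0)) (P (nat_lit 5679026101500))) (P (nat_lit 0))) (P (nat_lit 0)))))))) (P (nat_lit 0))) (P (nat_lit 0)))))
def en01_5 : T ℤ := (T.h (T.h (T.h (P (nat_lit 0)) (T.h (T.h (T.h (T.h (M (nat_lit 6385875)) (T.h (P (nat_lit 0)) (T.h (P (nat_lit 2455356136)) (T.h (P (nat_lit 0)) (T.h (M (nat_lit 246316653211)) (T.h (P (nat_lit 0)) (P (nat_lit 1825569617376)))))))) (T.h (P (nat_lit 0)) (T.h (T.h (M (nat_lit 1151418791)) (T.h (P (nat_lit 0)) (T.h (M (nat_lit 1251977697367)) (T.h (P (nat_lit 0)) (M (nat_lit 1866493542839)))))) (T.h (P (nat_lit 0)) (T.h (T.h (M (nat_lit 320256838851)) (T.h (P (nat_lit 0)) (P (nat_lit 3885640822560)))) (T.h (P (nat_lit 0)) (M (nat_lit 269821471463))))))))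 (T.h (T.h (P (nat_lit 0)) (T.h (T.h (P (nat_lit 0)) (T.h (M (nat_lit 205749664703)) (T.h (P (nat_lit 0)) (M (nat_lit 3661693468495))))) (T.h (P (nat_lit 0)) (T.h (T.h (P (nat_lit 0)) (M (nat_lit 5447713920819))) (P (nat_lit 0)))))) (T.h (T.h (T.h (M (nat_lit 34913370115)) (T.h (P (nat_lit 0)) (T.h (P (nat_lit 2396487214600)) (T.h (P (nat_lit 0)) (M (nat_lit 8392393663499)))))) (T.h (P (nat_lit 0)) (T.h (T.h (P (nat_lit 127264631592)) (T.h (P (nat_lit 0)) (M (nat_lit 15129541129431)))) (T.h (P (nat_lit 0)) (P (nat_lit 1659616630660)))))) (T.h (T.h (P (nat_lit 0)) (T.h (T.h (P (nat_lit 0)) (M (nat_lit 5165720249899))) (P (nat_lit 0)))) (T.h (T.h (T.h (P (nat_lit 228770421696)) (T.h (P (nat_lit 0)) (M (nat_lit 6755211750239)))) (T.h (P (nat_lit 0)) (M (nat_lit 4646926987539)))) (T.h (P (nat_lit 0)) (M (nat_lit 3338644556639)))))))) (P (nat_lit 0)))) (T.h (T.h (T.h (T.h (P (nat_lit 0)) (T.h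 (T.h (P (nat_lit 0)) (T.h (M (nat_lit 12252360575)) (T.h (P (nat_lit 0)) (T.h (M (nat_lit 748541910835)) (T.h (P (nat_lit 0)) (P (nat_lit 2308532680684))))))) (T.h (P (nat_lit 0)) (T.h (T.h (P (nat_lit 0)) (T.h (P (nat_lit 324381671208)) (T.h (P (nat_lit 0)) (M (nat_lit 3606946001179))))) (T.h (P (nat_lit 0)) (T.h (T.h (P (nat_lit 0)) (P (nat_lit 1788670822892))) (P (nat_lit 0)))))))) (T.h (T.h (T.h (M (nat_lit 854454323)) (T.h (P (nat_lit 0)) (T.h (M (nat_lit 216596695851)) (T.h (P (nat_lit 0)) (P (nat_lit 1565692475048)))))) (T.h (P (nat_lit 0)) (T.h (T.h (P (nat_lit 132910655908)) (T.h (P (nat_lit 0)) (P (nat_lit 2044536376880)))) (T.h (P (nat_lit 0)) (M (nat_lit 2424928052059)))))) (T.h (T.h (P (nat_lit 0)) (T.h (T.h (P (nat_lit 0)) (T.h (P (nat_lit 680175785600)) (T.h (P (nat_lit 0)) (M (nat_lit 8531781903627))))) (T.h (P (nat_lit 0)) (T.h (T.h (P (nat_lit 0)) (P (nat_lit 4450160396160)))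 (P (nat_lit 0)))))) (T.h (T.h (T.h (P (nat_lit 41318479800)) (T.h (P (nat_lit 0)) (P (nat_lit 3181043159252)))) (T.h (P (nat_lit 0)) (M (nat_lit 598854155275)))) (T.h (T.h (P (nat_lit 0)) (T.h (T.h (P (nat_lit 0)) (P (nat_lit 4076314663040))) (P (nat_lit 0)))) (M (nat_lit 1041505512455))))))) (P (nat_lit 0))) (P (nat_lit 0)))) (T.h (T.h (T.h (T.h (T.h (P (nat_lit 0)) (T.h (T.h (M (nat_lit 1969967999)) (T.h (P (nat_lit 0)) (T.h (P (nat_lit 138053815632)) (T.h (P (nat_lit 0)) (P (nat_lit 299517598172)))))) (T.h (P (nat_lit 0)) (T.h (T.h (P (nat_lit 10045583152)) (T.h (P (nat_lit 0)) (M (nat_lit 422808681355)))) (T.h (P (nat_lit 0)) (M (nat_lit 168094005067))))))) (T.h (T.h (T.h (P (nat_lit 0)) (T.h (P (nat_lit 11322550952)) (T.h (P (nat_lit 0)) (T.h (P (nat_lit 65848958156)) (T.h (P (nat_lit 0)) (M (nat_lit 3283343024003))))))) (T.h (P (nat_lit 0)) (T.h (T.h (P (nat_lit 0)) (T.h (M (nat_lit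 140252241263)) (T.h (P (nat_lit 0)) (M (nat_lit 6295517711419))))) (T.h (P (nat_lit 0)) (T.h (T.h (P (nat_lit 0)) (P (nat_lit 3233406553072))) (P (nat_lit 0))))))) (T.h (T.h (P (nat_lit 0)) (T.h (T.h (P (nat_lit 46852408444)) (T.h (P (nat_lit 0)) (M (nat_lit 3329736608727)))) (T.h (P (nat_lit 0)) (P (nat_lit 118233930460))))) (T.h (T.h (T.h (P (nat_lit 0)) (T.h (P (nat_lit 1021770989296)) (T.h (P (nat_lit 0)) (M (nat_lit 7824199347671))))) (T.h (P (nat_lit 0)) (T.h (T.h (P (nat_lit 0)) (M (nat_lit 1596408926687))) (P (nat_lit 0))))) (T.h (T.h (P (nat_lit 0)) (M (nat_lit 299412548063))) (T.h (T.h (T.h (P (nat_lit 0)) (P (nat_lit 357934677380))) (P (nat_lit 0))) (P (nat_lit 0)))))))) (P (nat_lit 0))) (P (nat_lit 0))) (P (nat_lit 0))))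
def en01_6 : T ℤ := (T.h (T.h (T.h (P (nat_lit 0)) (T.h (P (nat_lit 0)) (T.h (P (nat_lit 0)) (T.h (P (nat_lit 0)) (T.h (T.h (T.h (P (nat_lit 0)) (T.h (T.h (M (nat_lit 1039319851)) (T.h (P (nat_lit 0)) (T.h (M (nat_lit 53159157087)) (T.h (P (nat_lit 0)) (P (nat_lit 77500479292)))))) (T.h (P (nat_lit 0)) (T.h (T.h (M (nat_lit 12323236295)) (T.h (P (nat_lit 0)) (P (nat_lit 736894992824)))) (T.h (P (nat_lit 0)) (M (nat_lit 404757172671))))))) (T.h (T.h (T.h (P (nat_lit 0)) (T.h (P (nat_lit 18193164720)) (T.h (P (nat_lit 0)) (T.h (P (nat_lit 879924035088)) (T.h (P (nat_lit 0)) (M (nat_lit 5714639308639))))))) (T.h (P (nat_lit 0)) (T.h (T.h (P (nat_lit 0)) (T.h (M (nat_lit 58034614603)) (T.h (P (nat_lit 0)) (P (nat_lit 1908094467464))))) (T.h (P (nat_lit 0)) (T.h (T.h (P (nat_lit 0)) (M (nat_lit 279441111915))) (P (nat_lit 0))))))) (T.h (T.h (P (nat_lit 0)) (T.h (T.h (M (nat_lit 2955651263))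 (T.h (P (nat_lit 0)) (P (nat_lit 1934107204908)))) (T.h (P (nat_lit 0)) (M (nat_lit 1629127773815))))) (T.h (T.h (T.h (P (nat_lit 0)) (T.h (P (nat_lit 306550328696)) (T.h (P (nat_lit 0)) (P (nat_lit 4293452053460))))) (T.h (P (nat_lit 0)) (T.h (T.h (P (nat_lit 0)) (M (nat_lit 8876471868119))) (P (nat_lit 0))))) (T.h (T.h (P (nat_lit 0)) (P (nat_lit 863130565696))) (T.h (T.h (T.h (P (nat_lit 0)) (M (nat_lit 3911737423051))) (P (nat_lit 0))) (P (nat_lit 0)))))))) (P (nat_lit 0))))))) (T.h (T.h (P (nat_lit 0)) (T.h (P (nat_lit 0)) (T.h (P (nat_lit 0)) (T.h (T.h (T.h (T.h (P (nat_lit 0)) (T.h (P (nat_lit 4102555792)) (T.h (P (nat_lit 0)) (T.h (P (nat_lit 156843190688)) (T.h (P (nat_lit 0)) (M (nat_lit 609002099143))))))) (T.h (P (nat_lit 0)) (T.h (T.h (P (nat_lit 0)) (T.h (P (nat_lit 105886452060)) (T.h (P (nat_lit 0)) (M (nat_lit 3970879413031))))) (T.h (P (nat_lit 0)) (T.h (T.h (P (nat_lit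 0)) (P (nat_lit 814086075912))) (P (nat_lit 0))))))) (T.h (T.h (P (nat_lit 0)) (T.h (T.h (P (nat_lit 44906209920)) (T.h (P (nat_lit 0)) (T.h (P (nat_lit 1267978571296)) (T.h (P (nat_lit 0)) (M (nat_lit 8175048575631)))))) (T.h (P (nat_lit 0)) (T.h (T.h (P (nat_lit 659135025584)) (T.h (P (nat_lit 0)) (M (nat_lit 206526451167)))) (T.h (P (nat_lit 0)) (M (nat_lit 3384488831487))))))) (T.h (T.h (T.h (P (nat_lit 0)) (T.h (P (nat_lit 105886452060)) (T.h (P (nat_lit 0)) (M (nat_lit 3970879413031))))) (T.h (P (nat_lit 0)) (T.h (T.h (P (nat_lit 0)) (P (nat_lit 11263094161480))) (P (nat_lit 0))))) (T.h (T.h (P (nat_lit 0)) (T.h (T.h (P (nat_lit 659135025584)) (T.h (P (nat_lit 0)) (M (nat_lit 206526451167)))) (T.h (P (nat_lit 0)) (P (nat_lit 1342003794944))))) (T.h (T.h (T.h (P (nat_lit 0)) (P (nat_lit 814086075912))) (P (nat_lit 0))) (T.h (T.h (P (nat_lit 0)) (M (nat_lit 3384488831487))) (P (nat_lit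 0)))))))) (P (nat_lit 0)))))) en01_2)) (T.h (T.h (T.h (P (nat_lit 0)) (T.h (P (nat_lit 0)) (T.h (P (nat_lit 0)) (T.h (T.h (T.h (T.h (M (nat_lit 129664575)) (T.h (P (nat_lit 0)) (T.h (M (nat_lit 18455332459)) (T.h (P (nat_lit 0)) (T.h (M (nat_lit 103817631339)) (T.h (P (nat_lit 0)) (P (nat_lit 715457217524)))))))) (T.h (P (nat_lit 0)) (T.h (T.h (M (nat_lit 490261147)) (T.h (P (nat_lit 0)) (T.h (P (nat_lit 792904689948)) (T.h (P (nat_lit 0)) (P (nat_lit 4885218163920)))))) (T.h (P (nat_lit 0)) (T.h (T.h (M (nat_lit 121725682223)) (T.h (P (nat_lit 0)) (M (nat_lit 299815657111)))) (T.h (P (nat_lit 0)) (M (nat_lit 455604035711)))))))) (T.h (T.h (P (nat_lit 0)) (T.h (T.h (P (nat_lit 0)) (T.h (M (nat_lit 188599628327)) (T.h (P (nat_lit 0)) (M (nat_lit 4229967171791))))) (T.h (P (nat_lit 0)) (T.h (T.h (P (nat_lit 0)) (M (nat_lit 2972141571259))) (P (nat_lit 0)))))) (T.h (T.h (T.h (P (nat_lit 25618251452))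 (T.h (P (nat_lit 0)) (T.h (P (nat_lit 587085720156)) (T.h (P (nat_lit 0)) (P (nat_lit 1423102150040)))))) (T.h (P (nat_lit 0)) (T.h (T.h (M (nat_lit 218856525263)) (T.h (P (nat_lit 0)) (M (nat_lit 4236931592411)))) (T.h (P (nat_lit 0)) (P (nat_lit 3564945781384)))))) (T.h (T.h (P (nat_lit 0)) (T.h (T.h (P (nat_lit 0)) (P (nat_lit 459562238884))) (P (nat_lit 0)))) (T.h (T.h (T.h (M (nat_lit 391221605491)) (T.h (P (nat_lit 0)) (P (nat_lit 5368678631544)))) (T.h (P (nat_lit 0)) (P (nat_lit 327071523448)))) (T.h (P (nat_lit 0)) (P (nat_lit 1428899664336)))))))) (P (nat_lit 0)))))) en01_3) (T.h en01_4 en01_5)))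

def n01 : T ℤ := (T.h en01_1 en01_6)

theorem h_n01 : chkT (c.Nn 0 1 ++ c.Nn 1 0) n01 = true := by decide +kernel


end Pool.Agent.TOPR.R6104
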